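import Pool.Agent.R460.GS.Stm

/-!
# Goldbach lower bounds in the residue classes of every modulus `q ≤ x ^ (5/6 - ρ)`: the predicates

The predicates of `R460/GS/Stm`, with a free exponent `θ` for the size of the modulus.
-/

set_option autoImplicit false

namespace Pool.Agent.J4H40

open Finset
open Pool.Agent.Y883.GJ
open Pool.Agent.R460.GS (BdAt ApAt NcAt)

/-- few bad characters on the major arcs, moduli up to `N ^ θ` -/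
def MajE (N : ℕ) (θ : ℝ) (A C C₃ : ℕ) (F : ℕ → ℂ) : Prop :=
  ∀ (q : ℕ) [NeZero q], (q : ℝ) ≤ (N : ℝ) ^ θ →
    ∃ B : Finset (DirichletCharacter ℂ q), 1 ∈ B ∧ (B.card : ℝ) ≤ Real.log N ^ C₃ ∧
      ∀ η : ℝ, |η| ≤ Real.log N ^ C / N → ∀ y : ℕ, y ≤ N → ∀ S : Finset (DirichletCharacter ℂ q),
        Disjoint S B → ∑ χ ∈ S, ‖cs q y F η χ‖ ^ 2 ≤ (N : ℝ) ^ 2 / Real.log N ^ A

/-- no bad characters on the minor arcs, moduli up to `N ^ θ` -/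
def MinE (N : ℕ) (θ : ℝ) (A C : ℕ) (F : ℕ → ℂ) : Prop :=
  ∀ (q : ℕ) [NeZero q], (q : ℝ) ≤ (N : ℝ) ^ θ → ∀ (k : ℕ) (h : ℤ) (β : ℝ),
    Real.log N ^ C ≤ k → (q : ℝ) * k * Real.log N ^ C ≤ N → IsCoprime h (k : ℤ) →
    |q * β - h / k| ≤ 1 / (k : ℝ) ^ 2 → ∀ y : ℕ, y ≤ N →
    ∑ χ : DirichletCharacter ℂ q, ‖cs q y F β χ‖ ^ 2 ≤ (N : ℝ) ^ 2 / Real.log N ^ A

/-- the correlation with a shifted character of a large conductor is small, moduli up to `N ^ θ` -/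
def ShE (N : ℕ) (θ : ℝ) (B C T K : ℕ) (F : ℕ → ℂ) : Prop :=
  ∀ (q : ℕ) [NeZero q], (q : ℝ) ≤ (N : ℝ) ^ θ → ∀ χ : DirichletCharacter ℂ q,
    Real.log N ^ K < χ.conductor → ∀ a : ZMod q, (Nat.gcd a.val q : ℝ) ≤ Real.log N ^ T →
    ∀ η : ℝ, |η| ≤ Real.log N ^ C / N → ∀ y : ℕ, y ≤ N →
    ‖∑ l : ZMod q, cl q y F η l * χ (a - l)‖ ≤ N / Real.log N ^ B

end Pool.Agent.J4H40
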