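import Pool.Agent.R460.GH.PrVec
import Pool.Agent.J4H40.Pr

set_option autoImplicit false

/-! Convolutions of the indicator function of the rough numbers with short coefficients: the reduction to
sums of types I and II (adapted from `R460/GH/Dec` and `R460/GH/PrVec`). -/

namespace Pool.Agent.J4H40

open Finset
open Pool.Agent.R460.GS
open Pool.Agent.Y883.GJ
open Pool.Agent.Y614.GJ.Core (ev_log)
open Pool.Agent.R460.GH (af af_apply mul_ap mu1 mu1_le dec_af conv_vec sum_ap sub_ap Wk one_le_Wk Wk_real l2_vec cells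
  five_sq)

/-- coefficients supported on square-free rough numbers up to `D` -/
structure Cf (Z D : ℕ) (g : ℕ → ℂ) : Prop where
  le1 : ∀ d, ‖g d‖ ≤ 1
  sup : ∀ d, g d ≠ 0 → Squarefree d ∧ (∀ p ∈ d.primeFactors, Z < p) ∧ d ≤ D

/-- the number of the large prime factors -/
lemma card_big {Z N n : ℕ} (hn : 1 ≤ n) (hnN : n ≤ N) (hZ : N < (Z + 1) ^ 6) :
    (n.primeFactors.filter (fun p => Z < p)).card ≤ 5 := by
  by_contra h
  rw [not_le] at h
  obtain ⟨T, hT⟩ : ∃ T, T = n.primeFactors.filter (fun p => Z < p) := ⟨_, rfl⟩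
  rw [← hT] at h
  have h1 : ∏ p ∈ T, p ∣ n := by
    apply Finset.prod_primes_dvd
    · intro p hp
      rw [hT, mem_filter] at hp
      exact (Nat.prime_of_mem_primeFactors hp.1).prime
    · intro p hp
      rw [hT, mem_filter] at hp
      exact Nat.dvd_of_mem_primeFactors hp.1
  have h2 : (Z + 1) ^ T.card ≤ ∏ p ∈ T, p := by
    rw [← prod_const]
    apply prod_le_prod'
    intro p hp
    rw [hT, mem_filter] at hp
    exact hp.2
  have h3 := (h2.trans (Nat.le_of_dvd hn h1)).trans hnN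
  have h4 : (Z + 1) ^ 6 ≤ (Z + 1) ^ T.card := Nat.pow_le_pow_right (by omega) h
  omega

/-- the number of the square-free rough divisors -/
lemma card_rough {Z N n : ℕ} (hn : 1 ≤ n) (hnN : n ≤ N) (hZ : N < (Z + 1) ^ 6) :
    (n.divisors.filter (fun d => Squarefree d ∧ ∀ p ∈ d.primeFactors, Z < p)).card ≤ 32 := by
  classical
  have h1 : (n.divisors.filter (fun d => Squarefree d ∧ ∀ p ∈ d.primeFactors, Z < p)).card ≤
      ((n.primeFactors.filter (fun p => Z < p)).powerset).card := by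
    refine card_le_card_of_injOn (fun d => d.primeFactors) ?_ ?_
    · intro d hd
      rw [mem_coe, mem_filter, Nat.mem_divisors] at hd
      rw [mem_coe, mem_powerset]
      intro p hp
      rw [mem_filter]
      exact ⟨Nat.primeFactors_mono hd.1.1 hd.1.2 hp, hd.2.2 p hp⟩
    · intro d hd d' hd' h
      rw [mem_coe, mem_filter] at hd hd'
      rw [← Nat.prod_primeFactors_of_squarefree hd.2.1, ← Nat.prod_primeFactors_of_squarefree hd'.2.1]
      exact congrArg (fun s : Finset ℕ => ∏ p ∈ s, p) h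
  rw [card_powerset] at h1
  calc _ ≤ 2 ^ _ := h1
    _ ≤ 2 ^ 5 := Nat.pow_le_pow_right (by norm_num) (card_big hn hnN hZ)
    _ = 32 := by norm_num

lemma dv0 {n d : ℕ} (hn : 1 ≤ n) (hd : d ∈ n.divisors) : d ≠ 0 ∧ n / d ≠ 0 := by
  have hd' := Nat.dvd_of_mem_divisors hd
  have hd0 : d ≠ 0 := fun h => by
    rw [h] at hd'
    have := Nat.eq_zero_of_zero_dvd hd'
    omega
  exact ⟨hd0, (Nat.div_pos (Nat.le_of_dvd hn hd') (by omega)).ne'⟩

lemma cf_bd {Z D N n : ℕ} {g : ℕ → ℂ} (hg : Cf Z D g) (hn : 1 ≤ n) (hnN : n ≤ N) (hZ : N < (Z + 1) ^ 6)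
    (f : ℕ → ℂ) {X : ℝ} (hX0 : 0 ≤ X) (hX : ∀ d ∈ n.divisors, ‖f (n / d)‖ ≤ X) :
    ‖(af g * af f) n‖ ≤ 32 * X := by
  classical
  rw [mul_ap]
  have h1 : ∀ d ∈ n.divisors, ‖af g d * af f (n / d)‖ ≤
      if Squarefree d ∧ ∀ p ∈ d.primeFactors, Z < p then X else 0 := by
    intro d hd
    obtain ⟨hd0, hq0⟩ := dv0 hn hd
    rw [af_apply hd0, af_apply hq0, norm_mul]
    by_cases h : g d = 0
    · rw [h, norm_zero, zero_mul]
      split_ifs
      · exact hX0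
      · exact le_rfl
    · have h2 := hg.sup d h
      rw [if_pos ⟨h2.1, h2.2.1⟩]
      calc ‖g d‖ * ‖f (n / d)‖ ≤ 1 * X := mul_le_mul (hg.le1 d) (hX d hd) (norm_nonneg _) zero_le_one
        _ = X := one_mul _
  refine (norm_sum_le_of_le _ h1).trans ?_
  rw [← sum_filter, sum_const, nsmul_eq_mul]
  apply mul_le_mul_of_nonneg_right _ hX0
  exact_mod_cast card_rough hn hnN hZ

lemma cf_bd1 {Z D N n : ℕ} {g : ℕ → ℂ} (hg : Cf Z D g) (hn : 1 ≤ n) (hnN : n ≤ N) (hZ : N < (Z + 1) ^ 6)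
    {f : ℕ → ℂ} (hf : ∀ m, ‖f m‖ ≤ 1) : ‖(af g * af f) n‖ ≤ 32 := by
  have := cf_bd hg hn hnN hZ f zero_le_one (fun d _ => hf _)
  linarith

lemma pf_big {Z D W m d : ℕ} {g : ℕ → ℂ} (hg : Cf Z D g) (hWZ : W ≤ Z) (hm : 1 ≤ m) (hd : d ∣ m) (h1 : g d ≠ 0)
    (h2 : mu1 W W (m / d) ≠ 0) : d = ∏ p ∈ m.primeFactors.filter (fun p => Z < p), p := by
  obtain ⟨k1, k2, k3⟩ := hg.sup d h1
  have hm0 : m ≠ 0 := by omega
  have e : m.primeFactors.filter (fun p => Z < p) = d.primeFactors := by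
    ext p
    rw [mem_filter]
    constructor
    · rintro ⟨a1, a2⟩
      have hp := Nat.prime_of_mem_primeFactors a1
      have hpm := Nat.dvd_of_mem_primeFactors a1
      by_contra h3
      have hpd : ¬ p ∣ d := fun h => h3 (Nat.mem_primeFactors.2 ⟨hp, h, k1.ne_zero⟩)
      have h4 : p ∣ m / d := by
        have h5 : p ∣ d * (m / d) := by rw [Nat.mul_div_cancel' hd]; exact hpm
        rcases (Nat.Prime.dvd_mul hp).1 h5 with h | h
        · exact absurd h hpd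
        · exact h
      unfold mu1 at h2
      by_cases h6 : Sm W (m / d) ∧ m / d ≤ W
      · have h7 : m / d ≠ 0 := (Nat.div_pos (Nat.le_of_dvd hm hd) (Nat.pos_of_ne_zero k1.ne_zero)).ne'
        have h8 := h6.1.2 p (Nat.mem_primeFactors.2 ⟨hp, h4, h7⟩)
        omega
      · rw [if_neg h6] at h2
        exact h2 rfl
    · intro hp
      exact ⟨Nat.primeFactors_mono hd hm0 hp, k2 p hp⟩
  rw [e]
  exact (Nat.prod_primeFactors_of_squarefree k1).symm

/-- the coefficients of the type I part are bounded by one -/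
lemma ti_bd {Z D W m : ℕ} {g : ℕ → ℂ} (hg : Cf Z D g) (hWZ : W ≤ Z) (hm : 1 ≤ m) :
    ‖(af g * af (mu1 W W)) m‖ ≤ 1 := by
  classical
  rw [mul_ap]
  obtain ⟨d₀, hd₀⟩ : ∃ d₀, d₀ = ∏ p ∈ m.primeFactors.filter (fun p => Z < p), p := ⟨_, rfl⟩
  have h1 : ∀ d ∈ m.divisors, d ≠ d₀ → af g d * af (mu1 W W) (m / d) = 0 := by
    intro d hd hne
    obtain ⟨a, b⟩ := dv0 hm hd
    rw [af_apply a, af_apply b]
    by_contra h
    rw [mul_eq_zero, not_or] at h
    exact hne ((pf_big hg hWZ hm (Nat.dvd_of_mem_divisors hd) h.1 h.2).trans hd₀.symm)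
  by_cases h2 : d₀ ∈ m.divisors
  · rw [sum_eq_single d₀ h1 (fun h => absurd h2 h)]
    obtain ⟨a, b⟩ := dv0 hm h2
    rw [af_apply a, af_apply b, norm_mul]
    exact mul_le_one₀ (hg.le1 _) (norm_nonneg _) (mu1_le _ _ _)
  · rw [sum_eq_zero (fun d hd => h1 d hd (fun h => h2 (h ▸ hd))), norm_zero]
    exact zero_le_one

lemma ti_supp {Z D W m : ℕ} {g : ℕ → ℂ} (hg : Cf Z D g) (h : (af g * af (mu1 W W)) m ≠ 0) : m ≤ D * W := by
  classical
  rcases Nat.eq_zero_or_pos m with h0 | h0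
  · omega
  rw [mul_ap] at h
  by_contra hm
  rw [not_le] at hm
  apply h
  apply sum_eq_zero
  intro d hd
  obtain ⟨a, b⟩ := dv0 h0 hd
  rw [af_apply a, af_apply b]
  by_contra h3
  rw [mul_eq_zero, not_or] at h3
  have h4 := (hg.sup d h3.1).2.2
  have h5 : m / d ≤ W := by
    by_contra h6
    apply h3.2
    unfold mu1
    rw [if_neg (fun h7 => h6 h7.2)]
  have : m ≤ D * W := by
    calc m = d * (m / d) := (Nat.mul_div_cancel' (Nat.dvd_of_mem_divisors hd)).symm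
      _ ≤ D * W := Nat.mul_le_mul h4 h5
  omega

variable {V : Type*} [NormedAddCommGroup V] [NormedSpace ℂ V]

/-- the decomposition for vectors -/
lemma j2E {W Z D J y : ℕ} (E : ℕ → V) (c : ℕ → ℕ) (g : ArithmeticFunction ℂ)
    (h1 : ∀ m : ℕ, (m.Prime ∧ W < m ∧ m ≤ Z) → c m < J)
    (h2 : ∀ m : ℕ, (Sm W m ∧ D < m ∧ m / pmx m ≤ D) → c (pmx m) < J) :
    ‖∑ n ∈ Icc 1 y, ((g * af (fun n => ((ro Z n : ℝ) : ℂ))) n) • E n‖ ≤
      ‖∑ m ∈ Icc 1 y, ((g * af (mu1 W D)) m) • ∑ b ∈ Icc 1 (y / m), E (b * m)‖ +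
      ∑ j ∈ range J, ‖∑ m ∈ Icc 1 y, ∑ k ∈ Icc 1 (y / m), (a2 W D c j m * (g * af (b2 W c j)) k) • E (m * k)‖ +
      ∑ j ∈ range J, ‖∑ m ∈ Icc 1 y, ∑ k ∈ Icc 1 (y / m), (a1 W Z c j m * (g * af (b1 c j)) k) • E (m * k)‖ +
      ‖∑ n ∈ Icc 1 y, ((g * af (fun n => ((er W Z D c n : ℝ) : ℂ))) n) • E n‖ := by
  classical
  have e0 : g * af (fun n => ((ro Z n : ℝ) : ℂ)) = (g * af (mu1 W D)) * af (fun _ => 1) +
      ∑ j ∈ range J, af (a2 W D c j) * (g * af (b2 W c j)) -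
      ∑ j ∈ range J, af (a1 W Z c j) * (g * af (b1 c j)) +
      g * af (fun n => ((er W Z D c n : ℝ) : ℂ)) := by
    rw [dec_af c h1 h2, mul_add, mul_sub, mul_add, mul_sum, mul_sum, ← mul_assoc]
    simp only [mul_left_comm g]
  have e1 : ∑ n ∈ Icc 1 y, ((g * af (fun n => ((ro Z n : ℝ) : ℂ))) n) • E n =
      ∑ n ∈ Icc 1 y, (((g * af (mu1 W D)) * af (fun _ => 1)) n) • E n +
      ∑ j ∈ range J, ∑ n ∈ Icc 1 y, ((af (a2 W D c j) * (g * af (b2 W c j))) n) • E n -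
      ∑ j ∈ range J, ∑ n ∈ Icc 1 y, ((af (a1 W Z c j) * (g * af (b1 c j))) n) • E n +
      ∑ n ∈ Icc 1 y, ((g * af (fun n => ((er W Z D c n : ℝ) : ℂ))) n) • E n := by
    rw [sum_comm (s := range J), sum_comm (s := range J), ← sum_add_distrib, ← sum_sub_distrib, ← sum_add_distrib]
    refine sum_congr rfl fun n _ => ?_
    rw [← sum_smul, ← sum_smul, ← add_smul, ← sub_smul, ← add_smul]
    congr 1
    rw [e0, ArithmeticFunction.add_apply, sub_ap, ArithmeticFunction.add_apply, sum_ap, sum_ap]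
  have e3 : ∀ (a : ℕ → ℂ) (h : ArithmeticFunction ℂ), ∑ n ∈ Icc 1 y, ((af a * h) n) • E n =
      ∑ m ∈ Icc 1 y, ∑ k ∈ Icc 1 (y / m), (a m * h k) • E (m * k) := by
    intro a h
    rw [conv_vec]
    refine sum_congr rfl fun m hm => sum_congr rfl fun k _ => ?_
    rw [af_apply (by rw [mem_Icc] at hm; omega)]
  have e2 : ∑ n ∈ Icc 1 y, (((g * af (mu1 W D)) * af (fun _ => 1)) n) • E n =
      ∑ m ∈ Icc 1 y, ((g * af (mu1 W D)) m) • ∑ b ∈ Icc 1 (y / m), E (b * m) := by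
    rw [conv_vec]
    refine sum_congr rfl fun m _ => ?_
    rw [smul_sum]
    refine sum_congr rfl fun k hk => ?_
    rw [af_apply (by rw [mem_Icc] at hk; omega), mul_one, Nat.mul_comm m k]
  rw [e1, e2]
  simp only [e3]
  refine (norm_add_le _ _).trans (add_le_add ?_ le_rfl)
  refine (norm_sub_le _ _).trans (add_le_add ?_ (norm_sum_le _ _))
  exact (norm_add_le _ _).trans (add_le_add le_rfl (norm_sum_le _ _))

open Classical in
/-- the error of the decomposition -/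
lemma er_cf {W Z P D N n : ℕ} {g : ℕ → ℂ} (hg : Cf Z D g) (hWZ : W ≤ Z) (hP : 1 ≤ P) (hn : 1 ≤ n) (hnN : n ≤ N)
    (hZ : N < (Z + 1) ^ 6) (c : ℕ → ℕ) (hc : ∀ a b, 1 ≤ a → a ≤ b → c a ≤ c b) :
    ‖(af g * af (fun n => ((er W Z P c n : ℝ) : ℂ))) n‖ ≤ 32 * (if Tw c n then 2 * (n.divisors.card : ℝ) else 0) := by
  apply cf_bd hg hn hnN hZ
  · split_ifs
    · positivity
    · exact le_rfl
  · intro d hd
    have hdn := Nat.dvd_of_mem_divisors hd
    obtain ⟨hd0, hq0⟩ := dv0 hn hd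
    rw [Complex.norm_real, Real.norm_eq_abs]
    refine (er_le hWZ hP (Nat.pos_of_ne_zero hq0) c hc).trans ?_
    by_cases h : Tw c (n / d)
    · have h' : Tw c n := by
        obtain ⟨p₁, p₂, k1, k2, k3, k4, k5⟩ := h
        exact ⟨p₁, p₂, k1, k2, k3, k4.trans (Nat.div_dvd_of_dvd hdn), k5⟩
      rw [if_pos h, if_pos h']
      have : (n / d).divisors.card ≤ n.divisors.card :=
        card_le_card (Nat.divisors_subset_of_dvd (by omega) (Nat.div_dvd_of_dvd hdn))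
      have h2 : (((n / d).divisors.card : ℕ) : ℝ) ≤ (n.divisors.card : ℝ) := by exact_mod_cast this
      linarith
    · rw [if_neg h]
      split_ifs
      · positivity
      · exact le_rfl

/-- the sieve function with coefficients, with the weight `log N` -/
noncomputable def FC (N Z : ℕ) (g : ℕ → ℂ) (n : ℕ) : ℂ :=
  ((Real.log N : ℝ) : ℂ) * (af g * af (fun n => ((ro Z n : ℝ) : ℂ))) n

lemma four_sq {T T1 T2 T3 T4 X : ℝ} (hT0 : 0 ≤ T) (h : T ≤ T1 + T2 + T3 + T4)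
    (h1 : T1 ^ 2 ≤ X) (h2 : T2 ^ 2 ≤ X) (h3 : T3 ^ 2 ≤ X) (h4 : T4 ^ 2 ≤ X) :
    T ^ 2 ≤ 25 * X := by
  have hX : 0 ≤ X := (sq_nonneg T1).trans h1
  exact five_sq hT0 (T5 := 0) (by linarith) h1 h2 h3 h4 (by rw [zero_pow two_ne_zero]; exact hX)

open Classical in
/-- reduction to sums of types I and II -/
lemma vecE (h1 : L2Stm) (A k : ℕ) : ∃ N₀ : ℕ, ∀ N : ℕ, N₀ ≤ N → ∀ (Z D : ℕ) (g : ℕ → ℂ), Cf Z D g →
    N < (Z + 1) ^ 6 → Wk k N * Wk k N ≤ Z → Z ≤ N → ∀ (q : ℕ) [NeZero q], (q : ℝ) ≤ N →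
    ∀ (S : Finset (DirichletCharacter ℂ q)) (β : ℝ) (y : ℕ), y ≤ N →
    (‖∑ m ∈ Icc 1 y, ((af g * af (mu1 (Wk k N) (Wk k N))) m) • ∑ b ∈ Icc 1 (y / m), ev S β (b * m)‖ ^ 2 ≤
      (N : ℝ) ^ 2 / Real.log N ^ (A + 4)) →
    (∀ j ∈ range (JJ N (A + 14)), ‖∑ m ∈ Icc 1 y, ∑ l ∈ Icc 1 (y / m),
      (a2 (Wk k N) (Wk k N) (cc N (A + 14)) j m * (af g * af (b2 (Wk k N) (cc N (A + 14)) j)) l) •
        ev S β (m * l)‖ ^ 2 ≤ (N : ℝ) ^ 2 / Real.log N ^ (A + 2 * (A + 14) + 8)) →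
    (∀ j ∈ range (JJ N (A + 14)), ‖∑ m ∈ Icc 1 y, ∑ l ∈ Icc 1 (y / m),
      (a1 (Wk k N) Z (cc N (A + 14)) j m * (af g * af (b1 (cc N (A + 14)) j)) l) •
        ev S β (m * l)‖ ^ 2 ≤ (N : ℝ) ^ 2 / Real.log N ^ (A + 2 * (A + 14) + 8)) →
    ‖∑ n ∈ Icc 1 y, ((af g * af (fun n => ((ro Z n : ℝ) : ℂ))) n) • ev S β n‖ ^ 2 ≤
      (N : ℝ) ^ 2 / Real.log N ^ A := by
  obtain ⟨N₀, hN₀⟩ := Filter.eventually_atTop.1 (ev_log (A + 5) (s := 1 / 3) (by norm_num) 20000)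
  refine ⟨max N₀ 64, fun N hN Z D g hg hZ6 hWW hZN q _ hqN S β y hy t1 t2 t3 => ?_⟩
  have hN64 : 64 ≤ N := le_trans (le_max_right _ _) hN
  have hN1 : 1 ≤ N := by omega
  have hN0 : (0 : ℝ) < N := by exact_mod_cast hN1
  have hNr1 : (1 : ℝ) ≤ N := by exact_mod_cast hN1
  have hW1 := one_le_Wk (k := k) hN1
  have hWZ : Wk k N ≤ Z := le_trans (Nat.le_mul_of_pos_left _ hW1) hWW
  obtain ⟨hL, hLp⟩ := hN₀ N (le_trans (le_max_left _ _) hN)
  have hdec := j2E (V := EuclideanSpace ℂ (DirichletCharacter ℂ q)) (W := Wk k N) (Z := Z)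
    (D := Wk k N) (J := JJ N (A + 14)) (y := y) (ev S β) (cc N (A + 14)) (af g)
    (fun m hm => cc_lt hm.1.one_le (hm.2.2.trans hZN) (by linarith))
    (fun m hm => by
      have h2 := sm_le (one_le_Wk hN1) hm.1 hm.2.1 hm.2.2
      exact cc_lt (by omega) (h2.1.trans (hWZ.trans hZN)) (by linarith))
  have herr : ‖∑ n ∈ Icc 1 y, ((af g * af (fun n => ((er (Wk k N) Z (Wk k N) (cc N (A + 14)) n : ℝ) : ℂ))) n) •
      ev S β n‖ ^ 2 ≤ (N : ℝ) ^ 2 / Real.log N ^ (A + 4) := by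
    have e2 : ∑ n ∈ Icc 1 y, ‖(af g * af (fun n => ((er (Wk k N) Z (Wk k N) (cc N (A + 14)) n : ℝ) : ℂ))) n‖ ^ 2 ≤
        1024 * (64 * (Real.log N ^ (A + 14))⁻¹ * N * (1 + Real.log N) ^ 5) := by
      refine le_trans ?_ (mul_le_mul_of_nonneg_left (tw_sum (δ := (Real.log N ^ (A + 14))⁻¹) (by
        have : 0 < Real.log N := by linarith
        positivity) N) (by norm_num))
      rw [mul_sum]
      refine le_trans (sum_le_sum fun n hn => ?_)
        (sum_le_sum_of_subset_of_nonneg (Icc_subset_Icc le_rfl hy) fun _ _ _ => by positivity)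
      rw [mem_Icc] at hn
      refine (pow_le_pow_left₀ (norm_nonneg _) (er_cf hg hWZ hW1 hn.1 (hn.2.trans hy) hZ6 _
        (fun a b ha hab => ci_mono (by
          have : 0 < Real.log N := by linarith
          positivity) a b ha hab)) 2).trans (le_of_eq ?_)
      rw [mul_pow]
      norm_num
    refine (l2_vec h1 hqN hy S β _ e2).trans ?_
    obtain ⟨L, hLd⟩ : ∃ L, L = Real.log (N : ℝ) := ⟨_, rfl⟩
    rw [← hLd] at hL ⊢
    have hL0 : 0 < L := by linarith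
    calc (2 * (N : ℝ)) * (1024 * (64 * (L ^ (A + 14))⁻¹ * N * (1 + L) ^ 5))
        ≤ (2 * N) * (1024 * (64 * (L ^ (A + 14))⁻¹ * N * (2 * L) ^ 5)) := by
          gcongr
          linarith
      _ = (N : ℝ) ^ 2 / L ^ (A + 4) * (4194304 / L ^ 5) := by
          rw [show A + 14 = (A + 4) + 5 + 5 by ring, pow_add, pow_add L (A + 4) 5]
          field_simp
          ring
      _ ≤ (N : ℝ) ^ 2 / L ^ (A + 4) * 1 := by
          have h5 : 4194304 / L ^ 5 ≤ 1 := by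
            rw [div_le_one (by positivity)]
            calc (4194304 : ℝ) ≤ 20000 ^ 5 := by norm_num
              _ ≤ L ^ 5 := pow_le_pow_left₀ (by norm_num) hL 5
          gcongr
      _ = _ := mul_one _
  have k2 := cells (by linarith) _ t2
  have k3 := cells (by linarith) _ t3
  have hall := four_sq (norm_nonneg _) hdec t1 k2 k3 herr
  refine hall.trans ?_
  obtain ⟨L, hLd⟩ : ∃ L, L = Real.log (N : ℝ) := ⟨_, rfl⟩
  rw [← hLd] at hL ⊢
  have hL0 : 0 < L := by linarith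
  calc 25 * ((N : ℝ) ^ 2 / L ^ (A + 4)) = (N : ℝ) ^ 2 / L ^ A * (25 / L ^ 4) := by
        rw [pow_add]
        field_simp
    _ ≤ (N : ℝ) ^ 2 / L ^ A * 1 := by
        have h5 : 25 / L ^ 4 ≤ 1 := by
          rw [div_le_one (by positivity)]
          calc (25 : ℝ) ≤ L := by linarith
            _ = L ^ 1 := (pow_one L).symm
            _ ≤ L ^ 4 := pow_le_pow_right₀ (by linarith) (by norm_num)
        gcongr
    _ = _ := mul_one _

/-- the sums over the characters and the norms of the vectors -/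
lemma cs_FC {q : ℕ} [NeZero q] (S : Finset (DirichletCharacter ℂ q)) (β : ℝ) (N Z y : ℕ) (g : ℕ → ℂ) :
    ∑ χ ∈ S, ‖cs q y (FC N Z g) β χ‖ ^ 2 = Real.log N ^ 2 *
      ‖∑ n ∈ Icc 1 y, ((af g * af (fun n => ((ro Z n : ℝ) : ℂ))) n) • ev S β n‖ ^ 2 := by
  rw [norm_ev1 S β (Icc 1 y) (fun n => (af g * af (fun n => ((ro Z n : ℝ) : ℂ))) n) (fun n => n), mul_sum]
  refine sum_congr rfl fun χ _ => ?_
  have e : cs q y (FC N Z g) β χ = ((Real.log N : ℝ) : ℂ) * ∑ n ∈ Icc 1 y,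
      (af g * af (fun n => ((ro Z n : ℝ) : ℂ))) n * (χ (n : ZMod q) * Pool.Agent.H807R2.Dav.ee (n * β)) := by
    unfold cs FC
    rw [mul_sum]
    refine sum_congr rfl fun n _ => ?_
    ring
  rw [e, norm_mul, mul_pow, Complex.norm_real, Real.norm_eq_abs, sq_abs]

end Pool.Agent.J4H40
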