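import Pool.Agent.J4H75.PN.UWeyl

set_option autoImplicit false

/-! Characteristic functions of random numbers with independent digits. -/

namespace Pool.Agent.J4H40.Ca

open MeasureTheory ProbabilityTheory Finset Filter Topology
open scoped Real
open Pool.Agent.J4H75.PN (ee norm_ee ee_add)

/-- the distance to the nearest integer -/
noncomputable def dn (x : ℝ) : ℝ := |x - round x|

lemma dn_nn (x : ℝ) : 0 ≤ dn x := abs_nonneg _

lemma dn_le (x : ℝ) (p : ℤ) : dn x ≤ |x - p| := round_le x p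

lemma dn_half (x : ℝ) : dn x ≤ 1 / 2 := abs_sub_round x

lemma dn_mul (k : ℤ) (x : ℝ) : dn (k * x) ≤ |(k : ℝ)| * dn x := by
  have h1 := dn_le (k * x) (k * round x)
  refine h1.trans (le_of_eq ?_)
  unfold dn
  rw [← abs_mul]
  congr 1
  push_cast
  ring

lemma cos_bd (x : ℝ) : Real.cos (2 * π * x) ≤ 1 - 8 * dn x ^ 2 := by
  obtain ⟨y, hy⟩ : ∃ y, y = x - round x := ⟨_, rfl⟩
  have h1 : Real.cos (2 * π * x) = Real.cos (2 * (π * y)) := by
    have : 2 * π * x = 2 * (π * y) + (round x : ℤ) * (2 * π) := by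
      rw [hy]
      ring
    rw [this, Real.cos_add_int_mul_two_pi]
  have h2 : |y| ≤ 1 / 2 := by rw [hy]; exact abs_sub_round x
  have h3 : 2 * |y| ≤ |Real.sin (π * y)| := by
    have h4 : |Real.sin (π * y)| = Real.sin (π * |y|) := by
      rcases le_total 0 y with h0 | h0
      · rw [abs_of_nonneg h0, abs_of_nonneg]
        apply Real.sin_nonneg_of_nonneg_of_le_pi
        · positivity
        · rw [abs_of_nonneg h0] at h2
          nlinarith [Real.pi_pos]
      · rw [abs_of_nonpos h0, mul_neg, Real.sin_neg, abs_of_nonpos]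
        rw [abs_of_nonpos h0] at h2
        apply Real.sin_nonpos_of_nonpos_of_neg_pi_le
        · nlinarith [Real.pi_pos]
        · nlinarith [Real.pi_pos]
    rw [h4]
    have h5 := Real.mul_le_sin (x := π * |y|) (by positivity) (by nlinarith [Real.pi_pos])
    have h6 : 2 / π * (π * |y|) = 2 * |y| := by
      field_simp
    rw [h6] at h5
    exact h5
  rw [h1, Real.cos_two_mul']
  have h7 : Real.sin (π * y) ^ 2 + Real.cos (π * y) ^ 2 = 1 := Real.sin_sq_add_cos_sq _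
  have h8 : (2 * |y|) ^ 2 ≤ Real.sin (π * y) ^ 2 := by
    rw [← sq_abs (Real.sin (π * y))]
    exact pow_le_pow_left₀ (by positivity) h3 2
  have h9 : dn x = |y| := by rw [hy]; rfl
  rw [h9]
  nlinarith

lemma ee_re_im (t : ℝ) : ee t = (Real.cos (2 * π * t) : ℂ) + (Real.sin (2 * π * t) : ℂ) * Complex.I := by
  unfold ee
  have : (2 * π * Complex.I * t : ℂ) = ((2 * π * t : ℝ) : ℂ) * Complex.I := by push_cast; ring
  rw [this, Complex.exp_mul_I, Complex.ofReal_cos, Complex.ofReal_sin]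

lemma two_atoms (x : ℝ) : ‖1 + ee x‖ ≤ 2 - 4 * dn x ^ 2 := by
  have h1 : ‖1 + ee x‖ ^ 2 = 2 + 2 * Real.cos (2 * π * x) := by
    have h2 : 1 + ee x = ((1 + Real.cos (2 * π * x) : ℝ) : ℂ) + ((Real.sin (2 * π * x) : ℝ) : ℂ) * Complex.I := by
      rw [ee_re_im]
      push_cast
      ring
    rw [h2, Complex.sq_norm, Complex.normSq_add_mul_I]
    have h3 := Real.sin_sq_add_cos_sq (2 * π * x)
    nlinarith
  have h2 := cos_bd x
  have h3 := dn_half x
  have h4 := dn_nn x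
  have h5 : dn x ^ 2 ≤ 1 / 4 := by nlinarith
  apply le_of_sq_le_sq
  · rw [h1]
    nlinarith
  · linarith

variable {Ω : Type*} [MeasurableSpace Ω] {μ : Measure Ω}

lemma ee_cont : Continuous ee := by
  unfold ee
  fun_prop

/-- the characteristic function of a variable with two atoms -/
lemma digit_char [IsProbabilityMeasure μ] {Y : Ω → ℝ} (hY : Measurable Y) {c v u : ℝ} {k G : ℕ} (hc : 0 ≤ c) (hk : 1 ≤ k)
    (hkG : k ∣ G) (hG : 1 ≤ G) (h1 : c ≤ μ.real (Y ⁻¹' {v})) (h2 : c ≤ μ.real (Y ⁻¹' {v + k * u})) (hu : 0 < u) (t : ℝ) :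
    ‖∫ ω, ee (t * Y ω) ∂μ‖ ≤ 1 - 4 * c * dn (G * u * t) ^ 2 / G ^ 2 := by
  obtain ⟨A, hA⟩ : ∃ A, A = Y ⁻¹' {v} := ⟨_, rfl⟩
  obtain ⟨B, hB⟩ : ∃ B, B = Y ⁻¹' {v + k * u} := ⟨_, rfl⟩
  have hk0 : (0 : ℝ) < k := by exact_mod_cast hk
  have hG0 : (0 : ℝ) < G := by exact_mod_cast hG
  have hAm : MeasurableSet A := by rw [hA]; exact hY (measurableSet_singleton v)
  have hBm : MeasurableSet B := by rw [hB]; exact hY (measurableSet_singleton _)
  have hAB : Disjoint A B := by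
    rw [Set.disjoint_left]
    intro ω h3 h4
    rw [hA, Set.mem_preimage, Set.mem_singleton_iff] at h3
    rw [hB, Set.mem_preimage, Set.mem_singleton_iff, h3] at h4
    have : 0 < (k : ℝ) * u := by positivity
    linarith
  rw [← hA] at h1
  rw [← hB] at h2
  have hint : Integrable (fun ω => ee (t * Y ω)) μ := by
    refine Integrable.of_bound (ee_cont.measurable.comp (hY.const_mul t)).aestronglyMeasurable 1 ?_
    filter_upwards with ω
    rw [norm_ee]
  have e1 : ∫ ω, ee (t * Y ω) ∂μ = (∫ ω in A ∪ B, ee (t * Y ω) ∂μ) + ∫ ω in (A ∪ B)ᶜ, ee (t * Y ω) ∂μ :=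
    (integral_add_compl (hAm.union hBm) hint).symm
  have e2 : ∫ ω in A ∪ B, ee (t * Y ω) ∂μ = (μ.real A : ℂ) * ee (t * v) + (μ.real B : ℂ) * ee (t * (v + k * u)) := by
    rw [setIntegral_union hAB hBm hint.integrableOn hint.integrableOn]
    congr 1
    · rw [setIntegral_congr_fun (g := fun _ => ee (t * v)) hAm (fun ω hω => by
        rw [hA, Set.mem_preimage, Set.mem_singleton_iff] at hω
        simp only [hω]), setIntegral_const, Complex.real_smul]
    · rw [setIntegral_congr_fun (g := fun _ => ee (t * (v + k * u))) hBm (fun ω hω => by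
        rw [hB, Set.mem_preimage, Set.mem_singleton_iff] at hω
        simp only [hω]), setIntegral_const, Complex.real_smul]
  have e3 : ‖∫ ω in (A ∪ B)ᶜ, ee (t * Y ω) ∂μ‖ ≤ 1 - (μ.real A + μ.real B) := by
    refine (norm_integral_le_integral_norm _).trans ?_
    simp only [norm_ee]
    rw [setIntegral_const, smul_eq_mul, mul_one, probReal_compl_eq_one_sub (hAm.union hBm), measureReal_union hAB hBm]
  have e4 : ‖(μ.real A : ℂ) * ee (t * v) + (μ.real B : ℂ) * ee (t * (v + k * u))‖ ≤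
      (μ.real A - c) + (μ.real B - c) + c * ‖1 + ee (t * (k * u))‖ := by
    have h3 : (μ.real A : ℂ) * ee (t * v) + (μ.real B : ℂ) * ee (t * (v + k * u)) =
        ((μ.real A - c : ℝ) : ℂ) * ee (t * v) + ((μ.real B - c : ℝ) : ℂ) * ee (t * (v + k * u)) +
          (c : ℂ) * (ee (t * v) * (1 + ee (t * (k * u)))) := by
      have h4 : ee (t * (v + k * u)) = ee (t * v) * ee (t * (k * u)) := by
        rw [← ee_add]
        congr 1
        ring
      rw [h4]
      push_cast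
      ring
    rw [h3]
    refine (norm_add_le _ _).trans (add_le_add ((norm_add_le _ _).trans (add_le_add ?_ ?_)) ?_)
    · rw [norm_mul, norm_ee, mul_one, Complex.norm_real, Real.norm_eq_abs, abs_of_nonneg (by linarith)]
    · rw [norm_mul, norm_ee, mul_one, Complex.norm_real, Real.norm_eq_abs, abs_of_nonneg (by linarith)]
    · rw [norm_mul, norm_mul, norm_ee, one_mul, Complex.norm_real, Real.norm_eq_abs, abs_of_nonneg hc]
  have e5 := two_atoms (t * (k * u))
  have e6 : dn (G * u * t) ^ 2 / G ^ 2 ≤ dn (t * (k * u)) ^ 2 := by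
    obtain ⟨q, hq⟩ := hkG
    have hq1 : 1 ≤ q := by
      rcases Nat.eq_zero_or_pos q with h | h
      · rw [h, mul_zero] at hq
        omega
      · exact h
    have h3 : (G : ℝ) * u * t = ((q : ℤ) : ℝ) * (t * (k * u)) := by
      rw [hq]
      push_cast
      ring
    have h4 := dn_mul (q : ℤ) (t * (k * u))
    rw [← h3] at h4
    have h5 : |((q : ℤ) : ℝ)| ≤ G := by
      rw [Int.cast_natCast, Nat.abs_cast, hq]
      have h6 : q ≤ k * q := Nat.le_mul_of_pos_left _ hk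
      exact_mod_cast h6
    have h6 : dn (G * u * t) ≤ G * dn (t * (k * u)) := h4.trans (mul_le_mul_of_nonneg_right h5 (dn_nn _))
    rw [div_le_iff₀ (by positivity)]
    calc dn (G * u * t) ^ 2 ≤ (G * dn (t * (k * u))) ^ 2 := pow_le_pow_left₀ (dn_nn _) h6 2
      _ = dn (t * (k * u)) ^ 2 * (G : ℝ) ^ 2 := by ring
  rw [e1, e2]
  refine (norm_add_le _ _).trans ?_
  have e7 : c * ‖1 + ee (t * (k * u))‖ ≤ c * (2 - 4 * dn (t * (k * u)) ^ 2) := mul_le_mul_of_nonneg_left e5 hc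
  have e8 : 4 * c * dn (G * u * t) ^ 2 / G ^ 2 ≤ 4 * c * dn (t * (k * u)) ^ 2 := by
    rw [mul_div_assoc]
    exact mul_le_mul_of_nonneg_left e6 (by positivity)
  linarith

/-- the random number with the digits `Y` -/
noncomputable def val (b : ℕ) (Y : ℕ → Ω → ℝ) (ω : Ω) : ℝ := ∑' j, Y j ω / (b : ℝ) ^ (j + 1)

lemma val_tendsto {b : ℕ} (hb : 2 ≤ b) {Y : ℕ → Ω → ℝ} {D : ℝ} (hD : ∀ j ω, |Y j ω| ≤ D) (ω : Ω) :
    Tendsto (fun J => ∑ j ∈ range J, Y j ω / (b : ℝ) ^ (j + 1)) atTop (𝓝 (val b Y ω)) := by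
  apply HasSum.tendsto_sum_nat
  apply Summable.hasSum
  have hb2 : (2 : ℝ) ≤ b := by exact_mod_cast hb
  have hD0 : (0 : ℝ) ≤ D := (abs_nonneg _).trans (hD 0 ω)
  apply Summable.of_norm_bounded (g := fun j => (D : ℝ) * (1 / 2) ^ j)
  · exact (summable_geometric_of_lt_one (by norm_num) (by norm_num)).mul_left _
  · intro j
    rw [norm_div, norm_pow, Real.norm_eq_abs, Real.norm_eq_abs, abs_of_pos (by linarith : (0 : ℝ) < b)]
    have h2 : (2 : ℝ) ^ j ≤ (b : ℝ) ^ (j + 1) := by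
      calc (2 : ℝ) ^ j ≤ (b : ℝ) ^ j := pow_le_pow_left₀ (by norm_num) hb2 j
        _ ≤ (b : ℝ) ^ (j + 1) := pow_le_pow_right₀ (by linarith) (by omega)
    rw [one_div, inv_pow, ← div_eq_mul_inv]
    exact div_le_div₀ hD0 (hD j ω) (by positivity) h2

lemma val_meas {b : ℕ} (hb : 2 ≤ b) {Y : ℕ → Ω → ℝ} (hY : ∀ j, Measurable (Y j)) {D : ℝ} (hD : ∀ j ω, |Y j ω| ≤ D) :
    Measurable (val b Y) := by
  apply measurable_of_tendsto_metrizable (f := fun J ω => ∑ j ∈ range J, Y j ω / (b : ℝ) ^ (j + 1))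
  · intro J
    exact Finset.measurable_fun_sum _ fun j _ => (hY j).div_const _
  · rw [tendsto_pi_nhds]
    exact val_tendsto hb hD

/-- the characteristic function of the random number -/
lemma val_char [IsProbabilityMeasure μ] {b : ℕ} (hb : 2 ≤ b) {Y : ℕ → Ω → ℝ} (hY : ∀ j, Measurable (Y j))
    (hi : iIndepFun Y μ) {D : ℝ} (hD : ∀ j ω, |Y j ω| ≤ D) (τ : ℝ) (F : Finset ℕ) :
    ‖∫ ω, ee (τ * val b Y ω) ∂μ‖ ≤ ∏ j ∈ F, ‖∫ ω, ee (τ / (b : ℝ) ^ (j + 1) * Y j ω) ∂μ‖ := by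
  have hpt : ∀ J ω, ee (τ * ∑ j ∈ range J, Y j ω / (b : ℝ) ^ (j + 1)) =
      ∏ j : Fin J, ee (τ / (b : ℝ) ^ ((j : ℕ) + 1) * Y j ω) := by
    intro J ω
    rw [← Finset.prod_range fun j => ee (τ / (b : ℝ) ^ (j + 1) * Y j ω)]
    induction J with
    | zero => simp [ee]
    | succ J ih =>
      rw [Finset.sum_range_succ, mul_add, ee_add, ih, Finset.prod_range_succ]
      congr 2
      ring
  have hint : ∀ J, ∫ ω, ee (τ * ∑ j ∈ range J, Y j ω / (b : ℝ) ^ (j + 1)) ∂μ =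
      ∏ j ∈ range J, ∫ ω, ee (τ / (b : ℝ) ^ (j + 1) * Y j ω) ∂μ := by
    intro J
    simp only [hpt]
    have hind : iIndepFun (fun j : Fin J => Y (j : ℕ)) μ := hi.precomp Fin.val_injective
    rw [hind.integral_fun_prod_comp (f := fun (j : Fin J) (v : ℝ) => ee (τ / (b : ℝ) ^ ((j : ℕ) + 1) * v))
      (fun j => (hY j).aemeasurable)
      (fun j => (ee_cont.comp (continuous_const.mul continuous_id)).aestronglyMeasurable)]
    rw [← Finset.prod_range fun j => ∫ ω, ee (τ / (b : ℝ) ^ (j + 1) * Y j ω) ∂μ]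
  have hmeasJ : ∀ J, Measurable fun ω => ∑ j ∈ range J, Y j ω / (b : ℝ) ^ (j + 1) := by
    intro J
    exact Finset.measurable_fun_sum _ fun j _ => (hY j).div_const _
  have hlim : Tendsto (fun J => ∫ ω, ee (τ * ∑ j ∈ range J, Y j ω / (b : ℝ) ^ (j + 1)) ∂μ) atTop
      (𝓝 (∫ ω, ee (τ * val b Y ω) ∂μ)) := by
    apply tendsto_integral_of_dominated_convergence (fun _ => (1 : ℝ))
    · intro J
      exact (ee_cont.measurable.comp ((hmeasJ J).const_mul τ)).aestronglyMeasurable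
    · exact integrable_const _
    · intro J
      filter_upwards with ω
      rw [norm_ee]
    · filter_upwards with ω
      exact (ee_cont.tendsto _).comp ((val_tendsto hb hD ω).const_mul τ)
  have hle : ∀ j, ‖∫ ω, ee (τ / (b : ℝ) ^ (j + 1) * Y j ω) ∂μ‖ ≤ 1 := by
    intro j
    refine (norm_integral_le_integral_norm _).trans ?_
    simp only [norm_ee]
    rw [integral_const, probReal_univ, one_smul]
  apply le_of_tendsto hlim.norm
  filter_upwards [eventually_ge_atTop (F.sup id + 1)] with J hJ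
  rw [hint, norm_prod]
  have hsub : F ⊆ range J := by
    intro j hj
    have h1 : j ≤ F.sup id := Finset.le_sup (f := id) hj
    exact Finset.mem_range.2 (by omega)
  rw [← Finset.prod_sdiff hsub]
  exact mul_le_of_le_one_left (Finset.prod_nonneg fun j _ => norm_nonneg _)
    (Finset.prod_le_one (fun j _ => norm_nonneg _) fun j _ => hle j)

/-- the bound for the characteristic function by the number of good positions -/
lemma val_char_pow [IsProbabilityMeasure μ] {b : ℕ} (hb : 2 ≤ b) {Y : ℕ → Ω → ℝ} (hY : ∀ j, Measurable (Y j))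
    (hi : iIndepFun Y μ) {D : ℝ} (hD : ∀ j ω, |Y j ω| ≤ D) {c u : ℝ} (hc0 : 0 < c) (hu : 0 < u) {H : ℕ}
    (hc : ∀ j, ∃ (v : ℝ) (k : ℕ), 1 ≤ k ∧ k ≤ H ∧ c ≤ μ.real (Y j ⁻¹' {v}) ∧ c ≤ μ.real (Y j ⁻¹' {v + k * u}))
    (τ : ℝ) (F : Finset ℕ) (hF : ∀ j ∈ F, 1 / (2 * b : ℝ) ≤ dn (H.factorial * u * τ / (b : ℝ) ^ (j + 1))) :
    ‖∫ ω, ee (τ * val b Y ω) ∂μ‖ ≤ (1 - c / (b ^ 2 * (H.factorial : ℝ) ^ 2)) ^ F.card := by
  refine (val_char hb hY hi hD τ F).trans ?_
  rw [← Finset.prod_const]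
  refine Finset.prod_le_prod (fun j _ => norm_nonneg _) fun j hj => ?_
  obtain ⟨v, k, hk1, hkH, h1, h2⟩ := hc j
  have hG : 1 ≤ H.factorial := Nat.factorial_pos H
  refine (digit_char (hY j) hc0.le hk1 (Nat.dvd_factorial hk1 hkH) hG h1 h2 hu _).trans ?_
  have hb0 : (0 : ℝ) < b := by
    have : (2 : ℝ) ≤ b := by exact_mod_cast hb
    linarith
  have hG0 : (0 : ℝ) < H.factorial := by exact_mod_cast hG
  have h3 := hF j hj
  have h4 : (1 / (2 * b : ℝ)) ^ 2 ≤ dn (H.factorial * u * τ / (b : ℝ) ^ (j + 1)) ^ 2 := pow_le_pow_left₀ (by positivity) h3 2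
  have h5 : (H.factorial : ℝ) * u * (τ / (b : ℝ) ^ (j + 1)) = H.factorial * u * τ / (b : ℝ) ^ (j + 1) := by ring
  rw [h5]
  have h6 : c / (b ^ 2 * (H.factorial : ℝ) ^ 2) = 4 * c * (1 / (2 * b : ℝ)) ^ 2 / (H.factorial : ℝ) ^ 2 := by
    field_simp
    norm_num
  rw [h6]
  have h7 : 4 * c * (1 / (2 * b : ℝ)) ^ 2 / (H.factorial : ℝ) ^ 2 ≤
      4 * c * dn (H.factorial * u * τ / (b : ℝ) ^ (j + 1)) ^ 2 / (H.factorial : ℝ) ^ 2 := by
    apply div_le_div_of_nonneg_right _ (by positivity)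
    exact mul_le_mul_of_nonneg_left h4 (by positivity)
  linarith

end Pool.Agent.J4H40.Ca
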