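import Pool.Agent.J4H40.Ea
import Pool.Agent.TH373.EN.SpanArc

set_option autoImplicit false

/-! Digit positions of `θ e ^ m`. -/

namespace Pool.Agent.J4H40.Ca

open Finset
open scoped Real
open Pool.Agent.TH373.EN (BadS arcS)

lemma dn_eq {y : ℝ} {p : ℤ} (h : |y - p| < 1 / 2) : dn y = |y - p| := by
  have h1 : |y - round y| ≤ 1 / 2 := abs_sub_round y
  have h2 : |((round y - p : ℤ) : ℝ)| < 1 := by
    push_cast
    have : (round y : ℝ) - p = (y - p) - (y - round y) := by ring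
    rw [this]
    refine (abs_sub _ _).trans_lt ?_
    linarith
  have h3 : round y - p = 0 := by
    have h4 : |round y - p| < 1 := by exact_mod_cast h2
    exact Int.abs_lt_one_iff.1 h4
  have h5 : round y = p := by omega
  unfold dn
  rw [h5]

lemma dn_small {b : ℕ} {x : ℝ} (h : b * dn x < 1 / 2) : dn (x * b) = b * dn x := by
  have h1 : |x * b - ((round x * b : ℤ) : ℝ)| = b * dn x := by
    unfold dn
    push_cast
    rw [← sub_mul, abs_mul, Nat.abs_cast, mul_comm]
  rw [← h1]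
  apply dn_eq
  rw [h1]
  exact h

/-- one good digit position in a block -/
lemma digit_pos {b : ℕ} (hb : 2 ≤ b) (w : ℝ) (L : ℕ) (h : 1 / (b : ℝ) ^ L ≤ dn w) :
    ∃ t < L, 1 / (2 * b : ℝ) ≤ dn (w * (b : ℝ) ^ t) := by
  have hb2 : (2 : ℝ) ≤ b := by exact_mod_cast hb
  have hb0 : (0 : ℝ) < b := by linarith
  by_contra hcon
  push Not at hcon
  have h1 : ∀ t ≤ L, dn (w * (b : ℝ) ^ t) = (b : ℝ) ^ t * dn w := by
    intro t
    induction t with
    | zero => intro _; simp
    | succ t ih =>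
      intro ht
      have h2 := hcon t (by omega)
      have h3 := ih (by omega)
      have h4 : b * dn (w * (b : ℝ) ^ t) < 1 / 2 := by
        rw [lt_div_iff₀ (by positivity)] at h2
        linarith
      rw [pow_succ, ← mul_assoc, dn_small h4, h3]
      ring
  have h2 := h1 L le_rfl
  have h3 : 1 ≤ (b : ℝ) ^ L * dn w := by
    rw [div_le_iff₀ (by positivity)] at h
    linarith
  have h4 := dn_half (w * (b : ℝ) ^ L)
  linarith

/-- `τ` has `I` good digit positions -/
def Gd (b I : ℕ) (τ : ℝ) : Prop :=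
  ∃ F : Finset ℕ, F.card = I ∧ ∀ j ∈ F, 1 / (2 * b : ℝ) ≤ dn (τ / (b : ℝ) ^ (j + 1))

lemma gd_of {b : ℕ} (hb : 2 ≤ b) {I L : ℕ} {τ : ℝ} (h : ∀ i ∈ range I, 1 / (b : ℝ) ^ L ≤ dn (τ / (b : ℝ) ^ ((i + 1) * L))) :
    Gd b I τ := by
  have hb0 : (0 : ℝ) < b := by
    have : (2 : ℝ) ≤ b := by exact_mod_cast hb
    linarith
  have h1 : ∀ i ∈ range I, ∃ t < L, 1 / (2 * b : ℝ) ≤ dn (τ / (b : ℝ) ^ ((i + 1) * L) * (b : ℝ) ^ t) :=
    fun i hi => digit_pos hb _ L (h i hi)
  choose! t ht1 ht2 using h1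
  refine ⟨(range I).image fun i => (i + 1) * L - t i - 1, ?_, ?_⟩
  · rw [Finset.card_image_of_injOn, card_range]
    intro i hi i' hi' hii
    have e1 : (i + 1) * L = i * L + L := by ring
    have e2 : (i' + 1) * L = i' * L + L := by ring
    have h1 := ht1 i hi
    have h2 := ht1 i' hi'
    simp only at hii
    rw [e1, e2] at hii
    have h3 : i * L + (L - t i - 1) = i' * L + (L - t i' - 1) := by omega
    have h4 : (i * L + (L - t i - 1)) / L = i := by
      rw [mul_comm, Nat.mul_add_div (by omega), Nat.div_eq_of_lt (by omega), add_zero]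
    have h5 : (i' * L + (L - t i' - 1)) / L = i' := by
      rw [mul_comm, Nat.mul_add_div (by omega), Nat.div_eq_of_lt (by omega), add_zero]
    rw [← h4, h3, h5]
  · intro j hj
    obtain ⟨i, hi, rfl⟩ := Finset.mem_image.1 hj
    have h1 := ht1 i hi
    have h2 := ht2 i hi
    have e1 : (i + 1) * L = i * L + L := by ring
    have e2 : (i + 1) * L = ((i + 1) * L - t i - 1 + 1) + t i := by
      rw [e1]
      omega
    have e3 : τ / (b : ℝ) ^ ((i + 1) * L - t i - 1 + 1) = τ / (b : ℝ) ^ ((i + 1) * L) * (b : ℝ) ^ t i := by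
      conv_rhs => rw [e2, pow_add]
      field_simp
    rw [e3]
    exact h2

open Classical in
/-- few bad `m` in a dyadic block -/
lemma block : ∃ A : ℝ, 0 < A ∧ ∀ b : ℕ, 2 ≤ b → ∀ T δ : ℝ, 0 ≤ T → 0 < δ → δ ≤ 1 → ∀ θ : ℝ, θ ≠ 0 →
    |Real.log (|θ|)| ≤ T → ∀ M I : ℕ, 4 * (T + 2) ≤ M → Real.log b ≤ δ * M → 12 * δ * I ≤ 1 →
    (((Ioc (M / 2) M).filter (fun m : ℕ => ¬ Gd b I (θ * Real.exp m))).card : ℝ) ≤
      I * (A * (8 / δ) * ((2 * M : ℝ) ^ (1 - (δ / 2) ^ 2 / 5000) + 1)) := by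
  obtain ⟨A, hA0, hA⟩ := arcS
  refine ⟨A, hA0, ?_⟩
  intro b hb T δ hT hδ hδ1 θ hθ hθT M I hM hMb hI
  have hb2 : (2 : ℝ) ≤ b := by exact_mod_cast hb
  have hb0 : (0 : ℝ) < b := by linarith
  have hlb : 0 < Real.log b := Real.log_pos (by linarith)
  have hθ0 : 0 < |θ| := abs_pos.2 hθ
  have hM0 : (0 : ℝ) < M := by linarith
  obtain ⟨L, hL⟩ : ∃ L, L = ⌈δ * (M + T + 1) / Real.log b⌉₊ := ⟨_, rfl⟩
  have hL1 : δ * (M + T + 1) ≤ L * Real.log b := by
    have h1 : δ * (M + T + 1) / Real.log b ≤ L := by rw [hL]; exact Nat.le_ceil _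
    rwa [div_le_iff₀ hlb] at h1
  have hL2 : L * Real.log b ≤ 3 * δ * M := by
    have h1 : (L : ℝ) < δ * (M + T + 1) / Real.log b + 1 := by
      rw [hL]
      exact Nat.ceil_lt_add_one (by positivity)
    have h2 : (L : ℝ) * Real.log b ≤ δ * (M + T + 1) + Real.log b := by
      have h3 := mul_le_mul_of_nonneg_right h1.le hlb.le
      have h4 : (δ * (M + T + 1) / Real.log b + 1) * Real.log b = δ * (M + T + 1) + Real.log b := by
        field_simp
      linarith
    have h3 : δ * (M + T + 1) ≤ δ * (2 * M) := mul_le_mul_of_nonneg_left (by linarith) hδ.le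
    linarith
  have hIL : ∀ i ∈ range I, ((i : ℝ) + 1) * L * Real.log b ≤ M / 4 := by
    intro i hi
    have h1 : (i : ℝ) + 1 ≤ I := by exact_mod_cast Finset.mem_range.1 hi
    calc ((i : ℝ) + 1) * L * Real.log b = (i + 1) * (L * Real.log b) := by ring
      _ ≤ I * (3 * δ * M) := mul_le_mul h1 hL2 (by positivity) (by positivity)
      _ = (12 * δ * I) * (M / 4) := by ring
      _ ≤ 1 * (M / 4) := mul_le_mul_of_nonneg_right hI (by positivity)
      _ = M / 4 := one_mul _
  -- the covering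
  have hcov : (Ioc (M / 2) M).filter (fun m : ℕ => ¬ Gd b I (θ * Real.exp m)) ⊆
      (range I).biUnion fun i => (Ioc (M / 2) M).filter fun m : ℕ => dn (θ * Real.exp m / (b : ℝ) ^ ((i + 1) * L)) < 1 / (b : ℝ) ^ L := by
    intro m hm
    rw [Finset.mem_filter] at hm
    rw [Finset.mem_biUnion]
    by_contra hcon
    push Not at hcon
    apply hm.2
    apply gd_of hb
    intro i hi
    have h1 := hcon i hi
    rw [Finset.mem_filter] at h1
    push Not at h1
    exact h1 hm.1
  have hone : ∀ i ∈ range I, (((Ioc (M / 2) M).filter fun m : ℕ =>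
      dn (θ * Real.exp m / (b : ℝ) ^ ((i + 1) * L)) < 1 / (b : ℝ) ^ L).card : ℝ) ≤
      A * (8 / δ) * ((2 * M : ℝ) ^ (1 - (δ / 2) ^ 2 / 5000) + 1) := by
    intro i hi
    obtain ⟨κ, hκ⟩ : ∃ κ : ℝ, κ = Real.log (|θ|) - (i + 1) * L * Real.log b := ⟨_, rfl⟩
    obtain ⟨E, hE⟩ : ∃ E : ℤ, E = ⌊κ⌋ := ⟨_, rfl⟩
    have hE1 : (E : ℝ) ≤ κ := by rw [hE]; exact Int.floor_le _
    have hE2 : κ < E + 1 := by rw [hE]; exact Int.lt_floor_add_one _
    obtain ⟨ξ, hξ⟩ : ∃ ξ : ℝ, ξ = θ / (b : ℝ) ^ ((i + 1) * L) * Real.exp (-E) := ⟨_, rfl⟩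
    have hξ0 : ξ ≠ 0 := by
      rw [hξ]
      exact mul_ne_zero (div_ne_zero hθ (by positivity)) (Real.exp_ne_zero _)
    have hlogξ : Real.log (|ξ|) = κ - E := by
      rw [hξ, abs_mul, abs_div, abs_of_pos (Real.exp_pos _), abs_of_pos (by positivity : (0 : ℝ) < (b : ℝ) ^ ((i + 1) * L)),
        Real.log_mul (by positivity) (Real.exp_ne_zero _), Real.log_div hθ0.ne' (by positivity), Real.log_exp,
        Real.log_pow, hκ]
      push_cast
      ring
    have hlog1 : |Real.log (|ξ|)| ≤ 1 := by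
      rw [hlogξ, abs_le]
      constructor <;> linarith
    have hIi := hIL i hi
    have hθ1 := abs_le.1 hθT
    have hκ1 : -T - M / 4 ≤ κ := by rw [hκ]; linarith [hθ1.1]
    have hκ2 : κ ≤ T := by
      rw [hκ]
      have : 0 ≤ ((i : ℝ) + 1) * L * Real.log b := by positivity
      linarith [hθ1.2]
    have hM1 : 1 ≤ 2 * M := by
      have : 0 < M := by exact_mod_cast hM0
      omega
    have hmap : ∀ m ∈ Ioc (M / 2) M, (1 : ℝ) ≤ m + E ∧ (m : ℝ) + E ≤ M + T := by
      intro m hm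
      rw [Finset.mem_Ioc] at hm
      have h1 : (M : ℝ) / 2 ≤ m := by
        have h2 : M ≤ 2 * m := by omega
        have h3 : (M : ℝ) ≤ 2 * m := by exact_mod_cast h2
        linarith
      have h2 : (m : ℝ) ≤ M := by exact_mod_cast hm.2
      constructor
      · linarith
      · linarith
    have hcard : ((Ioc (M / 2) M).filter fun m : ℕ =>
        dn (θ * Real.exp m / (b : ℝ) ^ ((i + 1) * L)) < 1 / (b : ℝ) ^ L).card ≤
        ((Icc 1 (2 * M)).filter (fun n : ℕ => BadS (fun k : Fin 0 => (0 : ℝ)) δ ξ n)).card := by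
      apply Finset.card_le_card_of_injOn (fun m : ℕ => ((m : ℤ) + E).toNat)
      · intro m hm
        rw [Finset.mem_coe, Finset.mem_filter] at hm
        obtain ⟨h1, h2⟩ := hmap m hm.1
        have h3 : (1 : ℤ) ≤ (m : ℤ) + E := by exact_mod_cast h1
        have h4 : ((((m : ℤ) + E).toNat : ℕ) : ℝ) = m + E := by
          have : ((((m : ℤ) + E).toNat : ℕ) : ℤ) = m + E := Int.toNat_of_nonneg (by omega)
          exact_mod_cast this
        have h9 : 1 ≤ ((m : ℤ) + E).toNat := by omega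
        rw [Finset.mem_coe, Finset.mem_filter, Finset.mem_Icc]
        refine ⟨⟨h9, ?_⟩, ?_⟩
        · have h5 : ((((m : ℤ) + E).toNat : ℕ) : ℝ) ≤ ((2 * M : ℕ) : ℝ) := by
            rw [h4]
            push_cast
            linarith
          exact_mod_cast h5
        · refine ⟨-round (θ * Real.exp m / (b : ℝ) ^ ((i + 1) * L)), 1, 0, one_ne_zero, ?_, fun k => k.elim0, ?_⟩
          · rw [Int.cast_one, abs_one]
            apply Real.one_le_exp
            positivity
          · have h5 : ξ * Real.exp ((((m : ℤ) + E).toNat : ℕ) : ℝ) = θ * Real.exp m / (b : ℝ) ^ ((i + 1) * L) := by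
              rw [h4, hξ, Real.exp_add]
              have : Real.exp (-(E : ℝ)) * Real.exp (E : ℝ) = 1 := by
                rw [← Real.exp_add, neg_add_cancel, Real.exp_zero]
              calc θ / (b : ℝ) ^ ((i + 1) * L) * Real.exp (-(E : ℝ)) * (Real.exp m * Real.exp E) =
                  θ / (b : ℝ) ^ ((i + 1) * L) * Real.exp m * (Real.exp (-(E : ℝ)) * Real.exp (E : ℝ)) := by ring
                _ = _ := by rw [this]; ring
            rw [h5, Finset.univ_eq_empty, Finset.sum_empty, add_zero, Int.cast_neg, Int.cast_one, one_mul]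
            have h6 : |-(round (θ * Real.exp m / (b : ℝ) ^ ((i + 1) * L)) : ℝ) + θ * Real.exp m / (b : ℝ) ^ ((i + 1) * L)| =
                dn (θ * Real.exp m / (b : ℝ) ^ ((i + 1) * L)) := by
              unfold dn
              congr 1
              ring
            rw [h6]
            refine hm.2.trans_le ?_
            have h7 : 1 / (b : ℝ) ^ L = Real.exp (-(L * Real.log b)) := by
              rw [Real.exp_neg, mul_comm, Real.exp_mul, Real.exp_log hb0, Real.rpow_natCast, one_div]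
            rw [h7, Real.exp_le_exp, h4]
            have h8 : δ * ((m : ℝ) + E) ≤ δ * (M + T + 1) := mul_le_mul_of_nonneg_left (by linarith) hδ.le
            linarith
      · intro m hm m' hm' hmm
        rw [Finset.mem_coe, Finset.mem_filter] at hm hm'
        have h1 := (hmap m hm.1).1
        have h2 := (hmap m' hm'.1).1
        have h3 : (1 : ℤ) ≤ (m : ℤ) + E := by exact_mod_cast h1
        have h4 : (1 : ℤ) ≤ (m' : ℤ) + E := by exact_mod_cast h2
        simp only at hmm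
        omega
    have hf := hA 0 (fun k : Fin 0 => (0 : ℝ)) δ hδ hδ1 (2 * M) hM1 ξ hξ0
    have hf2 : (((Icc 1 (2 * M)).filter (fun n : ℕ => BadS (fun k : Fin 0 => (0 : ℝ)) δ ξ n)).card : ℝ) ≤
        A * (8 / δ) * ((2 * M : ℝ) ^ (1 - (δ / 2) ^ 2 / 5000) + 1) := by
      refine hf.trans ?_
      push_cast
      rw [zero_add]
      have e1 : (2 : ℝ) ^ 3 = 8 := by norm_num
      rw [e1]
      apply mul_le_mul_of_nonneg_left _ (by positivity)
      linarith
    refine le_trans ?_ hf2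
    exact_mod_cast hcard
  calc (((Ioc (M / 2) M).filter (fun m : ℕ => ¬ Gd b I (θ * Real.exp m))).card : ℝ) ≤
      ((((range I).biUnion fun i => (Ioc (M / 2) M).filter fun m : ℕ =>
        dn (θ * Real.exp m / (b : ℝ) ^ ((i + 1) * L)) < 1 / (b : ℝ) ^ L).card : ℕ) : ℝ) := by
        exact_mod_cast Finset.card_le_card hcov
    _ ≤ ∑ i ∈ range I, (((Ioc (M / 2) M).filter fun m : ℕ =>
        dn (θ * Real.exp m / (b : ℝ) ^ ((i + 1) * L)) < 1 / (b : ℝ) ^ L).card : ℝ) := by
        exact_mod_cast Finset.card_biUnion_le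
    _ ≤ ∑ i ∈ range I, A * (8 / δ) * ((2 * M : ℝ) ^ (1 - (δ / 2) ^ 2 / 5000) + 1) := Finset.sum_le_sum hone
    _ = I * (A * (8 / δ) * ((2 * M : ℝ) ^ (1 - (δ / 2) ^ 2 / 5000) + 1)) := by
        rw [Finset.sum_const, card_range, nsmul_eq_mul]

open Classical in
/-- few bad `m` up to `N` -/
lemma count_bad : ∃ A : ℝ, 0 < A ∧ ∀ b : ℕ, 2 ≤ b → ∀ T δ : ℝ, 0 ≤ T → 0 < δ → δ ≤ 1 → ∀ θ : ℝ, θ ≠ 0 →
    |Real.log (|θ|)| ≤ T → ∀ N I : ℕ, 1 ≤ N → 12 * δ * I ≤ 1 →
    (((Icc 1 N).filter (fun m : ℕ => ¬ Gd b I (θ * Real.exp m))).card : ℝ) ≤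
      4 * (T + 2) + Real.log b / δ + (Nat.log 2 N + 1) *
        (I * (A * (8 / δ) * ((2 * N : ℝ) ^ (1 - (δ / 2) ^ 2 / 5000) + 1))) := by
  obtain ⟨A, hA0, hA⟩ := block
  refine ⟨A, hA0, ?_⟩
  intro b hb T δ hT hδ hδ1 θ hθ hθT N I hN hI
  obtain ⟨F, hF⟩ : ∃ F : ℝ, F = I * (A * (8 / δ) * ((2 * N : ℝ) ^ (1 - (δ / 2) ^ 2 / 5000) + 1)) := ⟨_, rfl⟩
  rw [← hF]
  have hF0 : 0 ≤ F := by rw [hF]; positivity
  have hb2 : (2 : ℝ) ≤ b := by exact_mod_cast hb
  have hlb : 0 < Real.log b := Real.log_pos (by linarith)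
  have key : ∀ k M : ℕ, M ≤ N → M < 2 ^ k → (((Icc 1 M).filter (fun m : ℕ => ¬ Gd b I (θ * Real.exp m))).card : ℝ) ≤
      4 * (T + 2) + Real.log b / δ + k * F := by
    intro k
    induction k with
    | zero =>
      intro M _ hM
      have : M = 0 := by simpa using hM
      subst this
      simp only [Icc_eq_empty_of_lt Nat.zero_lt_one, Finset.filter_empty, Finset.card_empty]
      push_cast
      positivity
    | succ k ih =>
      intro M hMN hM
      by_cases hMs : (M : ℝ) < 4 * (T + 2) + Real.log b / δ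
      · have h1 : ((((Icc 1 M).filter (fun m : ℕ => ¬ Gd b I (θ * Real.exp m))).card : ℕ) : ℝ) ≤ M := by
          have h2 := Finset.card_filter_le (Icc 1 M) (fun m : ℕ => ¬ Gd b I (θ * Real.exp m))
          rw [Nat.card_Icc, Nat.add_sub_cancel] at h2
          exact_mod_cast h2
        have h2 : 0 ≤ ((k + 1 : ℕ) : ℝ) * F := by positivity
        linarith
      · push Not at hMs
        have h1 : 0 ≤ Real.log b / δ := by positivity
        have h2 : 4 * (T + 2) ≤ (M : ℝ) := by linarith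
        have h3 : Real.log b ≤ δ * M := by
          have h4 : Real.log b / δ ≤ M := by linarith
          rw [div_le_iff₀ hδ] at h4
          linarith
        have h4 := hA b hb T δ hT hδ hδ1 θ hθ hθT M I h2 h3 hI
        have h5 : I * (A * (8 / δ) * ((2 * M : ℝ) ^ (1 - (δ / 2) ^ 2 / 5000) + 1)) ≤ F := by
          rw [hF]
          have h6 : (2 * M : ℝ) ^ (1 - (δ / 2) ^ 2 / 5000) ≤ (2 * N : ℝ) ^ (1 - (δ / 2) ^ 2 / 5000) := by
            apply Real.rpow_le_rpow (by positivity)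
            · have : (M : ℝ) ≤ N := by exact_mod_cast hMN
              linarith
            · nlinarith
          gcongr
        have h7 := ih (M / 2) (by omega) (by
          rw [pow_succ] at hM
          omega)
        have h8 : (Icc 1 M).filter (fun m : ℕ => ¬ Gd b I (θ * Real.exp m)) =
            (Icc 1 (M / 2)).filter (fun m : ℕ => ¬ Gd b I (θ * Real.exp m)) ∪
            (Ioc (M / 2) M).filter (fun m : ℕ => ¬ Gd b I (θ * Real.exp m)) := by
          rw [← Finset.filter_union]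
          congr 1
          ext m
          simp only [Finset.mem_Icc, Finset.mem_Ioc, Finset.mem_union]
          omega
        have h9 : ((((Icc 1 M).filter (fun m : ℕ => ¬ Gd b I (θ * Real.exp m))).card : ℕ) : ℝ) ≤
            ((((Icc 1 (M / 2)).filter (fun m : ℕ => ¬ Gd b I (θ * Real.exp m))).card : ℕ) : ℝ) +
            ((((Ioc (M / 2) M).filter (fun m : ℕ => ¬ Gd b I (θ * Real.exp m))).card : ℕ) : ℝ) := by
          rw [h8]
          exact_mod_cast Finset.card_union_le _ _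
        push_cast at h7 ⊢
        linarith
  have h1 := key (Nat.log 2 N + 1) N le_rfl (Nat.lt_pow_succ_log_self (by norm_num) N)
  push_cast at h1
  exact h1

end Pool.Agent.J4H40.Ca
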