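import Pool.Agent.J4H40.Eb

set_option autoImplicit false

/-! The mean of the characteristic function along `θ e ^ m`. -/

namespace Pool.Agent.J4H40.Ca

open Finset Filter Topology
open scoped Real

/-- the cube root of the logarithm -/
noncomputable def ph (N : ℕ) : ℝ := Real.log N ^ (1 / 3 : ℝ)

lemma ph_nn (N : ℕ) : 0 ≤ ph N := Real.rpow_nonneg (Real.log_natCast_nonneg N) _

lemma ph_cube (N : ℕ) : ph N ^ 3 = Real.log N := by
  unfold ph
  rw [← Real.rpow_natCast, ← Real.rpow_mul (Real.log_natCast_nonneg N)]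
  norm_num

lemma ph_tendsto : Tendsto ph atTop atTop := by
  unfold ph
  exact (tendsto_rpow_atTop (by norm_num)).comp (Real.tendsto_log_atTop.comp tendsto_natCast_atTop_atTop)

lemma ph_mono {M N : ℕ} (hM : 1 ≤ M) (h : M ≤ N) : ph M ≤ ph N := by
  unfold ph
  apply Real.rpow_le_rpow (Real.log_natCast_nonneg M)
  · exact Real.log_le_log (by exact_mod_cast hM) (by exact_mod_cast h)
  · norm_num

lemma asym {c0 : ℝ} (hc0 : 0 < c0) : ∃ c' : ℝ, 0 < c' ∧ ∀ C C2 : ℝ, 0 ≤ C → 0 ≤ C2 → ∀ᶠ x : ℝ in atTop,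
    C * x ^ 5 * Real.exp (-(x / 20000)) + C2 * Real.exp (-(c0 * x)) ≤ Real.exp (-(c' * x)) := by
  refine ⟨min (1 / 40000) (c0 / 2), by positivity, ?_⟩
  intro C C2 hC hC2
  obtain ⟨c', hc'⟩ : ∃ c' : ℝ, c' = min (1 / 40000) (c0 / 2) := ⟨_, rfl⟩
  rw [← hc']
  have hc1 : c' ≤ 1 / 40000 := by rw [hc']; exact min_le_left _ _
  have hc2 : c' ≤ c0 / 2 := by rw [hc']; exact min_le_right _ _
  have t1 : Tendsto (fun x : ℝ => C * 40000 ^ 5 * ((x / 40000) ^ 5 * Real.exp (-(x / 40000)))) atTop (𝓝 (C * 40000 ^ 5 * 0)) := by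
    apply Tendsto.const_mul
    exact (Real.tendsto_pow_mul_exp_neg_atTop_nhds_zero 5).comp (tendsto_id.atTop_div_const (by norm_num))
  rw [mul_zero] at t1
  have t2 : Tendsto (fun x : ℝ => C2 * Real.exp (-(c0 / 2 * x))) atTop (𝓝 (C2 * 0)) := by
    apply Tendsto.const_mul
    exact Real.tendsto_exp_neg_atTop_nhds_zero.comp (tendsto_id.const_mul_atTop (by positivity))
  rw [mul_zero] at t2
  filter_upwards [t1.eventually (gt_mem_nhds (show (0 : ℝ) < 1 / 2 by norm_num)),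
    t2.eventually (gt_mem_nhds (show (0 : ℝ) < 1 / 2 by norm_num)), eventually_ge_atTop 0] with x h1 h2 hx
  have e1 : C * x ^ 5 * Real.exp (-(x / 20000)) =
      (C * 40000 ^ 5 * ((x / 40000) ^ 5 * Real.exp (-(x / 40000)))) * Real.exp (-(x / 40000)) := by
    have : Real.exp (-(x / 20000)) = Real.exp (-(x / 40000)) * Real.exp (-(x / 40000)) := by
      rw [← Real.exp_add]
      congr 1
      ring
    rw [this]
    ring
  have e2 : C2 * Real.exp (-(c0 * x)) = (C2 * Real.exp (-(c0 / 2 * x))) * Real.exp (-(c0 / 2 * x)) := by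
    have : Real.exp (-(c0 * x)) = Real.exp (-(c0 / 2 * x)) * Real.exp (-(c0 / 2 * x)) := by
      rw [← Real.exp_add]
      congr 1
      ring
    rw [this]
    ring
  have h3 : Real.exp (-(x / 40000)) ≤ Real.exp (-(c' * x)) := by
    apply Real.exp_le_exp.2
    have := mul_le_mul_of_nonneg_right hc1 hx
    linarith
  have h4 : Real.exp (-(c0 / 2 * x)) ≤ Real.exp (-(c' * x)) := by
    apply Real.exp_le_exp.2
    have := mul_le_mul_of_nonneg_right hc2 hx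
    linarith
  rw [e1, e2]
  have h5 : (C * 40000 ^ 5 * ((x / 40000) ^ 5 * Real.exp (-(x / 40000)))) * Real.exp (-(x / 40000)) ≤
      1 / 2 * Real.exp (-(c' * x)) := mul_le_mul h1.le h3 (Real.exp_pos _).le (by norm_num)
  have h6 : (C2 * Real.exp (-(c0 / 2 * x))) * Real.exp (-(c0 / 2 * x)) ≤ 1 / 2 * Real.exp (-(c' * x)) :=
    mul_le_mul h2.le h4 (Real.exp_pos _).le (by norm_num)
  linarith

/-- the mean of a function which is small at the points with many good digit positions -/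
theorem key_sum {b : ℕ} (hb : 2 ≤ b) {G : ℝ} (hG : 0 < G) {ρ : ℝ} (hρ0 : 0 < ρ) (hρ1 : ρ < 1) :
    ∃ c' : ℝ, 0 < c' ∧ ∀ T : ℝ, 0 ≤ T → ∀ᶠ N : ℕ in atTop, ∀ Q : ℝ → ℝ, (∀ τ, Q τ ≤ 1) →
      (∀ τ I, Gd b I (G * τ) → Q τ ≤ ρ ^ I) → ∀ θ : ℝ, θ ≠ 0 → |Real.log (|θ|)| ≤ T →
      ∑ m ∈ Icc 1 N, Q (θ * Real.exp m) ≤ N * Real.exp (-(c' * ph N)) := by
  classical
  obtain ⟨A, hA0, hA⟩ := count_bad
  obtain ⟨c0, hc0⟩ : ∃ c0 : ℝ, c0 = -Real.log ρ / 12 := ⟨_, rfl⟩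
  have hlρ : Real.log ρ < 0 := Real.log_neg hρ0 hρ1
  have hc00 : 0 < c0 := by rw [hc0]; linarith
  obtain ⟨c', hc', has⟩ := asym hc00
  refine ⟨c', hc', ?_⟩
  intro T hT
  have hb2 : (2 : ℝ) ≤ b := by exact_mod_cast hb
  have hlb : 0 < Real.log b := Real.log_pos (by linarith)
  obtain ⟨T', hT'⟩ : ∃ T' : ℝ, T' = T + |Real.log G| := ⟨_, rfl⟩
  have hT'0 : 0 ≤ T' := by rw [hT']; positivity
  have h1 := ph_tendsto.eventually (has (4 * (T' + 2) + Real.log b + 72 * A) ρ⁻¹ (by positivity) (by positivity))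
  have h2 := ph_tendsto.eventually (eventually_ge_atTop (1 : ℝ))
  filter_upwards [h1, h2, eventually_ge_atTop 1] with N hN1 hx1 hN Q hQ1 hQ θ hθ hθT
  obtain ⟨x, hx⟩ : ∃ x, x = ph N := ⟨_, rfl⟩
  rw [← hx] at hN1 hx1 ⊢
  have hx3 : x ^ 3 = Real.log N := by rw [hx]; exact ph_cube N
  have hNr : (1 : ℝ) ≤ N := by exact_mod_cast hN
  have hN0 : (0 : ℝ) < N := by linarith
  have hNe : (N : ℝ) = Real.exp (x ^ 3) := by rw [hx3, Real.exp_log hN0]
  have hx0 : 0 < x := by linarith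
  obtain ⟨δ, hδ⟩ : ∃ δ : ℝ, δ = 1 / x := ⟨_, rfl⟩
  have hδ0 : 0 < δ := by rw [hδ]; positivity
  have hδ1 : δ ≤ 1 := by rw [hδ, div_le_one hx0]; exact hx1
  obtain ⟨I, hI⟩ : ∃ I : ℕ, I = ⌊x / 12⌋₊ := ⟨_, rfl⟩
  have hI1 : (I : ℝ) ≤ x / 12 := by rw [hI]; exact Nat.floor_le (by positivity)
  have hI2 : x / 12 - 1 ≤ I := by
    have := Nat.lt_floor_add_one (x / 12)
    rw [← hI] at this
    linarith
  have hI3 : 12 * δ * I ≤ 1 := by
    have h3 := mul_le_mul_of_nonneg_left hI1 hδ0.le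
    have h4 : δ * (x / 12) = 1 / 12 := by
      rw [hδ]
      field_simp
    linarith
  have hGθ : G * θ ≠ 0 := mul_ne_zero hG.ne' hθ
  have hGθT : |Real.log (|G * θ|)| ≤ T' := by
    rw [abs_mul, abs_of_pos hG, Real.log_mul hG.ne' (abs_pos.2 hθ).ne', hT']
    calc |Real.log G + Real.log (|θ|)| ≤ |Real.log G| + |Real.log (|θ|)| := abs_add_le _ _
      _ ≤ T + |Real.log G| := by linarith
  have hcnt := hA b hb T' δ hT'0 hδ0 hδ1 (G * θ) hGθ hGθT N I hN hI3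
  obtain ⟨B, hB⟩ : ∃ B, B = (Icc 1 N).filter (fun m : ℕ => ¬ Gd b I (G * θ * Real.exp m)) := ⟨_, rfl⟩
  rw [← hB] at hcnt
  -- the size of the bad set
  have e1 : (2 * N : ℝ) ^ (1 - (δ / 2) ^ 2 / 5000) ≤ 2 * N * Real.exp (-(x / 20000)) := by
    have h3 : (1 : ℝ) - (δ / 2) ^ 2 / 5000 = 1 + -((δ / 2) ^ 2 / 5000) := by ring
    rw [h3, Real.rpow_add (by positivity), Real.rpow_one, Real.rpow_def_of_pos (by positivity)]
    apply mul_le_mul_of_nonneg_left _ (by positivity)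
    apply Real.exp_le_exp.2
    have h4 : x ^ 3 ≤ Real.log (2 * N) := by
      rw [hx3]
      exact Real.log_le_log hN0 (by linarith)
    have h5 : x / 20000 = x ^ 3 * ((δ / 2) ^ 2 / 5000) := by
      rw [hδ]
      field_simp
      norm_num
    have h6 : x ^ 3 * ((δ / 2) ^ 2 / 5000) ≤ Real.log (2 * N) * ((δ / 2) ^ 2 / 5000) :=
      mul_le_mul_of_nonneg_right h4 (by positivity)
    rw [h5]
    linarith
  have e2 : ((Nat.log 2 N : ℕ) : ℝ) + 1 ≤ 3 * x ^ 3 := by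
    have h3 : ((Nat.log 2 N : ℕ) : ℝ) ≤ 2 * Real.log N := by
      have h4 : (2 : ℝ) ^ Nat.log 2 N ≤ N := by exact_mod_cast Nat.pow_log_le_self 2 (by omega)
      have h5 := Real.log_le_log (by positivity) h4
      rw [Real.log_pow] at h5
      have h6 : (1 : ℝ) / 2 ≤ Real.log 2 := by
        have := Real.log_two_gt_d9
        linarith
      have h7 : ((Nat.log 2 N : ℕ) : ℝ) * (1 / 2) ≤ ((Nat.log 2 N : ℕ) : ℝ) * Real.log 2 :=
        mul_le_mul_of_nonneg_left h6 (Nat.cast_nonneg _)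
      linarith
    have h4 : (1 : ℝ) ≤ x ^ 3 := one_le_pow₀ hx1
    rw [← hx3] at h3
    linarith
  have e3 : 8 / δ = 8 * x := by
    rw [hδ]
    field_simp
  have e4 : 1 ≤ N * Real.exp (-(x / 20000)) := by
    rw [hNe, ← Real.exp_add]
    apply Real.one_le_exp
    nlinarith [pow_le_pow_right₀ hx1 (show 1 ≤ 3 by norm_num)]
  obtain ⟨Z, hZ⟩ : ∃ Z, Z = N * Real.exp (-(x / 20000)) := ⟨_, rfl⟩
  have hZ1 : 1 ≤ Z := by rw [hZ]; exact e4
  have hBc : (B.card : ℝ) ≤ (4 * (T' + 2) + Real.log b + 72 * A) * x ^ 5 * Z := by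
    have h3 : (Nat.log 2 N + 1) * (I * (A * (8 / δ) * ((2 * N : ℝ) ^ (1 - (δ / 2) ^ 2 / 5000) + 1))) ≤
        3 * x ^ 3 * (x * (A * (8 * x) * (3 * Z))) := by
      rw [e3]
      have h4 : (2 * N : ℝ) ^ (1 - (δ / 2) ^ 2 / 5000) + 1 ≤ 3 * Z := by
        rw [hZ] at hZ1 ⊢
        linarith
      have h5 : (I : ℝ) ≤ x := by linarith
      have h6 : 0 ≤ (2 * N : ℝ) ^ (1 - (δ / 2) ^ 2 / 5000) + 1 := by positivity
      gcongr
    have h4 : 4 * (T' + 2) + Real.log b / δ ≤ (4 * (T' + 2) + Real.log b) * (x ^ 5 * Z) := by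
      have h5 : Real.log b / δ = Real.log b * x := by
        rw [hδ]
        field_simp
      rw [h5]
      have h6 : x ≤ x ^ 5 * Z := by
        calc x = x ^ 1 * 1 := by ring
          _ ≤ x ^ 5 * Z := mul_le_mul (pow_le_pow_right₀ hx1 (by norm_num)) hZ1 (by norm_num) (by positivity)
      have h7 : 1 ≤ x ^ 5 * Z := by linarith
      have h8 : 4 * (T' + 2) * 1 ≤ 4 * (T' + 2) * (x ^ 5 * Z) := mul_le_mul_of_nonneg_left h7 (by positivity)
      have h9 : Real.log b * x ≤ Real.log b * (x ^ 5 * Z) := mul_le_mul_of_nonneg_left h6 hlb.le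
      linarith
    calc (B.card : ℝ) ≤ _ := hcnt
      _ ≤ (4 * (T' + 2) + Real.log b) * (x ^ 5 * Z) + 3 * x ^ 3 * (x * (A * (8 * x) * (3 * Z))) := add_le_add h4 h3
      _ = _ := by ring
  have hρI : ρ ^ I ≤ ρ⁻¹ * Real.exp (-(c0 * x)) := by
    have h3 : ρ ^ I = Real.exp (Real.log ρ * I) := by
      rw [Real.exp_mul, Real.exp_log hρ0, Real.rpow_natCast]
    have h4 : ρ⁻¹ = Real.exp (-Real.log ρ) := by
      rw [Real.exp_neg, Real.exp_log hρ0]
    rw [h3, h4, ← Real.exp_add]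
    apply Real.exp_le_exp.2
    have h5 : Real.log ρ * I ≤ Real.log ρ * (x / 12 - 1) := mul_le_mul_of_nonpos_left hI2 hlρ.le
    rw [hc0]
    linarith
  have hsum : ∑ m ∈ Icc 1 N, Q (θ * Real.exp m) ≤ B.card + N * ρ ^ I := by
    have h3 : ∀ m ∈ Icc 1 N, Q (θ * Real.exp m) ≤ (if m ∈ B then 1 else 0) + ρ ^ I := by
      intro m hm
      by_cases hmB : m ∈ B
      · rw [if_pos hmB]
        have := hQ1 (θ * Real.exp m)
        have h4 : 0 ≤ ρ ^ I := by positivity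
        linarith
      · rw [if_neg hmB, zero_add]
        apply hQ
        rw [hB, Finset.mem_filter] at hmB
        push Not at hmB
        have h4 := hmB hm
        rwa [mul_assoc] at h4
    refine (Finset.sum_le_sum h3).trans ?_
    rw [Finset.sum_add_distrib, Finset.sum_const, Nat.card_Icc, Nat.add_sub_cancel, nsmul_eq_mul, Finset.sum_ite_mem,
      Finset.sum_const, nsmul_eq_mul, mul_one]
    have h4 : ((Icc 1 N ∩ B).card : ℝ) ≤ B.card := by exact_mod_cast Finset.card_le_card Finset.inter_subset_right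
    linarith
  calc ∑ m ∈ Icc 1 N, Q (θ * Real.exp m) ≤ B.card + N * ρ ^ I := hsum
    _ ≤ (4 * (T' + 2) + Real.log b + 72 * A) * x ^ 5 * Z + N * (ρ⁻¹ * Real.exp (-(c0 * x))) :=
      add_le_add hBc (mul_le_mul_of_nonneg_left hρI hN0.le)
    _ = N * ((4 * (T' + 2) + Real.log b + 72 * A) * x ^ 5 * Real.exp (-(x / 20000)) + ρ⁻¹ * Real.exp (-(c0 * x))) := by
      rw [hZ]
      ring
    _ ≤ N * Real.exp (-(c' * x)) := mul_le_mul_of_nonneg_left hN1 hN0.le

end Pool.Agent.J4H40.Ca
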