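import Pool.Agent.J4H40.Ec

set_option autoImplicit false

/-! The second moment of the exponential sums. -/

namespace Pool.Agent.J4H40.Ca

open MeasureTheory ProbabilityTheory Finset Filter Topology
open scoped Real ComplexConjugate
open Pool.Agent.J4H75.PN (ee norm_ee ee_add)

variable {Ω : Type*} [MeasurableSpace Ω] {μ : Measure Ω}

lemma ee_conj (t : ℝ) : conj (ee t) = ee (-t) := by
  unfold ee
  rw [← Complex.exp_conj]
  congr 1
  simp only [map_mul, Complex.conj_I, Complex.conj_ofReal, map_ofNat]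
  push_cast
  ring

lemma ee_int {X : Ω → ℝ} (hX : Measurable X) [IsProbabilityMeasure μ] (t : ℝ) : Integrable (fun ω => ee (t * X ω)) μ := by
  apply Integrable.of_bound (C := 1)
  · exact (ee_cont.measurable.comp (hX.const_mul t)).aestronglyMeasurable
  · filter_upwards with ω
    rw [norm_ee]

lemma sum_meas {X : Ω → ℝ} (hX : Measurable X) (K : ℕ) (t β : ℕ → ℝ) :
    Measurable fun ω => ∑ k ∈ range K, ee (t k * X ω + β k) := by
  refine Finset.measurable_fun_sum _ fun k _ => ?_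
  exact ee_cont.measurable.comp ((hX.const_mul (t k)).add_const (β k))

lemma sum_norm (K : ℕ) (x : ℕ → ℝ) : ‖∑ k ∈ range K, ee (x k)‖ ≤ K := by
  refine (norm_sum_le _ _).trans ?_
  simp only [norm_ee]
  rw [Finset.sum_const, card_range, nsmul_eq_mul, mul_one]

lemma second_moment [IsProbabilityMeasure μ] {X : Ω → ℝ} (hX : Measurable X) (K : ℕ) (t β : ℕ → ℝ) :
    ∫ ω, ‖∑ k ∈ range K, ee (t k * X ω + β k)‖ ^ 2 ∂μ ≤
      ∑ k ∈ range K, ∑ l ∈ range K, ‖∫ ω, ee ((t k - t l) * X ω) ∂μ‖ := by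
  have h1 : ∀ ω, (((‖∑ k ∈ range K, ee (t k * X ω + β k)‖ ^ 2 : ℝ)) : ℂ) =
      ∑ k ∈ range K, ∑ l ∈ range K, ee (β k - β l) * ee ((t k - t l) * X ω) := by
    intro ω
    have h2 := RCLike.mul_conj (∑ k ∈ range K, ee (t k * X ω + β k))
    rw [Complex.ofReal_pow]
    rw [← show ((‖∑ k ∈ range K, ee (t k * X ω + β k)‖ : ℂ)) = (RCLike.ofReal ‖∑ k ∈ range K, ee (t k * X ω + β k)‖ : ℂ) from rfl] at h2
    rw [← h2, map_sum, Finset.sum_mul_sum]
    refine Finset.sum_congr rfl fun k _ => Finset.sum_congr rfl fun l _ => ?_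
    rw [ee_conj, ← ee_add, ← ee_add]
    congr 1
    ring
  have h2 : ((∫ ω, ‖∑ k ∈ range K, ee (t k * X ω + β k)‖ ^ 2 ∂μ : ℝ) : ℂ) =
      ∑ k ∈ range K, ∑ l ∈ range K, ee (β k - β l) * ∫ ω, ee ((t k - t l) * X ω) ∂μ := by
    rw [← integral_complex_ofReal]
    simp only [h1]
    rw [integral_finsetSum]
    · refine Finset.sum_congr rfl fun k _ => ?_
      rw [integral_finsetSum]
      · refine Finset.sum_congr rfl fun l _ => ?_
        rw [integral_const_mul]
      · intro l _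
        exact (ee_int hX _).const_mul _
    · intro k _
      apply integrable_finsetSum
      intro l _
      exact (ee_int hX _).const_mul _
  have h3 : ∫ ω, ‖∑ k ∈ range K, ee (t k * X ω + β k)‖ ^ 2 ∂μ =
      ‖((∫ ω, ‖∑ k ∈ range K, ee (t k * X ω + β k)‖ ^ 2 ∂μ : ℝ) : ℂ)‖ := by
    rw [Complex.norm_real, Real.norm_eq_abs, abs_of_nonneg]
    exact integral_nonneg fun ω => by positivity
  rw [h3, h2]
  refine (norm_sum_le _ _).trans (Finset.sum_le_sum fun k _ => (norm_sum_le _ _).trans (Finset.sum_le_sum fun l _ => ?_))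
  rw [norm_mul, norm_ee, one_mul]

lemma sum_sym (f : ℕ → ℕ → ℝ) (hf : ∀ k l, f k l = f l k) (K : ℕ) :
    ∑ k ∈ range K, ∑ l ∈ range K, f k l = ∑ k ∈ range K, (f k k + 2 * ∑ l ∈ range k, f k l) := by
  induction K with
  | zero => simp
  | succ K ih =>
    rw [Finset.sum_range_succ (fun k => f k k + 2 * ∑ l ∈ range k, f k l), ← ih, Finset.sum_range_succ]
    have h1 : ∑ k ∈ range K, ∑ l ∈ range (K + 1), f k l = ∑ k ∈ range K, ∑ l ∈ range K, f k l + ∑ k ∈ range K, f K k := by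
      rw [← Finset.sum_add_distrib]
      refine Finset.sum_congr rfl fun k _ => ?_
      rw [Finset.sum_range_succ, hf k K]
    rw [h1, Finset.sum_range_succ]
    ring

lemma log_one_sub {h : ℕ} (hh : 1 ≤ h) : |Real.log (1 - Real.exp (-(h : ℝ)))| ≤ 1 := by
  have h1 : Real.exp (-(h : ℝ)) ≤ Real.exp (-1) := by
    apply Real.exp_le_exp.2
    have : (1 : ℝ) ≤ h := by exact_mod_cast hh
    linarith
  have h2 : Real.exp (-1) ≤ 1 / 2 := by
    rw [Real.exp_neg, inv_eq_one_div]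
    apply one_div_le_one_div_of_le (by norm_num)
    have := Real.exp_one_gt_d9
    linarith
  have h3 : 0 < Real.exp (-(h : ℝ)) := Real.exp_pos _
  rw [abs_of_nonpos (Real.log_nonpos (by linarith) (by linarith))]
  have h4 : -1 ≤ Real.log (1 - Real.exp (-(h : ℝ))) := by
    rw [Real.le_log_iff_exp_le (by linarith)]
    linarith
  linarith

/-- the sum over pairs -/
lemma pair_sum {Q : ℝ → ℝ} (hQ0 : ∀ τ, 0 ≤ Q τ) (hQ1 : ∀ τ, Q τ ≤ 1) (hQs : ∀ τ, Q (-τ) = Q τ) {a : ℕ → ℕ}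
    (ha : StrictMono a) (lam : ℝ) {K N : ℕ} (hN : ∀ k < K, a k ≤ N) {Bd : ℝ}
    (hBd : ∀ h ∈ Icc 1 N, ∑ m ∈ Icc 1 N, Q (lam * (1 - Real.exp (-(h : ℕ))) * Real.exp m) ≤ Bd) :
    ∑ k ∈ range K, ∑ l ∈ range K, Q (lam * Real.exp (a k) - lam * Real.exp (a l)) ≤ K + 2 * (N * Bd) := by
  rw [sum_sym (fun k l => Q (lam * Real.exp (a k) - lam * Real.exp (a l)))
    (fun k l => by
      rw [← hQs]
      congr 1
      ring), Finset.sum_add_distrib, ← Finset.mul_sum]
  have h1 : ∑ k ∈ range K, Q (lam * Real.exp (a k) - lam * Real.exp (a k)) ≤ K := by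
    refine (Finset.sum_le_sum fun k _ => hQ1 _).trans ?_
    rw [Finset.sum_const, card_range, nsmul_eq_mul, mul_one]
  obtain ⟨g, hg⟩ : ∃ g : ℕ → ℕ → ℝ, g = fun (h m : ℕ) => Q (lam * (1 - Real.exp (-(h : ℕ))) * Real.exp m) := ⟨_, rfl⟩
  have hg0 : ∀ h m, 0 ≤ g h m := by intro h m; rw [hg]; exact hQ0 _
  have h2 : ∀ k ∈ range K, ∑ l ∈ range k, Q (lam * Real.exp (a k) - lam * Real.exp (a l)) ≤
      ∑ h ∈ Icc 1 N, (if 1 ≤ a k then g h (a k) else 0) := by
    intro k hk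
    by_cases h1k : 1 ≤ a k
    · simp only [h1k, if_true]
      have h3 : ∀ l ∈ range k, Q (lam * Real.exp (a k) - lam * Real.exp (a l)) = g (a k - a l) (a k) := by
        intro l hl
        have h4 : a l < a k := ha (Finset.mem_range.1 hl)
        rw [hg]
        simp only
        congr 1
        rw [Nat.cast_sub h4.le, neg_sub, mul_assoc, sub_mul, ← Real.exp_add]
        rw [sub_add_cancel]
        ring
      rw [Finset.sum_congr rfl h3, ← Finset.sum_image (f := fun h => g h (a k)) (g := fun l => a k - a l)]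
      · apply Finset.sum_le_sum_of_subset_of_nonneg
        · intro h hh
          obtain ⟨l, hl, rfl⟩ := Finset.mem_image.1 hh
          have h4 : a l < a k := ha (Finset.mem_range.1 hl)
          have h5 := hN k (Finset.mem_range.1 hk)
          rw [Finset.mem_Icc]
          omega
        · intro h _ _
          exact hg0 _ _
      · intro l hl l' hl' hll
        have h4 : a l < a k := ha (Finset.mem_range.1 hl)
        have h5 : a l' < a k := ha (Finset.mem_range.1 hl')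
        simp only at hll
        exact ha.injective (by omega)
    · simp only [h1k, if_false]
      have h3 : k = 0 := by
        have := ha.le_apply (x := k)
        omega
      subst h3
      simp
  have h3 : ∑ k ∈ range K, ∑ l ∈ range k, Q (lam * Real.exp (a k) - lam * Real.exp (a l)) ≤ N * Bd := by
    refine (Finset.sum_le_sum h2).trans ?_
    rw [Finset.sum_comm]
    have h4 : ∀ h ∈ Icc 1 N, ∑ k ∈ range K, (if 1 ≤ a k then g h (a k) else 0) ≤ Bd := by
      intro h hh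
      refine le_trans ?_ (hBd h hh)
      rw [← Finset.sum_filter, ← Finset.sum_image (f := fun m => g h m) (g := a)]
      · have h5 : ((range K).filter fun k => 1 ≤ a k).image a ⊆ Icc 1 N := by
          intro m hm
          obtain ⟨k, hk, rfl⟩ := Finset.mem_image.1 hm
          rw [Finset.mem_filter, Finset.mem_range] at hk
          exact Finset.mem_Icc.2 ⟨hk.2, hN k hk.1⟩
        have h6 := Finset.sum_le_sum_of_subset_of_nonneg (f := fun m => g h m) h5 (fun m _ _ => hg0 _ _)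
        rw [hg] at h6
        rw [hg]
        exact h6
      · intro k _ k' _ hkk
        exact ha.injective hkk
    refine (Finset.sum_le_sum h4).trans ?_
    rw [Finset.sum_const, Nat.card_Icc, Nat.add_sub_cancel, nsmul_eq_mul]
  linarith

/-- the growth of the bounds -/
lemma asym2 {c' γ : ℝ} (hc' : 0 < c') (hγ : γ < 1 / 3) : ∀ᶠ K : ℕ in atTop,
    (K : ℝ) + 2 * (((K : ℝ) * Real.exp (Real.log K ^ γ)) ^ 2 * Real.exp (-(c' * ph K))) ≤
      (K : ℝ) ^ 2 * Real.exp (-(c' / 2 * ph K)) := by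
  have h1 : Tendsto (fun x : ℝ => x ^ (3 * γ - 1)) atTop (𝓝 0) := by
    have := tendsto_rpow_neg_atTop (show 0 < 1 - 3 * γ by linarith)
    simpa [neg_sub] using this
  have h2 := ph_tendsto.eventually (h1.eventually (gt_mem_nhds (show (0 : ℝ) < c' / 8 by positivity)))
  have h3 : Tendsto (fun x : ℝ => Real.exp (-(c' / 4 * x))) atTop (𝓝 0) :=
    Real.tendsto_exp_neg_atTop_nhds_zero.comp (tendsto_id.const_mul_atTop (by positivity))
  have h4 := ph_tendsto.eventually (h3.eventually (gt_mem_nhds (show (0 : ℝ) < 1 / 8 by norm_num)))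
  filter_upwards [h2, h4, ph_tendsto.eventually (eventually_ge_atTop (1 + c')), eventually_ge_atTop 1] with K e1 e2 e3 hK
  obtain ⟨x, hx⟩ : ∃ x, x = ph K := ⟨_, rfl⟩
  rw [← hx] at e1 e2 e3 ⊢
  have hx3 : x ^ 3 = Real.log K := by rw [hx]; exact ph_cube K
  have hK1 : (1 : ℝ) ≤ K := by exact_mod_cast hK
  have hK0 : (0 : ℝ) < K := by linarith
  have hx0 : 0 < x := by linarith
  have hx1 : 1 ≤ x := by linarith
  have e4 : Real.log K ^ γ ≤ c' / 8 * x := by
    rw [← hx3, ← Real.rpow_natCast, ← Real.rpow_mul hx0.le]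
    have h5 : x ^ (((3 : ℕ) : ℝ) * γ) = x ^ (3 * γ - 1) * x := by
      rw [← Real.rpow_add_one hx0.ne']
      congr 1
      push_cast
      ring
    rw [h5]
    exact mul_le_mul_of_nonneg_right e1.le hx0.le
  have e5 : (K : ℝ) ≤ (K : ℝ) ^ 2 * (1 / 2 * Real.exp (-(c' / 2 * x))) := by
    have h5 : (K : ℝ) * Real.exp (-(x ^ 3)) = 1 := by
      rw [hx3, Real.exp_neg, Real.exp_log hK0]
      exact mul_inv_cancel₀ hK0.ne'
    have h6 : Real.exp (-(x ^ 3)) ≤ 1 / 2 * Real.exp (-(c' / 2 * x)) := by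
      have h7 : c' * x ≤ x ^ 3 := by
        have : c' ≤ x ^ 2 := by nlinarith
        nlinarith
      calc Real.exp (-(x ^ 3)) ≤ Real.exp (-(c' / 4 * x) + -(c' / 2 * x)) := by
            apply Real.exp_le_exp.2
            nlinarith
        _ = Real.exp (-(c' / 4 * x)) * Real.exp (-(c' / 2 * x)) := Real.exp_add _ _
        _ ≤ 1 / 2 * Real.exp (-(c' / 2 * x)) := mul_le_mul_of_nonneg_right (by linarith) (Real.exp_pos _).le
    calc (K : ℝ) = (K : ℝ) ^ 2 * Real.exp (-(x ^ 3)) := by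
          rw [sq, mul_assoc, h5, mul_one]
      _ ≤ _ := mul_le_mul_of_nonneg_left h6 (by positivity)
  have e6 : 2 * (((K : ℝ) * Real.exp (Real.log K ^ γ)) ^ 2 * Real.exp (-(c' * x))) ≤
      (K : ℝ) ^ 2 * (1 / 2 * Real.exp (-(c' / 2 * x))) := by
    have h5 : Real.exp (Real.log K ^ γ) ^ 2 * Real.exp (-(c' * x)) ≤ Real.exp (-(c' / 4 * x)) * Real.exp (-(c' / 2 * x)) := by
      rw [← Real.exp_nat_mul, ← Real.exp_add, ← Real.exp_add]
      apply Real.exp_le_exp.2
      push_cast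
      linarith
    have h6 : Real.exp (-(c' / 4 * x)) * Real.exp (-(c' / 2 * x)) ≤ 1 / 8 * Real.exp (-(c' / 2 * x)) :=
      mul_le_mul_of_nonneg_right e2.le (Real.exp_pos _).le
    have h7 : 2 * (((K : ℝ) * Real.exp (Real.log K ^ γ)) ^ 2 * Real.exp (-(c' * x))) =
        (K : ℝ) ^ 2 * (2 * (Real.exp (Real.log K ^ γ) ^ 2 * Real.exp (-(c' * x)))) := by ring
    rw [h7]
    apply mul_le_mul_of_nonneg_left _ (by positivity)
    have h8 := Real.exp_pos (-(c' / 2 * x))
    linarith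
  linarith

/-- **the second moment along a sequence** -/
theorem moment_bound [IsProbabilityMeasure μ] {X : Ω → ℝ} (hX : Measurable X) {b : ℕ} (hb : 2 ≤ b) {G : ℝ} (hG : 0 < G)
    {ρ : ℝ} (hρ0 : 0 < ρ) (hρ1 : ρ < 1) (hQ : ∀ τ I, Gd b I (G * τ) → ‖∫ ω, ee (τ * X ω) ∂μ‖ ≤ ρ ^ I) :
    ∃ c' : ℝ, 0 < c' ∧ ∀ a : ℕ → ℕ, StrictMono a → ∀ γ : ℝ, 0 ≤ γ → γ < 1 / 3 →
      (∀ᶠ k : ℕ in atTop, (a k : ℝ) ≤ k * Real.exp (Real.log k ^ γ)) → ∀ lam : ℝ, lam ≠ 0 → ∀ᶠ K : ℕ in atTop,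
      ∀ β : ℕ → ℝ, ∫ ω, ‖∑ k ∈ range K, ee (lam * Real.exp (a k) * X ω + β k)‖ ^ 2 ∂μ ≤
        (K : ℝ) ^ 2 * Real.exp (-(c' * ph K)) := by
  obtain ⟨c', hc', hkey⟩ := key_sum hb hG hρ0 hρ1
  refine ⟨c' / 2, by positivity, ?_⟩
  intro a ha γ hγ0 hγ hgr lam hlam
  have hk := hkey (|Real.log (|lam|)| + 1) (by positivity)
  have hNt : Tendsto (fun K : ℕ => ⌊(K : ℝ) * Real.exp (Real.log K ^ γ)⌋₊) atTop atTop := by
    apply tendsto_atTop_mono _ tendsto_id
    intro K
    apply Nat.le_floor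
    simp only [id]
    refine le_mul_of_one_le_right (Nat.cast_nonneg _) (Real.one_le_exp ?_)
    exact Real.rpow_nonneg (Real.log_natCast_nonneg K) _
  have hk2 := hNt.eventually hk
  obtain ⟨k0, hk0⟩ := eventually_atTop.1 hgr
  filter_upwards [hk2, asym2 hc' hγ, eventually_ge_atTop (k0 + 2)] with K h1 h2 hK β
  obtain ⟨R, hR⟩ : ∃ R : ℝ, R = (K : ℝ) * Real.exp (Real.log K ^ γ) := ⟨_, rfl⟩
  rw [← hR] at h1 h2
  obtain ⟨N, hN⟩ : ∃ N : ℕ, N = ⌊R⌋₊ := ⟨_, rfl⟩
  rw [← hN] at h1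
  have hR0 : 0 ≤ R := by rw [hR]; positivity
  have hNR : (N : ℝ) ≤ R := by rw [hN]; exact Nat.floor_le hR0
  have hKN : K ≤ N := by
    rw [hN]
    apply Nat.le_floor
    rw [hR]
    refine le_mul_of_one_le_right (Nat.cast_nonneg _) (Real.one_le_exp ?_)
    exact Real.rpow_nonneg (Real.log_natCast_nonneg K) _
  have haN : ∀ k < K, a k ≤ N := by
    intro k hk
    have h3 : a k ≤ a (K - 1) := ha.monotone (by omega)
    refine h3.trans ?_
    rw [hN]
    apply Nat.le_floor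
    refine (hk0 (K - 1) (by omega)).trans ?_
    rw [hR]
    have h4 : ((K - 1 : ℕ) : ℝ) ≤ K := by exact_mod_cast Nat.sub_le K 1
    have h5 : Real.log ((K - 1 : ℕ) : ℝ) ≤ Real.log K := by
      apply Real.log_le_log _ h4
      have : 0 < K - 1 := by omega
      exact_mod_cast this
    have h6 : Real.log ((K - 1 : ℕ) : ℝ) ^ γ ≤ Real.log K ^ γ :=
      Real.rpow_le_rpow (Real.log_natCast_nonneg _) h5 hγ0
    exact mul_le_mul h4 (Real.exp_le_exp.2 h6) (Real.exp_pos _).le (Nat.cast_nonneg _)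
  have hQ1 : ∀ τ, ‖∫ ω, ee (τ * X ω) ∂μ‖ ≤ 1 := by
    intro τ
    refine (norm_integral_le_integral_norm _).trans ?_
    simp only [norm_ee]
    rw [integral_const, probReal_univ, one_smul]
  have hQs : ∀ τ, ‖∫ ω, ee (-τ * X ω) ∂μ‖ = ‖∫ ω, ee (τ * X ω) ∂μ‖ := by
    intro τ
    have h3 : ∀ ω, ee (-τ * X ω) = conj (ee (τ * X ω)) := by
      intro ω
      rw [ee_conj]
      congr 1
      ring
    simp only [h3]
    rw [integral_conj, RCLike.norm_conj]
  have hBd : ∀ h ∈ Icc 1 N, ∑ m ∈ Icc 1 N, ‖∫ ω, ee (lam * (1 - Real.exp (-(h : ℕ))) * Real.exp m * X ω) ∂μ‖ ≤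
      N * Real.exp (-(c' * ph N)) := by
    intro h hh
    have hh1 : 1 ≤ h := (Finset.mem_Icc.1 hh).1
    have h3 : Real.exp (-(h : ℝ)) < 1 := by
      rw [Real.exp_lt_one_iff]
      have : (1 : ℝ) ≤ h := by exact_mod_cast hh1
      linarith
    have h4 : 0 < 1 - Real.exp (-(h : ℝ)) := by linarith
    apply h1 (fun τ => ‖∫ ω, ee (τ * X ω) ∂μ‖) hQ1 hQ
    · exact mul_ne_zero hlam h4.ne'
    · rw [abs_mul, abs_of_pos h4, Real.log_mul (abs_pos.2 hlam).ne' h4.ne']
      exact (abs_add_le _ _).trans (add_le_add le_rfl (log_one_sub hh1))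
  refine (second_moment hX K (fun k => lam * Real.exp (a k)) β).trans ?_
  refine (pair_sum (Q := fun τ => ‖∫ ω, ee (τ * X ω) ∂μ‖) (fun τ => norm_nonneg _) hQ1 hQs ha lam haN hBd).trans ?_
  refine le_trans ?_ h2
  have h3 : (N : ℝ) * (N * Real.exp (-(c' * ph N))) ≤ R ^ 2 * Real.exp (-(c' * ph K)) := by
    have h4 : Real.exp (-(c' * ph N)) ≤ Real.exp (-(c' * ph K)) := by
      apply Real.exp_le_exp.2
      have h5 := ph_mono (show 1 ≤ K by omega) hKN
      have := mul_le_mul_of_nonneg_left h5 hc'.le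
      linarith
    calc (N : ℝ) * (N * Real.exp (-(c' * ph N))) = (N : ℝ) ^ 2 * Real.exp (-(c' * ph N)) := by ring
      _ ≤ R ^ 2 * Real.exp (-(c' * ph K)) :=
        mul_le_mul (pow_le_pow_left₀ (Nat.cast_nonneg _) hNR 2) h4 (Real.exp_pos _).le (by positivity)
  linarith

end Pool.Agent.J4H40.Ca
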