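import Pool.Agent.J4H40.Ed
import Pool.Agent.J4H75.PN.UBox

set_option autoImplicit false

/-! From the second moments to almost every point. -/

namespace Pool.Agent.J4H40.Ca

open MeasureTheory ProbabilityTheory Finset Filter Topology
open scoped Real ENNReal
open Pool.Agent.J4H75.PN (ee norm_ee ee_add Cond uweyl)

lemma inv_log_sum : Summable fun K : ℕ => 1 / ((K : ℝ) * Real.log K ^ 2) := by
  rw [← summable_nat_add_iff 3]
  apply summable_of_sum_range_le (c := 1 / Real.log 2)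
  · intro j
    positivity
  · intro n
    have h1 : ∀ j ∈ range n, 1 / (((j + 3 : ℕ) : ℝ) * Real.log ((j + 3 : ℕ) : ℝ) ^ 2) ≤
        1 / Real.log ((j + 2 : ℕ) : ℝ) - 1 / Real.log ((j + 2 + 1 : ℕ) : ℝ) := by
      intro j _
      obtain ⟨u, hu⟩ : ∃ u : ℝ, u = ((j + 2 : ℕ) : ℝ) := ⟨_, rfl⟩
      have hu2 : 2 ≤ u := by rw [hu]; push_cast; linarith [(Nat.cast_nonneg j : (0 : ℝ) ≤ j)]
      have e2 : ((j + 2 + 1 : ℕ) : ℝ) = u + 1 := by rw [hu]; push_cast; ring
      rw [e2, ← hu]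
      have h2 : 0 < Real.log u := Real.log_pos (by linarith)
      have h3 : Real.log u ≤ Real.log (u + 1) := Real.log_le_log (by linarith) (by linarith)
      have h4 : 1 / (u + 1) ≤ Real.log (u + 1) - Real.log u := by
        rw [← Real.log_div (by linarith) (by linarith)]
        have h5 := Real.one_sub_inv_le_log_of_pos (x := (u + 1) / u) (by positivity)
        refine le_trans (le_of_eq ?_) h5
        field_simp
        ring
      have h5 : 1 / Real.log u - 1 / Real.log (u + 1) = (Real.log (u + 1) - Real.log u) / (Real.log u * Real.log (u + 1)) := by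
        have : Real.log (u + 1) ≠ 0 := by linarith
        field_simp
      rw [h5]
      calc 1 / ((u + 1) * Real.log (u + 1) ^ 2) = (1 / (u + 1)) / (Real.log (u + 1) * Real.log (u + 1)) := by
            rw [div_div, sq]
        _ ≤ (Real.log (u + 1) - Real.log u) / (Real.log u * Real.log (u + 1)) := by
            apply div_le_div₀ (by linarith [Real.log_le_log (show (0 : ℝ) < u by linarith) (show u ≤ u + 1 by linarith)]) h4
              (mul_pos h2 (by linarith))
            exact mul_le_mul_of_nonneg_right h3 (by linarith)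
    refine (Finset.sum_le_sum h1).trans ?_
    rw [Finset.sum_range_sub' (fun j => 1 / Real.log ((j + 2 : ℕ) : ℝ)) n]
    have h2 : 0 ≤ 1 / Real.log ((n + 2 : ℕ) : ℝ) := by positivity
    simp only [zero_add]
    push_cast at h2 ⊢
    linarith

/-- a path with summable weighted squares is small -/
lemma path {S : ℕ → ℂ} (hS : ∀ K, ‖S (K + 1) - S K‖ ≤ 1) {α : ℝ} (hα : 0 < α)
    (hsum : Summable fun K : ℕ => ‖S K‖ ^ 2 / (K : ℝ) ^ 3 * Real.exp (α * ph K)) :
    ∀ᶠ K : ℕ in atTop, ‖S K‖ ≤ K * Real.exp (-(α / 4 * ph K)) := by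
  obtain ⟨W, hW⟩ : ∃ W, W = ∑' K : ℕ, ‖S K‖ ^ 2 / (K : ℝ) ^ 3 * Real.exp (α * ph K) := ⟨_, rfl⟩
  have hstep : ∀ K j, ‖S K‖ - j ≤ ‖S (K + j)‖ := by
    intro K j
    induction j with
    | zero => simp
    | succ j ih =>
      have h1 := hS (K + j)
      have h2 := norm_sub_norm_le (S (K + j)) (S (K + j + 1))
      rw [norm_sub_rev] at h2
      push_cast
      rw [← add_assoc]
      linarith
  have t1 : Tendsto (fun K : ℕ => Real.exp (α / 4 * ph K)) atTop atTop :=
    Real.tendsto_exp_atTop.comp (ph_tendsto.const_mul_atTop (by positivity))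
  filter_upwards [t1.eventually (eventually_gt_atTop (64 * W)), eventually_ge_atTop 1] with K h1 hK
  by_contra hcon
  push Not at hcon
  obtain ⟨ε, hε⟩ : ∃ ε, ε = Real.exp (-(α / 4 * ph K)) := ⟨_, rfl⟩
  rw [← hε] at hcon
  have hε0 : 0 < ε := by rw [hε]; exact Real.exp_pos _
  have hε1 : ε ≤ 1 := by
    rw [hε, Real.exp_le_one_iff]
    have := mul_nonneg (by positivity : 0 ≤ α / 4) (ph_nn K)
    linarith
  have hK1 : (1 : ℝ) ≤ K := by exact_mod_cast hK
  have hK0 : (0 : ℝ) < K := by linarith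
  obtain ⟨J, hJ⟩ : ∃ J : ℕ, J = ⌊(K : ℝ) * ε / 2⌋₊ := ⟨_, rfl⟩
  have hJ1 : (J : ℝ) ≤ K * ε / 2 := by rw [hJ]; exact Nat.floor_le (by positivity)
  have hJ2 : (K : ℝ) * ε / 2 ≤ J + 1 := by rw [hJ]; exact (Nat.lt_floor_add_one _).le
  have hJK : J ≤ K := by
    have h2 : (K : ℝ) * ε ≤ K := mul_le_of_le_one_right hK0.le hε1
    have h3 : (J : ℝ) ≤ K := by linarith
    exact_mod_cast h3
  have hterm : ∀ j ∈ range (J + 1), ε ^ 2 / (32 * K) * Real.exp (α * ph K) ≤
      ‖S (K + j)‖ ^ 2 / ((K + j : ℕ) : ℝ) ^ 3 * Real.exp (α * ph (K + j)) := by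
    intro j hj
    have hjJ : j ≤ J := by
      have := Finset.mem_range.1 hj
      omega
    have h2 := hstep K j
    have h3 : (j : ℝ) ≤ J := by exact_mod_cast hjJ
    have h4 : (K : ℝ) * ε / 2 ≤ ‖S (K + j)‖ := by linarith
    have h5 : ((K + j : ℕ) : ℝ) ≤ 2 * K := by
      have : K + j ≤ 2 * K := by omega
      exact_mod_cast this
    have h6 : (0 : ℝ) < ((K + j : ℕ) : ℝ) := by
      have : 0 < K + j := by omega
      exact_mod_cast this
    have h7 : Real.exp (α * ph K) ≤ Real.exp (α * ph (K + j)) := by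
      apply Real.exp_le_exp.2
      exact mul_le_mul_of_nonneg_left (ph_mono hK (Nat.le_add_right K j)) hα.le
    have h8 : ε ^ 2 / (32 * K) = ((K : ℝ) * ε / 2) ^ 2 / (2 * K) ^ 3 := by
      field_simp
      norm_num
    rw [h8]
    gcongr
  have hsum2 : ∑ j ∈ range (J + 1), ‖S (K + j)‖ ^ 2 / ((K + j : ℕ) : ℝ) ^ 3 * Real.exp (α * ph (K + j)) ≤ W := by
    rw [hW]
    have h2 : ∑ j ∈ range (J + 1), ‖S (K + j)‖ ^ 2 / ((K + j : ℕ) : ℝ) ^ 3 * Real.exp (α * ph (K + j)) =
        ∑ n ∈ (range (J + 1)).image (fun j => K + j), ‖S n‖ ^ 2 / (n : ℝ) ^ 3 * Real.exp (α * ph n) := by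
      rw [Finset.sum_image]
      intro i _ j _ hij
      simp only at hij
      omega
    rw [h2]
    exact hsum.sum_le_tsum _ fun n _ => by positivity
  have h2 := Finset.sum_le_sum hterm
  rw [Finset.sum_const, card_range, nsmul_eq_mul] at h2
  have h3 : (K : ℝ) * ε / 2 * (ε ^ 2 / (32 * K) * Real.exp (α * ph K)) ≤
      ((J + 1 : ℕ) : ℝ) * (ε ^ 2 / (32 * K) * Real.exp (α * ph K)) := by
    apply mul_le_mul_of_nonneg_right _ (by positivity)
    push_cast
    exact hJ2
  have h4 : (K : ℝ) * ε / 2 * (ε ^ 2 / (32 * K) * Real.exp (α * ph K)) = ε ^ 3 * Real.exp (α * ph K) / 64 := by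
    field_simp
    norm_num
  have h5 : ε ^ 3 * Real.exp (α * ph K) = Real.exp (α / 4 * ph K) := by
    rw [hε, ← Real.exp_nat_mul, ← Real.exp_add]
    congr 1
    push_cast
    ring
  rw [h4, h5] at h3
  linarith

variable {Ω : Type*} [MeasurableSpace Ω] {μ : Measure Ω}

lemma ae_summable {f : ℕ → Ω → ℝ} (hf0 : ∀ K ω, 0 ≤ f K ω) (hfi : ∀ K, Integrable (f K) μ)
    (hs : Summable fun K => ∫ ω, f K ω ∂μ) : ∀ᵐ ω ∂μ, Summable fun K => f K ω := by
  have h1 : ∫⁻ ω, ∑' K, ENNReal.ofReal (f K ω) ∂μ ≠ ∞ := by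
    rw [lintegral_tsum fun K => (hfi K).aestronglyMeasurable.aemeasurable.ennreal_ofReal]
    have h2 : ∀ K, ∫⁻ ω, ENNReal.ofReal (f K ω) ∂μ = ENNReal.ofReal (∫ ω, f K ω ∂μ) := by
      intro K
      rw [ofReal_integral_eq_lintegral_ofReal (hfi K)]
      filter_upwards with ω
      exact hf0 K ω
    simp only [h2]
    rw [← ENNReal.ofReal_tsum_of_nonneg (fun K => integral_nonneg (hf0 K)) hs]
    exact ENNReal.ofReal_ne_top
  have h2 := ae_lt_top' (AEMeasurable.tsum fun K => (hfi K).aestronglyMeasurable.aemeasurable.ennreal_ofReal) h1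
  filter_upwards [h2] with ω hω
  have h3 := ENNReal.summable_toReal hω.ne
  refine h3.congr fun K => ?_
  rw [ENNReal.toReal_ofReal (hf0 K ω)]

/-- from the second moments to almost every point -/
theorem ae_small [IsProbabilityMeasure μ] {X : Ω → ℝ} (hX : Measurable X) (t β : ℕ → ℝ) {c' : ℝ} (hc' : 0 < c')
    (h : ∀ᶠ K : ℕ in atTop, ∫ ω, ‖∑ k ∈ range K, ee (t k * X ω + β k)‖ ^ 2 ∂μ ≤ (K : ℝ) ^ 2 * Real.exp (-(c' * ph K))) :
    ∀ᵐ ω ∂μ, ∀ᶠ K : ℕ in atTop, ‖∑ k ∈ range K, ee (t k * X ω + β k)‖ ≤ K * Real.exp (-(c' / 8 * ph K)) := by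
  have hint : ∀ K : ℕ, Integrable (fun ω => ‖∑ k ∈ range K, ee (t k * X ω + β k)‖ ^ 2) μ := by
    intro K
    refine Integrable.of_bound ((sum_meas hX K t β).norm.pow_const 2).aestronglyMeasurable ((K : ℝ) ^ 2) ?_
    filter_upwards with ω
    rw [norm_pow, norm_norm]
    exact pow_le_pow_left₀ (norm_nonneg _) (sum_norm K _) 2
  have hs : Summable fun K : ℕ => ∫ ω, ‖∑ k ∈ range K, ee (t k * X ω + β k)‖ ^ 2 / (K : ℝ) ^ 3 * Real.exp (c' / 2 * ph K) ∂μ := by
    apply Summable.of_norm_bounded_eventually_nat inv_log_sum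
    have t1 : Tendsto (fun x : ℝ => x ^ 6 * Real.exp (-(c' / 2 * x))) atTop (𝓝 0) := by
      have t2 := (Real.tendsto_pow_mul_exp_neg_atTop_nhds_zero 6).comp (tendsto_id.const_mul_atTop (show 0 < c' / 2 by positivity))
      have t3 := t2.const_mul ((c' / 2) ^ 6)⁻¹
      rw [mul_zero] at t3
      refine t3.congr fun x => ?_
      simp only [Function.comp, id]
      rw [mul_pow]
      field_simp
    filter_upwards [h, (ph_tendsto.eventually (t1.eventually (gt_mem_nhds (show (0 : ℝ) < 1 by norm_num)))),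
      eventually_ge_atTop 2] with K h1 h2 hK
    have hK0 : (0 : ℝ) < K := by
      have : 0 < K := by omega
      exact_mod_cast this
    have hl0 : 0 < Real.log K := Real.log_pos (by exact_mod_cast (show 1 < K by omega))
    rw [Real.norm_eq_abs, abs_of_nonneg (integral_nonneg fun ω => by positivity)]
    rw [integral_mul_const, integral_div]
    have h3 : (∫ ω, ‖∑ k ∈ range K, ee (t k * X ω + β k)‖ ^ 2 ∂μ) / (K : ℝ) ^ 3 * Real.exp (c' / 2 * ph K) ≤
        (K : ℝ) ^ 2 * Real.exp (-(c' * ph K)) / (K : ℝ) ^ 3 * Real.exp (c' / 2 * ph K) := by gcongr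
    refine h3.trans ?_
    have h4 : (K : ℝ) ^ 2 * Real.exp (-(c' * ph K)) / (K : ℝ) ^ 3 * Real.exp (c' / 2 * ph K) =
        Real.exp (-(c' / 2 * ph K)) / K := by
      have h5 : Real.exp (-(c' * ph K)) * Real.exp (c' / 2 * ph K) = Real.exp (-(c' / 2 * ph K)) := by
        rw [← Real.exp_add]
        congr 1
        ring
      rw [← h5]
      field_simp
    rw [h4, ← ph_cube, ← pow_mul, div_le_div_iff₀ hK0 (by
      have : 0 < ph K := by
        by_contra hc
        push Not at hc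
        have h6 : ph K = 0 := le_antisymm hc (ph_nn K)
        have h7 := ph_cube K
        rw [h6] at h7
        have h8 : (0 : ℝ) ^ 3 = 0 := by norm_num
        linarith
      positivity)]
    have h5 : Real.exp (-(c' / 2 * ph K)) * (K * ph K ^ (3 * 2)) = (ph K ^ 6 * Real.exp (-(c' / 2 * ph K))) * K := by ring
    rw [h5]
    exact mul_le_mul_of_nonneg_right h2.le hK0.le
  have hae := ae_summable (f := fun K ω => ‖∑ k ∈ range K, ee (t k * X ω + β k)‖ ^ 2 / (K : ℝ) ^ 3 * Real.exp (c' / 2 * ph K))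
    (fun K ω => by positivity) (fun K => ((hint K).div_const _).mul_const _) hs
  filter_upwards [hae] with ω hω
  have h1 := path (S := fun K => ∑ k ∈ range K, ee (t k * X ω + β k)) (fun K => by
    rw [Finset.sum_range_succ, add_sub_cancel_left, norm_ee]) (show 0 < c' / 2 by positivity) hω
  filter_upwards [h1] with K hK
  refine hK.trans (le_of_eq ?_)
  congr 3
  ring

/-- small exponential sums give equidistribution -/
theorem boxes {r : ℕ} (x : ℕ → Fin r → ℝ) {c' : ℝ} (hc' : 0 < c')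
    (h : ∀ u : Fin r → ℤ, u ≠ 0 → ∀ᶠ K : ℕ in atTop, ‖∑ k ∈ range K, ee (∑ i, u i * x k i)‖ ≤ K * Real.exp (-(c' * ph K))) :
    ∀ ε : ℝ, 0 < ε → ∀ᶠ K : ℕ in atTop, ∀ a b : Fin r → ℝ, (∀ i, 0 ≤ a i ∧ a i ≤ b i ∧ b i ≤ 1) →
      |(((range K).filter (fun k => ∀ i, a i ≤ Int.fract (x k i) ∧ Int.fract (x k i) < b i)).card : ℝ) / K -
        ∏ i, (b i - a i)| ≤ ε := by
  intro ε hε
  obtain ⟨L, hL0, hL⟩ := uweyl r ε hε
  have t1 : Tendsto (fun K : ℕ => Real.exp (c' * ph K)) atTop atTop :=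
    Real.tendsto_exp_atTop.comp (ph_tendsto.const_mul_atTop hc')
  have h1 : ∀ᶠ K : ℕ in atTop, ∀ u ∈ Fintype.piFinset (fun _ : Fin r => Icc (-(L : ℤ)) L), u ≠ 0 →
      ‖∑ k ∈ range K, ee (∑ i, u i * x k i)‖ ≤ K * Real.exp (-(c' * ph K)) := by
    rw [Filter.eventually_all_finset]
    intro u _
    by_cases hu : u = 0
    · exact Eventually.of_forall fun K hK => absurd hu hK
    · filter_upwards [h u hu] with K hK _
      exact hK
  filter_upwards [h1, t1.eventually (eventually_ge_atTop (L : ℝ)), eventually_ge_atTop 1] with K h2 h3 hK a b hab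
  have hK0 : (0 : ℝ) < K := by exact_mod_cast hK
  have hC : Cond L (range K) x := by
    intro u hu huL
    have h4 := h2 u (by
      rw [Fintype.mem_piFinset]
      intro i
      exact Finset.mem_Icc.2 (abs_le.1 (huL i))) hu
    rw [card_range]
    calc (L : ℝ) * ‖∑ k ∈ range K, ee (∑ i, u i * x k i)‖ ≤ Real.exp (c' * ph K) * (K * Real.exp (-(c' * ph K))) :=
          mul_le_mul h3 h4 (norm_nonneg _) (Real.exp_pos _).le
      _ = K * (Real.exp (c' * ph K) * Real.exp (-(c' * ph K))) := by ring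
      _ = K := by rw [← Real.exp_add, add_neg_cancel, Real.exp_zero, mul_one]
  have h5 := hL (range K) x hC a b (fun i => (hab i).1) (fun i => (hab i).2.1) (fun i => (hab i).2.2)
  rw [card_range] at h5
  have h6 : ((Pool.Agent.J4H75.PN.box (range K) x a b).card : ℝ) =
      (((range K).filter (fun k => ∀ i, a i ≤ Int.fract (x k i) ∧ Int.fract (x k i) < b i)).card : ℝ) := by
    unfold Pool.Agent.J4H75.PN.box
    congr!
  rw [h6] at h5
  have h7 : (((range K).filter (fun k => ∀ i, a i ≤ Int.fract (x k i) ∧ Int.fract (x k i) < b i)).card : ℝ) / K -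
        ∏ i, (b i - a i) = ((((range K).filter (fun k => ∀ i, a i ≤ Int.fract (x k i) ∧ Int.fract (x k i) < b i)).card : ℝ) -
        (∏ i, (b i - a i)) * K) / K := by
    field_simp
  rw [h7, abs_div, abs_of_pos hK0, div_le_iff₀ hK0]
  exact h5

end Pool.Agent.J4H40.Ca
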