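import Pool.Agent.J4H40.Ee

set_option autoImplicit false

/-! Characteristic functions of self-similar measures. -/

namespace Pool.Agent.J4H40.Ca

open MeasureTheory ProbabilityTheory Finset Filter Topology
open scoped Real ENNReal ComplexConjugate
open Pool.Agent.J4H75.PN (ee norm_ee ee_add)

lemma dn_neg (x : ℝ) : dn (-x) = dn x := by
  apply le_antisymm
  · have := dn_mul (-1) x
    simpa using this
  · have := dn_mul (-1) (-x)
    simpa using this

lemma dn_abs_mul (u x : ℝ) : dn (|u| * x) = dn (u * x) := by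
  rcases abs_choice u with h | h
  · rw [h]
  · rw [h, neg_mul, dn_neg]

lemma dn_pow (b t : ℕ) (x : ℝ) : dn ((b : ℝ) ^ t * x) ≤ (b : ℝ) ^ t * dn x := by
  have := dn_mul ((b : ℤ) ^ t) x
  push_cast at this
  rwa [abs_of_nonneg (by positivity)] at this

/-- a function with a renewal inequality is small at the points with many good digit positions -/
lemma renewal {b : ℕ} (hb : 2 ≤ b) {q : ℝ → ℝ} (hq1 : ∀ τ, q τ ≤ 1) {K : ℕ} (hK : 1 ≤ K) {κ u : ℝ}
    (hκ0 : 0 < κ) (hκ1 : κ ≤ 1)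
    (hP : ∀ τ R : ℝ, 0 ≤ R → (∀ k : ℕ, 1 ≤ k → k ≤ K → q (τ / (b : ℝ) ^ k) ≤ R) → q τ ≤ (1 - κ * dn (u * τ) ^ 2) * R) :
    ∃ ρ : ℝ, 0 < ρ ∧ ρ < 1 ∧ ∀ τ I, Gd b I (u * τ) → q τ ≤ ρ ^ I := by
  have hb2 : (2 : ℝ) ≤ b := by exact_mod_cast hb
  have hb0 : (0 : ℝ) < b := by linarith
  obtain ⟨η, hη⟩ : ∃ η : ℝ, η = 1 / (2 * b * (b : ℝ) ^ K) := ⟨_, rfl⟩
  have hη0 : 0 < η := by rw [hη]; positivity
  have hη1 : η ≤ 1 / 2 := by
    rw [hη]
    apply one_div_le_one_div_of_le (by norm_num)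
    have : (1 : ℝ) ≤ (b : ℝ) ^ K := one_le_pow₀ (by linarith)
    nlinarith
  have hKr : (1 : ℝ) ≤ K := by exact_mod_cast hK
  obtain ⟨ρ, hρ⟩ : ∃ ρ : ℝ, ρ = 1 - κ * η ^ 2 / K := ⟨_, rfl⟩
  have h1 : 0 < κ * η ^ 2 / K := by positivity
  have h2 : κ * η ^ 2 / K ≤ 1 / 4 := by
    have h3 : κ * η ^ 2 ≤ 1 / 4 := by nlinarith [sq_nonneg η]
    calc κ * η ^ 2 / K ≤ κ * η ^ 2 := div_le_self (by positivity) hKr
      _ ≤ 1 / 4 := h3
  have hρ0 : 0 < ρ := by rw [hρ]; linarith
  have hρ1 : ρ < 1 := by rw [hρ]; linarith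
  have hρK : 1 - κ * η ^ 2 ≤ ρ ^ K := by
    have h3 := one_add_mul_le_pow (a := -(κ * η ^ 2 / K)) (by linarith) K
    have h4 : (1 : ℝ) + K * -(κ * η ^ 2 / K) = 1 - κ * η ^ 2 := by
      field_simp
      ring
    rw [h4, ← sub_eq_add_neg, ← hρ] at h3
    exact h3
  refine ⟨ρ, hρ0, hρ1, ?_⟩
  have key : ∀ n : ℕ, ∀ (τ : ℝ) (F : Finset ℤ), (∀ j ∈ F, -(K : ℤ) < j ∧ j ≤ n - K) →
      (∀ j ∈ F, 1 / (2 * b : ℝ) ≤ dn (u * τ * (b : ℝ) ^ (-j))) → q τ ≤ ρ ^ F.card := by
    intro n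
    induction n with
    | zero =>
      intro τ F hF _
      have : F = ∅ := by
        rw [Finset.eq_empty_iff_forall_notMem]
        intro j hj
        have := hF j hj
        push_cast at this
        omega
      rw [this, Finset.card_empty, pow_zero]
      exact hq1 τ
    | succ n ih =>
      intro τ F hF hFd
      obtain ⟨F1, hF1⟩ : ∃ F1, F1 = F.filter (fun j => 1 ≤ j) := ⟨_, rfl⟩
      have h3 : ∀ k : ℕ, 1 ≤ k → k ≤ K → q (τ / (b : ℝ) ^ k) ≤ ρ ^ F1.card := by
        intro k hk1 hkK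
        have h4 := ih (τ / (b : ℝ) ^ k) (F1.image fun j => j - k) ?_ ?_
        · rwa [Finset.card_image_of_injective _ (fun x y hxy => by simpa using hxy)] at h4
        · intro j hj
          obtain ⟨i, hi, rfl⟩ := Finset.mem_image.1 hj
          rw [hF1, Finset.mem_filter] at hi
          have := hF i hi.1
          push_cast at this
          constructor <;> omega
        · intro j hj
          obtain ⟨i, hi, rfl⟩ := Finset.mem_image.1 hj
          rw [hF1, Finset.mem_filter] at hi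
          have h5 := hFd i hi.1
          have h6 : u * (τ / (b : ℝ) ^ k) * (b : ℝ) ^ (-(i - (k : ℤ))) = u * τ * (b : ℝ) ^ (-i) := by
            rw [neg_sub, sub_eq_add_neg, zpow_add₀ hb0.ne', zpow_natCast]
            field_simp
          rw [h6]
          exact h5
      have h4 := hP τ (ρ ^ F1.card) (by positivity) h3
      by_cases hcase : ∃ j ∈ F, j ≤ 0
      · obtain ⟨j, hj, hj0⟩ := hcase
        have h5 := hFd j hj
        have h6 := (hF j hj).1
        obtain ⟨t, ht⟩ : ∃ t : ℕ, (t : ℤ) = -j := ⟨(-j).toNat, Int.toNat_of_nonneg (by omega)⟩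
        have h7 : u * τ * (b : ℝ) ^ (-j) = (b : ℝ) ^ t * (u * τ) := by
          rw [← ht, zpow_natCast]
          ring
        rw [h7] at h5
        have h8 := dn_pow b t (u * τ)
        have h9 : (b : ℝ) ^ t * dn (u * τ) ≤ (b : ℝ) ^ K * dn (u * τ) := by
          apply mul_le_mul_of_nonneg_right _ (dn_nn _)
          exact pow_le_pow_right₀ (by linarith) (by omega)
        have h10 : η ≤ dn (u * τ) := by
          have h11 : 1 / (2 * b : ℝ) ≤ (b : ℝ) ^ K * dn (u * τ) := h5.trans (h8.trans h9)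
          rw [hη, ← div_div, div_le_iff₀ (by positivity)]
          linarith
        have h11 : 1 - κ * dn (u * τ) ^ 2 ≤ 1 - κ * η ^ 2 := by
          have := pow_le_pow_left₀ hη0.le h10 2
          have := mul_le_mul_of_nonneg_left this hκ0.le
          linarith
        have h12 : F.card ≤ K + F1.card := by
          have h13 : F.card = F1.card + (F.filter fun j => ¬ 1 ≤ j).card := by
            rw [hF1]
            exact (Finset.card_filter_add_card_filter_not _).symm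
          have h14 : F.filter (fun j => ¬ 1 ≤ j) ⊆ Ioc (-(K : ℤ)) 0 := by
            intro i hi
            rw [Finset.mem_filter] at hi
            have := hF i hi.1
            rw [Finset.mem_Ioc]
            omega
          have h15 := Finset.card_le_card h14
          rw [Int.card_Ioc] at h15
          omega
        calc q τ ≤ (1 - κ * dn (u * τ) ^ 2) * ρ ^ F1.card := h4
          _ ≤ ρ ^ K * ρ ^ F1.card := mul_le_mul_of_nonneg_right (h11.trans hρK) (by positivity)
          _ = ρ ^ (K + F1.card) := (pow_add _ _ _).symm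
          _ ≤ ρ ^ F.card := pow_le_pow_of_le_one hρ0.le hρ1.le h12
      · push Not at hcase
        have h5 : F1 = F := by
          rw [hF1]
          apply Finset.filter_true_of_mem
          intro j hj
          have := hcase j hj
          omega
        rw [h5] at h4
        refine h4.trans ?_
        apply mul_le_of_le_one_left (by positivity)
        have : 0 ≤ κ * dn (u * τ) ^ 2 := by positivity
        linarith
  intro τ I hG
  obtain ⟨F, hFc, hF⟩ := hG
  have h3 := key (F.sup id + 1 + K) τ (F.image fun j : ℕ => ((j : ℤ) + 1)) ?_ ?_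
  · rwa [Finset.card_image_of_injective _ (fun x y hxy => by simpa using hxy), hFc] at h3
  · intro j hj
    obtain ⟨i, hi, rfl⟩ := Finset.mem_image.1 hj
    have h4 : i ≤ F.sup id := Finset.le_sup (f := id) hi
    push_cast
    constructor <;> omega
  · intro j hj
    obtain ⟨i, hi, rfl⟩ := Finset.mem_image.1 hj
    have h4 := hF i hi
    have h5 : u * τ * (b : ℝ) ^ (-((i : ℤ) + 1)) = u * τ / (b : ℝ) ^ (i + 1) := by
      rw [zpow_neg, div_eq_mul_inv]
      congr 2
    rw [h5]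
    exact h4

/-- the renewal inequality of a self-similar measure -/
lemma selfsim {ι : Type*} [Fintype ι] {ν : Measure ℝ} [IsProbabilityMeasure ν] {b : ℕ} (hb : 2 ≤ b) {p r v : ι → ℝ}
    (hp : ∀ i, 0 < p i) (hr : ∀ i, ∃ k : ℕ, 1 ≤ k ∧ |r i| = 1 / (b : ℝ) ^ k)
    (hν : ν = ∑ i, ENNReal.ofReal (p i) • ν.map (fun x => r i * x + v i))
    (hne : ∃ i j, v i * (1 - r j) ≠ v j * (1 - r i)) :
    ∃ g ρ : ℝ, 0 < g ∧ 0 < ρ ∧ ρ < 1 ∧ ∀ τ I, Gd b I (g * τ) → ‖∫ x, ee (τ * x) ∂ν‖ ≤ ρ ^ I := by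
  classical
  obtain ⟨i0, j0, hij⟩ := hne
  choose k hk1 hk2 using hr
  have hii : i0 ≠ j0 := by
    rintro rfl
    exact hij rfl
  have hmap : ∀ i, Measurable fun x : ℝ => r i * x + v i := fun i => (measurable_id.const_mul _).add_const _
  have hq1 : ∀ τ, ‖∫ x, ee (τ * x) ∂ν‖ ≤ 1 := by
    intro τ
    refine (norm_integral_le_integral_norm _).trans ?_
    simp only [norm_ee]
    rw [integral_const, probReal_univ, one_smul]
  have hqs : ∀ τ, ‖∫ x, ee (-τ * x) ∂ν‖ = ‖∫ x, ee (τ * x) ∂ν‖ := by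
    intro τ
    have h3 : ∀ x : ℝ, ee (-τ * x) = conj (ee (τ * x)) := by
      intro x
      rw [ee_conj]
      congr 1
      ring
    simp only [h3]
    rw [integral_conj, RCLike.norm_conj]
  have hee : ∀ τ : ℝ, Continuous fun x : ℝ => ee (τ * x) := fun τ => ee_cont.comp (continuous_const.mul continuous_id)
  have hint : ∀ (τ : ℝ) (m : Measure ℝ) [IsFiniteMeasure m], Integrable (fun x : ℝ => ee (τ * x)) m := by
    intro τ m _
    refine Integrable.of_bound (hee τ).aestronglyMeasurable 1 ?_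
    filter_upwards with x
    rw [norm_ee]
  have hpm : ∀ i, IsProbabilityMeasure (ν.map fun x => r i * x + v i) := fun i =>
    Measure.isProbabilityMeasure_map (hmap i).aemeasurable
  have hps : ∑ i, p i = 1 := by
    have h1 : ν Set.univ = (∑ i, ENNReal.ofReal (p i) • ν.map (fun x => r i * x + v i)) Set.univ := by rw [← hν]
    rw [measure_univ, Measure.finsetSum_apply] at h1
    have h2 : ∀ i ∈ (univ : Finset ι), (ENNReal.ofReal (p i) • ν.map (fun x => r i * x + v i)) Set.univ = ENNReal.ofReal (p i) := by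
      intro i _
      have := hpm i
      rw [Measure.smul_apply, measure_univ, smul_eq_mul, mul_one]
    rw [Finset.sum_congr rfl h2, ← ENNReal.ofReal_sum_of_nonneg (fun i _ => (hp i).le)] at h1
    have h3 : ENNReal.ofReal 1 = ENNReal.ofReal (∑ i, p i) := by rw [ENNReal.ofReal_one]; exact h1
    have h4 := congrArg ENNReal.toReal h3
    rw [ENNReal.toReal_ofReal (by norm_num), ENNReal.toReal_ofReal (Finset.sum_nonneg fun i _ => (hp i).le)] at h4
    exact h4.symm
  have hF1 : ∀ τ : ℝ, ∫ x, ee (τ * x) ∂ν = ∑ i, (p i : ℂ) * (ee (τ * v i) * ∫ x, ee (r i * τ * x) ∂ν) := by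
    intro τ
    have h0 : ∀ i ∈ (univ : Finset ι), Integrable (fun x : ℝ => ee (τ * x)) (ENNReal.ofReal (p i) • ν.map (fun x => r i * x + v i)) := by
      intro i _
      have := hpm i
      exact (hint τ _).smul_measure ENNReal.ofReal_ne_top
    conv_lhs => rw [hν]
    rw [integral_finsetSum_measure h0]
    refine Finset.sum_congr rfl fun i _ => ?_
    rw [integral_smul_measure, ENNReal.toReal_ofReal (hp i).le, Complex.real_smul,
      integral_map (hmap i).aemeasurable (hee τ).aestronglyMeasurable]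
    congr 1
    rw [← integral_const_mul]
    refine integral_congr_ae ?_
    filter_upwards with x
    rw [← ee_add]
    congr 1
    ring
  have hF2 : ∀ τ : ℝ, ∫ x, ee (τ * x) ∂ν = ∑ z : ι × ι, ((p z.1 * p z.2 : ℝ) : ℂ) *
      (ee (τ * (v z.1 + r z.1 * v z.2)) * ∫ x, ee (r z.1 * r z.2 * τ * x) ∂ν) := by
    intro τ
    rw [hF1 τ, Fintype.sum_prod_type]
    refine Finset.sum_congr rfl fun i _ => ?_
    rw [hF1 (r i * τ), Finset.mul_sum, Finset.mul_sum]
    refine Finset.sum_congr rfl fun j _ => ?_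
    have h1 : ee (τ * (v i + r i * v j)) = ee (τ * v i) * ee (r i * τ * v j) := by
      rw [← ee_add]
      congr 1
      ring
    have h2 : r j * (r i * τ) = r i * r j * τ := by ring
    rw [h1, h2]
    push_cast
    ring
  obtain ⟨u, hu⟩ : ∃ u : ℝ, u = (v j0 + r j0 * v i0) - (v i0 + r i0 * v j0) := ⟨_, rfl⟩
  have hu0 : u ≠ 0 := by
    intro h
    apply hij
    rw [hu] at h
    linarith
  obtain ⟨κ, hκ⟩ : ∃ κ : ℝ, κ = 4 * (p i0 * p j0) := ⟨_, rfl⟩
  have hκ0 : 0 < κ := by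
    rw [hκ]
    have := mul_pos (hp i0) (hp j0)
    linarith
  have hκ1 : κ ≤ 1 := by
    have h1 : p i0 + p j0 ≤ 1 := by
      rw [← hps, ← Finset.sum_pair hii]
      exact Finset.sum_le_sum_of_subset_of_nonneg (Finset.subset_univ _) fun i _ _ => (hp i).le
    rw [hκ]
    nlinarith [sq_nonneg (p i0 - p j0), hp i0, hp j0]
  obtain ⟨K, hK⟩ : ∃ K : ℕ, K = 2 * ∑ i, k i := ⟨_, rfl⟩
  have hki : ∀ i, k i ≤ ∑ i, k i := fun i => Finset.single_le_sum (fun _ _ => Nat.zero_le _) (Finset.mem_univ i)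
  have hK1 : 1 ≤ K := by
    have := hki i0
    have := hk1 i0
    omega
  have hb0 : (0 : ℝ) < b := by
    have : (2 : ℝ) ≤ b := by exact_mod_cast hb
    linarith
  have hrr : ∀ (τ : ℝ) (i j : ι), ‖∫ x, ee (r i * r j * τ * x) ∂ν‖ = ‖∫ x, ee (τ / (b : ℝ) ^ (k i + k j) * x) ∂ν‖ := by
    intro τ i j
    have h1 : |r i * r j| = 1 / (b : ℝ) ^ (k i + k j) := by
      rw [abs_mul, hk2, hk2, pow_add]
      field_simp
    rcases abs_choice (r i * r j) with h | h
    · have h2 : r i * r j * τ = τ / (b : ℝ) ^ (k i + k j) := by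
        rw [← h, h1]
        ring
      rw [h2]
    · have h2 : r i * r j * τ = -(τ / (b : ℝ) ^ (k i + k j)) := by
        have h3 : r i * r j = -(1 / (b : ℝ) ^ (k i + k j)) := by
          rw [← h1, h]
          ring
        rw [h3]
        ring
      rw [h2, hqs]
  have hP : ∀ τ R : ℝ, 0 ≤ R → (∀ k : ℕ, 1 ≤ k → k ≤ K → ‖∫ x, ee (τ / (b : ℝ) ^ k * x) ∂ν‖ ≤ R) →
      ‖∫ x, ee (τ * x) ∂ν‖ ≤ (1 - κ * dn (|u| * τ) ^ 2) * R := by
    intro τ R hR0 hR
    have hRij : ∀ i j, ‖∫ x, ee (r i * r j * τ * x) ∂ν‖ ≤ R := by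
      intro i j
      rw [hrr]
      apply hR
      · have := hk1 i
        omega
      · have h1 := hki i
        have h2 := hki j
        omega
    have hzz : (i0, j0) ≠ (j0, i0) := by
      intro h
      exact hii (Prod.ext_iff.1 h).1
    obtain ⟨Sp, hSp⟩ : ∃ Sp : Finset (ι × ι), Sp = {(i0, j0), (j0, i0)} := ⟨_, rfl⟩
    rw [hF2 τ, ← Finset.sum_sdiff (Finset.subset_univ Sp)]
    have hw : ∑ z : ι × ι, p z.1 * p z.2 = 1 := by
      rw [Fintype.sum_prod_type, ← Finset.sum_mul_sum, hps, one_mul]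
    have hw2 := hw
    rw [← Finset.sum_sdiff (Finset.subset_univ Sp)] at hw2
    have hw3 : ∑ z ∈ Sp, p z.1 * p z.2 = 2 * (p i0 * p j0) := by
      rw [hSp, Finset.sum_pair hzz]
      ring
    have e1 : ‖∑ z ∈ univ \ Sp, ((p z.1 * p z.2 : ℝ) : ℂ) *
        (ee (τ * (v z.1 + r z.1 * v z.2)) * ∫ x, ee (r z.1 * r z.2 * τ * x) ∂ν)‖ ≤ (∑ z ∈ univ \ Sp, p z.1 * p z.2) * R := by
      rw [Finset.sum_mul]
      refine (norm_sum_le _ _).trans (Finset.sum_le_sum fun z _ => ?_)
      have h1 : 0 < p z.1 * p z.2 := mul_pos (hp _) (hp _)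
      rw [norm_mul, norm_mul, norm_ee, one_mul, Complex.norm_real, Real.norm_eq_abs, abs_of_pos h1]
      exact mul_le_mul_of_nonneg_left (hRij _ _) h1.le
    have e2 : ‖∑ z ∈ Sp, ((p z.1 * p z.2 : ℝ) : ℂ) *
        (ee (τ * (v z.1 + r z.1 * v z.2)) * ∫ x, ee (r z.1 * r z.2 * τ * x) ∂ν)‖ ≤
        p i0 * p j0 * (2 - 4 * dn (|u| * τ) ^ 2) * R := by
      rw [hSp, Finset.sum_pair hzz]
      simp only
      have h1 : ((p i0 * p j0 : ℝ) : ℂ) * (ee (τ * (v i0 + r i0 * v j0)) * ∫ x, ee (r i0 * r j0 * τ * x) ∂ν) +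
          ((p j0 * p i0 : ℝ) : ℂ) * (ee (τ * (v j0 + r j0 * v i0)) * ∫ x, ee (r j0 * r i0 * τ * x) ∂ν) =
          ((p i0 * p j0 : ℝ) : ℂ) * (ee (τ * (v i0 + r i0 * v j0)) * (1 + ee (u * τ))) * ∫ x, ee (r i0 * r j0 * τ * x) ∂ν := by
        have h2 : ee (τ * (v j0 + r j0 * v i0)) = ee (τ * (v i0 + r i0 * v j0)) * ee (u * τ) := by
          rw [← ee_add, hu]
          congr 1
          ring
        rw [h2, mul_comm (r j0) (r i0), mul_comm (p j0) (p i0)]
        ring
      have h3 : 0 < p i0 * p j0 := mul_pos (hp _) (hp _)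
      have h4 := two_atoms (u * τ)
      rw [← dn_abs_mul] at h4
      rw [h1, norm_mul, norm_mul, norm_mul, norm_ee, one_mul, Complex.norm_real, Real.norm_eq_abs, abs_of_pos h3]
      exact mul_le_mul (mul_le_mul_of_nonneg_left h4 h3.le) (hRij _ _) (norm_nonneg _)
        (mul_nonneg h3.le ((norm_nonneg _).trans h4))
    refine (norm_add_le _ _).trans ((add_le_add e1 e2).trans (le_of_eq ?_))
    rw [hκ]
    have h5 : ∑ z ∈ univ \ Sp, p z.1 * p z.2 = 1 - 2 * (p i0 * p j0) := by linarith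
    rw [h5]
    ring
  obtain ⟨ρ, hρ0, hρ1, hρ⟩ := renewal hb (q := fun τ => ‖∫ x, ee (τ * x) ∂ν‖) hq1 hK1 hκ0 hκ1 hP
  exact ⟨|u|, ρ, abs_pos.2 hu0, hρ0, hρ1, hρ⟩

end Pool.Agent.J4H40.Ca
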