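import Pool.Agent.J4H40.Ef
import Pool.Agent.H340R2.LW

set_option autoImplicit false

/-! Random multiples of the powers of `e`. -/

namespace Pool.Agent.J4H40.Ca

open MeasureTheory ProbabilityTheory Finset Filter Topology
open scoped Real
open Pool.Agent.J4H75.PN (ee norm_ee ee_add)

/-- linear forms in the powers of `e` do not vanish -/
lemma lam_ne {r : ℕ} (h : Fin r → ℤ) (hh : h ≠ 0) : ∑ i : Fin r, (h i : ℝ) * Real.exp (i : ℕ) ≠ 0 := by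
  intro hz
  apply Pool.Agent.H340R2.LW.transcendental_exp_one
  refine ⟨∑ i : Fin r, Polynomial.monomial (i : ℕ) (h i : ℚ), ?_, ?_⟩
  · intro h0
    apply hh
    funext j
    have h1 := congrArg (fun p => Polynomial.coeff p (j : ℕ)) h0
    simp only [Polynomial.finsetSum_coeff, Polynomial.coeff_monomial, Polynomial.coeff_zero] at h1
    rw [Finset.sum_eq_single j] at h1
    · simpa using h1
    · intro i _ hij
      rw [if_neg]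
      intro h2
      exact hij (Fin.ext h2)
    · intro h2
      exact absurd (Finset.mem_univ j) h2
  · rw [map_sum, ← hz]
    refine Finset.sum_congr rfl fun i _ => ?_
    rw [Polynomial.aeval_monomial, Real.exp_one_pow]
    simp

/-- the exponential sums of the points `(ξ e ^ (a k + i) + y k i)_i`, `k < K`, are small and the points are
equidistributed modulo 1 -/
def Equi (κ : ℝ) (a : ℕ → ℕ) {r : ℕ} (y : ℕ → Fin r → ℝ) (ξ : ℝ) : Prop :=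
  (∀ h : Fin r → ℤ, h ≠ 0 → ∀ᶠ K : ℕ in atTop,
    ‖∑ k ∈ range K, ee (∑ i : Fin r, h i * (ξ * Real.exp (a k + i : ℕ) + y k i))‖ ≤ K * Real.exp (-(κ * ph K))) ∧
  ∀ ε : ℝ, 0 < ε → ∀ᶠ K : ℕ in atTop, ∀ α β : Fin r → ℝ, (∀ i, 0 ≤ α i ∧ α i ≤ β i ∧ β i ≤ 1) →
    |(((range K).filter (fun k => ∀ i : Fin r, α i ≤ Int.fract (ξ * Real.exp (a k + i : ℕ) + y k i) ∧
      Int.fract (ξ * Real.exp (a k + i : ℕ) + y k i) < β i)).card : ℝ) / K - ∏ i, (β i - α i)| ≤ ε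

variable {Ω : Type*} [MeasurableSpace Ω] {μ : Measure Ω}

theorem equi_of [IsProbabilityMeasure μ] {X : Ω → ℝ} (hX : Measurable X) {b : ℕ} (hb : 2 ≤ b) {G : ℝ} (hG : 0 < G)
    {ρ : ℝ} (hρ0 : 0 < ρ) (hρ1 : ρ < 1) (hQ : ∀ τ I, Gd b I (G * τ) → ‖∫ ω, ee (τ * X ω) ∂μ‖ ≤ ρ ^ I) :
    ∃ κ : ℝ, 0 < κ ∧ ∀ a : ℕ → ℕ, StrictMono a → ∀ γ : ℝ, 0 ≤ γ → γ < 1 / 3 →
      (∀ᶠ k : ℕ in atTop, (a k : ℝ) ≤ k * Real.exp (Real.log k ^ γ)) →
      ∀ (r : ℕ) (y : ℕ → Fin r → ℝ), ∀ᵐ ω ∂μ, Equi κ a y (X ω) := by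
  obtain ⟨c', hc', hm⟩ := moment_bound hX hb hG hρ0 hρ1 hQ
  refine ⟨c' / 8, by positivity, ?_⟩
  intro a ha γ hγ0 hγ hgr r y
  have h1 : ∀ h : Fin r → ℤ, ∀ᵐ ω ∂μ, h ≠ 0 → ∀ᶠ K : ℕ in atTop,
      ‖∑ k ∈ range K, ee (∑ i : Fin r, h i * (X ω * Real.exp (a k + i : ℕ) + y k i))‖ ≤ K * Real.exp (-(c' / 8 * ph K)) := by
    intro h
    by_cases hh : h = 0
    · filter_upwards with ω h0
      exact absurd hh h0
    · have h2 := hm a ha γ hγ0 hγ hgr _ (lam_ne h hh)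
      have h3 := ae_small hX (fun k => (∑ i : Fin r, (h i : ℝ) * Real.exp (i : ℕ)) * Real.exp (a k))
        (fun k => ∑ i, h i * y k i) hc' (by
          filter_upwards [h2] with K hK
          exact hK _)
      filter_upwards [h3] with ω hω _
      filter_upwards [hω] with K hK
      refine le_trans (le_of_eq ?_) hK
      congr 1
      refine Finset.sum_congr rfl fun k _ => ?_
      congr 1
      rw [Finset.sum_mul, Finset.sum_mul, ← Finset.sum_add_distrib]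
      refine Finset.sum_congr rfl fun i _ => ?_
      push_cast
      rw [Real.exp_add]
      ring
  have h2 := ae_all_iff.2 h1
  filter_upwards [h2] with ω hω
  exact ⟨hω, boxes (fun k (i : Fin r) => X ω * Real.exp (a k + i : ℕ) + y k i) (show 0 < c' / 8 by positivity) hω⟩

/-- **random digits** -/
theorem equi_digits [IsProbabilityMeasure μ] {b : ℕ} (hb : 2 ≤ b) {Y : ℕ → Ω → ℝ} (hY : ∀ j, Measurable (Y j))
    (hi : iIndepFun Y μ) {D : ℝ} (hD : ∀ j ω, |Y j ω| ≤ D) {c u : ℝ} (hc0 : 0 < c) (hu : 0 < u) {H : ℕ}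
    (hc : ∀ j, ∃ (v : ℝ) (k : ℕ), 1 ≤ k ∧ k ≤ H ∧ c ≤ μ.real (Y j ⁻¹' {v}) ∧ c ≤ μ.real (Y j ⁻¹' {v + k * u})) :
    ∃ κ : ℝ, 0 < κ ∧ ∀ a : ℕ → ℕ, StrictMono a → ∀ γ : ℝ, 0 ≤ γ → γ < 1 / 3 →
      (∀ᶠ k : ℕ in atTop, (a k : ℝ) ≤ k * Real.exp (Real.log k ^ γ)) →
      ∀ (r : ℕ) (y : ℕ → Fin r → ℝ), ∀ᵐ ω ∂μ, Equi κ a y (∑' j, Y j ω / (b : ℝ) ^ (j + 1)) := by
  have hb2 : (2 : ℝ) ≤ b := by exact_mod_cast hb
  have hG1 : (1 : ℝ) ≤ (H.factorial : ℝ) := by exact_mod_cast Nat.factorial_pos H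
  obtain ⟨ρ, hρ⟩ : ∃ ρ : ℝ, ρ = 1 - c / (b ^ 2 * (H.factorial : ℝ) ^ 2) := ⟨_, rfl⟩
  have hc1 : c ≤ 1 := by
    obtain ⟨v, k, _, _, h1, _⟩ := hc 0
    exact h1.trans measureReal_le_one
  have h1 : 0 < c / (b ^ 2 * (H.factorial : ℝ) ^ 2) := by positivity
  have h2 : c / (b ^ 2 * (H.factorial : ℝ) ^ 2) ≤ 1 / 4 := by
    apply div_le_div₀ (by norm_num) hc1 (by norm_num)
    have h3 : (4 : ℝ) ≤ (b : ℝ) ^ 2 := by nlinarith
    have h4 : (1 : ℝ) ≤ (H.factorial : ℝ) ^ 2 := one_le_pow₀ hG1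
    nlinarith
  refine equi_of (X := val b Y) (val_meas hb hY hD) hb (G := H.factorial * u) (by positivity) (ρ := ρ) (by rw [hρ]; linarith)
    (by rw [hρ]; linarith) ?_
  intro τ I hG
  obtain ⟨F, hFc, hF⟩ := hG
  rw [← hFc, hρ]
  exact val_char_pow hb hY hi hD hc0 hu hc τ F hF

/-- **self-similar measures** -/
theorem equi_selfsim {ι : Type*} [Fintype ι] {ν : Measure ℝ} [IsProbabilityMeasure ν] {b : ℕ} (hb : 2 ≤ b) {p r v : ι → ℝ}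
    (hp : ∀ i, 0 < p i) (hr : ∀ i, ∃ k : ℕ, 1 ≤ k ∧ |r i| = 1 / (b : ℝ) ^ k)
    (hν : ν = ∑ i, ENNReal.ofReal (p i) • ν.map (fun x => r i * x + v i))
    (hne : ∃ i j, v i * (1 - r j) ≠ v j * (1 - r i)) :
    ∃ κ : ℝ, 0 < κ ∧ ∀ a : ℕ → ℕ, StrictMono a → ∀ γ : ℝ, 0 ≤ γ → γ < 1 / 3 →
      (∀ᶠ k : ℕ in atTop, (a k : ℝ) ≤ k * Real.exp (Real.log k ^ γ)) →
      ∀ (r : ℕ) (y : ℕ → Fin r → ℝ), ∀ᵐ x ∂ν, Equi κ a y x := by
  obtain ⟨g, ρ, hg, hρ0, hρ1, hQ⟩ := selfsim hb hp hr hν hne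
  exact equi_of (X := fun x : ℝ => x) measurable_id hb hg hρ0 hρ1 hQ

end Pool.Agent.J4H40.Ca
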