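import Pool.Agent.J4H40.Ef
import Pool.Agent.J4H78.TS.Rid

set_option autoImplicit false

/-! Digit positions of `θ (3/2) ^ n`. -/

namespace Pool.Agent.J4H40.Rd

open Finset Filter Topology
open Pool.Agent.J4H40.Ca (dn dn_nn dn_half dn_mul dn_neg dn_le Gd gd_of)
open Pool.Agent.J4H78.TS (g kap ridout_cone kap_pos kap_lt_one)

lemma dn_le_abs (x : ℝ) : dn x ≤ |x| := by
  have := dn_le x 0
  simpa using this

/-- many good digit positions in every interval of the reduced light cone -/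
lemma positions {m0 : ℕ} (hm0 : 0 < m0) (k I : ℕ) {a b : ℝ} (ha : -1 < a) (hab : a < b) (hb : b < kap) :
    ∀ᶠ n : ℕ in atTop, ∃ F : Finset ℤ, F.card = I ∧ (∀ i ∈ F, a * n ≤ i ∧ i ≤ b * n) ∧
      ∀ i ∈ F, 1 / 12 ≤ dn ((m0 : ℝ) / 6 ^ k * (3 / 2) ^ n * (6 : ℝ) ^ (-i)) := by
  have hI0 : (0 : ℝ) ≤ I := Nat.cast_nonneg I
  obtain ⟨ε, hε⟩ : ∃ ε : ℝ, ε = (b - a) / (2 * (I + 1)) := ⟨_, rfl⟩
  have hε0 : 0 < ε := by rw [hε]; exact div_pos (by linarith) (by positivity)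
  have hεI : (I + 1) * ε = (b - a) / 2 := by
    rw [hε]
    field_simp
  obtain ⟨δ, hδ⟩ : ∃ δ : ℝ, δ = min ε (min (kap - b) ((1 + a) / 2)) := ⟨_, rfl⟩
  have hδ0 : 0 < δ := by
    rw [hδ]
    exact lt_min hε0 (lt_min (by linarith) (by linarith))
  have hδ1 : δ ≤ ε := by rw [hδ]; exact min_le_left _ _
  have hδ2 : δ ≤ kap - b := by rw [hδ]; exact (min_le_right _ _).trans (min_le_left _ _)
  have hδ3 : δ ≤ (1 + a) / 2 := by rw [hδ]; exact (min_le_right _ _).trans (min_le_right _ _)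
  obtain ⟨N₀, hN₀⟩ := ridout_cone hm0 k (Q := 1) le_rfl hδ0
  have t1 : ∀ᶠ n : ℕ in atTop, 2 * (I + 1) / (b - a) ≤ (n : ℝ) := tendsto_natCast_atTop_atTop.eventually_ge_atTop _
  have t2 : ∀ᶠ n : ℕ in atTop, 2 / (1 + a) ≤ (n : ℝ) := tendsto_natCast_atTop_atTop.eventually_ge_atTop _
  filter_upwards [t1, t2, eventually_ge_atTop N₀, eventually_ge_atTop 1] with n h1 h2 h3 h4
  rw [div_le_iff₀ (by linarith)] at h1 h2
  have hn0 : (1 : ℝ) ≤ n := by exact_mod_cast h4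
  obtain ⟨L, hL⟩ : ∃ L, L = ⌈ε * n⌉₊ := ⟨_, rfl⟩
  have hL1 : ε * n ≤ L := by rw [hL]; exact Nat.le_ceil _
  have hL2 : (L : ℝ) < ε * n + 1 := by rw [hL]; exact Nat.ceil_lt_add_one (by positivity)
  have hc1 : a * n ≤ ⌈a * n⌉ := Int.le_ceil _
  have hc2 : (⌈a * n⌉ : ℝ) < a * n + 1 := Int.ceil_lt_add_one _
  have hub : ∀ i < I, ((⌈a * n⌉ + (i + 1) * L : ℤ) : ℝ) ≤ b * n := by
    intro i hi
    have hi1 : (i : ℝ) + 1 ≤ I := by exact_mod_cast hi
    push_cast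
    have h5 : ((i : ℝ) + 1) * L ≤ I * (ε * n + 1) := mul_le_mul hi1 hL2.le (Nat.cast_nonneg _) hI0
    have h6 : I * (ε * n + 1) ≤ (b - a) / 2 * n + I := by
      have h7 : (I + 1) * ε * n = (b - a) / 2 * n := by rw [hεI]
      have h8 : 0 ≤ ε * n := by positivity
      nlinarith
    nlinarith
  have hgd : ∀ i < I, ∃ t < L, 1 / 12 ≤ dn ((m0 : ℝ) / 6 ^ k * (3 / 2) ^ n * (6 : ℝ) ^ (-(⌈a * n⌉ + (i + 1) * L - t : ℤ))) := by
    intro i hi
    obtain ⟨p, hp⟩ : ∃ p : ℤ, p = ⌈a * n⌉ + (i + 1) * L := ⟨_, rfl⟩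
    have hp1 := hub i hi
    rw [← hp] at hp1
    have hp2 : a * n ≤ p := by
      rw [hp]
      push_cast
      have : 0 ≤ ((i : ℝ) + 1) * L := by positivity
      linarith
    have hc := hN₀ n h3 n (1 - p) (round ((m0 : ℝ) / 6 ^ k * (3 / 2) ^ n * (6 : ℝ) ^ (-p))) le_rfl
      (by
        push_cast
        have h5 : δ * n ≤ (kap - b) * n := mul_le_mul_of_nonneg_right hδ2 (by linarith)
        linarith) (by
        push_cast
        have h5 : δ * n ≤ (1 + a) / 2 * n := mul_le_mul_of_nonneg_right hδ3 (by linarith)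
        linarith)
    have e1 : g n (1 - p - 1) * ((m0 : ℝ) / 6 ^ k) = (m0 : ℝ) / 6 ^ k * (3 / 2) ^ n * (6 : ℝ) ^ (-p) := by
      unfold g
      have : (1 : ℤ) - p - 1 = -p := by ring
      rw [this]
      ring
    rw [e1, Nat.cast_one, one_mul, one_mul] at hc
    have e2 : 1 / ((6 : ℕ) : ℝ) ^ L ≤ (6 : ℝ) ^ (-(δ * n)) := by
      rw [Real.rpow_neg (by norm_num), one_div]
      apply inv_anti₀ (by positivity)
      push_cast
      rw [← Real.rpow_natCast]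
      apply Real.rpow_le_rpow_of_exponent_le (by norm_num)
      exact (mul_le_mul_of_nonneg_right hδ1 (by linarith)).trans hL1
    obtain ⟨t, ht, h5⟩ := Pool.Agent.J4H40.Ca.digit_pos (b := 6) (by norm_num) ((m0 : ℝ) / 6 ^ k * (3 / 2) ^ n * (6 : ℝ) ^ (-p)) L
      (e2.trans hc.le)
    refine ⟨t, ht, ?_⟩
    have e12 : (1 : ℝ) / (2 * ((6 : ℕ) : ℝ)) = 1 / 12 := by norm_num
    rw [e12] at h5
    refine h5.trans (le_of_eq ?_)
    congr 1
    have e3 : -(⌈a * n⌉ + (i + 1) * L - t : ℤ) = -p + t := by rw [hp]; ring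
    rw [e3, zpow_add₀ (by norm_num), zpow_natCast]
    push_cast
    ring
  choose! t ht1 ht2 using hgd
  refine ⟨(range I).image fun i : ℕ => (⌈a * n⌉ + (i + 1) * L - t i : ℤ), ?_, ?_, ?_⟩
  · rw [Finset.card_image_of_injOn, card_range]
    have key : ∀ i < I, ∀ i' < I, i < i' → (⌈a * n⌉ + (i + 1) * L - t i : ℤ) < (⌈a * n⌉ + (i' + 1) * L - t i' : ℤ) := by
      intro i hi i' hi' hii
      have h5 := ht1 i' hi'
      have h6 : ((i : ℤ) + 1) * L ≤ i' * L := mul_le_mul_of_nonneg_right (by exact_mod_cast hii) (by positivity)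
      have h7 : ((i' : ℤ) + 1) * L = i' * L + L := by ring
      omega
    intro i hi i' hi' hii
    simp only at hii
    have h5 := Finset.mem_range.1 (Finset.mem_coe.1 hi)
    have h6 := Finset.mem_range.1 (Finset.mem_coe.1 hi')
    rcases lt_trichotomy i i' with h | h | h
    · exact absurd hii (key i h5 i' h6 h).ne
    · exact h
    · exact absurd hii (key i' h6 i h5 h).ne'
  · intro q hq
    obtain ⟨i, hi, rfl⟩ := Finset.mem_image.1 hq
    have hi' := Finset.mem_range.1 hi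
    have h5 := ht1 i hi'
    have h6 := hub i hi'
    constructor
    · have h7 : (⌈a * n⌉ : ℤ) ≤ (⌈a * n⌉ + (i + 1) * L - t i : ℤ) := by
        have : (L : ℤ) ≤ (i + 1) * L := by
          have : (0 : ℤ) ≤ i * L := by positivity
          linarith
        omega
      exact hc1.trans (by exact_mod_cast h7)
    · refine le_trans ?_ h6
      push_cast
      have : (0 : ℝ) ≤ t i := Nat.cast_nonneg _
      linarith
  · intro q hq
    obtain ⟨i, hi, rfl⟩ := Finset.mem_image.1 hq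
    exact ht2 i (Finset.mem_range.1 hi)

/-- the characteristic functions which are small at the points with many good digit positions in `[a n, b n]` -/
def Cls (ρ a b : ℝ) (n : ℕ) (q : ℝ → ℝ) : Prop :=
  (∀ τ, q (-τ) = q τ) ∧ ∀ (τ : ℝ) (F : Finset ℤ), (∀ i ∈ F, a * n ≤ i ∧ i ≤ b * n) →
    (∀ i ∈ F, 1 / 12 ≤ dn (120 * τ * (6 : ℝ) ^ (-i))) → q τ ≤ ρ ^ F.card

/-- the numbers `N / 6 ^ k` with `N ≠ 0` -/
def IsSix (θ : ℝ) : Prop := ∃ (N : ℤ) (k : ℕ), N ≠ 0 ∧ θ = N / 6 ^ k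

lemma IsSix.mul {θ θ' : ℝ} (h : IsSix θ) (h' : IsSix θ') : IsSix (θ * θ') := by
  obtain ⟨N, k, hN, rfl⟩ := h
  obtain ⟨N', k', hN', rfl⟩ := h'
  refine ⟨N * N', k + k', mul_ne_zero hN hN', ?_⟩
  push_cast
  rw [pow_add]
  field_simp

lemma isSix_int {h : ℤ} (hh : h ≠ 0) : IsSix h := ⟨h, 0, hh, by simp⟩

lemma isSix_zpow (z : ℤ) : IsSix ((6 : ℝ) ^ z) := by
  obtain ⟨n, rfl | rfl⟩ := z.eq_nat_or_neg
  · refine ⟨6 ^ n, 0, by positivity, ?_⟩
    push_cast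
    simp
  · refine ⟨1, n, one_ne_zero, ?_⟩
    rw [zpow_neg, zpow_natCast]
    simp

lemma isSix_diff {s t : ℕ} (hst : s ≠ t) : IsSix ((3 / 2 : ℝ) ^ s - (3 / 2) ^ t) := by
  refine ⟨3 ^ (s + t) * (3 ^ s * 2 ^ t - 3 ^ t * 2 ^ s), s + t, ?_, ?_⟩
  · apply mul_ne_zero (by positivity)
    intro h
    have h1 : (3 : ℝ) ^ s * 2 ^ t = 3 ^ t * 2 ^ s := by
      have : (3 : ℤ) ^ s * 2 ^ t = 3 ^ t * 2 ^ s := by linarith
      exact_mod_cast this
    have h2 : (3 / 2 : ℝ) ^ s = (3 / 2) ^ t := by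
      rw [div_pow, div_pow, div_eq_div_iff (by positivity) (by positivity), h1]
    exact hst (pow_right_injective₀ (by norm_num) (by norm_num) h2)
  · push_cast
    rw [div_pow, div_pow]
    have h6 : (6 : ℝ) ^ (s + t) = 3 ^ (s + t) * 2 ^ (s + t) := by
      rw [← mul_pow]
      norm_num
    rw [h6, pow_add 2 s t]
    field_simp

/-- the characteristic functions tend to zero along `θ (3/2) ^ n` -/
lemma cls_small {ρ : ℝ} (hρ1 : ρ < 1) {a b : ℝ} (ha : -1 < a) (hab : a < b) (hb : b < kap) {θ : ℝ} (hθ : IsSix θ)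
    {η : ℝ} (hη : 0 < η) : ∀ᶠ n : ℕ in atTop, ∀ q : ℝ → ℝ, Cls ρ a b n q → q (θ * (3 / 2) ^ n) ≤ η := by
  obtain ⟨N, k, hN, rfl⟩ := hθ
  obtain ⟨I, hI⟩ := exists_pow_lt_of_lt_one hη hρ1
  have hN0 : 0 < 120 * N.natAbs := by
    have := Int.natAbs_pos.2 hN
    omega
  filter_upwards [positions hN0 k I ha hab hb] with n hn q hq
  obtain ⟨F, hFc, hFs, hFd⟩ := hn
  have h1 : q ((N.natAbs : ℝ) / 6 ^ k * (3 / 2) ^ n) ≤ ρ ^ I := by
    rw [← hFc]
    apply hq.2 _ F hFs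
    intro i hi
    have h2 := hFd i hi
    refine h2.trans (le_of_eq ?_)
    congr 1
    push_cast
    ring
  have h2 : q ((N : ℝ) / 6 ^ k * (3 / 2) ^ n) = q ((N.natAbs : ℝ) / 6 ^ k * (3 / 2) ^ n) := by
    have h3 : (N.natAbs : ℝ) = |(N : ℝ)| := by
      rw [← Int.cast_abs, Int.abs_eq_natAbs]
      simp
    rw [h3]
    rcases abs_choice (N : ℝ) with h | h
    · rw [h]
    · rw [h, ← hq.1]
      congr 1
      ring
  rw [h2]
  exact h1.trans hI.le

end Pool.Agent.J4H40.Rd
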