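import Pool.Agent.J4H40.Fa
import Pool.Agent.J4H40.Ee
import Pool.Agent.H429R2.Auto

set_option autoImplicit false

/-! Random digits. -/

namespace Pool.Agent.J4H40.Rd

open MeasureTheory ProbabilityTheory Finset Filter Topology
open scoped ComplexConjugate
open Pool.Agent.J4H75.PN (ee norm_ee ee_add Cond uweyl)
open Pool.Agent.J4H40.Ca (dn dn_nn dn_half dn_mul dn_neg digit_char ee_cont ee_conj ee_int second_moment)
open Pool.Agent.H429R2.Auto (Conf F IsFin Rep)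

/-- random configurations with independent digits, the digits at the positions in `[a n, b n]` take no value with
probability more than `1 - c` -/
def Law {Ω : Type} [MeasurableSpace Ω] (c a b : ℝ) (n : ℕ) (μ : Measure Ω) (x : Ω → Conf) : Prop :=
  (∀ i, Measurable fun ω => x ω i) ∧ iIndepFun (fun (i : ℤ) ω => x ω i) μ ∧
    ∀ i : ℤ, a * n ≤ i → i ≤ b * n → ∀ v : Fin 6, μ.real {ω | x ω i = v} ≤ 1 - c

/-- the real number with the digits of `x` at the positions in `s` -/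
noncomputable def al {Ω : Type} (s : Finset ℤ) (x : Ω → Conf) (ω : Ω) : ℝ := ∑ i ∈ s, ((x ω i : Fin 6) : ℕ) * (6 : ℝ) ^ (-i)

variable {Ω : Type} [MeasurableSpace Ω] {μ : Measure Ω} [IsProbabilityMeasure μ]

lemma digit_meas {x : Ω → Conf} (hx : ∀ i, Measurable fun ω => x ω i) (i : ℤ) :
    Measurable fun ω => (((x ω i : Fin 6) : ℕ) : ℝ) :=
  (measurable_of_finite fun v : Fin 6 => ((v : ℕ) : ℝ)).comp (hx i)

lemma al_meas {x : Ω → Conf} (hx : ∀ i, Measurable fun ω => x ω i) (s : Finset ℤ) : Measurable (al s x) := by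
  unfold al
  exact Finset.measurable_fun_sum _ fun i _ => (digit_meas hx i).mul_const _

/-- the characteristic function as a product -/
lemma al_char {x : Ω → Conf} (hx : ∀ i, Measurable fun ω => x ω i) (hi : iIndepFun (fun (i : ℤ) ω => x ω i) μ)
    (s : Finset ℤ) (τ : ℝ) : ∫ ω, ee (τ * al s x ω) ∂μ = ∏ i ∈ s, ∫ ω, ee (τ * (6 : ℝ) ^ (-i) * (((x ω i : Fin 6) : ℕ) : ℝ)) ∂μ := by
  have hpt : ∀ ω, ee (τ * al s x ω) = ∏ i ∈ s, ee (τ * (6 : ℝ) ^ (-i) * (((x ω i : Fin 6) : ℕ) : ℝ)) := by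
    intro ω
    unfold al
    induction s using Finset.induction_on with
    | empty => simp [ee]
    | insert i s his ih =>
      rw [Finset.sum_insert his, Finset.prod_insert his, ← ih, ← ee_add]
      congr 1
      ring
  have hpt2 : ∀ ω, ee (τ * al s x ω) = ∏ i : s, ee (τ * (6 : ℝ) ^ (-(i : ℤ)) * (((x ω i : Fin 6) : ℕ) : ℝ)) := by
    intro ω
    rw [hpt, ← Finset.prod_coe_sort]
  simp only [hpt2]
  have hind : iIndepFun (fun (i : s) ω => x ω (i : ℤ)) μ := hi.precomp Subtype.val_injective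
  rw [hind.integral_fun_prod_comp (f := fun (i : s) (v : Fin 6) => ee (τ * (6 : ℝ) ^ (-(i : ℤ)) * ((v : ℕ) : ℝ)))
    (fun i => (hx i).aemeasurable) (fun i => (measurable_of_finite _).aestronglyMeasurable)]
  rw [← Finset.prod_coe_sort s (fun i => ∫ ω, ee (τ * (6 : ℝ) ^ (-i) * (((x ω i : Fin 6) : ℕ) : ℝ)) ∂μ)]

/-- two values of a digit -/
lemma two_values {d : Ω → Fin 6} (hd : Measurable d) {c : ℝ} (hc : 0 < c) (h : ∀ v : Fin 6, μ.real {ω | d ω = v} ≤ 1 - c) :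
    ∃ v w : Fin 6, v < w ∧ c / 6 ≤ μ.real {ω | d ω = v} ∧ c / 6 ≤ μ.real {ω | d ω = w} := by
  have hm : ∀ v : Fin 6, MeasurableSet {ω | d ω = v} := fun v => hd (measurableSet_singleton v)
  have hs : ∑ v : Fin 6, μ.real {ω | d ω = v} = 1 := by
    rw [← measureReal_biUnion_finset (fun v _ w _ hvw => Set.disjoint_left.2 fun ω h1 h2 => hvw (h1.symm.trans h2)) (fun v _ => hm v)]
    have : (⋃ v ∈ (univ : Finset (Fin 6)), {ω | d ω = v}) = Set.univ := by
      ext ω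
      simp
    rw [this, probReal_univ]
  obtain ⟨v, hv⟩ : ∃ v : Fin 6, 1 / 6 ≤ μ.real {ω | d ω = v} := by
    by_contra hcon
    push Not at hcon
    have := Finset.sum_lt_sum_of_nonempty (s := (univ : Finset (Fin 6))) ⟨0, mem_univ _⟩ fun v _ => hcon v
    rw [hs, Finset.sum_const, card_univ, Fintype.card_fin, nsmul_eq_mul] at this
    norm_num at this
  have hc1 : c ≤ 1 := by
    have h1 := h v
    have h2 : (0 : ℝ) ≤ μ.real {ω | d ω = v} := measureReal_nonneg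
    linarith
  obtain ⟨w, hwv, hw⟩ : ∃ w : Fin 6, w ≠ v ∧ c / 6 ≤ μ.real {ω | d ω = w} := by
    by_contra hcon
    push Not at hcon
    have h1 : ∑ w ∈ univ.erase v, μ.real {ω | d ω = w} ≤ ∑ w ∈ (univ : Finset (Fin 6)).erase v, c / 6 :=
      Finset.sum_le_sum fun w hw => (hcon w (Finset.ne_of_mem_erase hw)).le
    rw [Finset.sum_const, Finset.card_erase_of_mem (mem_univ v), card_univ, Fintype.card_fin, nsmul_eq_mul] at h1
    have h2 := Finset.add_sum_erase univ (fun w => μ.real {ω | d ω = w}) (mem_univ v)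
    rw [hs] at h2
    have h3 := h v
    norm_num at h1
    linarith
  have hv2 : c / 6 ≤ μ.real {ω | d ω = v} := by linarith
  rcases lt_or_gt_of_ne hwv with h1 | h1
  · exact ⟨w, v, h1, hw, hv2⟩
  · exact ⟨v, w, h1, hv2, hw⟩

/-- the characteristic function of a digit -/
lemma digit_small {d : Ω → Fin 6} (hd : Measurable d) {c : ℝ} (hc : 0 < c) (h : ∀ v : Fin 6, μ.real {ω | d ω = v} ≤ 1 - c) (t : ℝ) :
    ‖∫ ω, ee (t * ((d ω : ℕ) : ℝ)) ∂μ‖ ≤ 1 - 4 * (c / 6) * dn (120 * t) ^ 2 / 120 ^ 2 := by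
  obtain ⟨v, w, hvw, h1, h2⟩ := two_values hd hc h
  have hY : Measurable fun ω => ((d ω : ℕ) : ℝ) := (measurable_of_finite fun v : Fin 6 => ((v : ℕ) : ℝ)).comp hd
  have e1 : (fun ω => ((d ω : ℕ) : ℝ)) ⁻¹' {((v : ℕ) : ℝ)} = {ω | d ω = v} := by
    ext ω
    simp [Fin.val_inj]
  have hwv : (v : ℕ) < (w : ℕ) := hvw
  have hw6 := w.isLt
  have e2 : (fun ω => ((d ω : ℕ) : ℝ)) ⁻¹' {((v : ℕ) : ℝ) + (((w : ℕ) - (v : ℕ) : ℕ) : ℝ) * 1} = {ω | d ω = w} := by
    ext ω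
    rw [Set.mem_preimage, Set.mem_singleton_iff, Nat.cast_sub hwv.le, mul_one, add_sub_cancel, Set.mem_ofPred_eq, Nat.cast_inj,
      Fin.val_inj]
  have hdv : ((w : ℕ) - (v : ℕ)) ∣ 120 := by
    have h3 : (w : ℕ) - (v : ℕ) = 1 ∨ (w : ℕ) - (v : ℕ) = 2 ∨ (w : ℕ) - (v : ℕ) = 3 ∨ (w : ℕ) - (v : ℕ) = 4 ∨ (w : ℕ) - (v : ℕ) = 5 := by omega
    rcases h3 with h | h | h | h | h <;> rw [h] <;> norm_num
  have h3 := digit_char (μ := μ) hY (c := c / 6) (v := ((v : ℕ) : ℝ)) (u := 1) (k := (w : ℕ) - (v : ℕ)) (G := 120) (by positivity)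
    (by omega) hdv (by norm_num) (by rw [e1]; exact h1) (by rw [e2]; exact h2) one_pos t
  push_cast at h3
  rw [mul_one] at h3
  exact h3

/-- the contraction factor -/
noncomputable def rh (c : ℝ) : ℝ := 1 - 4 * (c / 6) * (1 / 12) ^ 2 / 120 ^ 2

lemma rh_nn {c : ℝ} (hc1 : c ≤ 1) : 0 ≤ rh c := by
  unfold rh
  norm_num
  linarith

lemma rh_lt {c : ℝ} (hc : 0 < c) : rh c < 1 := by
  unfold rh
  have : 0 < 4 * (c / 6) * (1 / 12) ^ 2 / 120 ^ 2 := by positivity
  linarith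

lemma Law.mono {c c' a b : ℝ} (hc : c' ≤ c) {n : ℕ} {x : Ω → Conf} (h : Law c a b n μ x) : Law c' a b n μ x :=
  ⟨h.1, h.2.1, fun i h1 h2 v => (h.2.2 i h1 h2 v).trans (by linarith)⟩

/-- the characteristic function is in the class -/
lemma cls_of_law {c a b : ℝ} (hc : 0 < c) {n : ℕ} {x : Ω → Conf} (h : Law c a b n μ x) {s : Finset ℤ}
    (hs : ∀ i : ℤ, a * n ≤ i → i ≤ b * n → i ∈ s) :
    Cls (rh c) a b n (fun τ => ‖∫ ω, ee (τ * al s x ω) ∂μ‖) := by
  constructor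
  · intro τ
    simp only
    have h3 : ∀ ω, ee (-τ * al s x ω) = conj (ee (τ * al s x ω)) := by
      intro ω
      rw [ee_conj]
      congr 1
      ring
    simp only [h3]
    rw [integral_conj, RCLike.norm_conj]
  · intro τ F hF hFd
    simp only
    rw [al_char h.1 h.2.1, norm_prod]
    have hsub : F ⊆ s := fun i hi => hs i (hF i hi).1 (hF i hi).2
    rw [← Finset.prod_sdiff hsub]
    have h1 : ∀ i, ‖∫ ω, ee (τ * (6 : ℝ) ^ (-i) * (((x ω i : Fin 6) : ℕ) : ℝ)) ∂μ‖ ≤ 1 := by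
      intro i
      refine (norm_integral_le_integral_norm _).trans ?_
      simp only [norm_ee]
      rw [integral_const, probReal_univ, one_smul]
    refine (mul_le_of_le_one_left (Finset.prod_nonneg fun j _ => norm_nonneg _)
      (Finset.prod_le_one (fun j _ => norm_nonneg _) fun j _ => h1 j)).trans ?_
    rw [← Finset.prod_const]
    refine Finset.prod_le_prod (fun j _ => norm_nonneg _) fun j hj => ?_
    have h2 := hF j hj
    refine (digit_small (h.1 j) hc (h.2.2 j h2.1 h2.2) _).trans ?_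
    have h3 := hFd j hj
    have h4 : 120 * (τ * (6 : ℝ) ^ (-j)) = 120 * τ * (6 : ℝ) ^ (-j) := by ring
    rw [h4]
    unfold rh
    have h5 : (1 / 12 : ℝ) ^ 2 ≤ dn (120 * τ * (6 : ℝ) ^ (-j)) ^ 2 := pow_le_pow_left₀ (by norm_num) h3 2
    have h6 : 4 * (c / 6) * (1 / 12) ^ 2 / 120 ^ 2 ≤ 4 * (c / 6) * dn (120 * τ * (6 : ℝ) ^ (-j)) ^ 2 / 120 ^ 2 := by
      apply div_le_div_of_nonneg_right _ (by positivity)
      exact mul_le_mul_of_nonneg_left h5 (by positivity)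
    linarith

end Pool.Agent.J4H40.Rd
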