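import Pool.Agent.J4H40.Fb

set_option autoImplicit false

/-! From characteristic functions to the law of the fractional part. -/

namespace Pool.Agent.J4H40.Rd

open MeasureTheory ProbabilityTheory Finset Filter Topology
open scoped ComplexConjugate
open Pool.Agent.J4H75.PN (ee norm_ee ee_add Cond uweyl trap trap_cont trap_nonneg trap_le_one trap_one trap_zero trap_int_le
  trap_int_ge trap_integrable coe_fract dist_coe mem_arc)
open Pool.Agent.J4H40.Ca (ee_cont)

/-- the Haar measure of the circle -/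
noncomputable abbrev hc : Measure UnitAddCircle := AddCircle.haarAddCircle (T := (1 : ℝ))

/-- the law of a random point with small characteristic function is almost the Haar measure on `F` -/
def MnM (F : C(UnitAddCircle, ℂ)) : Prop :=
  ∀ ε : ℝ, 0 < ε → ∀ᶠ K : ℕ in atTop, ∀ (Ω : Type) [MeasurableSpace Ω] (μ : Measure Ω) [IsProbabilityMeasure μ] (X : Ω → ℝ),
    Measurable X → (∀ h : ℤ, h ≠ 0 → |h| ≤ K → K * ‖∫ ω, ee (h * X ω) ∂μ‖ ≤ 1) →
    ‖∫ ω, F (X ω : UnitAddCircle) ∂μ - ∫ z, F z ∂hc‖ ≤ ε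

lemma circ_int (F : C(UnitAddCircle, ℂ)) : Integrable F hc :=
  (map_continuous F).integrable_of_hasCompactSupport (HasCompactSupport.of_compactSpace _)

lemma circ_meas {Ω : Type} [MeasurableSpace Ω] {X : Ω → ℝ} (hX : Measurable X) :
    Measurable fun ω => (X ω : UnitAddCircle) :=
  (AddCircle.continuous_mk' 1).measurable.comp hX

lemma circ_int2 {Ω : Type} [MeasurableSpace Ω] {μ : Measure Ω} [IsProbabilityMeasure μ] {X : Ω → ℝ} (hX : Measurable X)
    (F : C(UnitAddCircle, ℂ)) : Integrable (fun ω => F (X ω : UnitAddCircle)) μ := by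
  refine Integrable.of_bound ((map_continuous F).measurable.comp (circ_meas hX)).aestronglyMeasurable ‖F‖ ?_
  filter_upwards with ω
  exact ContinuousMap.norm_coe_le_norm F _

lemma mnM_fourier (m : ℤ) : MnM (fourier m : C(UnitAddCircle, ℂ)) := by
  intro ε hε
  have h1 : ∫ z, (fourier m : C(UnitAddCircle, ℂ)) z ∂hc = if m = 0 then 1 else 0 := by
    have e1 : fourierCoeff (T := 1) (fourier m : C(UnitAddCircle, ℂ)) 0 =
        ∫ z, (fourier m : C(UnitAddCircle, ℂ)) z ∂AddCircle.haarAddCircle := by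
      simp [fourierCoeff]
    rw [← e1, fourierCoeff_fourier]
    by_cases hm : m = 0
    · rw [if_pos hm, hm, Pi.single_eq_same]
    · rw [if_neg hm, Pi.single_eq_of_ne (Ne.symm hm)]
  have h2 : ∀ t : ℝ, (fourier m : C(UnitAddCircle, ℂ)) (t : UnitAddCircle) = ee (m * t) := by
    intro t
    rw [fourier_coe_apply, ee]
    congr 1
    push_cast
    ring
  have h3 : ∀ᶠ K : ℕ in atTop, 1 / ε ≤ K := tendsto_natCast_atTop_atTop.eventually_ge_atTop _
  filter_upwards [h3, eventually_ge_atTop m.natAbs, eventually_gt_atTop 0] with K hK hmK hK0 Ω _ μ _ X hX hC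
  rw [h1]
  simp only [h2]
  by_cases hm : m = 0
  · subst hm
    simp [ee]
    positivity
  · rw [if_neg hm, sub_zero]
    have h4 := hC m hm (by rw [Int.abs_eq_natAbs]; exact_mod_cast hmK)
    rw [div_le_iff₀ hε] at hK
    have hK0' : (0 : ℝ) < K := by exact_mod_cast hK0
    by_contra hcon
    push Not at hcon
    nlinarith

theorem mnM (F : C(UnitAddCircle, ℂ)) : MnM F := by
  have h2 : ∀ p ∈ Submodule.span ℂ (Set.range (fourier (T := (1 : ℝ)))), MnM p := by
    intro p hp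
    induction hp using Submodule.span_induction with
    | mem p hp =>
      obtain ⟨m, rfl⟩ := hp
      exact mnM_fourier m
    | zero =>
      intro ε hε
      refine Eventually.of_forall fun K Ω _ μ _ X _ _ => ?_
      simp
      positivity
    | add p q _ _ hp hq =>
      intro ε hε
      filter_upwards [hp (ε / 2) (by positivity), hq (ε / 2) (by positivity)] with K h3 h4 Ω _ μ _ X hX hC
      have h5 := h3 Ω μ X hX hC
      have h6 := h4 Ω μ X hX hC
      have e1 : ∫ z, (p + q) z ∂hc = ∫ z, p z ∂hc + ∫ z, q z ∂hc := by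
        rw [← integral_add (circ_int p) (circ_int q)]
        rfl
      have e2 : ∫ ω, (p + q) (X ω : UnitAddCircle) ∂μ = ∫ ω, p (X ω : UnitAddCircle) ∂μ + ∫ ω, q (X ω : UnitAddCircle) ∂μ := by
        rw [← integral_add (circ_int2 hX p) (circ_int2 hX q)]
        rfl
      rw [e1, e2]
      have e3 : ∫ ω, p (X ω : UnitAddCircle) ∂μ + ∫ ω, q (X ω : UnitAddCircle) ∂μ - (∫ z, p z ∂hc + ∫ z, q z ∂hc) =
          (∫ ω, p (X ω : UnitAddCircle) ∂μ - ∫ z, p z ∂hc) + (∫ ω, q (X ω : UnitAddCircle) ∂μ - ∫ z, q z ∂hc) := by ring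
      rw [e3]
      refine (norm_add_le _ _).trans ?_
      linarith
    | smul c p _ hp =>
      intro ε hε
      filter_upwards [hp (ε / (‖c‖ + 1)) (by positivity)] with K h3 Ω _ μ _ X hX hC
      have h5 := h3 Ω μ X hX hC
      have e1 : ∫ z, (c • p) z ∂hc = c * ∫ z, p z ∂hc := by
        rw [← integral_const_mul]
        rfl
      have e2 : ∫ ω, (c • p) (X ω : UnitAddCircle) ∂μ = c * ∫ ω, p (X ω : UnitAddCircle) ∂μ := by
        rw [← integral_const_mul]
        rfl
      rw [e1, e2, ← mul_sub, norm_mul]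
      refine (mul_le_mul_of_nonneg_left h5 (norm_nonneg _)).trans ?_
      rw [← mul_div_assoc, div_le_iff₀ (by positivity)]
      nlinarith [norm_nonneg c]
  intro ε hε
  have h3 : F ∈ (Submodule.span ℂ (Set.range (fourier (T := (1 : ℝ))))).topologicalClosure := by
    rw [span_fourier_closure_eq_top]
    trivial
  have h4 : F ∈ closure ((Submodule.span ℂ (Set.range (fourier (T := (1 : ℝ)))) : Submodule ℂ C(UnitAddCircle, ℂ)) :
      Set C(UnitAddCircle, ℂ)) := h3
  rw [Metric.mem_closure_iff] at h4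
  obtain ⟨p, hp, hFp⟩ := h4 (ε / 3) (by positivity)
  have hpt : ∀ z, ‖F z - p z‖ ≤ ε / 3 := fun z => by
    have := ContinuousMap.norm_coe_le_norm (F - p) z
    exact this.trans (by rw [dist_eq_norm] at hFp; exact hFp.le)
  filter_upwards [h2 p hp (ε / 3) (by positivity)] with K hK Ω _ μ _ X hX hC
  have h6 := hK Ω μ X hX hC
  have h7 : ‖∫ ω, F (X ω : UnitAddCircle) ∂μ - ∫ ω, p (X ω : UnitAddCircle) ∂μ‖ ≤ ε / 3 := by
    rw [← integral_sub (circ_int2 hX F) (circ_int2 hX p)]
    refine (norm_integral_le_of_norm_le_const (C := ε / 3) (ae_of_all _ fun ω => hpt _)).trans ?_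
    simp
  have h8 : ‖(∫ z, p z ∂hc) - ∫ z, F z ∂hc‖ ≤ ε / 3 := by
    rw [← integral_sub (circ_int p) (circ_int F)]
    refine (norm_integral_le_of_norm_le_const (C := ε / 3) (ae_of_all _ fun z => ?_)).trans ?_
    · rw [norm_sub_rev]
      exact hpt z
    · simp
  have h9 : ∫ ω, F (X ω : UnitAddCircle) ∂μ - ∫ z, F z ∂hc =
      (∫ ω, F (X ω : UnitAddCircle) ∂μ - ∫ ω, p (X ω : UnitAddCircle) ∂μ) +
      (∫ ω, p (X ω : UnitAddCircle) ∂μ - ∫ z, p z ∂hc) + ((∫ z, p z ∂hc) - ∫ z, F z ∂hc) := by ring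
  rw [h9]
  refine (norm_add₃_le).trans ?_
  linarith

/-- the trapezoid as a continuous function -/
noncomputable def ctrap (c r η : ℝ) : C(UnitAddCircle, ℂ) :=
  ⟨fun z => ((trap c r η z : ℝ) : ℂ), Complex.continuous_ofReal.comp (trap_cont c r η)⟩

lemma trap_mean (c r η ε : ℝ) (hε : 0 < ε) : ∀ᶠ K : ℕ in atTop, ∀ (Ω : Type) [MeasurableSpace Ω] (μ : Measure Ω)
    [IsProbabilityMeasure μ] (X : Ω → ℝ), Measurable X → (∀ h : ℤ, h ≠ 0 → |h| ≤ K → K * ‖∫ ω, ee (h * X ω) ∂μ‖ ≤ 1) →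
    |∫ ω, trap c r η (X ω : UnitAddCircle) ∂μ - ∫ z, trap c r η z ∂hc| ≤ ε := by
  filter_upwards [mnM (ctrap c r η) ε hε] with K hK Ω _ μ _ X hX hC
  have h1 := hK Ω μ X hX hC
  have e1 : ∫ ω, ctrap c r η (X ω : UnitAddCircle) ∂μ = ((∫ ω, trap c r η (X ω : UnitAddCircle) ∂μ : ℝ) : ℂ) := integral_ofReal
  have e2 : ∫ z, ctrap c r η z ∂hc = ((∫ z, trap c r η z ∂hc : ℝ) : ℂ) := integral_ofReal
  rw [e1, e2, ← Complex.ofReal_sub, Complex.norm_real, Real.norm_eq_abs] at h1
  exact h1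

/-- the law of the fractional part -/
theorem law_arc (a b ε : ℝ) (ha : 0 ≤ a) (hab : a ≤ b) (hb : b ≤ 1) (hε : 0 < ε) : ∀ᶠ K : ℕ in atTop, ∀ (Ω : Type)
    [MeasurableSpace Ω] (μ : Measure Ω) [IsProbabilityMeasure μ] (X : Ω → ℝ), Measurable X →
    (∀ h : ℤ, h ≠ 0 → |h| ≤ K → K * ‖∫ ω, ee (h * X ω) ∂μ‖ ≤ 1) →
    |μ.real {ω | a ≤ Int.fract (X ω) ∧ Int.fract (X ω) < b} - (b - a)| ≤ ε := by
  obtain ⟨η, hη⟩ : ∃ η : ℝ, η = ε / 4 := ⟨_, rfl⟩
  have hη0 : 0 < η := by rw [hη]; positivity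
  filter_upwards [trap_mean ((a + b) / 2) ((b - a) / 2) η (ε / 2) (by positivity),
    trap_mean ((a + b) / 2) ((b - a) / 2 - η) η (ε / 2) (by positivity)] with K h1 h2 Ω _ μ _ X hX hC
  have h3 := h1 Ω μ X hX hC
  have h4 := h2 Ω μ X hX hC
  obtain ⟨E, hE⟩ : ∃ E, E = {ω | a ≤ Int.fract (X ω) ∧ Int.fract (X ω) < b} := ⟨_, rfl⟩
  have hEm : MeasurableSet E := by
    rw [hE]
    exact (measurableSet_le measurable_const (measurable_fract.comp hX)).inter
      (measurableSet_lt (measurable_fract.comp hX) measurable_const)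
  have hEi : ∫ ω, E.indicator (fun _ => (1 : ℝ)) ω ∂μ = μ.real E := by
    rw [integral_indicator_const _ hEm, smul_eq_mul, mul_one]
  have htm : ∀ r : ℝ, Integrable (fun ω => trap ((a + b) / 2) r η (X ω : UnitAddCircle)) μ := by
    intro r
    refine Integrable.of_bound ((trap_cont _ _ _).measurable.comp (circ_meas hX)).aestronglyMeasurable 1 ?_
    filter_upwards with ω
    rw [Real.norm_eq_abs, abs_of_nonneg (trap_nonneg _ _ _ _)]
    exact trap_le_one _ _ _ _
  have hup : μ.real E ≤ ∫ ω, trap ((a + b) / 2) ((b - a) / 2) η (X ω : UnitAddCircle) ∂μ := by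
    rw [← hEi]
    refine integral_mono ((integrable_const 1).indicator hEm) (htm _) fun ω => ?_
    by_cases hω : ω ∈ E
    · rw [Set.indicator_of_mem hω]
      rw [hE] at hω
      apply (trap_one _ _ _ hη0 _ _).ge
      refine (dist_coe _ _).trans ?_
      rw [abs_le]
      constructor <;> linarith [hω.1, hω.2]
    · rw [Set.indicator_of_notMem hω]
      exact trap_nonneg _ _ _ _
  have hlo : ∫ ω, trap ((a + b) / 2) ((b - a) / 2 - η) η (X ω : UnitAddCircle) ∂μ ≤ μ.real E := by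
    rw [← hEi]
    refine integral_mono (htm _) ((integrable_const 1).indicator hEm) fun ω => ?_
    by_cases hω : ω ∈ E
    · rw [Set.indicator_of_mem hω]
      exact trap_le_one _ _ _ _
    · rw [Set.indicator_of_notMem hω]
      apply (trap_zero _ _ _ hη0 _ _).le
      by_contra hcon
      push Not at hcon
      apply hω
      rw [hE]
      exact mem_arc _ _ _ ha hb (by linarith)
  have h5 := trap_int_le ((a + b) / 2) ((b - a) / 2) η hη0 (by linarith)
  have h6 := trap_int_ge ((a + b) / 2) ((b - a) / 2 - η) η hη0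
  have h7 : min 1 (2 * ((b - a) / 2 - η)) = 2 * ((b - a) / 2 - η) := min_eq_right (by linarith)
  rw [h7] at h6
  rw [abs_le] at h3 h4
  rw [← hE, abs_le]
  constructor <;> linarith [h3.1, h3.2, h4.1, h4.2]

end Pool.Agent.J4H40.Rd
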