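import Pool.Agent.J4H40.Fc

set_option autoImplicit false

/-! The law of the fractional parts at one time and at many times. -/

namespace Pool.Agent.J4H40.Rd

open MeasureTheory ProbabilityTheory Finset Filter Topology
open Pool.Agent.J4H75.PN (ee norm_ee ee_add Cond uweyl)
open Pool.Agent.J4H40.Ca (ee_cont second_moment sum_meas sum_norm)
open Pool.Agent.H429R2.Auto (Conf F IsFin Rep)
open Pool.Agent.J4H78.TS (kap)

/-- one time -/
theorem one_time (L J : ℕ) {c a b ε : ℝ} (hc : 0 < c) (hc1 : c ≤ 1) (ha : -1 < a) (hab : a < b) (hb : b < kap) (hε : 0 < ε) :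
    ∀ᶠ n : ℕ in atTop, ∀ (Ω : Type) [MeasurableSpace Ω] (μ : Measure Ω) [IsProbabilityMeasure μ] (x : Ω → Conf), Law c a b n μ x →
    ∀ s : Finset ℤ, (∀ i : ℤ, a * n ≤ i → i ≤ b * n → i ∈ s) → ∀ j : ℤ, |j| ≤ J → ∀ C : ℕ, C < 6 ^ L →
    |μ.real {ω | (C : ℝ) / 6 ^ L ≤ Int.fract ((6 : ℝ) ^ (j - 1) * ((3 / 2) ^ n * al s x ω)) ∧
      Int.fract ((6 : ℝ) ^ (j - 1) * ((3 / 2) ^ n * al s x ω)) < (C + 1) / 6 ^ L} - 1 / 6 ^ L| ≤ ε := by
  have hK : ∀ᶠ K : ℕ in atTop, ∀ C ∈ range (6 ^ L), ∀ (Ω : Type)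
      [MeasurableSpace Ω] (μ : Measure Ω) [IsProbabilityMeasure μ] (X : Ω → ℝ), Measurable X →
      (∀ h : ℤ, h ≠ 0 → |h| ≤ K → K * ‖∫ ω, ee (h * X ω) ∂μ‖ ≤ 1) →
      |μ.real {ω | (C : ℝ) / 6 ^ L ≤ Int.fract (X ω) ∧ Int.fract (X ω) < (C + 1) / 6 ^ L} - ((C + 1) / 6 ^ L - (C : ℝ) / 6 ^ L)| ≤ ε := by
    rw [Filter.eventually_all_finset]
    intro C hC
    have hC' : (C : ℝ) + 1 ≤ 6 ^ L := by exact_mod_cast Finset.mem_range.1 hC
    exact law_arc _ _ ε (by positivity) (by gcongr; linarith) (by rw [div_le_one (by positivity)]; exact hC') hε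
  obtain ⟨K, hK0, hK⟩ := ((eventually_ge_atTop 1).and hK).exists
  have hK0' : (0 : ℝ) < K := by exact_mod_cast hK0
  have hn : ∀ᶠ n : ℕ in atTop, ∀ j ∈ Icc (-(J : ℤ)) J, ∀ h ∈ Icc (-(K : ℤ)) K, h ≠ 0 → ∀ q : ℝ → ℝ, Cls (rh c) a b n q →
      q ((h * (6 : ℝ) ^ (j - 1)) * (3 / 2) ^ n) ≤ 1 / K := by
    rw [Filter.eventually_all_finset]
    intro j _
    rw [Filter.eventually_all_finset]
    intro h _
    by_cases hh : h = 0
    · exact Eventually.of_forall fun n hn => absurd hh hn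
    · filter_upwards [cls_small (rh_lt hc) ha hab hb ((isSix_int hh).mul (isSix_zpow (j - 1))) (show (0 : ℝ) < 1 / K by positivity)] with n hn _
      exact hn
  filter_upwards [hn] with n hn Ω _ μ _ x hx s hs j hj C hC
  have h1 := hK C (Finset.mem_range.2 hC) Ω μ (fun ω => (6 : ℝ) ^ (j - 1) * ((3 / 2) ^ n * al s x ω))
    (((al_meas hx.1 s).const_mul _).const_mul _) (by
      intro h hh0 hhK
      have h2 := hn j (Finset.mem_Icc.2 (abs_le.1 hj)) h (Finset.mem_Icc.2 (abs_le.1 hhK)) hh0 _ (cls_of_law hc hx hs)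
      have h3 : ∀ ω, (h : ℝ) * ((6 : ℝ) ^ (j - 1) * ((3 / 2) ^ n * al s x ω)) = (h * (6 : ℝ) ^ (j - 1)) * (3 / 2) ^ n * al s x ω := by
        intro ω
        ring
      simp only [h3]
      rw [le_div_iff₀ hK0'] at h2
      linarith)
  have h2 : ((C : ℝ) + 1) / 6 ^ L - (C : ℝ) / 6 ^ L = 1 / 6 ^ L := by
    rw [← sub_div]
    congr 1
    ring
  rw [h2] at h1
  exact h1

/-- the exceptional event for one frequency -/
lemma markov {Ω : Type} [MeasurableSpace Ω] {μ : Measure Ω} [IsProbabilityMeasure μ] {X : Ω → ℝ} (hX : Measurable X)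
    (R K : ℕ) (hR : 1 ≤ R) (hK : 1 ≤ K) (t : ℕ → ℝ) {η : ℝ}
    (h : ∀ k < R, ∀ l < R, k ≠ l → ‖∫ ω, ee ((t k - t l) * X ω) ∂μ‖ ≤ η) (hη : 0 ≤ η) :
    μ.real {ω | (R : ℝ) < K * ‖∑ k ∈ range R, ee (t k * X ω)‖} ≤ (K : ℝ) ^ 2 * (1 / R + η) := by
  have hR0 : (0 : ℝ) < R := by exact_mod_cast hR
  have hK0 : (0 : ℝ) < K := by exact_mod_cast hK
  have h1 := second_moment (μ := μ) hX R t (fun _ => 0)
  simp only [add_zero] at h1
  have h2 : ∑ k ∈ range R, ∑ l ∈ range R, ‖∫ ω, ee ((t k - t l) * X ω) ∂μ‖ ≤ R + R ^ 2 * η := by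
    have h3 : ∀ k ∈ range R, ∀ l ∈ range R, ‖∫ ω, ee ((t k - t l) * X ω) ∂μ‖ ≤ (if k = l then 1 else 0) + η := by
      intro k hk l hl
      by_cases hkl : k = l
      · rw [if_pos hkl]
        have : ‖∫ ω, ee ((t k - t l) * X ω) ∂μ‖ ≤ 1 := by
          refine (norm_integral_le_integral_norm _).trans ?_
          simp only [norm_ee]
          rw [integral_const, probReal_univ, one_smul]
        linarith
      · rw [if_neg hkl, zero_add]
        exact h k (Finset.mem_range.1 hk) l (Finset.mem_range.1 hl) hkl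
    refine (Finset.sum_le_sum fun k hk => Finset.sum_le_sum fun l hl => h3 k hk l hl).trans ?_
    have h4 : ∀ k ∈ range R, ∑ l ∈ range R, ((if k = l then (1 : ℝ) else 0) + η) = 1 + R * η := by
      intro k hk
      rw [Finset.sum_add_distrib, Finset.sum_ite_eq, if_pos hk, Finset.sum_const, card_range, nsmul_eq_mul]
    rw [Finset.sum_congr rfl h4, Finset.sum_const, card_range, nsmul_eq_mul]
    apply le_of_eq
    ring
  have hint : Integrable (fun ω => ‖∑ k ∈ range R, ee (t k * X ω)‖ ^ 2) μ := by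
    have hm := sum_meas hX R t (fun _ => 0)
    simp only [add_zero] at hm
    refine Integrable.of_bound (hm.norm.pow_const 2).aestronglyMeasurable ((R : ℝ) ^ 2) ?_
    filter_upwards with ω
    rw [norm_pow, norm_norm]
    exact pow_le_pow_left₀ (norm_nonneg _) (sum_norm R _) 2
  have h3 := mul_meas_ge_le_integral_of_nonneg (μ := μ) (f := fun ω => ‖∑ k ∈ range R, ee (t k * X ω)‖ ^ 2)
    (ae_of_all _ fun ω => by positivity) hint (((R : ℝ) / K) ^ 2)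
  have h4 : μ.real {ω | (R : ℝ) < K * ‖∑ k ∈ range R, ee (t k * X ω)‖} ≤
      μ.real {ω | ((R : ℝ) / K) ^ 2 ≤ ‖∑ k ∈ range R, ee (t k * X ω)‖ ^ 2} := by
    apply measureReal_mono
    · intro ω hω
      rw [Set.mem_ofPred_eq] at hω ⊢
      apply pow_le_pow_left₀ (by positivity)
      rw [div_le_iff₀ hK0]
      linarith
    · exact measure_ne_top _ _
  have h5 : ((R : ℝ) / K) ^ 2 * μ.real {ω | (R : ℝ) < K * ‖∑ k ∈ range R, ee (t k * X ω)‖} ≤ R + R ^ 2 * η :=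
    (mul_le_mul_of_nonneg_left h4 (by positivity)).trans (h3.trans (h1.trans h2))
  have h6 : (R : ℝ) + R ^ 2 * η = (R / K) ^ 2 * (K ^ 2 * (1 / R + η)) := by
    field_simp
  rw [h6] at h5
  exact le_of_mul_le_mul_left h5 (by positivity)

open Classical in
/-- many times -/
theorem many_times (L J : ℕ) {c a b ε : ℝ} (hc : 0 < c) (hc1 : c ≤ 1) (ha : -1 < a) (hab : a < b) (hb : b < kap) (hε : 0 < ε) :
    ∃ R₀ : ℕ, ∀ R : ℕ, R₀ ≤ R → ∀ᶠ n : ℕ in atTop, ∀ (Ω : Type) [MeasurableSpace Ω] (μ : Measure Ω) [IsProbabilityMeasure μ]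
    (x : Ω → Conf), Law c a b n μ x → ∀ s : Finset ℤ, (∀ i : ℤ, a * n ≤ i → i ≤ b * n → i ∈ s) →
    μ.real {ω | ¬ ∀ j : ℤ, |j| ≤ J → ∀ C : ℕ, C < 6 ^ L →
      |(((range R).filter fun t => (C : ℝ) / 6 ^ L ≤ Int.fract ((6 : ℝ) ^ (j - 1) * ((3 / 2) ^ (n + t) * al s x ω)) ∧
      Int.fract ((6 : ℝ) ^ (j - 1) * ((3 / 2) ^ (n + t) * al s x ω)) < (C + 1) / 6 ^ L).card : ℝ) - R / 6 ^ L| ≤ ε * R} ≤ ε := by
  obtain ⟨K, hK0, hK⟩ := uweyl 1 ε hε
  have hK1 : (1 : ℝ) ≤ K := by exact_mod_cast hK0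
  obtain ⟨B, hB⟩ : ∃ B : ℝ, B = (2 * K + 1) * (2 * J + 1) * K ^ 2 := ⟨_, rfl⟩
  have hB0 : 0 < B := by rw [hB]; positivity
  refine ⟨⌈2 * B / ε⌉₊ + 1, ?_⟩
  intro R hR
  have hR1 : 1 ≤ R := by omega
  have hR0 : (0 : ℝ) < R := by exact_mod_cast hR1
  have hR2 : 2 * B / ε ≤ R := by
    have h1 : ((⌈2 * B / ε⌉₊ + 1 : ℕ) : ℝ) ≤ R := by exact_mod_cast hR
    push_cast at h1
    have := Nat.le_ceil (2 * B / ε)
    linarith
  obtain ⟨η, hη⟩ : ∃ η : ℝ, η = ε / (2 * B) := ⟨_, rfl⟩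
  have hη0 : 0 < η := by rw [hη]; positivity
  have hn : ∀ᶠ n : ℕ in atTop, ∀ j ∈ Icc (-(J : ℤ)) J, ∀ h ∈ Icc (-(K : ℤ)) K, ∀ k ∈ range R, ∀ l ∈ range R, h ≠ 0 → k ≠ l →
      ∀ q : ℝ → ℝ, Cls (rh c) a b n q → q ((h * (6 : ℝ) ^ (j - 1) * ((3 / 2) ^ k - (3 / 2) ^ l)) * (3 / 2) ^ n) ≤ η := by
    rw [Filter.eventually_all_finset]
    intro j _
    rw [Filter.eventually_all_finset]
    intro h _
    rw [Filter.eventually_all_finset]
    intro k _
    rw [Filter.eventually_all_finset]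
    intro l _
    by_cases hh : h = 0
    · exact Eventually.of_forall fun n hn => absurd hh hn
    · by_cases hkl : k = l
      · exact Eventually.of_forall fun n _ hn => absurd hkl hn
      · filter_upwards [cls_small (rh_lt hc) ha hab hb (((isSix_int hh).mul (isSix_zpow (j - 1))).mul (isSix_diff hkl)) hη0] with n hn _ _
        exact hn
  filter_upwards [hn] with n hn Ω _ μ _ x hx s hs
  obtain ⟨E, hE⟩ : ∃ E : ℤ × ℤ → Set Ω, E = fun p => {ω | (R : ℝ) < K * ‖∑ k ∈ range R,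
    ee ((p.2 * (6 : ℝ) ^ (p.1 - 1) * (3 / 2) ^ (n + k)) * al s x ω)‖} := ⟨_, rfl⟩
  obtain ⟨P, hP⟩ : ∃ P : Finset (ℤ × ℤ), P = Icc (-(J : ℤ)) J ×ˢ (Icc (-(K : ℤ)) K).filter (· ≠ 0) := ⟨_, rfl⟩
  have hEp : ∀ p ∈ P, μ.real (E p) ≤ (K : ℝ) ^ 2 * (1 / R + η) := by
    intro p hp
    rw [hP, Finset.mem_product, Finset.mem_filter] at hp
    rw [hE]
    apply markov (al_meas hx.1 s) R K hR1 hK0 (fun k => p.2 * (6 : ℝ) ^ (p.1 - 1) * (3 / 2) ^ (n + k)) _ hη0.le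
    intro k hk l hl hkl
    have h2 := hn p.1 hp.1 p.2 hp.2.1 k (Finset.mem_range.2 hk) l (Finset.mem_range.2 hl) hp.2.2 hkl _ (cls_of_law hc hx hs)
    refine le_trans (le_of_eq ?_) h2
    congr 2
    funext ω
    congr 2
    rw [pow_add, pow_add]
    ring
  have hsub : {ω | ¬ ∀ j : ℤ, |j| ≤ J → ∀ C : ℕ, C < 6 ^ L →
      |(((range R).filter fun t => (C : ℝ) / 6 ^ L ≤ Int.fract ((6 : ℝ) ^ (j - 1) * ((3 / 2) ^ (n + t) * al s x ω)) ∧
      Int.fract ((6 : ℝ) ^ (j - 1) * ((3 / 2) ^ (n + t) * al s x ω)) < (C + 1) / 6 ^ L).card : ℝ) - R / 6 ^ L| ≤ ε * R} ⊆ ⋃ p ∈ P, E p := by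
    intro ω hω
    by_contra hcon
    apply hω
    intro j hj C hC
    have hC1 : (C : ℝ) + 1 ≤ 6 ^ L := by exact_mod_cast hC
    have hCond : Cond K (range R) (fun t (_ : Fin 1) => (6 : ℝ) ^ (j - 1) * ((3 / 2) ^ (n + t) * al s x ω)) := by
      intro u hu huK
      have hu0 : u 0 ≠ 0 := by
        intro h0
        apply hu
        funext i
        rw [Subsingleton.elim i 0, h0]
        rfl
      have hpP : (j, u 0) ∈ P := by
        rw [hP, Finset.mem_product, Finset.mem_filter]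
        exact ⟨Finset.mem_Icc.2 (abs_le.1 hj), Finset.mem_Icc.2 (abs_le.1 (huK 0)), hu0⟩
      have h3 : ω ∉ E (j, u 0) := by
        intro h4
        apply hcon
        exact Set.mem_biUnion (Finset.mem_coe.2 hpP) h4
      rw [hE, Set.mem_ofPred_eq, not_lt] at h3
      rw [card_range]
      refine le_trans (le_of_eq ?_) h3
      congr 2
      refine Finset.sum_congr rfl fun k _ => ?_
      congr 1
      simp only [Finset.univ_unique, Fin.default_eq_zero, Finset.sum_singleton]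
      ring
    have h4 := hK (range R) _ hCond (fun _ => (C : ℝ) / 6 ^ L) (fun _ => ((C : ℝ) + 1) / 6 ^ L) (fun _ => by positivity)
      (fun _ => by gcongr; linarith) (fun _ => by rw [div_le_one (by positivity)]; exact hC1)
    rw [card_range] at h4
    have h5 : ∏ i : Fin 1, (((C : ℝ) + 1) / 6 ^ L - (C : ℝ) / 6 ^ L) = 1 / 6 ^ L := by
      simp only [Finset.prod_const, card_univ, Fintype.card_fin, pow_one]
      rw [← sub_div]
      congr 1
      ring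
    rw [h5] at h4
    have h6 : Pool.Agent.J4H75.PN.box (range R) (fun t (_ : Fin 1) => (6 : ℝ) ^ (j - 1) * ((3 / 2) ^ (n + t) * al s x ω))
        (fun _ => (C : ℝ) / 6 ^ L) (fun _ => ((C : ℝ) + 1) / 6 ^ L) =
        ((range R).filter fun t => (C : ℝ) / 6 ^ L ≤ Int.fract ((6 : ℝ) ^ (j - 1) * ((3 / 2) ^ (n + t) * al s x ω)) ∧
      Int.fract ((6 : ℝ) ^ (j - 1) * ((3 / 2) ^ (n + t) * al s x ω)) < (C + 1) / 6 ^ L) := by
      unfold Pool.Agent.J4H75.PN.box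
      ext t
      rw [Finset.mem_filter, Finset.mem_filter]
      exact ⟨fun h => ⟨h.1, h.2 0⟩, fun h => ⟨h.1, fun _ => h.2⟩⟩
    rw [h6] at h4
    have h7 : (R : ℝ) / 6 ^ L = 1 / 6 ^ L * R := by ring
    rw [h7]
    exact h4
  calc μ.real {ω | ¬ ∀ j : ℤ, |j| ≤ J → ∀ C : ℕ, C < 6 ^ L →
      |(((range R).filter fun t => (C : ℝ) / 6 ^ L ≤ Int.fract ((6 : ℝ) ^ (j - 1) * ((3 / 2) ^ (n + t) * al s x ω)) ∧
      Int.fract ((6 : ℝ) ^ (j - 1) * ((3 / 2) ^ (n + t) * al s x ω)) < (C + 1) / 6 ^ L).card : ℝ) - R / 6 ^ L| ≤ ε * R} ≤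
        μ.real (⋃ p ∈ P, E p) := measureReal_mono hsub (measure_ne_top _ _)
    _ ≤ ∑ p ∈ P, μ.real (E p) := measureReal_biUnion_finset_le _ _
    _ ≤ ∑ p ∈ P, (K : ℝ) ^ 2 * (1 / R + η) := Finset.sum_le_sum hEp
    _ = P.card * ((K : ℝ) ^ 2 * (1 / R + η)) := by rw [Finset.sum_const, nsmul_eq_mul]
    _ ≤ ((2 * J + 1) * (2 * K + 1)) * ((K : ℝ) ^ 2 * (1 / R + η)) := by
        apply mul_le_mul_of_nonneg_right _ (by positivity)
        rw [hP, Finset.card_product]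
        have h1 := Finset.card_filter_le (Icc (-(K : ℤ)) K) (· ≠ 0)
        rw [Int.card_Icc] at h1
        rw [Int.card_Icc]
        have h2 : ((J : ℤ) + 1 - -(J : ℤ)).toNat = 2 * J + 1 := by omega
        have h3 : ((K : ℤ) + 1 - -(K : ℤ)).toNat = 2 * K + 1 := by omega
        rw [h2]
        rw [h3] at h1
        have h4 : (2 * J + 1) * ((Icc (-(K : ℤ)) K).filter (· ≠ 0)).card ≤ (2 * J + 1) * (2 * K + 1) := Nat.mul_le_mul_left _ h1
        exact_mod_cast h4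
    _ = B * (1 / R + η) := by rw [hB]; ring
    _ ≤ ε := by
        have h1 : B * (1 / R) ≤ ε / 2 := by
          rw [mul_one_div, div_le_iff₀ hR0]
          rw [div_le_iff₀ hε] at hR2
          linarith
        have h2 : B * η = ε / 2 := by
          rw [hη]
          field_simp
        rw [mul_add]
        linarith

end Pool.Agent.J4H40.Rd
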