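import Pool.Agent.J4H40.Fd

set_option autoImplicit false

/-! The automaton: locality, truncation, words as fractional parts. -/

namespace Pool.Agent.J4H40.Rd

open Finset
open Pool.Agent.H429R2.Auto (Conf f mul3 shiftR F IsFin Rep rep_iter digits_sum sum_lt eq_of_digits letter)

/-- `x` shows the word `w` starting at the position `j` -/
def Shows {L : ℕ} (x : Conf) (w : Fin L → Fin 6) (j : ℤ) : Prop := ∀ s : Fin L, x (j + ((s : ℕ) : ℤ)) = w s

lemma F_local (x y : Conf) (i : ℤ) (h0 : x (i - 1) = y (i - 1)) (h1 : x i = y i) (h2 : x (i + 1) = y (i + 1)) : F x i = F y i := by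
  unfold F mul3 shiftR
  have e1 : i + 1 - 1 = i := by ring
  have e2 : i + 1 + 1 - 1 = i + 1 := by ring
  rw [e1, e2, h0, h1, h2]

/-- locality of the iterates -/
lemma iter_local (x y : Conf) (n : ℕ) : ∀ a b : ℤ, (∀ i, a ≤ i → i ≤ b → x i = y i) →
    ∀ i, a + n ≤ i → i ≤ b - n → F^[n] x i = F^[n] y i := by
  induction n with
  | zero =>
    intro a b h i h1 h2
    simp only [Nat.cast_zero, add_zero, sub_zero] at h1 h2
    exact h i h1 h2
  | succ n ih =>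
    intro a b h i h1 h2
    rw [Function.iterate_succ_apply', Function.iterate_succ_apply']
    push_cast at h1 h2
    have h3 := ih a b h
    exact F_local _ _ i (h3 _ (by omega) (by omega)) (h3 _ (by omega) (by omega)) (h3 _ (by omega) (by omega))

/-- truncation -/
lemma rep_trunc (x : Conf) (a : ℤ) (m : ℕ) :
    Rep (fun i => if i ∈ Icc a (m : ℤ) then x i else 0) (∑ i ∈ Icc a (m : ℤ), ((x i : Fin 6) : ℕ) * (6 : ℝ) ^ (-i)) := by
  obtain ⟨len, hlen⟩ : ∃ len : ℕ, len = ((m : ℤ) + 1 - a).toNat := ⟨_, rfl⟩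
  obtain ⟨g, hg⟩ : ∃ g : ℕ → Fin 6, g = fun r : ℕ => x ((m : ℤ) - r) := ⟨_, rfl⟩
  obtain ⟨N, hN⟩ : ∃ N : ℕ, N = ∑ r ∈ range len, (g r : ℕ) * 6 ^ r := ⟨_, rfl⟩
  have hsum : ∑ i ∈ Icc a (m : ℤ), ((x i : Fin 6) : ℕ) * (6 : ℝ) ^ (-i) = (N : ℝ) / 6 ^ m := by
    rw [hN]
    push_cast
    rw [Finset.sum_div]
    symm
    refine Finset.sum_nbij' (fun r : ℕ => (m : ℤ) - r) (fun i : ℤ => ((m : ℤ) - i).toNat) ?_ ?_ ?_ ?_ ?_
    · intro r hr
      have := Finset.mem_range.1 hr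
      exact Finset.mem_Icc.2 ⟨by omega, by omega⟩
    · intro i hi
      have := Finset.mem_Icc.1 hi
      exact Finset.mem_range.2 (by omega)
    · intro r hr
      simp
    · intro i hi
      have := Finset.mem_Icc.1 hi
      omega
    · intro r hr
      rw [hg]
      simp only
      rw [mul_div_assoc]
      congr 1
      rw [neg_sub, zpow_sub₀ (by norm_num), zpow_natCast, zpow_natCast]
  rw [hsum]
  have hdig : ∀ l : ℕ, l < len → N / 6 ^ l % 6 = (g l : ℕ) := fun l hl => by rw [hN]; exact digits_sum _ g l hl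
  have hbig : ∀ l : ℕ, len ≤ l → N / 6 ^ l % 6 = 0 := by
    intro l hl
    have h1 : N < 6 ^ l := by rw [hN]; exact lt_of_lt_of_le (sum_lt _ g) (Nat.pow_le_pow_right (by norm_num) hl)
    rw [Nat.div_eq_of_lt h1]
  intro i
  beta_reduce
  rcases le_or_gt i (m : ℤ) with h | h
  · obtain ⟨l, hl⟩ := Int.eq_ofNat_of_zero_le (sub_nonneg.2 h)
    have e : (6 : ℝ) ^ i * ((N : ℝ) / 6 ^ m) = (N : ℝ) / ((6 ^ l : ℕ) : ℝ) := by
      have : i = (m : ℤ) - l := by omega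
      rw [this, zpow_sub₀ (by norm_num), zpow_natCast, zpow_natCast]
      push_cast
      field_simp
    rw [e, Nat.floor_div_eq_div]
    by_cases hla : a ≤ i
    · rw [hdig l (by omega), if_pos (Finset.mem_Icc.2 ⟨hla, h⟩), hg]
      simp only
      congr 2
      omega
    · rw [hbig l (by omega), if_neg (fun hc => hla (Finset.mem_Icc.1 hc).1)]
      rfl
  · obtain ⟨l, hl⟩ := Int.eq_ofNat_of_zero_le (sub_nonneg.2 h.le)
    have e : (6 : ℝ) ^ i * ((N : ℝ) / 6 ^ m) = ((6 ^ l * N : ℕ) : ℝ) := by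
      have : i = (m : ℤ) + l := by omega
      rw [this, zpow_add₀ (by norm_num), zpow_natCast, zpow_natCast]
      push_cast
      field_simp
    rw [e, Nat.floor_natCast, if_neg (fun hc => by have := (Finset.mem_Icc.1 hc).2; omega)]
    obtain ⟨l', rfl⟩ : ∃ l', l = l' + 1 := ⟨l - 1, by omega⟩
    rw [pow_succ', mul_assoc, Nat.mul_mod_right]
    rfl

/-- the letters of a word from the right -/
def gw {L : ℕ} (w : Fin L → Fin 6) (r : ℕ) : Fin 6 := if h : r < L then w ⟨L - 1 - r, by omega⟩ else 0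

/-- the number of a word -/
def code {L : ℕ} (w : Fin L → Fin 6) : ℕ := ∑ r ∈ range L, (gw w r : ℕ) * 6 ^ r

lemma code_lt {L : ℕ} (w : Fin L → Fin 6) : code w < 6 ^ L := sum_lt L _

lemma code_digit {L : ℕ} (w : Fin L → Fin 6) {r : ℕ} (hr : r < L) : code w / 6 ^ r % 6 = (gw w r : ℕ) := digits_sum L _ r hr

lemma shows_iff_mod {L : ℕ} {x : Conf} {β : ℝ} (hx : Rep x β) (w : Fin L → Fin 6) (j : ℤ) :
    Shows x w j ↔ ⌊(6 : ℝ) ^ (j + L - 1) * β⌋₊ % 6 ^ L = code w := by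
  constructor
  · intro h
    apply eq_of_digits L _ _ (Nat.mod_lt _ (by positivity)) (code_lt w)
    intro r hr
    rw [← letter hx j L r hr, code_digit w hr]
    unfold gw
    rw [dif_pos hr, ← h ⟨L - 1 - r, by omega⟩]
    congr 2
    simp only
    omega
  · intro h s
    have hs := s.isLt
    have hr : L - 1 - (s : ℕ) < L := by omega
    have h1 := letter hx j L (L - 1 - (s : ℕ)) hr
    rw [h, code_digit w hr] at h1
    have h2 : gw w (L - 1 - (s : ℕ)) = w s := by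
      unfold gw
      rw [dif_pos hr]
      congr 1
      apply Fin.ext
      simp only
      omega
    rw [h2] at h1
    have h3 : j + ((s : ℕ) : ℤ) = j + (L : ℤ) - 1 - ((L - 1 - (s : ℕ) : ℕ) : ℤ) := by omega
    rw [h3]
    exact Fin.ext h1

lemma mod_iff_fract {L : ℕ} {y : ℝ} (hy : 0 ≤ y) {C : ℕ} :
    ⌊(6 : ℝ) ^ L * y⌋₊ % 6 ^ L = C ↔ (C : ℝ) / 6 ^ L ≤ Int.fract y ∧ Int.fract y < (C + 1) / 6 ^ L := by
  have hp : (0 : ℝ) < 6 ^ L := by positivity
  have h0 := Int.fract_nonneg y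
  have h1 := Int.fract_lt_one y
  have h2 : (6 : ℝ) ^ L * y = 6 ^ L * Int.fract y + ((6 ^ L * ⌊y⌋₊ : ℕ) : ℝ) := by
    have h3 : (⌊y⌋₊ : ℝ) + Int.fract y = y := by
      rw [natCast_floor_eq_intCast_floor hy]
      exact Int.floor_add_fract y
    push_cast
    calc (6 : ℝ) ^ L * y = 6 ^ L * ((⌊y⌋₊ : ℝ) + Int.fract y) := by rw [h3]
      _ = _ := by ring
  rw [h2, Nat.floor_add_natCast (by positivity), Nat.add_mul_mod_self_left]
  have h4 : ⌊(6 : ℝ) ^ L * Int.fract y⌋₊ < 6 ^ L := by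
    rw [Nat.floor_lt (by positivity)]
    push_cast
    nlinarith
  rw [Nat.mod_eq_of_lt h4, Nat.floor_eq_iff (by positivity), div_le_iff₀ hp, lt_div_iff₀ hp]
  rw [mul_comm (Int.fract y)]

lemma shows_iff_fract {L : ℕ} {x : Conf} {β : ℝ} (hβ : 0 ≤ β) (hx : Rep x β) (w : Fin L → Fin 6) (j : ℤ) :
    Shows x w j ↔ ((code w : ℕ) : ℝ) / 6 ^ L ≤ Int.fract ((6 : ℝ) ^ (j - 1) * β) ∧
      Int.fract ((6 : ℝ) ^ (j - 1) * β) < ((code w : ℕ) + 1) / 6 ^ L := by
  rw [shows_iff_mod hx, ← mod_iff_fract (by positivity)]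
  have : (6 : ℝ) ^ (j + L - 1) * β = 6 ^ L * ((6 : ℝ) ^ (j - 1) * β) := by
    have h1 : j + (L : ℤ) - 1 = (L : ℤ) + (j - 1) := by ring
    rw [h1, zpow_add₀ (by norm_num), zpow_natCast]
    ring
  rw [this]

/-- words and fractional parts, for all configurations -/
theorem shows_al {L : ℕ} (x : Conf) (n J m : ℕ) (hm : n + J + L ≤ m) (a : ℤ) (ha : a ≤ -(n : ℤ) - J) (w : Fin L → Fin 6)
    (j : ℤ) (hj : |j| ≤ J) :
    Shows (F^[n] x) w j ↔ ((code w : ℕ) : ℝ) / 6 ^ L ≤ Int.fract ((6 : ℝ) ^ (j - 1) * ((3 / 2) ^ n *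
        ∑ i ∈ Icc a (m : ℤ), ((x i : Fin 6) : ℕ) * (6 : ℝ) ^ (-i))) ∧
      Int.fract ((6 : ℝ) ^ (j - 1) * ((3 / 2) ^ n * ∑ i ∈ Icc a (m : ℤ), ((x i : Fin 6) : ℕ) * (6 : ℝ) ^ (-i))) <
        ((code w : ℕ) + 1) / 6 ^ L := by
  have hnn : 0 ≤ ∑ i ∈ Icc a (m : ℤ), ((x i : Fin 6) : ℕ) * (6 : ℝ) ^ (-i) := Finset.sum_nonneg fun i _ => by positivity
  have h1 := shows_iff_fract (by positivity) (rep_iter hnn (rep_trunc x a m) n) w j
  rw [← h1]
  have h2 := iter_local x (fun i => if i ∈ Icc a (m : ℤ) then x i else 0) n a m (fun i hi1 hi2 => by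
    beta_reduce
    rw [if_pos (Finset.mem_Icc.2 ⟨hi1, hi2⟩)])
  have hj2 := abs_le.1 hj
  unfold Shows
  constructor
  · intro h s
    rw [← h s]
    have hs := s.isLt
    exact (h2 _ (by omega) (by omega)).symm
  · intro h s
    rw [← h s]
    have hs := s.isLt
    exact h2 _ (by omega) (by omega)

end Pool.Agent.J4H40.Rd
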