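import Pool.Agent.J4H40.Fe

set_option autoImplicit false

/-! Random configurations: the law of the words at one time, frequencies in blocks of times, density almost surely. -/

namespace Pool.Agent.J4H40.Rd

open MeasureTheory ProbabilityTheory Finset Filter Topology
open Pool.Agent.H429R2.Auto (Conf F IsFin Rep)
open Pool.Agent.J4H78.TS (kap kap_lt_one)

lemma win_mem {a b : ℝ} (ha : -1 < a) (hb : b < kap) {n R J L : ℕ} {i : ℤ} (h1 : a * n ≤ i) (h2 : i ≤ b * n) :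
    i ∈ Icc (-(n : ℤ) - R - J) ((n + R + J + L : ℕ) : ℤ) := by
  have hn : (0 : ℝ) ≤ n := Nat.cast_nonneg n
  have hk := kap_lt_one
  have h3 : (-(n : ℤ) : ℤ) ≤ i := by
    have : ((-(n : ℤ) : ℤ) : ℝ) ≤ i := by
      push_cast
      nlinarith
    exact_mod_cast this
  have h4 : i ≤ (n : ℤ) := by
    have : (i : ℝ) ≤ ((n : ℤ) : ℝ) := by
      push_cast
      nlinarith
    exact_mod_cast this
  exact Finset.mem_Icc.2 ⟨by omega, by push_cast; omega⟩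

/-- **The law at one time.** -/
theorem word_law (L J : ℕ) {c a b ε : ℝ} (hc : 0 < c) (ha : -1 < a) (hab : a < b) (hb : b < kap) (hε : 0 < ε) :
    ∀ᶠ n : ℕ in atTop, ∀ (Ω : Type) [MeasurableSpace Ω] (μ : Measure Ω) [IsProbabilityMeasure μ] (x : Ω → Conf),
    Law c a b n μ x → ∀ (w : Fin L → Fin 6) (j : ℤ), |j| ≤ J → |μ.real {ω | Shows (F^[n] (x ω)) w j} - 1 / 6 ^ L| ≤ ε := by
  filter_upwards [one_time L J (lt_min hc one_pos) (min_le_right c 1) ha hab hb hε] with n hn Ω _ μ _ x hx w j hj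
  have h1 := hn Ω μ x (hx.mono (min_le_left c 1)) (Icc (-(n : ℤ) - (0 : ℕ) - J) ((n + 0 + J + L : ℕ) : ℤ))
    (fun i h1 h2 => win_mem ha hb h1 h2) j hj (code w) (code_lt w)
  have h2 : {ω | Shows (F^[n] (x ω)) w j} = {ω | ((code w : ℕ) : ℝ) / 6 ^ L ≤ Int.fract ((6 : ℝ) ^ (j - 1) * ((3 / 2) ^ n *
      al (Icc (-(n : ℤ) - (0 : ℕ) - J) ((n + 0 + J + L : ℕ) : ℤ)) x ω)) ∧
      Int.fract ((6 : ℝ) ^ (j - 1) * ((3 / 2) ^ n * al (Icc (-(n : ℤ) - (0 : ℕ) - J) ((n + 0 + J + L : ℕ) : ℤ)) x ω)) <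
        ((code w : ℕ) + 1) / 6 ^ L} := by
    ext ω
    exact shows_al (x ω) n J (n + 0 + J + L) (by omega) _ (by push_cast; omega) w j hj
  rw [h2]
  exact h1

open Classical in
/-- **Frequencies in blocks of times.** -/
theorem block_freq (L J : ℕ) {c a b ε : ℝ} (hc : 0 < c) (ha : -1 < a) (hab : a < b) (hb : b < kap) (hε : 0 < ε) :
    ∃ R₀ : ℕ, ∀ R : ℕ, R₀ ≤ R → ∀ᶠ n : ℕ in atTop, ∀ (Ω : Type) [MeasurableSpace Ω] (μ : Measure Ω) [IsProbabilityMeasure μ]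
    (x : Ω → Conf), Law c a b n μ x → μ.real {ω | ¬ ∀ (w : Fin L → Fin 6) (j : ℤ), |j| ≤ J →
      |(((range R).filter fun t => Shows (F^[n + t] (x ω)) w j).card : ℝ) - R / 6 ^ L| ≤ ε * R} ≤ ε := by
  obtain ⟨R₀, h⟩ := many_times L J (lt_min hc one_pos) (min_le_right c 1) ha hab hb hε
  refine ⟨R₀, fun R hR => ?_⟩
  filter_upwards [h R hR] with n hn Ω _ μ _ x hx
  have h1 := hn Ω μ x (hx.mono (min_le_left c 1)) (Icc (-(n : ℤ) - R - J) ((n + R + J + L : ℕ) : ℤ))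
    (fun i h1 h2 => win_mem ha hb h1 h2)
  refine (measureReal_mono ?_ (measure_ne_top _ _)).trans h1
  intro ω hω hcon
  apply hω
  intro w j hj
  have h2 := hcon j hj (code w) (code_lt w)
  have h3 : ((range R).filter fun t => Shows (F^[n + t] (x ω)) w j) =
      (range R).filter fun t => ((code w : ℕ) : ℝ) / 6 ^ L ≤ Int.fract ((6 : ℝ) ^ (j - 1) * ((3 / 2) ^ (n + t) *
        al (Icc (-(n : ℤ) - R - J) ((n + R + J + L : ℕ) : ℤ)) x ω)) ∧
      Int.fract ((6 : ℝ) ^ (j - 1) * ((3 / 2) ^ (n + t) * al (Icc (-(n : ℤ) - R - J) ((n + R + J + L : ℕ) : ℤ)) x ω)) <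
        ((code w : ℕ) + 1) / 6 ^ L := by
    apply Finset.filter_congr
    intro t ht
    have := Finset.mem_range.1 ht
    exact shows_al (x ω) (n + t) J (n + R + J + L) (by omega) (-(n : ℤ) - R - J) (by push_cast; omega) w j hj
  rw [h3]
  exact h2

open Classical in
/-- the block shows all words -/
theorem block_all (L J : ℕ) {c a b ε : ℝ} (hc : 0 < c) (ha : -1 < a) (hab : a < b) (hb : b < kap) (hε : 0 < ε) :
    ∃ R : ℕ, 1 ≤ R ∧ ∀ᶠ n : ℕ in atTop, ∀ (Ω : Type) [MeasurableSpace Ω] (μ : Measure Ω) [IsProbabilityMeasure μ]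
    (x : Ω → Conf), Law c a b n μ x → μ.real {ω | ¬ ∀ (w : Fin L → Fin 6) (j : ℤ), |j| ≤ J →
      ∃ t < R, Shows (F^[n + t] (x ω)) w j} ≤ ε := by
  have hε2 : 0 < min ε (1 / (2 * 6 ^ L)) := lt_min hε (by positivity)
  obtain ⟨R₀, h⟩ := block_freq L J hc ha hab hb hε2
  refine ⟨R₀ + 1, by omega, ?_⟩
  filter_upwards [h (R₀ + 1) (by omega)] with n hn Ω _ μ _ x hx
  refine ((measureReal_mono ?_ (measure_ne_top _ _)).trans (hn Ω μ x hx)).trans (min_le_left _ _)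
  intro ω hω hcon
  apply hω
  intro w j hj
  have h2 := hcon w j hj
  have h3 : (0 : ℝ) < ((R₀ + 1 : ℕ) : ℝ) := by positivity
  have h4 : min ε (1 / (2 * 6 ^ L)) * ((R₀ + 1 : ℕ) : ℝ) ≤ 1 / (2 * 6 ^ L) * ((R₀ + 1 : ℕ) : ℝ) :=
    mul_le_mul_of_nonneg_right (min_le_right _ _) h3.le
  have h5 : 0 < (((range (R₀ + 1)).filter fun t => Shows (F^[n + t] (x ω)) w j).card : ℝ) := by
    have h6 := (abs_le.1 h2).1
    have h7 : 1 / (2 * 6 ^ L) * ((R₀ + 1 : ℕ) : ℝ) = ((R₀ + 1 : ℕ) : ℝ) / 6 ^ L / 2 := by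
      field_simp
    have h8 : 0 < ((R₀ + 1 : ℕ) : ℝ) / 6 ^ L := by positivity
    rw [h7] at h4
    linarith
  obtain ⟨t, ht⟩ := Finset.card_pos.1 (Nat.cast_pos.1 h5)
  rw [Finset.mem_filter] at ht
  exact ⟨t, Finset.mem_range.1 ht.1, ht.2⟩

/-- **Density almost surely.** -/
theorem ae_dense {c a b : ℝ} (hc : 0 < c) (ha : -1 < a) (hab : a < b) (hb : b < kap) {Ω : Type} [MeasurableSpace Ω]
    (μ : Measure Ω) [IsProbabilityMeasure μ] (x : Ω → Conf) (hx : ∃ᶠ n : ℕ in atTop, Law c a b n μ x) :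
    ∀ᵐ ω ∂μ, ∀ (L : ℕ) (w : Fin L → Fin 6) (j : ℤ) (N : ℕ), ∃ n ≥ N, Shows (F^[n] (x ω)) w j := by
  rw [ae_all_iff]
  intro L
  rw [ae_all_iff]
  intro w
  rw [ae_all_iff]
  intro j
  rw [ae_all_iff]
  intro N
  rw [ae_iff]
  have h1 : ∀ ε : ℝ, 0 < ε → μ.real {ω | ¬ ∃ n ≥ N, Shows (F^[n] (x ω)) w j} ≤ ε := by
    intro ε hε
    obtain ⟨R, -, h⟩ := block_all L j.natAbs hc ha hab hb hε
    obtain ⟨n, hxn, hnN, hn⟩ := (hx.and_eventually ((eventually_ge_atTop N).and h)).exists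
    refine (measureReal_mono ?_ (measure_ne_top _ _)).trans (hn Ω μ x hxn)
    intro ω hω hcon
    apply hω
    obtain ⟨t, -, ht⟩ := hcon w j (by rw [Int.abs_eq_natAbs])
    exact ⟨n + t, by omega, ht⟩
  have h2 : μ.real {ω | ¬ ∃ n ≥ N, Shows (F^[n] (x ω)) w j} ≤ 0 := by
    apply le_of_forall_pos_le_add
    intro ε hε
    rw [zero_add]
    exact h1 ε hε
  have h3 := le_antisymm h2 measureReal_nonneg
  exact (measureReal_eq_zero_iff (measure_ne_top _ _)).1 h3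

end Pool.Agent.J4H40.Rd
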