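import Pool.Agent.J4H40.Ff

set_option autoImplicit false

/-! Counting configurations with restricted digits. -/

namespace Pool.Agent.J4H40.Rd

open MeasureTheory ProbabilityTheory Finset Filter Topology
open Pool.Agent.H429R2.Auto (Conf F IsFin Rep)
open Pool.Agent.J4H78.TS (kap)

/-- the configurations with digits in the sets `A i` at the positions `i` of the window `W`, which agree with the
configuration `y` outside of the window -/
def Fam (W : Finset ℤ) (A : ℤ → Finset (Fin 6)) (y : Conf) : Set Conf := {x | (∀ i ∈ W, x i ∈ A i) ∧ ∀ i ∉ W, x i = y i}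

/-- the uniform measure on a set of digits -/
noncomputable def nu (A : Finset (Fin 6)) : Measure (Fin 6) :=
  if h : A.Nonempty then (PMF.uniformOfFinset A h).toMeasure else Measure.dirac 0

instance (A : Finset (Fin 6)) : IsProbabilityMeasure (nu A) := by
  unfold nu
  split_ifs with h
  · infer_instance
  · infer_instance

lemma nu_real {A : Finset (Fin 6)} (h : A.Nonempty) (v : Fin 6) : (nu A).real {v} = if v ∈ A then 1 / (A.card : ℝ) else 0 := by
  unfold nu
  rw [dif_pos h, measureReal_def, PMF.toMeasure_apply_singleton _ _ (measurableSet_singleton v), PMF.uniformOfFinset_apply]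
  split_ifs with hv
  · simp
  · simp

/-- the random configuration -/
def rc (W : Finset ℤ) (y : Conf) (ω : ℤ → Fin 6) : Conf := fun i => if i ∈ W then ω i else y i

/-- the law of the uniform choice -/
noncomputable def um (A : ℤ → Finset (Fin 6)) : Measure (ℤ → Fin 6) := Measure.infinitePi fun i => nu (A i)

instance (A : ℤ → Finset (Fin 6)) : IsProbabilityMeasure (um A) := by
  unfold um
  infer_instance

lemma law_um {W : Finset ℤ} {A : ℤ → Finset (Fin 6)} {y : Conf} {a b : ℝ} {n : ℕ}
    (h : ∀ i : ℤ, a * n ≤ i → i ≤ b * n → i ∈ W ∧ 2 ≤ (A i).card) : Law (1 / 2) a b n (um A) (rc W y) := by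
  refine ⟨?_, ?_, ?_⟩
  · intro i
    unfold rc
    by_cases hi : i ∈ W
    · simp only [if_pos hi]
      exact measurable_pi_apply i
    · simp only [if_neg hi]
      exact measurable_const
  · exact iIndepFun_infinitePi (P := fun i => nu (A i)) (X := fun i v => if i ∈ W then v else y i) (fun i => measurable_of_finite _)
  · intro i h1 h2 v
    obtain ⟨hiW, h3⟩ := h i h1 h2
    have h4 : {ω : ℤ → Fin 6 | rc W y ω i = v} = (fun ω : ℤ → Fin 6 => ω i) ⁻¹' {v} := by
      ext ω
      rw [Set.mem_ofPred_eq, Set.mem_preimage, Set.mem_singleton_iff]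
      unfold rc
      rw [if_pos hiW]
    have hA : (A i).Nonempty := Finset.card_pos.1 (by omega)
    rw [h4, ← map_measureReal_apply (measurable_pi_apply i) (measurableSet_singleton v)]
    unfold um
    rw [Measure.infinitePi_map_eval, nu_real hA]
    have h5 : (2 : ℝ) ≤ (A i).card := by exact_mod_cast h3
    split_ifs with hv
    · rw [div_le_iff₀ (by linarith)]
      linarith
    · norm_num

open Classical in
/-- the family as a finite set -/
noncomputable def FamF (W : Finset ℤ) (A : ℤ → Finset (Fin 6)) (y : Conf) : Finset Conf :=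
  (Finset.pi W A).image fun p i => if h : i ∈ W then p i h else y i

open Classical in
lemma mem_FamF {W : Finset ℤ} {A : ℤ → Finset (Fin 6)} {y x : Conf} : x ∈ FamF W A y ↔ x ∈ Fam W A y := by
  unfold FamF Fam
  rw [Finset.mem_image, Set.mem_ofPred_eq]
  constructor
  · rintro ⟨p, hp, rfl⟩
    rw [Finset.mem_pi] at hp
    constructor
    · intro i hi
      beta_reduce
      rw [dif_pos hi]
      exact hp i hi
    · intro i hi
      beta_reduce
      rw [dif_neg hi]
  · rintro ⟨h1, h2⟩
    refine ⟨fun i _ => x i, Finset.mem_pi.2 fun i hi => h1 i hi, ?_⟩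
    funext i
    by_cases hi : i ∈ W
    · rw [dif_pos hi]
    · rw [dif_neg hi, h2 i hi]

open Classical in
lemma card_FamF (W : Finset ℤ) (A : ℤ → Finset (Fin 6)) (y : Conf) : (FamF W A y).card = ∏ i ∈ W, (A i).card := by
  unfold FamF
  rw [Finset.card_image_of_injective, Finset.card_pi]
  intro p q hpq
  funext i hi
  have := congrFun hpq i
  simp only [dif_pos hi] at this
  exact this

lemma coe_FamF (W : Finset ℤ) (A : ℤ → Finset (Fin 6)) (y : Conf) : ((FamF W A y : Finset Conf) : Set Conf) = Fam W A y := by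
  ext x
  rw [Finset.mem_coe, mem_FamF]

open Classical in
/-- probabilities are proportions -/
lemma um_real {W : Finset ℤ} {A : ℤ → Finset (Fin 6)} (hA : ∀ i ∈ W, (A i).Nonempty) (y : Conf) (P : Conf → Prop) :
    (um A).real {ω | P (rc W y ω)} = (({x ∈ Fam W A y | P x}.ncard : ℕ) : ℝ) / ((Fam W A y).ncard : ℕ) := by
  obtain ⟨V, hV⟩ : ∃ V : Finset Conf, V = (FamF W (fun _ => univ) y).filter P := ⟨_, rfl⟩
  have hmem : ∀ v ∈ V, ∀ i ∉ W, v i = y i := by
    intro v hv i hi
    rw [hV, Finset.mem_filter, mem_FamF] at hv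
    exact hv.1.2 i hi
  have hpre : ∀ v ∈ V, {ω : ℤ → Fin 6 | rc W y ω = v} = Set.pi (W : Set ℤ) (fun i => {v i}) := by
    intro v hv
    ext ω
    rw [Set.mem_ofPred_eq, Set.mem_pi]
    constructor
    · intro h i hi
      rw [Set.mem_singleton_iff, ← h]
      unfold rc
      rw [if_pos (Finset.mem_coe.1 hi)]
    · intro h
      funext i
      unfold rc
      by_cases hi : i ∈ W
      · rw [if_pos hi]
        exact h i (Finset.mem_coe.2 hi)
      · rw [if_neg hi, hmem v hv i hi]
  have hunion : {ω | P (rc W y ω)} = ⋃ v ∈ V, {ω : ℤ → Fin 6 | rc W y ω = v} := by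
    ext ω
    rw [Set.mem_ofPred_eq, Set.mem_iUnion₂]
    constructor
    · intro h
      refine ⟨rc W y ω, ?_, rfl⟩
      rw [hV, Finset.mem_filter, mem_FamF]
      refine ⟨⟨fun i _ => Finset.mem_univ _, fun i hi => ?_⟩, h⟩
      unfold rc
      rw [if_neg hi]
    · rintro ⟨v, hv, h⟩
      rw [Set.mem_ofPred_eq] at h
      rw [h]
      rw [hV, Finset.mem_filter] at hv
      exact hv.2
  have hm : ∀ v ∈ V, MeasurableSet {ω : ℤ → Fin 6 | rc W y ω = v} := by
    intro v hv
    rw [hpre v hv]
    exact MeasurableSet.pi W.countable_toSet fun i _ => measurableSet_singleton _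
  have hone : ∀ v ∈ V, (um A).real {ω : ℤ → Fin 6 | rc W y ω = v} =
      if ∀ i ∈ W, v i ∈ A i then ∏ i ∈ W, (1 / ((A i).card : ℝ)) else 0 := by
    intro v hv
    rw [hpre v hv, measureReal_def]
    unfold um
    rw [Measure.infinitePi_pi _ (fun i _ => measurableSet_singleton _), ENNReal.toReal_prod, ← Finset.prod_ite_zero]
    refine Finset.prod_congr rfl fun i hi => ?_
    exact nu_real (hA i hi) (v i)
  rw [hunion, measureReal_biUnion_finset (fun v _ v' _ hvv => Set.disjoint_left.2 fun ω h1 h2 => hvv (h1.symm.trans h2)) hm,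
    Finset.sum_congr rfl hone, ← Finset.sum_filter, Finset.sum_const, nsmul_eq_mul]
  have hcard : (V.filter fun v => ∀ i ∈ W, v i ∈ A i).card = {x ∈ Fam W A y | P x}.ncard := by
    have h1 : ((V.filter fun v => ∀ i ∈ W, v i ∈ A i : Finset Conf) : Set Conf) = {x ∈ Fam W A y | P x} := by
      ext v
      rw [Finset.mem_coe, Finset.mem_filter, hV, Finset.mem_filter, mem_FamF]
      unfold Fam
      simp only [Set.mem_ofPred_eq]
      constructor
      · rintro ⟨⟨h1, h2⟩, h3⟩
        exact ⟨⟨h3, h1.2⟩, h2⟩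
      · rintro ⟨⟨h1, h2⟩, h3⟩
        exact ⟨⟨⟨fun i _ => Finset.mem_univ _, h2⟩, h3⟩, h1⟩
    rw [← h1, Set.ncard_coe_finset]
  have hcard2 : ((Fam W A y).ncard : ℝ) = ∏ i ∈ W, ((A i).card : ℝ) := by
    rw [← coe_FamF, Set.ncard_coe_finset, card_FamF]
    push_cast
    rfl
  rw [hcard, hcard2, Finset.prod_div_distrib, Finset.prod_const_one]
  ring

/-- **Equidistribution at every time.** -/
theorem count_one (L J : ℕ) {a b ε : ℝ} (ha : -1 < a) (hab : a < b) (hb : b < kap) (hε : 0 < ε) :
    ∀ᶠ n : ℕ in atTop, ∀ (W : Finset ℤ) (A : ℤ → Finset (Fin 6)) (y : Conf), (∀ i ∈ W, (A i).Nonempty) →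
    (∀ i : ℤ, a * n ≤ i → i ≤ b * n → i ∈ W ∧ 2 ≤ (A i).card) → ∀ (w : Fin L → Fin 6) (j : ℤ), |j| ≤ J →
    |({x ∈ Fam W A y | Shows (F^[n] x) w j}.ncard : ℝ) - (Fam W A y).ncard / 6 ^ L| ≤ ε * (Fam W A y).ncard := by
  filter_upwards [word_law L J (c := 1 / 2) (by norm_num) ha hab hb hε] with n hn W A y hA h w j hj
  have h1 := hn (ℤ → Fin 6) (um A) (rc W y) (law_um h) w j hj
  rw [um_real hA y (fun x => Shows (F^[n] x) w j)] at h1
  have h2 : 0 < ((Fam W A y).ncard : ℝ) := by
    rw [← coe_FamF, Set.ncard_coe_finset, card_FamF]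
    push_cast
    exact Finset.prod_pos fun i hi => by exact_mod_cast Finset.card_pos.2 (hA i hi)
  have h3 : ({x ∈ Fam W A y | Shows (F^[n] x) w j}.ncard : ℝ) - (Fam W A y).ncard / 6 ^ L =
      (({x ∈ Fam W A y | Shows (F^[n] x) w j}.ncard : ℝ) / (Fam W A y).ncard - 1 / 6 ^ L) * (Fam W A y).ncard := by
    field_simp
  rw [h3, abs_mul, abs_of_pos h2]
  exact mul_le_mul_of_nonneg_right h1 h2.le

/-- a small probability is a small proportion -/
lemma few_of_real {W : Finset ℤ} {A : ℤ → Finset (Fin 6)} (hA : ∀ i ∈ W, (A i).Nonempty) (y : Conf) (P : Conf → Prop) {ε : ℝ}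
    (h : (um A).real {ω | P (rc W y ω)} ≤ ε) : ({x ∈ Fam W A y | P x}.ncard : ℝ) ≤ ε * (Fam W A y).ncard := by
  rw [um_real hA y P] at h
  have h2 : 0 < ((Fam W A y).ncard : ℝ) := by
    rw [← coe_FamF, Set.ncard_coe_finset, card_FamF]
    push_cast
    exact Finset.prod_pos fun i hi => by exact_mod_cast Finset.card_pos.2 (hA i hi)
  rwa [div_le_iff₀ h2] at h

end Pool.Agent.J4H40.Rd
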