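import Pool.Agent.J4H40.Fg

set_option autoImplicit false

/-! The law of large numbers. -/

namespace Pool.Agent.J4H40.Rd

open MeasureTheory ProbabilityTheory Finset Filter Topology
open Pool.Agent.H429R2.Auto (Conf F IsFin Rep)
open Pool.Agent.J4H78.TS (kap kap_lt_one)

lemma sum_blocks (g : ℕ → ℝ) (R Q : ℕ) : ∑ t ∈ range (Q * R), g t = ∑ q ∈ range Q, ∑ t ∈ range R, g (q * R + t) := by
  induction Q with
  | zero => simp
  | succ Q ih => rw [Finset.sum_range_succ, ← ih, add_mul, one_mul, Finset.sum_range_add]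

/-- block decomposition -/
lemma blocks (g : ℕ → ℝ) (hg : ∀ t, |g t| ≤ 1) (n₀ R Q r : ℕ) :
    |∑ t ∈ range (n₀ + Q * R + r), g t| ≤ n₀ + ∑ q ∈ range Q, |∑ t ∈ range R, g (n₀ + q * R + t)| + r := by
  have h0 : ∀ (N : ℕ) (u : ℕ → ℕ), |∑ t ∈ range N, g (u t)| ≤ N := by
    intro N u
    refine (Finset.abs_sum_le_sum_abs _ _).trans ?_
    refine (Finset.sum_le_sum fun t _ => hg (u t)).trans ?_
    rw [Finset.sum_const, card_range, nsmul_eq_mul, mul_one]
  rw [Finset.sum_range_add, Finset.sum_range_add, sum_blocks (fun t => g (n₀ + t))]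
  have h1 := h0 n₀ (fun t => t)
  have h2 := h0 r (fun t => n₀ + Q * R + t)
  have h3 : |∑ q ∈ range Q, ∑ t ∈ range R, g (n₀ + (q * R + t))| ≤ ∑ q ∈ range Q, |∑ t ∈ range R, g (n₀ + q * R + t)| := by
    refine (Finset.abs_sum_le_sum_abs _ _).trans (le_of_eq ?_)
    refine Finset.sum_congr rfl fun q _ => ?_
    congr 1
    refine Finset.sum_congr rfl fun t _ => ?_
    rw [add_assoc]
  refine (abs_add_le _ _).trans ?_
  have h4 := abs_add_le (∑ t ∈ range n₀, g t) (∑ q ∈ range Q, ∑ t ∈ range R, g (n₀ + (q * R + t)))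
  linarith

lemma Law.restrict {Ω : Type} [MeasurableSpace Ω] {μ : Measure Ω} {c a b : ℝ} (ha : a ≤ 0) (hb : 0 ≤ b) {n N : ℕ} (hn : n ≤ N)
    {x : Ω → Conf} (h : Law c a b N μ x) : Law c a b n μ x := by
  refine ⟨h.1, h.2.1, fun i h1 h2 v => h.2.2 i ?_ ?_ v⟩
  · have h3 : (n : ℝ) ≤ N := by exact_mod_cast hn
    nlinarith
  · have h3 : (n : ℝ) ≤ N := by exact_mod_cast hn
    nlinarith

open Classical in
/-- **The law of large numbers.** -/
theorem lln (L J : ℕ) {c a b ε : ℝ} (hc : 0 < c) (ha : -1 < a) (ha0 : a ≤ 0) (hb0 : 0 ≤ b) (hab : a < b) (hb : b < kap)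
    (hε : 0 < ε) : ∀ᶠ N : ℕ in atTop, ∀ (Ω : Type) [MeasurableSpace Ω] (μ : Measure Ω) [IsProbabilityMeasure μ]
    (x : Ω → Conf), Law c a b N μ x → μ.real {ω | ¬ ∀ (w : Fin L → Fin 6) (j : ℤ), |j| ≤ J →
      |(((range N).filter fun t => Shows (F^[t] (x ω)) w j).card : ℝ) - N / 6 ^ L| ≤ ε * N} ≤ ε := by
  obtain ⟨ε', hε'⟩ : ∃ ε' : ℝ, ε' = min (ε / 4) (ε * ε / 4) := ⟨_, rfl⟩
  have hε'0 : 0 < ε' := by rw [hε']; exact lt_min (by positivity) (by positivity)
  have hε'1 : ε' ≤ ε / 4 := by rw [hε']; exact min_le_left _ _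
  have hε'2 : ε' ≤ ε * ε / 4 := by rw [hε']; exact min_le_right _ _
  obtain ⟨R₀, hR₀⟩ := block_freq L J hc ha hab hb hε'0
  obtain ⟨R, hR⟩ : ∃ R, R = R₀ + 1 := ⟨_, rfl⟩
  have hR0 : (0 : ℝ) < R := by rw [hR]; positivity
  obtain ⟨n₀, hn₀⟩ := (hR₀ R (by omega)).exists_forall_of_atTop
  have t1 : ∀ᶠ N : ℕ in atTop, 4 * (n₀ + R) / ε ≤ (N : ℝ) := tendsto_natCast_atTop_atTop.eventually_ge_atTop _
  filter_upwards [t1, eventually_ge_atTop n₀, eventually_ge_atTop 1] with N h1 h2 h3 Ω _ μ _ x hx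
  rw [div_le_iff₀ hε] at h1
  have hN0 : (0 : ℝ) < N := by exact_mod_cast h3
  obtain ⟨Q, hQ⟩ : ∃ Q, Q = (N - n₀) / R := ⟨_, rfl⟩
  obtain ⟨r, hr⟩ : ∃ r, r = (N - n₀) % R := ⟨_, rfl⟩
  have hrR : r < R := by rw [hr]; exact Nat.mod_lt _ (by omega)
  have hNQ : N = n₀ + Q * R + r := by
    have := Nat.div_add_mod' (N - n₀) R
    rw [← hQ, ← hr] at this
    omega
  have hQR : (Q : ℝ) * R ≤ N := by
    have : Q * R ≤ N := by omega
    exact_mod_cast this
  obtain ⟨bad, hbad⟩ : ∃ bad : ℕ → Set Ω, bad = fun q => {ω | ¬ ∀ (w : Fin L → Fin 6) (j : ℤ), |j| ≤ J →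
      |(((range R).filter fun t => Shows (F^[(n₀ + q * R) + t] (x ω)) w j).card : ℝ) - R / 6 ^ L| ≤ ε' * R} := ⟨_, rfl⟩
  have hbq : ∀ q ∈ range Q, μ.real (bad q) ≤ ε' := by
    intro q hq
    have hq1 := Finset.mem_range.1 hq
    have hq2 : q * R ≤ Q * R := Nat.mul_le_mul_right _ hq1.le
    rw [hbad]
    exact hn₀ (n₀ + q * R) (by omega) Ω μ x (hx.restrict ha0 hb0 (by omega))
  obtain ⟨Z, hZ⟩ : ∃ Z : Ω → ℝ, Z = fun ω => ∑ q ∈ range Q, (toMeasurable μ (bad q)).indicator (fun _ => (1 : ℝ)) ω := ⟨_, rfl⟩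
  have hZint : ∀ q, Integrable ((toMeasurable μ (bad q)).indicator (fun _ => (1 : ℝ))) μ := fun q =>
    (integrable_const 1).indicator (measurableSet_toMeasurable _ _)
  have hZi : ∫ ω, Z ω ∂μ ≤ Q * ε' := by
    rw [hZ, integral_finset_sum _ fun q _ => hZint q]
    have h4 : ∀ q ∈ range Q, ∫ ω, (toMeasurable μ (bad q)).indicator (fun _ => (1 : ℝ)) ω ∂μ ≤ ε' := by
      intro q hq
      rw [integral_indicator_const _ (measurableSet_toMeasurable _ _), smul_eq_mul, mul_one, measureReal_def, measure_toMeasurable,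
        ← measureReal_def]
      exact hbq q hq
    refine (Finset.sum_le_sum h4).trans ?_
    rw [Finset.sum_const, card_range, nsmul_eq_mul]
  have hmk := mul_meas_ge_le_integral_of_nonneg (μ := μ) (f := Z) (ae_of_all _ fun ω => by
    rw [hZ]
    exact Finset.sum_nonneg fun q _ => Set.indicator_nonneg (fun _ _ => zero_le_one) ω) (by
    rw [hZ]
    exact integrable_finset_sum _ fun q _ => hZint q) (ε / 2 * N / R)
  have hsub : {ω | ¬ ∀ (w : Fin L → Fin 6) (j : ℤ), |j| ≤ J →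
      |(((range N).filter fun t => Shows (F^[t] (x ω)) w j).card : ℝ) - N / 6 ^ L| ≤ ε * N} ⊆ {ω | ε / 2 * N / R ≤ Z ω} := by
    intro ω hω
    by_contra hcon
    rw [Set.mem_ofPred_eq, not_le, lt_div_iff₀ hR0] at hcon
    apply hω
    intro w j hj
    obtain ⟨p, hp⟩ : ∃ p : ℝ, p = 1 / 6 ^ L := ⟨_, rfl⟩
    have hp0 : 0 ≤ p := by rw [hp]; positivity
    have hp1 : p ≤ 1 := by
      rw [hp, div_le_one (by positivity)]
      exact one_le_pow₀ (by norm_num)
    obtain ⟨g, hg⟩ : ∃ g : ℕ → ℝ, g = fun t => (if Shows (F^[t] (x ω)) w j then (1 : ℝ) else 0) - p := ⟨_, rfl⟩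
    have hg1 : ∀ t, |g t| ≤ 1 := by
      intro t
      rw [hg]
      simp only
      split_ifs
      · rw [abs_of_nonneg (by linarith)]
        linarith
      · rw [abs_of_nonpos (by linarith)]
        linarith
    have hsum : ∀ (M s : ℕ), ∑ t ∈ range M, g (s + t) =
        (((range M).filter fun t => Shows (F^[s + t] (x ω)) w j).card : ℝ) - M / 6 ^ L := by
      intro M s
      rw [hg]
      simp only
      rw [Finset.sum_sub_distrib, Finset.sum_const, card_range, nsmul_eq_mul, Finset.card_filter, hp]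
      push_cast
      congr 1
      ring
    have h5 := blocks g hg1 n₀ R Q r
    rw [← hNQ] at h5
    have h6 := hsum N 0
    simp only [zero_add] at h6
    rw [← h6]
    have h7 : ∀ q ∈ range Q, |∑ t ∈ range R, g (n₀ + q * R + t)| ≤
        ε' * R + R * (toMeasurable μ (bad q)).indicator (fun _ => (1 : ℝ)) ω := by
      intro q hq
      by_cases hωq : ω ∈ toMeasurable μ (bad q)
      · rw [Set.indicator_of_mem hωq, mul_one]
        have h8 : |∑ t ∈ range R, g (n₀ + q * R + t)| ≤ R := by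
          refine (Finset.abs_sum_le_sum_abs _ _).trans ?_
          refine (Finset.sum_le_sum fun t _ => hg1 _).trans ?_
          rw [Finset.sum_const, card_range, nsmul_eq_mul, mul_one]
        have h9 : 0 ≤ ε' * R := by positivity
        linarith
      · rw [Set.indicator_of_notMem hωq, mul_zero, add_zero, hsum]
        have h8 : ω ∉ bad q := fun h => hωq (subset_toMeasurable _ _ h)
        rw [hbad] at h8
        simp only [Set.mem_ofPred_eq, not_not] at h8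
        exact h8 w j hj
    have h8 : ∑ q ∈ range Q, |∑ t ∈ range R, g (n₀ + q * R + t)| ≤ Q * (ε' * R) + R * Z ω := by
      refine (Finset.sum_le_sum h7).trans (le_of_eq ?_)
      rw [Finset.sum_add_distrib, Finset.sum_const, card_range, nsmul_eq_mul, ← Finset.mul_sum, hZ]
    have h9 : (Q : ℝ) * (ε' * R) ≤ ε / 4 * N := by
      calc (Q : ℝ) * (ε' * R) = ε' * (Q * R) := by ring
        _ ≤ ε / 4 * N := mul_le_mul hε'1 hQR (by positivity) (by positivity)
    have h10 : (r : ℝ) ≤ R := by exact_mod_cast hrR.le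
    have h11 : R * Z ω ≤ ε / 2 * N := by linarith
    linarith
  refine (measureReal_mono hsub (measure_ne_top _ _)).trans ?_
  have h4 : ε / 2 * N / R * μ.real {ω | ε / 2 * N / R ≤ Z ω} ≤ ε / 2 * N / R * ε := by
    refine hmk.trans (hZi.trans ?_)
    have h5 : ε / 2 * N / R * ε = (2 * (ε * ε / 4)) * (N / R) := by ring
    rw [h5]
    have h6 : (Q : ℝ) ≤ N / R := by
      rw [le_div_iff₀ hR0]
      exact hQR
    have h7 : (Q : ℝ) * ε' ≤ N / R * (ε * ε / 4) := mul_le_mul h6 hε'2 hε'0.le (by positivity)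
    have h8 : 0 ≤ (N : ℝ) / R * (ε * ε / 4) := by positivity
    linarith
  exact le_of_mul_le_mul_left h4 (by positivity)

open Classical in
/-- the law of large numbers, counting -/
theorem count_lln (L J : ℕ) {a b ε : ℝ} (ha : -1 < a) (ha0 : a ≤ 0) (hb0 : 0 ≤ b) (hab : a < b) (hb : b < kap)
    (hε : 0 < ε) : ∀ᶠ N : ℕ in atTop, ∀ (W : Finset ℤ) (A : ℤ → Finset (Fin 6)) (y : Conf), (∀ i ∈ W, (A i).Nonempty) →
    (∀ i : ℤ, a * N ≤ i → i ≤ b * N → i ∈ W ∧ 2 ≤ (A i).card) →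
    ({x ∈ Fam W A y | ¬ ∀ (w : Fin L → Fin 6) (j : ℤ), |j| ≤ J →
      |(((range N).filter fun t => Shows (F^[t] x) w j).card : ℝ) - N / 6 ^ L| ≤ ε * N}.ncard : ℝ) ≤ ε * (Fam W A y).ncard := by
  filter_upwards [lln L J (c := 1 / 2) (by norm_num) ha ha0 hb0 hab hb hε] with N hN W A y hA h
  exact few_of_real hA y (fun x => ¬ ∀ (w : Fin L → Fin 6) (j : ℤ), |j| ≤ J →
      |(((range N).filter fun t => Shows (F^[t] x) w j).card : ℝ) - N / 6 ^ L| ≤ ε * N) (hN _ (um A) (rc W y) (law_um h))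

open Classical in
/-- frequencies in blocks of times, counting -/
theorem count_block (L J : ℕ) {a b ε : ℝ} (ha : -1 < a) (hab : a < b) (hb : b < kap) (hε : 0 < ε) :
    ∃ R₀ : ℕ, ∀ R : ℕ, R₀ ≤ R → ∀ᶠ n : ℕ in atTop, ∀ (W : Finset ℤ) (A : ℤ → Finset (Fin 6)) (y : Conf),
    (∀ i ∈ W, (A i).Nonempty) → (∀ i : ℤ, a * n ≤ i → i ≤ b * n → i ∈ W ∧ 2 ≤ (A i).card) →
    ({x ∈ Fam W A y | ¬ ∀ (w : Fin L → Fin 6) (j : ℤ), |j| ≤ J →
      |(((range R).filter fun t => Shows (F^[n + t] x) w j).card : ℝ) - R / 6 ^ L| ≤ ε * R}.ncard : ℝ) ≤ ε * (Fam W A y).ncard := by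
  obtain ⟨R₀, h⟩ := block_freq L J (c := 1 / 2) (by norm_num) ha hab hb hε
  refine ⟨R₀, fun R hR => ?_⟩
  filter_upwards [h R hR] with n hn W A y hA h
  exact few_of_real hA y (fun x => ¬ ∀ (w : Fin L → Fin 6) (j : ℤ), |j| ≤ J →
      |(((range R).filter fun t => Shows (F^[n + t] x) w j).card : ℝ) - R / 6 ^ L| ≤ ε * R) (hn _ (um A) (rc W y) (law_um h))

end Pool.Agent.J4H40.Rd
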