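import Pool.Agent.J4H40.Ff

set_option autoImplicit false

/-! The leading digits of the powers of `3/2`. -/

namespace Pool.Agent.J4H40.Rd

open Finset Filter Topology
open Pool.Agent.J4H75.PN (ee norm_ee ee_add Cond uweyl)
open Pool.Agent.J4H40.Ca (dn dn_nn)
open Pool.Agent.J4H78.TS (kap kap_pos kap_lt_one)

lemma pow_kap (n : ℕ) : (6 : ℝ) ^ (kap * n) = (3 / 2) ^ n := by
  rw [Real.rpow_mul (by norm_num), Real.rpow_natCast]
  congr 1
  unfold kap
  rw [Real.rpow_def_of_pos (by norm_num)]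
  have h6 : Real.log 6 ≠ 0 := (Real.log_pos (by norm_num)).ne'
  rw [mul_div_cancel₀ _ h6, Real.exp_log (by norm_num)]

theorem kap_irr : Irrational kap := by
  rintro ⟨r, hr⟩
  have h0 := kap_pos
  rw [← hr] at h0
  have hr0 : 0 < r := by exact_mod_cast h0
  have hnum : 0 < r.num := Rat.num_pos.2 hr0
  obtain ⟨p, hp⟩ := Int.eq_ofNat_of_zero_le hnum.le
  have hp0 : 0 < p := by omega
  have h1 : (r : ℝ) * r.den = p := by
    have : (r * r.den : ℚ) = r.num := Rat.mul_den_eq_num r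
    rw [hp] at this
    exact_mod_cast this
  have h2 := pow_kap r.den
  rw [← hr, h1, Real.rpow_natCast, div_pow, eq_div_iff (by positivity)] at h2
  have h3 : 6 ^ p * 2 ^ r.den = 3 ^ r.den := by exact_mod_cast h2
  have h4 : 2 ∣ 3 ^ r.den := by
    rw [← h3]
    exact Dvd.dvd.mul_right (dvd_pow (by norm_num) hp0.ne') _
  have h5 := Nat.Prime.dvd_of_dvd_pow Nat.prime_two h4
  omega

lemma ee_nat (t : ℝ) (n : ℕ) : ee (n * t) = ee t ^ n := by
  induction n with
  | zero => simp [ee]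
  | succ n ih =>
    rw [pow_succ, ← ih, ← ee_add]
    congr 1
    push_cast
    ring

lemma ee_ne_one {t : ℝ} (ht : Irrational t) : ee t ≠ 1 := by
  unfold ee
  rw [Ne, Complex.exp_eq_one_iff]
  rintro ⟨n, hn⟩
  have h1 : (t : ℂ) = n := by
    have h2 : (2 * Real.pi * Complex.I : ℂ) ≠ 0 := Complex.two_pi_I_ne_zero
    have h3 : (t : ℂ) * (2 * Real.pi * Complex.I) = n * (2 * Real.pi * Complex.I) := by
      rw [← hn]
      ring
    exact mul_right_cancel₀ h2 h3
  exact ht ⟨n, by exact_mod_cast h1.symm⟩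

/-- exponential sums of an irrational rotation -/
lemma rot_cond {κ : ℝ} (hκ : Irrational κ) (K : ℕ) : ∀ᶠ N : ℕ in atTop, Cond K (range N) (fun n (_ : Fin 1) => κ * n) := by
  have h : ∀ᶠ N : ℕ in atTop, ∀ k ∈ Icc (-(K : ℤ)) K, k ≠ 0 → K * ‖∑ n ∈ range N, ee (k * κ * n)‖ ≤ N := by
    rw [Filter.eventually_all_finset]
    intro k _
    by_cases hk : k = 0
    · exact Eventually.of_forall fun N h => absurd hk h
    · have h1 : Irrational (k * κ) := hκ.intCast_mul hk
      have h2 : 0 < ‖ee (k * κ) - 1‖ := norm_pos_iff.2 (sub_ne_zero.2 (ee_ne_one h1))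
      have ht : ∀ᶠ N : ℕ in atTop, (K : ℝ) * (2 / ‖ee (k * κ) - 1‖) ≤ N := tendsto_natCast_atTop_atTop.eventually_ge_atTop _
      filter_upwards [ht] with N hN _
      refine le_trans ?_ hN
      apply mul_le_mul_of_nonneg_left _ (Nat.cast_nonneg K)
      have h3 : ∀ n ∈ range N, ee (k * κ * n) = ee (k * κ) ^ n := fun n _ => by
        rw [← ee_nat]
        congr 1
        ring
      rw [Finset.sum_congr rfl h3, geom_sum_eq (ee_ne_one h1), norm_div]
      apply div_le_div_of_nonneg_right _ h2.le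
      refine (norm_sub_le _ _).trans ?_
      rw [norm_pow, norm_ee, one_pow, norm_one]
      norm_num
  filter_upwards [h] with N hN u hu huK
  have hu0 : u 0 ≠ 0 := by
    intro h0
    apply hu
    funext i
    rw [Subsingleton.elim i 0, h0]
    rfl
  have h1 := hN (u 0) (Finset.mem_Icc.2 (abs_le.1 (huK 0))) hu0
  rw [card_range]
  refine le_trans (le_of_eq ?_) h1
  congr 2
  refine Finset.sum_congr rfl fun k _ => ?_
  congr 1
  simp only [Finset.univ_unique, Fin.default_eq_zero, Finset.sum_singleton]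
  ring

open Classical in
lemma arc_count {κ : ℝ} (hκ : Irrational κ) {δ : ℝ} (hδ : 0 < δ) : ∀ᶠ N : ℕ in atTop, ∀ a b : ℝ, 0 ≤ a → a ≤ b → b ≤ 1 →
    (((range N).filter fun n : ℕ => a ≤ Int.fract (κ * n) ∧ Int.fract (κ * n) < b).card : ℝ) ≤ (b - a + δ) * N := by
  obtain ⟨K, -, hK⟩ := uweyl 1 δ hδ
  filter_upwards [rot_cond hκ K] with N hN a b ha hab hb
  have h4 := hK (range N) _ hN (fun _ => a) (fun _ => b) (fun _ => ha) (fun _ => hab) (fun _ => hb)
  rw [card_range] at h4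
  have h5 : ∏ i : Fin 1, (b - a) = b - a := by
    simp only [Finset.prod_const, card_univ, Fintype.card_fin, pow_one]
  rw [h5] at h4
  have h6 : Pool.Agent.J4H75.PN.box (range N) (fun n (_ : Fin 1) => κ * n) (fun _ => a) (fun _ => b) =
      (range N).filter fun n : ℕ => a ≤ Int.fract (κ * n) ∧ Int.fract (κ * n) < b := by
    unfold Pool.Agent.J4H75.PN.box
    ext t
    rw [Finset.mem_filter, Finset.mem_filter]
    exact ⟨fun h => ⟨h.1, h.2 0⟩, fun h => ⟨h.1, fun _ => h.2⟩⟩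
  rw [h6] at h4
  have h7 := (abs_le.1 h4).2
  linarith

open Classical in
/-- few `n` with `U 6 ^ {κ n}` near an integer -/
lemma near_count {κ : ℝ} (hκ : Irrational κ) {U τ δ : ℝ} (hτ0 : 0 < τ) (hτ : τ ≤ 1 / 2) (hτU : τ ≤ U) (hδ : 0 < δ) :
    ∀ᶠ N : ℕ in atTop, (((range N).filter fun n : ℕ => dn (U * (6 : ℝ) ^ (Int.fract (κ * n))) < τ).card : ℝ) ≤
      (4 * τ * (1 + Real.log (6 * U + 1)) + δ) * N := by
  have hU : 0 < U := lt_of_lt_of_le hτ0 hτU
  obtain ⟨Z, hZ⟩ : ∃ Z : ℕ, Z = ⌊6 * U + 1⌋₊ := ⟨_, rfl⟩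
  have hZ1 : (Z : ℝ) ≤ 6 * U + 1 := by rw [hZ]; exact Nat.floor_le (by positivity)
  have hZ2 : 6 * U + 1 < Z + 1 := by rw [hZ]; exact Nat.lt_floor_add_one _
  have hZ0 : 1 ≤ Z := by
    rw [hZ, Nat.one_le_floor_iff]
    linarith
  have hZ0' : (1 : ℝ) ≤ Z := by exact_mod_cast hZ0
  have hl6 : 1 ≤ Real.log 6 := by
    rw [Real.le_log_iff_exp_le (by norm_num)]
    have := Real.exp_one_lt_d9
    linarith
  filter_upwards [arc_count hκ (δ := δ / Z) (by positivity)] with N hN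
  obtain ⟨cl, hcl⟩ : ∃ cl : ℝ → ℝ, cl = fun t => max 0 (min 1 t) := ⟨_, rfl⟩
  have hcl0 : ∀ t, 0 ≤ cl t := fun t => by rw [hcl]; exact le_max_left _ _
  have hcl1 : ∀ t, cl t ≤ 1 := fun t => by rw [hcl]; exact max_le zero_le_one (min_le_left _ _)
  have hclm : ∀ s t, s ≤ t → cl s ≤ cl t := fun s t h => by rw [hcl]; exact max_le_max le_rfl (min_le_min le_rfl h)
  have hcll : ∀ s t, s ≤ t → cl t - cl s ≤ t - s := by
    intro s t h
    rw [hcl]
    simp only
    rcases le_total 1 t with h1 | h1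
    · rcases le_total 1 s with h2 | h2
      · rw [min_eq_left h1, min_eq_left h2]
        linarith
      · rw [min_eq_left h1, min_eq_right h2, max_eq_right zero_le_one]
        have := le_max_right 0 s
        linarith
    · rw [min_eq_right h1, min_eq_right (h.trans h1)]
      rcases le_total 0 t with h2 | h2
      · rw [max_eq_right h2]
        have := le_max_right 0 s
        linarith
      · rw [max_eq_left h2, max_eq_left (h.trans h2)]
        linarith
  have harc : ∀ z ∈ range Z, (((range N).filter fun n : ℕ => cl (Real.logb 6 (((z : ℝ) + 1 - τ) / U)) ≤ Int.fract (κ * n) ∧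
      Int.fract (κ * n) < cl (Real.logb 6 (((z : ℝ) + 1 + τ) / U))).card : ℝ) ≤ (4 * τ * ((z : ℝ) + 1)⁻¹ + δ / Z) * N := by
    intro z hz
    have hz0 : (0 : ℝ) ≤ z := Nat.cast_nonneg z
    have hm : Real.logb 6 (((z : ℝ) + 1 - τ) / U) ≤ Real.logb 6 (((z : ℝ) + 1 + τ) / U) := by
      apply Real.logb_le_logb_of_le (by norm_num) (div_pos (by linarith) hU)
      gcongr
      linarith
    refine (hN _ _ (hcl0 _) (hclm _ _ hm) (hcl1 _)).trans ?_
    apply mul_le_mul_of_nonneg_right _ (Nat.cast_nonneg N)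
    have h1 := hcll _ _ hm
    have h2 : Real.logb 6 (((z : ℝ) + 1 + τ) / U) - Real.logb 6 (((z : ℝ) + 1 - τ) / U) ≤ 4 * τ * ((z : ℝ) + 1)⁻¹ := by
      have hp : 0 < (z : ℝ) + 1 - τ := by linarith
      have hq : 0 < (z : ℝ) + 1 + τ := by linarith
      rw [← Real.logb_div (by positivity) (by positivity), div_div_div_cancel_right₀ hU.ne']
      unfold Real.logb
      have h3 : Real.log (((z : ℝ) + 1 + τ) / ((z : ℝ) + 1 - τ)) ≤ ((z : ℝ) + 1 + τ) / ((z : ℝ) + 1 - τ) - 1 :=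
        Real.log_le_sub_one_of_pos (by positivity)
      have h4 : ((z : ℝ) + 1 + τ) / ((z : ℝ) + 1 - τ) - 1 ≤ 4 * τ * ((z : ℝ) + 1)⁻¹ := by
        rw [div_sub_one hp.ne', div_le_iff₀ hp, ← div_eq_mul_inv, div_mul_eq_mul_div, le_div_iff₀ (by positivity)]
        nlinarith
      have h5 : 0 ≤ 4 * τ * ((z : ℝ) + 1)⁻¹ := by positivity
      rw [div_le_iff₀ (by linarith)]
      nlinarith
    linarith
  have hsub : ((range N).filter fun n : ℕ => dn (U * (6 : ℝ) ^ (Int.fract (κ * n))) < τ) ⊆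
      (range Z).biUnion fun z => (range N).filter fun n : ℕ => cl (Real.logb 6 (((z : ℝ) + 1 - τ) / U)) ≤ Int.fract (κ * n) ∧
        Int.fract (κ * n) < cl (Real.logb 6 (((z : ℝ) + 1 + τ) / U)) := by
    intro n hn
    rw [Finset.mem_filter] at hn
    obtain ⟨hnN, hn1⟩ := hn
    obtain ⟨s, hs⟩ : ∃ s, s = Int.fract (κ * n) := ⟨_, rfl⟩
    have hs0 : 0 ≤ s := by rw [hs]; exact Int.fract_nonneg _
    have hs1 : s < 1 := by rw [hs]; exact Int.fract_lt_one _
    have h61 : (1 : ℝ) ≤ (6 : ℝ) ^ s := Real.one_le_rpow (by norm_num) hs0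
    have h62 : (6 : ℝ) ^ s < 6 := by
      have := Real.rpow_lt_rpow_of_exponent_lt (show (1 : ℝ) < 6 by norm_num) hs1
      rwa [Real.rpow_one] at this
    rw [← hs] at hn1
    unfold dn at hn1
    obtain ⟨w, hw⟩ : ∃ w : ℤ, w = round (U * (6 : ℝ) ^ s) := ⟨_, rfl⟩
    rw [← hw, abs_lt] at hn1
    have hUs : U ≤ U * (6 : ℝ) ^ s := le_mul_of_one_le_right hU.le h61
    have hw0 : (0 : ℝ) < w := by linarith
    have hw1 : 0 < w := by exact_mod_cast hw0
    obtain ⟨z, hz⟩ : ∃ z : ℕ, w = z + 1 := ⟨(w - 1).toNat, by omega⟩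
    rw [hz] at hn1 hw0
    push_cast at hn1 hw0
    have hzZ : z < Z := by
      have h1 : (z : ℝ) + 1 < Z + 1 := by nlinarith
      have h2 : (z : ℝ) < Z := by linarith
      exact_mod_cast h2
    rw [Finset.mem_biUnion]
    refine ⟨z, Finset.mem_range.2 hzZ, ?_⟩
    rw [Finset.mem_filter]
    refine ⟨hnN, ?_⟩
    rw [← hs]
    have hz0 : (0 : ℝ) ≤ z := Nat.cast_nonneg z
    have hA : Real.logb 6 (((z : ℝ) + 1 - τ) / U) < s := by
      rw [Real.logb_lt_iff_lt_rpow (by norm_num) (div_pos (by linarith) hU), div_lt_iff₀ hU]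
      linarith
    have hB : s < Real.logb 6 (((z : ℝ) + 1 + τ) / U) := by
      rw [Real.lt_logb_iff_rpow_lt (by norm_num) (div_pos (by linarith) hU), lt_div_iff₀ hU]
      linarith
    constructor
    · rw [hcl]
      exact max_le hs0 ((min_le_right _ _).trans hA.le)
    · rw [hcl]
      exact lt_of_lt_of_le (lt_min hs1 hB) (le_max_right _ _)
  have h1 := (Finset.card_le_card hsub).trans Finset.card_biUnion_le
  have h2 : (((range N).filter fun n : ℕ => dn (U * (6 : ℝ) ^ (Int.fract (κ * n))) < τ).card : ℝ) ≤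
      ∑ z ∈ range Z, (4 * τ * ((z : ℝ) + 1)⁻¹ + δ / Z) * N := by
    refine le_trans ?_ (Finset.sum_le_sum harc)
    exact_mod_cast h1
  refine h2.trans ?_
  rw [← Finset.sum_mul]
  apply mul_le_mul_of_nonneg_right _ (Nat.cast_nonneg N)
  rw [Finset.sum_add_distrib, Finset.sum_const, card_range, nsmul_eq_mul, ← Finset.mul_sum]
  have h3 : (Z : ℝ) * (δ / Z) = δ := by field_simp
  rw [h3]
  have h4 : ∑ z ∈ range Z, ((z : ℝ) + 1)⁻¹ ≤ 1 + Real.log (6 * U + 1) := by
    have h5 := harmonic_le_one_add_log Z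
    have h6 : ((harmonic Z : ℚ) : ℝ) = ∑ z ∈ range Z, ((z : ℝ) + 1)⁻¹ := by
      unfold harmonic
      push_cast
      rfl
    rw [h6] at h5
    refine h5.trans ?_
    have := Real.log_le_log (by linarith) hZ1
    linarith
  have h5 := mul_le_mul_of_nonneg_left h4 (show 0 ≤ 4 * τ by positivity)
  linarith

end Pool.Agent.J4H40.Rd
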