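import Pool.Agent.J4H40.Ga

set_option autoImplicit false

/-! Most powers of `3/2` have many good leading digits. -/

namespace Pool.Agent.J4H40.Rd

open Finset Filter Topology
open Pool.Agent.J4H40.Ca (dn dn_nn digit_pos)
open Pool.Agent.J4H78.TS (kap kap_pos kap_lt_one)

open Classical in
/-- few `n` without many good leading digits -/
lemma few_bad {u : ℝ} (hu : 0 < u) (I : ℕ) {δ : ℝ} (hδ : 0 < δ) : ∃ D : ℕ, ∀ᶠ N : ℕ in atTop,
    (((range N).filter fun n : ℕ => ((range D).filter fun l : ℕ =>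
      1 / 12 ≤ dn (u * (6 : ℝ) ^ (Int.fract (kap * n)) * 6 ^ l)).card < I).card : ℝ) ≤ δ * N := by
  have hI0 : (0 : ℝ) ≤ I := Nat.cast_nonneg I
  have hr0 : Tendsto (fun l : ℕ => (1 / 6 : ℝ) ^ l) atTop (𝓝 0) := tendsto_pow_atTop_nhds_zero_of_lt_one (by norm_num) (by norm_num)
  have hr1 : Tendsto (fun l : ℕ => (l : ℝ) * (1 / 6 : ℝ) ^ l) atTop (𝓝 0) :=
    tendsto_self_mul_const_pow_of_lt_one (by norm_num) (by norm_num)
  have hr2 : Tendsto (fun l : ℕ => I * 4 * ((1 + Real.log (6 * u + 1)) * (1 / 6 : ℝ) ^ l + 2 * I * ((l : ℝ) * (1 / 6 : ℝ) ^ l))) atTop (𝓝 0) := by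
    have h1 := ((hr0.const_mul (1 + Real.log (6 * u + 1))).add (hr1.const_mul (2 * (I : ℝ)))).const_mul ((I : ℝ) * 4)
    simpa using h1
  have e1 : ∀ᶠ l : ℕ in atTop, (1 / 6 : ℝ) ^ l < u := hr0.eventually_lt_const hu
  have e2 : ∀ᶠ l : ℕ in atTop, I * 4 * ((1 + Real.log (6 * u + 1)) * (1 / 6 : ℝ) ^ l + 2 * I * ((l : ℝ) * (1 / 6 : ℝ) ^ l)) < δ / 2 :=
    hr2.eventually_lt_const (by positivity)
  obtain ⟨l, hl1, hl2, hl3⟩ := (e1.and (e2.and (eventually_ge_atTop 1))).exists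
  refine ⟨I * l, ?_⟩
  have hτ0 : (0 : ℝ) < (1 / 6) ^ l := by positivity
  have hτ : (1 / 6 : ℝ) ^ l ≤ 1 / 2 := by
    calc (1 / 6 : ℝ) ^ l ≤ (1 / 6) ^ 1 := pow_le_pow_of_le_one (by norm_num) (by norm_num) hl3
      _ ≤ 1 / 2 := by norm_num
  have hU : ∀ k : ℕ, u ≤ u * 6 ^ (k * l) := fun k => le_mul_of_one_le_right hu.le (one_le_pow₀ (by norm_num))
  have hev : ∀ᶠ N : ℕ in atTop, ∀ k ∈ range I, (((range N).filter fun n : ℕ =>
      dn (u * 6 ^ (k * l) * (6 : ℝ) ^ (Int.fract (kap * n))) < (1 / 6) ^ l).card : ℝ) ≤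
      (4 * (1 / 6) ^ l * (1 + Real.log (6 * (u * 6 ^ (k * l)) + 1)) + δ / (2 * (I + 1))) * N := by
    rw [Filter.eventually_all_finset]
    intro k _
    exact near_count kap_irr hτ0 hτ (hl1.le.trans (hU k)) (by positivity)
  filter_upwards [hev] with N hN
  have hsub : ((range N).filter fun n : ℕ => ((range (I * l)).filter fun i : ℕ =>
      1 / 12 ≤ dn (u * (6 : ℝ) ^ (Int.fract (kap * n)) * 6 ^ i)).card < I) ⊆
      (range I).biUnion fun k => (range N).filter fun n : ℕ =>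
        dn (u * 6 ^ (k * l) * (6 : ℝ) ^ (Int.fract (kap * n))) < (1 / 6) ^ l := by
    intro n hn
    rw [Finset.mem_filter] at hn
    obtain ⟨hnN, hn1⟩ := hn
    by_contra hcon
    apply absurd hn1
    rw [not_lt]
    have h1 : ∀ k < I, ∃ t < l, 1 / 12 ≤ dn (u * (6 : ℝ) ^ (Int.fract (kap * n)) * 6 ^ (k * l + t)) := by
      intro k hk
      have h2 : (1 / 6) ^ l ≤ dn (u * 6 ^ (k * l) * (6 : ℝ) ^ (Int.fract (kap * n))) := by
        by_contra h3
        apply hcon
        rw [Finset.mem_biUnion]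
        exact ⟨k, Finset.mem_range.2 hk, Finset.mem_filter.2 ⟨hnN, not_le.1 h3⟩⟩
      obtain ⟨t, ht, h3⟩ := digit_pos (b := 6) (by norm_num) (u * 6 ^ (k * l) * (6 : ℝ) ^ (Int.fract (kap * n))) l (by
        rw [one_div_pow] at h2
        exact_mod_cast h2)
      refine ⟨t, ht, ?_⟩
      have e12 : (1 : ℝ) / (2 * ((6 : ℕ) : ℝ)) = 1 / 12 := by norm_num
      rw [e12] at h3
      refine h3.trans (le_of_eq ?_)
      congr 1
      push_cast
      rw [pow_add]
      ring
    choose! t ht1 ht2 using h1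
    have h3 : ((range I).image fun k => k * l + t k) ⊆ (range (I * l)).filter fun i : ℕ =>
        1 / 12 ≤ dn (u * (6 : ℝ) ^ (Int.fract (kap * n)) * 6 ^ i) := by
      intro i hi
      obtain ⟨k, hk, rfl⟩ := Finset.mem_image.1 hi
      have hk1 := Finset.mem_range.1 hk
      have h4 := ht1 k hk1
      have h5 : (k + 1) * l ≤ I * l := Nat.mul_le_mul_right _ hk1
      rw [add_mul, one_mul] at h5
      exact Finset.mem_filter.2 ⟨Finset.mem_range.2 (by omega), ht2 k hk1⟩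
    have h4 : ((range I).image fun k => k * l + t k).card = I := by
      rw [Finset.card_image_of_injOn, card_range]
      intro k hk k' hk' hkk
      have hk1 := Finset.mem_range.1 (Finset.mem_coe.1 hk)
      have hk2 := Finset.mem_range.1 (Finset.mem_coe.1 hk')
      simp only at hkk
      have h5 := ht1 k hk1
      have h6 := ht1 k' hk2
      have h7 : (k * l + t k) / l = k := by
        rw [mul_comm, Nat.mul_add_div (by omega), Nat.div_eq_of_lt h5, add_zero]
      have h8 : (k' * l + t k') / l = k' := by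
        rw [mul_comm, Nat.mul_add_div (by omega), Nat.div_eq_of_lt h6, add_zero]
      rw [← h7, hkk, h8]
    calc I = ((range I).image fun k => k * l + t k).card := h4.symm
      _ ≤ _ := Finset.card_le_card h3
  have h1 := (Finset.card_le_card hsub).trans Finset.card_biUnion_le
  have h2 : (((range N).filter fun n : ℕ => ((range (I * l)).filter fun i : ℕ =>
      1 / 12 ≤ dn (u * (6 : ℝ) ^ (Int.fract (kap * n)) * 6 ^ i)).card < I).card : ℝ) ≤
      ∑ k ∈ range I, (4 * (1 / 6) ^ l * (1 + Real.log (6 * (u * 6 ^ (k * l)) + 1)) + δ / (2 * (I + 1))) * N := by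
    refine le_trans ?_ (Finset.sum_le_sum hN)
    exact_mod_cast h1
  refine h2.trans ?_
  have hlog6 : Real.log 6 ≤ 2 := by
    rw [Real.log_le_iff_le_exp (by norm_num)]
    have h3 := Real.exp_one_gt_d9
    have h4 : Real.exp 2 = Real.exp 1 * Real.exp 1 := by rw [← Real.exp_add]; norm_num
    rw [h4]
    nlinarith
  have h3 : ∀ k ∈ range I, (4 * (1 / 6) ^ l * (1 + Real.log (6 * (u * 6 ^ (k * l)) + 1)) + δ / (2 * (I + 1))) * N ≤
      (4 * ((1 + Real.log (6 * u + 1)) * (1 / 6) ^ l + 2 * I * ((l : ℝ) * (1 / 6) ^ l)) + δ / (2 * (I + 1))) * N := by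
    intro k hk
    have hk1 := Finset.mem_range.1 hk
    apply mul_le_mul_of_nonneg_right _ (Nat.cast_nonneg N)
    have h4 : Real.log (6 * (u * 6 ^ (k * l)) + 1) ≤ Real.log (6 * u + 1) + 2 * I * l := by
      have h5 : 6 * (u * 6 ^ (k * l)) + 1 ≤ (6 * u + 1) * 6 ^ (I * l) := by
        have h6 : (6 : ℝ) ^ (k * l) ≤ 6 ^ (I * l) := pow_le_pow_right₀ (by norm_num) (Nat.mul_le_mul_right _ hk1.le)
        have h7 : (1 : ℝ) ≤ 6 ^ (I * l) := one_le_pow₀ (by norm_num)
        nlinarith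
      have h6 := Real.log_le_log (by positivity) h5
      rw [Real.log_mul (by positivity) (by positivity), Real.log_pow] at h6
      push_cast at h6
      have h7 : (I : ℝ) * l * Real.log 6 ≤ I * l * 2 := mul_le_mul_of_nonneg_left hlog6 (by positivity)
      linarith
    have h5 := mul_le_mul_of_nonneg_left h4 (show (0 : ℝ) ≤ 4 * (1 / 6) ^ l by positivity)
    nlinarith
  refine (Finset.sum_le_sum h3).trans ?_
  rw [Finset.sum_const, card_range, nsmul_eq_mul, ← mul_assoc]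
  apply mul_le_mul_of_nonneg_right _ (Nat.cast_nonneg N)
  have h4 : (I : ℝ) * (δ / (2 * (I + 1))) ≤ δ / 2 := by
    rw [mul_div_assoc', div_le_div_iff₀ (by positivity) (by norm_num)]
    nlinarith
  have h5 : (I : ℝ) * (4 * ((1 + Real.log (6 * u + 1)) * (1 / 6) ^ l + 2 * I * ((l : ℝ) * (1 / 6) ^ l)) + δ / (2 * (I + 1))) =
      I * 4 * ((1 + Real.log (6 * u + 1)) * (1 / 6) ^ l + 2 * I * ((l : ℝ) * (1 / 6) ^ l)) + I * (δ / (2 * (I + 1))) := by ring
  rw [h5]
  linarith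

end Pool.Agent.J4H40.Rd
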