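import Pool.Agent.J4H40.Gb

set_option autoImplicit false

/-! Exponential moments of sums of functions of independent digits. -/

namespace Pool.Agent.J4H40.Rd

open MeasureTheory ProbabilityTheory Finset Filter Topology
open Pool.Agent.J4H75.PN (ee norm_ee ee_add)
open Pool.Agent.H429R2.Auto (Conf F IsFin Rep)

variable {Ω : Type} [MeasurableSpace Ω] {μ : Measure Ω} [IsProbabilityMeasure μ]

/-- functions of the digits at the positions in `A` -/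
def Dep (x : Ω → Conf) (A : Finset ℤ) (X : Ω → ℂ) : Prop := ∃ Φ : (A → Fin 6) → ℂ, ∀ ω, X ω = Φ (fun i => x ω i)

omit [MeasurableSpace Ω] in
lemma Dep.mono {x : Ω → Conf} {A B : Finset ℤ} (h : A ⊆ B) {X : Ω → ℂ} (hX : Dep x A X) : Dep x B X := by
  obtain ⟨Φ, hΦ⟩ := hX
  exact ⟨fun p => Φ (fun i => p ⟨i, h i.2⟩), hΦ⟩

omit [MeasurableSpace Ω] in
lemma Dep.mul {x : Ω → Conf} {A : Finset ℤ} {X Y : Ω → ℂ} (hX : Dep x A X) (hY : Dep x A Y) : Dep x A (fun ω => X ω * Y ω) := by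
  obtain ⟨Φ, hΦ⟩ := hX
  obtain ⟨Ψ, hΨ⟩ := hY
  exact ⟨fun p => Φ p * Ψ p, fun ω => by beta_reduce; rw [hΦ, hΨ]⟩

omit [MeasurableSpace Ω] in
lemma Dep.const {x : Ω → Conf} {A : Finset ℤ} (z : ℂ) : Dep x A (fun _ => z) := ⟨fun _ => z, fun _ => rfl⟩

omit [MeasurableSpace Ω] in
lemma Dep.comp {x : Ω → Conf} {A : Finset ℤ} (g : ℂ → ℂ) {X : Ω → ℂ} (hX : Dep x A X) : Dep x A (fun ω => g (X ω)) := by
  obtain ⟨Φ, hΦ⟩ := hX
  exact ⟨fun p => g (Φ p), fun ω => by beta_reduce; rw [hΦ]⟩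

lemma Dep.meas {x : Ω → Conf} (hx : ∀ i, Measurable fun ω => x ω i) {A : Finset ℤ} {X : Ω → ℂ} (hX : Dep x A X) : Measurable X := by
  obtain ⟨Φ, hΦ⟩ := hX
  have h1 : X = Φ ∘ (fun ω (i : A) => x ω i) := by
    funext ω
    exact hΦ ω
  rw [h1]
  exact (measurable_of_finite Φ).comp (measurable_pi_iff.2 fun i => hx i)

lemma Dep.int {x : Ω → Conf} (hx : ∀ i, Measurable fun ω => x ω i) {A : Finset ℤ} {X : Ω → ℂ} (hX : Dep x A X) : Integrable X μ := by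
  have hm := hX.meas hx
  obtain ⟨Φ, hΦ⟩ := hX
  refine Integrable.of_bound (C := ∑ v : (A → Fin 6), ‖Φ v‖) hm.aestronglyMeasurable (ae_of_all _ fun ω => ?_)
  rw [hΦ]
  exact Finset.single_le_sum (f := fun v => ‖Φ v‖) (fun v _ => norm_nonneg _) (Finset.mem_univ _)

lemma Dep.indep {x : Ω → Conf} (hx : ∀ i, Measurable fun ω => x ω i) (hi : iIndepFun (fun (i : ℤ) ω => x ω i) μ)
    {A B : Finset ℤ} (hAB : Disjoint A B) {X Y : Ω → ℂ} (hX : Dep x A X) (hY : Dep x B Y) :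
    ∫ ω, X ω * Y ω ∂μ = (∫ ω, X ω ∂μ) * ∫ ω, Y ω ∂μ := by
  have hmX := hX.meas hx
  have hmY := hY.meas hx
  obtain ⟨Φ, hΦ⟩ := hX
  obtain ⟨Ψ, hΨ⟩ := hY
  have h1 := hi.indepFun_finset A B hAB hx
  have h2 := h1.comp (measurable_of_finite Φ) (measurable_of_finite Ψ)
  have e1 : Φ ∘ (fun ω (i : A) => x ω i) = X := by
    funext ω
    exact (hΦ ω).symm
  have e2 : Ψ ∘ (fun ω (i : B) => x ω i) = Y := by
    funext ω
    exact (hΨ ω).symm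
  rw [e1, e2] at h2
  exact h2.integral_fun_mul_eq_mul_integral hmX.aestronglyMeasurable hmY.aestronglyMeasurable

omit [MeasurableSpace Ω] in
lemma Dep.ee_al (x : Ω → Conf) (A : Finset ℤ) (τ : ℝ) : Dep x A (fun ω => ee (τ * al A x ω)) := by
  refine ⟨fun p => ee (τ * ∑ i : A, ((p i : Fin 6) : ℕ) * (6 : ℝ) ^ (-(i : ℤ))), fun ω => ?_⟩
  unfold al
  beta_reduce
  rw [← Finset.sum_coe_sort A (fun i => ((x ω i : Fin 6) : ℕ) * (6 : ℝ) ^ (-i))]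

/-- the partial products -/
noncomputable def PX (lam : ℝ) (ζ : ℕ → ℂ) (U V : ℕ → Ω → ℂ) (Q : ℕ) (ω : Ω) : ℝ :=
  ∏ q ∈ range Q, (1 + lam * (ζ q * (U q ω * V q ω)).re)

omit [MeasurableSpace Ω] in
lemma re_le {ζ u v : ℂ} (h1 : ‖ζ‖ ≤ 1) (h2 : ‖u‖ ≤ 1) (h3 : ‖v‖ ≤ 1) : |(ζ * (u * v)).re| ≤ 1 := by
  refine (Complex.abs_re_le_norm _).trans ?_
  rw [norm_mul, norm_mul]
  have h4 : ‖u‖ * ‖v‖ ≤ 1 := mul_le_one₀ h2 (norm_nonneg _) h3
  exact mul_le_one₀ h1 (by positivity) h4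

omit [MeasurableSpace Ω] in
lemma PX_nonneg {lam : ℝ} (h0 : 0 ≤ lam) (h1 : lam ≤ 1) {ζ : ℕ → ℂ} (hζ : ∀ q, ‖ζ q‖ ≤ 1) {U V : ℕ → Ω → ℂ}
    (hU1 : ∀ q ω, ‖U q ω‖ ≤ 1) (hV1 : ∀ q ω, ‖V q ω‖ ≤ 1) (Q : ℕ) (ω : Ω) : 0 ≤ PX lam ζ U V Q ω := by
  unfold PX
  refine Finset.prod_nonneg fun q _ => ?_
  have h2 := (abs_le.1 (re_le (hζ q) (hU1 q ω) (hV1 q ω))).1
  nlinarith

omit [MeasurableSpace Ω] in
lemma PX_dep {x : Ω → Conf} (lam : ℝ) (ζ : ℕ → ℂ) {U V : ℕ → Ω → ℂ} {A B : ℕ → Finset ℤ} (hU : ∀ q, Dep x (A q) (U q))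
    (hV : ∀ q, Dep x (B q) (V q)) (hsub : ∀ q q', q < q' → A q ∪ B q ⊆ A q') (Q k : ℕ) (hk : k ≤ Q) :
    Dep x (A Q) (fun ω => ((PX lam ζ U V k ω : ℝ) : ℂ)) := by
  induction k with
  | zero =>
    have : (fun ω => ((PX lam ζ U V 0 ω : ℝ) : ℂ)) = fun _ => (1 : ℂ) := by
      funext ω
      simp [PX]
    rw [this]
    exact Dep.const 1
  | succ k ih =>
    have h1 := ih (by omega)
    have h2 := hsub k Q (by omega)
    have h3 : Dep x (A Q) (U k) := (hU k).mono (Finset.union_subset_left h2)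
    have h4 : Dep x (A Q) (V k) := (hV k).mono (Finset.union_subset_right h2)
    have h5 := (h3.mul h4).comp (fun z => ((1 + lam * (ζ k * z).re : ℝ) : ℂ))
    refine (h1.mul h5).comp id |>.imp fun Φ hΦ ω => ?_
    rw [← hΦ ω]
    simp only [id]
    unfold PX
    rw [Finset.prod_range_succ]
    push_cast
    rfl

/-- **The exponential moment.** -/
theorem mgf {x : Ω → Conf} (hx : ∀ i, Measurable fun ω => x ω i) (hi : iIndepFun (fun (i : ℤ) ω => x ω i) μ)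
    {A B : ℕ → Finset ℤ} {U V : ℕ → Ω → ℂ} (hAB : ∀ q, Disjoint (A q) (B q)) (hU : ∀ q, Dep x (A q) (U q))
    (hV : ∀ q, Dep x (B q) (V q)) (hU1 : ∀ q ω, ‖U q ω‖ ≤ 1) (hV1 : ∀ q ω, ‖V q ω‖ ≤ 1)
    (hsub : ∀ q q', q < q' → A q ∪ B q ⊆ A q') {ζ : ℕ → ℂ} (hζ : ∀ q, ‖ζ q‖ ≤ 1) {η : ℝ} (hη : 0 ≤ η)
    (hE : ∀ q, ζ q ≠ 0 → ‖∫ ω, V q ω ∂μ‖ ≤ η) {lam : ℝ} (h0 : 0 ≤ lam) (h1 : lam ≤ 1) (Q : ℕ) :
    ∫ ω, PX lam ζ U V Q ω ∂μ ≤ (1 + lam * η) ^ Q := by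
  induction Q with
  | zero => simp [PX]
  | succ Q ih =>
    have hD := PX_dep lam ζ hU hV hsub Q Q le_rfl
    have hXi : Integrable (PX lam ζ U V Q) μ := by
      have h2 : Integrable (fun ω => ((PX lam ζ U V Q ω : ℝ) : ℂ)) μ := hD.int hx
      simpa using h2.re
    have hnn := PX_nonneg h0 h1 hζ hU1 hV1 Q
    have hXU : Dep x (A Q) (fun ω => ((PX lam ζ U V Q ω : ℝ) : ℂ) * U Q ω) := hD.mul (hU Q)
    obtain ⟨G, hG⟩ : ∃ G : Ω → ℂ, G = fun ω => ζ Q * ((((PX lam ζ U V Q ω : ℝ) : ℂ) * U Q ω) * V Q ω) := ⟨_, rfl⟩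
    have hGi : Integrable G μ := by
      rw [hG]
      have h2 : Dep x (A Q ∪ B Q) (fun ω => (((PX lam ζ U V Q ω : ℝ) : ℂ) * U Q ω) * V Q ω) :=
        (hXU.mono Finset.subset_union_left).mul ((hV Q).mono Finset.subset_union_right)
      exact (h2.int hx).const_mul _
    have hstep : ∀ ω, PX lam ζ U V (Q + 1) ω = PX lam ζ U V Q ω + lam * (G ω).re := by
      intro ω
      have h2 : (G ω).re = PX lam ζ U V Q ω * (ζ Q * (U Q ω * V Q ω)).re := by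
        rw [hG]
        simp only
        have h3 : ζ Q * ((((PX lam ζ U V Q ω : ℝ) : ℂ) * U Q ω) * V Q ω) =
            ((PX lam ζ U V Q ω : ℝ) : ℂ) * (ζ Q * (U Q ω * V Q ω)) := by ring
        rw [h3, Complex.re_ofReal_mul]
      rw [h2]
      unfold PX
      rw [Finset.prod_range_succ]
      ring
    have hGr : Integrable (fun ω => (G ω).re) μ := hGi.re
    have hint : ∫ ω, PX lam ζ U V (Q + 1) ω ∂μ = ∫ ω, PX lam ζ U V Q ω ∂μ + lam * (∫ ω, G ω ∂μ).re := by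
      simp only [hstep]
      rw [integral_add hXi (hGr.const_mul lam), integral_const_mul]
      congr 2
      exact integral_re hGi
    have hGint : ∫ ω, G ω ∂μ = ζ Q * ((∫ ω, ((PX lam ζ U V Q ω : ℝ) : ℂ) * U Q ω ∂μ) * ∫ ω, V Q ω ∂μ) := by
      rw [hG, integral_const_mul, Dep.indep hx hi (hAB Q) hXU (hV Q)]
    have hPX0 : 0 ≤ ∫ ω, PX lam ζ U V Q ω ∂μ := integral_nonneg hnn
    have hb1 : ‖∫ ω, ((PX lam ζ U V Q ω : ℝ) : ℂ) * U Q ω ∂μ‖ ≤ ∫ ω, PX lam ζ U V Q ω ∂μ := by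
      refine (norm_integral_le_integral_norm _).trans ?_
      refine integral_mono (hXU.int hx).norm hXi fun ω => ?_
      simp only
      rw [norm_mul, Complex.norm_real, Real.norm_of_nonneg (hnn ω)]
      exact mul_le_of_le_one_right (hnn ω) (hU1 Q ω)
    have hb2 : (∫ ω, G ω ∂μ).re ≤ (∫ ω, PX lam ζ U V Q ω ∂μ) * η := by
      by_cases hz : ζ Q = 0
      · rw [hGint, hz, zero_mul, Complex.zero_re]
        positivity
      · refine (Complex.re_le_norm _).trans ?_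
        rw [hGint, norm_mul, norm_mul]
        refine (mul_le_of_le_one_left (by positivity) (hζ Q)).trans ?_
        exact mul_le_mul hb1 (hE Q hz) (norm_nonneg _) hPX0
    rw [hint, pow_succ]
    calc ∫ ω, PX lam ζ U V Q ω ∂μ + lam * (∫ ω, G ω ∂μ).re ≤ ∫ ω, PX lam ζ U V Q ω ∂μ + lam * ((∫ ω, PX lam ζ U V Q ω ∂μ) * η) := by
          have := mul_le_mul_of_nonneg_left hb2 h0
          linarith
      _ = (∫ ω, PX lam ζ U V Q ω ∂μ) * (1 + lam * η) := by ring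
      _ ≤ (1 + lam * η) ^ Q * (1 + lam * η) := mul_le_mul_of_nonneg_right ih (by positivity)

lemma exp_le {y : ℝ} (h : -(1 / 2) ≤ y) : Real.exp (y - 2 * y ^ 2) ≤ 1 + y := by
  have h1 : 0 < 1 + y := by linarith
  rw [← Real.le_log_iff_exp_le h1]
  have h2 := Real.one_sub_inv_le_log_of_pos h1
  refine le_trans ?_ h2
  have h3 : 1 - (1 + y)⁻¹ - (y - 2 * y ^ 2) = y ^ 2 * (1 + 2 * y) / (1 + y) := by
    field_simp
    ring
  have h4 : 0 ≤ y ^ 2 * (1 + 2 * y) / (1 + y) := div_nonneg (mul_nonneg (sq_nonneg y) (by linarith)) h1.le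
  linarith

/-- **The large deviation inequality.** -/
theorem tail {x : Ω → Conf} (hx : ∀ i, Measurable fun ω => x ω i) (hi : iIndepFun (fun (i : ℤ) ω => x ω i) μ)
    {A B : ℕ → Finset ℤ} {U V : ℕ → Ω → ℂ} (hAB : ∀ q, Disjoint (A q) (B q)) (hU : ∀ q, Dep x (A q) (U q))
    (hV : ∀ q, Dep x (B q) (V q)) (hU1 : ∀ q ω, ‖U q ω‖ ≤ 1) (hV1 : ∀ q ω, ‖V q ω‖ ≤ 1)
    (hsub : ∀ q q', q < q' → A q ∪ B q ⊆ A q') {ζ : ℕ → ℂ} (hζ : ∀ q, ‖ζ q‖ ≤ 1) {η : ℝ} (hη : 0 ≤ η)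
    (hE : ∀ q, ζ q ≠ 0 → ‖∫ ω, V q ω ∂μ‖ ≤ η) {lam : ℝ} (h0 : 0 ≤ lam) (h1 : lam ≤ 1 / 2) (T : ℝ) (Q : ℕ) :
    μ.real {ω | T ≤ ∑ q ∈ range Q, (ζ q * (U q ω * V q ω)).re} ≤ Real.exp (-(lam * T) + (2 * lam ^ 2 + lam * η) * Q) := by
  have h1' : lam ≤ 1 := by linarith
  have hm := mgf hx hi hAB hU hV hU1 hV1 hsub hζ hη hE h0 h1' Q
  have hD := PX_dep lam ζ hU hV hsub Q Q le_rfl
  have hXi : Integrable (PX lam ζ U V Q) μ := by
    have h2 : Integrable (fun ω => ((PX lam ζ U V Q ω : ℝ) : ℂ)) μ := hD.int hx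
    simpa using h2.re
  have hnn := PX_nonneg h0 h1' hζ hU1 hV1 Q
  have hmk := mul_meas_ge_le_integral_of_nonneg (μ := μ) (f := PX lam ζ U V Q) (ae_of_all _ hnn) hXi (Real.exp (lam * T - 2 * lam ^ 2 * Q))
  have hsub2 : {ω | T ≤ ∑ q ∈ range Q, (ζ q * (U q ω * V q ω)).re} ⊆ {ω | Real.exp (lam * T - 2 * lam ^ 2 * Q) ≤ PX lam ζ U V Q ω} := by
    intro ω hω
    rw [Set.mem_ofPred_eq] at hω ⊢
    have h2 : Real.exp (∑ q ∈ range Q, (lam * (ζ q * (U q ω * V q ω)).re - 2 * lam ^ 2)) ≤ PX lam ζ U V Q ω := by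
      rw [Real.exp_sum]
      unfold PX
      refine Finset.prod_le_prod (fun q _ => (Real.exp_pos _).le) fun q _ => ?_
      have h3 := re_le (hζ q) (hU1 q ω) (hV1 q ω)
      have h4 := abs_le.1 h3
      refine le_trans ?_ (exp_le (y := lam * (ζ q * (U q ω * V q ω)).re) (by nlinarith))
      apply Real.exp_le_exp.2
      have h5 : (ζ q * (U q ω * V q ω)).re ^ 2 ≤ 1 := by
        rw [← sq_abs]
        exact pow_le_one₀ (abs_nonneg _) h3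
      rw [mul_pow]
      nlinarith [sq_nonneg lam]
    refine le_trans (Real.exp_le_exp.2 ?_) h2
    rw [Finset.sum_sub_distrib, Finset.sum_const, card_range, nsmul_eq_mul, ← Finset.mul_sum]
    have h3 := mul_le_mul_of_nonneg_left hω h0
    linarith
  have h2 : μ.real {ω | T ≤ ∑ q ∈ range Q, (ζ q * (U q ω * V q ω)).re} ≤
      μ.real {ω | Real.exp (lam * T - 2 * lam ^ 2 * Q) ≤ PX lam ζ U V Q ω} := measureReal_mono hsub2 (measure_ne_top _ _)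
  have h3 : (1 + lam * η) ^ Q ≤ Real.exp (lam * η * Q) := by
    have h4 := Real.add_one_le_exp (lam * η)
    calc (1 + lam * η) ^ Q ≤ Real.exp (lam * η) ^ Q := pow_le_pow_left₀ (by positivity) (by linarith) Q
      _ = Real.exp (lam * η * Q) := by rw [← Real.exp_nat_mul]; congr 1; ring
  have h4 : Real.exp (lam * T - 2 * lam ^ 2 * Q) * μ.real {ω | T ≤ ∑ q ∈ range Q, (ζ q * (U q ω * V q ω)).re} ≤
      Real.exp (lam * η * Q) :=
    (mul_le_mul_of_nonneg_left h2 (Real.exp_pos _).le).trans (hmk.trans (hm.trans h3))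
  have h5 : Real.exp (lam * η * Q) = Real.exp (lam * T - 2 * lam ^ 2 * Q) *
      Real.exp (-(lam * T) + (2 * lam ^ 2 + lam * η) * Q) := by
    rw [← Real.exp_add]
    congr 1
    ring
  rw [h5] at h4
  exact le_of_mul_le_mul_left h4 (Real.exp_pos _)

end Pool.Agent.J4H40.Rd
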