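import Pool.Agent.J4H40.Gc

set_option autoImplicit false

/-! Exponential sums over sets of times: large deviations. -/

namespace Pool.Agent.J4H40.Rd

open MeasureTheory ProbabilityTheory Finset Filter Topology
open Pool.Agent.J4H75.PN (ee norm_ee ee_add)
open Pool.Agent.J4H40.Ca (dn dn_nn dn_neg)
open Pool.Agent.H429R2.Auto (Conf F IsFin Rep)
open Pool.Agent.J4H78.TS (kap kap_pos kap_lt_one)

/-- the digits far to the right -/
lemma tail_sum (x : Conf) (R : Finset ℤ) (M : ℤ) (h : ∀ i ∈ R, M < i) :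
    ∑ i ∈ R, ((x i : Fin 6) : ℕ) * (6 : ℝ) ^ (-i) ≤ (6 : ℝ) ^ (-M) := by
  obtain ⟨k, hk⟩ : ∃ k : ℕ, k = R.sup fun i => (i - M).toNat := ⟨_, rfl⟩
  have hsub : R ⊆ (range k).image fun t : ℕ => M + 1 + t := by
    intro i hi
    have h1 : (i - M).toNat ≤ k := by
      rw [hk]
      exact Finset.le_sup (f := fun i : ℤ => (i - M).toNat) hi
    have h2 := h i hi
    exact Finset.mem_image.2 ⟨(i - M - 1).toNat, Finset.mem_range.2 (by omega), by omega⟩
  have h1 : ∑ i ∈ R, ((x i : Fin 6) : ℕ) * (6 : ℝ) ^ (-i) ≤ ∑ i ∈ R, 5 * (6 : ℝ) ^ (-i) := by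
    refine Finset.sum_le_sum fun i _ => mul_le_mul_of_nonneg_right ?_ (by positivity)
    have := (x i).isLt
    exact_mod_cast (by omega : ((x i : Fin 6) : ℕ) ≤ 5)
  have h2 : ∑ i ∈ R, 5 * (6 : ℝ) ^ (-i) ≤ ∑ i ∈ (range k).image (fun t : ℕ => M + 1 + t), 5 * (6 : ℝ) ^ (-i) :=
    Finset.sum_le_sum_of_subset_of_nonneg hsub fun i _ _ => by positivity
  have h3 : ∑ i ∈ (range k).image (fun t : ℕ => M + 1 + t), 5 * (6 : ℝ) ^ (-i) = ∑ t ∈ range k, 5 * (6 : ℝ) ^ (-(M + 1 + t)) := by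
    rw [Finset.sum_image]
    intro a _ b _ hab
    simp only at hab
    omega
  have h4 : ∀ k : ℕ, ∑ t ∈ range k, 5 * (6 : ℝ) ^ (-(M + 1 + t)) = (6 : ℝ) ^ (-M) - (6 : ℝ) ^ (-(M + k)) := by
    intro k
    induction k with
    | zero => simp
    | succ k ih =>
      rw [Finset.sum_range_succ, ih]
      have e1 : (6 : ℝ) ^ (-(M + k)) = 6 * (6 : ℝ) ^ (-(M + 1 + k)) := by
        rw [← zpow_one_add₀ (by norm_num)]
        congr 1
        ring
      have e2 : -(M + ((k + 1 : ℕ) : ℤ)) = -(M + 1 + k) := by push_cast; ring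
      rw [e1, e2]
      ring
  rw [h3, h4] at h2
  have h5 : (0 : ℝ) < (6 : ℝ) ^ (-(M + k)) := by positivity
  linarith

lemma ee_sub_one (y : ℝ) : ‖ee y - 1‖ ≤ 2 * Real.pi * |y| := by
  unfold ee
  have h1 : (2 * Real.pi * Complex.I * y : ℂ) = ((2 * Real.pi * y : ℝ) : ℂ) * Complex.I := by push_cast; ring
  rw [h1, mul_comm]
  refine (Real.norm_exp_I_mul_ofReal_sub_one_le (x := 2 * Real.pi * y)).trans (le_of_eq ?_)
  rw [Real.norm_eq_abs, abs_mul, abs_of_pos (by positivity)]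

variable {Ω : Type} [MeasurableSpace Ω] {μ : Measure Ω} [IsProbabilityMeasure μ]

/-- the characteristic function is small -/
lemma char_small {c : ℝ} (hc : 0 < c) {x : Ω → Conf} (hx : ∀ i, Measurable fun ω => x ω i)
    (hi : iIndepFun (fun (i : ℤ) ω => x ω i) μ) {s F : Finset ℤ} (hF : F ⊆ s) {τ : ℝ}
    (hnd : ∀ i ∈ F, ∀ v : Fin 6, μ.real {ω | x ω i = v} ≤ 1 - c) (hFd : ∀ i ∈ F, 1 / 12 ≤ dn (120 * τ * (6 : ℝ) ^ (-i))) :
    ‖∫ ω, ee (τ * al s x ω) ∂μ‖ ≤ rh c ^ F.card := by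
  rw [al_char hx hi, norm_prod, ← Finset.prod_sdiff hF]
  have h1 : ∀ i, ‖∫ ω, ee (τ * (6 : ℝ) ^ (-i) * (((x ω i : Fin 6) : ℕ) : ℝ)) ∂μ‖ ≤ 1 := by
    intro i
    refine (norm_integral_le_integral_norm _).trans ?_
    simp only [norm_ee]
    rw [integral_const, probReal_univ, one_smul]
  refine (mul_le_of_le_one_left (Finset.prod_nonneg fun j _ => norm_nonneg _)
    (Finset.prod_le_one (fun j _ => norm_nonneg _) fun j _ => h1 j)).trans ?_
  rw [← Finset.prod_const]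
  refine Finset.prod_le_prod (fun j _ => norm_nonneg _) fun j hj => ?_
  refine (digit_small (hx j) hc (hnd j hj) _).trans ?_
  have h3 := hFd j hj
  have h4 : 120 * (τ * (6 : ℝ) ^ (-j)) = 120 * τ * (6 : ℝ) ^ (-j) := by ring
  rw [h4]
  unfold rh
  have h5 : (1 / 12 : ℝ) ^ 2 ≤ dn (120 * τ * (6 : ℝ) ^ (-j)) ^ 2 := pow_le_pow_left₀ (by norm_num) h3 2
  have h6 : 4 * (c / 6) * (1 / 12) ^ 2 / 120 ^ 2 ≤ 4 * (c / 6) * dn (120 * τ * (6 : ℝ) ^ (-j)) ^ 2 / 120 ^ 2 := by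
    apply div_le_div_of_nonneg_right _ (by positivity)
    exact mul_le_mul_of_nonneg_left h5 (by positivity)
  linarith

/-- the multiplier -/
noncomputable def tn (h : ℤ) (j : ℤ) (n : ℕ) : ℝ := h * (6 : ℝ) ^ (j - 1) * (3 / 2) ^ n

/-- the leading position -/
noncomputable def mm (n : ℕ) : ℤ := ⌊kap * n⌋

lemma pow_mm (n : ℕ) : ((3 : ℝ) / 2) ^ n = (6 : ℝ) ^ (mm n) * (6 : ℝ) ^ (Int.fract (kap * n)) := by
  rw [← pow_kap, ← Real.rpow_intCast, ← Real.rpow_add (by norm_num)]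
  congr 1
  unfold mm
  exact (Int.floor_add_fract _).symm

/-- the three ranges of positions -/
noncomputable def PA (s : Finset ℤ) (D n : ℕ) : Finset ℤ := s.filter fun i => i ≤ mm n - D
noncomputable def PB (s : Finset ℤ) (C D n : ℕ) : Finset ℤ := s.filter fun i => mm n - D < i ∧ i ≤ mm n + C
noncomputable def PR (s : Finset ℤ) (C n : ℕ) : Finset ℤ := s.filter fun i => mm n + C < i

omit [MeasurableSpace Ω] in
lemma al_split (s : Finset ℤ) (C D n : ℕ) (x : Ω → Conf) (ω : Ω) :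
    al s x ω = al (PA s D n) x ω + al (PB s C D n) x ω + al (PR s C n) x ω := by
  unfold al PA PB PR
  rw [Finset.sum_filter, Finset.sum_filter, Finset.sum_filter, ← Finset.sum_add_distrib, ← Finset.sum_add_distrib]
  refine Finset.sum_congr rfl fun i _ => ?_
  by_cases h1 : i ≤ mm n - D
  · rw [if_pos h1, if_neg (by omega), if_neg (by omega), add_zero, add_zero]
  · by_cases h2 : i ≤ mm n + C
    · rw [if_neg h1, if_pos ⟨by omega, h2⟩, if_neg (by omega), add_zero, zero_add]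
    · rw [if_neg h1, if_neg (by omega), if_pos (by omega), add_zero, zero_add]

omit [MeasurableSpace Ω] in
/-- the digits to the right of the leading position do not matter -/
lemma approx (h : ℤ) (j : ℤ) (s : Finset ℤ) (C D n : ℕ) (x : Ω → Conf) (ω : Ω) :
    ‖ee (tn h j n * al s x ω) - ee (tn h j n * al (PA s D n) x ω) * ee (tn h j n * al (PB s C D n) x ω)‖ ≤
      2 * Real.pi * (|(h : ℝ)| * (6 : ℝ) ^ (j - 1) * 6 / 6 ^ C) := by
  rw [al_split s C D n, mul_add, mul_add, ee_add, ee_add]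
  have h1 : ee (tn h j n * al (PA s D n) x ω) * ee (tn h j n * al (PB s C D n) x ω) * ee (tn h j n * al (PR s C n) x ω) -
      ee (tn h j n * al (PA s D n) x ω) * ee (tn h j n * al (PB s C D n) x ω) =
      ee (tn h j n * al (PA s D n) x ω) * ee (tn h j n * al (PB s C D n) x ω) * (ee (tn h j n * al (PR s C n) x ω) - 1) := by ring
  rw [h1, norm_mul, norm_mul, norm_ee, norm_ee, one_mul, one_mul]
  refine (ee_sub_one _).trans ?_
  apply mul_le_mul_of_nonneg_left _ (by positivity)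
  have h2 : al (PR s C n) x ω ≤ (6 : ℝ) ^ (-(mm n + C)) := by
    unfold al
    apply tail_sum
    intro i hi
    unfold PR at hi
    exact (Finset.mem_filter.1 hi).2
  have h3 : 0 ≤ al (PR s C n) x ω := by
    unfold al
    exact Finset.sum_nonneg fun i _ => by positivity
  unfold tn
  rw [abs_mul, abs_mul, abs_mul, abs_of_nonneg h3, abs_of_pos (show (0 : ℝ) < (6 : ℝ) ^ (j - 1) by positivity),
    abs_of_pos (show (0 : ℝ) < (3 / 2) ^ n by positivity), pow_mm]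
  have h4 : (6 : ℝ) ^ (Int.fract (kap * n)) ≤ 6 := by
    have := Real.rpow_le_rpow_of_exponent_le (show (1 : ℝ) ≤ 6 by norm_num) (Int.fract_lt_one (kap * n)).le
    rwa [Real.rpow_one] at this
  have h5 : (6 : ℝ) ^ (-(mm n + C)) = (6 : ℝ) ^ (-(mm n)) / 6 ^ C := by
    rw [neg_add, zpow_add₀ (by norm_num), zpow_neg _ (C : ℤ), zpow_natCast]
    rfl
  rw [h5] at h2
  have h6 : (6 : ℝ) ^ (mm n) * (6 : ℝ) ^ (-(mm n)) = 1 := by
    rw [← zpow_add₀ (by norm_num), add_neg_cancel, zpow_zero]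
  calc |(h : ℝ)| * (6 : ℝ) ^ (j - 1) * ((6 : ℝ) ^ (mm n) * (6 : ℝ) ^ (Int.fract (kap * n))) * al (PR s C n) x ω
      ≤ |(h : ℝ)| * (6 : ℝ) ^ (j - 1) * ((6 : ℝ) ^ (mm n) * 6) * ((6 : ℝ) ^ (-(mm n)) / 6 ^ C) := by
        apply mul_le_mul _ h2 h3 (by positivity)
        apply mul_le_mul_of_nonneg_left _ (by positivity)
        exact mul_le_mul_of_nonneg_left h4 (by positivity)
    _ = |(h : ℝ)| * (6 : ℝ) ^ (j - 1) * 6 / 6 ^ C * ((6 : ℝ) ^ (mm n) * (6 : ℝ) ^ (-(mm n))) := by ring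
    _ = |(h : ℝ)| * (6 : ℝ) ^ (j - 1) * 6 / 6 ^ C := by rw [h6, mul_one]

open Classical in
/-- the times with many good leading digits -/
def Good (u : ℝ) (D I n : ℕ) : Prop :=
  I ≤ ((range D).filter fun l : ℕ => 1 / 12 ≤ dn (u * (6 : ℝ) ^ (Int.fract (kap * n)) * 6 ^ l)).card

open Classical in
/-- the middle factor has a small mean at the good times -/
lemma good_small {h : ℤ} (j : ℤ) {c : ℝ} (hc : 0 < c) (hc1 : c ≤ 1) {x : Ω → Conf} (hx : ∀ i, Measurable fun ω => x ω i)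
    (hi : iIndepFun (fun (i : ℤ) ω => x ω i) μ) {N : ℕ} (hnd : ∀ i : ℤ, 1 ≤ i → i ≤ kap * N → ∀ v : Fin 6, μ.real {ω | x ω i = v} ≤ 1 - c)
    {s : Finset ℤ} (hs : ∀ i : ℤ, 1 ≤ i → i ≤ kap * N → i ∈ s) {C D I n : ℕ} (hn : n < N) (hD : (D : ℤ) ≤ mm n)
    (hg : Good (120 * (|(h : ℝ)| * (6 : ℝ) ^ (j - 1))) D I n) :
    ‖∫ ω, ee (tn h j n * al (PB s C D n) x ω) ∂μ‖ ≤ rh c ^ I := by
  obtain ⟨G, hG⟩ : ∃ G : Finset ℕ, G = (range D).filter fun l : ℕ =>
    1 / 12 ≤ dn (120 * (|(h : ℝ)| * (6 : ℝ) ^ (j - 1)) * (6 : ℝ) ^ (Int.fract (kap * n)) * 6 ^ l) := ⟨_, rfl⟩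
  have hGI : I ≤ G.card := by rw [hG]; exact hg
  have hcard : (G.image fun l : ℕ => mm n - l).card = G.card := by
    apply Finset.card_image_of_injective
    intro a b hab
    simp only at hab
    omega
  have hlen : ∀ l ∈ G, 1 ≤ mm n - l ∧ ((mm n - l : ℤ) : ℝ) ≤ kap * N := by
    intro l hl
    rw [hG, Finset.mem_filter, Finset.mem_range] at hl
    constructor
    · omega
    · have h1 : ((mm n : ℤ) : ℝ) ≤ kap * n := by unfold mm; exact Int.floor_le _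
      have h2 : kap * n ≤ kap * N := mul_le_mul_of_nonneg_left (by exact_mod_cast hn.le) kap_pos.le
      push_cast
      have h3 : (0 : ℝ) ≤ l := Nat.cast_nonneg l
      linarith
  have h1 := char_small (s := PB s C D n) (F := G.image fun l : ℕ => mm n - l) (τ := tn h j n) hc hx hi (by
    intro i hi
    obtain ⟨l, hl, rfl⟩ := Finset.mem_image.1 hi
    have h2 := hlen l hl
    rw [hG, Finset.mem_filter, Finset.mem_range] at hl
    unfold PB
    exact Finset.mem_filter.2 ⟨hs _ h2.1 h2.2, by omega, by omega⟩) (by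
    intro i hi
    obtain ⟨l, hl, rfl⟩ := Finset.mem_image.1 hi
    have h2 := hlen l hl
    exact hnd _ h2.1 h2.2) (by
    intro i hi
    obtain ⟨l, hl, rfl⟩ := Finset.mem_image.1 hi
    rw [hG, Finset.mem_filter] at hl
    have h3 : 120 * tn h j n * (6 : ℝ) ^ (-(mm n - (l : ℤ))) =
        120 * ((h : ℝ) * (6 : ℝ) ^ (j - 1)) * (6 : ℝ) ^ (Int.fract (kap * n)) * 6 ^ l := by
      unfold tn
      have e1 : (6 : ℝ) ^ (-(mm n - (l : ℤ))) = (6 : ℝ) ^ (-(mm n)) * 6 ^ l := by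
        rw [neg_sub, sub_eq_neg_add, zpow_add₀ (by norm_num), zpow_natCast]
      have e2 : (6 : ℝ) ^ (mm n) * (6 : ℝ) ^ (-(mm n)) = 1 := by
        rw [← zpow_add₀ (by norm_num), add_neg_cancel, zpow_zero]
      rw [e1, pow_mm]
      calc 120 * ((h : ℝ) * (6 : ℝ) ^ (j - 1) * ((6 : ℝ) ^ (mm n) * (6 : ℝ) ^ (Int.fract (kap * n)))) * ((6 : ℝ) ^ (-(mm n)) * 6 ^ l)
          = 120 * ((h : ℝ) * (6 : ℝ) ^ (j - 1)) * (6 : ℝ) ^ (Int.fract (kap * n)) * 6 ^ l * ((6 : ℝ) ^ (mm n) * (6 : ℝ) ^ (-(mm n))) := by ring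
        _ = _ := by rw [e2, mul_one]
    rw [h3]
    rcases abs_choice (h : ℝ) with h4 | h4
    · rw [h4] at hl
      exact hl.2
    · rw [h4] at hl
      have h5 := hl.2
      rw [← dn_neg] at h5
      refine h5.trans (le_of_eq ?_)
      congr 1
      ring)
  rw [hcard] at h1
  exact h1.trans (pow_le_pow_of_le_one (rh_nn hc1) (rh_lt hc).le hGI)

end Pool.Agent.J4H40.Rd
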