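import Pool.Agent.J4H40.Gd
import Pool.Agent.J4H40.Fh

set_option autoImplicit false

/-! Exponential sums over sets of times: the exceptional sets are exponentially small. -/

namespace Pool.Agent.J4H40.Rd

open MeasureTheory ProbabilityTheory Finset Filter Topology
open Pool.Agent.J4H75.PN (ee norm_ee ee_add)
open Pool.Agent.J4H40.Ca (dn dn_nn dn_neg)
open Pool.Agent.H429R2.Auto (Conf F IsFin Rep)
open Pool.Agent.J4H78.TS (kap kap_pos kap_lt_one)

/-- the four directions -/
noncomputable def zz : Fin 4 → ℂ := ![1, -1, Complex.I, -Complex.I]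

lemma zz_norm (k : Fin 4) : ‖zz k‖ = 1 := by
  fin_cases k <;> simp [zz]

lemma norm_lt_of_zz {W : ℂ} {t : ℝ} (h : ∀ k : Fin 4, (zz k * W).re < t) : ‖W‖ < 2 * t := by
  have h0 := h 0
  have h1 := h 1
  have h2 := h 2
  have h3 := h 3
  simp only [zz, Matrix.cons_val_zero, Matrix.cons_val_one, Matrix.cons_val, one_mul, neg_mul, Complex.neg_re, Complex.I_mul_re] at h0 h1 h2 h3
  have h4 : |W.re| < t := abs_lt.2 ⟨by linarith, h0⟩
  have h5 : |W.im| < t := abs_lt.2 ⟨by linarith, by linarith⟩
  have h6 := Complex.norm_le_abs_re_add_abs_im W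
  linarith

open Classical in
/-- **Large deviations of exponential sums over sets of times.** -/
theorem expsum {h : ℤ} (hh : h ≠ 0) (j : ℤ) {c θ : ℝ} (hc : 0 < c) (hc1 : c ≤ 1) (hθ : 0 < θ) :
    ∃ C₀ : ℝ, 0 < C₀ ∧ ∃ δ₀ : ℝ, 0 < δ₀ ∧ ∀ (N : ℕ) (Ω : Type) [MeasurableSpace Ω] (μ : Measure Ω) [IsProbabilityMeasure μ]
    (x : Ω → Conf), (∀ i, Measurable fun ω => x ω i) → iIndepFun (fun (i : ℤ) ω => x ω i) μ →
    (∀ i : ℤ, 1 ≤ i → i ≤ kap * N → ∀ v : Fin 6, μ.real {ω | x ω i = v} ≤ 1 - c) →
    ∀ s : Finset ℤ, (∀ i : ℤ, 1 ≤ i → i ≤ kap * N → i ∈ s) → ∀ T : Finset ℕ, T ⊆ range N →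
    μ.real {ω | θ * N < ‖∑ n ∈ T, ee (tn h j n * al s x ω)‖} ≤ C₀ * Real.exp (-(δ₀ * N)) := by
  have hh0 : (0 : ℝ) < |(h : ℝ)| := abs_pos.2 (by exact_mod_cast hh)
  obtain ⟨u, hu⟩ : ∃ u : ℝ, u = 120 * (|(h : ℝ)| * (6 : ℝ) ^ (j - 1)) := ⟨_, rfl⟩
  have hu0 : 0 < u := by rw [hu]; positivity
  obtain ⟨I, hI⟩ := exists_pow_lt_of_lt_one (show (0 : ℝ) < θ / 64 by positivity) (rh_lt hc)
  obtain ⟨C, hC⟩ := pow_unbounded_of_one_lt (2 * Real.pi * (|(h : ℝ)| * (6 : ℝ) ^ (j - 1) * 6) * 8 / θ) (show (1 : ℝ) < 6 by norm_num)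
  have hCe : 2 * Real.pi * (|(h : ℝ)| * (6 : ℝ) ^ (j - 1) * 6 / 6 ^ C) ≤ θ / 8 := by
    rw [div_lt_iff₀ hθ] at hC
    rw [← mul_div_assoc, div_le_div_iff₀ (by positivity) (by norm_num)]
    linarith
  obtain ⟨D, hD⟩ := few_bad hu0 I (δ := θ / 8) (by positivity)
  obtain ⟨g, hg⟩ : ∃ g : ℕ, g = ⌈((C : ℝ) + D) / kap⌉₊ + 1 := ⟨_, rfl⟩
  have hg1 : 1 ≤ g := by omega
  have hg0 : (0 : ℝ) < g := by exact_mod_cast hg1
  have hgk : (C : ℝ) + D ≤ kap * g := by
    have h1 := Nat.le_ceil (((C : ℝ) + D) / kap)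
    have h2 : ((C : ℝ) + D) / kap ≤ g := by rw [hg]; push_cast; linarith
    rw [div_le_iff₀ kap_pos] at h2
    linarith
  obtain ⟨n₁, hn₁⟩ : ∃ n₁ : ℕ, n₁ = ⌈(D : ℝ) / kap⌉₊ := ⟨_, rfl⟩
  have hn₁D : ∀ n ≥ n₁, (D : ℤ) ≤ mm n := by
    intro n hn
    unfold mm
    rw [Int.le_floor]
    have h1 := Nat.le_ceil ((D : ℝ) / kap)
    rw [← hn₁] at h1
    have h2 : (n₁ : ℝ) ≤ n := by exact_mod_cast hn
    have h3 : (D : ℝ) / kap ≤ n := h1.trans h2
    rw [div_le_iff₀ kap_pos] at h3
    push_cast
    linarith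
  have t1 : ∀ᶠ N : ℕ in atTop, n₁ / (θ / 8) ≤ (N : ℝ) := tendsto_natCast_atTop_atTop.eventually_ge_atTop _
  obtain ⟨N₀, hN₀⟩ := (t1.and (hD.and (eventually_ge_atTop 1))).exists_forall_of_atTop
  obtain ⟨lam, hlam⟩ : ∃ lam : ℝ, lam = min (1 / 2) (θ / 64) := ⟨_, rfl⟩
  have hlam0 : 0 < lam := by rw [hlam]; exact lt_min (by norm_num) (by positivity)
  have hlam1 : lam ≤ 1 / 2 := by rw [hlam]; exact min_le_left _ _
  have hlam2 : lam ≤ θ / 64 := by rw [hlam]; exact min_le_right _ _
  obtain ⟨δ₀, hδ₀⟩ : ∃ δ₀ : ℝ, δ₀ = lam * θ / (8 * g) := ⟨_, rfl⟩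
  have hδ₀0 : 0 < δ₀ := by rw [hδ₀]; positivity
  refine ⟨4 * g * Real.exp (lam * θ / 16) + Real.exp (δ₀ * N₀), by positivity, δ₀, hδ₀0, ?_⟩
  intro N Ω _ μ _ x hx hi hnd s hs T hT
  rcases lt_or_ge N N₀ with hN | hN
  · have h1 : μ.real {ω | θ * N < ‖∑ n ∈ T, ee (tn h j n * al s x ω)‖} ≤ 1 := measureReal_le_one
    have h2 : 1 ≤ Real.exp (δ₀ * N₀) * Real.exp (-(δ₀ * N)) := by
      rw [← Real.exp_add]
      apply Real.one_le_exp
      have h3 : (N : ℝ) ≤ N₀ := by exact_mod_cast hN.le
      nlinarith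
    have h3 : 0 ≤ 4 * g * Real.exp (lam * θ / 16) * Real.exp (-(δ₀ * N)) := by positivity
    rw [add_mul]
    linarith
  · obtain ⟨hNn₁, hNbad, hN1⟩ := hN₀ N hN
    rw [div_le_iff₀ (by positivity)] at hNn₁
    have hNr : (0 : ℝ) < N := by exact_mod_cast hN1
    obtain ⟨a, ha⟩ : ∃ a : ℕ → ℂ, a = fun n => if n ∈ T ∧ n₁ ≤ n ∧ Good u D I n then 1 else 0 := ⟨_, rfl⟩
    have hanorm : ∀ n, ‖a n‖ ≤ 1 := by
      intro n
      rw [ha]
      simp only
      split_ifs <;> simp
    obtain ⟨U, hU⟩ : ∃ U : ℕ → Ω → ℂ, U = fun n ω => ee (tn h j n * al (PA s D n) x ω) := ⟨_, rfl⟩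
    obtain ⟨V, hV⟩ : ∃ V : ℕ → Ω → ℂ, V = fun n ω => ee (tn h j n * al (PB s C D n) x ω) := ⟨_, rfl⟩
    obtain ⟨Q, hQ⟩ : ∃ Q : ℕ, Q = N / g + 1 := ⟨_, rfl⟩
    have hNQ : N ≤ Q * g := by
      have := Nat.lt_mul_div_succ N (show 0 < g by omega)
      rw [hQ, mul_comm]
      omega
    have hQr : (Q : ℝ) ≤ N / g + 1 := by
      rw [hQ]
      push_cast
      have := Nat.cast_div_le (α := ℝ) (m := N) (n := g)
      linarith
    obtain ⟨E, hE⟩ : ∃ E : Fin 4 × ℕ → Set Ω, E = fun p => {ω | θ * N / (4 * g) ≤ ∑ q ∈ range Q,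
      ((zz p.1 * a (q * g + p.2)) * (U (q * g + p.2) ω * V (q * g + p.2) ω)).re} := ⟨_, rfl⟩
    have hsub : {ω | θ * N < ‖∑ n ∈ T, ee (tn h j n * al s x ω)‖} ⊆ ⋃ p ∈ (univ : Finset (Fin 4)) ×ˢ range g, E p := by
      intro ω hω
      rw [Set.mem_ofPred_eq] at hω
      by_contra hcon
      have h1 : ∀ k : Fin 4, ∀ r < g, ∑ q ∈ range Q, ((zz k * a (q * g + r)) * (U (q * g + r) ω * V (q * g + r) ω)).re < θ * N / (4 * g) := by
        intro k r hr
        by_contra h2
        apply hcon
        refine Set.mem_biUnion (x := (k, r)) (Finset.mem_coe.2 (Finset.mem_product.2 ⟨Finset.mem_univ k, Finset.mem_range.2 hr⟩)) ?_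
        rw [hE]
        exact not_lt.1 h2
      obtain ⟨W, hW⟩ : ∃ W : ℂ, W = ∑ n ∈ range (Q * g), a n * (U n ω * V n ω) := ⟨_, rfl⟩
      have h2 : ∀ k : Fin 4, (zz k * W).re < θ * N / 4 := by
        intro k
        have h3 : (zz k * W).re = ∑ n ∈ range (Q * g), ((zz k * a n) * (U n ω * V n ω)).re := by
          rw [hW, Finset.mul_sum, Complex.re_sum]
          refine Finset.sum_congr rfl fun n _ => ?_
          congr 1
          ring
        rw [h3, sum_blocks, Finset.sum_comm]
        have h4 : ∑ r ∈ range g, ∑ q ∈ range Q, ((zz k * a (q * g + r)) * (U (q * g + r) ω * V (q * g + r) ω)).re <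
            ∑ r ∈ range g, θ * N / (4 * g) :=
          Finset.sum_lt_sum_of_nonempty ⟨0, Finset.mem_range.2 (by omega)⟩ fun r hr => h1 k r (Finset.mem_range.1 hr)
        refine h4.trans_le (le_of_eq ?_)
        rw [Finset.sum_const, card_range, nsmul_eq_mul]
        field_simp
      have h3 := norm_lt_of_zz h2
      have h4 : W = ∑ n ∈ T, a n * (U n ω * V n ω) := by
        rw [hW]
        symm
        apply Finset.sum_subset
        · intro n hn
          have := Finset.mem_range.1 (hT hn)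
          exact Finset.mem_range.2 (by omega)
        · intro n _ hn
          rw [ha]
          simp only
          rw [if_neg (fun h => hn h.1), zero_mul]
      have h5 : ‖∑ n ∈ T, ee (tn h j n * al s x ω) - W‖ ≤ 3 * (θ / 8) * N := by
        rw [h4, ← Finset.sum_sub_distrib]
        refine (norm_sum_le _ _).trans ?_
        have h6 : ∀ n ∈ T, ‖ee (tn h j n * al s x ω) - a n * (U n ω * V n ω)‖ ≤
            θ / 8 + (if n < n₁ then 1 else 0) + (if ¬ Good u D I n then 1 else 0) := by
          intro n hn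
          by_cases hcase : n₁ ≤ n ∧ Good u D I n
          · have h7 : a n = 1 := by rw [ha]; exact if_pos ⟨hn, hcase⟩
            rw [h7, one_mul, if_neg (not_lt.2 hcase.1), if_neg (not_not.2 hcase.2), hU, hV]
            simp only [add_zero]
            exact (approx h j s C D n x ω).trans hCe
          · have h7 : a n = 0 := by rw [ha]; exact if_neg (fun h => hcase h.2)
            rw [h7, zero_mul, sub_zero, norm_ee]
            have h8 : (0 : ℝ) < θ / 8 := by positivity
            by_cases h9 : n < n₁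
            · rw [if_pos h9]
              split_ifs <;> linarith
            · rw [if_neg h9, if_pos (fun h => hcase ⟨not_lt.1 h9, h⟩)]
              linarith
        refine (Finset.sum_le_sum h6).trans ?_
        refine (Finset.sum_le_sum_of_subset_of_nonneg hT fun n _ _ => by split_ifs <;> positivity).trans ?_
        rw [Finset.sum_add_distrib, Finset.sum_add_distrib, Finset.sum_const, card_range, nsmul_eq_mul]
        have h7 : ∑ n ∈ range N, (if n < n₁ then (1 : ℝ) else 0) ≤ n₁ := by
          rw [← Finset.sum_filter, Finset.sum_const, nsmul_eq_mul, mul_one]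
          have h8 : ((range N).filter fun n => n < n₁) ⊆ range n₁ := by
            intro n hn
            exact Finset.mem_range.2 (Finset.mem_filter.1 hn).2
          have h9 := Finset.card_le_card h8
          rw [card_range] at h9
          exact_mod_cast h9
        have h8 : ∑ n ∈ range N, (if ¬ Good u D I n then (1 : ℝ) else 0) ≤ θ / 8 * N := by
          rw [← Finset.sum_filter, Finset.sum_const, nsmul_eq_mul, mul_one]
          refine le_trans (le_of_eq ?_) hNbad
          congr 2
          apply Finset.filter_congr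
          intro n _
          unfold Good
          exact not_le
        linarith
      have h6 : ‖∑ n ∈ T, ee (tn h j n * al s x ω)‖ ≤ ‖W‖ + 3 * (θ / 8) * N := by
        have h7 := norm_add_le W (∑ n ∈ T, ee (tn h j n * al s x ω) - W)
        rw [add_sub_cancel] at h7
        linarith
      have h7 : 0 < θ * N := by positivity
      linarith
    have hEp : ∀ p ∈ (univ : Finset (Fin 4)) ×ˢ range g, μ.real (E p) ≤ Real.exp (lam * θ / 16) * Real.exp (-(δ₀ * N)) := by
      intro p hp
      obtain ⟨k, r⟩ := p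
      have hr : r < g := Finset.mem_range.1 (Finset.mem_product.1 hp).2
      rw [hE]
      have htail := tail (μ := μ) (x := x) hx hi (A := fun q => PA s D (q * g + r)) (B := fun q => PB s C D (q * g + r))
        (U := fun q => U (q * g + r)) (V := fun q => V (q * g + r)) (by
          intro q
          apply Finset.disjoint_left.2
          intro i h1 h2
          unfold PA at h1
          unfold PB at h2
          have h3 := (Finset.mem_filter.1 h1).2
          have h4 := (Finset.mem_filter.1 h2).2.1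
          omega) (by
          intro q
          rw [hU]
          exact Dep.ee_al x _ _) (by
          intro q
          rw [hV]
          exact Dep.ee_al x _ _) (by
          intro q ω
          rw [hU]
          exact (norm_ee _).le) (by
          intro q ω
          rw [hV]
          exact (norm_ee _).le) (by
          intro q q' hqq i hi2
          have h5 : mm (q * g + r) + (C + D : ℕ) ≤ mm (q' * g + r) := by
            unfold mm
            rw [← Int.floor_add_natCast]
            apply Int.floor_le_floor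
            have h6 : ((q : ℝ) + 1) * g ≤ q' * g := mul_le_mul_of_nonneg_right (by exact_mod_cast hqq) hg0.le
            have h7 := mul_le_mul_of_nonneg_left h6 kap_pos.le
            push_cast
            nlinarith
          have h6 : i ∈ s ∧ i ≤ mm (q * g + r) + C := by
            rcases Finset.mem_union.1 hi2 with h | h
            · unfold PA at h
              have h7 := Finset.mem_filter.1 h
              exact ⟨h7.1, by omega⟩
            · unfold PB at h
              have h7 := Finset.mem_filter.1 h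
              exact ⟨h7.1, h7.2.2⟩
          unfold PA
          refine Finset.mem_filter.2 ⟨h6.1, ?_⟩
          have h7 := h6.2
          push_cast at h5
          omega) (ζ := fun q => zz k * a (q * g + r)) (by
          intro q
          rw [norm_mul, zz_norm, one_mul]
          exact hanorm _) (η := θ / 64) (by positivity) (by
          intro q hq
          have h5 : a (q * g + r) ≠ 0 := fun h => hq (by rw [h, mul_zero])
          rw [ha] at h5
          simp only at h5
          have h6 : (q * g + r) ∈ T ∧ n₁ ≤ q * g + r ∧ Good u D I (q * g + r) := by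
            by_contra h7
            exact h5 (if_neg h7)
          rw [hV]
          rw [hu] at h6
          exact (good_small j hc hc1 hx hi hnd hs (Finset.mem_range.1 (hT h6.1)) (hn₁D _ h6.2.1) h6.2.2).trans hI.le) hlam0.le hlam1
        (θ * N / (4 * g)) Q
      refine htail.trans ?_
      rw [← Real.exp_add]
      apply Real.exp_le_exp.2
      have h5 : 2 * lam ^ 2 + lam * (θ / 64) ≤ lam * (θ / 16) := by nlinarith
      have h6 : (2 * lam ^ 2 + lam * (θ / 64)) * Q ≤ lam * (θ / 16) * (N / g + 1) := mul_le_mul h5 hQr (by positivity) (by positivity)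
      have h7 : lam * (θ * N / (4 * g)) = 4 * (lam * (θ / 16) * (N / g)) := by
        field_simp
        ring
      have h8 : δ₀ * N = 2 * (lam * (θ / 16) * (N / g)) := by
        rw [hδ₀]
        field_simp
        ring
      have h9 : 0 ≤ lam * (θ / 16) * (N / g) := by positivity
      have h10 : lam * (θ / 16) * (N / g + 1) = lam * (θ / 16) * (N / g) + lam * θ / 16 := by ring
      rw [h7, h8]
      linarith
    calc μ.real {ω | θ * N < ‖∑ n ∈ T, ee (tn h j n * al s x ω)‖} ≤ μ.real (⋃ p ∈ (univ : Finset (Fin 4)) ×ˢ range g, E p) :=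
          measureReal_mono hsub (measure_ne_top _ _)
      _ ≤ ∑ p ∈ (univ : Finset (Fin 4)) ×ˢ range g, μ.real (E p) := measureReal_biUnion_finset_le _ _
      _ ≤ ∑ p ∈ (univ : Finset (Fin 4)) ×ˢ range g, Real.exp (lam * θ / 16) * Real.exp (-(δ₀ * N)) := Finset.sum_le_sum hEp
      _ = 4 * g * (Real.exp (lam * θ / 16) * Real.exp (-(δ₀ * N))) := by
          rw [Finset.sum_const, Finset.card_product, card_univ, Fintype.card_fin, card_range, nsmul_eq_mul]
          push_cast
          rfl
      _ ≤ (4 * g * Real.exp (lam * θ / 16) + Real.exp (δ₀ * N₀)) * Real.exp (-(δ₀ * N)) := by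
          have h1 : 0 ≤ Real.exp (δ₀ * N₀) * Real.exp (-(δ₀ * N)) := by positivity
          rw [add_mul]
          linarith

end Pool.Agent.J4H40.Rd
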