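import Pool.Agent.J4H40.Ge

set_option autoImplicit false

/-! Frequencies of words: the exceptional sets are exponentially small. -/

namespace Pool.Agent.J4H40.Rd

open MeasureTheory ProbabilityTheory Finset Filter Topology
open Pool.Agent.J4H75.PN (ee norm_ee ee_add Cond uweyl)
open Pool.Agent.H429R2.Auto (Conf F IsFin Rep)
open Pool.Agent.J4H78.TS (kap kap_pos kap_lt_one)

open Classical in
/-- **Large deviations.** -/
theorem large_dev (L J : ℕ) {c ε : ℝ} (hc : 0 < c) (hε : 0 < ε) :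
    ∃ C₀ : ℝ, 0 < C₀ ∧ ∃ δ₀ : ℝ, 0 < δ₀ ∧ ∀ (N : ℕ) (Ω : Type) [MeasurableSpace Ω] (μ : Measure Ω) [IsProbabilityMeasure μ]
    (x : Ω → Conf), (∀ i, Measurable fun ω => x ω i) → iIndepFun (fun (i : ℤ) ω => x ω i) μ →
    (∀ i : ℤ, 1 ≤ i → i ≤ kap * N → ∀ v : Fin 6, μ.real {ω | x ω i = v} ≤ 1 - c) → ∀ T : Finset ℕ, T ⊆ range N →
    μ.real {ω | ¬ ∀ (w : Fin L → Fin 6) (j : ℤ), |j| ≤ J →
      |((T.filter fun n => Shows (F^[n] (x ω)) w j).card : ℝ) - T.card / 6 ^ L| ≤ ε * N} ≤ C₀ * Real.exp (-(δ₀ * N)) := by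
  obtain ⟨K, hK0, hK⟩ := uweyl 1 ε hε
  have hK1 : (0 : ℝ) < K := by exact_mod_cast hK0
  have hex : ∀ (h j : ℤ), h ≠ 0 → ∃ C₀ : ℝ, 0 < C₀ ∧ ∃ δ₀ : ℝ, 0 < δ₀ ∧ ∀ (N : ℕ) (Ω : Type) [MeasurableSpace Ω] (μ : Measure Ω)
      [IsProbabilityMeasure μ] (x : Ω → Conf), (∀ i, Measurable fun ω => x ω i) → iIndepFun (fun (i : ℤ) ω => x ω i) μ →
      (∀ i : ℤ, 1 ≤ i → i ≤ kap * N → ∀ v : Fin 6, μ.real {ω | x ω i = v} ≤ 1 - min c 1) →
      ∀ s : Finset ℤ, (∀ i : ℤ, 1 ≤ i → i ≤ kap * N → i ∈ s) → ∀ T : Finset ℕ, T ⊆ range N →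
      μ.real {ω | ε / K * N < ‖∑ n ∈ T, ee (tn h j n * al s x ω)‖} ≤ C₀ * Real.exp (-(δ₀ * N)) :=
    fun h j hh => expsum hh j (lt_min hc one_pos) (min_le_right c 1) (by positivity)
  choose! Cf hCf δf hδf hmain using hex
  obtain ⟨P, hP⟩ : ∃ P : Finset (ℤ × ℤ), P = Icc (-(J : ℤ)) J ×ˢ (Icc (-(K : ℤ)) K).filter (· ≠ 0) := ⟨_, rfl⟩
  have hP0 : ∀ p ∈ P, p.2 ≠ 0 := by
    intro p hp
    rw [hP, Finset.mem_product, Finset.mem_filter] at hp
    exact hp.2.2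
  obtain ⟨δ, hδ⟩ : ∃ δ : ℝ, δ = (∑ p ∈ P, (δf p.2 p.1)⁻¹ + 1)⁻¹ := ⟨_, rfl⟩
  have hδs : 0 ≤ ∑ p ∈ P, (δf p.2 p.1)⁻¹ := Finset.sum_nonneg fun p hp => inv_nonneg.2 (hδf _ _ (hP0 p hp)).le
  have hδ0 : 0 < δ := by rw [hδ]; positivity
  have hδle : ∀ p ∈ P, δ ≤ δf p.2 p.1 := by
    intro p hp
    have h1 := hδf p.2 p.1 (hP0 p hp)
    rw [hδ]
    apply inv_le_of_inv_le₀ h1
    have h2 := Finset.single_le_sum (f := fun p => (δf p.2 p.1)⁻¹) (fun q hq => inv_nonneg.2 (hδf _ _ (hP0 q hq)).le) hp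
    linarith
  refine ⟨∑ p ∈ P, Cf p.2 p.1 + 1, by
    have : 0 ≤ ∑ p ∈ P, Cf p.2 p.1 := Finset.sum_nonneg fun p hp => (hCf _ _ (hP0 p hp)).le
    linarith, δ, hδ0, ?_⟩
  intro N Ω _ μ _ x hx hi hnd T hT
  obtain ⟨s, hs⟩ : ∃ s : Finset ℤ, s = Icc (-(N : ℤ) - J) ((N + J + L : ℕ) : ℤ) := ⟨_, rfl⟩
  have hsk : ∀ i : ℤ, 1 ≤ i → i ≤ kap * N → i ∈ s := by
    intro i h1 h2
    have h3 : (i : ℝ) ≤ ((N : ℤ) : ℝ) := by
      push_cast
      have := kap_lt_one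
      have h4 : (0 : ℝ) ≤ N := Nat.cast_nonneg N
      nlinarith
    have h4 : i ≤ (N : ℤ) := by exact_mod_cast h3
    rw [hs]
    exact Finset.mem_Icc.2 ⟨by omega, by push_cast; omega⟩
  have hnd' : ∀ i : ℤ, 1 ≤ i → i ≤ kap * N → ∀ v : Fin 6, μ.real {ω | x ω i = v} ≤ 1 - min c 1 := fun i h1 h2 v =>
    (hnd i h1 h2 v).trans (by linarith [min_le_left c 1])
  obtain ⟨E, hE⟩ : ∃ E : ℤ × ℤ → Set Ω, E = fun p => {ω | ε / K * N < ‖∑ n ∈ T, ee (tn p.2 p.1 n * al s x ω)‖} := ⟨_, rfl⟩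
  have hsub : {ω | ¬ ∀ (w : Fin L → Fin 6) (j : ℤ), |j| ≤ J →
      |((T.filter fun n => Shows (F^[n] (x ω)) w j).card : ℝ) - T.card / 6 ^ L| ≤ ε * N} ⊆ ⋃ p ∈ P, E p := by
    intro ω hω
    by_contra hcon
    apply hω
    intro w j hj
    have hTN : (T.card : ℝ) ≤ N := by
      have := Finset.card_le_card hT
      rw [card_range] at this
      exact_mod_cast this
    have hp : (0 : ℝ) < 6 ^ L := by positivity
    have hp1 : (1 : ℝ) ≤ 6 ^ L := one_le_pow₀ (by norm_num)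
    rcases lt_or_ge (T.card : ℝ) (ε * N) with hTs | hTb
    · have h1 : ((T.filter fun n => Shows (F^[n] (x ω)) w j).card : ℝ) ≤ T.card := by
        exact_mod_cast Finset.card_filter_le _ _
      have h2 : (T.card : ℝ) / 6 ^ L ≤ T.card := div_le_self (Nat.cast_nonneg _) hp1
      have h3 : 0 ≤ (T.card : ℝ) / 6 ^ L := by positivity
      have h4 : (0 : ℝ) ≤ ((T.filter fun n => Shows (F^[n] (x ω)) w j).card : ℝ) := Nat.cast_nonneg _
      rw [abs_le]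
      constructor <;> linarith
    · have hCond : Cond K T (fun t (_ : Fin 1) => (6 : ℝ) ^ (j - 1) * ((3 / 2) ^ t * al s x ω)) := by
        intro u hu huK
        have hu0 : u 0 ≠ 0 := by
          intro h0
          apply hu
          funext i
          rw [Subsingleton.elim i 0, h0]
          rfl
        have hpP : (j, u 0) ∈ P := by
          rw [hP, Finset.mem_product, Finset.mem_filter]
          exact ⟨Finset.mem_Icc.2 (abs_le.1 hj), Finset.mem_Icc.2 (abs_le.1 (huK 0)), hu0⟩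
        have h3 : ω ∉ E (j, u 0) := by
          intro h4
          apply hcon
          exact Set.mem_biUnion (Finset.mem_coe.2 hpP) h4
        rw [hE, Set.mem_ofPred_eq, not_lt] at h3
        simp only at h3
        have h5 : (K : ℝ) * ‖∑ n ∈ T, ee (tn (u 0) j n * al s x ω)‖ ≤ T.card := by
          calc (K : ℝ) * ‖∑ n ∈ T, ee (tn (u 0) j n * al s x ω)‖ ≤ K * (ε / K * N) := mul_le_mul_of_nonneg_left h3 hK1.le
            _ = ε * N := by field_simp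
            _ ≤ T.card := hTb
        refine le_trans (le_of_eq ?_) h5
        congr 2
        refine Finset.sum_congr rfl fun k _ => ?_
        congr 1
        simp only [Finset.univ_unique, Fin.default_eq_zero, Finset.sum_singleton]
        unfold tn
        ring
      have hC1 : ((code w : ℕ) : ℝ) + 1 ≤ 6 ^ L := by exact_mod_cast code_lt w
      have h4 := hK T _ hCond (fun _ => ((code w : ℕ) : ℝ) / 6 ^ L) (fun _ => (((code w : ℕ) : ℝ) + 1) / 6 ^ L) (fun _ => by positivity)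
        (fun _ => by gcongr; linarith) (fun _ => by rw [div_le_one (by positivity)]; exact hC1)
      have h5 : ∏ i : Fin 1, ((((code w : ℕ) : ℝ) + 1) / 6 ^ L - ((code w : ℕ) : ℝ) / 6 ^ L) = 1 / 6 ^ L := by
        simp only [Finset.prod_const, card_univ, Fintype.card_fin, pow_one]
        rw [← sub_div]
        congr 1
        ring
      rw [h5] at h4
      have h6 : Pool.Agent.J4H75.PN.box T (fun t (_ : Fin 1) => (6 : ℝ) ^ (j - 1) * ((3 / 2) ^ t * al s x ω))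
          (fun _ => ((code w : ℕ) : ℝ) / 6 ^ L) (fun _ => (((code w : ℕ) : ℝ) + 1) / 6 ^ L) =
          T.filter fun n => Shows (F^[n] (x ω)) w j := by
        unfold Pool.Agent.J4H75.PN.box
        ext t
        rw [Finset.mem_filter, Finset.mem_filter]
        apply and_congr_right
        intro ht
        have htN := Finset.mem_range.1 (hT ht)
        rw [shows_al (x ω) t J (N + J + L) (by omega) (-(N : ℤ) - J) (by omega) w j hj]
        rw [hs]
        exact ⟨fun h => h 0, fun h _ => h⟩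
      rw [h6] at h4
      have h7 : (T.card : ℝ) / 6 ^ L = 1 / 6 ^ L * T.card := by ring
      rw [h7]
      refine h4.trans ?_
      exact mul_le_mul_of_nonneg_left hTN hε.le
  have hEp : ∀ p ∈ P, μ.real (E p) ≤ Cf p.2 p.1 * Real.exp (-(δ * N)) := by
    intro p hp
    rw [hE]
    refine (hmain p.2 p.1 (hP0 p hp) N Ω μ x hx hi hnd' s hsk T hT).trans ?_
    apply mul_le_mul_of_nonneg_left _ (hCf _ _ (hP0 p hp)).le
    apply Real.exp_le_exp.2
    have h1 := mul_le_mul_of_nonneg_right (hδle p hp) (Nat.cast_nonneg (α := ℝ) N)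
    linarith
  calc μ.real {ω | ¬ ∀ (w : Fin L → Fin 6) (j : ℤ), |j| ≤ J →
      |((T.filter fun n => Shows (F^[n] (x ω)) w j).card : ℝ) - T.card / 6 ^ L| ≤ ε * N} ≤ μ.real (⋃ p ∈ P, E p) :=
        measureReal_mono hsub (measure_ne_top _ _)
    _ ≤ ∑ p ∈ P, μ.real (E p) := measureReal_biUnion_finset_le _ _
    _ ≤ ∑ p ∈ P, Cf p.2 p.1 * Real.exp (-(δ * N)) := Finset.sum_le_sum hEp
    _ = (∑ p ∈ P, Cf p.2 p.1) * Real.exp (-(δ * N)) := by rw [Finset.sum_mul]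
    _ ≤ (∑ p ∈ P, Cf p.2 p.1 + 1) * Real.exp (-(δ * N)) := by
        apply mul_le_mul_of_nonneg_right _ (Real.exp_pos _).le
        linarith

open Classical in
/-- **Frequencies almost surely.** -/
theorem ae_freq {c : ℝ} (hc : 0 < c) {Ω : Type} [MeasurableSpace Ω] (μ : Measure Ω) [IsProbabilityMeasure μ] (x : Ω → Conf)
    (hx : ∀ i, Measurable fun ω => x ω i) (hi : iIndepFun (fun (i : ℤ) ω => x ω i) μ)
    (hnd : ∀ i : ℤ, 1 ≤ i → ∀ v : Fin 6, μ.real {ω | x ω i = v} ≤ 1 - c) (T : Set ℕ) :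
    ∀ᵐ ω ∂μ, ∀ (L : ℕ) (w : Fin L → Fin 6) (j : ℤ),
      Tendsto (fun N : ℕ => ((((range N).filter fun n => n ∈ T).filter fun n => Shows (F^[n] (x ω)) w j).card -
        ((range N).filter fun n => n ∈ T).card / 6 ^ L : ℝ) / N) atTop (𝓝 0) := by
  have h1 : ∀ᵐ ω ∂μ, ∀ (L J k : ℕ), ∀ᶠ N : ℕ in atTop, ∀ (w : Fin L → Fin 6) (j : ℤ), |j| ≤ J →
      |((((range N).filter fun n => n ∈ T).filter fun n => Shows (F^[n] (x ω)) w j).card : ℝ) -
        ((range N).filter fun n => n ∈ T).card / 6 ^ L| ≤ 1 / (k + 1) * N := by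
    rw [ae_all_iff]
    intro L
    rw [ae_all_iff]
    intro J
    rw [ae_all_iff]
    intro k
    obtain ⟨C₀, hC₀, δ₀, hδ₀, h⟩ := large_dev L J hc (show (0 : ℝ) < 1 / ((k : ℝ) + 1) by positivity)
    obtain ⟨E, hE⟩ : ∃ E : ℕ → Set Ω, E = fun N => {ω | ¬ ∀ (w : Fin L → Fin 6) (j : ℤ), |j| ≤ J →
      |((((range N).filter fun n => n ∈ T).filter fun n => Shows (F^[n] (x ω)) w j).card : ℝ) -
        ((range N).filter fun n => n ∈ T).card / 6 ^ L| ≤ 1 / (k + 1) * N} := ⟨_, rfl⟩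
    have hEN : ∀ N, μ.real (E N) ≤ C₀ * Real.exp (-(δ₀ * N)) := by
      intro N
      rw [hE]
      exact h N Ω μ x hx hi (fun i h1 _ v => hnd i h1 v) _ (Finset.filter_subset _ _)
    have hsumm : Summable fun N : ℕ => C₀ * Real.exp (-(δ₀ * N)) := by
      apply Summable.mul_left
      have h2 : (fun N : ℕ => Real.exp (-(δ₀ * N))) = fun N : ℕ => (Real.exp (-δ₀)) ^ N := by
        funext N
        rw [← Real.exp_nat_mul]
        congr 1
        ring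
      rw [h2]
      exact summable_geometric_of_lt_one (Real.exp_pos _).le ((Real.exp_lt_exp.2 (by linarith : -δ₀ < 0)).trans_eq Real.exp_zero)
    have hsum : ∑' N, μ (E N) ≠ ⊤ := by
      have h2 : ∀ N, μ (E N) ≤ ENNReal.ofReal (C₀ * Real.exp (-(δ₀ * N))) := by
        intro N
        rw [← ENNReal.ofReal_toReal (measure_ne_top μ (E N))]
        exact ENNReal.ofReal_le_ofReal (hEN N)
      refine ne_top_of_le_ne_top ?_ (ENNReal.tsum_le_tsum h2)
      rw [← ENNReal.ofReal_tsum_of_nonneg (fun N => by positivity) hsumm]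
      exact ENNReal.ofReal_ne_top
    filter_upwards [ae_eventually_notMem hsum] with ω hω
    filter_upwards [hω] with N hN
    rw [hE] at hN
    simp only [Set.mem_ofPred_eq, not_not] at hN
    exact hN
  filter_upwards [h1] with ω hω L w j
  rw [Metric.tendsto_atTop]
  intro ε hε
  obtain ⟨k, hk⟩ := exists_nat_one_div_lt hε
  obtain ⟨N₀, hN₀⟩ := (hω L j.natAbs k).exists_forall_of_atTop
  refine ⟨N₀ + 1, fun N hN => ?_⟩
  have hN0 : (0 : ℝ) < N := by exact_mod_cast (by omega : 0 < N)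
  have h2 := hN₀ N (by omega) w j (by rw [Int.abs_eq_natAbs])
  rw [dist_zero_right, Real.norm_eq_abs, abs_div, abs_of_pos hN0]
  refine lt_of_le_of_lt ?_ hk
  rw [div_le_iff₀ hN0]
  exact h2

open Classical in
/-- **Large deviations, counting.** -/
theorem count_dev (L J : ℕ) {ε : ℝ} (hε : 0 < ε) :
    ∃ C₀ : ℝ, 0 < C₀ ∧ ∃ δ₀ : ℝ, 0 < δ₀ ∧ ∀ (N : ℕ) (W : Finset ℤ) (A : ℤ → Finset (Fin 6)) (y : Conf), (∀ i ∈ W, (A i).Nonempty) →
    (∀ i : ℤ, 1 ≤ i → i ≤ kap * N → i ∈ W ∧ 2 ≤ (A i).card) → ∀ T : Finset ℕ, T ⊆ range N →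
    ({x ∈ Fam W A y | ¬ ∀ (w : Fin L → Fin 6) (j : ℤ), |j| ≤ J →
      |((T.filter fun n => Shows (F^[n] x) w j).card : ℝ) - T.card / 6 ^ L| ≤ ε * N}.ncard : ℝ) ≤
      C₀ * Real.exp (-(δ₀ * N)) * (Fam W A y).ncard := by
  obtain ⟨C₀, hC₀, δ₀, hδ₀, h⟩ := large_dev L J (c := 1 / 2) (by norm_num) hε
  refine ⟨C₀, hC₀, δ₀, hδ₀, fun N W A y hA hW T hT => ?_⟩
  have h1 : Law (1 / 2) 1 0 1 (um A) (rc W y) := law_um fun i h1 h2 => by
    exfalso
    norm_num at h1 h2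
    have h3 : (i : ℝ) ≤ 0 := by exact_mod_cast h2
    linarith
  refine few_of_real hA y (fun x => ¬ ∀ (w : Fin L → Fin 6) (j : ℤ), |j| ≤ J →
      |((T.filter fun n => Shows (F^[n] x) w j).card : ℝ) - T.card / 6 ^ L| ≤ ε * N)
    (h N _ (um A) (rc W y) h1.1 h1.2.1 (fun i hi1 hi2 v => ?_) T hT)
  have h2 : Law (1 / 2) (i : ℝ) (i : ℝ) 1 (um A) (rc W y) := law_um fun i' h1 h2 => by
    have h3 : i' = i := by
      rw [Nat.cast_one, mul_one] at h1 h2
      exact_mod_cast le_antisymm h2 h1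
    rw [h3]
    exact hW i hi1 hi2
  exact h2.2.2 i (by simp) (by simp) v

end Pool.Agent.J4H40.Rd
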