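import Pool.Agent.J4H40.Gf

set_option autoImplicit false

/-! Frequencies along all sets of times of zero entropy, simultaneously. -/

namespace Pool.Agent.J4H40.Rd

open MeasureTheory ProbabilityTheory Finset Filter Topology
open Pool.Agent.H429R2.Auto (Conf F IsFin Rep)
open Pool.Agent.J4H78.TS (kap kap_pos kap_lt_one)

/-- the set of times with given blocks of length `m` -/
def asm {B : ℕ} (m N : ℕ) (φ : Fin B → Finset ℕ) : Finset ℕ :=
  (range N).filter fun n => ∃ h : n / m < B, n % m ∈ φ ⟨n / m, h⟩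

open Classical in
/-- all sets of times with blocks in a small dictionary -/
theorem ae_dict {c : ℝ} (hc : 0 < c) (L J : ℕ) {ε : ℝ} (hε : 0 < ε) : ∃ δ : ℝ, 0 < δ ∧ ∀ (Ω : Type) [MeasurableSpace Ω]
    (μ : Measure Ω) [IsProbabilityMeasure μ] (x : Ω → Conf), (∀ i, Measurable fun ω => x ω i) →
    iIndepFun (fun (i : ℤ) ω => x ω i) μ → (∀ i : ℤ, 1 ≤ i → ∀ v : Fin 6, μ.real {ω | x ω i = v} ≤ 1 - c) →
    ∀ᵐ ω ∂μ, ∀ (m : ℕ) (D : Finset (Finset ℕ)), 1 ≤ m → (D.card : ℝ) ≤ Real.exp (δ * m) → ∀ᶠ N : ℕ in atTop,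
      ∀ φ : Fin (N / m + 1) → Finset ℕ, (∀ q, φ q ∈ D) → ∀ (w : Fin L → Fin 6) (j : ℤ), |j| ≤ J →
      |(((asm m N φ).filter fun n => Shows (F^[n] (x ω)) w j).card : ℝ) - (asm m N φ).card / 6 ^ L| ≤ ε * N := by
  obtain ⟨C₀, hC₀, δ₀, hδ₀, h⟩ := large_dev L J hc hε
  refine ⟨δ₀ / 2, by positivity, ?_⟩
  intro Ω _ μ _ x hx hi hnd
  rw [ae_all_iff]
  intro m
  rw [ae_all_iff]
  intro D
  by_cases hm : 1 ≤ m
  swap
  · exact ae_of_all _ fun ω h1 => absurd h1 hm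
  by_cases hD : (D.card : ℝ) ≤ Real.exp (δ₀ / 2 * m)
  swap
  · exact ae_of_all _ fun ω _ h1 => absurd h1 hD
  have hm0 : (0 : ℝ) < m := by exact_mod_cast hm
  obtain ⟨E, hE⟩ : ∃ E : ℕ → Set Ω, E = fun N => ⋃ φ ∈ Fintype.piFinset (fun _ : Fin (N / m + 1) => D),
    {ω | ¬ ∀ (w : Fin L → Fin 6) (j : ℤ), |j| ≤ J →
      |(((asm m N φ).filter fun n => Shows (F^[n] (x ω)) w j).card : ℝ) - (asm m N φ).card / 6 ^ L| ≤ ε * N} := ⟨_, rfl⟩
  have hEN : ∀ N, μ.real (E N) ≤ C₀ * Real.exp (δ₀ / 2 * m) * Real.exp (-(δ₀ / 2 * N)) := by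
    intro N
    rw [hE]
    refine (measureReal_biUnion_finset_le _ _).trans ?_
    have h1 : ∀ φ ∈ Fintype.piFinset (fun _ : Fin (N / m + 1) => D), μ.real {ω | ¬ ∀ (w : Fin L → Fin 6) (j : ℤ), |j| ≤ J →
        |(((asm m N φ).filter fun n => Shows (F^[n] (x ω)) w j).card : ℝ) - (asm m N φ).card / 6 ^ L| ≤ ε * N} ≤
        C₀ * Real.exp (-(δ₀ * N)) := by
      intro φ _
      exact h N Ω μ x hx hi (fun i h1 _ v => hnd i h1 v) _ (Finset.filter_subset _ _)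
    refine (Finset.sum_le_sum h1).trans ?_
    rw [Finset.sum_const, Fintype.card_piFinset, Finset.prod_const, card_univ, Fintype.card_fin, nsmul_eq_mul]
    push_cast
    have h2 : (D.card : ℝ) ^ (N / m + 1) ≤ Real.exp (δ₀ / 2 * m) * Real.exp (δ₀ / 2 * N) := by
      calc (D.card : ℝ) ^ (N / m + 1) ≤ Real.exp (δ₀ / 2 * m) ^ (N / m + 1) := pow_le_pow_left₀ (Nat.cast_nonneg _) hD _
        _ = Real.exp (((N / m + 1 : ℕ) : ℝ) * (δ₀ / 2 * m)) := by rw [← Real.exp_nat_mul]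
        _ ≤ Real.exp (δ₀ / 2 * m + δ₀ / 2 * N) := by
            apply Real.exp_le_exp.2
            have h3 : ((N / m : ℕ) : ℝ) ≤ N / m := Nat.cast_div_le
            rw [le_div_iff₀ hm0] at h3
            push_cast
            nlinarith
        _ = Real.exp (δ₀ / 2 * m) * Real.exp (δ₀ / 2 * N) := Real.exp_add _ _
    have h3 := mul_le_mul_of_nonneg_right h2 (show 0 ≤ C₀ * Real.exp (-(δ₀ * N)) by positivity)
    refine h3.trans (le_of_eq ?_)
    have h4 : Real.exp (-(δ₀ / 2 * N)) = Real.exp (δ₀ / 2 * N) * Real.exp (-(δ₀ * N)) := by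
      rw [← Real.exp_add]
      congr 1
      ring
    rw [h4]
    ring
  have hsumm : Summable fun N : ℕ => C₀ * Real.exp (δ₀ / 2 * m) * Real.exp (-(δ₀ / 2 * N)) := by
    apply Summable.mul_left
    have h2 : (fun N : ℕ => Real.exp (-(δ₀ / 2 * N))) = fun N : ℕ => (Real.exp (-(δ₀ / 2))) ^ N := by
      funext N
      rw [← Real.exp_nat_mul]
      congr 1
      ring
    rw [h2]
    exact summable_geometric_of_lt_one (Real.exp_pos _).le ((Real.exp_lt_exp.2 (by linarith : -(δ₀ / 2) < 0)).trans_eq Real.exp_zero)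
  have hsum : ∑' N, μ (E N) ≠ ⊤ := by
    have h2 : ∀ N, μ (E N) ≤ ENNReal.ofReal (C₀ * Real.exp (δ₀ / 2 * m) * Real.exp (-(δ₀ / 2 * N))) := by
      intro N
      rw [← ENNReal.ofReal_toReal (measure_ne_top μ (E N))]
      exact ENNReal.ofReal_le_ofReal (hEN N)
    refine ne_top_of_le_ne_top ?_ (ENNReal.tsum_le_tsum h2)
    rw [← ENNReal.ofReal_tsum_of_nonneg (fun N => by positivity) hsumm]
    exact ENNReal.ofReal_ne_top
  filter_upwards [ae_eventually_notMem hsum] with ω hω _ _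
  filter_upwards [hω] with N hN φ hφ
  by_contra hcon
  apply hN
  rw [hE]
  exact Set.mem_biUnion (Finset.mem_coe.2 (Fintype.mem_piFinset.2 hφ)) hcon

/-- zero topological entropy: for every `ε > 0` there is a length `m ≥ 1` with at most `exp (ε m)` patterns -/
def ZeroEntropy (T : Set ℕ) : Prop :=
  ∀ ε : ℝ, 0 < ε → ∃ m : ℕ, 1 ≤ m ∧ (({P : Set ℕ | ∃ k : ℕ, P = {i | i < m ∧ k + i ∈ T}}.ncard : ℕ) : ℝ) ≤ Real.exp (ε * m)

open Classical in
/-- a dictionary -/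
lemma exists_dict (T : Set ℕ) (m : ℕ) : ∃ D : Finset (Finset ℕ), D.card = {P : Set ℕ | ∃ k : ℕ, P = {i | i < m ∧ k + i ∈ T}}.ncard ∧
    ∀ k : ℕ, ((range m).filter fun i => k + i ∈ T) ∈ D := by
  refine ⟨(range m).powerset.filter fun P => ∃ k : ℕ, P = (range m).filter fun i => k + i ∈ T, ?_, ?_⟩
  · have h1 : {P : Set ℕ | ∃ k : ℕ, P = {i | i < m ∧ k + i ∈ T}} = (fun P : Finset ℕ => (P : Set ℕ)) ''
        (((range m).powerset.filter fun P => ∃ k : ℕ, P = (range m).filter fun i => k + i ∈ T : Finset (Finset ℕ)) : Set (Finset ℕ)) := by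
      ext P
      simp only [Set.mem_ofPred_eq, Set.mem_image, Finset.coe_filter, Finset.mem_powerset]
      constructor
      · rintro ⟨k, rfl⟩
        refine ⟨(range m).filter fun i => k + i ∈ T, ⟨Finset.filter_subset _ _, k, rfl⟩, ?_⟩
        ext i
        simp
      · rintro ⟨P', ⟨_, k, rfl⟩, rfl⟩
        refine ⟨k, ?_⟩
        ext i
        simp
    rw [h1, Set.ncard_image_of_injective _ Finset.coe_injective, Set.ncard_coe_finset]
  · intro k
    rw [Finset.mem_filter, Finset.mem_powerset]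
    exact ⟨Finset.filter_subset _ _, k, rfl⟩

open Classical in
/-- **Frequencies along all sets of times of zero entropy.** -/
theorem ae_zero {c : ℝ} (hc : 0 < c) {Ω : Type} [MeasurableSpace Ω] (μ : Measure Ω) [IsProbabilityMeasure μ] (x : Ω → Conf)
    (hx : ∀ i, Measurable fun ω => x ω i) (hi : iIndepFun (fun (i : ℤ) ω => x ω i) μ)
    (hnd : ∀ i : ℤ, 1 ≤ i → ∀ v : Fin 6, μ.real {ω | x ω i = v} ≤ 1 - c) :
    ∀ᵐ ω ∂μ, ∀ T : Set ℕ, ZeroEntropy T → ∀ (L : ℕ) (w : Fin L → Fin 6) (j : ℤ),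
      Tendsto (fun N : ℕ => ((((range N).filter fun n => n ∈ T).filter fun n => Shows (F^[n] (x ω)) w j).card -
        ((range N).filter fun n => n ∈ T).card / 6 ^ L : ℝ) / N) atTop (𝓝 0) := by
  have hex : ∀ (L J k : ℕ), ∃ δ : ℝ, 0 < δ ∧ ∀ (Ω : Type) [MeasurableSpace Ω]
      (μ : Measure Ω) [IsProbabilityMeasure μ] (x : Ω → Conf), (∀ i, Measurable fun ω => x ω i) →
      iIndepFun (fun (i : ℤ) ω => x ω i) μ → (∀ i : ℤ, 1 ≤ i → ∀ v : Fin 6, μ.real {ω | x ω i = v} ≤ 1 - c) →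
      ∀ᵐ ω ∂μ, ∀ (m : ℕ) (D : Finset (Finset ℕ)), 1 ≤ m → (D.card : ℝ) ≤ Real.exp (δ * m) → ∀ᶠ N : ℕ in atTop,
        ∀ φ : Fin (N / m + 1) → Finset ℕ, (∀ q, φ q ∈ D) → ∀ (w : Fin L → Fin 6) (j : ℤ), |j| ≤ J →
        |(((asm m N φ).filter fun n => Shows (F^[n] (x ω)) w j).card : ℝ) - (asm m N φ).card / 6 ^ L| ≤ 1 / ((k : ℝ) + 1) * N :=
    fun L J k => ae_dict hc L J (show (0 : ℝ) < 1 / ((k : ℝ) + 1) by positivity)
  choose δ hδ hmain using hex
  have h1 : ∀ᵐ ω ∂μ, ∀ (L J k : ℕ), ∀ (m : ℕ) (D : Finset (Finset ℕ)), 1 ≤ m → (D.card : ℝ) ≤ Real.exp (δ L J k * m) →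
      ∀ᶠ N : ℕ in atTop, ∀ φ : Fin (N / m + 1) → Finset ℕ, (∀ q, φ q ∈ D) → ∀ (w : Fin L → Fin 6) (j : ℤ), |j| ≤ J →
        |(((asm m N φ).filter fun n => Shows (F^[n] (x ω)) w j).card : ℝ) - (asm m N φ).card / 6 ^ L| ≤ 1 / ((k : ℝ) + 1) * N := by
    rw [ae_all_iff]
    intro L
    rw [ae_all_iff]
    intro J
    rw [ae_all_iff]
    intro k
    exact hmain L J k Ω μ x hx hi hnd
  filter_upwards [h1] with ω hω T hT L w j
  rw [Metric.tendsto_atTop]
  intro ε hε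
  obtain ⟨k, hk⟩ := exists_nat_one_div_lt hε
  obtain ⟨m, hm, hTm⟩ := hT (δ L j.natAbs k) (hδ _ _ _)
  obtain ⟨D, hDc, hD⟩ := exists_dict T m
  rw [← hDc] at hTm
  obtain ⟨N₀, hN₀⟩ := (hω L j.natAbs k m D hm hTm).exists_forall_of_atTop
  refine ⟨N₀ + 1, fun N hN => ?_⟩
  have hN0 : (0 : ℝ) < N := by exact_mod_cast (by omega : 0 < N)
  have hasm : asm m N (fun q : Fin (N / m + 1) => (range m).filter fun i => (q : ℕ) * m + i ∈ T) =
      (range N).filter fun n => n ∈ T := by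
    unfold asm
    apply Finset.filter_congr
    intro n hn
    have hnN := Finset.mem_range.1 hn
    have h2 : n / m < N / m + 1 := Nat.lt_succ_of_le (Nat.div_le_div_right hnN.le)
    have h3 : n / m * m + n % m = n := Nat.div_add_mod' n m
    have h4 : n % m < m := Nat.mod_lt _ (by omega)
    constructor
    · rintro ⟨_, h5⟩
      rw [Finset.mem_filter] at h5
      have h6 := h5.2
      simp only at h6
      rwa [h3] at h6
    · intro h5
      refine ⟨h2, ?_⟩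
      rw [Finset.mem_filter, Finset.mem_range]
      refine ⟨h4, ?_⟩
      simp only
      rwa [h3]
  have h2 := hN₀ N (by omega) (fun q : Fin (N / m + 1) => (range m).filter fun i => (q : ℕ) * m + i ∈ T)
    (fun q => hD _) w j (by rw [Int.abs_eq_natAbs])
  rw [hasm] at h2
  rw [dist_zero_right, Real.norm_eq_abs, abs_div, abs_of_pos hN0]
  refine lt_of_le_of_lt ?_ hk
  rw [div_le_iff₀ hN0]
  exact h2

end Pool.Agent.J4H40.Rd
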