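import Pool.Agent.J4H40.Qg
import Pool.Agent.J4H40.Sh
import Pool.Agent.R460.GS.Grid
import Pool.Agent.R460.GH.Asm

set_option autoImplicit false

/-! The lower bound in a window. -/

namespace Pool.Agent.J4H40

open Finset Filter
open Pool.Agent.H373R2.T7 (lamz Vz pz lamI lamzI Vz_pos)
open Pool.Agent.Y883.T3 (lsh)
open Pool.Agent.Y883.GJ
open Pool.Agent.R460.GS (cv bd_LA vm_le la la_nn cv_left abelW reflect_sum sum_window win_main' real_sum x_sq lsh_abs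
  one_le_div)
open Pool.Agent.R460.GH (bilMaj3 countK)
open Pool.Agent.W93.PG (wn lam_sub lamz_le lamz_nn)
open Pool.Agent.H560R3.GB (sing)
open Pool.Agent.Y614.GJ.Core (ev_log)

/-- the function `LA` is admissible -/
theorem sec_LA : Sec (fun _ => LA) := by
  refine ⟨?_, fun B C T => ?_⟩
  · obtain ⟨N₀, hN₀⟩ := eventually_atTop.1 (Pool.Agent.R453.GS.ev_log 1)
    exact ⟨N₀, fun N hN => bd_LA (hN₀ N hN)⟩
  · exact shlE Pool.Agent.Y235.GJ.vau Pool.Agent.Y662.GJ.jac Pool.Agent.Y812.GJ.l2 B C T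

/-- the error terms -/
def ErrT (α θ : ℝ) (gf Wf : ℕ → ℕ → ℝ) : Prop := ∀ A T U₀ : ℕ, ∃ B : ℕ, ∀ E : ℕ, ∃ N₀ : ℕ, ∀ N : ℕ, N₀ ≤ N →
  ∀ z : ℕ, Real.log N ^ B ≤ z → (z : ℝ) ≤ Real.log N ^ E → ∃ r : ℕ, Par U₀ N z r ∧
    ∑ n ∈ Icc 1 N, |lamz z n - lsh z r n| ≤ N / Real.log N ^ U₀ ∧
    ∀ (q : ℕ) [NeZero q], (q : ℝ) ≤ (N : ℝ) ^ θ → ∀ a : ZMod q,
    (Nat.gcd a.val q : ℝ) ≤ Real.log N ^ T → ∀ y₁ y₂ : ℕ, y₁ ≤ N → y₂ ≤ N →
      ∑ n ∈ (Icc 1 (2 * N)).filter (fun n : ℕ => (n : ZMod q) = a),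
        ‖cv LA (f1 N (Za α N) (gf N) (Wf N) z r) y₁ y₂ n‖ ^ 2 ≤ (N : ℝ) ^ 3 / (q * Real.log N ^ A)

theorem errLA {α : ℝ} (hα : 1 / 6 ≤ α) (hα2 : α ≤ 1 / 3) {gf Wf : ℕ → ℕ → ℝ} (hfam : Fam α gf Wf) {ρ : ℝ}
    (hρ : 0 < ρ) : ErrT α (1 - α - ρ) gf Wf := by
  intro A T U₀
  exact errE
    (coreE Pool.Agent.Y708.GJ.lift Pool.Agent.Y872.GJ.pars Pool.Agent.Y297.GJ.orth Pool.Agent.Y812.GJ.nonU)
    Pool.Agent.Y812.GJ.l2 (bilMaj3 Pool.Agent.Y812.GJ.l2 (countK Pool.Agent.Y812.GJ.l2))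
    Pool.Agent.Y909.GJ.bilMin (Pool.Agent.R460.GS.tiMaj2 Pool.Agent.Y812.GJ.l2) Pool.Agent.Y412.GJ.tiMin
    Pool.Agent.Y812.GJ.lsh_le Pool.Agent.Y883.GJ.model_all hα hα2 hfam sec_LA A T U₀ hρ

/-- the exceptions of the pointwise bound -/
noncomputable def bad (F : ℕ → ℝ) (c : ℕ) : ℝ := if 99 / 100 * F c ≤ la c then 0 else 1

lemma bad_nn (F : ℕ → ℝ) (c : ℕ) : 0 ≤ bad F c := by unfold bad; split_ifs <;> norm_num

lemma pt_low {F : ℕ → ℝ} {N b c : ℕ} (hb : b ∈ Icc 1 N) (hF : |F c| ≤ 96 * Real.log N) :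
    99 / 100 * (la b * F c) - 96 * Real.log N ^ 2 * bad F c ≤ la b * la c := by
  have h1 := la_nn b
  have h2 := la_nn c
  have h3 : la b ≤ Real.log N := vm_le hb
  have h4 := (le_abs_self (F c)).trans hF
  have hL : 0 ≤ Real.log N := h1.trans h3
  unfold bad
  split_ifs with h
  · rw [mul_zero, sub_zero]
    have := mul_le_mul_of_nonneg_left h h1
    linarith
  · have h5 : la b * F c ≤ Real.log N * (96 * Real.log N) :=
      (mul_le_mul_of_nonneg_left h4 h1).trans (mul_le_mul_of_nonneg_right h3 (by positivity))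
    have h6 : 0 ≤ la b * la c := mul_nonneg h1 h2
    have h7 : 0 ≤ Real.log N ^ 2 := sq_nonneg _
    nlinarith

lemma bad_win {F : ℕ → ℝ} {N n y₁ y₂ : ℕ} (h2 : y₂ < n) (hn : n ≤ N) :
    ∑ b ∈ Ioc y₁ y₂, bad F (n - b) ≤ ∑ b ∈ Icc 1 N, bad F b := by
  calc ∑ b ∈ Ioc y₁ y₂, bad F (n - b) ≤ ∑ b ∈ Icc 1 y₂, bad F (n - b) := by
        refine sum_le_sum_of_subset_of_nonneg (fun b hb => ?_) fun _ _ _ => bad_nn _ _
        rw [mem_Ioc] at hb
        rw [mem_Icc]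
        omega
    _ = ∑ b ∈ Ioc (n - y₂ - 1) (n - 1), bad F b := reflect_sum (bad F) h2
    _ ≤ ∑ b ∈ Icc 1 N, bad F b := by
        refine sum_le_sum_of_subset_of_nonneg (fun b hb => ?_) fun _ _ _ => bad_nn _ _
        rw [mem_Ioc] at hb
        rw [mem_Icc]
        omega

/-- the lower bound by the minorant -/
lemma wn_low {F : ℕ → ℝ} {N n y₁ y₂ : ℕ} (h2 : y₂ < n) (hn : n ≤ N)
    (hF : ∀ c : ℕ, 1 ≤ c → c ≤ N → |F c| ≤ 96 * Real.log N) :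
    99 / 100 * ∑ b ∈ Ioc y₁ y₂, la b * F (n - b) - 96 * Real.log N ^ 2 * ∑ b ∈ Icc 1 N, bad F b ≤ wn n y₁ y₂ := by
  have h1 : ∑ b ∈ Ioc y₁ y₂, (99 / 100 * (la b * F (n - b)) - 96 * Real.log N ^ 2 * bad F (n - b)) ≤
      wn n y₁ y₂ := by
    unfold wn
    refine sum_le_sum fun b hb => ?_
    rw [mem_Ioc] at hb
    rw [lam_sub n b (by omega)]
    exact pt_low (mem_Icc.2 ⟨by omega, by omega⟩) (hF _ (by omega) (by omega))
  rw [sum_sub_distrib, ← mul_sum, ← mul_sum] at h1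
  have h3 := bad_win (F := F) (y₁ := y₁) h2 hn
  have h5 : 96 * Real.log N ^ 2 * ∑ b ∈ Ioc y₁ y₂, bad F (n - b) ≤ 96 * Real.log N ^ 2 * ∑ b ∈ Icc 1 N, bad F b :=
    mul_le_mul_of_nonneg_left h3 (by positivity)
  linarith

/-- the numbers with a large square factor -/
lemma sq_card {Z N : ℕ} (hZ : 1 ≤ Z) (hZN : Z ≤ N) :
    (((Icc 1 N).filter (fun c => ∃ p ∈ Ioc Z N, p * p ∣ c)).card : ℝ) ≤ N / Z := by
  have h1 : (Icc 1 N).filter (fun c => ∃ p ∈ Ioc Z N, p * p ∣ c) ⊆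
      (Ioc Z N).biUnion (fun p => (Icc 1 N).filter (fun c => p * p ∣ c)) := by
    intro c hc
    rw [mem_filter] at hc
    obtain ⟨hc, p, hp, hpc⟩ := hc
    rw [mem_biUnion]
    exact ⟨p, hp, mem_filter.2 ⟨hc, hpc⟩⟩
  have h2 : (((Icc 1 N).filter (fun c => ∃ p ∈ Ioc Z N, p * p ∣ c)).card : ℝ) ≤
      ∑ p ∈ Ioc Z N, (((Icc 1 N).filter (fun c => p * p ∣ c)).card : ℝ) := by
    exact_mod_cast (card_le_card h1).trans card_biUnion_le
  refine h2.trans ?_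
  have h3 : ∀ p ∈ Ioc Z N, (((Icc 1 N).filter (fun c => p * p ∣ c)).card : ℝ) ≤ N * ((p : ℝ) ^ 2)⁻¹ := by
    intro p _
    have e1 : Icc 1 N = Ioc 0 N := by
      ext b
      simp only [mem_Icc, mem_Ioc]
      omega
    rw [e1, Nat.Ioc_filter_dvd_card_eq_div N (p * p)]
    have h4 : ((N / (p * p) : ℕ) : ℝ) ≤ (N : ℝ) / ((p * p : ℕ) : ℝ) := Nat.cast_div_le
    refine h4.trans (le_of_eq ?_)
    push_cast
    rw [div_eq_mul_inv, sq]
  refine (sum_le_sum h3).trans ?_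
  rw [← mul_sum, div_eq_mul_inv]
  apply mul_le_mul_of_nonneg_left _ (Nat.cast_nonneg _)
  have h5 := sum_Ioc_inv_sq_le_sub (α := ℝ) (show Z ≠ 0 by omega) hZN
  refine h5.trans ?_
  have : (0 : ℝ) ≤ (N : ℝ)⁻¹ := by positivity
  linarith

/-- the number of the exceptions -/
lemma bad_sum {P : Ps} {N Z B : ℕ} (h : Ok P) (hPL : P.L = Real.log N) (hPe : P.e = B * Real.log (Real.log N))
    (hB : BZ N Z) (hZ : ∀ p : ℕ, Z < p → P.α * P.L < Real.log p) :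
    ∑ c ∈ Icc 1 N, bad (FR N Z (gc P Z)) c ≤ N / Real.log N ^ B + N / Z := by
  classical
  have hL := h.L0
  have he := h.e1
  have hN0 : (0 : ℝ) < N := by exact_mod_cast (by have := hB.two; omega : 0 < N)
  have hLN : 0 < Real.log N := hB.L
  have e1 : ∑ c ∈ Icc 1 N, bad (FR N Z (gc P Z)) c =
      (((Icc 1 N).filter (fun c => ¬ 99 / 100 * FR N Z (gc P Z) c ≤ la c)).card : ℝ) := by
    rw [card_eq_sum_ones, Nat.cast_sum, sum_filter]
    refine sum_congr rfl fun b _ => ?_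
    unfold bad
    by_cases h : 99 / 100 * FR N Z (gc P Z) b ≤ la b
    · rw [if_pos h, if_neg (not_not.2 h)]
    · rw [if_neg h, if_pos h, Nat.cast_one]
  rw [e1]
  have h1 : (Icc 1 N).filter (fun c => ¬ 99 / 100 * FR N Z (gc P Z) c ≤ la c) ⊆
      Icc 1 ⌊(N : ℝ) / Real.log N ^ B⌋₊ ∪ (Icc 1 N).filter (fun c => ∃ p ∈ Ioc Z N, p * p ∣ c) := by
    intro c hc
    rw [mem_filter, mem_Icc] at hc
    obtain ⟨⟨hc1, hcN⟩, hc2⟩ := hc
    rw [mem_union]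
    by_cases k1 : (c : ℝ) ≤ (N : ℝ) / Real.log N ^ B
    · left
      rw [mem_Icc]
      exact ⟨hc1, Nat.le_floor k1⟩
    right
    rw [mem_filter, mem_Icc]
    refine ⟨⟨hc1, hcN⟩, ?_⟩
    by_contra hno
    apply hc2
    by_cases hr : ∀ p ∈ c.primeFactors, Z < p
    swap
    · rw [FR_zero hc1 hr, mul_zero]
      exact la_nn c
    have hsq : Squarefree c := by
      rw [Nat.squarefree_iff_prime_squarefree]
      intro p hp hpc
      apply hno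
      have hp1 : p ∣ c := (Dvd.intro p rfl).trans hpc
      refine ⟨p, ?_, hpc⟩
      rw [mem_Ioc]
      exact ⟨hr p (Nat.mem_primeFactors.2 ⟨hp, hp1, by omega⟩), (Nat.le_of_dvd (by omega) hp1).trans hcN⟩
    have hcl : P.L - P.e ≤ Real.log c := by
      rw [hPL, hPe, ← Real.log_pow, ← Real.log_div hN0.ne' (by positivity)]
      exact Real.log_le_log (by positivity) (not_le.1 k1).le
    rw [FR_rough hc1 hr]
    have h2 := up_all h hPL hZ hsq hr hcN hcl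
    by_cases hp : c.Prime
    · rw [if_pos hp] at h2
      unfold la
      rw [ArithmeticFunction.vonMangoldt_apply_prime hp]
      have h3 : Real.log N * S c (sg P) ≤ Real.log N * 1 := mul_le_mul_of_nonneg_left h2 hLN.le
      rw [← hPL] at h3 ⊢
      linarith
    · rw [if_neg hp] at h2
      have h3 : Real.log N * S c (sg P) ≤ Real.log N * 0 := mul_le_mul_of_nonneg_left h2 hLN.le
      have := la_nn c
      linarith
  have h2 := (card_le_card h1).trans (card_union_le _ _)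
  rw [Nat.card_Icc, Nat.add_sub_cancel] at h2
  have h3 : (((Icc 1 N).filter (fun c => ¬ 99 / 100 * FR N Z (gc P Z) c ≤ la c)).card : ℝ) ≤
      ((⌊(N : ℝ) / Real.log N ^ B⌋₊ : ℕ) : ℝ) +
      (((Icc 1 N).filter (fun c => ∃ p ∈ Ioc Z N, p * p ∣ c)).card : ℝ) := by exact_mod_cast h2
  have h4 : ((⌊(N : ℝ) / Real.log N ^ B⌋₊ : ℕ) : ℝ) ≤ N / Real.log N ^ B := Nat.floor_le (by positivity)
  have h5 := sq_card (Z := Z) (N := N) (by have := hB.Z2; omega) hB.ZN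
  linarith

/-- the error terms up to `y` -/
lemma err_win {N Z n y z r : ℕ} {g W : ℕ → ℝ} (hy : y < n) (hn : n ≤ N) :
    |∑ b ∈ Icc 1 y, la b * (FR N Z g (n - b) - W (n - b) * lsh z r (n - b))| = ‖cv LA (f1 N Z g W z r) y N n‖ := by
  rw [cv_left hy hn]
  have e : ∑ b ∈ Icc 1 y, LA b * f1 N Z g W z r (n - b) =
      ((∑ b ∈ Icc 1 y, la b * (FR N Z g (n - b) - W (n - b) * lsh z r (n - b)) : ℝ) : ℂ) := by
    push_cast
    refine sum_congr rfl fun b hb => ?_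
    rw [mem_Icc] at hb
    unfold f1 HW
    rw [FC_eq (by omega)]
    push_cast
    rfl
  rw [e, Complex.norm_real, Real.norm_eq_abs]

/-- from the truncated model to the exact model -/
lemma swapM {N n y₁ y₂ z r : ℕ} {W : ℕ → ℝ} {c X₁ : ℝ} (hW : WBd W c N) (h2 : y₂ < n)
    (hn : n ≤ N) (h1 : ∑ n ∈ Icc 1 N, |lamz z n - lsh z r n| ≤ X₁) :
    |∑ b ∈ Ioc y₁ y₂, la b * (W (n - b) * lsh z r (n - b)) - ∑ b ∈ Ioc y₁ y₂, la b * (W (n - b) * lamz z (n - b))| ≤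
    c * Real.log N * X₁ := by
  have hc := hW.hc
  have hL0 : 0 ≤ Real.log N := Real.log_natCast_nonneg N
  rw [← sum_sub_distrib]
  have hpt : ∀ b ∈ Ioc y₁ y₂, |la b * (W (n - b) * lsh z r (n - b)) - la b * (W (n - b) * lamz z (n - b))| ≤
      c * Real.log N * |lamz z (n - b) - lsh z r (n - b)| := by
    intro b hb
    rw [mem_Ioc] at hb
    have e : la b * (W (n - b) * lsh z r (n - b)) - la b * (W (n - b) * lamz z (n - b)) =
      (la b * W (n - b)) * (lsh z r (n - b) - lamz z (n - b)) := by ring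
    rw [e, abs_mul, abs_sub_comm (lsh z r (n - b))]
    apply mul_le_mul_of_nonneg_right _ (abs_nonneg _)
    rw [abs_mul, abs_of_nonneg (la_nn b), mul_comm c]
    exact mul_le_mul (vm_le (mem_Icc.2 ⟨by omega, by omega⟩)) (hW.h1 _ (by omega)) (abs_nonneg _) hL0
  refine (abs_sum_le_sum_abs _ _).trans ((sum_le_sum hpt).trans ?_)
  rw [← mul_sum]
  apply mul_le_mul_of_nonneg_left _ (by positivity)
  refine le_trans ?_ h1
  obtain ⟨F, hF⟩ : ∃ F : ℕ → ℝ, F = fun b => |lamz z b - lsh z r b| := ⟨_, rfl⟩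
  have hF0 : ∀ b, 0 ≤ F b := fun b => by rw [hF]; exact abs_nonneg _
  have e2 : ∑ b ∈ Ioc y₁ y₂, |lamz z (n - b) - lsh z r (n - b)| = ∑ b ∈ Ioc y₁ y₂, F (n - b) := by rw [hF]
  have e3 : ∑ n ∈ Icc 1 N, |lamz z n - lsh z r n| = ∑ b ∈ Icc 1 N, F b := by rw [hF]
  rw [e2, e3]
  calc ∑ b ∈ Ioc y₁ y₂, F (n - b) ≤ ∑ b ∈ Icc 1 y₂, F (n - b) := by
        refine sum_le_sum_of_subset_of_nonneg (fun b hb => ?_) fun _ _ _ => hF0 _
        rw [mem_Ioc] at hb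
        rw [mem_Icc]
        omega
    _ = ∑ b ∈ Ioc (n - y₂ - 1) (n - 1), F b := reflect_sum F h2
    _ ≤ ∑ b ∈ Icc 1 N, F b := by
        refine sum_le_sum_of_subset_of_nonneg (fun b hb => ?_) fun _ _ _ => hF0 _
        rw [mem_Ioc] at hb
        rw [mem_Icc]
        omega

lemma reflW {W : ℕ → ℝ} {c : ℝ} {N : ℕ} (h : WBd W c N) {n y : ℕ} (hn : n ≤ N) (hy : y < n) :
    ∑ i ∈ range y, |W (n - (i + 1)) - W (n - i)| ≤ c := by
  have e1 : ∀ i ∈ range n, |W (n - (i + 1)) - W (n - i)| = |W (n - 1 - i + 1) - W (n - 1 - i)| := by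
    intro i hi
    rw [mem_range] at hi
    rw [abs_sub_comm, show n - 1 - i + 1 = n - i by omega, show n - (i + 1) = n - 1 - i by omega]
  calc ∑ i ∈ range y, |W (n - (i + 1)) - W (n - i)| ≤ ∑ i ∈ range n, |W (n - (i + 1)) - W (n - i)| :=
        sum_le_sum_of_subset_of_nonneg (range_subset_range.2 hy.le) fun _ _ _ => abs_nonneg _
    _ = ∑ i ∈ range n, |W (n - 1 - i + 1) - W (n - 1 - i)| := sum_congr rfl e1
    _ = ∑ i ∈ range n, |W (i + 1) - W i| := sum_range_reflect (fun i => |W (i + 1) - W i|) n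
    _ ≤ ∑ i ∈ range N, |W (i + 1) - W i| :=
        sum_le_sum_of_subset_of_nonneg (range_subset_range.2 hn) fun _ _ _ => abs_nonneg _
    _ ≤ c := h.h2

/-- the main term with weights -/
lemma detM {N n y₁ y₂ : ℕ} {W l lz : ℕ → ℝ} {c S ε : ℝ} (hW : WBd W c N) (hn : n ≤ N) (h12 : y₁ ≤ y₂)
    (h2 : y₂ < n) (hm1 : ∀ y < n, |∑ b ∈ Icc 1 y, l b * lz (n - b) - S * y| ≤ ε) :
    |∑ b ∈ Ioc y₁ y₂, l b * (W (n - b) * lz (n - b)) - S * ∑ b ∈ Ioc y₁ y₂, W (n - b)| ≤ 4 * (c * ε) := by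
  have hc := hW.hc
  have cst : ∀ m : ℕ, ∑ _i ∈ Icc 1 m, S = S * m := by
    intro m
    rw [sum_const, Nat.card_Icc, nsmul_eq_mul, Nat.add_sub_cancel, mul_comm]
  have p1 : ∀ m ≤ y₂, |∑ i ∈ Icc 1 m, (l i * lz (n - i) - S)| ≤ ε := by
    intro m hm
    rw [sum_sub_distrib, cst]
    exact hm1 m (by omega)
  have q1 := abelW (fun i => l i * lz (n - i) - S) (fun i => W (n - i)) ε c c y₁ y₂ h12 p1
    (fun i hi => hW.h1 _ (by omega)) (reflW hW hn h2) hc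
  have e : ∑ b ∈ Ioc y₁ y₂, l b * (W (n - b) * lz (n - b)) - S * ∑ b ∈ Ioc y₁ y₂, W (n - b) =
      ∑ i ∈ Ioc y₁ y₂, W (n - i) * (l i * lz (n - i) - S) := by
    rw [mul_sum, ← sum_sub_distrib]
    refine sum_congr rfl fun b _ => ?_
    ring
  rw [e]
  refine q1.trans (le_of_eq ?_)
  ring

/-- the density of the main term -/
lemma densM {N n y₁ y₂ : ℕ} {W : ℕ → ℝ} {c h₀ X : ℝ} (hW : WBd W c N) (hn : n ≤ N) (h12 : y₁ ≤ y₂)
    (h2 : y₂ < n) (hX : 0 ≤ X) (hh : 0 ≤ h₀) (hd : ∀ b : ℕ, b ≤ N → X ≤ b → h₀ ≤ W b) :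
    h₀ * ((y₂ : ℝ) - y₁) - (c + h₀) * (X + 1) ≤ ∑ b ∈ Ioc y₁ y₂, W (n - b) := by
  classical
  have hc := hW.hc
  have h1 : ∀ b ∈ Ioc y₁ y₂, h₀ - (if ((n - b : ℕ) : ℝ) < X then (c + h₀) else 0) ≤ W (n - b) := by
    intro b hb
    rw [mem_Ioc] at hb
    have k4 := (abs_le.1 (hW.h1 (n - b) (by omega))).1
    by_cases a2 : ((n - b : ℕ) : ℝ) < X
    · rw [if_pos a2]
      linarith
    · rw [if_neg a2]
      have := hd (n - b) (by omega) (not_lt.1 a2)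
      linarith
  refine le_trans ?_ (sum_le_sum h1)
  rw [sum_sub_distrib, sum_const, Nat.card_Ioc, nsmul_eq_mul, ← sum_filter, sum_const, nsmul_eq_mul]
  have c2 : (((Ioc y₁ y₂).filter (fun b : ℕ => ((n - b : ℕ) : ℝ) < X)).card : ℝ) ≤ X + 1 := by
    have e0 : ((Ioc y₁ y₂).filter (fun b : ℕ => ((n - b : ℕ) : ℝ) < X)).card ≤ (Icc 1 ⌊X⌋₊).card := by
      refine card_le_card_of_injOn (fun b => n - b) ?_ ?_
      · intro b hb
        rw [mem_coe, mem_filter, mem_Ioc] at hb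
        rw [mem_coe, mem_Icc]
        have h5 : 1 ≤ n - b := by omega
        exact ⟨h5, Nat.le_floor hb.2.le⟩
      · intro a ha b hb hab
        rw [mem_coe, mem_filter, mem_Ioc] at ha hb
        simp only at hab
        omega
    rw [Nat.card_Icc, Nat.add_sub_cancel] at e0
    have e3 : ((⌊X⌋₊ : ℕ) : ℝ) ≤ X := Nat.floor_le hX
    have e4 : (((Ioc y₁ y₂).filter (fun b : ℕ => ((n - b : ℕ) : ℝ) < X)).card : ℝ) ≤ ((⌊X⌋₊ : ℕ) : ℝ) := by
      exact_mod_cast e0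
    linarith
  have c3 : ((y₂ - y₁ : ℕ) : ℝ) = (y₂ : ℝ) - y₁ := Nat.cast_sub h12
  rw [c3]
  have := mul_le_mul_of_nonneg_right c2 (by linarith : 0 ≤ c + h₀)
  linarith

end Pool.Agent.J4H40
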