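import Pool.Agent.J4H40.Wf
import Pool.Agent.J4H40.Qh

set_option autoImplicit false

/-! Representations as a sum of a prime and a product with a small factor: all but few integers in the residue
classes of every modulus `q ≤ N ^ (1 - ρ)`. -/

namespace Pool.Agent.J4H40

open Finset Filter
open Pool.Agent.H373R2.T7 (lamz Vz pz lamI lamzI Vz_pos)
open Pool.Agent.Y883.T3 (lsh)
open Pool.Agent.Y883.GJ
open Pool.Agent.R460.GS (cv bd_LA vm_le la la_nn cv_left win_main' BdAt)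
open Pool.Agent.R460.GH (bilMaj3 countK)
open Pool.Agent.H560R3.GB (sing)
open Pool.Agent.Y614.GJ.Core (ev_log)
open Pool.Agent.Y883.T4 (class_le)

/-- the error terms for the function `LA` -/
theorem errKLA {ρ σ κ : ℝ} (hκ : 0 < κ) (hσ0 : 0 < σ) (hσρ : σ < ρ) (hσ : σ ≤ 1 / 2) (A T U₀ : ℕ) :
    ∃ B : ℕ, ∀ E : ℕ, ∃ N₀ : ℕ, ∀ N : ℕ, N₀ ≤ N → ∀ z : ℕ,
    Real.log N ^ B ≤ z → (z : ℝ) ≤ Real.log N ^ E → ∃ r : ℕ, Par U₀ N z r ∧
    ∑ n ∈ Icc 1 N, |lamz z n - lsh z r n| ≤ N / Real.log N ^ U₀ ∧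
    ∀ a : ℕ → ℝ, Cm N κ σ a → ∀ (q : ℕ) [NeZero q], (q : ℝ) ≤ (N : ℝ) ^ (1 - ρ) → ∀ c : ZMod q,
    (Nat.gcd c.val q : ℝ) ≤ Real.log N ^ T → ∀ y₁ y₂ : ℕ, y₁ ≤ N → y₂ ≤ N →
      ∑ n ∈ (Icc 1 (2 * N)).filter (fun n : ℕ => (n : ZMod q) = c),
        ‖cv LA (f2 a (Vd N a) z r) y₁ y₂ n‖ ^ 2 ≤ (N : ℝ) ^ 3 / (q * Real.log N ^ A) := by
  obtain ⟨δ, hδ⟩ : ∃ δ : ℝ, δ = (ρ + σ) / 2 := ⟨_, rfl⟩
  have hδ0 : 0 < δ := by rw [hδ]; linarith
  have hδ1 : δ < ρ := by rw [hδ]; linarith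
  have hδ2 : σ < δ := by rw [hδ]; linarith
  obtain ⟨κ', hκ'⟩ : ∃ κ' : ℝ, κ' = min (1 / 20) (δ / 3) := ⟨_, rfl⟩
  have hκ'0 : 0 < κ' := by rw [hκ']; exact lt_min (by norm_num) (by positivity)
  have hκ'1 : κ' ≤ 1 / 20 := by rw [hκ']; exact min_le_left _ _
  have hκ'2 : κ' ≤ δ / 3 := by rw [hκ']; exact min_le_right _ _
  obtain ⟨k, hk⟩ := exists_nat_ge (2 / δ)
  obtain ⟨K₀, hK₀⟩ : ∃ K₀, K₀ = k + 100 := ⟨_, rfl⟩
  have hK₀r : 2 / δ ≤ (K₀ : ℝ) := by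
    rw [hK₀]
    push_cast
    linarith
  have hK₀0 : (0 : ℝ) < K₀ := by
    rw [hK₀]
    positivity
  have hK₀δ : 2 / (K₀ : ℝ) ≤ δ := by
    rw [div_le_iff₀ hδ0] at hK₀r
    rw [div_le_iff₀ hK₀0]
    linarith
  refine errK (Ff := fun _ => LA)
    (coreE Pool.Agent.Y708.GJ.lift Pool.Agent.Y872.GJ.pars Pool.Agent.Y297.GJ.orth Pool.Agent.Y812.GJ.nonU)
    (bilMaj3 Pool.Agent.Y812.GJ.l2 (countK Pool.Agent.Y812.GJ.l2))
    Pool.Agent.Y909.GJ.bilMin (Pool.Agent.R460.GS.tiMaj2 Pool.Agent.Y812.GJ.l2) Pool.Agent.Y412.GJ.tiMin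
    Pool.Agent.Y812.GJ.lsh_le (θ₁ := 1 - ρ) (θ₂ := 1 - δ) ?_ ?_ (by linarith) hκ hσ (by linarith) (by linarith)
    (K₀ := K₀) (by omega) (by linarith) A T U₀
  · obtain ⟨N₀, hN₀⟩ := eventually_atTop.1 (Pool.Agent.R453.GS.ev_log 1)
    exact ⟨N₀, fun N hN => bd_LA (hN₀ N hN)⟩
  · intro B C T
    obtain ⟨K, N₀, h⟩ := shlK hκ'0 hκ'1 Pool.Agent.Y235.GJ.vau Pool.Agent.Y662.GJ.jac Pool.Agent.Y812.GJ.l2 B C T
    obtain ⟨N₁, h1⟩ := Pool.Agent.R462.GS.evL 1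
    refine ⟨K, N₀ + N₁ + 1, fun N hN => ?_⟩
    exact shE_mono (by omega) (by linarith) (h1 N (by omega)) le_rfl (h N (by omega))

/-- the weighted number of the solutions of `b + d k = n`, `b ≤ y` -/
noncomputable def RC (a : ℕ → ℝ) (n y : ℕ) : ℝ := ∑ b ∈ Icc 1 y, la b * GA a (n - b)

/-- the asymptotic formula for all `y < n` -/
def GoodN (N : ℕ) (a : ℕ → ℝ) (A n : ℕ) : Prop :=
  ∀ y : ℕ, y < n → |RC a n y - sing n * Vd N a * y| ≤ N / Real.log N ^ A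

/-- the error term at one point -/
lemma err_RC {N n y z r : ℕ} {a : ℕ → ℝ} {V : ℝ} (hy : y < n) (hn : n ≤ N) :
    ‖cv LA (f2 a V z r) y N n‖ = |RC a n y - ∑ b ∈ Icc 1 y, la b * (V * lsh z r (n - b))| := by
  rw [cv_left hy hn]
  have e : ∑ b ∈ Icc 1 y, LA b * f2 a V z r (n - b) =
      ((RC a n y - ∑ b ∈ Icc 1 y, la b * (V * lsh z r (n - b)) : ℝ) : ℂ) := by
    unfold RC
    rw [← sum_sub_distrib]
    push_cast
    refine sum_congr rfl fun b _ => ?_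
    unfold f2 HW GC LA la
    push_cast
    ring
  rw [e, Complex.norm_real, Real.norm_eq_abs]

lemma icc_ioc (y : ℕ) : Icc 1 y = Ioc 0 y := by
  ext b
  simp only [mem_Icc, mem_Ioc]
  omega

/-- the asymptotic formula at one point of the grid -/
lemma gridK (A E1 : ℕ) (hE1 : A + 7 ≤ E1) : ∃ N₀ : ℕ, ∀ N : ℕ, N₀ ≤ N →
    ∀ z r : ℕ, Real.log N ^ E1 ≤ z → (z : ℝ) ≤ Real.log N ^ (E1 + 1) →
    ∑ n ∈ Icc 1 N, |lamz z n - lsh z r n| ≤ N / Real.log N ^ (A + 3) →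
    ∀ n : ℕ, n ≤ N → 2 ∣ n → n ≠ 0 → 0 ≤ sing n ∧ sing n ≤ 2 * Real.log N ∧
    ∀ (a : ℕ → ℝ), |Vd N a| ≤ 1 → ∀ y : ℕ, y < n →
      ‖cv LA (f2 a (Vd N a) z r) y N n‖ ≤ N / Real.log N ^ (A + 2) →
      |RC a n y - sing n * Vd N a * y| ≤ 3 * (N / Real.log N ^ (A + 2)) := by
  obtain ⟨X0, hX0⟩ := win_main' (A + 1) E1 (by omega)
  obtain ⟨Ne, hNe⟩ := Pool.Agent.R462.GS.evL 2
  refine ⟨X0 + Ne + 1, fun N hN z r hz1 hz2 hsum n hn h2n hn0 => ?_⟩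
  have hLe := hNe N (by omega)
  obtain ⟨hwin, hS0, hS2⟩ := hX0 N (by omega) n hn h2n hn0 z hz1 hz2
  refine ⟨hS0, hS2, fun a hV y hy hs => ?_⟩
  have hN0 : (0 : ℝ) < N := by exact_mod_cast (by omega : 0 < N)
  have h1 := (hwin y hy).1
  rw [err_RC hy hn] at hs
  have h2 := swapM (W := fun _ => Vd N a) (y₁ := 0) (y₂ := y) (z := z) (r := r) (wbd_const hV) hy hn hsum
  rw [← icc_ioc] at h2
  obtain ⟨L, hLd⟩ : ∃ L, L = Real.log (N : ℝ) := ⟨_, rfl⟩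
  rw [← hLd] at h1 h2 hs hLe ⊢
  have hL0 : 0 < L := by linarith
  have e1 : 1 * L * (N / L ^ (A + 3)) = N / L ^ (A + 2) := by
    rw [show A + 3 = (A + 2) + 1 by ring, pow_succ L (A + 2)]
    field_simp
  rw [e1] at h2
  have e2 : ∑ b ∈ Icc 1 y, la b * (Vd N a * lamz z (n - b)) = Vd N a * ∑ b ∈ Icc 1 y, la b * lamz z (n - b) := by
    rw [mul_sum]
    refine sum_congr rfl fun b _ => ?_
    ring
  rw [e2] at h2
  have h3 : |Vd N a * ∑ b ∈ Icc 1 y, la b * lamz z (n - b) - sing n * Vd N a * y| ≤ N / L ^ (A + 2) := by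
    have e3 : Vd N a * ∑ b ∈ Icc 1 y, la b * lamz z (n - b) - sing n * Vd N a * y =
      Vd N a * (∑ b ∈ Icc 1 y, la b * lamz z (n - b) - sing n * y) := by ring
    rw [e3, abs_mul]
    calc |Vd N a| * _ ≤ 1 * (2 * (N / L ^ (A + 1 + 2))) :=
          mul_le_mul hV h1 (abs_nonneg _) (by norm_num)
      _ = N / L ^ (A + 2) * (2 / L) := by
          rw [show A + 1 + 2 = (A + 2) + 1 by ring, pow_succ L (A + 2)]
          field_simp
      _ ≤ N / L ^ (A + 2) * 1 := by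
          apply mul_le_mul_of_nonneg_left _ (by positivity)
          rw [div_le_one hL0]
          exact hLe
      _ = _ := mul_one _
  have h4 := abs_add_three (RC a n y - ∑ b ∈ Icc 1 y, la b * (Vd N a * lsh z r (n - b)))
    (∑ b ∈ Icc 1 y, la b * (Vd N a * lsh z r (n - b)) - Vd N a * ∑ b ∈ Icc 1 y, la b * lamz z (n - b))
    (Vd N a * ∑ b ∈ Icc 1 y, la b * lamz z (n - b) - sing n * Vd N a * y)
  have e5 : RC a n y - ∑ b ∈ Icc 1 y, la b * (Vd N a * lsh z r (n - b)) +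
    (∑ b ∈ Icc 1 y, la b * (Vd N a * lsh z r (n - b)) - Vd N a * ∑ b ∈ Icc 1 y, la b * lamz z (n - b)) +
    (Vd N a * ∑ b ∈ Icc 1 y, la b * lamz z (n - b) - sing n * Vd N a * y) = RC a n y - sing n * Vd N a * y := by
    ring
  rw [e5] at h4
  linarith

/-- a short sum -/
lemma RC_short {N n y₁ y₂ : ℕ} {a : ℕ → ℝ} (ha : ∀ m, |a m| ≤ 1) (h12 : y₁ ≤ y₂) (h2 : y₂ < n) (hn : n ≤ N) :
    |RC a n y₂ - RC a n y₁| ≤ ((y₂ : ℝ) - y₁) * Real.log N ^ 2 := by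
  have e1 : RC a n y₂ - RC a n y₁ = ∑ b ∈ Ioc y₁ y₂, la b * GA a (n - b) := by
    unfold RC
    rw [icc_ioc, icc_ioc, ← sum_Ioc_consecutive _ (Nat.zero_le y₁) h12]
    ring
  rw [e1]
  refine (abs_sum_le_sum_abs _ _).trans ?_
  have h3 : ∀ b ∈ Ioc y₁ y₂, |la b * GA a (n - b)| ≤ Real.log N ^ 2 := by
    intro b hb
    rw [mem_Ioc] at hb
    rw [abs_mul, abs_of_nonneg (la_nn b), sq]
    have k1 : la b ≤ Real.log N := vm_le (mem_Icc.2 ⟨by omega, by omega⟩)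
    have k2 : |GA a (n - b)| ≤ Real.log N := by
      refine (GA_abs ha _).trans ?_
      apply Real.log_le_log
      · exact_mod_cast (by omega : 0 < n - b)
      · exact_mod_cast (by omega : n - b ≤ N)
    exact mul_le_mul k1 k2 (abs_nonneg _) (Real.log_natCast_nonneg N)
  refine (sum_le_sum h3).trans ?_
  rw [sum_const, Nat.card_Ioc, nsmul_eq_mul, Nat.cast_sub h12]

open Classical in
/-- the asymptotic formula, all but few integers in the residue classes of every modulus -/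
theorem mainK {ρ σ κ : ℝ} (hκ : 0 < κ) (hσ0 : 0 < σ) (hσρ : σ < ρ) (hσ : σ ≤ 1 / 2) (A T : ℕ) :
    ∃ N₀ : ℕ, ∀ N : ℕ, N₀ ≤ N → ∀ c : ℕ → ℝ, Cm N κ σ c → ∀ q : ℕ, 1 ≤ q →
      (q : ℝ) ≤ (N : ℝ) ^ (1 - ρ) → ∀ a : ℕ, (Nat.gcd a q : ℝ) ≤ Real.log N ^ T →
        (({n ∈ Icc 1 N | 2 ∣ n ∧ n ≡ a [MOD q] ∧ ¬ GoodN N c A n}.card : ℕ) : ℝ) ≤
          (N : ℝ) / (q * Real.log N ^ A) := by
  obtain ⟨B, hB⟩ := errKLA hκ hσ0 hσρ hσ (4 * A + 9) T (A + 3)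
  obtain ⟨E1, hE1⟩ : ∃ E1, E1 = max B (A + 7) := ⟨_, rfl⟩
  obtain ⟨N₁, hM1⟩ := hB (E1 + 1)
  obtain ⟨N₂, hM2⟩ := gridK A E1 (by rw [hE1]; exact le_max_right _ _)
  obtain ⟨N₄, hM4⟩ := Filter.eventually_atTop.1 (ev_log (A + 4) (s := 1 / 6) (by norm_num) 100)
  refine ⟨N₁ + N₂ + N₄ + 3, fun N hN c hc q hq1 hqN a ha => ?_⟩
  have : NeZero q := ⟨by omega⟩
  have hN1 : 1 ≤ N := by omega
  have hN0 : (0 : ℝ) < N := by exact_mod_cast hN1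
  have hN1r : (1 : ℝ) ≤ N := by exact_mod_cast hN1
  obtain ⟨hL100, hLp⟩ := hM4 N (by omega)
  have c1 := hM1 N (by omega)
  have c2 := hM2 N (by omega)
  have hsh := fun (n y₁ y₂ : ℕ) (h12 : y₁ ≤ y₂) (h2 : y₂ < n) (hn : n ≤ N) =>
    RC_short (a := c) (N := N) hc.le1 h12 h2 hn
  obtain ⟨G, hG⟩ : ∃ G : ℕ → Prop, G = GoodN N c A := ⟨_, rfl⟩
  have hGd : ∀ n, (∀ y : ℕ, y < n → |RC c n y - sing n * Vd N c * y| ≤ N / Real.log N ^ A) → G n := by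
    intro n h
    rw [hG]
    exact h
  rw [← hG]
  obtain ⟨L, hLd⟩ : ∃ L, L = Real.log (N : ℝ) := ⟨_, rfl⟩
  rw [← hLd] at c1 c2 hsh hL100 hLp ha hGd ⊢
  have hL0 : 0 < L := by linarith
  have hL1 : 1 ≤ L := by linarith
  have hq0 : (0 : ℝ) < q := by exact_mod_cast hq1
  -- the parameter `z`
  obtain ⟨z, hz⟩ : ∃ z, z = ⌈L ^ E1⌉₊ := ⟨_, rfl⟩
  have hzlo : L ^ E1 ≤ z := by rw [hz]; exact Nat.le_ceil _
  have hL1B : 1 ≤ L ^ E1 := one_le_pow₀ hL1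
  have hzhi : (z : ℝ) ≤ L ^ (E1 + 1) := by
    have := Nat.ceil_lt_add_one (show 0 ≤ L ^ E1 by positivity)
    rw [← hz] at this
    calc (z : ℝ) ≤ L ^ E1 + 1 := this.le
      _ ≤ L ^ E1 + L ^ E1 := by linarith
      _ = 2 * L ^ E1 := by ring
      _ ≤ L * L ^ E1 := mul_le_mul_of_nonneg_right (by linarith) (by positivity)
      _ = L ^ (E1 + 1) := by ring
  have hzB : L ^ B ≤ z := (pow_le_pow_right₀ hL1 (by rw [hE1]; exact le_max_left _ _)).trans hzlo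
  obtain ⟨r, hPar, hsum, hms⟩ := c1 z hzB hzhi
  have c2' := c2 z r hzlo hzhi hsum
  -- the grid
  obtain ⟨V, hV⟩ : ∃ V, V = A + 4 := ⟨_, rfl⟩
  obtain ⟨Tg, hTg⟩ : ∃ Tg, Tg = ⌈L ^ V⌉₊ := ⟨_, rfl⟩
  have hT1 : L ^ V ≤ Tg := by rw [hTg]; exact Nat.le_ceil _
  have hLV : 1 ≤ L ^ V := one_le_pow₀ hL1
  have hT2 : (Tg : ℝ) ≤ L ^ V + 1 := by
    rw [hTg]
    exact (Nat.ceil_lt_add_one (by positivity)).le
  have hTpos : 0 < Tg := by
    have : (0 : ℝ) < Tg := by linarith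
    exact_mod_cast this
  obtain ⟨H, hH⟩ : ∃ H, H = N / Tg + 1 := ⟨_, rfl⟩
  have hH1 : 1 ≤ H := by rw [hH]; exact Nat.le_add_left 1 _
  have hpow1 : (N : ℝ) ^ (1 / 6 : ℝ) ≤ N := by
    calc (N : ℝ) ^ (1 / 6 : ℝ) ≤ (N : ℝ) ^ (1 : ℝ) := Real.rpow_le_rpow_of_exponent_le hN1r (by norm_num)
      _ = N := Real.rpow_one _
  have hHr : (H : ℝ) ≤ 2 * (N / L ^ V) := by
    rw [hH]
    push_cast
    have e1 : ((N / Tg : ℕ) : ℝ) ≤ N / L ^ V := by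
      calc ((N / Tg : ℕ) : ℝ) ≤ (N : ℝ) / Tg := Nat.cast_div_le
        _ ≤ N / L ^ V := div_le_div_of_nonneg_left hN0.le (by positivity) hT1
    have e2 : 1 ≤ (N : ℝ) / L ^ V := by
      rw [le_div_iff₀ (by positivity), one_mul]
      exact (pow_le_pow_right₀ hL1 (by omega)).trans (hLp.trans hpow1)
    linarith
  have hjT : ∀ j : ℕ, j * H ≤ N → j < Tg + 1 := by
    intro j hj
    by_contra hcon
    have e1 : (Tg + 1) * H ≤ j * H := Nat.mul_le_mul_right _ (by omega)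
    have e2 : N < Tg * H := by
      rw [hH]
      have := Nat.lt_mul_div_succ N hTpos
      exact this
    have e3 : Tg * H ≤ (Tg + 1) * H := Nat.mul_le_mul_right _ (by omega)
    omega
  have hgcd : ((Nat.gcd (ZMod.val (a : ZMod q)) q : ℕ) : ℝ) ≤ L ^ T := by
    rw [ZMod.val_natCast, ← Nat.gcd_rec, Nat.gcd_comm]
    exact ha
  obtain ⟨Bd, hBd⟩ : ∃ Bd : Finset ℕ, Bd = {n ∈ Icc 1 N | 2 ∣ n ∧ n ≡ a [MOD q] ∧ ¬ G n} := ⟨_, rfl⟩
  rw [← hBd]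
  have hmem : ∀ n ∈ Bd, 1 ≤ n ∧ n ≤ N ∧ 2 ∣ n ∧ n ≡ a [MOD q] ∧ ¬ G n := by
    intro n hn
    rw [hBd, mem_filter, mem_Icc] at hn
    exact ⟨hn.1.1, hn.1.2, hn.2.1, hn.2.2.1, hn.2.2.2⟩
  obtain ⟨J, hJ⟩ : ∃ J, J = (range (Tg + 1)).filter (fun j => j * H ≤ N) := ⟨_, rfl⟩
  obtain ⟨E2, hE2⟩ : ∃ E2 : ℕ → ℕ → ℝ, E2 = fun n y =>
    ‖cv LA (f2 c (Vd N c) z r) y N n‖ ^ 2 := ⟨_, rfl⟩
  have hE2nn : ∀ n y, 0 ≤ E2 n y := fun n y => by rw [hE2]; positivity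
  have hden : |Vd N c| ≤ 1 := hc.den
  have hterm : ∀ n ∈ Bd, ((N : ℝ) / L ^ (A + 2)) ^ 2 ≤ ∑ j ∈ J, E2 n (j * H) := by
    intro n hn
    obtain ⟨a1, a2, a3, a4, a5⟩ := hmem n hn
    by_contra hcon
    rw [not_le] at hcon
    obtain ⟨hS0, hS2, hgr⟩ := c2' n a2 a3 (by omega)
    have hsm : ∀ j : ℕ, j * H < n → ‖cv LA (f2 c (Vd N c) z r) (j * H) N n‖ ≤ N / L ^ (A + 2) := by
      intro j hj
      by_contra hns
      rw [not_le] at hns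
      have k1 : ((N : ℝ) / L ^ (A + 2)) ^ 2 ≤ E2 n (j * H) := by
        rw [hE2]
        exact pow_le_pow_left₀ (by positivity) hns.le 2
      have k2 : E2 n (j * H) ≤ ∑ j ∈ J, E2 n (j * H) := by
        refine single_le_sum (f := fun j => E2 n (j * H)) (fun _ _ => hE2nn _ _) ?_
        rw [hJ, mem_filter, mem_range]
        exact ⟨hjT j (by omega), by omega⟩
      linarith
    apply a5
    apply hGd
    intro y hy
    obtain ⟨j, hj⟩ : ∃ j, j = y / H := ⟨_, rfl⟩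
    have hj1 : j * H ≤ y := by rw [hj]; exact Nat.div_mul_le_self _ _
    have hj2 : y < j * H + H := by
      rw [hj]
      exact Nat.lt_div_mul_add (by omega)
    have m1 := hgr c hden (j * H) (by omega) (hsm j (by omega))
    have m2 := hsh n (j * H) y hj1 hy a2
    have hdy : (y : ℝ) - ((j * H : ℕ) : ℝ) ≤ H := by
      have : (y : ℝ) ≤ ((j * H : ℕ) : ℝ) + H := by exact_mod_cast hj2.le
      linarith
    have hdy0 : 0 ≤ (y : ℝ) - ((j * H : ℕ) : ℝ) := by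
      have : ((j * H : ℕ) : ℝ) ≤ y := by exact_mod_cast hj1
      linarith
    have m3 : |sing n * Vd N c * ((j * H : ℕ) : ℝ) - sing n * Vd N c * y| ≤ 2 * L * H := by
      rw [← mul_sub, abs_mul, abs_mul, abs_of_nonneg hS0]
      have e1 : |((j * H : ℕ) : ℝ) - (y : ℝ)| ≤ H := by
        rw [abs_le]
        constructor <;> linarith
      calc sing n * |Vd N c| * |((j * H : ℕ) : ℝ) - (y : ℝ)| ≤ (2 * L) * 1 * H := by
            gcongr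
        _ = _ := by ring
    have m4 := abs_add_three (RC c n y - RC c n (j * H)) (RC c n (j * H) - sing n * Vd N c * ((j * H : ℕ) : ℝ))
      (sing n * Vd N c * ((j * H : ℕ) : ℝ) - sing n * Vd N c * y)
    have e5 : RC c n y - RC c n (j * H) + (RC c n (j * H) - sing n * Vd N c * ((j * H : ℕ) : ℝ)) +
      (sing n * Vd N c * ((j * H : ℕ) : ℝ) - sing n * Vd N c * y) = RC c n y - sing n * Vd N c * y := by ring
    rw [e5] at m4
    have hH0 : (0 : ℝ) ≤ H := Nat.cast_nonneg _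
    have m5 : ((y : ℝ) - ((j * H : ℕ) : ℝ)) * L ^ 2 ≤ H * L ^ 2 := mul_le_mul_of_nonneg_right hdy (by positivity)
    have e6 : (H : ℝ) * L ^ 2 ≤ 2 * (N / L ^ (A + 2)) := by
      calc (H : ℝ) * L ^ 2 ≤ 2 * (N / L ^ V) * L ^ 2 := by gcongr
        _ = 2 * (N / L ^ (A + 2)) := by
            rw [hV, show A + 4 = (A + 2) + 2 by ring, pow_add L (A + 2) 2]
            field_simp
    have e7 : 2 * L * H ≤ H * L ^ 2 := by
      have : 2 * L ≤ L ^ 2 := by nlinarith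
      calc 2 * L * H ≤ L ^ 2 * H := mul_le_mul_of_nonneg_right this hH0
        _ = _ := by ring
    have e8 : 7 * ((N : ℝ) / L ^ (A + 2)) ≤ N / L ^ A := by
      have f1 : (N : ℝ) / L ^ (A + 2) = N / L ^ A * (1 / L ^ 2) := by
        rw [pow_add]
        field_simp
      have f2 : 7 * (1 / L ^ 2) ≤ 1 := by
        rw [mul_one_div, div_le_one (by positivity)]
        nlinarith
      have f3 : 0 ≤ (N : ℝ) / L ^ A := by positivity
      rw [f1]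
      calc 7 * (N / L ^ A * (1 / L ^ 2)) = N / L ^ A * (7 * (1 / L ^ 2)) := by ring
        _ ≤ N / L ^ A * 1 := mul_le_mul_of_nonneg_left f2 f3
        _ = _ := mul_one _
    linarith
  have hcls : ∀ n ∈ Bd, n ∈ (Icc 1 (2 * N)).filter (fun n : ℕ => (n : ZMod q) = (a : ZMod q)) := by
    intro n hn
    obtain ⟨a1, a2, a3, a4, a5⟩ := hmem n hn
    rw [mem_filter, mem_Icc]
    exact ⟨⟨a1, by omega⟩, (ZMod.natCast_eq_natCast_iff n a q).2 a4⟩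
  obtain ⟨R, hR⟩ : ∃ R : ℝ, R = (N : ℝ) ^ 3 / (q * L ^ (4 * A + 9)) := ⟨_, rfl⟩
  have hR0 : 0 < R := by rw [hR]; positivity
  have hEsum : ∀ j ∈ J, ∑ n ∈ (Icc 1 (2 * N)).filter (fun n : ℕ => (n : ZMod q) = (a : ZMod q)),
      E2 n (j * H) ≤ R := by
    intro j hj
    rw [hJ, mem_filter] at hj
    have k1 := hms c hc q hqN (a : ZMod q) hgcd (j * H) N hj.2 le_rfl
    rw [← hR] at k1
    rw [hE2]
    exact k1
  have hJc : (J.card : ℝ) ≤ 3 * L ^ V := by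
    have e1 : J.card ≤ Tg + 1 := by
      rw [hJ]
      exact (card_filter_le _ _).trans (card_range _).le
    have e2 : (J.card : ℝ) ≤ Tg + 1 := by exact_mod_cast e1
    linarith
  have hsum2 : (Bd.card : ℝ) * (N / L ^ (A + 2)) ^ 2 ≤ 3 * L ^ V * R := by
    calc (Bd.card : ℝ) * (N / L ^ (A + 2)) ^ 2 = ∑ _n ∈ Bd, ((N : ℝ) / L ^ (A + 2)) ^ 2 := by
          rw [sum_const, nsmul_eq_mul]
      _ ≤ ∑ n ∈ Bd, ∑ j ∈ J, E2 n (j * H) := sum_le_sum hterm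
      _ ≤ ∑ n ∈ (Icc 1 (2 * N)).filter (fun n : ℕ => (n : ZMod q) = (a : ZMod q)),
          ∑ j ∈ J, E2 n (j * H) :=
          sum_le_sum_of_subset_of_nonneg hcls fun n _ _ => sum_nonneg fun j _ => hE2nn _ _
      _ = ∑ j ∈ J, ∑ n ∈ (Icc 1 (2 * N)).filter (fun n : ℕ => (n : ZMod q) = (a : ZMod q)),
          E2 n (j * H) := sum_comm
      _ ≤ ∑ j ∈ J, R := sum_le_sum hEsum
      _ = (J.card : ℝ) * R := by rw [sum_const, nsmul_eq_mul]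
      _ ≤ (3 * L ^ V) * R := by gcongr
      _ = _ := by ring
  have h4 : 3 * L ^ V * R ≤ (N / (q * L ^ A)) * (N / L ^ (A + 2)) ^ 2 := by
    have e1 : (N / (q * L ^ A)) * (N / L ^ (A + 2)) ^ 2 = R * (L ^ V * L) := by
      have e2 : L ^ (4 * A + 9) = (L ^ A) ^ 4 * L ^ 9 := by
        rw [← pow_mul, ← pow_add]
        congr 1
        ring
      rw [hR, hV, e2, pow_add, pow_add]
      have e3 : L ^ A ≠ 0 := by positivity
      generalize L ^ A = Y at e3 ⊢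
      field_simp
    rw [e1]
    calc 3 * L ^ V * R = R * (L ^ V * 3) := by ring
      _ ≤ R * (L ^ V * L) := by
          gcongr
          linarith
  exact le_of_mul_le_mul_right (hsum2.trans h4) (by positivity)

end Pool.Agent.J4H40
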