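import Pool.Agent.J4H40.Ka

set_option autoImplicit false

/-! Properties of the convolution of coefficients on a short range with a function supported on the integers without
small prime factors. -/

namespace Pool.Agent.J4H40

open Finset
open Pool.Agent.R460.GS
open Pool.Agent.Y883.GJ
open Pool.Agent.Y883.T3 (lsh)
open Pool.Agent.H373R2.T7 (lamz Vz pz lamz_ap lam_ap mem_pz)
open Pool.Agent.H807R2.Dav (ee)
open Pool.Agent.Y614.GJ.Core (ev_log)

/-- no prime factor up to `z` -/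
def Rgh (z n : ℕ) : Prop := ∀ p ∈ pz z, ¬ p ∣ n

/-- the density `v` in the progressions with a small difference, for all `N ^ (1 / 4) ≤ M ≤ N` -/
def LAp (N K U : ℕ) (l : ℕ → ℝ) (v : ℝ) : Prop :=
  ∀ M : ℕ, (N : ℝ) ^ (1 / 4 : ℝ) ≤ M → M ≤ N → ∀ r : ℕ, 1 ≤ r → (r : ℝ) ≤ Real.log N ^ K → ∀ c y : ℕ, y ≤ M →
    |∑ n ∈ (Icc 1 y).filter (fun n => n ≡ c [MOD r]), l n -
      v * (if c.Coprime r then (y : ℝ) / (Nat.totient r : ℝ) else 0)| ≤ M / Real.log N ^ U

/-- the functions which are used -/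
structure LL (N z K U : ℕ) (l : ℕ → ℝ) (v : ℝ) : Prop where
  bd : Lb N l
  rg : ∀ m, l m ≠ 0 → Rgh z m
  v1 : |v| ≤ 1
  ap : LAp N K U l v

lemma cm_rgh {N z m : ℕ} {κ σ : ℝ} {a : ℕ → ℝ} (ha : Cm N κ σ a) (hz : (z : ℝ) ≤ (N : ℝ) ^ κ) (hm : a m ≠ 0) :
    Rgh z m := by
  intro p hp hpm
  obtain ⟨h1, h2, h3⟩ := ha.sup m hm
  have hm0 : m ≠ 0 := by
    rintro rfl
    have : (0 : ℝ) ≤ (N : ℝ) ^ κ := by positivity
    simp only [Nat.cast_zero] at h1
    linarith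
  have h4 := h3 p (Nat.mem_primeFactors.2 ⟨(mem_pz.1 hp).2, hpm, hm0⟩)
  have h5 : (p : ℝ) ≤ z := by exact_mod_cast (mem_pz.1 hp).1
  linarith

lemma rgh_mul {z m k : ℕ} (h1 : Rgh z m) (h2 : Rgh z k) : Rgh z (m * k) := by
  intro p hp h
  rcases (mem_pz.1 hp).2.dvd_mul.1 h with h3 | h3
  · exact h1 p hp h3
  · exact h2 p hp h3

lemma gA_rgh {N z n : ℕ} {κ σ : ℝ} {a l : ℕ → ℝ} (ha : Cm N κ σ a) (hz : (z : ℝ) ≤ (N : ℝ) ^ κ)
    (hl : ∀ m, l m ≠ 0 → Rgh z m) (h : gA a l n ≠ 0) : Rgh z n := by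
  unfold gA at h
  obtain ⟨d, hd, h1⟩ := exists_ne_zero_of_sum_ne_zero h
  have h2 : a d ≠ 0 := fun h0 => h1 (by rw [h0, zero_mul])
  have h3 : l (n / d) ≠ 0 := fun h0 => h1 (by rw [h0, mul_zero])
  have := rgh_mul (cm_rgh ha hz h2) (hl _ h3)
  rwa [Nat.mul_div_cancel' (Nat.dvd_of_mem_divisors hd)] at this

lemma gA_abs {N n : ℕ} {a l : ℕ → ℝ} (ha : ∀ m, |a m| ≤ 1) (hl : Lb N l) (hn : n ∈ Icc 1 N) :
    |gA a l n| ≤ Real.log N * (n.divisors.card : ℝ) := by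
  rw [mem_Icc] at hn
  unfold gA
  refine (abs_sum_le_sum_abs _ _).trans ?_
  rw [mul_comm, ← nsmul_eq_mul]
  refine sum_le_card_nsmul _ _ _ fun d hd => ?_
  have hdn := Nat.dvd_of_mem_divisors hd
  have hd1 : 0 < d := Nat.pos_of_dvd_of_pos hdn (by omega)
  rw [abs_mul]
  have h1 := hl (n / d) (mem_Icc.2 ⟨Nat.div_pos (Nat.le_of_dvd (by omega) hdn) hd1,
    (Nat.div_le_self _ _).trans hn.2⟩)
  have h2 := ha d
  have h3 := abs_nonneg (a d)
  have h4 := abs_nonneg (l (n / d))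
  nlinarith

lemma gC_abs {N n : ℕ} {a l : ℕ → ℝ} (ha : ∀ m, |a m| ≤ 1) (hl : Lb N l) (hn : n ∈ Icc 1 N) :
    ‖gC a l n‖ ≤ Real.log N * (n.divisors.card : ℝ) := by
  unfold gC
  rw [Complex.norm_real, Real.norm_eq_abs]
  exact gA_abs ha hl hn

lemma nc_gC {N U z : ℕ} {κ σ : ℝ} {a l : ℕ → ℝ} (ha : Cm N κ σ a) (hN : 1 ≤ N)
    (hL : 200 ≤ Real.log N) (hz : (z : ℝ) ≤ (N : ℝ) ^ κ) (hzU : Real.log N ^ (U + 8) ≤ z)
    (hlb : Lb N l) (hl : ∀ m, l m ≠ 0 → Rgh z m) : NcAt N U (gC a l) := by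
  classical
  intro q hq hqN
  have hN0 : (0 : ℝ) < N := by exact_mod_cast hN
  obtain ⟨L, hLd⟩ : ∃ L, L = Real.log (N : ℝ) := ⟨_, rfl⟩
  have hL0 : 0 < L := by rw [hLd]; linarith
  have hz0 : (0 : ℝ) < z := lt_of_lt_of_le (by rw [← hLd]; positivity) hzU
  have h1 : ∑ n ∈ (Icc 1 N).filter (fun n => ¬ n.Coprime q), ‖gC a l n‖ ≤
      ∑ n ∈ Icc 1 N, ∑ p ∈ q.primeFactors.filter (fun p => z < p),
        if p ∣ n then L * (n.divisors.card : ℝ) ^ 2 else 0 := by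
    have hnn : ∀ (n p : ℕ), (0 : ℝ) ≤ if p ∣ n then L * (n.divisors.card : ℝ) ^ 2 else 0 := by
      intro n p
      split_ifs
      · positivity
      · exact le_rfl
    refine le_trans (sum_le_sum fun n hn => ?_) (sum_le_sum_of_subset_of_nonneg (filter_subset _ _)
      fun n _ _ => sum_nonneg fun p _ => hnn n p)
    rw [mem_filter] at hn
    by_cases h0 : gA a l n = 0
    · unfold gC
      rw [h0, Complex.ofReal_zero, norm_zero]
      exact sum_nonneg fun p _ => hnn n p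
    · have hr := gA_rgh ha hz hl h0
      obtain ⟨p, hp, hpn, hpq⟩ := Nat.Prime.not_coprime_iff_dvd.1 hn.2
      have hzp : z < p := by
        by_contra hcon
        exact hr p (mem_pz.2 ⟨by omega, hp⟩) hpn
      have h3 : (if p ∣ n then L * (n.divisors.card : ℝ) ^ 2 else 0) ≤
          ∑ p ∈ q.primeFactors.filter (fun p => z < p), if p ∣ n then L * (n.divisors.card : ℝ) ^ 2 else 0 := by
        refine single_le_sum (f := fun p => if p ∣ n then L * (n.divisors.card : ℝ) ^ 2 else 0)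
          (fun p _ => hnn n p) ?_
        rw [mem_filter, Nat.mem_primeFactors]
        exact ⟨⟨hp, hpq, by omega⟩, hzp⟩
      rw [if_pos hpn] at h3
      refine le_trans ?_ h3
      refine (gC_abs ha.le1 hlb hn.1).trans ?_
      rw [← hLd]
      apply mul_le_mul_of_nonneg_left _ hL0.le
      have := one_le_div hn.1
      nlinarith
  refine h1.trans ?_
  rw [sum_comm]
  have h2 : ∀ p ∈ q.primeFactors.filter (fun p => z < p),
      ∑ n ∈ Icc 1 N, (if p ∣ n then L * (n.divisors.card : ℝ) ^ 2 else 0) ≤ L * (4 * (N / z * (2 * L) ^ 4)) := by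
    intro p hp
    rw [mem_filter, Nat.mem_primeFactors] at hp
    have hpr := hp.1.1
    have hp0 : (0 : ℝ) < p := by exact_mod_cast hpr.pos
    rw [← sum_filter, ← mul_sum]
    apply mul_le_mul_of_nonneg_left _ hL0.le
    refine (mult_sum hpr.pos).trans ?_
    have e1 : (p.divisors.card : ℝ) ^ 2 = 4 := by
      rw [hpr.divisors, card_pair hpr.one_lt.ne]
      norm_num
    rw [e1, ← hLd]
    have e2 : (z : ℝ) ≤ p := by exact_mod_cast hp.2.le
    have e3 : 1 + L ≤ 2 * L := by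
      rw [← hLd] at hL
      linarith
    gcongr
  refine (sum_le_sum h2).trans ?_
  rw [sum_const, nsmul_eq_mul]
  have h3 : ((q.primeFactors.filter (fun p => z < p)).card : ℝ) ≤ 2 * L := by
    have e1 := card_pf_le hq hqN
    rw [← hLd] at e1
    refine le_trans ?_ e1
    exact_mod_cast card_filter_le _ _
  rw [← hLd] at hL hzU ⊢
  calc ((q.primeFactors.filter (fun p => z < p)).card : ℝ) * (L * (4 * (N / z * (2 * L) ^ 4)))
      ≤ 2 * L * (L * (4 * (N / z * (2 * L) ^ 4))) := by gcongr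
    _ ≤ 2 * L * (L * (4 * (N / L ^ (U + 8) * (2 * L) ^ 4))) := by gcongr
    _ = N / L ^ U * (128 / L ^ 2) := by
        rw [pow_add L U 8]
        field_simp
        ring
    _ ≤ N / L ^ U * 1 := by
        apply mul_le_mul_of_nonneg_left _ (by positivity)
        rw [div_le_one (by positivity)]
        nlinarith
    _ = _ := mul_one _

/-- the numerical conditions -/
lemma ev_numL {κ : ℝ} (hκ : 0 < κ) (K U : ℕ) : ∃ N₀ : ℕ, ∀ N : ℕ, N₀ ≤ N →
    16 ≤ N ∧ 100 ≤ Real.log N ∧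
    Real.log N ^ K < (N : ℝ) ^ κ ∧ 4 * Real.log N ^ U ≤ (N : ℝ) ^ (1 / 2 : ℝ) ∧
    1 + (N : ℝ) ^ (1 / 4 : ℝ) ≤ (N : ℝ) ^ (1 / 2 : ℝ) := by
  obtain ⟨n1, h1⟩ := ev_numA hκ K U 0
  refine ⟨n1, fun N hN => ?_⟩
  obtain ⟨k1, k2, k3, k4, k5, k6, k7, k8⟩ := h1 N hN
  exact ⟨k1, k2, k5, k6, k8⟩

theorem ap_gA {κ σ : ℝ} (hκ : 0 < κ) (hσ : σ ≤ 1 / 2) (K U : ℕ) : ∃ N₀ : ℕ, ∀ N : ℕ, N₀ ≤ N → ∀ a l : ℕ → ℝ,
    Cm N κ σ a → ∀ v : ℝ, |v| ≤ 1 → LAp N K (U + 2) l v → ApgE N K U (gA a l) (fun _ => v * Vd N a) := by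
  classical
  obtain ⟨N₀, hN₀⟩ := ev_numL hκ K U
  refine ⟨N₀, fun N hN a l ha v hv hl r hr hrN c y hy => ?_⟩
  obtain ⟨h16, hL100, hLκ, hLh, hq⟩ := hN₀ N hN
  have hN0 : (0 : ℝ) < N := by exact_mod_cast (by omega : 0 < N)
  have hNr1 : (1 : ℝ) ≤ N := by exact_mod_cast (by omega : 1 ≤ N)
  have hφ : (1 : ℝ) ≤ (Nat.totient r : ℝ) := by exact_mod_cast Nat.totient_pos.2 hr
  -- the sum over the divisors
  have e1 : ∑ n ∈ (Icc 1 y).filter (fun n => n ≡ c [MOD r]), gA a l n =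
      ∑ m ∈ Icc 1 N, a m * ∑ k ∈ (Icc 1 (y / m)).filter (fun k => m * k ≡ c [MOD r]), l k := by
    have f1 := Pool.Agent.TH935.DSB.dir y (fun d m => a d *
      (if d * m ≡ c [MOD r] then l m else 0))
    calc ∑ n ∈ (Icc 1 y).filter (fun n => n ≡ c [MOD r]), gA a l n
        = ∑ n ∈ Icc 1 y, ∑ d ∈ n.divisors, a d *
          (if d * (n / d) ≡ c [MOD r] then l (n / d) else 0) := by
          rw [sum_filter]
          refine sum_congr rfl fun n _ => ?_
          by_cases h : n ≡ c [MOD r]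
          · rw [if_pos h]
            unfold gA
            refine sum_congr rfl fun d hd => ?_
            rw [Nat.mul_div_cancel' (Nat.dvd_of_mem_divisors hd), if_pos h]
          · rw [if_neg h]
            symm
            refine sum_eq_zero fun d hd => ?_
            rw [Nat.mul_div_cancel' (Nat.dvd_of_mem_divisors hd), if_neg h, mul_zero]
      _ = ∑ d ∈ Icc 1 y, ∑ m ∈ Icc 1 (y / d), a d *
          (if d * m ≡ c [MOD r] then l m else 0) := f1
      _ = ∑ d ∈ Icc 1 N, ∑ m ∈ Icc 1 (y / d), a d *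
          (if d * m ≡ c [MOD r] then l m else 0) := by
          refine sum_subset (Icc_subset_Icc le_rfl hy) fun d hd hd' => ?_
          rw [mem_Icc] at hd hd'
          have : y / d = 0 := Nat.div_eq_of_lt (by omega)
          rw [this]
          rfl
      _ = _ := by
          refine sum_congr rfl fun m _ => ?_
          rw [← mul_sum, ← sum_filter]
  have e2 : (if c.Coprime r then (∑ n ∈ Icc 1 y, v * Vd N a) / (Nat.totient r : ℝ) else 0) =
      ∑ m ∈ Icc 1 N, a m * (v * (if c.Coprime r then ((y : ℝ) / m) / (Nat.totient r : ℝ) else 0)) := by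
    unfold Vd
    split_ifs
    · rw [sum_const, Nat.card_Icc, Nat.add_sub_cancel, nsmul_eq_mul, mul_sum, mul_sum, sum_div]
      refine sum_congr rfl fun m _ => ?_
      ring
    · simp
  rw [e1, e2, ← sum_sub_distrib]
  obtain ⟨L, hLd⟩ : ∃ L, L = Real.log (N : ℝ) := ⟨_, rfl⟩
  -- one `m`
  have hone : ∀ m ∈ Icc 1 N, |a m * ∑ k ∈ (Icc 1 (y / m)).filter (fun k => m * k ≡ c [MOD r]),
        l k - a m * (v * (if c.Coprime r then ((y : ℝ) / m) / (Nat.totient r : ℝ) else 0))| ≤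
      (N / L ^ (U + 2)) * ((m : ℝ))⁻¹ + if (m : ℝ) ≤ (N : ℝ) ^ (1 / 2 : ℝ) then 1 else 0 := by
    intro m hm
    rw [mem_Icc] at hm
    have hm0 : (0 : ℝ) < m := by exact_mod_cast hm.1
    by_cases h0 : a m = 0
    · rw [h0, zero_mul, zero_mul, sub_zero, abs_zero]
      have : 0 < L := by rw [hLd]; linarith
      split_ifs <;> positivity
    obtain ⟨g1, g2, g3⟩ := ha.sup m h0
    have hmh : (m : ℝ) ≤ (N : ℝ) ^ (1 / 2 : ℝ) := g2.trans (Real.rpow_le_rpow_of_exponent_le hNr1 hσ)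
    rw [if_pos hmh, ← mul_sub, abs_mul]
    have hcop : m.Coprime r := by
      by_contra hcon
      obtain ⟨p, hp, hpm, hpr⟩ := Nat.Prime.not_coprime_iff_dvd.1 hcon
      have h1 := g3 p (Nat.mem_primeFactors.2 ⟨hp, hpm, by omega⟩)
      have h2 : (p : ℝ) ≤ r := by exact_mod_cast Nat.le_of_dvd (by omega) hpr
      linarith
    obtain ⟨c', hc', hcp⟩ := inv_cls (c := c) hr hcop
    have e3 : (Icc 1 (y / m)).filter (fun k => m * k ≡ c [MOD r]) = (Icc 1 (y / m)).filter (fun k => k ≡ c' [MOD r]) := by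
      refine filter_congr fun k _ => ?_
      exact hcp k
    rw [e3]
    -- the quotient
    have hdiv : (N : ℝ) ^ (1 / 4 : ℝ) ≤ ((N / m : ℕ) : ℝ) := by
      have k1 : (N : ℝ) / m < ((N / m : ℕ) : ℝ) + 1 := by
        rw [div_lt_iff₀ hm0]
        have k2 : N < (N / m + 1) * m := Nat.lt_mul_of_div_lt (Nat.lt_succ_self _) hm.1
        exact_mod_cast k2
      have k3 : (N : ℝ) ^ (1 / 2 : ℝ) ≤ (N : ℝ) / m := by
        rw [le_div_iff₀ hm0]
        calc (N : ℝ) ^ (1 / 2 : ℝ) * m ≤ (N : ℝ) ^ (1 / 2 : ℝ) * (N : ℝ) ^ (1 / 2 : ℝ) := by gcongr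
          _ = N := by
              rw [← Real.rpow_add hN0]
              norm_num
      linarith
    have hL0 : 0 < L := by rw [hLd]; linarith
    have hmain := hl (N / m) hdiv (Nat.div_le_self _ _) r hr hrN c' (y / m) (Nat.div_le_div_right hy)
    rw [if_congr hc' rfl rfl, ← hLd] at hmain
    have hfr : |(if c.Coprime r then (((y / m : ℕ)) : ℝ) / (Nat.totient r : ℝ) else 0) -
        (if c.Coprime r then ((y : ℝ) / m) / (Nat.totient r : ℝ) else 0)| ≤ 1 := by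
      split_ifs
      · rw [← sub_div, abs_div, abs_of_pos (by linarith : (0 : ℝ) < (Nat.totient r : ℝ))]
        have k1 : (y : ℝ) / m < ((y / m : ℕ) : ℝ) + 1 := by
          rw [div_lt_iff₀ hm0]
          have k2 : y < (y / m + 1) * m := Nat.lt_mul_of_div_lt (Nat.lt_succ_self _) hm.1
          exact_mod_cast k2
        have k3 : ((y / m : ℕ) : ℝ) ≤ (y : ℝ) / m := Nat.cast_div_le
        have k4 : |((y / m : ℕ) : ℝ) - (y : ℝ) / m| ≤ 1 := by
          rw [abs_le]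
          constructor <;> linarith
        rw [div_le_one (by linarith)]
        linarith
      · simp
    have herr : ((N / m : ℕ) : ℝ) / L ^ (U + 2) ≤ (N / L ^ (U + 2)) * ((m : ℝ))⁻¹ := by
      have k3 : ((N / m : ℕ) : ℝ) ≤ (N : ℝ) / m := Nat.cast_div_le
      calc ((N / m : ℕ) : ℝ) / L ^ (U + 2) ≤ (N / m) / L ^ (U + 2) := by gcongr
        _ = _ := by
            field_simp
    have habs : |∑ k ∈ (Icc 1 (y / m)).filter (fun k => k ≡ c' [MOD r]), l k -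
        v * (if c.Coprime r then ((y : ℝ) / m) / (Nat.totient r : ℝ) else 0)| ≤
        (N / L ^ (U + 2)) * ((m : ℝ))⁻¹ + 1 := by
      have := abs_add_le (∑ k ∈ (Icc 1 (y / m)).filter (fun k => k ≡ c' [MOD r]), l k -
        v * (if c.Coprime r then (((y / m : ℕ)) : ℝ) / (Nat.totient r : ℝ) else 0))
        (v * ((if c.Coprime r then (((y / m : ℕ)) : ℝ) / (Nat.totient r : ℝ) else 0) -
        (if c.Coprime r then ((y : ℝ) / m) / (Nat.totient r : ℝ) else 0)))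
      have e5 : |v * ((if c.Coprime r then (((y / m : ℕ)) : ℝ) / (Nat.totient r : ℝ) else 0) -
        (if c.Coprime r then ((y : ℝ) / m) / (Nat.totient r : ℝ) else 0))| ≤ 1 := by
        rw [abs_mul]
        calc _ ≤ (1 : ℝ) * 1 := mul_le_mul hv hfr (abs_nonneg _) zero_le_one
          _ = 1 := one_mul 1
      have e4 : ∑ k ∈ (Icc 1 (y / m)).filter (fun k => k ≡ c' [MOD r]), l k -
        v * (if c.Coprime r then ((y : ℝ) / m) / (Nat.totient r : ℝ) else 0) =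
        (∑ k ∈ (Icc 1 (y / m)).filter (fun k => k ≡ c' [MOD r]), l k -
        v * (if c.Coprime r then (((y / m : ℕ)) : ℝ) / (Nat.totient r : ℝ) else 0)) +
        (v * ((if c.Coprime r then (((y / m : ℕ)) : ℝ) / (Nat.totient r : ℝ) else 0) -
        (if c.Coprime r then ((y : ℝ) / m) / (Nat.totient r : ℝ) else 0))) := by ring
      rw [e4]
      linarith
    calc |a m| * _ ≤ 1 * |∑ k ∈ (Icc 1 (y / m)).filter (fun k => k ≡ c' [MOD r]), l k -
        v * (if c.Coprime r then ((y : ℝ) / m) / (Nat.totient r : ℝ) else 0)| :=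
          mul_le_mul_of_nonneg_right (ha.le1 m) (abs_nonneg _)
      _ ≤ _ := by rw [one_mul]; exact habs
  refine (abs_sum_le_sum_abs _ _).trans ((sum_le_sum hone).trans ?_)
  rw [sum_add_distrib, ← mul_sum, ← sum_filter, sum_const, nsmul_eq_mul, mul_one]
  have hharm : ∑ m ∈ Icc 1 N, ((m : ℝ))⁻¹ ≤ 1 + Real.log N := by
    have := harmonic_le_one_add_log N
    rw [harmonic_eq_sum_Icc] at this
    push_cast at this
    exact this
  have hcard : (((Icc 1 N).filter (fun m : ℕ => (m : ℝ) ≤ (N : ℝ) ^ (1 / 2 : ℝ))).card : ℝ) ≤ (N : ℝ) ^ (1 / 2 : ℝ) := by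
    have h4 : ((Icc 1 N).filter (fun d : ℕ => (d : ℝ) ≤ (N : ℝ) ^ (1 / 2 : ℝ))).card ≤ ⌊(N : ℝ) ^ (1 / 2 : ℝ)⌋₊ := by
      calc _ ≤ (Icc 1 ⌊(N : ℝ) ^ (1 / 2 : ℝ)⌋₊).card := by
            apply card_le_card
            intro d hd
            rw [mem_filter, mem_Icc] at hd
            rw [mem_Icc]
            exact ⟨hd.1.1, Nat.le_floor hd.2⟩
        _ = _ := by rw [Nat.card_Icc, Nat.add_sub_cancel]
    have h5 : ((⌊(N : ℝ) ^ (1 / 2 : ℝ)⌋₊ : ℕ) : ℝ) ≤ (N : ℝ) ^ (1 / 2 : ℝ) := Nat.floor_le (by positivity)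
    have h6 : (((Icc 1 N).filter (fun d : ℕ => (d : ℝ) ≤ (N : ℝ) ^ (1 / 2 : ℝ))).card : ℝ) ≤
        ((⌊(N : ℝ) ^ (1 / 2 : ℝ)⌋₊ : ℕ) : ℝ) := by
      exact_mod_cast h4
    exact h6.trans h5
  rw [← hLd] at hharm hLh hL100 ⊢
  have hL0 : 0 < L := by linarith
  have hss : (N : ℝ) ^ (1 / 2 : ℝ) * (N : ℝ) ^ (1 / 2 : ℝ) = N := by
    rw [← Real.rpow_add hN0]
    norm_num
  rw [le_div_iff₀ (by positivity), add_mul]
  have g1 : (N / L ^ (U + 2)) * (∑ m ∈ Icc 1 N, ((m : ℝ))⁻¹) * L ^ U ≤ N / 2 := by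
    calc (N / L ^ (U + 2)) * (∑ m ∈ Icc 1 N, ((m : ℝ))⁻¹) * L ^ U
        ≤ (N / L ^ (U + 2)) * (2 * L) * L ^ U := by
          gcongr
          linarith
      _ = N * (2 / L) := by
          rw [pow_add L U 2]
          field_simp
      _ ≤ N * (1 / 2) := by
          apply mul_le_mul_of_nonneg_left _ hN0.le
          rw [div_le_iff₀ hL0]
          linarith
      _ = N / 2 := by ring
  have g2 : (((Icc 1 N).filter (fun m : ℕ => (m : ℝ) ≤ (N : ℝ) ^ (1 / 2 : ℝ))).card : ℝ) * L ^ U ≤ N / 2 := by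
    calc _ ≤ (N : ℝ) ^ (1 / 2 : ℝ) * ((N : ℝ) ^ (1 / 2 : ℝ) / 4) := by
          gcongr
          linarith
      _ = N / 4 := by rw [← mul_div_assoc, hss]
      _ ≤ N / 2 := by linarith
  linarith

end Pool.Agent.J4H40
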