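import Pool.Agent.J4H40.Kb

set_option autoImplicit false

/-! The mean square of the error terms for the convolution with a function without small prime factors, an arbitrary
first summand, regular moduli up to `N ^ (1 - ρ)`, all classes. -/

namespace Pool.Agent.J4H40

open Finset
open Pool.Agent.R460.GS
open Pool.Agent.Y883.GJ
open Pool.Agent.Y883.T3 (lsh)
open Pool.Agent.H373R2.T7 (lamz Vz pz lamz_ap lam_ap)
open Pool.Agent.H807R2.Dav (ee)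
open Pool.Agent.Y614.GJ.Core (ev_log)
open Pool.Agent.R460.GH (BilMaj3Stm bilMaj3 countK)
open Pool.Agent.R460.GR (RegAt)

/-- the convolution minus its model -/
noncomputable def f3 (a l : ℕ → ℝ) (V : ℝ) (z r n : ℕ) : ℂ := gC a l n - HW (fun _ => V) z r n

lemma bd_f3 {U N z r : ℕ} {a l : ℕ → ℝ} {V : ℝ} (ha : ∀ m, |a m| ≤ 1) (hl : Lb N l) (hV : |V| ≤ 1)
    (hP : Par U N z r) (hL : 4 ≤ Real.log N) : BdAt N (f3 a l V z r) := by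
  intro n hn
  unfold f3
  refine (norm_sub_le _ _).trans ?_
  have h2 := bd_HW' (wbd_const hV) hP hn
  have h3 := gC_abs ha hl hn
  have h5 : 4 * Real.log N ≤ Real.log N ^ 2 := by nlinarith
  have h6 := mul_le_mul_of_nonneg_right h5 (by positivity : (0 : ℝ) ≤ (n.divisors.card : ℝ))
  linarith

lemma nc_f3 {U N z r : ℕ} {κ σ V : ℝ} {a l : ℕ → ℝ} (ha : Cm N κ σ a) (hN : 1 ≤ N) (hV : |V| ≤ 1)
    (hP : Par (U + 2) N z r) (hL : 200 ≤ Real.log N) (hz : (z : ℝ) ≤ (N : ℝ) ^ κ) (hzU : Real.log N ^ (U + 9) ≤ z)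
    (hlb : Lb N l) (hl : ∀ m, l m ≠ 0 → Rgh z m) : NcAt N U (f3 a l V z r) := by
  intro q hq hqN
  have hL0 : 0 < Real.log N := by linarith
  have h1 := nc_gC (U := U + 1) ha hN hL hz hzU hlb hl q hq hqN
  have h2 := nc_HW (U := U + 1) (wbd_const hV) hP (by linarith) q hq hqN
  have hX : 0 ≤ (N : ℝ) / Real.log N ^ (U + 1) := by positivity
  calc ∑ n ∈ (Icc 1 N).filter (fun n => ¬ n.Coprime q), ‖f3 a l V z r n‖
      ≤ ∑ n ∈ (Icc 1 N).filter (fun n => ¬ n.Coprime q), (‖gC a l n‖ + ‖HW (fun _ => V) z r n‖) :=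
        sum_le_sum fun n _ => norm_sub_le _ _
    _ ≤ N / Real.log N ^ (U + 1) + N / Real.log N ^ (U + 1) := by
        rw [sum_add_distrib]
        exact add_le_add h1 h2
    _ = 2 * (N / Real.log N ^ (U + 1)) := by ring
    _ ≤ Real.log N * (N / Real.log N ^ (U + 1)) := mul_le_mul_of_nonneg_right (by linarith) hX
    _ = _ := by
        rw [pow_succ]
        field_simp

lemma ap_f3 {N K U z r₀ : ℕ} {a l : ℕ → ℝ} {V : ℝ} (hV : |V| ≤ 1) (hL : 6 ≤ Real.log N)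
    (hlam : ∀ q : ℕ, 1 ≤ q → (q : ℝ) ≤ Real.log N ^ K → ∀ c y : ℕ, y ≤ N →
      |∑ n ∈ (Icc 1 y).filter (fun n => n ≡ c [MOD q]), lamz z n -
        (if c.Coprime q then (y : ℝ) / (Nat.totient q : ℝ) else 0)| ≤ N / Real.log N ^ (U + 2))
    (hsum : ∑ n ∈ Icc 1 N, |lamz z n - lsh z r₀ n| ≤ N / Real.log N ^ (U + 2))
    (hap : ApgE N K (U + 2) (gA a l) (fun _ => V)) :
    ApAt N K U (f3 a l V z r₀) := by
  intro r hr1 hrK c y hy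
  have hL0 : 0 < Real.log N := by linarith
  have h1 := ap_HW (r₀ := r₀) (c := c) (wbd_const hV) hy (fun y hy => hlam r hr1 hrK c y hy) hsum
  have h2 := hap r hr1 hrK c y hy
  have e1 : ∑ n ∈ (Icc 1 y).filter (fun n => n ≡ c [MOD r]), f3 a l V z r₀ n =
      ((∑ n ∈ (Icc 1 y).filter (fun n => n ≡ c [MOD r]), gA a l n -
      ∑ n ∈ (Icc 1 y).filter (fun n => n ≡ c [MOD r]), V * lsh z r₀ n : ℝ) : ℂ) := by
    rw [← sum_sub_distrib]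
    push_cast
    refine sum_congr rfl fun n hn => ?_
    unfold f3 HW gC
    push_cast
    ring
  rw [e1, Complex.norm_real, Real.norm_eq_abs]
  obtain ⟨M, hM⟩ : ∃ M : ℝ, M = (if c.Coprime r then (∑ n ∈ Icc 1 y, V) / (Nat.totient r : ℝ) else 0) :=
    ⟨_, rfl⟩
  rw [← hM] at h1 h2
  have e2 : ∑ n ∈ (Icc 1 y).filter (fun n => n ≡ c [MOD r]), gA a l n -
      ∑ n ∈ (Icc 1 y).filter (fun n => n ≡ c [MOD r]), V * lsh z r₀ n =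
      (∑ n ∈ (Icc 1 y).filter (fun n => n ≡ c [MOD r]), gA a l n - M) -
      (∑ n ∈ (Icc 1 y).filter (fun n => n ≡ c [MOD r]), V * lsh z r₀ n - M) := by ring
  rw [e2]
  refine (abs_sub _ _).trans ?_
  have hX : 0 ≤ (N : ℝ) / Real.log N ^ (U + 2) := by positivity
  calc _ ≤ N / Real.log N ^ (U + 2) + 2 * (N / Real.log N ^ (U + 2)) * (1 + 1) := add_le_add h2 h1
    _ = 5 * (N / Real.log N ^ (U + 2)) := by ring
    _ ≤ Real.log N ^ 2 * (N / Real.log N ^ (U + 2)) := by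
        apply mul_le_mul_of_nonneg_right _ hX
        nlinarith
    _ = _ := by
        rw [pow_add]
        field_simp

lemma maj_f3 {N A C C₃ z r : ℕ} {θ V : ℝ} {a l : ℕ → ℝ} (hL : 2 ≤ Real.log N)
    (hG : MajE N θ (A + 2) C C₃ (gC a l))
    (hH : ∀ (q : ℕ) [NeZero q], (q : ℝ) ≤ (N : ℝ) ^ θ →
      ∀ η : ℝ, |η| ≤ Real.log N ^ C / N → ∀ y : ℕ, y ≤ N →
      ∀ S : Finset (DirichletCharacter ℂ q), 1 ∉ S →
        ∑ χ ∈ S, ‖cs q y (HW (fun _ => V) z r) η χ‖ ^ 2 ≤ (N : ℝ) ^ 2 / Real.log N ^ (A + 2)) :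
    MajE N θ A C C₃ (f3 a l V z r) := by
  intro q _ hq
  obtain ⟨B, hB1, hBc, hB⟩ := hG q hq
  refine ⟨B, hB1, hBc, fun η hη y hy S hS => ?_⟩
  have h1 := hB η hη y hy S hS
  have h2 := hH q hq η hη y hy S (fun h => disjoint_left.1 hS h hB1)
  exact (sq_sub_sum (gC a l) (HW (fun _ => V) z r) η S h1 h2).trans (four_le hL)

lemma min_f3 {N A C C' z r : ℕ} {θ V : ℝ} {a l : ℕ → ℝ} (hL : 2 ≤ Real.log N)
    (hG : MinE N θ (A + 2) C (gC a l))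
    (hH : MinE N θ (A + 2) C' (HW (fun _ => V) z r)) : MinE N θ A (max C C') (f3 a l V z r) := by
  have h1 := minE_mono (by linarith) (le_max_left C C') hG
  have h2 := minE_mono (by linarith) (le_max_right C C') hH
  intro q _ hq k hh β k1 k2 k3 k4 y hy
  exact (sq_sub_sum (gC a l) (HW (fun _ => V) z r) β univ (h1 q hq k hh β k1 k2 k3 k4 y hy)
    (h2 q hq k hh β k1 k2 k3 k4 y hy)).trans (four_le hL)

/-- the error terms for the regular moduli -/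
def ErrKL (θ κ σ : ℝ) (A U₀ : ℕ) : Prop :=
  ∃ c : ℕ, ∀ A₀ : ℕ, ∃ B K U : ℕ, ∀ E : ℕ, ∃ N₀ : ℕ, ∀ N : ℕ, N₀ ≤ N →
    ∀ z : ℕ, Real.log N ^ B ≤ z → (z : ℝ) ≤ Real.log N ^ E → ∃ r : ℕ, Par U₀ N z r ∧
    ∑ n ∈ Icc 1 N, |lamz z n - lsh z r n| ≤ N / Real.log N ^ U₀ ∧
    ∀ (l : ℕ → ℝ) (v : ℝ), LL N z K U l v → ∀ a : ℕ → ℝ, Cm N κ σ a →
    ∃ D : Finset ℕ, (D.card : ℝ) ≤ Real.log N ^ c ∧ (∀ d ∈ D, Real.log N ^ A₀ < (d : ℝ)) ∧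
    ∀ F : ℕ → ℂ, BdAt N F → ∀ (q : ℕ) [NeZero q], (q : ℝ) ≤ (N : ℝ) ^ θ → (∀ d ∈ D, ¬ d ∣ q) → ∀ x : ZMod q,
    ∀ y₁ y₂ : ℕ, y₁ ≤ N → y₂ ≤ N →
      ∑ n ∈ (Icc 1 (2 * N)).filter (fun n : ℕ => (n : ZMod q) = x),
        ‖cv F (f3 a l (v * Vd N a) z r) y₁ y₂ n‖ ^ 2 ≤ (N : ℝ) ^ 3 / (q * Real.log N ^ A)

/-- the mean square estimate for the convolution -/
theorem errKL (hCore : CoreRStm) (hL2 : L2Stm) (hB : BilMaj3Stm) (hBm : BilMinStm) (hT1 : TiMaj2Stm) (hT2 : TiMinStm)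
    (hLs : LshStm) {θ₁ θ₂ κ σ : ℝ} {K₀ : ℕ}
    (hθ : θ₁ < θ₂) (hκ : 0 < κ) (hσ : σ ≤ 1 / 2) (hθσ : θ₂ + σ < 1) (hθ2 : θ₂ ≤ 1) (hK₀ : 100 ≤ K₀)
    (hK₀θ : θ₂ + 2 / (K₀ : ℝ) ≤ 1) (A U₀ : ℕ) : ErrKL θ₁ κ σ A U₀ := by
  obtain ⟨A₁, hC1⟩ := hCore A θ₁ θ₂ hθ2 hθ
  obtain ⟨Cg, Ng, hg⟩ := mingC hBm hκ hθσ (by linarith) hθ2 (A₁ + 2)
  obtain ⟨Ch, Nh, hh⟩ := nHK hT2 hLs (by omega : 1 ≤ K₀) hK₀θ (A₁ + 2) 1
  obtain ⟨C, hC⟩ : ∃ C, C = max Cg Ch := ⟨_, rfl⟩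
  obtain ⟨A₂, hC2⟩ := hC1 C
  obtain ⟨C₃, Nm1, hm1⟩ := majgC hB hκ hθσ.le hσ hθ2 (A₂ + 2) C
  obtain ⟨Nm2, hm2⟩ := mHK hT1 hLs (by omega : 1 ≤ K₀) hK₀θ (A₂ + 2) C 1
  obtain ⟨U₂, hC3⟩ := hC2 C₃
  obtain ⟨Nm3, hm3⟩ := mHK hT1 hLs (by omega : 1 ≤ K₀) hK₀θ (2 * (U₂ + C + 4)) C 1
  obtain ⟨C₄, Nd, hd⟩ := cntgC hL2 hκ hθσ.le hσ hθ2 (U₂ + C + 4)
  refine ⟨C₄ + C, fun A₀ => ?_⟩
  obtain ⟨K, hK⟩ : ∃ K, K = A₀ + C := ⟨_, rfl⟩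
  obtain ⟨U, Nc, hC4⟩ := hC3 K
  obtain ⟨U₁, hU₁⟩ : ∃ U₁, U₁ = max U₀ (U + 2) := ⟨_, rfl⟩
  obtain ⟨Bm, hBm'⟩ := modelK hK₀ U₁
  obtain ⟨Na, ha⟩ := ap_gA hκ hσ K (U + 2)
  refine ⟨max (max Bm K) (U + U₂ + C + 12), K, U + 4, fun E => ?_⟩
  obtain ⟨Nmo, hmo⟩ := hBm' E
  obtain ⟨Nl, hlz⟩ := lamz_ap E (U + 2)
  obtain ⟨Ne, hNe⟩ := Filter.eventually_atTop.1 (ev_log E (s := κ) hκ 200)
  obtain ⟨Nf, hNf⟩ := Filter.eventually_atTop.1 (ev_log C (s := θ₂ - θ₁) (by linarith) 1)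
  refine ⟨Ng + Nh + Nm1 + Nm2 + Nm3 + Nd + Nc + Nmo + Nl + Na + Ne + Nf + 1, fun N hN z hz1 hz2 => ?_⟩
  have hN1 : 1 ≤ N := by omega
  have hN0 : (0 : ℝ) < N := by exact_mod_cast hN1
  have hNr1 : (1 : ℝ) ≤ N := by exact_mod_cast hN1
  obtain ⟨hLe, hLp⟩ := hNe N (by omega)
  obtain ⟨-, hLC⟩ := hNf N (by omega)
  have hL1 : 1 ≤ Real.log N := by linarith
  have hL2 : 2 ≤ Real.log N := by linarith
  have hzB : Real.log N ^ Bm ≤ z :=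
    (pow_le_pow_right₀ hL1 ((le_max_left _ _).trans (le_max_left _ _))).trans hz1
  have hzK : Real.log N ^ K ≤ z :=
    (pow_le_pow_right₀ hL1 ((le_max_right _ _).trans (le_max_left _ _))).trans hz1
  have hzX : Real.log N ^ (U + U₂ + C + 12) ≤ z := (pow_le_pow_right₀ hL1 (le_max_right _ _)).trans hz1
  have hzκ : (z : ℝ) ≤ (N : ℝ) ^ κ := hz2.trans hLp
  have hz1' : 1 ≤ z := by
    have : (1 : ℝ) ≤ z := (one_le_pow₀ hL1).trans hz1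
    exact_mod_cast this
  obtain ⟨r, hPar, hPK, hsum⟩ := hmo N (by omega) z hzB hz2
  have hdiv : ∀ V : ℕ, V ≤ U₁ → (N : ℝ) / Real.log N ^ U₁ ≤ N / Real.log N ^ V := fun V hV =>
    div_le_div_of_nonneg_left (Nat.cast_nonneg _) (by positivity) (pow_le_pow_right₀ hL1 hV)
  have hU0 : U₀ ≤ U₁ := by rw [hU₁]; exact le_max_left _ _
  have hU2 : U + 2 ≤ U₁ := by rw [hU₁]; exact le_max_right _ _
  have hP0 := par_mono hL1 hU0 hPar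
  have hP2 := par_mono hL1 hU2 hPar
  refine ⟨r, hP0, hsum.trans (hdiv _ hU0), ?_⟩
  intro l v hl a haC
  refine ⟨E2 N (U₂ + C + 4) K C θ₂ (gC a l), ?_, ?_, ?_⟩
  · exact E2_card hL1 (E1_card K (fun Ψ hΨ => hd N (by omega) a l haC hl.bd Ψ hΨ))
  · intro d hd
    exact E2_large (A₀ := A₀) hL1 hK hd
  intro F hF q _ hq hqD x y₁ y₂ hy₁ hy₂
  have hV : |v * Vd N a| ≤ 1 := by
    rw [abs_mul]
    calc |v| * |Vd N a| ≤ 1 * 1 := mul_le_mul hl.v1 haC.den (abs_nonneg _) zero_le_one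
      _ = 1 := one_mul 1
  have hW := wbd_const (N := N) hV
  have hMin : MinE N θ₂ A₁ C (f3 a l (v * Vd N a) z r) := by
    rw [hC]
    refine min_f3 hL2 (hg N (by omega) a l haC hl.bd) ?_
    exact hh N (by omega) (fun _ => v * Vd N a) hW z r hPK hPar.hV
  have hMaj : MajE N θ₂ A₂ C C₃ (f3 a l (v * Vd N a) z r) := by
    refine maj_f3 hL2 (hm1 N (by omega) a l haC hl.bd) ?_
    intro q _ hq
    exact hm2 N (by omega) (fun _ => v * Vd N a) hW q hq z r hPK hPar.hV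
  have hAp : ApAt N K U (f3 a l (v * Vd N a) z r) := by
    refine ap_f3 hV (by linarith) ?_ (hsum.trans (hdiv _ hU2)) (ha N (by omega) a l haC v hl.v1 hl.ap)
    intro q hq hqK c y hy
    refine hlz N (by omega) z hz1' hz2 q hq ?_ c y hy
    exact_mod_cast hqK.trans hzK
  have hNc : NcAt N U (f3 a l (v * Vd N a) z r) := nc_f3 haC hN1 hV hP2 hLe hzκ
    ((pow_le_pow_right₀ hL1 (by omega)).trans hzX) hl.bd hl.rg
  have hqC : (q : ℝ) * Real.log N ^ C ≤ (N : ℝ) ^ θ₂ := by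
    calc (q : ℝ) * Real.log N ^ C ≤ (N : ℝ) ^ θ₁ * (N : ℝ) ^ (θ₂ - θ₁) := by gcongr
      _ = (N : ℝ) ^ θ₂ := by
          rw [← Real.rpow_add hN0]
          congr 1
          ring
  have hReg : RegAt N C K U₂ (f3 a l (v * Vd N a) z r) q :=
    regG (G := gC a l) (H := HW (fun _ => v * Vd N a) z r) hN1 (by linarith) hqC hθ2 (NeZero.pos q)
      (nc_gC haC hN1 hLe hzκ ((pow_le_pow_right₀ hL1 (by omega)).trans hzX) hl.bd hl.rg)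
      (fun q _ hq => hm3 N (by omega) (fun _ => v * Vd N a) hW q hq z r hPK hPar.hV) hqD
  exact hC4 N (by omega) F (f3 a l (v * Vd N a) z r) hF
    (bd_f3 haC.le1 hl.bd hV hPar (by linarith)) hMin hMaj hAp hNc q hq hReg x y₁ y₂ hy₁ hy₂

/-- the error terms, moduli up to `N ^ (1 - ρ)` -/
theorem errKLB {ρ σ κ : ℝ} (hκ : 0 < κ) (hσ0 : 0 < σ) (hσρ : σ < ρ) (hσ : σ ≤ 1 / 2) (A U₀ : ℕ) :
    ErrKL (1 - ρ) κ σ A U₀ := by
  obtain ⟨δ, hδ⟩ : ∃ δ : ℝ, δ = (ρ + σ) / 2 := ⟨_, rfl⟩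
  have hδ0 : 0 < δ := by rw [hδ]; linarith
  have hδ1 : δ < ρ := by rw [hδ]; linarith
  have hδ2 : σ < δ := by rw [hδ]; linarith
  obtain ⟨k, hk⟩ := exists_nat_ge (2 / δ)
  obtain ⟨K₀, hK₀⟩ : ∃ K₀, K₀ = k + 100 := ⟨_, rfl⟩
  have hK₀r : 2 / δ ≤ (K₀ : ℝ) := by
    rw [hK₀]
    push_cast
    linarith
  have hK₀0 : (0 : ℝ) < K₀ := by
    rw [hK₀]
    positivity
  have hK₀δ : 2 / (K₀ : ℝ) ≤ δ := by
    rw [div_le_iff₀ hδ0] at hK₀r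
    rw [div_le_iff₀ hK₀0]
    linarith
  exact errKL (coreR Pool.Agent.Y708.GJ.lift Pool.Agent.Y872.GJ.pars Pool.Agent.Y297.GJ.orth Pool.Agent.Y812.GJ.nonU)
    Pool.Agent.Y812.GJ.l2 (bilMaj3 Pool.Agent.Y812.GJ.l2 (countK Pool.Agent.Y812.GJ.l2))
    Pool.Agent.Y909.GJ.bilMin (Pool.Agent.R460.GS.tiMaj2 Pool.Agent.Y812.GJ.l2) Pool.Agent.Y412.GJ.tiMin
    Pool.Agent.Y812.GJ.lsh_le (θ₁ := 1 - ρ) (θ₂ := 1 - δ) (by linarith) hκ hσ (by linarith) (by linarith)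
    (K₀ := K₀) (by omega) (by linarith) A U₀



end Pool.Agent.J4H40
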