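import Pool.Agent.J4H40.Wg
import Pool.Agent.W93.PG4
import Pool.Agent.R460.GS.Conv
import Pool.Agent.Helper923.HMertens

set_option autoImplicit false

/-! Sums of a prime and a product of two primes: from the weighted sums to the number of the representations. -/

namespace Pool.Agent.J4H40

open Finset Filter
open Pool.Agent.R460.GS (vm_le la la_nn one_le_sing)
open Pool.Agent.H560R3.GB (sing HL)
open Pool.Agent.W93.GB (pp_nonneg sum_pp)

/-- unnormalized coefficients -/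
structure Co (N : ℕ) (κ σ : ℝ) (a : ℕ → ℝ) : Prop where
  le1 : ∀ m, |a m| ≤ 1
  sup : ∀ m, a m ≠ 0 → (N : ℝ) ^ κ < m ∧ (m : ℝ) ≤ (N : ℝ) ^ σ ∧ ∀ p ∈ m.primeFactors, (N : ℝ) ^ κ < p

lemma harm_le {N : ℕ} {a : ℕ → ℝ} (ha : ∀ m, |a m| ≤ 1) : |∑ m ∈ Icc 1 N, a m / m| ≤ 1 + Real.log N := by
  refine (abs_sum_le_sum_abs _ _).trans ?_
  have hharm : ∑ m ∈ Icc 1 N, ((m : ℝ))⁻¹ ≤ 1 + Real.log N := by
    have := harmonic_le_one_add_log N
    rw [harmonic_eq_sum_Icc] at this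
    push_cast at this
    exact this
  refine le_trans (sum_le_sum fun m _ => ?_) hharm
  rw [abs_div, Nat.abs_cast, ← one_div]
  exact div_le_div_of_nonneg_right (ha m) (Nat.cast_nonneg _)

lemma GA_smul (a : ℕ → ℝ) (t : ℝ) (n : ℕ) : GA (fun m => t * a m) n = t * GA a n := by
  unfold GA
  rw [mul_sum]
  refine sum_congr rfl fun d _ => ?_
  ring

lemma RC_smul (a : ℕ → ℝ) (t : ℝ) (n y : ℕ) : RC (fun m => t * a m) n y = t * RC a n y := by
  unfold RC
  rw [mul_sum]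
  refine sum_congr rfl fun d _ => ?_
  rw [GA_smul]
  ring

lemma Vd_smul (a : ℕ → ℝ) (t : ℝ) (N : ℕ) : Vd N (fun m => t * a m) = t * Vd N a := by
  unfold Vd
  rw [mul_sum]
  refine sum_congr rfl fun d _ => ?_
  ring

open Classical in
/-- the asymptotic formula for arbitrary bounded coefficients -/
theorem mainC {ρ σ κ : ℝ} (hκ : 0 < κ) (hσ0 : 0 < σ) (hσρ : σ < ρ) (hσ : σ ≤ 1 / 2) (A T : ℕ) :
    ∃ N₀ : ℕ, ∀ N : ℕ, N₀ ≤ N → ∀ c : ℕ → ℝ, Co N κ σ c → ∀ q : ℕ, 1 ≤ q →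
      (q : ℝ) ≤ (N : ℝ) ^ (1 - ρ) → ∀ a : ℕ, (Nat.gcd a q : ℝ) ≤ Real.log N ^ T →
        (({n ∈ Icc 1 N | 2 ∣ n ∧ n ≡ a [MOD q] ∧ ¬ GoodN N c A n}.card : ℕ) : ℝ) ≤
          (N : ℝ) / (q * Real.log N ^ A) := by
  obtain ⟨N₁, h1⟩ := mainK hκ hσ0 hσρ hσ (A + 2) T
  obtain ⟨N₂, h2⟩ := Pool.Agent.R462.GS.evL 3
  refine ⟨N₁ + N₂ + 1, fun N hN c hc q hq hqN a ha => ?_⟩
  have hL3 := h2 N (by omega)
  obtain ⟨L, hLd⟩ : ∃ L, L = Real.log (N : ℝ) := ⟨_, rfl⟩
  have hN0 : (0 : ℝ) < N := by exact_mod_cast (by omega : 0 < N)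
  have hq0 : (0 : ℝ) < q := by exact_mod_cast hq
  have hharm := harm_le (N := N) hc.le1
  rw [← hLd] at hL3 hharm
  have hL0 : 0 < L := by linarith
  have hL1 : 1 ≤ L := by linarith
  have hinv0 : 0 < (2 * L)⁻¹ := by positivity
  have hinv1 : (2 * L)⁻¹ ≤ 1 := by
    rw [inv_le_one_iff₀]
    right
    linarith
  have hcm : Cm N κ σ (fun m => (2 * L)⁻¹ * c m) := by
    refine ⟨fun m => ?_, fun m hm => ?_, ?_⟩
    · rw [abs_mul, abs_of_pos hinv0]
      have := hc.le1 m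
      nlinarith [abs_nonneg (c m)]
    · exact hc.sup m (fun h => hm (by rw [h, mul_zero]))
    · have e := Vd_smul c (2 * L)⁻¹ N
      unfold Vd at e
      rw [e, abs_mul, abs_of_pos hinv0, inv_mul_le_iff₀ (by positivity)]
      linarith
  have h3 := h1 N (by omega) _ hcm q hq hqN a ha
  have h4 : (({n ∈ Icc 1 N | 2 ∣ n ∧ n ≡ a [MOD q] ∧ ¬ GoodN N c A n}.card : ℕ) : ℝ) ≤
      (({n ∈ Icc 1 N | 2 ∣ n ∧ n ≡ a [MOD q] ∧ ¬ GoodN N (fun m => (2 * L)⁻¹ * c m) (A + 2) n}.card : ℕ) : ℝ) := by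
    have : {n ∈ Icc 1 N | 2 ∣ n ∧ n ≡ a [MOD q] ∧ ¬ GoodN N c A n} ⊆
        {n ∈ Icc 1 N | 2 ∣ n ∧ n ≡ a [MOD q] ∧ ¬ GoodN N (fun m => (2 * L)⁻¹ * c m) (A + 2) n} := by
      intro n hn
      rw [mem_filter] at hn ⊢
      refine ⟨hn.1, hn.2.1, hn.2.2.1, fun hg => hn.2.2.2 fun y hy => ?_⟩
      have h5 := hg y hy
      rw [RC_smul, Vd_smul, ← hLd] at h5
      rw [← hLd]
      have e : (2 * L)⁻¹ * RC c n y - sing n * ((2 * L)⁻¹ * Vd N c) * y =
        (2 * L)⁻¹ * (RC c n y - sing n * Vd N c * y) := by ring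
      rw [e, abs_mul, abs_of_pos hinv0, inv_mul_le_iff₀ (by positivity)] at h5
      refine h5.trans ?_
      calc 2 * L * (N / L ^ (A + 2)) = N / L ^ A * (2 / L) := by
            rw [pow_add]
            field_simp
        _ ≤ N / L ^ A * 1 := by
            apply mul_le_mul_of_nonneg_left _ (by positivity)
            rw [div_le_one hL0]
            linarith
        _ = _ := mul_one _
    exact_mod_cast card_le_card this
  refine h4.trans (h3.trans ?_)
  rw [← hLd]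
  apply div_le_div_of_nonneg_left hN0.le (by positivity)
  apply mul_le_mul_of_nonneg_left _ hq0.le
  exact pow_le_pow_right₀ hL1 (by omega)

/-- the pairs `(p₁, p₂)` of primes such that `n - p₁ p₂` is a prime and `p₁ ≤ n ^ ρ` -/
noncomputable def chenPairs (ρ : ℝ) (n : ℕ) : Finset (ℕ × ℕ) := by
  classical
  exact (Icc 1 n ×ˢ Icc 1 n).filter fun x =>
    x.1.Prime ∧ x.2.Prime ∧ (x.1 : ℝ) ≤ (n : ℝ) ^ ρ ∧ x.1 * x.2 < n ∧ (n - x.1 * x.2).Prime

/-- the number of the representations `n = p + p₁ p₂` with primes `p, p₁, p₂` and `p₁ ≤ n ^ ρ` -/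
noncomputable def chen (ρ : ℝ) (n : ℕ) : ℕ := (chenPairs ρ n).card

lemma mem_chen {ρ : ℝ} {n : ℕ} {x : ℕ × ℕ} : x ∈ chenPairs ρ n ↔ x.1.Prime ∧ x.2.Prime ∧
    (x.1 : ℝ) ≤ (n : ℝ) ^ ρ ∧ x.1 * x.2 < n ∧ (n - x.1 * x.2).Prime := by
  unfold chenPairs
  rw [mem_filter, mem_product, mem_Icc, mem_Icc]
  constructor
  · exact fun h => h.2
  · intro h
    refine ⟨?_, h⟩
    obtain ⟨h1, h2, h3, h4, h5⟩ := h
    have k1 := h1.two_le
    have k2 := h2.two_le
    constructor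
    · constructor
      · omega
      · nlinarith
    · constructor
      · omega
      · nlinarith

lemma la_split (b : ℕ) (hb : 1 ≤ b) {L : ℝ} (hL : Real.log b ≤ L) :
    la b ≤ L * (if b.Prime then 1 else 0) + Pool.Agent.W93.GB.pp b := by
  unfold Pool.Agent.W93.GB.pp la
  by_cases h : b.Prime
  · rw [if_pos h, ArithmeticFunction.vonMangoldt_apply_prime h]
    unfold Pool.Agent.H373R2.T7.lamP
    rw [Int.toNat_natCast, if_pos h]
    linarith
  · rw [if_neg h]
    unfold Pool.Agent.H373R2.T7.lamP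
    rw [Int.toNat_natCast, if_neg h]
    linarith

/-- the coefficients: the primes between `N ^ κ` and `N ^ σ` -/
noncomputable def pc (N : ℕ) (κ σ : ℝ) (m : ℕ) : ℝ := by
  classical
  exact if m.Prime ∧ (N : ℝ) ^ κ < m ∧ (m : ℝ) ≤ (N : ℝ) ^ σ then 1 else 0

lemma pc_co (N : ℕ) (κ σ : ℝ) : Co N κ σ (pc N κ σ) := by
  refine ⟨fun m => ?_, fun m hm => ?_⟩
  · unfold pc
    split_ifs <;> simp
  · unfold pc at hm
    by_cases h : m.Prime ∧ (N : ℝ) ^ κ < m ∧ (m : ℝ) ≤ (N : ℝ) ^ σ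
    · refine ⟨h.2.1, h.2.2, fun p hp => ?_⟩
      rw [h.1.primeFactors, mem_singleton] at hp
      rw [hp]
      exact h.2.1
    · rw [if_neg h] at hm
      exact absurd rfl hm

lemma pc_nn (N : ℕ) (κ σ : ℝ) (m : ℕ) : 0 ≤ pc N κ σ m := by
  unfold pc
  split_ifs <;> norm_num

/-- the proper prime powers -/
noncomputable abbrev pwr (n : ℕ) : ℝ := Pool.Agent.W93.GB.pp n

/-- from the weighted sum to the number of the representations -/
lemma RC_chen {N n : ℕ} {κ σ ρ : ℝ} (hn : n ≤ N) (hn1 : 1 ≤ n) (hσ : (N : ℝ) ^ σ ≤ (n : ℝ) ^ ρ)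
    (hL : 1 ≤ Real.log N) :
    RC (pc N κ σ) n (n - 1) ≤ Real.log n ^ 2 * chen ρ n +
      3 * Real.log N ^ 2 * (2 * √(N : ℝ) * ((N : ℝ) ^ σ + 1)) := by
  classical
  obtain ⟨c, hc⟩ : ∃ c, c = pc N κ σ := ⟨_, rfl⟩
  have hN1 : 1 ≤ N := by omega
  have hL0 : 0 ≤ Real.log N := by linarith
  have hl0 : 0 ≤ Real.log n := Real.log_natCast_nonneg n
  have hlL : Real.log n ≤ Real.log N := Real.log_le_log (by exact_mod_cast hn1) (by exact_mod_cast hn)
  have hc0 : ∀ m, 0 ≤ c m := by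
    intro m
    rw [hc]
    exact pc_nn _ _ _ _
  have hc1 : ∀ m, c m ≤ 1 := by
    intro m
    rw [hc]
    exact (abs_le.1 ((pc_co N κ σ).le1 m)).2
  have hpp : ∑ b ∈ Icc 1 N, pwr b ≤ 2 * √(N : ℝ) * Real.log N := sum_pp N hN1
  have hlog : ∀ b : ℕ, 1 ≤ b → b ≤ n → Real.log b ≤ Real.log n := fun b h1 h2 =>
    Real.log_le_log (by exact_mod_cast h1) (by exact_mod_cast h2)
  rw [← hc]
  -- pointwise
  have hpt : ∀ b ∈ Icc 1 (n - 1), la b * GA c (n - b) ≤
      Real.log n ^ 2 * ∑ d ∈ (n - b).divisors, (if b.Prime ∧ ((n - b) / d).Prime then c d else 0) +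
      (Real.log n * ∑ d ∈ (n - b).divisors, c d * pwr ((n - b) / d) + Real.log n * pwr b) := by
    intro b hb
    rw [mem_Icc] at hb
    have hb1 : 1 ≤ n - b := by omega
    have k1 := la_split b hb.1 (hlog b hb.1 (by omega))
    have k2 : GA c (n - b) ≤ Real.log n * ∑ d ∈ (n - b).divisors, (if ((n - b) / d).Prime then c d else 0) +
        ∑ d ∈ (n - b).divisors, c d * pwr ((n - b) / d) := by
      unfold GA
      rw [mul_sum, ← sum_add_distrib]
      refine sum_le_sum fun d hd => ?_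
      have hd1 := dv0 hb1 hd
      have hq1 : 1 ≤ (n - b) / d := Nat.pos_of_ne_zero hd1.2
      have hq2 : (n - b) / d ≤ n := (Nat.div_le_self _ _).trans (Nat.sub_le _ _)
      have k3 := la_split ((n - b) / d) hq1 (hlog _ hq1 hq2)
      unfold la at k3
      have k4 := mul_le_mul_of_nonneg_left k3 (hc0 d)
      refine k4.trans (le_of_eq ?_)
      split_ifs <;> ring
    have k5 : GA c (n - b) ≤ Real.log n := by
      refine (le_abs_self _).trans ((GA_abs (fun m => ?_) _).trans (hlog _ hb1 (by omega)))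
      rw [abs_of_nonneg (hc0 m)]
      exact hc1 m
    have k6 : 0 ≤ GA c (n - b) := by
      unfold GA
      exact sum_nonneg fun d _ => mul_nonneg (hc0 d) ArithmeticFunction.vonMangoldt_nonneg
    have k7 : 0 ≤ pwr b := pp_nonneg b
    have k8 : 0 ≤ ∑ d ∈ (n - b).divisors, c d * pwr ((n - b) / d) :=
      sum_nonneg fun d _ => mul_nonneg (hc0 d) (pp_nonneg _)
    calc la b * GA c (n - b) ≤ (Real.log n * (if b.Prime then 1 else 0) + pwr b) * GA c (n - b) :=
          mul_le_mul_of_nonneg_right k1 k6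
      _ = Real.log n * (if b.Prime then 1 else 0) * GA c (n - b) + pwr b * GA c (n - b) := by ring
      _ ≤ Real.log n * (if b.Prime then 1 else 0) *
          (Real.log n * ∑ d ∈ (n - b).divisors, (if ((n - b) / d).Prime then c d else 0) +
          ∑ d ∈ (n - b).divisors, c d * pwr ((n - b) / d)) + pwr b * Real.log n := by
          apply add_le_add
          · apply mul_le_mul_of_nonneg_left k2
            apply mul_nonneg hl0
            split_ifs <;> norm_num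
          · exact mul_le_mul_of_nonneg_left k5 k7
      _ ≤ _ := by
          by_cases hbp : b.Prime
          · simp only [hbp, if_true, true_and]
            linarith
          · simp only [hbp, if_false, false_and]
            simp only [sum_const_zero, mul_zero, zero_mul, zero_add]
            have := mul_nonneg hl0 k8
            linarith
  unfold RC
  refine (sum_le_sum hpt).trans ?_
  rw [sum_add_distrib, sum_add_distrib, ← mul_sum, ← mul_sum, ← mul_sum]
  -- the main part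
  have m1 : ∑ b ∈ Icc 1 (n - 1), ∑ d ∈ (n - b).divisors, (if b.Prime ∧ ((n - b) / d).Prime then c d else 0) ≤
      (chen ρ n : ℝ) := by
    have e1 : ∑ b ∈ Icc 1 (n - 1), ∑ d ∈ (n - b).divisors, (if b.Prime ∧ ((n - b) / d).Prime then c d else 0) ≤
        ∑ b ∈ Icc 1 (n - 1), ∑ d ∈ (n - b).divisors,
          (if b.Prime ∧ ((n - b) / d).Prime ∧ d.Prime ∧ (d : ℝ) ≤ (n : ℝ) ^ ρ then (1 : ℝ) else 0) := by
      refine sum_le_sum fun b _ => sum_le_sum fun d _ => ?_
      by_cases h : b.Prime ∧ ((n - b) / d).Prime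
      · rw [if_pos h]
        by_cases h0 : c d = 0
        · rw [h0]
          split_ifs <;> norm_num
        · have h1 : d.Prime ∧ (N : ℝ) ^ κ < d ∧ (d : ℝ) ≤ (N : ℝ) ^ σ := by
            by_contra hcon
            apply h0
            rw [hc]
            unfold pc
            rw [if_neg hcon]
          rw [if_pos ⟨h.1, h.2, h1.1, h1.2.2.trans hσ⟩]
          exact hc1 d
      · rw [if_neg h, if_neg (fun h' => h ⟨h'.1, h'.2.1⟩)]
    refine e1.trans ?_
    rw [sum_sigma' (Icc 1 (n - 1)) (fun b => (n - b).divisors), ← sum_filter, sum_const, nsmul_eq_mul, mul_one]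
    unfold chen
    have : (((Icc 1 (n - 1)).sigma fun b => (n - b).divisors).filter (fun x : (_ : ℕ) × ℕ =>
        x.1.Prime ∧ ((n - x.1) / x.2).Prime ∧ x.2.Prime ∧ (x.2 : ℝ) ≤ (n : ℝ) ^ ρ)).card ≤ (chenPairs ρ n).card := by
      apply card_le_card_of_injOn (fun x => (x.2, (n - x.1) / x.2))
      · rintro ⟨b, d⟩ hx
        rw [mem_coe, mem_filter, mem_sigma, mem_Icc] at hx
        obtain ⟨⟨⟨h1, h2⟩, h3⟩, h4, h5, h6, h7⟩ := hx
        simp only at h1 h2 h3 h4 h5 h6 h7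
        have hdv : d * ((n - b) / d) = n - b := Nat.mul_div_cancel' (Nat.dvd_of_mem_divisors h3)
        rw [mem_coe, mem_chen]
        simp only
        rw [hdv]
        refine ⟨h6, h5, h7, by omega, ?_⟩
        have : n - (n - b) = b := by omega
        rw [this]
        exact h4
      · rintro ⟨b, d⟩ hx ⟨b', d'⟩ hx' h
        rw [mem_coe, mem_filter, mem_sigma, mem_Icc] at hx hx'
        obtain ⟨⟨⟨h1, h2⟩, h3⟩, -⟩ := hx
        obtain ⟨⟨⟨h1', h2'⟩, h3'⟩, -⟩ := hx'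
        simp only at h1 h2 h3 h1' h2' h3'
        simp only [Prod.mk.injEq] at h
        obtain ⟨g1, g2⟩ := h
        have e2 : d * ((n - b) / d) = n - b := Nat.mul_div_cancel' (Nat.dvd_of_mem_divisors h3)
        have e3 : d' * ((n - b') / d') = n - b' := Nat.mul_div_cancel' (Nat.dvd_of_mem_divisors h3')
        rw [g2, g1] at e2
        have e4 : b = b' := by omega
        subst e4
        subst g1
        rfl
    exact_mod_cast this
  -- the second part
  have m2 : ∑ b ∈ Icc 1 (n - 1), ∑ d ∈ (n - b).divisors, c d * pwr ((n - b) / d) ≤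
      (N : ℝ) ^ σ * (2 * √(N : ℝ) * Real.log N) := by
    have e1 : ∑ b ∈ Icc 1 (n - 1), ∑ d ∈ (n - b).divisors, c d * pwr ((n - b) / d) =
        ∑ m ∈ Icc 1 (n - 1), ∑ d ∈ m.divisors, c d * pwr (m / d) := by
      apply sum_nbij' (fun b => n - b) (fun b => n - b)
      · intro b hb
        rw [mem_Icc] at hb ⊢
        omega
      · intro b hb
        rw [mem_Icc] at hb ⊢
        omega
      · intro b hb
        rw [mem_Icc] at hb
        omega
      · intro b hb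
        rw [mem_Icc] at hb
        omega
      · intro b _
        rfl
    rw [e1, Pool.Agent.TH935.DSB.dir (n - 1) (fun d m => c d * pwr m)]
    have e2 : ∀ d ∈ Icc 1 (n - 1), ∑ m ∈ Icc 1 ((n - 1) / d), c d * pwr m ≤
        if (d : ℝ) ≤ (N : ℝ) ^ σ then 2 * √(N : ℝ) * Real.log N else 0 := by
      intro d hd
      rw [mem_Icc] at hd
      rw [← mul_sum]
      have k1 : ∑ m ∈ Icc 1 ((n - 1) / d), pwr m ≤ 2 * √(N : ℝ) * Real.log N := by
        refine le_trans (sum_le_sum_of_subset_of_nonneg (Icc_subset_Icc le_rfl ?_) fun _ _ _ => pp_nonneg _) hpp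
        exact (Nat.div_le_self _ _).trans (by omega)
      have k2 : 0 ≤ ∑ m ∈ Icc 1 ((n - 1) / d), pwr m := sum_nonneg fun _ _ => pp_nonneg _
      by_cases h0 : c d = 0
      · rw [h0, zero_mul]
        split_ifs
        · positivity
        · exact le_rfl
      · have h1 : d.Prime ∧ (N : ℝ) ^ κ < d ∧ (d : ℝ) ≤ (N : ℝ) ^ σ := by
          by_contra hcon
          apply h0
          rw [hc]
          unfold pc
          rw [if_neg hcon]
        rw [if_pos h1.2.2]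
        calc c d * _ ≤ 1 * ∑ m ∈ Icc 1 ((n - 1) / d), pwr m := mul_le_mul_of_nonneg_right (hc1 d) k2
          _ ≤ _ := by rw [one_mul]; exact k1
    refine (sum_le_sum e2).trans ?_
    rw [← sum_filter, sum_const, nsmul_eq_mul]
    apply mul_le_mul_of_nonneg_right _ (by positivity)
    have h4 : ((Icc 1 (n - 1)).filter (fun d : ℕ => (d : ℝ) ≤ (N : ℝ) ^ σ)).card ≤ ⌊(N : ℝ) ^ σ⌋₊ := by
      calc _ ≤ (Icc 1 ⌊(N : ℝ) ^ σ⌋₊).card := by
            apply card_le_card
            intro d hd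
            rw [mem_filter, mem_Icc] at hd
            rw [mem_Icc]
            exact ⟨hd.1.1, Nat.le_floor hd.2⟩
        _ = _ := by rw [Nat.card_Icc, Nat.add_sub_cancel]
    have h5 : ((⌊(N : ℝ) ^ σ⌋₊ : ℕ) : ℝ) ≤ (N : ℝ) ^ σ := Nat.floor_le (by positivity)
    have h6 : (((Icc 1 (n - 1)).filter (fun d : ℕ => (d : ℝ) ≤ (N : ℝ) ^ σ)).card : ℝ) ≤
        ((⌊(N : ℝ) ^ σ⌋₊ : ℕ) : ℝ) := by
      exact_mod_cast h4
    exact h6.trans h5
  have m3 : ∑ b ∈ Icc 1 (n - 1), pwr b ≤ 2 * √(N : ℝ) * Real.log N :=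
    le_trans (sum_le_sum_of_subset_of_nonneg (Icc_subset_Icc le_rfl (by omega)) fun _ _ _ => pp_nonneg _) hpp
  have m1' := mul_le_mul_of_nonneg_left m1 (by positivity : 0 ≤ Real.log n ^ 2)
  have m2' := mul_le_mul_of_nonneg_left m2 hl0
  have m3' := mul_le_mul_of_nonneg_left m3 hl0
  have hs0 : 0 ≤ √(N : ℝ) := Real.sqrt_nonneg _
  have hNσ : 0 ≤ (N : ℝ) ^ σ := by positivity
  have m4 : Real.log n * ((N : ℝ) ^ σ * (2 * √(N : ℝ) * Real.log N)) ≤
      Real.log N * ((N : ℝ) ^ σ * (2 * √(N : ℝ) * Real.log N)) :=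
    mul_le_mul_of_nonneg_right hlL (by positivity)
  have m5 : Real.log n * (2 * √(N : ℝ) * Real.log N) ≤ Real.log N * (2 * √(N : ℝ) * Real.log N) :=
    mul_le_mul_of_nonneg_right hlL (by positivity)
  have m6 : 0 ≤ Real.log N ^ 2 * (2 * √(N : ℝ) * ((N : ℝ) ^ σ + 1)) := by positivity
  have m7 : Real.log N * ((N : ℝ) ^ σ * (2 * √(N : ℝ) * Real.log N)) + Real.log N * (2 * √(N : ℝ) * Real.log N) =
    Real.log N ^ 2 * (2 * √(N : ℝ) * ((N : ℝ) ^ σ + 1)) := by ring
  linarith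

end Pool.Agent.J4H40
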