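import Pool.Agent.J4H40.Yg
import Pool.Agent.J4H40.Wh

set_option autoImplicit false

/-! An arbitrary first summand: the convolution can be replaced by the sieve model, for all but few integers in all
residue classes of the regular moduli. -/

namespace Pool.Agent.J4H40

open Finset Filter
open Pool.Agent.H373R2.T7 (lamz Vz pz lamI lamzI Vz_pos)
open Pool.Agent.Y883.T3 (lsh)
open Pool.Agent.Y883.GJ
open Pool.Agent.R460.GS (cv bd_LA vm_le la la_nn cv_left win_main' BdAt reflect_sum)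
open Pool.Agent.H560R3.GB (sing)
open Pool.Agent.Y614.GJ.Core (ev_log)

/-- the sum of `F(b) G(n - b)` minus its model -/
noncomputable def RF (F : ℕ → ℂ) (a : ℕ → ℝ) (V : ℝ) (z n y : ℕ) : ℂ :=
  ∑ b ∈ Icc 1 y, F b * ((GA a (n - b) - V * lamz z (n - b) : ℝ) : ℂ)

/-- the convolution can be replaced by its model, for all `y < n` -/
def GoodF (N : ℕ) (F : ℕ → ℂ) (a : ℕ → ℝ) (z A n : ℕ) : Prop :=
  ∀ y : ℕ, y < n → ‖RF F a (Vd N a) z n y‖ ≤ N / Real.log N ^ A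

lemma lamz_nn (z n : ℕ) : 0 ≤ lamz z n := by
  unfold lamz
  split_ifs
  · exact (inv_pos.2 (Vz_pos z)).le
  · exact le_rfl

lemma lamz_le (z n : ℕ) : lamz z n ≤ (Vz z)⁻¹ := by
  unfold lamz
  split_ifs
  · exact le_rfl
  · exact (inv_pos.2 (Vz_pos z)).le

/-- from the mean square to the sums with the exact model -/
lemma RF_grid {N n y z r : ℕ} {F : ℕ → ℂ} {a : ℕ → ℝ} {V X₁ : ℝ} (hF : ∀ b ∈ Icc 1 N, ‖F b‖ ≤ Real.log N)
    (hV : |V| ≤ 1) (hy : y < n) (hn : n ≤ N) (h1 : ∑ n ∈ Icc 1 N, |lamz z n - lsh z r n| ≤ X₁) :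
    ‖RF F a V z n y‖ ≤ ‖cv F (f2 a V z r) y N n‖ + Real.log N * X₁ := by
  have hL0 : 0 ≤ Real.log N := Real.log_natCast_nonneg N
  rw [cv_left hy hn]
  have e1 : RF F a V z n y = ∑ b ∈ Icc 1 y, F b * f2 a V z r (n - b) +
      ∑ b ∈ Icc 1 y, F b * ((V * (lsh z r (n - b) - lamz z (n - b)) : ℝ) : ℂ) := by
    unfold RF
    rw [← sum_add_distrib]
    refine sum_congr rfl fun b _ => ?_
    unfold f2 HW GC
    push_cast
    ring
  rw [e1]
  refine (norm_add_le _ _).trans (add_le_add le_rfl ?_)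
  have hpt : ∀ b ∈ Icc 1 y, ‖F b * ((V * (lsh z r (n - b) - lamz z (n - b)) : ℝ) : ℂ)‖ ≤
      Real.log N * |lamz z (n - b) - lsh z r (n - b)| := by
    intro b hb
    rw [mem_Icc] at hb
    rw [norm_mul, Complex.norm_real, Real.norm_eq_abs, abs_mul, abs_sub_comm (lsh z r (n - b))]
    have k1 := hF b (mem_Icc.2 ⟨by omega, by omega⟩)
    have k2 : |V| * |lamz z (n - b) - lsh z r (n - b)| ≤ 1 * |lamz z (n - b) - lsh z r (n - b)| :=
      mul_le_mul_of_nonneg_right hV (abs_nonneg _)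
    rw [one_mul] at k2
    exact mul_le_mul k1 k2 (by positivity) hL0
  refine (norm_sum_le _ _).trans ((sum_le_sum hpt).trans ?_)
  rw [← mul_sum]
  apply mul_le_mul_of_nonneg_left _ hL0
  refine le_trans ?_ h1
  obtain ⟨F', hF'⟩ : ∃ F' : ℕ → ℝ, F' = fun b => |lamz z b - lsh z r b| := ⟨_, rfl⟩
  have hF0 : ∀ b, 0 ≤ F' b := fun b => by rw [hF']; exact abs_nonneg _
  have e2 : ∑ b ∈ Icc 1 y, |lamz z (n - b) - lsh z r (n - b)| = ∑ b ∈ Icc 1 y, F' (n - b) := by rw [hF']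
  have e3 : ∑ n ∈ Icc 1 N, |lamz z n - lsh z r n| = ∑ b ∈ Icc 1 N, F' b := by rw [hF']
  rw [e2, e3]
  calc ∑ b ∈ Icc 1 y, F' (n - b) = ∑ b ∈ Ioc (n - y - 1) (n - 1), F' b := reflect_sum F' hy
    _ ≤ ∑ b ∈ Icc 1 N, F' b := by
        refine sum_le_sum_of_subset_of_nonneg (fun b hb => ?_) fun _ _ _ => hF0 _
        rw [mem_Ioc] at hb
        rw [mem_Icc]
        omega

/-- a short sum -/
lemma RF_short {N n y₁ y₂ z : ℕ} {F : ℕ → ℂ} {a : ℕ → ℝ} {V : ℝ} (hF : ∀ b ∈ Icc 1 N, ‖F b‖ ≤ Real.log N)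
    (ha : ∀ m, |a m| ≤ 1) (hV : |V| ≤ 1) (hz : (Vz z)⁻¹ ≤ Real.log N) (h12 : y₁ ≤ y₂) (h2 : y₂ < n) (hn : n ≤ N) :
    ‖RF F a V z n y₂ - RF F a V z n y₁‖ ≤ ((y₂ : ℝ) - y₁) * (2 * Real.log N ^ 2) := by
  have e1 : RF F a V z n y₂ - RF F a V z n y₁ =
      ∑ b ∈ Ioc y₁ y₂, F b * ((GA a (n - b) - V * lamz z (n - b) : ℝ) : ℂ) := by
    unfold RF
    rw [icc_ioc, icc_ioc, ← sum_Ioc_consecutive _ (Nat.zero_le y₁) h12]
    ring
  rw [e1]
  refine (norm_sum_le _ _).trans ?_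
  have h3 : ∀ b ∈ Ioc y₁ y₂, ‖F b * ((GA a (n - b) - V * lamz z (n - b) : ℝ) : ℂ)‖ ≤ 2 * Real.log N ^ 2 := by
    intro b hb
    rw [mem_Ioc] at hb
    rw [norm_mul, Complex.norm_real, Real.norm_eq_abs]
    have k1 := hF b (mem_Icc.2 ⟨by omega, by omega⟩)
    have k2 : |GA a (n - b)| ≤ Real.log N := by
      refine (GA_abs ha _).trans ?_
      apply Real.log_le_log
      · exact_mod_cast (by omega : 0 < n - b)
      · exact_mod_cast (by omega : n - b ≤ N)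
    have k3 : |V * lamz z (n - b)| ≤ Real.log N := by
      rw [abs_mul, abs_of_nonneg (lamz_nn _ _)]
      have := lamz_nn z (n - b)
      have := (lamz_le z (n - b)).trans hz
      nlinarith [abs_nonneg V]
    have k4 := abs_sub (GA a (n - b)) (V * lamz z (n - b))
    have hL0 : 0 ≤ Real.log N := Real.log_natCast_nonneg N
    calc ‖F b‖ * |GA a (n - b) - V * lamz z (n - b)| ≤ Real.log N * (2 * Real.log N) :=
          mul_le_mul k1 (by linarith) (abs_nonneg _) hL0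
      _ = _ := by ring
  refine (sum_le_sum h3).trans ?_
  rw [sum_const, Nat.card_Ioc, nsmul_eq_mul, Nat.cast_sub h12]

lemma bdF {N : ℕ} {F : ℕ → ℂ} (hL : 1 ≤ Real.log N) (hF : ∀ b ∈ Icc 1 N, ‖F b‖ ≤ Real.log N) : BdAt N F := by
  intro n hn
  have h1 := Pool.Agent.R460.GS.one_le_div hn
  have h2 := hF n hn
  have h3 : Real.log N * 1 ≤ Real.log N ^ 2 * (n.divisors.card : ℝ) := by
    apply mul_le_mul _ h1 zero_le_one (by positivity)
    nlinarith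
  linarith

open Classical in
/-- an arbitrary first summand, all but few integers in the residue classes of the regular moduli -/
theorem mainFR {ρ σ κ : ℝ} (hκ : 0 < κ) (hσ0 : 0 < σ) (hσρ : σ < ρ) (hσ : σ ≤ 1 / 2) (A : ℕ) :
    ∃ c : ℕ, ∀ A₀ : ℕ, ∃ B : ℕ, ∀ E1 : ℕ, B ≤ E1 → ∃ N₀ : ℕ, ∀ N : ℕ, N₀ ≤ N → ∀ a : ℕ → ℝ, Cm N κ σ a →
      ∃ D : Finset ℕ, (D.card : ℝ) ≤ Real.log N ^ c ∧ (∀ d ∈ D, Real.log N ^ A₀ < (d : ℝ)) ∧
      ∀ F : ℕ → ℂ, (∀ b ∈ Icc 1 N, ‖F b‖ ≤ Real.log N) → ∀ q : ℕ, 1 ≤ q →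
      (q : ℝ) ≤ (N : ℝ) ^ (1 - ρ) → (∀ d ∈ D, ¬ d ∣ q) → ∀ x : ℕ,
        (({n ∈ Icc 1 N | n ≡ x [MOD q] ∧ ¬ GoodF N F a ⌈Real.log N ^ E1⌉₊ A n}.card : ℕ) : ℝ) ≤
          (N : ℝ) / (q * Real.log N ^ A) := by
  obtain ⟨cc, hcc⟩ := errKRA hκ hσ0 hσρ hσ (4 * A + 9) (A + 3)
  refine ⟨cc, fun A₀ => ?_⟩
  obtain ⟨B, hB⟩ := hcc A₀
  refine ⟨B, fun E1 hE1 => ?_⟩
  obtain ⟨N₁, hM1⟩ := hB (E1 + 1)
  obtain ⟨N₄, hM4⟩ := Filter.eventually_atTop.1 (ev_log (A + 4) (s := 1 / 6) (by norm_num) 100)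
  refine ⟨N₁ + N₄ + 3, fun N hN c hc => ?_⟩
  have hN1 : 1 ≤ N := by omega
  have hN0 : (0 : ℝ) < N := by exact_mod_cast hN1
  have hN1r : (1 : ℝ) ≤ N := by exact_mod_cast hN1
  obtain ⟨hL100, hLp⟩ := hM4 N (by omega)
  have c1 := hM1 N (by omega)
  have hL1' : 1 ≤ Real.log N := by linarith
  -- the parameter `z`
  obtain ⟨z, hz⟩ : ∃ z, z = ⌈Real.log N ^ E1⌉₊ := ⟨_, rfl⟩
  have hzlo : Real.log N ^ E1 ≤ z := by rw [hz]; exact Nat.le_ceil _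
  have hL1B : 1 ≤ Real.log N ^ E1 := one_le_pow₀ hL1'
  have hzhi : (z : ℝ) ≤ Real.log N ^ (E1 + 1) := by
    have := Nat.ceil_lt_add_one (show 0 ≤ Real.log N ^ E1 by positivity)
    rw [← hz] at this
    calc (z : ℝ) ≤ Real.log N ^ E1 + 1 := this.le
      _ ≤ Real.log N ^ E1 + Real.log N ^ E1 := by linarith
      _ = 2 * Real.log N ^ E1 := by ring
      _ ≤ Real.log N * Real.log N ^ E1 := mul_le_mul_of_nonneg_right (by linarith) (by positivity)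
      _ = Real.log N ^ (E1 + 1) := by ring
  have hzB : Real.log N ^ B ≤ z := (pow_le_pow_right₀ hL1' hE1).trans hzlo
  obtain ⟨r, hPar, hsum, hms⟩ := c1 z hzB hzhi
  obtain ⟨D, hDc, hDl, hms⟩ := hms c hc
  refine ⟨D, hDc, hDl, fun F hF q hq1 hqN hqD a => ?_⟩
  rw [← hz]
  have : NeZero q := ⟨by omega⟩
  have hBdF := bdF hL1' hF
  have hden : |Vd N c| ≤ 1 := hc.den
  have hsh := fun (n y₁ y₂ : ℕ) (h12 : y₁ ≤ y₂) (h2 : y₂ < n) (hn : n ≤ N) =>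
    RF_short (a := c) (N := N) (V := Vd N c) (z := z) hF hc.le1 hden hPar.hV h12 h2 hn
  have hgr := fun (n y : ℕ) (hy : y < n) (hn : n ≤ N) =>
    RF_grid (a := c) (N := N) (V := Vd N c) (z := z) (r := r) hF hden hy hn hsum
  obtain ⟨G, hG⟩ : ∃ G : ℕ → Prop, G = GoodF N F c z A := ⟨_, rfl⟩
  have hGd : ∀ n, (∀ y : ℕ, y < n → ‖RF F c (Vd N c) z n y‖ ≤ N / Real.log N ^ A) → G n := by
    intro n h
    rw [hG]
    exact h
  rw [← hG]
  obtain ⟨L, hLd⟩ : ∃ L, L = Real.log (N : ℝ) := ⟨_, rfl⟩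
  rw [← hLd] at hsh hgr hms hL100 hLp hGd ⊢
  have hL0 : 0 < L := by linarith
  have hL1 : 1 ≤ L := by linarith
  have hq0 : (0 : ℝ) < q := by exact_mod_cast hq1
  -- the grid
  obtain ⟨V, hV⟩ : ∃ V, V = A + 4 := ⟨_, rfl⟩
  obtain ⟨Tg, hTg⟩ : ∃ Tg, Tg = ⌈L ^ V⌉₊ := ⟨_, rfl⟩
  have hT1 : L ^ V ≤ Tg := by rw [hTg]; exact Nat.le_ceil _
  have hLV : 1 ≤ L ^ V := one_le_pow₀ hL1
  have hT2 : (Tg : ℝ) ≤ L ^ V + 1 := by
    rw [hTg]
    exact (Nat.ceil_lt_add_one (by positivity)).le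
  have hTpos : 0 < Tg := by
    have : (0 : ℝ) < Tg := by linarith
    exact_mod_cast this
  obtain ⟨H, hH⟩ : ∃ H, H = N / Tg + 1 := ⟨_, rfl⟩
  have hH1 : 1 ≤ H := by rw [hH]; exact Nat.le_add_left 1 _
  have hpow1 : (N : ℝ) ^ (1 / 6 : ℝ) ≤ N := by
    calc (N : ℝ) ^ (1 / 6 : ℝ) ≤ (N : ℝ) ^ (1 : ℝ) := Real.rpow_le_rpow_of_exponent_le hN1r (by norm_num)
      _ = N := Real.rpow_one _
  have hHr : (H : ℝ) ≤ 2 * (N / L ^ V) := by
    rw [hH]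
    push_cast
    have e1 : ((N / Tg : ℕ) : ℝ) ≤ N / L ^ V := by
      calc ((N / Tg : ℕ) : ℝ) ≤ (N : ℝ) / Tg := Nat.cast_div_le
        _ ≤ N / L ^ V := div_le_div_of_nonneg_left hN0.le (by positivity) hT1
    have e2 : 1 ≤ (N : ℝ) / L ^ V := by
      rw [le_div_iff₀ (by positivity), one_mul]
      exact (pow_le_pow_right₀ hL1 (by omega)).trans (hLp.trans hpow1)
    linarith
  have hjT : ∀ j : ℕ, j * H ≤ N → j < Tg + 1 := by
    intro j hj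
    by_contra hcon
    have e1 : (Tg + 1) * H ≤ j * H := Nat.mul_le_mul_right _ (by omega)
    have e2 : N < Tg * H := by
      rw [hH]
      have := Nat.lt_mul_div_succ N hTpos
      exact this
    have e3 : Tg * H ≤ (Tg + 1) * H := Nat.mul_le_mul_right _ (by omega)
    omega
  obtain ⟨Bd, hBd⟩ : ∃ Bd : Finset ℕ, Bd = {n ∈ Icc 1 N | n ≡ a [MOD q] ∧ ¬ G n} := ⟨_, rfl⟩
  rw [← hBd]
  have hmem : ∀ n ∈ Bd, 1 ≤ n ∧ n ≤ N ∧ n ≡ a [MOD q] ∧ ¬ G n := by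
    intro n hn
    rw [hBd, mem_filter, mem_Icc] at hn
    exact ⟨hn.1.1, hn.1.2, hn.2.1, hn.2.2⟩
  obtain ⟨J, hJ⟩ : ∃ J, J = (range (Tg + 1)).filter (fun j => j * H ≤ N) := ⟨_, rfl⟩
  obtain ⟨E2, hE2⟩ : ∃ E2 : ℕ → ℕ → ℝ, E2 = fun n y =>
    ‖cv F (f2 c (Vd N c) z r) y N n‖ ^ 2 := ⟨_, rfl⟩
  have hE2nn : ∀ n y, 0 ≤ E2 n y := fun n y => by rw [hE2]; positivity
  have hterm : ∀ n ∈ Bd, ((N : ℝ) / L ^ (A + 2)) ^ 2 ≤ ∑ j ∈ J, E2 n (j * H) := by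
    intro n hn
    obtain ⟨a1, a2, a4, a5⟩ := hmem n hn
    by_contra hcon
    rw [not_le] at hcon
    have hsm : ∀ j : ℕ, j * H < n → ‖cv F (f2 c (Vd N c) z r) (j * H) N n‖ ≤ N / L ^ (A + 2) := by
      intro j hj
      by_contra hns
      rw [not_le] at hns
      have k1 : ((N : ℝ) / L ^ (A + 2)) ^ 2 ≤ E2 n (j * H) := by
        rw [hE2]
        exact pow_le_pow_left₀ (by positivity) hns.le 2
      have k2 : E2 n (j * H) ≤ ∑ j ∈ J, E2 n (j * H) := by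
        refine single_le_sum (f := fun j => E2 n (j * H)) (fun _ _ => hE2nn _ _) ?_
        rw [hJ, mem_filter, mem_range]
        exact ⟨hjT j (by omega), by omega⟩
      linarith
    apply a5
    apply hGd
    intro y hy
    obtain ⟨j, hj⟩ : ∃ j, j = y / H := ⟨_, rfl⟩
    have hj1 : j * H ≤ y := by rw [hj]; exact Nat.div_mul_le_self _ _
    have hj2 : y < j * H + H := by
      rw [hj]
      exact Nat.lt_div_mul_add (by omega)
    have m0 := hsm j (by omega)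
    have m1 := hgr n (j * H) (by omega) a2
    have m2 := hsh n (j * H) y hj1 hy a2
    have hdy : (y : ℝ) - ((j * H : ℕ) : ℝ) ≤ H := by
      have : (y : ℝ) ≤ ((j * H : ℕ) : ℝ) + H := by exact_mod_cast hj2.le
      linarith
    have m4 := norm_add_le (RF F c (Vd N c) z n y - RF F c (Vd N c) z n (j * H)) (RF F c (Vd N c) z n (j * H))
    rw [sub_add_cancel] at m4
    have m5 : ((y : ℝ) - ((j * H : ℕ) : ℝ)) * (2 * L ^ 2) ≤ H * (2 * L ^ 2) :=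
      mul_le_mul_of_nonneg_right hdy (by positivity)
    have e6 : (H : ℝ) * (2 * L ^ 2) ≤ 4 * (N / L ^ (A + 2)) := by
      calc (H : ℝ) * (2 * L ^ 2) ≤ 2 * (N / L ^ V) * (2 * L ^ 2) := by gcongr
        _ = 4 * (N / L ^ (A + 2)) := by
            rw [hV, show A + 4 = (A + 2) + 2 by ring, pow_add L (A + 2) 2]
            field_simp
            ring
    have e7 : L * (N / L ^ (A + 3)) = N / L ^ (A + 2) := by
      rw [show A + 3 = (A + 2) + 1 by ring, pow_succ L (A + 2)]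
      field_simp
    rw [e7] at m1
    have e8 : 6 * ((N : ℝ) / L ^ (A + 2)) ≤ N / L ^ A := by
      have f1 : (N : ℝ) / L ^ (A + 2) = N / L ^ A * (1 / L ^ 2) := by
        rw [pow_add]
        field_simp
      have f2 : 6 * (1 / L ^ 2) ≤ 1 := by
        rw [mul_one_div, div_le_one (by positivity)]
        nlinarith
      have f3 : 0 ≤ (N : ℝ) / L ^ A := by positivity
      rw [f1]
      calc 6 * (N / L ^ A * (1 / L ^ 2)) = N / L ^ A * (6 * (1 / L ^ 2)) := by ring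
        _ ≤ N / L ^ A * 1 := mul_le_mul_of_nonneg_left f2 f3
        _ = _ := mul_one _
    linarith
  have hcls : ∀ n ∈ Bd, n ∈ (Icc 1 (2 * N)).filter (fun n : ℕ => (n : ZMod q) = (a : ZMod q)) := by
    intro n hn
    obtain ⟨a1, a2, a4, a5⟩ := hmem n hn
    rw [mem_filter, mem_Icc]
    exact ⟨⟨a1, by omega⟩, (ZMod.natCast_eq_natCast_iff n a q).2 a4⟩
  obtain ⟨R, hR⟩ : ∃ R : ℝ, R = (N : ℝ) ^ 3 / (q * L ^ (4 * A + 9)) := ⟨_, rfl⟩
  have hR0 : 0 < R := by rw [hR]; positivity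
  have hEsum : ∀ j ∈ J, ∑ n ∈ (Icc 1 (2 * N)).filter (fun n : ℕ => (n : ZMod q) = (a : ZMod q)),
      E2 n (j * H) ≤ R := by
    intro j hj
    rw [hJ, mem_filter] at hj
    have k1 := hms F hBdF q hqN hqD (a : ZMod q) (j * H) N hj.2 le_rfl
    rw [← hR] at k1
    rw [hE2]
    exact k1
  have hJc : (J.card : ℝ) ≤ 3 * L ^ V := by
    have e1 : J.card ≤ Tg + 1 := by
      rw [hJ]
      exact (card_filter_le _ _).trans (card_range _).le
    have e2 : (J.card : ℝ) ≤ Tg + 1 := by exact_mod_cast e1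
    linarith
  have hsum2 : (Bd.card : ℝ) * (N / L ^ (A + 2)) ^ 2 ≤ 3 * L ^ V * R := by
    calc (Bd.card : ℝ) * (N / L ^ (A + 2)) ^ 2 = ∑ _n ∈ Bd, ((N : ℝ) / L ^ (A + 2)) ^ 2 := by
          rw [sum_const, nsmul_eq_mul]
      _ ≤ ∑ n ∈ Bd, ∑ j ∈ J, E2 n (j * H) := sum_le_sum hterm
      _ ≤ ∑ n ∈ (Icc 1 (2 * N)).filter (fun n : ℕ => (n : ZMod q) = (a : ZMod q)),
          ∑ j ∈ J, E2 n (j * H) :=
          sum_le_sum_of_subset_of_nonneg hcls fun n _ _ => sum_nonneg fun j _ => hE2nn _ _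
      _ = ∑ j ∈ J, ∑ n ∈ (Icc 1 (2 * N)).filter (fun n : ℕ => (n : ZMod q) = (a : ZMod q)),
          E2 n (j * H) := sum_comm
      _ ≤ ∑ j ∈ J, R := sum_le_sum hEsum
      _ = (J.card : ℝ) * R := by rw [sum_const, nsmul_eq_mul]
      _ ≤ (3 * L ^ V) * R := by gcongr
      _ = _ := by ring
  have h4 : 3 * L ^ V * R ≤ (N / (q * L ^ A)) * (N / L ^ (A + 2)) ^ 2 := by
    have e1 : (N / (q * L ^ A)) * (N / L ^ (A + 2)) ^ 2 = R * (L ^ V * L) := by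
      have e2 : L ^ (4 * A + 9) = (L ^ A) ^ 4 * L ^ 9 := by
        rw [← pow_mul, ← pow_add]
        congr 1
        ring
      rw [hR, hV, e2, pow_add, pow_add]
      have e3 : L ^ A ≠ 0 := by positivity
      generalize L ^ A = Y at e3 ⊢
      field_simp
    rw [e1]
    calc 3 * L ^ V * R = R * (L ^ V * 3) := by ring
      _ ≤ R * (L ^ V * L) := by
          gcongr
          linarith
  exact le_of_mul_le_mul_right (hsum2.trans h4) (by positivity)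

end Pool.Agent.J4H40
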