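import Pool.Agent.J4H40.Kc
import Pool.Agent.J4H40.Yh

set_option autoImplicit false

/-! The mean square for one scale with the exact model. -/

namespace Pool.Agent.J4H40

open Finset
open Pool.Agent.H373R2.T7 (lamz Vz pz)
open Pool.Agent.Y883.T3 (lsh)
open Pool.Agent.Y883.GJ
open Pool.Agent.R460.GS (cv cv_left BdAt reflect_sum)
open Pool.Agent.Y883.T4 (class_le)
open Pool.Agent.Y614.GJ.Core (ev_log)

/-- the convolution sum -/
noncomputable def cn (F : ℕ → ℂ) (K : ℕ → ℝ) (n : ℕ) : ℂ := ∑ b ∈ Icc 1 (n - 1), F b * ((K (n - b) : ℝ) : ℂ)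

/-- the convolution minus its model -/
noncomputable def kX (a l : ℕ → ℝ) (V : ℝ) (z n : ℕ) : ℝ := gA a l n - V * lamz z n

lemma cv_full {F G : ℕ → ℂ} {N n : ℕ} (hn : n ∈ Icc 1 N) :
    cv F G N N n = ∑ b ∈ Icc 1 (n - 1), F b * G (n - b) := by
  rw [mem_Icc] at hn
  rw [← cv_left (F := F) (G := G) (show n - 1 < n by omega) hn.2]
  unfold cv
  symm
  refine sum_subset (Icc_subset_Icc le_rfl (by omega)) fun b hb hb' => ?_
  rw [mem_Icc] at hb hb'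
  refine sum_eq_zero fun c hc => ?_
  rw [mem_Icc] at hc
  rw [if_neg (by omega)]

lemma cn_cv {N n z r : ℕ} {F : ℕ → ℂ} {a l : ℕ → ℝ} {V X₁ : ℝ} (hF : ∀ b ∈ Icc 1 N, ‖F b‖ ≤ Real.log N)
    (hV : |V| ≤ 1) (hn : n ∈ Icc 1 N) (h1 : ∑ n ∈ Icc 1 N, |lamz z n - lsh z r n| ≤ X₁) :
    ‖cn F (kX a l V z) n‖ ≤ ‖cv F (f3 a l V z r) N N n‖ + Real.log N * X₁ := by
  have hL0 : 0 ≤ Real.log N := Real.log_natCast_nonneg N
  rw [cv_full hn]
  rw [mem_Icc] at hn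
  have e1 : cn F (kX a l V z) n = ∑ b ∈ Icc 1 (n - 1), F b * f3 a l V z r (n - b) +
      ∑ b ∈ Icc 1 (n - 1), F b * ((V * (lsh z r (n - b) - lamz z (n - b)) : ℝ) : ℂ) := by
    unfold cn
    rw [← sum_add_distrib]
    refine sum_congr rfl fun b _ => ?_
    unfold f3 HW gC kX
    push_cast
    ring
  rw [e1]
  refine (norm_add_le _ _).trans (add_le_add le_rfl ?_)
  have hpt : ∀ b ∈ Icc 1 (n - 1), ‖F b * ((V * (lsh z r (n - b) - lamz z (n - b)) : ℝ) : ℂ)‖ ≤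
      Real.log N * |lamz z (n - b) - lsh z r (n - b)| := by
    intro b hb
    rw [mem_Icc] at hb
    rw [norm_mul, Complex.norm_real, Real.norm_eq_abs, abs_mul, abs_sub_comm (lsh z r (n - b))]
    have k1 := hF b (mem_Icc.2 ⟨by omega, by omega⟩)
    have k2 : |V| * |lamz z (n - b) - lsh z r (n - b)| ≤ 1 * |lamz z (n - b) - lsh z r (n - b)| :=
      mul_le_mul_of_nonneg_right hV (abs_nonneg _)
    rw [one_mul] at k2
    exact mul_le_mul k1 k2 (by positivity) hL0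
  refine (norm_sum_le _ _).trans ((sum_le_sum hpt).trans ?_)
  rw [← mul_sum]
  apply mul_le_mul_of_nonneg_left _ hL0
  refine le_trans ?_ h1
  obtain ⟨F', hF'⟩ : ∃ F' : ℕ → ℝ, F' = fun b => |lamz z b - lsh z r b| := ⟨_, rfl⟩
  have hF0 : ∀ b, 0 ≤ F' b := fun b => by rw [hF']; exact abs_nonneg _
  have e2 : ∑ b ∈ Icc 1 (n - 1), |lamz z (n - b) - lsh z r (n - b)| = ∑ b ∈ Icc 1 (n - 1), F' (n - b) := by rw [hF']
  have e3 : ∑ n ∈ Icc 1 N, |lamz z n - lsh z r n| = ∑ b ∈ Icc 1 N, F' b := by rw [hF']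
  rw [e2, e3]
  calc ∑ b ∈ Icc 1 (n - 1), F' (n - b) = ∑ b ∈ Ioc (n - (n - 1) - 1) (n - 1), F' b := reflect_sum F' (by omega)
    _ ≤ ∑ b ∈ Icc 1 N, F' b := by
        refine sum_le_sum_of_subset_of_nonneg (fun b hb => ?_) fun _ _ _ => hF0 _
        rw [mem_Ioc] at hb
        rw [mem_Icc]
        omega

/-- the number of the elements of a class -/
lemma cls_card {N q x : ℕ} (hq : 1 ≤ q) (hqN : (q : ℝ) ≤ N) :
    (((Icc 1 N).filter (fun n => n ≡ x [MOD q])).card : ℝ) ≤ 2 * (N / q) := by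
  have hq0 : (0 : ℝ) < q := by exact_mod_cast hq
  have h2 : (((Icc 1 N).filter (fun n => n ≡ x [MOD q])).card : ℝ) ≤ (N : ℝ) / q + 1 := by
    refine class_le N q x hq _ _ (Nat.cast_nonneg _) fun n hn => ?_
    rw [mem_filter, mem_Icc] at hn
    exact ⟨hn.2, by exact_mod_cast hn.1.2⟩
  have h4 : (1 : ℝ) ≤ N / q := by
    rw [le_div_iff₀ hq0, one_mul]
    exact hqN
  linarith

/-- the mean square for one scale -/
theorem msX {ρ σ κ : ℝ} (hκ : 0 < κ) (hσ0 : 0 < σ) (hσρ : σ < ρ) (hσ : σ ≤ 1 / 2) (A : ℕ) :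
    ∃ c : ℕ, ∀ A₀ : ℕ, ∃ B K U : ℕ, ∀ E : ℕ, ∃ N₀ : ℕ, ∀ N : ℕ, N₀ ≤ N →
      ∀ z : ℕ, Real.log N ^ B ≤ z → (z : ℝ) ≤ Real.log N ^ E → (Vz z)⁻¹ ≤ Real.log N ∧
      ∀ (l : ℕ → ℝ) (v : ℝ), LL N z K U l v → ∀ a : ℕ → ℝ, Cm N κ σ a →
      ∃ D : Finset ℕ, (D.card : ℝ) ≤ Real.log N ^ c ∧ (∀ d ∈ D, Real.log N ^ A₀ < (d : ℝ)) ∧
      ∀ F : ℕ → ℂ, (∀ b ∈ Icc 1 N, ‖F b‖ ≤ Real.log N) → ∀ q : ℕ, 1 ≤ q →
      (q : ℝ) ≤ (N : ℝ) ^ (1 - ρ) → (∀ d ∈ D, ¬ d ∣ q) → ∀ x : ℕ,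
        ∑ n ∈ (Icc 1 N).filter (fun n => n ≡ x [MOD q]), ‖cn F (kX a l (v * Vd N a) z) n‖ ^ 2 ≤
          (N : ℝ) ^ 3 / (q * Real.log N ^ A) := by
  obtain ⟨c, hc⟩ := errKLB hκ hσ0 hσρ hσ (A + 2) (A + 4)
  refine ⟨c, fun A₀ => ?_⟩
  obtain ⟨B, K, U, hB⟩ := hc A₀
  refine ⟨B, K, U, fun E => ?_⟩
  obtain ⟨N₁, h1⟩ := hB E
  obtain ⟨N₂, h2⟩ := Pool.Agent.R462.GS.evL 10
  refine ⟨N₁ + N₂ + 1, fun N hN z hz1 hz2 => ?_⟩
  obtain ⟨r, hPar, hsum, hms⟩ := h1 N (by omega) z hz1 hz2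
  have hL := h2 N (by omega)
  have hN0 : (0 : ℝ) < N := by exact_mod_cast (by omega : 0 < N)
  have hNr1 : (1 : ℝ) ≤ N := by exact_mod_cast (by omega : 1 ≤ N)
  refine ⟨hPar.hV, fun l v hl a ha => ?_⟩
  obtain ⟨D, hD1, hD2, hD⟩ := hms l v hl a ha
  refine ⟨D, hD1, hD2, fun F hF q hq1 hqN hqD x => ?_⟩
  have : NeZero q := ⟨by omega⟩
  have hq0 : (0 : ℝ) < q := by exact_mod_cast hq1
  have hV : |v * Vd N a| ≤ 1 := by
    rw [abs_mul]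
    calc |v| * |Vd N a| ≤ 1 * 1 := mul_le_mul hl.v1 ha.den (abs_nonneg _) zero_le_one
      _ = 1 := one_mul 1
  have h3 := hD F (bdF (by linarith) hF) q hqN hqD (x : ZMod q) N N le_rfl le_rfl
  have hqN1 : (q : ℝ) ≤ N := by
    refine hqN.trans ?_
    calc (N : ℝ) ^ (1 - ρ) ≤ (N : ℝ) ^ (1 : ℝ) := Real.rpow_le_rpow_of_exponent_le hNr1 (by linarith)
      _ = N := Real.rpow_one _
  have hcl := cls_card (x := x) hq1 hqN1
  obtain ⟨L, hLd⟩ : ∃ L, L = Real.log (N : ℝ) := ⟨_, rfl⟩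
  have hpt : ∀ n ∈ (Icc 1 N).filter (fun n => n ≡ x [MOD q]), ‖cn F (kX a l (v * Vd N a) z) n‖ ^ 2 ≤
      2 * ‖cv F (f3 a l (v * Vd N a) z r) N N n‖ ^ 2 + 2 * (L * (N / L ^ (A + 4))) ^ 2 := by
    intro n hn
    rw [mem_filter] at hn
    have k1 := cn_cv (a := a) (l := l) hF hV hn.1 hsum
    rw [← hLd] at k1
    have k2 : (0 : ℝ) ≤ L * (N / L ^ (A + 4)) := by
      have : 0 ≤ L := by rw [hLd]; linarith
      positivity
    have k3 := norm_nonneg (cv F (f3 a l (v * Vd N a) z r) N N n)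
    have k4 := pow_le_pow_left₀ (norm_nonneg _) k1 2
    refine k4.trans ?_
    nlinarith [sq_nonneg (‖cv F (f3 a l (v * Vd N a) z r) N N n‖ - L * (N / L ^ (A + 4)))]
  refine (sum_le_sum hpt).trans ?_
  rw [sum_add_distrib, ← mul_sum, sum_const, nsmul_eq_mul]
  have h4 : ∑ n ∈ (Icc 1 N).filter (fun n => n ≡ x [MOD q]), ‖cv F (f3 a l (v * Vd N a) z r) N N n‖ ^ 2 ≤
      ∑ n ∈ (Icc 1 (2 * N)).filter (fun n : ℕ => (n : ZMod q) = (x : ZMod q)),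
        ‖cv F (f3 a l (v * Vd N a) z r) N N n‖ ^ 2 := by
    refine sum_le_sum_of_subset_of_nonneg (fun n hn => ?_) fun _ _ _ => by positivity
    rw [mem_filter, mem_Icc] at hn ⊢
    exact ⟨⟨hn.1.1, by omega⟩, (ZMod.natCast_eq_natCast_iff n x q).2 hn.2⟩
  rw [← hLd] at h3 hL ⊢
  have hL0 : 0 < L := by linarith
  have h5 : (((Icc 1 N).filter (fun n => n ≡ x [MOD q])).card : ℝ) * (2 * (L * (N / L ^ (A + 4))) ^ 2) ≤
      (N : ℝ) ^ 3 / (q * L ^ A) / 2 := by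
    calc _ ≤ 2 * (N / q) * (2 * (L * (N / L ^ (A + 4))) ^ 2) := by gcongr
      _ = (N : ℝ) ^ 3 / (q * L ^ A) * (4 / L ^ (A + 6)) := by
          have e1 : L ^ (A + 6) = L ^ A * L ^ 6 := by rw [pow_add]
          rw [pow_add L A 4, e1]
          field_simp
          ring
      _ ≤ (N : ℝ) ^ 3 / (q * L ^ A) * (1 / 2) := by
          apply mul_le_mul_of_nonneg_left _ (by positivity)
          rw [div_le_iff₀ (by positivity)]
          have : L ≤ L ^ (A + 6) := by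
            calc L = L ^ 1 := (pow_one _).symm
              _ ≤ L ^ (A + 6) := pow_le_pow_right₀ (by linarith) (by omega)
          linarith
      _ = _ := by ring
  have h6 : 2 * ((N : ℝ) ^ 3 / (q * L ^ (A + 2))) ≤ (N : ℝ) ^ 3 / (q * L ^ A) / 2 := by
    have e1 : 2 * ((N : ℝ) ^ 3 / (q * L ^ (A + 2))) = (N : ℝ) ^ 3 / (q * L ^ A) * (2 / L ^ 2) := by
      rw [pow_add]
      field_simp
    rw [e1]
    calc (N : ℝ) ^ 3 / (q * L ^ A) * (2 / L ^ 2) ≤ (N : ℝ) ^ 3 / (q * L ^ A) * (1 / 2) := by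
          apply mul_le_mul_of_nonneg_left _ (by positivity)
          rw [div_le_iff₀ (by positivity)]
          nlinarith
      _ = _ := by ring
  linarith

end Pool.Agent.J4H40
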