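import Pool.Agent.J4H40.Kd

set_option autoImplicit false

/-! Multiples of a small integer: the reduction to a smaller scale. -/

namespace Pool.Agent.J4H40

open Finset
open Pool.Agent.Y883.T4 (class_le)

/-- the part of the convolution with the multiples of `d` -/
noncomputable def dn (d : ℕ) (F : ℕ → ℂ) (K : ℕ → ℝ) (n : ℕ) : ℂ :=
  ∑ k ∈ Icc 1 ((n - 1) / d), F (n - d * k) * ((K k : ℝ) : ℂ)

lemma cn_refl (F : ℕ → ℂ) (K : ℕ → ℝ) (n : ℕ) :
    cn F K n = ∑ m ∈ Icc 1 (n - 1), F (n - m) * ((K m : ℝ) : ℂ) := by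
  unfold cn
  apply sum_nbij' (fun b => n - b) (fun m => n - m)
  · intro b hb
    rw [mem_Icc] at hb ⊢
    omega
  · intro m hm
    rw [mem_Icc] at hm ⊢
    omega
  · intro b hb
    rw [mem_Icc] at hb
    omega
  · intro m hm
    rw [mem_Icc] at hm
    omega
  · intro b hb
    rw [mem_Icc] at hb
    rw [show n - (n - b) = b by omega]

/-- the function on the class of `s` modulo `d` -/
noncomputable def Fs (d s N : ℕ) (F : ℕ → ℂ) (b : ℕ) : ℂ :=
  if 1 ≤ d * (b - 1) + s ∧ d * (b - 1) + s ≤ N then F (d * (b - 1) + s) * (1 / 2) else 0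

lemma Fs_le {d s N : ℕ} {F : ℕ → ℂ} {X : ℝ} (hX : 0 ≤ X) (hF : ∀ b ∈ Icc 1 N, ‖F b‖ ≤ 2 * X) (b : ℕ) :
    ‖Fs d s N F b‖ ≤ X := by
  unfold Fs
  split_ifs with h
  · rw [norm_mul]
    have h1 := hF _ (mem_Icc.2 h)
    have h2 : ‖(1 / 2 : ℂ)‖ = 1 / 2 := by norm_num
    rw [h2]
    linarith
  · rw [norm_zero]
    exact hX

lemma dn_eq {d n N : ℕ} {F : ℕ → ℂ} {K : ℕ → ℝ} (hd : 1 ≤ d) (hn : n ∈ Icc 1 N) :
    dn d F K n = 2 * cn (Fs d (n % d) N F) K (n / d + 1) := by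
  rw [mem_Icc] at hn
  have hdm := Nat.div_add_mod n d
  obtain ⟨s, hs⟩ : ∃ s, s = n % d := ⟨_, rfl⟩
  obtain ⟨t, ht⟩ : ∃ t, t = n / d := ⟨_, rfl⟩
  rw [← hs, ← ht] at hdm
  rw [← hs, ← ht]
  rw [cn_refl, mul_sum, Nat.add_sub_cancel]
  unfold dn
  have h1 : (n - 1) / d ≤ t := by
    rw [ht]
    exact Nat.div_le_div_right (Nat.sub_le _ _)
  have h2 : ∀ k ∈ Icc 1 t, k ∉ Icc 1 ((n - 1) / d) →
      2 * (Fs d s N F (t + 1 - k) * ((K k : ℝ) : ℂ)) = 0 := by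
    intro k hk hk'
    rw [mem_Icc] at hk hk'
    have h3 : (n - 1) / d < k := by omega
    have h4 : n - 1 < k * d := (Nat.div_lt_iff_lt_mul hd).1 h3
    have h5 : d * k ≤ d * t := Nat.mul_le_mul_left _ hk.2
    have h6 : d * (t + 1 - k - 1) + s = n - d * k := by
      rw [show t + 1 - k - 1 = t - k by omega, Nat.mul_sub]
      omega
    have h7 : n - d * k = 0 := by
      rw [mul_comm] at h4
      omega
    unfold Fs
    rw [h6, h7, if_neg (by omega), zero_mul, mul_zero]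
  rw [← sum_subset (Icc_subset_Icc le_rfl h1) h2]
  refine sum_congr rfl fun k hk => ?_
  rw [mem_Icc] at hk
  have h3 : k * d ≤ n - 1 := (Nat.le_div_iff_mul_le hd).1 hk.2
  have h5 : d * k ≤ d * t := Nat.mul_le_mul_left _ (hk.2.trans h1)
  have h6 : d * (t + 1 - k - 1) + s = n - d * k := by
    rw [show t + 1 - k - 1 = t - k by omega, Nat.mul_sub]
    omega
  unfold Fs
  rw [h6, if_pos (by rw [mul_comm] at h3; omega)]
  ring

/-- one `d` -/
lemma one_d {N d q x X : ℕ} {F : ℕ → ℂ} {K : ℕ → ℝ} {R : ℝ} (hd : 1 ≤ d) (hq : 1 ≤ q)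
    (hX : N / d + 1 ≤ X) (hR : 0 ≤ R)
    (h : ∀ s x' : ℕ, ∑ n ∈ (Icc 1 X).filter (fun n => n ≡ x' [MOD q / Nat.gcd q d]), ‖cn (Fs d s N F) K n‖ ^ 2 ≤ R) :
    ∑ n ∈ (Icc 1 N).filter (fun n => n ≡ x [MOD q]), ‖dn d F K n‖ ^ 2 ≤ 8 * ((d : ℝ) / Nat.gcd q d) * R := by
  classical
  obtain ⟨g, hg⟩ : ∃ g, g = Nat.gcd q d := ⟨_, rfl⟩
  rw [← hg] at h ⊢
  have hgq : g ∣ q := by rw [hg]; exact Nat.gcd_dvd_left _ _
  have hgd : g ∣ d := by rw [hg]; exact Nat.gcd_dvd_right _ _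
  have hg1 : 1 ≤ g := Nat.pos_of_dvd_of_pos hgd hd
  obtain ⟨S, hS⟩ : ∃ S, S = (Icc 1 N).filter (fun n => n ≡ x [MOD q]) := ⟨_, rfl⟩
  rw [← hS]
  have hmem : ∀ n ∈ S, 1 ≤ n ∧ n ≤ N ∧ n ≡ x [MOD q] := by
    intro n hn
    rw [hS, mem_filter, mem_Icc] at hn
    exact ⟨hn.1.1, hn.1.2, hn.2⟩
  have e1 : ∑ n ∈ S, ‖dn d F K n‖ ^ 2 = ∑ s ∈ S.image (fun n => n % d), ∑ n ∈ S.filter (fun n => n % d = s),
      ‖dn d F K n‖ ^ 2 := (sum_fiberwise_of_maps_to (fun n hn => mem_image_of_mem _ hn) _).symm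
  rw [e1]
  have h2 : ∀ s ∈ S.image (fun n => n % d), ∑ n ∈ S.filter (fun n => n % d = s), ‖dn d F K n‖ ^ 2 ≤ 4 * R := by
    intro s hs
    rw [mem_image] at hs
    obtain ⟨n₀, hn₀, hs⟩ := hs
    have hh := h s (n₀ / d + 1)
    have e2 : ∀ n ∈ S.filter (fun n => n % d = s), ‖dn d F K n‖ ^ 2 = 4 * ‖cn (Fs d s N F) K (n / d + 1)‖ ^ 2 := by
      intro n hn
      rw [mem_filter] at hn
      obtain ⟨a1, a2, a3⟩ := hmem n hn.1
      rw [dn_eq hd (mem_Icc.2 ⟨a1, a2⟩), hn.2, norm_mul, mul_pow]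
      norm_num
    rw [sum_congr rfl e2, ← mul_sum]
    apply mul_le_mul_of_nonneg_left _ (by norm_num)
    refine le_trans ?_ hh
    have hinj : Set.InjOn (fun n => n / d + 1) (S.filter (fun n => n % d = s) : Finset ℕ) := by
      intro n hn n' hn' he
      rw [mem_coe, mem_filter] at hn hn'
      simp only at he
      have k1 := Nat.div_add_mod n d
      have k2 := Nat.div_add_mod n' d
      have k3 : n / d = n' / d := by omega
      rw [hn.2, k3] at k1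
      rw [hn'.2] at k2
      omega
    rw [← sum_image (s := S.filter (fun n => n % d = s)) (g := fun n => n / d + 1)
      (f := fun m => ‖cn (Fs d s N F) K m‖ ^ 2) hinj]
    refine sum_le_sum_of_subset_of_nonneg (fun m hm => ?_) fun _ _ _ => by positivity
    rw [mem_image] at hm
    obtain ⟨n, hn, rfl⟩ := hm
    rw [mem_filter] at hn
    obtain ⟨a1, a2, a3⟩ := hmem n hn.1
    obtain ⟨b1, b2, b3⟩ := hmem n₀ hn₀
    rw [mem_filter, mem_Icc]
    refine ⟨⟨Nat.le_add_left 1 _, le_trans (Nat.succ_le_succ (Nat.div_le_div_right a2)) hX⟩, ?_⟩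
    apply Nat.ModEq.add_right
    rw [hg]
    apply Nat.ModEq.cancel_left_div_gcd hq
    have k1 := Nat.div_add_mod n d
    have k2 := Nat.div_add_mod n₀ d
    rw [hn.2] at k1
    rw [hs] at k2
    have k3 : d * (n / d) + s ≡ d * (n₀ / d) + s [MOD q] := by
      rw [k1, k2]
      exact a3.trans b3.symm
    exact Nat.ModEq.add_right_cancel' s k3
  refine (sum_le_sum h2).trans ?_
  rw [sum_const, nsmul_eq_mul]
  have hg0 : (0 : ℝ) < g := by exact_mod_cast hg1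
  have hc : ((S.image (fun n => n % d)).card : ℝ) ≤ (d : ℝ) / g + 1 := by
    refine class_le N g x hg1 _ _ (Nat.cast_nonneg _) fun s hs => ?_
    rw [mem_image] at hs
    obtain ⟨n, hn, rfl⟩ := hs
    obtain ⟨a1, a2, a3⟩ := hmem n hn
    refine ⟨?_, by exact_mod_cast (Nat.mod_lt _ hd).le⟩
    rw [Nat.mod_mod_of_dvd _ hgd]
    exact a3.of_dvd hgq
  have h3 : (1 : ℝ) ≤ (d : ℝ) / g := by
    rw [le_div_iff₀ hg0, one_mul]
    exact_mod_cast Nat.le_of_dvd hd hgd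
  calc ((S.image (fun n => n % d)).card : ℝ) * (4 * R) ≤ (2 * ((d : ℝ) / g)) * (4 * R) := by
        apply mul_le_mul_of_nonneg_right _ (by positivity)
        linarith
    _ = _ := by ring

end Pool.Agent.J4H40
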