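import Pool.Agent.J4H40.Ke

set_option autoImplicit false

/-! All the scales. -/

namespace Pool.Agent.J4H40

open Finset
open Pool.Agent.H373R2.T7 (lamz Vz pz)

/-- the conditions at all the scales between `N ^ (1 - ρ / 4)` and `2 * N` -/
def Scl (N z K U : ℕ) (ρ κ σ : ℝ) (l : ℕ → ℝ) (v V : ℝ) (a : ℕ → ℝ) : Prop :=
  ∀ X : ℕ, (N : ℝ) ^ (1 - ρ / 4) ≤ X → X ≤ 2 * N → LL X z K U l v ∧ Cm X κ σ a ∧ v * Vd X a = V

/-- the numerical conditions -/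
lemma ev_scl (A B c E A₀ N₁ : ℕ) {ρ : ℝ} (hρ : 0 < ρ) (hρ1 : ρ ≤ 1) : ∃ N₀ : ℕ, ∀ N : ℕ, N₀ ≤ N →
    2 ≤ N ∧ 2 ≤ Real.log N ∧ 64 * 2 ^ (A + 1) ≤ Real.log N ∧ 3 * 2 ^ c ≤ Real.log N ∧ 2 ^ B ≤ Real.log N ∧
    2 ^ (A₀ + 1) ≤ Real.log N ∧
    ∀ X : ℕ, (N : ℝ) ^ (1 - ρ / 4) ≤ X → X ≤ 2 * N → N₁ ≤ X ∧ Real.log N / 2 ≤ Real.log X ∧
      Real.log X ≤ 2 * Real.log N ∧ 2 ^ E ≤ Real.log X ∧ (N : ℝ) ^ (1 - ρ) ≤ (X : ℝ) ^ (1 - ρ / 2) := by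
  obtain ⟨n1, h1⟩ := Pool.Agent.R462.GS.evL (64 * 2 ^ (A + 1) + 3 * 2 ^ c + 2 ^ B + 2 ^ (A₀ + 1) + 2 * 2 ^ E + 2)
  obtain ⟨n2, h2⟩ := Pool.Agent.R462.GS.evlog 0 (N₁ : ℝ) (1 / 2) (by norm_num)
  refine ⟨n1 + n2 + 2, fun N hN => ?_⟩
  have a1 := h1 N (by omega)
  have a2 := h2 N (by omega)
  rw [pow_zero, mul_one] at a2
  have b1 : (0 : ℝ) < 64 * 2 ^ (A + 1) := by positivity
  have b2 : (0 : ℝ) < 3 * 2 ^ c := by positivity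
  have b3 : (0 : ℝ) < 2 ^ B := by positivity
  have b4 : (0 : ℝ) < 2 ^ (A₀ + 1) := by positivity
  have b5 : (0 : ℝ) < 2 * 2 ^ E := by positivity
  have hN0 : (0 : ℝ) < N := by exact_mod_cast (by omega : 0 < N)
  have hNr1 : (1 : ℝ) ≤ N := by exact_mod_cast (by omega : 1 ≤ N)
  refine ⟨by omega, by linarith, by linarith, by linarith, by linarith, by linarith, fun X hX1 hX2 => ?_⟩
  have hX0 : (0 : ℝ) < X := lt_of_lt_of_le (by positivity) hX1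
  have k1 : (N : ℝ) ^ (1 / 2 : ℝ) ≤ X :=
    (Real.rpow_le_rpow_of_exponent_le hNr1 (by linarith)).trans hX1
  have k2 : Real.log N / 2 ≤ Real.log X := by
    have := Real.log_le_log (by positivity) k1
    rw [Real.log_rpow hN0] at this
    linarith
  have k3 : Real.log X ≤ 2 * Real.log N := by
    have e1 : (X : ℝ) ≤ 2 * N := by exact_mod_cast hX2
    have e2 := Real.log_le_log hX0 e1
    rw [Real.log_mul (by norm_num) hN0.ne'] at e2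
    have e3 : Real.log 2 ≤ Real.log N := Real.log_le_log (by norm_num) (by exact_mod_cast (by omega : 2 ≤ N))
    linarith
  refine ⟨by exact_mod_cast a2.trans k1, k2, k3, by linarith, ?_⟩
  calc (N : ℝ) ^ (1 - ρ) ≤ (N : ℝ) ^ ((1 - ρ / 4) * (1 - ρ / 2)) :=
        Real.rpow_le_rpow_of_exponent_le hNr1 (by nlinarith)
    _ = ((N : ℝ) ^ (1 - ρ / 4)) ^ (1 - ρ / 2) := by rw [← Real.rpow_mul hN0.le]
    _ ≤ (X : ℝ) ^ (1 - ρ / 2) := Real.rpow_le_rpow (by positivity) hX1 (by linarith)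

theorem msD {ρ σ κ : ℝ} (hρ : 0 < ρ) (hρ1 : ρ ≤ 1) (hκ : 0 < κ) (hσ0 : 0 < σ) (hσρ : σ < ρ / 2) (A : ℕ) :
    ∃ c : ℕ, ∀ A₀ : ℕ, ∃ B K U : ℕ, ∀ E : ℕ, ∃ N₀ : ℕ, ∀ N : ℕ, N₀ ≤ N →
      ∀ z : ℕ, Real.log N ^ B ≤ z → (z : ℝ) ≤ Real.log N ^ E →
      ∀ (l : ℕ → ℝ) (v V : ℝ) (a : ℕ → ℝ), Scl N z K U ρ κ σ l v V a →
      ∃ D : Finset ℕ, (D.card : ℝ) ≤ Real.log N ^ c ∧ (∀ d ∈ D, Real.log N ^ A₀ < (d : ℝ)) ∧
      ∀ F : ℕ → ℂ, (∀ b ∈ Icc 1 N, ‖F b‖ ≤ Real.log N) → ∀ q : ℕ, 1 ≤ q →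
      (q : ℝ) ≤ (N : ℝ) ^ (1 - ρ) → (∀ d ∈ D, ¬ d ∣ q) → ∀ x d : ℕ, 1 ≤ d → (d : ℝ) ≤ (N : ℝ) ^ (ρ / 4) →
        ∑ n ∈ (Icc 1 N).filter (fun n => n ≡ x [MOD q]), ‖dn d F (kX a l V z) n‖ ^ 2 ≤
          (N : ℝ) ^ 3 / ((d : ℝ) ^ 2 * q * Real.log N ^ A) := by
  classical
  obtain ⟨c, hc⟩ := msX (ρ := ρ / 2) hκ hσ0 hσρ (by linarith) (A + 1)
  refine ⟨c + 2, fun A₀ => ?_⟩
  obtain ⟨B, K, U, hB⟩ := hc (A₀ + 1)
  refine ⟨B + 1, K, U, fun E => ?_⟩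
  obtain ⟨N₁, h1⟩ := hB (E + 1)
  obtain ⟨N₂, h2⟩ := ev_scl A B c E A₀ N₁ hρ hρ1
  refine ⟨N₂, fun N hN z hz1 hz2 l v V a hscl => ?_⟩
  obtain ⟨hN2, hL2, hLA, hLc, hLB, hLA0, hXs⟩ := h2 N hN
  obtain ⟨L, hLd⟩ : ∃ L, L = Real.log (N : ℝ) := ⟨_, rfl⟩
  rw [← hLd] at hL2 hLA hLc hLB hLA0 hz1 hz2
  have hL0 : 0 < L := by linarith
  have hN0 : (0 : ℝ) < N := by exact_mod_cast (by omega : 0 < N)
  have hNr1 : (1 : ℝ) ≤ N := by exact_mod_cast (by omega : 1 ≤ N)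
  -- the exceptional integers for one scale
  have hone : ∀ j : ℕ, ∃ D : Finset ℕ, (D.card : ℝ) ≤ (2 * L) ^ c ∧ (∀ d ∈ D, L ^ A₀ < (d : ℝ)) ∧
      ((N : ℝ) ^ (1 - ρ / 4) ≤ ((2 ^ (j + 1) : ℕ) : ℝ) → 2 ^ (j + 1) ≤ 2 * N →
      ∀ F : ℕ → ℂ, (∀ b ∈ Icc 1 (2 ^ (j + 1)), ‖F b‖ ≤ Real.log ((2 ^ (j + 1) : ℕ) : ℝ)) → ∀ q : ℕ, 1 ≤ q →
      (q : ℝ) ≤ (((2 ^ (j + 1) : ℕ)) : ℝ) ^ (1 - ρ / 2) → (∀ d ∈ D, ¬ d ∣ q) → ∀ x : ℕ,
        ∑ n ∈ (Icc 1 (2 ^ (j + 1))).filter (fun n => n ≡ x [MOD q]), ‖cn F (kX a l V z) n‖ ^ 2 ≤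
          (((2 ^ (j + 1) : ℕ)) : ℝ) ^ 3 / (q * Real.log ((2 ^ (j + 1) : ℕ) : ℝ) ^ (A + 1))) := by
    intro j
    obtain ⟨X, hX⟩ : ∃ X, X = 2 ^ (j + 1) := ⟨_, rfl⟩
    rw [← hX]
    by_cases hj : (N : ℝ) ^ (1 - ρ / 4) ≤ (X : ℝ) ∧ X ≤ 2 * N
    · obtain ⟨k1, k2, k3, k4, k5⟩ := hXs X hj.1 hj.2
      rw [← hLd] at k2 k3
      obtain ⟨hLL, hCm, hVV⟩ := hscl X hj.1 hj.2
      obtain ⟨l', hl'⟩ : ∃ l', l' = Real.log (X : ℝ) := ⟨_, rfl⟩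
      rw [← hl'] at k2 k3 k4
      have hl0 : 0 < l' := by linarith
      have hz1' : Real.log X ^ B ≤ z := by
        rw [← hl']
        refine le_trans ?_ hz1
        calc l' ^ B ≤ (2 * L) ^ B := by gcongr
          _ = 2 ^ B * L ^ B := by rw [mul_pow]
          _ ≤ L * L ^ B := by gcongr
          _ = L ^ (B + 1) := by ring
      have hz2' : (z : ℝ) ≤ Real.log X ^ (E + 1) := by
        rw [← hl']
        refine hz2.trans ?_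
        calc L ^ E ≤ (2 * l') ^ E := by
              apply pow_le_pow_left₀ hL0.le
              linarith
          _ = 2 ^ E * l' ^ E := by rw [mul_pow]
          _ ≤ l' * l' ^ E := by gcongr
          _ = l' ^ (E + 1) := by ring
      obtain ⟨-, hms⟩ := h1 X k1 z hz1' hz2'
      obtain ⟨D, hD1, hD2, hD⟩ := hms l v hLL a hCm
      rw [hVV] at hD
      refine ⟨D, ?_, ?_, fun _ _ => hD⟩
      · refine hD1.trans ?_
        rw [← hl']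
        gcongr
      · intro d hd
        have h3 := hD2 d hd
        rw [← hl'] at h3
        refine lt_of_le_of_lt ?_ h3
        calc L ^ A₀ = 2 ^ (A₀ + 1) * L ^ A₀ / 2 ^ (A₀ + 1) := by field_simp
          _ ≤ L * L ^ A₀ / 2 ^ (A₀ + 1) := by gcongr
          _ = (L / 2) ^ (A₀ + 1) := by
              rw [div_pow]
              ring
          _ ≤ l' ^ (A₀ + 1) := by gcongr
    · refine ⟨∅, ?_, ?_, fun k1 k2 => absurd ⟨k1, k2⟩ hj⟩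
      · rw [card_empty, Nat.cast_zero]
        positivity
      · intro d hd
        exact absurd hd (notMem_empty _)
  choose Dj hDj1 hDj2 hDj using hone
  refine ⟨(range (Nat.log 2 N + 1)).biUnion Dj, ?_, ?_, ?_⟩
  · rw [← hLd]
    have k1 : (((range (Nat.log 2 N + 1)).biUnion Dj).card : ℝ) ≤ ∑ j ∈ range (Nat.log 2 N + 1), ((Dj j).card : ℝ) := by
      exact_mod_cast card_biUnion_le
    refine k1.trans ((sum_le_sum fun j _ => hDj1 j).trans ?_)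
    rw [sum_const, card_range, nsmul_eq_mul]
    have k2 := Pool.Agent.H373R2.T7.natlog_le N (by omega)
    rw [← hLd] at k2
    push_cast
    calc ((Nat.log 2 N : ℝ) + 1) * (2 * L) ^ c ≤ (2 * L + 1) * (2 * L) ^ c := by gcongr
      _ ≤ (3 * L) * (2 * L) ^ c := by
          gcongr
          linarith
      _ = (3 * 2 ^ c) * L ^ (c + 1) := by
          rw [mul_pow]
          ring
      _ ≤ L * L ^ (c + 1) := by gcongr
      _ = L ^ (c + 2) := by ring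
  · intro d hd
    rw [mem_biUnion] at hd
    obtain ⟨j, -, hj⟩ := hd
    rw [← hLd]
    exact hDj2 j d hj
  intro F hF q hq1 hqN hqD x d hd1 hdN
  rw [← hLd] at hF ⊢
  have hq0 : (0 : ℝ) < q := by exact_mod_cast hq1
  have hd0 : (0 : ℝ) < d := by exact_mod_cast hd1
  have hdN' : d ≤ N := by
    have : (d : ℝ) ≤ N := by
      calc (d : ℝ) ≤ (N : ℝ) ^ (ρ / 4) := hdN
        _ ≤ (N : ℝ) ^ (1 : ℝ) := Real.rpow_le_rpow_of_exponent_le hNr1 (by linarith)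
        _ = N := Real.rpow_one _
    exact_mod_cast this
  obtain ⟨M, hM⟩ : ∃ M, M = N / d := ⟨_, rfl⟩
  have hM1 : 1 ≤ M := by
    rw [hM]
    exact Nat.div_pos hdN' hd1
  obtain ⟨j, hj⟩ : ∃ j, j = Nat.log 2 M := ⟨_, rfl⟩
  have hjN : j ∈ range (Nat.log 2 N + 1) := by
    rw [mem_range, hj]
    have := Nat.log_mono_right (b := 2) (show M ≤ N by rw [hM]; exact Nat.div_le_self _ _)
    omega
  have hprop := hDj j
  have hqDj : ∀ d ∈ Dj j, ¬ d ∣ q := fun d hd => hqD d (mem_biUnion.2 ⟨j, hjN, hd⟩)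
  obtain ⟨X, hX⟩ : ∃ X, X = 2 ^ (j + 1) := ⟨_, rfl⟩
  rw [← hX] at hprop
  have hX1 : M + 1 ≤ X := by
    rw [hX, hj]
    exact Nat.lt_pow_succ_log_self (by norm_num) M
  have hX2 : X ≤ 2 * M := by
    rw [hX, hj, pow_succ]
    have := Nat.pow_log_le_self 2 (show M ≠ 0 by omega)
    omega
  have hMr : (M : ℝ) ≤ N / d := by
    rw [hM]
    exact Nat.cast_div_le
  have hMr2 : (N : ℝ) / d < (M : ℝ) + 1 := by
    rw [div_lt_iff₀ hd0]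
    have : N < (N / d + 1) * d := Nat.lt_mul_of_div_lt (Nat.lt_succ_self _) hd1
    rw [← hM] at this
    exact_mod_cast this
  have hXr1 : (N : ℝ) ^ (1 - ρ / 4) ≤ X := by
    have e1 : (N : ℝ) ^ (1 - ρ / 4) = N / (N : ℝ) ^ (ρ / 4) := by
      rw [Real.rpow_sub hN0, Real.rpow_one]
    have e2 : (N : ℝ) / (N : ℝ) ^ (ρ / 4) ≤ N / d := div_le_div_of_nonneg_left hN0.le hd0 hdN
    have e3 : (M : ℝ) + 1 ≤ X := by exact_mod_cast hX1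
    linarith
  have hXr2 : X ≤ 2 * N := by
    have : M ≤ N := by rw [hM]; exact Nat.div_le_self _ _
    omega
  obtain ⟨-, k2, k3, -, k5⟩ := hXs X hXr1 hXr2
  rw [← hLd] at k2 k3
  have hP := hprop hXr1 hXr2
  obtain ⟨l', hl'⟩ : ∃ l', l' = Real.log (X : ℝ) := ⟨_, rfl⟩
  rw [← hl'] at k2 k3 hP
  have hl0 : 0 < l' := by linarith
  have hX0 : (0 : ℝ) < X := by exact_mod_cast (by omega : 0 < X)
  obtain ⟨g, hg⟩ : ∃ g, g = Nat.gcd q d := ⟨_, rfl⟩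
  have hgq : g ∣ q := by rw [hg]; exact Nat.gcd_dvd_left _ _
  have hg1 : 1 ≤ g := Nat.pos_of_dvd_of_pos hgq hq1
  have hg0 : (0 : ℝ) < g := by exact_mod_cast hg1
  have hq'1 : 1 ≤ q / g := Nat.div_pos (Nat.le_of_dvd hq1 hgq) hg1
  have hq'r : ((q / g : ℕ) : ℝ) = (q : ℝ) / g := Nat.cast_div hgq hg0.ne'
  have hR0 : 0 ≤ (X : ℝ) ^ 3 / (((q / g : ℕ) : ℝ) * l' ^ (A + 1)) := by positivity
  have hone := one_d (N := N) (d := d) (q := q) (x := x) (X := X) (F := F) (K := kX a l V z)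
    (R := (X : ℝ) ^ 3 / (((q / g : ℕ) : ℝ) * l' ^ (A + 1))) hd1 hq1 (by rw [← hM]; exact hX1) hR0 (by
      intro s x'
      rw [← hg]
      refine hP (Fs d s N F) (fun b _ => Fs_le hl0.le (fun b hb => (hF b hb).trans (by linarith)) b) (q / g) hq'1 ?_ ?_ x'
      · refine le_trans ?_ (hqN.trans k5)
        exact_mod_cast Nat.div_le_self _ _
      · intro e he hed
        exact hqDj e he (hed.trans (Nat.div_dvd_of_dvd hgq)))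
  rw [← hg, hq'r] at hone
  refine hone.trans ?_
  have hXd : (X : ℝ) ≤ 2 * (N / d) := by
    have : (X : ℝ) ≤ 2 * M := by exact_mod_cast hX2
    linarith
  calc 8 * ((d : ℝ) / g) * ((X : ℝ) ^ 3 / ((q : ℝ) / g * l' ^ (A + 1)))
      ≤ 8 * ((d : ℝ) / g) * ((2 * (N / d)) ^ 3 / ((q : ℝ) / g * (L / 2) ^ (A + 1))) := by gcongr
    _ = (N : ℝ) ^ 3 / ((d : ℝ) ^ 2 * q * L ^ A) * ((64 * 2 ^ (A + 1)) / L) := by
        rw [div_pow, mul_pow, div_pow, pow_succ L A]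
        field_simp
        ring
    _ ≤ (N : ℝ) ^ 3 / ((d : ℝ) ^ 2 * q * L ^ A) * 1 := by
        apply mul_le_mul_of_nonneg_left _ (by positivity)
        rw [div_le_one hL0]
        exact hLA
    _ = _ := mul_one _

end Pool.Agent.J4H40
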