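import Pool.Agent.J4H40.Kf

set_option autoImplicit false

/-! The sum over the small divisors. -/

namespace Pool.Agent.J4H40

open Finset
open Pool.Agent.H373R2.T7 (lamz Vz pz)

open Classical in
/-- the convolution with coefficients on the integers up to `Y` -/
noncomputable def Hs (u K : ℕ → ℝ) (Y : ℝ) (m : ℕ) : ℝ :=
  ∑ d ∈ m.divisors.filter (fun d : ℕ => (d : ℝ) ≤ Y), u d * K (m / d)

open Classical in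
lemma cn_Hs {N n : ℕ} {u K : ℕ → ℝ} {Y : ℝ} {F : ℕ → ℂ} (hn : n ∈ Icc 1 N) :
    cn F (Hs u K Y) n = ∑ d ∈ (Icc 1 N).filter (fun d : ℕ => (d : ℝ) ≤ Y), ((u d : ℝ) : ℂ) * dn d F K n := by
  rw [mem_Icc] at hn
  rw [cn_refl]
  have e1 : ∑ m ∈ Icc 1 (n - 1), F (n - m) * ((Hs u K Y m : ℝ) : ℂ) = ∑ m ∈ Icc 1 (n - 1), ∑ d ∈ m.divisors,
      (if (d : ℝ) ≤ Y then ((u d : ℝ) : ℂ) else 0) * (F (n - d * (m / d)) * ((K (m / d) : ℝ) : ℂ)) := by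
    refine sum_congr rfl fun m _ => ?_
    unfold Hs
    rw [sum_filter]
    push_cast
    rw [mul_sum]
    refine sum_congr rfl fun d hd => ?_
    rw [Nat.mul_div_cancel' (Nat.dvd_of_mem_divisors hd)]
    split_ifs
    · push_cast
      ring
    · push_cast
      ring
  rw [e1, Pool.Agent.Y183.GJ.dirC (n - 1) (fun d k => (if (d : ℝ) ≤ Y then ((u d : ℝ) : ℂ) else 0) *
    (F (n - d * k) * ((K k : ℝ) : ℂ)))]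
  rw [sum_filter]
  have e2 : ∀ d ∈ Icc 1 N, d ∉ Icc 1 (n - 1) → (if (d : ℝ) ≤ Y then ((u d : ℝ) : ℂ) * dn d F K n else 0) = 0 := by
    intro d hd hd'
    rw [mem_Icc] at hd hd'
    have : (n - 1) / d = 0 := Nat.div_eq_of_lt (by omega)
    unfold dn
    rw [this]
    simp
  rw [← sum_subset (Icc_subset_Icc le_rfl (by omega : n - 1 ≤ N)) e2]
  refine sum_congr rfl fun d _ => ?_
  rw [← mul_sum]
  unfold dn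
  split_ifs
  · rfl
  · rw [zero_mul]

theorem msH {ρ σ κ : ℝ} (hρ : 0 < ρ) (hρ1 : ρ ≤ 1) (hκ : 0 < κ) (hσ0 : 0 < σ) (hσρ : σ < ρ / 2) (A : ℕ) :
    ∃ c : ℕ, ∀ A₀ : ℕ, ∃ B K U : ℕ, ∀ E : ℕ, ∃ N₀ : ℕ, ∀ N : ℕ, N₀ ≤ N →
      ∀ z : ℕ, Real.log N ^ B ≤ z → (z : ℝ) ≤ Real.log N ^ E →
      ∀ (l : ℕ → ℝ) (v V : ℝ) (a : ℕ → ℝ), Scl N z K U ρ κ σ l v V a →
      ∃ D : Finset ℕ, (D.card : ℝ) ≤ Real.log N ^ c ∧ (∀ d ∈ D, Real.log N ^ A₀ < (d : ℝ)) ∧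
      ∀ F : ℕ → ℂ, (∀ b ∈ Icc 1 N, ‖F b‖ ≤ Real.log N) → ∀ q : ℕ, 1 ≤ q →
      (q : ℝ) ≤ (N : ℝ) ^ (1 - ρ) → (∀ d ∈ D, ¬ d ∣ q) → ∀ x : ℕ, ∀ u : ℕ → ℝ, (∀ d, |u d| ≤ 1) →
        ∑ n ∈ (Icc 1 N).filter (fun n => n ≡ x [MOD q]),
          ‖cn F (Hs u (kX a l V z) ((N : ℝ) ^ (ρ / 4))) n‖ ^ 2 ≤ (N : ℝ) ^ 3 / (q * Real.log N ^ A) := by
  classical
  obtain ⟨c, hc⟩ := msD hρ hρ1 hκ hσ0 hσρ (A + 3)
  refine ⟨c, fun A₀ => ?_⟩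
  obtain ⟨B, K, U, hB⟩ := hc A₀
  refine ⟨B, K, U, fun E => ?_⟩
  obtain ⟨N₁, h1⟩ := hB E
  obtain ⟨N₂, h2⟩ := Pool.Agent.R462.GS.evL 4
  refine ⟨N₁ + N₂ + 1, fun N hN z hz1 hz2 l v V a hscl => ?_⟩
  obtain ⟨D, hD1, hD2, hD⟩ := h1 N (by omega) z hz1 hz2 l v V a hscl
  refine ⟨D, hD1, hD2, fun F hF q hq1 hqN hqD x u hu => ?_⟩
  have hL := h2 N (by omega)
  have hN0 : (0 : ℝ) < N := by exact_mod_cast (by omega : 0 < N)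
  have hq0 : (0 : ℝ) < q := by exact_mod_cast hq1
  have hd := fun d : ℕ => hD F hF q hq1 hqN hqD x d
  obtain ⟨Y, hY⟩ : ∃ Y, Y = (N : ℝ) ^ (ρ / 4) := ⟨_, rfl⟩
  obtain ⟨Sd, hSd⟩ : ∃ Sd, Sd = (Icc 1 N).filter (fun d : ℕ => (d : ℝ) ≤ Y) := ⟨_, rfl⟩
  obtain ⟨Kf, hKf⟩ : ∃ Kf, Kf = kX a l V z := ⟨_, rfl⟩
  rw [← hKf, ← hY] at hd ⊢
  have hmem : ∀ d ∈ Sd, 1 ≤ d ∧ (d : ℝ) ≤ Y := by
    intro d hd
    rw [hSd, mem_filter, mem_Icc] at hd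
    exact ⟨hd.1.1, hd.2⟩
  have hharm : ∑ d ∈ Sd, ((d : ℝ))⁻¹ ≤ 2 * Real.log N := by
    have h3 : ∑ m ∈ Icc 1 N, ((m : ℝ))⁻¹ ≤ 1 + Real.log N := by
      have := harmonic_le_one_add_log N
      rw [harmonic_eq_sum_Icc] at this
      push_cast at this
      exact this
    have h4 : ∑ d ∈ Sd, ((d : ℝ))⁻¹ ≤ ∑ m ∈ Icc 1 N, ((m : ℝ))⁻¹ := by
      rw [hSd]
      exact sum_le_sum_of_subset_of_nonneg (filter_subset _ _) fun _ _ _ => by positivity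
    linarith
  obtain ⟨L, hLd⟩ : ∃ L, L = Real.log (N : ℝ) := ⟨_, rfl⟩
  rw [← hLd] at hharm hL hd ⊢
  have hL0 : 0 < L := by linarith
  have hH0 : 0 ≤ ∑ d ∈ Sd, ((d : ℝ))⁻¹ := sum_nonneg fun _ _ => by positivity
  have hpt : ∀ n ∈ (Icc 1 N).filter (fun n => n ≡ x [MOD q]), ‖cn F (Hs u Kf Y) n‖ ^ 2 ≤
      (∑ d ∈ Sd, ((d : ℝ))⁻¹) * ∑ d ∈ Sd, (d : ℝ) * ‖dn d F Kf n‖ ^ 2 := by
    intro n hn
    rw [mem_filter] at hn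
    rw [cn_Hs hn.1, ← hSd]
    have k1 : ‖∑ d ∈ Sd, ((u d : ℝ) : ℂ) * dn d F Kf n‖ ≤ ∑ d ∈ Sd, ‖dn d F Kf n‖ := by
      refine (norm_sum_le _ _).trans (sum_le_sum fun d _ => ?_)
      rw [norm_mul, Complex.norm_real, Real.norm_eq_abs]
      have := hu d
      have := norm_nonneg (dn d F Kf n)
      nlinarith
    refine (pow_le_pow_left₀ (norm_nonneg _) k1 2).trans ?_
    refine sum_sq_le_sum_mul_sum_of_sq_eq_mul Sd (fun d _ => by positivity) (fun d _ => by positivity) fun d hd => ?_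
    have hd0 : (0 : ℝ) < d := by exact_mod_cast (hmem d hd).1
    field_simp
  refine (sum_le_sum hpt).trans ?_
  rw [← mul_sum, sum_comm]
  have h5 : ∑ d ∈ Sd, ∑ n ∈ (Icc 1 N).filter (fun n => n ≡ x [MOD q]), (d : ℝ) * ‖dn d F Kf n‖ ^ 2 ≤
      ∑ d ∈ Sd, ((d : ℝ))⁻¹ * ((N : ℝ) ^ 3 / (q * L ^ (A + 3))) := by
    refine sum_le_sum fun d hd' => ?_
    obtain ⟨k1, k2⟩ := hmem d hd'
    have hd0 : (0 : ℝ) < d := by exact_mod_cast k1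
    rw [← mul_sum]
    calc (d : ℝ) * _ ≤ (d : ℝ) * ((N : ℝ) ^ 3 / ((d : ℝ) ^ 2 * q * L ^ (A + 3))) :=
          mul_le_mul_of_nonneg_left (hd d k1 k2) hd0.le
      _ = _ := by
          field_simp
  rw [← sum_mul] at h5
  calc (∑ d ∈ Sd, ((d : ℝ))⁻¹) * ∑ d ∈ Sd, ∑ n ∈ (Icc 1 N).filter (fun n => n ≡ x [MOD q]), (d : ℝ) * ‖dn d F Kf n‖ ^ 2
      ≤ (∑ d ∈ Sd, ((d : ℝ))⁻¹) * ((∑ d ∈ Sd, ((d : ℝ))⁻¹) * ((N : ℝ) ^ 3 / (q * L ^ (A + 3)))) :=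
        mul_le_mul_of_nonneg_left h5 hH0
    _ ≤ (2 * L) * ((2 * L) * ((N : ℝ) ^ 3 / (q * L ^ (A + 3)))) := by gcongr
    _ = (N : ℝ) ^ 3 / (q * L ^ A) * (4 / L) := by
        rw [pow_add]
        field_simp
        ring
    _ ≤ (N : ℝ) ^ 3 / (q * L ^ A) * 1 := by
        apply mul_le_mul_of_nonneg_left _ (by positivity)
        rw [div_le_one hL0]
        exact hL
    _ = _ := mul_one _

end Pool.Agent.J4H40
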