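import Pool.Agent.J4H40.Kg

set_option autoImplicit false

/-! The decomposition of an integer in a smooth and a rough part; the convolutions. -/

namespace Pool.Agent.J4H40

open Finset
open Pool.Agent.H373R2.T7 (lamz Vz pz mem_pz Vz_pos)

/-- all prime factors are at most `z` -/
def Smo (z d : ℕ) : Prop := ∀ p : ℕ, p.Prime → p ∣ d → p ≤ z

open Classical in
/-- indicator function of the integers all of whose prime factors are at most `z` -/
noncomputable def sm (z d : ℕ) : ℝ := if Smo z d then 1 else 0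

open Classical in
/-- indicator function of the integers all of whose prime factors are larger than `z` -/
noncomputable def rg (z n : ℕ) : ℝ := if Rgh z n then 1 else 0

lemma lamz_rg (z n : ℕ) : lamz z n = (Vz z)⁻¹ * rg z n := by
  classical
  unfold lamz rg Rgh
  split_ifs <;> simp

lemma sr_coprime {z d r : ℕ} (hd : Smo z d) (hr : Rgh z r) : d.Coprime r := by
  by_contra hcon
  obtain ⟨p, hp, h1, h2⟩ := Nat.Prime.not_coprime_iff_dvd.1 hcon
  exact hr p (mem_pz.2 ⟨hd p hp h1, hp⟩) h2

lemma exists_sr (z : ℕ) : ∀ n : ℕ, 1 ≤ n → ∃ d r : ℕ, n = d * r ∧ Smo z d ∧ Rgh z r := by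
  intro n
  induction n using Nat.strong_induction_on with
  | _ n ih =>
    intro hn
    by_cases h : Rgh z n
    · refine ⟨1, n, (one_mul n).symm, ?_, h⟩
      intro p hp hp1
      have := Nat.le_of_dvd one_pos hp1
      have := hp.two_le
      omega
    · unfold Rgh at h
      push Not at h
      obtain ⟨p, hp, m, hm⟩ := h
      have hpp := (mem_pz.1 hp).2
      have hp2 := hpp.two_le
      have hm1 : 1 ≤ m := by
        rcases Nat.eq_zero_or_pos m with h0 | h0
        · rw [h0, mul_zero] at hm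
          omega
        · exact h0
      have hmn : m < n := by
        rw [hm]
        nlinarith
      obtain ⟨d, r, h1, h2, h3⟩ := ih m hmn hm1
      refine ⟨p * d, r, by rw [hm, h1, mul_assoc], ?_, h3⟩
      intro p' hp' hd'
      rcases hp'.dvd_mul.1 hd' with h4 | h4
      · rw [(Nat.prime_dvd_prime_iff_eq hp' hpp).1 h4]
        exact (mem_pz.1 hp).1
      · exact h2 p' hp' h4

lemma sr_unique {z d r d' r' : ℕ} (h : d * r = d' * r') (hd : Smo z d) (hr : Rgh z r)
    (hd' : Smo z d') (hr' : Rgh z r') : d = d' := by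
  apply Nat.dvd_antisymm
  · exact (sr_coprime hd hr').dvd_of_dvd_mul_right (Dvd.intro r h)
  · exact (sr_coprime hd' hr).dvd_of_dvd_mul_right (Dvd.intro r' h.symm)

/-- the decomposition of a multiplicative function -/
lemma dec1 {z n : ℕ} {f : ℕ → ℝ} (hf : ∀ m k : ℕ, m.Coprime k → f (m * k) = f m * f k) (hn : 1 ≤ n) :
    ∑ d ∈ n.divisors, (f d * sm z d) * (f (n / d) * rg z (n / d)) = f n := by
  obtain ⟨d, r, h1, h2, h3⟩ := exists_sr z n hn
  have hd1 : 0 < d := by
    rcases Nat.eq_zero_or_pos d with h0 | h0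
    · rw [h0, zero_mul] at h1
      omega
    · exact h0
  have hr : n / d = r := by
    rw [h1]
    exact Nat.mul_div_cancel_left r hd1
  rw [sum_eq_single d]
  · unfold sm rg
    rw [hr, if_pos h2, if_pos h3, mul_one, mul_one, ← hf d r (sr_coprime h2 h3), ← h1]
  · intro d' hd' hne
    unfold sm rg
    by_cases k1 : Smo z d'
    · by_cases k2 : Rgh z (n / d')
      · exfalso
        apply hne
        refine (sr_unique (r := r) (r' := n / d') ?_ h2 h3 k1 k2).symm
        rw [Nat.mul_div_cancel' (Nat.dvd_of_mem_divisors hd'), ← h1]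
      · rw [if_neg k2, mul_zero, mul_zero]
    · rw [if_neg k1, mul_zero, zero_mul]
  · intro h
    exact absurd (Nat.mem_divisors.2 ⟨Dvd.intro r h1.symm, by omega⟩) h

/-- a real function as an arithmetic function -/
noncomputable def ar (f : ℕ → ℝ) : ArithmeticFunction ℝ := ⟨fun n => if n = 0 then 0 else f n, by simp⟩

lemma ar_apply {f : ℕ → ℝ} {n : ℕ} (hn : n ≠ 0) : ar f n = f n := by
  unfold ar
  simp [hn]

lemma ar_mul (f g : ℕ → ℝ) {n : ℕ} (hn : 1 ≤ n) : (ar f * ar g) n = gA f g n := by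
  unfold gA
  rw [ArithmeticFunction.mul_apply, Nat.sum_divisorsAntidiagonal (fun a b => ar f a * ar g b)]
  refine sum_congr rfl fun d hd => ?_
  have hdn := Nat.dvd_of_mem_divisors hd
  have hd1 : 0 < d := Nat.pos_of_dvd_of_pos hdn hn
  have hd2 : 0 < n / d := Nat.div_pos (Nat.le_of_dvd hn hdn) hd1
  rw [ar_apply hd1.ne', ar_apply hd2.ne']

lemma ar_gA (f g : ℕ → ℝ) : ar (gA f g) = ar f * ar g := by
  ext n
  rcases Nat.eq_zero_or_pos n with h | h
  · rw [h]
    simp
  · rw [ar_apply h.ne', ar_mul f g h]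

lemma gA_assoc (u a l : ℕ → ℝ) {n : ℕ} (hn : 1 ≤ n) : gA u (gA a l) n = gA a (gA u l) n := by
  rw [← ar_mul u _ hn, ← ar_mul a _ hn, ar_gA, ar_gA]
  ring_nf

lemma gA_congr {a l l' : ℕ → ℝ} {n : ℕ} (hn : 1 ≤ n) (h : ∀ m, 1 ≤ m → l m = l' m) : gA a l n = gA a l' n := by
  unfold gA
  refine sum_congr rfl fun d hd => ?_
  have hdn := Nat.dvd_of_mem_divisors hd
  have hd1 : 0 < d := Nat.pos_of_dvd_of_pos hdn hn
  rw [h _ (Nat.div_pos (Nat.le_of_dvd hn hdn) hd1)]

/-- the convolution with the smooth integers, without a model -/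
lemma comp_f {z n : ℕ} {f a : ℕ → ℝ} (hf : ∀ m k : ℕ, m.Coprime k → f (m * k) = f m * f k) (hn : 1 ≤ n) :
    gA (fun d => f d * sm z d) (kX a (fun m => f m * rg z m) 0 z) n = gA a f n := by
  have e1 : kX a (fun m => f m * rg z m) 0 z = gA a (fun m => f m * rg z m) := by
    funext m
    unfold kX
    ring
  rw [e1, gA_assoc _ _ _ hn]
  exact gA_congr hn fun m hm => dec1 hf hm

/-- the convolution with the smooth integers, with the model -/
lemma comp_one {z n : ℕ} {V : ℝ} {a : ℕ → ℝ} (hn : 1 ≤ n) :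
    gA (sm z) (kX a (lamz z) V z) n = (Vz z)⁻¹ * (gA a (fun _ => 1) n - V) := by
  have h1 : ∀ m : ℕ, 1 ≤ m → gA (sm z) (lamz z) m = (Vz z)⁻¹ := by
    intro m hm
    have := dec1 (z := z) (f := fun _ => 1) (fun _ _ _ => by ring) hm
    calc gA (sm z) (lamz z) m = (Vz z)⁻¹ * ∑ d ∈ m.divisors, ((1 : ℝ) * sm z d) * (1 * rg z (m / d)) := by
          unfold gA
          rw [mul_sum]
          refine sum_congr rfl fun d _ => ?_
          rw [lamz_rg]
          ring
      _ = _ := by rw [this, mul_one]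
  have e1 : gA (sm z) (kX a (lamz z) V z) n = gA (sm z) (gA a (lamz z)) n - V * gA (sm z) (lamz z) n := by
    unfold kX
    unfold gA
    rw [mul_sum, ← sum_sub_distrib]
    refine sum_congr rfl fun d _ => ?_
    ring
  rw [e1, gA_assoc _ _ _ hn, h1 n hn, gA_congr (l' := fun _ => (Vz z)⁻¹) hn h1]
  have e2 : gA a (fun _ => (Vz z)⁻¹) n = (Vz z)⁻¹ * gA a (fun _ => 1) n := by
    unfold gA
    rw [mul_sum]
    refine sum_congr rfl fun d _ => ?_
    ring
  rw [e2]
  ring

end Pool.Agent.J4H40
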