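import Pool.Agent.J4H40.Kh
import Mathlib.NumberTheory.EulerProduct.Basic

set_option autoImplicit false

/-! The smooth integers which are large are rare. -/

namespace Pool.Agent.J4H40

open Finset Filter
open Pool.Agent.H373R2.T7 (lamz Vz pz mem_pz Vz_pos)

/-- the completely multiplicative weight -/
noncomputable def w32 : ℕ →* ℝ where
  toFun d := if d = 0 then 0 else (3 / 2 : ℝ) ^ (ArithmeticFunction.cardFactors d) / d
  map_one' := by simp
  map_mul' m n := by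
    by_cases hm : m = 0
    · simp [hm]
    by_cases hn : n = 0
    · simp [hn]
    rw [if_neg (Nat.mul_ne_zero hm hn), if_neg hm, if_neg hn, ArithmeticFunction.cardFactors_mul hm hn, pow_add]
    push_cast
    have h1 : (m : ℝ) ≠ 0 := by exact_mod_cast hm
    have h2 : (n : ℝ) ≠ 0 := by exact_mod_cast hn
    field_simp

lemma w32_apply {d : ℕ} (hd : d ≠ 0) : w32 d = (3 / 2 : ℝ) ^ (ArithmeticFunction.cardFactors d) / d := by
  show (if d = 0 then (0 : ℝ) else _) = _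
  rw [if_neg hd]

lemma w32_nn (d : ℕ) : 0 ≤ w32 d := by
  by_cases hd : d = 0
  · show (0 : ℝ) ≤ (if d = 0 then (0 : ℝ) else _)
    rw [if_pos hd]
  · rw [w32_apply hd]
    positivity

lemma w32_prime {p : ℕ} (hp : p.Prime) : w32 p = (3 / 2) / p := by
  rw [w32_apply hp.ne_zero, ArithmeticFunction.cardFactors_apply_prime hp, pow_one]

lemma smo_iff {z d : ℕ} : Smo z d ↔ d ∈ Nat.smoothNumbers (z + 1) := by
  rw [Nat.mem_smoothNumbers']
  unfold Smo
  constructor
  · intro h p hp hd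
    exact Nat.lt_succ_of_le (h p hp hd)
  · intro h p hp hd
    exact Nat.le_of_lt_succ (h p hp hd)

open Classical in
/-- the weighted sum over the smooth integers -/
lemma w32_sum (z N : ℕ) : ∑ d ∈ (Icc 1 N).filter (Smo z), w32 d ≤ ((Vz z)⁻¹) ^ 2 := by
  have h1 := (EulerProduct.summable_and_hasSum_smoothNumbers_prod_primesBelow_geometric (f := w32) (by
    intro p hp
    have hp2 : (2 : ℝ) ≤ p := by exact_mod_cast hp.two_le
    rw [w32_prime hp, Real.norm_eq_abs, abs_of_nonneg (by positivity), div_lt_one (by linarith)]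
    linarith) (z + 1)).2
  have h2 : HasSum ((Nat.smoothNumbers (z + 1)).indicator (fun d => w32 d)) (∏ p ∈ (z + 1).primesBelow, (1 - w32 p)⁻¹) :=
    hasSum_subtype_iff_indicator.1 h1
  have h3 : ∑ d ∈ (Icc 1 N).filter (Smo z), w32 d ≤ ∏ p ∈ (z + 1).primesBelow, (1 - w32 p)⁻¹ := by
    have h4 := sum_le_hasSum ((Icc 1 N).filter (Smo z)) (fun d _ => Set.indicator_nonneg (fun d _ => w32_nn d) d) h2
    refine le_trans (le_of_eq ?_) h4
    refine sum_congr rfl fun d hd => ?_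
    rw [mem_filter] at hd
    rw [Set.indicator_of_mem (smo_iff.1 hd.2)]
  refine h3.trans ?_
  have h5 : (z + 1).primesBelow = pz z := by
    ext p
    rw [Nat.mem_primesBelow, mem_pz]
    constructor
    · rintro ⟨a1, a2⟩
      exact ⟨by omega, a2⟩
    · rintro ⟨a1, a2⟩
      exact ⟨by omega, a2⟩
  rw [h5]
  unfold Vz
  rw [← prod_inv_distrib, ← prod_pow]
  refine prod_le_prod (fun p hp => ?_) fun p hp => ?_
  · have hpp := (mem_pz.1 hp).2
    have hp2 : (2 : ℝ) ≤ p := by exact_mod_cast hpp.two_le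
    rw [w32_prime hpp]
    have : (3 / 2 : ℝ) / p ≤ 1 := by
      rw [div_le_one (by linarith)]
      linarith
    exact inv_nonneg.2 (by linarith)
  · have hpp := (mem_pz.1 hp).2
    have hp2 : (2 : ℝ) ≤ p := by exact_mod_cast hpp.two_le
    have hp0 : (0 : ℝ) < p := by linarith
    rw [w32_prime hpp, inv_pow]
    have h6 : (1 : ℝ) / p ≤ 1 / 2 := by
      rw [div_le_div_iff₀ hp0 (by norm_num)]
      linarith
    have h7 : 0 < 1 - 1 / (p : ℝ) := by linarith
    apply inv_anti₀ (by positivity)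
    have e1 : 1 - (3 / 2 : ℝ) / p - (1 - 1 / (p : ℝ)) ^ 2 = (1 / p) * (1 / 2 - 1 / p) := by
      field_simp
      ring
    have e2 : 0 ≤ (1 / (p : ℝ)) * (1 / 2 - 1 / p) := by
      apply mul_nonneg (by positivity)
      linarith
    linarith

lemma smo_pow {z d : ℕ} (hd : Smo z d) (h0 : d ≠ 0) : d ≤ z ^ ArithmeticFunction.cardFactors d := by
  rw [ArithmeticFunction.cardFactors_apply]
  conv_lhs => rw [← Nat.prod_primeFactorsList h0]
  apply List.prod_le_pow_card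
  intro p hp
  have hp' := Nat.prime_of_mem_primeFactorsList hp
  exact hd p hp' (Nat.dvd_of_mem_primeFactorsList hp)

open Classical in
/-- the smooth integers larger than `z ^ k` -/
lemma smooth_gt {z N k : ℕ} {Y : ℝ} (hz : 1 ≤ z) (hY : (z : ℝ) ^ k ≤ Y) :
    ∑ d ∈ (Icc 1 N).filter (fun d => Smo z d ∧ Y < d), ((d : ℝ))⁻¹ ≤ (2 / 3 : ℝ) ^ k * ((Vz z)⁻¹) ^ 2 := by
  have h1 : ∀ d ∈ (Icc 1 N).filter (fun d => Smo z d ∧ Y < d), ((d : ℝ))⁻¹ ≤ (2 / 3 : ℝ) ^ k * w32 d := by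
    intro d hd
    rw [mem_filter, mem_Icc] at hd
    obtain ⟨⟨a1, a2⟩, a3, a4⟩ := hd
    have hd0 : (0 : ℝ) < d := by exact_mod_cast a1
    rw [w32_apply (by omega)]
    have h2 : k ≤ ArithmeticFunction.cardFactors d := by
      by_contra hcon
      have h3 := smo_pow a3 (by omega)
      have h4 : z ^ ArithmeticFunction.cardFactors d ≤ z ^ k := Nat.pow_le_pow_right hz (by omega)
      have h5 : (d : ℝ) ≤ (z : ℝ) ^ k := by exact_mod_cast h3.trans h4
      linarith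
    have h3 : (1 : ℝ) ≤ (2 / 3 : ℝ) ^ k * (3 / 2 : ℝ) ^ ArithmeticFunction.cardFactors d := by
      calc (1 : ℝ) = (2 / 3 : ℝ) ^ k * (3 / 2 : ℝ) ^ k := by
            rw [← mul_pow]
            norm_num
        _ ≤ _ := by
            apply mul_le_mul_of_nonneg_left _ (by positivity)
            exact pow_le_pow_right₀ (by norm_num) h2
    rw [← mul_div_assoc, inv_eq_one_div]
    gcongr
  refine (sum_le_sum h1).trans ?_
  rw [← mul_sum]
  apply mul_le_mul_of_nonneg_left _ (by positivity)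
  refine le_trans (sum_le_sum_of_subset_of_nonneg (fun d hd => ?_) fun _ _ _ => w32_nn _) (w32_sum z N)
  rw [mem_filter] at hd ⊢
  exact ⟨hd.1, hd.2.1⟩

/-- the numerical conditions -/
lemma ev_tail (A E : ℕ) {s : ℝ} (hs : 0 < s) : ∃ N₀ : ℕ, ∀ N : ℕ, N₀ ≤ N →
    1 ≤ Real.log N ∧ ∃ k : ℕ, (Real.log N ^ E) ^ k ≤ (N : ℝ) ^ s ∧ (2 / 3 : ℝ) ^ k ≤ 1 / Real.log N ^ A := by
  -- `log x ≤ x ^ (1/4)`-type bound
  have h1 : ∀ᶠ x : ℝ in atTop, (E : ℝ) * ((3 * A * Real.log x + 1) * Real.log x) ≤ s * x := by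
    have t1 : Tendsto (fun x : ℝ => (E : ℝ) * ((3 * A * Real.log x + 1) * Real.log x) / x) atTop (nhds 0) := by
      have e1 : Tendsto (fun x : ℝ => Real.log x ^ 2 / x) atTop (nhds 0) := by
        have := Real.tendsto_pow_log_div_mul_add_atTop 1 0 2 (by norm_num)
        simpa using this
      have e2 : Tendsto (fun x : ℝ => Real.log x / x) atTop (nhds 0) := by
        have := Real.tendsto_pow_log_div_mul_add_atTop 1 0 1 (by norm_num)
        simpa using this
      have e3 : Tendsto (fun x : ℝ => (E : ℝ) * (3 * A * (Real.log x ^ 2 / x) + Real.log x / x)) atTop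
          (nhds ((E : ℝ) * (3 * A * 0 + 0))) := ((e1.const_mul _).add e2).const_mul _
      have e4 : (E : ℝ) * (3 * A * 0 + 0) = 0 := by ring
      rw [e4] at e3
      refine e3.congr fun x => ?_
      ring
    filter_upwards [(tendsto_order.1 t1).2 s hs, eventually_gt_atTop (0 : ℝ)] with x hx hx0
    rw [div_lt_iff₀ hx0] at hx
    exact hx.le
  obtain ⟨x₀, hx₀⟩ := eventually_atTop.1 h1
  obtain ⟨N₀, hN₀⟩ := Pool.Agent.R462.GS.evL (|x₀| + 1)
  refine ⟨N₀ + 1, fun N hN => ?_⟩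
  have hL := hN₀ N (by omega)
  obtain ⟨L, hLd⟩ : ∃ L, L = Real.log (N : ℝ) := ⟨_, rfl⟩
  rw [← hLd] at hL ⊢
  have hL1 : 1 ≤ L := by
    have := abs_nonneg x₀
    linarith
  have hL0 : 0 < L := by linarith
  have hx := hx₀ L (by have := le_abs_self x₀; linarith)
  have hlog0 : 0 ≤ Real.log L := Real.log_nonneg hL1
  refine ⟨hL1, ⌈3 * A * Real.log L⌉₊, ?_, ?_⟩
  · obtain ⟨k, hk⟩ : ∃ k, k = ⌈3 * A * Real.log L⌉₊ := ⟨_, rfl⟩
    rw [← hk]
    have hkr : (k : ℝ) ≤ 3 * A * Real.log L + 1 := by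
      rw [hk]
      exact (Nat.ceil_lt_add_one (by positivity)).le
    have hN0 : (0 : ℝ) < N := by exact_mod_cast (by omega : 0 < N)
    have e1 : (L ^ E) ^ k = Real.exp (Real.log L * E * k) := by
      rw [← pow_mul, ← Real.exp_log (pow_pos hL0 (E * k)), Real.log_pow]
      push_cast
      ring_nf
    have e2 : (N : ℝ) ^ s = Real.exp (s * L) := by
      rw [Real.rpow_def_of_pos hN0, hLd, mul_comm]
    rw [e1, e2]
    apply Real.exp_le_exp.2
    calc Real.log L * E * k ≤ Real.log L * E * (3 * A * Real.log L + 1) := by gcongr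
      _ = (E : ℝ) * ((3 * A * Real.log L + 1) * Real.log L) := by ring
      _ ≤ s * L := hx
  · obtain ⟨k, hk⟩ : ∃ k, k = ⌈3 * A * Real.log L⌉₊ := ⟨_, rfl⟩
    rw [← hk]
    have hkr : 3 * A * Real.log L ≤ (k : ℝ) := by
      rw [hk]
      exact Nat.le_ceil _
    have e1 : (1 : ℝ) / L ^ A = Real.exp (-(A * Real.log L)) := by
      rw [Real.exp_neg, one_div, ← Real.log_pow, Real.exp_log (by positivity)]
    have e2 : (2 / 3 : ℝ) ≤ Real.exp (-(1 / 3)) := by
      have := Real.add_one_le_exp (-(1 / 3 : ℝ))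
      linarith
    rw [e1]
    calc (2 / 3 : ℝ) ^ k ≤ (Real.exp (-(1 / 3))) ^ k := pow_le_pow_left₀ (by norm_num) e2 k
      _ = Real.exp (-(k / 3)) := by
          rw [← Real.exp_nat_mul]
          ring_nf
      _ ≤ _ := by
          apply Real.exp_le_exp.2
          linarith

open Classical in
/-- the large smooth integers are rare -/
theorem smooth_tail (A E : ℕ) {s : ℝ} (hs : 0 < s) : ∃ N₀ : ℕ, ∀ N : ℕ, N₀ ≤ N → ∀ z : ℕ, 1 ≤ z →
    (z : ℝ) ≤ Real.log N ^ E → (Vz z)⁻¹ ≤ Real.log N →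
    ∑ d ∈ (Icc 1 N).filter (fun d : ℕ => Smo z d ∧ (N : ℝ) ^ s < d), ((d : ℝ))⁻¹ ≤ 1 / Real.log N ^ A := by
  obtain ⟨N₀, hN₀⟩ := ev_tail (A + 2) E hs
  refine ⟨N₀, fun N hN z hz1 hz2 hV => ?_⟩
  obtain ⟨hL1, k, hk1, hk2⟩ := hN₀ N hN
  have hY : (z : ℝ) ^ k ≤ (N : ℝ) ^ s := (pow_le_pow_left₀ (Nat.cast_nonneg _) hz2 k).trans hk1
  refine (smooth_gt hz1 hY).trans ?_
  have hV0 : 0 ≤ (Vz z)⁻¹ := (inv_pos.2 (Vz_pos z)).le
  have hL0 : 0 < Real.log N := by linarith
  calc (2 / 3 : ℝ) ^ k * ((Vz z)⁻¹) ^ 2 ≤ (1 / Real.log N ^ (A + 2)) * Real.log N ^ 2 := by gcongr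
    _ = _ := by
        rw [pow_add]
        field_simp

end Pool.Agent.J4H40
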