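import Pool.Agent.J4H40.Ki

set_option autoImplicit false

/-! The mean square for the convolution with all the smooth integers. -/

namespace Pool.Agent.J4H40

open Finset Filter
open Pool.Agent.H373R2.T7 (lamz Vz pz mem_pz Vz_pos)
open Pool.Agent.R460.GS (one_le_div)

lemma kX_abs {N n z : ℕ} {a l : ℕ → ℝ} {V : ℝ} (ha : ∀ m, |a m| ≤ 1) (hl : Lb N l) (hV : |V| ≤ 1)
    (hz : (Vz z)⁻¹ ≤ Real.log N) (hn : n ∈ Icc 1 N) :
    |kX a l V z n| ≤ 2 * Real.log N * (n.divisors.card : ℝ) := by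
  unfold kX
  have h1 := gA_abs ha hl hn
  have h2 := one_le_div hn
  have hL0 : 0 ≤ Real.log N := Real.log_natCast_nonneg N
  have h3 : |V * lamz z n| ≤ Real.log N := by
    rw [abs_mul, abs_of_nonneg (lamz_nn _ _)]
    have k1 := lamz_nn z n
    have k2 := (lamz_le z n).trans hz
    nlinarith [abs_nonneg V]
  have h4 : Real.log N * 1 ≤ Real.log N * (n.divisors.card : ℝ) := mul_le_mul_of_nonneg_left h2 hL0
  have h5 := abs_sub (gA a l n) (V * lamz z n)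
  linarith

/-- the terms which have been cut off -/
lemma Hs_diff {N : ℕ} {u K : ℕ → ℝ} {z : ℕ} {Y W : ℝ} (hu : ∀ d, |u d| ≤ 1) (hus : ∀ d, u d ≠ 0 → Smo z d)
    (hL : 1 ≤ Real.log N)
    (hK : ∀ k ∈ Icc 1 N, |K k| ≤ 2 * Real.log N * (k.divisors.card : ℝ))
    (hW : open Classical in ∑ d ∈ (Icc 1 N).filter (fun d : ℕ => Smo z d ∧ Y < d), ((d : ℝ))⁻¹ ≤ W) :
    ∑ m ∈ Icc 1 N, |gA u K m - Hs u K Y m| ≤ 8 * Real.log N ^ 3 * N * W := by
  classical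
  have hL0 : 0 < Real.log N := by linarith
  have e1 : ∀ m : ℕ, gA u K m - Hs u K Y m = ∑ d ∈ m.divisors, (if Y < d then u d else 0) * K (m / d) := by
    intro m
    unfold gA Hs
    rw [sum_filter, ← sum_sub_distrib]
    refine sum_congr rfl fun d _ => ?_
    by_cases h : (d : ℝ) ≤ Y
    · rw [if_pos h, if_neg (not_lt.2 h)]
      ring
    · rw [if_neg h, if_pos (not_le.1 h)]
      ring
  have e2 : ∑ m ∈ Icc 1 N, |gA u K m - Hs u K Y m| ≤
      ∑ m ∈ Icc 1 N, ∑ d ∈ m.divisors, (if Smo z d ∧ Y < d then 1 else 0) * |K (m / d)| := by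
    refine sum_le_sum fun m _ => ?_
    rw [e1]
    refine (abs_sum_le_sum_abs _ _).trans (sum_le_sum fun d _ => ?_)
    rw [abs_mul]
    apply mul_le_mul_of_nonneg_right _ (abs_nonneg _)
    by_cases h0 : u d = 0
    · rw [h0, ite_self, abs_zero]
      split_ifs <;> norm_num
    · by_cases h : Y < d
      · rw [if_pos h, if_pos ⟨hus d h0, h⟩]
        exact hu d
      · rw [if_neg h, abs_zero]
        split_ifs <;> norm_num
  refine e2.trans ?_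
  rw [Pool.Agent.TH935.DSB.dir N (fun d k => (if Smo z d ∧ Y < d then (1 : ℝ) else 0) * |K k|)]
  have e3 : ∀ d ∈ Icc 1 N, ∑ k ∈ Icc 1 (N / d), (if Smo z d ∧ Y < d then (1 : ℝ) else 0) * |K k| ≤
      if Smo z d ∧ Y < d then (8 * Real.log N ^ 3 * N) * ((d : ℝ))⁻¹ else 0 := by
    intro d hd
    rw [mem_Icc] at hd
    rw [← mul_sum]
    split_ifs with h
    · rw [one_mul]
      have hd0 : (0 : ℝ) < d := by exact_mod_cast hd.1
      have k1 : ∑ k ∈ Icc 1 (N / d), |K k| ≤ ∑ k ∈ Icc 1 (N / d), 2 * Real.log N * (k.divisors.card : ℝ) ^ 1 := by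
        refine sum_le_sum fun k hk => ?_
        rw [pow_one]
        rw [mem_Icc] at hk
        exact hK k (mem_Icc.2 ⟨hk.1, hk.2.trans (Nat.div_le_self _ _)⟩)
      refine k1.trans ?_
      rw [← mul_sum]
      have k2 := Pool.Agent.TH935.LD.tau_pow_sum 1 (N / d)
      have k3 : ((N / d : ℕ) : ℝ) ≤ (N : ℝ) / d := Nat.cast_div_le
      have k4 : Real.log ((N / d : ℕ) : ℝ) ≤ Real.log N := by
        rcases Nat.eq_zero_or_pos (N / d) with h0 | h0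
        · rw [h0, Nat.cast_zero, Real.log_zero]
          exact Real.log_natCast_nonneg N
        · exact Real.log_le_log (by exact_mod_cast h0) (by exact_mod_cast Nat.div_le_self _ _)
      have k5 := Real.log_natCast_nonneg (N / d)
      calc 2 * Real.log N * ∑ k ∈ Icc 1 (N / d), (k.divisors.card : ℝ) ^ 1
          ≤ 2 * Real.log N * (((N / d : ℕ) : ℝ) * (1 + Real.log ((N / d : ℕ) : ℝ)) ^ (2 ^ 1)) := by gcongr
        _ ≤ 2 * Real.log N * ((N : ℝ) / d * (2 * Real.log N) ^ (2 ^ 1)) := by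
            gcongr
            linarith
        _ = _ := by
            norm_num only
            ring
    · rw [zero_mul]
  refine (sum_le_sum e3).trans ?_
  rw [← sum_filter, ← mul_sum]
  exact mul_le_mul_of_nonneg_left hW (by positivity)

/-- changing the second function -/
lemma cn_diff {N n : ℕ} {F : ℕ → ℂ} {K K' : ℕ → ℝ} {T : ℝ} (hF : ∀ b ∈ Icc 1 N, ‖F b‖ ≤ Real.log N) (hn : n ∈ Icc 1 N)
    (hT : ∑ m ∈ Icc 1 N, |K m - K' m| ≤ T) : ‖cn F K n‖ ≤ ‖cn F K' n‖ + Real.log N * T := by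
  rw [mem_Icc] at hn
  have e : cn F K n = cn F K' n + cn F (fun m => K m - K' m) n := by
    unfold cn
    rw [← sum_add_distrib]
    refine sum_congr rfl fun b _ => ?_
    push_cast
    ring
  rw [e]
  refine (norm_add_le _ _).trans (add_le_add le_rfl ?_)
  rw [cn_refl]
  have hL0 : 0 ≤ Real.log N := Real.log_natCast_nonneg N
  calc ‖∑ m ∈ Icc 1 (n - 1), F (n - m) * ((K m - K' m : ℝ) : ℂ)‖ ≤
        ∑ m ∈ Icc 1 (n - 1), Real.log N * |K m - K' m| := by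
        refine (norm_sum_le _ _).trans (sum_le_sum fun m hm => ?_)
        rw [mem_Icc] at hm
        rw [norm_mul, Complex.norm_real, Real.norm_eq_abs]
        exact mul_le_mul_of_nonneg_right (hF _ (mem_Icc.2 ⟨by omega, by omega⟩)) (abs_nonneg _)
    _ ≤ ∑ m ∈ Icc 1 N, Real.log N * |K m - K' m| :=
        sum_le_sum_of_subset_of_nonneg (Icc_subset_Icc le_rfl (by omega)) fun _ _ _ => by positivity
    _ = Real.log N * ∑ m ∈ Icc 1 N, |K m - K' m| := by rw [mul_sum]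
    _ ≤ Real.log N * T := mul_le_mul_of_nonneg_left hT hL0

theorem msG {ρ σ κ : ℝ} (hρ : 0 < ρ) (hρ1 : ρ ≤ 1) (hκ : 0 < κ) (hσ0 : 0 < σ) (hσρ : σ < ρ / 2) (A : ℕ) :
    ∃ c : ℕ, ∀ A₀ : ℕ, ∃ B K U : ℕ, ∀ E : ℕ, ∃ N₀ : ℕ, ∀ N : ℕ, N₀ ≤ N →
      ∀ z : ℕ, Real.log N ^ B ≤ z → (z : ℝ) ≤ Real.log N ^ E →
      ∀ (l : ℕ → ℝ) (v V : ℝ) (a : ℕ → ℝ), Scl N z K U ρ κ σ l v V a →
      ∃ D : Finset ℕ, (D.card : ℝ) ≤ Real.log N ^ c ∧ (∀ d ∈ D, Real.log N ^ A₀ < (d : ℝ)) ∧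
      ∀ F : ℕ → ℂ, (∀ b ∈ Icc 1 N, ‖F b‖ ≤ Real.log N) → ∀ q : ℕ, 1 ≤ q →
      (q : ℝ) ≤ (N : ℝ) ^ (1 - ρ) → (∀ d ∈ D, ¬ d ∣ q) → ∀ x : ℕ, ∀ u : ℕ → ℝ, (∀ d, |u d| ≤ 1) →
      (∀ d, u d ≠ 0 → Smo z d) →
        ∑ n ∈ (Icc 1 N).filter (fun n => n ≡ x [MOD q]), ‖cn F (gA u (kX a l V z)) n‖ ^ 2 ≤
          (N : ℝ) ^ 3 / (q * Real.log N ^ A) := by
  classical
  obtain ⟨c, hc⟩ := msH hρ hρ1 hκ hσ0 hσρ (A + 1)
  refine ⟨c, fun A₀ => ?_⟩
  obtain ⟨B, K, U, hB⟩ := hc A₀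
  refine ⟨B, K, U, fun E => ?_⟩
  obtain ⟨N₁, h1⟩ := hB E
  obtain ⟨N₂, h2⟩ := Pool.Agent.R462.GS.evL 1000
  obtain ⟨N₃, h3⟩ := smooth_tail (A + 5) E (s := ρ / 4) (by linarith)
  obtain ⟨N₄, h4⟩ := Pool.Agent.H373R2.T7.Vz_inv_small E
  refine ⟨N₁ + N₂ + N₃ + N₄ + 1, fun N hN z hz1 hz2 l v V a hscl => ?_⟩
  obtain ⟨D, hD1, hD2, hD⟩ := h1 N (by omega) z hz1 hz2 l v V a hscl
  refine ⟨D, hD1, hD2, fun F hF q hq1 hqN hqD x u hu hus => ?_⟩
  have hL := h2 N (by omega)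
  have hN0 : (0 : ℝ) < N := by exact_mod_cast (by omega : 0 < N)
  have hNr1 : (1 : ℝ) ≤ N := by exact_mod_cast (by omega : 1 ≤ N)
  have hq0 : (0 : ℝ) < q := by exact_mod_cast hq1
  have hz1' : 1 ≤ z := by
    have : (1 : ℝ) ≤ z := (one_le_pow₀ (by linarith)).trans hz1
    exact_mod_cast this
  have hVz := h4 N (by omega) z hz1' hz2
  have htail := h3 N (by omega) z hz1' hz2 hVz
  obtain ⟨hLL, hCm, hVV⟩ := hscl N (by
    calc (N : ℝ) ^ (1 - ρ / 4) ≤ (N : ℝ) ^ (1 : ℝ) := Real.rpow_le_rpow_of_exponent_le hNr1 (by linarith)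
      _ = N := Real.rpow_one _) (by omega)
  have hV : |V| ≤ 1 := by
    rw [← hVV, abs_mul]
    calc |v| * |Vd N a| ≤ 1 * 1 := mul_le_mul hLL.v1 hCm.den (abs_nonneg _) zero_le_one
      _ = 1 := one_mul 1
  have hqN1 : (q : ℝ) ≤ N := by
    refine hqN.trans ?_
    calc (N : ℝ) ^ (1 - ρ) ≤ (N : ℝ) ^ (1 : ℝ) := Real.rpow_le_rpow_of_exponent_le hNr1 (by linarith)
      _ = N := Real.rpow_one _
  have hcl := cls_card (x := x) hq1 hqN1
  have hdf := Hs_diff (N := N) (u := u) (K := kX a l V z) hu hus (by linarith)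
    (fun k hk => kX_abs hCm.le1 hLL.bd hV hVz hk) htail
  have hms := hD F hF q hq1 hqN hqD x u hu
  obtain ⟨Kf, hKf⟩ : ∃ Kf, Kf = kX a l V z := ⟨_, rfl⟩
  rw [← hKf] at hdf hms ⊢
  obtain ⟨K', hK'⟩ : ∃ K', K' = Hs u Kf ((N : ℝ) ^ (ρ / 4)) := ⟨_, rfl⟩
  rw [← hK'] at hms hdf
  obtain ⟨L, hLd⟩ : ∃ L, L = Real.log (N : ℝ) := ⟨_, rfl⟩
  have hpt : ∀ n ∈ (Icc 1 N).filter (fun n => n ≡ x [MOD q]), ‖cn F (gA u Kf) n‖ ^ 2 ≤
      2 * ‖cn F K' n‖ ^ 2 + 2 * (L * (8 * L ^ 3 * N * (1 / L ^ (A + 5)))) ^ 2 := by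
    intro n hn
    rw [mem_filter] at hn
    have k1 := cn_diff hF hn.1 hdf
    rw [← hLd] at k1
    have k2 : (0 : ℝ) ≤ L * (8 * L ^ 3 * N * (1 / L ^ (A + 5))) := by
      have : 0 ≤ L := by rw [hLd]; linarith
      positivity
    have k4 := pow_le_pow_left₀ (norm_nonneg _) k1 2
    refine k4.trans ?_
    nlinarith [sq_nonneg (‖cn F K' n‖ - L * (8 * L ^ 3 * N * (1 / L ^ (A + 5))))]
  refine (sum_le_sum hpt).trans ?_
  rw [sum_add_distrib, ← mul_sum, sum_const, nsmul_eq_mul]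
  rw [← hLd] at hms hL ⊢
  have hL0 : 0 < L := by linarith
  have h5 : (((Icc 1 N).filter (fun n => n ≡ x [MOD q])).card : ℝ) *
      (2 * (L * (8 * L ^ 3 * N * (1 / L ^ (A + 5)))) ^ 2) ≤ (N : ℝ) ^ 3 / (q * L ^ A) / 2 := by
    calc _ ≤ 2 * (N / q) * (2 * (L * (8 * L ^ 3 * N * (1 / L ^ (A + 5)))) ^ 2) := by gcongr
      _ = (N : ℝ) ^ 3 / (q * L ^ A) * (256 / L ^ (A + 2)) := by
          have e1 : L ^ (A + 2) = L ^ A * L ^ 2 := by rw [pow_add]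
          rw [pow_add L A 5, e1]
          field_simp
          ring
      _ ≤ (N : ℝ) ^ 3 / (q * L ^ A) * (1 / 2) := by
          apply mul_le_mul_of_nonneg_left _ (by positivity)
          rw [div_le_iff₀ (by positivity)]
          have : L ≤ L ^ (A + 2) := by
            calc L = L ^ 1 := (pow_one _).symm
              _ ≤ L ^ (A + 2) := pow_le_pow_right₀ (by linarith) (by omega)
          linarith
      _ = _ := by ring
  have h6 : 2 * ((N : ℝ) ^ 3 / (q * L ^ (A + 1))) ≤ (N : ℝ) ^ 3 / (q * L ^ A) / 2 := by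
    have e1 : 2 * ((N : ℝ) ^ 3 / (q * L ^ (A + 1))) = (N : ℝ) ^ 3 / (q * L ^ A) * (2 / L) := by
      rw [pow_add]
      field_simp
    rw [e1]
    calc (N : ℝ) ^ 3 / (q * L ^ A) * (2 / L) ≤ (N : ℝ) ^ 3 / (q * L ^ A) * (1 / 2) := by
          apply mul_le_mul_of_nonneg_left _ (by positivity)
          rw [div_le_iff₀ hL0]
          linarith
      _ = _ := by ring
  linarith

end Pool.Agent.J4H40
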