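import Pool.Agent.J4H40.Kj
import Pool.Agent.H373R2.T7.SupMu

set_option autoImplicit false

/-! Multiplicative functions on the integers without small prime factors in progressions. -/

namespace Pool.Agent.J4H40

open Finset Filter
open Pool.Agent.H373R2.T7 (lamz Vz pz mem_pz Vz_pos muR mu_ap muR_abs)

/-- small in the progressions with a small difference -/
def SW (f : ℕ → ℝ) : Prop :=
  ∀ K U : ℕ, ∃ N₀ : ℕ, ∀ N : ℕ, N₀ ≤ N → ∀ q : ℕ, 1 ≤ q → (q : ℝ) ≤ Real.log N ^ K → ∀ c y : ℕ, y ≤ N →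
    |∑ n ∈ (Icc 1 y).filter (fun n => n ≡ c [MOD q]), f n| ≤ N / Real.log N ^ U

/-- the same on the integers without small prime factors -/
def SWr (f : ℕ → ℝ) : Prop :=
  ∀ E K U : ℕ, ∃ N₀ : ℕ, ∀ N : ℕ, N₀ ≤ N → ∀ z : ℕ, 1 ≤ z → (z : ℝ) ≤ Real.log N ^ E →
    ∀ q : ℕ, 1 ≤ q → (q : ℝ) ≤ Real.log N ^ K → ∀ c y : ℕ, y ≤ N →
    |∑ n ∈ (Icc 1 y).filter (fun n => n ≡ c [MOD q]), f n * rg z n| ≤ N / Real.log N ^ U

/-- linear congruences -/
lemma lin_cls (g r c : ℕ) (hr : 1 ≤ r) : (∀ k : ℕ, ¬ g * k ≡ c [MOD r]) ∨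
    ∃ r' c' : ℕ, 1 ≤ r' ∧ r' ≤ r ∧ ∀ k : ℕ, g * k ≡ c [MOD r] ↔ k ≡ c' [MOD r'] := by
  by_cases h : ∃ k₀ : ℕ, g * k₀ ≡ c [MOD r]
  · right
    obtain ⟨k₀, hk₀⟩ := h
    have hg1 : 0 < Nat.gcd r g := Nat.gcd_pos_of_pos_left _ hr
    have hgr : Nat.gcd r g ∣ r := Nat.gcd_dvd_left _ _
    refine ⟨r / Nat.gcd r g, k₀, Nat.div_pos (Nat.le_of_dvd hr hgr) hg1, Nat.div_le_self _ _, fun k => ⟨fun h => ?_, fun h => ?_⟩⟩
    · exact Nat.ModEq.cancel_left_div_gcd hr (h.trans hk₀.symm)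
    · refine Nat.ModEq.trans ?_ hk₀
      have h1 := Nat.ModEq.mul_left' g h
      refine h1.of_dvd ?_
      obtain ⟨t, ht⟩ := Nat.gcd_dvd_right r g
      obtain ⟨s, hs⟩ := hgr
      have e1 : r / Nat.gcd r g = s := Nat.div_eq_of_eq_mul_right hg1 hs
      rw [e1]
      refine ⟨t, ?_⟩
      calc g * s = (Nat.gcd r g * t) * s := by rw [← ht]
        _ = (Nat.gcd r g * s) * t := by ring
        _ = r * t := by rw [← hs]
  · left
    intro k hk
    exact h ⟨k, hk⟩

lemma sm_abs (z d : ℕ) : |sm z d| ≤ 1 := by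
  unfold sm
  split_ifs <;> norm_num

lemma rg_abs (z d : ℕ) : |rg z d| ≤ 1 := by
  unfold rg
  split_ifs <;> norm_num

/-- from all the integers to the integers without small prime factors -/
theorem swr_of {f : ℕ → ℝ} {w : ℕ → ℕ → ℝ} (hf : SW f) (hf1 : ∀ n, |f n| ≤ 1) (hw1 : ∀ z d, |w z d| ≤ 1)
    (hws : ∀ z d, w z d ≠ 0 → Smo z d) (hfw : ∀ z n : ℕ, 1 ≤ n → gA (w z) f n = f n * rg z n) : SWr f := by
  classical
  intro E K U
  obtain ⟨N₁, h1⟩ := hf (K + 1) (U + 3)
  obtain ⟨N₂, h2⟩ := smooth_tail (U + 1) E (s := 1 / 8) (by norm_num)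
  obtain ⟨N₃, h3⟩ := Pool.Agent.H373R2.T7.Vz_inv_small E
  obtain ⟨N₄, h4⟩ := Pool.Agent.R462.GS.evL (2 ^ (K + 1) + 4 * 2 ^ (U + 3) + 4)
  obtain ⟨N₅, h5⟩ := Pool.Agent.R462.GS.evlog 0 ((N₁ : ℝ) + 1) (1 / 8) (by norm_num)
  refine ⟨N₂ + N₃ + N₄ + N₅ + 2, fun N hN z hz1 hz2 q hq1 hqK c y hy => ?_⟩
  have hN2 : 2 ≤ N := by omega
  have hN0 : (0 : ℝ) < N := by exact_mod_cast (by omega : 0 < N)
  have hNr1 : (1 : ℝ) ≤ N := by exact_mod_cast (by omega : 1 ≤ N)
  have hL := h4 N (by omega)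
  have hp := h5 N (by omega)
  rw [pow_zero, mul_one] at hp
  have htail := h2 N (by omega) z hz1 hz2 (h3 N (by omega) z hz1 hz2)
  obtain ⟨L, hLd⟩ : ∃ L, L = Real.log (N : ℝ) := ⟨_, rfl⟩
  have b1 : (0 : ℝ) < 2 ^ (K + 1) := by positivity
  have b2 : (0 : ℝ) < 4 * 2 ^ (U + 3) := by positivity
  rw [← hLd] at hL htail hqK hz2 ⊢
  have hL0 : 0 < L := by linarith
  -- the divisors
  have e1 : ∑ n ∈ (Icc 1 y).filter (fun n => n ≡ c [MOD q]), f n * rg z n =
      ∑ g ∈ Icc 1 y, w z g * ∑ k ∈ (Icc 1 (y / g)).filter (fun k => g * k ≡ c [MOD q]), f k := by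
    have f1 := Pool.Agent.TH935.DSB.dir y (fun d m => w z d * (if d * m ≡ c [MOD q] then f m else 0))
    calc ∑ n ∈ (Icc 1 y).filter (fun n => n ≡ c [MOD q]), f n * rg z n
        = ∑ n ∈ Icc 1 y, ∑ d ∈ n.divisors, w z d *
          (if d * (n / d) ≡ c [MOD q] then f (n / d) else 0) := by
          rw [sum_filter]
          refine sum_congr rfl fun n hn => ?_
          rw [mem_Icc] at hn
          by_cases h : n ≡ c [MOD q]
          · rw [if_pos h, ← hfw z n hn.1]
            unfold gA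
            refine sum_congr rfl fun d hd => ?_
            rw [Nat.mul_div_cancel' (Nat.dvd_of_mem_divisors hd), if_pos h]
          · rw [if_neg h]
            symm
            refine sum_eq_zero fun d hd => ?_
            rw [Nat.mul_div_cancel' (Nat.dvd_of_mem_divisors hd), if_neg h, mul_zero]
      _ = ∑ d ∈ Icc 1 y, ∑ m ∈ Icc 1 (y / d), w z d * (if d * m ≡ c [MOD q] then f m else 0) := f1
      _ = _ := by
          refine sum_congr rfl fun m _ => ?_
          rw [← mul_sum, ← sum_filter]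
  rw [e1]
  -- one divisor
  have hone : ∀ g ∈ Icc 1 y, |w z g * ∑ k ∈ (Icc 1 (y / g)).filter (fun k => g * k ≡ c [MOD q]), f k| ≤
      (N * 2 ^ (U + 3) / L ^ (U + 3)) * ((g : ℝ))⁻¹ +
        if Smo z g ∧ (N : ℝ) ^ (1 / 8 : ℝ) < g then N * ((g : ℝ))⁻¹ else 0 := by
    intro g hg
    rw [mem_Icc] at hg
    have hg0 : (0 : ℝ) < g := by exact_mod_cast hg.1
    have hA0 : (0 : ℝ) ≤ (N * 2 ^ (U + 3) / L ^ (U + 3)) * ((g : ℝ))⁻¹ := by positivity
    have hB0 : (0 : ℝ) ≤ if Smo z g ∧ (N : ℝ) ^ (1 / 8 : ℝ) < g then N * ((g : ℝ))⁻¹ else 0 := by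
      split_ifs
      · positivity
      · exact le_rfl
    by_cases h0 : w z g = 0
    · rw [h0, zero_mul, abs_zero]
      linarith
    have hsmo := hws z g h0
    rw [abs_mul]
    have hwle : |w z g| * |∑ k ∈ (Icc 1 (y / g)).filter (fun k => g * k ≡ c [MOD q]), f k| ≤
        |∑ k ∈ (Icc 1 (y / g)).filter (fun k => g * k ≡ c [MOD q]), f k| := by
      have k1 := hw1 z g
      have k2 := abs_nonneg (∑ k ∈ (Icc 1 (y / g)).filter (fun k => g * k ≡ c [MOD q]), f k)
      nlinarith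
    refine hwle.trans ?_
    by_cases hbig : (N : ℝ) ^ (1 / 8 : ℝ) < g
    · rw [if_pos ⟨hsmo, hbig⟩]
      have k1 : |∑ k ∈ (Icc 1 (y / g)).filter (fun k => g * k ≡ c [MOD q]), f k| ≤ ((N / g : ℕ) : ℝ) := by
        refine (abs_sum_le_sum_abs _ _).trans ((sum_le_sum fun k _ => hf1 k).trans ?_)
        rw [sum_const, nsmul_eq_mul, mul_one]
        have k2 : ((Icc 1 (y / g)).filter (fun k => g * k ≡ c [MOD q])).card ≤ N / g := by
          refine (card_filter_le _ _).trans ?_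
          rw [Nat.card_Icc, Nat.add_sub_cancel]
          exact Nat.div_le_div_right hy
        exact_mod_cast k2
      have k3 : ((N / g : ℕ) : ℝ) ≤ (N : ℝ) / g := Nat.cast_div_le
      have k4 : (N : ℝ) / g = N * ((g : ℝ))⁻¹ := div_eq_mul_inv _ _
      linarith
    · rw [not_lt] at hbig
      rw [if_neg (fun h => absurd h.2 (not_lt.2 hbig)), add_zero]
      -- the quotient
      have hM : (N : ℝ) ^ (3 / 4 : ℝ) ≤ ((N / g : ℕ) : ℝ) := by
        have k1 : (N : ℝ) / g < ((N / g : ℕ) : ℝ) + 1 := by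
          rw [div_lt_iff₀ hg0]
          have k2 : N < (N / g + 1) * g := Nat.lt_mul_of_div_lt (Nat.lt_succ_self _) hg.1
          exact_mod_cast k2
        have k3 : (N : ℝ) ^ (7 / 8 : ℝ) ≤ (N : ℝ) / g := by
          rw [le_div_iff₀ hg0]
          calc (N : ℝ) ^ (7 / 8 : ℝ) * g ≤ (N : ℝ) ^ (7 / 8 : ℝ) * (N : ℝ) ^ (1 / 8 : ℝ) := by gcongr
            _ = N := by
                rw [← Real.rpow_add hN0]
                norm_num
        have k4 : (N : ℝ) ^ (3 / 4 : ℝ) + 1 ≤ (N : ℝ) ^ (7 / 8 : ℝ) := by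
          have e2 : (N : ℝ) ^ (7 / 8 : ℝ) = (N : ℝ) ^ (3 / 4 : ℝ) * (N : ℝ) ^ (1 / 8 : ℝ) := by
            rw [← Real.rpow_add hN0]
            norm_num
          rw [e2]
          have k5 : (1 : ℝ) ≤ (N : ℝ) ^ (3 / 4 : ℝ) := Real.one_le_rpow hNr1 (by norm_num)
          have k7 : (2 : ℝ) ≤ (N : ℝ) ^ (1 / 8 : ℝ) := by
            by_contra hcon
            rw [not_le] at hcon
            have k8 : Real.log N * (1 / 8) < Real.log 2 := by
              rw [mul_comm, ← Real.log_rpow hN0]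
              exact Real.log_lt_log (by positivity) hcon
            have k9 : (2 : ℝ) ^ (U + 3) ≥ 8 := by
              calc (8 : ℝ) = 2 ^ 3 := by norm_num
                _ ≤ 2 ^ (U + 3) := pow_le_pow_right₀ (by norm_num) (by omega)
            rw [← hLd] at k8
            have := Real.log_two_lt_d9
            linarith
          nlinarith
        linarith
      obtain ⟨M, hMd⟩ : ∃ M, M = N / g := ⟨_, rfl⟩
      rw [← hMd] at hM
      have hM0 : (0 : ℝ) < M := lt_of_lt_of_le (by positivity) hM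
      have hlogM : L / 2 ≤ Real.log M := by
        have := Real.log_le_log (by positivity) hM
        rw [Real.log_rpow hN0, ← hLd] at this
        linarith
      have hM1 : N₁ ≤ M := by
        have : (N₁ : ℝ) ≤ M := by
          calc (N₁ : ℝ) ≤ (N : ℝ) ^ (1 / 8 : ℝ) := by linarith
            _ ≤ (N : ℝ) ^ (3 / 4 : ℝ) := Real.rpow_le_rpow_of_exponent_le hNr1 (by norm_num)
            _ ≤ M := hM
        exact_mod_cast this
      have hqM : (q : ℝ) ≤ Real.log M ^ (K + 1) := by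
        refine hqK.trans ?_
        calc L ^ K ≤ (L / 2) ^ (K + 1) := by
              rw [div_pow, le_div_iff₀ (by positivity), pow_succ L K]
              apply mul_le_mul_of_nonneg_left _ (by positivity)
              linarith
          _ ≤ _ := pow_le_pow_left₀ (by linarith) hlogM _
      have hmain : |∑ k ∈ (Icc 1 (y / g)).filter (fun k => g * k ≡ c [MOD q]), f k| ≤ M / Real.log M ^ (U + 3) := by
        rcases lin_cls g q c hq1 with hno | ⟨r', c', hr1, hr2, hr3⟩
        · rw [filter_false_of_mem (fun k _ => hno k), sum_empty, abs_zero]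
          have : 0 < Real.log M := by linarith
          positivity
        · rw [filter_congr (fun k _ => hr3 k)]
          refine h1 M hM1 r' hr1 ?_ c' (y / g) ?_
          · exact le_trans (by exact_mod_cast hr2) hqM
          · rw [hMd]
            exact Nat.div_le_div_right hy
      refine hmain.trans ?_
      have k3 : (M : ℝ) ≤ (N : ℝ) / g := by
        rw [hMd]
        exact Nat.cast_div_le
      calc (M : ℝ) / Real.log M ^ (U + 3) ≤ (N / g) / (L / 2) ^ (U + 3) := by gcongr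
        _ = _ := by
            rw [div_pow]
            field_simp
  refine (abs_sum_le_sum_abs _ _).trans ((sum_le_sum hone).trans ?_)
  rw [sum_add_distrib, ← mul_sum]
  have hharm : ∑ m ∈ Icc 1 y, ((m : ℝ))⁻¹ ≤ 1 + L := by
    have h6 : ∑ m ∈ Icc 1 N, ((m : ℝ))⁻¹ ≤ 1 + Real.log N := by
      have := harmonic_le_one_add_log N
      rw [harmonic_eq_sum_Icc] at this
      push_cast at this
      exact this
    have h7 : ∑ m ∈ Icc 1 y, ((m : ℝ))⁻¹ ≤ ∑ m ∈ Icc 1 N, ((m : ℝ))⁻¹ :=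
      sum_le_sum_of_subset_of_nonneg (Icc_subset_Icc le_rfl hy) fun _ _ _ => by positivity
    rw [← hLd] at h6
    linarith
  have hs2 : ∑ g ∈ Icc 1 y, (if Smo z g ∧ (N : ℝ) ^ (1 / 8 : ℝ) < g then N * ((g : ℝ))⁻¹ else 0) ≤
      N * (1 / L ^ (U + 1)) := by
    rw [← sum_filter, ← mul_sum]
    apply mul_le_mul_of_nonneg_left _ hN0.le
    refine le_trans (sum_le_sum_of_subset_of_nonneg (fun d hd => ?_) fun _ _ _ => by positivity) htail
    rw [mem_filter, mem_Icc] at hd ⊢
    exact ⟨⟨hd.1.1, by omega⟩, hd.2⟩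
  have hs1 : (N * 2 ^ (U + 3) / L ^ (U + 3)) * ∑ m ∈ Icc 1 y, ((m : ℝ))⁻¹ ≤ N / L ^ U / 2 := by
    calc (N * 2 ^ (U + 3) / L ^ (U + 3)) * ∑ m ∈ Icc 1 y, ((m : ℝ))⁻¹
        ≤ (N * 2 ^ (U + 3) / L ^ (U + 3)) * (2 * L) := by
          gcongr
          linarith
      _ = N / L ^ U * (2 * 2 ^ (U + 3) / L ^ 2) := by
          rw [pow_add L U 3]
          field_simp
      _ ≤ N / L ^ U * (1 / 2) := by
          apply mul_le_mul_of_nonneg_left _ (by positivity)
          rw [div_le_iff₀ (by positivity)]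
          nlinarith
      _ = _ := by ring
  have hs3 : (N : ℝ) * (1 / L ^ (U + 1)) ≤ N / L ^ U / 2 := by
    calc (N : ℝ) * (1 / L ^ (U + 1)) = N / L ^ U * (1 / L) := by
          rw [pow_succ]
          field_simp
      _ ≤ N / L ^ U * (1 / 2) := by
          apply mul_le_mul_of_nonneg_left _ (by positivity)
          apply one_div_le_one_div_of_le (by norm_num)
          linarith
      _ = _ := by ring
  linarith

/-- the identity for the Möbius function -/
lemma mu_rough (z n : ℕ) (hn : 1 ≤ n) : gA (sm z) muR n = muR n * rg z n := by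
  obtain ⟨d₀, r₀, h1, h2, h3⟩ := exists_sr z n hn
  have hd1 : 0 < d₀ := by
    rcases Nat.eq_zero_or_pos d₀ with h0 | h0
    · rw [h0, zero_mul] at h1
      omega
    · exact h0
  have hr1 : 0 < r₀ := by
    rcases Nat.eq_zero_or_pos r₀ with h0 | h0
    · rw [h0, mul_zero] at h1
      omega
    · exact h0
  have hcop := sr_coprime h2 h3
  unfold gA
  have e1 : ∑ d ∈ n.divisors, sm z d * muR (n / d) = ∑ d ∈ d₀.divisors, muR r₀ * muR (d₀ / d) := by
    symm
    refine sum_subset_zero_on_sdiff (Nat.divisors_subset_of_dvd (by omega) (Dvd.intro _ h1.symm)) ?_ ?_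
    · intro d hd
      rw [Finset.mem_sdiff] at hd
      by_cases hs : Smo z d
      · exfalso
        apply hd.2
        rw [Nat.mem_divisors]
        refine ⟨?_, hd1.ne'⟩
        have k1 := Nat.dvd_of_mem_divisors hd.1
        rw [h1] at k1
        exact (sr_coprime hs h3).dvd_of_dvd_mul_right k1
      · unfold sm
        rw [if_neg hs, zero_mul]
    · intro d hd
      have k1 := Nat.dvd_of_mem_divisors hd
      have hs : Smo z d := fun p hp hpd => h2 p hp (hpd.trans k1)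
      unfold sm
      rw [if_pos hs, one_mul]
      have e2 : n / d = (d₀ / d) * r₀ := by
        rw [h1]
        exact (Nat.div_mul_right_comm k1 r₀).symm
      rw [e2]
      unfold muR
      have hcop' : (d₀ / d).Coprime r₀ := Nat.Coprime.coprime_dvd_left (Nat.div_dvd_of_dvd k1) hcop
      rw [ArithmeticFunction.isMultiplicative_moebius.map_mul_of_coprime hcop']
      push_cast
      ring
  rw [e1, ← mul_sum]
  have e3 : ∑ d ∈ d₀.divisors, muR (d₀ / d) = if d₀ = 1 then 1 else 0 := by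
    rw [Nat.sum_div_divisors d₀ (fun d => muR d)]
    unfold muR
    have := ArithmeticFunction.coe_mul_zeta_apply (f := ArithmeticFunction.moebius) (x := d₀)
    rw [ArithmeticFunction.moebius_mul_coe_zeta, ArithmeticFunction.one_apply] at this
    rw [← Int.cast_sum, ← this]
    split_ifs <;> simp
  rw [e3]
  by_cases hd : d₀ = 1
  · rw [if_pos hd, mul_one]
    have hnr : n = r₀ := by rw [h1, hd, one_mul]
    unfold rg
    rw [if_pos (by rw [hnr]; exact h3), mul_one, hnr]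
  · rw [if_neg hd, mul_zero]
    have hnot : ¬ Rgh z n := by
      intro hr
      obtain ⟨p, hp, hpd⟩ := Nat.exists_prime_and_dvd hd
      exact hr p (mem_pz.2 ⟨h2 p hp hpd, hp⟩) (by rw [h1]; exact Dvd.dvd.mul_right hpd _)
    unfold rg
    rw [if_neg hnot, mul_zero]

theorem swr_mu : SWr muR := by
  refine swr_of (w := sm) mu_ap muR_abs sm_abs ?_ mu_rough
  intro z d h
  by_contra hcon
  unfold sm at h
  rw [if_neg hcon] at h
  exact h rfl

lemma muR_mul (m k : ℕ) (h : m.Coprime k) : muR (m * k) = muR m * muR k := by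
  unfold muR
  rw [ArithmeticFunction.isMultiplicative_moebius.map_mul_of_coprime h]
  push_cast
  rfl

end Pool.Agent.J4H40
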