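import Pool.Agent.J4H40.Kk

set_option autoImplicit false

/-! The mean square estimates for the convolution of coefficients on a short range with a multiplicative function. -/

namespace Pool.Agent.J4H40

open Finset Filter
open Pool.Agent.H373R2.T7 (lamz Vz pz mem_pz Vz_pos muR mu_ap muR_abs lamz_ap)

lemma vz_le_one (z : ℕ) : Vz z ≤ 1 := by
  unfold Vz
  apply prod_le_one
  · intro p hp
    have hp2 : (2 : ℝ) ≤ p := by exact_mod_cast (mem_pz.1 hp).2.two_le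
    have : (1 : ℝ) / p ≤ 1 := by
      rw [div_le_one (by linarith)]
      linarith
    linarith
  · intro p hp
    have : (0 : ℝ) ≤ 1 / p := by positivity
    linarith

/-- the coefficients at another scale -/
lemma cm_scale {N X : ℕ} {ρ κ₀ σ₀ : ℝ} {a : ℕ → ℝ} (hN : 2 ≤ N) (hρ1 : ρ ≤ 1) (hκ₀ : 0 < κ₀)
    (hσ₀ : 0 < σ₀) (hσ1 : σ₀ ≤ 1 / 2) (ha : Cm N κ₀ σ₀ a) (hX1 : (N : ℝ) ^ (1 - ρ / 4) ≤ X) (hX2 : X ≤ 2 * N) :
    Cm X (κ₀ / 2) (4 * σ₀ / 3) a ∧ Vd X a = Vd N a := by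
  have hN0 : (0 : ℝ) < N := by exact_mod_cast (by omega : 0 < N)
  have hNr1 : (1 : ℝ) ≤ N := by exact_mod_cast (by omega : 1 ≤ N)
  have hX0 : (0 : ℝ) < X := lt_of_lt_of_le (by positivity) hX1
  have k0 : (N : ℝ) ^ (3 / 4 : ℝ) ≤ X := (Real.rpow_le_rpow_of_exponent_le hNr1 (by linarith)).trans hX1
  have k1 : (X : ℝ) ^ (κ₀ / 2) ≤ (N : ℝ) ^ κ₀ := by
    have e1 : (X : ℝ) ≤ (N : ℝ) ^ (2 : ℝ) := by
      have : X ≤ N * N := hX2.trans (Nat.mul_le_mul_right N hN)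
      rw [Real.rpow_two]
      have h2 : (X : ℝ) ≤ (N : ℝ) * N := by exact_mod_cast this
      nlinarith
    calc (X : ℝ) ^ (κ₀ / 2) ≤ ((N : ℝ) ^ (2 : ℝ)) ^ (κ₀ / 2) := Real.rpow_le_rpow hX0.le e1 (by linarith)
      _ = (N : ℝ) ^ κ₀ := by
          rw [← Real.rpow_mul hN0.le]
          congr 1
          ring
  have k2 : (N : ℝ) ^ σ₀ ≤ (X : ℝ) ^ (4 * σ₀ / 3) := by
    calc (N : ℝ) ^ σ₀ = ((N : ℝ) ^ (3 / 4 : ℝ)) ^ (4 * σ₀ / 3) := by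
          rw [← Real.rpow_mul hN0.le]
          congr 1
          ring
      _ ≤ (X : ℝ) ^ (4 * σ₀ / 3) := Real.rpow_le_rpow (by positivity) k0 (by linarith)
  have hVd : ∀ Z : ℕ, (N : ℝ) ^ σ₀ ≤ Z → Vd (Z + N) a = Vd Z a := by
    intro Z hZ
    unfold Vd
    symm
    refine sum_subset (Icc_subset_Icc le_rfl (by omega)) fun m hm hm' => ?_
    rw [mem_Icc] at hm hm'
    have h0 : a m = 0 := by
      by_contra hcon
      have h1 := (ha.sup m hcon).2.1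
      have h2 : m ≤ Z := by exact_mod_cast h1.trans hZ
      omega
    rw [h0, zero_div]
  have hVd2 : ∀ Z : ℕ, Z ≤ 2 * N → (N : ℝ) ^ σ₀ ≤ Z → Vd (2 * N) a = Vd Z a := by
    intro Z hZ1 hZ
    unfold Vd
    symm
    refine sum_subset (Icc_subset_Icc le_rfl (by omega)) fun m hm hm' => ?_
    rw [mem_Icc] at hm hm'
    have h0 : a m = 0 := by
      by_contra hcon
      have h1 := (ha.sup m hcon).2.1
      have h2 : m ≤ Z := by exact_mod_cast h1.trans hZ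
      omega
    rw [h0, zero_div]
  have hσX : (N : ℝ) ^ σ₀ ≤ X := (Real.rpow_le_rpow_of_exponent_le hNr1 (by linarith)).trans k0
  have hσN : (N : ℝ) ^ σ₀ ≤ N := by
    calc (N : ℝ) ^ σ₀ ≤ (N : ℝ) ^ (1 : ℝ) := Real.rpow_le_rpow_of_exponent_le hNr1 (by linarith)
      _ = N := Real.rpow_one _
  have hV : Vd X a = Vd N a := by
    rw [← hVd2 X hX2 hσX, ← hVd2 N (by omega) hσN]
  refine ⟨⟨ha.le1, fun m hm => ?_, ?_⟩, hV⟩
  · obtain ⟨h1, h2, h3⟩ := ha.sup m hm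
    exact ⟨lt_of_le_of_lt k1 h1, h2.trans k2, fun p hp => lt_of_le_of_lt k1 (h3 p hp)⟩
  · have h1 := ha.den
    have e1 : ∑ m ∈ Icc 1 X, a m / m = Vd X a := rfl
    have e2 : ∑ m ∈ Icc 1 N, a m / m = Vd N a := rfl
    rw [e1, hV, ← e2]
    exact h1

/-- the numerical conditions -/
lemma ev_quarter (K E N₁ : ℕ) : ∃ N₀ : ℕ, ∀ X : ℕ, N₀ ≤ X → 1 ≤ Real.log X ∧ ∀ M : ℕ, (X : ℝ) ^ (1 / 4 : ℝ) ≤ M →
    N₁ ≤ M ∧ 1 ≤ Real.log M ∧ Real.log X ^ K ≤ Real.log M ^ (K + 1) ∧ Real.log X ^ E ≤ Real.log M ^ (E + 1) := by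
  obtain ⟨n1, h1⟩ := Pool.Agent.R462.GS.evL (4 * 4 ^ K + 4 * 4 ^ E + 4)
  obtain ⟨n2, h2⟩ := Pool.Agent.R462.GS.evlog 0 (N₁ : ℝ) (1 / 4) (by norm_num)
  refine ⟨n1 + n2 + 1, fun X hX => ?_⟩
  have a1 := h1 X (by omega)
  have a2 := h2 X (by omega)
  rw [pow_zero, mul_one] at a2
  have b1 : (0 : ℝ) < 4 ^ K := by positivity
  have b2 : (0 : ℝ) < 4 ^ E := by positivity
  have hX0 : (0 : ℝ) < X := by exact_mod_cast (by omega : 0 < X)
  refine ⟨by linarith, fun M hM => ?_⟩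
  have hlog : Real.log X / 4 ≤ Real.log M := by
    have := Real.log_le_log (by positivity) hM
    rw [Real.log_rpow hX0] at this
    linarith
  have hgen : ∀ J : ℕ, 4 * 4 ^ J ≤ Real.log X → Real.log X ^ J ≤ Real.log M ^ (J + 1) := by
    intro J hJ
    calc Real.log X ^ J ≤ (Real.log X / 4) ^ (J + 1) := by
          rw [div_pow, le_div_iff₀ (by positivity), pow_succ (Real.log (X : ℝ)) J]
          apply mul_le_mul_of_nonneg_left
          · rw [pow_succ]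
            linarith
          · exact pow_nonneg (by linarith) _
      _ ≤ _ := pow_le_pow_left₀ (by linarith) hlog _
  exact ⟨by exact_mod_cast a2.trans hM, by linarith, hgen K (by linarith), hgen E (by linarith)⟩

lemma ll_f {f : ℕ → ℝ} (hf1 : ∀ n, |f n| ≤ 1) (hf : SWr f) (K U E : ℕ) : ∃ N₀ : ℕ, ∀ X : ℕ, N₀ ≤ X → ∀ z : ℕ, 1 ≤ z →
    (z : ℝ) ≤ Real.log X ^ E → LL X z K U (fun m => f m * rg z m) 0 := by
  obtain ⟨N₁, h1⟩ := hf (E + 1) (K + 1) (U + 1)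
  obtain ⟨N₂, h2⟩ := ev_quarter K E N₁
  obtain ⟨N₃, h3⟩ := ev_quarter U 0 0
  refine ⟨N₂ + N₃, fun X hX z hz1 hz2 => ?_⟩
  obtain ⟨hL, hM⟩ := h2 X (by omega)
  obtain ⟨-, hM'⟩ := h3 X (by omega)
  refine ⟨fun m _ => ?_, fun m hm => ?_, by norm_num, ?_⟩
  · rw [abs_mul]
    have k1 := hf1 m
    have k2 := rg_abs z m
    have k3 := abs_nonneg (f m)
    have k4 := abs_nonneg (rg z m)
    nlinarith
  · by_contra hcon
    apply hm
    unfold rg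
    rw [if_neg hcon, mul_zero]
  · intro M hM1 _ r hr1 hrK c y hy
    obtain ⟨k1, k2, k3, k4⟩ := hM M hM1
    obtain ⟨-, -, k5, -⟩ := hM' M hM1
    rw [zero_mul, sub_zero]
    have h4 := h1 M k1 z hz1 (hz2.trans k4) r hr1 (hrK.trans k3) c y hy
    refine h4.trans ?_
    apply div_le_div_of_nonneg_left (Nat.cast_nonneg _) _ k5
    have : 0 < Real.log X := by linarith
    positivity

lemma ll_one (K U E : ℕ) : ∃ N₀ : ℕ, ∀ X : ℕ, N₀ ≤ X → ∀ z : ℕ, 1 ≤ z → Real.log X ^ K ≤ z →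
    (z : ℝ) ≤ Real.log X ^ E → LL X z K U (lamz z) 1 := by
  obtain ⟨N₁, h1⟩ := lamz_ap (E + 1) (U + 1)
  obtain ⟨N₂, h2⟩ := ev_quarter K E N₁
  obtain ⟨N₃, h3⟩ := ev_quarter U 0 0
  obtain ⟨N₄, h4⟩ := Pool.Agent.H373R2.T7.Vz_inv_small E
  refine ⟨N₂ + N₃ + N₄, fun X hX z hz1 hzK hz2 => ?_⟩
  obtain ⟨hL, hM⟩ := h2 X (by omega)
  obtain ⟨-, hM'⟩ := h3 X (by omega)
  have hV := h4 X (by omega) z hz1 hz2
  refine ⟨fun m _ => ?_, fun m hm => ?_, by norm_num, ?_⟩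
  · rw [abs_of_nonneg (lamz_nn _ _)]
    exact (lamz_le _ _).trans hV
  · by_contra hcon
    apply hm
    unfold lamz
    unfold Rgh at hcon
    rw [if_neg hcon]
  · intro M hM1 _ r hr1 hrK c y hy
    obtain ⟨k1, k2, k3, k4⟩ := hM M hM1
    obtain ⟨-, -, k5, -⟩ := hM' M hM1
    rw [one_mul]
    have h5 := h1 M k1 z hz1 (hz2.trans k4) r hr1 (by exact_mod_cast hrK.trans hzK) c y hy
    refine h5.trans ?_
    apply div_le_div_of_nonneg_left (Nat.cast_nonneg _) _ k5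
    have : 0 < Real.log X := by linarith
    positivity

/-- the mean square estimate -/
def MSq (ρ κ₀ σ₀ : ℝ) (A : ℕ) (f : ℕ → ℝ) (w : ℝ) : Prop :=
  ∃ c : ℕ, ∀ A₀ : ℕ, ∃ N₀ : ℕ, ∀ N : ℕ, N₀ ≤ N → ∀ a : ℕ → ℝ, Cm N κ₀ σ₀ a →
  ∃ D : Finset ℕ, (D.card : ℝ) ≤ Real.log N ^ c ∧ (∀ d ∈ D, Real.log N ^ A₀ < (d : ℝ)) ∧
  ∀ F : ℕ → ℂ, (∀ b ∈ Icc 1 N, ‖F b‖ ≤ Real.log N) → ∀ q : ℕ, 1 ≤ q →
  (q : ℝ) ≤ (N : ℝ) ^ (1 - ρ) → (∀ d ∈ D, ¬ d ∣ q) → ∀ x : ℕ,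
    ∑ n ∈ (Icc 1 N).filter (fun n => n ≡ x [MOD q]), ‖cn F (fun m => gA a f m - w * Vd N a) n‖ ^ 2 ≤
      (N : ℝ) ^ 3 / (q * Real.log N ^ A)

lemma cn_congr {F : ℕ → ℂ} {K K' : ℕ → ℝ} (n : ℕ) (h : ∀ m, 1 ≤ m → K m = K' m) : cn F K n = cn F K' n := by
  unfold cn
  refine sum_congr rfl fun b hb => ?_
  rw [mem_Icc] at hb
  rw [h (n - b) (by omega)]

/-- the parameter `z` -/
lemma exists_z {N E1 : ℕ} (hL : 2 ≤ Real.log N) : ∃ z : ℕ, 1 ≤ z ∧ Real.log N ^ E1 ≤ z ∧ (z : ℝ) ≤ Real.log N ^ (E1 + 1) := by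
  obtain ⟨z, hz⟩ : ∃ z, z = ⌈Real.log N ^ E1⌉₊ := ⟨_, rfl⟩
  have hzlo : Real.log N ^ E1 ≤ z := by rw [hz]; exact Nat.le_ceil _
  have hL1B : 1 ≤ Real.log N ^ E1 := one_le_pow₀ (by linarith)
  refine ⟨z, by exact_mod_cast hL1B.trans hzlo, hzlo, ?_⟩
  have := Nat.ceil_lt_add_one (show 0 ≤ Real.log N ^ E1 by linarith)
  rw [← hz] at this
  calc (z : ℝ) ≤ Real.log N ^ E1 + 1 := this.le
    _ ≤ Real.log N ^ E1 + Real.log N ^ E1 := by linarith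
    _ = 2 * Real.log N ^ E1 := by ring
    _ ≤ Real.log N * Real.log N ^ E1 := mul_le_mul_of_nonneg_right (by linarith) (by positivity)
    _ = Real.log N ^ (E1 + 1) := by ring

/-- the mean square estimate for a multiplicative function which is small in progressions -/
theorem msq_f {ρ κ₀ σ₀ : ℝ} (hρ : 0 < ρ) (hρ1 : ρ ≤ 1) (hκ₀ : 0 < κ₀) (hσ₀ : 0 < σ₀) (hσρ : 8 * σ₀ < 3 * ρ) (A : ℕ)
    {f : ℕ → ℝ} (hf1 : ∀ n, |f n| ≤ 1) (hf : SWr f) (hmul : ∀ m k : ℕ, m.Coprime k → f (m * k) = f m * f k) :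
    MSq ρ κ₀ σ₀ A f 0 := by
  obtain ⟨c, hc⟩ := msG (κ := κ₀ / 2) (σ := 4 * σ₀ / 3) hρ hρ1 (by linarith) (by linarith) (by linarith) A
  refine ⟨c, fun A₀ => ?_⟩
  obtain ⟨B, K, U, hB⟩ := hc A₀
  obtain ⟨N₁, h1⟩ := hB (B + 1)
  obtain ⟨N₂, h2⟩ := ll_f hf1 hf K U (B + 2)
  obtain ⟨N₃, h3⟩ := ev_scl 0 0 0 (B + 1) 0 N₂ hρ hρ1
  refine ⟨N₁ + N₃, fun N hN a ha => ?_⟩
  obtain ⟨hN2, hL2, -, -, -, -, hXs⟩ := h3 N (by omega)
  obtain ⟨z, hz0, hz1, hz2⟩ := exists_z (E1 := B) hL2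
  obtain ⟨D, hD1, hD2, hD⟩ := h1 N (by omega) z hz1 hz2 (fun m => f m * rg z m) 0 0 a (by
    intro X hX1 hX2
    obtain ⟨k1, k2, k3, k4, -⟩ := hXs X hX1 hX2
    obtain ⟨hCm, -⟩ := cm_scale hN2 hρ1 hκ₀ hσ₀ (by linarith) ha hX1 hX2
    refine ⟨h2 X k1 z hz0 (hz2.trans ?_), hCm, zero_mul _⟩
    calc Real.log N ^ (B + 1) ≤ (2 * Real.log X) ^ (B + 1) := by
          apply pow_le_pow_left₀ (by linarith)
          linarith
      _ = 2 ^ (B + 1) * Real.log X ^ (B + 1) := by rw [mul_pow]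
      _ ≤ Real.log X * Real.log X ^ (B + 1) := by
          apply mul_le_mul_of_nonneg_right k4
          exact pow_nonneg (by linarith) _
      _ = Real.log X ^ (B + 2) := by ring)
  refine ⟨D, hD1, hD2, fun F hF q hq1 hqN hqD x => ?_⟩
  have h4 := hD F hF q hq1 hqN hqD x (fun d => f d * sm z d) (fun d => by
    rw [abs_mul]
    have k1 := hf1 d
    have k2 := sm_abs z d
    have k3 := abs_nonneg (f d)
    have k4 := abs_nonneg (sm z d)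
    nlinarith) (fun d hd => by
    by_contra hcon
    apply hd
    unfold sm
    rw [if_neg hcon, mul_zero])
  refine le_trans (le_of_eq ?_) h4
  refine sum_congr rfl fun n _ => ?_
  congr 2
  apply cn_congr
  intro m hm
  rw [comp_f hmul hm, zero_mul, sub_zero]

/-- the mean square estimate for the constant function -/
theorem msq_one {ρ κ₀ σ₀ : ℝ} (hρ : 0 < ρ) (hρ1 : ρ ≤ 1) (hκ₀ : 0 < κ₀) (hσ₀ : 0 < σ₀) (hσρ : 8 * σ₀ < 3 * ρ) (A : ℕ) :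
    MSq ρ κ₀ σ₀ A (fun _ => 1) 1 := by
  obtain ⟨c, hc⟩ := msG (κ := κ₀ / 2) (σ := 4 * σ₀ / 3) hρ hρ1 (by linarith) (by linarith) (by linarith) A
  refine ⟨c, fun A₀ => ?_⟩
  obtain ⟨B, K, U, hB⟩ := hc A₀
  obtain ⟨B', hB'⟩ : ∃ B', B' = B + K + 1 := ⟨_, rfl⟩
  obtain ⟨N₁, h1⟩ := hB (B' + 1)
  obtain ⟨N₂, h2⟩ := ll_one K U (B' + 2)
  obtain ⟨N₃, h3⟩ := ev_scl 0 K 0 (B' + 1) 0 N₂ hρ hρ1
  refine ⟨N₁ + N₃, fun N hN a ha => ?_⟩
  obtain ⟨hN2, hL2, -, -, hLK, -, hXs⟩ := h3 N (by omega)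
  obtain ⟨z, hz0, hz1, hz2⟩ := exists_z (E1 := B') hL2
  have hL1 : 1 ≤ Real.log N := by linarith
  obtain ⟨D, hD1, hD2, hD⟩ := h1 N (by omega) z ((pow_le_pow_right₀ hL1 (by omega)).trans hz1) hz2 (lamz z) 1 (Vd N a) a (by
    intro X hX1 hX2
    obtain ⟨k1, k2, k3, k4, -⟩ := hXs X hX1 hX2
    obtain ⟨hCm, hVd⟩ := cm_scale hN2 hρ1 hκ₀ hσ₀ (by linarith) ha hX1 hX2
    refine ⟨h2 X k1 z hz0 ?_ (hz2.trans ?_), hCm, by rw [one_mul, hVd]⟩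
    · refine le_trans ?_ hz1
      calc Real.log X ^ K ≤ (2 * Real.log N) ^ K := pow_le_pow_left₀ (by linarith) k3 _
        _ = 2 ^ K * Real.log N ^ K := by rw [mul_pow]
        _ ≤ Real.log N * Real.log N ^ K := by
            apply mul_le_mul_of_nonneg_right hLK
            positivity
        _ = Real.log N ^ (K + 1) := by ring
        _ ≤ Real.log N ^ B' := pow_le_pow_right₀ hL1 (by omega)
    · calc Real.log N ^ (B' + 1) ≤ (2 * Real.log X) ^ (B' + 1) := by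
            apply pow_le_pow_left₀ (by linarith)
            linarith
        _ = 2 ^ (B' + 1) * Real.log X ^ (B' + 1) := by rw [mul_pow]
        _ ≤ Real.log X * Real.log X ^ (B' + 1) := by
            apply mul_le_mul_of_nonneg_right k4
            exact pow_nonneg (by linarith) _
        _ = Real.log X ^ (B' + 2) := by ring)
  refine ⟨D, hD1, hD2, fun F hF q hq1 hqN hqD x => ?_⟩
  have h4 := hD F hF q hq1 hqN hqD x (sm z) (sm_abs z) (fun d hd => by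
    by_contra hcon
    apply hd
    unfold sm
    rw [if_neg hcon])
  refine le_trans ?_ h4
  refine sum_le_sum fun n _ => ?_
  apply pow_le_pow_left₀ (norm_nonneg _)
  have e1 : cn F (gA (sm z) (kX a (lamz z) (Vd N a) z)) n =
      (((Vz z)⁻¹ : ℝ) : ℂ) * cn F (fun m => gA a (fun _ => 1) m - 1 * Vd N a) n := by
    rw [cn_congr n (fun m hm => comp_one hm)]
    unfold cn
    rw [mul_sum]
    refine sum_congr rfl fun b _ => ?_
    push_cast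
    ring
  rw [e1, norm_mul, Complex.norm_real, Real.norm_eq_abs, abs_of_pos (inv_pos.2 (Vz_pos z))]
  have h5 : 1 ≤ (Vz z)⁻¹ := (one_le_inv₀ (Vz_pos z)).2 (vz_le_one z)
  have h6 := norm_nonneg (cn F (fun m => gA a (fun _ => 1) m - 1 * Vd N a) n)
  nlinarith

end Pool.Agent.J4H40
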