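import Pool.Agent.J4H40.Qh

set_option autoImplicit false

/-! The lower bound in a window between two points of the grid. -/

namespace Pool.Agent.J4H40

open Finset Filter
open Pool.Agent.H373R2.T7 (lamz Vz pz lamI lamzI Vz_pos)
open Pool.Agent.Y883.T3 (lsh)
open Pool.Agent.Y883.GJ
open Pool.Agent.R460.GS (cv bd_LA vm_le la la_nn cv_left abelW reflect_sum sum_window win_main' real_sum x_sq
  lsh_abs one_le_div)
open Pool.Agent.W93.PG (wn lam_sub lamz_le lamz_nn)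
open Pool.Agent.H560R3.GB (sing)
open Pool.Agent.Y614.GJ.Core (ev_log)

/-- the density is bounded below -/
def DenT (Wf : ℕ → ℕ → ℝ) (h₀ : ℝ) (B : ℕ) : Prop := ∃ N₀ : ℕ, ∀ N : ℕ, N₀ ≤ N → ∀ n : ℕ, n ≤ N →
  (N : ℝ) / Real.log N ^ B ≤ n → h₀ ≤ Wf N n

lemma auxD {c D L : ℝ} (hc : 0 ≤ c) (hD : 0 < D) (hL0 : 0 < L) (h : 10000 * (1 + c) ≤ L) :
    c * (D / L) ≤ D / 10000 ∧ D / L ≤ D / 10000 := by
  have h1 : D / L * L = D := div_mul_cancel₀ _ hL0.ne'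
  have h2 : 0 < D / L := by positivity
  have h3 : D / L * (10000 * (1 + c)) ≤ D := by
    calc D / L * (10000 * (1 + c)) ≤ D / L * L := mul_le_mul_of_nonneg_left h h2.le
      _ = D := h1
  have h4 : 0 ≤ c * (D / L) := by positivity
  have h6 : D / L * (10000 * (1 + c)) = 10000 * (D / L + c * (D / L)) := by ring
  rw [h6] at h3
  exact ⟨by linarith, by linarith⟩

/-- the lower bound between two points of the grid -/
lemma gridE {α a : ℝ} (h1 : 1 / 6 ≤ α) (h2 : α ≤ 1 / 4) (h3 : 1 / 4 ≤ a) (h4 : a + 1 / 100 ≤ (1 - α) / 2)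
    (h5 : a ≤ 388 / 1000 ∨ 1 / 5 ≤ α) {h₀ : ℝ} (hh0 : 0 ≤ h₀) (hh1 : h₀ ≤ 1) (V E1 : ℕ) (hE1 : V + 8 ≤ E1)
    (hden : DenT (WF α a (V + 8)) h₀ (V + 8)) : ∃ N₀ : ℕ, ∀ N : ℕ, N₀ ≤ N →
    ∀ z r : ℕ, Real.log N ^ E1 ≤ z → (z : ℝ) ≤ Real.log N ^ (E1 + 1) →
    ∑ n ∈ Icc 1 N, |lamz z n - lsh z r n| ≤ N / Real.log N ^ (V + 4) →
    ∀ n : ℕ, n ≤ N → 2 ∣ n → n ≠ 0 → ∀ y₁ y₂ : ℕ, y₁ ≤ y₂ → y₂ < n →
      ‖cv LA (f1 N (Za α N) (gF α a (V + 8) N) (WF α a (V + 8) N) z r) y₁ N n‖ ≤ N / Real.log N ^ (V + 2) →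
      ‖cv LA (f1 N (Za α N) (gF α a (V + 8) N) (WF α a (V + 8) N) z r) y₂ N n‖ ≤ N / Real.log N ^ (V + 2) →
      99 / 100 * (h₀ * (sing n * ((y₂ : ℝ) - y₁))) - N / Real.log N ^ V ≤ wn n y₁ y₂ ∧
        sing n ≤ 2 * Real.log N := by
  have hfam := fam h1 h2 h3 h4 h5 (B := V + 8) (by omega)
  obtain ⟨c, Nw, hWB⟩ := hfam.wb
  obtain ⟨Nd, hd⟩ := hden
  obtain ⟨X0, hX0⟩ := win_main' (V + 2) E1 (by omega)
  obtain ⟨Nb, hNb⟩ := eventually_atTop.1
    ((ok_ev h1 h2 h3 h4 h5 (B := V + 8) (by omega) (ε := 1 / 1000) (by norm_num) le_rfl).and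
      ((bz_ev h1 (by linarith : α ≤ 1)).and (ev_numZ h1 (by linarith : α ≤ 1) 0 (V + 8) 0 0)))
  obtain ⟨Ne, hNe⟩ := eventually_atTop.1 (Pool.Agent.R453.GS.ev_log (10000 * (1 + |c|)))
  refine ⟨Nw + Nd + X0 + Ne + Nb + 1, fun N hN z r hz1 hz2 hsum n hn h2n hn0 y₁ y₂ h12 h2 hs1 hs2 => ?_⟩
  have hN1 : 1 ≤ N := by omega
  have hN0 : (0 : ℝ) < N := by exact_mod_cast hN1
  obtain ⟨⟨hok, _⟩, hBZ, _, _, _, _, _, _, hUZ⟩ := hNb N (by omega)
  have hLe := hNe N (by omega)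
  have hW := hWB N (by omega)
  have hc := hW.hc
  rw [abs_of_nonneg hc] at hLe
  obtain ⟨hwin, hS0, hS2⟩ := hX0 N (by omega) n hn h2n hn0 z hz1 hz2
  obtain ⟨F, hF⟩ : ∃ F, F = FR N (Za α N) (gc (PN α a (V + 8) N) (Za α N)) := ⟨_, rfl⟩
  obtain ⟨W, hWd⟩ : ∃ W, W = WF α a (V + 8) N := ⟨_, rfl⟩
  have hFV := fv_gc hok (N := N) (Z := Za α N) hN1 hBZ.Z6
  rw [← hF] at hFV
  have hbs := bad_sum (B := V + 8) hok rfl rfl hBZ (fun p hp => by
    have hp0 : (0 : ℝ) < p := by exact_mod_cast (by omega : 0 < p)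
    show α * Real.log N < Real.log p
    rw [← Real.log_rpow hN0]
    apply Real.log_lt_log (by positivity)
    have k1 : (N : ℝ) ^ α < (Za α N : ℝ) + 1 := Za_lt
    have k2 : ((Za α N : ℕ) : ℝ) + 1 ≤ p := by exact_mod_cast hp
    linarith)
  rw [← hF] at hbs
  have k1 := wn_low (F := F) (y₁ := y₁) h2 hn (fun c hc1 hcN => hFV.bd c hc1 hcN)
  have hX : (0 : ℝ) ≤ N / Real.log N ^ (V + 8) := by
    have := hBZ.L
    positivity
  have e1 := err_win (z := z) (r := r) (Z := Za α N) (g := gF α a (V + 8) N) (W := W) (lt_of_le_of_lt h12 h2) hn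
  have e2 := err_win (z := z) (r := r) (Z := Za α N) (g := gF α a (V + 8) N) (W := W) h2 hn
  rw [hWd] at e1 e2
  rw [← e1] at hs1
  rw [← e2] at hs2
  rw [← hWd] at hs1 hs2 hW
  have k2 := swapM (y₁ := y₁) hW h2 hn hsum
  have k3 := detM (l := la) (lz := lamz z) (S := sing n) hW hn h12 h2 (fun y hy => (hwin y hy).1)
  have k4 := densM (X := N / Real.log N ^ (V + 8)) hW hn h12 h2 hX hh0
    (fun b hb hb' => by rw [hWd]; exact hd N (by omega) b hb hb')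
  have hsplit : ∑ b ∈ Ioc y₁ y₂, la b * F (n - b) =
      ∑ b ∈ Ioc y₁ y₂, la b * (W (n - b) * lsh z r (n - b)) +
      (∑ b ∈ Icc 1 y₂, la b * (FR N (Za α N) (gF α a (V + 8) N) (n - b) - W (n - b) * lsh z r (n - b)) -
      ∑ b ∈ Icc 1 y₁, la b * (FR N (Za α N) (gF α a (V + 8) N) (n - b) - W (n - b) * lsh z r (n - b))) := by
    rw [← sum_window _ h12, ← sum_add_distrib, hF]
    refine sum_congr rfl fun b _ => ?_
    unfold gF
    ring
  rw [hsplit] at k1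
  have hZr : (0 : ℝ) < Za α N := by exact_mod_cast (by have := hBZ.Z2; omega : 0 < Za α N)
  have hNZ : (N : ℝ) / Za α N ≤ N / Real.log N ^ (V + 8) := by
    have hL0 := hBZ.L
    apply div_le_div_of_nonneg_left hN0.le (by positivity)
    rw [abs_zero, zero_add, mul_one] at hUZ
    have hL1 : 1 ≤ Real.log N := by linarith
    calc Real.log N ^ (V + 8) ≤ Real.log N ^ (V + 8 + 2) := pow_le_pow_right₀ hL1 (by omega)
      _ ≤ 10000 * Real.log N ^ (V + 8 + 2) := by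
          have : 0 ≤ Real.log N ^ (V + 8 + 2) := by positivity
          linarith
      _ ≤ _ := hUZ
  have hLN : Real.log N ^ (V + 8) ≤ N := by
    rw [abs_zero, zero_add, mul_one] at hUZ
    have hL0 := hBZ.L
    have hL1 : 1 ≤ Real.log N := by linarith
    have hZN : (Za α N : ℝ) ≤ N := by exact_mod_cast hBZ.ZN
    calc Real.log N ^ (V + 8) ≤ Real.log N ^ (V + 8 + 2) := pow_le_pow_right₀ hL1 (by omega)
      _ ≤ 10000 * Real.log N ^ (V + 8 + 2) := by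
          have : 0 ≤ Real.log N ^ (V + 8 + 2) := by positivity
          linarith
      _ ≤ _ := hUZ.trans hZN
  obtain ⟨L, hLd⟩ : ∃ L, L = Real.log (N : ℝ) := ⟨_, rfl⟩
  obtain ⟨S, hSd⟩ : ∃ S, S = sing n := ⟨_, rfl⟩
  rw [← hLd] at hs1 hs2 hLe k1 k2 k3 k4 hS2 hX hbs hNZ hLN ⊢
  rw [← hSd] at k3 hS0 hS2 ⊢
  refine ⟨?_, hS2⟩
  have hL0 : 0 < L := by linarith
  have hL1 : 1 ≤ L := by linarith
  obtain ⟨D, hD⟩ : ∃ D : ℝ, D = N / L ^ (V + 1) := ⟨_, rfl⟩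
  have hD0 : 0 < D := by rw [hD]; positivity
  -- sizes of the error terms
  have hmono : ∀ j : ℕ, (N : ℝ) / L ^ (V + 1 + j) = D / L ^ j := by
    intro j
    rw [hD, pow_add, div_div]
  have z1 : (N : ℝ) / L ^ (V + 2) = D / L := by
    have := hmono 1
    rwa [pow_one] at this
  have z4 : (N : ℝ) / L ^ (V + 4) = D / L ^ 3 := hmono 3
  have z8 : (N : ℝ) / L ^ (V + 8) = D / L ^ 7 := hmono 7
  have z0 : (N : ℝ) / L ^ V = L * D := by
    rw [hD, pow_succ]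
    field_simp
  have hpw : ∀ j : ℕ, 1 ≤ j → D / L ^ j ≤ D / L := by
    intro j hj
    apply div_le_div_of_nonneg_left hD0.le hL0
    calc L = L ^ 1 := (pow_one L).symm
      _ ≤ L ^ j := pow_le_pow_right₀ hL1 hj
  have hDL : 0 ≤ D / L := by positivity
  obtain ⟨hcD, hD1⟩ := auxD hc hD0 hL0 hLe
  -- the exceptions
  have ea : 96 * L ^ 2 * ∑ b ∈ Icc 1 N, bad F b ≤ D := by
    calc 96 * L ^ 2 * ∑ b ∈ Icc 1 N, bad F b ≤ 96 * L ^ 2 * (N / L ^ (V + 8) + N / L ^ (V + 8)) := by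
          apply mul_le_mul_of_nonneg_left _ (by positivity)
          linarith only [hbs, hNZ]
      _ = 192 * (D / L ^ 5) := by
          rw [z8]
          field_simp
          ring
      _ ≤ 192 * (D / L) := by
          have := hpw 5 (by norm_num)
          linarith
      _ ≤ D := by linarith only [hD1, hD0]
  -- the swap of the models
  have ec : c * L * (N / L ^ (V + 4)) ≤ D := by
    rw [z4]
    have g1 : c * L * (D / L ^ 3) = c * (D / L ^ 2) := by field_simp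
    rw [g1]
    have := mul_le_mul_of_nonneg_left (hpw 2 (by norm_num)) hc
    linarith only [this, hcD, hD0]
  -- the main term
  have ed : 4 * (c * (2 * (N / L ^ (V + 2 + 2)))) ≤ D := by
    rw [show V + 2 + 2 = V + 4 by ring, z4]
    have := mul_le_mul_of_nonneg_left (hpw 3 (by norm_num)) hc
    linarith only [this, hcD, hD0]
  -- the density
  have ee1 : S * ((c + h₀) * (N / L ^ (V + 8) + 1)) ≤ D := by
    have g1 : N / L ^ (V + 8) + 1 ≤ 2 * (N / L ^ (V + 8)) := by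
      have : 1 ≤ (N : ℝ) / L ^ (V + 8) := by
        rw [le_div_iff₀ (by positivity), one_mul]
        exact hLN
      linarith
    calc S * ((c + h₀) * (N / L ^ (V + 8) + 1)) ≤ (2 * L) * ((c + 1) * (2 * (N / L ^ (V + 8)))) := by
          gcongr
      _ = 4 * (c + 1) * (D / L ^ 6) := by
          rw [z8]
          field_simp
          ring
      _ ≤ 4 * (c + 1) * (D / L) := by
          have := hpw 6 (by norm_num)
          gcongr
      _ = 4 * (c * (D / L)) + 4 * (D / L) := by ring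
      _ ≤ D := by linarith only [hcD, hD1, hD0]
  obtain ⟨M1, hM1⟩ : ∃ M1, M1 = ∑ b ∈ Ioc y₁ y₂, la b * (W (n - b) * lsh z r (n - b)) := ⟨_, rfl⟩
  obtain ⟨M2, hM2⟩ : ∃ M2, M2 = ∑ b ∈ Ioc y₁ y₂, la b * (W (n - b) * lamz z (n - b)) := ⟨_, rfl⟩
  obtain ⟨M3, hM3⟩ : ∃ M3, M3 = ∑ b ∈ Ioc y₁ y₂, W (n - b) := ⟨_, rfl⟩
  rw [← hM1] at k1
  rw [← hM1, ← hM2] at k2
  rw [← hM2, ← hM3] at k3
  rw [← hM3] at k4
  have m1 := (abs_le.1 k2).1
  have m2 := (abs_le.1 k3).1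
  have m3 := (abs_le.1 hs1).2
  have m4 := (abs_le.1 hs2).1
  have m5 := mul_le_mul_of_nonneg_left k4 hS0
  have m6 : S * (h₀ * ((y₂ : ℝ) - y₁) - (c + h₀) * (N / L ^ (V + 8) + 1)) =
    h₀ * (S * ((y₂ : ℝ) - y₁)) - S * ((c + h₀) * (N / L ^ (V + 8) + 1)) := by ring
  rw [m6] at m5
  rw [z0]
  have m7 : 12 * D ≤ L * D := mul_le_mul_of_nonneg_right (by linarith only [hLe, hc]) hD0.le
  linarith only [m7, m5, m4, m3, m2, m1, k1, ea, ec, ed, ee1, hs1, hs2, z1, hD1, hD0]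

end Pool.Agent.J4H40
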