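import Pool.Agent.J4H40.Yj
import Pool.Agent.J4H40.Qi

set_option autoImplicit false

/-! The lower bound in all windows for an arbitrary non-negative first summand. -/

namespace Pool.Agent.J4H40

open Finset Filter
open Pool.Agent.H373R2.T7 (lamz Vz pz lamI lamzI Vz_pos)
open Pool.Agent.Y883.T3 (lsh)
open Pool.Agent.Y883.GJ
open Pool.Agent.R460.GS (cv bd_LA vm_le la la_nn cv_left abelW reflect_sum sum_window win_main' real_sum x_sq lsh_abs
  one_le_div BdAt)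
open Pool.Agent.W93.PG (wn lam_sub lamz_le lamz_nn)
open Pool.Agent.H560R3.GB (sing)
open Pool.Agent.Y614.GJ.Core (ev_log)

open Classical in
/-- from a mean square at the points of a grid to all `y < n` -/
lemma count_grid {N : ℕ} {T S : ℕ → ℕ → ℝ} {A q a : ℕ} (hN1 : 1 ≤ N) (hL100 : 100 ≤ Real.log N)
    (hLp : Real.log N ^ (A + 5) ≤ N) (hq1 : 1 ≤ q)
    (hgr : ∀ n y : ℕ, y < n → n ≤ N → T n y ≤ S n y + N / Real.log N ^ (A + 2)) (hS : ∀ n y, 0 ≤ S n y)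
    (hsh : ∀ n y₁ y₂ : ℕ, y₁ ≤ y₂ → y₂ < n → n ≤ N → T n y₂ ≤ T n y₁ + ((y₂ : ℝ) - y₁) * Real.log N ^ 3)
    (hms : ∀ y : ℕ, y ≤ N → ∑ n ∈ (Icc 1 (2 * N)).filter (fun n : ℕ => (n : ZMod q) = (a : ZMod q)), S n y ^ 2 ≤
      (N : ℝ) ^ 3 / (q * Real.log N ^ (4 * A + 10))) :
    (({n ∈ Icc 1 N | n ≡ a [MOD q] ∧ ¬ ∀ y : ℕ, y < n → T n y ≤ N / Real.log N ^ A}.card : ℕ) : ℝ) ≤
      (N : ℝ) / (q * Real.log N ^ A) := by
  have hN0 : (0 : ℝ) < N := by exact_mod_cast hN1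
  obtain ⟨G, hG⟩ : ∃ G : ℕ → Prop, G = fun n => ∀ y : ℕ, y < n → T n y ≤ N / Real.log N ^ A := ⟨_, rfl⟩
  have hGd : ∀ n, (∀ y : ℕ, y < n → T n y ≤ N / Real.log N ^ A) → G n := by
    intro n h
    rw [hG]
    exact h
  have hset : {n ∈ Icc 1 N | n ≡ a [MOD q] ∧ ¬ ∀ y : ℕ, y < n → T n y ≤ N / Real.log N ^ A} =
      {n ∈ Icc 1 N | n ≡ a [MOD q] ∧ ¬ G n} := by
    ext n
    simp only [mem_filter, hG]
  rw [hset]
  obtain ⟨L, hLd⟩ : ∃ L, L = Real.log (N : ℝ) := ⟨_, rfl⟩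
  rw [← hLd] at hsh hgr hms hL100 hLp hGd ⊢
  have hL0 : 0 < L := by linarith
  have hL1 : 1 ≤ L := by linarith
  have hq0 : (0 : ℝ) < q := by exact_mod_cast hq1
  -- the grid
  obtain ⟨V, hV⟩ : ∃ V, V = A + 5 := ⟨_, rfl⟩
  obtain ⟨Tg, hTg⟩ : ∃ Tg, Tg = ⌈L ^ V⌉₊ := ⟨_, rfl⟩
  have hT1 : L ^ V ≤ Tg := by rw [hTg]; exact Nat.le_ceil _
  have hLV : 1 ≤ L ^ V := one_le_pow₀ hL1
  have hT2 : (Tg : ℝ) ≤ L ^ V + 1 := by
    rw [hTg]
    exact (Nat.ceil_lt_add_one (by positivity)).le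
  have hTpos : 0 < Tg := by
    have : (0 : ℝ) < Tg := by linarith
    exact_mod_cast this
  obtain ⟨H, hH⟩ : ∃ H, H = N / Tg + 1 := ⟨_, rfl⟩
  have hH1 : 1 ≤ H := by rw [hH]; exact Nat.le_add_left 1 _
  have hHr : (H : ℝ) ≤ 2 * (N / L ^ V) := by
    rw [hH]
    push_cast
    have e1 : ((N / Tg : ℕ) : ℝ) ≤ N / L ^ V := by
      calc ((N / Tg : ℕ) : ℝ) ≤ (N : ℝ) / Tg := Nat.cast_div_le
        _ ≤ N / L ^ V := div_le_div_of_nonneg_left hN0.le (by positivity) hT1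
    have e2 : 1 ≤ (N : ℝ) / L ^ V := by
      rw [le_div_iff₀ (by positivity), one_mul, hV]
      exact hLp
    linarith
  have hjT : ∀ j : ℕ, j * H ≤ N → j < Tg + 1 := by
    intro j hj
    by_contra hcon
    have e1 : (Tg + 1) * H ≤ j * H := Nat.mul_le_mul_right _ (by omega)
    have e2 : N < Tg * H := by
      rw [hH]
      have := Nat.lt_mul_div_succ N hTpos
      exact this
    have e3 : Tg * H ≤ (Tg + 1) * H := Nat.mul_le_mul_right _ (by omega)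
    omega
  obtain ⟨Bd, hBd⟩ : ∃ Bd : Finset ℕ, Bd = {n ∈ Icc 1 N | n ≡ a [MOD q] ∧ ¬ G n} := ⟨_, rfl⟩
  rw [← hBd]
  have hmem : ∀ n ∈ Bd, 1 ≤ n ∧ n ≤ N ∧ n ≡ a [MOD q] ∧ ¬ G n := by
    intro n hn
    rw [hBd, mem_filter, mem_Icc] at hn
    exact ⟨hn.1.1, hn.1.2, hn.2.1, hn.2.2⟩
  obtain ⟨J, hJ⟩ : ∃ J, J = (range (Tg + 1)).filter (fun j => j * H ≤ N) := ⟨_, rfl⟩
  obtain ⟨E2, hE2⟩ : ∃ E2 : ℕ → ℕ → ℝ, E2 = fun n y => S n y ^ 2 := ⟨_, rfl⟩
  have hE2nn : ∀ n y, 0 ≤ E2 n y := fun n y => by rw [hE2]; positivity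
  have hterm : ∀ n ∈ Bd, ((N : ℝ) / L ^ (A + 2)) ^ 2 ≤ ∑ j ∈ J, E2 n (j * H) := by
    intro n hn
    obtain ⟨a1, a2, a4, a5⟩ := hmem n hn
    by_contra hcon
    rw [not_le] at hcon
    have hsm : ∀ j : ℕ, j * H < n → S n (j * H) ≤ N / L ^ (A + 2) := by
      intro j hj
      by_contra hns
      rw [not_le] at hns
      have k1 : ((N : ℝ) / L ^ (A + 2)) ^ 2 ≤ E2 n (j * H) := by
        rw [hE2]
        exact pow_le_pow_left₀ (by positivity) hns.le 2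
      have k2 : E2 n (j * H) ≤ ∑ j ∈ J, E2 n (j * H) := by
        refine single_le_sum (f := fun j => E2 n (j * H)) (fun _ _ => hE2nn _ _) ?_
        rw [hJ, mem_filter, mem_range]
        exact ⟨hjT j (by omega), by omega⟩
      linarith
    apply a5
    apply hGd
    intro y hy
    obtain ⟨j, hj⟩ : ∃ j, j = y / H := ⟨_, rfl⟩
    have hj1 : j * H ≤ y := by rw [hj]; exact Nat.div_mul_le_self _ _
    have hj2 : y < j * H + H := by
      rw [hj]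
      exact Nat.lt_div_mul_add (by omega)
    have m0 := hsm j (by omega)
    have m1 := hgr n (j * H) (by omega) a2
    have m2 := hsh n (j * H) y hj1 hy a2
    have hdy : (y : ℝ) - ((j * H : ℕ) : ℝ) ≤ H := by
      have : (y : ℝ) ≤ ((j * H : ℕ) : ℝ) + H := by exact_mod_cast hj2.le
      linarith
    have m5 : ((y : ℝ) - ((j * H : ℕ) : ℝ)) * L ^ 3 ≤ H * L ^ 3 :=
      mul_le_mul_of_nonneg_right hdy (by positivity)
    have e6 : (H : ℝ) * L ^ 3 ≤ 2 * (N / L ^ (A + 2)) := by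
      calc (H : ℝ) * L ^ 3 ≤ 2 * (N / L ^ V) * L ^ 3 := by gcongr
        _ = 2 * (N / L ^ (A + 2)) := by
            rw [hV, show A + 5 = (A + 2) + 3 by ring, pow_add L (A + 2) 3]
            field_simp
    have e8 : 4 * ((N : ℝ) / L ^ (A + 2)) ≤ N / L ^ A := by
      have f1 : (N : ℝ) / L ^ (A + 2) = N / L ^ A * (1 / L ^ 2) := by
        rw [pow_add]
        field_simp
      have f2 : 4 * (1 / L ^ 2) ≤ 1 := by
        rw [mul_one_div, div_le_one (by positivity)]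
        nlinarith
      have f3 : 0 ≤ (N : ℝ) / L ^ A := by positivity
      rw [f1]
      calc 4 * (N / L ^ A * (1 / L ^ 2)) = N / L ^ A * (4 * (1 / L ^ 2)) := by ring
        _ ≤ N / L ^ A * 1 := mul_le_mul_of_nonneg_left f2 f3
        _ = _ := mul_one _
    linarith
  have hcls : ∀ n ∈ Bd, n ∈ (Icc 1 (2 * N)).filter (fun n : ℕ => (n : ZMod q) = (a : ZMod q)) := by
    intro n hn
    obtain ⟨a1, a2, a4, a5⟩ := hmem n hn
    rw [mem_filter, mem_Icc]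
    exact ⟨⟨a1, by omega⟩, (ZMod.natCast_eq_natCast_iff n a q).2 a4⟩
  obtain ⟨R, hR⟩ : ∃ R : ℝ, R = (N : ℝ) ^ 3 / (q * L ^ (4 * A + 10)) := ⟨_, rfl⟩
  have hR0 : 0 < R := by rw [hR]; positivity
  have hEsum : ∀ j ∈ J, ∑ n ∈ (Icc 1 (2 * N)).filter (fun n : ℕ => (n : ZMod q) = (a : ZMod q)),
      E2 n (j * H) ≤ R := by
    intro j hj
    rw [hJ, mem_filter] at hj
    have k1 := hms (j * H) hj.2
    rw [← hR] at k1
    rw [hE2]
    exact k1
  have hJc : (J.card : ℝ) ≤ 3 * L ^ V := by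
    have e1 : J.card ≤ Tg + 1 := by
      rw [hJ]
      exact (card_filter_le _ _).trans (card_range _).le
    have e2 : (J.card : ℝ) ≤ Tg + 1 := by exact_mod_cast e1
    linarith
  have hsum2 : (Bd.card : ℝ) * (N / L ^ (A + 2)) ^ 2 ≤ 3 * L ^ V * R := by
    calc (Bd.card : ℝ) * (N / L ^ (A + 2)) ^ 2 = ∑ _n ∈ Bd, ((N : ℝ) / L ^ (A + 2)) ^ 2 := by
          rw [sum_const, nsmul_eq_mul]
      _ ≤ ∑ n ∈ Bd, ∑ j ∈ J, E2 n (j * H) := sum_le_sum hterm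
      _ ≤ ∑ n ∈ (Icc 1 (2 * N)).filter (fun n : ℕ => (n : ZMod q) = (a : ZMod q)),
          ∑ j ∈ J, E2 n (j * H) :=
          sum_le_sum_of_subset_of_nonneg hcls fun n _ _ => sum_nonneg fun j _ => hE2nn _ _
      _ = ∑ j ∈ J, ∑ n ∈ (Icc 1 (2 * N)).filter (fun n : ℕ => (n : ZMod q) = (a : ZMod q)),
          E2 n (j * H) := sum_comm
      _ ≤ ∑ j ∈ J, R := sum_le_sum hEsum
      _ = (J.card : ℝ) * R := by rw [sum_const, nsmul_eq_mul]
      _ ≤ (3 * L ^ V) * R := by gcongr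
      _ = _ := by ring
  have h4 : 3 * L ^ V * R ≤ (N / (q * L ^ A)) * (N / L ^ (A + 2)) ^ 2 := by
    have e1 : (N / (q * L ^ A)) * (N / L ^ (A + 2)) ^ 2 = R * (L ^ V * L) := by
      have e2 : L ^ (4 * A + 10) = (L ^ A) ^ 4 * L ^ 10 := by
        rw [← pow_mul, ← pow_add]
        congr 1
        ring
      rw [hR, hV, e2, pow_add, pow_add]
      have e3 : L ^ A ≠ 0 := by positivity
      generalize L ^ A = Y at e3 ⊢
      field_simp
    rw [e1]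
    calc 3 * L ^ V * R = R * (L ^ V * 3) := by ring
      _ ≤ R * (L ^ V * L) := by
          gcongr
          linarith
  exact le_of_mul_le_mul_right (hsum2.trans h4) (by positivity)

/-- the difference of the sums with the minorant and with its model -/
noncomputable def TW (F g W : ℕ → ℝ) (N Z z n y : ℕ) : ℝ :=
  ∑ b ∈ Icc 1 y, F b * (FR N Z g (n - b) - W (n - b) * lamz z (n - b))

lemma TW_grid {N Z n y z r : ℕ} {F g W : ℕ → ℝ} {c X₁ : ℝ} (hF : ∀ b ∈ Icc 1 N, |F b| ≤ Real.log N)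
    (hW : WBd W c N) (hy : y < n) (hn : n ≤ N) (h1 : ∑ n ∈ Icc 1 N, |lamz z n - lsh z r n| ≤ X₁) :
    |TW F g W N Z z n y| ≤ ‖cv (fun b => ((F b : ℝ) : ℂ)) (f1 N Z g W z r) y N n‖ + c * Real.log N * X₁ := by
  have hL0 : 0 ≤ Real.log N := Real.log_natCast_nonneg N
  have hc := hW.hc
  rw [cv_left hy hn]
  have e : ∑ b ∈ Icc 1 y, ((F b : ℝ) : ℂ) * f1 N Z g W z r (n - b) =
      ((∑ b ∈ Icc 1 y, F b * (FR N Z g (n - b) - W (n - b) * lsh z r (n - b)) : ℝ) : ℂ) := by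
    push_cast
    refine sum_congr rfl fun b hb => ?_
    rw [mem_Icc] at hb
    unfold f1 HW
    rw [FC_eq (by omega)]
    push_cast
    rfl
  rw [e, Complex.norm_real, Real.norm_eq_abs]
  have e1 : TW F g W N Z z n y = ∑ b ∈ Icc 1 y, F b * (FR N Z g (n - b) - W (n - b) * lsh z r (n - b)) +
      ∑ b ∈ Icc 1 y, F b * (W (n - b) * (lsh z r (n - b) - lamz z (n - b))) := by
    unfold TW
    rw [← sum_add_distrib]
    refine sum_congr rfl fun b _ => ?_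
    ring
  rw [e1]
  refine (abs_add_le _ _).trans (add_le_add le_rfl ?_)
  have hpt : ∀ b ∈ Icc 1 y, |F b * (W (n - b) * (lsh z r (n - b) - lamz z (n - b)))| ≤
      c * Real.log N * |lamz z (n - b) - lsh z r (n - b)| := by
    intro b hb
    rw [mem_Icc] at hb
    rw [← mul_assoc, abs_mul, abs_sub_comm (lsh z r (n - b))]
    apply mul_le_mul_of_nonneg_right _ (abs_nonneg _)
    rw [abs_mul, mul_comm c]
    exact mul_le_mul (hF _ (mem_Icc.2 ⟨by omega, by omega⟩)) (hW.h1 _ (by omega)) (abs_nonneg _) hL0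
  refine (abs_sum_le_sum_abs _ _).trans ((sum_le_sum hpt).trans ?_)
  rw [← mul_sum]
  apply mul_le_mul_of_nonneg_left _ (by positivity)
  refine le_trans ?_ h1
  obtain ⟨F', hF'⟩ : ∃ F' : ℕ → ℝ, F' = fun b => |lamz z b - lsh z r b| := ⟨_, rfl⟩
  have hF0 : ∀ b, 0 ≤ F' b := fun b => by rw [hF']; exact abs_nonneg _
  have e2 : ∑ b ∈ Icc 1 y, |lamz z (n - b) - lsh z r (n - b)| = ∑ b ∈ Icc 1 y, F' (n - b) := by rw [hF']
  have e3 : ∑ n ∈ Icc 1 N, |lamz z n - lsh z r n| = ∑ b ∈ Icc 1 N, F' b := by rw [hF']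
  rw [e2, e3]
  calc ∑ b ∈ Icc 1 y, F' (n - b) = ∑ b ∈ Ioc (n - y - 1) (n - 1), F' b := reflect_sum F' hy
    _ ≤ ∑ b ∈ Icc 1 N, F' b := by
        refine sum_le_sum_of_subset_of_nonneg (fun b hb => ?_) fun _ _ _ => hF0 _
        rw [mem_Ioc] at hb
        rw [mem_Icc]
        omega

lemma icc_ioc' (y : ℕ) : Icc 1 y = Ioc 0 y := by
  ext b
  simp only [mem_Icc, mem_Ioc]
  omega

lemma TW_short {N Z n y₁ y₂ z : ℕ} {F g W : ℕ → ℝ} {c : ℝ} (hF : ∀ b ∈ Icc 1 N, |F b| ≤ Real.log N)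
    (hW : WBd W c N) (hFR : ∀ c : ℕ, 1 ≤ c → c ≤ N → |FR N Z g c| ≤ 96 * Real.log N)
    (hz : (Vz z)⁻¹ ≤ Real.log N) (h12 : y₁ ≤ y₂) (h2 : y₂ < n) (hn : n ≤ N) (hL : 96 + c ≤ Real.log N) :
    |TW F g W N Z z n y₂| ≤ |TW F g W N Z z n y₁| + ((y₂ : ℝ) - y₁) * Real.log N ^ 3 := by
  have hc := hW.hc
  have hL0 : 0 ≤ Real.log N := by linarith
  have e1 : TW F g W N Z z n y₂ = TW F g W N Z z n y₁ +
      ∑ b ∈ Ioc y₁ y₂, F b * (FR N Z g (n - b) - W (n - b) * lamz z (n - b)) := by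
    unfold TW
    rw [icc_ioc', icc_ioc', sum_Ioc_consecutive _ (Nat.zero_le y₁) h12]
  rw [e1]
  refine (abs_add_le _ _).trans (add_le_add le_rfl ?_)
  refine (abs_sum_le_sum_abs _ _).trans ?_
  have h3 : ∀ b ∈ Ioc y₁ y₂, |F b * (FR N Z g (n - b) - W (n - b) * lamz z (n - b))| ≤ Real.log N ^ 3 := by
    intro b hb
    rw [mem_Ioc] at hb
    rw [abs_mul]
    have k1 := hF b (mem_Icc.2 ⟨by omega, by omega⟩)
    have k2 := hFR (n - b) (by omega) (by omega)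
    have k3 : |W (n - b) * lamz z (n - b)| ≤ c * Real.log N := by
      rw [abs_mul, abs_of_nonneg (lamz_nn _ _)]
      exact mul_le_mul (hW.h1 _ (by omega)) ((lamz_le _ _).trans hz) (lamz_nn _ _) hc
    have k4 := abs_sub (FR N Z g (n - b)) (W (n - b) * lamz z (n - b))
    calc |F b| * |FR N Z g (n - b) - W (n - b) * lamz z (n - b)| ≤ Real.log N * ((96 + c) * Real.log N) :=
          mul_le_mul k1 (by linarith) (abs_nonneg _) hL0
      _ ≤ Real.log N * (Real.log N * Real.log N) := by gcongr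
      _ = _ := by ring
  refine (sum_le_sum h3).trans ?_
  rw [sum_const, Nat.card_Ioc, nsmul_eq_mul, Nat.cast_sub h12]

end Pool.Agent.J4H40
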