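import Pool.Agent.J4H40.Ze

set_option autoImplicit false

/-! Differences instead of sums, arbitrary first factors: the shifts in all classes of the regular moduli. -/

namespace Pool.Agent.J4H40

open Finset Filter
open Pool.Agent.H373R2.T7 (lamz Vz pz Vz_pos mem_pz)
open Pool.Agent.R460.GS (vm_le la la_nn one_le_sing)

/-- the function `m ↦ F m` at the place `b = N + 1 - m` -/
noncomputable def R1 {R : Type} [Zero R] (F : ℕ → R) (N b : ℕ) : R :=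
  if 1 ≤ b ∧ b ≤ N then F (N + 1 - b) else 0

lemma sum_R1 {R : Type} [CommRing R] (F G : ℕ → R) {N u y₁ y₂ : ℕ} (h2 : y₂ ≤ N) (hu : N ≤ y₁ + u) :
    ∑ b ∈ Ioc (N - y₂) (N - y₁), R1 F N b * G (u + 1 - b) = ∑ m ∈ Ioc y₁ y₂, F m * G (m + u - N) := by
  apply sum_nbij' (fun b => N + 1 - b) (fun m => N + 1 - m)
  · intro b hb
    rw [mem_Ioc] at hb ⊢
    omega
  · intro m hm
    rw [mem_Ioc] at hm ⊢
    omega
  · intro b hb
    rw [mem_Ioc] at hb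
    omega
  · intro m hm
    rw [mem_Ioc] at hm
    omega
  · intro b hb
    rw [mem_Ioc] at hb
    unfold R1
    rw [if_pos (by omega)]
    congr 2
    omega

lemma R1_nn {F : ℕ → ℝ} {N : ℕ} {X : ℝ} (hX : 0 ≤ X) (hF : ∀ m ∈ Icc 1 N, 0 ≤ F m ∧ F m ≤ X) (b : ℕ) :
    0 ≤ R1 F N b ∧ R1 F N b ≤ X := by
  unfold R1
  split_ifs with h
  · apply hF
    rw [mem_Icc]
    omega
  · exact ⟨le_rfl, hX⟩

lemma R1_norm {F : ℕ → ℂ} {N : ℕ} {X : ℝ} (hX : 0 ≤ X) (hF : ∀ m ∈ Icc 1 N, ‖F m‖ ≤ X) (b : ℕ) :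
    ‖R1 F N b‖ ≤ X := by
  unfold R1
  split_ifs with h
  · apply hF
    rw [mem_Icc]
    omega
  · rw [norm_zero]
    exact hX

/-- the lower bound for the shift `u - N`, in all windows -/
def LowS (F : ℕ → ℝ) (β : ℝ) (z : ℕ) (e : ℝ) (N u : ℕ) : Prop :=
  ∀ y₁ y₂ : ℕ, Win N u y₁ y₂ →
    β * ∑ m ∈ Ioc y₁ y₂, F m * lamz z (m + u - N) - e ≤ ∑ m ∈ Ioc y₁ y₂, F m * la (m + u - N)

/-- the asymptotic formula for the shift `u - N`, in all windows -/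
def AsS (F : ℕ → ℂ) (c : ℕ → ℝ) (V : ℝ) (z : ℕ) (e : ℝ) (N u : ℕ) : Prop :=
  ∀ y₁ y₂ : ℕ, Win N u y₁ y₂ →
    ‖∑ m ∈ Ioc y₁ y₂, F m * ((GA c (m + u - N) - V * lamz z (m + u - N) : ℝ) : ℂ)‖ ≤ e

lemma lowS_of {N u V z : ℕ} {F : ℕ → ℝ} {β : ℝ}
    (h : GoodL (R1 F N) β z ((3 * N : ℕ) / Real.log (3 * N : ℕ) ^ V) (u + 1)) :
    LowS F β z ((3 * N : ℕ) / Real.log (3 * N : ℕ) ^ V) N u := by
  rintro y₁ y₂ ⟨w1, w2, w3⟩
  have hg := h (N - y₂) (N - y₁) (by omega) (by omega)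
  rw [sum_R1 F (lamz z) (u := u) w2 w3, sum_R1 F la (u := u) w2 w3] at hg
  exact hg

lemma asS_of {N u V z : ℕ} {F : ℕ → ℂ} {c : ℕ → ℝ} (h : GoodF (3 * N) (R1 F N) c z V (u + 1)) :
    AsS F c (Vd (3 * N) c) z (2 * ((3 * N : ℕ) / Real.log (3 * N : ℕ) ^ V)) N u := by
  rintro y₁ y₂ ⟨w1, w2, w3⟩
  have h1 := h (N - y₁) (by omega)
  have h2 := h (N - y₂) (by omega)
  have e1 := sum_R1 F (fun n => ((GA c n - Vd (3 * N) c * lamz z n : ℝ) : ℂ)) (u := u) w2 w3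
  rw [← e1]
  have e2 : ∑ b ∈ Ioc (N - y₂) (N - y₁), R1 F N b *
      ((GA c (u + 1 - b) - Vd (3 * N) c * lamz z (u + 1 - b) : ℝ) : ℂ) =
      RF (R1 F N) c (Vd (3 * N) c) z (u + 1) (N - y₁) -
      RF (R1 F N) c (Vd (3 * N) c) z (u + 1) (N - y₂) := by
    unfold RF
    have hI : ∀ y : ℕ, Icc 1 y = Ioc 0 y := fun y => by
      ext b
      rw [mem_Icc, mem_Ioc]
      omega
    rw [hI, hI, ← sum_Ioc_consecutive _ (Nat.zero_le (N - y₂)) (show N - y₂ ≤ N - y₁ by omega)]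
    ring
  rw [e2]
  refine (norm_sub_le _ _).trans ?_
  linarith

/-- transfer to the shifts -/
lemma few1 {N q A V : ℕ} {a : ℤ} {P Q : ℕ → Prop} (hAV : A + 1 ≤ V) (hl : 3 ≤ Real.log N)
    (hlL : Real.log N ≤ Real.log (3 * N : ℕ)) (hq : 1 ≤ q) {x : ℕ}
    (hx : (x : ℤ) ≡ a + N + 1 [ZMOD q]) (hPQ : ∀ u : ℕ, u ≤ 2 * N → P (u + 1) → Q u)
    (h : Few (3 * N) q x V P) : Few6 N q a A Q := by
  classical
  unfold Few at h
  unfold Few6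
  have hq0 : (0 : ℝ) < q := by exact_mod_cast hq
  have hN1 : 1 ≤ N := by
    rcases Nat.eq_zero_or_pos N with h0 | h0
    · rw [h0] at hl
      simp only [Nat.cast_zero, Real.log_zero] at hl
      linarith
    · exact h0
  have hN0 : (0 : ℝ) < N := by exact_mod_cast hN1
  have h3 : ((3 * N : ℕ) : ℝ) / (q * Real.log (3 * N : ℕ) ^ V) ≤ N / (q * Real.log N ^ A) := by
    obtain ⟨L, hL⟩ : ∃ L, L = Real.log (3 * N : ℕ) := ⟨_, rfl⟩
    obtain ⟨l, hld⟩ : ∃ l, l = Real.log (N : ℝ) := ⟨_, rfl⟩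
    rw [← hL, ← hld] at hlL
    rw [← hld] at hl
    rw [← hL, ← hld]
    have hl0 : 0 < l := by linarith
    have hL0 : 0 < L := by linarith
    push_cast
    rw [div_le_div_iff₀ (by positivity) (by positivity)]
    have k1 : l ^ A * 3 ≤ L ^ V := by
      calc l ^ A * 3 ≤ l ^ A * l := by gcongr
        _ = l ^ (A + 1) := by ring
        _ ≤ L ^ (A + 1) := pow_le_pow_left₀ hl0.le hlL _
        _ ≤ L ^ V := pow_le_pow_right₀ (by linarith) hAV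
    have k2 : 0 ≤ (N : ℝ) * q := by positivity
    have k3 := mul_le_mul_of_nonneg_left k1 k2
    nlinarith
  refine le_trans (Nat.cast_le.2 (card_le_card_of_injOn (fun h : ℤ => (h + N).toNat + 1) ?_ ?_)) (h.trans h3)
  · intro t ht
    rw [mem_coe, mem_filter, mem_Icc] at ht
    obtain ⟨⟨k1, k2⟩, k3, k4⟩ := ht
    rw [mem_coe, mem_filter, mem_Icc]
    simp only
    refine ⟨⟨by omega, by omega⟩, ?_, ?_⟩
    · rw [← Int.natCast_modEq_iff]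
      have e : (((t + N).toNat + 1 : ℕ) : ℤ) = t + N + 1 := by
        push_cast
        rw [Int.toNat_of_nonneg (by omega)]
      rw [e]
      refine Int.ModEq.trans ?_ hx.symm
      exact (k3.add_right _).add_right _
    · intro hP
      exact k4 (hPQ _ (by omega) hP)
  · intro t ht t' ht' he
    rw [mem_coe, mem_filter, mem_Icc] at ht ht'
    simp only at he
    omega

/-- the class -/
lemma class1 (N q : ℕ) (hq : 1 ≤ q) (a : ℤ) : ∃ x : ℕ, (x : ℤ) ≡ a + N + 1 [ZMOD q] := by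
  refine ⟨((a + N + 1) % q).toNat, ?_⟩
  rw [Int.toNat_of_nonneg (Int.emod_nonneg _ (by omega))]
  exact Int.mod_modEq _ _

lemma co3 {N : ℕ} {κ σ : ℝ} (hκ : 0 < κ) (hσ : 0 < σ) (hN : 3 ≤ N) {c : ℕ → ℝ} (hc : Co N κ σ c) :
    Co (3 * N) (κ / 2) σ c := by
  have hN0 : (0 : ℝ) < N := by exact_mod_cast (by omega : 0 < N)
  have h14 : (3 : ℝ) ≤ N := by exact_mod_cast hN
  have k1 : ((3 * N : ℕ) : ℝ) ^ (κ / 2) ≤ (N : ℝ) ^ κ := by
    have k2 : ((3 * N : ℕ) : ℝ) ≤ (N : ℝ) ^ (2 : ℝ) := by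
      rw [Real.rpow_two]
      push_cast
      nlinarith
    calc ((3 * N : ℕ) : ℝ) ^ (κ / 2) ≤ ((N : ℝ) ^ (2 : ℝ)) ^ (κ / 2) :=
          Real.rpow_le_rpow (by positivity) k2 (by linarith)
      _ = (N : ℝ) ^ κ := by
          rw [← Real.rpow_mul hN0.le]
          congr 1
          ring
  have k3 : (N : ℝ) ^ σ ≤ ((3 * N : ℕ) : ℝ) ^ σ := by
    apply Real.rpow_le_rpow hN0.le _ hσ.le
    push_cast
    linarith
  refine ⟨hc.le1, fun m hm => ?_⟩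
  obtain ⟨g1, g2, g3⟩ := hc.sup m hm
  exact ⟨lt_of_le_of_lt k1 g1, g2.trans k3, fun p hp => lt_of_le_of_lt k1 (g3 p hp)⟩

lemma vd3 {N : ℕ} {κ σ : ℝ} (hσ : σ ≤ 1 / 2) (hN : 1 ≤ N) {c : ℕ → ℝ} (hc : Co N κ σ c) :
    Vd (3 * N) c = Vd N c := by
  unfold Vd
  symm
  apply sum_subset
  · intro m hm
    rw [mem_Icc] at hm ⊢
    omega
  · intro m hm hm'
    by_contra h0
    have hcm : c m ≠ 0 := fun h => h0 (by rw [h, zero_div])
    obtain ⟨-, g2, -⟩ := hc.sup m hcm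
    have hN1 : (1 : ℝ) ≤ N := by exact_mod_cast hN
    have k1 : (m : ℝ) ≤ N := by
      refine g2.trans ?_
      calc (N : ℝ) ^ σ ≤ (N : ℝ) ^ (1 : ℝ) := Real.rpow_le_rpow_of_exponent_le hN1 (by linarith)
        _ = N := Real.rpow_one _
    have k2 : m ≤ N := by exact_mod_cast k1
    rw [mem_Icc] at hm hm'
    omega

/-- the size of the modulus -/
lemma qscale1 {e e' : ℝ} (h : e < e') : ∃ N₀ : ℕ, ∀ N : ℕ, N₀ ≤ N → ∀ q : ℕ, 1 ≤ q → (q : ℝ) ≤ (N : ℝ) ^ e →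
    (q : ℝ) ≤ ((3 * N : ℕ) : ℝ) ^ e' := by
  refine ⟨2, fun N hN q hq hqN => ?_⟩
  have hN1 : (1 : ℝ) < N := by exact_mod_cast (by omega : 1 < N)
  have hN0 : (0 : ℝ) < N := by linarith
  have he : 0 ≤ e := by
    by_contra hcon
    have : (N : ℝ) ^ e < 1 := Real.rpow_lt_one_of_one_lt_of_neg hN1 (by linarith)
    have hq' : (1 : ℝ) ≤ q := by exact_mod_cast hq
    linarith
  push_cast
  calc (q : ℝ) ≤ (N : ℝ) ^ e := hqN
    _ ≤ (N : ℝ) ^ e' := Real.rpow_le_rpow_of_exponent_le hN1.le h.le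
    _ ≤ (3 * (N : ℝ)) ^ e' := Real.rpow_le_rpow hN0.le (by linarith) (by linarith)

/-- the scale -/
lemma scale3 : ∃ N₀ : ℕ, ∀ N : ℕ, N₀ ≤ N → 1300 ≤ Real.log N ∧ Real.log N ≤ Real.log (3 * N : ℕ) ∧
    Real.log (3 * N : ℕ) ≤ 101 / 100 * Real.log N := by
  obtain ⟨N₁, h1⟩ := Pool.Agent.R462.GS.evL 1300
  refine ⟨N₁ + 1, fun N hN => ?_⟩
  have hL := h1 N (by omega)
  have hN0 : (0 : ℝ) < N := by exact_mod_cast (by omega : 0 < N)
  have h2 : Real.log (3 * N : ℕ) = Real.log 3 + Real.log N := by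
    push_cast
    rw [Real.log_mul (by norm_num) hN0.ne']
  have h3 : 0 ≤ Real.log 3 := Real.log_nonneg (by norm_num)
  have h4 : Real.log 3 ≤ 3 - 1 := Real.log_le_sub_one_of_pos (by norm_num)
  refine ⟨hL, ?_, ?_⟩ <;> rw [h2] <;> linarith

/-- the parameter of the sieve model -/
noncomputable def zz (N E : ℕ) : ℕ := ⌈Real.log (3 * N : ℕ) ^ E⌉₊

open Classical in
/-- the shifts in all classes of the regular moduli: the lower bound and the asymptotic formulas for finitely many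
sequences of coefficients, with one set of exceptional integers -/
theorem engS {κ σ ρ : ℝ} (hκ : 0 < κ) (hσ0 : 0 < σ) (hσρ : σ < ρ) (hσ : σ ≤ 1 / 2) (s V : ℕ) :
    ∃ k : ℕ, ∀ A₀ : ℕ, ∃ E₀ : ℕ, ∀ E : ℕ, E₀ ≤ E → ∃ N₀ : ℕ, ∀ N : ℕ, N₀ ≤ N →
      ∀ c : Fin s → ℕ → ℝ, (∀ i, Co N κ σ (c i)) →
      ∃ D : Finset ℕ, (D.card : ℝ) ≤ Real.log N ^ k ∧ (∀ d ∈ D, Real.log N ^ A₀ < (d : ℝ)) ∧
      ∀ q : ℕ, 1 ≤ q → (∀ d ∈ D, ¬ d ∣ q) → ∀ a : ℤ,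
        ((q : ℝ) ≤ (N : ℝ) ^ (5 / 6 - ρ) → ∀ F : ℕ → ℝ, (∀ m ∈ Icc 1 N, 0 ≤ F m ∧ F m ≤ 1) →
          Few6 N q a V (LowS F (99 / 100 * (137 / 1000)) (zz N E) (N / Real.log N ^ V) N)) ∧
        ((q : ℝ) ≤ (N : ℝ) ^ (1 - ρ) → ∀ i, ∀ F : ℕ → ℂ, (∀ m ∈ Icc 1 N, ‖F m‖ ≤ 1) →
          Few6 N q a V (AsS F (c i) (Vd N (c i)) (zz N E) (N / Real.log N ^ V) N)) := by
  have hρ : 0 < ρ := hσ0.trans hσρ
  obtain ⟨ρ', hρ'⟩ : ∃ ρ', ρ' = (σ + ρ) / 2 := ⟨_, rfl⟩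
  have r1 : σ < ρ' := by rw [hρ']; linarith
  have r2 : ρ' < ρ := by rw [hρ']; linarith
  obtain ⟨W, hW⟩ : ∃ W, W = V + 2 := ⟨_, rfl⟩
  obtain ⟨k₁, h1⟩ := mainLR (α := 1 / 6) (a := 388 / 1000) (h₀ := 137 / 1000) le_rfl
    (by norm_num) (by norm_num) (by norm_num) (Or.inl le_rfl) (by norm_num) (by norm_num)
    (fun B hB => den hB) ρ' (by linarith) W
  obtain ⟨k₂, h2⟩ := mainKF (κ := κ / 2) (by linarith) hσ0 r1 hσ W
  refine ⟨2 * (k₁ + k₂) + 1, fun A₀ => ?_⟩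
  obtain ⟨B₁, h1⟩ := h1 A₀
  obtain ⟨B₂, h2⟩ := h2 A₀
  refine ⟨B₁ + B₂, fun E hE => ?_⟩
  obtain ⟨N₁, h1⟩ := h1 E (by omega)
  obtain ⟨N₂, h2⟩ := h2 E (by omega)
  obtain ⟨N₃, h3⟩ := scale3
  obtain ⟨N₄, h4⟩ := qscale1 (e := 5 / 6 - ρ) (e' := 5 / 6 - ρ') (by linarith)
  obtain ⟨N₅, h5⟩ := qscale1 (e := 1 - ρ) (e' := 1 - ρ') (by linarith)
  obtain ⟨N₆, h6⟩ := Pool.Agent.R462.GS.evL (s + 1)
  refine ⟨N₁ + N₂ + N₃ + N₄ + N₅ + N₆ + 3, fun N hN c hc => ?_⟩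
  obtain ⟨l1, l2, l3⟩ := h3 N (by omega)
  have hs := h6 N (by omega)
  have hN0 : (0 : ℝ) < N := by exact_mod_cast (by omega : 0 < N)
  obtain ⟨D₁, d1, e1, h1⟩ := h1 (3 * N) (by omega)
  have hch : ∀ i, ∃ D : Finset ℕ, (D.card : ℝ) ≤ Real.log (3 * N : ℕ) ^ k₂ ∧
      (∀ d ∈ D, Real.log (3 * N : ℕ) ^ A₀ < (d : ℝ)) ∧
      ∀ q : ℕ, 1 ≤ q → (q : ℝ) ≤ ((3 * N : ℕ) : ℝ) ^ (1 - ρ') → (∀ d ∈ D, ¬ d ∣ q) → ∀ x : ℕ,
        (∀ F : ℕ → ℂ, (∀ b ∈ Icc 1 (3 * N), ‖F b‖ ≤ Real.log (3 * N : ℕ)) →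
          Few (3 * N) q x W (GoodF (3 * N) F (c i) ⌈Real.log (3 * N : ℕ) ^ E⌉₊ W)) := by
    intro i
    obtain ⟨D, g1, g2, g3⟩ := h2 (3 * N) (by omega) (c i) (co3 hκ hσ0 (by omega) (hc i))
    exact ⟨D, g1, g2, fun q hq hqN hqD x F hF => (g3 q hq hqN hqD x).1 F hF⟩
  choose D₂ d2 e2 h2' using hch
  have hl0 : 0 < Real.log N := by linarith
  have hL0 : 0 < Real.log (3 * N : ℕ) := by linarith
  have hl1 : 1 ≤ Real.log N := by linarith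
  have hpw : ∀ j, Real.log (3 * N : ℕ) ^ j ≤ Real.log N ^ (2 * j) := by
    intro j
    calc Real.log (3 * N : ℕ) ^ j ≤ (Real.log N ^ 2) ^ j := by
          apply pow_le_pow_left₀ hL0.le
          nlinarith
      _ = Real.log N ^ (2 * j) := by rw [← pow_mul]
  refine ⟨D₁ ∪ univ.biUnion D₂, ?_, ?_, ?_⟩
  · have c1 : ((D₁ ∪ univ.biUnion D₂).card : ℝ) ≤ (D₁.card : ℝ) + ∑ i, ((D₂ i).card : ℝ) := by
      exact_mod_cast (card_union_le _ _).trans (Nat.add_le_add_left card_biUnion_le _)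
    have c2 : ∑ i, ((D₂ i).card : ℝ) ≤ s * Real.log N ^ (2 * (k₁ + k₂)) := by
      calc ∑ i, ((D₂ i).card : ℝ) ≤ ∑ _i : Fin s, Real.log N ^ (2 * (k₁ + k₂)) := by
            refine sum_le_sum fun i _ => (d2 i).trans ((hpw _).trans ?_)
            exact pow_le_pow_right₀ hl1 (by omega)
        _ = _ := by rw [sum_const, card_univ, Fintype.card_fin, nsmul_eq_mul]
    have c3 : (D₁.card : ℝ) ≤ Real.log N ^ (2 * (k₁ + k₂)) := by
      refine d1.trans ((hpw _).trans ?_)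
      exact pow_le_pow_right₀ hl1 (by omega)
    have c4 : 0 ≤ Real.log N ^ (2 * (k₁ + k₂)) := by positivity
    rw [pow_succ]
    nlinarith
  · intro d hd
    have hA : Real.log N ^ A₀ ≤ Real.log (3 * N : ℕ) ^ A₀ := pow_le_pow_left₀ hl0.le l2 _
    rw [mem_union, mem_biUnion] at hd
    rcases hd with hd | ⟨i, -, hd⟩
    · exact lt_of_le_of_lt hA (e1 d hd)
    · exact lt_of_le_of_lt hA (e2 i d hd)
  · intro q hq hqD a
    obtain ⟨x, hx⟩ := class1 N q hq a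
    have q1 : ∀ d ∈ D₁, ¬ d ∣ q := fun d hd => hqD d (mem_union_left _ hd)
    have q2 : ∀ i, ∀ d ∈ D₂ i, ¬ d ∣ q := fun i d hd =>
      hqD d (mem_union_right _ (mem_biUnion.2 ⟨i, mem_univ i, hd⟩))
    have hl3 : (3 : ℝ) ≤ Real.log N := by linarith
    have herr : ((3 * N : ℕ) : ℝ) / Real.log (3 * N : ℕ) ^ W ≤ N / Real.log N ^ V / 2 := by
      obtain ⟨L, hL⟩ : ∃ L, L = Real.log (3 * N : ℕ) := ⟨_, rfl⟩
      obtain ⟨l, hld⟩ : ∃ l, l = Real.log (N : ℝ) := ⟨_, rfl⟩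
      rw [← hL, ← hld] at l2
      rw [← hld] at l1 hl0
      have hL00 : 0 < L := by linarith
      rw [← hL, ← hld, div_div, div_le_div_iff₀ (by positivity) (by positivity)]
      push_cast
      have k1 : l ^ V * 6 ≤ L ^ W := by
        calc l ^ V * 6 ≤ l ^ V * l := by
              gcongr
              linarith
          _ = l ^ (V + 1) := by ring
          _ ≤ L ^ (V + 1) := pow_le_pow_left₀ hl0.le l2 _
          _ ≤ L ^ W := pow_le_pow_right₀ (by linarith) (by omega)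
      nlinarith
    have hlt : (1 : ℝ) ≤ Real.log (3 * N : ℕ) := by linarith
    refine ⟨fun hqN F hF => ?_, fun hqN i F hF => ?_⟩
    · have hF' : ∀ m ∈ Icc 1 N, 0 ≤ F m ∧ F m ≤ Real.log (3 * N : ℕ) := fun m hm =>
        ⟨(hF m hm).1, (hF m hm).2.trans hlt⟩
      have hx1 := h1 q hq (by
        have := h4 N (by omega) q hq hqN
        refine this.trans (le_of_eq ?_)
        congr 1
        ring) q1 x (R1 F N) (fun b _ => R1_nn hL0.le hF' b)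
      refine few1 (V := W) (by omega) hl3 l2 hq hx ?_ hx1
      intro u hu hG y₁ y₂ hw
      have := lowS_of hG y₁ y₂ hw
      have hp : 0 ≤ (N : ℝ) / Real.log N ^ V := by positivity
      unfold zz
      linarith
    · have hF' : ∀ m ∈ Icc 1 N, ‖F m‖ ≤ Real.log (3 * N : ℕ) := fun m hm => (hF m hm).trans hlt
      have hx1 := h2' i q hq (h5 N (by omega) q hq hqN) (q2 i) x (R1 F N) (fun b _ => R1_norm hL0.le hF' b)
      refine few1 (V := W) (by omega) hl3 l2 hq hx ?_ hx1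
      intro u hu hG y₁ y₂ hw
      have := asS_of hG y₁ y₂ hw
      rw [vd3 hσ (by omega) (hc i)] at this
      unfold zz
      refine this.trans ?_
      linarith

end Pool.Agent.J4H40
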