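import Pool.Agent.J4H40.Kl
import Pool.Agent.J4H40.Yk
import Pool.Agent.J4H40.Zf

set_option autoImplicit false

/-! From the mean square to almost all integers in every class of a regular modulus. -/

namespace Pool.Agent.J4H40

open Finset Filter
open Pool.Agent.H373R2.T7 (lamz Vz pz mem_pz Vz_pos muR mu_ap muR_abs lamz_ap)

/-- the sums over all the initial intervals are small -/
def GoodK (N : ℕ) (F : ℕ → ℂ) (K : ℕ → ℝ) (A n : ℕ) : Prop :=
  ∀ y : ℕ, y < n → ‖∑ b ∈ Icc 1 y, F b * ((K (n - b) : ℝ) : ℂ)‖ ≤ N / Real.log N ^ A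

lemma cn_cut {F : ℕ → ℂ} {K : ℕ → ℝ} {n y : ℕ} (hy : y < n) :
    cn (fun b => if b ≤ y then F b else 0) K n = ∑ b ∈ Icc 1 y, F b * ((K (n - b) : ℝ) : ℂ) := by
  unfold cn
  rw [← sum_subset (Icc_subset_Icc le_rfl (by omega : y ≤ n - 1)) (fun b hb hb' => by
    rw [mem_Icc] at hb hb'
    beta_reduce
    rw [if_neg (by omega), zero_mul])]
  refine sum_congr rfl fun b hb => ?_
  rw [mem_Icc] at hb
  beta_reduce
  rw [if_pos hb.2]

lemma gA_smul (t : ℝ) (a f : ℕ → ℝ) (n : ℕ) : gA (fun m => t * a m) f n = t * gA a f n := by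
  unfold gA
  rw [mul_sum]
  refine sum_congr rfl fun d _ => ?_
  ring

open Classical in
theorem fewK {ρ κ₀ σ₀ w : ℝ} {f : ℕ → ℝ} (hms : ∀ A, MSq ρ κ₀ σ₀ A f w) (hf1 : ∀ n, |f n| ≤ 1) (hw : |w| ≤ 1)
    (A : ℕ) : ∃ c : ℕ, ∀ A₀ : ℕ, ∃ N₀ : ℕ, ∀ N : ℕ, N₀ ≤ N → ∀ a : ℕ → ℝ, Co N κ₀ σ₀ a →
      (∀ m ∈ Icc 1 N, ∑ d ∈ m.divisors, |a d| ≤ Real.log N) →
      ∃ D : Finset ℕ, (D.card : ℝ) ≤ Real.log N ^ c ∧ (∀ d ∈ D, Real.log N ^ A₀ < (d : ℝ)) ∧
      ∀ F : ℕ → ℂ, (∀ b ∈ Icc 1 N, ‖F b‖ ≤ Real.log N) → ∀ q : ℕ, 1 ≤ q →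
      (q : ℝ) ≤ (N : ℝ) ^ (1 - ρ) → (∀ d ∈ D, ¬ d ∣ q) → ∀ x : ℕ,
        Few N q x A (GoodK N F (fun m => gA a f m - w * Vd N a) A) := by
  obtain ⟨c, hc⟩ := hms (4 * A + 13)
  refine ⟨c, fun A₀ => ?_⟩
  obtain ⟨N₁, h1⟩ := hc A₀
  obtain ⟨N₂, h2⟩ := Pool.Agent.R462.GS.evlog (A + 5) 1 1 one_pos
  obtain ⟨N₃, h3⟩ := Pool.Agent.R462.GS.evL 100
  refine ⟨N₁ + N₂ + N₃ + 1, fun N hN a ha hab => ?_⟩
  have hL := h3 N (by omega)
  have hLp := h2 N (by omega)
  rw [one_mul, Real.rpow_one] at hLp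
  have hN0 : (0 : ℝ) < N := by exact_mod_cast (by omega : 0 < N)
  have hharm := harm_le (N := N) ha.le1
  have hinv0 : 0 < (2 * Real.log N)⁻¹ := by positivity
  have hinv1 : (2 * Real.log N)⁻¹ ≤ 1 := by
    rw [inv_le_one_iff₀]
    right
    linarith
  have hcm : Cm N κ₀ σ₀ (fun m => (2 * Real.log N)⁻¹ * a m) := by
    refine ⟨fun m => ?_, fun m hm => ?_, ?_⟩
    · rw [abs_mul, abs_of_pos hinv0]
      have := ha.le1 m
      nlinarith [abs_nonneg (a m)]
    · exact ha.sup m (fun h => hm (by rw [h, mul_zero]))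
    · have e := Vd_smul a (2 * Real.log N)⁻¹ N
      unfold Vd at e
      rw [e, abs_mul, abs_of_pos hinv0, inv_mul_le_iff₀ (by positivity)]
      linarith
  obtain ⟨D, hD1, hD2, hD⟩ := h1 N (by omega) _ hcm
  refine ⟨D, hD1, hD2, fun F hF q hq1 hqN hqD x => ?_⟩
  have hq0 : (0 : ℝ) < q := by exact_mod_cast hq1
  obtain ⟨K, hK⟩ : ∃ K : ℕ → ℝ, K = fun m => gA a f m - w * Vd N a := ⟨_, rfl⟩
  rw [← hK]
  have hK2 : ∀ m ∈ Icc 1 N, |K m| ≤ Real.log N ^ 2 := by
    intro m hm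
    have k1 : |gA a f m| ≤ Real.log N := by
      refine le_trans ?_ (hab m hm)
      unfold gA
      refine (abs_sum_le_sum_abs _ _).trans (sum_le_sum fun d _ => ?_)
      rw [abs_mul]
      have := hf1 (m / d)
      nlinarith [abs_nonneg (a d)]
    have k2 : |w * Vd N a| ≤ 1 + Real.log N := by
      rw [abs_mul]
      have k3 : |Vd N a| ≤ 1 + Real.log N := hharm
      nlinarith [abs_nonneg (Vd N a), abs_nonneg w]
    have k3 := abs_sub (gA a f m) (w * Vd N a)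
    rw [hK]
    beta_reduce
    nlinarith
  have hmsF : ∀ F : ℕ → ℂ, (∀ b ∈ Icc 1 N, ‖F b‖ ≤ Real.log N) →
      ∑ n ∈ (Icc 1 N).filter (fun n => n ≡ x [MOD q]), ‖cn F K n‖ ^ 2 ≤ (N : ℝ) ^ 3 / (q * Real.log N ^ (4 * A + 10)) := by
    intro F hF
    have h4 := hD F hF q hq1 hqN hqD x
    obtain ⟨L, hLd⟩ : ∃ L, L = Real.log (N : ℝ) := ⟨_, rfl⟩
    rw [← hLd] at h4 hL hinv0 ⊢
    have hL0 : 0 < L := by linarith
    have e1 : ∀ n : ℕ, ‖cn F K n‖ ^ 2 = (4 * L ^ 2) *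
        ‖cn F (fun m => gA (fun m => (2 * L)⁻¹ * a m) f m - w * Vd N (fun m => (2 * L)⁻¹ * a m)) n‖ ^ 2 := by
      intro n
      have e2 : cn F (fun m => gA (fun m => (2 * L)⁻¹ * a m) f m - w * Vd N (fun m => (2 * L)⁻¹ * a m)) n =
          (((2 * L)⁻¹ : ℝ) : ℂ) * cn F K n := by
        unfold cn
        rw [mul_sum]
        refine sum_congr rfl fun b _ => ?_
        rw [hK]
        beta_reduce
        rw [gA_smul, Vd_smul]
        push_cast
        ring
      rw [e2, norm_mul, Complex.norm_real, Real.norm_eq_abs, abs_of_pos hinv0, mul_pow]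
      field_simp
      ring
    rw [sum_congr rfl (fun n _ => e1 n), ← mul_sum]
    calc (4 * L ^ 2) * _ ≤ (4 * L ^ 2) * ((N : ℝ) ^ 3 / (q * L ^ (4 * A + 13))) :=
          mul_le_mul_of_nonneg_left h4 (by positivity)
      _ = (N : ℝ) ^ 3 / (q * L ^ (4 * A + 10)) * (4 / L) := by
          rw [show 4 * A + 13 = (4 * A + 10) + 3 by ring, pow_add L (4 * A + 10) 3]
          field_simp
      _ ≤ (N : ℝ) ^ 3 / (q * L ^ (4 * A + 10)) * 1 := by
          apply mul_le_mul_of_nonneg_left _ (by positivity)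
          rw [div_le_one hL0]
          linarith
      _ = _ := mul_one _
  have hgrid := count_grid (N := N) (A := A) (q := q) (a := x)
    (T := fun n y => ‖∑ b ∈ Icc 1 y, F b * ((K (n - b) : ℝ) : ℂ)‖)
    (S := fun n y => if n ≤ N then ‖cn (fun b => if b ≤ y then F b else 0) K n‖ else 0) (by omega) (by linarith) hLp hq1
    (by
      intro n y hy hn
      beta_reduce
      rw [if_pos hn, cn_cut hy]
      have : 0 ≤ (N : ℝ) / Real.log N ^ (A + 2) := by positivity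
      linarith)
    (by
      intro n y
      beta_reduce
      split_ifs
      · exact norm_nonneg _
      · exact le_rfl)
    (by
      intro n y₁ y₂ h12 hy hn
      beta_reduce
      have e1 : ∑ b ∈ Icc 1 y₂, F b * ((K (n - b) : ℝ) : ℂ) = ∑ b ∈ Icc 1 y₁, F b * ((K (n - b) : ℝ) : ℂ) +
          ∑ b ∈ Ioc y₁ y₂, F b * ((K (n - b) : ℝ) : ℂ) := by
        rw [icc_ioc', icc_ioc', sum_Ioc_consecutive _ (Nat.zero_le y₁) h12]
      rw [e1]
      refine (norm_add_le _ _).trans (add_le_add le_rfl ?_)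
      refine (norm_sum_le _ _).trans ?_
      have k1 : ∀ b ∈ Ioc y₁ y₂, ‖F b * ((K (n - b) : ℝ) : ℂ)‖ ≤ Real.log N ^ 3 := by
        intro b hb
        rw [mem_Ioc] at hb
        rw [norm_mul, Complex.norm_real, Real.norm_eq_abs]
        calc ‖F b‖ * |K (n - b)| ≤ Real.log N * Real.log N ^ 2 :=
              mul_le_mul (hF b (mem_Icc.2 ⟨by omega, by omega⟩)) (hK2 _ (mem_Icc.2 ⟨by omega, by omega⟩))
                (abs_nonneg _) (by linarith)
          _ = _ := by ring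
      refine (sum_le_sum k1).trans ?_
      rw [sum_const, Nat.card_Ioc, nsmul_eq_mul, Nat.cast_sub h12])
    (by
      intro y hy
      beta_reduce
      have k1 := hmsF (fun b => if b ≤ y then F b else 0) (fun b hb => by
        beta_reduce
        split_ifs
        · exact hF b hb
        · rw [norm_zero]
          linarith)
      refine le_trans (le_of_eq ?_) k1
      rw [sum_filter, sum_filter]
      symm
      refine sum_subset_zero_on_sdiff (Icc_subset_Icc le_rfl (by omega)) ?_ ?_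
      · intro n hn
        rw [Finset.mem_sdiff, mem_Icc, mem_Icc] at hn
        rw [if_neg (by omega : ¬ n ≤ N)]
        simp
      · intro n hn
        rw [mem_Icc] at hn
        rw [if_pos hn.2]
        have : (n ≡ x [MOD q]) ↔ ((n : ZMod q) = (x : ZMod q)) := (ZMod.natCast_eq_natCast_iff n x q).symm
        rw [if_congr this rfl rfl])
  unfold Few
  refine le_trans (le_of_eq ?_) hgrid
  congr 2
  ext n
  rw [mem_filter, mem_filter]
  rfl

end Pool.Agent.J4H40
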