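import Pool.Agent.J4H40.Km

set_option autoImplicit false

/-! Shifts. -/

namespace Pool.Agent.J4H40

open Finset Filter

/-- the sums over the windows for the shift `u - N` -/
def WinF (N : ℕ) (F : ℕ → ℂ) (K : ℕ → ℝ) (e : ℝ) (u : ℕ) : Prop :=
  ∀ y₁ y₂ : ℕ, Win N u y₁ y₂ → ‖∑ m ∈ Ioc y₁ y₂, F m * ((K (m + u - N) : ℝ) : ℂ)‖ ≤ e

lemma winF_of {N u W : ℕ} {F : ℕ → ℂ} {K : ℕ → ℝ} (h : GoodK (3 * N) (R1 F N) K W (u + 1)) :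
    WinF N F K (2 * ((3 * N : ℕ) / Real.log (3 * N : ℕ) ^ W)) u := by
  rintro y₁ y₂ ⟨w1, w2, w3⟩
  have h1 := h (N - y₁) (by omega)
  have h2 := h (N - y₂) (by omega)
  have e1 := sum_R1 F (fun n => ((K n : ℝ) : ℂ)) (u := u) w2 w3
  rw [← e1]
  have e2 : ∑ b ∈ Ioc (N - y₂) (N - y₁), R1 F N b * ((K (u + 1 - b) : ℝ) : ℂ) =
      ∑ b ∈ Icc 1 (N - y₁), R1 F N b * ((K (u + 1 - b) : ℝ) : ℂ) -
      ∑ b ∈ Icc 1 (N - y₂), R1 F N b * ((K (u + 1 - b) : ℝ) : ℂ) := by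
    have hI : ∀ y : ℕ, Icc 1 y = Ioc 0 y := fun y => by
      ext b
      rw [mem_Icc, mem_Ioc]
      omega
    rw [hI, hI, ← sum_Ioc_consecutive _ (Nat.zero_le (N - y₂)) (show N - y₂ ≤ N - y₁ by omega)]
    ring
  rw [e2]
  refine (norm_sub_le _ _).trans ?_
  linarith

theorem shK {ρ κ σ w : ℝ} {f : ℕ → ℝ} (hκ : 0 < κ) (hσ : 0 < σ) (hσ1 : σ ≤ 1 / 2) (hσρ : 8 * σ < 3 * ρ)
    (hms : ∀ ρ' : ℝ, 0 < ρ' → ρ' < ρ → 8 * σ < 3 * ρ' → ∀ A, MSq ρ' (κ / 2) σ A f w) (hf1 : ∀ n, |f n| ≤ 1) (hw : |w| ≤ 1)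
    (V : ℕ) : ∃ c : ℕ, ∀ A₀ : ℕ, ∃ N₀ : ℕ, ∀ N : ℕ, N₀ ≤ N → ∀ a : ℕ → ℝ, Co N κ σ a →
      (∀ m ∈ Icc 1 (3 * N), ∑ d ∈ m.divisors, |a d| ≤ Real.log N) →
      ∃ D : Finset ℕ, (D.card : ℝ) ≤ Real.log N ^ c ∧ (∀ d ∈ D, Real.log N ^ A₀ < (d : ℝ)) ∧
      ∀ F : ℕ → ℂ, (∀ b ∈ Icc 1 N, ‖F b‖ ≤ Real.log N) → ∀ q : ℕ, 1 ≤ q →
      (q : ℝ) ≤ (N : ℝ) ^ (1 - ρ) → (∀ d ∈ D, ¬ d ∣ q) → ∀ b : ℤ,
        Few6 N q b V (WinF N F (fun m => gA a f m - w * Vd N a) (N / Real.log N ^ V)) := by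
  obtain ⟨ρ', hρ'⟩ : ∃ ρ', ρ' = (8 * σ / 3 + ρ) / 2 := ⟨_, rfl⟩
  have r1 : 8 * σ < 3 * ρ' := by rw [hρ']; linarith
  have r2 : ρ' < ρ := by rw [hρ']; linarith
  obtain ⟨W, hW⟩ : ∃ W, W = V + 2 := ⟨_, rfl⟩
  obtain ⟨k, hk⟩ := fewK (hms ρ' (by linarith) r2 r1) hf1 hw W
  refine ⟨2 * k, fun A₀ => ?_⟩
  obtain ⟨N₂, h2⟩ := hk A₀
  obtain ⟨N₃, h3⟩ := scale3
  obtain ⟨N₅, h5⟩ := qscale1 (e := 1 - ρ) (e' := 1 - ρ') (by linarith)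
  refine ⟨N₂ + N₃ + N₅ + 3, fun N hN a ha hab => ?_⟩
  obtain ⟨l1, l2, l3⟩ := h3 N (by omega)
  have hN0 : (0 : ℝ) < N := by exact_mod_cast (by omega : 0 < N)
  obtain ⟨D, hD1, hD2, hD⟩ := h2 (3 * N) (by omega) a (co3 hκ hσ (by omega) ha) (fun m hm => (hab m hm).trans l2)
  have hl0 : 0 < Real.log N := by linarith
  have hL0 : 0 < Real.log (3 * N : ℕ) := by linarith
  refine ⟨D, ?_, ?_, ?_⟩
  · refine hD1.trans ?_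
    calc Real.log (3 * N : ℕ) ^ k ≤ (Real.log N ^ 2) ^ k := by
          apply pow_le_pow_left₀ hL0.le
          nlinarith
      _ = Real.log N ^ (2 * k) := by rw [← pow_mul]
  · intro d hd
    exact lt_of_le_of_lt (pow_le_pow_left₀ hl0.le l2 _) (hD2 d hd)
  · intro F hF q hq hqN hqD b
    obtain ⟨x, hx⟩ := class1 N q hq b
    have herr : ((3 * N : ℕ) : ℝ) / Real.log (3 * N : ℕ) ^ W ≤ N / Real.log N ^ V / 2 := by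
      obtain ⟨L, hL⟩ : ∃ L, L = Real.log (3 * N : ℕ) := ⟨_, rfl⟩
      obtain ⟨l, hld⟩ : ∃ l, l = Real.log (N : ℝ) := ⟨_, rfl⟩
      rw [← hL, ← hld] at l2
      rw [← hld] at l1 hl0
      have hL00 : 0 < L := by linarith
      rw [← hL, ← hld, div_div, div_le_div_iff₀ (by positivity) (by positivity)]
      push_cast
      have k1 : l ^ V * 6 ≤ L ^ W := by
        calc l ^ V * 6 ≤ l ^ V * l := by
              gcongr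
              linarith
          _ = l ^ (V + 1) := by ring
          _ ≤ L ^ (V + 1) := pow_le_pow_left₀ hl0.le l2 _
          _ ≤ L ^ W := pow_le_pow_right₀ (by linarith) (by omega)
      nlinarith
    have hF' : ∀ m ∈ Icc 1 N, ‖F m‖ ≤ Real.log (3 * N : ℕ) := fun m hm => (hF m hm).trans l2
    have hx1 := hD (R1 F N) (fun b _ => R1_norm hL0.le hF' b) q hq (h5 N (by omega) q hq hqN) hqD x
    refine few1 (V := W) (by omega) (by linarith) l2 hq hx ?_ hx1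
    intro u hu hG y₁ y₂ hw
    have := winF_of hG y₁ y₂ hw
    rw [vd3 hσ1 (by omega) ha] at this
    refine this.trans ?_
    linarith

end Pool.Agent.J4H40
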