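import Pool.Agent.J4H40.Wh

set_option autoImplicit false

/-! Sums of a prime and a product of two primes, one of them small. -/

namespace Pool.Agent.J4H40

open Finset Filter
open Pool.Agent.R460.GS (vm_le la la_nn one_le_sing)
open Pool.Agent.H560R3.GB (sing HL)
open Pool.Agent.Y883.T4 (class_le)

/-- the theorem of Mertens: a lower bound -/
lemma mert_low {κ σ M : ℝ} (hκ : 0 < κ) (hσ : 0 < σ) (h : M + 1 ≤ Real.log (σ / κ)) (hκσ : κ < σ) (hσ1 : σ ≤ 1) :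
    ∃ N₀ : ℕ, ∀ N : ℕ, N₀ ≤ N → M ≤ Vd N (pc N κ σ) := by
  classical
  obtain ⟨C, hC0, hC⟩ := Pool.Agent.Helper923.HMertens.mertens_ratio
  obtain ⟨n1, h1⟩ := Pool.Agent.R462.GS.evL ((4 * (C + 1) + 4) / κ + 8 / σ)
  refine ⟨n1 + 1, fun N hN => ?_⟩
  have hL := h1 N (by omega)
  have hN0 : (0 : ℝ) < N := by exact_mod_cast (by omega : 0 < N)
  have hNr1 : (1 : ℝ) ≤ N := by exact_mod_cast (by omega : 1 ≤ N)
  obtain ⟨L, hLd⟩ : ∃ L, L = Real.log (N : ℝ) := ⟨_, rfl⟩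
  rw [← hLd] at hL
  have hk1 : 0 < (4 * (C + 1) + 4) / κ := by positivity
  have hk2 : 0 < 8 / σ := by positivity
  have hL0 : 0 < L := by linarith
  have hκL : 4 * (C + 1) + 4 ≤ κ * L := by
    have : (4 * (C + 1) + 4) / κ ≤ L := by linarith
    rw [div_le_iff₀ hκ] at this
    linarith
  have hσL : 8 ≤ σ * L := by
    have : 8 / σ ≤ L := by linarith
    rw [div_le_iff₀ hσ] at this
    linarith
  obtain ⟨a, ha⟩ : ∃ a, a = ⌊(N : ℝ) ^ κ⌋₊ := ⟨_, rfl⟩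
  obtain ⟨b, hb⟩ : ∃ b, b = ⌊(N : ℝ) ^ σ⌋₊ := ⟨_, rfl⟩
  have hNκ : (N : ℝ) ^ κ = Real.exp (κ * L) := by
    rw [hLd, Real.rpow_def_of_pos hN0, mul_comm]
  have hNσ : (N : ℝ) ^ σ = Real.exp (σ * L) := by
    rw [hLd, Real.rpow_def_of_pos hN0, mul_comm]
  have ha2 : 2 ≤ a := by
    rw [ha]
    apply Nat.le_floor
    rw [hNκ]
    have := Real.add_one_le_exp (κ * L)
    push_cast
    linarith
  have hab : a ≤ b := by
    rw [ha, hb]
    exact Nat.floor_le_floor (Real.rpow_le_rpow_of_exponent_le hNr1 hκσ.le)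
  have hb2 : 2 ≤ b := ha2.trans hab
  have hm := (abs_le.1 (hC a b ha2 hab)).1
  have hset : Vd N (pc N κ σ) = ∑ p ∈ (Ioc a b).filter Nat.Prime, (1 : ℝ) / p := by
    unfold Vd
    have e1 : ∀ m ∈ Icc 1 N, pc N κ σ m / m = if m ∈ (Ioc a b).filter Nat.Prime then (1 : ℝ) / m else 0 := by
      intro m _
      unfold pc
      have e2 : (m.Prime ∧ (N : ℝ) ^ κ < m ∧ (m : ℝ) ≤ (N : ℝ) ^ σ) ↔ m ∈ (Ioc a b).filter Nat.Prime := by
        rw [mem_filter, mem_Ioc, ha, hb, Nat.floor_lt (by positivity), Nat.le_floor_iff (by positivity)]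
        tauto
      by_cases h0 : m ∈ (Ioc a b).filter Nat.Prime
      · rw [if_pos h0, if_pos (e2.2 h0)]
      · rw [if_neg h0, if_neg (fun h' => h0 (e2.1 h')), zero_div]
    rw [sum_congr rfl e1, ← sum_filter]
    congr 1
    ext m
    rw [mem_filter, mem_Icc]
    constructor
    · exact fun h => h.2
    · intro h
      refine ⟨?_, h⟩
      rw [mem_filter, mem_Ioc] at h
      refine ⟨h.2.one_lt.le, ?_⟩
      have h3 : (b : ℝ) ≤ N := by
        rw [hb]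
        refine (Nat.floor_le (by positivity)).trans ?_
        calc (N : ℝ) ^ σ ≤ (N : ℝ) ^ (1 : ℝ) := Real.rpow_le_rpow_of_exponent_le hNr1 hσ1
          _ = N := Real.rpow_one _
      have h4 : b ≤ N := by exact_mod_cast h3
      omega
  rw [hset]
  -- the logarithms
  have la1 : Real.log a ≤ κ * L := by
    have h5 : (a : ℝ) ≤ Real.exp (κ * L) := by
      rw [← hNκ, ha]
      exact Nat.floor_le (by positivity)
    rw [← Real.log_exp (κ * L)]
    exact Real.log_le_log (by exact_mod_cast (by omega : 0 < a)) h5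
  have la2 : κ * L - 1 ≤ Real.log a := by
    have h5 : Real.exp (κ * L) / 2 ≤ a := by
      have h6 : (N : ℝ) ^ κ < (a : ℝ) + 1 := by rw [ha]; exact Nat.lt_floor_add_one _
      rw [hNκ] at h6
      have h7 : (2 : ℝ) ≤ a := by exact_mod_cast ha2
      linarith
    have h6 := Real.log_le_log (by positivity) h5
    rw [Real.log_div (Real.exp_pos _).ne' (by norm_num), Real.log_exp] at h6
    have := Real.log_two_lt_d9
    linarith
  have lb : σ * L - 1 ≤ Real.log b := by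
    have h5 : Real.exp (σ * L) / 2 ≤ b := by
      have h6 : (N : ℝ) ^ σ < (b : ℝ) + 1 := by rw [hb]; exact Nat.lt_floor_add_one _
      rw [hNσ] at h6
      have h7 : (2 : ℝ) ≤ b := by exact_mod_cast hb2
      linarith
    have h6 := Real.log_le_log (by positivity) h5
    rw [Real.log_div (Real.exp_pos _).ne' (by norm_num), Real.log_exp] at h6
    have := Real.log_two_lt_d9
    linarith
  have la0 : 0 < Real.log a := by linarith
  have e3 : C / Real.log a ≤ 1 / 4 := by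
    rw [div_le_iff₀ la0]
    linarith
  have e4 : Real.log (σ / κ) - 1 / 4 ≤ Real.log (Real.log b / Real.log a) := by
    have f1 : (σ / κ) * (7 / 8) ≤ Real.log b / Real.log a := by
      rw [le_div_iff₀ la0]
      have f2 : (σ / κ) * (7 / 8) * Real.log a ≤ (σ / κ) * (7 / 8) * (κ * L) := by gcongr
      have f3 : (σ / κ) * (7 / 8) * (κ * L) = 7 / 8 * (σ * L) := by
        field_simp
      linarith
    have f4 := Real.log_le_log (by positivity) f1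
    rw [Real.log_mul (by positivity) (by norm_num)] at f4
    have f5 : -(1 / 4) ≤ Real.log (7 / 8 : ℝ) := by
      have := Real.one_sub_inv_le_log_of_pos (show (0 : ℝ) < 7 / 8 by norm_num)
      norm_num at this
      linarith
    linarith
  linarith

open Classical in
/-- almost all even integers in every class are the sum of a prime and a product of two primes in many ways -/
theorem chenMain {ρ : ℝ} (hρ : 0 < ρ) (M A T : ℕ) :
    ∃ N₀ : ℕ, ∀ N : ℕ, N₀ ≤ N → ∀ q : ℕ, 1 ≤ q →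
      (q : ℝ) ≤ (N : ℝ) ^ (1 - ρ) → ∀ a : ℕ, (Nat.gcd a q : ℝ) ≤ Real.log N ^ T →
        (({n ∈ Icc 1 N | 2 ∣ n ∧ n ≡ a [MOD q] ∧ ¬ ((M : ℝ) * HL n ≤ chen ρ n)}.card : ℕ) : ℝ) ≤
          (N : ℝ) / (q * Real.log N ^ A) := by
  obtain ⟨σ, hσd⟩ : ∃ σ : ℝ, σ = min ρ (1 / 2) / 2 := ⟨_, rfl⟩
  have hmin : 0 < min ρ (1 / 2) := lt_min hρ (by norm_num)
  have hσ0 : 0 < σ := by rw [hσd]; linarith
  have hσρ : 2 * σ ≤ ρ := by rw [hσd]; linarith [min_le_left ρ (1 / 2)]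
  have hσ4 : σ ≤ 1 / 4 := by rw [hσd]; linarith [min_le_right ρ (1 / 2)]
  obtain ⟨κ, hκd⟩ : ∃ κ : ℝ, κ = σ * Real.exp (-((M : ℝ) + 2 + 1)) := ⟨_, rfl⟩
  have hκ0 : 0 < κ := by rw [hκd]; positivity
  have hM0 : (0 : ℝ) ≤ M := Nat.cast_nonneg _
  have hκσ : κ < σ := by
    rw [hκd]
    have : Real.exp (-((M : ℝ) + 2 + 1)) < 1 := by
      rw [Real.exp_lt_one_iff]
      linarith
    nlinarith
  have hlogκ : (M : ℝ) + 2 + 1 ≤ Real.log (σ / κ) := by
    have e : σ / κ = Real.exp ((M : ℝ) + 2 + 1) := by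
      rw [hκd, Real.exp_neg]
      field_simp
    rw [e, Real.log_exp]
  obtain ⟨N₁, h1⟩ := mert_low hκ0 hσ0 hlogκ hκσ (by linarith)
  obtain ⟨N₂, h2⟩ := mainC hκ0 hσ0 (ρ := ρ) (by linarith) (by linarith) (2 * A + 4) T
  obtain ⟨N₃, h3⟩ := Pool.Agent.R462.GS.evL (1000 * (M + 3))
  obtain ⟨N₄, h4⟩ := Pool.Agent.R462.GS.evlog (A + 6) 1000 (1 / 8) (by norm_num)
  obtain ⟨N₅, h5⟩ := Pool.Agent.R462.GS.evlog (A + 6) 1 (min ρ (1 / 2)) hmin
  refine ⟨N₁ + N₂ + N₃ + N₄ + N₅ + 3, fun N hN q hq1 hqN a ha => ?_⟩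
  have hV := h1 N (by omega)
  have hmain := h2 N (by omega) (pc N κ σ) (pc_co N κ σ) q hq1 hqN a ha
  have hL := h3 N (by omega)
  have hp1 := h4 N (by omega)
  have hp2 := h5 N (by omega)
  have hN1 : 1 ≤ N := by omega
  have hN0 : (0 : ℝ) < N := by exact_mod_cast hN1
  have hN1r : (1 : ℝ) ≤ N := by exact_mod_cast hN1
  have hq0 : (0 : ℝ) < q := by exact_mod_cast hq1
  have hRC := fun (n : ℕ) (hn : n ≤ N) (hn1 : 1 ≤ n) (h : (N : ℝ) ^ σ ≤ (n : ℝ) ^ ρ) (hL1 : 1 ≤ Real.log N) =>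
    RC_chen (κ := κ) hn hn1 h hL1
  obtain ⟨G, hG⟩ : ∃ G : ℕ → Prop, G = GoodN N (pc N κ σ) (2 * A + 4) := ⟨_, rfl⟩
  have hGd : ∀ n, G n → ∀ y : ℕ, y < n →
      |RC (pc N κ σ) n y - sing n * Vd N (pc N κ σ) * y| ≤ N / Real.log N ^ (2 * A + 4) := by
    intro n h
    rw [hG] at h
    exact h
  rw [← hG] at hmain
  obtain ⟨L, hLd⟩ : ∃ L, L = Real.log (N : ℝ) := ⟨_, rfl⟩
  rw [← hLd] at hmain hL hp1 hp2 hRC hGd ⊢
  have hL1000 : 1000 ≤ L := by linarith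
  have hL0 : 0 < L := by linarith
  have hL1 : 1 ≤ L := by linarith
  -- large good integers are fine
  have hgood : ∀ n : ℕ, n ≤ N → (N : ℝ) / L ^ (A + 1) ≤ n → G n → (M : ℝ) * HL n ≤ chen ρ n := by
    intro n hn hnN hGn
    have hn0 : (0 : ℝ) < n := lt_of_lt_of_le (by positivity) hnN
    have hn1 : 1 ≤ n := by exact_mod_cast hn0
    have hnr : (n : ℝ) ≤ N := by exact_mod_cast hn
    have hq8 : L ^ (A + 1) ≤ (N : ℝ) ^ (1 / 8 : ℝ) := by
      calc L ^ (A + 1) ≤ L ^ (A + 6) := pow_le_pow_right₀ hL1 (by omega)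
        _ ≤ 1000 * L ^ (A + 6) := by
            have : 0 ≤ L ^ (A + 6) := by positivity
            linarith
        _ ≤ _ := hp1
    have hn78 : (N : ℝ) ^ (7 / 8 : ℝ) ≤ n := by
      refine le_trans ?_ hnN
      rw [le_div_iff₀ (by positivity)]
      calc (N : ℝ) ^ (7 / 8 : ℝ) * L ^ (A + 1) ≤ (N : ℝ) ^ (7 / 8 : ℝ) * (N : ℝ) ^ (1 / 8 : ℝ) := by gcongr
        _ = N := by
            rw [← Real.rpow_add hN0]
            norm_num
    have hσn : (N : ℝ) ^ σ ≤ (n : ℝ) ^ ρ := by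
      calc (N : ℝ) ^ σ ≤ (N : ℝ) ^ (7 / 8 * ρ) := Real.rpow_le_rpow_of_exponent_le hN1r (by linarith)
        _ = ((N : ℝ) ^ (7 / 8 : ℝ)) ^ ρ := by rw [← Real.rpow_mul hN0.le]
        _ ≤ (n : ℝ) ^ ρ := Real.rpow_le_rpow (by positivity) hn78 hρ.le
    have hr := hRC n hn hn1 hσn hL1
    have hg := (abs_le.1 (hGd n hGn (n - 1) (by omega))).1
    have hS := one_le_sing n
    obtain ⟨S, hSd⟩ : ∃ S, S = sing n := ⟨_, rfl⟩
    rw [← hSd] at hS hg
    have hlogn0 : 0 < Real.log n := by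
      have h6 : Real.log ((N : ℝ) ^ (7 / 8 : ℝ)) ≤ Real.log n := Real.log_le_log (by positivity) hn78
      rw [Real.log_rpow hN0, ← hLd] at h6
      linarith
    have hcast : (((n - 1 : ℕ)) : ℝ) = (n : ℝ) - 1 := by
      rw [Nat.cast_sub hn1, Nat.cast_one]
    rw [hcast] at hg
    -- sizes
    have s1 : (N : ℝ) / L ^ (2 * A + 4) ≤ n / 1000 := by
      have k1 : (N : ℝ) / L ^ (2 * A + 4) = N / L ^ (A + 1) / L ^ (A + 3) := by
        rw [div_div, ← pow_add]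
        congr 2
        ring
      rw [k1]
      calc (N : ℝ) / L ^ (A + 1) / L ^ (A + 3) ≤ n / L ^ (A + 3) := by gcongr
        _ ≤ n / 1000 := by
            apply div_le_div_of_nonneg_left hn0.le (by norm_num)
            calc (1000 : ℝ) ≤ L ^ 1 := by rw [pow_one]; exact hL1000
              _ ≤ L ^ (A + 3) := pow_le_pow_right₀ hL1 (by omega)
    have s2 : 3 * L ^ 2 * (2 * √(N : ℝ) * ((N : ℝ) ^ σ + 1)) ≤ n / 50 := by
      have k1 : (1 : ℝ) ≤ (N : ℝ) ^ σ := Real.one_le_rpow hN1r hσ0.le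
      have k2 : (N : ℝ) ^ σ ≤ (N : ℝ) ^ (1 / 4 : ℝ) := Real.rpow_le_rpow_of_exponent_le hN1r hσ4
      have k3 : L ^ 2 * 1000 ≤ (N : ℝ) ^ (1 / 8 : ℝ) := by
        calc L ^ 2 * 1000 ≤ L ^ (A + 6) * 1000 := by
              have : L ^ 2 ≤ L ^ (A + 6) := pow_le_pow_right₀ hL1 (by omega)
              linarith
          _ = 1000 * L ^ (A + 6) := by ring
          _ ≤ _ := hp1
      rw [Real.sqrt_eq_rpow]
      calc 3 * L ^ 2 * (2 * (N : ℝ) ^ (1 / 2 : ℝ) * ((N : ℝ) ^ σ + 1)) ≤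
            3 * L ^ 2 * (2 * (N : ℝ) ^ (1 / 2 : ℝ) * (2 * (N : ℝ) ^ (1 / 4 : ℝ))) := by
            have : (N : ℝ) ^ σ + 1 ≤ 2 * (N : ℝ) ^ (1 / 4 : ℝ) := by linarith
            gcongr
        _ = (L ^ 2 * 1000) * ((N : ℝ) ^ (1 / 2 : ℝ) * (N : ℝ) ^ (1 / 4 : ℝ)) * (12 / 1000) := by ring
        _ ≤ (N : ℝ) ^ (1 / 8 : ℝ) * ((N : ℝ) ^ (1 / 2 : ℝ) * (N : ℝ) ^ (1 / 4 : ℝ)) * (12 / 1000) := by gcongr
        _ = (N : ℝ) ^ (7 / 8 : ℝ) * (12 / 1000) := by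
            rw [← Real.rpow_add hN0, ← Real.rpow_add hN0]
            norm_num
        _ ≤ n * (12 / 1000) := by gcongr
        _ ≤ n / 50 := by linarith
    have s3 : (1000 : ℝ) * (M + 3) ≤ n := by
      have k1 : L ^ 1 ≤ (N : ℝ) ^ (1 / 8 : ℝ) := (pow_le_pow_right₀ hL1 (by omega)).trans hq8
      rw [pow_one] at k1
      have k2 : (N : ℝ) ^ (1 / 8 : ℝ) ≤ (N : ℝ) ^ (7 / 8 : ℝ) := Real.rpow_le_rpow_of_exponent_le hN1r (by norm_num)
      linarith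
    have s4 : ((M : ℝ) + 2) * (S * ((n : ℝ) - 1)) ≤ S * Vd N (pc N κ σ) * ((n : ℝ) - 1) := by
      have k1 : 0 ≤ S * ((n : ℝ) - 1) := by
        have : (1 : ℝ) ≤ n := by exact_mod_cast hn1
        have h7 : 0 ≤ (n : ℝ) - 1 := by linarith
        have h8 : 0 ≤ S := by linarith
        positivity
      have := mul_le_mul_of_nonneg_right hV k1
      linarith
    have hfin : (M : ℝ) * (S * n) ≤ Real.log n ^ 2 * chen ρ n := by
      have k1 : (M : ℝ) * (S * n) + S * (2 * n - (M + 2)) = (M + 2) * (S * (n - 1)) := by ring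
      have k2 : n ≤ 2 * (n : ℝ) - (M + 2) := by linarith
      have k3 : (n : ℝ) ≤ S * (2 * n - (M + 2)) := by nlinarith
      linarith
    unfold HL
    rw [← hSd]
    have h9 : 0 < Real.log n ^ 2 := by positivity
    have h10 : (M : ℝ) * (S * (n / Real.log n ^ 2)) = (M * (S * n)) / Real.log n ^ 2 := by ring
    rw [h10, div_le_iff₀ h9]
    linarith
  -- counting
  have hqs : (q : ℝ) * L ^ (A + 1) ≤ N := by
    have e2 : L ^ (A + 1) ≤ (N : ℝ) ^ (min ρ (1 / 2)) := by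
      calc L ^ (A + 1) ≤ L ^ (A + 6) := pow_le_pow_right₀ hL1 (by omega)
        _ = 1 * L ^ (A + 6) := (one_mul _).symm
        _ ≤ _ := hp2
    calc (q : ℝ) * L ^ (A + 1) ≤ (N : ℝ) ^ (1 - ρ) * (N : ℝ) ^ (min ρ (1 / 2)) := by gcongr
      _ = (N : ℝ) ^ (1 - ρ + min ρ (1 / 2)) := by rw [← Real.rpow_add hN0]
      _ ≤ (N : ℝ) ^ (1 : ℝ) := Real.rpow_le_rpow_of_exponent_le hN1r (by linarith [min_le_left ρ (1 / 2)])
      _ = N := Real.rpow_one _
  have hone : (1 : ℝ) ≤ N / (q * L ^ (A + 1)) := by rw [_root_.one_le_div (by positivity)]; exact hqs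
  obtain ⟨S1, hS1⟩ : ∃ S1 : Finset ℕ, S1 = {n ∈ Icc 1 N | n % q = a % q ∧ (n : ℝ) ≤ N / L ^ (A + 1)} := ⟨_, rfl⟩
  obtain ⟨S2, hS2⟩ : ∃ S2 : Finset ℕ, S2 = {n ∈ Icc 1 N | 2 ∣ n ∧ n ≡ a [MOD q] ∧ ¬ G n} := ⟨_, rfl⟩
  rw [← hS2] at hmain
  have hS1c : (S1.card : ℝ) ≤ 2 * (N / (q * L ^ (A + 1))) := by
    have h3 := class_le N q a hq1 S1 (N / L ^ (A + 1)) (by positivity) (by
      intro n hn
      rw [hS1, mem_filter] at hn
      exact hn.2)
    have e1 : (N : ℝ) / L ^ (A + 1) / q = N / (q * L ^ (A + 1)) := by rw [div_div, mul_comm]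
    rw [e1] at h3
    linarith
  have hsub : {n ∈ Icc 1 N | 2 ∣ n ∧ n ≡ a [MOD q] ∧ ¬ ((M : ℝ) * HL n ≤ chen ρ n)} ⊆ S1 ∪ S2 := by
    intro n hn
    rw [mem_filter] at hn
    obtain ⟨b1, b2, b3, b4⟩ := hn
    rw [mem_union]
    by_cases k : (n : ℝ) ≤ N / L ^ (A + 1)
    · left
      rw [hS1, mem_filter]
      exact ⟨b1, b3, k⟩
    · right
      rw [hS2, mem_filter]
      exact ⟨b1, b2, b3, fun hGn => b4 (hgood n (mem_Icc.1 b1).2 (not_le.1 k).le hGn)⟩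
  have hcard : (({n ∈ Icc 1 N | 2 ∣ n ∧ n ≡ a [MOD q] ∧ ¬ ((M : ℝ) * HL n ≤ chen ρ n)}.card : ℕ) : ℝ) ≤
      (S1.card : ℝ) + S2.card := by
    exact_mod_cast (card_le_card hsub).trans (card_union_le _ _)
  refine hcard.trans ?_
  have h6 : 0 ≤ (N : ℝ) / (q * L ^ A) := by positivity
  have h4 : (N : ℝ) / (q * L ^ (A + 1)) = N / (q * L ^ A) / L := by
    rw [pow_succ, ← mul_assoc, ← div_div]
  have h7 : (N : ℝ) / (q * L ^ A) / L ≤ N / (q * L ^ A) / 1000 := div_le_div_of_nonneg_left h6 (by norm_num) hL1000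
  have h8 : (N : ℝ) / (q * L ^ (2 * A + 4)) ≤ N / (q * L ^ (A + 1)) := by
    apply div_le_div_of_nonneg_left hN0.le (by positivity)
    apply mul_le_mul_of_nonneg_left _ hq0.le
    exact pow_le_pow_right₀ hL1 (by omega)
  rw [h4] at hS1c h8
  linarith

end Pool.Agent.J4H40
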