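import Pool.Agent.J4H40.Kn
import Pool.Agent.J4H40.Wi

set_option autoImplicit false

/-! The number of prime factors between `N ^ κ` and `N ^ σ`, arbitrary weights. -/

namespace Pool.Agent.J4H40

open Finset Filter

open Classical in
/-- the primes between `N ^ κ` and `N ^ σ` -/
noncomputable def PP (N : ℕ) (κ σ : ℝ) : Finset ℕ :=
  (Icc 1 N).filter (fun p : ℕ => p.Prime ∧ (N : ℝ) ^ κ < p ∧ (p : ℝ) ≤ (N : ℝ) ^ σ)

lemma mem_PP {N : ℕ} {κ σ : ℝ} (hN : 1 ≤ N) (hσ : σ ≤ 1) {p : ℕ} :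
    p ∈ PP N κ σ ↔ p.Prime ∧ (N : ℝ) ^ κ < p ∧ (p : ℝ) ≤ (N : ℝ) ^ σ := by
  unfold PP
  rw [mem_filter, mem_Icc]
  constructor
  · rintro ⟨-, h⟩
    exact h
  · intro h
    refine ⟨⟨h.1.one_lt.le, ?_⟩, h⟩
    have hNr : (1 : ℝ) ≤ N := by exact_mod_cast hN
    have h1 : (p : ℝ) ≤ N := by
      refine h.2.2.trans ?_
      calc (N : ℝ) ^ σ ≤ (N : ℝ) ^ (1 : ℝ) := Real.rpow_le_rpow_of_exponent_le hNr hσ
        _ = N := Real.rpow_one _
    exact_mod_cast h1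

/-- the number of the prime factors in `P` -/
noncomputable def om (P : Finset ℕ) (t : ℕ) : ℝ := ((P.filter (fun p => p ∣ t)).card : ℝ)

lemma pc_mem {N : ℕ} {κ σ : ℝ} (hN : 1 ≤ N) (hσ : σ ≤ 1) (m : ℕ) :
    pc N κ σ m = if m ∈ PP N κ σ then 1 else 0 := by
  unfold pc
  rw [if_congr (mem_PP hN hσ).symm rfl rfl]

lemma sum_div_ite {t : ℕ} (ht : 1 ≤ t) (P : Finset ℕ) (g : ℕ → ℝ) :
    ∑ d ∈ t.divisors, (if d ∈ P then 1 else 0) * g d = ∑ p ∈ P.filter (fun p => p ∣ t), g p := by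
  have h1 : ∑ d ∈ t.divisors, (if d ∈ P then 1 else 0) * g d = ∑ d ∈ t.divisors.filter (fun d => d ∈ P), g d := by
    rw [sum_filter]
    refine sum_congr rfl fun d _ => ?_
    split_ifs
    · rw [one_mul]
    · rw [zero_mul]
  rw [h1]
  apply sum_congr _ fun _ _ => rfl
  ext d
  rw [mem_filter, mem_filter, Nat.mem_divisors]
  constructor
  · rintro ⟨⟨h1, -⟩, h2⟩
    exact ⟨h2, h1⟩
  · rintro ⟨h1, h2⟩
    exact ⟨⟨h2, by omega⟩, h1⟩

lemma om_eq {N t : ℕ} {κ σ : ℝ} (hN : 1 ≤ N) (hσ : σ ≤ 1) (ht : 1 ≤ t) :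
    gA (pc N κ σ) (fun _ => 1) t = om (PP N κ σ) t := by
  unfold gA om
  rw [sum_congr rfl (fun d _ => by rw [pc_mem hN hσ]), sum_div_ite ht (PP N κ σ) (fun _ => 1), sum_const,
    nsmul_eq_mul, mul_one]

lemma Vd_PP {N : ℕ} {κ σ : ℝ} (hN : 1 ≤ N) (hσ : σ ≤ 1) : Vd N (pc N κ σ) = ∑ p ∈ PP N κ σ, 1 / (p : ℝ) := by
  classical
  unfold Vd
  have h1 : PP N κ σ = (Icc 1 N).filter (fun p => p ∈ PP N κ σ) := by
    ext p
    rw [mem_filter]
    constructor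
    · intro h
      refine ⟨?_, h⟩
      unfold PP at h
      rw [mem_filter] at h
      exact h.1
    · exact fun h => h.2
  conv_rhs => rw [h1]
  rw [sum_filter]
  refine sum_congr rfl fun m _ => ?_
  rw [pc_mem hN hσ]
  split_ifs
  · rfl
  · rw [zero_div]

/-- the products of two different primes -/
noncomputable def p2 (N : ℕ) (κ σ : ℝ) (m : ℕ) : ℝ :=
  1 / 2 * (((PP N κ σ).offDiag.filter (fun x => x.1 * x.2 = m)).card : ℝ)

lemma p2_eq {N t : ℕ} {κ σ : ℝ} (hN : 1 ≤ N) (hσ : σ ≤ 1) (ht : 1 ≤ t) :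
    gA (p2 N κ σ) (fun _ => 1) t = (om (PP N κ σ) t ^ 2 - om (PP N κ σ) t) / 2 := by
  obtain ⟨P, hP⟩ : ∃ P, P = PP N κ σ := ⟨_, rfl⟩
  have hpr : ∀ p ∈ P, p.Prime := by
    intro p hp
    rw [hP] at hp
    exact ((mem_PP hN hσ).1 hp).1
  unfold gA p2
  rw [← hP]
  have h1 : ∑ d ∈ t.divisors, 1 / 2 * ((P.offDiag.filter (fun x => x.1 * x.2 = d)).card : ℝ) * 1 =
      1 / 2 * ((P.filter (fun p => p ∣ t)).offDiag.card : ℝ) := by
    have h2 : (P.filter (fun p => p ∣ t)).offDiag = P.offDiag.filter (fun x => x.1 * x.2 ∈ t.divisors) := by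
      ext x
      rw [mem_filter, mem_offDiag, mem_offDiag, mem_filter, mem_filter, Nat.mem_divisors]
      constructor
      · rintro ⟨⟨a1, a2⟩, ⟨a3, a4⟩, a5⟩
        refine ⟨⟨a1, a3, a5⟩, ?_, by omega⟩
        exact Nat.Coprime.mul_dvd_of_dvd_of_dvd ((Nat.coprime_primes (hpr _ a1) (hpr _ a3)).2 a5) a2 a4
      · rintro ⟨⟨a1, a3, a5⟩, a2, -⟩
        exact ⟨⟨a1, (Dvd.intro _ rfl).trans a2⟩, ⟨a3, (Dvd.intro_left _ rfl).trans a2⟩, a5⟩
    rw [h2]
    have h3 : ((P.offDiag.filter (fun x => x.1 * x.2 ∈ t.divisors)).card : ℝ) =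
        ∑ d ∈ t.divisors, ((P.offDiag.filter (fun x => x.1 * x.2 = d)).card : ℝ) := by
      have h4 := card_eq_sum_card_fiberwise (s := P.offDiag.filter (fun x => x.1 * x.2 ∈ t.divisors)) (t := t.divisors)
        (f := fun x => x.1 * x.2) (by
          intro x hx
          rw [mem_coe, mem_filter] at hx
          exact hx.2)
      rw [h4]
      push_cast
      refine sum_congr rfl fun d hd => ?_
      congr 2
      rw [filter_filter]
      refine filter_congr fun x _ => ?_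
      constructor
      · exact fun h => h.2
      · intro h
        exact ⟨by rw [h]; exact hd, h⟩
    rw [h3, mul_sum]
    refine sum_congr rfl fun d _ => ?_
    ring
  rw [h1, offDiag_card]
  unfold om
  rw [Nat.cast_sub (by nlinarith [Nat.zero_le (P.filter (fun p => p ∣ t)).card, Nat.le_mul_self (P.filter (fun p => p ∣ t)).card])]
  push_cast
  ring

lemma p2_nn (N : ℕ) (κ σ : ℝ) (m : ℕ) : 0 ≤ p2 N κ σ m := by
  unfold p2
  positivity

lemma p2_co {N : ℕ} {κ σ : ℝ} (hN : 1 ≤ N) (hκ : 0 < κ) (hσ : σ ≤ 1) : Co N κ (2 * σ) (p2 N κ σ) := by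
  have hN0 : (0 : ℝ) < N := by exact_mod_cast hN
  have hNr : (1 : ℝ) ≤ N := by exact_mod_cast hN
  have hκ1 : (1 : ℝ) ≤ (N : ℝ) ^ κ := Real.one_le_rpow hNr hκ.le
  refine ⟨fun m => ?_, fun m hm => ?_⟩
  · rw [abs_of_nonneg (p2_nn _ _ _ _)]
    unfold p2
    have h1 : ((PP N κ σ).offDiag.filter (fun x => x.1 * x.2 = m)).card ≤ 2 := by
      rcases ((PP N κ σ).offDiag.filter (fun x => x.1 * x.2 = m)).eq_empty_or_nonempty with h0 | ⟨x, hx⟩
      · rw [h0, card_empty]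
        omega
      · rw [mem_filter, mem_offDiag, mem_PP hN hσ, mem_PP hN hσ] at hx
        obtain ⟨⟨⟨a1, -⟩, ⟨a2, -⟩, a3⟩, a4⟩ := hx
        have hcard : m.primeFactors.card ≤ 2 := by
          rw [← a4, Nat.primeFactors_mul a1.ne_zero a2.ne_zero, a1.primeFactors, a2.primeFactors]
          exact (card_union_le _ _).trans (by rw [card_singleton, card_singleton])
        refine le_trans (card_le_card_of_injOn (fun x : ℕ × ℕ => x.1) ?_ ?_) hcard
        · intro y hy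
          rw [mem_coe, mem_filter, mem_offDiag, mem_PP hN hσ, mem_PP hN hσ] at hy
          obtain ⟨⟨⟨b1, -⟩, ⟨b2, -⟩, b3⟩, b4⟩ := hy
          rw [mem_coe, Nat.mem_primeFactors]
          refine ⟨b1, Dvd.intro _ b4, ?_⟩
          rw [← b4]
          exact Nat.mul_ne_zero b1.ne_zero b2.ne_zero
        · intro y hy y' hy' he
          rw [mem_coe, mem_filter, mem_offDiag, mem_PP hN hσ, mem_PP hN hσ] at hy hy'
          obtain ⟨⟨⟨b1, -⟩, ⟨b2, -⟩, b3⟩, b4⟩ := hy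
          obtain ⟨⟨⟨c1, -⟩, ⟨c2, -⟩, c3⟩, c4⟩ := hy'
          simp only at he
          have h5 : y.1 * y.2 = y.1 * y'.2 := by
            rw [b4, he, c4]
          have h6 := Nat.eq_of_mul_eq_mul_left b1.pos h5
          exact Prod.ext he h6
    have h2 : (((PP N κ σ).offDiag.filter (fun x => x.1 * x.2 = m)).card : ℝ) ≤ 2 := by exact_mod_cast h1
    linarith
  · unfold p2 at hm
    have h1 : ((PP N κ σ).offDiag.filter (fun x => x.1 * x.2 = m)).Nonempty := by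
      rw [nonempty_iff_ne_empty]
      intro h0
      apply hm
      rw [h0, card_empty]
      simp
    obtain ⟨x, hx⟩ := h1
    rw [mem_filter, mem_offDiag, mem_PP hN hσ, mem_PP hN hσ] at hx
    obtain ⟨⟨⟨a1, a5, a6⟩, ⟨a2, a7, a8⟩, a3⟩, a4⟩ := hx
    have hx1 : (1 : ℝ) ≤ x.1 := by exact_mod_cast a1.one_lt.le
    have hx2 : (1 : ℝ) ≤ x.2 := by exact_mod_cast a2.one_lt.le
    refine ⟨?_, ?_, ?_⟩
    · rw [← a4]
      push_cast
      nlinarith
    · rw [← a4]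
      push_cast
      calc (x.1 : ℝ) * x.2 ≤ (N : ℝ) ^ σ * (N : ℝ) ^ σ := by gcongr
        _ = (N : ℝ) ^ (2 * σ) := by
            rw [← Real.rpow_add hN0]
            congr 1
            ring
    · intro p hp
      rw [← a4, Nat.primeFactors_mul a1.ne_zero a2.ne_zero, a1.primeFactors, a2.primeFactors, mem_union,
        mem_singleton, mem_singleton] at hp
      rcases hp with rfl | rfl
      · exact a5
      · exact a7

lemma Vd_p2 {N : ℕ} {κ σ : ℝ} (hN : 1 ≤ N) (hσ : σ ≤ 1) : 2 * Vd N (p2 N κ σ) ≤ Vd N (pc N κ σ) ^ 2 := by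
  rw [Vd_PP hN hσ]
  obtain ⟨P, hP⟩ : ∃ P, P = PP N κ σ := ⟨_, rfl⟩
  have hpr : ∀ p ∈ P, p.Prime := by
    intro p hp
    rw [hP] at hp
    exact ((mem_PP hN hσ).1 hp).1
  unfold Vd p2
  rw [← hP]
  have h1 : 2 * ∑ m ∈ Icc 1 N, 1 / 2 * ((P.offDiag.filter (fun x => x.1 * x.2 = m)).card : ℝ) / m =
      ∑ m ∈ Icc 1 N, ∑ x ∈ P.offDiag.filter (fun x => x.1 * x.2 = m), 1 / ((x.1 : ℝ) * x.2) := by
    rw [mul_sum]
    refine sum_congr rfl fun m _ => ?_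
    have h2 : ∑ x ∈ P.offDiag.filter (fun x => x.1 * x.2 = m), 1 / ((x.1 : ℝ) * x.2) =
        ∑ x ∈ P.offDiag.filter (fun x => x.1 * x.2 = m), 1 / (m : ℝ) := by
      refine sum_congr rfl fun x hx => ?_
      rw [mem_filter] at hx
      rw [← hx.2]
      push_cast
      rfl
    rw [h2, sum_const, nsmul_eq_mul]
    ring
  rw [h1]
  have h3 : ∑ m ∈ Icc 1 N, ∑ x ∈ P.offDiag.filter (fun x => x.1 * x.2 = m), 1 / ((x.1 : ℝ) * x.2) ≤
      ∑ x ∈ P.offDiag, 1 / ((x.1 : ℝ) * x.2) := by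
    have e1 : ∀ m ∈ Icc 1 N, ∑ x ∈ P.offDiag.filter (fun x => x.1 * x.2 = m), 1 / ((x.1 : ℝ) * x.2) =
        ∑ x ∈ P.offDiag, if x.1 * x.2 = m then 1 / ((x.1 : ℝ) * x.2) else 0 := fun m _ => sum_filter _ _
    rw [sum_congr rfl e1, sum_comm]
    refine sum_le_sum fun x _ => ?_
    rw [sum_ite_eq]
    split_ifs
    · exact le_rfl
    · positivity
  have h4 : ∑ x ∈ P.offDiag, 1 / ((x.1 : ℝ) * x.2) ≤ ∑ x ∈ P ×ˢ P, 1 / ((x.1 : ℝ) * x.2) := by
    refine sum_le_sum_of_subset_of_nonneg (fun x hx => ?_) fun _ _ _ => by positivity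
    rw [mem_offDiag] at hx
    rw [mem_product]
    exact ⟨hx.1, hx.2.1⟩
  have h5 : ∑ x ∈ P ×ˢ P, 1 / ((x.1 : ℝ) * x.2) = (∑ p ∈ P, 1 / (p : ℝ)) ^ 2 := by
    rw [sum_product, sq, sum_mul_sum]
    refine sum_congr rfl fun p _ => sum_congr rfl fun p' _ => ?_
    rw [one_div_mul_one_div]
  linarith

/-- the number of the prime factors is bounded -/
lemma omP_le {N t : ℕ} {κ σ : ℝ} (hN : 3 ≤ N) (hκ : 0 < κ) (hσ : σ ≤ 1) (ht : t ∈ Icc 1 (3 * N)) :
    om (PP N κ σ) t ≤ 2 / κ := by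
  rw [mem_Icc] at ht
  have hN0 : (0 : ℝ) < N := by exact_mod_cast (by omega : 0 < N)
  have hN1 : (1 : ℝ) < N := by exact_mod_cast (by omega : 1 < N)
  obtain ⟨S, hS⟩ : ∃ S, S = (PP N κ σ).filter (fun p => p ∣ t) := ⟨_, rfl⟩
  have hmem : ∀ p ∈ S, p.Prime ∧ (N : ℝ) ^ κ < p ∧ p ∣ t := by
    intro p hp
    rw [hS, mem_filter, mem_PP (by omega) hσ] at hp
    exact ⟨hp.1.1, hp.1.2.1, hp.2⟩
  have h1 : ∏ p ∈ S, p ∣ t := Finset.prod_primes_dvd t (fun p hp => (hmem p hp).1.prime) fun p hp => (hmem p hp).2.2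
  have h2 : ∏ p ∈ S, p ≤ t := Nat.le_of_dvd (by omega) h1
  have h3 : ((N : ℝ) ^ κ) ^ S.card ≤ ∏ p ∈ S, (p : ℝ) := by
    rw [← prod_const]
    exact prod_le_prod (fun _ _ => by positivity) fun p hp => (hmem p hp).2.1.le
  have h4 : ∏ p ∈ S, (p : ℝ) ≤ (N : ℝ) ^ (2 : ℝ) := by
    have h5 : ((∏ p ∈ S, p : ℕ) : ℝ) ≤ ((N * N : ℕ) : ℝ) := by
      exact_mod_cast h2.trans (ht.2.trans (Nat.mul_le_mul_right N hN))
    push_cast at h5
    rw [Real.rpow_two, sq]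
    exact h5
  have h5 : (N : ℝ) ^ (κ * S.card) ≤ (N : ℝ) ^ (2 : ℝ) := by
    rw [Real.rpow_mul hN0.le, Real.rpow_natCast]
    exact h3.trans h4
  have h6 := (Real.rpow_le_rpow_left_iff hN1).1 h5
  unfold om
  rw [← hS, le_div_iff₀ hκ, mul_comm]
  exact h6

/-- the number of the primes in `P` whose square divides `t` -/
noncomputable def sq2 (P : Finset ℕ) (t : ℕ) : ℝ := ((P.filter (fun p => p ^ 2 ∣ t)).card : ℝ)

lemma om_f {N t : ℕ} {κ σ : ℝ} {f : ℕ → ℝ} (hN : 1 ≤ N) (hσ : σ ≤ 1) (ht : 1 ≤ t) (hf1 : ∀ n, |f n| ≤ 1)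
    (hf : ∀ m k : ℕ, m.Coprime k → f (m * k) = f m * f k) :
    |om (PP N κ σ) t * f t - gA (fun m => pc N κ σ m * f m) f t| ≤ 2 * sq2 (PP N κ σ) t := by
  obtain ⟨P, hP⟩ : ∃ P, P = PP N κ σ := ⟨_, rfl⟩
  have hpr : ∀ p ∈ P, p.Prime := by
    intro p hp
    rw [hP] at hp
    exact ((mem_PP hN hσ).1 hp).1
  have h1 : gA (fun m => pc N κ σ m * f m) f t = ∑ p ∈ P.filter (fun p => p ∣ t), f p * f (t / p) := by
    unfold gA
    rw [← sum_div_ite ht P (fun d => f d * f (t / d))]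
    refine sum_congr rfl fun d _ => ?_
    beta_reduce
    rw [pc_mem hN hσ, hP]
    ring
  have h2 : om P t * f t = ∑ p ∈ P.filter (fun p => p ∣ t), f t := by
    unfold om
    rw [sum_const, nsmul_eq_mul]
  rw [← hP, h1, h2, ← sum_sub_distrib]
  have h3 : ∀ p ∈ P.filter (fun p => p ∣ t), |f t - f p * f (t / p)| ≤ if p ^ 2 ∣ t then 2 else 0 := by
    intro p hp
    rw [mem_filter] at hp
    have hpp := hpr p hp.1
    split_ifs with h
    · have k1 := hf1 t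
      have k2 : |f p * f (t / p)| ≤ 1 := by
        rw [abs_mul]
        have := hf1 p
        have := hf1 (t / p)
        nlinarith [abs_nonneg (f p), abs_nonneg (f (t / p))]
      have k3 := abs_sub (f t) (f p * f (t / p))
      linarith
    · have hcop : p.Coprime (t / p) := by
        rw [Nat.Prime.coprime_iff_not_dvd hpp]
        intro hd
        apply h
        rw [sq]
        obtain ⟨k, hk⟩ := hd
        refine ⟨k, ?_⟩
        rw [mul_assoc, ← hk, Nat.mul_div_cancel' hp.2]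
      have e : f t = f p * f (t / p) := by
        rw [← hf _ _ hcop, Nat.mul_div_cancel' hp.2]
      rw [e, sub_self, abs_zero]
  refine (abs_sum_le_sum_abs _ _).trans ((sum_le_sum h3).trans ?_)
  rw [← sum_filter, sum_const, nsmul_eq_mul, mul_comm]
  unfold sq2
  apply mul_le_mul_of_nonneg_left _ (by norm_num)
  exact_mod_cast card_le_card fun p hp => by
    rw [mem_filter, mem_filter] at hp
    rw [mem_filter]
    exact ⟨hp.1.1, hp.2⟩

lemma sq2_sum {N : ℕ} {κ σ : ℝ} (hN : 1 ≤ N) (hσ : σ ≤ 1) :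
    ∑ t ∈ Icc 1 (3 * N), sq2 (PP N κ σ) t ≤ 3 * (N / (N : ℝ) ^ κ) * Vd N (pc N κ σ) := by
  have hN0 : (0 : ℝ) < N := by exact_mod_cast hN
  rw [Vd_PP hN hσ]
  obtain ⟨P, hP⟩ : ∃ P, P = PP N κ σ := ⟨_, rfl⟩
  rw [← hP]
  have h1 : ∀ t ∈ Icc 1 (3 * N), sq2 P t = ∑ p ∈ P, if p ^ 2 ∣ t then (1 : ℝ) else 0 := by
    intro t _
    unfold sq2
    rw [← sum_filter, sum_const, nsmul_eq_mul, mul_one]
  rw [sum_congr rfl h1, sum_comm, mul_sum]
  refine sum_le_sum fun p hp => ?_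
  rw [hP, mem_PP hN hσ] at hp
  have hp0 : (0 : ℝ) < p := by exact_mod_cast hp.1.pos
  rw [← sum_filter, sum_const, nsmul_eq_mul, mul_one]
  have h2 : ((Icc 1 (3 * N)).filter (fun n => p ^ 2 ∣ n)).card = 3 * N / p ^ 2 := by
    have e1 : Icc 1 (3 * N) = Ioc 0 (3 * N) := by
      ext b
      simp only [mem_Icc, mem_Ioc]
      omega
    rw [e1]
    exact Nat.Ioc_filter_dvd_card_eq_div (3 * N) (p ^ 2)
  rw [h2]
  have hκ0 : 0 < (N : ℝ) ^ κ := by positivity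
  calc ((3 * N / p ^ 2 : ℕ) : ℝ) ≤ ((3 * N : ℕ) : ℝ) / ((p ^ 2 : ℕ) : ℝ) := Nat.cast_div_le
    _ = 3 * N / (p * p) := by
        push_cast
        rw [sq]
    _ ≤ 3 * N / ((N : ℝ) ^ κ * p) := by
        have := hp.2.1.le
        gcongr
    _ = _ := by
        field_simp

end Pool.Agent.J4H40
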