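import Pool.Agent.J4H40.Ko

set_option autoImplicit false

/-! The correlation of arbitrary weights with a multiplicative function, shifts in all classes of regular moduli. -/

namespace Pool.Agent.J4H40

open Finset Filter

lemma few6_three {N q A : ℕ} {a : ℤ} {P Q R S : ℕ → Prop} (hL : 3 ≤ Real.log N) (hq : 1 ≤ q)
    (hP : Few6 N q a (A + 1) P) (hQ : Few6 N q a (A + 1) Q) (hR : Few6 N q a (A + 1) R)
    (h : ∀ u, u ≤ 2 * N → P u → Q u → R u → S u) : Few6 N q a A S := by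
  classical
  unfold Few6 at *
  have hN0 : (0 : ℝ) ≤ N := Nat.cast_nonneg _
  have hq0 : (0 : ℝ) < q := by exact_mod_cast hq
  have hsub : (Icc (-(N : ℤ)) N).filter (fun t => t ≡ a [ZMOD q] ∧ ¬ S (t + N).toNat) ⊆
      ((Icc (-(N : ℤ)) N).filter (fun t => t ≡ a [ZMOD q] ∧ ¬ P (t + N).toNat) ∪
      (Icc (-(N : ℤ)) N).filter (fun t => t ≡ a [ZMOD q] ∧ ¬ Q (t + N).toNat)) ∪
      (Icc (-(N : ℤ)) N).filter (fun t => t ≡ a [ZMOD q] ∧ ¬ R (t + N).toNat) := by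
    intro t ht
    rw [mem_filter, mem_Icc] at ht
    obtain ⟨h1, h2, h3⟩ := ht
    rw [mem_union, mem_union, mem_filter, mem_filter, mem_filter, mem_Icc]
    by_cases k1 : P (t + N).toNat
    · by_cases k2 : Q (t + N).toNat
      · by_cases k3 : R (t + N).toNat
        · exact absurd (h _ (by omega) k1 k2 k3) h3
        · exact Or.inr ⟨h1, h2, k3⟩
      · exact Or.inl (Or.inr ⟨h1, h2, k2⟩)
    · exact Or.inl (Or.inl ⟨h1, h2, k1⟩)
  have hc : (((Icc (-(N : ℤ)) N).filter (fun t => t ≡ a [ZMOD q] ∧ ¬ S (t + N).toNat)).card : ℝ) ≤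
      (((Icc (-(N : ℤ)) N).filter (fun t => t ≡ a [ZMOD q] ∧ ¬ P (t + N).toNat)).card : ℝ) +
      (((Icc (-(N : ℤ)) N).filter (fun t => t ≡ a [ZMOD q] ∧ ¬ Q (t + N).toNat)).card : ℝ) +
      (((Icc (-(N : ℤ)) N).filter (fun t => t ≡ a [ZMOD q] ∧ ¬ R (t + N).toNat)).card : ℝ) := by
    exact_mod_cast (card_le_card hsub).trans ((card_union_le _ _).trans (Nat.add_le_add_right (card_union_le _ _) _))
  have hfin : 3 * ((N : ℝ) / (q * Real.log N ^ (A + 1))) ≤ N / (q * Real.log N ^ A) := by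
    have hL0 : 0 < Real.log N := by linarith
    have e : 3 * ((N : ℝ) / (q * Real.log N ^ (A + 1))) = N / (q * Real.log N ^ A) * (3 / Real.log N) := by
      rw [pow_succ]
      field_simp
    rw [e]
    calc (N : ℝ) / (q * Real.log N ^ A) * (3 / Real.log N) ≤ N / (q * Real.log N ^ A) * 1 := by
          apply mul_le_mul_of_nonneg_left _ (by positivity)
          rw [div_le_one hL0]
          exact hL
      _ = _ := mul_one _
  have hP' : (((Icc (-(N : ℤ)) N).filter (fun t => t ≡ a [ZMOD q] ∧ ¬ P (t + N).toNat)).card : ℝ) ≤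
      N / (q * Real.log N ^ (A + 1)) := by
    refine le_trans (le_of_eq ?_) hP
    congr 2
  have hQ' : (((Icc (-(N : ℤ)) N).filter (fun t => t ≡ a [ZMOD q] ∧ ¬ Q (t + N).toNat)).card : ℝ) ≤
      N / (q * Real.log N ^ (A + 1)) := by
    refine le_trans (le_of_eq ?_) hQ
    congr 2
  have hR' : (((Icc (-(N : ℤ)) N).filter (fun t => t ≡ a [ZMOD q] ∧ ¬ R (t + N).toNat)).card : ℝ) ≤
      N / (q * Real.log N ^ (A + 1)) := by
    refine le_trans (le_of_eq ?_) hR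
    congr 2
  have hS' : (((Icc (-(N : ℤ)) N).filter (fun t => t ≡ a [ZMOD q] ∧ ¬ S (t + N).toNat)).card : ℝ) ≤
      N / (q * Real.log N ^ A) := by linarith
  refine le_trans (le_of_eq ?_) hS'
  congr 2

/-- from complex to real sums -/
lemma win_real {F : ℕ → ℂ} {K : ℕ → ℝ} {s : Finset ℕ} {T : ℕ → ℕ} {e : ℝ}
    (h : ‖∑ m ∈ s, (((‖F m‖ : ℝ) : ℂ)) * ((K (T m) : ℝ) : ℂ)‖ ≤ e) : |∑ m ∈ s, ‖F m‖ * K (T m)| ≤ e := by
  have e1 : ∑ m ∈ s, (((‖F m‖ : ℝ) : ℂ)) * ((K (T m) : ℝ) : ℂ) = ((∑ m ∈ s, ‖F m‖ * K (T m) : ℝ) : ℂ) := by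
    push_cast
    rfl
  rw [e1, Complex.norm_real, Real.norm_eq_abs] at h
  exact h

/-- the Turán–Kubilius argument for one shift -/
lemma tk_win {N u : ℕ} {κ σ ε e : ℝ} {f : ℕ → ℝ} {F : ℕ → ℂ} (hN : 3 ≤ N) (hσ : σ ≤ 1) (hε : 0 < ε)
    (hε1 : ε ≤ 1) (hu : u ≤ 2 * N) (hf1 : ∀ n, |f n| ≤ 1) (hf : ∀ m k : ℕ, m.Coprime k → f (m * k) = f m * f k)
    (hF : ∀ b ∈ Icc 1 N, ‖F b‖ ≤ Real.log N) (he : 0 ≤ e) (hV : 1 / ε ^ 2 ≤ Vd N (pc N κ σ))
    (h1 : WinF N F (fun m => gA (fun m => pc N κ σ m * f m) f m - 0 * Vd N (fun m => pc N κ σ m * f m)) e u)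
    (h2 : WinF N (fun m => ((‖F m‖ : ℝ) : ℂ)) (fun m => gA (pc N κ σ) (fun _ => 1) m - 1 * Vd N (pc N κ σ)) e u)
    (h3 : WinF N (fun m => ((‖F m‖ : ℝ) : ℂ)) (fun m => gA (p2 N κ σ) (fun _ => 1) m - 1 * Vd N (p2 N κ σ)) e u) :
    ∀ y₁ y₂ : ℕ, Win N u y₁ y₂ → ‖∑ m ∈ Ioc y₁ y₂, F m * ((f (m + u - N) : ℝ) : ℂ)‖ ≤
      ε * ∑ m ∈ Ioc y₁ y₂, ‖F m‖ + 4 * e + 6 * Real.log N * (N / (N : ℝ) ^ κ) := by
  intro y₁ y₂ hw
  have g1 := h1 y₁ y₂ hw
  have g2 := win_real (K := fun m => gA (pc N κ σ) (fun _ => 1) m - 1 * Vd N (pc N κ σ)) (T := fun m => m + u - N)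
    (h2 y₁ y₂ hw)
  have g3 := win_real (K := fun m => gA (p2 N κ σ) (fun _ => 1) m - 1 * Vd N (p2 N κ σ)) (T := fun m => m + u - N)
    (h3 y₁ y₂ hw)
  obtain ⟨w1, w2, w3⟩ := hw
  beta_reduce at g1 g2 g3
  obtain ⟨V, hVd⟩ : ∃ V, V = Vd N (pc N κ σ) := ⟨_, rfl⟩
  obtain ⟨V2, hV2⟩ : ∃ V2, V2 = Vd N (p2 N κ σ) := ⟨_, rfl⟩
  have hV2V := Vd_p2 (N := N) (κ := κ) (σ := σ) (by omega) hσ
  have hsq := sq2_sum (N := N) (κ := κ) (σ := σ) (by omega) hσ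
  rw [← hVd] at hV g2 hV2V hsq
  rw [← hV2] at hV2V g3
  obtain ⟨P, hP⟩ : ∃ P, P = PP N κ σ := ⟨_, rfl⟩
  have hT : ∀ m ∈ Ioc y₁ y₂, m + u - N ∈ Icc 1 (3 * N) := by
    intro m hm
    rw [mem_Ioc] at hm
    rw [mem_Icc]
    omega
  have hFm : ∀ m ∈ Ioc y₁ y₂, ‖F m‖ ≤ Real.log N := by
    intro m hm
    rw [mem_Ioc] at hm
    exact hF m (mem_Icc.2 ⟨by omega, by omega⟩)
  have hL0 : 0 ≤ Real.log N := Real.log_natCast_nonneg N
  have hN0 : (0 : ℝ) < N := by exact_mod_cast (by omega : 0 < N)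
  -- the sums
  obtain ⟨S, hS⟩ : ∃ S, S = ∑ m ∈ Ioc y₁ y₂, ‖F m‖ := ⟨_, rfl⟩
  have hS0 : 0 ≤ S := by rw [hS]; exact sum_nonneg fun _ _ => norm_nonneg _
  obtain ⟨ω, hω⟩ : ∃ ω : ℕ → ℝ, ω = fun m => om P (m + u - N) := ⟨_, rfl⟩
  have k1 : ∑ m ∈ Ioc y₁ y₂, ‖F m‖ * (gA (pc N κ σ) (fun _ => 1) (m + u - N) - 1 * V) =
      ∑ m ∈ Ioc y₁ y₂, ‖F m‖ * (ω m - V) := by
    refine sum_congr rfl fun m hm => ?_
    rw [om_eq (by omega) hσ (mem_Icc.1 (hT m hm)).1, hω, hP, one_mul]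
  have k2 : ∑ m ∈ Ioc y₁ y₂, ‖F m‖ * (gA (p2 N κ σ) (fun _ => 1) (m + u - N) - 1 * V2) =
      ∑ m ∈ Ioc y₁ y₂, ‖F m‖ * ((ω m ^ 2 - ω m) / 2 - V2) := by
    refine sum_congr rfl fun m hm => ?_
    rw [p2_eq (by omega) hσ (mem_Icc.1 (hT m hm)).1, hω, hP, one_mul]
  rw [k1] at g2
  rw [k2] at g3
  -- the variance
  have hV0 : 0 < V := lt_of_lt_of_le (by positivity) hV
  have hV1 : 1 ≤ V := by
    refine le_trans ?_ hV
    rw [le_div_iff₀ (by positivity), one_mul]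
    nlinarith
  obtain ⟨B, hB⟩ : ∃ B, B = ∑ m ∈ Ioc y₁ y₂, ‖F m‖ * (ω m - V) ^ 2 := ⟨_, rfl⟩
  have hB1 : B ≤ V * S + (3 + 2 * V) * e := by
    have e1 : B = 2 * ∑ m ∈ Ioc y₁ y₂, ‖F m‖ * ((ω m ^ 2 - ω m) / 2 - V2) +
        (1 - 2 * V) * ∑ m ∈ Ioc y₁ y₂, ‖F m‖ * (ω m - V) + (2 * V2 + V - V ^ 2) * S := by
      rw [hB, hS, mul_sum, mul_sum, mul_sum, ← sum_add_distrib, ← sum_add_distrib]
      refine sum_congr rfl fun m _ => ?_
      ring
    have e2 := (abs_le.1 g3).2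
    have e3 : (1 - 2 * V) * ∑ m ∈ Ioc y₁ y₂, ‖F m‖ * (ω m - V) ≤ (1 + 2 * V) * e := by
      have e4 := (abs_le.1 g2).1
      nlinarith
    have e5 : (2 * V2 + V - V ^ 2) * S ≤ V * S := mul_le_mul_of_nonneg_right (by linarith) hS0
    rw [e1]
    linarith
  -- the three parts
  have hdec : ((V : ℝ) : ℂ) * ∑ m ∈ Ioc y₁ y₂, F m * ((f (m + u - N) : ℝ) : ℂ) =
      ∑ m ∈ Ioc y₁ y₂, F m * (((V - ω m) * f (m + u - N) : ℝ) : ℂ) +
      ∑ m ∈ Ioc y₁ y₂, F m * ((gA (fun m => pc N κ σ m * f m) f (m + u - N) -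
        0 * Vd N (fun m => pc N κ σ m * f m) : ℝ) : ℂ) +
      ∑ m ∈ Ioc y₁ y₂, F m * ((ω m * f (m + u - N) - gA (fun m => pc N κ σ m * f m) f (m + u - N) : ℝ) : ℂ) := by
    rw [mul_sum, ← sum_add_distrib, ← sum_add_distrib]
    refine sum_congr rfl fun m _ => ?_
    push_cast
    ring
  have hp1 : ‖∑ m ∈ Ioc y₁ y₂, F m * (((V - ω m) * f (m + u - N) : ℝ) : ℂ)‖ ≤
      (ε * V * S + B / (ε * V)) / 2 := by
    have e1 : ∀ m ∈ Ioc y₁ y₂, ‖F m * (((V - ω m) * f (m + u - N) : ℝ) : ℂ)‖ ≤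
        (ε * V * ‖F m‖ + ‖F m‖ * (ω m - V) ^ 2 / (ε * V)) / 2 := by
      intro m _
      rw [norm_mul, Complex.norm_real, Real.norm_eq_abs, abs_mul]
      have j1 : |V - ω m| * |f (m + u - N)| ≤ |V - ω m| := by
        have := hf1 (m + u - N)
        nlinarith [abs_nonneg (V - ω m)]
      have j2 : |V - ω m| ≤ (ε * V + (ω m - V) ^ 2 / (ε * V)) / 2 := by
        have hεV : 0 < ε * V := by positivity
        have j3 : (ω m - V) ^ 2 = |V - ω m| ^ 2 := by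
          rw [sq_abs]
          ring
        rw [j3]
        have j4 : 0 ≤ (ε * V - |V - ω m|) ^ 2 / (ε * V) := by positivity
        have j5 : (ε * V - |V - ω m|) ^ 2 / (ε * V) = ε * V + |V - ω m| ^ 2 / (ε * V) - 2 * |V - ω m| := by
          field_simp
          ring
        rw [j5] at j4
        linarith
      calc ‖F m‖ * (|V - ω m| * |f (m + u - N)|) ≤ ‖F m‖ * ((ε * V + (ω m - V) ^ 2 / (ε * V)) / 2) :=
            mul_le_mul_of_nonneg_left (j1.trans j2) (norm_nonneg _)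
        _ = _ := by ring
    refine (norm_sum_le _ _).trans ((sum_le_sum e1).trans (le_of_eq ?_))
    rw [← sum_div, sum_add_distrib, ← mul_sum, ← sum_div, ← hS, ← hB]
  have hp3 : ‖∑ m ∈ Ioc y₁ y₂, F m * ((ω m * f (m + u - N) - gA (fun m => pc N κ σ m * f m) f (m + u - N) : ℝ) : ℂ)‖ ≤
      V * (6 * Real.log N * (N / (N : ℝ) ^ κ)) := by
    have e1 : ∀ m ∈ Ioc y₁ y₂, ‖F m * ((ω m * f (m + u - N) - gA (fun m => pc N κ σ m * f m) f (m + u - N) : ℝ) : ℂ)‖ ≤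
        Real.log N * (2 * sq2 P (m + u - N)) := by
      intro m hm
      rw [norm_mul, Complex.norm_real, Real.norm_eq_abs]
      have j1 := om_f (N := N) (κ := κ) (σ := σ) (by omega) hσ (mem_Icc.1 (hT m hm)).1 hf1 hf
      rw [← hP] at j1
      rw [hω]
      exact mul_le_mul (hFm m hm) j1 (abs_nonneg _) hL0
    refine (norm_sum_le _ _).trans ((sum_le_sum e1).trans ?_)
    rw [← mul_sum, ← mul_sum]
    have e2 : ∑ m ∈ Ioc y₁ y₂, sq2 P (m + u - N) ≤ ∑ t ∈ Icc 1 (3 * N), sq2 P t := by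
      have hinj : Set.InjOn (fun m => m + u - N) (Ioc y₁ y₂ : Finset ℕ) := by
        intro m hm m' hm' h
        rw [mem_coe, mem_Ioc] at hm hm'
        simp only at h
        omega
      rw [← sum_image (s := Ioc y₁ y₂) (g := fun m => m + u - N) (f := fun t => sq2 P t) hinj]
      refine sum_le_sum_of_subset_of_nonneg (fun t ht => ?_) fun t _ _ => ?_
      · rw [mem_image] at ht
        obtain ⟨m, hm, rfl⟩ := ht
        exact hT m hm
      · unfold sq2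
        exact Nat.cast_nonneg _
    rw [← hP] at hsq
    calc Real.log N * (2 * ∑ m ∈ Ioc y₁ y₂, sq2 P (m + u - N)) ≤
          Real.log N * (2 * (3 * (N / (N : ℝ) ^ κ) * V)) := by
          apply mul_le_mul_of_nonneg_left _ hL0
          linarith
      _ = _ := by ring
  obtain ⟨X, hX⟩ : ∃ X, X = ‖∑ m ∈ Ioc y₁ y₂, F m * ((f (m + u - N) : ℝ) : ℂ)‖ := ⟨_, rfl⟩
  obtain ⟨R, hR⟩ : ∃ R, R = 6 * Real.log N * (N / (N : ℝ) ^ κ) := ⟨_, rfl⟩
  rw [← hX, ← hS, ← hR]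
  rw [← hR] at hp3
  have hall : V * X ≤ (ε * V * S + B / (ε * V)) / 2 + e + V * R := by
    have e1 : V * X = ‖((V : ℝ) : ℂ) * ∑ m ∈ Ioc y₁ y₂, F m * ((f (m + u - N) : ℝ) : ℂ)‖ := by
      rw [norm_mul, Complex.norm_real, Real.norm_eq_abs, abs_of_pos hV0, hX]
    rw [e1, hdec]
    refine (norm_add_le _ _).trans (add_le_add ((norm_add_le _ _).trans (add_le_add hp1 g1)) hp3)
  have hεV : 1 / ε ≤ ε * V := by
    calc 1 / ε = ε * (1 / ε ^ 2) := by field_simp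
      _ ≤ ε * V := mul_le_mul_of_nonneg_left hV hε.le
  have hBd : B / (ε * V) ≤ ε * V * S + 5 * V * e := by
    have e1 : B / (ε * V) ≤ (V * S + (3 + 2 * V) * e) / (ε * V) := by
      apply div_le_div_of_nonneg_right hB1
      positivity
    have e2 : (V * S + (3 + 2 * V) * e) / (ε * V) ≤ (V * S + (5 * V) * e) / (ε * V) := by
      apply div_le_div_of_nonneg_right _ (by positivity)
      nlinarith
    have e3 : (V * S + (5 * V) * e) / (ε * V) = (S + 5 * e) * (1 / ε) := by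
      field_simp
    have e4 : (S + 5 * e) * (1 / ε) ≤ (S + 5 * e) * (ε * V) := mul_le_mul_of_nonneg_left hεV (by positivity)
    have e5 : (S + 5 * e) * (ε * V) ≤ ε * V * S + 5 * V * e := by
      have : ε * V * e ≤ V * e := by
        have : 0 ≤ V * e := by positivity
        nlinarith
      nlinarith
    linarith
  have hfin : V * X ≤ V * (ε * S + 4 * e + R) := by
    have e1 : e ≤ V * e := by nlinarith
    nlinarith
  exact le_of_mul_le_mul_left hfin hV0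

end Pool.Agent.J4H40
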