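import Pool.Agent.J4H40.Kp

set_option autoImplicit false

/-! The correlation of arbitrary weights with a multiplicative function which is small in progressions: the shifts in
all classes of the regular moduli up to `N ^ (1 - ρ)`. -/

namespace Pool.Agent.J4H40

open Finset Filter
open Pool.Agent.H373R2.T7 (muR muR_abs)

/-- the numerical conditions -/
lemma ev_fin (A : ℕ) {κ : ℝ} (hκ : 0 < κ) : ∃ N₀ : ℕ, ∀ N : ℕ, N₀ ≤ N → 3 ≤ N ∧ 100 ≤ Real.log N ∧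
    2 / κ ≤ Real.log N ∧ 4 / κ ^ 2 ≤ Real.log N ∧
    6 * Real.log N * (N / (N : ℝ) ^ κ) ≤ N / Real.log N ^ A / 2 := by
  obtain ⟨n1, h1⟩ := Pool.Agent.R462.GS.evL (100 + 2 / κ + 4 / κ ^ 2)
  obtain ⟨n2, h2⟩ := Pool.Agent.R462.GS.evlog (A + 1) 12 κ hκ
  refine ⟨n1 + n2 + 3, fun N hN => ?_⟩
  have a1 := h1 N (by omega)
  have a2 := h2 N (by omega)
  have b1 : 0 < 2 / κ := by positivity
  have b2 : 0 < 4 / κ ^ 2 := by positivity
  have hN0 : (0 : ℝ) < N := by exact_mod_cast (by omega : 0 < N)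
  have hL0 : 0 < Real.log N := by linarith
  refine ⟨by omega, by linarith, by linarith, by linarith, ?_⟩
  have hκ0 : 0 < (N : ℝ) ^ κ := by positivity
  have e : 6 * Real.log N * (N / (N : ℝ) ^ κ) = (N / Real.log N ^ A / 2) * ((12 * Real.log N ^ (A + 1)) / (N : ℝ) ^ κ) := by
    rw [pow_succ]
    field_simp
    ring
  rw [e]
  calc (N / Real.log N ^ A / 2) * ((12 * Real.log N ^ (A + 1)) / (N : ℝ) ^ κ) ≤ (N / Real.log N ^ A / 2) * 1 := by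
        apply mul_le_mul_of_nonneg_left _ (by positivity)
        rw [div_le_one hκ0]
        exact a2
    _ = _ := mul_one _

/-- the correlation with a multiplicative function, all shifts but few in every class of a regular modulus -/
theorem corrF {ρ ε : ℝ} (hρ : 0 < ρ) (hρ1 : ρ ≤ 1) (hε : 0 < ε) (hε1 : ε ≤ 1) {f : ℕ → ℝ} (hf1 : ∀ n, |f n| ≤ 1)
    (hf : SWr f) (hmul : ∀ m k : ℕ, m.Coprime k → f (m * k) = f m * f k) (A : ℕ) :
    ∃ k : ℕ, ∀ A₀ : ℕ, ∃ N₀ : ℕ, ∀ N : ℕ, N₀ ≤ N →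
      ∃ D : Finset ℕ, (D.card : ℝ) ≤ Real.log N ^ k ∧ (∀ d ∈ D, Real.log N ^ A₀ < (d : ℝ)) ∧
      ∀ F : ℕ → ℂ, (∀ b ∈ Icc 1 N, ‖F b‖ ≤ Real.log N) → ∀ q : ℕ, 1 ≤ q →
      (q : ℝ) ≤ (N : ℝ) ^ (1 - ρ) → (∀ d ∈ D, ¬ d ∣ q) → ∀ b : ℤ,
        Few6 N q b A (fun u => ∀ y₁ y₂ : ℕ, Win N u y₁ y₂ →
          ‖∑ m ∈ Ioc y₁ y₂, F m * ((f (m + u - N) : ℝ) : ℂ)‖ ≤
            ε * ∑ m ∈ Ioc y₁ y₂, ‖F m‖ + N / Real.log N ^ A) := by
  classical
  obtain ⟨σ, hσd⟩ : ∃ σ : ℝ, σ = ρ / 8 := ⟨_, rfl⟩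
  have hσ0 : 0 < σ := by rw [hσd]; linarith
  have hσ1 : σ ≤ 1 / 8 := by rw [hσd]; linarith
  obtain ⟨κ, hκd⟩ : ∃ κ : ℝ, κ = σ * Real.exp (-(1 / ε ^ 2 + 1)) := ⟨_, rfl⟩
  have hκ0 : 0 < κ := by rw [hκd]; positivity
  have hεp : 0 < 1 / ε ^ 2 := by positivity
  have hκσ : κ < σ := by
    rw [hκd]
    have : Real.exp (-(1 / ε ^ 2 + 1)) < 1 := by
      rw [Real.exp_lt_one_iff]
      linarith
    nlinarith
  have hlogκ : 1 / ε ^ 2 + 1 ≤ Real.log (σ / κ) := by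
    have e : σ / κ = Real.exp (1 / ε ^ 2 + 1) := by
      rw [hκd, Real.exp_neg]
      field_simp
    rw [e, Real.log_exp]
  obtain ⟨N₁, h1⟩ := mert_low hκ0 hσ0 hlogκ hκσ (by linarith)
  obtain ⟨k₁, s1⟩ := shK (ρ := ρ) (κ := κ) (σ := σ) (w := 0) (f := f) hκ0 hσ0 (by linarith) (by linarith)
    (fun ρ' hρ' hρ'' hσ' A => msq_f hρ' (by linarith) (by linarith) hσ0 hσ' A hf1 hf hmul) hf1 (by norm_num) (A + 2)
  obtain ⟨k₂, s2⟩ := shK (ρ := ρ) (κ := κ) (σ := σ) (w := 1) (f := fun _ => 1) hκ0 hσ0 (by linarith) (by linarith)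
    (fun ρ' hρ' hρ'' hσ' A => msq_one hρ' (by linarith) (by linarith) hσ0 hσ' A) (fun _ => by norm_num) (by norm_num) (A + 2)
  obtain ⟨k₃, s3⟩ := shK (ρ := ρ) (κ := κ) (σ := 2 * σ) (w := 1) (f := fun _ => 1) hκ0 (by linarith) (by linarith)
    (by linarith) (fun ρ' hρ' hρ'' hσ' A => msq_one hρ' (by linarith) (by linarith) (by linarith) hσ' A)
    (fun _ => by norm_num) (by norm_num) (A + 2)
  refine ⟨k₁ + k₂ + k₃ + 1, fun A₀ => ?_⟩
  obtain ⟨M₁, s1⟩ := s1 A₀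
  obtain ⟨M₂, s2⟩ := s2 A₀
  obtain ⟨M₃, s3⟩ := s3 A₀
  obtain ⟨N₂, h2⟩ := ev_fin A hκ0
  refine ⟨N₁ + N₂ + M₁ + M₂ + M₃, fun N hN => ?_⟩
  have hV := h1 N (by omega)
  obtain ⟨hN3, hL, hLκ, hLκ2, hsm⟩ := h2 N (by omega)
  have hL1 : 1 ≤ Real.log N := by linarith
  have hN0 : (0 : ℝ) < N := by exact_mod_cast (by omega : 0 < N)
  have hom0 : ∀ t, 0 ≤ om (PP N κ σ) t := fun t => by unfold om; exact Nat.cast_nonneg _
  have hom : ∀ t ∈ Icc 1 (3 * N), om (PP N κ σ) t ≤ 2 / κ := fun t ht => omP_le hN3 hκ0 (by linarith) ht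
  -- the coefficients
  have co1 : Co N κ σ (fun m => pc N κ σ m * f m) := by
    have hc := pc_co N κ σ
    refine ⟨fun m => ?_, fun m hm => hc.sup m (fun h => hm (by rw [h, zero_mul]))⟩
    rw [abs_mul]
    have := hc.le1 m
    have := hf1 m
    nlinarith [abs_nonneg (pc N κ σ m), abs_nonneg (f m)]
  have b2 : ∀ m ∈ Icc 1 (3 * N), ∑ d ∈ m.divisors, |pc N κ σ d| ≤ Real.log N := by
    intro m hm
    have e1 : ∑ d ∈ m.divisors, |pc N κ σ d| = om (PP N κ σ) m := by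
      rw [← om_eq (by omega) (by linarith) (mem_Icc.1 hm).1]
      unfold gA
      refine sum_congr rfl fun d _ => ?_
      rw [abs_of_nonneg (pc_nn _ _ _ _), mul_one]
    rw [e1]
    exact (hom m hm).trans hLκ
  have b1 : ∀ m ∈ Icc 1 (3 * N), ∑ d ∈ m.divisors, |pc N κ σ d * f d| ≤ Real.log N := by
    intro m hm
    refine le_trans (sum_le_sum fun d _ => ?_) (b2 m hm)
    rw [abs_mul]
    have := hf1 d
    nlinarith [abs_nonneg (pc N κ σ d), abs_nonneg (f d)]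
  have b3 : ∀ m ∈ Icc 1 (3 * N), ∑ d ∈ m.divisors, |p2 N κ σ d| ≤ Real.log N := by
    intro m hm
    have e1 : ∑ d ∈ m.divisors, |p2 N κ σ d| = (om (PP N κ σ) m ^ 2 - om (PP N κ σ) m) / 2 := by
      rw [← p2_eq (by omega) (by linarith) (mem_Icc.1 hm).1]
      unfold gA
      refine sum_congr rfl fun d _ => ?_
      rw [abs_of_nonneg (p2_nn _ _ _ _), mul_one]
    rw [e1]
    have k1 := hom m hm
    have k2 := hom0 m
    have k3 : om (PP N κ σ) m ^ 2 ≤ (2 / κ) ^ 2 := pow_le_pow_left₀ k2 k1 2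
    have k4 : (2 / κ) ^ 2 = 4 / κ ^ 2 := by
      rw [div_pow]
      norm_num
    rw [k4] at k3
    have k5 : 0 ≤ om (PP N κ σ) m ^ 2 := sq_nonneg _
    linarith
  obtain ⟨D₁, c1, d1, s1⟩ := s1 N (by omega) _ co1 b1
  obtain ⟨D₂, c2, d2, s2⟩ := s2 N (by omega) _ (pc_co N κ σ) b2
  obtain ⟨D₃, c3, d3, s3⟩ := s3 N (by omega) _ (p2_co (by omega) hκ0 (by linarith)) b3
  refine ⟨D₁ ∪ D₂ ∪ D₃, ?_, ?_, ?_⟩
  · have e1 : ((D₁ ∪ D₂ ∪ D₃).card : ℝ) ≤ (D₁.card : ℝ) + D₂.card + D₃.card := by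
      exact_mod_cast (card_union_le _ _).trans (Nat.add_le_add_right (card_union_le _ _) _)
    have e2 : ∀ k : ℕ, k ≤ k₁ + k₂ + k₃ → Real.log N ^ k ≤ Real.log N ^ (k₁ + k₂ + k₃) := fun k hk =>
      pow_le_pow_right₀ hL1 hk
    have f1 := e2 k₁ (by omega)
    have f2 := e2 k₂ (by omega)
    have f3 := e2 k₃ (by omega)
    have e3 : 0 ≤ Real.log N ^ (k₁ + k₂ + k₃) := by positivity
    rw [pow_succ]
    nlinarith
  · intro d hd
    rw [mem_union, mem_union] at hd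
    rcases hd with (hd | hd) | hd
    · exact d1 d hd
    · exact d2 d hd
    · exact d3 d hd
  · intro F hF q hq hqN hqD b
    have q1 : ∀ d ∈ D₁, ¬ d ∣ q := fun d hd => hqD d (mem_union_left _ (mem_union_left _ hd))
    have q2 : ∀ d ∈ D₂, ¬ d ∣ q := fun d hd => hqD d (mem_union_left _ (mem_union_right _ hd))
    have q3 : ∀ d ∈ D₃, ¬ d ∣ q := fun d hd => hqD d (mem_union_right _ hd)
    have hFn : ∀ b ∈ Icc 1 N, ‖((‖F b‖ : ℝ) : ℂ)‖ ≤ Real.log N := by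
      intro b hb
      rw [Complex.norm_real, norm_norm]
      exact hF b hb
    have t1 := s1 F hF q hq hqN q1 b
    have t2 := s2 (fun m => ((‖F m‖ : ℝ) : ℂ)) hFn q hq hqN q2 b
    have t3 := s3 (fun m => ((‖F m‖ : ℝ) : ℂ)) hFn q hq hqN q3 b
    have hmono : ∀ P : ℕ → Prop, Few6 N q b (A + 2) P → Few6 N q b (A + 1) P := by
      intro P hP
      unfold Few6 at hP ⊢
      refine hP.trans ?_
      have hq0 : (0 : ℝ) < q := by exact_mod_cast hq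
      have hLp : 0 < Real.log N := by linarith
      apply div_le_div_of_nonneg_left hN0.le (by positivity)
      apply mul_le_mul_of_nonneg_left _ hq0.le
      exact pow_le_pow_right₀ hL1 (by omega)
    refine few6_three (by linarith) hq (hmono _ t1) (hmono _ t2) (hmono _ t3) ?_
    intro u hu w1 w2 w3 y₁ y₂ hw
    have hfin := tk_win hN3 (by linarith) hε hε1 hu hf1 hmul hF (by positivity) hV w1 w2 w3 y₁ y₂ hw
    refine hfin.trans ?_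
    have e1 : 4 * ((N : ℝ) / Real.log N ^ (A + 2)) ≤ N / Real.log N ^ A / 2 := by
      have hLp : 0 < Real.log N := by linarith
      have e2 : 4 * ((N : ℝ) / Real.log N ^ (A + 2)) = (N / Real.log N ^ A / 2) * (8 / Real.log N ^ 2) := by
        rw [pow_add]
        field_simp
        ring
      rw [e2]
      calc (N : ℝ) / Real.log N ^ A / 2 * (8 / Real.log N ^ 2) ≤ N / Real.log N ^ A / 2 * 1 := by
            apply mul_le_mul_of_nonneg_left _ (by positivity)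
            rw [div_le_one (by positivity)]
            nlinarith
        _ = _ := mul_one _
    linarith

/-- the Möbius function -/
theorem corrMu {ρ ε : ℝ} (hρ : 0 < ρ) (hρ1 : ρ ≤ 1) (hε : 0 < ε) (hε1 : ε ≤ 1) (A : ℕ) :
    ∃ k : ℕ, ∀ A₀ : ℕ, ∃ N₀ : ℕ, ∀ N : ℕ, N₀ ≤ N →
      ∃ D : Finset ℕ, (D.card : ℝ) ≤ Real.log N ^ k ∧ (∀ d ∈ D, Real.log N ^ A₀ < (d : ℝ)) ∧
      ∀ F : ℕ → ℂ, (∀ b ∈ Icc 1 N, ‖F b‖ ≤ Real.log N) → ∀ q : ℕ, 1 ≤ q →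
      (q : ℝ) ≤ (N : ℝ) ^ (1 - ρ) → (∀ d ∈ D, ¬ d ∣ q) → ∀ b : ℤ,
        Few6 N q b A (fun u => ∀ y₁ y₂ : ℕ, Win N u y₁ y₂ →
          ‖∑ m ∈ Ioc y₁ y₂, F m * ((muR (m + u - N) : ℝ) : ℂ)‖ ≤
            ε * ∑ m ∈ Ioc y₁ y₂, ‖F m‖ + N / Real.log N ^ A) :=
  corrF hρ hρ1 hε hε1 muR_abs swr_mu muR_mul A

end Pool.Agent.J4H40
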