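import Pool.Agent.J4H40.Zj

set_option autoImplicit false

/-! Linear forms with arbitrary leading coefficients: the replacement of the factors one after another. -/

namespace Pool.Agent.J4H40

open Finset

/-- the factors with index `< j` are the true ones, the others are the models -/
def mxP {R : Type} [CommRing R] {k : ℕ} (ℓ μ : Fin k → ℕ → R) (w u : Fin k → ℕ) (N j n : ℕ) : R :=
  ∏ i : Fin k, if (i : ℕ) < j then ℓ i (w i * n + u i - N) else μ i (w i * n + u i - N)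

/-- the same without the factor with index `j` -/
def mxE {R : Type} [CommRing R] {k : ℕ} (ℓ μ : Fin k → ℕ → R) (w u : Fin k → ℕ) (N : ℕ) (j : Fin k) (n : ℕ) : R :=
  ∏ i ∈ univ.erase j, if (i : ℕ) < j then ℓ i (w i * n + u i - N) else μ i (w i * n + u i - N)

lemma mx_low {R : Type} [CommRing R] {k : ℕ} (ℓ μ : Fin k → ℕ → R) (w u : Fin k → ℕ) (N : ℕ) (j : Fin k) (n : ℕ) :
    mxP ℓ μ w u N j n = mxE ℓ μ w u N j n * μ j (w j * n + u j - N) := by
  unfold mxP mxE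
  rw [← mul_prod_erase univ _ (mem_univ j), if_neg (lt_irrefl _), mul_comm]

lemma mx_up {R : Type} [CommRing R] {k : ℕ} (ℓ μ : Fin k → ℕ → R) (w u : Fin k → ℕ) (N : ℕ) (j : Fin k) (n : ℕ) :
    mxP ℓ μ w u N (j + 1) n = mxE ℓ μ w u N j n * ℓ j (w j * n + u j - N) := by
  unfold mxP mxE
  rw [← mul_prod_erase univ _ (mem_univ j), if_pos (Nat.lt_succ_self _), mul_comm]
  congr 1
  refine prod_congr rfl fun i hi => ?_
  have hne : (i : ℕ) ≠ j := fun h => ne_of_mem_erase hi (Fin.ext h)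
  by_cases h : (i : ℕ) < j
  · rw [if_pos h, if_pos (by omega)]
  · rw [if_neg h, if_neg (by omega)]

lemma mx_zero {R : Type} [CommRing R] {k : ℕ} (ℓ μ : Fin k → ℕ → R) (w u : Fin k → ℕ) (N n : ℕ) :
    mxP ℓ μ w u N 0 n = ∏ i, μ i (w i * n + u i - N) := by
  unfold mxP
  refine prod_congr rfl fun i _ => ?_
  rw [if_neg (Nat.not_lt_zero _)]

lemma mx_all {R : Type} [CommRing R] {k : ℕ} (ℓ μ : Fin k → ℕ → R) (w u : Fin k → ℕ) (N n : ℕ) :
    mxP ℓ μ w u N k n = ∏ i, ℓ i (w i * n + u i - N) := by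
  unfold mxP
  refine prod_congr rfl fun i _ => ?_
  rw [if_pos i.2]

/-- the lower bound after the replacement of all factors -/
lemma tel_low {k : ℕ} (F : ℕ → ℝ) (ℓ μ : Fin k → ℕ → ℝ) (w u : Fin k → ℕ) (N : ℕ) (S : Finset ℕ) (β : Fin k → ℝ)
    {e : ℝ} (he : 0 ≤ e) (hβ0 : ∀ i, 0 ≤ β i) (hβ1 : ∀ i, β i ≤ 1)
    (h : ∀ j : Fin k, β j * ∑ n ∈ S, F n * mxE ℓ μ w u N j n * μ j (w j * n + u j - N) - e ≤
      ∑ n ∈ S, F n * mxE ℓ μ w u N j n * ℓ j (w j * n + u j - N)) :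
    (∏ i, β i) * ∑ n ∈ S, F n * ∏ i, μ i (w i * n + u i - N) - k * e ≤ ∑ n ∈ S, F n * ∏ i, ℓ i (w i * n + u i - N) := by
  have key : ∀ j : ℕ, j ≤ k → (∏ i : Fin k, if (i : ℕ) < j then β i else 1) * ∑ n ∈ S, F n * mxP ℓ μ w u N 0 n - j * e ≤
      ∑ n ∈ S, F n * mxP ℓ μ w u N j n := by
    intro j
    induction j with
    | zero =>
      intro _
      simp
    | succ j ih =>
      intro hj
      have ih' := ih (by omega)
      obtain ⟨jf, hjf⟩ : ∃ jf : Fin k, (jf : ℕ) = j := ⟨⟨j, by omega⟩, rfl⟩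
      have h1 := h jf
      have e1 : ∑ n ∈ S, F n * mxP ℓ μ w u N j n = ∑ n ∈ S, F n * mxE ℓ μ w u N jf n * μ jf (w jf * n + u jf - N) := by
        refine sum_congr rfl fun n _ => ?_
        rw [← hjf, mx_low, mul_assoc]
      have e2 : ∑ n ∈ S, F n * mxP ℓ μ w u N (j + 1) n = ∑ n ∈ S, F n * mxE ℓ μ w u N jf n * ℓ jf (w jf * n + u jf - N) := by
        refine sum_congr rfl fun n _ => ?_
        rw [← hjf, mx_up, mul_assoc]
      have e3 : (∏ i : Fin k, if (i : ℕ) < j + 1 then β i else 1) =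
          β jf * ∏ i : Fin k, if (i : ℕ) < j then β i else 1 := by
        rw [← mul_prod_erase univ _ (mem_univ jf), ← mul_prod_erase univ (fun i : Fin k => if (i : ℕ) < j then β i else 1)
          (mem_univ jf), if_pos (by omega), if_neg (by omega), one_mul]
        congr 1
        refine prod_congr rfl fun i hi => ?_
        have hne : (i : ℕ) ≠ jf := fun h => ne_of_mem_erase hi (Fin.ext h)
        by_cases h : (i : ℕ) < j
        · rw [if_pos h, if_pos (by omega)]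
        · rw [if_neg h, if_neg (by omega)]
      rw [e1] at ih'
      rw [e2, e3]
      obtain ⟨X, hX⟩ : ∃ X, X = ∑ n ∈ S, F n * mxE ℓ μ w u N jf n * μ jf (w jf * n + u jf - N) := ⟨_, rfl⟩
      obtain ⟨Z, hZ⟩ : ∃ Z, Z = (∏ i : Fin k, if (i : ℕ) < j then β i else 1) * ∑ n ∈ S, F n * mxP ℓ μ w u N 0 n := ⟨_, rfl⟩
      rw [← hX] at h1 ih'
      rw [← hZ] at ih'
      rw [mul_assoc, ← hZ]
      have k1 := mul_le_mul_of_nonneg_left ih' (hβ0 jf)
      have k2 : β jf * ((j : ℝ) * e) ≤ 1 * ((j : ℝ) * e) := mul_le_mul_of_nonneg_right (hβ1 jf) (by positivity)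
      push_cast
      linarith
  have h1 := key k le_rfl
  have e1 : (∏ i : Fin k, if (i : ℕ) < k then β i else 1) = ∏ i, β i :=
    prod_congr rfl fun i _ => by rw [if_pos i.2]
  rw [e1] at h1
  simp only [mx_zero, mx_all] at h1
  exact h1

/-- the asymptotic formula after the replacement of all factors -/
lemma tel_as {k : ℕ} (F : ℕ → ℂ) (ℓ μ : Fin k → ℕ → ℂ) (w u : Fin k → ℕ) (N : ℕ) (S : Finset ℕ)
    {e : ℝ} (h : ∀ j : Fin k, ‖∑ n ∈ S, F n * mxE ℓ μ w u N j n * (ℓ j (w j * n + u j - N) - μ j (w j * n + u j - N))‖ ≤ e) :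
    ‖∑ n ∈ S, F n * (∏ i, ℓ i (w i * n + u i - N) - ∏ i, μ i (w i * n + u i - N))‖ ≤ k * e := by
  have key : ∀ j : ℕ, j ≤ k → ‖∑ n ∈ S, F n * (mxP ℓ μ w u N j n - mxP ℓ μ w u N 0 n)‖ ≤ j * e := by
    intro j
    induction j with
    | zero =>
      intro _
      simp
    | succ j ih =>
      intro hj
      have ih' := ih (by omega)
      obtain ⟨jf, hjf⟩ : ∃ jf : Fin k, (jf : ℕ) = j := ⟨⟨j, by omega⟩, rfl⟩
      have h1 := h jf
      have e1 : ∑ n ∈ S, F n * (mxP ℓ μ w u N (j + 1) n - mxP ℓ μ w u N 0 n) =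
          ∑ n ∈ S, F n * mxE ℓ μ w u N jf n * (ℓ jf (w jf * n + u jf - N) - μ jf (w jf * n + u jf - N)) +
          ∑ n ∈ S, F n * (mxP ℓ μ w u N j n - mxP ℓ μ w u N 0 n) := by
        rw [← sum_add_distrib]
        refine sum_congr rfl fun n _ => ?_
        rw [← hjf, mx_up, mx_low]
        ring
      rw [e1]
      refine (norm_add_le _ _).trans ?_
      push_cast
      linarith
  have h1 := key k le_rfl
  simp only [mx_zero, mx_all] at h1
  exact h1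

/-- the weight at the multiples of `w` -/
noncomputable def dilW {R : Type} [Zero R] (W N w : ℕ) (f : ℕ → R) (m : ℕ) : R :=
  if w ∣ m ∧ W * (m / w) ≤ N then f (m / w) else 0

lemma dil_sum {R : Type} [CommRing R] {W N w : ℕ} (hw : 1 ≤ w) (f g : ℕ → R) {y₁ y₂ : ℕ} (hy : W * y₂ ≤ N) :
    ∑ m ∈ Ioc (w * y₁) (w * y₂), dilW W N w f m * g m = ∑ n ∈ Ioc y₁ y₂, f n * g (w * n) := by
  symm
  have e1 : ∑ n ∈ Ioc y₁ y₂, f n * g (w * n) = ∑ m ∈ (Ioc y₁ y₂).image (fun n => w * n), dilW W N w f m * g m := by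
    rw [sum_image]
    · refine sum_congr rfl fun n hn => ?_
      rw [mem_Ioc] at hn
      unfold dilW
      have h1 : w * n / w = n := Nat.mul_div_cancel_left n (by omega)
      rw [h1, if_pos ⟨Dvd.intro _ rfl, (Nat.mul_le_mul_left W hn.2).trans hy⟩]
    · intro a _ b _ hab
      exact Nat.eq_of_mul_eq_mul_left (by omega) hab
  rw [e1]
  apply sum_subset
  · intro m hm
    rw [mem_image] at hm
    obtain ⟨n, hn, rfl⟩ := hm
    rw [mem_Ioc] at hn ⊢
    exact ⟨Nat.mul_lt_mul_of_pos_left hn.1 (by omega), Nat.mul_le_mul_left w hn.2⟩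
  · intro m hm hm2
    unfold dilW
    rw [if_neg, zero_mul]
    rintro ⟨⟨n, rfl⟩, -⟩
    apply hm2
    rw [mem_image]
    refine ⟨n, ?_, rfl⟩
    rw [mem_Ioc] at hm ⊢
    exact ⟨lt_of_mul_lt_mul_left hm.1 (Nat.zero_le _), le_of_mul_le_mul_left hm.2 (by omega)⟩

lemma uw_update {k : ℕ} {R : Type} [CommRing R] (ℓ μ : Fin k → ℕ → R) (N : ℕ) (w : Fin k → ℕ) (g : Fin k → ℤ)
    (j : Fin k) (s : ℤ) (n : ℕ) : mxE ℓ μ w (uu N (Function.update g j s)) N j n = mxE ℓ μ w (uu N g) N j n := by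
  unfold mxE uu
  refine prod_congr rfl fun i hi => ?_
  rw [Function.update_of_ne (ne_of_mem_erase hi)]

lemma mxE_norm {k : ℕ} {R : Type} [NormedField R] {ℓ μ : Fin k → ℕ → R} {w u : Fin k → ℕ} {N : ℕ} {j : Fin k} {n : ℕ}
    {B : ℝ} (hB : 1 ≤ B) (hn : ∀ i, w i * n ≤ N) (hu : ∀ i, i ≠ j → u i ≤ 2 * N) (hℓ : ∀ i, ∀ t ≤ 2 * N, ‖ℓ i t‖ ≤ B)
    (hμ : ∀ i, ∀ t ≤ 2 * N, ‖μ i t‖ ≤ B) : ‖mxE ℓ μ w u N j n‖ ≤ B ^ k := by
  unfold mxE
  rw [norm_prod]
  calc ∏ i ∈ univ.erase j, ‖if (i : ℕ) < j then ℓ i (w i * n + u i - N) else μ i (w i * n + u i - N)‖ ≤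
        ∏ _i ∈ univ.erase j, B := by
        apply prod_le_prod (fun _ _ => norm_nonneg _)
        intro i hi
        have := hu i (ne_of_mem_erase hi)
        have := hn i
        split_ifs
        · exact hℓ i _ (by omega)
        · exact hμ i _ (by omega)
    _ = B ^ (univ.erase j).card := prod_const _
    _ ≤ B ^ k := by
        apply pow_le_pow_right₀ hB
        rw [card_erase_of_mem (mem_univ j), card_univ, Fintype.card_fin]
        omega

lemma mxE_nn {k : ℕ} {ℓ μ : Fin k → ℕ → ℝ} {w u : Fin k → ℕ} {N : ℕ} {j : Fin k} {n : ℕ}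
    (hℓ : ∀ i t, 0 ≤ ℓ i t) (hμ : ∀ i t, 0 ≤ μ i t) : 0 ≤ mxE ℓ μ w u N j n := by
  unfold mxE
  apply prod_nonneg
  intro i _
  split_ifs
  · exact hℓ i _
  · exact hμ i _

/-- windows for the forms `w i * n + h i`, `n ≤ N / W` -/
def WinW {k : ℕ} (N W : ℕ) (w : Fin k → ℕ) (h : Fin k → ℤ) (y₁ y₂ : ℕ) : Prop :=
  y₁ ≤ y₂ ∧ W * y₂ ≤ N ∧ ∀ i, 0 ≤ (w i : ℤ) * y₁ + h i

lemma winW_win {k N W : ℕ} {w : Fin k → ℕ} {h : Fin k → ℤ} {y₁ y₂ : ℕ} (hw : WinW N W w h y₁ y₂) (i : Fin k)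
    (hW : w i ≤ W) (hh : -(N : ℤ) ≤ h i) : Win N (uu N h i) (w i * y₁) (w i * y₂) := by
  obtain ⟨w1, w2, w3⟩ := hw
  have := w3 i
  refine ⟨Nat.mul_le_mul_left _ w1, (Nat.mul_le_mul_right _ hW).trans w2, ?_⟩
  unfold uu
  have e : ((w i * y₁ : ℕ) : ℤ) = (w i : ℤ) * y₁ := by push_cast; ring
  omega

end Pool.Agent.J4H40
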