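import Pool.Agent.J4H40.La

set_option autoImplicit false

/-! Linear forms: the lower bound and the asymptotic formulas for the products. -/

namespace Pool.Agent.J4H40

open Finset
open Pool.Agent.H373R2.T7 (lamz Vz pz Vz_pos mem_pz Vz_inv_small)
open Pool.Agent.R460.GS (vm_le la la_nn)

lemma dilW_nn {W N w : ℕ} {f : ℕ → ℝ} (hW : 1 ≤ W) (hf : ∀ n, 1 ≤ n → W * n ≤ N → 0 ≤ f n ∧ f n ≤ 1) :
    ∀ m ∈ Icc 1 N, 0 ≤ dilW W N w f m ∧ dilW W N w f m ≤ 1 := by
  intro m hm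
  rw [mem_Icc] at hm
  unfold dilW
  split_ifs with h
  · apply hf _ _ h.2
    exact Nat.div_pos (Nat.le_of_dvd (by omega) h.1) (Nat.pos_of_dvd_of_pos h.1 (by omega))
  · exact ⟨le_rfl, zero_le_one⟩

lemma dilW_norm {W N w : ℕ} {f : ℕ → ℂ} (hW : 1 ≤ W) (hf : ∀ n, 1 ≤ n → W * n ≤ N → ‖f n‖ ≤ 1) :
    ∀ m ∈ Icc 1 N, ‖dilW W N w f m‖ ≤ 1 := by
  intro m hm
  rw [mem_Icc] at hm
  unfold dilW
  split_ifs with h
  · apply hf _ _ h.2
    exact Nat.div_pos (Nat.le_of_dvd (by omega) h.1) (Nat.pos_of_dvd_of_pos h.1 (by omega))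
  · rw [norm_zero]
    exact zero_le_one

/-- the lower bound at the multiples of `w`, with a factor `K` -/
lemma lowS_dil {f : ℕ → ℝ} {β : ℝ} {z : ℕ} {e : ℝ} {N W w u : ℕ} {K : ℝ} (hK : 0 < K) (hw : 1 ≤ w)
    (h : LowS (dilW W N w fun n => f n / K) β z e N u) {y₁ y₂ : ℕ} (hy : W * y₂ ≤ N)
    (hwin : Win N u (w * y₁) (w * y₂)) :
    β * ∑ n ∈ Ioc y₁ y₂, f n * lamz z (w * n + u - N) - K * e ≤ ∑ n ∈ Ioc y₁ y₂, f n * la (w * n + u - N) := by
  have h1 := h _ _ hwin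
  rw [dil_sum hw _ (fun m => lamz z (m + u - N)) hy, dil_sum hw _ (fun m => la (m + u - N)) hy] at h1
  have e2 : ∀ G : ℕ → ℝ, ∑ n ∈ Ioc y₁ y₂, f n / K * G n = (∑ n ∈ Ioc y₁ y₂, f n * G n) / K := by
    intro G
    rw [sum_div]
    exact sum_congr rfl fun n _ => by ring
  rw [e2 (fun n => lamz z (w * n + u - N)), e2 (fun n => la (w * n + u - N))] at h1
  have h6 := mul_le_mul_of_nonneg_left h1 hK.le
  rw [mul_div_cancel₀ _ hK.ne'] at h6
  refine le_trans (le_of_eq ?_) h6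
  field_simp

lemma asS_dil {f : ℕ → ℂ} {c : ℕ → ℝ} {V : ℝ} {z : ℕ} {e : ℝ} {N W w u : ℕ} {K : ℝ} (hK : 0 < K) (hw : 1 ≤ w)
    (h : AsS (dilW W N w fun n => f n / (K : ℂ)) c V z e N u) {y₁ y₂ : ℕ} (hy : W * y₂ ≤ N)
    (hwin : Win N u (w * y₁) (w * y₂)) :
    ‖∑ n ∈ Ioc y₁ y₂, f n * ((GA c (w * n + u - N) - V * lamz z (w * n + u - N) : ℝ) : ℂ)‖ ≤ K * e := by
  have h1 := h _ _ hwin
  rw [dil_sum hw _ (fun m => ((GA c (m + u - N) - V * lamz z (m + u - N) : ℝ) : ℂ)) hy] at h1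
  have e2 : ∑ n ∈ Ioc y₁ y₂, f n / (K : ℂ) * ((GA c (w * n + u - N) - V * lamz z (w * n + u - N) : ℝ) : ℂ) =
      (∑ n ∈ Ioc y₁ y₂, f n * ((GA c (w * n + u - N) - V * lamz z (w * n + u - N) : ℝ) : ℂ)) / (K : ℂ) := by
    rw [sum_div]
    exact sum_congr rfl fun n _ => by ring
  rw [e2, norm_div, Complex.norm_real, Real.norm_eq_abs, abs_of_pos hK, div_le_iff₀ hK] at h1
  linarith

lemma asS_realW {F : ℕ → ℝ} {c : ℕ → ℝ} {V : ℝ} {z : ℕ} {e : ℝ} {N u w y₁ y₂ : ℕ}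
    (h : ‖∑ m ∈ Ioc y₁ y₂, (F m : ℂ) * ((GA c (w * m + u - N) - V * lamz z (w * m + u - N) : ℝ) : ℂ)‖ ≤ e) :
    |∑ m ∈ Ioc y₁ y₂, F m * GA c (w * m + u - N) - ∑ m ∈ Ioc y₁ y₂, F m * (V * lamz z (w * m + u - N))| ≤ e := by
  rw [← sum_sub_distrib, ← Real.norm_eq_abs, ← Complex.norm_real]
  refine le_trans (le_of_eq ?_) h
  congr 1
  push_cast
  exact sum_congr rfl fun m _ => by ring

open Classical in
/-- the lower bound and the asymptotic formula for products of linear forms, for almost all vectors of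
constant terms -/
theorem linL {κ σ ρ : ℝ} (hκ : 0 < κ) (hσ0 : 0 < σ) (hσρ : σ < ρ) (hσ : σ ≤ 1 / 2) (k A : ℕ) :
    ∃ k₀ : ℕ, ∀ A₀ : ℕ, ∃ E₀ : ℕ, ∀ E : ℕ, E₀ ≤ E → ∃ N₀ : ℕ, ∀ N : ℕ, N₀ ≤ N →
      ∀ c : Fin k → ℕ → ℝ, (∀ i, Co N κ σ (c i)) →
      ∃ D : Finset ℕ, (D.card : ℝ) ≤ Real.log N ^ k₀ ∧ (∀ d ∈ D, Real.log N ^ A₀ < (d : ℝ)) ∧
      ∀ (W : ℕ) (w : Fin k → ℕ), 1 ≤ W → (∀ i, 1 ≤ w i ∧ w i ≤ W) →
      ∀ q : Fin k → ℕ, (∀ i, 1 ≤ q i) → (∀ i, ∀ d ∈ D, ¬ d ∣ q i) → ∀ a : Fin k → ℤ,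
        (∀ J : Finset (Fin k), (∀ i ∈ J, (q i : ℝ) ≤ (N : ℝ) ^ (5 / 6 - ρ)) →
          (∀ i ∉ J, (q i : ℝ) ≤ (N : ℝ) ^ (1 - ρ) ∧ ∀ m, 0 ≤ c i m) →
          ∀ F : ℕ → ℝ, (∀ m ∈ Icc 1 N, 0 ≤ F m ∧ F m ≤ Real.log N) →
          FewV N q a A fun h => ∀ y₁ y₂ : ℕ, WinW N W w h y₁ y₂ →
            (99 / 100 * (137 / 1000)) ^ J.card *
              ∑ n ∈ Ioc y₁ y₂, F n * ∏ i, modF J c N (zz N E) i (w i * n + uu N h i - N) - N / Real.log N ^ A ≤
            ∑ n ∈ Ioc y₁ y₂, F n * ∏ i, trueF J c i (w i * n + uu N h i - N)) ∧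
        ((∀ i, (q i : ℝ) ≤ (N : ℝ) ^ (1 - ρ)) →
          ∀ F : ℕ → ℂ, (∀ m ∈ Icc 1 N, ‖F m‖ ≤ Real.log N) →
          FewV N q a A fun h => ∀ y₁ y₂ : ℕ, WinW N W w h y₁ y₂ →
            ‖∑ n ∈ Ioc y₁ y₂, F n * (((∏ i, trueF ∅ c i (w i * n + uu N h i - N) : ℝ) : ℂ) -
              ((∏ i, modF ∅ c N (zz N E) i (w i * n + uu N h i - N) : ℝ) : ℂ))‖ ≤ N / Real.log N ^ A) := by
  obtain ⟨V, hV⟩ : ∃ V, V = A + 3 * k + 3 := ⟨_, rfl⟩
  obtain ⟨k₀, h1⟩ := engS hκ hσ0 hσρ hσ k V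
  refine ⟨k₀, fun A₀ => ?_⟩
  obtain ⟨E₀, h1⟩ := h1 A₀
  refine ⟨E₀, fun E hE => ?_⟩
  obtain ⟨N₁, h1⟩ := h1 E hE
  obtain ⟨N₂, h2⟩ := bnds E
  obtain ⟨N₃, h3⟩ := Pool.Agent.R462.GS.evL ((k : ℝ) * 3 ^ k + 1)
  refine ⟨N₁ + N₂ + N₃, fun N hN c hc => ?_⟩
  obtain ⟨D, hD1, hD2, h1⟩ := h1 N (by omega) c hc
  obtain ⟨b1, b2, b3, b4, b5, b6⟩ := h2 N (by omega)
  have hl3 := h3 N (by omega)
  refine ⟨D, hD1, hD2, fun W w hW1 hw q hq hqD a => ?_⟩
  have hN1 : (1 : ℝ) ≤ N := by exact_mod_cast (by omega : 1 ≤ N)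
  have hN0 : (0 : ℝ) < N := by linarith
  have hρ : 0 < ρ := by linarith
  have hqle : ∀ i, ∀ e : ℝ, e ≤ 1 → (q i : ℝ) ≤ (N : ℝ) ^ e → q i ≤ N := by
    intro i e he hqe
    have : (q i : ℝ) ≤ N := by
      calc (q i : ℝ) ≤ (N : ℝ) ^ e := hqe
        _ ≤ (N : ℝ) ^ (1 : ℝ) := Real.rpow_le_rpow_of_exponent_le hN1 he
        _ = N := Real.rpow_one _
    exact_mod_cast this
  obtain ⟨l, hld⟩ : ∃ l, l = Real.log (N : ℝ) := ⟨_, rfl⟩
  have hl0 : 0 < l := by rw [hld]; linarith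
  have hl1 : 1 ≤ l := by rw [hld]; linarith
  have hkl : (k : ℝ) ≤ l := by
    have h3k : (1 : ℝ) ≤ 3 ^ k := one_le_pow₀ (by norm_num)
    have hk0 : (0 : ℝ) ≤ k := Nat.cast_nonneg k
    rw [hld]
    nlinarith
  have hB1 : 1 ≤ l ^ 3 := one_le_pow₀ hl1
  obtain ⟨K, hK⟩ : ∃ K, K = l * (l ^ 3) ^ k := ⟨_, rfl⟩
  have hK0 : 0 < K := by rw [hK]; positivity
  have herr : (k : ℝ) * (K * (N / l ^ V)) ≤ N / l ^ A := by
    rw [hK, hV]
    have e1 : (k : ℝ) * (l * (l ^ 3) ^ k * (N / l ^ (A + 3 * k + 3))) = (k / l ^ 2) * (N / l ^ A) := by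
      rw [show A + 3 * k + 3 = A + (3 * k) + 3 from rfl, pow_add, pow_add, pow_mul]
      field_simp
    rw [e1]
    have h2 : (k : ℝ) / l ^ 2 ≤ 1 := by
      rw [div_le_one (by positivity)]
      nlinarith
    calc (k / l ^ 2) * (N / l ^ A) ≤ 1 * (N / l ^ A) := mul_le_mul_of_nonneg_right h2 (by positivity)
      _ = _ := one_mul _
  have hWn : ∀ n, W * n ≤ N → n ≤ N ∧ ∀ i, w i * n ≤ N := by
    intro n hn
    exact ⟨le_trans (Nat.le_mul_of_pos_left n (by omega)) hn, fun i => (Nat.mul_le_mul_right n (hw i).2).trans hn⟩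
  refine ⟨fun J hJ hJc F hF => ?_, fun hq1 F hF => ?_⟩
  · -- the lower bound
    obtain ⟨β, hβ⟩ : ∃ β : Fin k → ℝ, β = fun i => if i ∈ J then 99 / 100 * (137 / 1000) else 1 := ⟨_, rfl⟩
    have hprod : ∏ i, β i = (99 / 100 * (137 / 1000)) ^ J.card := by
      rw [hβ, prod_ite_mem, univ_inter, prod_const]
    have hqN : ∀ i, q i ≤ N := by
      intro i
      by_cases hi : i ∈ J
      · exact hqle i _ (by linarith) (hJ i hi)
      · exact hqle i _ (by linarith) (hJc i hi).1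
    have hμn : ∀ i t, 0 ≤ modF J c N (zz N E) i t := by
      intro i t
      unfold modF
      split_ifs with hi
      · exact Pool.Agent.J4H40.lamz_nn _ t
      · apply mul_nonneg _ (Pool.Agent.J4H40.lamz_nn _ t)
        unfold Vd
        exact sum_nonneg fun m _ => div_nonneg ((hJc i hi).2 m) (Nat.cast_nonneg _)
    have hℓn : ∀ i t, 0 ≤ trueF J c i t := by
      intro i t
      unfold trueF
      split_ifs with hi
      · exact la_nn t
      · unfold GA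
        exact sum_nonneg fun m _ => mul_nonneg ((hJc i hi).2 m) ArithmeticFunction.vonMangoldt_nonneg
    have hμB : ∀ i, ∀ t ≤ 2 * N, ‖modF J c N (zz N E) i t‖ ≤ l ^ 3 := by
      intro i t _
      rw [Real.norm_eq_abs, hld]
      unfold modF
      split_ifs with hi
      · rw [abs_of_nonneg (Pool.Agent.J4H40.lamz_nn _ t)]
        exact b5 t
      · exact (b6 κ σ (c i) (hc i)).2 t
    have hℓB : ∀ i, ∀ t ≤ 2 * N, ‖trueF J c i t‖ ≤ l ^ 3 := by
      intro i t ht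
      rw [Real.norm_eq_abs, hld]
      unfold trueF
      split_ifs with hi
      · rw [abs_of_nonneg (la_nn t)]
        exact b4 t ht
      · exact (b6 κ σ (c i) (hc i)).1 t ht
    have hfew := fewV_of (A := A) (V := V) (P := fun j g t => ∀ y₁ y₂ : ℕ, W * y₂ ≤ N →
        Win N t (w j * y₁) (w j * y₂) →
        β j * ∑ n ∈ Ioc y₁ y₂, F n * mxE (trueF J c) (modF J c N (zz N E)) w (uu N g) N j n *
          modF J c N (zz N E) j (w j * n + t - N) - K * (N / l ^ V) ≤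
        ∑ n ∈ Ioc y₁ y₂, F n * mxE (trueF J c) (modF J c N (zz N E)) w (uu N g) N j n *
          trueF J c j (w j * n + t - N))
      (q := q) (a := a) hq hqN (by omega) hl3
      (fun j g s t => by simp only [uw_update]) (fun j g hg => by
        have hu : ∀ i, i ≠ j → uu N g i ≤ 2 * N := by
          intro i hi
          have := mem_SV.1 (hg i hi)
          unfold uu
          omega
        have hEB : ∀ n, W * n ≤ N → |mxE (trueF J c) (modF J c N (zz N E)) w (uu N g) N j n| ≤ (l ^ 3) ^ k := by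
          intro n hn
          have := mxE_norm hB1 (hWn n hn).2 hu hℓB hμB
          rwa [Real.norm_eq_abs] at this
        have hEn : ∀ n, 0 ≤ mxE (trueF J c) (modF J c N (zz N E)) w (uu N g) N j n :=
          fun n => mxE_nn hℓn hμn
        have hFB : ∀ m, 1 ≤ m → W * m ≤ N →
            0 ≤ F m * mxE (trueF J c) (modF J c N (zz N E)) w (uu N g) N j m / K ∧
            F m * mxE (trueF J c) (modF J c N (zz N E)) w (uu N g) N j m / K ≤ 1 := by
          intro m hm1 hm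
          obtain ⟨f1, f2⟩ := hF m (mem_Icc.2 ⟨hm1, (hWn m hm).1⟩)
          have g1 := hEn m
          have g2 := hEB m hm
          rw [abs_of_nonneg g1] at g2
          refine ⟨by positivity, ?_⟩
          rw [div_le_one hK0, hK]
          rw [← hld] at f2
          exact mul_le_mul f2 g2 g1 hl0.le
        by_cases hj : j ∈ J
        · -- the lower bound for the prime factor
          have hH := (h1 (q j) (hq j) (hqD j) (a j)).1 (hJ j hj) _ (dilW_nn (w := w j) hW1 hFB)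
          refine few6_mono (fun t ht y₁ y₂ hy hwin => ?_) hH
          have h5 := lowS_dil hK0 (hw j).1 ht hy hwin
          have e1 : β j = 99 / 100 * (137 / 1000) := by rw [hβ]; exact if_pos hj
          have e3 : ∀ t, modF J c N (zz N E) j t = lamz (zz N E) t := fun t => by unfold modF; rw [if_pos hj]
          have e4 : ∀ t, trueF J c j t = la t := fun t => by unfold trueF; rw [if_pos hj]
          simp only [e3, e4, e1]
          rw [← hld] at h5
          exact h5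
        · -- the asymptotic formula for the other factors
          have hH := (h1 (q j) (hq j) (hqD j) (a j)).2 (hJc j hj).1 j
            (dilW W N (w j) fun n =>
              ((F n * mxE (trueF J c) (modF J c N (zz N E)) w (uu N g) N j n : ℝ) : ℂ) / (K : ℂ))
            (dilW_norm hW1 (by
              intro m hm1 hm
              obtain ⟨g1, g2⟩ := hFB m hm1 hm
              rw [← Complex.ofReal_div, Complex.norm_real, Real.norm_eq_abs, abs_of_nonneg g1]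
              exact g2))
          refine few6_mono (fun t ht y₁ y₂ hy hwin => ?_) hH
          have h5 := asS_realW (asS_dil hK0 (hw j).1 ht hy hwin)
          have e1 : β j = 1 := by rw [hβ]; exact if_neg hj
          have e3 : ∀ t, modF J c N (zz N E) j t = Vd N (c j) * lamz (zz N E) t :=
            fun t => by unfold modF; rw [if_neg hj]
          have e4 : ∀ t, trueF J c j t = GA (c j) t := fun t => by unfold trueF; rw [if_neg hj]
          simp only [e3, e4, e1]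
          rw [← hld, abs_le] at h5
          linarith [h5.1])
    refine fewV_mono ?_ hfew
    intro h hh hP y₁ y₂ hwin
    have h5 := tel_low F (trueF J c) (modF J c N (zz N E)) w (uu N h) N (Ioc y₁ y₂) β (e := K * (N / l ^ V))
      (by positivity) (fun i => by rw [hβ]; simp only; split_ifs <;> norm_num)
      (fun i => by rw [hβ]; simp only; split_ifs <;> norm_num)
      (fun j => hP j y₁ y₂ hwin.2.1 (winW_win hwin j (hw j).2 (mem_SV.1 (hh j)).1.1))
    rw [hprod] at h5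
    rw [← hld]
    linarith
  · -- the asymptotic formula
    have hqN : ∀ i, q i ≤ N := fun i => hqle i _ (by linarith) (hq1 i)
    have hμB : ∀ i, ∀ t ≤ 2 * N, ‖((modF ∅ c N (zz N E) i t : ℝ) : ℂ)‖ ≤ l ^ 3 := by
      intro i t _
      rw [Complex.norm_real, Real.norm_eq_abs, hld]
      unfold modF
      rw [if_neg (notMem_empty i)]
      exact (b6 κ σ (c i) (hc i)).2 t
    have hℓB : ∀ i, ∀ t ≤ 2 * N, ‖((trueF ∅ c i t : ℝ) : ℂ)‖ ≤ l ^ 3 := by
      intro i t ht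
      rw [Complex.norm_real, Real.norm_eq_abs, hld]
      unfold trueF
      rw [if_neg (notMem_empty i)]
      exact (b6 κ σ (c i) (hc i)).1 t ht
    obtain ⟨ℓ, hℓ⟩ : ∃ ℓ : Fin k → ℕ → ℂ, ℓ = fun i t => ((trueF ∅ c i t : ℝ) : ℂ) := ⟨_, rfl⟩
    obtain ⟨μ, hμ⟩ : ∃ μ : Fin k → ℕ → ℂ, μ = fun i t => ((modF ∅ c N (zz N E) i t : ℝ) : ℂ) := ⟨_, rfl⟩
    have hfew := fewV_of (A := A) (V := V) (P := fun j g t => ∀ y₁ y₂ : ℕ, W * y₂ ≤ N →
        Win N t (w j * y₁) (w j * y₂) →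
        ‖∑ n ∈ Ioc y₁ y₂, F n * mxE ℓ μ w (uu N g) N j n * (ℓ j (w j * n + t - N) - μ j (w j * n + t - N))‖ ≤
          K * (N / l ^ V))
      (q := q) (a := a) hq hqN (by omega) hl3
      (fun j g s t => by simp only [uw_update]) (fun j g hg => by
        have hu : ∀ i, i ≠ j → uu N g i ≤ 2 * N := by
          intro i hi
          have := mem_SV.1 (hg i hi)
          unfold uu
          omega
        have hH := (h1 (q j) (hq j) (hqD j) (a j)).2 (hq1 j) j
          (dilW W N (w j) fun n => F n * mxE ℓ μ w (uu N g) N j n / (K : ℂ)) (dilW_norm hW1 (by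
            intro m hm1 hm
            have g2 : ‖mxE ℓ μ w (uu N g) N j m‖ ≤ (l ^ 3) ^ k := by
              apply mxE_norm hB1 (hWn m hm).2 hu
              · rw [hℓ]; exact hℓB
              · rw [hμ]; exact hμB
            rw [norm_div, norm_mul, Complex.norm_real, Real.norm_eq_abs, abs_of_pos hK0, div_le_one hK0, hK, hld]
            rw [hld] at g2
            exact mul_le_mul (hF m (mem_Icc.2 ⟨hm1, (hWn m hm).1⟩)) g2 (norm_nonneg _) (by linarith)))
        refine few6_mono (fun t ht y₁ y₂ hy hwin => ?_) hH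
        have h5 := asS_dil hK0 (hw j).1 ht hy hwin
        rw [← hld] at h5
        refine le_trans (le_of_eq ?_) h5
        congr 1
        refine sum_congr rfl fun n _ => ?_
        rw [hℓ, hμ]
        simp only
        unfold trueF modF
        rw [if_neg (notMem_empty j), if_neg (notMem_empty j)]
        push_cast
        ring)
    refine fewV_mono ?_ hfew
    intro h hh hP y₁ y₂ hwin
    have h5 := tel_as F ℓ μ w (uu N h) N (Ioc y₁ y₂) (e := K * (N / l ^ V))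
      (fun j => hP j y₁ y₂ hwin.2.1 (winW_win hwin j (hw j).2 (mem_SV.1 (hh j)).1.1))
    rw [← hld]
    refine le_trans (le_of_eq ?_) (h5.trans herr)
    congr 1
    refine sum_congr rfl fun n _ => ?_
    rw [hℓ, hμ]
    push_cast
    ring

end Pool.Agent.J4H40
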