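import Pool.Agent.J4H40.Zh
import Pool.Agent.J4H40.La
import Pool.Agent.Y820.LF.M0

set_option autoImplicit false

/-! The main term for linear forms, in all windows. -/

namespace Pool.Agent.J4H40

open Finset
open Pool.Agent.H373R2.T7
open Pool.Agent.R460.GS (la la_nn)
open Pool.Agent.Y820.LF (nuF singF AdmF)
open Pool.Agent.Y820.LF.M0 (per_QQ nuF_cons sing_eq1)

/-- the conditions -/
abbrev Qf {k : ℕ} (C H : Fin k → ℤ) : ℕ → ℕ → Prop := Pool.Agent.Y820.LF.M0.QQ C H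

lemma rho_le {k : ℕ} {C H : Fin k → ℤ} {p : ℕ} (hp : p.Prime) (h : ∀ i, ¬ ((p : ℤ) ∣ C i ∧ (p : ℤ) ∣ H i)) :
    rhoA (Qf C H) p ≤ k := by
  classical
  unfold rhoA
  have h1 : (range p).filter (fun r => ¬ p ∣ r ∧ Qf C H p r) ⊆
      univ.biUnion (fun i : Fin k => (range p).filter (fun r : ℕ => (p : ℤ) ∣ C i * (r : ℤ) + H i)) := by
    intro r hr
    rw [mem_filter] at hr
    obtain ⟨hr1, -, i, hi⟩ := hr
    rw [mem_biUnion]
    exact ⟨i, mem_univ _, mem_filter.2 ⟨hr1, hi⟩⟩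
  refine (card_le_card h1).trans (card_biUnion_le.trans ?_)
  calc ∑ i : Fin k, ((range p).filter (fun r : ℕ => (p : ℤ) ∣ C i * (r : ℤ) + H i)).card
      ≤ ∑ _i : Fin k, 1 := by
        refine sum_le_sum fun i _ => ?_
        rw [card_le_one]
        intro r hr r' hr'
        rw [mem_filter, mem_range] at hr hr'
        have h2 : (p : ℤ) ∣ C i * ((r : ℤ) - r') := by
          have : C i * ((r : ℤ) - r') = (C i * (r : ℤ) + H i) - (C i * (r' : ℤ) + H i) := by ring
          rw [this]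
          exact dvd_sub hr.2 hr'.2
        have hpp := Nat.prime_iff_prime_int.1 hp
        rcases hpp.dvd_or_dvd h2 with h3 | h3
        · exact absurd ⟨h3, (Int.dvd_add_right (Dvd.dvd.mul_right h3 (r : ℤ))).1 hr.2⟩ (h i)
        · have h4 : (r : ℤ) ≡ (r' : ℤ) [ZMOD p] := by
            rw [Int.modEq_iff_dvd]
            have : (r' : ℤ) - r = -((r : ℤ) - r') := by ring
            rw [this]
            exact h3.neg_right
          have h5 : r ≡ r' [MOD p] := (Int.natCast_modEq_iff).1 h4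
          have h6 : r % p = r' % p := h5
          rwa [Nat.mod_eq_of_lt hr.1, Nat.mod_eq_of_lt hr'.1] at h6
    _ = k := by simp

lemma rho_pred (Q : ℕ → ℕ → Prop) {p : ℕ} (hp : p.Prime) : (rhoA Q p : ℝ) ≤ p - 1 := by
  classical
  have h1 : rhoA Q p ≤ p - 1 := by
    unfold rhoA
    calc ((range p).filter (fun r => ¬ p ∣ r ∧ Q p r)).card ≤ ((range p).erase 0).card := by
          apply card_le_card
          intro r hr
          rw [mem_filter] at hr
          rw [mem_erase]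
          refine ⟨?_, hr.1⟩
          rintro rfl
          exact hr.2.1 (dvd_zero _)
      _ = p - 1 := by rw [card_erase_of_mem (mem_range.2 hp.pos), card_range]
  have h2 : 1 ≤ p := hp.one_le
  have h3 : ((rhoA Q p + 1 : ℕ) : ℝ) ≤ p := by exact_mod_cast (by omega : rhoA Q p + 1 ≤ p)
  push_cast at h3
  linarith

/-- the system `n, w i * n + h i` -/
noncomputable def singW {k : ℕ} (w : Fin k → ℕ) (h : Fin k → ℤ) (z : ℕ) : ℝ :=
  singF (Fin.cons 1 (fun i => (w i : ℤ)) : Fin (k + 1) → ℤ) (Fin.cons 0 h : Fin (k + 1) → ℤ) z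

lemma singW_eq {k : ℕ} (w : Fin k → ℕ) (h : Fin k → ℤ) (z : ℕ) : singW w h z =
    ((Vz z)⁻¹) ^ k * ∏ p ∈ pz z, (1 - (rhoA (Qf (fun i => (w i : ℤ)) h) p : ℝ) / (p - 1 : ℝ)) :=
  sing_eq1 z

lemma singW_fac {k : ℕ} (w : Fin k → ℕ) (h : Fin k → ℤ) {z p : ℕ} (hp : p ∈ pz z) :
    0 ≤ 1 - (rhoA (Qf (fun i => (w i : ℤ)) h) p : ℝ) / (p - 1 : ℝ) ∧
    1 - (rhoA (Qf (fun i => (w i : ℤ)) h) p : ℝ) / (p - 1 : ℝ) ≤ 1 := by
  have hpp := (mem_pz.1 hp).2
  have h3 := rho_pred (Qf (fun i => (w i : ℤ)) h) hpp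
  have h4 : (0 : ℝ) < p - 1 := by
    have : (2 : ℝ) ≤ p := by exact_mod_cast hpp.two_le
    linarith
  constructor
  · rw [sub_nonneg, div_le_one h4]
    exact h3
  · have : 0 ≤ (rhoA (Qf (fun i => (w i : ℤ)) h) p : ℝ) / (p - 1 : ℝ) := by positivity
    linarith

lemma singW_nn {k : ℕ} (w : Fin k → ℕ) (h : Fin k → ℤ) (z : ℕ) : 0 ≤ singW w h z := by
  rw [singW_eq]
  have := Vz_pos z
  exact mul_nonneg (by positivity) (prod_nonneg fun p hp => (singW_fac w h hp).1)

lemma singW_le {k : ℕ} (w : Fin k → ℕ) (h : Fin k → ℤ) (z : ℕ) : singW w h z ≤ ((Vz z)⁻¹) ^ k := by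
  rw [singW_eq]
  have h1 := prod_le_one (fun p hp => (singW_fac w h (z := z) hp).1) (fun p hp => (singW_fac w h hp).2)
  have h2 : 0 ≤ ((Vz z)⁻¹) ^ k := by
    have := Vz_pos z
    positivity
  calc ((Vz z)⁻¹) ^ k * _ ≤ ((Vz z)⁻¹) ^ k * 1 := mul_le_mul_of_nonneg_left h1 h2
    _ = _ := mul_one _

lemma singW_bad {k : ℕ} {w : Fin k → ℕ} {h : Fin k → ℤ} {z p : ℕ} (hp : p ∈ pz z) {i : Fin k} (h1 : p ∣ w i)
    (h2 : (p : ℤ) ∣ h i) : singW w h z = 0 := by
  classical
  have hpp := (mem_pz.1 hp).2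
  unfold singW singF
  apply prod_eq_zero (i := p) hp
  have h3 : nuF (Fin.cons 1 (fun i => (w i : ℤ)) : Fin (k + 1) → ℤ) (Fin.cons 0 h : Fin (k + 1) → ℤ) p = p := by
    unfold nuF
    rw [filter_true_of_mem, card_range]
    intro r _
    refine ⟨i.succ, ?_⟩
    rw [Fin.cons_succ, Fin.cons_succ]
    exact dvd_add (Dvd.dvd.mul_right (Int.natCast_dvd_natCast.2 h1) _) h2
  rw [h3, div_self (by exact_mod_cast hpp.ne_zero), sub_self, zero_div]

open Classical in
/-- the main term for linear forms, in all windows -/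
theorem mainW (k V E : ℕ) (hk : 1 ≤ k) : ∃ N₀ : ℕ, ∀ N : ℕ, N₀ ≤ N → ∀ z : ℕ, 1 ≤ z → (z : ℝ) ≤ Real.log N ^ E →
    ∀ (W : ℕ) (w : Fin k → ℕ), W ≤ z → 1 ≤ W → (∀ i, 1 ≤ w i ∧ w i ≤ W) →
    ∀ h : Fin k → ℤ, (∀ i, -(N : ℤ) ≤ h i) → ∀ y₁ y₂ : ℕ, WinW N W w h y₁ y₂ →
      |∑ n ∈ Ioc y₁ y₂, la n * ∏ i, lamz z (w i * n + uu N h i - N) - singW w h z * ((y₂ : ℝ) - y₁)| ≤
        N / Real.log N ^ V := by
  obtain ⟨N₁, h1⟩ := sys_main k (E + 1) (V + k + 1) hk
  obtain ⟨N₂, h2⟩ := Vz_inv_small E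
  obtain ⟨N₃, h3⟩ := Pool.Agent.R462.GS.evL (2 ^ (V + k + E + 10))
  obtain ⟨N₄, h4⟩ := Pool.Agent.R462.GS.evlog (k + V + 2) 4 (1 / 2) (by norm_num)
  refine ⟨(N₁ + 1) ^ 2 + N₂ + N₃ + N₄ + 4, fun N hN z hz hzE W w hWz hW1 hw h hh y₁ y₂ hwin => ?_⟩
  obtain ⟨h12, hWy, hy⟩ := hwin
  have hy2 : y₂ ≤ N := le_trans (Nat.le_mul_of_pos_left y₂ (by omega)) hWy
  have hsq : (N₁ + 1) ^ 2 ≤ N := by omega
  have hV := h2 N (by omega) z hz hzE
  have hL := h3 N (by omega)
  have hp := h4 N (by omega)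
  have hN0 : (0 : ℝ) < N := by exact_mod_cast (by omega : 0 < N)
  have hN1 : (1 : ℝ) ≤ N := by exact_mod_cast (by omega : 1 ≤ N)
  obtain ⟨L, hLd⟩ : ∃ L, L = Real.log (N : ℝ) := ⟨_, rfl⟩
  rw [← hLd] at hV hL hp hzE ⊢
  have hpow : (2 : ℝ) ^ 10 ≤ 2 ^ (V + k + E + 10) := pow_le_pow_right₀ (by norm_num) (by omega)
  have hL1000 : 1000 ≤ L := by
    have : (1000 : ℝ) ≤ 2 ^ 10 := by norm_num
    linarith
  have hL0 : 0 < L := by linarith
  have hVz := Vz_pos z
  have hVi : 0 < (Vz z)⁻¹ := inv_pos.2 hVz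
  have hVk : ((Vz z)⁻¹) ^ k ≤ L ^ k := pow_le_pow_left₀ hVi.le hV k
  have hVk0 : 0 ≤ ((Vz z)⁻¹) ^ k := by positivity
  obtain ⟨Q, hQ⟩ : ∃ Q, Q = Qf (fun i => (w i : ℤ)) h := ⟨_, rfl⟩
  obtain ⟨f, hf⟩ : ∃ f : ℕ → ℝ, f = fun y => ∑ n ∈ Icc 1 y, ArithmeticFunction.vonMangoldt n *
      (if ∀ p ∈ pz z, ¬ Q p n then ((Vz z)⁻¹) ^ k else 0) := ⟨_, rfl⟩
  have e1 : ∑ n ∈ Ioc y₁ y₂, la n * ∏ i, lamz z (w i * n + uu N h i - N) = f y₂ - f y₁ := by
    have e2 : ∑ n ∈ Ioc y₁ y₂, la n * ∏ i, lamz z (w i * n + uu N h i - N) =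
        ∑ n ∈ Ioc y₁ y₂, ArithmeticFunction.vonMangoldt n *
          (if ∀ p ∈ pz z, ¬ Q p n then ((Vz z)⁻¹) ^ k else 0) := by
      refine sum_congr rfl fun n hn => ?_
      rw [mem_Ioc] at hn
      unfold la
      congr 1
      have e3 : ∀ i, ((w i * n + uu N h i - N : ℕ) : ℤ) = (w i : ℤ) * n + h i := by
        intro i
        have g1 := hh i
        have g2 := hy i
        have g3 : (w i : ℤ) * y₁ ≤ (w i : ℤ) * n := by
          apply mul_le_mul_of_nonneg_left _ (Int.natCast_nonneg _)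
          exact_mod_cast hn.1.le
        unfold uu
        have g4 : ((w i * n : ℕ) : ℤ) = (w i : ℤ) * n := by push_cast; ring
        omega
      have e4 : ∀ i, (∀ p ∈ pz z, ¬ p ∣ w i * n + uu N h i - N) ↔ ∀ p ∈ pz z, ¬ (p : ℤ) ∣ (w i : ℤ) * n + h i := by
        intro i
        refine forall₂_congr fun p _ => ?_
        rw [← e3, Int.natCast_dvd_natCast]
      by_cases h5 : ∀ p ∈ pz z, ¬ Q p n
      · rw [if_pos h5]
        have h7 : ∀ i : Fin k, lamz z (w i * n + uu N h i - N) = (Vz z)⁻¹ := fun i => by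
          unfold lamz
          rw [if_pos ((e4 i).2 fun p hp hd => h5 p hp (by rw [hQ]; exact ⟨i, hd⟩))]
        rw [prod_congr rfl (fun i _ => h7 i), prod_const, card_univ, Fintype.card_fin]
      · rw [if_neg h5]
        push Not at h5
        obtain ⟨p, hp, hq⟩ := h5
        rw [hQ] at hq
        obtain ⟨i, hi⟩ := hq
        refine prod_eq_zero (mem_univ i) ?_
        unfold lamz
        rw [if_neg]
        intro h6
        exact (e4 i).1 h6 p hp hi
    rw [e2, hf]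
    simp only
    rw [ioc_sub _ h12]
  by_cases hbad : ∃ i, ∃ p : ℕ, p.Prime ∧ p ∣ w i ∧ (p : ℤ) ∣ h i
  · -- both sides vanish
    obtain ⟨i, p, hpp, hp1, hp2⟩ := hbad
    have hpz : p ∈ pz z := mem_pz.2 ⟨by
      have := Nat.le_of_dvd (by have := (hw i).1; omega) hp1
      have := (hw i).2
      omega, hpp⟩
    have e2 : ∀ y, f y = 0 := by
      intro y
      rw [hf]
      apply sum_eq_zero
      intro n _
      rw [if_neg, mul_zero]
      intro h5
      apply h5 p hpz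
      rw [hQ]
      exact ⟨i, dvd_add (Dvd.dvd.mul_right (Int.natCast_dvd_natCast.2 hp1) _) hp2⟩
    rw [e1, e2, e2, singW_bad hpz hp1 hp2]
    simp only [sub_self, zero_mul, abs_zero]
    positivity
  have hPer : PerA Q k := by
    refine ⟨?_, ?_⟩
    · rw [hQ]
      exact per_QQ
    · intro p hpp
      rw [hQ]
      apply rho_le hpp
      rintro i ⟨g1, g2⟩
      exact hbad ⟨i, p, hpp, Int.natCast_dvd_natCast.1 g1, g2⟩
  obtain ⟨M, hM⟩ : ∃ M, M = singW w h z := ⟨_, rfl⟩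
  have hMe : M = ((Vz z)⁻¹) ^ k * ∏ p ∈ pz z, (1 - (rhoA Q p : ℝ) / (p - 1 : ℝ)) := by
    rw [hM, hQ, singW_eq]
  rw [← hM]
  have hM0 : 0 ≤ M := by rw [hM]; exact singW_nn w h z
  have hM1 : M ≤ L ^ k := by
    rw [hM]
    exact (singW_le w h z).trans hVk
  have key : ∀ y : ℕ, y ≤ N → |f y - M * y| ≤ N / L ^ V / 2 := by
    intro y hyN
    have hyr : (y : ℝ) ≤ N := by exact_mod_cast hyN
    by_cases hc : (N : ℝ) ^ (1 / 2 : ℝ) ≤ y
    · -- long sums
      have hy0 : (0 : ℝ) < y := lt_of_lt_of_le (by positivity) hc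
      have hly : L ≤ 2 * Real.log y := by
        have := Real.log_le_log (by positivity) hc
        rw [Real.log_rpow hN0, ← hLd] at this
        linarith
      have hyN1 : N₁ ≤ y := by
        have k1 : ((N₁ : ℝ) + 1) ≤ (N : ℝ) ^ (1 / 2 : ℝ) := by
          rw [← Real.sqrt_eq_rpow]
          apply Real.le_sqrt_of_sq_le
          exact_mod_cast hsq
        have k2 : (N₁ : ℝ) ≤ y := by linarith
        exact_mod_cast k2
      obtain ⟨ly, hlyd⟩ : ∃ ly, ly = Real.log (y : ℝ) := ⟨_, rfl⟩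
      have h1' := h1 y hyN1 z hz (by
        rw [← hlyd]
        rw [← hlyd] at hly
        have hly0 : 0 < ly := by linarith
        calc (z : ℝ) ≤ L ^ E := hzE
          _ ≤ (2 * ly) ^ E := pow_le_pow_left₀ hL0.le hly E
          _ = 2 ^ E * ly ^ E := by rw [mul_pow]
          _ ≤ ly * ly ^ E := by
              apply mul_le_mul_of_nonneg_right _ (by positivity)
              have : (2 : ℝ) ^ (E + 1) ≤ 2 ^ (V + k + E + 10) := pow_le_pow_right₀ (by norm_num) (by omega)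
              rw [pow_succ] at this
              linarith
          _ = ly ^ (E + 1) := by ring) Q hPer
      rw [← hlyd] at h1' hly
      have hly0 : 0 < ly := by linarith
      have e3 : f y - M * y = ((Vz z)⁻¹) ^ k *
          (∑ n ∈ (Icc 1 y).filter (fun n : ℕ => ∀ p ∈ pz z, ¬ Q p n), ArithmeticFunction.vonMangoldt n -
            y * ∏ p ∈ pz z, (1 - (rhoA Q p : ℝ) / (p - 1 : ℝ))) := by
        have e4 : f y = ((Vz z)⁻¹) ^ k *
            ∑ n ∈ (Icc 1 y).filter (fun n : ℕ => ∀ p ∈ pz z, ¬ Q p n), ArithmeticFunction.vonMangoldt n := by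
          rw [hf, sum_filter, mul_sum]
          simp only
          refine sum_congr rfl fun n _ => ?_
          split_ifs
          · rw [mul_comm]
          · rw [mul_zero, mul_zero]
        rw [e4, hMe]
        ring
      rw [e3, abs_mul, abs_of_nonneg hVk0]
      refine (mul_le_mul hVk h1' (abs_nonneg _) (by positivity)).trans ?_
      have k1 : L ^ (V + k + 1) ≤ 2 ^ (V + k + 1) * ly ^ (V + k + 1) := by
        rw [← mul_pow]
        exact pow_le_pow_left₀ hL0.le hly _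
      have k2 : (2 : ℝ) ^ (V + k + 2) ≤ L := by
        refine le_trans ?_ hL
        exact pow_le_pow_right₀ (by norm_num) (by omega)
      have k3 : L ^ (V + k) * 2 ≤ ly ^ (V + k + 1) := by
        have : 2 ^ (V + k + 1) * (L ^ (V + k) * 2) ≤ 2 ^ (V + k + 1) * ly ^ (V + k + 1) := by
          refine le_trans ?_ k1
          calc 2 ^ (V + k + 1) * (L ^ (V + k) * 2) = 2 ^ (V + k + 2) * L ^ (V + k) := by ring
            _ ≤ L * L ^ (V + k) := by gcongr
            _ = L ^ (V + k + 1) := by ring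
        exact le_of_mul_le_mul_left this (by positivity)
      rw [div_div, mul_div_assoc', div_le_div_iff₀ (by positivity) (by positivity)]
      calc L ^ k * y * (L ^ V * 2) = y * (L ^ (V + k) * 2) := by ring
        _ ≤ N * ly ^ (V + k + 1) := mul_le_mul hyr k3 (by positivity) hN0.le
    · -- short sums
      rw [not_le] at hc
      have k1 : |f y| ≤ y * L ^ (k + 1) := by
        rw [hf]
        simp only
        refine (abs_sum_le_sum_abs _ _).trans ?_
        have k2 : ∀ n ∈ Icc 1 y, |ArithmeticFunction.vonMangoldt n *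
            (if ∀ p ∈ pz z, ¬ Q p n then ((Vz z)⁻¹) ^ k else 0)| ≤ L ^ (k + 1) := by
          intro n hn
          rw [mem_Icc] at hn
          have k3 : ArithmeticFunction.vonMangoldt n ≤ L := by
            rw [hLd]
            exact Pool.Agent.R460.GS.vm_le (mem_Icc.2 ⟨hn.1, hn.2.trans hyN⟩)
          have k4 : 0 ≤ (if ∀ p ∈ pz z, ¬ Q p n then ((Vz z)⁻¹) ^ k else 0) := by
            split_ifs
            · exact hVk0
            · exact le_rfl
          have k5 : (if ∀ p ∈ pz z, ¬ Q p n then ((Vz z)⁻¹) ^ k else 0) ≤ L ^ k := by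
            split_ifs
            · exact hVk
            · positivity
          rw [abs_mul, abs_of_nonneg ArithmeticFunction.vonMangoldt_nonneg, abs_of_nonneg k4, pow_succ, mul_comm (L ^ k)]
          exact mul_le_mul k3 k5 k4 hL0.le
        refine (sum_le_sum k2).trans (le_of_eq ?_)
        rw [sum_const, Nat.card_Icc, nsmul_eq_mul, Nat.add_sub_cancel]
      have hy00 : (0 : ℝ) ≤ y := Nat.cast_nonneg _
      have k2 : |M * y| ≤ y * L ^ (k + 1) := by
        rw [abs_of_nonneg (by positivity), mul_comm]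
        apply mul_le_mul_of_nonneg_left _ hy00
        refine hM1.trans ?_
        exact pow_le_pow_right₀ (by linarith) (by omega)
      have k3 : |f y - M * y| ≤ 2 * (y * L ^ (k + 1)) := by
        have := abs_sub (f y) (M * y)
        linarith
      refine k3.trans ?_
      rw [div_div, le_div_iff₀ (by positivity)]
      calc 2 * ((y : ℝ) * L ^ (k + 1)) * (L ^ V * 2) = y * (4 * L ^ (k + V + 1)) := by ring
        _ ≤ (N : ℝ) ^ (1 / 2 : ℝ) * (4 * L ^ (k + V + 2)) := by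
            apply mul_le_mul hc.le _ (by positivity) (by positivity)
            have : L ^ (k + V + 1) ≤ L ^ (k + V + 2) := pow_le_pow_right₀ (by linarith) (by omega)
            linarith
        _ ≤ (N : ℝ) ^ (1 / 2 : ℝ) * (N : ℝ) ^ (1 / 2 : ℝ) := by gcongr
        _ = N := by
            rw [← Real.rpow_add hN0]
            norm_num
  rw [e1]
  have k1 := key y₁ (by omega)
  have k2 := key y₂ hy2
  rw [abs_le] at k1 k2 ⊢
  constructor <;> linarith

end Pool.Agent.J4H40
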