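import Pool.Agent.J4H40.Zj
import Pool.Agent.H373R2.T7.SingLow

set_option autoImplicit false

/-! The main term for vectors of shifts with the singular series. -/

namespace Pool.Agent.J4H40

open Finset
open Pool.Agent.H373R2.T7
open Pool.Agent.R460.GS (la la_nn)

lemma log2_le {Y : ℕ} (hY : 1 ≤ Y) : (Nat.log 2 Y : ℝ) ≤ 2 * Real.log Y := by
  have h1 : 2 ^ Nat.log 2 Y ≤ Y := Nat.pow_log_le_self 2 (by omega)
  have h2 : ((2 : ℝ)) ^ Nat.log 2 Y ≤ Y := by exact_mod_cast h1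
  have h3 := Real.log_le_log (by positivity) h2
  rw [Real.log_pow] at h3
  have h4 : (1 / 2 : ℝ) ≤ Real.log 2 := by linarith [Real.log_two_gt_d9]
  have h5 : (0 : ℝ) ≤ Nat.log 2 Y := Nat.cast_nonneg _
  nlinarith

/-- the truncated singular series is close to the singular series -/
lemma singS (k V : ℕ) : ∃ E₀ : ℕ, ∀ E : ℕ, E₀ ≤ E → ∃ N₀ : ℕ, ∀ N : ℕ, N₀ ≤ N → ∀ h : Fin k → ℤ, (∀ i, h i ≠ 0) →
    (∀ i j, i ≠ j → h i ≠ h j) → (∀ i, -(N : ℤ) ≤ h i ∧ h i ≤ N) →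
    ∃ S : ℝ, Filter.Tendsto (fun z => singZ h z) Filter.atTop (nhds S) ∧
      |S - singZ h (zz N E)| ≤ 1 / Real.log N ^ V := by
  refine ⟨V + k + 3, fun E hE => ?_⟩
  obtain ⟨N₁, h1⟩ := bnds E
  obtain ⟨N₂, h2⟩ := Pool.Agent.R462.GS.evL (((k : ℝ) + 1) ^ 2 + 4 * (k + 1) * ((k + k * k) * 8) + 3 * (k + 1))
  obtain ⟨N₃, h3⟩ := scale3
  refine ⟨N₁ + N₂ + N₃ + 2, fun N hN h hh0 hhd hhN => ?_⟩
  obtain ⟨b1, b2, b3, -⟩ := h1 N (by omega)
  have hC := h2 N (by omega)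
  obtain ⟨-, l2, l3⟩ := h3 N (by omega)
  obtain ⟨S, hS, hSb⟩ := sing_limit h hh0 hhd
  refine ⟨S, hS, ?_⟩
  have hbad := card_badP h (2 * N) (fun i => by have := hhN i; omega) (fun i j => by
    have h1 := hhN i
    have h2 := hhN j
    omega)
  have hlog := log2_le (Y := 2 * N) (by omega)
  have hN0 : (0 : ℝ) < N := by exact_mod_cast (by omega : 0 < N)
  have hlog3 : Real.log (2 * N : ℕ) ≤ Real.log (3 * N : ℕ) := by
    apply Real.log_le_log (by exact_mod_cast (by omega : 0 < 2 * N))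
    exact_mod_cast (by omega : 2 * N ≤ 3 * N)
  obtain ⟨z, hz⟩ : ∃ z, z = zz N E := ⟨_, rfl⟩
  have hzE : Real.log (N : ℝ) ^ E ≤ z := by
    rw [hz]
    unfold zz
    refine le_trans ?_ (Nat.le_ceil _)
    exact pow_le_pow_left₀ (by linarith) l2 E
  rw [← hz] at b3 ⊢
  obtain ⟨l, hld⟩ : ∃ l, l = Real.log (N : ℝ) := ⟨_, rfl⟩
  rw [← hld] at b1 b3 hC l2 l3 hzE ⊢
  have hl0 : 0 < l := by linarith
  have hl1 : 1 ≤ l := by linarith
  have hlog' : (Nat.log 2 (2 * N) : ℝ) ≤ 8 * l := by linarith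
  have hKc : Kc h ≤ (((k : ℝ) + 1) ^ 2 + 4 * (k + 1) * ((k + k * k) * 8)) * l := by
    unfold Kc
    have h6 : ((badP h).card : ℝ) ≤ (k + k * k) * (8 * l) := by
      have h7 : ((badP h).card : ℝ) ≤ (k + k * k) * (Nat.log 2 (2 * N) : ℝ) := by exact_mod_cast hbad
      refine h7.trans ?_
      apply mul_le_mul_of_nonneg_left hlog' (by positivity)
    push_cast
    calc ((k : ℝ) + 1) ^ 2 + 4 * (k + 1) * ((badP h).card : ℝ) ≤
          ((k : ℝ) + 1) ^ 2 * l + 4 * (k + 1) * ((k + k * k) * (8 * l)) := by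
          apply add_le_add
          · exact le_mul_of_one_le_right (by positivity) hl1
          · gcongr
      _ = _ := by ring
  have hk0 : (0 : ℝ) ≤ k := Nat.cast_nonneg k
  have hKL : Kc h ≤ l ^ 2 := by
    refine hKc.trans ?_
    rw [show l ^ 2 = l * l from pow_two l]
    apply mul_le_mul_of_nonneg_right _ hl0.le
    linarith
  have hzpos : (0 : ℝ) < z := lt_of_lt_of_le (by positivity) hzE
  have hzl : l ^ 2 ≤ z := (pow_le_pow_right₀ hl1 (by omega)).trans hzE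
  have h3k : 3 * (k + 1) ≤ z := by
    have h6 : (3 * ((k : ℝ) + 1)) ≤ z := by
      have h7 : l ≤ l ^ 2 := by nlinarith
      have h8 : 0 ≤ ((k : ℝ) + 1) ^ 2 + 4 * (k + 1) * ((k + k * k) * 8) := by positivity
      linarith
    exact_mod_cast h6
  have hdiff := hSb z h3k (hKL.trans hzl)
  have hVp := Vz_pos z
  have hsz : singZ h z ≤ l ^ k := by
    refine (Pool.Agent.J4H40.singZ_le h z).trans ?_
    exact pow_le_pow_left₀ (inv_nonneg.2 hVp.le) b3 k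
  refine hdiff.trans ?_
  calc singZ h z * (Kc h / z) ≤ l ^ k * (l ^ 2 / l ^ E) := by
        apply mul_le_mul hsz _ (by
          apply div_nonneg _ hzpos.le
          unfold Kc; positivity) (by positivity)
        apply div_le_div₀ (by positivity) hKL (by positivity) hzE
    _ = l ^ (k + 2) / l ^ E := by rw [pow_add]; ring
    _ ≤ 1 / l ^ V := by
        rw [div_le_div_iff₀ (by positivity) (by positivity), one_mul, ← pow_add]
        exact pow_le_pow_right₀ hl1 (by omega)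

lemma singZ_nonadm {k : ℕ} (h : Fin k → ℤ) (hh : ¬ Admissible h) :
    Filter.Tendsto (fun z => singZ h z) Filter.atTop (nhds 0) := by
  unfold Admissible at hh
  push Not at hh
  obtain ⟨p, hp, h1⟩ := hh
  have hnu : nuP h p = p := by
    unfold nuP
    rw [filter_true_of_mem, card_range]
    intro r hr
    by_cases h2 : p ∣ r
    · exact Or.inl h2
    · right
      exact h1 r (by rwa [Int.natCast_dvd_natCast])
  apply tendsto_const_nhds.congr'
  filter_upwards [Filter.eventually_ge_atTop p] with z hz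
  unfold singZ
  symm
  apply prod_eq_zero (i := p)
  · rw [mem_filter, mem_Icc]
    exact ⟨⟨hp.one_le, hz⟩, hp⟩
  · rw [hnu, div_self (by exact_mod_cast hp.ne_zero), sub_self, zero_div]

/-- the main term, in all windows, with the singular series -/
theorem mainS (k V : ℕ) (hk : 1 ≤ k) : ∃ cs : ℝ, 0 < cs ∧ ∃ E₀ : ℕ, ∀ E : ℕ, E₀ ≤ E → ∃ N₀ : ℕ, ∀ N : ℕ, N₀ ≤ N →
    ∀ h : Fin k → ℤ, (∀ i, h i ≠ 0) → (∀ i j, i ≠ j → h i ≠ h j) → (∀ i, -(N : ℤ) ≤ h i ∧ h i ≤ N) →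
    ∃ S : ℝ, Filter.Tendsto (fun z => singZ h z) Filter.atTop (nhds S) ∧ (S = 0 ∨ cs ≤ S) ∧
      ∀ y₁ y₂ : ℕ, WinV N h y₁ y₂ →
        |∑ n ∈ Ioc y₁ y₂, la n * ∏ i, lamz (zz N E) (n + uu N h i - N) - S * ((y₂ : ℝ) - y₁)| ≤
          N / Real.log N ^ V := by
  obtain ⟨cs, hcs, h0⟩ := singZ_low k
  obtain ⟨E₀, h1⟩ := singS k (V + 1)
  refine ⟨cs, hcs, E₀, fun E hE => ?_⟩
  obtain ⟨N₁, h1⟩ := h1 E hE
  obtain ⟨N₂, h2⟩ := mainT k (V + 1) (2 * E + 1) hk
  obtain ⟨N₃, h3⟩ := scale3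
  refine ⟨N₁ + N₂ + N₃ + 2, fun N hN h hh0 hhd hhN => ?_⟩
  obtain ⟨S, hS, hSd⟩ := h1 N (by omega) h hh0 hhd hhN
  obtain ⟨l1, l2, l3⟩ := h3 N (by omega)
  refine ⟨S, hS, ?_, ?_⟩
  · by_cases ha : Admissible h
    · right
      exact ge_of_tendsto' hS fun z => h0 h ha z
    · left
      exact tendsto_nhds_unique hS (singZ_nonadm h ha)
  · intro y₁ y₂ hw
    have hm := h2 N (by omega) (zz N E) (zz_pos (by omega) E) (zz_le l1 l3 E) h y₁ y₂ hw.1 hw.2.1
      (fun i => (hhN i).1) hw.2.2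
    have hN0 : (0 : ℝ) < N := by exact_mod_cast (by omega : 0 < N)
    obtain ⟨l, hld⟩ : ∃ l, l = Real.log (N : ℝ) := ⟨_, rfl⟩
    rw [← hld] at l1 hm hSd ⊢
    have hl0 : 0 < l := by linarith
    have hy : (0 : ℝ) ≤ (y₂ : ℝ) - y₁ := by
      have : (y₁ : ℝ) ≤ y₂ := by exact_mod_cast hw.1
      linarith
    have hyN : (y₂ : ℝ) - y₁ ≤ N := by
      have h4 : (y₂ : ℝ) ≤ N := by exact_mod_cast hw.2.1
      have h5 : (0 : ℝ) ≤ y₁ := Nat.cast_nonneg _
      linarith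
    have h4 : |singZ h (zz N E) * ((y₂ : ℝ) - y₁) - S * ((y₂ : ℝ) - y₁)| ≤ 1 / l ^ (V + 1) * N := by
      rw [← sub_mul, abs_mul, abs_of_nonneg hy, abs_sub_comm]
      exact mul_le_mul hSd hyN hy (by positivity)
    have h5 := abs_add_le (∑ n ∈ Ioc y₁ y₂, la n * ∏ i, lamz (zz N E) (n + (h i + N).toNat - N) -
      singZ h (zz N E) * ((y₂ : ℝ) - y₁)) (singZ h (zz N E) * ((y₂ : ℝ) - y₁) - S * ((y₂ : ℝ) - y₁))
    rw [sub_add_sub_cancel] at h5
    unfold uu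
    refine h5.trans ((add_le_add hm h4).trans ?_)
    have e1 : N / l ^ (V + 1) + 1 / l ^ (V + 1) * N = 2 / l * (N / l ^ V) := by
      rw [pow_succ]
      field_simp
      ring
    rw [e1]
    have h6 : 2 / l ≤ 1 := by
      rw [div_le_one hl0]
      linarith
    calc 2 / l * (N / l ^ V) ≤ 1 * (N / l ^ V) := mul_le_mul_of_nonneg_right h6 (by positivity)
      _ = _ := one_mul _

end Pool.Agent.J4H40
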