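import Pool.Agent.J4H40.Lc
import Pool.Agent.J4H40.Zk
import Pool.Agent.Y820.LF.L

set_option autoImplicit false

/-! Linear forms: the singular series and the main term. -/

namespace Pool.Agent.J4H40

open Finset
open Pool.Agent.H373R2.T7
open Pool.Agent.R460.GS (la la_nn)
open Pool.Agent.Y820.LF (nuF singF AdmF)
open Pool.Agent.Y820.LF.M0 (per_QQ nuF_cons sing_eq1)

/-- the leading coefficients of the system `n, w i * n + h i` -/
abbrev Cw {k : ℕ} (w : Fin k → ℕ) : Fin (k + 1) → ℤ := Fin.cons 1 (fun i => (w i : ℤ))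

/-- the constant terms of the system `n, w i * n + h i` -/
abbrev Hw {k : ℕ} (h : Fin k → ℤ) : Fin (k + 1) → ℤ := Fin.cons 0 h

lemma nuF_self {k : ℕ} (C H : Fin k → ℤ) (p : ℕ) : nuF C H p ≤ p := by
  classical
  unfold nuF
  exact (card_filter_le _ _).trans (by rw [card_range])

lemma cw_ok {k W : ℕ} {w : Fin k → ℕ} (hW : 1 ≤ W) (hw : ∀ i, 1 ≤ w i ∧ w i ≤ W) :
    ∀ i, Cw w i ≠ 0 ∧ |Cw w i| ≤ W := by
  intro i
  refine Fin.cases ?_ (fun j => ?_) i
  · simp only [Cw, Fin.cons_zero]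
    refine ⟨one_ne_zero, ?_⟩
    rw [abs_one]
    exact_mod_cast hW
  · simp only [Cw, Fin.cons_succ]
    have := hw j
    refine ⟨by omega, ?_⟩
    rw [abs_of_nonneg (Int.natCast_nonneg _)]
    exact_mod_cast this.2

lemma dw_ok {k : ℕ} {w : Fin k → ℕ} {h : Fin k → ℤ} (h0 : ∀ i, h i ≠ 0)
    (hd : ∀ i j, i ≠ j → (w i : ℤ) * h j ≠ w j * h i) : ∀ i j, i ≠ j → Cw w i * Hw h j ≠ Cw w j * Hw h i := by
  intro i j
  refine Fin.cases ?_ (fun i' => ?_) i
  · refine Fin.cases ?_ (fun j' => ?_) j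
    · intro h
      exact absurd rfl h
    · intro _
      simp only [Cw, Hw, Fin.cons_zero, Fin.cons_succ, one_mul, mul_zero]
      exact h0 j'
  · refine Fin.cases ?_ (fun j' => ?_) j
    · intro _
      simp only [Cw, Hw, Fin.cons_zero, Fin.cons_succ, one_mul, mul_zero]
      exact (h0 i').symm
    · intro h
      simp only [Cw, Hw, Fin.cons_succ]
      apply hd
      intro e
      exact h (by rw [e])

lemma nonadm {k W : ℕ} {w : Fin k → ℕ} (hw : ∀ i, 1 ≤ w i ∧ w i ≤ W) {h : Fin k → ℤ} (hA : ¬ AdmF (Cw w) (Hw h))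
    {z : ℕ} (hz : W ≤ z) (hz2 : k + 1 ≤ z) : singW w h z = 0 := by
  unfold AdmF at hA
  push Not at hA
  obtain ⟨p, hp, h1⟩ := hA
  have h2 : nuF (Cw w) (Hw h) p = p := le_antisymm (nuF_self _ _ _) h1
  have h3 : p ≤ z := by
    by_contra hc
    rw [not_le] at hc
    have h4 : nuF (Cw w) (Hw h) p = rhoA (Qf (fun i => (w i : ℤ)) h) p + 1 := nuF_cons hp
    have h5 : rhoA (Qf (fun i => (w i : ℤ)) h) p ≤ k := by
      apply rho_le hp
      rintro i ⟨g1, -⟩
      have g2 := Nat.le_of_dvd (by have := (hw i).1; omega) (Int.natCast_dvd_natCast.1 g1)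
      have := (hw i).2
      omega
    omega
  unfold singW singF
  apply prod_eq_zero (i := p)
  · rw [mem_filter, mem_Icc]
    exact ⟨⟨hp.one_le, h3⟩, hp⟩
  · have h4 : (nuF (Cw w) (Hw h) p : ℝ) = p := by exact_mod_cast h2
    rw [h4, div_self (by exact_mod_cast hp.ne_zero), sub_self, zero_div]

/-- the lower bound for the singular series of admissible systems -/
noncomputable def csK (k : ℕ) : ℝ :=
  (1 / (3 * ((k + 1 : ℕ) : ℝ))) ^ (3 * (k + 1)) * Real.exp (-(2 * ((k + 1 : ℕ) : ℝ) ^ 2))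

lemma csK_pos (k : ℕ) : 0 < csK k := by
  unfold csK
  positivity

/-- the truncated singular series is close to the singular series -/
lemma singSW (k V : ℕ) : ∀ B E : ℕ, V + k + 3 + B ≤ E → ∃ N₀ : ℕ, ∀ N : ℕ, N₀ ≤ N →
    ∀ (W : ℕ) (w : Fin k → ℕ), 1 ≤ W → (W : ℝ) ≤ Real.log N ^ B → (∀ i, 1 ≤ w i ∧ w i ≤ W) →
    ∀ h : Fin k → ℤ, (∀ i, h i ≠ 0) → (∀ i j, i ≠ j → (w i : ℤ) * h j ≠ w j * h i) →
    (∀ i, -(N : ℤ) ≤ h i ∧ h i ≤ N) →
    W ≤ zz N E ∧ ∃ S : ℝ, Filter.Tendsto (fun z => singW w h z) Filter.atTop (nhds S) ∧ (S = 0 ∨ csK k ≤ S) ∧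
      (AdmF (Cw w) (Hw h) → csK k ≤ S) ∧ |S - singW w h (zz N E)| ≤ 1 / Real.log N ^ V := by
  intro B E hE
  obtain ⟨N₁, h1⟩ := bnds E
  obtain ⟨N₂, h2⟩ := Pool.Agent.R462.GS.evL (((k : ℝ) + 1) ^ 2 + 4 * (k + 1) * ((k + 1) * (k + 1) * 8) + 3 * (k + 1))
  obtain ⟨N₃, h3⟩ := scale3
  obtain ⟨N₄, h4⟩ := Pool.Agent.R462.GS.evlog B 3 1 (by norm_num)
  refine ⟨N₁ + N₂ + N₃ + N₄ + 2, fun N hN W w hW hWB hw h hh0 hhd hhN => ?_⟩
  obtain ⟨b1, b2, b3, -⟩ := h1 N (by omega)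
  have hC := h2 N (by omega)
  obtain ⟨-, l2, l3⟩ := h3 N (by omega)
  have hBN := h4 N (by omega)
  have hN0 : (0 : ℝ) < N := by exact_mod_cast (by omega : 0 < N)
  obtain ⟨z, hz⟩ : ∃ z, z = zz N E := ⟨_, rfl⟩
  have hzE : Real.log (N : ℝ) ^ E ≤ z := by
    rw [hz]
    unfold zz
    refine le_trans ?_ (Nat.le_ceil _)
    exact pow_le_pow_left₀ (by linarith) l2 E
  rw [← hz] at b3 ⊢
  have hlN : (Nat.log 2 ((2 * W * 1 + 1) * N) : ℝ) ≤ 4 * Real.log N := by
    have g1 := Pool.Agent.Y820.LF.L.log_le ((2 * W * 1 + 1) * N) (Nat.mul_pos (by omega) (by omega))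
    have g2 : Real.log (((2 * W * 1 + 1) * N : ℕ) : ℝ) ≤ 2 * Real.log N := by
      have g3 : (((2 * W * 1 + 1) * N : ℕ) : ℝ) ≤ (N : ℝ) ^ 2 := by
        push_cast
        rw [Real.rpow_one] at hBN
        have hW1 : (1 : ℝ) ≤ W := by exact_mod_cast hW
        nlinarith
      have g4 := Real.log_le_log (by
        have : 0 < (2 * W * 1 + 1) * N := Nat.mul_pos (by omega) (by omega)
        exact_mod_cast this) g3
      rw [Real.log_pow] at g4
      push_cast at g4 ⊢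
      exact g4
    linarith
  obtain ⟨l, hld⟩ : ∃ l, l = Real.log (N : ℝ) := ⟨_, rfl⟩
  rw [← hld] at b1 b3 hC l2 l3 hzE hlN hWB ⊢
  have hl0 : 0 < l := by linarith
  have hl1 : 1 ≤ l := by linarith
  have hk0 : (0 : ℝ) ≤ k := Nat.cast_nonneg k
  have hWz : W ≤ z := by
    have : (W : ℝ) ≤ z := hWB.trans ((pow_le_pow_right₀ hl1 (by omega)).trans hzE)
    exact_mod_cast this
  have h3k : 3 * (k + 1) ≤ z := by
    have h6 : (3 * ((k : ℝ) + 1)) ≤ z := by
      have h7 : l ≤ l ^ E := le_self_pow₀ hl1 (by omega)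
      have h8 : 0 ≤ ((k : ℝ) + 1) ^ 2 + 4 * (k + 1) * ((k + 1) * (k + 1) * 8) := by positivity
      linarith
    exact_mod_cast h6
  refine ⟨hWz, ?_⟩
  by_cases hA : AdmF (Cw w) (Hw h)
  · obtain ⟨S, hS, hSb⟩ := Pool.Agent.Y820.LF.L.sing_limit (Nat.succ_pos k) (Cw w) (Hw h) W (cw_ok hW hw)
      (dw_ok hh0 hhd) hA
    have hlow : csK k ≤ S := by
      refine ge_of_tendsto' hS fun z => ?_
      exact local_low (k + 1) (Nat.succ_pos k) (nuF (Cw w) (Hw h)) z
        (fun p hp => Pool.Agent.Y820.LF.L.nuF_le _ _ hA p (mem_pz.1 hp).2) (fun p hp => hA p (mem_pz.1 hp).2)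
    refine ⟨S, hS, Or.inr hlow, fun _ => hlow, ?_⟩
    · have hcard : ((Pool.Agent.Y820.LF.L.badP (Cw w) (Hw h)).card : ℝ) ≤ (k + 1) * (k + 1) * (4 * l) := by
        have g1 := Pool.Agent.Y820.LF.L.card_badP (Cw w) (Hw h) ((2 * W * 1 + 1) * N) (fun i j =>
          Pool.Agent.Y820.LF.L.disc_le W 1 N _ _ _ _ (cw_ok hW hw i).2 (cw_ok hW hw j).2 (by
            refine Fin.cases ?_ (fun i' => ?_) i
            · simp only [Hw, Fin.cons_zero, abs_zero]
              positivity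
            · simp only [Hw, Fin.cons_succ]
              rw [abs_le]
              have := hhN i'
              constructor <;> (push_cast; linarith)) (by
            refine Fin.cases ?_ (fun i' => ?_) j
            · simp only [Hw, Fin.cons_zero, abs_zero]
              positivity
            · simp only [Hw, Fin.cons_succ]
              rw [abs_le]
              have := hhN i'
              constructor <;> (push_cast; linarith)))
        have g2 : ((Pool.Agent.Y820.LF.L.badP (Cw w) (Hw h)).card : ℝ) ≤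
            ((k : ℝ) + 1) * (k + 1) * (Nat.log 2 ((2 * W * 1 + 1) * N) : ℝ) := by exact_mod_cast g1
        refine g2.trans ?_
        exact mul_le_mul_of_nonneg_left hlN (by positivity)
      have hKc0 : 0 ≤ Pool.Agent.Y820.LF.L.Kc (Cw w) (Hw h) := by
        unfold Pool.Agent.Y820.LF.L.Kc
        positivity
      have hKc : Pool.Agent.Y820.LF.L.Kc (Cw w) (Hw h) ≤ l ^ 2 := by
        have g1 : Pool.Agent.Y820.LF.L.Kc (Cw w) (Hw h) ≤
            (((k : ℝ) + 1) ^ 2 + 4 * (k + 1) * ((k + 1) * (k + 1) * 8)) * l := by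
          unfold Pool.Agent.Y820.LF.L.Kc
          push_cast
          calc ((k : ℝ) + 1) ^ 2 + 4 * (k + 1) * ((Pool.Agent.Y820.LF.L.badP (Cw w) (Hw h)).card : ℝ) ≤
                ((k : ℝ) + 1) ^ 2 * l + 4 * (k + 1) * ((k + 1) * (k + 1) * (8 * l)) := by
                apply add_le_add
                · exact le_mul_of_one_le_right (by positivity) hl1
                · apply mul_le_mul_of_nonneg_left _ (by positivity)
                  refine hcard.trans ?_
                  apply mul_le_mul_of_nonneg_left _ (by positivity)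
                  linarith
            _ = _ := by ring
        refine g1.trans ?_
        rw [show l ^ 2 = l * l from pow_two l]
        apply mul_le_mul_of_nonneg_right _ hl0.le
        linarith
      have hzpos : (0 : ℝ) < z := lt_of_lt_of_le (by positivity) hzE
      have hzl : l ^ 2 ≤ z := (pow_le_pow_right₀ hl1 (by omega)).trans hzE
      have hdiff := hSb z h3k hWz (hKc.trans hzl)
      have hVp := Vz_pos z
      have hsz : singW w h z ≤ l ^ k := by
        refine (singW_le w h z).trans ?_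
        exact pow_le_pow_left₀ (inv_nonneg.2 hVp.le) b3 k
      refine hdiff.trans ?_
      calc singF (Cw w) (Hw h) z * (Pool.Agent.Y820.LF.L.Kc (Cw w) (Hw h) / z) ≤ l ^ k * (l ^ 2 / l ^ E) := by
            apply mul_le_mul hsz _ (div_nonneg hKc0 hzpos.le) (by positivity)
            apply div_le_div₀ (by positivity) hKc (by positivity) hzE
        _ = l ^ (k + 2) / l ^ E := by rw [pow_add]; ring
        _ ≤ 1 / l ^ V := by
            rw [div_le_div_iff₀ (by positivity) (by positivity), one_mul, ← pow_add]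
            exact pow_le_pow_right₀ hl1 (by omega)
  · refine ⟨0, ?_, Or.inl rfl, fun h => absurd h hA, ?_⟩
    · apply tendsto_const_nhds.congr'
      filter_upwards [Filter.eventually_ge_atTop (W + (k + 1))] with z hz
      exact (nonadm hw hA (by omega) (by omega)).symm
    · rw [nonadm hw hA hWz (by omega)]
      simp only [sub_self, abs_zero]
      positivity

/-- the main term, in all windows, with the singular series -/
theorem mainSW (k V : ℕ) (hk : 1 ≤ k) : ∀ B E : ℕ, V + 1 + k + 3 + B ≤ E → ∃ N₀ : ℕ, ∀ N : ℕ,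
    N₀ ≤ N → ∀ (W : ℕ) (w : Fin k → ℕ), 1 ≤ W → (W : ℝ) ≤ Real.log N ^ B → (∀ i, 1 ≤ w i ∧ w i ≤ W) →
    ∀ h : Fin k → ℤ, (∀ i, h i ≠ 0) → (∀ i j, i ≠ j → (w i : ℤ) * h j ≠ w j * h i) →
    (∀ i, -(N : ℤ) ≤ h i ∧ h i ≤ N) →
    ∃ S : ℝ, Filter.Tendsto (fun z => singW w h z) Filter.atTop (nhds S) ∧ (S = 0 ∨ csK k ≤ S) ∧
      (AdmF (Cw w) (Hw h) → csK k ≤ S) ∧
      ∀ y₁ y₂ : ℕ, WinW N W w h y₁ y₂ →
        |∑ n ∈ Ioc y₁ y₂, la n * ∏ i, lamz (zz N E) (w i * n + uu N h i - N) - S * ((y₂ : ℝ) - y₁)| ≤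
          N / Real.log N ^ V := by
  intro B E hE
  obtain ⟨N₁, h1⟩ := singSW k (V + 1) B E hE
  obtain ⟨N₂, h2⟩ := mainW k (V + 1) (2 * E + 1) hk
  obtain ⟨N₃, h3⟩ := scale3
  refine ⟨N₁ + N₂ + N₃ + 2, fun N hN W w hW hWB hw h hh0 hhd hhN => ?_⟩
  obtain ⟨hWz, S, hS, hS0, hSa, hSd⟩ := h1 N (by omega) W w hW hWB hw h hh0 hhd hhN
  obtain ⟨l1, l2, l3⟩ := h3 N (by omega)
  refine ⟨S, hS, hS0, hSa, ?_⟩
  intro y₁ y₂ hwin
  have hm := h2 N (by omega) (zz N E) (zz_pos (by omega) E) (zz_le l1 l3 E) W w hWz hW hw h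
    (fun i => (hhN i).1) y₁ y₂ hwin
  have hN0 : (0 : ℝ) < N := by exact_mod_cast (by omega : 0 < N)
  obtain ⟨l, hld⟩ : ∃ l, l = Real.log (N : ℝ) := ⟨_, rfl⟩
  rw [← hld] at l1 hm hSd ⊢
  have hl0 : 0 < l := by linarith
  have hy : (0 : ℝ) ≤ (y₂ : ℝ) - y₁ := by
    have : (y₁ : ℝ) ≤ y₂ := by exact_mod_cast hwin.1
    linarith
  have hyN : (y₂ : ℝ) - y₁ ≤ N := by
    have h4 : (y₂ : ℝ) ≤ N := by
      exact_mod_cast le_trans (Nat.le_mul_of_pos_left y₂ (by omega)) hwin.2.1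
    have h5 : (0 : ℝ) ≤ y₁ := Nat.cast_nonneg _
    linarith
  have h4 : |singW w h (zz N E) * ((y₂ : ℝ) - y₁) - S * ((y₂ : ℝ) - y₁)| ≤ 1 / l ^ (V + 1) * N := by
    rw [← sub_mul, abs_mul, abs_of_nonneg hy, abs_sub_comm]
    exact mul_le_mul hSd hyN hy (by positivity)
  have h5 := abs_add_le (∑ n ∈ Ioc y₁ y₂, la n * ∏ i, lamz (zz N E) (w i * n + uu N h i - N) -
    singW w h (zz N E) * ((y₂ : ℝ) - y₁)) (singW w h (zz N E) * ((y₂ : ℝ) - y₁) - S * ((y₂ : ℝ) - y₁))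
  rw [sub_add_sub_cancel] at h5
  refine h5.trans ((add_le_add hm h4).trans ?_)
  have e1 : N / l ^ (V + 1) + 1 / l ^ (V + 1) * N = 2 / l * (N / l ^ V) := by
    rw [pow_succ]
    field_simp
    ring
  rw [e1]
  have h6 : 2 / l ≤ 1 := by
    rw [div_le_one hl0]
    linarith
  calc 2 / l * (N / l ^ V) ≤ 1 * (N / l ^ V) := mul_le_mul_of_nonneg_right h6 (by positivity)
    _ = _ := one_mul _

end Pool.Agent.J4H40
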