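import Pool.Agent.J4H40.Zn

set_option autoImplicit false

/-! Vectors of shifts in all classes of the regular moduli: the main theorem. -/

namespace Pool.Agent.J4H40

open Finset
open Pool.Agent.H373R2.T7 (singZ lamz Vz_pos)
open Pool.Agent.R460.GS (vm_le la la_nn)

/-- the asymptotic formula in a window -/
lemma asymV {k : ℕ} (A : ℕ) : ∃ N₀ : ℕ, ∀ N : ℕ, N₀ ≤ N → ∀ c : Fin k → ℕ → ℝ, (∀ i m, |c i m| ≤ 1) →
    ∀ E : ℕ, ∀ h : Fin k → ℤ, ∀ S : ℝ, ∀ y₁ y₂ : ℕ,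
      ‖∑ n ∈ Ioc y₁ y₂, ((la n : ℝ) : ℂ) * (((∏ i, trueF ∅ c i (n + uu N h i - N) : ℝ) : ℂ) -
        ((∏ i, modF ∅ c N (zz N E) i (n + uu N h i - N) : ℝ) : ℂ))‖ ≤ N / Real.log N ^ (A + 1) →
      |∑ n ∈ Ioc y₁ y₂, la n * ∏ i, lamz (zz N E) (n + uu N h i - N) - S * ((y₂ : ℝ) - y₁)| ≤
        N / Real.log N ^ (A + 1 + 2 * k) →
      |∑ n ∈ Ioc y₁ y₂, la n * ∏ i, GA (c i) (n + uu N h i - N) -
        (∏ i, Vd N (c i)) * S * ((y₂ : ℝ) - y₁)| ≤ N / Real.log N ^ A := by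
  obtain ⟨N₁, h1⟩ := Pool.Agent.R462.GS.evL 2
  refine ⟨N₁ + 1, fun N hN c hc E h S y₁ y₂ ha hm => ?_⟩
  have hl := h1 N (by omega)
  have hN0 : (0 : ℝ) < N := by exact_mod_cast (by omega : 0 < N)
  have hVd : ∀ i, |Vd N (c i)| ≤ 1 + Real.log N := fun i => harm_le (hc i)
  obtain ⟨l, hld⟩ : ∃ l, l = Real.log (N : ℝ) := ⟨_, rfl⟩
  rw [← hld] at hl ha hm hVd ⊢
  have hl0 : 0 < l := by linarith
  have hprod : |∏ i, Vd N (c i)| ≤ l ^ (2 * k) := by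
    rw [abs_prod]
    calc ∏ i, |Vd N (c i)| ≤ ∏ _i : Fin k, l ^ 2 := by
          apply prod_le_prod (fun i _ => abs_nonneg _)
          intro i _
          refine (hVd i).trans ?_
          nlinarith
      _ = l ^ (2 * k) := by rw [prod_const, card_univ, Fintype.card_fin, ← pow_mul]
  obtain ⟨T, hT⟩ : ∃ T, T = ∑ n ∈ Ioc y₁ y₂, la n * ∏ i, lamz (zz N E) (n + uu N h i - N) := ⟨_, rfl⟩
  obtain ⟨Q, hQ⟩ : ∃ Q, Q = ∑ n ∈ Ioc y₁ y₂, la n * ∏ i, GA (c i) (n + uu N h i - N) := ⟨_, rfl⟩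
  rw [← hT] at hm
  rw [← hQ]
  have ha' : |Q - (∏ i, Vd N (c i)) * T| ≤ N / l ^ (A + 1) := by
    rw [← Real.norm_eq_abs, ← Complex.norm_real]
    refine le_trans (le_of_eq ?_) ha
    congr 1
    rw [hQ, hT, mul_sum, ← sum_sub_distrib]
    push_cast
    refine sum_congr rfl fun n _ => ?_
    unfold trueF modF
    simp only [notMem_empty, if_false]
    push_cast
    rw [prod_mul_distrib]
    ring
  have h2 : |(∏ i, Vd N (c i)) * T - (∏ i, Vd N (c i)) * S * ((y₂ : ℝ) - y₁)| ≤ N / l ^ (A + 1) := by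
    have e : (∏ i, Vd N (c i)) * T - (∏ i, Vd N (c i)) * S * ((y₂ : ℝ) - y₁) =
        (∏ i, Vd N (c i)) * (T - S * ((y₂ : ℝ) - y₁)) := by ring
    rw [e, abs_mul]
    calc |∏ i, Vd N (c i)| * |T - S * ((y₂ : ℝ) - y₁)| ≤ l ^ (2 * k) * (N / l ^ (A + 1 + 2 * k)) :=
          mul_le_mul hprod hm (abs_nonneg _) (by positivity)
      _ = N / l ^ (A + 1) := by
          rw [pow_add l (A + 1)]
          field_simp
  have h3 := abs_add_le (Q - (∏ i, Vd N (c i)) * T) ((∏ i, Vd N (c i)) * T - (∏ i, Vd N (c i)) * S * ((y₂ : ℝ) - y₁))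
  rw [sub_add_sub_cancel] at h3
  refine h3.trans ((add_le_add ha' h2).trans ?_)
  have e : N / l ^ (A + 1) + N / l ^ (A + 1) = 2 / l * (N / l ^ A) := by
    rw [pow_succ]
    field_simp
    ring
  rw [e]
  have h6 : 2 / l ≤ 1 := by
    rw [div_le_one hl0]
    exact hl
  calc 2 / l * (N / l ^ A) ≤ 1 * (N / l ^ A) := mul_le_mul_of_nonneg_right h6 (by positivity)
    _ = _ := one_mul _

lemma la_bdN {N : ℕ} : ∀ m ∈ Icc 1 N, 0 ≤ la m ∧ la m ≤ Real.log N := fun m hm => ⟨la_nn m, vm_le hm⟩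

lemma modF_nn {k : ℕ} {J : Finset (Fin k)} {c : Fin k → ℕ → ℝ} (hc : ∀ i ∉ J, ∀ m, 0 ≤ c i m) (N z : ℕ) (i : Fin k)
    (t : ℕ) : 0 ≤ modF J c N z i t := by
  unfold modF
  split_ifs with hi
  · exact Pool.Agent.J4H40.lamz_nn _ t
  · apply mul_nonneg _ (Pool.Agent.J4H40.lamz_nn _ t)
    unfold Vd
    exact sum_nonneg fun m _ => div_nonneg (hc i hi m) (Nat.cast_nonneg _)

theorem allV {κ σ ρ : ℝ} (hκ : 0 < κ) (hσ0 : 0 < σ) (hσρ : σ < ρ) (hσ : σ ≤ 1 / 2) (k A M : ℕ) (hk : 1 ≤ k) :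
    ∃ k₀ : ℕ, ∀ A₀ : ℕ, ∃ E₀ : ℕ, ∀ E : ℕ, E₀ ≤ E → ∃ N₀ : ℕ, ∀ N : ℕ, N₀ ≤ N →
      ∀ c : Fin k → ℕ → ℝ, (∀ i, Co N κ σ (c i)) →
      ∃ D : Finset ℕ, (D.card : ℝ) ≤ Real.log N ^ k₀ ∧ (∀ d ∈ D, Real.log N ^ A₀ < (d : ℝ)) ∧
      ∀ q : Fin k → ℕ, (∀ i, 1 ≤ q i) → (∀ i, ∀ d ∈ D, ¬ d ∣ q i) → ∀ a : Fin k → ℤ,
        (∀ J : Finset (Fin k), (∀ i ∈ J, (q i : ℝ) ≤ (N : ℝ) ^ (5 / 6 - ρ)) →
          (∀ i ∉ J, (q i : ℝ) ≤ (N : ℝ) ^ (1 - ρ)) →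
          (FewV N q a A fun h => (∀ i, h i ≠ 0) ∧ (∀ i j, i ≠ j → h i ≠ h j) ∧ ∃ S : ℝ,
            Filter.Tendsto (fun z => singZ h z) Filter.atTop (nhds S) ∧
            ∀ y₁ y₂ : ℕ, WinV N h y₁ y₂ → (N : ℝ) / Real.log N ^ A ≤ (y₂ : ℝ) - y₁ →
              (13 / 100) ^ J.card * (M : ℝ) ^ (k - J.card) * (S * ((y₂ : ℝ) - y₁) / Real.log N ^ (k + 1)) ≤
                cntV ρ N J h y₁ y₂) ∧
          ((∀ i ∉ J, ∀ m, 0 ≤ c i m) → ∀ F : ℕ → ℝ, (∀ m ∈ Icc 1 N, 0 ≤ F m ∧ F m ≤ Real.log N) →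
            FewV N q a A fun h => ∀ y₁ y₂ : ℕ, WinV N h y₁ y₂ →
              (13 / 100) ^ J.card * ∑ n ∈ Ioc y₁ y₂, F n * ∏ i, modF J c N (zz N E) i (n + uu N h i - N) -
                N / Real.log N ^ A ≤ ∑ n ∈ Ioc y₁ y₂, F n * ∏ i, trueF J c i (n + uu N h i - N))) ∧
        ((∀ i, (q i : ℝ) ≤ (N : ℝ) ^ (1 - ρ)) →
          (FewV N q a A fun h => (∀ i, h i ≠ 0) ∧ (∀ i j, i ≠ j → h i ≠ h j) ∧ ∃ S : ℝ,
            Filter.Tendsto (fun z => singZ h z) Filter.atTop (nhds S) ∧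
            ∀ y₁ y₂ : ℕ, WinV N h y₁ y₂ →
              |∑ n ∈ Ioc y₁ y₂, la n * ∏ i, GA (c i) (n + uu N h i - N) -
                (∏ i, Vd N (c i)) * S * ((y₂ : ℝ) - y₁)| ≤ N / Real.log N ^ A) ∧
          ∀ F : ℕ → ℂ, (∀ m ∈ Icc 1 N, ‖F m‖ ≤ Real.log N) →
            FewV N q a A fun h => ∀ y₁ y₂ : ℕ, WinV N h y₁ y₂ →
              ‖∑ n ∈ Ioc y₁ y₂, F n * (((∏ i, trueF ∅ c i (n + uu N h i - N) : ℝ) : ℂ) -
                ((∏ i, modF ∅ c N (zz N E) i (n + uu N h i - N) : ℝ) : ℂ))‖ ≤ N / Real.log N ^ A) := by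
  have hρ : 0 < ρ := hσ0.trans hσρ
  obtain ⟨κ', σ', hκ', hσ', hσρ', hσ4', hcnt⟩ := cntLow hρ k M A hk
  obtain ⟨k₁, h1⟩ := vecL hκ hσ0 hσρ hσ k (A + 1)
  obtain ⟨k₂, h2⟩ := vecL hκ' hσ' hσρ' (by linarith) k (A + 1)
  obtain ⟨cs, hcs, E₃, h3⟩ := mainS k (A + 1 + 2 * k) hk
  obtain ⟨N₄, h4⟩ := hcnt cs hcs
  obtain ⟨N₅, h5⟩ := asymV (k := k) A
  obtain ⟨N₆, h6⟩ := distV hρ k (A + 1)
  obtain ⟨N₇, h7⟩ := Pool.Agent.R462.GS.evL 2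
  refine ⟨k₁ + k₂ + 1, fun A₀ => ?_⟩
  obtain ⟨E₁, h1⟩ := h1 A₀
  obtain ⟨E₂, h2⟩ := h2 A₀
  refine ⟨E₁ + E₂ + E₃, fun E hE => ?_⟩
  obtain ⟨N₁, h1⟩ := h1 E (by omega)
  obtain ⟨N₂, h2⟩ := h2 E (by omega)
  obtain ⟨N₃, h3⟩ := h3 E (by omega)
  refine ⟨N₁ + N₂ + N₃ + N₄ + N₅ + N₆ + N₇ + 1, fun N hN c hc => ?_⟩
  have hl2 := h7 N (by omega)
  have hN0 : (0 : ℝ) < N := by exact_mod_cast (by omega : 0 < N)
  have hN1 : (1 : ℝ) ≤ N := by exact_mod_cast (by omega : 1 ≤ N)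
  have hl0 : 0 < Real.log N := by linarith
  have hl1 : 1 ≤ Real.log N := by linarith
  obtain ⟨D₁, d1, e1, h1⟩ := h1 N (by omega) c hc
  obtain ⟨D₂, d2, e2, h2⟩ := h2 N (by omega) (fun _ => pc N κ' σ') (fun _ => pc_co N κ' σ')
  have herr : (N : ℝ) / Real.log N ^ (A + 1) ≤ N / Real.log N ^ A := by
    apply div_le_div_of_nonneg_left hN0.le (by positivity)
    exact pow_le_pow_right₀ hl1 (by omega)
  have hweak : ∀ (q : Fin k → ℕ) (a : Fin k → ℤ) (P : (Fin k → ℤ) → Prop), FewV N q a (A + 1) P → FewV N q a A P := by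
    intro q a P hP
    unfold FewV at hP ⊢
    refine hP.trans ?_
    apply div_le_div_of_nonneg_left (prod_nonneg fun _ _ => by positivity) (by positivity)
    exact pow_le_pow_right₀ hl1 (by omega)
  refine ⟨D₁ ∪ D₂, ?_, ?_, ?_⟩
  · have c1 : ((D₁ ∪ D₂).card : ℝ) ≤ (D₁.card : ℝ) + (D₂.card : ℝ) := by
      exact_mod_cast card_union_le _ _
    have c2 : Real.log N ^ k₁ ≤ Real.log N ^ (k₁ + k₂) := pow_le_pow_right₀ hl1 (by omega)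
    have c3 : Real.log N ^ k₂ ≤ Real.log N ^ (k₁ + k₂) := pow_le_pow_right₀ hl1 (by omega)
    have c4 : 0 ≤ Real.log N ^ (k₁ + k₂) := by positivity
    rw [pow_succ]
    nlinarith
  · intro d hd
    rw [mem_union] at hd
    rcases hd with hd | hd
    · exact e1 d hd
    · exact e2 d hd
  · intro q hq hqD a
    have q1 : ∀ i, ∀ d ∈ D₁, ¬ d ∣ q i := fun i d hd => hqD i d (mem_union_left _ hd)
    have q2 : ∀ i, ∀ d ∈ D₂, ¬ d ∣ q i := fun i d hd => hqD i d (mem_union_right _ hd)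
    obtain ⟨f1, f2⟩ := h1 q hq q1 a
    obtain ⟨g1, -⟩ := h2 q hq q2 a
    have hZ : ∀ h : Fin k → ℤ, (∀ i, h i ∈ SV N (q i) (a i)) → ∀ i, -(N : ℤ) ≤ h i ∧ h i ≤ N :=
      fun h hh i => (mem_SV.1 (hh i)).1
    refine ⟨fun J hJ hJc => ⟨?_, fun hc0 F hF => ?_⟩, fun hq1 => ⟨?_, fun F hF => ?_⟩⟩
    · have hq1 : ∀ i, (q i : ℝ) ≤ (N : ℝ) ^ (1 - ρ) := by
        intro i
        by_cases hi : i ∈ J
        · refine (hJ i hi).trans (Real.rpow_le_rpow_of_exponent_le hN1 (by linarith))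
        · exact hJc i hi
      refine fewV_and hl2 ?_ (g1 J hJ (fun i hi => ⟨hJc i hi, fun m => pc_nn _ _ _ _⟩) la la_bdN)
        (h6 N (by omega) q hq hq1 a)
      intro h hh hP hQ
      refine ⟨hQ.1, hQ.2, ?_⟩
      obtain ⟨S, hS, hS2, hS3⟩ := h3 N (by omega) h hQ.1 hQ.2 (hZ h hh)
      refine ⟨S, hS, fun y₁ y₂ hw hΔ => ?_⟩
      rcases hS2 with h0 | h0
      · rw [h0, zero_mul, zero_div, mul_zero]
        positivity
      · refine h4 N (by omega) E J h (hZ h hh) S h0 y₁ y₂ hw hΔ (hP y₁ y₂ hw) ((hS3 y₁ y₂ hw).trans ?_)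
        apply div_le_div_of_nonneg_left hN0.le (by positivity)
        exact pow_le_pow_right₀ hl1 (by omega)
    · refine hweak _ _ _ (fewV_mono ?_ (f1 J hJ (fun i hi => ⟨hJc i hi, hc0 i hi⟩) F hF))
      intro h hh hP y₁ y₂ hw
      have h8 := hP y₁ y₂ hw
      have h9 : 0 ≤ ∑ n ∈ Ioc y₁ y₂, F n * ∏ i, modF J c N (zz N E) i (n + uu N h i - N) := by
        refine sum_nonneg fun n hn => mul_nonneg ?_ (prod_nonneg fun i _ => modF_nn hc0 _ _ _ _)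
        rw [mem_Ioc] at hn
        have := hw.2.1
        exact (hF n (mem_Icc.2 ⟨by omega, by omega⟩)).1
      have h10 : ((13 : ℝ) / 100) ^ J.card ≤ (99 / 100 * (137 / 1000)) ^ J.card :=
        pow_le_pow_left₀ (by norm_num) (by norm_num) _
      have h11 := mul_le_mul_of_nonneg_right h10 h9
      linarith
    · refine fewV_and hl2 ?_ (f2 hq1 (fun n => ((la n : ℝ) : ℂ)) (by
        intro m hm
        rw [Complex.norm_real, Real.norm_eq_abs, abs_of_nonneg (la_nn m)]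
        exact (la_bdN m hm).2)) (h6 N (by omega) q hq hq1 a)
      intro h hh hP hQ
      refine ⟨hQ.1, hQ.2, ?_⟩
      obtain ⟨S, hS, -, hS3⟩ := h3 N (by omega) h hQ.1 hQ.2 (hZ h hh)
      refine ⟨S, hS, fun y₁ y₂ hw => ?_⟩
      exact h5 N (by omega) c (fun i => (hc i).le1) E h S y₁ y₂ (hP y₁ y₂ hw) (hS3 y₁ y₂ hw)
    · refine hweak _ _ _ (fewV_mono ?_ (f2 hq1 F hF))
      intro h hh hP y₁ y₂ hw
      exact (hP y₁ y₂ hw).trans herr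

end Pool.Agent.J4H40
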