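import Pool.Agent.J4H40.Ld
import Pool.Agent.J4H40.Lb
import Pool.Agent.J4H40.Zo

set_option autoImplicit false

/-! Linear forms: from the weighted sums to the number of the integers. -/

namespace Pool.Agent.J4H40

open Finset
open Pool.Agent.R460.GS (vm_le la la_nn)
open Pool.Agent.W93.GB (pp_nonneg sum_pp)

open Classical in
/-- the number of the wanted integers in a window -/
noncomputable def cntW {k : ℕ} (ρ : ℝ) (N : ℕ) (J : Finset (Fin k)) (w : Fin k → ℕ) (h : Fin k → ℤ) (y₁ y₂ : ℕ) : ℕ :=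
  ((Ioc y₁ y₂).filter fun n => n.Prime ∧ ∀ i, niceI ρ N J i (w i * n + uu N h i - N)).card

open Classical in
/-- from the weighted sum to the number -/
lemma cnt_leW {k N : ℕ} {κ σ ρ : ℝ} (hN : 2 ≤ N) (hσ0 : 0 < σ) (hσρ : (N : ℝ) ^ σ ≤ (N : ℝ) ^ ρ) (J : Finset (Fin k))
    {W : ℕ} {w : Fin k → ℕ} (hW1 : 1 ≤ W) (hwW : ∀ i, 1 ≤ w i ∧ w i ≤ W) (h : Fin k → ℤ) (hh : ∀ i, -(N : ℤ) ≤ h i ∧ h i ≤ N) {y₁ y₂ : ℕ}
    (hw : WinW N W w h y₁ y₂) :
    ∑ n ∈ Ioc y₁ y₂, la n * ∏ i, trueF J (fun _ => pc N κ σ) i (w i * n + uu N h i - N) ≤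
      Real.log (2 * N : ℕ) ^ (k + 1) * (cntW ρ N J w h y₁ y₂ +
        (k + 1) * ((N : ℝ) ^ σ * (4 * √((2 * N : ℕ) : ℝ) * Real.log (2 * N : ℕ)))) := by
  obtain ⟨X, hX⟩ : ∃ X, X = 2 * N := ⟨_, rfl⟩
  obtain ⟨L, hL⟩ : ∃ L, L = Real.log (X : ℝ) := ⟨_, rfl⟩
  rw [← hX, ← hL]
  have hL0 : 0 ≤ L := by rw [hL]; exact Real.log_natCast_nonneg _
  have hX1 : 1 ≤ X := by omega
  have hN1 : (1 : ℝ) ≤ (N : ℝ) ^ σ := Real.one_le_rpow (by exact_mod_cast (by omega : 1 ≤ N)) hσ0.le
  obtain ⟨w1, w2, w3⟩ := hw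
  have ht : ∀ n ∈ Ioc y₁ y₂, ∀ i, w i * n + uu N h i - N ∈ Icc 1 X := by
    intro n hn i
    rw [mem_Ioc] at hn
    rw [mem_Icc]
    have g1 := hh i
    have g2 := w3 i
    have g3 : w i * n ≤ N := (Nat.mul_le_mul (hwW i).2 hn.2).trans w2
    have g4 : w i * y₁ + 1 ≤ w i * n := by
      have g5 : w i * (y₁ + 1) ≤ w i * n := Nat.mul_le_mul_left _ hn.1
      have g6 := (hwW i).1
      rw [mul_add, mul_one] at g5
      omega
    have g7 : ((w i * y₁ : ℕ) : ℤ) = (w i : ℤ) * y₁ := by push_cast; ring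
    unfold uu
    omega
  have htn : ∀ n ∈ Ioc y₁ y₂, n ∈ Icc 1 X := by
    intro n hn
    rw [mem_Ioc] at hn
    rw [mem_Icc]
    have : y₂ ≤ N := le_trans (Nat.le_mul_of_pos_left y₂ (by omega)) w2
    omega
  have hlog : ∀ t ∈ Icc 1 X, Real.log t ≤ L := by
    intro t ht
    rw [mem_Icc] at ht
    rw [hL]
    exact Real.log_le_log (by exact_mod_cast ht.1) (by exact_mod_cast ht.2)
  have hla : ∀ t ∈ Icc 1 X, la t ≤ L := fun t ht => ArithmeticFunction.vonMangoldt_le_log.trans (hlog t ht)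
  have htr : ∀ i, ∀ t ∈ Icc 1 X, trueF J (fun _ => pc N κ σ) i t ≤ L := by
    intro i t ht
    unfold trueF
    split_ifs
    · exact hla t ht
    · exact ((le_abs_self _).trans (GA_abs (pc_co N κ σ).le1 t)).trans (hlog t ht)
  have htn0 : ∀ i, ∀ t, 0 ≤ trueF J (fun _ => pc N κ σ) i t := by
    intro i t
    unfold trueF
    split_ifs
    · exact la_nn t
    · unfold GA
      exact sum_nonneg fun d _ => mul_nonneg (pc_nn _ _ _ _) ArithmeticFunction.vonMangoldt_nonneg
  have hpt : ∀ n ∈ Ioc y₁ y₂, la n * ∏ i, trueF J (fun _ => pc N κ σ) i (w i * n + uu N h i - N) ≤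
      L ^ (k + 1) * ((if n.Prime ∧ ∀ i, niceI ρ N J i (w i * n + uu N h i - N) then (1 : ℝ) else 0) +
        ((if badI N σ n then (1 : ℝ) else 0) + ∑ i, (if badI N σ (w i * n + uu N h i - N) then (1 : ℝ) else 0))) := by
    intro n hn
    have k1 : la n * ∏ i, trueF J (fun _ => pc N κ σ) i (w i * n + uu N h i - N) ≤ L ^ (k + 1) := by
      have k2 : ∏ i, trueF J (fun _ => pc N κ σ) i (w i * n + uu N h i - N) ≤ L ^ k := by
        calc _ ≤ ∏ _i : Fin k, L := prod_le_prod (fun i _ => htn0 i _) fun i _ => htr i _ (ht n hn i)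
          _ = L ^ k := by rw [prod_const, card_univ, Fintype.card_fin]
      rw [pow_succ, mul_comm (L ^ k)]
      exact mul_le_mul (hla n (htn n hn)) k2 (prod_nonneg fun i _ => htn0 i _) hL0
    have i1 : (0 : ℝ) ≤ if n.Prime ∧ ∀ i, niceI ρ N J i (w i * n + uu N h i - N) then (1 : ℝ) else 0 := by
      split_ifs <;> norm_num
    have i2 : (0 : ℝ) ≤ if badI N σ n then (1 : ℝ) else 0 := by split_ifs <;> norm_num
    have i3 : ∀ i, (0 : ℝ) ≤ if badI N σ (w i * n + uu N h i - N) then (1 : ℝ) else 0 := by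
      intro i
      split_ifs <;> norm_num
    have i4 : 0 ≤ ∑ i, (if badI N σ (w i * n + uu N h i - N) then (1 : ℝ) else 0) := sum_nonneg fun i _ => i3 i
    have hLk : 0 ≤ L ^ (k + 1) := by positivity
    by_cases hg : n.Prime ∧ ∀ i, niceI ρ N J i (w i * n + uu N h i - N)
    · rw [if_pos hg]
      refine k1.trans (le_mul_of_one_le_right hLk ?_)
      linarith
    · by_cases hb : badI N σ n
      · rw [if_pos hb]
        refine k1.trans (le_mul_of_one_le_right hLk ?_)
        linarith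
      · by_cases hb2 : ∃ i, badI N σ (w i * n + uu N h i - N)
        · obtain ⟨i, hi⟩ := hb2
          refine k1.trans (le_mul_of_one_le_right hLk ?_)
          have k3 := single_le_sum (f := fun i => if badI N σ (w i * n + uu N h i - N) then (1 : ℝ) else 0)
            (fun i _ => i3 i) (mem_univ i)
          rw [if_pos hi] at k3
          linarith
        · push Not at hb2
          have k4 : la n * ∏ i, trueF J (fun _ => pc N κ σ) i (w i * n + uu N h i - N) = 0 := by
            by_cases hp : n.Prime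
            · have hg2 : ∃ i, ¬ niceI ρ N J i (w i * n + uu N h i - N) := by
                by_contra hcon
                push Not at hcon
                exact hg ⟨hp, hcon⟩
              obtain ⟨i, hi⟩ := hg2
              rw [prod_eq_zero (mem_univ i), mul_zero]
              unfold trueF
              by_cases hiJ : i ∈ J
              · rw [if_pos hiJ]
                apply la_dich (ht n hn i) _ (hb2 i) hN1
                intro hpr
                exact hi ⟨fun _ => hpr, fun h => absurd hiJ h⟩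
              · rw [if_neg hiJ]
                exact GA_dich hiJ hσρ hi (hb2 i)
            · rw [la_dich (htn n hn) hp hb hN1, zero_mul]
          rw [k4]
          positivity
  refine (sum_le_sum hpt).trans ?_
  rw [← mul_sum]
  apply mul_le_mul_of_nonneg_left _ (by positivity)
  rw [sum_add_distrib, sum_add_distrib]
  have hbc := bad_count (N := N) hX1 σ
  rw [← hL] at hbc
  obtain ⟨Bd, hBd⟩ : ∃ Bd, Bd = (N : ℝ) ^ σ * (4 * √(X : ℝ) * L) := ⟨_, rfl⟩
  rw [← hBd] at hbc ⊢
  have e1 : ∑ n ∈ Ioc y₁ y₂, (if n.Prime ∧ ∀ i, niceI ρ N J i (w i * n + uu N h i - N) then (1 : ℝ) else 0) =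
      cntW ρ N J w h y₁ y₂ := by
    unfold cntW
    rw [← sum_filter, sum_const, nsmul_eq_mul, mul_one]
  have e2 : ∑ n ∈ Ioc y₁ y₂, (if badI N σ n then (1 : ℝ) else 0) ≤ Bd := by
    rw [← sum_filter, sum_const, nsmul_eq_mul, mul_one]
    refine le_trans (Nat.cast_le.2 (card_le_card ?_)) hbc
    intro n hn
    rw [mem_filter] at hn ⊢
    exact ⟨htn n hn.1, hn.2⟩
  have e3 : ∑ n ∈ Ioc y₁ y₂, ∑ i, (if badI N σ (w i * n + uu N h i - N) then (1 : ℝ) else 0) ≤ k * Bd := by
    rw [sum_comm]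
    calc _ ≤ ∑ _i : Fin k, Bd := by
          refine sum_le_sum fun i _ => ?_
          rw [← sum_filter, sum_const, nsmul_eq_mul, mul_one]
          refine le_trans (Nat.cast_le.2 (card_le_card_of_injOn (fun n => w i * n + uu N h i - N) ?_ ?_)) hbc
          · intro n hn
            rw [mem_coe, mem_filter] at hn
            rw [mem_coe, mem_filter]
            exact ⟨ht n hn.1 i, hn.2⟩
          · intro n hn n' hn' e
            rw [mem_coe, mem_filter] at hn hn'
            have g1 := mem_Icc.1 (ht n hn.1 i)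
            have g2 := mem_Icc.1 (ht n' hn'.1 i)
            simp only at e
            have g3 : w i * n = w i * n' := by omega
            exact Nat.eq_of_mul_eq_mul_left (by have := (hwW i).1; omega) g3
      _ = k * Bd := by rw [sum_const, card_univ, Fintype.card_fin, nsmul_eq_mul]
  rw [e1]
  linarith

end Pool.Agent.J4H40
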