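import Pool.Agent.J4H40.Le

set_option autoImplicit false

/-! Linear forms: general position, the lower bound and the asymptotic formula. -/

namespace Pool.Agent.J4H40

open Finset
open Pool.Agent.H373R2.T7 (lamz Vz_pos)
open Pool.Agent.R460.GS (vm_le la la_nn)

/-- all but few vectors are in general position -/
lemma distW {ρ : ℝ} (hρ : 0 < ρ) (k A : ℕ) : ∃ N₀ : ℕ, ∀ N : ℕ, N₀ ≤ N → ∀ q : Fin k → ℕ, (∀ i, 1 ≤ q i) →
    (∀ i, (q i : ℝ) ≤ (N : ℝ) ^ (1 - ρ)) → ∀ a : Fin k → ℤ, ∀ w : Fin k → ℕ, (∀ i, 1 ≤ w i) →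
    FewV N q a A fun h => (∀ i, h i ≠ 0) ∧ ∀ i j, i ≠ j → (w i : ℤ) * h j ≠ w j * h i := by
  obtain ⟨N₁, h1⟩ := Pool.Agent.R462.GS.evlog (A + 1) (k + 1) ρ hρ
  obtain ⟨N₂, h2⟩ := Pool.Agent.R462.GS.evL ((k : ℝ) * 3 ^ k + 1)
  refine ⟨N₁ + N₂ + 2, fun N hN q hq hqN a w hw => ?_⟩
  have hp := h1 N (by omega)
  have hl := h2 N (by omega)
  have hN1 : (1 : ℝ) ≤ N := by exact_mod_cast (by omega : 1 ≤ N)
  have hN0 : (0 : ℝ) < N := by linarith
  have hq1 : ∀ i, q i ≤ N := by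
    intro i
    have : (q i : ℝ) ≤ N := by
      calc (q i : ℝ) ≤ (N : ℝ) ^ (1 - ρ) := hqN i
        _ ≤ (N : ℝ) ^ (1 : ℝ) := Real.rpow_le_rpow_of_exponent_le hN1 (by linarith)
        _ = N := Real.rpow_one _
    exact_mod_cast this
  obtain ⟨l, hld⟩ : ∃ l, l = Real.log (N : ℝ) := ⟨_, rfl⟩
  have h3k : (0 : ℝ) ≤ k * 3 ^ k := by positivity
  have hl0 : 0 < l := by rw [hld]; linarith
  have hfew := fewV_of (A := A) (V := A + 1) (P := fun j g t => t ≠ N ∧ ∀ i, i ≠ j →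
      (w i : ℤ) * ((t : ℤ) - N) ≠ w j * ((uu N g i : ℤ) - N)) (q := q) (a := a)
    hq hq1 le_rfl hl (fun j g s t => by
      have e : ∀ i, i ≠ j → uu N (Function.update g j s) i = uu N g i := fun i hi => by
        unfold uu
        rw [Function.update_of_ne hi]
      constructor
      · rintro ⟨h3, h4⟩
        exact ⟨h3, fun i hi => by rw [← e i hi]; exact h4 i hi⟩
      · rintro ⟨h3, h4⟩
        exact ⟨h3, fun i hi => by rw [e i hi]; exact h4 i hi⟩) (fun j g hg => by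
      classical
      unfold Few6
      have hsub : {h ∈ Icc (-(N : ℤ)) N | h ≡ a j [ZMOD q j] ∧
          ¬ ((h + N).toNat ≠ N ∧ ∀ i, i ≠ j →
            (w i : ℤ) * (((h + N).toNat : ℤ) - N) ≠ w j * ((uu N g i : ℤ) - N))} ⊆
          insert (0 : ℤ) ((univ.erase j).image fun i => (w j * g i) / w i) := by
        intro h hh
        rw [mem_filter, mem_Icc] at hh
        obtain ⟨⟨b1, b2⟩, -, h3⟩ := hh
        rw [mem_insert, mem_image]
        by_cases h0 : h = 0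
        · exact Or.inl h0
        · right
          by_contra hcon
          push Not at hcon
          apply h3
          refine ⟨by omega, fun i hi he => ?_⟩
          have h5 := hcon i (mem_erase.2 ⟨hi, mem_univ _⟩)
          have h6 := mem_SV.1 (hg i hi)
          have h7 : ((h + N).toNat : ℤ) - N = h := by omega
          have h8 : (uu N g i : ℤ) - N = g i := by
            unfold uu
            omega
          rw [h7, h8] at he
          apply h5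
          have h9 : (w i : ℤ) ≠ 0 := by
            have := hw i
            omega
          exact Int.ediv_eq_of_eq_mul_right h9 he.symm
      have hcard : ({h ∈ Icc (-(N : ℤ)) N | h ≡ a j [ZMOD q j] ∧
          ¬ ((h + N).toNat ≠ N ∧ ∀ i, i ≠ j →
            (w i : ℤ) * (((h + N).toNat : ℤ) - N) ≠ w j * ((uu N g i : ℤ) - N))}).card ≤ k + 1 := by
        refine (card_le_card hsub).trans ((card_insert_le _ _).trans ?_)
        have : ((univ.erase j).image fun i => ((w j : ℤ) * g i) / w i).card ≤ k := by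
          refine card_image_le.trans ?_
          rw [card_erase_of_mem (mem_univ j), card_univ, Fintype.card_fin]
          omega
        omega
      have hb : ((k : ℝ) + 1) ≤ N / (q j * Real.log N ^ (A + 1)) := by
        rw [← hld] at hp ⊢
        have hq0 : (0 : ℝ) < q j := by exact_mod_cast hq j
        rw [le_div_iff₀ (by positivity)]
        calc ((k : ℝ) + 1) * (q j * l ^ (A + 1)) = q j * ((k + 1) * l ^ (A + 1)) := by ring
          _ ≤ (N : ℝ) ^ (1 - ρ) * (N : ℝ) ^ ρ := mul_le_mul (hqN j) hp (by positivity) (by positivity)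
          _ = N := by
              rw [← Real.rpow_add hN0]
              norm_num
      refine le_trans ?_ hb
      exact_mod_cast hcard)
  refine fewV_mono ?_ hfew
  intro h hh hP
  constructor
  · intro i h0
    have := (hP i).1
    apply this
    rw [h0]
    omega
  · intro i j hij he
    have h3 := (hP j).2 i hij
    apply h3
    have g1 := mem_SV.1 (hh i)
    have g2 := mem_SV.1 (hh j)
    have g3 : (uu N h i : ℤ) - N = h i := by
      unfold uu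
      omega
    have g4 : (((h j + N).toNat : ℕ) : ℤ) - N = h j := by omega
    rw [g3, g4]
    exact he

open Classical in
/-- the lower bound for the number of the prime tuples in a window -/
lemma cntLowW {ρ : ℝ} (hρ : 0 < ρ) (k M A : ℕ) (hk : 1 ≤ k) : ∃ κ σ : ℝ, 0 < κ ∧ 0 < σ ∧ σ < ρ ∧ σ ≤ 1 / 4 ∧
    ∀ cs : ℝ, 0 < cs → ∃ N₀ : ℕ, ∀ N : ℕ, N₀ ≤ N → ∀ E : ℕ, ∀ J : Finset (Fin k), ∀ (W : ℕ) (w : Fin k → ℕ), 1 ≤ W →
      (∀ i, 1 ≤ w i ∧ w i ≤ W) → ∀ h : Fin k → ℤ,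
      (∀ i, -(N : ℤ) ≤ h i ∧ h i ≤ N) → ∀ S : ℝ, cs ≤ S → ∀ y₁ y₂ : ℕ, WinW N W w h y₁ y₂ →
      (N : ℝ) / Real.log N ^ A ≤ (y₂ : ℝ) - y₁ →
      (99 / 100 * (137 / 1000)) ^ J.card * ∑ n ∈ Ioc y₁ y₂, la n *
        ∏ i, modF J (fun _ => pc N κ σ) N (zz N E) i (w i * n + uu N h i - N) - N / Real.log N ^ (A + 1) ≤
        ∑ n ∈ Ioc y₁ y₂, la n * ∏ i, trueF J (fun _ => pc N κ σ) i (w i * n + uu N h i - N) →
      |∑ n ∈ Ioc y₁ y₂, la n * ∏ i, lamz (zz N E) (w i * n + uu N h i - N) - S * ((y₂ : ℝ) - y₁)| ≤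
        N / Real.log N ^ (A + 1) →
      (13 / 100) ^ J.card * (M : ℝ) ^ (k - J.card) * (S * ((y₂ : ℝ) - y₁) / Real.log N ^ (k + 1)) ≤
        cntW ρ N J w h y₁ y₂ := by
  obtain ⟨σ, hσd⟩ : ∃ σ : ℝ, σ = min ρ (1 / 2) / 2 := ⟨_, rfl⟩
  have hmin : 0 < min ρ (1 / 2) := lt_min hρ (by norm_num)
  have hσ0 : 0 < σ := by rw [hσd]; linarith
  have hσρ : 2 * σ ≤ ρ := by rw [hσd]; linarith [min_le_left ρ (1 / 2)]
  have hσ4 : σ ≤ 1 / 4 := by rw [hσd]; linarith [min_le_right ρ (1 / 2)]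
  obtain ⟨κ, hκd⟩ : ∃ κ : ℝ, κ = σ * Real.exp (-((2 * (M + 1) : ℕ) + 1 : ℝ)) := ⟨_, rfl⟩
  have hκ0 : 0 < κ := by rw [hκd]; positivity
  have hκσ : κ < σ := by
    rw [hκd]
    have : Real.exp (-((2 * (M + 1) : ℕ) + 1 : ℝ)) < 1 := by
      rw [Real.exp_lt_one_iff]
      have : (0 : ℝ) ≤ ((2 * (M + 1) : ℕ) : ℝ) := Nat.cast_nonneg _
      linarith
    nlinarith
  have hlogκ : ((2 * (M + 1) : ℕ) : ℝ) + 1 ≤ Real.log (σ / κ) := by
    have e : σ / κ = Real.exp ((2 * (M + 1) : ℕ) + 1 : ℝ) := by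
      rw [hκd, Real.exp_neg]
      field_simp
    rw [e, Real.log_exp]
  obtain ⟨N₁, h1⟩ := mert_low hκ0 hσ0 hlogκ hκσ (by linarith)
  refine ⟨κ, σ, hκ0, hσ0, by linarith, hσ4, fun cs hcs => ?_⟩
  obtain ⟨g0, hg0⟩ : ∃ g0 : ℝ, g0 = (13 / 100) ^ k := ⟨_, rfl⟩
  have hg00 : 0 < g0 := by rw [hg0]; positivity
  have hg01 : g0 ≤ 1 := by rw [hg0]; exact pow_le_one₀ (by norm_num) (by norm_num)
  obtain ⟨N₂, h2⟩ := log2pow k
  obtain ⟨N₃, h3⟩ := Pool.Agent.R462.GS.evL (140 / (cs * g0) + 1)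
  obtain ⟨N₄, h4⟩ := Pool.Agent.R462.GS.evlog (A + k + 3) ((k + 1) * 32) (1 / 4) (by norm_num)
  refine ⟨N₁ + N₂ + N₃ + N₄ + 2, fun N hN E J W₁ w hW₁ hwW h hh S hS y₁ y₂ hw hΔ hlow hmain => ?_⟩
  have hN1 : 1 ≤ N := by omega
  have hW := h1 N (by omega)
  obtain ⟨l1, l2⟩ := h2 N (by omega)
  have hl := h3 N (by omega)
  have hp := h4 N (by omega)
  have hN0 : (0 : ℝ) < N := by exact_mod_cast (by omega : 0 < N)
  have hN1r : (1 : ℝ) ≤ N := by exact_mod_cast hN1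
  have hup := cnt_leW (κ := κ) (ρ := ρ) (by omega) hσ0
    (Real.rpow_le_rpow_of_exponent_le hN1r (by linarith) : (N : ℝ) ^ σ ≤ (N : ℝ) ^ ρ) J hW₁ hwW h hh hw
  have hjk : J.card ≤ k := by
    have := card_le_univ J
    rwa [Fintype.card_fin] at this
  push_cast at hW
  have hcoef := coefG (M := M) hk hjk (W := Vd N (pc N κ σ)) (by linarith)
  have hmodF : ∑ n ∈ Ioc y₁ y₂, la n * ∏ i, modF J (fun _ => pc N κ σ) N (zz N E) i (w i * n + uu N h i - N) =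
      Vd N (pc N κ σ) ^ (k - J.card) * ∑ n ∈ Ioc y₁ y₂, la n * ∏ i, lamz (zz N E) (w i * n + uu N h i - N) := by
    rw [mul_sum]
    refine sum_congr rfl fun n _ => ?_
    rw [prod_modF J (pc N κ σ) N (zz N E) fun i => w i * n + uu N h i - N]
    ring
  rw [hmodF] at hlow
  obtain ⟨T, hT⟩ : ∃ T, T = ∑ n ∈ Ioc y₁ y₂, la n * ∏ i, lamz (zz N E) (w i * n + uu N h i - N) := ⟨_, rfl⟩
  have hT0 : 0 ≤ T := by
    rw [hT]
    exact sum_nonneg fun n _ => mul_nonneg (la_nn n) (prod_nonneg fun i _ => Pool.Agent.J4H40.lamz_nn _ _)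
  rw [← hT] at hlow hmain
  obtain ⟨Q, hQ⟩ : ∃ Q, Q = ∑ n ∈ Ioc y₁ y₂, la n * ∏ i, trueF J (fun _ => pc N κ σ) i (w i * n + uu N h i - N) := ⟨_, rfl⟩
  rw [← hQ] at hlow hup
  obtain ⟨C, hC⟩ : ∃ C : ℝ, C = (cntW ρ N J w h y₁ y₂ : ℕ) := ⟨_, rfl⟩
  rw [← hC] at hup ⊢
  have hC0 : 0 ≤ C := by rw [hC]; positivity
  obtain ⟨Δ, hΔd⟩ : ∃ Δ : ℝ, Δ = (y₂ : ℝ) - y₁ := ⟨_, rfl⟩
  rw [← hΔd] at hΔ hmain ⊢
  obtain ⟨G, hG⟩ : ∃ G : ℝ, G = (13 / 100) ^ J.card * ((M : ℝ) + 1) ^ (k - J.card) := ⟨_, rfl⟩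
  rw [← hG] at hcoef
  have hM0 : (0 : ℝ) ≤ M := Nat.cast_nonneg M
  have hGg : g0 ≤ G := by
    rw [hG, hg0]
    calc ((13 : ℝ) / 100) ^ k ≤ (13 / 100) ^ J.card := pow_le_pow_of_le_one (by norm_num) (by norm_num) hjk
      _ = (13 / 100) ^ J.card * 1 := (mul_one _).symm
      _ ≤ _ := mul_le_mul_of_nonneg_left (one_le_pow₀ (by linarith)) (by positivity)
  have hG0 : 0 < G := by linarith
  obtain ⟨L, hL⟩ : ∃ L, L = Real.log (2 * N : ℕ) := ⟨_, rfl⟩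
  obtain ⟨l, hld⟩ : ∃ l, l = Real.log (N : ℝ) := ⟨_, rfl⟩
  rw [← hL] at l1 l2 hup
  rw [← hld] at l1 l2 hl hp hΔ hlow hmain ⊢
  have hcg : 0 < cs * g0 := by positivity
  have hl140 : 140 ≤ l * (cs * g0) := by
    have h5 : 140 / (cs * g0) ≤ l := by linarith
    rwa [div_le_iff₀ hcg] at h5
  have hl1 : 1 ≤ l := by
    have : 0 < 140 / (cs * g0) := by positivity
    linarith
  have hl0 : 0 < l := by linarith
  have hL0 : 0 ≤ L := by rw [hL]; exact Real.log_natCast_nonneg _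
  obtain ⟨e, he⟩ : ∃ e : ℝ, e = N / l ^ (A + 1) := ⟨_, rfl⟩
  have he0 : 0 < e := by rw [he]; positivity
  rw [← he] at hlow hmain
  have hΔe : e * l ≤ Δ := by
    have e1 : e * l = N / l ^ A := by
      rw [he, pow_succ]
      field_simp
    rw [e1]
    exact hΔ
  -- the error of the prime powers
  have herr : L ^ (k + 1) * ((k + 1) * ((N : ℝ) ^ σ * (4 * √((2 * N : ℕ) : ℝ) * L))) ≤ e := by
    have k1 : (N : ℝ) ^ σ ≤ (N : ℝ) ^ (1 / 4 : ℝ) := Real.rpow_le_rpow_of_exponent_le hN1r hσ4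
    have k2 : √((2 * N : ℕ) : ℝ) ≤ 2 * (N : ℝ) ^ (1 / 2 : ℝ) := by
      rw [← Real.sqrt_eq_rpow]
      apply Real.sqrt_le_iff.2
      constructor
      · positivity
      · rw [mul_pow, Real.sq_sqrt hN0.le]
        push_cast
        linarith
    have k3 : L ^ (k + 1) ≤ 2 * l ^ (k + 1) := by
      have : 0 < l ^ (k + 1) := by positivity
      linarith
    rw [he, le_div_iff₀ (by positivity)]
    calc L ^ (k + 1) * ((k + 1) * ((N : ℝ) ^ σ * (4 * √((2 * N : ℕ) : ℝ) * L))) * l ^ (A + 1) ≤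
          2 * l ^ (k + 1) * ((k + 1) * ((N : ℝ) ^ (1 / 4 : ℝ) * (4 * (2 * (N : ℝ) ^ (1 / 2 : ℝ)) * (2 * l)))) *
            l ^ (A + 1) := by
          gcongr
      _ = (N : ℝ) ^ (1 / 4 : ℝ) * (N : ℝ) ^ (1 / 2 : ℝ) * ((k + 1) * 32 * l ^ (A + k + 3)) := by
          rw [show A + k + 3 = (k + 1) + (A + 1) + 1 by ring, pow_add, pow_add, pow_one]
          ring
      _ ≤ (N : ℝ) ^ (1 / 4 : ℝ) * (N : ℝ) ^ (1 / 2 : ℝ) * (N : ℝ) ^ (1 / 4 : ℝ) := by gcongr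
      _ = N := by
          rw [← Real.rpow_add hN0, ← Real.rpow_add hN0]
          norm_num
  have hm1 := (abs_le.1 hmain).1
  have hTS : S * Δ - e ≤ T := by linarith
  have hQ1 : 104 / 100 * G * (S * Δ - e) - e ≤ Q := by
    have k1 : 104 / 100 * G * (S * Δ - e) ≤ 104 / 100 * G * T := mul_le_mul_of_nonneg_left hTS (by positivity)
    have k2 := mul_le_mul_of_nonneg_right hcoef hT0
    have k3 : (99 / 100 * (137 / 1000)) ^ J.card * (Vd N (pc N κ σ) ^ (k - J.card) * T) =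
        (99 / 100 * (137 / 1000)) ^ J.card * Vd N (pc N κ σ) ^ (k - J.card) * T := by ring
    rw [k3] at hlow
    linarith
  have hQ2 : Q ≤ 101 / 100 * l ^ (k + 1) * C + e := by
    have k1 : L ^ (k + 1) * C ≤ 101 / 100 * l ^ (k + 1) * C := mul_le_mul_of_nonneg_right l1 hC0
    rw [mul_add] at hup
    linarith
  have hΔ0 : 0 < Δ := lt_of_lt_of_le (by positivity) hΔe
  have hfin : G * (S * Δ) ≤ l ^ (k + 1) * C := by
    have hcsΔ : cs * Δ ≤ S * Δ := mul_le_mul_of_nonneg_right hS hΔ0.le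
    have k1 : 140 * e ≤ g0 * (S * Δ) := by
      calc 140 * e ≤ l * (cs * g0) * e := mul_le_mul_of_nonneg_right hl140 he0.le
        _ = g0 * (cs * (e * l)) := by ring
        _ ≤ g0 * (cs * Δ) := by gcongr
        _ ≤ g0 * (S * Δ) := by gcongr
    have hSΔ : 0 ≤ S * Δ := by
      have : 0 < cs * Δ := by positivity
      linarith
    have k2 : 140 * e ≤ S * Δ := by nlinarith
    have k3 : 140 * e ≤ G * (S * Δ) := k1.trans (mul_le_mul_of_nonneg_right hGg hSΔ)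
    have k4 : G * (140 * e) ≤ G * (S * Δ) := mul_le_mul_of_nonneg_left k2 hG0.le
    nlinarith
  have hSΔ0 : 0 ≤ S * Δ := by
    have : 0 < S := lt_of_lt_of_le hcs hS
    positivity
  have hMG : (13 / 100) ^ J.card * (M : ℝ) ^ (k - J.card) ≤ G := by
    rw [hG]
    apply mul_le_mul_of_nonneg_left _ (by positivity)
    exact pow_le_pow_left₀ hM0 (by linarith) _
  calc (13 / 100) ^ J.card * (M : ℝ) ^ (k - J.card) * (S * Δ / l ^ (k + 1)) ≤ G * (S * Δ / l ^ (k + 1)) :=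
        mul_le_mul_of_nonneg_right hMG (by positivity)
    _ = G * (S * Δ) / l ^ (k + 1) := by ring
    _ ≤ C := by
        rw [div_le_iff₀ (by positivity)]
        linarith

/-- the asymptotic formula in a window -/
lemma asymW {k : ℕ} (A : ℕ) : ∃ N₀ : ℕ, ∀ N : ℕ, N₀ ≤ N → ∀ c : Fin k → ℕ → ℝ, (∀ i m, |c i m| ≤ 1) →
    ∀ E : ℕ, ∀ w : Fin k → ℕ, ∀ h : Fin k → ℤ, ∀ S : ℝ, ∀ y₁ y₂ : ℕ,
      ‖∑ n ∈ Ioc y₁ y₂, ((la n : ℝ) : ℂ) * (((∏ i, trueF ∅ c i (w i * n + uu N h i - N) : ℝ) : ℂ) -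
        ((∏ i, modF ∅ c N (zz N E) i (w i * n + uu N h i - N) : ℝ) : ℂ))‖ ≤ N / Real.log N ^ (A + 1) →
      |∑ n ∈ Ioc y₁ y₂, la n * ∏ i, lamz (zz N E) (w i * n + uu N h i - N) - S * ((y₂ : ℝ) - y₁)| ≤
        N / Real.log N ^ (A + 1 + 2 * k) →
      |∑ n ∈ Ioc y₁ y₂, la n * ∏ i, GA (c i) (w i * n + uu N h i - N) -
        (∏ i, Vd N (c i)) * S * ((y₂ : ℝ) - y₁)| ≤ N / Real.log N ^ A := by
  obtain ⟨N₁, h1⟩ := Pool.Agent.R462.GS.evL 2
  refine ⟨N₁ + 1, fun N hN c hc E w h S y₁ y₂ ha hm => ?_⟩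
  have hl := h1 N (by omega)
  have hN0 : (0 : ℝ) < N := by exact_mod_cast (by omega : 0 < N)
  have hVd : ∀ i, |Vd N (c i)| ≤ 1 + Real.log N := fun i => harm_le (hc i)
  obtain ⟨l, hld⟩ : ∃ l, l = Real.log (N : ℝ) := ⟨_, rfl⟩
  rw [← hld] at hl ha hm hVd ⊢
  have hl0 : 0 < l := by linarith
  have hprod : |∏ i, Vd N (c i)| ≤ l ^ (2 * k) := by
    rw [abs_prod]
    calc ∏ i, |Vd N (c i)| ≤ ∏ _i : Fin k, l ^ 2 := by
          apply prod_le_prod (fun i _ => abs_nonneg _)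
          intro i _
          refine (hVd i).trans ?_
          nlinarith
      _ = l ^ (2 * k) := by rw [prod_const, card_univ, Fintype.card_fin, ← pow_mul]
  obtain ⟨T, hT⟩ : ∃ T, T = ∑ n ∈ Ioc y₁ y₂, la n * ∏ i, lamz (zz N E) (w i * n + uu N h i - N) := ⟨_, rfl⟩
  obtain ⟨Q, hQ⟩ : ∃ Q, Q = ∑ n ∈ Ioc y₁ y₂, la n * ∏ i, GA (c i) (w i * n + uu N h i - N) := ⟨_, rfl⟩
  rw [← hT] at hm
  rw [← hQ]
  have ha' : |Q - (∏ i, Vd N (c i)) * T| ≤ N / l ^ (A + 1) := by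
    rw [← Real.norm_eq_abs, ← Complex.norm_real]
    refine le_trans (le_of_eq ?_) ha
    congr 1
    rw [hQ, hT, mul_sum, ← sum_sub_distrib]
    push_cast
    refine sum_congr rfl fun n _ => ?_
    unfold trueF modF
    simp only [notMem_empty, if_false]
    push_cast
    rw [prod_mul_distrib]
    ring
  have h2 : |(∏ i, Vd N (c i)) * T - (∏ i, Vd N (c i)) * S * ((y₂ : ℝ) - y₁)| ≤ N / l ^ (A + 1) := by
    have e : (∏ i, Vd N (c i)) * T - (∏ i, Vd N (c i)) * S * ((y₂ : ℝ) - y₁) =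
        (∏ i, Vd N (c i)) * (T - S * ((y₂ : ℝ) - y₁)) := by ring
    rw [e, abs_mul]
    calc |∏ i, Vd N (c i)| * |T - S * ((y₂ : ℝ) - y₁)| ≤ l ^ (2 * k) * (N / l ^ (A + 1 + 2 * k)) :=
          mul_le_mul hprod hm (abs_nonneg _) (by positivity)
      _ = N / l ^ (A + 1) := by
          rw [pow_add l (A + 1)]
          field_simp
  have h3 := abs_add_le (Q - (∏ i, Vd N (c i)) * T) ((∏ i, Vd N (c i)) * T - (∏ i, Vd N (c i)) * S * ((y₂ : ℝ) - y₁))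
  rw [sub_add_sub_cancel] at h3
  refine h3.trans ((add_le_add ha' h2).trans ?_)
  have e : N / l ^ (A + 1) + N / l ^ (A + 1) = 2 / l * (N / l ^ A) := by
    rw [pow_succ]
    field_simp
    ring
  rw [e]
  have h6 : 2 / l ≤ 1 := by
    rw [div_le_one hl0]
    exact hl
  calc 2 / l * (N / l ^ A) ≤ 1 * (N / l ^ A) := mul_le_mul_of_nonneg_right h6 (by positivity)
    _ = _ := one_mul _

end Pool.Agent.J4H40
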