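import Pool.Agent.J4H40.Lg

set_option autoImplicit false

/-! Chains `p_(i+1) = m_i p_i + e_i`. -/

namespace Pool.Agent.J4H40

open Finset

/-- the chain `p_0 = n`, `p_(i+1) = m_i p_i + e_i` -/
def ch {k : ℕ} (m : Fin k → ℕ) (e : Fin k → ℤ) (n : ℤ) : ℕ → ℤ
  | 0 => n
  | i + 1 => if h : i < k then m ⟨i, h⟩ * ch m e n i + e ⟨i, h⟩ else 0

/-- the product of the first multipliers -/
def pw {k : ℕ} (m : Fin k → ℕ) : ℕ → ℕ
  | 0 => 1
  | i + 1 => if h : i < k then m ⟨i, h⟩ * pw m i else 0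

lemma ch_succ {k : ℕ} (m : Fin k → ℕ) (e : Fin k → ℤ) (n : ℤ) {i : ℕ} (h : i < k) :
    ch m e n (i + 1) = m ⟨i, h⟩ * ch m e n i + e ⟨i, h⟩ := by
  rw [ch, dif_pos h]

lemma pw_succ {k : ℕ} (m : Fin k → ℕ) {i : ℕ} (h : i < k) : pw m (i + 1) = m ⟨i, h⟩ * pw m i := by
  rw [pw, dif_pos h]

lemma ch_eq {k : ℕ} (m : Fin k → ℕ) (e : Fin k → ℤ) (n : ℤ) : ∀ i ≤ k, ch m e n i = pw m i * n + ch m e 0 i := by
  intro i
  induction i with
  | zero =>
    intro _
    simp [ch, pw]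
  | succ i ih =>
    intro hi
    have h : i < k := hi
    rw [ch_succ m e n h, ch_succ m e 0 h, pw_succ m h, ih (by omega)]
    push_cast
    ring

lemma pw_pos {k : ℕ} {m : Fin k → ℕ} (hm : ∀ i, 1 ≤ m i) : ∀ i ≤ k, 1 ≤ pw m i := by
  intro i
  induction i with
  | zero =>
    intro _
    simp [pw]
  | succ i ih =>
    intro hi
    have h : i < k := hi
    rw [pw_succ m h]
    exact Nat.mul_pos (hm _) (ih (by omega))

lemma pw_prod {k : ℕ} (m : Fin k → ℕ) : ∀ i ≤ k, pw m i = ∏ j ∈ univ.filter (fun j : Fin k => (j : ℕ) < i), m j := by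
  intro i
  induction i with
  | zero =>
    intro _
    simp [pw]
  | succ i ih =>
    intro hi
    have h : i < k := hi
    rw [pw_succ m h, ih (by omega)]
    have e1 : univ.filter (fun j : Fin k => (j : ℕ) < i + 1) =
        insert ⟨i, h⟩ (univ.filter (fun j : Fin k => (j : ℕ) < i)) := by
      ext j
      rw [mem_insert, mem_filter, mem_filter]
      constructor
      · rintro ⟨-, h2⟩
        by_cases h3 : (j : ℕ) = i
        · exact Or.inl (Fin.ext h3)
        · exact Or.inr ⟨mem_univ _, by omega⟩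
      · rintro (h2 | h2)
        · rw [h2]
          exact ⟨mem_univ _, Nat.lt_succ_self _⟩
        · exact ⟨mem_univ _, by have := h2.2; omega⟩
    rw [e1, prod_insert]
    rw [mem_filter]
    rintro ⟨-, h2⟩
    exact lt_irrefl _ h2

lemma pw_le {k : ℕ} {m : Fin k → ℕ} (hm : ∀ i, 1 ≤ m i) {i : ℕ} (hi : i ≤ k) : pw m i ≤ ∏ j, m j := by
  rw [pw_prod m i hi]
  exact prod_le_prod_of_subset_of_one_le' (filter_subset _ _) fun j _ _ => hm j

lemma ch_bd {k : ℕ} {m : Fin k → ℕ} (hm : ∀ i, 1 ≤ m i) {e : Fin k → ℤ} {R : ℤ} (hR : ∀ i, |e i| ≤ R) :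
    ∀ i ≤ k, |ch m e 0 i| ≤ i * (pw m i * R) := by
  intro i
  induction i with
  | zero =>
    intro _
    simp [ch]
  | succ i ih =>
    intro hi
    have h : i < k := hi
    have h1 := ih (by omega)
    have h2 := pw_pos hm (i + 1) hi
    have h3 : (pw m (i + 1) : ℤ) = m ⟨i, h⟩ * pw m i := by
      rw [pw_succ m h]
      push_cast
      ring
    have hR0 : 0 ≤ R := (abs_nonneg _).trans (hR ⟨i, h⟩)
    rw [ch_succ m e 0 h]
    calc |(m ⟨i, h⟩ : ℤ) * ch m e 0 i + e ⟨i, h⟩| ≤ |(m ⟨i, h⟩ : ℤ) * ch m e 0 i| + |e ⟨i, h⟩| := abs_add_le _ _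
      _ = m ⟨i, h⟩ * |ch m e 0 i| + |e ⟨i, h⟩| := by rw [abs_mul, Int.abs_natCast]
      _ ≤ m ⟨i, h⟩ * (i * (pw m i * R)) + 1 * R := by
          apply add_le_add
          · exact mul_le_mul_of_nonneg_left h1 (Int.natCast_nonneg _)
          · rw [one_mul]
            exact hR _
      _ ≤ m ⟨i, h⟩ * (i * (pw m i * R)) + pw m (i + 1) * R := by
          have : (1 : ℤ) ≤ pw m (i + 1) := by exact_mod_cast h2
          have := mul_le_mul_of_nonneg_right this hR0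
          linarith
      _ = ((i + 1 : ℕ) : ℤ) * (pw m (i + 1) * R) := by
          rw [h3]
          push_cast
          ring

lemma ch_inj {k : ℕ} {m : Fin k → ℕ} {e e' : Fin k → ℤ}
    (h : ∀ i : Fin k, ch m e 0 ((i : ℕ) + 1) = ch m e' 0 ((i : ℕ) + 1)) : e = e' := by
  funext i
  have h1 : ch m e 0 i = ch m e' 0 i := by
    rcases Nat.eq_zero_or_pos (i : ℕ) with h0 | h0
    · rw [h0]
      simp [ch]
    · have := h ⟨(i : ℕ) - 1, by omega⟩
      simp only at this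
      rwa [Nat.sub_add_cancel h0] at this
  have h2 := h i
  rw [ch_succ m e 0 i.2, ch_succ m e' 0 i.2, h1] at h2
  have h3 : (⟨(i : ℕ), i.2⟩ : Fin k) = i := rfl
  rw [h3] at h2
  linarith

lemma ch_mod {k q : ℕ} (m : Fin k → ℕ) {e a : Fin k → ℤ} (h : ∀ i, e i ≡ a i [ZMOD q]) :
    ∀ i, ch m e 0 i ≡ ch m a 0 i [ZMOD q] := by
  intro i
  induction i with
  | zero =>
    simp only [ch]
    exact Int.ModEq.refl _
  | succ i ih =>
    by_cases hi : i < k
    · rw [ch_succ m e 0 hi, ch_succ m a 0 hi]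
      exact (ih.mul_left _).add (h _)
    · rw [ch, ch, dif_neg hi, dif_neg hi]

/-- the coefficients of the forms of the chain -/
abbrev cw {k : ℕ} (m : Fin k → ℕ) : Fin k → ℕ := fun i => pw m ((i : ℕ) + 1)

/-- the constant terms of the forms of the chain -/
abbrev chh {k : ℕ} (m : Fin k → ℕ) (e : Fin k → ℤ) : Fin k → ℤ := fun i => ch m e 0 ((i : ℕ) + 1)

/-- the box of the vectors `e` -/
noncomputable def boxC {k : ℕ} (N q : ℕ) (m : Fin k → ℕ) (a : Fin k → ℤ) : Finset (Fin k → ℤ) :=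
  Fintype.piFinset fun i => {t ∈ Icc (-((N / (k * ∏ j, m j) : ℕ) : ℤ)) ((N / (k * ∏ j, m j) : ℕ) : ℤ) | t ≡ a i [ZMOD q]}

lemma box_abs {k N q : ℕ} {m : Fin k → ℕ} {a e : Fin k → ℤ} (he : e ∈ boxC N q m a) (i : Fin k) :
    |e i| ≤ ((N / (k * ∏ j, m j) : ℕ) : ℤ) := by
  unfold boxC at he
  rw [Fintype.mem_piFinset] at he
  have := he i
  rw [mem_filter, mem_Icc] at this
  rw [abs_le]
  exact this.1

lemma box_mod {k N q : ℕ} {m : Fin k → ℕ} {a e : Fin k → ℤ} (he : e ∈ boxC N q m a) (i : Fin k) :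
    e i ≡ a i [ZMOD q] := by
  unfold boxC at he
  rw [Fintype.mem_piFinset] at he
  exact (mem_filter.1 (he i)).2

lemma box_le {k N q : ℕ} {m : Fin k → ℕ} (hm : ∀ i, 1 ≤ m i) {a e : Fin k → ℤ} (he : e ∈ boxC N q m a)
    (i : Fin k) : |chh m e i| ≤ N := by
  have h1 := ch_bd hm (box_abs he) ((i : ℕ) + 1) i.2
  have h2 := pw_le hm (i := (i : ℕ) + 1) i.2
  refine h1.trans ?_
  have h3 : ((i : ℕ) + 1) * (pw m ((i : ℕ) + 1) * (N / (k * ∏ j, m j))) ≤ N := by
    calc ((i : ℕ) + 1) * (pw m ((i : ℕ) + 1) * (N / (k * ∏ j, m j))) ≤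
          k * ((∏ j, m j) * (N / (k * ∏ j, m j))) := by
          apply Nat.mul_le_mul i.2
          exact Nat.mul_le_mul_right _ h2
      _ = (k * ∏ j, m j) * (N / (k * ∏ j, m j)) := by rw [mul_assoc]
      _ ≤ N := Nat.mul_div_le _ _
  exact_mod_cast h3

open Classical in
lemma few_chain {k N q A : ℕ} {m : Fin k → ℕ} (hm : ∀ i, 1 ≤ m i) {a : Fin k → ℤ} {P : (Fin k → ℤ) → Prop}
    (h : FewV N (fun _ => q) (chh m a) A P) :
    (((boxC N q m a).filter fun e => ¬ P (chh m e)).card : ℝ) ≤ ((N : ℝ) / q) ^ k / Real.log N ^ A := by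
  unfold FewV at h
  rw [prod_const, card_univ, Fintype.card_fin] at h
  refine le_trans (Nat.cast_le.2 (card_le_card_of_injOn (fun e => chh m e) ?_ ?_)) h
  · intro e he
    rw [mem_coe, mem_filter] at he
    rw [mem_coe, mem_filter, Fintype.mem_piFinset]
    refine ⟨fun i => ?_, he.2⟩
    rw [mem_SV]
    have h1 := box_le hm he.1 i
    rw [abs_le] at h1
    exact ⟨h1, ch_mod m (box_mod he.1) _⟩
  · intro e _ e' _ hee
    apply ch_inj
    intro i
    exact congrFun hee i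

end Pool.Agent.J4H40
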