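import Pool.Agent.R460.GH.ML
import Pool.Agent.J4H40.Dc

set_option autoImplicit false

/-! The sieve function with coefficients on the major arcs (adapted from `R460/GH/ML`). -/

namespace Pool.Agent.J4H40

open Finset
open Pool.Agent.R460.GS
open Pool.Agent.Y883.GJ
open Pool.Agent.H807R2.Dav (ee)
open Pool.Agent.Y614.GJ.Core (ev_log)
open Pool.Agent.R460.GH (af af_apply mu1 mu1_le Wk one_le_Wk Wk_real inv_k ex_k a1_supp' ell BilMaj3Stm ti_gen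
  tot_maj GG0)

/-- `N ^ α` -/
noncomputable def Za (α : ℝ) (N : ℕ) : ℕ := ⌊(N : ℝ) ^ α⌋₊

lemma Za_real {α : ℝ} {N : ℕ} : (Za α N : ℝ) ≤ (N : ℝ) ^ α := Nat.floor_le (by positivity)

lemma Za_lt {α : ℝ} {N : ℕ} : (N : ℝ) ^ α < (Za α N : ℝ) + 1 := Nat.lt_floor_add_one _

lemma one_le_Za {α : ℝ} (hα : 0 ≤ α) {N : ℕ} (hN : 1 ≤ N) : 1 ≤ Za α N := by
  unfold Za
  rw [Nat.one_le_floor_iff]
  exact Real.one_le_rpow (by exact_mod_cast hN) hα

lemma Za_le {α : ℝ} (hα : α ≤ 1) {N : ℕ} (hN : 1 ≤ N) : Za α N ≤ N := by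
  have h1 : (Za α N : ℝ) ≤ N := by
    refine Za_real.trans ?_
    calc (N : ℝ) ^ α ≤ (N : ℝ) ^ (1 : ℝ) :=
          Real.rpow_le_rpow_of_exponent_le (by exact_mod_cast hN) hα
      _ = N := Real.rpow_one _
  exact_mod_cast h1

lemma Za_six {α : ℝ} (hα : 1 / 6 ≤ α) {N : ℕ} (hN : 1 ≤ N) : N < (Za α N + 1) ^ 6 := by
  have hN0 : (0 : ℝ) < N := by exact_mod_cast hN
  have h2 : (N : ℝ) ^ (1 / 6 : ℝ) < (Za α N : ℝ) + 1 :=
    lt_of_le_of_lt (Real.rpow_le_rpow_of_exponent_le (by exact_mod_cast hN) hα) Za_lt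
  have h3 : ((N : ℝ) ^ (1 / 6 : ℝ)) ^ 6 < ((Za α N : ℝ) + 1) ^ 6 := by gcongr
  have h4 : ((N : ℝ) ^ (1 / 6 : ℝ)) ^ 6 = N := by
    rw [← Real.rpow_natCast, ← Real.rpow_mul hN0.le]
    norm_num
  rw [h4] at h3
  exact_mod_cast h3

lemma Wk_sq_Za {α : ℝ} (hα : 1 / 6 ≤ α) {k N : ℕ} (hk : 12 ≤ k) (hN : 1 ≤ N) : Wk k N * Wk k N ≤ Za α N := by
  unfold Za
  apply Nat.le_floor
  have h1 := Wk_real (k := k) (N := N)
  have hN0 : (0 : ℝ) < N := by exact_mod_cast hN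
  push_cast
  calc (Wk k N : ℝ) * Wk k N ≤ (N : ℝ) ^ (1 / (k : ℝ)) * (N : ℝ) ^ (1 / (k : ℝ)) :=
        mul_le_mul h1 h1 (Nat.cast_nonneg _) (by positivity)
    _ = (N : ℝ) ^ (1 / (k : ℝ) + 1 / (k : ℝ)) := by rw [← Real.rpow_add hN0]
    _ ≤ _ := Real.rpow_le_rpow_of_exponent_le (by exact_mod_cast hN) (by have := (inv_k hk).2; linarith)

lemma supp_a {α : ℝ} {k N m : ℕ} (h : Wk k N < m ∧ m ≤ Za α N) :
    (N : ℝ) ^ (1 / (k : ℝ)) ≤ 2 * m ∧ (m : ℝ) ≤ (N : ℝ) ^ α := by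
  obtain ⟨h1, h2⟩ := h
  constructor
  · have h3 : (N : ℝ) ^ (1 / (k : ℝ)) < (Wk k N : ℝ) + 1 := Nat.lt_floor_add_one _
    have h4 : (Wk k N : ℝ) + 1 ≤ m := by exact_mod_cast h1
    have h5 : (0 : ℝ) ≤ m := Nat.cast_nonneg _
    linarith
  · exact le_trans (by exact_mod_cast h2) Za_real

lemma a2_suppa {α : ℝ} (hα : 1 / 6 ≤ α) {k N j m : ℕ} (hk : 12 ≤ k) (hN : 1 ≤ N) {c : ℕ → ℕ}
    (h : a2 (Wk k N) (Wk k N) c j m ≠ 0) : Wk k N < m ∧ m ≤ Za α N := by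
  unfold a2 at h
  by_contra h'
  apply h
  rw [if_neg]
  rintro ⟨⟨h1, h2, h3⟩, -⟩
  exact h' ⟨h2, ((sm_le (one_le_Wk hN) h1 h2 h3).2.1).trans (Wk_sq_Za hα hk hN)⟩

lemma bd32 {N m : ℕ} (hL : 32 ≤ Real.log N) (hm : m ∈ Icc 1 N) {z : ℂ} (hz : ‖z‖ ≤ 32) :
    ‖z‖ ≤ Real.log N * (m.divisors.card : ℝ) := by
  have h1 : (1 : ℝ) ≤ (m.divisors.card : ℝ) := by
    have : 0 < m.divisors.card := card_pos.2 ⟨1, Nat.one_mem_divisors.2 (by
      rw [mem_Icc] at hm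
      omega)⟩
    exact_mod_cast this
  nlinarith

lemma DW_real {α : ℝ} {k N D : ℕ} (hN : 1 ≤ N) (hD : (D : ℝ) ≤ (N : ℝ) ^ ((1 + α) / 2)) :
    ((D * Wk k N : ℕ) : ℝ) ≤ (N : ℝ) ^ ((1 + α) / 2 + 1 / (k : ℝ)) := by
  have hN0 : (0 : ℝ) < N := by exact_mod_cast hN
  push_cast
  calc (D : ℝ) * Wk k N ≤ (N : ℝ) ^ ((1 + α) / 2) * (N : ℝ) ^ (1 / (k : ℝ)) :=
        mul_le_mul hD Wk_real (Nat.cast_nonneg _) (by positivity)
    _ = _ := by rw [← Real.rpow_add hN0]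

/-- the main part of the estimates of the sums of type I -/
lemma ti_mainE {q N M : ℕ} {α ρ s t : ℝ} (hN : 1 ≤ N) (hα0 : 0 ≤ α) (ht : 2 * t + s ≤ ρ) (ht0 : 0 ≤ t)
    (hq : (q : ℝ) ≤ (N : ℝ) ^ (1 - α - ρ)) (hM : (M : ℝ) ≤ (N : ℝ) ^ ((1 + α) / 2 + t)) :
    q * (M : ℝ) ^ 2 + q * N ≤ 2 * (N : ℝ) ^ (2 - s) := by
  have hN0 : (0 : ℝ) < N := by exact_mod_cast hN
  have hNr1 : (1 : ℝ) ≤ N := by exact_mod_cast hN
  have hM0 : (0 : ℝ) ≤ M := Nat.cast_nonneg _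
  have e1 : q * (M : ℝ) ^ 2 ≤ (N : ℝ) ^ (2 - s) := by
    calc q * (M : ℝ) ^ 2 ≤ (N : ℝ) ^ (1 - α - ρ) * ((N : ℝ) ^ ((1 + α) / 2 + t)) ^ 2 := by gcongr
      _ = (N : ℝ) ^ (2 - ρ + 2 * t) := by
          rw [← Real.rpow_natCast, ← Real.rpow_mul hN0.le, ← Real.rpow_add hN0]
          congr 1
          push_cast
          ring
      _ ≤ _ := Real.rpow_le_rpow_of_exponent_le hNr1 (by linarith)
  have e2 : (q : ℝ) * N ≤ (N : ℝ) ^ (2 - s) := by
    calc (q : ℝ) * N ≤ (N : ℝ) ^ (1 - α - ρ) * (N : ℝ) ^ (1 : ℝ) := by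
          rw [Real.rpow_one]
          gcongr
      _ = (N : ℝ) ^ (2 - α - ρ) := by
          rw [← Real.rpow_add hN0]
          congr 1
          ring
      _ ≤ _ := Real.rpow_le_rpow_of_exponent_le hNr1 (by linarith)
  linarith

open Classical in
theorem mFC (h1 : L2Stm) (hB : BilMaj3Stm) {α : ℝ} (hα : 1 / 6 ≤ α) (hα2 : α ≤ 1 / 3) (A C : ℕ) {ρ : ℝ}
    (hρ : 0 < ρ) : ∃ C₃ N₀ : ℕ, ∀ N : ℕ, N₀ ≤ N → ∀ (D : ℕ) (g : ℕ → ℂ), 1 ≤ D →
    (D : ℝ) ≤ (N : ℝ) ^ ((1 + α) / 2) → Cf (Za α N) D g →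
    MajE N (1 - α - ρ) A C C₃ (FC N (Za α N) g) := by
  obtain ⟨k, hk, hkρ⟩ := ex_k (ρ := ρ / 8) (by positivity)
  obtain ⟨hk0, hk12⟩ := inv_k hk
  obtain ⟨A', hA'⟩ : ∃ A', A' = A + 2 := ⟨_, rfl⟩
  have hkR : (0 : ℝ) < k := by
    have : 0 < k := by omega
    exact_mod_cast this
  obtain ⟨C', N₁, hB'⟩ := hB (A' + 2 * (A' + 14) + 8) C k (1 - α - ρ) (1 / (k : ℝ)) α hk0
    (by omega) (by
      rw [mul_one_div, div_self hkR.ne']
      linarith) (by linarith) (by linarith) (by linarith)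
  obtain ⟨N₂, hG⟩ := vecE h1 A' k
  obtain ⟨s, hs⟩ : ∃ s : ℝ, s = ρ / 2 := ⟨_, rfl⟩
  have hs0 : 0 < s := by rw [hs]; positivity
  obtain ⟨N₃, hN₃⟩ := Filter.eventually_atTop.1 (ev_log (C + A' + 9) (s := s) hs0 8000000000)
  refine ⟨C' + A' + 18, max (max N₁ N₂) (max N₃ 64), fun N hN D g hD1 hDr hg q _ hq => ?_⟩
  have hNN₁ : N₁ ≤ N := le_trans (le_trans (le_max_left _ _) (le_max_left _ _)) hN
  have hNN₂ : N₂ ≤ N := le_trans (le_trans (le_max_right _ _) (le_max_left _ _)) hN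
  have hNN₃ : N₃ ≤ N := le_trans (le_trans (le_max_left _ _) (le_max_right _ _)) hN
  have hN64 : 64 ≤ N := le_trans (le_trans (le_max_right _ _) (le_max_right _ _)) hN
  have hN1 : 1 ≤ N := by omega
  obtain ⟨hL16, hLp⟩ := hN₃ N hNN₃
  have hN0 : (0 : ℝ) < N := by exact_mod_cast hN1
  have hNr1 : (1 : ℝ) ≤ N := by exact_mod_cast hN1
  have hqN : (q : ℝ) ≤ N := by
    calc (q : ℝ) ≤ (N : ℝ) ^ (1 - α - ρ) := hq
      _ ≤ (N : ℝ) ^ (1 : ℝ) := Real.rpow_le_rpow_of_exponent_le hNr1 (by linarith)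
      _ = N := Real.rpow_one _
  have hqNn : q ≤ N := by exact_mod_cast hqN
  have hZN : Za α N ≤ N := Za_le (by linarith) hN1
  have hJ := JJ_le (N := N) (U := A' + 14) (by linarith)
  have hZ6 := Za_six hα hN1
  have hWW := Wk_sq_Za hα hk hN1
  have hWZ : Wk k N ≤ Za α N := le_trans (Nat.le_mul_of_pos_left _ (one_le_Wk hN1)) hWW
  have hb1 := fun j => hB' N hNN₁ q hq (a1 (Wk k N) (Za α N) (cc N (A' + 14)) j)
    (fun m hm => one_le_bd (by linarith) hm (a1_le _ _ _ _ _)) (fun m hm => supp_a (a1_supp' hm))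
  have hb2 := fun j => hB' N hNN₁ q hq (a2 (Wk k N) (Wk k N) (cc N (A' + 14)) j)
    (fun m hm => one_le_bd (by linarith) hm (a2_le _ _ _ _ _)) (fun m hm => supp_a (a2_suppa hα hk hN1 hm))
  choose B1 hB1c hB1 using hb1
  choose B2 hB2c hB2 using hb2
  refine ⟨insert 1 ((range (JJ N (A' + 14))).biUnion (fun j => B1 j ∪ B2 j)), mem_insert_self _ _, ?_, ?_⟩
  · have e1 : (insert 1 ((range (JJ N (A' + 14))).biUnion (fun j => B1 j ∪ B2 j))).card ≤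
        ∑ j ∈ range (JJ N (A' + 14)), ((B1 j).card + (B2 j).card) + 1 := by
      refine (card_insert_le _ _).trans (Nat.add_le_add_right ?_ 1)
      exact card_biUnion_le.trans (sum_le_sum fun j _ => card_union_le _ _)
    have e2 : ((insert 1 ((range (JJ N (A' + 14))).biUnion (fun j => B1 j ∪ B2 j))).card : ℝ) ≤
        ∑ j ∈ range (JJ N (A' + 14)), (((B1 j).card : ℝ) + (B2 j).card) + 1 := by exact_mod_cast e1
    refine e2.trans ?_
    obtain ⟨L, hLd⟩ : ∃ L, L = Real.log (N : ℝ) := ⟨_, rfl⟩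
    rw [← hLd] at hB1c hB2c hJ hL16 ⊢
    have hL0 : 0 < L := by linarith
    have hL1 : 1 ≤ L := by linarith
    calc ∑ j ∈ range (JJ N (A' + 14)), (((B1 j).card : ℝ) + (B2 j).card) + 1
        ≤ ∑ j ∈ range (JJ N (A' + 14)), (L ^ C' + L ^ C') + 1 := by
          gcongr with j hj
          · exact hB1c j
          · exact hB2c j
      _ = (JJ N (A' + 14) : ℝ) * (2 * L ^ C') + 1 := by
          rw [sum_const, card_range, nsmul_eq_mul]
          ring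
      _ ≤ L ^ (A' + 14 + 2) * (2 * L ^ C') + 1 := by gcongr
      _ ≤ L ^ (A' + 14 + 2) * (2 * L ^ C') + L ^ (A' + 14 + 2) * L ^ C' := by
          have : 1 ≤ L ^ (A' + 14 + 2) * L ^ C' :=
            one_le_mul_of_one_le_of_one_le (one_le_pow₀ hL1) (one_le_pow₀ hL1)
          linarith
      _ = 3 * (L ^ (A' + 14 + 2) * L ^ C') := by ring
      _ ≤ L ^ 2 * (L ^ (A' + 14 + 2) * L ^ C') := by
          gcongr
          nlinarith
      _ = L ^ (C' + A' + 18) := by ring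
  · intro η hη y hy S hS
    have hS1 : (1 : DirichletCharacter ℂ q) ∉ S := fun h =>
      disjoint_left.1 hS h (mem_insert_self _ _)
    have hSj : ∀ j ∈ range (JJ N (A' + 14)), Disjoint S (B1 j) ∧ Disjoint S (B2 j) := by
      intro j hj
      constructor
      · refine Disjoint.mono_right (fun χ hχ => ?_) hS
        rw [mem_insert, mem_biUnion]
        exact Or.inr ⟨j, hj, mem_union_left _ hχ⟩
      · refine Disjoint.mono_right (fun χ hχ => ?_) hS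
        rw [mem_insert, mem_biUnion]
        exact Or.inr ⟨j, hj, mem_union_right _ hχ⟩
    have hfin := hG N hNN₂ (Za α N) D g hg hZ6 hWW hZN q hqN S η y hy ?_ ?_ ?_
    · rw [cs_FC]
      obtain ⟨L, hLd⟩ : ∃ L, L = Real.log (N : ℝ) := ⟨_, rfl⟩
      rw [← hLd] at hfin hL16 ⊢
      have hL0 : 0 < L := by linarith
      calc L ^ 2 * ‖∑ n ∈ Icc 1 y, ((af g * af (fun n => ((ro (Za α N) n : ℝ) : ℂ))) n) • ev S η n‖ ^ 2
          ≤ L ^ 2 * ((N : ℝ) ^ 2 / L ^ A') := by gcongr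
        _ = (N : ℝ) ^ 2 / L ^ A := by
            rw [hA', pow_add]
            field_simp
    · have hM1 : 1 ≤ D * Wk k N := Nat.mul_le_mul hD1 (one_le_Wk hN1)
      have hMr := DW_real (k := k) hN1 hDr
      have hMN : D * Wk k N ≤ N := by
        have : ((D * Wk k N : ℕ) : ℝ) ≤ N := hMr.trans (by
          calc (N : ℝ) ^ ((1 + α) / 2 + 1 / (k : ℝ)) ≤ (N : ℝ) ^ (1 : ℝ) :=
                Real.rpow_le_rpow_of_exponent_le hNr1 (by linarith)
            _ = N := Real.rpow_one _)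
        exact_mod_cast this
      have t1 := ti_gen hy (a := fun m => (af g * af (mu1 (Wk k N) (Wk k N))) m)
        (fun m hm => ti_supp hg hm) (fun m hm => by
          have := ti_bd hg hWZ (mem_Icc.1 hm).1
          linarith) η S ((range q).erase 0) (Or.inr ⟨hS1, rfl⟩)
      refine t1.trans ?_
      obtain ⟨hl1, hl2⟩ := ell (by linarith) (by omega) (NeZero.pos q) hqNn hM1 hMN
      have t2 := tot_maj (q := q) (N := N) (M := D * Wk k N) (NeZero.pos q) hN1 hM1 (η := η)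
        (T := Real.log N ^ C) (one_le_pow₀ (by linarith)) hη (ℓ := 4 * Real.log N) hl1 hl2
      have t3 := ti_mainE (s := s) hN1 (by linarith) (by linarith) hk0.le hq hMr
      obtain ⟨L, hLd⟩ : ∃ L, L = Real.log (N : ℝ) := ⟨_, rfl⟩
      rw [← hLd] at t2 hL16 hLp ⊢
      have hL0 : 0 < L := by linarith
      rw [le_div_iff₀ (by positivity)]
      calc (4 * ∑ j ∈ (range q).erase 0, GG0 q N (D * Wk k N) (η + j / q) ^ 2) * L ^ (A' + 4)
          ≤ (4 * (2000000 * (L ^ C * (4 * L) ^ 4 * (2 * (N : ℝ) ^ (2 - s))))) * L ^ (A' + 4) := by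
            gcongr
            refine t2.trans ?_
            gcongr
        _ = (4096000000 * L ^ (C + A' + 8)) * (N : ℝ) ^ (2 - s) := by ring
        _ ≤ (L * L ^ (C + A' + 8)) * (N : ℝ) ^ (2 - s) := by
            gcongr
            linarith
        _ = L ^ (C + A' + 9) * (N : ℝ) ^ (2 - s) := by ring
        _ ≤ (N : ℝ) ^ s * (N : ℝ) ^ (2 - s) := by gcongr
        _ = (N : ℝ) ^ 2 := by
            rw [← Real.rpow_add hN0, ← Real.rpow_natCast]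
            congr 1
            push_cast
            ring
    · intro j hj
      exact hB2 j (fun l => (af g * af (b2 (Wk k N) (cc N (A' + 14)) j)) l)
        (fun m hm => bd32 (by linarith) hm (cf_bd1 hg (mem_Icc.1 hm).1 (mem_Icc.1 hm).2 hZ6 (b2_le _ _ _)))
        η hη y hy S (hSj j hj).2
    · intro j hj
      exact hB1 j (fun l => (af g * af (b1 (cc N (A' + 14)) j)) l)
        (fun m hm => bd32 (by linarith) hm (cf_bd1 hg (mem_Icc.1 hm).1 (mem_Icc.1 hm).2 hZ6 (b1_le _ _)))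
        η hη y hy S (hSj j hj).1

end Pool.Agent.J4H40
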