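import Pool.Agent.R460.GS.ErrAll
import Pool.Agent.J4H40.C3
import Pool.Agent.J4H40.Md
import Pool.Agent.J4H40.Mn

set_option autoImplicit false

/-! Properties of the functions, and the mean square of the error terms (adapted from `R460/GS/Props` and
`R460/GS/ErrAll`). -/

namespace Pool.Agent.J4H40

open Finset
open Pool.Agent.H807R2.Dav (ee)
open Pool.Agent.H373R2.T7 (lamz Vz pz lamz_ap)
open Pool.Agent.Y883.T3 (lsh)
open Pool.Agent.Y883.GJ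
open Pool.Agent.R460.GS
open Pool.Agent.Y614.GJ.Core (ev_log)
open Pool.Agent.R460.GH (af af_apply mul_ap BilMaj3Stm)

/-- the sieve function with real coefficients -/
noncomputable def FR (N Z : ℕ) (g : ℕ → ℝ) (n : ℕ) : ℝ :=
  Real.log N * ∑ d ∈ n.divisors, g d * ro Z (n / d)

/-- complex coefficients -/
noncomputable def cx (g : ℕ → ℝ) (d : ℕ) : ℂ := ((g d : ℝ) : ℂ)

/-- the weighted sieve model -/
noncomputable def HW (W : ℕ → ℝ) (z r n : ℕ) : ℂ := ((W n * lsh z r n : ℝ) : ℂ)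

/-- the difference -/
noncomputable def f1 (N Z : ℕ) (g W : ℕ → ℝ) (z r n : ℕ) : ℂ := FC N Z (cx g) n - HW W z r n

lemma FC_eq {N Z n : ℕ} {g : ℕ → ℝ} (hn : 1 ≤ n) : FC N Z (cx g) n = ((FR N Z g n : ℝ) : ℂ) := by
  unfold FC FR
  rw [mul_ap]
  push_cast
  congr 1
  refine sum_congr rfl fun d hd => ?_
  obtain ⟨a, b⟩ := dv0 hn hd
  rw [af_apply a, af_apply b]
  rfl

lemma ro_le (Z n : ℕ) : ‖((ro Z n : ℝ) : ℂ)‖ ≤ 1 := by
  rw [Complex.norm_real, Real.norm_eq_abs]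
  unfold ro
  split_ifs <;> simp

lemma FC_le {N Z D n : ℕ} {g : ℕ → ℂ} (hg : Cf Z D g) (hZ : N < (Z + 1) ^ 6) (hn : n ∈ Icc 1 N) :
    ‖FC N Z g n‖ ≤ 32 * Real.log N := by
  rw [mem_Icc] at hn
  unfold FC
  rw [norm_mul, Complex.norm_real, Real.norm_eq_abs, abs_of_nonneg (Real.log_natCast_nonneg _), mul_comm]
  exact mul_le_mul_of_nonneg_right (cf_bd1 hg hn.1 hn.2 hZ (ro_le Z)) (Real.log_natCast_nonneg _)

lemma FC_rough {N Z D n : ℕ} {g : ℕ → ℂ} (hg : Cf Z D g) (hn : 1 ≤ n) (h : FC N Z g n ≠ 0) :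
    ∀ p ∈ n.primeFactors, Z < p := by
  intro p hp
  by_contra hcon
  apply h
  unfold FC
  rw [mul_ap, sum_eq_zero, mul_zero]
  intro d hd
  obtain ⟨a, b⟩ := dv0 hn hd
  rw [af_apply a, af_apply b]
  have hpp := Nat.prime_of_mem_primeFactors hp
  have hpn := Nat.dvd_of_mem_primeFactors hp
  rw [← Nat.mul_div_cancel' (Nat.dvd_of_mem_divisors hd)] at hpn
  rcases (Nat.Prime.dvd_mul hpp).1 hpn with h1 | h1
  · have : g d = 0 := by
      by_contra h2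
      exact hcon ((hg.sup d h2).2.1 p (Nat.mem_primeFactors.2 ⟨hpp, h1, a⟩))
    rw [this, zero_mul]
  · have : ro Z (n / d) = 0 := by
      unfold ro
      rw [if_neg]
      intro h2
      exact hcon (h2 p (Nat.mem_primeFactors.2 ⟨hpp, h1, b⟩))
    rw [this, Complex.ofReal_zero, mul_zero]

lemma norm_HW {N z r n : ℕ} {W : ℕ → ℝ} {c : ℝ} (hW : WBd W c N) (hn : n ∈ Icc 1 N) :
    ‖HW W z r n‖ ≤ c * |lsh z r n| := by
  unfold HW
  rw [Complex.norm_real, Real.norm_eq_abs, abs_mul]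
  exact mul_le_mul_of_nonneg_right (hW.h1 n (mem_Icc.1 hn).2) (abs_nonneg _)

lemma bd_HW' {U N z r : ℕ} {W : ℕ → ℝ} {c : ℝ} (hW : WBd W c N) (hP : Par U N z r) {n : ℕ} (hn : n ∈ Icc 1 N) :
    ‖HW W z r n‖ ≤ 3 * c * Real.log N * (n.divisors.card : ℝ) := by
  refine (norm_HW hW hn).trans ?_
  have := lsh_abs hP hn
  calc c * |lsh z r n| ≤ c * (3 * Real.log N * (n.divisors.card : ℝ)) := mul_le_mul_of_nonneg_left this hW.hc
    _ = _ := by ring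

lemma bd_f1 {U N Z D z r : ℕ} {g W : ℕ → ℝ} {c : ℝ} (hg : Cf Z D (cx g)) (hZ : N < (Z + 1) ^ 6) (hW : WBd W c N)
    (hP : Par U N z r) (hL : 32 + 3 * c ≤ Real.log N) : BdAt N (f1 N Z g W z r) := by
  intro n hn
  have h1 := one_le_div hn
  have hc := hW.hc
  unfold f1
  refine (norm_sub_le _ _).trans ?_
  have h2 := bd_HW' hW hP hn
  have h3 := FC_le hg hZ hn
  have hL0 : 0 ≤ Real.log N := by linarith
  have h4 : 32 * Real.log N * 1 ≤ 32 * Real.log N * (n.divisors.card : ℝ) :=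
    mul_le_mul_of_nonneg_left h1 (by linarith)
  have h5 : (32 + 3 * c) * Real.log N ≤ Real.log N ^ 2 := by nlinarith
  have h6 := mul_le_mul_of_nonneg_right h5 (by positivity : (0 : ℝ) ≤ (n.divisors.card : ℝ))
  linarith

lemma nc_FC {N D U : ℕ} {α : ℝ} {g : ℕ → ℂ} (hα : 1 / 6 ≤ α) (hg : Cf (Za α N) D g) (hN : 1 ≤ N)
    (hL : 64 ≤ Real.log N) (hp : Real.log N ^ (U + 3) ≤ (N : ℝ) ^ (1 / 6 : ℝ)) : NcAt N U (FC N (Za α N) g) := by
  classical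
  intro q hq hqN
  have hN0 : (0 : ℝ) < N := by exact_mod_cast hN
  have hNr1 : (1 : ℝ) ≤ N := by exact_mod_cast hN
  have hL0 : 0 < Real.log N := by linarith
  have hZ6 := Za_six hα hN
  have hZ : (N : ℝ) ^ (1 / 6 : ℝ) < (Za α N : ℝ) + 1 :=
    lt_of_le_of_lt (Real.rpow_le_rpow_of_exponent_le hNr1 hα) Za_lt
  have hsub : (((Icc 1 N).filter (fun n => ¬ n.Coprime q)).filter (fun n => FC N (Za α N) g n ≠ 0)) ⊆
      (q.primeFactors.filter (fun p => Za α N < p)).biUnion (fun p => (Icc 1 N).filter (fun n => p ∣ n)) := by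
    intro n hn
    rw [mem_filter, mem_filter] at hn
    obtain ⟨⟨h1, h2⟩, h3⟩ := hn
    obtain ⟨p, hp, hpn, hpq⟩ := Nat.Prime.not_coprime_iff_dvd.1 h2
    have hn1 : 1 ≤ n := (mem_Icc.1 h1).1
    have h4 := FC_rough hg hn1 h3
    rw [mem_biUnion]
    refine ⟨p, ?_, ?_⟩
    · rw [mem_filter, Nat.mem_primeFactors]
      exact ⟨⟨hp, hpq, by omega⟩, h4 p (Nat.mem_primeFactors.2 ⟨hp, hpn, by omega⟩)⟩
    · rw [mem_filter]
      exact ⟨h1, hpn⟩
  have hcard : ((((Icc 1 N).filter (fun n => ¬ n.Coprime q)).filter (fun n => FC N (Za α N) g n ≠ 0)).card : ℝ) ≤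
      2 * Real.log N * (N / (N : ℝ) ^ (1 / 6 : ℝ)) := by
    have h1 := (card_le_card hsub).trans card_biUnion_le
    have h2 : ((((Icc 1 N).filter (fun n => ¬ n.Coprime q)).filter (fun n => FC N (Za α N) g n ≠ 0)).card : ℝ) ≤
        ∑ p ∈ q.primeFactors.filter (fun p => Za α N < p), (((Icc 1 N).filter (fun n => p ∣ n)).card : ℝ) := by
      exact_mod_cast h1
    refine h2.trans ?_
    have h3 : ∀ p ∈ q.primeFactors.filter (fun p => Za α N < p),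
        (((Icc 1 N).filter (fun n => p ∣ n)).card : ℝ) ≤ N / (N : ℝ) ^ (1 / 6 : ℝ) := by
      intro p hp
      rw [mem_filter] at hp
      have h4 : ((Icc 1 N).filter (fun n => p ∣ n)).card = N / p := by
        have e1 : Icc 1 N = Ioc 0 N := by
          ext b
          simp only [mem_Icc, mem_Ioc]
          omega
        rw [e1]
        exact Nat.Ioc_filter_dvd_card_eq_div N p
      rw [h4]
      have h5 : (N : ℝ) ^ (1 / 6 : ℝ) ≤ p := by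
        have : (Za α N : ℝ) + 1 ≤ p := by exact_mod_cast hp.2
        linarith
      calc ((N / p : ℕ) : ℝ) ≤ (N : ℝ) / p := Nat.cast_div_le
        _ ≤ N / (N : ℝ) ^ (1 / 6 : ℝ) := div_le_div_of_nonneg_left hN0.le (by positivity) h5
    refine (sum_le_sum h3).trans ?_
    rw [sum_const, nsmul_eq_mul]
    apply mul_le_mul_of_nonneg_right _ (by positivity)
    refine le_trans ?_ (card_pf_le hq hqN)
    exact_mod_cast card_filter_le _ _
  calc ∑ n ∈ (Icc 1 N).filter (fun n => ¬ n.Coprime q), ‖FC N (Za α N) g n‖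
      = ∑ n ∈ ((Icc 1 N).filter (fun n => ¬ n.Coprime q)).filter (fun n => FC N (Za α N) g n ≠ 0),
          ‖FC N (Za α N) g n‖ := by
        refine (sum_filter_of_ne (p := fun n => FC N (Za α N) g n ≠ 0) fun n _ h h0 => h ?_).symm
        rw [h0, norm_zero]
    _ ≤ ∑ n ∈ ((Icc 1 N).filter (fun n => ¬ n.Coprime q)).filter (fun n => FC N (Za α N) g n ≠ 0),
          32 * Real.log N := by
        refine sum_le_sum fun n hn => ?_
        rw [mem_filter, mem_filter] at hn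
        exact FC_le hg hZ6 hn.1.1
    _ = ((((Icc 1 N).filter (fun n => ¬ n.Coprime q)).filter (fun n => FC N (Za α N) g n ≠ 0)).card : ℝ) *
          (32 * Real.log N) := by
        rw [sum_const, nsmul_eq_mul]
    _ ≤ (2 * Real.log N * (N / (N : ℝ) ^ (1 / 6 : ℝ))) * (32 * Real.log N) := by gcongr
    _ ≤ N / Real.log N ^ U := by
        obtain ⟨L, hLd⟩ : ∃ L, L = Real.log (N : ℝ) := ⟨_, rfl⟩
        rw [← hLd] at hL hL0 hp ⊢
        rw [le_div_iff₀ (by positivity)]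
        have h6 : 0 < (N : ℝ) ^ (1 / 6 : ℝ) := by positivity
        calc 2 * L * (N / (N : ℝ) ^ (1 / 6 : ℝ)) * (32 * L) * L ^ U =
              N * ((64 * L ^ (U + 2)) / (N : ℝ) ^ (1 / 6 : ℝ)) := by
              rw [pow_add]
              ring
          _ ≤ N * 1 := by
              have : (64 * L ^ (U + 2)) / (N : ℝ) ^ (1 / 6 : ℝ) ≤ 1 := by
                rw [div_le_one h6]
                refine le_trans ?_ hp
                calc 64 * L ^ (U + 2) ≤ L * L ^ (U + 2) := by gcongr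
                  _ = L ^ (U + 3) := by ring
              gcongr
          _ = N := mul_one _

lemma nc_HW {U N z r : ℕ} {W : ℕ → ℝ} {c : ℝ} (hW : WBd W c N) (hP : Par (U + 1) N z r)
    (hL : 1 + 3 * c ≤ Real.log N) : NcAt N U (HW W z r) := by
  intro q hq hqN
  have hc := hW.hc
  have hL0 : 0 < Real.log N := by linarith
  have h1 := hP.hC q hq hqN
  have h2 := hP.hL q hq hqN
  have h3 : ∀ n ∈ (Icc 1 N).filter (fun n => ¬ n.Coprime q), ‖HW W z r n‖ ≤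
      c * (|ArithmeticFunction.vonMangoldt n - lsh z r n| + ArithmeticFunction.vonMangoldt n) := by
    intro n hn
    rw [mem_filter] at hn
    refine (norm_HW hW hn.1).trans (mul_le_mul_of_nonneg_left ?_ hc)
    have h5 : lsh z r n = ArithmeticFunction.vonMangoldt n -
      (ArithmeticFunction.vonMangoldt n - lsh z r n) := by ring
    have h4 : 0 ≤ ArithmeticFunction.vonMangoldt n := ArithmeticFunction.vonMangoldt_nonneg
    calc |lsh z r n| = |ArithmeticFunction.vonMangoldt n - (ArithmeticFunction.vonMangoldt n - lsh z r n)| := by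
          rw [← h5]
      _ ≤ |ArithmeticFunction.vonMangoldt n| + |ArithmeticFunction.vonMangoldt n - lsh z r n| := abs_sub _ _
      _ = _ := by rw [abs_of_nonneg h4]; ring
  refine (sum_le_sum h3).trans ?_
  rw [← mul_sum, sum_add_distrib]
  have hX : 0 ≤ (N : ℝ) / Real.log N ^ (U + 1) := by positivity
  calc c * (∑ n ∈ (Icc 1 N).filter (fun n => ¬ n.Coprime q), |ArithmeticFunction.vonMangoldt n - lsh z r n| +
        ∑ n ∈ (Icc 1 N).filter (fun n => ¬ n.Coprime q), ArithmeticFunction.vonMangoldt n)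
      ≤ c * (N / Real.log N ^ (U + 1) + N / Real.log N ^ (U + 1)) :=
        mul_le_mul_of_nonneg_left (add_le_add h1 h2) hc
    _ = (2 * c) * (N / Real.log N ^ (U + 1)) := by ring
    _ ≤ Real.log N * (N / Real.log N ^ (U + 1)) := mul_le_mul_of_nonneg_right (by linarith) hX
    _ = _ := by
        rw [pow_succ]
        field_simp

lemma nc_f1 {U N D z r : ℕ} {α : ℝ} {g W : ℕ → ℝ} {c : ℝ} (hα : 1 / 6 ≤ α) (hg : Cf (Za α N) D (cx g))
    (hN : 1 ≤ N) (hW : WBd W c N) (hP : Par (U + 2) N z r) (hL : 64 + 3 * c ≤ Real.log N)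
    (hp : Real.log N ^ (U + 4) ≤ (N : ℝ) ^ (1 / 6 : ℝ)) : NcAt N U (f1 N (Za α N) g W z r) := by
  intro q hq hqN
  have hc := hW.hc
  have hL0 : 0 < Real.log N := by linarith
  have h1 := nc_FC (U := U + 1) hα hg hN (by linarith) hp q hq hqN
  have h2 := nc_HW (U := U + 1) hW hP (by linarith) q hq hqN
  have hX : 0 ≤ (N : ℝ) / Real.log N ^ (U + 1) := by positivity
  calc ∑ n ∈ (Icc 1 N).filter (fun n => ¬ n.Coprime q), ‖f1 N (Za α N) g W z r n‖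
      ≤ ∑ n ∈ (Icc 1 N).filter (fun n => ¬ n.Coprime q), (‖FC N (Za α N) (cx g) n‖ + ‖HW W z r n‖) :=
        sum_le_sum fun n _ => norm_sub_le _ _
    _ ≤ N / Real.log N ^ (U + 1) + N / Real.log N ^ (U + 1) := by
        rw [sum_add_distrib]
        exact add_le_add h1 h2
    _ = 2 * (N / Real.log N ^ (U + 1)) := by ring
    _ ≤ Real.log N * (N / Real.log N ^ (U + 1)) := mul_le_mul_of_nonneg_right (by linarith) hX
    _ = _ := by
        rw [pow_succ]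
        field_simp

/-- the weighted model in progressions -/
lemma ap_HW {N z r₀ r c y : ℕ} {W : ℕ → ℝ} {ct X : ℝ} (hW : WBd W ct N) (hy : y ≤ N)
    (h1 : ∀ y ≤ N, |∑ n ∈ (Icc 1 y).filter (fun n => n ≡ c [MOD r]), lamz z n -
      (if c.Coprime r then (y : ℝ) / (Nat.totient r : ℝ) else 0)| ≤ X)
    (h2 : ∑ n ∈ Icc 1 N, |lamz z n - lsh z r₀ n| ≤ X) :
    |∑ n ∈ (Icc 1 y).filter (fun n => n ≡ c [MOD r]), W n * lsh z r₀ n -
      (if c.Coprime r then (∑ n ∈ Icc 1 y, W n) / (Nat.totient r : ℝ) else 0)| ≤ (2 * X) * (ct + ct) := by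
  classical
  obtain ⟨κ, hκ⟩ : ∃ κ : ℝ, κ = if c.Coprime r then 1 / (Nat.totient r : ℝ) else 0 := ⟨_, rfl⟩
  obtain ⟨x, hx⟩ : ∃ x : ℕ → ℝ, x = fun n => (if n ≡ c [MOD r] then lsh z r₀ n else 0) - κ := ⟨_, rfl⟩
  have hpart : ∀ m ≤ y, |∑ i ∈ Icc 1 m, x i| ≤ 2 * X := by
    intro m hm
    have e1 : ∑ i ∈ Icc 1 m, x i = (∑ n ∈ (Icc 1 m).filter (fun n => n ≡ c [MOD r]), lamz z n -
        (if c.Coprime r then (m : ℝ) / (Nat.totient r : ℝ) else 0)) -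
        ∑ n ∈ (Icc 1 m).filter (fun n => n ≡ c [MOD r]), (lamz z n - lsh z r₀ n) := by
      rw [hx, sum_sub_distrib, ← sum_filter, sum_const, Nat.card_Icc, Nat.add_sub_cancel, nsmul_eq_mul,
        sum_sub_distrib, hκ]
      split_ifs
      · ring
      · ring
    rw [e1]
    refine (abs_sub _ _).trans ?_
    have k1 := h1 m (hm.trans hy)
    have k2 : |∑ n ∈ (Icc 1 m).filter (fun n => n ≡ c [MOD r]), (lamz z n - lsh z r₀ n)| ≤ X := by
      refine (abs_sum_le_sum_abs _ _).trans (le_trans ?_ h2)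
      refine sum_le_sum_of_subset_of_nonneg (fun n hn => ?_) fun _ _ _ => abs_nonneg _
      rw [mem_filter] at hn
      exact Icc_subset_Icc le_rfl (hm.trans hy) hn.1
    linarith
  have h3 := abelR x W (2 * X) ct ct y hpart
    (fun i hi => hW.h1 i ((mem_Icc.1 hi).2.trans hy))
    ((sum_le_sum_of_subset_of_nonneg (range_subset_range.2 hy) fun _ _ _ => abs_nonneg _).trans hW.h2) hW.hc
  have e2 : ∑ i ∈ Icc 1 y, W i * x i =
      ∑ n ∈ (Icc 1 y).filter (fun n => n ≡ c [MOD r]), W n * lsh z r₀ n -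
      (if c.Coprime r then (∑ n ∈ Icc 1 y, W n) / (Nat.totient r : ℝ) else 0) := by
    have e3 : ∀ i ∈ Icc 1 y, W i * x i = (if i ≡ c [MOD r] then W i * lsh z r₀ i else 0) - W i * κ := by
      intro i _
      rw [hx]
      simp only
      split_ifs
      · ring
      · ring
    rw [sum_congr rfl e3, sum_sub_distrib, ← sum_filter, ← sum_mul, hκ]
    congr 1
    split_ifs
    · ring
    · ring
  rw [← e2]
  exact h3

/-- the function in the arithmetic progressions with a small difference has the density `W` -/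
def ApgE (N K U : ℕ) (F W : ℕ → ℝ) : Prop :=
  ∀ r : ℕ, 1 ≤ r → (r : ℝ) ≤ Real.log N ^ K → ∀ c y : ℕ, y ≤ N →
    |∑ n ∈ (Icc 1 y).filter (fun n => n ≡ c [MOD r]), F n -
      (if c.Coprime r then (∑ n ∈ Icc 1 y, W n) / (Nat.totient r : ℝ) else 0)| ≤ N / Real.log N ^ U

lemma ap_f1 {N Z K U z r₀ : ℕ} {g W : ℕ → ℝ} {ct : ℝ} (hW : WBd W ct N) (hL : 2 + 4 * ct ≤ Real.log N)
    (hlam : ∀ q : ℕ, 1 ≤ q → (q : ℝ) ≤ Real.log N ^ K → ∀ c y : ℕ, y ≤ N →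
      |∑ n ∈ (Icc 1 y).filter (fun n => n ≡ c [MOD q]), lamz z n -
        (if c.Coprime q then (y : ℝ) / (Nat.totient q : ℝ) else 0)| ≤ N / Real.log N ^ (U + 2))
    (hsum : ∑ n ∈ Icc 1 N, |lamz z n - lsh z r₀ n| ≤ N / Real.log N ^ (U + 2))
    (hap : ApgE N K (U + 2) (FR N Z g) W) :
    ApAt N K U (f1 N Z g W z r₀) := by
  intro r hr1 hrK c y hy
  have hc := hW.hc
  have hL0 : 0 < Real.log N := by linarith
  have h1 := ap_HW (r₀ := r₀) (c := c) hW hy (fun y hy => hlam r hr1 hrK c y hy) hsum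
  have h2 := hap r hr1 hrK c y hy
  have e1 : ∑ n ∈ (Icc 1 y).filter (fun n => n ≡ c [MOD r]), f1 N Z g W z r₀ n =
      ((∑ n ∈ (Icc 1 y).filter (fun n => n ≡ c [MOD r]), FR N Z g n -
      ∑ n ∈ (Icc 1 y).filter (fun n => n ≡ c [MOD r]), W n * lsh z r₀ n : ℝ) : ℂ) := by
    rw [← sum_sub_distrib]
    push_cast
    refine sum_congr rfl fun n hn => ?_
    rw [mem_filter, mem_Icc] at hn
    unfold f1 HW
    rw [FC_eq hn.1.1]
    push_cast
    ring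
  rw [e1, Complex.norm_real, Real.norm_eq_abs]
  obtain ⟨M, hM⟩ : ∃ M : ℝ, M = (if c.Coprime r then (∑ n ∈ Icc 1 y, W n) / (Nat.totient r : ℝ) else 0) :=
    ⟨_, rfl⟩
  rw [← hM] at h1 h2
  have e2 : ∑ n ∈ (Icc 1 y).filter (fun n => n ≡ c [MOD r]), FR N Z g n -
      ∑ n ∈ (Icc 1 y).filter (fun n => n ≡ c [MOD r]), W n * lsh z r₀ n =
      (∑ n ∈ (Icc 1 y).filter (fun n => n ≡ c [MOD r]), FR N Z g n - M) -
      (∑ n ∈ (Icc 1 y).filter (fun n => n ≡ c [MOD r]), W n * lsh z r₀ n - M) := by ring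
  rw [e2]
  refine (abs_sub _ _).trans ?_
  have hX : 0 ≤ (N : ℝ) / Real.log N ^ (U + 2) := by positivity
  calc _ ≤ N / Real.log N ^ (U + 2) + 2 * (N / Real.log N ^ (U + 2)) * (ct + ct) := add_le_add h2 h1
    _ = (1 + 4 * ct) * (N / Real.log N ^ (U + 2)) := by ring
    _ ≤ Real.log N ^ 2 * (N / Real.log N ^ (U + 2)) := by
        apply mul_le_mul_of_nonneg_right _ hX
        nlinarith
    _ = _ := by
        rw [pow_add]
        field_simp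

lemma maj_f1 {N A C C₃ Z z r : ℕ} {θ : ℝ} {g W : ℕ → ℝ} (hL : 2 ≤ Real.log N)
    (hG : MajE N θ (A + 2) C C₃ (FC N Z (cx g)))
    (hH : ∀ (q : ℕ) [NeZero q], (q : ℝ) ≤ (N : ℝ) ^ θ →
      ∀ η : ℝ, |η| ≤ Real.log N ^ C / N → ∀ y : ℕ, y ≤ N →
      ∀ S : Finset (DirichletCharacter ℂ q), 1 ∉ S →
        ∑ χ ∈ S, ‖cs q y (HW W z r) η χ‖ ^ 2 ≤ (N : ℝ) ^ 2 / Real.log N ^ (A + 2)) :
    MajE N θ A C C₃ (f1 N Z g W z r) := by
  intro q _ hq
  obtain ⟨B, hB1, hBc, hB⟩ := hG q hq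
  refine ⟨B, hB1, hBc, fun η hη y hy S hS => ?_⟩
  have h1 := hB η hη y hy S hS
  have h2 := hH q hq η hη y hy S (fun h => disjoint_left.1 hS h hB1)
  exact (sq_sub_sum (FC N Z (cx g)) (HW W z r) η S h1 h2).trans (four_le hL)

lemma minE_mono {N A C C' : ℕ} {θ : ℝ} {F : ℕ → ℂ} (hL : 1 ≤ Real.log N) (hC : C ≤ C') (h : MinE N θ A C F) :
    MinE N θ A C' F := by
  intro q _ hq k hh β h1 h2 h3 h4 y hy
  have e1 : Real.log N ^ C ≤ Real.log N ^ C' := pow_le_pow_right₀ hL hC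
  refine h q hq k hh β (e1.trans h1) (le_trans ?_ h2) h3 h4 y hy
  gcongr

lemma min_f1 {N A C C' Z z r : ℕ} {θ : ℝ} {g W : ℕ → ℝ} (hL : 2 ≤ Real.log N)
    (hG : MinE N θ (A + 2) C (FC N Z (cx g)))
    (hH : MinE N θ (A + 2) C' (HW W z r)) : MinE N θ A (max C C') (f1 N Z g W z r) := by
  have h1 := minE_mono (by linarith) (le_max_left C C') hG
  have h2 := minE_mono (by linarith) (le_max_right C C') hH
  intro q _ hq k hh β k1 k2 k3 k4 y hy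
  exact (sq_sub_sum (FC N Z (cx g)) (HW W z r) β univ (h1 q hq k hh β k1 k2 k3 k4 y hy)
    (h2 q hq k hh β k1 k2 k3 k4 y hy)).trans (four_le hL)

lemma shE_mono {N B C T K K' : ℕ} {θ θ' : ℝ} {F : ℕ → ℂ} (hN : 1 ≤ N) (hθ : θ' ≤ θ) (hL : 1 ≤ Real.log N)
    (hK : K ≤ K') (h : ShE N θ B C T K F) : ShE N θ' B C T K' F := by
  intro q _ hq χ hχ a ha η hη y hy
  exact h q (hq.trans (Real.rpow_le_rpow_of_exponent_le (by exact_mod_cast hN) hθ)) χ
    (lt_of_le_of_lt (pow_le_pow_right₀ hL hK) hχ) a ha η hη y hy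

/-- the families of coefficients and densities for which the method works -/
structure Fam (α : ℝ) (gf Wf : ℕ → ℕ → ℝ) : Prop where
  cf : ∃ N₀ : ℕ, ∀ N : ℕ, N₀ ≤ N → ∃ D : ℕ, 1 ≤ D ∧ (D : ℝ) ≤ (N : ℝ) ^ ((1 + α) / 2) ∧
    Cf (Za α N) D (cx (gf N))
  wb : ∃ (c : ℝ) (N₀ : ℕ), ∀ N : ℕ, N₀ ≤ N → WBd (Wf N) c N
  ap : ∀ K U : ℕ, ∃ N₀ : ℕ, ∀ N : ℕ, N₀ ≤ N → ApgE N K U (FR N (Za α N) (gf N)) (Wf N)

/-- the functions for the second variable -/
structure Sec (Ff : ℕ → ℕ → ℂ) : Prop where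
  bd : ∃ N₀ : ℕ, ∀ N : ℕ, N₀ ≤ N → BdAt N (Ff N)
  sh : ∀ B C T : ℕ, ∃ K N₀ : ℕ, ∀ N : ℕ, N₀ ≤ N → ShE N (17 / 20) B C T K (Ff N)

/-- the error terms -/
theorem errE (hCore : CoreEStm) (h1 : L2Stm) (hB : BilMaj3Stm) (hBm : BilMinStm) (hT1 : TiMaj2Stm) (hT2 : TiMinStm)
    (hLs : LshStm) (hModel : ModelStm) {α : ℝ} (hα : 1 / 6 ≤ α) (hα2 : α ≤ 1 / 3) {gf Wf : ℕ → ℕ → ℝ}
    (hfam : Fam α gf Wf) {Ff : ℕ → ℕ → ℂ} (hsec : Sec Ff) (A T U₀ : ℕ) {ρ : ℝ} (hρ : 0 < ρ) :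
    ∃ B : ℕ, ∀ E : ℕ, ∃ N₀ : ℕ, ∀ N : ℕ, N₀ ≤ N → ∀ z : ℕ,
    Real.log N ^ B ≤ z → (z : ℝ) ≤ Real.log N ^ E → ∃ r : ℕ, Par U₀ N z r ∧
    ∑ n ∈ Icc 1 N, |lamz z n - lsh z r n| ≤ N / Real.log N ^ U₀ ∧
    ∀ (q : ℕ) [NeZero q], (q : ℝ) ≤ (N : ℝ) ^ (1 - α - ρ) → ∀ a : ZMod q,
    (Nat.gcd a.val q : ℝ) ≤ Real.log N ^ T → ∀ y₁ y₂ : ℕ, y₁ ≤ N → y₂ ≤ N →
      ∑ n ∈ (Icc 1 (2 * N)).filter (fun n : ℕ => (n : ZMod q) = a),
        ‖cv (Ff N) (f1 N (Za α N) (gf N) (Wf N) z r) y₁ y₂ n‖ ^ 2 ≤ (N : ℝ) ^ 3 / (q * Real.log N ^ A) := by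
  have hρ2 : 0 < ρ / 2 := by positivity
  obtain ⟨Ncf, hcf⟩ := hfam.cf
  obtain ⟨ct, Nw, hWB⟩ := hfam.wb
  obtain ⟨Nbd, hbd⟩ := hsec.bd
  obtain ⟨A₁, hC1⟩ := hCore A T (1 - α - ρ) (1 - α - ρ / 2) (by linarith) (by linarith)
  obtain ⟨Cg, Ng, hg⟩ := nFC h1 hBm hα hα2 (A₁ + 2) hρ2
  obtain ⟨Ch, Nh, hh⟩ := nHE hT2 hLs (A₁ + 2) ct
  obtain ⟨C, hC⟩ : ∃ C, C = max Cg Ch := ⟨_, rfl⟩
  obtain ⟨A₂, hC2⟩ := hC1 C
  obtain ⟨C₃, Nm1, hm1⟩ := mFC h1 hB hα hα2 (A₂ + 2) C hρ2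
  obtain ⟨Nm2, hm2⟩ := mHE hT1 hLs (A₂ + 2) C ct
  obtain ⟨B₂, hC3⟩ := hC2 C₃
  obtain ⟨K, Ns2, hs2⟩ := hsec.sh B₂ C (T + C)
  obtain ⟨U, Nc, hC4⟩ := hC3 K
  obtain ⟨U₁, hU₁⟩ : ∃ U₁, U₁ = max U₀ (U + 2) := ⟨_, rfl⟩
  obtain ⟨Bm, hBm'⟩ := hModel U₁
  refine ⟨max Bm K, fun E => ?_⟩
  obtain ⟨Nmo, hmo⟩ := hBm' E
  obtain ⟨Nl, hl⟩ := lamz_ap E (U + 2)
  obtain ⟨Na, ha⟩ := hfam.ap K (U + 2)
  obtain ⟨Ne, hNe⟩ := Filter.eventually_atTop.1 (ev_log (U + 8) (s := 1 / 6) (by norm_num) (64 + 4 * |ct|))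
  refine ⟨Ncf + Nbd + Ng + Nh + Nm1 + Nm2 + Ns2 + Nc + Nw + Nmo + Nl + Na + Ne + 1, fun N hN z hz1 hz2 => ?_⟩
  have hN1 : 1 ≤ N := by omega
  have hNr1 : (1 : ℝ) ≤ N := by exact_mod_cast hN1
  obtain ⟨hLe, hLp⟩ := hNe N (by omega)
  have hct := abs_nonneg ct
  have hctl := le_abs_self ct
  have hL1 : 1 ≤ Real.log N := by linarith
  have hL2 : 2 ≤ Real.log N := by linarith
  have hzB : Real.log N ^ Bm ≤ z := (pow_le_pow_right₀ hL1 (le_max_left _ _)).trans hz1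
  have hzK : Real.log N ^ K ≤ z := (pow_le_pow_right₀ hL1 (le_max_right _ _)).trans hz1
  have hz1' : 1 ≤ z := by
    have : (1 : ℝ) ≤ z := (one_le_pow₀ hL1).trans hz1
    exact_mod_cast this
  obtain ⟨r, hPar, hsum⟩ := hmo N (by omega) z hzB hz2
  obtain ⟨D, hD1, hDr, hgD⟩ := hcf N (by omega)
  have hW := hWB N (by omega)
  have hct0 := hW.hc
  have hdiv : ∀ V : ℕ, V ≤ U₁ → (N : ℝ) / Real.log N ^ U₁ ≤ N / Real.log N ^ V := fun V hV =>
    div_le_div_of_nonneg_left (Nat.cast_nonneg _) (by positivity) (pow_le_pow_right₀ hL1 hV)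
  have hU0 : U₀ ≤ U₁ := by rw [hU₁]; exact le_max_left _ _
  have hU2 : U + 2 ≤ U₁ := by rw [hU₁]; exact le_max_right _ _
  have hP0 := par_mono hL1 hU0 hPar
  have hP2 := par_mono hL1 hU2 hPar
  refine ⟨r, hP0, hsum.trans (hdiv _ hU0), ?_⟩
  intro q _ hq a hgcd y₁ y₂ hy₁ hy₂
  have hexp : ∀ x : ℝ, x ≤ (N : ℝ) ^ (1 - α - ρ / 2) → x ≤ (N : ℝ) ^ (17 / 20 : ℝ) := fun x hx =>
    hx.trans (Real.rpow_le_rpow_of_exponent_le hNr1 (by linarith))
  have hMin : MinE N (1 - α - ρ / 2) A₁ C (f1 N (Za α N) (gf N) (Wf N) z r) := by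
    rw [hC]
    refine min_f1 hL2 (hg N (by omega) D (cx (gf N)) hD1 hDr hgD) ?_
    intro q _ hq
    exact hh N (by omega) (Wf N) hW z r hPar.hD hPar.hV q (hexp _ hq)
  have hMaj : MajE N (1 - α - ρ / 2) A₂ C C₃ (f1 N (Za α N) (gf N) (Wf N) z r) := by
    refine maj_f1 hL2 (hm1 N (by omega) D (cx (gf N)) hD1 hDr hgD) ?_
    intro q _ hq
    exact hm2 N (by omega) (Wf N) hW q (hexp _ hq) z r hPar.hD hPar.hV
  have hAp : ApAt N K U (f1 N (Za α N) (gf N) (Wf N) z r) := by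
    refine ap_f1 hW (by linarith) ?_ (hsum.trans (hdiv _ hU2)) (ha N (by omega))
    intro q hq hqK c y hy
    refine hl N (by omega) z hz1' hz2 q hq ?_ c y hy
    exact_mod_cast hqK.trans hzK
  have hLpow : Real.log N ^ (U + 4) ≤ (N : ℝ) ^ (1 / 6 : ℝ) :=
    (pow_le_pow_right₀ hL1 (by omega)).trans hLp
  have hNc : NcAt N U (f1 N (Za α N) (gf N) (Wf N) z r) := nc_f1 hα hgD hN1 hW hP2 (by linarith) hLpow
  have hSh : ShE N (1 - α - ρ / 2) B₂ C (T + C) K (Ff N) :=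
    shE_mono hN1 (by linarith) hL1 le_rfl (hs2 N (by omega))
  exact hC4 N (by omega) (Ff N) (f1 N (Za α N) (gf N) (Wf N) z r) (hbd N (by omega))
    (bd_f1 hgD (Za_six hα hN1) hW hPar (by linarith)) hMin hMaj hAp hNc hSh q hq a hgcd y₁ y₂ hy₁ hy₂

end Pool.Agent.J4H40
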