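import Pool.Agent.J4H40.Pp

set_option autoImplicit false

/-! The coefficients and the sums over the divisors. -/

namespace Pool.Agent.J4H40

open Finset
open Pool.Agent.R460.GS (ro)
open ArithmeticFunction (cardFactors)

/-- step function -/
noncomputable def st (τ x : ℝ) : ℝ := if x ≤ τ then 1 else 0

lemma st_one {τ x : ℝ} (h : x ≤ τ) : st τ x = 1 := if_pos h

lemma st_zero {τ x : ℝ} (h : τ < x) : st τ x = 0 := if_neg (not_le.2 h)

lemma st_nn (τ x : ℝ) : 0 ≤ st τ x := by unfold st; split_ifs <;> norm_num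

lemma st_le (τ x : ℝ) : st τ x ≤ 1 := by unfold st; split_ifs <;> norm_num

/-- the parameters: the exponent `α` of the roughness, the exponent `a` for the products of two primes, the
logarithm `L` and the tolerance `e` -/
structure Ps where
  α : ℝ
  a : ℝ
  L : ℝ
  e : ℝ

noncomputable def Ps.A (P : Ps) : ℝ := (1 - P.α) / 2 * P.L
noncomputable def Ps.D (P : Ps) : ℝ := (1 + P.α) / 2 * P.L
noncomputable def Ps.Y (P : Ps) : ℝ := P.L / 2 - P.e
noncomputable def Ps.Y' (P : Ps) : ℝ := P.L / 2 + P.e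
noncomputable def Ps.D' (P : Ps) : ℝ := (1 + P.α) / 2 * P.L - 2 * P.e
noncomputable def Ps.G (P : Ps) : ℝ := P.a * P.L

/-- the coefficient of a product of `j` primes, as a function of the logarithm -/
noncomputable def sg (P : Ps) : ℕ → ℝ → ℝ
  | 0, _ => 1
  | 1, x => -(st P.A x + (st P.D x - st P.Y x))
  | 2, x => st P.G x + (st P.D' x - st P.Y' x)
  | 3, x => -(st P.D x - st P.Y x)
  | _ + 4, _ => 0

/-- sums over the square-free divisors -/
noncomputable def S (m : ℕ) (G : ℕ → ℝ → ℝ) : ℝ :=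
  ∑ d ∈ m.divisors.filter Squarefree, G (cardFactors d) (Real.log d)

lemma S_one (G : ℕ → ℝ → ℝ) : S 1 G = G 0 0 := by
  unfold S
  rw [Nat.divisors_one, filter_singleton, if_pos squarefree_one, sum_singleton]
  simp

lemma S_mul {m p : ℕ} (hp : p.Prime) (hm : m ≠ 0) (hpm : ¬ p ∣ m) (G : ℕ → ℝ → ℝ) :
    S (m * p) G = S m (fun j x => G j x + G (j + 1) (x + Real.log p)) := by
  classical
  have e1 : (m * p).divisors.filter Squarefree =
      (m.divisors.filter Squarefree) ∪ (m.divisors.filter Squarefree).image (fun d => d * p) := by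
    ext d
    rw [mem_union, mem_image, mem_filter, mem_filter, Nat.mem_divisors, Nat.mem_divisors]
    constructor
    · rintro ⟨⟨h1, h2⟩, h3⟩
      by_cases hpd : p ∣ d
      · right
        obtain ⟨c, hc⟩ := hpd
        have hc' : d = c * p := by rw [hc, mul_comm]
        refine ⟨c, ?_, hc'.symm⟩
        rw [mem_filter, Nat.mem_divisors]
        refine ⟨⟨?_, hm⟩, ?_⟩
        · rw [hc'] at h1
          exact Nat.dvd_of_mul_dvd_mul_right hp.pos h1
        · rw [hc'] at h3
          exact h3.of_mul_left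
      · left
        refine ⟨⟨?_, hm⟩, h3⟩
        exact (Nat.Coprime.dvd_of_dvd_mul_right ((Nat.coprime_comm.1 ((Nat.Prime.coprime_iff_not_dvd hp).2 hpd))) h1)
    · rintro (⟨⟨h1, h2⟩, h3⟩ | ⟨c, hc, rfl⟩)
      · exact ⟨⟨h1.mul_right p, Nat.mul_ne_zero hm hp.ne_zero⟩, h3⟩
      · rw [mem_filter, Nat.mem_divisors] at hc
        refine ⟨⟨Nat.mul_dvd_mul_right hc.1.1 p, Nat.mul_ne_zero hm hp.ne_zero⟩, ?_⟩
        rw [Nat.squarefree_mul]
        · exact ⟨hc.2, hp.prime.squarefree⟩
        · exact (Nat.coprime_comm.1 ((Nat.Prime.coprime_iff_not_dvd hp).2 (fun h => hpm (h.trans hc.1.1))))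
  have hd : Disjoint (m.divisors.filter Squarefree) ((m.divisors.filter Squarefree).image (fun d => d * p)) := by
    rw [disjoint_left]
    intro d h1 h2
    rw [mem_filter, Nat.mem_divisors] at h1
    rw [mem_image] at h2
    obtain ⟨c, _, rfl⟩ := h2
    exact hpm ((Dvd.intro_left c rfl).trans h1.1.1)
  unfold S
  rw [e1, sum_union hd, sum_image (fun a _ b _ h => Nat.eq_of_mul_eq_mul_right hp.pos h), ← sum_add_distrib]
  refine sum_congr rfl fun d hd => ?_
  rw [mem_filter, Nat.mem_divisors] at hd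
  have hd0 : d ≠ 0 := fun h => by
    rw [h] at hd
    exact hm (Nat.eq_zero_of_zero_dvd hd.1.1)
  have e2 : cardFactors (d * p) = cardFactors d + 1 := by
    rw [ArithmeticFunction.cardFactors_mul hd0 hp.ne_zero, ArithmeticFunction.cardFactors_apply_prime hp]
  have e3 : Real.log ((d * p : ℕ) : ℝ) = Real.log d + Real.log p := by
    push_cast
    rw [Real.log_mul (by exact_mod_cast hd0) (by exact_mod_cast hp.ne_zero)]
  rw [e2, e3]

/-- the value at the product of a cofactor and a formal prime with logarithm `x` -/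
noncomputable def Vx (P : Ps) (m : ℕ) (x : ℝ) : ℝ :=
  S m (fun j y => sg P j y + sg P (j + 1) (y + x))

lemma S_Vx {P : Ps} {m p : ℕ} (hp : p.Prime) (hm : m ≠ 0) (hpm : ¬ p ∣ m) :
    S (m * p) (sg P) = Vx P m (Real.log p) := S_mul hp hm hpm _

end Pool.Agent.J4H40
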