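import Pool.Agent.J4H40.Qa

set_option autoImplicit false

/-! The upper bounds for the sums over the divisors. -/

namespace Pool.Agent.J4H40

open Finset

/-- admissible parameters -/
structure Ok (P : Ps) : Prop where
  L0 : 0 < P.L
  e0 : 0 < P.e
  e1 : 1000 * P.e ≤ P.L
  α1 : 1 / 6 ≤ P.α
  α2 : P.α ≤ 1 / 4
  a0 : 1 / 4 ≤ P.a
  a1 : P.a + 1 / 100 ≤ (1 - P.α) / 2
  h5 : P.a ≤ 388 / 1000 ∨ 1 / 5 ≤ P.α

/-- the linear relations between the thresholds -/
structure Th (P : Ps) : Prop where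
  a1 : P.L / 6 ≤ P.α * P.L
  a2 : P.α * P.L ≤ P.L / 4
  eA : 2 * P.A = P.L - P.α * P.L
  eD : 2 * P.D = P.L + P.α * P.L
  eD' : P.D' = P.D - 2 * P.e
  eY : P.Y = P.L / 2 - P.e
  eY' : P.Y' = P.L / 2 + P.e
  g0 : P.L / 4 ≤ P.G
  g1 : P.G + P.L / 100 ≤ P.A

lemma th {P : Ps} (h : Ok P) : Th P := by
  have hL := h.L0
  have h1 := mul_le_mul_of_nonneg_right h.α1 hL.le
  have h2 := mul_le_mul_of_nonneg_right h.α2 hL.le
  have h3 := mul_le_mul_of_nonneg_right h.a0 hL.le
  have h4 := mul_le_mul_of_nonneg_right h.a1 hL.le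
  refine ⟨by linarith, by linarith, by unfold Ps.A; ring, by unfold Ps.D; ring, rfl, rfl, rfl, ?_, ?_⟩
  · unfold Ps.G; linarith
  · unfold Ps.G Ps.A
    rw [add_mul] at h4
    linarith

section
variable {P : Ps} (h : Ok P)
include h

lemma sg1_lo {x : ℝ} (hx : x ≤ P.A) : sg P 1 x = -1 := by
  have t := th h
  have := t.a1; have := t.a2; have := t.eA; have := t.eD; have := t.eY; have := h.e1; have := h.e0; have := h.L0
  show -(st P.A x + (st P.D x - st P.Y x)) = -1
  rw [st_one hx, st_one (by linarith), st_one (by linarith)]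
  norm_num

lemma sg1_mid {x : ℝ} (h1 : P.A < x) (hx : x ≤ P.Y) : sg P 1 x = 0 := by
  have t := th h
  have := t.a1; have := t.a2; have := t.eA; have := t.eD; have := t.eY; have := h.e1; have := h.e0; have := h.L0
  show -(st P.A x + (st P.D x - st P.Y x)) = 0
  rw [st_zero h1, st_one (by linarith : x ≤ P.D), st_one hx]
  norm_num

lemma sg1_hi {x : ℝ} (h1 : P.Y < x) (hx : x ≤ P.D) : sg P 1 x = -1 := by
  have t := th h
  have := t.a1; have := t.a2; have := t.eA; have := t.eD; have := t.eY; have := h.e1; have := h.e0; have := h.L0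
  show -(st P.A x + (st P.D x - st P.Y x)) = -1
  rw [st_zero (by linarith : P.A < x), st_one hx, st_zero h1]
  norm_num

lemma sg1_top {x : ℝ} (h1 : P.D < x) : sg P 1 x = 0 := by
  have t := th h
  have := t.a1; have := t.a2; have := t.eA; have := t.eD; have := t.eY; have := h.e1; have := h.e0; have := h.L0
  show -(st P.A x + (st P.D x - st P.Y x)) = 0
  rw [st_zero (by linarith : P.A < x), st_zero h1, st_zero (by linarith)]
  norm_num

lemma sg2_lo {x : ℝ} (hx : x ≤ P.G) : sg P 2 x = 1 := by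
  have t := th h
  have := t.a1; have := t.a2; have := t.eA; have := t.eD; have := t.eD'; have := t.eY'; have := t.g0; have := t.g1
  have := h.e1; have := h.e0; have := h.L0
  show st P.G x + (st P.D' x - st P.Y' x) = 1
  rw [st_one hx, st_one (by linarith), st_one (by linarith)]
  norm_num

lemma sg2_mid {x : ℝ} (h1 : P.G < x) (hx : x ≤ P.Y') : sg P 2 x = 0 := by
  have t := th h
  have := t.a1; have := t.a2; have := t.eA; have := t.eD; have := t.eD'; have := t.eY'; have := t.g0; have := t.g1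
  have := h.e1; have := h.e0; have := h.L0
  show st P.G x + (st P.D' x - st P.Y' x) = 0
  rw [st_zero h1, st_one (by linarith : x ≤ P.D'), st_one hx]
  norm_num

lemma sg2_hi {x : ℝ} (h1 : P.Y' < x) (hx : x ≤ P.D') : sg P 2 x = 1 := by
  have t := th h
  have := t.a1; have := t.a2; have := t.eA; have := t.eD; have := t.eD'; have := t.eY'; have := t.g0; have := t.g1
  have := h.e1; have := h.e0; have := h.L0
  show st P.G x + (st P.D' x - st P.Y' x) = 1
  rw [st_zero (by linarith : P.G < x), st_one hx, st_zero h1]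
  norm_num

lemma sg2_top {x : ℝ} (h1 : P.D' < x) : sg P 2 x = 0 := by
  have t := th h
  have := t.a1; have := t.a2; have := t.eA; have := t.eD; have := t.eD'; have := t.eY'; have := t.g0; have := t.g1
  have := h.e1; have := h.e0; have := h.L0
  show st P.G x + (st P.D' x - st P.Y' x) = 0
  rw [st_zero (by linarith : P.G < x), st_zero h1, st_zero (by linarith)]
  norm_num

lemma sg3_lo {x : ℝ} (hx : x ≤ P.Y) : sg P 3 x = 0 := by
  have t := th h
  have := t.a1; have := t.a2; have := t.eA; have := t.eD; have := t.eY; have := h.e1; have := h.e0; have := h.L0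
  show -(st P.D x - st P.Y x) = 0
  rw [st_one (by linarith : x ≤ P.D), st_one hx]
  norm_num

lemma sg3_hi {x : ℝ} (h1 : P.Y < x) (hx : x ≤ P.D) : sg P 3 x = -1 := by
  have t := th h
  have := t.a1; have := t.a2; have := t.eA; have := t.eD; have := t.eY; have := h.e1; have := h.e0; have := h.L0
  show -(st P.D x - st P.Y x) = -1
  rw [st_one hx, st_zero h1]
  norm_num

lemma sg3_top {x : ℝ} (h1 : P.D < x) : sg P 3 x = 0 := by
  have t := th h
  have := t.a1; have := t.a2; have := t.eA; have := t.eD; have := t.eY; have := h.e1; have := h.e0; have := h.L0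
  show -(st P.D x - st P.Y x) = 0
  rw [st_zero h1, st_zero (by linarith)]
  norm_num

lemma sg1_bd (x : ℝ) : -1 ≤ sg P 1 x ∧ sg P 1 x ≤ 0 := by
  rcases le_or_gt x P.A with h1 | h1
  · rw [sg1_lo h h1]; norm_num
  rcases le_or_gt x P.Y with h2 | h2
  · rw [sg1_mid h h1 h2]; norm_num
  rcases le_or_gt x P.D with h3 | h3
  · rw [sg1_hi h h2 h3]; norm_num
  · rw [sg1_top h h3]; norm_num

lemma sg2_bd (x : ℝ) : 0 ≤ sg P 2 x ∧ sg P 2 x ≤ 1 := by
  rcases le_or_gt x P.G with h1 | h1
  · rw [sg2_lo h h1]; norm_num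
  rcases le_or_gt x P.Y' with h2 | h2
  · rw [sg2_mid h h1 h2]; norm_num
  rcases le_or_gt x P.D' with h3 | h3
  · rw [sg2_hi h h2 h3]; norm_num
  · rw [sg2_top h h3]; norm_num

lemma sg3_bd (x : ℝ) : -1 ≤ sg P 3 x ∧ sg P 3 x ≤ 0 := by
  rcases le_or_gt x P.Y with h2 | h2
  · rw [sg3_lo h h2]; norm_num
  rcases le_or_gt x P.D with h3 | h3
  · rw [sg3_hi h h2 h3]; norm_num
  · rw [sg3_top h h3]; norm_num

lemma sg_abs (j : ℕ) (x : ℝ) : |sg P j x| ≤ 1 := by
  rcases j with _ | _ | _ | _ | j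
  · show |(1 : ℝ)| ≤ 1
    norm_num
  · rw [abs_le]
    obtain ⟨h1, h2⟩ := sg1_bd h x
    exact ⟨h1, h2.trans zero_le_one⟩
  · rw [abs_le]
    obtain ⟨h1, h2⟩ := sg2_bd h x
    exact ⟨by linarith, h2⟩
  · rw [abs_le]
    obtain ⟨h1, h2⟩ := sg3_bd h x
    exact ⟨h1, h2.trans zero_le_one⟩
  · show |(0 : ℝ)| ≤ 1
    norm_num

lemma up1 {x : ℝ} (h1 : P.L - P.e ≤ x) : sg P 1 x = 0 := by
  have t := th h
  have := t.a1; have := t.a2; have := t.eA; have := t.eD; have := t.eY; have := h.e1; have := h.e0; have := h.L0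
  exact sg1_top h (by linarith)

lemma up2 {x y : ℝ} (h1 : P.L - P.e ≤ x + y) (h2 : x + y ≤ P.L) :
    1 + sg P 1 x + sg P 1 y + sg P 2 (x + y) ≤ 0 := by
  have t := th h
  have := t.a1; have := t.a2; have := t.eA; have := t.eD; have := t.eD'; have := t.eY; have := t.eY'
  have := t.g0; have := t.g1; have := h.e1; have := h.e0; have := h.L0
  rw [sg2_top h (by linarith : P.D' < x + y)]
  have b1 := sg1_bd h x
  have b2 := sg1_bd h y
  rcases le_total x y with hxy | hxy
  · rcases le_or_gt y P.D with hy | hy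
    · rw [sg1_hi h (by linarith : P.Y < y) hy]; linarith
    · rw [sg1_lo h (by linarith : x ≤ P.A)]; linarith
  · rcases le_or_gt x P.D with hx | hx
    · rw [sg1_hi h (by linarith : P.Y < x) hx]; linarith
    · rw [sg1_lo h (by linarith : y ≤ P.A)]; linarith

/-- a prime and its complement -/
lemma pr {x y : ℝ} (h1 : P.L - P.e ≤ x + y) : sg P 1 x + sg P 2 y ≤ 1 ∧ (x ≤ P.A → sg P 1 x + sg P 2 y ≤ -1) := by
  have t := th h
  have := t.a1; have := t.a2; have := t.eA; have := t.eD; have := t.eD'; have := t.eY; have := t.eY'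
  have := t.g0; have := t.g1; have := h.e1; have := h.e0; have := h.L0
  have b1 := sg1_bd h x
  have b2 := sg2_bd h y
  refine ⟨by linarith, fun hx => ?_⟩
  rw [sg1_lo h hx, sg2_top h (by linarith)]
  norm_num

lemma up3 {x y z : ℝ} (hx : P.α * P.L < x) (hy : P.α * P.L < y) (hz : P.α * P.L < z)
    (h1 : P.L - P.e ≤ x + y + z) (h2 : x + y + z ≤ P.L) :
    1 + sg P 1 x + sg P 1 y + sg P 1 z + sg P 2 (x + y) + sg P 2 (x + z) + sg P 2 (y + z) +
      sg P 3 (x + y + z) ≤ 0 := by
  have t := th h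
  have := t.a1; have := t.a2; have := t.eA
  have b := (sg3_bd h (x + y + z)).2
  obtain ⟨c1, c2⟩ := pr h (x := x) (y := y + z) (by linarith)
  obtain ⟨d1, d2⟩ := pr h (x := y) (y := x + z) (by linarith)
  obtain ⟨e1, e2⟩ := pr h (x := z) (y := x + y) (by linarith)
  rcases le_or_gt x P.A with k1 | k1
  · rcases le_or_gt y P.A with k2 | k2
    · linarith [c2 k1, d2 k2]
    · linarith [c2 k1, e2 (by linarith)]
  · linarith [d2 (by linarith), e2 (by linarith)]

/-- complementary pairs -/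
lemma pp {x y : ℝ} (h1 : P.L - P.e ≤ x + y) (h2 : x + y ≤ P.L) : sg P 2 x + sg P 2 y ≤ 1 := by
  have t := th h
  have := t.a1; have := t.a2; have := t.eA; have := t.eD; have := t.eD'; have := t.eY; have := t.eY'
  have := t.g0; have := t.g1; have := h.e1; have := h.e0; have := h.L0
  have b1 := sg2_bd h x
  have b2 := sg2_bd h y
  rcases le_total x y with hxy | hxy
  · rcases le_or_gt x P.G with hx | hx
    · rw [sg2_top h (by linarith : P.D' < y)]; linarith
    · rw [sg2_mid h hx (by linarith)]; linarith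
  · rcases le_or_gt y P.G with hx | hx
    · rw [sg2_top h (by linarith : P.D' < x)]; linarith
    · rw [sg2_mid h hx (by linarith)]; linarith

/-- a prime and its complement -/
lemma pt {x y : ℝ} (h1 : P.L - P.e ≤ x + y) (h2 : x + y ≤ P.L) (hx : x ≤ P.L / 2) : sg P 1 x + sg P 3 y ≤ -1 := by
  have t := th h
  have := t.a1; have := t.a2; have := t.eA; have := t.eD; have := t.eD'; have := t.eY; have := t.eY'
  have := t.g0; have := t.g1; have := h.e1; have := h.e0; have := h.L0
  have b1 := sg1_bd h x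
  have b2 := sg3_bd h y
  rcases le_or_gt x P.A with k1 | k1
  · rw [sg1_lo h k1]; linarith
  rcases le_or_gt x P.Y with k2 | k2
  · rw [sg3_hi h (by linarith) (by linarith)]; linarith
  · rw [sg1_hi h k2 (by linarith)]; linarith

lemma up4 {x y z u : ℝ} (hx : P.α * P.L < x) (hy : P.α * P.L < y) (hz : P.α * P.L < z) (hu : P.α * P.L < u)
    (h1 : P.L - P.e ≤ x + y + z + u) (h2 : x + y + z + u ≤ P.L) :
    1 + sg P 1 x + sg P 1 y + sg P 1 z + sg P 1 u +
      (sg P 2 (x + y) + sg P 2 (x + z) + sg P 2 (x + u) + sg P 2 (y + z) + sg P 2 (y + u) + sg P 2 (z + u)) +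
      (sg P 3 (x + y + z) + sg P 3 (x + y + u) + sg P 3 (x + z + u) + sg P 3 (y + z + u)) ≤ 0 := by
  have t := th h
  have := t.a1; have := t.a2
  have c1 := pt h (x := x) (y := y + z + u) (by linarith) (by linarith) (by linarith)
  have c2 := pt h (x := y) (y := x + z + u) (by linarith) (by linarith) (by linarith)
  have c3 := pt h (x := z) (y := x + y + u) (by linarith) (by linarith) (by linarith)
  have c4 := pt h (x := u) (y := x + y + z) (by linarith) (by linarith) (by linarith)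
  have d1 := pp h (x := x + y) (y := z + u) (by linarith) (by linarith)
  have d2 := pp h (x := x + z) (y := y + u) (by linarith) (by linarith)
  have d3 := pp h (x := x + u) (y := y + z) (by linarith) (by linarith)
  linarith

/-- a pair and its complement -/
lemma pq {x y : ℝ} (h1 : P.L - P.e ≤ x + y) (h2 : x + y ≤ P.L) (hy : P.L / 2 < y) :
    ∃ k : ℤ, sg P 2 x + sg P 3 y ≤ 1 - k ∧ 0 ≤ k ∧ k ≤ 2 ∧ (k = 0 → x ≤ P.G) ∧ (k = 1 → x ≤ P.A) := by
  have t := th h
  have := t.a1; have := t.a2; have := t.eA; have := t.eD; have := t.eD'; have := t.eY; have := t.eY'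
  have := t.g0; have := t.g1; have := h.e1; have := h.e0; have hL := h.L0
  have b1 := sg2_bd h x
  have b2 := sg3_bd h y
  rcases le_or_gt x P.G with k1 | k1
  · refine ⟨0, ?_, le_rfl, by norm_num, fun _ => k1, fun h => by norm_num at h⟩
    push_cast; linarith
  rcases le_or_gt x P.A with k2 | k2
  · refine ⟨1, ?_, by norm_num, by norm_num, fun h => by norm_num at h, fun _ => k2⟩
    rw [sg2_mid h k1 (by linarith)]
    push_cast; linarith
  · refine ⟨2, ?_, by norm_num, by norm_num, fun h => by norm_num at h, fun h => by norm_num at h⟩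
    rw [sg2_mid h k1 (by linarith), sg3_hi h (by linarith) (by linarith)]
    push_cast; linarith

/-- five pairs along a cycle -/
lemma cyc {x y z u v : ℝ} (ha : P.a ≤ 388 / 1000) (hx : P.α * P.L < x) (hy : P.α * P.L < y) (hz : P.α * P.L < z)
    (hu : P.α * P.L < u) (hv : P.α * P.L < v) (h1 : P.L - P.e ≤ x + y + z + u + v) {k1 k2 k3 k4 k5 : ℤ}
    (a1 : 0 ≤ k1 ∧ k1 ≤ 2 ∧ (k1 = 0 → x + y ≤ P.G) ∧ (k1 = 1 → x + y ≤ P.A))
    (a2 : 0 ≤ k2 ∧ k2 ≤ 2 ∧ (k2 = 0 → y + z ≤ P.G) ∧ (k2 = 1 → y + z ≤ P.A))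
    (a3 : 0 ≤ k3 ∧ k3 ≤ 2 ∧ (k3 = 0 → z + u ≤ P.G) ∧ (k3 = 1 → z + u ≤ P.A))
    (a4 : 0 ≤ k4 ∧ k4 ≤ 2 ∧ (k4 = 0 → u + v ≤ P.G) ∧ (k4 = 1 → u + v ≤ P.A))
    (a5 : 0 ≤ k5 ∧ k5 ≤ 2 ∧ (k5 = 0 → v + x ≤ P.G) ∧ (k5 = 1 → v + x ≤ P.A)) : 3 ≤ k1 + k2 + k3 + k4 + k5 := by
  have t := th h
  have ta := t.a1; have te := t.eA; have tg := t.g1; have he := h.e1; have hL := h.L0
  have hG : P.G ≤ 388 / 1000 * P.L := mul_le_mul_of_nonneg_right ha hL.le
  obtain ⟨a10, a12, a1a, a1b⟩ := a1
  obtain ⟨a20, a22, a2a, a2b⟩ := a2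
  obtain ⟨a30, a32, a3a, a3b⟩ := a3
  obtain ⟨a40, a42, a4a, a4b⟩ := a4
  obtain ⟨a50, a52, a5a, a5b⟩ := a5
  by_contra hcon
  by_cases c1 : k1 = 2
  · have := a2a (by omega); have := a3a (by omega); have := a4a (by omega); have := a5a (by omega)
    linarith
  by_cases c2 : k2 = 2
  · have := a1a (by omega); have := a3a (by omega); have := a4a (by omega); have := a5a (by omega)
    linarith
  by_cases c3 : k3 = 2
  · have := a1a (by omega); have := a2a (by omega); have := a4a (by omega); have := a5a (by omega)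
    linarith
  by_cases c4 : k4 = 2
  · have := a1a (by omega); have := a2a (by omega); have := a3a (by omega); have := a5a (by omega)
    linarith
  by_cases c5 : k5 = 2
  · have := a1a (by omega); have := a2a (by omega); have := a3a (by omega); have := a4a (by omega)
    linarith
  have key : ∀ (k : ℤ) (s : ℝ), 0 ≤ k → k ≤ 2 → ¬ k = 2 → (k = 0 → s ≤ P.G) → (k = 1 → s ≤ P.A) →
      s ≤ P.G + (P.A - P.G) * k := by
    intro k s k0 k2 kn ha hb
    have hk : k = 0 ∨ k = 1 := by omega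
    rcases hk with hk | hk
    · rw [hk]; push_cast; have := ha hk; linarith
    · rw [hk]; push_cast; have := hb hk; linarith
  have b1 := key _ _ a10 a12 c1 a1a a1b
  have b2 := key _ _ a20 a22 c2 a2a a2b
  have b3 := key _ _ a30 a32 c3 a3a a3b
  have b4 := key _ _ a40 a42 c4 a4a a4b
  have b5 := key _ _ a50 a52 c5 a5a a5b
  have b6 : ((k1 + k2 + k3 + k4 + k5 : ℤ) : ℝ) ≤ 2 := by
    have : k1 + k2 + k3 + k4 + k5 ≤ 2 := by omega
    exact_mod_cast this
  push_cast at b6
  have b7 : (P.A - P.G) * ((k1 : ℝ) + k2 + k3 + k4 + k5) ≤ (P.A - P.G) * 2 :=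
    mul_le_mul_of_nonneg_left b6 (by linarith)
  linarith

lemma up5 {x y z u v : ℝ} (hx : P.α * P.L < x) (hy : P.α * P.L < y) (hz : P.α * P.L < z) (hu : P.α * P.L < u)
    (hv : P.α * P.L < v) (h1 : P.L - P.e ≤ x + y + z + u + v) (h2 : x + y + z + u + v ≤ P.L) :
    1 + (sg P 1 x + sg P 1 y + sg P 1 z + sg P 1 u + sg P 1 v) +
      (sg P 2 (x + y) + sg P 2 (x + z) + sg P 2 (x + u) + sg P 2 (x + v) + sg P 2 (y + z) + sg P 2 (y + u) +
        sg P 2 (y + v) + sg P 2 (z + u) + sg P 2 (z + v) + sg P 2 (u + v)) +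
      (sg P 3 (x + y + z) + sg P 3 (x + y + u) + sg P 3 (x + y + v) + sg P 3 (x + z + u) + sg P 3 (x + z + v) +
        sg P 3 (x + u + v) + sg P 3 (y + z + u) + sg P 3 (y + z + v) + sg P 3 (y + u + v) +
        sg P 3 (z + u + v)) ≤ 0 := by
  have t := th h
  have ta1 := t.a1; have ta2 := t.a2; have ta := t.eA; have hL := h.L0; have he := h.e1
  rcases h.h5 with ha | ha
  swap
  · exfalso
    have := mul_le_mul_of_nonneg_right ha hL.le
    linarith
  rw [sg1_lo h (by linarith : x ≤ P.A), sg1_lo h (by linarith : y ≤ P.A), sg1_lo h (by linarith : z ≤ P.A),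
    sg1_lo h (by linarith : u ≤ P.A), sg1_lo h (by linarith : v ≤ P.A)]
  obtain ⟨k1, c1, d1⟩ := pq h (x := x + y) (y := z + u + v) (by linarith) (by linarith) (by linarith)
  obtain ⟨k2, c2, d2⟩ := pq h (x := y + z) (y := x + u + v) (by linarith) (by linarith) (by linarith)
  obtain ⟨k3, c3, d3⟩ := pq h (x := z + u) (y := x + y + v) (by linarith) (by linarith) (by linarith)
  obtain ⟨k4, c4, d4⟩ := pq h (x := u + v) (y := x + y + z) (by linarith) (by linarith) (by linarith)
  obtain ⟨k5, c5, d5⟩ := pq h (x := x + v) (y := y + z + u) (by linarith) (by linarith) (by linarith)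
  obtain ⟨k6, c6, d6⟩ := pq h (x := x + z) (y := y + u + v) (by linarith) (by linarith) (by linarith)
  obtain ⟨k7, c7, d7⟩ := pq h (x := z + v) (y := x + y + u) (by linarith) (by linarith) (by linarith)
  obtain ⟨k8, c8, d8⟩ := pq h (x := y + v) (y := x + z + u) (by linarith) (by linarith) (by linarith)
  obtain ⟨k9, c9, d9⟩ := pq h (x := y + u) (y := x + z + v) (by linarith) (by linarith) (by linarith)
  obtain ⟨k0, c0, d0⟩ := pq h (x := x + u) (y := y + z + v) (by linarith) (by linarith) (by linarith)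
  have e1 := cyc h ha hx hy hz hu hv h1 d1 d2 d3 d4 (by rw [add_comm v x]; exact d5)
  have e2 := cyc h ha hx hz hv hy hu (by linarith) d6 d7 (by rw [add_comm v y]; exact d8) d9
    (by rw [add_comm u x]; exact d0)
  have f1 : (3 : ℝ) ≤ ((k1 + k2 + k3 + k4 + k5 : ℤ) : ℝ) := by exact_mod_cast e1
  have f2 : (3 : ℝ) ≤ ((k6 + k7 + k8 + k9 + k0 : ℤ) : ℝ) := by exact_mod_cast e2
  push_cast at f1 f2
  linarith

end

end Pool.Agent.J4H40
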