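import Pool.Agent.J4H40.Qb

set_option autoImplicit false

/-! The coefficients as functions of the integers, and the pointwise upper bound. -/

namespace Pool.Agent.J4H40

open Finset
open Pool.Agent.R460.GS (ro)
open ArithmeticFunction (cardFactors)

/-- the parameters for `N` -/
noncomputable def PN (α a : ℝ) (B N : ℕ) : Ps := ⟨α, a, Real.log N, B * Real.log (Real.log N)⟩

open Classical in
/-- the coefficients -/
noncomputable def gc (P : Ps) (Z d : ℕ) : ℝ :=
  if Squarefree d ∧ ∀ p ∈ d.primeFactors, Z < p then sg P (cardFactors d) (Real.log d) else 0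

lemma FR_rough {N Z n : ℕ} {P : Ps} (hn : 1 ≤ n) (hr : ∀ p ∈ n.primeFactors, Z < p) :
    FR N Z (gc P Z) n = Real.log N * S n (sg P) := by
  unfold FR S
  congr 1
  rw [sum_filter]
  refine sum_congr rfl fun d hd => ?_
  rw [Nat.mem_divisors] at hd
  have hd1 : ∀ p ∈ d.primeFactors, Z < p := fun p hp => hr p (Nat.primeFactors_mono hd.1 hd.2 hp)
  have hd2 : ro Z (n / d) = 1 := by
    unfold ro
    rw [if_pos]
    intro p hp
    exact hr p (Nat.primeFactors_mono (Nat.div_dvd_of_dvd hd.1) hd.2 hp)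
  rw [hd2, mul_one]
  unfold gc
  by_cases hs : Squarefree d
  · rw [if_pos ⟨hs, hd1⟩, if_pos hs]
  · rw [if_neg (fun h => hs h.1), if_neg hs]

lemma FR_zero {N Z n : ℕ} {P : Ps} (hn : 1 ≤ n) (hr : ¬ ∀ p ∈ n.primeFactors, Z < p) :
    FR N Z (gc P Z) n = 0 := by
  unfold FR
  rw [sum_eq_zero, mul_zero]
  intro d hd
  rw [Nat.mem_divisors] at hd
  by_cases hd1 : ∀ p ∈ d.primeFactors, Z < p
  · have hd2 : ro Z (n / d) = 0 := by
      unfold ro
      rw [if_neg]
      intro h
      apply hr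
      intro p hp
      have hpp := Nat.prime_of_mem_primeFactors hp
      have h1 := Nat.dvd_of_mem_primeFactors hp
      rw [← Nat.mul_div_cancel' hd.1] at h1
      have hd0 : d ≠ 0 := fun h => by
        rw [h] at hd
        exact hd.2 (Nat.eq_zero_of_zero_dvd hd.1)
      have hq0 : n / d ≠ 0 := (Nat.div_pos (Nat.le_of_dvd hn hd.1) (by omega)).ne'
      rcases (Nat.Prime.dvd_mul hpp).1 h1 with h2 | h2
      · exact hd1 p (Nat.mem_primeFactors.2 ⟨hpp, h2, hd0⟩)
      · exact h p (Nat.mem_primeFactors.2 ⟨hpp, h2, hq0⟩)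
    rw [hd2, mul_zero]
  · unfold gc
    rw [if_neg (fun h => hd1 h.2), zero_mul]

/-- a square-free number is a product of a prime and a coprime number -/
lemma dec {n : ℕ} (hn : Squarefree n) (h1 : n ≠ 1) : ∃ m p : ℕ, n = m * p ∧ p.Prime ∧ ¬ p ∣ m ∧ m ≠ 0 ∧
    Squarefree m ∧ m.primeFactors ⊆ n.primeFactors ∧ p ∈ n.primeFactors := by
  have hp := Nat.minFac_prime h1
  obtain ⟨m, hm⟩ := Nat.minFac_dvd n
  have hn0 := hn.ne_zero
  have hm0 : m ≠ 0 := fun h => by rw [h, mul_zero] at hm; exact hn0 hm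
  refine ⟨m, n.minFac, by rw [mul_comm]; exact hm, hp, ?_, hm0, ?_, ?_, ?_⟩
  · intro h
    have h2 : n.minFac * n.minFac ∣ n := by
      nth_rewrite 3 [hm]
      exact Nat.mul_dvd_mul_left _ h
    have h3 := hn _ h2
    rw [Nat.isUnit_iff] at h3
    exact hp.one_lt.ne' h3
  · rw [hm] at hn
    exact hn.of_mul_right
  · exact Nat.primeFactors_mono (Dvd.intro_left _ hm.symm) hn0
  · exact Nat.mem_primeFactors.2 ⟨hp, Nat.minFac_dvd n, hn0⟩

section
variable {P : Ps} (h : Ok P)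
include h

lemma sg_top {j : ℕ} {x : ℝ} (hj : 1 ≤ j) (hx : P.D < x) : sg P j x = 0 := by
  have t := th h
  have := t.eD'; have := h.e0
  rcases j with _ | _ | _ | _ | j
  · omega
  · exact sg1_top h hx
  · exact sg2_top h (by linarith)
  · exact sg3_top h hx
  · rfl

lemma gc_abs (Z d : ℕ) : |gc P Z d| ≤ 1 := by
  unfold gc
  split_ifs
  · exact sg_abs h _ _
  · simp

lemma cf_gc {N Z : ℕ} (hN : 2 ≤ N) (hPL : P.L = Real.log N) :
    Cf Z ⌊(N : ℝ) ^ ((1 + P.α) / 2)⌋₊ (cx (gc P Z)) := by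
  refine ⟨fun d => ?_, fun d hd => ?_⟩
  · unfold cx
    rw [Complex.norm_real, Real.norm_eq_abs]
    exact gc_abs h Z d
  · have h1 : gc P Z d ≠ 0 := by
      intro h0
      apply hd
      unfold cx
      rw [h0, Complex.ofReal_zero]
    unfold gc at h1
    have hN1 : (1 : ℝ) ≤ N := by exact_mod_cast (by omega : 1 ≤ N)
    have hN0 : (0 : ℝ) < N := by linarith
    have hα := h.α1
    by_cases h2 : Squarefree d ∧ ∀ p ∈ d.primeFactors, Z < p
    · rw [if_pos h2] at h1
      refine ⟨h2.1, h2.2, ?_⟩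
      have hd0 : d ≠ 0 := h2.1.ne_zero
      apply Nat.le_floor
      rcases Nat.eq_zero_or_pos (cardFactors d) with h3 | h3
      · rcases (ArithmeticFunction.cardFactors_eq_zero_iff_eq_zero_or_one.1 h3) with h4 | h4
        · exact absurd h4 hd0
        · rw [h4, Nat.cast_one]
          exact Real.one_le_rpow hN1 (by linarith)
      · rcases le_or_gt (Real.log d) P.D with h4 | h4
        · have h5 : Real.log d ≤ Real.log ((N : ℝ) ^ ((1 + P.α) / 2)) := by
            rw [Real.log_rpow hN0, ← hPL]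
            exact h4
          exact (Real.log_le_log_iff (by exact_mod_cast Nat.pos_of_ne_zero hd0) (by positivity)).1 h5
        · exact absurd (sg_top h h3 h4) h1
    · rw [if_neg h2] at h1
      exact absurd rfl h1

/-- the pointwise upper bound -/
lemma up_all {N Z n : ℕ} (hPL : P.L = Real.log N) (hZ : ∀ p : ℕ, Z < p → P.α * P.L < Real.log p)
    (hn : Squarefree n) (hr : ∀ p ∈ n.primeFactors, Z < p) (hnN : n ≤ N) (hnl : P.L - P.e ≤ Real.log n) :
    S n (sg P) ≤ if n.Prime then 1 else 0 := by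
  have hL := h.L0
  have he := h.e1
  have hα := (th h).a1
  have hn0 := hn.ne_zero
  have hnu : Real.log n ≤ P.L := by
    rw [hPL]
    exact Real.log_le_log (by exact_mod_cast Nat.pos_of_ne_zero hn0) (by exact_mod_cast hnN)
  have hif : (0 : ℝ) ≤ if n.Prime then 1 else 0 := by split_ifs <;> norm_num
  by_cases h1 : n = 1
  · rw [h1, Nat.cast_one, Real.log_one] at hnl
    linarith
  obtain ⟨m1, p1, e1, hp1, hd1, hm1, hs1, hf1, hq1⟩ := dec hn h1
  have l1 := hZ p1 (hr p1 hq1)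
  have g1 : Real.log n = Real.log m1 + Real.log p1 := by
    rw [e1]; push_cast
    exact Real.log_mul (by exact_mod_cast hm1) (by exact_mod_cast hp1.ne_zero)
  by_cases c1 : m1 = 1
  · rw [c1, one_mul] at e1
    rw [e1, if_pos hp1]
    have : S p1 (sg P) = 1 + sg P 1 (Real.log p1) := by
      have := S_mul hp1 one_ne_zero (fun h => hp1.one_lt.ne' (Nat.dvd_one.1 h)) (sg P)
      rw [one_mul, S_one] at this
      rw [this]
      simp only [zero_add]
      rfl
    rw [this, up1 h (by rw [← e1]; exact hnl)]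
    norm_num
  obtain ⟨m2, p2, e2, hp2, hd2, hm2, hs2, hf2, hq2⟩ := dec hs1 c1
  have l2 := hZ p2 (hr p2 (hf1 hq2))
  have g2 : Real.log m1 = Real.log m2 + Real.log p2 := by
    rw [e2]; push_cast
    exact Real.log_mul (by exact_mod_cast hm2) (by exact_mod_cast hp2.ne_zero)
  refine le_trans ?_ hif
  by_cases c2 : m2 = 1
  · have k := up2 h (x := Real.log p2) (y := Real.log p1)
      (by rw [c2, Nat.cast_one, Real.log_one] at g2; linarith)
      (by rw [c2, Nat.cast_one, Real.log_one] at g2; linarith)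
    rw [e1, S_mul hp1 hm1 hd1, e2, S_mul hp2 hm2 hd2, c2, S_one]
    simp only [zero_add, Nat.reduceAdd]
    have e0 : ∀ x, sg P 0 x = 1 := fun x => rfl
    simp only [e0]
    linarith
  obtain ⟨m3, p3, e3, hp3, hd3, hm3, hs3, hf3, hq3⟩ := dec hs2 c2
  have l3 := hZ p3 (hr p3 (hf1 (hf2 hq3)))
  have g3 : Real.log m2 = Real.log m3 + Real.log p3 := by
    rw [e3]; push_cast
    exact Real.log_mul (by exact_mod_cast hm3) (by exact_mod_cast hp3.ne_zero)
  have e0 : ∀ x, sg P 0 x = 1 := fun x => rfl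
  have e4' : ∀ x, sg P 4 x = 0 := fun x => rfl
  have e5' : ∀ x, sg P 5 x = 0 := fun x => rfl
  by_cases c3 : m3 = 1
  · rw [c3, Nat.cast_one, Real.log_one] at g3
    have k := up3 h (x := Real.log p3) (y := Real.log p2) (z := Real.log p1) l3 l2 l1 (by linarith) (by linarith)
    rw [e1, S_mul hp1 hm1 hd1, e2, S_mul hp2 hm2 hd2, e3, S_mul hp3 hm3 hd3, c3, S_one]
    simp only [zero_add, Nat.reduceAdd, e0]
    linarith
  obtain ⟨m4, p4, e4, hp4, hd4, hm4, hs4, hf4, hq4⟩ := dec hs3 c3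
  have l4 := hZ p4 (hr p4 (hf1 (hf2 (hf3 hq4))))
  have g4 : Real.log m3 = Real.log m4 + Real.log p4 := by
    rw [e4]; push_cast
    exact Real.log_mul (by exact_mod_cast hm4) (by exact_mod_cast hp4.ne_zero)
  by_cases c4 : m4 = 1
  · rw [c4, Nat.cast_one, Real.log_one] at g4
    have k := up4 h (x := Real.log p4) (y := Real.log p3) (z := Real.log p2) (u := Real.log p1) l4 l3 l2 l1
      (by linarith) (by linarith)
    rw [e1, S_mul hp1 hm1 hd1, e2, S_mul hp2 hm2 hd2, e3, S_mul hp3 hm3 hd3, e4, S_mul hp4 hm4 hd4, c4, S_one]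
    simp only [zero_add, Nat.reduceAdd, e0, e4']
    linarith
  obtain ⟨m5, p5, e5, hp5, hd5, hm5, hs5, hf5, hq5⟩ := dec hs4 c4
  have l5 := hZ p5 (hr p5 (hf1 (hf2 (hf3 (hf4 hq5)))))
  have g5 : Real.log m4 = Real.log m5 + Real.log p5 := by
    rw [e5]; push_cast
    exact Real.log_mul (by exact_mod_cast hm5) (by exact_mod_cast hp5.ne_zero)
  by_cases c5 : m5 = 1
  · rw [c5, Nat.cast_one, Real.log_one] at g5
    have k := up5 h (x := Real.log p5) (y := Real.log p4) (z := Real.log p3) (u := Real.log p2) (v := Real.log p1)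
      l5 l4 l3 l2 l1 (by linarith) (by linarith)
    rw [e1, S_mul hp1 hm1 hd1, e2, S_mul hp2 hm2 hd2, e3, S_mul hp3 hm3 hd3, e4, S_mul hp4 hm4 hd4,
      e5, S_mul hp5 hm5 hd5, c5, S_one]
    simp only [zero_add, Nat.reduceAdd, e0, e4', e5']
    linarith
  · exfalso
    obtain ⟨m6, p6, e6, hp6, hd6, hm6, hs6, hf6, hq6⟩ := dec hs5 c5
    have l6 := hZ p6 (hr p6 (hf1 (hf2 (hf3 (hf4 (hf5 hq6))))))
    have g6 : Real.log m5 = Real.log m6 + Real.log p6 := by
      rw [e6]; push_cast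
      exact Real.log_mul (by exact_mod_cast hm6) (by exact_mod_cast hp6.ne_zero)
    have := Real.log_natCast_nonneg m6
    linarith

/-- the trivial bound -/
lemma S_abs {N Z n : ℕ} {G : ℕ → ℝ → ℝ} {X : ℝ} (hn : 1 ≤ n) (hnN : n ≤ N) (hZ : N < (Z + 1) ^ 6)
    (hr : ∀ p ∈ n.primeFactors, Z < p) (hX : 0 ≤ X) (hG : ∀ j x, |G j x| ≤ X) : |S n G| ≤ 32 * X := by
  unfold S
  refine (abs_sum_le_sum_abs _ _).trans ?_
  have h1 : ∑ d ∈ n.divisors.filter Squarefree, |G (cardFactors d) (Real.log d)| ≤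
      ∑ d ∈ n.divisors.filter Squarefree, X := sum_le_sum fun d _ => hG _ _
  refine h1.trans ?_
  rw [sum_const, nsmul_eq_mul]
  apply mul_le_mul_of_nonneg_right _ hX
  have h2 : n.divisors.filter Squarefree ⊆
      n.divisors.filter (fun d => Squarefree d ∧ ∀ p ∈ d.primeFactors, Z < p) := by
    intro d hd
    rw [mem_filter] at hd ⊢
    rw [Nat.mem_divisors] at hd ⊢
    exact ⟨hd.1, hd.2, fun p hp => hr p (Nat.primeFactors_mono hd.1.1 hd.1.2 hp)⟩
  exact_mod_cast (card_le_card h2).trans (card_rough hn hnN hZ)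

end

end Pool.Agent.J4H40
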