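import Pool.Agent.J4H40.Qc
import Pool.Agent.R453.GS.Apg

set_option autoImplicit false

/-! Functions of the largest prime factor: the structure. -/

namespace Pool.Agent.J4H40

open Finset
open Pool.Agent.R453.GS (le_sup_pf sup_mul inv_class lis_sub pap)
open Pool.Agent.H442R2.EHI (lis)

/-- the lower bound for the largest prime -/
noncomputable def MZ (Z m : ℕ) : ℕ := max (m.primeFactors.sup id) Z

/-- the cofactors -/
noncomputable def mz (Z n : ℕ) : Finset ℕ :=
  (Icc 1 n).filter (fun m => (∀ p ∈ m.primeFactors, Z < p) ∧ m * MZ Z m < n)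

lemma mem_mz {Z n m : ℕ} : m ∈ mz Z n ↔ (1 ≤ m ∧ m ≤ n) ∧ (∀ p ∈ m.primeFactors, Z < p) ∧ m * MZ Z m < n := by
  unfold mz
  rw [mem_filter, mem_Icc]

/-- the rough numbers in a class -/
noncomputable def RZ (Z r c y : ℕ) : Finset ℕ :=
  (Icc 1 y).filter (fun n => n ≡ c [MOD r] ∧ ∀ p ∈ n.primeFactors, Z < p)

/-- the primes for a cofactor -/
noncomputable def AZ (Z r c y m : ℕ) : Finset ℕ :=
  (Ioc (MZ Z m) (y / m)).filter (fun p => p.Prime ∧ m * p ≡ c [MOD r])

/-- the pairs of a cofactor and a prime -/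
noncomputable def TZ (Z r c y : ℕ) : Finset (Σ _ : ℕ, ℕ) := (mz Z y).sigma (fun m => AZ Z r c y m)

lemma TZ_inj (Z r c y : ℕ) : Set.InjOn (fun x : (Σ _ : ℕ, ℕ) => x.1 * x.2) (TZ Z r c y : Set (Σ _ : ℕ, ℕ)) := by
  rintro ⟨m, p⟩ h ⟨m', p'⟩ h' heq
  unfold TZ at h h'
  rw [mem_coe, mem_sigma] at h h'
  obtain ⟨h1, h2⟩ := h
  obtain ⟨h1', h2'⟩ := h'
  simp only at h1 h2 h1' h2' heq
  rw [mem_mz] at h1 h1'
  unfold AZ at h2 h2'
  rw [mem_filter, mem_Ioc] at h2 h2'
  have hm0 : m ≠ 0 := by have := h1.1.1; omega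
  have hm0' : m' ≠ 0 := by have := h1'.1.1; omega
  have e1 := sup_mul hm0 h2.2.1 ((le_max_left _ _).trans h2.1.1.le)
  have e2 := sup_mul hm0' h2'.2.1 ((le_max_left _ _).trans h2'.1.1.le)
  have e3 : p = p' := by rw [← e1, ← e2, heq]
  subst e3
  have e4 : m = m' := Nat.eq_of_mul_eq_mul_right h2.2.1.pos heq
  subst e4
  rfl

lemma TZ_sub (Z r c y : ℕ) : (TZ Z r c y).image (fun x => x.1 * x.2) ⊆ RZ Z r c y := by
  intro n hn
  rw [mem_image] at hn
  obtain ⟨⟨m, p⟩, h, rfl⟩ := hn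
  unfold TZ at h
  rw [mem_sigma] at h
  obtain ⟨h1, h2⟩ := h
  simp only at h1 h2
  rw [mem_mz] at h1
  unfold AZ at h2
  rw [mem_filter, mem_Ioc] at h2
  obtain ⟨⟨h3, h4⟩, h5, h6⟩ := h2
  unfold RZ
  rw [mem_filter, mem_Icc]
  have hm0 : 0 < m := h1.1.1
  refine ⟨⟨Nat.mul_pos hm0 h5.pos, ?_⟩, h6, ?_⟩
  · calc m * p ≤ m * (y / m) := Nat.mul_le_mul_left _ h4
      _ ≤ y := Nat.mul_div_le y m
  · intro q hq
    simp only at hq
    rw [Nat.primeFactors_mul hm0.ne' h5.ne_zero, h5.primeFactors, mem_union, mem_singleton] at hq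
    rcases hq with hq | hq
    · exact h1.2.1 q hq
    · rw [hq]
      exact lt_of_le_of_lt (le_max_right _ _) h3

lemma TZ_rest {Z r c y : ℕ} (hZ : 1 ≤ Z) :
    (RZ Z r c y \ (TZ Z r c y).image (fun x => x.1 * x.2)).card ≤ 1 + y / Z := by
  have hsub : RZ Z r c y \ (TZ Z r c y).image (fun x => x.1 * x.2) ⊆
      {1} ∪ (Icc 1 (y / Z)).image (fun m => m * m.primeFactors.sup id) := by
    intro n hn
    rw [mem_sdiff] at hn
    obtain ⟨hn, hnot⟩ := hn
    unfold RZ at hn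
    rw [mem_filter, mem_Icc] at hn
    obtain ⟨⟨h1, h2⟩, h3, h4⟩ := hn
    rw [mem_union]
    rcases Nat.eq_or_lt_of_le h1 with h5 | h5
    · left
      rw [mem_singleton]
      exact h5.symm
    right
    have hne : n.primeFactors.Nonempty := Nat.nonempty_primeFactors.2 h5
    obtain ⟨p, hp, hps⟩ := Finset.exists_mem_eq_sup n.primeFactors hne id
    have hpp : p.Prime := Nat.prime_of_mem_primeFactors hp
    obtain ⟨m, hm⟩ := Nat.dvd_of_mem_primeFactors hp
    have hps' : n.primeFactors.sup id = p := hps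
    have hm0 : m ≠ 0 := by
      intro h
      rw [h, mul_zero] at hm
      omega
    have hZp := h4 p hp
    have hmn : m * p = n := by rw [hm, mul_comm]
    have hsup : m.primeFactors.sup id ≤ p := by
      rw [← hps', hm]
      apply Finset.sup_mono
      rw [Nat.primeFactors_mul hpp.ne_zero hm0]
      exact subset_union_right
    rcases Nat.eq_or_lt_of_le hsup with h6 | h6
    · rw [mem_image]
      refine ⟨m, ?_, by rw [h6]; exact hmn⟩
      rw [mem_Icc]
      refine ⟨Nat.pos_of_ne_zero hm0, ?_⟩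
      rw [Nat.le_div_iff_mul_le (by omega)]
      calc m * Z ≤ m * p := Nat.mul_le_mul_left _ hZp.le
        _ ≤ y := by rw [hmn]; exact h2
    · exfalso
      apply hnot
      rw [mem_image]
      have hMp : MZ Z m < p := max_lt h6 hZp
      have hpy : p ≤ y / m := by
        rw [Nat.le_div_iff_mul_le (Nat.pos_of_ne_zero hm0), mul_comm, hmn]
        exact h2
      refine ⟨⟨m, p⟩, ?_, hmn⟩
      unfold TZ
      rw [mem_sigma]
      refine ⟨?_, ?_⟩
      · show m ∈ mz Z y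
        rw [mem_mz]
        refine ⟨⟨Nat.pos_of_ne_zero hm0, ?_⟩, ?_, ?_⟩
        · refine le_trans ?_ h2
          rw [← hmn]
          exact Nat.le_mul_of_pos_right _ hpp.pos
        · intro q hq
          apply h4 q
          rw [hm, Nat.primeFactors_mul hpp.ne_zero hm0]
          exact mem_union_right _ hq
        · calc m * MZ Z m < m * p := Nat.mul_lt_mul_of_pos_left hMp (Nat.pos_of_ne_zero hm0)
            _ ≤ y := by rw [hmn]; exact h2
      · show p ∈ AZ Z r c y m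
        unfold AZ
        rw [mem_filter, mem_Ioc]
        refine ⟨⟨hMp, hpy⟩, hpp, ?_⟩
        rw [hmn]
        exact h3
  refine (card_le_card hsub).trans ?_
  refine (card_union_le _ _).trans ?_
  refine add_le_add ?_ ?_
  · rw [card_singleton]
  · refine card_image_le.trans ?_
    rw [Nat.card_Icc, Nat.add_sub_cancel]

/-- the sum of a function over the rough numbers -/
lemma sum_RZ {Z r c y : ℕ} (hZ : 1 ≤ Z) (F : ℕ → ℝ) {X : ℝ} (hF : ∀ n ∈ RZ Z r c y, |F n| ≤ X) (hX : 0 ≤ X) :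
    |∑ n ∈ RZ Z r c y, F n - ∑ m ∈ mz Z y, ∑ p ∈ AZ Z r c y m, F (m * p)| ≤ (1 + (y : ℝ) / Z) * X := by
  have e1 : ∑ m ∈ mz Z y, ∑ p ∈ AZ Z r c y m, F (m * p) =
      ∑ n ∈ (TZ Z r c y).image (fun x => x.1 * x.2), F n := by
    rw [sum_image (TZ_inj Z r c y)]
    unfold TZ
    rw [sum_sigma]
  rw [e1, ← sum_sdiff (TZ_sub Z r c y), add_sub_cancel_right]
  refine (abs_sum_le_sum_abs _ _).trans ?_
  refine (sum_le_card_nsmul _ _ X fun n hn => hF n (mem_sdiff.1 hn).1).trans ?_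
  rw [nsmul_eq_mul]
  apply mul_le_mul_of_nonneg_right _ hX
  have h1 : ((RZ Z r c y \ (TZ Z r c y).image (fun x => x.1 * x.2)).card : ℝ) ≤ ((1 + y / Z : ℕ) : ℝ) := by
    exact_mod_cast TZ_rest hZ
  refine h1.trans ?_
  push_cast
  have : ((y / Z : ℕ) : ℝ) ≤ (y : ℝ) / Z := Nat.cast_div_le
  linarith

/-- no rough numbers in a class which is not coprime to the modulus -/
lemma RZ_empty {Z r c y : ℕ} (hr : 1 ≤ r) (hrZ : r ≤ Z) (hc : ¬ c.Coprime r) : RZ Z r c y = ∅ := by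
  rw [eq_empty_iff_forall_notMem]
  intro n hn
  unfold RZ at hn
  rw [mem_filter, mem_Icc] at hn
  obtain ⟨⟨h1, _⟩, h3, h4⟩ := hn
  obtain ⟨l, hl, hlc, hlr⟩ := Nat.Prime.not_coprime_iff_dvd.1 hc
  have h5 : l ∣ n := (h3.dvd_iff hlr).2 hlc
  have h6 := h4 l (Nat.mem_primeFactors.2 ⟨hl, h5, by omega⟩)
  have h7 := Nat.le_of_dvd (by omega) hlr
  omega

/-- rough numbers are coprime to small numbers -/
lemma rough_cop {Z r m : ℕ} (hr : 1 ≤ r) (hrZ : r ≤ Z) (hm : 1 ≤ m)
    (h : ∀ p ∈ m.primeFactors, Z < p) : m.Coprime r := by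
  by_contra hcon
  obtain ⟨l, hl, hlm, hlr⟩ := Nat.Prime.not_coprime_iff_dvd.1 hcon
  have h6 := h l (Nat.mem_primeFactors.2 ⟨hl, hlm, by omega⟩)
  have h7 := Nat.le_of_dvd (by omega) hlr
  omega

/-- the primes in the residue class with weights of bounded variation -/
lemma one_m {r c' M Y : ℕ} {v : ℕ → ℝ} {C X : ℝ} (hMY : M ≤ Y) (hM : 1 ≤ M)
    (hv : ∀ k, |v k| ≤ C) (htv : ∑ k ∈ range Y, |v (k + 1) - v k| ≤ C) (hC : 0 ≤ C)
    (hcond : ∀ x : ℕ, M ≤ x → x ≤ Y → |(((Icc 1 x).filter (fun p => p.Prime ∧ p ≡ c' [MOD r])).card : ℝ) -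
        lis x / (Nat.totient r : ℝ)| ≤ X) :
    |∑ p ∈ (Ioc M Y).filter (fun p => p.Prime ∧ p ≡ c' [MOD r]), v p -
      (∑ k ∈ Ioc M Y, v k * (1 / Real.log k)) / (Nat.totient r : ℝ)| ≤ 8 * (C * X) := by
  classical
  obtain ⟨x, hx⟩ : ∃ x : ℕ → ℝ, x = fun k => if M < k then
    (if k.Prime ∧ k ≡ c' [MOD r] then 1 else 0) - 1 / Real.log k / (Nat.totient r : ℝ) else 0 := ⟨_, rfl⟩
  have e1 : ∑ p ∈ (Ioc M Y).filter (fun p => p.Prime ∧ p ≡ c' [MOD r]), v p -
      (∑ k ∈ Ioc M Y, v k * (1 / Real.log k)) / (Nat.totient r : ℝ) = ∑ k ∈ Ioc M Y, v k * x k := by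
    rw [sum_filter, sum_div, ← sum_sub_distrib]
    refine sum_congr rfl fun k hk => ?_
    rw [mem_Ioc] at hk
    rw [hx]
    simp only
    rw [if_pos hk.1]
    split_ifs
    · ring
    · ring
  have hX : 0 ≤ X := (abs_nonneg _).trans (hcond M le_rfl hMY)
  have hpart : ∀ y : ℕ, y ≤ Y → |∑ i ∈ Icc 1 y, x i| ≤ 2 * X := by
    intro y hy
    rcases Nat.lt_or_ge M y with hMy | hMy
    · have e2 : ∑ i ∈ Icc 1 y, x i = ∑ i ∈ Ioc M y, x i := by
        symm
        apply sum_subset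
        · intro i hi
          rw [mem_Ioc] at hi
          rw [mem_Icc]
          omega
        · intro i hi hi'
          rw [mem_Icc] at hi
          rw [mem_Ioc] at hi'
          rw [hx]
          simp only
          rw [if_neg (by omega)]
      have e3 : ∑ i ∈ Ioc M y, x i = (((Icc 1 y).filter (fun p => p.Prime ∧ p ≡ c' [MOD r])).card : ℝ) -
          (((Icc 1 M).filter (fun p => p.Prime ∧ p ≡ c' [MOD r])).card : ℝ) -
          (lis y - lis M) / (Nat.totient r : ℝ) := by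
        rw [lis_sub hM hMy.le, sum_div]
        have e4 : (((Icc 1 y).filter (fun p => p.Prime ∧ p ≡ c' [MOD r])).card : ℝ) -
          (((Icc 1 M).filter (fun p => p.Prime ∧ p ≡ c' [MOD r])).card : ℝ) =
          ∑ i ∈ Ioc M y, (if i.Prime ∧ i ≡ c' [MOD r] then (1 : ℝ) else 0) := by
          rw [card_eq_sum_ones, card_eq_sum_ones, Nat.cast_sum, Nat.cast_sum, sum_filter, sum_filter]
          push_cast
          rw [Pool.Agent.R460.GS.sum_window _ hMy.le]
        rw [e4, ← sum_sub_distrib]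
        refine sum_congr rfl fun i hi => ?_
        rw [mem_Ioc] at hi
        rw [hx]
        simp only
        rw [if_pos hi.1]
      rw [e2, e3]
      have h1 := hcond y hMy.le hy
      have h2 := hcond M le_rfl hMY
      have e5 : (((Icc 1 y).filter (fun p => p.Prime ∧ p ≡ c' [MOD r])).card : ℝ) -
          (((Icc 1 M).filter (fun p => p.Prime ∧ p ≡ c' [MOD r])).card : ℝ) -
          (lis y - lis M) / (Nat.totient r : ℝ) =
          ((((Icc 1 y).filter (fun p => p.Prime ∧ p ≡ c' [MOD r])).card : ℝ) - lis y / (Nat.totient r : ℝ)) -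
          ((((Icc 1 M).filter (fun p => p.Prime ∧ p ≡ c' [MOD r])).card : ℝ) - lis M / (Nat.totient r : ℝ)) := by
        ring
      rw [e5]
      refine (abs_sub _ _).trans ?_
      linarith
    · rw [sum_eq_zero, abs_zero]
      · linarith
      · intro i hi
        rw [mem_Icc] at hi
        rw [hx]
        simp only
        rw [if_neg (by omega)]
  rw [e1]
  have h1 := Pool.Agent.R460.GS.abelW x v (2 * X) C C M Y hMY hpart (fun i _ => hv i) htv hC
  calc _ ≤ 2 * (2 * X * (C + C)) := h1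
    _ = _ := by ring

/-- the formal prime -/
def kk (n m : ℕ) : ℕ := (n - 1) / m + 1

lemma kk_mul {m k n : ℕ} (h1 : m * k < n) (h2 : n ≤ m * (k + 1)) : kk n m = k + 1 := by
  unfold kk
  congr 1
  have e1 : k * m = m * k := mul_comm _ _
  have e2 : (k + 1) * m = m * (k + 1) := mul_comm _ _
  exact Nat.div_eq_of_lt_le (by omega) (by omega)

/-- comparison of the two sums for one cofactor -/
lemma cmpV {m M Y : ℕ} {v : ℕ → ℝ} {C : ℝ} (hv : ∀ k, |v k| ≤ C) (hm : 1 ≤ m) (hM : 2 ≤ M) (hY : M ≤ Y) :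
    |∑ n ∈ Ioc (m * M) (m * Y), v (kk n m) * (1 / ((m : ℝ) * Real.log ((n : ℝ) / m))) -
      ∑ k ∈ Ioc M Y, v k * (1 / Real.log k)| ≤ C * (1 / Real.log M - 1 / Real.log Y) := by
  have hm0 : (0 : ℝ) < m := by exact_mod_cast hm
  induction Y, hY using Nat.le_induction with
  | base => simp
  | succ Y hY ih =>
    have hYl : 0 < Real.log Y := Real.log_pos (by exact_mod_cast (by omega : 1 < Y))
    have hYl' : 0 < Real.log ((Y + 1 : ℕ) : ℝ) := Real.log_pos (by exact_mod_cast (by omega : 1 < Y + 1))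
    have hY0 : (0 : ℝ) < Y := by exact_mod_cast (by omega : 0 < Y)
    have e1 : Ioc M (Y + 1) = insert (Y + 1) (Ioc M Y) := by
      ext x; simp only [mem_Ioc, mem_insert]; omega
    have hmY : m * M ≤ m * Y := Nat.mul_le_mul_left _ hY
    have e3 : Ioc (m * M) (m * (Y + 1)) = Ioc (m * M) (m * Y) ∪ Ioc (m * Y) (m * (Y + 1)) := by
      have : m * Y ≤ m * (Y + 1) := Nat.mul_le_mul_left _ (by omega)
      ext x; simp only [mem_Ioc, mem_union]; omega
    have hd : Disjoint (Ioc (m * M) (m * Y)) (Ioc (m * Y) (m * (Y + 1))) := by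
      rw [disjoint_left]
      intro x h1 h2
      rw [mem_Ioc] at h1 h2
      omega
    have hcard : (Ioc (m * Y) (m * (Y + 1))).card = m := by
      rw [Nat.card_Ioc, Nat.mul_succ]
      omega
    have hb : ∀ n ∈ Ioc (m * Y) (m * (Y + 1)), 1 / ((m : ℝ) * Real.log ((Y + 1 : ℕ) : ℝ)) ≤
        1 / ((m : ℝ) * Real.log ((n : ℝ) / m)) ∧
        1 / ((m : ℝ) * Real.log ((n : ℝ) / m)) ≤ 1 / ((m : ℝ) * Real.log Y) := by
      intro n hn
      rw [mem_Ioc] at hn
      have h1 : (Y : ℝ) ≤ (n : ℝ) / m := by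
        rw [le_div_iff₀ hm0]
        have : ((m * Y : ℕ) : ℝ) ≤ n := by exact_mod_cast hn.1.le
        push_cast at this
        linarith
      have h2 : (n : ℝ) / m ≤ ((Y + 1 : ℕ) : ℝ) := by
        rw [div_le_iff₀ hm0]
        have : (n : ℝ) ≤ ((m * (Y + 1) : ℕ) : ℝ) := by exact_mod_cast hn.2
        push_cast at this ⊢
        linarith
      have h3 := Real.log_le_log hY0 h1
      have h4 := Real.log_le_log (by linarith) h2
      constructor
      · apply one_div_le_one_div_of_le (by nlinarith)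
        exact mul_le_mul_of_nonneg_left h4 hm0.le
      · apply one_div_le_one_div_of_le (by positivity)
        exact mul_le_mul_of_nonneg_left h3 hm0.le
    have hm1 : ∀ x : ℝ, (m : ℝ) * (1 / ((m : ℝ) * x)) = 1 / x := by
      intro x
      rcases eq_or_ne x 0 with h | h
      · rw [h]; simp
      · field_simp
    have hlo : 1 / Real.log ((Y + 1 : ℕ) : ℝ) ≤
        ∑ n ∈ Ioc (m * Y) (m * (Y + 1)), 1 / ((m : ℝ) * Real.log ((n : ℝ) / m)) := by
      have h := card_nsmul_le_sum _ _ _ fun n hn => (hb n hn).1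
      rw [hcard, nsmul_eq_mul, hm1] at h
      exact h
    have hup : ∑ n ∈ Ioc (m * Y) (m * (Y + 1)), 1 / ((m : ℝ) * Real.log ((n : ℝ) / m)) ≤ 1 / Real.log Y := by
      have h := sum_le_card_nsmul _ _ _ fun n hn => (hb n hn).2
      rw [hcard, nsmul_eq_mul, hm1] at h
      exact h
    have e4 : ∑ n ∈ Ioc (m * Y) (m * (Y + 1)), v (kk n m) * (1 / ((m : ℝ) * Real.log ((n : ℝ) / m))) =
        v (Y + 1) * ∑ n ∈ Ioc (m * Y) (m * (Y + 1)), 1 / ((m : ℝ) * Real.log ((n : ℝ) / m)) := by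
      rw [mul_sum]
      refine sum_congr rfl fun n hn => ?_
      rw [mem_Ioc] at hn
      rw [kk_mul hn.1 hn.2]
    rw [e1, e3, sum_union hd, sum_insert (by simp), e4]
    obtain ⟨T, hT⟩ : ∃ T, T = ∑ n ∈ Ioc (m * Y) (m * (Y + 1)), 1 / ((m : ℝ) * Real.log ((n : ℝ) / m)) := ⟨_, rfl⟩
    rw [← hT] at hlo hup ⊢
    have h5 : |v (Y + 1) * (T - 1 / Real.log ((Y + 1 : ℕ) : ℝ))| ≤
        C * (1 / Real.log Y - 1 / Real.log ((Y + 1 : ℕ) : ℝ)) := by
      rw [abs_mul, abs_of_nonneg (by linarith : 0 ≤ T - 1 / Real.log ((Y + 1 : ℕ) : ℝ))]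
      exact mul_le_mul (hv _) (by linarith) (by linarith) ((abs_nonneg _).trans (hv 0))
    have e5 : ∀ a b c d : ℝ, a + v (Y + 1) * b - (v (Y + 1) * c + d) = (a - d) + v (Y + 1) * (b - c) := by
      intros; ring
    rw [e5]
    refine (abs_add_le _ _).trans ?_
    have e6 : C * (1 / Real.log M - 1 / Real.log ((Y + 1 : ℕ) : ℝ)) = C * (1 / Real.log M - 1 / Real.log Y) +
        C * (1 / Real.log Y - 1 / Real.log ((Y + 1 : ℕ) : ℝ)) := by ring
    rw [e6]
    exact add_le_add ih h5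

/-- the two sums for one cofactor -/
lemma cmpV2 {m M y : ℕ} {v : ℕ → ℝ} {C : ℝ} (hv : ∀ k, |v k| ≤ C) (hm : 1 ≤ m) (hM : 2 ≤ M) (hy : m * M < y) :
    |∑ n ∈ Ioc (m * M) y, v (kk n m) * (1 / ((m : ℝ) * Real.log ((n : ℝ) / m))) -
      ∑ k ∈ Ioc M (y / m), v k * (1 / Real.log k)| ≤ C * (2 / Real.log M) := by
  have hm0 : (0 : ℝ) < m := by exact_mod_cast hm
  have hC : 0 ≤ C := (abs_nonneg _).trans (hv 0)
  have hY : M ≤ y / m := by
    rw [Nat.le_div_iff_mul_le hm, mul_comm]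
    exact hy.le
  have h1 := cmpV hv hm hM hY
  have hMl : 0 < Real.log M := Real.log_pos (by exact_mod_cast (by omega : 1 < M))
  have hYl : 0 < Real.log ((y / m : ℕ) : ℝ) := Real.log_pos (by exact_mod_cast (by omega : 1 < y / m))
  have hdm : m * (y / m) ≤ y := Nat.mul_div_le y m
  have hmod : y < m * (y / m) + m := by
    have := Nat.div_add_mod y m
    have := Nat.mod_lt y hm
    omega
  have hmM : m * M ≤ m * (y / m) := Nat.mul_le_mul_left _ hY
  have e1 : Ioc (m * M) y = Ioc (m * M) (m * (y / m)) ∪ Ioc (m * (y / m)) y := by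
    ext x; simp only [mem_Ioc, mem_union]; omega
  have hd : Disjoint (Ioc (m * M) (m * (y / m))) (Ioc (m * (y / m)) y) := by
    rw [disjoint_left]
    intro x h1 h2
    rw [mem_Ioc] at h1 h2
    omega
  have hlast : ∀ n ∈ Ioc (m * (y / m)) y, |v (kk n m) * (1 / ((m : ℝ) * Real.log ((n : ℝ) / m)))| ≤
      C * (1 / ((m : ℝ) * Real.log M)) := by
    intro n hn
    rw [mem_Ioc] at hn
    have h3 : (M : ℝ) ≤ (n : ℝ) / m := by
      rw [le_div_iff₀ hm0]
      have : ((m * M : ℕ) : ℝ) ≤ n := by exact_mod_cast (by omega : m * M ≤ n)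
      push_cast at this
      linarith
    have hM0 : (0 : ℝ) < M := by exact_mod_cast (by omega : 0 < M)
    have h4 := Real.log_le_log hM0 h3
    have h5 : 0 < Real.log ((n : ℝ) / m) := by linarith
    rw [abs_mul, abs_of_nonneg (by positivity : 0 ≤ 1 / ((m : ℝ) * Real.log ((n : ℝ) / m)))]
    refine mul_le_mul (hv _) ?_ (by positivity) hC
    apply one_div_le_one_div_of_le (by positivity)
    exact mul_le_mul_of_nonneg_left h4 hm0.le
  have hcard : (Ioc (m * (y / m)) y).card ≤ m := by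
    rw [Nat.card_Ioc]
    omega
  have hl1 : |∑ n ∈ Ioc (m * (y / m)) y, v (kk n m) * (1 / ((m : ℝ) * Real.log ((n : ℝ) / m)))| ≤
      C * (1 / Real.log M) := by
    refine (abs_sum_le_sum_abs _ _).trans ((sum_le_card_nsmul _ _ _ hlast).trans ?_)
    rw [nsmul_eq_mul]
    calc ((Ioc (m * (y / m)) y).card : ℝ) * (C * (1 / ((m : ℝ) * Real.log M)))
        ≤ (m : ℝ) * (C * (1 / ((m : ℝ) * Real.log M))) :=
          mul_le_mul_of_nonneg_right (by exact_mod_cast hcard) (by positivity)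
      _ = C * (1 / Real.log M) := by field_simp
  rw [e1, sum_union hd]
  have e2 : ∀ a b c : ℝ, a + b - c = (a - c) + b := by intros; ring
  rw [e2]
  refine (abs_add_le _ _).trans ?_
  have h6 : C * (1 / Real.log M - 1 / Real.log ((y / m : ℕ) : ℝ)) ≤ C * (1 / Real.log M) := by
    apply mul_le_mul_of_nonneg_left _ hC
    have : 0 < 1 / Real.log ((y / m : ℕ) : ℝ) := by positivity
    linarith
  calc _ ≤ C * (1 / Real.log M) + C * (1 / Real.log M) := add_le_add (h1.trans h6) hl1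
    _ = _ := by ring

end Pool.Agent.J4H40
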