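import Pool.Agent.J4H40.Qd

set_option autoImplicit false

/-! Functions of the largest prime factor: the density. -/

namespace Pool.Agent.J4H40

open Finset Filter
open Pool.Agent.R453.GS (inv_class pap sum_pow log_floor log_num tv)
open Pool.Agent.H442R2.EHI (lis)
open ArithmeticFunction (cardFactors)

/-- the rough numbers -/
noncomputable def RN (Z N : ℕ) : Finset ℕ := (Icc 1 N).filter (fun m => ∀ p ∈ m.primeFactors, Z < p)

/-- the primes between `Z` and `N` -/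
noncomputable def PZ (Z N : ℕ) : Finset ℕ := (Ioc Z N).filter Nat.Prime

lemma pow_omega {Z m : ℕ} (hm : m ≠ 0) (h : ∀ p ∈ m.primeFactors, Z < p) : (Z + 1) ^ cardFactors m ≤ m := by
  rw [ArithmeticFunction.cardFactors_apply]
  conv_rhs => rw [← Nat.prod_primeFactorsList hm]
  apply List.pow_card_le_prod
  intro p hp
  exact h p (by rw [Nat.mem_primeFactors_iff_mem_primeFactorsList]; exact hp)

lemma sum_step (Z N k : ℕ) :
    ∑ m ∈ (RN Z N).filter (fun m => cardFactors m ≤ k + 1), (1 : ℝ) / m ≤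
      1 + (∑ p ∈ PZ Z N, (1 : ℝ) / p) * ∑ m ∈ (RN Z N).filter (fun m => cardFactors m ≤ k), (1 : ℝ) / m := by
  classical
  obtain ⟨A, hA⟩ : ∃ A, A = (RN Z N).filter (fun m => cardFactors m ≤ k + 1) := ⟨_, rfl⟩
  rw [← hA, ← sum_filter_add_sum_filter_not A (fun m => m = 1)]
  have h1 : ∑ m ∈ A.filter (fun m => m = 1), (1 : ℝ) / m ≤ 1 := by
    have h2 : A.filter (fun m => m = 1) ⊆ {1} := by
      intro m hm
      rw [mem_filter] at hm
      rw [mem_singleton]
      exact hm.2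
    refine (sum_le_sum_of_subset_of_nonneg h2 fun _ _ _ => by positivity).trans ?_
    rw [sum_singleton]
    norm_num
  refine add_le_add h1 ?_
  have e1 : ∑ m ∈ A.filter (fun m => ¬ m = 1), (1 : ℝ) / m =
      ∑ x ∈ (A.filter (fun m => ¬ m = 1)).image (fun m => (m.minFac, m / m.minFac)), (1 : ℝ) / x.1 * (1 / x.2) := by
    rw [sum_image]
    · refine sum_congr rfl fun m _ => ?_
      rw [one_div_mul_one_div, ← Nat.cast_mul, Nat.mul_div_cancel' (Nat.minFac_dvd m)]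
    · intro a _ b _ h
      have h2 : a.minFac = b.minFac ∧ a / a.minFac = b / b.minFac := Prod.ext_iff.1 h
      rw [← Nat.mul_div_cancel' (Nat.minFac_dvd a), h2.2, h2.1, Nat.mul_div_cancel' (Nat.minFac_dvd b)]
  rw [e1, sum_mul_sum, ← sum_product']
  refine sum_le_sum_of_subset_of_nonneg ?_ fun _ _ _ => by positivity
  intro x hx
  rw [mem_image] at hx
  obtain ⟨m, hm, rfl⟩ := hx
  rw [mem_filter, hA, mem_filter] at hm
  obtain ⟨⟨hm1, hm2⟩, hm3⟩ := hm
  unfold RN at hm1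
  rw [mem_filter, mem_Icc] at hm1
  have hm0 : m ≠ 0 := by omega
  have hp := Nat.minFac_prime hm3
  have hpm : m.minFac ∈ m.primeFactors := Nat.mem_primeFactors.2 ⟨hp, Nat.minFac_dvd m, hm0⟩
  have hle := Nat.minFac_le (Nat.pos_of_ne_zero hm0)
  have hq0 : 0 < m / m.minFac := Nat.div_pos hle hp.pos
  rw [mem_product]
  refine ⟨?_, ?_⟩
  · show m.minFac ∈ PZ Z N
    unfold PZ
    rw [mem_filter, mem_Ioc]
    exact ⟨⟨hm1.2 _ hpm, hle.trans hm1.1.2⟩, hp⟩
  · show m / m.minFac ∈ (RN Z N).filter (fun m => cardFactors m ≤ k)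
    unfold RN
    rw [mem_filter, mem_filter, mem_Icc]
    have hdvd : m / m.minFac ∣ m := Nat.div_dvd_of_dvd (Nat.minFac_dvd m)
    refine ⟨⟨⟨hq0, (Nat.div_le_self _ _).trans hm1.1.2⟩, ?_⟩, ?_⟩
    · intro p hp
      exact hm1.2 p (Nat.primeFactors_mono hdvd hm0 hp)
    · have e2 : cardFactors m = cardFactors m.minFac + cardFactors (m / m.minFac) := by
        rw [← ArithmeticFunction.cardFactors_mul hp.ne_zero hq0.ne', Nat.mul_div_cancel' (Nat.minFac_dvd m)]
      rw [ArithmeticFunction.cardFactors_apply_prime hp] at e2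
      omega

lemma sum_RN {Z N : ℕ} (hZ : N < (Z + 1) ^ 6) (hS : ∑ p ∈ PZ Z N, (1 : ℝ) / p ≤ 2) :
    ∑ m ∈ RN Z N, (1 : ℝ) / m ≤ 63 := by
  have h0 : ∑ m ∈ (RN Z N).filter (fun m => cardFactors m ≤ 0), (1 : ℝ) / m ≤ 1 := by
    have h2 : (RN Z N).filter (fun m => cardFactors m ≤ 0) ⊆ {1} := by
      intro m hm
      rw [mem_filter] at hm
      unfold RN at hm
      rw [mem_filter, mem_Icc] at hm
      rw [mem_singleton]
      rcases (ArithmeticFunction.cardFactors_eq_zero_iff_eq_zero_or_one.1 (Nat.le_zero.1 hm.2)) with h4 | h4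
      · omega
      · exact h4
    refine (sum_le_sum_of_subset_of_nonneg h2 fun _ _ _ => by positivity).trans ?_
    rw [sum_singleton]
    norm_num
  have hnn : ∀ k, 0 ≤ ∑ m ∈ (RN Z N).filter (fun m => cardFactors m ≤ k), (1 : ℝ) / m :=
    fun k => sum_nonneg fun _ _ => by positivity
  have step : ∀ (k : ℕ) (x : ℝ), ∑ m ∈ (RN Z N).filter (fun m => cardFactors m ≤ k), (1 : ℝ) / m ≤ x →
      ∑ m ∈ (RN Z N).filter (fun m => cardFactors m ≤ k + 1), (1 : ℝ) / m ≤ 1 + 2 * x := by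
    intro k x hx
    refine (sum_step Z N k).trans ?_
    have := mul_le_mul hS hx (hnn k) (by norm_num)
    linarith
  have h5 := step 4 _ (step 3 _ (step 2 _ (step 1 _ (step 0 _ h0))))
  have e : (RN Z N).filter (fun m => cardFactors m ≤ 4 + 1) = RN Z N := by
    apply filter_true_of_mem
    intro m hm
    unfold RN at hm
    rw [mem_filter, mem_Icc] at hm
    have h6 := pow_omega (by omega : m ≠ 0) hm.2
    by_contra hcon
    have h7 : (Z + 1) ^ 6 ≤ (Z + 1) ^ cardFactors m := Nat.pow_le_pow_right (by omega) (by omega)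
    omega
  rw [e] at h5
  linarith

/-- large `N` -/
structure BZ (N Z : ℕ) : Prop where
  two : 2 ≤ N
  Z2 : 2 ≤ Z
  L : 0 < Real.log N
  Zl : Real.log N / 7 ≤ Real.log Z
  Z6 : N < (Z + 1) ^ 6
  ZN : Z ≤ N
  sum : ∑ m ∈ RN Z N, (1 : ℝ) / m ≤ 63

lemma log6 : Real.log 6 ≤ 19 / 10 := log_num (by norm_num) (by norm_num) (by norm_num)

lemma bz_ev {α : ℝ} (hα : 1 / 6 ≤ α) (hα2 : α ≤ 1) : ∀ᶠ N : ℕ in atTop, BZ N (Za α N) := by
  have hα0 : 0 < α := by linarith
  filter_upwards [Pool.Agent.R453.GS.ev_log 100, eventually_ge_atTop 2,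
    sum_pow (α := α) (β := 1) hα0 hα2 (ε := 1 / 10) (by norm_num)] with N hL hN hs
  obtain ⟨a1, a2, a3⟩ := log_floor hα0 hN
  have hN1 : 1 ≤ N := by omega
  have hL0 : 0 < Real.log N := by linarith
  have hZl : Real.log N / 7 ≤ Real.log (Za α N) := by
    unfold Za
    have : 1 / 6 * Real.log N ≤ α * Real.log N := mul_le_mul_of_nonneg_right hα hL0.le
    linarith
  have hZ2 : 2 ≤ Za α N := by
    by_contra hcon
    have h1 : Za α N = 1 := by
      have := one_le_Za hα0.le hN1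
      omega
    rw [h1, Nat.cast_one, Real.log_one] at hZl
    linarith
  refine ⟨hN, hZ2, hL0, hZl, Za_six hα hN1, Za_le hα2 hN1, ?_⟩
  apply sum_RN (Za_six hα hN1)
  rw [Real.rpow_one, Nat.floor_natCast] at hs
  unfold PZ Za
  refine hs.trans ?_
  have h1 : Real.log (1 / α) ≤ Real.log 6 := by
    apply Real.log_le_log (by positivity)
    rw [div_le_iff₀ hα0]
    linarith
  have := log6
  linarith

/-- the density -/
noncomputable def Wv (N Z : ℕ) (V : ℕ → ℕ → ℝ) (n : ℕ) : ℝ :=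
  Real.log N * ∑ m ∈ mz Z n, V m (kk n m) * (1 / ((m : ℝ) * Real.log ((n : ℝ) / m)))

/-- one summand -/
noncomputable def gm (N Z m n : ℕ) : ℝ :=
  if m * MZ Z m < n then Real.log N * (1 / ((m : ℝ) * Real.log ((n : ℝ) / m))) else 0

lemma mz_sub {Z n N : ℕ} (hZ : 1 ≤ Z) (hn : n ≤ N) : mz Z n = (mz Z N).filter (fun m => m * MZ Z m < n) := by
  ext m
  rw [mem_filter, mem_mz, mem_mz]
  constructor
  · rintro ⟨⟨h1, h2⟩, h3, h4⟩
    exact ⟨⟨⟨h1, h2.trans hn⟩, h3, lt_of_lt_of_le h4 hn⟩, h4⟩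
  · rintro ⟨⟨⟨h1, h2⟩, h3, h4⟩, h5⟩
    refine ⟨⟨h1, ?_⟩, h3, h5⟩
    have h6 : 1 ≤ MZ Z m := hZ.trans (le_max_right _ _)
    have : m * 1 ≤ m * MZ Z m := Nat.mul_le_mul_left _ h6
    omega

lemma mz_RN {Z N : ℕ} : mz Z N ⊆ RN Z N := by
  intro m hm
  rw [mem_mz] at hm
  unfold RN
  rw [mem_filter, mem_Icc]
  exact ⟨hm.1, hm.2.1⟩

lemma sum_mz {Z N : ℕ} (hB : BZ N Z) : ∑ m ∈ mz Z N, (1 : ℝ) / m ≤ 63 :=
  (sum_le_sum_of_subset_of_nonneg mz_RN fun _ _ _ => by positivity).trans hB.sum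

/-- the ratio -/
lemma ratioZ {Z n m : ℕ} (hm : 1 ≤ m) (h : m * MZ Z m < n) : ((Z : ℕ) : ℝ) < (n : ℝ) / m := by
  have h4 : m * Z < n := lt_of_le_of_lt (Nat.mul_le_mul_left _ (le_max_right _ _)) h
  have h5 : (0 : ℝ) < m := by exact_mod_cast hm
  rw [lt_div_iff₀ h5]
  have h6 : ((m * Z : ℕ) : ℝ) < n := by exact_mod_cast h4
  push_cast at h6
  linarith

lemma term_bdZ {N Z n m : ℕ} (hB : BZ N Z) (hm : 1 ≤ m) (h : m * MZ Z m < n) :
    0 ≤ Real.log N * (1 / ((m : ℝ) * Real.log ((n : ℝ) / m))) ∧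
      Real.log N * (1 / ((m : ℝ) * Real.log ((n : ℝ) / m))) ≤ 7 / m := by
  have h3 := ratioZ hm h
  have hZ : (2 : ℝ) ≤ Z := by exact_mod_cast hB.Z2
  have hL := hB.L
  have hm0 : (0 : ℝ) < m := by exact_mod_cast hm
  have h4 : Real.log N / 7 ≤ Real.log ((n : ℝ) / m) := by
    have := Real.log_le_log (by linarith) h3.le
    have := hB.Zl
    linarith
  have h5 : 0 < Real.log ((n : ℝ) / m) := by linarith
  refine ⟨by positivity, ?_⟩
  rw [mul_one_div, div_le_div_iff₀ (by positivity) hm0]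
  nlinarith

lemma gm_nn {N Z m : ℕ} (hB : BZ N Z) (hm : 1 ≤ m) (n : ℕ) : 0 ≤ gm N Z m n := by
  unfold gm
  split_ifs with h
  · exact (term_bdZ hB hm h).1
  · exact le_rfl

lemma gm_le {N Z m : ℕ} (hB : BZ N Z) (hm : 1 ≤ m) (n : ℕ) : gm N Z m n ≤ 7 / m := by
  unfold gm
  split_ifs with h
  · exact (term_bdZ hB hm h).2
  · positivity

lemma gm_tv {N Z m : ℕ} (hB : BZ N Z) (hm : 1 ≤ m) (y : ℕ) :
    ∑ n ∈ range y, |gm N Z m (n + 1) - gm N Z m n| ≤ 14 * ((1 : ℝ) / m) := by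
  have hM : 2 ≤ MZ Z m := hB.Z2.trans (le_max_right _ _)
  have h5 := tv (f := fun n => gm N Z m n) (n0 := m * MZ Z m)
    (B := 7 / m) (by positivity) (gm_nn hB hm) (fun n hn => by
      show gm N Z m n = 0
      unfold gm
      rw [if_neg (by omega)]) (fun n hn => by
      show gm N Z m (n + 1) ≤ gm N Z m n
      unfold gm
      rw [if_pos hn, if_pos (by omega)]
      have i3 := ratioZ hm hn
      have hZ : (2 : ℝ) ≤ Z := by exact_mod_cast hB.Z2
      have i4 : 0 < Real.log ((n : ℝ) / m) := Real.log_pos (by linarith)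
      have hm0 : (0 : ℝ) < m := by exact_mod_cast hm
      have i5 : Real.log ((n : ℝ) / m) ≤ Real.log (((n + 1 : ℕ) : ℝ) / m) := by
        apply Real.log_le_log (by linarith)
        apply div_le_div_of_nonneg_right _ hm0.le
        push_cast
        linarith
      refine mul_le_mul_of_nonneg_left ?_ hB.L.le
      apply one_div_le_one_div_of_le (by positivity)
      exact mul_le_mul_of_nonneg_left i5 hm0.le) (gm_le hB hm) y
  have h6 := gm_nn hB hm y
  have h7 : 14 * ((1 : ℝ) / m) = 2 * (7 / m) := by ring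
  rw [h7]
  linarith

lemma Wv_eq {N Z n : ℕ} {V : ℕ → ℕ → ℝ} (hZ : 1 ≤ Z) (hn : n ≤ N) :
    Wv N Z V n = ∑ m ∈ mz Z N, V m (kk n m) * gm N Z m n := by
  unfold Wv
  rw [mz_sub hZ hn, mul_sum, sum_filter]
  refine sum_congr rfl fun m _ => ?_
  unfold gm
  split_ifs
  · ring
  · ring

/-- the variation of a composition -/
lemma tv_kk {m : ℕ} (hm : 1 ≤ m) (v : ℕ → ℝ) (y : ℕ) :
    ∑ n ∈ range y, |v (kk (n + 1) m) - v (kk n m)| ≤ ∑ k ∈ range (kk y m), |v (k + 1) - v k| := by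
  induction y with
  | zero =>
    rw [sum_range_zero]
    exact sum_nonneg fun _ _ => abs_nonneg _
  | succ y ih =>
    rw [sum_range_succ]
    have h1 : kk (y + 1) m = kk y m ∨ kk (y + 1) m = kk y m + 1 := by
      unfold kk
      rw [Nat.add_sub_cancel]
      rcases Nat.eq_zero_or_pos y with h0 | h0
      · subst h0
        left
        simp
      · obtain ⟨x, rfl⟩ : ∃ x, y = x + 1 := ⟨y - 1, by omega⟩
        rw [Nat.add_sub_cancel, Nat.succ_div]
        split_ifs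
        · right; rfl
        · left; rfl
    rcases h1 with h1 | h1
    · rw [h1, sub_self, abs_zero, add_zero]
      exact ih
    · rw [h1, sum_range_succ]
      exact add_le_add ih le_rfl

/-- the hypotheses on the function `V` -/
structure VB (N Z : ℕ) (C : ℝ) (V : ℕ → ℕ → ℝ) : Prop where
  c0 : 0 ≤ C
  bd : ∀ m k : ℕ, 1 ≤ m → m ≤ N → (∀ p ∈ m.primeFactors, Z < p) → |V m k| ≤ C
  tv : ∀ m : ℕ, 1 ≤ m → m ≤ N → (∀ p ∈ m.primeFactors, Z < p) → ∀ y : ℕ,
    ∑ k ∈ range y, |V m (k + 1) - V m k| ≤ C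

lemma wbV {N Z : ℕ} {C : ℝ} {V : ℕ → ℕ → ℝ} (hB : BZ N Z) (hV : VB N Z C V) :
    WBd (Wv N Z V) (1323 * C) N := by
  have hC := hV.c0
  have hZ1 : 1 ≤ Z := by have := hB.Z2; omega
  have hs := sum_mz hB
  refine ⟨by positivity, fun n hn => ?_, ?_⟩
  · rw [Wv_eq hZ1 hn]
    refine (abs_sum_le_sum_abs _ _).trans ?_
    calc ∑ m ∈ mz Z N, |V m (kk n m) * gm N Z m n| ≤ ∑ m ∈ mz Z N, 7 * C * ((1 : ℝ) / m) := by
          refine sum_le_sum fun m hm => ?_
          rw [mem_mz] at hm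
          rw [abs_mul, abs_of_nonneg (gm_nn hB hm.1.1 n)]
          calc |V m (kk n m)| * gm N Z m n ≤ C * (7 / m) :=
                mul_le_mul (hV.bd m _ hm.1.1 hm.1.2 hm.2.1) (gm_le hB hm.1.1 n) (gm_nn hB hm.1.1 n) hC
            _ = 7 * C * ((1 : ℝ) / m) := by ring
      _ = 7 * C * ∑ m ∈ mz Z N, (1 : ℝ) / m := by rw [mul_sum]
      _ ≤ 7 * C * 63 := by gcongr
      _ ≤ 1323 * C := by linarith
  · calc ∑ n ∈ range N, |Wv N Z V (n + 1) - Wv N Z V n|
        ≤ ∑ n ∈ range N, ∑ m ∈ mz Z N, |V m (kk (n + 1) m) * gm N Z m (n + 1) - V m (kk n m) * gm N Z m n| := by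
          refine sum_le_sum fun n hn => ?_
          rw [mem_range] at hn
          rw [Wv_eq hZ1 (by omega : n + 1 ≤ N), Wv_eq hZ1 (by omega : n ≤ N), ← sum_sub_distrib]
          exact abs_sum_le_sum_abs _ _
      _ = ∑ m ∈ mz Z N, ∑ n ∈ range N, |V m (kk (n + 1) m) * gm N Z m (n + 1) - V m (kk n m) * gm N Z m n| :=
          sum_comm
      _ ≤ ∑ m ∈ mz Z N, 21 * C * ((1 : ℝ) / m) := by
          refine sum_le_sum fun m hm => ?_
          rw [mem_mz] at hm
          have hm1 := hm.1.1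
          have h1 : ∀ n ∈ range N, |V m (kk (n + 1) m) * gm N Z m (n + 1) - V m (kk n m) * gm N Z m n| ≤
              C * |gm N Z m (n + 1) - gm N Z m n| + 7 / m * |V m (kk (n + 1) m) - V m (kk n m)| := by
            intro n _
            have e : V m (kk (n + 1) m) * gm N Z m (n + 1) - V m (kk n m) * gm N Z m n =
                V m (kk (n + 1) m) * (gm N Z m (n + 1) - gm N Z m n) +
                gm N Z m n * (V m (kk (n + 1) m) - V m (kk n m)) := by ring
            rw [e]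
            refine (abs_add_le _ _).trans ?_
            rw [abs_mul, abs_mul, abs_of_nonneg (gm_nn hB hm1 n)]
            exact add_le_add
              (mul_le_mul_of_nonneg_right (hV.bd m _ hm1 hm.1.2 hm.2.1) (abs_nonneg _))
              (mul_le_mul_of_nonneg_right (gm_le hB hm1 n) (abs_nonneg _))
          refine (sum_le_sum h1).trans ?_
          rw [sum_add_distrib, ← mul_sum, ← mul_sum]
          have h2 := gm_tv hB hm1 N
          have h3 := (tv_kk hm1 (V m) N).trans (hV.tv m hm1 hm.1.2 hm.2.1 _)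
          calc C * ∑ i ∈ range N, |gm N Z m (i + 1) - gm N Z m i| +
                7 / m * ∑ i ∈ range N, |V m (kk (i + 1) m) - V m (kk i m)|
              ≤ C * (14 * ((1 : ℝ) / m)) + 7 / m * C := by gcongr
            _ = 21 * C * ((1 : ℝ) / m) := by ring
      _ = 21 * C * ∑ m ∈ mz Z N, (1 : ℝ) / m := by rw [mul_sum]
      _ ≤ 21 * C * 63 := by gcongr
      _ = 1323 * C := by ring

/-- the main term -/
lemma sum_Wv {N Z y : ℕ} {V : ℕ → ℕ → ℝ} (hZ : 1 ≤ Z) : ∑ n ∈ Icc 1 y, Wv N Z V n =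
    Real.log N * ∑ m ∈ mz Z y, ∑ n ∈ Ioc (m * MZ Z m) y,
      V m (kk n m) * (1 / ((m : ℝ) * Real.log ((n : ℝ) / m))) := by
  unfold Wv
  rw [← mul_sum]
  congr 1
  have h1 : ∀ n ∈ Icc 1 y, ∑ m ∈ mz Z n, V m (kk n m) * (1 / ((m : ℝ) * Real.log ((n : ℝ) / m))) =
      ∑ m ∈ mz Z y, if m * MZ Z m < n then V m (kk n m) * (1 / ((m : ℝ) * Real.log ((n : ℝ) / m))) else 0 := by
    intro n hn
    rw [mem_Icc] at hn
    rw [mz_sub hZ hn.2, sum_filter]
  rw [sum_congr rfl h1, sum_comm]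
  apply sum_congr rfl
  intro m hm
  rw [← sum_filter]
  apply sum_congr _ fun _ _ => rfl
  rw [mem_mz] at hm
  ext n
  rw [mem_filter, mem_Icc, mem_Ioc]
  constructor
  · rintro ⟨⟨h2, h3⟩, h4⟩
    exact ⟨h4, h3⟩
  · rintro ⟨h2, h3⟩
    exact ⟨⟨by omega, h3⟩, h2⟩

end Pool.Agent.J4H40
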