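import Pool.Agent.J4H40.Qe

set_option autoImplicit false

/-! Functions of the largest prime factor in arithmetic progressions to small moduli. -/

namespace Pool.Agent.J4H40

open Finset Filter
open Pool.Agent.R453.GS (inv_class pap sum_pow log_floor log_num tv)
open Pool.Agent.H442R2.EHI (lis)

/-- the hypotheses on the function -/
structure FV (N Z : ℕ) (C : ℝ) (F : ℕ → ℝ) (V : ℕ → ℕ → ℝ) : Prop where
  zero : ∀ n : ℕ, 1 ≤ n → (¬ ∀ p ∈ n.primeFactors, Z < p) → F n = 0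
  bd : ∀ n : ℕ, 1 ≤ n → n ≤ N → |F n| ≤ C * Real.log N
  val : ∀ m p : ℕ, 1 ≤ m → (∀ p ∈ m.primeFactors, Z < p) → p.Prime → MZ Z m < p → m * p ≤ N →
    F (m * p) = Real.log N * V m p

/-- eventually all numerical conditions -/
lemma ev_numZ {α : ℝ} (hα : 1 / 6 ≤ α) (hα2 : α ≤ 1) (K U x0 : ℕ) (C : ℝ) : ∀ᶠ N : ℕ in atTop,
    BZ N (Za α N) ∧ 1 ≤ Real.log N ∧ x0 ≤ Za α N ∧ 7 ^ (K + 1) ≤ Real.log N ∧ Real.log N ^ K ≤ Za α N ∧
    10000 * (|C| + 1) * 7 ^ (U + 2) ≤ Real.log N ∧ 10000 * (|C| + 1) * Real.log N ^ (U + 2) ≤ Za α N := by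
  have hLT : Tendsto (fun N : ℕ => Real.log (N : ℝ)) atTop atTop :=
    Real.tendsto_log_atTop.comp tendsto_natCast_atTop_atTop
  have hα0 : 0 < α := by linarith
  have hpow : ∀ (k : ℕ) (c : ℝ), ∀ᶠ N : ℕ in atTop, c * Real.log N ^ k ≤ Za α N := by
    intro k c
    have h := (isLittleO_log_rpow_rpow_atTop (k : ℝ) hα0).bound
      (show 0 < 1 / (2 * (|c| + 1)) by positivity)
    filter_upwards [(tendsto_natCast_atTop_atTop (R := ℝ)).eventually h, hLT.eventually_ge_atTop 1,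
      eventually_ge_atTop 2] with N h1 h2 h3
    rw [Real.rpow_natCast, Real.norm_of_nonneg (by positivity),
      Real.norm_of_nonneg (Real.rpow_nonneg (Nat.cast_nonneg N) _)] at h1
    have hN1 : (1 : ℝ) ≤ N := by exact_mod_cast (by omega : 1 ≤ N)
    have h4 : (1 : ℝ) ≤ (N : ℝ) ^ α := Real.one_le_rpow hN1 hα0.le
    have h5 : (N : ℝ) ^ α < (Za α N : ℝ) + 1 := Nat.lt_floor_add_one _
    have h6 : (1 : ℝ) ≤ Za α N := by exact_mod_cast (Nat.one_le_floor_iff _).2 h4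
    have h7 : c * Real.log N ^ k ≤ (|c| + 1) * Real.log N ^ k := by
      apply mul_le_mul_of_nonneg_right _ (by positivity)
      linarith [le_abs_self c]
    have h8 : (|c| + 1) * Real.log N ^ k ≤ (|c| + 1) * (1 / (2 * (|c| + 1)) * (N : ℝ) ^ α) :=
      mul_le_mul_of_nonneg_left h1 (by positivity)
    have h9 : (|c| + 1) * (1 / (2 * (|c| + 1)) * (N : ℝ) ^ α) = (N : ℝ) ^ α / 2 := by
      field_simp
    linarith
  filter_upwards [bz_ev hα hα2, hLT.eventually_ge_atTop 1, hpow 0 x0, hLT.eventually_ge_atTop (7 ^ (K + 1)),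
    hpow K 1, hLT.eventually_ge_atTop (10000 * (|C| + 1) * 7 ^ (U + 2)),
    hpow (U + 2) (10000 * (|C| + 1))] with N h1 h2 h4 h5 h6 h7 h8
  refine ⟨h1, h2, ?_, h5, by simpa using h6, h7, h8⟩
  rw [pow_zero, mul_one] at h4
  exact_mod_cast h4

theorem apV {α : ℝ} (hα : 1 / 6 ≤ α) (hα2 : α ≤ 1) (C : ℝ) (K U : ℕ) : ∃ N₀ : ℕ, ∀ N : ℕ, N₀ ≤ N →
    ∀ (F : ℕ → ℝ) (V : ℕ → ℕ → ℝ), VB N (Za α N) C V → FV N (Za α N) C F V →
    ApgE N K U F (Wv N (Za α N) V) := by
  obtain ⟨x0, hpap⟩ := pap (K + 1) (U + 2)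
  obtain ⟨N₀, hN₀⟩ := eventually_atTop.1 (ev_numZ hα hα2 K U x0 C)
  refine ⟨N₀, fun N hN F V hV hF r hr hrN c y hy => ?_⟩
  obtain ⟨hB, hL1, hx0, h7K, hKZ, hU7, hUZ⟩ := hN₀ N hN
  obtain ⟨Z, hZd⟩ : ∃ Z, Z = Za α N := ⟨_, rfl⟩
  rw [← hZd] at hB hx0 hKZ hUZ hV hF ⊢
  have hC := hV.c0
  rw [abs_of_nonneg hC] at hU7 hUZ
  have hZ2 := hB.Z2
  have hZ1 : 1 ≤ Z := by omega
  have hL0 : 0 < Real.log N := hB.L
  have hrZ : r ≤ Z := by exact_mod_cast hrN.trans hKZ
  have hRZ : ∑ n ∈ (Icc 1 y).filter (fun n => n ≡ c [MOD r]), F n = ∑ n ∈ RZ Z r c y, F n := by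
    unfold RZ
    rw [← filter_filter]
    symm
    apply sum_filter_of_ne
    intro n hn h0
    rw [mem_filter, mem_Icc] at hn
    by_contra hcon
    exact h0 (hF.zero n hn.1.1 hcon)
  rw [hRZ]
  by_cases hc : c.Coprime r
  swap
  · rw [RZ_empty hr hrZ hc, if_neg hc]
    simp only [sum_empty, sub_zero, abs_zero]
    positivity
  rw [if_pos hc, sum_Wv hZ1]
  have hRbd : ∀ n ∈ RZ Z r c y, |F n| ≤ C * Real.log N := by
    intro n hn
    unfold RZ at hn
    rw [mem_filter, mem_Icc] at hn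
    exact hF.bd n hn.1.1 (hn.1.2.trans hy)
  have hcount := sum_RZ hZ1 F hRbd (by positivity)
  have hval : ∑ m ∈ mz Z y, ∑ p ∈ AZ Z r c y m, F (m * p) =
      Real.log N * ∑ m ∈ mz Z y, ∑ p ∈ AZ Z r c y m, V m p := by
    rw [mul_sum]
    refine sum_congr rfl fun m hm => ?_
    rw [mul_sum]
    refine sum_congr rfl fun p hp => ?_
    rw [mem_mz] at hm
    unfold AZ at hp
    rw [mem_filter, mem_Ioc] at hp
    refine hF.val m p hm.1.1 hm.2.1 hp.2.1 hp.1.1 ?_
    calc m * p ≤ m * (y / m) := Nat.mul_le_mul_left _ hp.1.2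
      _ ≤ y := Nat.mul_div_le y m
      _ ≤ N := hy
  rw [hval] at hcount
  set L := Real.log N with hLd
  have hNr : (0 : ℝ) < N := by exact_mod_cast (by have := hB.two; omega : 0 < N)
  have hZr : (0 : ℝ) < Z := by exact_mod_cast (by omega : 0 < Z)
  have hZ2r : (2 : ℝ) ≤ Z := by exact_mod_cast hZ2
  have hZl : L / 7 ≤ Real.log Z := hB.Zl
  have hφ : (1 : ℝ) ≤ (Nat.totient r : ℝ) := by exact_mod_cast Nat.totient_pos.2 hr
  have hyr : (y : ℝ) ≤ N := by exact_mod_cast hy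
  -- the number of cofactors
  have hmcard : ((mz Z y).card : ℝ) ≤ N / Z := by
    have h1 : (mz Z y).card ≤ y / Z := by
      have hsub : mz Z y ⊆ Icc 1 (y / Z) := by
        intro m hm
        rw [mem_mz] at hm
        rw [mem_Icc, Nat.le_div_iff_mul_le (by omega)]
        refine ⟨hm.1.1, ?_⟩
        exact (lt_of_le_of_lt (Nat.mul_le_mul_left _ (le_max_right _ _)) hm.2.2).le
      refine (Finset.card_le_card hsub).trans ?_
      rw [Nat.card_Icc, Nat.add_sub_cancel]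
    calc ((mz Z y).card : ℝ) ≤ ((y / Z : ℕ) : ℝ) := by exact_mod_cast h1
      _ ≤ (y : ℝ) / Z := Nat.cast_div_le
      _ ≤ N / Z := div_le_div_of_nonneg_right hyr hZr.le
  -- one cofactor
  have hone : ∀ m ∈ mz Z y, |∑ p ∈ AZ Z r c y m, V m p -
      (∑ k ∈ Ioc (MZ Z m) (y / m), V m k * (1 / Real.log k)) / (Nat.totient r : ℝ)| ≤
        8 * C * 7 ^ (U + 2) / L ^ (U + 2) * N * ((1 : ℝ) / m) := by
    intro m hm
    rw [mem_mz] at hm
    obtain ⟨⟨hm1, hmy⟩, hm2, hm3⟩ := hm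
    have hm0 : (0 : ℝ) < m := by exact_mod_cast hm1
    obtain ⟨c', hc', hcc⟩ := inv_class hr (rough_cop hr hrZ hm1 hm2) hc
    have hMZ : Z ≤ MZ Z m := le_max_right _ _
    have hMY : MZ Z m ≤ y / m := by
      rw [Nat.le_div_iff_mul_le hm1, mul_comm]
      exact le_of_lt hm3
    have hYr : ((y / m : ℕ) : ℝ) ≤ N * (1 / m) := by
      rw [mul_one_div]
      exact Nat.cast_div_le.trans (div_le_div_of_nonneg_right hyr hm0.le)
    have he : 0 < (7 : ℝ) ^ (U + 2) / L ^ (U + 2) := by positivity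
    have hcond : ∀ x : ℕ, MZ Z m ≤ x → x ≤ y / m →
        |(((Icc 1 x).filter (fun p => p.Prime ∧ p ≡ c' [MOD r])).card : ℝ) -
        lis x / (Nat.totient r : ℝ)| ≤ N * (1 / m) * (7 ^ (U + 2) / L ^ (U + 2)) := by
      intro x hx hxy
      have hxr : (Z : ℝ) ≤ x := by exact_mod_cast hMZ.trans hx
      have hx0' : (0 : ℝ) < x := by linarith
      have hlx : L / 7 ≤ Real.log x := hZl.trans (Real.log_le_log hZr hxr)
      have hlx0 : 0 < Real.log x := lt_of_lt_of_le (by positivity) hlx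
      have hrx : (r : ℝ) ≤ Real.log x ^ (K + 1) := by
        calc (r : ℝ) ≤ L ^ K := hrN
          _ ≤ L ^ K * (L / 7 ^ (K + 1)) := by
            apply le_mul_of_one_le_right (by positivity)
            rw [one_le_div (by positivity)]
            exact h7K
          _ = (L / 7) ^ (K + 1) := by rw [div_pow, pow_succ L]; field_simp
          _ ≤ Real.log x ^ (K + 1) := pow_le_pow_left₀ (by positivity) hlx _
      refine (hpap x (hx0.trans (hMZ.trans hx)) r hr hrx c' hc').trans ?_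
      rw [div_eq_mul_one_div]
      have hxY : (x : ℝ) ≤ N * (1 / m) := le_trans (by exact_mod_cast hxy) hYr
      refine mul_le_mul hxY ?_ (by positivity) (by positivity)
      calc 1 / Real.log x ^ (U + 2) ≤ 1 / (L / 7) ^ (U + 2) :=
            one_div_le_one_div_of_le (by positivity) (pow_le_pow_left₀ (by positivity) hlx _)
        _ = 7 ^ (U + 2) / L ^ (U + 2) := by rw [div_pow, one_div_div]
    have e1 : AZ Z r c y m = (Ioc (MZ Z m) (y / m)).filter (fun p => p.Prime ∧ p ≡ c' [MOD r]) := by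
      unfold AZ
      apply filter_congr
      intro p _
      rw [hcc p]
    -- extend the function
    obtain ⟨v, hv⟩ : ∃ v : ℕ → ℝ, v = V m := ⟨_, rfl⟩
    have h1 := one_m (v := v) (C := C) hMY (by omega)
      (fun k => by rw [hv]; exact hV.bd m k hm1 (hmy.trans hy) hm2)
      (by rw [hv]; exact hV.tv m hm1 (hmy.trans hy) hm2 _) hC hcond
    rw [hv] at h1
    rw [e1]
    refine h1.trans (le_of_eq ?_)
    ring
  -- the sum over the cofactors
  have hsum : |∑ m ∈ mz Z y, ∑ p ∈ AZ Z r c y m, V m p -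
      (∑ m ∈ mz Z y, ∑ k ∈ Ioc (MZ Z m) (y / m), V m k * (1 / Real.log k)) / (Nat.totient r : ℝ)| ≤
        504 * C * 7 ^ (U + 2) / L ^ (U + 2) * N := by
    rw [sum_div, ← sum_sub_distrib]
    refine (abs_sum_le_sum_abs _ _).trans ((sum_le_sum hone).trans ?_)
    rw [← mul_sum]
    have hs := sum_mz hB
    have h16 : ∑ m ∈ mz Z y, (1 : ℝ) / m ≤ 63 := by
      refine le_trans ?_ hs
      rw [mz_sub hZ1 hy]
      exact sum_le_sum_of_subset_of_nonneg (filter_subset _ _) fun _ _ _ => by positivity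
    have he : 0 ≤ 8 * C * 7 ^ (U + 2) / L ^ (U + 2) * N := by positivity
    have := mul_le_mul_of_nonneg_left h16 he
    have e3 : 504 * C * 7 ^ (U + 2) / L ^ (U + 2) * N = 8 * C * 7 ^ (U + 2) / L ^ (U + 2) * N * 63 := by ring
    rw [e3]
    exact this
  -- the main term
  have hmain : |(∑ m ∈ mz Z y, ∑ n ∈ Ioc (m * MZ Z m) y,
      V m (kk n m) * (1 / ((m : ℝ) * Real.log ((n : ℝ) / m)))) -
      ∑ m ∈ mz Z y, ∑ k ∈ Ioc (MZ Z m) (y / m), V m k * (1 / Real.log k)| ≤ 14 * C / L * (N / Z) := by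
    rw [← sum_sub_distrib]
    refine (abs_sum_le_sum_abs _ _).trans ?_
    have h1 : ∀ m ∈ mz Z y, |∑ n ∈ Ioc (m * MZ Z m) y, V m (kk n m) * (1 / ((m : ℝ) * Real.log ((n : ℝ) / m))) -
        ∑ k ∈ Ioc (MZ Z m) (y / m), V m k * (1 / Real.log k)| ≤ 14 * C / L := by
      intro m hm
      rw [mem_mz] at hm
      refine (cmpV2 (v := V m) (C := C) (fun k => hV.bd m k hm.1.1 (hm.1.2.trans hy) hm.2.1) hm.1.1
        (hZ2.trans (le_max_right _ _)) hm.2.2).trans ?_
      have h2 : L / 7 ≤ Real.log (MZ Z m) := hZl.trans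
        (Real.log_le_log hZr (by exact_mod_cast (le_max_right _ _ : Z ≤ MZ Z m)))
      calc C * (2 / Real.log (MZ Z m)) ≤ C * (2 / (L / 7)) :=
            mul_le_mul_of_nonneg_left (div_le_div_of_nonneg_left (by norm_num) (by positivity) h2) hC
        _ = 14 * C / L := by field_simp; ring
    refine (sum_le_card_nsmul _ _ _ h1).trans ?_
    rw [nsmul_eq_mul, mul_comm]
    exact mul_le_mul_of_nonneg_left hmcard (by positivity)
  set P := ∑ m ∈ mz Z y, ∑ p ∈ AZ Z r c y m, V m p with hP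
  set Q := ∑ m ∈ mz Z y, ∑ k ∈ Ioc (MZ Z m) (y / m), V m k * (1 / Real.log k) with hQ
  set T := ∑ m ∈ mz Z y, ∑ n ∈ Ioc (m * MZ Z m) y, V m (kk n m) * (1 / ((m : ℝ) * Real.log ((n : ℝ) / m)))
    with hT
  set R := ∑ n ∈ RZ Z r c y, F n with hR
  have e1 : R - L * T / (Nat.totient r : ℝ) = (R - L * P) + L * (P - Q / (Nat.totient r : ℝ)) -
      L * (T - Q) / (Nat.totient r : ℝ) := by ring
  rw [e1]
  have b1 : |R - L * P| ≤ (1 + N / Z) * (C * L) := by
    refine hcount.trans (mul_le_mul_of_nonneg_right ?_ (by positivity))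
    have : (y : ℝ) / Z ≤ N / Z := div_le_div_of_nonneg_right hyr hZr.le
    linarith
  have b2 : |L * (P - Q / (Nat.totient r : ℝ))| ≤ L * (504 * C * 7 ^ (U + 2) / L ^ (U + 2) * N) := by
    rw [abs_mul, abs_of_pos hL0]
    exact mul_le_mul_of_nonneg_left hsum hL0.le
  have b3 : |L * (T - Q) / (Nat.totient r : ℝ)| ≤ 14 * C * (N / Z) := by
    rw [abs_div, abs_of_pos (show (0 : ℝ) < (Nat.totient r : ℝ) by linarith), abs_mul, abs_of_pos hL0]
    refine (div_le_self (by positivity) hφ).trans ?_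
    calc L * |T - Q| ≤ L * (14 * C / L * (N / Z)) := mul_le_mul_of_nonneg_left hmain hL0.le
      _ = 14 * C * (N / Z) := by field_simp
  have hLU : 0 < L ^ U := by positivity
  have hNZ1 : 1 ≤ N / (Z : ℝ) := by
    rw [one_le_div hZr]
    exact_mod_cast hB.ZN
  have hC1 : 0 < C + 1 := by linarith
  have c1 : N / (Z : ℝ) ≤ N / (10000 * (C + 1) * L ^ (U + 2)) :=
    div_le_div_of_nonneg_left hNr.le (by positivity) hUZ
  have c2 : N / (10000 * (C + 1) * L ^ (U + 2)) * (20 * (C + 1) * L) ≤ N / L ^ U * (1 / 100) := by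
    have e : N / (10000 * (C + 1) * L ^ (U + 2)) * (20 * (C + 1) * L) = N / L ^ U * (1 / 500) * (1 / L) := by
      rw [pow_add]
      field_simp
      norm_num
    rw [e]
    have h1 : 1 / L ≤ 1 := by rw [div_le_one hL0]; exact hL1
    have h0 : 0 ≤ N / L ^ U * (1 / 500) := by positivity
    have h2 : N / L ^ U * (1 / 500) ≤ N / L ^ U * (1 / 100) := by
      have : 0 ≤ N / L ^ U := by positivity
      linarith
    calc N / L ^ U * (1 / 500) * (1 / L) ≤ N / L ^ U * (1 / 500) * 1 := mul_le_mul_of_nonneg_left h1 h0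
      _ ≤ _ := by linarith
  have c3 : L * (504 * C * 7 ^ (U + 2) / L ^ (U + 2) * N) ≤ N / L ^ U * (504 / 10000) := by
    have e : L * (504 * C * 7 ^ (U + 2) / L ^ (U + 2) * N) =
        N / L ^ U * (504 / 10000) * (10000 * C * 7 ^ (U + 2) / L) := by
      rw [pow_add L]
      field_simp
    rw [e]
    have h1 : 10000 * C * 7 ^ (U + 2) / L ≤ 1 := by
      rw [div_le_one hL0]
      refine le_trans ?_ hU7
      have : 0 < (7 : ℝ) ^ (U + 2) := by positivity
      nlinarith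
    have h0 : 0 ≤ N / L ^ U * (504 / 10000) := by positivity
    calc _ ≤ N / L ^ U * (504 / 10000) * 1 := mul_le_mul_of_nonneg_left h1 h0
      _ = _ := mul_one _
  have c4 : (1 + N / Z) * (C * L) + 14 * C * (N / Z) ≤ N / (Z : ℝ) * (20 * (C + 1) * L) := by
    have h1 : (1 + N / Z) * (C * L) ≤ (2 * (N / Z)) * (C * L) :=
      mul_le_mul_of_nonneg_right (by linarith) (by positivity)
    have h2 : 14 * C * (N / Z) ≤ 14 * C * (N / Z) * L := by
      apply le_mul_of_one_le_right (by positivity) hL1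
    have h3 : 0 ≤ (N / Z : ℝ) * L := by positivity
    have h4 : 0 ≤ (N / Z : ℝ) * L * C := by positivity
    nlinarith
  have c5 : N / (Z : ℝ) * (20 * (C + 1) * L) ≤ N / L ^ U * (1 / 100) :=
    (mul_le_mul_of_nonneg_right c1 (by positivity)).trans c2
  have h0 : 0 < N / L ^ U := by positivity
  refine (abs_sub _ _).trans ?_
  have := abs_add_le (R - L * P) (L * (P - Q / (Nat.totient r : ℝ)))
  linarith

end Pool.Agent.J4H40
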