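import Pool.Agent.J4H40.Qf

set_option autoImplicit false

/-! The family of the coefficients. -/

namespace Pool.Agent.J4H40

open Finset Filter
open ArithmeticFunction (cardFactors)

/-- total variation of an antitone function with values between 0 and 1 -/
lemma tv_anti (f : ℕ → ℝ) (h0 : ∀ k, 0 ≤ f k) (h1 : ∀ k, f k ≤ 1) (h2 : ∀ k, f (k + 1) ≤ f k) (y : ℕ) :
    ∑ k ∈ range y, |f (k + 1) - f k| ≤ 1 := by
  have e : ∑ k ∈ range y, |f (k + 1) - f k| = f 0 - f y := by
    induction y with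
    | zero => simp
    | succ y ih =>
      rw [sum_range_succ, ih, abs_of_nonpos (by linarith [h2 y])]
      ring
  rw [e]
  linarith [h0 y, h1 0]

lemma log_mono (k : ℕ) : Real.log k ≤ Real.log ((k + 1 : ℕ) : ℝ) := by
  rcases Nat.eq_zero_or_pos k with h | h
  · subst h; simp
  · exact Real.log_le_log (by exact_mod_cast h) (by push_cast; linarith)

lemma tv_st (τ x : ℝ) (y : ℕ) :
    ∑ k ∈ range y, |st τ (x + Real.log ((k + 1 : ℕ) : ℝ)) - st τ (x + Real.log k)| ≤ 1 := by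
  refine tv_anti (fun k => st τ (x + Real.log k)) (fun k => st_nn _ _) (fun k => st_le _ _) (fun k => ?_) y
  have h := log_mono k
  unfold st
  by_cases h1 : x + Real.log ((k + 1 : ℕ) : ℝ) ≤ τ
  · rw [if_pos h1, if_pos (by linarith)]
  · rw [if_neg h1]
    split_ifs <;> norm_num

lemma tv3 (a b c : ℕ → ℝ) {A B C : ℝ} (y : ℕ) (ha : ∑ k ∈ range y, |a (k + 1) - a k| ≤ A)
    (hb : ∑ k ∈ range y, |b (k + 1) - b k| ≤ B) (hc : ∑ k ∈ range y, |c (k + 1) - c k| ≤ C) :
    ∑ k ∈ range y, |(a (k + 1) + (b (k + 1) - c (k + 1))) - (a k + (b k - c k))| ≤ A + B + C := by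
  calc ∑ k ∈ range y, |(a (k + 1) + (b (k + 1) - c (k + 1))) - (a k + (b k - c k))|
      ≤ ∑ k ∈ range y, (|a (k + 1) - a k| + |b (k + 1) - b k| + |c (k + 1) - c k|) := by
        refine sum_le_sum fun k _ => ?_
        have e : (a (k + 1) + (b (k + 1) - c (k + 1))) - (a k + (b k - c k)) =
          (a (k + 1) - a k) + (b (k + 1) - b k) - (c (k + 1) - c k) := by ring
        rw [e]
        refine (abs_sub _ _).trans ?_
        have := abs_add_le (a (k + 1) - a k) (b (k + 1) - b k)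
        linarith
    _ ≤ A + B + C := by
        rw [sum_add_distrib, sum_add_distrib]
        linarith

lemma tv_sg (P : Ps) (j : ℕ) (x : ℝ) (y : ℕ) :
    ∑ k ∈ range y, |sg P j (x + Real.log ((k + 1 : ℕ) : ℝ)) - sg P j (x + Real.log k)| ≤ 3 := by
  have z0 : ∑ k ∈ range y, |((fun _ : ℕ => (0 : ℝ)) (k + 1)) - ((fun _ : ℕ => (0 : ℝ)) k)| ≤ 1 := by
    simp
  rcases j with _ | _ | _ | _ | j
  · have : ∑ k ∈ range y, |sg P 0 (x + Real.log ((k + 1 : ℕ) : ℝ)) - sg P 0 (x + Real.log k)| = 0 := by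
      apply sum_eq_zero
      intro k _
      show |(1 : ℝ) - 1| = 0
      norm_num
    rw [this]
    norm_num
  · have h := tv3 (fun k => st P.A (x + Real.log k)) (fun k => st P.D (x + Real.log k))
      (fun k => st P.Y (x + Real.log k)) y (tv_st _ _ _) (tv_st _ _ _) (tv_st _ _ _)
    refine le_trans (le_of_eq (sum_congr rfl fun k _ => ?_)) (h.trans (by norm_num))
    show |-(st P.A _ + (st P.D _ - st P.Y _)) - -(st P.A _ + (st P.D _ - st P.Y _))| = _
    rw [neg_sub_neg, abs_sub_comm]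
  · have h := tv3 (fun k => st P.G (x + Real.log k)) (fun k => st P.D' (x + Real.log k))
      (fun k => st P.Y' (x + Real.log k)) y (tv_st _ _ _) (tv_st _ _ _) (tv_st _ _ _)
    refine le_trans (le_of_eq (sum_congr rfl fun k _ => ?_)) (h.trans (by norm_num))
    rfl
  · have h := tv3 (fun _ => 0) (fun k => st P.D (x + Real.log k))
      (fun k => st P.Y (x + Real.log k)) y z0 (tv_st _ _ _) (tv_st _ _ _)
    refine le_trans (le_of_eq (sum_congr rfl fun k _ => ?_)) (h.trans (by norm_num))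
    show |-(st P.D _ - st P.Y _) - -(st P.D _ - st P.Y _)| = _
    rw [neg_sub_neg, abs_sub_comm]
    simp only [zero_add]
  · have : ∑ k ∈ range y, |sg P (j + 4) (x + Real.log ((k + 1 : ℕ) : ℝ)) - sg P (j + 4) (x + Real.log k)| = 0 := by
      apply sum_eq_zero
      intro k _
      show |(0 : ℝ) - 0| = 0
      norm_num
    rw [this]
    norm_num

lemma card_sqf {N Z m : ℕ} (hm : 1 ≤ m) (hmN : m ≤ N) (hZ : N < (Z + 1) ^ 6)
    (hr : ∀ p ∈ m.primeFactors, Z < p) : ((m.divisors.filter Squarefree).card : ℝ) ≤ 32 := by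
  have h2 : m.divisors.filter Squarefree ⊆
      m.divisors.filter (fun d => Squarefree d ∧ ∀ p ∈ d.primeFactors, Z < p) := by
    intro d hd
    rw [mem_filter] at hd ⊢
    rw [Nat.mem_divisors] at hd ⊢
    exact ⟨hd.1, hd.2, fun p hp => hr p (Nat.primeFactors_mono hd.1.1 hd.1.2 hp)⟩
  exact_mod_cast (card_le_card h2).trans (card_rough hm hmN hZ)

/-- the function of the cofactor and the largest prime factor -/
noncomputable def VP (P : Ps) (m k : ℕ) : ℝ := Vx P m (Real.log k)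

section
variable {P : Ps} (h : Ok P)
include h

lemma vb_VP {N Z : ℕ} (hZ : N < (Z + 1) ^ 6) : VB N Z 96 (VP P) := by
  refine ⟨by norm_num, fun m k hm hmN hr => ?_, fun m hm hmN hr y => ?_⟩
  · unfold VP Vx
    have h1 := S_abs h (N := N) (Z := Z) (G := fun j y => sg P j y + sg P (j + 1) (y + Real.log k)) (X := 2)
      hm hmN hZ hr (by norm_num) (fun j x => ?_)
    · linarith
    · refine (abs_add_le _ _).trans ?_
      linarith [sg_abs h j x, sg_abs h (j + 1) (x + Real.log k)]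
  · unfold VP Vx S
    have h1 : ∀ k ∈ range y, |∑ d ∈ m.divisors.filter Squarefree, (sg P (cardFactors d) (Real.log d) +
          sg P (cardFactors d + 1) (Real.log d + Real.log ((k + 1 : ℕ) : ℝ))) -
        ∑ d ∈ m.divisors.filter Squarefree, (sg P (cardFactors d) (Real.log d) +
          sg P (cardFactors d + 1) (Real.log d + Real.log k))| ≤
        ∑ d ∈ m.divisors.filter Squarefree, |sg P (cardFactors d + 1) (Real.log d + Real.log ((k + 1 : ℕ) : ℝ)) -
          sg P (cardFactors d + 1) (Real.log d + Real.log k)| := by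
      intro k _
      rw [← sum_sub_distrib]
      refine (abs_sum_le_sum_abs _ _).trans (le_of_eq (sum_congr rfl fun d _ => ?_))
      congr 1
      ring
    refine (sum_le_sum h1).trans ?_
    rw [sum_comm]
    calc _ ≤ ∑ d ∈ m.divisors.filter Squarefree, (3 : ℝ) := sum_le_sum fun d _ => tv_sg P _ _ y
      _ = ((m.divisors.filter Squarefree).card : ℝ) * 3 := by rw [sum_const, nsmul_eq_mul]
      _ ≤ 32 * 3 := by
          have := card_sqf hm hmN hZ hr
          linarith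
      _ = 96 := by norm_num

lemma fv_gc {N Z : ℕ} (hN : 1 ≤ N) (hZ : N < (Z + 1) ^ 6) :
    FV N Z 96 (FR N Z (gc P Z)) (VP P) := by
  have hL : 0 ≤ Real.log N := Real.log_natCast_nonneg N
  refine ⟨fun n hn hr => FR_zero hn hr, fun n hn hnN => ?_, fun m p hm hr hp hMp hmp => ?_⟩
  · by_cases hr : ∀ p ∈ n.primeFactors, Z < p
    · rw [FR_rough hn hr, abs_mul, abs_of_nonneg hL, mul_comm]
      apply mul_le_mul_of_nonneg_right _ hL
      have := S_abs h (G := sg P) (X := 1) hn hnN hZ hr (by norm_num) (fun j x => sg_abs h j x)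
      linarith
    · rw [FR_zero hn hr, abs_zero]
      positivity
  · have hm0 : m ≠ 0 := by omega
    have hZp : Z < p := lt_of_le_of_lt (le_max_right _ _) hMp
    have hpm : ¬ p ∣ m := by
      intro hd
      have h1 : p ≤ m.primeFactors.sup id :=
        Pool.Agent.R453.GS.le_sup_pf (Nat.mem_primeFactors.2 ⟨hp, hd, hm0⟩)
      have h2 : m.primeFactors.sup id ≤ MZ Z m := le_max_left _ _
      omega
    have hr' : ∀ q ∈ (m * p).primeFactors, Z < q := by
      intro q hq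
      rw [Nat.primeFactors_mul hm0 hp.ne_zero, hp.primeFactors, mem_union, mem_singleton] at hq
      rcases hq with hq | hq
      · exact hr q hq
      · rw [hq]; exact hZp
    rw [FR_rough (Nat.mul_pos hm hp.pos) hr', S_Vx hp hm0 hpm]
    rfl

end

lemma ok_ev {α a : ℝ} {B : ℕ} (h1 : 1 / 6 ≤ α) (h2 : α ≤ 1 / 4) (h3 : 1 / 4 ≤ a) (h4 : a + 1 / 100 ≤ (1 - α) / 2)
    (h5 : a ≤ 388 / 1000 ∨ 1 / 5 ≤ α) (hB : 1 ≤ B) {ε : ℝ} (hε : 0 < ε) (hε2 : ε ≤ 1 / 1000) :
    ∀ᶠ N : ℕ in atTop, Ok (PN α a B N) ∧ B * Real.log (Real.log N) ≤ ε * Real.log N := by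
  have hLT : Tendsto (fun N : ℕ => Real.log (N : ℝ)) atTop atTop :=
    Real.tendsto_log_atTop.comp tendsto_natCast_atTop_atTop
  have h6 : ∀ᶠ L : ℝ in atTop, B * Real.log L ≤ ε * L := by
    have h6 := Real.isLittleO_log_id_atTop.bound (show (0 : ℝ) < ε / (B + 1) by positivity)
    filter_upwards [h6, eventually_ge_atTop 1] with L h7 h8
    have h9 : 0 ≤ Real.log L := Real.log_nonneg h8
    rw [Real.norm_of_nonneg h9, id, Real.norm_of_nonneg (by linarith)] at h7
    have h10 : (B + 1 : ℝ) * Real.log L ≤ ε * L := by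
      calc (B + 1 : ℝ) * Real.log L ≤ (B + 1 : ℝ) * (ε / (B + 1) * L) :=
            mul_le_mul_of_nonneg_left h7 (by positivity)
        _ = ε * L := by field_simp
    linarith
  filter_upwards [hLT.eventually h6, hLT.eventually_ge_atTop 3] with N hN hL
  have hL0 : 0 < Real.log N := by linarith
  refine ⟨⟨hL0, ?_, ?_, h1, h2, h3, h4, h5⟩, hN⟩
  · show 0 < (B : ℝ) * Real.log (Real.log N)
    have hB0 : (0 : ℝ) < B := by exact_mod_cast (by omega : 0 < B)
    have : 0 < Real.log (Real.log N) := Real.log_pos (by linarith)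
    positivity
  · show 1000 * ((B : ℝ) * Real.log (Real.log N)) ≤ Real.log N
    have : ε * Real.log N ≤ 1 / 1000 * Real.log N := mul_le_mul_of_nonneg_right hε2 hL0.le
    linarith

/-- the coefficients -/
noncomputable def gF (α a : ℝ) (B N : ℕ) : ℕ → ℝ := gc (PN α a B N) (Za α N)

/-- the densities -/
noncomputable def WF (α a : ℝ) (B N : ℕ) : ℕ → ℝ := Wv N (Za α N) (VP (PN α a B N))

theorem fam {α a : ℝ} {B : ℕ} (h1 : 1 / 6 ≤ α) (h2 : α ≤ 1 / 4) (h3 : 1 / 4 ≤ a) (h4 : a + 1 / 100 ≤ (1 - α) / 2)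
    (h5 : a ≤ 388 / 1000 ∨ 1 / 5 ≤ α) (hB : 1 ≤ B) : Fam α (gF α a B) (WF α a B) := by
  have hok := ok_ev h1 h2 h3 h4 h5 hB (ε := 1 / 1000) (by norm_num) le_rfl
  obtain ⟨N₁, hN₁⟩ := eventually_atTop.1 (hok.and (bz_ev h1 (by linarith)))
  refine ⟨⟨N₁ + 2, fun N hN => ?_⟩, ⟨1323 * 96, N₁, fun N hN => ?_⟩, fun K U => ?_⟩
  · obtain ⟨⟨hP, _⟩, hZ⟩ := hN₁ N (by omega)
    have hN1 : (1 : ℝ) ≤ N := by exact_mod_cast (by omega : 1 ≤ N)
    refine ⟨⌊(N : ℝ) ^ ((1 + α) / 2)⌋₊, ?_, Nat.floor_le (by positivity), ?_⟩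
    · rw [Nat.one_le_floor_iff]
      exact Real.one_le_rpow hN1 (by linarith)
    · exact cf_gc hP hZ.two rfl
  · obtain ⟨⟨hP, _⟩, hZ⟩ := hN₁ N hN
    exact wbV hZ (vb_VP hP hZ.Z6)
  · obtain ⟨N₂, hN₂⟩ := apV h1 (by linarith : α ≤ 1) 96 K U
    refine ⟨N₁ + N₂, fun N hN => ?_⟩
    obtain ⟨⟨hP, _⟩, hZ⟩ := hN₁ N (by omega)
    exact hN₂ N (by omega) _ _ (vb_VP hP hZ.Z6) (fv_gc hP (by have := hZ.two; omega) hZ.Z6)

end Pool.Agent.J4H40
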