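import Pool.Agent.J4H40.Qi
import Pool.Agent.R460.GS.Conv

set_option autoImplicit false

/-! Lower bounds in all windows, and the number of exceptions in a residue class (adapted from
`R460/GS/Fin`, `R460/GS/Main` and `R460/GS/Conv`). -/

namespace Pool.Agent.J4H40

open Finset Filter
open Pool.Agent.H373R2.T7 (lamz Vz pz lamI lamzI Vz_pos)
open Pool.Agent.Y883.T3 (lsh)
open Pool.Agent.Y883.GJ
open Pool.Agent.W93.PG (wn cnt lam_sub wn_le)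
open Pool.Agent.H560R3.GB (sing C₂)
open Pool.Agent.Y614.GJ.Core (ev_log)
open Pool.Agent.Y883.T4 (badc class_le)
open Pool.Agent.R460.GS (cv one_le_sing wn_nn_mono mod_iff' gcd_toNat pow_range real_log)

/-- at least `κ` times the expected number of Goldbach pairs in all windows -/
def WinK (κ : ℝ) (A m : ℕ) : Prop :=
  ∀ y₁ y₂ : ℕ, y₁ < y₂ → y₂ ≤ m → (m : ℝ) / Real.log m ^ A ≤ (y₂ : ℝ) - y₁ →
    κ * (sing m * ((y₂ : ℝ) - y₁) / Real.log m ^ 2) ≤ (cnt m y₁ y₂ : ℝ)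

/-- from the grid to all windows -/
lemma winK_of_grid {κ β : ℝ} (hκ : κ + 1 / 200 ≤ β) (hβ : β ≤ 1) (hκ0 : 0 ≤ κ) (A : ℕ) : ∃ N₀ : ℕ, ∀ N : ℕ, N₀ ≤ N → ∀ H : ℕ, 1 ≤ H →
    (H : ℝ) ≤ 2 * (N / Real.log N ^ (2 * A + 4)) → ∀ n : ℕ, n ≤ N → (N : ℝ) / Real.log N ^ (A + 1) ≤ n →
    sing n ≤ 2 * Real.log N →
    (∀ i j : ℕ, i ≤ j → j * H < n →
      β * (sing n * (((j * H : ℕ) : ℝ) - ((i * H : ℕ) : ℝ))) - N / Real.log N ^ (2 * A + 4) ≤
        wn n (i * H) (j * H)) → WinK κ A n := by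
  obtain ⟨N₁, h1⟩ := Filter.eventually_atTop.1 (ev_log (3 * A + 10) (s := 1 / 4) (by norm_num) 10000)
  refine ⟨N₁ + 2, fun N hN H hH1 hH n hn hnN hS2 hgrid y₁ y₂ h12 h2 hlen => ?_⟩
  have hN1 : 1 ≤ N := by omega
  have hN0 : (0 : ℝ) < N := by exact_mod_cast hN1
  obtain ⟨hL, hLp⟩ := h1 N (by omega)
  obtain ⟨L, hLd⟩ : ∃ L, L = Real.log (N : ℝ) := ⟨_, rfl⟩
  rw [← hLd] at hL hLp hH hnN hS2 hgrid
  have hL0 : 0 < L := by linarith
  have hL1 : 1 ≤ L := by linarith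
  have hn0 : (0 : ℝ) < n := lt_of_lt_of_le (by positivity) hnN
  have hn1 : 1 ≤ n := by exact_mod_cast hn0
  have hnr : (n : ℝ) ≤ N := by exact_mod_cast hn
  have hlogn : Real.log n ≤ L := by
    rw [hLd]
    exact Real.log_le_log hn0 hnr
  have hlogn1 : 1 ≤ Real.log n := by
    -- `n` is large
    have e1 : (N : ℝ) ^ (3 / 4 : ℝ) ≤ n := by
      refine le_trans ?_ hnN
      rw [le_div_iff₀ (by positivity)]
      calc (N : ℝ) ^ (3 / 4 : ℝ) * L ^ (A + 1) ≤ (N : ℝ) ^ (3 / 4 : ℝ) * (N : ℝ) ^ (1 / 4 : ℝ) := by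
            have : L ^ (A + 1) ≤ (N : ℝ) ^ (1 / 4 : ℝ) := (pow_le_pow_right₀ hL1 (by omega)).trans hLp
            gcongr
        _ = N := by
            rw [← Real.rpow_add hN0]
            norm_num
    have e2 : 3 / 4 * L ≤ Real.log n := by
      rw [hLd, ← Real.log_rpow hN0]
      exact Real.log_le_log (by positivity) e1
    linarith
  have hlogn0 : 0 < Real.log n := by linarith
  obtain ⟨Δ, hΔ⟩ : ∃ Δ : ℝ, Δ = (y₂ : ℝ) - y₁ := ⟨_, rfl⟩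
  obtain ⟨S, hSd⟩ : ∃ S : ℝ, S = sing n := ⟨_, rfl⟩
  have hS1 : 1 ≤ S := by rw [hSd]; exact one_le_sing n
  rw [← hΔ] at hlen ⊢
  rw [← hSd] at hS2 hgrid ⊢
  have hΔ1 : (n : ℝ) / L ^ A ≤ Δ := by
    refine le_trans ?_ hlen
    apply div_le_div_of_nonneg_left hn0.le (by positivity)
    exact pow_le_pow_left₀ hlogn0.le hlogn A
  have hΔ2 : (N : ℝ) / L ^ (2 * A + 1) ≤ Δ := by
    refine le_trans ?_ hΔ1
    rw [show 2 * A + 1 = (A + 1) + A by ring, pow_add, ← div_div]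
    exact div_le_div_of_nonneg_right hnN (by positivity)
  have hΔ0 : 0 < Δ := lt_of_lt_of_le (by positivity) hΔ2
  have hV : (N : ℝ) / L ^ (2 * A + 4) ≤ Δ / L ^ 3 := by
    rw [show 2 * A + 4 = (2 * A + 1) + 3 by ring, pow_add, ← div_div]
    exact div_le_div_of_nonneg_right hΔ2 (by positivity)
  have hL3 : Δ / L ^ 3 ≤ Δ / L / 10000 := by
    rw [div_div]
    apply div_le_div_of_nonneg_left hΔ0.le (by positivity)
    have : L ^ 3 = L * (L * L) := by ring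
    rw [this]
    have : (10000 : ℝ) ≤ L * L := by nlinarith
    exact mul_le_mul_of_nonneg_left this hL0.le
  have hΔL : Δ / L ≤ Δ / 10000 := div_le_div_of_nonneg_left hΔ0.le (by norm_num) hL
  have hHΔ : (H : ℝ) ≤ Δ / L / 5000 := by linarith
  have hHΔ' : (H : ℝ) ≤ Δ / 1000 := by
    have : Δ / L / 5000 ≤ Δ / L := div_le_self (by positivity) (by norm_num)
    linarith
  have hH0 : (1 : ℝ) ≤ H := by exact_mod_cast hH1
  -- the points of the grid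
  obtain ⟨i, hi⟩ : ∃ i, i = (y₁ + H - 1) / H := ⟨_, rfl⟩
  obtain ⟨j, hj⟩ : ∃ j, j = (y₂ - 1) / H := ⟨_, rfl⟩
  have hi1 : y₁ ≤ i * H := by
    have h3 := Nat.lt_div_mul_add (a := y₁ + H - 1) (b := H) (by omega)
    rw [← hi] at h3
    omega
  have hi2 : i * H ≤ y₁ + H := by
    have h3 := Nat.div_mul_le_self (y₁ + H - 1) H
    rw [← hi] at h3
    omega
  have hj1 : j * H ≤ y₂ - 1 := by
    rw [hj]
    exact Nat.div_mul_le_self _ _
  have hj2 : y₂ ≤ j * H + H := by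
    have h3 := Nat.lt_div_mul_add (a := y₂ - 1) (b := H) (by omega)
    rw [← hj] at h3
    omega
  have hi2r : ((i * H : ℕ) : ℝ) ≤ y₁ + H := by exact_mod_cast hi2
  have hj2r : (y₂ : ℝ) ≤ ((j * H : ℕ) : ℝ) + H := by exact_mod_cast hj2
  have hij : i ≤ j := by
    by_contra hcon
    have h3 : j * H ≤ i * H := Nat.mul_le_mul_right _ (by omega)
    have h4 : ((j * H : ℕ) : ℝ) ≤ ((i * H : ℕ) : ℝ) := by exact_mod_cast h3
    linarith
  have h3 := hgrid i j hij (by omega)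
  have h4 := wn_nn_mono n hi1 (show j * H ≤ y₂ by omega)
  have h5 := wn_le n y₁ y₂ h2 hn1
  have hgap : Δ - 2 * H ≤ ((j * H : ℕ) : ℝ) - ((i * H : ℕ) : ℝ) := by
    rw [hΔ]
    linarith
  have hβ0 : 0 ≤ β := by linarith
  have h6 : β * (S * (Δ - 2 * H)) ≤ β * (S * (((j * H : ℕ) : ℝ) - ((i * H : ℕ) : ℝ))) := by
    gcongr
  have hSΔ : Δ ≤ S * Δ := by nlinarith
  -- the square root
  have h7 : 4 * √(n : ℝ) * Real.log n ^ 2 ≤ Δ / 1000 := by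
    have e1 : √(n : ℝ) ≤ √(N : ℝ) := Real.sqrt_le_sqrt hnr
    have e2 : Real.log n ^ 2 ≤ L ^ 2 := pow_le_pow_left₀ hlogn0.le hlogn 2
    have e3 : 4 * √(n : ℝ) * Real.log n ^ 2 ≤ 4 * √(N : ℝ) * L ^ 2 := by gcongr
    refine e3.trans (le_trans ?_ (div_le_div_of_nonneg_right hΔ2 (by norm_num)))
    rw [Real.sqrt_eq_rpow, le_div_iff₀ (by norm_num), le_div_iff₀ (by positivity)]
    calc 4 * (N : ℝ) ^ (1 / 2 : ℝ) * L ^ 2 * 1000 * L ^ (2 * A + 1)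
        = (N : ℝ) ^ (1 / 2 : ℝ) * (4000 * (L ^ 2 * L ^ (2 * A + 1))) := by ring
      _ ≤ (N : ℝ) ^ (1 / 2 : ℝ) * (N : ℝ) ^ (1 / 2 : ℝ) := by
          have e4 : 4000 * (L ^ 2 * L ^ (2 * A + 1)) ≤ (N : ℝ) ^ (1 / 2 : ℝ) := by
            calc 4000 * (L ^ 2 * L ^ (2 * A + 1)) ≤ L * (L ^ 2 * L ^ (2 * A + 1)) := by
                  gcongr
                  linarith
              _ = L ^ (2 * A + 4) := by ring
              _ ≤ L ^ (3 * A + 10) := pow_le_pow_right₀ hL1 (by omega)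
              _ ≤ (N : ℝ) ^ (1 / 4 : ℝ) := hLp
              _ ≤ (N : ℝ) ^ (1 / 2 : ℝ) :=
                  Real.rpow_le_rpow_of_exponent_le (by exact_mod_cast hN1) (by norm_num)
          gcongr
      _ = N := by
          rw [← Real.rpow_add hN0]
          norm_num
  have h8 : S * H ≤ Δ / 1000 := by
    calc S * H ≤ (2 * L) * (Δ / L / 5000) := by gcongr
      _ = Δ / 2500 := by
          field_simp
          ring
      _ ≤ Δ / 1000 := by linarith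
  have h9 : κ * (S * Δ) ≤ (cnt n y₁ y₂ : ℝ) * Real.log n ^ 2 := by
    have k1 : β * (S * (Δ - 2 * H)) = β * (S * Δ) - 2 * (β * (S * H)) := by ring
    rw [k1] at h6
    have k3 : β * (S * H) ≤ 1 * (S * H) := mul_le_mul_of_nonneg_right hβ (by positivity)
    have k4 : (κ + 1 / 200) * (S * Δ) ≤ β * (S * Δ) := mul_le_mul_of_nonneg_right hκ (by positivity)
    rw [add_mul] at k4
    have k2 : (N : ℝ) / L ^ (2 * A + 4) ≤ Δ / 1000 := by
      have : Δ / L / 10000 ≤ Δ / L := div_le_self (by positivity) (by norm_num)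
      linarith
    linarith
  have h10 : S * Δ / Real.log n ^ 2 * Real.log n ^ 2 = S * Δ := div_mul_cancel₀ _ (by positivity)
  have h11 : 0 < Real.log n ^ 2 := by positivity
  have h12' : κ * (S * Δ / Real.log n ^ 2) * Real.log n ^ 2 ≤ (cnt n y₁ y₂ : ℝ) * Real.log n ^ 2 := by
    rw [mul_assoc, h10]
    linarith
  exact le_of_mul_le_mul_right h12' h11

theorem mainE {α c₂ : ℝ} (h1 : 1 / 6 ≤ α) (h2 : α ≤ 1 / 4) (h3 : 1 / 4 ≤ c₂) (h4 : c₂ + 1 / 100 ≤ (1 - α) / 2)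
    (h5 : c₂ ≤ 388 / 1000 ∨ 1 / 5 ≤ α) {h₀ κ : ℝ} (hh0 : 0 ≤ h₀) (hh1 : h₀ ≤ 1) (hκ : κ + 1 / 200 ≤ 99 / 100 * h₀)
    (hκ0 : 0 ≤ κ) (hden : ∀ B : ℕ, 1 ≤ B → DenT (WF α c₂ B) h₀ B) (ρ : ℝ) (hρ : 0 < ρ) (A T : ℕ) :
    ∃ N₀ : ℕ, ∀ N : ℕ, N₀ ≤ N → ∀ q : ℕ, 1 ≤ q → (q : ℝ) ≤ (N : ℝ) ^ (1 - α - ρ) → ∀ a : ℕ,
      (Nat.gcd a q : ℝ) ≤ Real.log N ^ T →
        ((badc (WinK κ A) N q a).card : ℝ) ≤ (N : ℝ) / (q * Real.log N ^ A) := by
  classical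
  obtain ⟨V, hV⟩ : ∃ V, V = 2 * A + 4 := ⟨_, rfl⟩
  obtain ⟨B, hB⟩ := errLA h1 (by linarith) (fam h1 h2 h3 h4 h5 (B := V + 8) (by omega)) hρ (A + 3 * V + 8) T (V + 4)
  obtain ⟨E1, hE1⟩ : ∃ E1, E1 = max B (V + 8) := ⟨_, rfl⟩
  obtain ⟨N₁, hM1⟩ := hB (E1 + 1)
  obtain ⟨N₂, hM2⟩ := gridE h1 h2 h3 h4 h5 hh0 hh1 V E1 (by rw [hE1]; exact le_max_right _ _)
    (hden (V + 8) (by omega))
  obtain ⟨N₃, hM3⟩ := winK_of_grid (κ := κ) (β := 99 / 100 * h₀) hκ (by linarith) hκ0 A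
  obtain ⟨N₄, hM4⟩ := Filter.eventually_atTop.1 (ev_log (V + A + 4) (s := 1 / 6) (by norm_num) 100)
  refine ⟨N₁ + N₂ + N₃ + N₄ + 3, fun N hN q hq1 hqN a ha => ?_⟩
  have : NeZero q := ⟨by omega⟩
  have hN1 : 1 ≤ N := by omega
  have hN0 : (0 : ℝ) < N := by exact_mod_cast hN1
  have hN1r : (1 : ℝ) ≤ N := by exact_mod_cast hN1
  obtain ⟨hL100, hLp⟩ := hM4 N (by omega)
  have c1 := hM1 N (by omega)
  have c2 := hM2 N (by omega)
  have c3 := hM3 N (by omega)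
  obtain ⟨L, hLd⟩ : ∃ L, L = Real.log (N : ℝ) := ⟨_, rfl⟩
  rw [← hLd] at c1 c2 c3 hL100 hLp ha ⊢
  have hL0 : 0 < L := by linarith
  have hL1 : 1 ≤ L := by linarith
  have hq0 : (0 : ℝ) < q := by exact_mod_cast hq1
  -- the parameter `z`
  obtain ⟨z, hz⟩ : ∃ z, z = ⌈L ^ E1⌉₊ := ⟨_, rfl⟩
  have hzlo : L ^ E1 ≤ z := by rw [hz]; exact Nat.le_ceil _
  have hL1B : 1 ≤ L ^ E1 := one_le_pow₀ hL1
  have hzhi : (z : ℝ) ≤ L ^ (E1 + 1) := by
    have := Nat.ceil_lt_add_one (show 0 ≤ L ^ E1 by positivity)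
    rw [← hz] at this
    calc (z : ℝ) ≤ L ^ E1 + 1 := this.le
      _ ≤ L ^ E1 + L ^ E1 := by linarith
      _ = 2 * L ^ E1 := by ring
      _ ≤ L * L ^ E1 := mul_le_mul_of_nonneg_right (by linarith) (by positivity)
      _ = L ^ (E1 + 1) := by ring
  have hzB : L ^ B ≤ z := (pow_le_pow_right₀ hL1 (by rw [hE1]; exact le_max_left _ _)).trans hzlo
  obtain ⟨r, hPar, hsum, hms⟩ := c1 z hzB hzhi
  have c2' := c2 z r hzlo hzhi hsum
  -- the grid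
  obtain ⟨Tg, hTg⟩ : ∃ Tg, Tg = ⌈L ^ V⌉₊ := ⟨_, rfl⟩
  have hT1 : L ^ V ≤ Tg := by rw [hTg]; exact Nat.le_ceil _
  have hLV : 1 ≤ L ^ V := one_le_pow₀ hL1
  have hT2 : (Tg : ℝ) ≤ L ^ V + 1 := by
    rw [hTg]
    exact (Nat.ceil_lt_add_one (by positivity)).le
  have hTpos : 0 < Tg := by
    have : (0 : ℝ) < Tg := by linarith
    exact_mod_cast this
  obtain ⟨H, hH⟩ : ∃ H, H = N / Tg + 1 := ⟨_, rfl⟩
  have hH1 : 1 ≤ H := by rw [hH]; exact Nat.le_add_left 1 _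
  have hpow1 : (N : ℝ) ^ (1 / 6 : ℝ) ≤ N := by
    calc (N : ℝ) ^ (1 / 6 : ℝ) ≤ (N : ℝ) ^ (1 : ℝ) := Real.rpow_le_rpow_of_exponent_le hN1r (by norm_num)
      _ = N := Real.rpow_one _
  have hHr : (H : ℝ) ≤ 2 * (N / L ^ V) := by
    rw [hH]
    push_cast
    have e1 : ((N / Tg : ℕ) : ℝ) ≤ N / L ^ V := by
      calc ((N / Tg : ℕ) : ℝ) ≤ (N : ℝ) / Tg := Nat.cast_div_le
        _ ≤ N / L ^ V := div_le_div_of_nonneg_left hN0.le (by positivity) hT1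
    have e2 : 1 ≤ (N : ℝ) / L ^ V := by
      rw [le_div_iff₀ (by positivity), one_mul]
      exact (pow_le_pow_right₀ hL1 (by omega)).trans (hLp.trans hpow1)
    linarith
  have hjT : ∀ j : ℕ, j * H ≤ N → j < Tg + 1 := by
    intro j hj
    by_contra hcon
    have e1 : (Tg + 1) * H ≤ j * H := Nat.mul_le_mul_right _ (by omega)
    have e2 : N < Tg * H := by
      rw [hH]
      have := Nat.lt_mul_div_succ N hTpos
      exact this
    have e3 : Tg * H ≤ (Tg + 1) * H := Nat.mul_le_mul_right _ (by omega)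
    omega
  have hgcd : ((Nat.gcd (ZMod.val (a : ZMod q)) q : ℕ) : ℝ) ≤ L ^ T := by
    rw [ZMod.val_natCast, ← Nat.gcd_rec, Nat.gcd_comm]
    exact ha
  -- the size of q
  have hqs : (q : ℝ) * L ^ (A + 1) ≤ N := by
    have e1 : (q : ℝ) ≤ (N : ℝ) ^ (5 / 6 : ℝ) :=
      hqN.trans (Real.rpow_le_rpow_of_exponent_le hN1r (by linarith))
    have e2 : L ^ (A + 1) ≤ (N : ℝ) ^ (1 / 6 : ℝ) := (pow_le_pow_right₀ hL1 (by omega)).trans hLp
    calc (q : ℝ) * L ^ (A + 1) ≤ (N : ℝ) ^ (5 / 6 : ℝ) * (N : ℝ) ^ (1 / 6 : ℝ) := by gcongr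
      _ = N := by rw [← Real.rpow_add hN0]; norm_num
  obtain ⟨Bd, hBd⟩ : ∃ Bd, Bd = badc (WinK κ A) N q a := ⟨_, rfl⟩
  rw [← hBd]
  have hmem : ∀ n ∈ Bd, 1 ≤ n ∧ n ≤ N ∧ 2 ∣ n ∧ n % q = a % q ∧ ¬ WinK κ A n := by
    intro n hn
    rw [hBd] at hn
    unfold badc at hn
    rw [mem_filter, mem_Icc] at hn
    exact ⟨hn.1.1, hn.1.2, hn.2.1, hn.2.2.1, hn.2.2.2⟩
  obtain ⟨B1s, hB1s⟩ : ∃ B1s, B1s = Bd.filter (fun n : ℕ => (n : ℝ) < N / L ^ (A + 1)) := ⟨_, rfl⟩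
  obtain ⟨B2s, hB2s⟩ : ∃ B2s, B2s = Bd.filter (fun n : ℕ => ¬ (n : ℝ) < N / L ^ (A + 1)) := ⟨_, rfl⟩
  have hcard : B1s.card + B2s.card = Bd.card := by
    rw [hB1s, hB2s]; exact card_filter_add_card_filter_not _
  have hone : (1 : ℝ) ≤ N / (q * L ^ (A + 1)) := by rw [_root_.one_le_div (by positivity)]; exact hqs
  have hB1c : (B1s.card : ℝ) ≤ 2 * (N / (q * L ^ (A + 1))) := by
    have h3 := class_le N q a hq1 B1s (N / L ^ (A + 1)) (by positivity) (by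
      intro n hn
      rw [hB1s, mem_filter] at hn
      obtain ⟨a1, a2, a3, a4, a5⟩ := hmem n hn.1
      exact ⟨a4, hn.2.le⟩)
    have e1 : (N : ℝ) / L ^ (A + 1) / q = N / (q * L ^ (A + 1)) := by rw [div_div, mul_comm]
    rw [e1] at h3
    linarith
  -- the second part
  obtain ⟨J, hJ⟩ : ∃ J, J = (range (Tg + 1)).filter (fun j => j * H ≤ N) := ⟨_, rfl⟩
  obtain ⟨E2, hE2⟩ : ∃ E2 : ℕ → ℕ → ℝ, E2 = fun n y =>
    ‖cv LA (f1 N (Za α N) (gF α c₂ (V + 8) N) (WF α c₂ (V + 8) N) z r) y N n‖ ^ 2 := ⟨_, rfl⟩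
  have hE2nn : ∀ n y, 0 ≤ E2 n y := fun n y => by rw [hE2]; positivity
  have hterm : ∀ n ∈ B2s, ((N : ℝ) / L ^ (V + 2)) ^ 2 ≤ ∑ j ∈ J, E2 n (j * H) := by
    intro n hn
    rw [hB2s, mem_filter, not_lt] at hn
    obtain ⟨a1, a2, a3, a4, a5⟩ := hmem n hn.1
    by_contra hcon
    rw [not_le] at hcon
    have hsm : ∀ j : ℕ, j * H < n →
        ‖cv LA (f1 N (Za α N) (gF α c₂ (V + 8) N) (WF α c₂ (V + 8) N) z r) (j * H) N n‖ ≤
          N / L ^ (V + 2) := by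
      intro j hj
      by_contra hns
      rw [not_le] at hns
      have k1 : ((N : ℝ) / L ^ (V + 2)) ^ 2 ≤ E2 n (j * H) := by
        rw [hE2]
        exact pow_le_pow_left₀ (by positivity) hns.le 2
      have k2 : E2 n (j * H) ≤ ∑ j ∈ J, E2 n (j * H) := by
        refine single_le_sum (f := fun j => E2 n (j * H)) (fun _ _ => hE2nn _ _) ?_
        rw [hJ, mem_filter, mem_range]
        exact ⟨hjT j (by omega), by omega⟩
      linarith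
    have hS2 := (c2' n a2 a3 (by omega) 0 0 le_rfl (by omega) (by
      have := hsm 0 (by omega)
      rwa [zero_mul] at this) (by
      have := hsm 0 (by omega)
      rwa [zero_mul] at this)).2
    apply a5
    rw [hV] at hHr
    refine c3 H hH1 hHr n a2 hn.2 hS2 ?_
    intro i j hij hj
    have hle : i * H ≤ j * H := Nat.mul_le_mul_right _ hij
    have := (c2' n a2 a3 (by omega) (i * H) (j * H) hle hj (hsm i (by omega)) (hsm j hj)).1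
    rw [hV, ← mul_assoc] at this
    exact this
  have hcls : ∀ n ∈ B2s, n ∈ (Icc 1 (2 * N)).filter (fun n : ℕ => (n : ZMod q) = (a : ZMod q)) := by
    intro n hn
    rw [hB2s, mem_filter] at hn
    obtain ⟨a1, a2, a3, a4, a5⟩ := hmem n hn.1
    rw [mem_filter, mem_Icc]
    exact ⟨⟨a1, by omega⟩, (ZMod.natCast_eq_natCast_iff' n a q).2 a4⟩
  obtain ⟨R, hR⟩ : ∃ R : ℝ, R = (N : ℝ) ^ 3 / (q * L ^ (A + 3 * V + 8)) := ⟨_, rfl⟩
  have hR0 : 0 < R := by rw [hR]; positivity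
  have hEsum : ∀ j ∈ J, ∑ n ∈ (Icc 1 (2 * N)).filter (fun n : ℕ => (n : ZMod q) = (a : ZMod q)),
      E2 n (j * H) ≤ 4 * R := by
    intro j hj
    rw [hJ, mem_filter] at hj
    have k1 := hms q hqN (a : ZMod q) hgcd (j * H) N hj.2 le_rfl
    rw [← hR] at k1
    rw [hE2]
    linarith
  have hJc : (J.card : ℝ) ≤ 3 * L ^ V := by
    have e1 : J.card ≤ Tg + 1 := by
      rw [hJ]
      exact (card_filter_le _ _).trans (card_range _).le
    have e2 : (J.card : ℝ) ≤ Tg + 1 := by exact_mod_cast e1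
    linarith
  have hsum2 : (B2s.card : ℝ) * (N / L ^ (V + 2)) ^ 2 ≤ 12 * L ^ V * R := by
    calc (B2s.card : ℝ) * (N / L ^ (V + 2)) ^ 2 = ∑ _n ∈ B2s, ((N : ℝ) / L ^ (V + 2)) ^ 2 := by
          rw [sum_const, nsmul_eq_mul]
      _ ≤ ∑ n ∈ B2s, ∑ j ∈ J, E2 n (j * H) := sum_le_sum hterm
      _ ≤ ∑ n ∈ (Icc 1 (2 * N)).filter (fun n : ℕ => (n : ZMod q) = (a : ZMod q)),
          ∑ j ∈ J, E2 n (j * H) :=
          sum_le_sum_of_subset_of_nonneg hcls fun n _ _ => sum_nonneg fun j _ => hE2nn _ _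
      _ = ∑ j ∈ J, ∑ n ∈ (Icc 1 (2 * N)).filter (fun n : ℕ => (n : ZMod q) = (a : ZMod q)),
          E2 n (j * H) := sum_comm
      _ ≤ ∑ j ∈ J, 4 * R := sum_le_sum hEsum
      _ = (J.card : ℝ) * (4 * R) := by rw [sum_const, nsmul_eq_mul]
      _ ≤ (3 * L ^ V) * (4 * R) := by gcongr
      _ = _ := by ring
  have hB2c : (B2s.card : ℝ) ≤ N / (q * L ^ (A + 2)) := by
    have h4 : 12 * L ^ V * R ≤ (N / (q * L ^ (A + 2))) * (N / L ^ (V + 2)) ^ 2 := by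
      have e1 : (N / (q * L ^ (A + 2))) * (N / L ^ (V + 2)) ^ 2 =
          (N : ℝ) ^ 3 / (q * L ^ (A + 3 * V + 8)) * (L ^ V * L ^ 2) := by
        have e2 : L ^ (A + 3 * V + 8) = L ^ A * (L ^ V) ^ 3 * L ^ 8 := by
          rw [← pow_mul, ← pow_add, ← pow_add]
          congr 1
          ring
        rw [e2, pow_add, pow_add]
        have e0 : L ^ V ≠ 0 := by positivity
        have e3 : L ^ A ≠ 0 := by positivity
        generalize L ^ V = X at e0 ⊢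
        generalize L ^ A = Y at e3 ⊢
        field_simp
      rw [e1, ← hR]
      have e4 : (12 : ℝ) ≤ L ^ 2 := by nlinarith
      calc 12 * L ^ V * R = R * (L ^ V * 12) := by ring
        _ ≤ R * (L ^ V * L ^ 2) := by gcongr
    exact le_of_mul_le_mul_right (hsum2.trans h4) (by positivity)
  have h3 : (B1s.card : ℝ) + B2s.card = Bd.card := by exact_mod_cast hcard
  have h4 : (N : ℝ) / (q * L ^ (A + 1)) = N / (q * L ^ A) / L := by
    rw [pow_succ, ← mul_assoc, ← div_div]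
  have h5 : (N : ℝ) / (q * L ^ (A + 2)) = N / (q * L ^ A) / L / L := by
    rw [pow_succ, pow_succ, ← mul_assoc, ← mul_assoc, ← div_div, ← div_div]
  have h6 : 0 ≤ (N : ℝ) / (q * L ^ A) := by positivity
  have h7 : (N : ℝ) / (q * L ^ A) / L ≤ N / (q * L ^ A) / 100 := div_le_div_of_nonneg_left h6 (by norm_num) hL100
  have h8 : (N : ℝ) / (q * L ^ A) / L / L ≤ N / (q * L ^ A) / L := div_le_self (by positivity) hL1
  rw [h4] at hB1c
  rw [h5] at hB2c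
  linarith

lemma winK_mono {κ : ℝ} {A B m : ℕ} (hAB : A ≤ B) (hm : 1 ≤ Real.log m) (h : WinK κ B m) : WinK κ A m := by
  intro y₁ y₂ h1 h2 h3
  refine h y₁ y₂ h1 h2 (le_trans ?_ h3)
  exact div_le_div_of_nonneg_left (Nat.cast_nonneg _) (by positivity) (pow_le_pow_right₀ hm hAB)

/-- the main theorem for real `x`, integral classes and an arbitrary consequence of the property `WinK` -/
theorem class_fewE {θ κ : ℝ} (hθ : θ ≤ 5 / 6)
    (hmain : ∀ ρ : ℝ, 0 < ρ → ∀ A T : ℕ, ∃ N₀ : ℕ, ∀ N : ℕ, N₀ ≤ N → ∀ q : ℕ, 1 ≤ q →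
      (q : ℝ) ≤ (N : ℝ) ^ (θ - ρ) → ∀ a : ℕ, (Nat.gcd a q : ℝ) ≤ Real.log N ^ T →
        ((badc (WinK κ A) N q a).card : ℝ) ≤ (N : ℝ) / (q * Real.log N ^ A))
    (Q : ℕ → Prop) (W : ℕ) (hQ : ∃ n₀ : ℕ, ∀ n : ℕ, n₀ ≤ n → 2 ∣ n → WinK κ W n → Q n)
    (ρ : ℝ) (hρ : 0 < ρ) (A T : ℕ) :
    ∃ x₀ : ℝ, ∀ x : ℝ, x₀ ≤ x → ∀ q : ℕ, 1 ≤ q → (q : ℝ) ≤ x ^ (θ - ρ) → ∀ a : ℤ,
      (Int.gcd a q : ℝ) ≤ Real.log x ^ T →
        ({n : ℕ | 0 < n ∧ (n : ℝ) ≤ x ∧ 2 ∣ n ∧ (n : ℤ) ≡ a [ZMOD q] ∧ ¬ Q n}).Finite ∧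
        (({n : ℕ | 0 < n ∧ (n : ℝ) ≤ x ∧ 2 ∣ n ∧ (n : ℤ) ≡ a [ZMOD q] ∧ ¬ Q n}.ncard : ℕ) : ℝ) ≤
          x / (q * Real.log x ^ A) := by
  classical
  obtain ⟨n₀', hn₀'⟩ := hQ
  obtain ⟨n₀, hn₀⟩ : ∃ n₀ : ℕ, n₀ = n₀' + 3 := ⟨_, rfl⟩
  obtain ⟨A', hA'⟩ : ∃ A', A' = A + 2 + W := ⟨_, rfl⟩
  obtain ⟨N₀, h0⟩ := hmain (ρ / 2) (by linarith) A' (T + 1)
  obtain ⟨x₁, hx₁⟩ : ∃ x₁ : ℝ, ∀ x : ℝ, x₁ ≤ x → 2 ^ (2 * A' + 6) + 2 * 2 ^ T ≤ Real.log x := by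
    have h := Real.tendsto_log_atTop.eventually_ge_atTop (2 ^ (2 * A' + 6) + 2 * 2 ^ T : ℝ)
    exact Filter.eventually_atTop.1 h
  obtain ⟨x₂, hx₂4, hx₂⟩ := pow_range θ ρ hρ (by linarith)
  obtain ⟨x₃, hx₃⟩ := Filter.eventually_atTop.1
    (real_log (A + 1) (s := 1 / 6) (by norm_num) (2 * (n₀ + 1)))
  refine ⟨max (max (max ((N₀ : ℝ) + 4) x₁) x₂) x₃, fun x hx => ?_⟩
  have hxN : (N₀ : ℝ) + 4 ≤ x :=
    (le_max_left _ _).trans ((le_max_left _ _).trans ((le_max_left _ _).trans hx))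
  have hlx' := hx₁ x ((le_max_right _ _).trans ((le_max_left _ _).trans ((le_max_left _ _).trans hx)))
  have hrange := hx₂ x ((le_max_right _ _).trans ((le_max_left _ _).trans hx))
  have h2T : (0 : ℝ) < 2 * 2 ^ T := by positivity
  have h2A : (0 : ℝ) < 2 ^ (2 * A' + 6) := by positivity
  have hlx : (2 : ℝ) ^ (2 * A' + 6) ≤ Real.log x := by linarith
  have hN₀r : (0 : ℝ) ≤ N₀ := Nat.cast_nonneg _
  have hx4 : 4 ≤ x := by linarith
  have hx0 : 0 < x := by linarith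
  obtain ⟨N, hN⟩ : ∃ N, N = ⌊x⌋₊ := ⟨_, rfl⟩
  rw [← hN] at hrange
  have hNx : (N : ℝ) ≤ x := by rw [hN]; exact Nat.floor_le hx0.le
  have hxN1 : x < N + 1 := by rw [hN]; exact Nat.lt_floor_add_one x
  have hN0 : (0 : ℝ) < N := by linarith
  have hNN₀ : N₀ ≤ N := by
    rw [hN]
    exact Nat.le_floor (by linarith)
  obtain ⟨l, hl⟩ : ∃ l, l = Real.log x := ⟨_, rfl⟩
  obtain ⟨L, hL⟩ : ∃ L, L = Real.log N := ⟨_, rfl⟩
  have h64 : (64 : ℝ) ≤ 2 ^ (2 * A' + 6) := by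
    calc (64 : ℝ) = 2 ^ 6 := by norm_num
      _ ≤ 2 ^ (2 * A' + 6) := pow_le_pow_right₀ (by norm_num) (by omega)
  rw [← hl] at hlx hlx'
  have hl64 : 64 ≤ l := by linarith
  have hLl : L ≤ l := by rw [hL, hl]; exact Real.log_le_log hN0 hNx
  have hlL : l / 2 ≤ L := by
    have h1 : x / 2 ≤ N := by linarith
    have h2 : Real.log (x / 2) ≤ L := by rw [hL]; exact Real.log_le_log (by linarith) h1
    rw [Real.log_div hx0.ne' (by norm_num), ← hl] at h2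
    have h3 := Real.log_two_lt_d9
    linarith
  have hL0 : 0 < L := by linarith
  have hl0 : 0 < l := by linarith
  have hpow : 8 * l ^ A ≤ L ^ A' := by
    have hL1 : 1 ≤ L := by linarith
    refine le_trans ?_ (pow_le_pow_right₀ hL1 (show A + 2 ≤ A' by omega))
    have h1 : (l / 2) ^ (A + 2) ≤ L ^ (A + 2) := pow_le_pow_left₀ (by linarith) hlL _
    refine le_trans ?_ h1
    rw [div_pow, le_div_iff₀ (by positivity), pow_add l A 2]
    have h2 : (8 : ℝ) * 2 ^ (A + 2) ≤ l ^ 2 := by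
      calc (8 : ℝ) * 2 ^ (A + 2) = 2 ^ (A + 5) := by rw [show A + 5 = 3 + (A + 2) by ring, pow_add 2 3]; norm_num
        _ ≤ 2 ^ (2 * A' + 6) := pow_le_pow_right₀ (by norm_num) (by omega)
        _ ≤ l := hlx
        _ ≤ l ^ 2 := by nlinarith
    calc 8 * l ^ A * 2 ^ (A + 2) = l ^ A * (8 * 2 ^ (A + 2)) := by ring
      _ ≤ l ^ A * l ^ 2 := mul_le_mul_of_nonneg_left h2 (by positivity)
  have hTT : l ^ T ≤ L ^ (T + 1) := by
    have h1 : l ^ T ≤ (2 * L) ^ T := pow_le_pow_left₀ hl0.le (by linarith) T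
    rw [mul_pow] at h1
    refine h1.trans ?_
    rw [pow_succ' L T]
    exact mul_le_mul_of_nonneg_right (by linarith) (by positivity)
  intro q hq hqx a ha
  have hq0 : (0 : ℝ) < q := by exact_mod_cast hq
  obtain ⟨a', ha'⟩ : ∃ a', a' = (a % (q : ℤ)).toNat := ⟨_, rfl⟩
  have hcon := h0 N hNN₀ q hq (hqx.trans hrange) a' (by
    rw [ha', gcd_toNat q a hq, ← hL]
    rw [← hl] at ha
    exact ha.trans hTT)
  rw [← hL] at hcon
  obtain ⟨S, hS⟩ : ∃ S, S = badc (WinK κ A') N q a' := ⟨_, rfl⟩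
  rw [← hS] at hcon
  obtain ⟨S', hS'⟩ : ∃ S' : Finset ℕ, S' = (Icc 1 n₀).filter (fun n => n % q = a' % q) := ⟨_, rfl⟩
  have hS'c : (S'.card : ℝ) ≤ (n₀ : ℝ) / q + 1 := by
    apply class_le N q a' hq S' (n₀ : ℝ) (Nat.cast_nonneg _)
    intro n hn
    rw [hS', mem_filter, mem_Icc] at hn
    exact ⟨hn.2, by exact_mod_cast hn.1.2⟩
  have hsub : {n : ℕ | 0 < n ∧ (n : ℝ) ≤ x ∧ 2 ∣ n ∧ (n : ℤ) ≡ a [ZMOD q] ∧ ¬ Q n} ⊆
      ((S ∪ S' : Finset ℕ) : Set ℕ) := by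
    rintro n ⟨a1, a2, a3, a4, a5⟩
    have hmod := mod_iff' n q a hq a4
    rw [← ha'] at hmod
    rw [mem_coe, mem_union]
    by_cases hn : n ≤ n₀
    · right
      rw [hS', mem_filter, mem_Icc]
      exact ⟨⟨a1, hn⟩, hmod⟩
    · left
      rw [hS]
      refine mem_filter.2 ⟨mem_Icc.2 ⟨a1, ?_⟩, a3, hmod, ?_⟩
      · rw [hN]; exact Nat.le_floor a2
      · intro hw
        apply a5
        refine hn₀' n (by omega) a3 (winK_mono (show W ≤ A' by omega) ?_ hw)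
        have h3 : (3 : ℝ) ≤ n := by exact_mod_cast (by omega : 3 ≤ n)
        rw [Real.le_log_iff_exp_le (by linarith)]
        have := Real.exp_one_lt_d9
        linarith
  have hfin := (Finset.finite_toSet (S ∪ S')).subset hsub
  refine ⟨hfin, ?_⟩
  have h1 : (({n : ℕ | 0 < n ∧ (n : ℝ) ≤ x ∧ 2 ∣ n ∧ (n : ℤ) ≡ a [ZMOD q] ∧ ¬ Q n}.ncard : ℕ) : ℝ) ≤
      (S.card : ℝ) + S'.card := by
    have h2 := Set.ncard_le_ncard hsub (Finset.finite_toSet _)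
    rw [Set.ncard_coe_finset] at h2
    have h3 := card_union_le S S'
    exact_mod_cast h2.trans h3
  rw [← hl]
  have hlA : 0 < l ^ A := by positivity
  have hfirst : (N : ℝ) / (q * L ^ A') ≤ x / (q * l ^ A) / 8 := by
    rw [div_div, div_le_div_iff₀ (by positivity) (by positivity)]
    calc (N : ℝ) * (q * l ^ A * 8) ≤ x * (q * l ^ A * 8) :=
          mul_le_mul_of_nonneg_right hNx (by positivity)
      _ = (x * q) * (8 * l ^ A) := by ring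
      _ ≤ (x * q) * L ^ A' := mul_le_mul_of_nonneg_left hpow (by positivity)
      _ = x * (q * L ^ A') := by ring
  -- the small exceptions
  have hsecond : (n₀ : ℝ) / q + 1 ≤ x / (q * l ^ A) / 2 := by
    obtain ⟨e1, e2⟩ := hx₃ x ((le_max_right _ _).trans hx)
    rw [← hl] at e1 e2
    have e3 : (n₀ : ℝ) / q ≤ n₀ := div_le_self (Nat.cast_nonneg _) (by exact_mod_cast hq)
    have e4 : x ^ (1 / 6 : ℝ) * q ≤ x := by
      calc x ^ (1 / 6 : ℝ) * q ≤ x ^ (1 / 6 : ℝ) * x ^ (θ - ρ) :=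
            mul_le_mul_of_nonneg_left hqx (by positivity)
        _ = x ^ (1 / 6 + (θ - ρ)) := by rw [← Real.rpow_add hx0]
        _ ≤ x ^ (1 : ℝ) := Real.rpow_le_rpow_of_exponent_le (by linarith) (by linarith)
        _ = x := Real.rpow_one x
    have e5 : ((n₀ : ℝ) + 1) * (2 * (q * l ^ A)) ≤ x := by
      calc ((n₀ : ℝ) + 1) * (2 * (q * l ^ A)) = (2 * (n₀ + 1)) * l ^ A * q := by ring
        _ ≤ l * l ^ A * q := by gcongr
        _ = l ^ (A + 1) * q := by rw [pow_succ']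
        _ ≤ x ^ (1 / 6 : ℝ) * q := mul_le_mul_of_nonneg_right e2 hq0.le
        _ ≤ x := e4
    rw [div_div, show (q : ℝ) * l ^ A * 2 = 2 * (q * l ^ A) by ring, le_div_iff₀ (by positivity)]
    refine le_trans ?_ e5
    exact mul_le_mul_of_nonneg_right (by linarith) (by positivity)
  have hpos : 0 ≤ x / (q * l ^ A) := by positivity
  linarith

end Pool.Agent.J4H40
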