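import Pool.Agent.J4H40.Qg

set_option autoImplicit false

/-! Sums over primes and over products of two primes. -/

namespace Pool.Agent.J4H40

open Finset Filter

/-- the primes with the logarithm between `u` and `v` -/
noncomputable def PL (u v : ℝ) : Finset ℕ := (Ioc ⌊Real.exp u⌋₊ ⌊Real.exp v⌋₊).filter Nat.Prime

lemma mem_PL {u v : ℝ} {p : ℕ} : p ∈ PL u v ↔ p.Prime ∧ u < Real.log p ∧ Real.log p ≤ v := by
  unfold PL
  rw [mem_filter, mem_Ioc]
  constructor
  · rintro ⟨⟨h1, h2⟩, hp⟩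
    have hp0 : (0 : ℝ) < p := by exact_mod_cast hp.pos
    refine ⟨hp, ?_, ?_⟩
    · rw [Real.lt_log_iff_exp_lt hp0]
      exact (Nat.floor_lt (Real.exp_pos u).le).1 h1
    · rw [Real.log_le_iff_le_exp hp0]
      exact (Nat.le_floor_iff (Real.exp_pos v).le).1 h2
  · rintro ⟨hp, h1, h2⟩
    have hp0 : (0 : ℝ) < p := by exact_mod_cast hp.pos
    refine ⟨⟨?_, ?_⟩, hp⟩
    · rw [Nat.floor_lt (Real.exp_pos u).le]
      exact (Real.lt_log_iff_exp_lt hp0).1 h1
    · rw [Nat.le_floor_iff (Real.exp_pos v).le]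
      exact (Real.log_le_iff_le_exp hp0).1 h2

lemma PL_mono {u v u' v' : ℝ} (h1 : u' ≤ u) (h2 : v ≤ v') : PL u v ⊆ PL u' v' := by
  intro p hp
  rw [mem_PL] at hp ⊢
  exact ⟨hp.1, lt_of_le_of_lt h1 hp.2.1, hp.2.2.trans h2⟩

/-- the theorem of Mertens -/
lemma mert {ε : ℝ} (hε : 0 < ε) : ∃ U₀ : ℝ, ∀ u v ρ : ℝ, U₀ ≤ u → 1 ≤ ρ → v ≤ ρ * u →
    ∑ p ∈ PL u v, (1 : ℝ) / p ≤ Real.log ρ + ε := by
  obtain ⟨C, hC0, hC⟩ := Pool.Agent.Helper923.HMertens.mertens_ratio
  refine ⟨3 + (C + 1) / ε, fun u v ρ hu hρ hv => ?_⟩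
  have hCe : 0 ≤ (C + 1) / ε := by positivity
  have hu3 : 3 ≤ u := by linarith
  have huv : u ≤ ρ * u := by nlinarith
  refine (sum_le_sum_of_subset_of_nonneg (PL_mono le_rfl hv) fun _ _ _ => by positivity).trans ?_
  obtain ⟨a, ha⟩ : ∃ a, a = ⌊Real.exp u⌋₊ := ⟨_, rfl⟩
  obtain ⟨b, hb⟩ : ∃ b, b = ⌊Real.exp (ρ * u)⌋₊ := ⟨_, rfl⟩
  have hexp : 4 ≤ Real.exp u := by
    have := Real.add_one_le_exp u
    linarith
  have ha1 : Real.exp u < a + 1 := by rw [ha]; exact Nat.lt_floor_add_one _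
  have ha3 : (3 : ℝ) < a := by linarith
  have ha2 : 2 ≤ a := by
    have : 3 < a := by exact_mod_cast ha3
    omega
  have hab : a ≤ b := by
    rw [ha, hb]
    exact Nat.floor_le_floor (Real.exp_le_exp.2 huv)
  have h := (abs_le.1 (hC a b ha2 hab)).2
  have e1 : PL u (ρ * u) = (Ioc a b).filter Nat.Prime := by rw [ha, hb]; rfl
  rw [e1]
  -- the logarithms
  have la : u - 1 ≤ Real.log a := by
    have h1 : Real.exp u ≤ 2 * a := by linarith
    have h2 := Real.log_le_log (Real.exp_pos u) h1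
    rw [Real.log_exp, Real.log_mul (by norm_num) (by linarith)] at h2
    have := Real.log_two_lt_d9
    linarith
  have la0 : 0 < Real.log a := by linarith
  have lb : Real.log b ≤ ρ * u := by
    have hb0 : (0 : ℝ) < b := by
      have : (a : ℝ) ≤ b := by exact_mod_cast hab
      linarith
    rw [Real.log_le_iff_le_exp hb0, hb]
    exact Nat.floor_le (Real.exp_pos _).le
  have lb0 : 0 < Real.log b := lt_of_lt_of_le la0 (Real.log_le_log (by linarith) (by exact_mod_cast hab))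
  have e2 : Real.log (Real.log b / Real.log a) ≤ Real.log ρ + 1 / (u - 1) := by
    have g1 : Real.log b / Real.log a ≤ ρ * (1 + 1 / (u - 1)) := by
      rw [div_le_iff₀ la0]
      have g2 : (1 + 1 / (u - 1)) * (u - 1) = u := by
        have : u - 1 ≠ 0 := by linarith
        field_simp
        ring
      have g3 : 0 ≤ ρ * (1 + 1 / (u - 1)) := by
        have : 0 < u - 1 := by linarith
        positivity
      calc Real.log b ≤ ρ * u := lb
        _ = ρ * (1 + 1 / (u - 1)) * (u - 1) := by rw [mul_assoc, g2]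
        _ ≤ ρ * (1 + 1 / (u - 1)) * Real.log a := mul_le_mul_of_nonneg_left la g3
    have g4 : 0 < 1 + 1 / (u - 1) := by
      have : 0 < u - 1 := by linarith
      positivity
    refine (Real.log_le_log (div_pos lb0 la0) g1).trans ?_
    rw [Real.log_mul (by linarith) g4.ne']
    have g5 := Real.log_le_sub_one_of_pos g4
    linarith
  have e3 : C / Real.log a ≤ C / (u - 1) := div_le_div_of_nonneg_left hC0 (by linarith) la
  have e4 : (C + 1) / (u - 1) ≤ ε := by
    rw [div_le_iff₀ (by linarith)]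
    have g1 : (C + 1) / ε * ε = C + 1 := by field_simp
    nlinarith
  have e5 : (C + 1) / (u - 1) = C / (u - 1) + 1 / (u - 1) := by ring
  linarith

/-- an upper bound for the logarithm -/
noncomputable def lb (y : ℝ) : ℝ := (y - 1 / y) / 2

lemma log_lb {y : ℝ} (hy : 1 ≤ y) : Real.log y ≤ lb y := by
  have h1 : 0 ≤ Real.log y := Real.log_nonneg hy
  have h2 := Real.self_le_sinh_iff.2 h1
  rw [Real.sinh_log (by linarith)] at h2
  unfold lb
  rw [one_div]
  exact h2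

/-- the inner sum -/
noncomputable def JJ (L u v M : ℝ) (p : ℕ) : ℝ :=
  ∑ q ∈ PL (max (u * L - Real.log p) (Real.log p)) (min (v * L - Real.log p) ((M * L - Real.log p) / 2)),
    (1 : ℝ) / q

lemma JJ_nn (L u v M : ℝ) (p : ℕ) : 0 ≤ JJ L u v M p := sum_nonneg fun _ _ => by positivity

/-- the conditions for the cells -/
def okc (u v M : ℝ) : ℝ → List (ℝ × ℝ) → Prop
  | _, [] => True
  | c, (c', ρ) :: l => c ≤ c' ∧ 1 ≤ ρ ∧
      (∀ τ : ℝ, c < τ → τ ≤ c' → min (v - τ) ((M - τ) / 2) ≤ ρ * max (u - τ) τ) ∧ okc u v M c' l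

/-- the last point -/
def endc : ℝ → List (ℝ × ℝ) → ℝ
  | c, [] => c
  | _, (c', _) :: l => endc c' l

/-- the bound -/
noncomputable def valc (ε : ℝ) : ℝ → List (ℝ × ℝ) → ℝ
  | _, [] => 0
  | c, (c', ρ) :: l => (lb (c' / c) + ε) * (lb ρ + ε) + valc ε c' l

lemma sum_PL_add {a b c : ℝ} (hab : a ≤ b) (hbc : b ≤ c) (f : ℕ → ℝ) :
    ∑ p ∈ PL a c, f p = ∑ p ∈ PL a b, f p + ∑ p ∈ PL b c, f p := by
  have e : PL a c = PL a b ∪ PL b c := by
    ext p
    rw [mem_union, mem_PL, mem_PL, mem_PL]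
    constructor
    · rintro ⟨h1, h2, h3⟩
      rcases le_or_gt (Real.log p) b with h | h
      · exact Or.inl ⟨h1, h2, h⟩
      · exact Or.inr ⟨h1, h, h3⟩
    · rintro (⟨h1, h2, h3⟩ | ⟨h1, h2, h3⟩)
      · exact ⟨h1, h2, h3.trans hbc⟩
      · exact ⟨h1, lt_of_le_of_lt hab h2, h3⟩
  have hd : Disjoint (PL a b) (PL b c) := by
    rw [disjoint_left]
    intro p h1 h2
    rw [mem_PL] at h1 h2
    linarith [h1.2.2, h2.2.1]
  rw [e, sum_union hd]

lemma endc_ge {u v M : ℝ} : ∀ (l : List (ℝ × ℝ)) (c : ℝ), okc u v M c l → c ≤ endc c l := by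
  intro l
  induction l with
  | nil => intro c _; exact le_rfl
  | cons x l ih =>
    intro c h
    obtain ⟨c', ρ⟩ := x
    exact h.1.trans (ih c' h.2.2.2)

/-- the sum over the cells -/
lemma cells_le {ε U₀ L u v M : ℝ} (hε : 0 < ε) (hU : ∀ u v ρ : ℝ, U₀ ≤ u → 1 ≤ ρ → v ≤ ρ * u →
    ∑ p ∈ PL u v, (1 : ℝ) / p ≤ Real.log ρ + ε) (hL : 0 < L) (hLU : U₀ ≤ 1 / 6 * L) :
    ∀ (l : List (ℝ × ℝ)) (c : ℝ), 1 / 6 ≤ c → okc u v M c l →
      ∑ p ∈ PL (c * L) (endc c l * L), (1 : ℝ) / p * JJ L u v M p ≤ valc ε c l := by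
  intro l
  induction l with
  | nil =>
    intro c _ _
    show ∑ p ∈ PL (c * L) (c * L), (1 : ℝ) / p * JJ L u v M p ≤ 0
    rw [sum_eq_zero]
    intro p hp
    rw [mem_PL] at hp
    linarith [hp.2.1, hp.2.2]
  | cons x l ih =>
    intro c hc h
    obtain ⟨c', ρ⟩ := x
    obtain ⟨h1, h2, h3, h4⟩ := h
    show ∑ p ∈ PL (c * L) (endc c' l * L), (1 : ℝ) / p * JJ L u v M p ≤
      (lb (c' / c) + ε) * (lb ρ + ε) + valc ε c' l
    have hc0 : 0 < c := by linarith
    rw [sum_PL_add (b := c' * L) (mul_le_mul_of_nonneg_right h1 hL.le)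
      (mul_le_mul_of_nonneg_right (endc_ge l c' h4) hL.le)]
    refine add_le_add ?_ (ih c' (hc.trans h1) h4)
    have hin : ∀ p ∈ PL (c * L) (c' * L), (1 : ℝ) / p * JJ L u v M p ≤ 1 / p * (lb ρ + ε) := by
      intro p hp
      rw [mem_PL] at hp
      apply mul_le_mul_of_nonneg_left _ (by positivity)
      unfold JJ
      have hτ : Real.log p = Real.log p / L * L := by field_simp
      obtain ⟨τ, hτd⟩ : ∃ τ, τ = Real.log p / L := ⟨_, rfl⟩
      rw [← hτd] at hτ
      have k1 : c < τ := by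
        have := hp.2.1
        rw [hτ] at this
        exact lt_of_mul_lt_mul_right this hL.le
      have k2 : τ ≤ c' := by
        have := hp.2.2
        rw [hτ] at this
        exact le_of_mul_le_mul_right this hL
      have k3 := h3 τ k1 k2
      refine (hU _ _ ρ ?_ h2 ?_).trans (add_le_add (log_lb h2) le_rfl)
      · refine hLU.trans (le_trans ?_ (le_max_right _ _))
        calc 1 / 6 * L ≤ c * L := mul_le_mul_of_nonneg_right hc hL.le
          _ ≤ Real.log p := hp.2.1.le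
      · rw [hτ]
        have e1 : min (v * L - τ * L) ((M * L - τ * L) / 2) = min (v - τ) ((M - τ) / 2) * L := by
          rw [min_mul_of_nonneg _ _ hL.le]
          congr 1
          · ring
          · ring
        have e2 : max (u * L - τ * L) (τ * L) = max (u - τ) τ * L := by
          rw [max_mul_of_nonneg _ _ hL.le]
          congr 1
          ring
        rw [e1, e2, ← mul_assoc]
        exact mul_le_mul_of_nonneg_right k3 hL.le
    refine (sum_le_sum hin).trans ?_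
    rw [← sum_mul]
    have hρ0 : 0 ≤ lb ρ + ε := by
      have := (Real.log_nonneg h2).trans (log_lb h2)
      linarith
    apply mul_le_mul_of_nonneg_right _ hρ0
    have h5 : 1 ≤ c' / c := by rw [le_div_iff₀ hc0]; linarith
    refine (hU _ _ (c' / c) ?_ h5 ?_).trans (add_le_add (log_lb h5) le_rfl)
    · exact hLU.trans (mul_le_mul_of_nonneg_right hc hL.le)
    · rw [← mul_assoc, div_mul_cancel₀ _ hc0.ne']

/-- a bound for a slice -/
def SB (u v M r : ℝ) : Prop := ∃ L₀ : ℝ, ∀ L : ℝ, L₀ ≤ L →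
  ∑ p ∈ PL (1 / 6 * L) (v / 2 * L), (1 : ℝ) / p * JJ L u v M p ≤ r

theorem sb_of {u v M r ε : ℝ} (l : List (ℝ × ℝ)) (hε : 0 < ε) (h : okc u v M (1 / 6) l)
    (hend : v / 2 ≤ endc (1 / 6) l) (hv : valc ε (1 / 6) l ≤ r) : SB u v M r := by
  obtain ⟨U₀, hU⟩ := mert hε
  refine ⟨max 1 (6 * U₀), fun L hL => ?_⟩
  have hL0 : 0 < L := by linarith [le_max_left 1 (6 * U₀)]
  have hLU : U₀ ≤ 1 / 6 * L := by linarith [le_max_right 1 (6 * U₀)]
  refine le_trans ?_ ((cells_le hε hU hL0 hLU l (1 / 6) le_rfl h).trans hv)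
  refine sum_le_sum_of_subset_of_nonneg (PL_mono le_rfl (mul_le_mul_of_nonneg_right hend hL0.le)) ?_
  intro p _ _
  exact mul_nonneg (by positivity) (JJ_nn _ _ _ _ _)

end Pool.Agent.J4H40
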