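import Pool.Agent.J4H40.Ra

set_option autoImplicit false

/-! The pointwise lower bounds for the sums over the divisors. -/

namespace Pool.Agent.J4H40

open Finset

/-- the special parameters -/
structure Sp (P : Ps) (η : ℝ) : Prop where
  ok : Ok P
  α : P.α = 1 / 6
  a : P.a = 388 / 1000
  e8 : 8 * P.e ≤ η * P.L
  η1 : η ≤ 1 / 1000

lemma Sp.A {P : Ps} {η : ℝ} (h : Sp P η) : P.A = 5 / 12 * P.L := by
  unfold Ps.A; rw [h.α]; ring

lemma Sp.D {P : Ps} {η : ℝ} (h : Sp P η) : P.D = 7 / 12 * P.L := by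
  unfold Ps.D; rw [h.α]; ring

lemma Sp.G {P : Ps} {η : ℝ} (h : Sp P η) : P.G = 388 / 1000 * P.L := by
  unfold Ps.G; rw [h.a]

section
variable {P : Ps} {η : ℝ} (h : Sp P η)
include h

lemma low1 {x : ℝ} (h1 : P.L - P.e ≤ x) : 1 + sg P 1 x = 1 := by
  rw [up1 h.ok h1, add_zero]

/-- two primes -/
lemma low2 {t x : ℝ} (h1 : P.L - P.e ≤ t + x) (h2 : t + x ≤ P.L + P.e) (htx : t ≤ x) :
    -(if (5 / 12 - η) * P.L < t ∧ t ≤ 5 / 12 * P.L then 1 else 0) - (if (1 / 2 - η) * P.L < t then 1 else 0) ≤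
      1 + sg P 1 t + sg P 1 x + sg P 2 (t + x) := by
  have t' := th h.ok
  have eA := h.A; have eD := h.D; have eG := h.G; have eY := t'.eY; have eY' := t'.eY'; have eD' := t'.eD'
  have he := h.ok.e0; have he8 := h.e8; have hL := h.ok.L0; have hη := h.η1
  have hηL : η * P.L ≤ 1 / 1000 * P.L := mul_le_mul_of_nonneg_right hη hL.le
  have b1 := sg1_bd h.ok t
  have b2 := sg1_bd h.ok x
  have b3 := sg2_bd h.ok (t + x)
  have i1 : (0 : ℝ) ≤ if (5 / 12 - η) * P.L < t ∧ t ≤ 5 / 12 * P.L then 1 else 0 := by split_ifs <;> norm_num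
  have i2 : (0 : ℝ) ≤ if (1 / 2 - η) * P.L < t then 1 else 0 := by split_ifs <;> norm_num
  rcases le_or_gt t ((5 / 12 - η) * P.L) with k1 | k1
  · rw [sub_mul] at k1
    rw [sg1_top h.ok (by linarith : P.D < x)]
    linarith
  rcases le_or_gt t (5 / 12 * P.L) with k2 | k2
  · rw [if_pos ⟨k1, k2⟩]
    linarith
  rcases le_or_gt t ((1 / 2 - η) * P.L) with k3 | k3
  · rw [sub_mul] at k3
    rw [sg1_mid h.ok (by linarith : P.A < t) (by linarith)]
    linarith
  · rw [if_pos k3]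
    linarith

/-- the loss for three primes -/
noncomputable def lam2 (L η s : ℝ) : ℝ :=
  (if 388 / 1000 * L < s ∧ s ≤ (5 / 12 - η) * L then 1 else 0) +
  (if (5 / 12 - η) * L < s ∧ s ≤ (1 / 2 + η) * L then 2 else 0) +
  (if (7 / 12 - η) * L < s then 2 else 0)

lemma lam2_nn (L η s : ℝ) : 0 ≤ lam2 L η s := by
  unfold lam2
  split_ifs <;> norm_num

/-- three primes -/
lemma low3 {t u x : ℝ} (h1 : P.L - P.e ≤ t + u + x) (h2 : t + u + x ≤ P.L + P.e) :
    -lam2 P.L η (t + u) ≤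
      1 + sg P 1 t + sg P 1 u + sg P 1 x + sg P 2 (t + u) + sg P 2 (t + x) + sg P 2 (u + x) +
        sg P 3 (t + u + x) := by
  have t' := th h.ok
  have eA := h.A; have eD := h.D; have eG := h.G; have eY := t'.eY; have eY' := t'.eY'; have eD' := t'.eD'
  have he := h.ok.e0; have he8 := h.e8; have hL := h.ok.L0; have hη := h.η1
  have hηL : η * P.L ≤ 1 / 1000 * P.L := mul_le_mul_of_nonneg_right hη hL.le
  have b1 := sg1_bd h.ok t
  have b2 := sg1_bd h.ok u
  have b3 := sg1_bd h.ok x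
  have b4 := sg2_bd h.ok (t + u)
  have b5 := sg2_bd h.ok (t + x)
  have b6 := sg2_bd h.ok (u + x)
  rw [sg3_top h.ok (by linarith : P.D < t + u + x)]
  unfold lam2
  have i1 : (0 : ℝ) ≤ if 388 / 1000 * P.L < t + u ∧ t + u ≤ (5 / 12 - η) * P.L then 1 else 0 := by
    split_ifs <;> norm_num
  have i2 : (0 : ℝ) ≤ if (5 / 12 - η) * P.L < t + u ∧ t + u ≤ (1 / 2 + η) * P.L then 2 else 0 := by
    split_ifs <;> norm_num
  have i3 : (0 : ℝ) ≤ if (7 / 12 - η) * P.L < t + u then 2 else 0 := by split_ifs <;> norm_num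
  rcases le_or_gt (t + u) (388 / 1000 * P.L) with k1 | k1
  · rw [sg1_top h.ok (by linarith : P.D < x), sg2_lo h.ok (by linarith : t + u ≤ P.G)]
    linarith
  rcases le_or_gt (t + u) ((5 / 12 - η) * P.L) with k2 | k2
  · rw [if_pos ⟨k1, k2⟩]
    rw [sub_mul] at k2
    rw [sg1_top h.ok (by linarith : P.D < x)]
    linarith
  rcases le_or_gt (t + u) ((1 / 2 + η) * P.L) with k3 | k3
  · rw [if_pos (⟨k2, k3⟩ : (5 / 12 - η) * P.L < t + u ∧ t + u ≤ (1 / 2 + η) * P.L)]
    linarith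
  rcases le_or_gt (t + u) ((7 / 12 - η) * P.L) with k4 | k4
  · rw [add_mul] at k3
    rw [sub_mul] at k4
    rw [sg2_hi h.ok (by linarith : P.Y' < t + u) (by linarith),
      sg1_mid h.ok (by linarith : P.A < x) (by linarith)]
    linarith
  · rw [if_pos k4]
    linarith

/-- the loss for a pair -/
noncomputable def gp (L η y : ℝ) : ℝ :=
  (if 388 / 1000 * L < y ∧ y ≤ (5 / 12 + η) * L then 1 else 0) +
  (if (1 / 2 - η) * L < y ∧ y ≤ (1 / 2 + η) * L then 1 else 0)

/-- the loss for a triple -/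
noncomputable def wt3 (L η y : ℝ) : ℝ :=
  (if (7 / 12 - η) * L < y ∧ y ≤ (7 / 12 + η) * L then 1 else 0) +
  (if (1 / 2 - η) * L < y ∧ y ≤ (1 / 2 + η) * L then 1 else 0)

/-- a pair and the complementary pair -/
lemma pair4 {y z : ℝ} (h1 : P.L - P.e ≤ y + z) (h2 : y + z ≤ P.L + P.e) (hy : y ≤ 57 / 100 * P.L) :
    1 - gp P.L η y ≤ sg P 2 y + sg P 2 z := by
  have t' := th h.ok
  have eA := h.A; have eD := h.D; have eG := h.G; have eY := t'.eY; have eY' := t'.eY'; have eD' := t'.eD'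
  have he := h.ok.e0; have he8 := h.e8; have hL := h.ok.L0; have hη := h.η1
  have hηL : η * P.L ≤ 1 / 1000 * P.L := mul_le_mul_of_nonneg_right hη hL.le
  have b1 := sg2_bd h.ok y
  have b2 := sg2_bd h.ok z
  unfold gp
  have i1 : (0 : ℝ) ≤ if 388 / 1000 * P.L < y ∧ y ≤ (5 / 12 + η) * P.L then 1 else 0 := by
    split_ifs <;> norm_num
  have i2 : (0 : ℝ) ≤ if (1 / 2 - η) * P.L < y ∧ y ≤ (1 / 2 + η) * P.L then 1 else 0 := by
    split_ifs <;> norm_num
  rcases le_or_gt y (388 / 1000 * P.L) with k1 | k1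
  · rw [sg2_lo h.ok (by linarith : y ≤ P.G)]
    linarith
  rcases le_or_gt y ((5 / 12 + η) * P.L) with k2 | k2
  · rw [if_pos ⟨k1, k2⟩]
    linarith
  rcases le_or_gt y ((1 / 2 - η) * P.L) with k3 | k3
  · rw [add_mul] at k2
    rw [sub_mul] at k3
    rw [sg2_hi h.ok (by linarith : P.Y' < z) (by linarith)]
    linarith
  rcases le_or_gt y ((1 / 2 + η) * P.L) with k4 | k4
  · rw [if_pos (⟨k3, k4⟩ : (1 / 2 - η) * P.L < y ∧ y ≤ (1 / 2 + η) * P.L)]
    linarith
  · rw [add_mul] at k4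
    rw [sg2_hi h.ok (by linarith : P.Y' < y) (by linarith)]
    linarith

/-- four primes -/
lemma low4 {t u v x : ℝ} (ht : 1 / 6 * P.L < t) (hu : 1 / 6 * P.L < u) (hv : 1 / 6 * P.L < v)
    (h1 : P.L - P.e ≤ t + u + v + x) (h2 : t + u + v + x ≤ P.L + P.e) (htx : t ≤ x) (hux : u ≤ x) (hvx : v ≤ x) :
    -(gp P.L η (t + u) + gp P.L η (t + v) + gp P.L η (u + v) + wt3 P.L η (t + u + v)) ≤
    1 + sg P 1 t + sg P 1 u + sg P 1 v + sg P 1 x +
      (sg P 2 (t + u) + sg P 2 (t + v) + sg P 2 (t + x) + sg P 2 (u + v) + sg P 2 (u + x) + sg P 2 (v + x)) +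
      (sg P 3 (t + u + v) + sg P 3 (t + u + x) + sg P 3 (t + v + x) + sg P 3 (u + v + x)) := by
  have t' := th h.ok
  have eA := h.A; have eD := h.D; have eG := h.G; have eY := t'.eY; have eY' := t'.eY'; have eD' := t'.eD'
  have he := h.ok.e0; have he8 := h.e8; have hL := h.ok.L0; have hη := h.η1
  have hηL : η * P.L ≤ 1 / 1000 * P.L := mul_le_mul_of_nonneg_right hη hL.le
  have c1 := pair4 h (y := t + u) (z := v + x) (by linarith) (by linarith) (by linarith)
  have c2 := pair4 h (y := t + v) (z := u + x) (by linarith) (by linarith) (by linarith)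
  have c3 := pair4 h (y := u + v) (z := t + x) (by linarith) (by linarith) (by linarith)
  rw [sg1_lo h.ok (by linarith : t ≤ P.A), sg1_lo h.ok (by linarith : u ≤ P.A), sg1_lo h.ok (by linarith : v ≤ P.A),
    sg3_top h.ok (by linarith : P.D < t + u + x), sg3_top h.ok (by linarith : P.D < t + v + x),
    sg3_top h.ok (by linarith : P.D < u + v + x)]
  have key : -1 - wt3 P.L η (t + u + v) ≤ sg P 1 x + sg P 3 (t + u + v) := by
    have b1 := sg1_bd h.ok x
    have b2 := sg3_bd h.ok (t + u + v)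
    unfold wt3
    have i1 : (0 : ℝ) ≤ if (7 / 12 - η) * P.L < t + u + v ∧ t + u + v ≤ (7 / 12 + η) * P.L then 1 else 0 := by
      split_ifs <;> norm_num
    have i2 : (0 : ℝ) ≤ if (1 / 2 - η) * P.L < t + u + v ∧ t + u + v ≤ (1 / 2 + η) * P.L then 1 else 0 := by
      split_ifs <;> norm_num
    rcases le_or_gt (t + u + v) ((1 / 2 + η) * P.L) with k1 | k1
    · have k2 : (1 / 2 - η) * P.L < t + u + v := by
        rw [sub_mul]
        linarith
      rw [if_pos (⟨k2, k1⟩ : (1 / 2 - η) * P.L < t + u + v ∧ t + u + v ≤ (1 / 2 + η) * P.L)]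
      linarith
    rw [add_mul] at k1
    rcases le_or_gt (t + u + v) ((7 / 12 - η) * P.L) with k2 | k2
    · rw [sub_mul] at k2
      rw [sg1_mid h.ok (by linarith : P.A < x) (by linarith)]
      linarith
    rcases le_or_gt (t + u + v) ((7 / 12 + η) * P.L) with k3 | k3
    · rw [if_pos (⟨k2, k3⟩ : (7 / 12 - η) * P.L < t + u + v ∧ t + u + v ≤ (7 / 12 + η) * P.L)]
      linarith
    · rw [add_mul] at k3
      rw [sg3_top h.ok (by linarith : P.D < t + u + v)]
      linarith
  linarith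

/-- a pair and its complement -/
lemma pair5 {y z : ℝ} (h1 : P.L - P.e ≤ y + z) (h2 : y + z ≤ P.L + P.e) (hy : 1 / 3 * P.L ≤ y) :
    (1 - (24 * (y / P.L) - 8) - 24 * η) ≤ sg P 2 y + sg P 3 z := by
  have t' := th h.ok
  have eA := h.A; have eD := h.D; have eG := h.G; have eY := t'.eY; have eY' := t'.eY'; have eD' := t'.eD'
  have he := h.ok.e0; have he8 := h.e8; have hL := h.ok.L0; have hη := h.η1
  have hηL : η * P.L ≤ 1 / 1000 * P.L := mul_le_mul_of_nonneg_right hη hL.le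
  have hη0 : 0 ≤ η := by
    by_contra hcon
    have : η * P.L < 0 := mul_neg_of_neg_of_pos (by linarith) hL
    linarith
  have b1 := sg2_bd h.ok y
  have b2 := sg3_bd h.ok z
  have key : ∀ c : ℝ, c * P.L ≤ y → c ≤ y / P.L := fun c hc => (le_div_iff₀ hL).2 hc
  rcases le_or_gt y (388 / 1000 * P.L) with k1 | k1
  · rw [sg2_lo h.ok (by linarith : y ≤ P.G), sg3_top h.ok (by linarith : P.D < z)]
    have := key (1 / 3) hy
    linarith
  rcases le_or_gt y ((5 / 12 - η) * P.L) with k2 | k2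
  · have := key (388 / 1000) k1.le
    rw [sub_mul] at k2
    rw [sg3_top h.ok (by linarith : P.D < z)]
    linarith
  · have := key (5 / 12 - η) k2.le
    linarith

/-- five primes -/
lemma low5 {t u v w x : ℝ} (ht : 1 / 6 * P.L < t) (hu : 1 / 6 * P.L < u) (hv : 1 / 6 * P.L < v)
    (hw : 1 / 6 * P.L < w) (hx : 1 / 6 * P.L < x)
    (h1 : P.L - P.e ≤ t + u + v + w + x) (h2 : t + u + v + w + x ≤ P.L + P.e) :
    -(10 + 300 * η) ≤
    1 + (sg P 1 t + sg P 1 u + sg P 1 v + sg P 1 w + sg P 1 x) +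
      (sg P 2 (t + u) + sg P 2 (t + v) + sg P 2 (t + w) + sg P 2 (t + x) + sg P 2 (u + v) + sg P 2 (u + w) +
        sg P 2 (u + x) + sg P 2 (v + w) + sg P 2 (v + x) + sg P 2 (w + x)) +
      (sg P 3 (t + u + v) + sg P 3 (t + u + w) + sg P 3 (t + u + x) + sg P 3 (t + v + w) + sg P 3 (t + v + x) +
        sg P 3 (t + w + x) + sg P 3 (u + v + w) + sg P 3 (u + v + x) + sg P 3 (u + w + x) +
        sg P 3 (v + w + x)) := by
  have hL := h.ok.L0
  have c1 := pair5 h (y := t + u) (z := v + w + x) (by linarith) (by linarith) (by linarith)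
  have c2 := pair5 h (y := t + v) (z := u + w + x) (by linarith) (by linarith) (by linarith)
  have c3 := pair5 h (y := t + w) (z := u + v + x) (by linarith) (by linarith) (by linarith)
  have c4 := pair5 h (y := t + x) (z := u + v + w) (by linarith) (by linarith) (by linarith)
  have c5 := pair5 h (y := u + v) (z := t + w + x) (by linarith) (by linarith) (by linarith)
  have c6 := pair5 h (y := u + w) (z := t + v + x) (by linarith) (by linarith) (by linarith)
  have c7 := pair5 h (y := u + x) (z := t + v + w) (by linarith) (by linarith) (by linarith)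
  have c8 := pair5 h (y := v + w) (z := t + u + x) (by linarith) (by linarith) (by linarith)
  have c9 := pair5 h (y := v + x) (z := t + u + w) (by linarith) (by linarith) (by linarith)
  have c0 := pair5 h (y := w + x) (z := t + u + v) (by linarith) (by linarith) (by linarith)
  have s1 := (sg1_bd h.ok t).1
  have s2 := (sg1_bd h.ok u).1
  have s3 := (sg1_bd h.ok v).1
  have s4 := (sg1_bd h.ok w).1
  have s5 := (sg1_bd h.ok x).1
  have e1 : (t + u) / P.L + (t + v) / P.L + (t + w) / P.L + (t + x) / P.L + (u + v) / P.L + (u + w) / P.L +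
      (u + x) / P.L + (v + w) / P.L + (v + x) / P.L + (w + x) / P.L = 4 * ((t + u + v + w + x) / P.L) := by ring
  have hη0 : 0 ≤ η := by
    by_contra hcon
    have : η * P.L < 0 := mul_neg_of_neg_of_pos (by linarith) hL
    linarith [h.e8, h.ok.e0]
  have e2 : (t + u + v + w + x) / P.L ≤ 1 + η / 8 := by
    rw [div_le_iff₀ hL]
    have := h.e8
    linarith
  linarith

end

end Pool.Agent.J4H40
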