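import Pool.Agent.J4H40.Rb

set_option autoImplicit false

/-! The lower bounds for the function of the cofactor. -/

namespace Pool.Agent.J4H40

open Finset
open ArithmeticFunction (cardFactors)

/-- the setting -/
structure St (P : Ps) (N Z n : ℕ) (η : ℝ) : Prop where
  sp : Sp P η
  hL : P.L = Real.log N
  bz : BZ N Z
  hn : n ≤ N
  hln : P.L - P.e ≤ Real.log n
  hZp : ∀ p : ℕ, Z < p → 1 / 6 * P.L < Real.log p
  hinv : 1 / (Z : ℝ) ≤ P.e

section
variable {P : Ps} {N Z n : ℕ} {η : ℝ} (h : St P N Z n η)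
include h

lemma St.hlnu : Real.log n ≤ P.L := by
  rw [h.hL]
  rcases Nat.eq_zero_or_pos n with h0 | h0
  · rw [h0, Nat.cast_zero, Real.log_zero]
    exact h.bz.L.le
  · exact Real.log_le_log (by exact_mod_cast h0) (by exact_mod_cast h.hn)

lemma kk_facts {m : ℕ} (hm : m ∈ mz Z n) : Real.log m + Real.log ((n : ℝ) / m) = Real.log n ∧
    Real.log ((n : ℝ) / m) ≤ Real.log (kk n m) ∧ Real.log (kk n m) ≤ Real.log ((n : ℝ) / m) + P.e ∧
    Z < kk n m := by
  rw [mem_mz] at hm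
  obtain ⟨⟨hm1, hmn⟩, hr, hlt⟩ := hm
  have hm0 : (0 : ℝ) < m := by exact_mod_cast hm1
  have hn1 : 1 ≤ n := hm1.trans hmn
  have hn0 : (0 : ℝ) < n := by exact_mod_cast hn1
  have hZ2 := h.bz.Z2
  have hZ0 : (0 : ℝ) < Z := by exact_mod_cast (by omega : 0 < Z)
  have hrat := ratioZ hm1 hlt
  have hnm0 : 0 < (n : ℝ) / m := by positivity
  have e1 : n ≤ m * kk n m := by
    unfold kk
    have := Nat.lt_mul_div_succ (n - 1) (show 0 < m by omega)
    have e : (n - 1) / m + 1 = ((n - 1) / m).succ := rfl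
    omega
  have e2 : m * (kk n m - 1) < n := by
    unfold kk
    rw [Nat.add_sub_cancel]
    have := Nat.mul_div_le (n - 1) m
    omega
  have hk1 : 1 ≤ kk n m := by unfold kk; exact Nat.le_add_left 1 _
  have e1r : (n : ℝ) / m ≤ kk n m := by
    rw [div_le_iff₀ hm0, mul_comm]
    exact_mod_cast e1
  have e2r : (kk n m : ℝ) ≤ (n : ℝ) / m + 1 := by
    have h1 : (m : ℝ) * ((kk n m : ℝ) - 1) < n := by
      have : ((m * (kk n m - 1) : ℕ) : ℝ) < n := by exact_mod_cast e2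
      rw [Nat.cast_mul, Nat.cast_sub hk1, Nat.cast_one] at this
      exact this
    have h2 : (kk n m : ℝ) - 1 < (n : ℝ) / m := by
      rw [lt_div_iff₀ hm0, mul_comm]
      exact h1
    linarith
  refine ⟨?_, Real.log_le_log hnm0 e1r, ?_, ?_⟩
  · rw [Real.log_div hn0.ne' hm0.ne']
    ring
  · have h3 : (kk n m : ℝ) ≤ (n : ℝ) / m * (1 + 1 / Z) := by
      have : 1 ≤ (n : ℝ) / m * (1 / Z) := by
        rw [mul_one_div, le_div_iff₀ hZ0, one_mul]
        exact hrat.le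
      linarith
    have h4 := Real.log_le_log (by exact_mod_cast hk1) h3
    rw [Real.log_mul hnm0.ne' (by positivity)] at h4
    have h5 := Real.log_le_sub_one_of_pos (show 0 < 1 + 1 / (Z : ℝ) by positivity)
    have := h.hinv
    linarith
  · have : (Z : ℝ) < kk n m := lt_of_lt_of_le hrat e1r
    exact_mod_cast this

/-- the total logarithm -/
lemma tot {m : ℕ} (hm : m ∈ mz Z n) : P.L - P.e ≤ Real.log m + Real.log (kk n m) ∧
    Real.log m + Real.log (kk n m) ≤ P.L + P.e ∧ 1 / 6 * P.L < Real.log (kk n m) := by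
  obtain ⟨k1, k2, k3, k4⟩ := kk_facts h hm
  have := h.hln
  have := h.hlnu
  exact ⟨by linarith, by linarith, h.hZp _ k4⟩

/-- the prime factors -/
lemma pf_facts {m p : ℕ} (hm : m ∈ mz Z n) (hp : p ∈ m.primeFactors) : 1 / 6 * P.L < Real.log p ∧
    Real.log p < Real.log ((n : ℝ) / m) ∧ Real.log p ≤ Real.log (kk n m) := by
  obtain ⟨_, k2, _, _⟩ := kk_facts h hm
  rw [mem_mz] at hm
  obtain ⟨⟨hm1, hmn⟩, hr, hlt⟩ := hm
  have hpp := Nat.prime_of_mem_primeFactors hp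
  have hm0 : (0 : ℝ) < m := by exact_mod_cast hm1
  have hp0 : (0 : ℝ) < p := by exact_mod_cast hpp.pos
  have h1 : p ≤ MZ Z m := (Pool.Agent.R453.GS.le_sup_pf hp).trans (le_max_left _ _)
  have h2 : m * p < n := lt_of_le_of_lt (Nat.mul_le_mul_left _ h1) hlt
  have h3 : (p : ℝ) < (n : ℝ) / m := by
    rw [lt_div_iff₀ hm0, mul_comm]
    exact_mod_cast h2
  have h4 := Real.log_lt_log hp0 h3
  exact ⟨h.hZp p (hr p hp), h4, (h4.le.trans k2)⟩

end

lemma V1_eq (P : Ps) (k : ℕ) : VP P 1 k = 1 + sg P 1 (Real.log k) := by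
  unfold VP Vx
  rw [S_one]
  have e0 : ∀ x, sg P 0 x = 1 := fun x => rfl
  simp only [zero_add, e0]

lemma V2_eq (P : Ps) {p : ℕ} (hp : p.Prime) (k : ℕ) : VP P p k =
    1 + sg P 1 (Real.log p) + sg P 1 (Real.log k) + sg P 2 (Real.log p + Real.log k) := by
  unfold VP Vx
  have h1 := S_mul hp one_ne_zero (fun h => hp.one_lt.ne' (Nat.dvd_one.1 h))
    (fun j y => sg P j y + sg P (j + 1) (y + Real.log k))
  rw [one_mul] at h1
  rw [h1, S_one]
  have e0 : ∀ x, sg P 0 x = 1 := fun x => rfl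
  simp only [zero_add, Nat.reduceAdd, e0]
  ring

/-- squarefree numbers with a given number of prime factors -/
lemma decO {n j : ℕ} (hn : Squarefree n) (hj : cardFactors n = j + 1) : ∃ m p : ℕ, n = m * p ∧ p.Prime ∧ ¬ p ∣ m ∧
    m ≠ 0 ∧ Squarefree m ∧ cardFactors m = j ∧ n.primeFactors = insert p m.primeFactors := by
  have h1 : n ≠ 1 := by
    intro h
    rw [h, ArithmeticFunction.cardFactors_one] at hj
    omega
  obtain ⟨m, p, e1, hp, hd, hm, hs, hf, hq⟩ := dec hn h1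
  refine ⟨m, p, e1, hp, hd, hm, hs, ?_, ?_⟩
  · rw [e1, ArithmeticFunction.cardFactors_mul hm hp.ne_zero, ArithmeticFunction.cardFactors_apply_prime hp] at hj
    omega
  · rw [e1, Nat.primeFactors_mul hm hp.ne_zero, hp.primeFactors, union_comm]
    rfl

lemma om_zero {m : ℕ} (hm : m ≠ 0) (h : cardFactors m = 0) : m = 1 := by
  rcases (ArithmeticFunction.cardFactors_eq_zero_iff_eq_zero_or_one.1 h) with h4 | h4
  · exact absurd h4 hm
  · exact h4

section
variable {P : Ps} {N Z n : ℕ} {η : ℝ} (h : St P N Z n η)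
include h

lemma lo0 (h1 : 1 ∈ mz Z n) : VP P 1 (kk n 1) = 1 := by
  obtain ⟨k1, k2, k3⟩ := tot h h1
  rw [Nat.cast_one, Real.log_one, zero_add] at k1
  rw [V1_eq]
  exact low1 h.sp k1

lemma lo1 {m : ℕ} (hm : m ∈ mz Z n) (hp : m.Prime) :
    -(if (5 / 12 - η) * P.L < Real.log m ∧ Real.log m ≤ 5 / 12 * P.L then 1 else 0) -
      (if (1 / 2 - η) * P.L < Real.log m then 1 else 0) ≤ VP P m (kk n m) := by
  obtain ⟨k1, k2, k3⟩ := tot h hm
  have k4 := pf_facts h hm (Nat.mem_primeFactors.2 ⟨hp, dvd_rfl, hp.ne_zero⟩)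
  rw [V2_eq P hp]
  exact low2 h.sp k1 k2 k4.2.2

lemma lo2 {m : ℕ} (hm : m ∈ mz Z n) (hs : Squarefree m) (hO : cardFactors m = 2) :
    -lam2 P.L η (Real.log m) ≤ VP P m (kk n m) := by
  obtain ⟨k1, k2, k3⟩ := tot h hm
  obtain ⟨m1, p1, e1, hp1, hd1, hm1, hs1, hO1, hf1⟩ := decO hs hO
  obtain ⟨m2, p2, e2, hp2, hd2, hm2, hs2, hO2, hf2⟩ := decO hs1 hO1
  have c2 := om_zero hm2 hO2
  have g1 : Real.log m = Real.log m1 + Real.log p1 := by
    rw [e1]; push_cast
    exact Real.log_mul (by exact_mod_cast hm1) (by exact_mod_cast hp1.ne_zero)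
  have g2 : Real.log m1 = Real.log m2 + Real.log p2 := by
    rw [e2]; push_cast
    exact Real.log_mul (by exact_mod_cast hm2) (by exact_mod_cast hp2.ne_zero)
  rw [c2, Nat.cast_one, Real.log_one, zero_add] at g2
  rw [g2] at g1
  rw [g1] at k1 k2 ⊢
  have key := low3 h.sp (t := Real.log p2) (u := Real.log p1) (x := Real.log (kk n m)) k1 k2
  obtain ⟨k, hk⟩ : ∃ k, k = kk n m := ⟨_, rfl⟩
  rw [← hk] at key ⊢
  unfold VP Vx
  rw [e1, S_mul hp1 hm1 hd1, e2, S_mul hp2 hm2 hd2, c2, S_one]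
  have e0 : ∀ x, sg P 0 x = 1 := fun x => rfl
  simp only [zero_add, Nat.reduceAdd, e0]
  linarith

lemma lo3 {m : ℕ} (hm : m ∈ mz Z n) (hs : Squarefree m) (hO : cardFactors m = 3) :
    -(∑ r ∈ m.primeFactors, gp P.L η (Real.log m - Real.log r) + wt3 P.L η (Real.log m)) ≤
      VP P m (kk n m) := by
  obtain ⟨k1, k2, k3⟩ := tot h hm
  have hpf := fun p hp => pf_facts h (m := m) (p := p) hm hp
  obtain ⟨m1, p1, e1, hp1, hd1, hm1, hs1, hO1, hf1⟩ := decO hs hO
  obtain ⟨m2, p2, e2, hp2, hd2, hm2, hs2, hO2, hf2⟩ := decO hs1 hO1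
  obtain ⟨m3, p3, e3, hp3, hd3, hm3, hs3, hO3, hf3⟩ := decO hs2 hO2
  have c3 := om_zero hm3 hO3
  have g1 : Real.log m = Real.log m1 + Real.log p1 := by
    rw [e1]; push_cast
    exact Real.log_mul (by exact_mod_cast hm1) (by exact_mod_cast hp1.ne_zero)
  have g2 : Real.log m1 = Real.log m2 + Real.log p2 := by
    rw [e2]; push_cast
    exact Real.log_mul (by exact_mod_cast hm2) (by exact_mod_cast hp2.ne_zero)
  have g3 : Real.log m2 = Real.log m3 + Real.log p3 := by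
    rw [e3]; push_cast
    exact Real.log_mul (by exact_mod_cast hm3) (by exact_mod_cast hp3.ne_zero)
  rw [c3, Nat.cast_one, Real.log_one, zero_add] at g3
  rw [g3] at g2
  rw [g2] at g1
  rw [c3, Nat.primeFactors_one] at hf3
  rw [hf3] at hf2
  rw [hf2] at hf1
  have hp3m : p3 ∈ m.primeFactors := by rw [hf1]; simp
  have hp2m : p2 ∈ m.primeFactors := by rw [hf1]; simp
  have hp1m : p1 ∈ m.primeFactors := by rw [hf1]; simp
  have q1 := hpf p1 hp1m
  have q2 := hpf p2 hp2m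
  have q3 := hpf p3 hp3m
  have n21 : p2 ≠ p1 := by
    intro h0
    apply hd1
    rw [← h0, e2]
    exact dvd_mul_left _ _
  have n31 : p3 ≠ p1 := by
    intro h0
    apply hd1
    rw [← h0, e2, e3]
    exact (dvd_mul_left p3 m3).mul_right _
  have n32 : p3 ≠ p2 := by
    intro h0
    apply hd2
    rw [← h0, e3]
    exact dvd_mul_left _ _
  have hsum : ∑ r ∈ m.primeFactors, gp P.L η (Real.log m - Real.log r) =
      gp P.L η (Real.log p3 + Real.log p2) + gp P.L η (Real.log p3 + Real.log p1) +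
        gp P.L η (Real.log p2 + Real.log p1) := by
    rw [hf1, sum_insert, sum_insert, sum_insert, sum_empty, g1]
    · have a1 : Real.log p3 + Real.log p2 + Real.log p1 - Real.log p1 = Real.log p3 + Real.log p2 := by ring
      have a2 : Real.log p3 + Real.log p2 + Real.log p1 - Real.log p2 = Real.log p3 + Real.log p1 := by ring
      have a3 : Real.log p3 + Real.log p2 + Real.log p1 - Real.log p3 = Real.log p2 + Real.log p1 := by ring
      rw [a1, a2, a3]
      ring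
    · simp
    · simp only [mem_insert, notMem_empty, or_false]
      exact fun h0 => n32 h0.symm
    · simp only [mem_insert, notMem_empty, or_false]
      rintro (h0 | h0)
      · exact n21 h0.symm
      · exact n31 h0.symm
  rw [hsum]
  rw [g1] at k1 k2 ⊢
  have key := low4 h.sp (t := Real.log p3) (u := Real.log p2) (v := Real.log p1) (x := Real.log (kk n m))
    q3.1 q2.1 q1.1 k1 k2 q3.2.2 q2.2.2 q1.2.2
  obtain ⟨k, hk⟩ : ∃ k, k = kk n m := ⟨_, rfl⟩
  rw [← hk] at key ⊢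
  unfold VP Vx
  rw [e1, S_mul hp1 hm1 hd1, e2, S_mul hp2 hm2 hd2, e3, S_mul hp3 hm3 hd3, c3, S_one]
  have e0 : ∀ x, sg P 0 x = 1 := fun x => rfl
  have e4' : ∀ x, sg P 4 x = 0 := fun x => rfl
  simp only [zero_add, Nat.reduceAdd, e0, e4']
  linarith

lemma lo4 {m : ℕ} (hm : m ∈ mz Z n) (hs : Squarefree m) (hO : cardFactors m = 4) :
    -(10 + 300 * η) ≤ VP P m (kk n m) := by
  obtain ⟨k1, k2, k3⟩ := tot h hm
  have hpf := fun p hp => pf_facts h (m := m) (p := p) hm hp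
  obtain ⟨m1, p1, e1, hp1, hd1, hm1, hs1, hO1, hf1⟩ := decO hs hO
  obtain ⟨m2, p2, e2, hp2, hd2, hm2, hs2, hO2, hf2⟩ := decO hs1 hO1
  obtain ⟨m3, p3, e3, hp3, hd3, hm3, hs3, hO3, hf3⟩ := decO hs2 hO2
  obtain ⟨m4, p4, e4, hp4, hd4, hm4, hs4, hO4, hf4⟩ := decO hs3 hO3
  have c4 := om_zero hm4 hO4
  have g1 : Real.log m = Real.log m1 + Real.log p1 := by
    rw [e1]; push_cast
    exact Real.log_mul (by exact_mod_cast hm1) (by exact_mod_cast hp1.ne_zero)
  have g2 : Real.log m1 = Real.log m2 + Real.log p2 := by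
    rw [e2]; push_cast
    exact Real.log_mul (by exact_mod_cast hm2) (by exact_mod_cast hp2.ne_zero)
  have g3 : Real.log m2 = Real.log m3 + Real.log p3 := by
    rw [e3]; push_cast
    exact Real.log_mul (by exact_mod_cast hm3) (by exact_mod_cast hp3.ne_zero)
  have g4 : Real.log m3 = Real.log m4 + Real.log p4 := by
    rw [e4]; push_cast
    exact Real.log_mul (by exact_mod_cast hm4) (by exact_mod_cast hp4.ne_zero)
  rw [c4, Nat.cast_one, Real.log_one, zero_add] at g4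
  rw [g4] at g3
  rw [g3] at g2
  rw [g2] at g1
  rw [c4, Nat.primeFactors_one] at hf4
  rw [hf4] at hf3
  rw [hf3] at hf2
  rw [hf2] at hf1
  have q1 := hpf p1 (by rw [hf1]; simp)
  have q2 := hpf p2 (by rw [hf1]; simp)
  have q3 := hpf p3 (by rw [hf1]; simp)
  have q4 := hpf p4 (by rw [hf1]; simp)
  rw [g1] at k1 k2
  have key := low5 h.sp (t := Real.log p4) (u := Real.log p3) (v := Real.log p2) (w := Real.log p1)
    (x := Real.log (kk n m)) q4.1 q3.1 q2.1 q1.1 k3 k1 k2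
  obtain ⟨k, hk⟩ : ∃ k, k = kk n m := ⟨_, rfl⟩
  rw [← hk] at key ⊢
  unfold VP Vx
  rw [e1, S_mul hp1 hm1 hd1, e2, S_mul hp2 hm2 hd2, e3, S_mul hp3 hm3 hd3, e4, S_mul hp4 hm4 hd4, c4, S_one]
  have e0 : ∀ x, sg P 0 x = 1 := fun x => rfl
  have e4' : ∀ x, sg P 4 x = 0 := fun x => rfl
  have e5' : ∀ x, sg P 5 x = 0 := fun x => rfl
  simp only [zero_add, Nat.reduceAdd, e0, e4', e5']
  linarith

/-- at most four prime factors -/
lemma om_le {m : ℕ} (hm : m ∈ mz Z n) : cardFactors m ≤ 4 := by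
  have hm' := mem_mz.1 hm
  obtain ⟨⟨hm1, hmn⟩, hr, hlt⟩ := hm'
  have h1 := pow_omega (by omega : m ≠ 0) hr
  by_contra hcon
  have hm2 : m ≠ 1 := by
    intro h0
    rw [h0, ArithmeticFunction.cardFactors_one] at hcon
    omega
  have hp := Nat.minFac_prime hm2
  have hpf : m.minFac ∈ m.primeFactors := Nat.mem_primeFactors.2 ⟨hp, Nat.minFac_dvd m, by omega⟩
  have h2 : Z + 1 ≤ MZ Z m := (Nat.succ_le_of_lt (hr _ hpf)).trans ((Pool.Agent.R453.GS.le_sup_pf hpf).trans (le_max_left _ _))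
  have h3 : (Z + 1) ^ 5 ≤ m := (Nat.pow_le_pow_right (by omega) (by omega)).trans h1
  have h4 : (Z + 1) ^ 6 ≤ m * MZ Z m := by
    rw [pow_succ]
    exact Nat.mul_le_mul h3 h2
  have := h.bz.Z6
  have := h.hn
  omega

end

end Pool.Agent.J4H40
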