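import Pool.Agent.J4H40.Rc

set_option autoImplicit false

/-! The sums over the cofactors. -/

namespace Pool.Agent.J4H40

open Finset
open ArithmeticFunction (cardFactors)

/-- the weight of a cofactor -/
noncomputable def Tm (N n m : ℕ) : ℝ := Real.log N * (1 / ((m : ℝ) * Real.log ((n : ℝ) / m)))

/-- the classes of the cofactors -/
noncomputable def QQ (Z n j : ℕ) : Finset ℕ := (mz Z n).filter (fun m => Squarefree m ∧ cardFactors m = j)

/-- the cofactors which are not square-free -/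
noncomputable def NS (Z n : ℕ) : Finset ℕ := (mz Z n).filter (fun m => ¬ Squarefree m)

lemma mem_QQ {Z n j m : ℕ} : m ∈ QQ Z n j ↔ m ∈ mz Z n ∧ Squarefree m ∧ cardFactors m = j := by
  unfold QQ
  rw [mem_filter]

/-- products of two primes -/
noncomputable def B2 (Z N : ℕ) (L M u v : ℝ) : Finset ℕ :=
  (Icc 1 N).filter (fun m => Squarefree m ∧ cardFactors m = 2 ∧ (∀ p ∈ m.primeFactors, Z < p) ∧
    u * L < Real.log m ∧ Real.log m ≤ v * L ∧ Real.log m.minFac + 2 * Real.log ((m / m.minFac : ℕ) : ℝ) ≤ M * L)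

/-- the two prime factors -/
lemma two_pf {m : ℕ} (hs : Squarefree m) (hO : cardFactors m = 2) : ∃ p q : ℕ, m = p * q ∧ p.Prime ∧ q.Prime ∧
    p < q ∧ m.minFac = p ∧ m / m.minFac = q ∧ m.primeFactors = {p, q} := by
  have h1 : m ≠ 1 := by
    intro h
    rw [h, ArithmeticFunction.cardFactors_one] at hO
    omega
  have hm0 := hs.ne_zero
  have hp := Nat.minFac_prime h1
  obtain ⟨q, hq⟩ := Nat.minFac_dvd m
  have hq0 : q ≠ 0 := fun h => by rw [h, mul_zero] at hq; exact hm0 hq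
  have hqO : cardFactors q = 1 := by
    have := hO
    rw [hq, ArithmeticFunction.cardFactors_mul hp.ne_zero hq0, ArithmeticFunction.cardFactors_apply_prime hp] at this
    omega
  have hqp : q.Prime := ArithmeticFunction.cardFactors_eq_one_iff_prime.1 hqO
  have hdiv : m / m.minFac = q := by
    rw [Nat.div_eq_iff_eq_mul_right hp.pos (Nat.minFac_dvd m)]
    exact hq
  have hle : m.minFac ≤ q := Nat.minFac_le_of_dvd hqp.two_le (Dvd.intro_left _ hq.symm)
  have hne : m.minFac ≠ q := by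
    intro h
    have h2 : m.minFac * m.minFac ∣ m := by
      nth_rewrite 3 [hq]
      rw [← h]
    have h3 := hs _ h2
    rw [Nat.isUnit_iff] at h3
    exact hp.one_lt.ne' h3
  refine ⟨m.minFac, q, hq, hp, hqp, lt_of_le_of_ne hle hne, rfl, hdiv, ?_⟩
  have e : m.primeFactors = (m.minFac * q).primeFactors := by rw [← hq]
  rw [e, Nat.primeFactors_mul hp.ne_zero hqp.ne_zero, hp.primeFactors, hqp.primeFactors]
  rfl

section
variable {P : Ps} {N Z n : ℕ} {η : ℝ} (h : St P N Z n η)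
include h

lemma St.L0 : 0 < P.L := h.sp.ok.L0

lemma Tm_nn {m : ℕ} (hm : m ∈ mz Z n) : 0 ≤ Tm N n m := by
  have hm' := mem_mz.1 hm
  exact (term_bdZ h.bz hm'.1.1 hm'.2.2).1

lemma Tm_le7 {m : ℕ} (hm : m ∈ mz Z n) : Tm N n m ≤ 7 / m := by
  have hm' := mem_mz.1 hm
  exact (term_bdZ h.bz hm'.1.1 hm'.2.2).2

lemma Tm_le {m : ℕ} {σ : ℝ} (hm : m ∈ mz Z n) (hσ : Real.log m ≤ σ * P.L) (h1 : 0 < 1 - σ - η) :
    Tm N n m ≤ 1 / (1 - σ - η) * (1 / m) := by
  obtain ⟨k1, k2, k3, k4⟩ := kk_facts h hm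
  have hm' := mem_mz.1 hm
  have hm0 : (0 : ℝ) < m := by exact_mod_cast hm'.1.1
  have hL := h.L0
  have hl : (1 - σ - η) * P.L ≤ Real.log ((n : ℝ) / m) := by
    have := h.hln
    have := h.sp.e8
    have := h.sp.ok.e0
    rw [sub_mul, sub_mul]
    linarith
  have hl0 : 0 < (1 - σ - η) * P.L := by positivity
  unfold Tm
  rw [← h.hL, one_div_mul_one_div, mul_one_div, div_le_div_iff₀ (mul_pos hm0 (hl0.trans_le hl)) (by positivity)]
  calc P.L * ((1 - σ - η) * m) = m * ((1 - σ - η) * P.L) := by ring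
    _ ≤ m * Real.log ((n : ℝ) / m) := mul_le_mul_of_nonneg_left hl hm0.le
    _ = 1 * (m * Real.log ((n : ℝ) / m)) := by rw [one_mul]

/-- products of two primes and the double sum -/
lemma B2_le {M u v : ℝ} : ∑ m ∈ B2 Z N P.L M u v, (1 : ℝ) / m ≤
    ∑ p ∈ PL (1 / 6 * P.L) (v / 2 * P.L), (1 : ℝ) / p * JJ P.L u v M p := by
  classical
  obtain ⟨T, hT⟩ : ∃ T : Finset (Σ _ : ℕ, ℕ), T = (PL (1 / 6 * P.L) (v / 2 * P.L)).sigma (fun p =>
    PL (max (u * P.L - Real.log p) (Real.log p)) (min (v * P.L - Real.log p) ((M * P.L - Real.log p) / 2))) :=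
    ⟨_, rfl⟩
  have e1 : ∑ p ∈ PL (1 / 6 * P.L) (v / 2 * P.L), (1 : ℝ) / p * JJ P.L u v M p =
      ∑ x ∈ T, (1 : ℝ) / x.1 * (1 / x.2) := by
    rw [hT, sum_sigma]
    refine sum_congr rfl fun p _ => ?_
    unfold JJ
    rw [mul_sum]
  have e2 : ∑ m ∈ B2 Z N P.L M u v, (1 : ℝ) / m =
      ∑ x ∈ (B2 Z N P.L M u v).image (fun m => (⟨m.minFac, m / m.minFac⟩ : Σ _ : ℕ, ℕ)),
        (1 : ℝ) / x.1 * (1 / x.2) := by
    rw [sum_image]
    · refine sum_congr rfl fun m _ => ?_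
      rw [one_div_mul_one_div, ← Nat.cast_mul, Nat.mul_div_cancel' (Nat.minFac_dvd m)]
    · intro a _ b _ hab
      have h1 : a.minFac = b.minFac := congrArg Sigma.fst hab
      have h2 : a / a.minFac = b / b.minFac := congrArg Sigma.snd hab
      rw [← Nat.mul_div_cancel' (Nat.minFac_dvd a), h2, h1, Nat.mul_div_cancel' (Nat.minFac_dvd b)]
  rw [e1, e2]
  refine sum_le_sum_of_subset_of_nonneg ?_ fun _ _ _ => by positivity
  intro x hx
  rw [mem_image] at hx
  obtain ⟨m, hm, rfl⟩ := hx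
  unfold B2 at hm
  rw [mem_filter] at hm
  obtain ⟨hmN, hs, hO, hr, h1, h2, h3⟩ := hm
  obtain ⟨p, q, e, hp, hq, hpq, hmf, hdv, hpf⟩ := two_pf hs hO
  rw [hT, mem_sigma]
  simp only
  rw [hmf] at h3 hdv ⊢
  rw [hdv] at h3 ⊢
  have hp0 : (0 : ℝ) < p := by exact_mod_cast hp.pos
  have hq0 : (0 : ℝ) < q := by exact_mod_cast hq.pos
  have hl : Real.log m = Real.log p + Real.log q := by
    rw [e]; push_cast
    exact Real.log_mul hp0.ne' hq0.ne'
  have hlt : Real.log p < Real.log q := Real.log_lt_log hp0 (by exact_mod_cast hpq)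
  have hZp := h.hZp p (hr p (by rw [hpf]; simp))
  rw [mem_PL, mem_PL]
  refine ⟨⟨hp, hZp, ?_⟩, hq, ?_, ?_⟩
  · rw [hl] at h2
    linarith
  · apply max_lt
    · linarith
    · exact hlt
  · apply le_min
    · linarith
    · linarith

/-- a slice of the products of two primes -/
lemma QQ2_slice {u v r : ℝ} (hv : 0 < 1 - v - η) (hr : 0 ≤ r)
    (hS : ∑ p ∈ PL (1 / 6 * P.L) (v / 2 * P.L), (1 : ℝ) / p * JJ P.L u v 1 p ≤ r) :
    ∑ m ∈ (QQ Z n 2).filter (fun m : ℕ => u * P.L < Real.log m ∧ Real.log m ≤ v * P.L), Tm N n m ≤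
      r / (1 - v - η) := by
  have h1 : ∀ m ∈ (QQ Z n 2).filter (fun m : ℕ => u * P.L < Real.log m ∧ Real.log m ≤ v * P.L),
      Tm N n m ≤ 1 / (1 - v - η) * (1 / m) := by
    intro m hm
    rw [mem_filter, mem_QQ] at hm
    exact Tm_le h hm.1.1 hm.2.2 hv
  refine (sum_le_sum h1).trans ?_
  rw [← mul_sum]
  have h2 : (QQ Z n 2).filter (fun m : ℕ => u * P.L < Real.log m ∧ Real.log m ≤ v * P.L) ⊆ B2 Z N P.L 1 u v := by
    intro m hm
    rw [mem_filter, mem_QQ] at hm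
    obtain ⟨⟨hm, hs, hO⟩, h1, h2⟩ := hm
    have hm' := mem_mz.1 hm
    unfold B2
    rw [mem_filter, mem_Icc]
    refine ⟨⟨hm'.1.1, hm'.1.2.trans h.hn⟩, hs, hO, hm'.2.1, h1, h2, ?_⟩
    obtain ⟨p, q, e, hp, hq, hpq, hmf, hdv, hpf⟩ := two_pf hs hO
    rw [hdv, hmf]
    have hp0 : (0 : ℝ) < p := by exact_mod_cast hp.pos
    have hq0 : (0 : ℝ) < q := by exact_mod_cast hq.pos
    have hl : Real.log m = Real.log p + Real.log q := by
      rw [e]; push_cast
      exact Real.log_mul hp0.ne' hq0.ne'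
    have k1 := (pf_facts h hm (p := q) (by rw [hpf]; simp)).2.1
    obtain ⟨k2, _, _, _⟩ := kk_facts h hm
    have := h.hlnu
    linarith
  have h3 : ∑ m ∈ (QQ Z n 2).filter (fun m : ℕ => u * P.L < Real.log m ∧ Real.log m ≤ v * P.L), (1 : ℝ) / m ≤ r :=
    (sum_le_sum_of_subset_of_nonneg h2 fun _ _ _ => by positivity).trans ((B2_le h).trans hS)
  calc 1 / (1 - v - η) * _ ≤ 1 / (1 - v - η) * r := mul_le_mul_of_nonneg_left h3 (by positivity)
    _ = r / (1 - v - η) := by ring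

end

/-- the conditions for the slices -/
def oks (η L : ℝ) : ℝ → List (ℝ × ℝ) → Prop
  | _, [] => True
  | u, (v, r) :: l => u ≤ v ∧ 0 < 1 - v - η ∧ 0 ≤ r ∧
      ∑ p ∈ PL (1 / 6 * L) (v / 2 * L), (1 : ℝ) / p * JJ L u v 1 p ≤ r ∧ oks η L v l

/-- the bound -/
noncomputable def vals (η : ℝ) : List (ℝ × ℝ) → ℝ
  | [] => 0
  | (v, r) :: l => r / (1 - v - η) + vals η l

lemma ends_ge {η L : ℝ} : ∀ (l : List (ℝ × ℝ)) (u : ℝ), oks η L u l → u ≤ endc u l := by
  intro l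
  induction l with
  | nil => intro u _; exact le_rfl
  | cons x l ih =>
    intro u h
    obtain ⟨v, r⟩ := x
    exact h.1.trans (ih v h.2.2.2.2)

section
variable {P : Ps} {N Z n : ℕ} {η : ℝ} (h : St P N Z n η)
include h

/-- several slices -/
lemma QQ2_slices : ∀ (l : List (ℝ × ℝ)) (u : ℝ), oks η P.L u l →
    ∑ m ∈ (QQ Z n 2).filter (fun m : ℕ => u * P.L < Real.log m ∧ Real.log m ≤ endc u l * P.L), Tm N n m ≤
      vals η l := by
  intro l
  have hL := h.L0
  induction l with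
  | nil =>
    intro u _
    show ∑ m ∈ (QQ Z n 2).filter (fun m : ℕ => u * P.L < Real.log m ∧ Real.log m ≤ u * P.L), Tm N n m ≤ 0
    rw [sum_eq_zero]
    intro m hm
    rw [mem_filter] at hm
    linarith [hm.2.1, hm.2.2]
  | cons x l ih =>
    intro u hok
    obtain ⟨v, r⟩ := x
    obtain ⟨h1, h2, h3, h4, h5⟩ := hok
    show ∑ m ∈ (QQ Z n 2).filter (fun m : ℕ => u * P.L < Real.log m ∧ Real.log m ≤ endc v l * P.L), Tm N n m ≤
      r / (1 - v - η) + vals η l
    have k1 := QQ2_slice h h2 h3 h4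
    have k2 := ih v h5
    have hend := ends_ge l v h5
    have hs : (QQ Z n 2).filter (fun m : ℕ => u * P.L < Real.log m ∧ Real.log m ≤ endc v l * P.L) ⊆
        (QQ Z n 2).filter (fun m : ℕ => u * P.L < Real.log m ∧ Real.log m ≤ v * P.L) ∪
        (QQ Z n 2).filter (fun m : ℕ => v * P.L < Real.log m ∧ Real.log m ≤ endc v l * P.L) := by
      intro m hm
      rw [mem_filter] at hm
      rw [mem_union, mem_filter, mem_filter]
      rcases le_or_gt (Real.log m) (v * P.L) with hc | hc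
      · exact Or.inl ⟨hm.1, hm.2.1, hc⟩
      · exact Or.inr ⟨hm.1, hc, hm.2.2⟩
    have hnn : ∀ m ∈ QQ Z n 2, 0 ≤ Tm N n m := fun m hm => Tm_nn h (mem_QQ.1 hm).1
    refine (sum_le_sum_of_subset_of_nonneg hs fun m hm _ => ?_).trans ?_
    · rw [mem_union, mem_filter, mem_filter] at hm
      rcases hm with hm | hm
      · exact hnn m hm.1
      · exact hnn m hm.1
    · rw [sum_union]
      · exact add_le_add k1 k2
      · rw [disjoint_left]
        intro m hm1 hm2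
        rw [mem_filter] at hm1 hm2
        linarith [hm1.2.2, hm2.2.1]

end

end Pool.Agent.J4H40
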