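import Pool.Agent.J4H40.Rd

set_option autoImplicit false

/-! The sums over the cofactors, continued. -/

namespace Pool.Agent.J4H40

open Finset
open ArithmeticFunction (cardFactors)

/-- splitting off a divisor -/
lemma fib {A B : Finset ℕ} {S G : ℕ → Finset ℕ} {f F : ℕ → ℕ → ℝ}
    (hG : ∀ m ∈ A, ∀ r ∈ G m, r ∣ m ∧ m / r ∈ B ∧ r ∈ S (m / r) ∧ f m r ≤ F (m / r) r)
    (hF : ∀ b ∈ B, ∀ r ∈ S b, 0 ≤ F b r) :
    ∑ m ∈ A, ∑ r ∈ G m, f m r ≤ ∑ b ∈ B, ∑ r ∈ S b, F b r := by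
  classical
  rw [sum_sigma', sum_sigma']
  have h1 : ∑ x ∈ A.sigma G, f x.1 x.2 ≤ ∑ x ∈ A.sigma G, F (x.1 / x.2) x.2 := by
    refine sum_le_sum fun x hx => ?_
    rw [mem_sigma] at hx
    exact (hG x.1 hx.1 x.2 hx.2).2.2.2
  have h2 : ∑ x ∈ A.sigma G, F (x.1 / x.2) x.2 =
      ∑ y ∈ (A.sigma G).image (fun x => (⟨x.1 / x.2, x.2⟩ : Σ _ : ℕ, ℕ)), F y.1 y.2 := by
    rw [sum_image]
    rintro ⟨a1, a2⟩ ha ⟨b1, b2⟩ hb hab
    rw [mem_coe, mem_sigma] at ha hb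
    have k1 : a1 / a2 = b1 / b2 := congrArg Sigma.fst hab
    have k2 : a2 = b2 := congrArg Sigma.snd hab
    subst k2
    have g1 := (hG a1 ha.1 a2 ha.2).1
    have g2 := (hG b1 hb.1 a2 hb.2).1
    have : a1 = b1 := by rw [← Nat.div_mul_cancel g1, k1, Nat.div_mul_cancel g2]
    rw [this]
  rw [h2] at h1
  refine h1.trans (sum_le_sum_of_subset_of_nonneg ?_ ?_)
  · intro y hy
    rw [mem_image] at hy
    obtain ⟨x, hx, rfl⟩ := hy
    rw [mem_sigma] at hx ⊢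
    have g := hG x.1 hx.1 x.2 hx.2
    exact ⟨g.2.1, g.2.2.1⟩
  · intro y hy _
    rw [mem_sigma] at hy
    exact hF y.1 hy.1 y.2 hy.2

/-- the number of prime factors -/
lemma card_pf {m : ℕ} (hm : Squarefree m) : m.primeFactors.card = cardFactors m := by
  rw [← (ArithmeticFunction.cardDistinctFactors_eq_cardFactors_iff_squarefree hm.ne_zero).2 hm]
  rfl

/-- the square-free numbers with `k` prime factors -/
noncomputable def EE (N : ℕ) (S : Finset ℕ) (k : ℕ) : Finset ℕ :=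
  (Icc 1 N).filter (fun m => Squarefree m ∧ cardFactors m = k ∧ m.primeFactors ⊆ S)

/-- removing a prime factor -/
lemma rem_pf {m p : ℕ} (hm : Squarefree m) (hp : p ∈ m.primeFactors) : p ∣ m ∧ Squarefree (m / p) ∧
    cardFactors m = cardFactors (m / p) + 1 ∧ (m / p).primeFactors ⊆ m.primeFactors ∧ 1 ≤ m / p ∧ m / p ≤ m ∧
    m = m / p * p := by
  have hpp := Nat.prime_of_mem_primeFactors hp
  have hd := Nat.dvd_of_mem_primeFactors hp
  have hm0 := hm.ne_zero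
  have e : m = m / p * p := (Nat.div_mul_cancel hd).symm
  have hd2 : m / p ∣ m := Nat.div_dvd_of_dvd hd
  have h0 : m / p ≠ 0 := fun h => by rw [h, zero_mul] at e; exact hm0 e
  refine ⟨hd, hm.squarefree_of_dvd hd2, ?_, Nat.primeFactors_mono hd2 hm0, Nat.pos_of_ne_zero h0,
    Nat.div_le_self _ _, e⟩
  conv_lhs => rw [e]
  rw [ArithmeticFunction.cardFactors_mul h0 hpp.ne_zero, ArithmeticFunction.cardFactors_apply_prime hpp]

lemma EE_step (N : ℕ) (S : Finset ℕ) (k : ℕ) :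
    ((k + 1 : ℕ) : ℝ) * ∑ m ∈ EE N S (k + 1), (1 : ℝ) / m ≤
      (∑ p ∈ S, (1 : ℝ) / p) * ∑ m ∈ EE N S k, (1 : ℝ) / m := by
  have h1 := fib (A := EE N S (k + 1)) (B := EE N S k) (S := fun _ => S) (G := fun m => m.primeFactors)
    (f := fun m _ => (1 : ℝ) / m) (F := fun b r => (1 : ℝ) / b * (1 / r)) (fun m hm r hr => by
      unfold EE at hm ⊢
      rw [mem_filter, mem_Icc] at hm ⊢
      obtain ⟨⟨a1, a2⟩, a3, a4, a5⟩ := hm
      obtain ⟨b1, b2, b3, b4, b5, b6, b7⟩ := rem_pf a3 hr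
      refine ⟨b1, ⟨⟨b5, b6.trans a2⟩, b2, by omega, b4.trans a5⟩, a5 hr, ?_⟩
      rw [one_div_mul_one_div, ← Nat.cast_mul, ← b7]) (fun b _ r _ => by positivity)
  have e1 : ∑ m ∈ EE N S (k + 1), ∑ r ∈ m.primeFactors, (1 : ℝ) / m =
      ((k + 1 : ℕ) : ℝ) * ∑ m ∈ EE N S (k + 1), (1 : ℝ) / m := by
    rw [mul_sum]
    refine sum_congr rfl fun m hm => ?_
    unfold EE at hm
    rw [mem_filter] at hm
    rw [sum_const, card_pf hm.2.1, hm.2.2.1, nsmul_eq_mul]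
  have e2 : ∑ b ∈ EE N S k, ∑ r ∈ S, (1 : ℝ) / b * (1 / r) =
      (∑ p ∈ S, (1 : ℝ) / p) * ∑ m ∈ EE N S k, (1 : ℝ) / m := by
    rw [mul_comm, sum_mul_sum]
  rw [← e1, ← e2]
  exact h1

lemma EE_zero (N : ℕ) (S : Finset ℕ) : ∑ m ∈ EE N S 0, (1 : ℝ) / m ≤ 1 := by
  have h2 : EE N S 0 ⊆ {1} := by
    intro m hm
    unfold EE at hm
    rw [mem_filter, mem_Icc] at hm
    rw [mem_singleton]
    exact om_zero (by omega) hm.2.2.1
  refine (sum_le_sum_of_subset_of_nonneg h2 fun _ _ _ => by positivity).trans ?_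
  rw [sum_singleton, Nat.cast_one, div_one]

lemma EE_four (N : ℕ) (S : Finset ℕ) : ∑ m ∈ EE N S 4, (1 : ℝ) / m ≤ (∑ p ∈ S, (1 : ℝ) / p) ^ 4 / 24 := by
  obtain ⟨s, hs⟩ : ∃ s, s = ∑ p ∈ S, (1 : ℝ) / p := ⟨_, rfl⟩
  have hs0 : 0 ≤ s := by rw [hs]; exact sum_nonneg fun _ _ => by positivity
  have h0 := EE_zero N S
  have h1 := EE_step N S 0
  have h2 := EE_step N S 1
  have h3 := EE_step N S 2
  have h4 := EE_step N S 3
  rw [← hs] at h1 h2 h3 h4 ⊢
  norm_num at h1 h2 h3 h4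
  obtain ⟨x0, hx0⟩ : ∃ x, x = ∑ m ∈ EE N S 0, ((m : ℝ))⁻¹ := ⟨_, rfl⟩
  obtain ⟨x1, hx1⟩ : ∃ x, x = ∑ m ∈ EE N S 1, ((m : ℝ))⁻¹ := ⟨_, rfl⟩
  obtain ⟨x2, hx2⟩ : ∃ x, x = ∑ m ∈ EE N S 2, ((m : ℝ))⁻¹ := ⟨_, rfl⟩
  obtain ⟨x3, hx3⟩ : ∃ x, x = ∑ m ∈ EE N S 3, ((m : ℝ))⁻¹ := ⟨_, rfl⟩
  obtain ⟨x4, hx4⟩ : ∃ x, x = ∑ m ∈ EE N S 4, ((m : ℝ))⁻¹ := ⟨_, rfl⟩
  simp only [one_div] at h0 ⊢
  rw [← hx0] at h0 h1
  rw [← hx1] at h1 h2
  rw [← hx2] at h2 h3
  rw [← hx3] at h3 h4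
  rw [← hx4] at h4 ⊢
  have g1 : x1 ≤ s := h1.trans (by nlinarith)
  have g2 : 2 * x2 ≤ s ^ 2 := h2.trans (by nlinarith)
  have g3 : 6 * x3 ≤ s ^ 3 := by nlinarith
  have g4 : 24 * x4 ≤ s ^ 4 := by nlinarith
  linarith

section
variable {P : Ps} {N Z n : ℕ} {η : ℝ} (h : St P N Z n η)
include h

lemma mz_N {m : ℕ} (hm : m ∈ mz Z n) : 1 ≤ m ∧ m ≤ N := by
  have := mem_mz.1 hm
  exact ⟨this.1.1, this.1.2.trans h.hn⟩

/-- the numbers which are not square-free -/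
lemma NS_le : ∑ m ∈ NS Z n, (1 : ℝ) / m ≤ 63 * (1 / Z) := by
  classical
  have hex : ∀ m ∈ NS Z n, ∃ r : ℕ, (∃ p, Z < p ∧ p ≤ N ∧ r = p ^ 2) ∧ r ∣ m := by
    intro m hm
    unfold NS at hm
    rw [mem_filter] at hm
    obtain ⟨hm, hs⟩ := hm
    have h1 := mz_N h hm
    have hm' := mem_mz.1 hm
    rw [Nat.squarefree_iff_prime_squarefree] at hs
    push Not at hs
    obtain ⟨p, hp, hd⟩ := hs
    have hpf : p ∈ m.primeFactors := Nat.mem_primeFactors.2 ⟨hp, (dvd_mul_left p p).trans hd, by omega⟩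
    refine ⟨p ^ 2, ⟨p, hm'.2.1 p hpf, (Nat.le_of_dvd (by omega) ((dvd_mul_left p p).trans hd)).trans h1.2, rfl⟩, ?_⟩
    rw [pow_two]
    exact hd
  choose! g hg1 hg2 using hex
  have key := fib (A := NS Z n) (B := RN Z N) (S := fun _ => (Ioc Z N).image (fun p => p ^ 2)) (G := fun m => {g m})
    (f := fun m _ => (1 : ℝ) / m) (F := fun b r => (1 : ℝ) / b * (1 / r)) (fun m hm r hr => by
      rw [mem_singleton] at hr
      subst hr
      have a1 := hg1 m hm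
      have a2 := hg2 m hm
      unfold NS at hm
      rw [mem_filter] at hm
      have h1 := mz_N h hm.1
      have hm' := mem_mz.1 hm.1
      have hd : m / g m ∣ m := Nat.div_dvd_of_dvd a2
      refine ⟨a2, ?_, ?_, ?_⟩
      · unfold RN
        rw [mem_filter, mem_Icc]
        have h0 : m / g m ≠ 0 := by
          intro h0
          have := Nat.div_mul_cancel a2
          rw [h0, zero_mul] at this
          omega
        exact ⟨⟨Nat.pos_of_ne_zero h0, (Nat.div_le_self _ _).trans h1.2⟩, fun p hp =>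
          hm'.2.1 p (Nat.primeFactors_mono hd (by omega) hp)⟩
      · obtain ⟨p, p1, p2, p3⟩ := a1
        rw [mem_image]
        exact ⟨p, mem_Ioc.2 ⟨p1, p2⟩, p3.symm⟩
      · rw [one_div_mul_one_div, ← Nat.cast_mul, Nat.div_mul_cancel a2]) (fun b _ r _ => by positivity)
  simp only [sum_singleton] at key
  refine key.trans ?_
  rw [← sum_mul_sum, sum_image]
  · have h1 := h.bz.sum
    have hZ0 : Z ≠ 0 := by have := h.bz.Z2; omega
    have h2 := sum_Ioc_inv_sq_le_sub (α := ℝ) hZ0 h.bz.ZN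
    have h3 : ∑ p ∈ Ioc Z N, (1 : ℝ) / ((p ^ 2 : ℕ) : ℝ) ≤ 1 / Z := by
      have e : ∑ p ∈ Ioc Z N, (1 : ℝ) / ((p ^ 2 : ℕ) : ℝ) = ∑ i ∈ Ioc Z N, ((i : ℝ) ^ 2)⁻¹ := by
        refine sum_congr rfl fun p _ => ?_
        push_cast
        rw [one_div]
      rw [e]
      rw [one_div]
      have h5 : (0 : ℝ) ≤ (N : ℝ)⁻¹ := by positivity
      linarith
    exact mul_le_mul h1 h3 (sum_nonneg fun _ _ => by positivity) (by norm_num)
  · intro a _ b _ hab
    exact Nat.pow_left_injective (n := 2) (by norm_num) hab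

/-- one prime factor -/
lemma QQ1_le {U₀ ε : ℝ} (hU : ∀ u v ρ : ℝ, U₀ ≤ u → 1 ≤ ρ → v ≤ ρ * u →
    ∑ p ∈ PL u v, (1 : ℝ) / p ≤ Real.log ρ + ε) (hLU : U₀ ≤ 1 / 6 * P.L) :
    -(6 * (3 * η + ε)) ≤ ∑ m ∈ QQ Z n 1, VP P m (kk n m) * Tm N n m := by
  have hL := h.L0
  have hη := h.sp.η1
  have he8 := h.sp.e8
  have he := h.sp.ok.e0
  have hη0 : 0 < η := by
    by_contra hcon
    have : η * P.L ≤ 0 := mul_nonpos_of_nonpos_of_nonneg (by linarith) hL.le
    linarith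
  obtain ⟨W1, hW1⟩ : ∃ W, W = PL ((5 / 12 - η) * P.L) (5 / 12 * P.L) := ⟨_, rfl⟩
  obtain ⟨W2, hW2⟩ : ∃ W, W = PL ((1 / 2 - η) * P.L) (1 / 2 * P.L) := ⟨_, rfl⟩
  have hlog : Real.log (1 + 3 * η) ≤ 3 * η := by
    have := Real.log_le_sub_one_of_pos (show 0 < 1 + 3 * η by linarith)
    linarith
  have b1 : ∑ p ∈ W1, (1 : ℝ) / p ≤ 3 * η + ε := by
    rw [hW1]
    refine (hU _ _ (1 + 3 * η) ?_ (by linarith) ?_).trans (by linarith)
    · exact hLU.trans (mul_le_mul_of_nonneg_right (by linarith) hL.le)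
    · rw [← mul_assoc]
      exact mul_le_mul_of_nonneg_right (by nlinarith) hL.le
  have b2 : ∑ p ∈ W2, (1 : ℝ) / p ≤ 3 * η + ε := by
    rw [hW2]
    refine (hU _ _ (1 + 3 * η) ?_ (by linarith) ?_).trans (by linarith)
    · exact hLU.trans (mul_le_mul_of_nonneg_right (by linarith) hL.le)
    · rw [← mul_assoc]
      exact mul_le_mul_of_nonneg_right (by nlinarith) hL.le
  have hpt : ∀ m ∈ QQ Z n 1, -(3 * ((if m ∈ W1 then (1 : ℝ) / m else 0) + (if m ∈ W2 then (1 : ℝ) / m else 0))) ≤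
      VP P m (kk n m) * Tm N n m := by
    intro m hm
    rw [mem_QQ] at hm
    obtain ⟨hm, hs, hO⟩ := hm
    have hp : m.Prime := ArithmeticFunction.cardFactors_eq_one_iff_prime.1 hO
    have hm0 : (0 : ℝ) < m := by exact_mod_cast hp.pos
    have hpf := pf_facts h hm (Nat.mem_primeFactors.2 ⟨hp, dvd_rfl, hp.ne_zero⟩)
    obtain ⟨k1, k2, k3, k4⟩ := kk_facts h hm
    have hlnu := h.hlnu
    have hhalf : Real.log m ≤ 1 / 2 * P.L := by linarith
    have hT := Tm_le h hm hhalf (by linarith)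
    have hT3 : Tm N n m ≤ 3 * (1 / m) := by
      refine hT.trans (mul_le_mul_of_nonneg_right ?_ (by positivity))
      rw [div_le_iff₀ (by linarith)]
      linarith
    have hT0 := Tm_nn h hm
    have hlo := lo1 h hm hp
    have i1 : (if (5 / 12 - η) * P.L < Real.log m ∧ Real.log m ≤ 5 / 12 * P.L then (1 : ℝ) else 0) =
        if m ∈ W1 then 1 else 0 := by
      rw [hW1]
      simp only [mem_PL, hp, true_and]
    have i2 : (if (1 / 2 - η) * P.L < Real.log m then (1 : ℝ) else 0) = if m ∈ W2 then 1 else 0 := by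
      rw [hW2]
      simp only [mem_PL, hp, true_and, hhalf, and_true]
    rw [i1, i2] at hlo
    have e1 : (if m ∈ W1 then (1 : ℝ) / m else 0) = (if m ∈ W1 then 1 else 0) * (1 / m) := by
      split_ifs <;> simp
    have e2 : (if m ∈ W2 then (1 : ℝ) / m else 0) = (if m ∈ W2 then 1 else 0) * (1 / m) := by
      split_ifs <;> simp
    rw [e1, e2]
    obtain ⟨a, ha⟩ : ∃ a : ℝ, a = if m ∈ W1 then 1 else 0 := ⟨_, rfl⟩
    obtain ⟨b, hb⟩ : ∃ b : ℝ, b = if m ∈ W2 then 1 else 0 := ⟨_, rfl⟩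
    have ha0 : 0 ≤ a := by rw [ha]; split_ifs <;> norm_num
    have hb0 : 0 ≤ b := by rw [hb]; split_ifs <;> norm_num
    rw [← ha, ← hb] at hlo ⊢
    have g1 : (-a - b) * Tm N n m ≤ VP P m (kk n m) * Tm N n m := mul_le_mul_of_nonneg_right hlo hT0
    have g2 : (a + b) * Tm N n m ≤ (a + b) * (3 * (1 / m)) := mul_le_mul_of_nonneg_left hT3 (by linarith)
    nlinarith
  refine le_trans ?_ (sum_le_sum hpt)
  rw [sum_neg_distrib, ← mul_sum, sum_add_distrib, ← sum_filter, ← sum_filter]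
  have c1 : ∑ a ∈ (QQ Z n 1).filter (fun a => a ∈ W1), (1 : ℝ) / a ≤ 3 * η + ε :=
    (sum_le_sum_of_subset_of_nonneg (fun x hx => (mem_filter.1 hx).2) fun _ _ _ => by positivity).trans b1
  have c2 : ∑ a ∈ (QQ Z n 1).filter (fun a => a ∈ W2), (1 : ℝ) / a ≤ 3 * η + ε :=
    (sum_le_sum_of_subset_of_nonneg (fun x hx => (mem_filter.1 hx).2) fun _ _ _ => by positivity).trans b2
  linarith

/-- two prime factors -/
lemma QQ2_le {C B A : ℝ}
    (hC : ∑ m ∈ (QQ Z n 2).filter (fun m : ℕ => 388 / 1000 * P.L < Real.log m ∧ Real.log m ≤ (5 / 12 - η) * P.L),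
      Tm N n m ≤ C)
    (hB : ∑ m ∈ (QQ Z n 2).filter (fun m : ℕ => (5 / 12 - η) * P.L < Real.log m ∧ Real.log m ≤ (1 / 2 + η) * P.L),
      Tm N n m ≤ B)
    (hA : ∑ m ∈ (QQ Z n 2).filter (fun m : ℕ => (7 / 12 - η) * P.L < Real.log m ∧ Real.log m ≤ 2 / 3 * P.L),
      Tm N n m ≤ A) :
    -(C + 2 * B + 2 * A) ≤ ∑ m ∈ QQ Z n 2, VP P m (kk n m) * Tm N n m := by
  have hL := h.L0
  rw [sum_filter] at hC hB hA
  have hpt : ∀ m ∈ QQ Z n 2, -((if 388 / 1000 * P.L < Real.log m ∧ Real.log m ≤ (5 / 12 - η) * P.L then Tm N n m else 0) +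
      2 * (if (5 / 12 - η) * P.L < Real.log m ∧ Real.log m ≤ (1 / 2 + η) * P.L then Tm N n m else 0) +
      2 * (if (7 / 12 - η) * P.L < Real.log m ∧ Real.log m ≤ 2 / 3 * P.L then Tm N n m else 0)) ≤
      VP P m (kk n m) * Tm N n m := by
    intro m hm
    rw [mem_QQ] at hm
    obtain ⟨hm, hs, hO⟩ := hm
    have hT0 := Tm_nn h hm
    have hlo := lo2 h hm hs hO
    have h23 : Real.log m ≤ 2 / 3 * P.L := by
      obtain ⟨p, q, e, hp, hq, hpq, hmf, hdv, hpf⟩ := two_pf hs hO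
      have hp0 : (0 : ℝ) < p := by exact_mod_cast hp.pos
      have hq0 : (0 : ℝ) < q := by exact_mod_cast hq.pos
      have hl : Real.log m = Real.log p + Real.log q := by
        rw [e]; push_cast
        exact Real.log_mul hp0.ne' hq0.ne'
      have hlt : Real.log p < Real.log q := Real.log_lt_log hp0 (by exact_mod_cast hpq)
      have k1 := (pf_facts h hm (p := q) (by rw [hpf]; simp)).2.1
      obtain ⟨k2, _, _, _⟩ := kk_facts h hm
      have := h.hlnu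
      linarith
    refine le_trans (le_of_eq ?_) (mul_le_mul_of_nonneg_right hlo hT0)
    unfold lam2
    simp only [h23, and_true]
    split_ifs <;> ring
  refine le_trans ?_ (sum_le_sum hpt)
  rw [sum_neg_distrib, sum_add_distrib, sum_add_distrib, ← mul_sum, ← mul_sum]
  linarith

/-- four prime factors -/
lemma QQ4_le {U₀ ε : ℝ} (hU : ∀ u v ρ : ℝ, U₀ ≤ u → 1 ≤ ρ → v ≤ ρ * u →
    ∑ p ∈ PL u v, (1 : ℝ) / p ≤ Real.log ρ + ε) (hLU : U₀ ≤ 1 / 6 * P.L) :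
    -((10 + 300 * η) * ((1 / (1 / 5 - η)) * ((4056 / 10000 + ε) ^ 4 / 24))) ≤
      ∑ m ∈ QQ Z n 4, VP P m (kk n m) * Tm N n m := by
  have hL := h.L0
  have hη := h.sp.η1
  have he8 := h.sp.e8
  have he := h.sp.ok.e0
  have hη0 : 0 < η := by
    by_contra hcon
    have : η * P.L ≤ 0 := mul_nonpos_of_nonpos_of_nonneg (by linarith) hL.le
    linarith
  obtain ⟨S, hS⟩ : ∃ S, S = PL (1 / 6 * P.L) (1 / 4 * P.L) := ⟨_, rfl⟩
  have hsum : ∑ p ∈ S, (1 : ℝ) / p ≤ 4056 / 10000 + ε := by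
    rw [hS]
    refine (hU _ _ (3 / 2) hLU (by norm_num) (by linarith)).trans ?_
    have : Real.log (3 / 2) ≤ 4056 / 10000 := by
      rw [Real.log_div (by norm_num) (by norm_num)]
      have h3 : Real.log 3 < 1.0986123 := by
        have := Real.log_three_lt_d9
        linarith
      have h2 := Real.log_two_gt_d9
      norm_num at h2 h3 ⊢
      linarith
    linarith
  have hpt : ∀ m ∈ QQ Z n 4, m ∈ EE N S 4 ∧ -((10 + 300 * η) * ((1 / (1 / 5 - η)) * (1 / m))) ≤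
      VP P m (kk n m) * Tm N n m := by
    intro m hm
    rw [mem_QQ] at hm
    obtain ⟨hm, hs, hO⟩ := hm
    have hT0 := Tm_nn h hm
    have hlo := lo4 h hm hs hO
    have hmN := mz_N h hm
    obtain ⟨k2, _, _, _⟩ := kk_facts h hm
    have hlnu := h.hlnu
    -- the primes
    obtain ⟨m1, p1, e1, hp1, hd1, hm1, hs1, hO1, hf1⟩ := decO hs hO
    obtain ⟨m2, p2, e2, hp2, hd2, hm2, hs2, hO2, hf2⟩ := decO hs1 hO1
    obtain ⟨m3, p3, e3, hp3, hd3, hm3, hs3, hO3, hf3⟩ := decO hs2 hO2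
    obtain ⟨m4, p4, e4, hp4, hd4, hm4, hs4, hO4, hf4⟩ := decO hs3 hO3
    have c4 := om_zero hm4 hO4
    have g1 : Real.log m = Real.log m1 + Real.log p1 := by
      rw [e1]; push_cast
      exact Real.log_mul (by exact_mod_cast hm1) (by exact_mod_cast hp1.ne_zero)
    have g2 : Real.log m1 = Real.log m2 + Real.log p2 := by
      rw [e2]; push_cast
      exact Real.log_mul (by exact_mod_cast hm2) (by exact_mod_cast hp2.ne_zero)
    have g3 : Real.log m2 = Real.log m3 + Real.log p3 := by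
      rw [e3]; push_cast
      exact Real.log_mul (by exact_mod_cast hm3) (by exact_mod_cast hp3.ne_zero)
    have g4 : Real.log m3 = Real.log m4 + Real.log p4 := by
      rw [e4]; push_cast
      exact Real.log_mul (by exact_mod_cast hm4) (by exact_mod_cast hp4.ne_zero)
    rw [c4, Nat.cast_one, Real.log_one, zero_add] at g4
    rw [g4] at g3
    rw [g3] at g2
    rw [g2] at g1
    rw [c4, Nat.primeFactors_one] at hf4
    rw [hf4] at hf3
    rw [hf3] at hf2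
    rw [hf2] at hf1
    have q1 := pf_facts h hm (p := p1) (by rw [hf1]; simp)
    have q2 := pf_facts h hm (p := p2) (by rw [hf1]; simp)
    have q3 := pf_facts h hm (p := p3) (by rw [hf1]; simp)
    have q4 := pf_facts h hm (p := p4) (by rw [hf1]; simp)
    have hσ : Real.log m ≤ 4 / 5 * P.L := by linarith [q1.2.1, q2.2.1, q3.2.1, q4.2.1]
    refine ⟨?_, ?_⟩
    · unfold EE
      rw [mem_filter, mem_Icc]
      refine ⟨hmN, hs, hO, ?_⟩
      rw [hf1, hS]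
      intro p hp
      simp only [mem_insert, notMem_empty, or_false] at hp
      rw [mem_PL]
      rcases hp with rfl | rfl | rfl | rfl
      · exact ⟨hp1, q1.1, by linarith [q1.2.1, q2.1, q3.1, q4.1]⟩
      · exact ⟨hp2, q2.1, by linarith [q2.2.1, q1.1, q3.1, q4.1]⟩
      · exact ⟨hp3, q3.1, by linarith [q3.2.1, q2.1, q1.1, q4.1]⟩
      · exact ⟨hp4, q4.1, by linarith [q4.2.1, q2.1, q3.1, q1.1]⟩
    · have hT := Tm_le h hm hσ (by linarith)
      have e5 : (1 : ℝ) - 4 / 5 - η = 1 / 5 - η := by ring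
      rw [e5] at hT
      have g5 : -(10 + 300 * η) * Tm N n m ≤ VP P m (kk n m) * Tm N n m := mul_le_mul_of_nonneg_right hlo hT0
      have g6 : (10 + 300 * η) * Tm N n m ≤ (10 + 300 * η) * (1 / (1 / 5 - η) * (1 / m)) :=
        mul_le_mul_of_nonneg_left hT (by linarith)
      linarith
  refine le_trans ?_ (sum_le_sum fun m hm => (hpt m hm).2)
  rw [sum_neg_distrib, ← mul_sum, ← mul_sum]
  apply neg_le_neg
  apply mul_le_mul_of_nonneg_left _ (by linarith)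
  apply mul_le_mul_of_nonneg_left _ (by apply one_div_nonneg.2; linarith)
  have h5 : ∑ m ∈ QQ Z n 4, (1 : ℝ) / m ≤ ∑ m ∈ EE N S 4, (1 : ℝ) / m :=
    sum_le_sum_of_subset_of_nonneg (fun m hm => (hpt m hm).1) fun _ _ _ => by positivity
  refine h5.trans ((EE_four N S).trans ?_)
  have hs0 : 0 ≤ ∑ p ∈ S, (1 : ℝ) / p := sum_nonneg fun _ _ => by positivity
  have := pow_le_pow_left₀ hs0 hsum 4
  linarith

end

end Pool.Agent.J4H40
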