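import Pool.Agent.J4H40.Re

set_option autoImplicit false

/-! Three prime factors in the cofactor. -/

namespace Pool.Agent.J4H40

open Finset
open ArithmeticFunction (cardFactors)

/-- the summand of the inner sum -/
noncomputable def wi (L η v : ℝ) (r : ℕ) : ℝ := (1 : ℝ) / r * (1 / (1 - v - η - Real.log r / L))

/-- the conditions for the cells -/
def oki (η v : ℝ) : ℝ → List ℝ → Prop
  | _, [] => True
  | d, d' :: l => d ≤ d' ∧ 0 < 1 - v - η - d' ∧ oki η v d' l

/-- the last point -/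
def endi : ℝ → List ℝ → ℝ
  | d, [] => d
  | _, d' :: l => endi d' l

/-- the bound -/
noncomputable def vali (ε η v : ℝ) : ℝ → List ℝ → ℝ
  | _, [] => 0
  | d, d' :: l => (lb (d' / d) + ε) / (1 - v - η - d') + vali ε η v d' l

lemma endi_ge {η v : ℝ} : ∀ (l : List ℝ) (d : ℝ), oki η v d l → d ≤ endi d l := by
  intro l
  induction l with
  | nil => intro d _; exact le_rfl
  | cons d' l ih =>
    intro d h
    exact h.1.trans (ih d' h.2.2)

lemma endi_pos {η v : ℝ} : ∀ (l : List ℝ) (d : ℝ), 0 < 1 - v - η - d → oki η v d l → 0 < 1 - v - η - endi d l := by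
  intro l
  induction l with
  | nil => intro d h _; exact h
  | cons d' l ih =>
    intro d _ h
    exact ih d' h.2.1 h.2.2

lemma wi_nn {L η v : ℝ} (hL : 0 < L) {r : ℕ} {d : ℝ} (hr : Real.log r ≤ d * L) (hd : 0 < 1 - v - η - d) :
    0 ≤ wi L η v r := by
  have h1 : Real.log r / L ≤ d := by rw [div_le_iff₀ hL]; exact hr
  unfold wi
  have : 0 < 1 - v - η - Real.log r / L := by linarith
  positivity

/-- the inner sum -/
lemma in_le {ε U₀ L η v : ℝ} (hU : ∀ u v ρ : ℝ, U₀ ≤ u → 1 ≤ ρ → v ≤ ρ * u →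
    ∑ p ∈ PL u v, (1 : ℝ) / p ≤ Real.log ρ + ε) (hL : 0 < L) (hLU : U₀ ≤ 1 / 6 * L) :
    ∀ (l : List ℝ) (d : ℝ), 1 / 6 ≤ d → oki η v d l →
      ∑ r ∈ PL (d * L) (endi d l * L), wi L η v r ≤ vali ε η v d l := by
  intro l
  induction l with
  | nil =>
    intro d _ _
    show ∑ r ∈ PL (d * L) (d * L), wi L η v r ≤ 0
    rw [sum_eq_zero]
    intro p hp
    rw [mem_PL] at hp
    linarith [hp.2.1, hp.2.2]
  | cons d' l ih =>
    intro d hd h
    obtain ⟨h1, h2, h3⟩ := h
    show ∑ r ∈ PL (d * L) (endi d' l * L), wi L η v r ≤ (lb (d' / d) + ε) / (1 - v - η - d') + vali ε η v d' l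
    have hd0 : 0 < d := by linarith
    rw [sum_PL_add (b := d' * L) (mul_le_mul_of_nonneg_right h1 hL.le)
      (mul_le_mul_of_nonneg_right (endi_ge l d' h3) hL.le)]
    refine add_le_add ?_ (ih d' (hd.trans h1) h3)
    have hin : ∀ r ∈ PL (d * L) (d' * L), wi L η v r ≤ 1 / r * (1 / (1 - v - η - d')) := by
      intro r hr
      rw [mem_PL] at hr
      unfold wi
      apply mul_le_mul_of_nonneg_left _ (by positivity)
      have k1 : Real.log r / L ≤ d' := by rw [div_le_iff₀ hL]; exact hr.2.2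
      exact one_div_le_one_div_of_le h2 (by linarith)
    refine (sum_le_sum hin).trans ?_
    rw [← sum_mul, mul_one_div]
    apply div_le_div_of_nonneg_right _ h2.le
    have h5 : 1 ≤ d' / d := by rw [le_div_iff₀ hd0]; linarith
    refine (hU _ _ (d' / d) ?_ h5 ?_).trans (add_le_add (log_lb h5) le_rfl)
    · exact hLU.trans (mul_le_mul_of_nonneg_right hd hL.le)
    · rw [← mul_assoc, div_mul_cancel₀ _ hd0.ne']

section
variable {P : Ps} {N Z n : ℕ} {η : ℝ} (h : St P N Z n η)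
include h

/-- a slice -/
lemma QQ3_slice {u v r w : ℝ} (hpos : 0 < 1 - v - η - (1 - u) / 2)
    (hS : ∑ p ∈ PL (1 / 6 * P.L) (v / 2 * P.L), (1 : ℝ) / p * JJ P.L u v 1 p ≤ r)
    (hI : ∑ r ∈ PL (1 / 6 * P.L) ((1 - u) / 2 * P.L), wi P.L η v r ≤ w) :
    ∑ m ∈ QQ Z n 3, ∑ r ∈ m.primeFactors.filter (fun r : ℕ => u * P.L < Real.log m - Real.log r ∧
      Real.log m - Real.log r ≤ v * P.L), Tm N n m ≤ r * w := by
  have hL := h.L0
  have key := fib (A := QQ Z n 3) (B := B2 Z N P.L 1 u v) (S := fun _ => PL (1 / 6 * P.L) ((1 - u) / 2 * P.L))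
    (G := fun m => m.primeFactors.filter (fun r : ℕ => u * P.L < Real.log m - Real.log r ∧
      Real.log m - Real.log r ≤ v * P.L)) (f := fun m _ => Tm N n m)
    (F := fun b r => (1 : ℝ) / b * wi P.L η v r) (fun m hm r hr => by
      rw [mem_QQ] at hm
      obtain ⟨hm, hs, hO⟩ := hm
      rw [mem_filter] at hr
      obtain ⟨hr, hr1, hr2⟩ := hr
      have hrp := Nat.prime_of_mem_primeFactors hr
      obtain ⟨b1, b2, b3, b4, b5, b6, b7⟩ := rem_pf hs hr
      have hmN := mz_N h hm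
      have hm' := mem_mz.1 hm
      have hr0 : (0 : ℝ) < r := by exact_mod_cast hrp.pos
      obtain ⟨b, hb⟩ : ∃ b, b = m / r := ⟨_, rfl⟩
      rw [← hb] at b2 b3 b4 b5 b6 b7 ⊢
      have hb0 : (0 : ℝ) < b := by exact_mod_cast b5
      have hlm : Real.log m = Real.log b + Real.log r := by
        rw [b7]; push_cast
        exact Real.log_mul hb0.ne' hr0.ne'
      obtain ⟨p, q, e, hp, hq, hpq, hmf, hdv, hpf⟩ := two_pf b2 (by omega)
      have hp0 : (0 : ℝ) < p := by exact_mod_cast hp.pos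
      have hq0 : (0 : ℝ) < q := by exact_mod_cast hq.pos
      have hl : Real.log b = Real.log p + Real.log q := by
        rw [e]; push_cast
        exact Real.log_mul hp0.ne' hq0.ne'
      have k1 := pf_facts h hm (p := q) (b4 (by rw [hpf]; simp))
      have k0 := pf_facts h hm (p := p) (b4 (by rw [hpf]; simp))
      have k2 := pf_facts h hm hr
      obtain ⟨k3, _, _, _⟩ := kk_facts h hm
      have hlnu := h.hlnu
      refine ⟨b1, ?_, ?_, ?_⟩
      · unfold B2
        rw [mem_filter, mem_Icc]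
        refine ⟨⟨b5, b6.trans hmN.2⟩, b2, by omega, fun p hp => hm'.2.1 p (b4 hp), by linarith, by linarith, ?_⟩
        rw [hdv, hmf]
        linarith [k1.2.1, k2.1]
      · rw [mem_PL]
        refine ⟨hrp, k2.1, ?_⟩
        linarith [k2.2.1]
      · have hr3 : Real.log r ≤ (1 - u) / 2 * P.L := by linarith [k2.2.1]
        have hr4 : Real.log r / P.L ≤ (1 - u) / 2 := by rw [div_le_iff₀ hL]; exact hr3
        have hσ : Real.log m ≤ (v + Real.log r / P.L) * P.L := by
          rw [add_mul, div_mul_cancel₀ _ hL.ne']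
          linarith
        have hT := Tm_le h hm hσ (by linarith)
        refine hT.trans (le_of_eq ?_)
        have e3 : (1 : ℝ) / m = 1 / b * (1 / r) := by
          rw [b7]; push_cast
          rw [one_div_mul_one_div]
        have e4 : 1 - (v + Real.log r / P.L) - η = 1 - v - η - Real.log r / P.L := by ring
        unfold wi
        rw [e3, e4]
        ring)
    (fun b _ r hr => by
      rw [mem_PL] at hr
      exact mul_nonneg (by positivity) (wi_nn hL hr.2.2 hpos))
  refine key.trans ?_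
  rw [← sum_mul_sum]
  have h1 : ∑ m ∈ B2 Z N P.L 1 u v, (1 : ℝ) / m ≤ r := (B2_le h).trans hS
  have h0 : 0 ≤ ∑ m ∈ B2 Z N P.L 1 u v, (1 : ℝ) / m := sum_nonneg fun _ _ => by positivity
  have hI0 : 0 ≤ ∑ r ∈ PL (1 / 6 * P.L) ((1 - u) / 2 * P.L), wi P.L η v r :=
    sum_nonneg fun r hr => by
      rw [mem_PL] at hr
      exact wi_nn hL hr.2.2 hpos
  exact mul_le_mul h1 hI hI0 (h0.trans h1)

/-- the thin parts -/
lemma QQ3_thin {U₀ ε : ℝ} (hU : ∀ u v ρ : ℝ, U₀ ≤ u → 1 ≤ ρ → v ≤ ρ * u →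
    ∑ p ∈ PL u v, (1 : ℝ) / p ≤ Real.log ρ + ε) (hε : 0 < ε) (hLU : U₀ ≤ 1 / 6 * P.L) (c : ℝ) :
    ∑ m ∈ (QQ Z n 3).filter (fun m : ℕ => (c - η) * P.L < Real.log m ∧ Real.log m ≤ (c + η) * P.L), Tm N n m ≤
      441 * (15 * η + ε) := by
  have hL := h.L0
  have hη := h.sp.η1
  have he8 := h.sp.e8
  have he := h.sp.ok.e0
  have hη0 : 0 < η := by
    by_contra hcon
    have : η * P.L ≤ 0 := mul_nonpos_of_nonpos_of_nonneg (by linarith) hL.le
    linarith
  have key := fib (A := (QQ Z n 3).filter (fun m : ℕ => (c - η) * P.L < Real.log m ∧ Real.log m ≤ (c + η) * P.L))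
    (B := RN Z N)
    (S := fun b => PL (max ((c - η) * P.L - Real.log b) (1 / 6 * P.L)) ((c + η) * P.L - Real.log b))
    (G := fun m => {m.minFac}) (f := fun m _ => Tm N n m)
    (F := fun b r => (7 : ℝ) / b * (1 / r)) (fun m hm r hr => by
      rw [mem_singleton] at hr
      rw [mem_filter, mem_QQ] at hm
      obtain ⟨⟨hm, hs, hO⟩, hm1, hm2⟩ := hm
      have hm3 : m ≠ 1 := by
        intro h0
        rw [h0, ArithmeticFunction.cardFactors_one] at hO
        omega
      have hrp : r.Prime := by rw [hr]; exact Nat.minFac_prime hm3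
      have hmN := mz_N h hm
      have hr : r ∈ m.primeFactors := Nat.mem_primeFactors.2 ⟨hrp, by rw [hr]; exact Nat.minFac_dvd m, by omega⟩
      obtain ⟨b1, b2, b3, b4, b5, b6, b7⟩ := rem_pf hs hr
      have hm' := mem_mz.1 hm
      have hr0 : (0 : ℝ) < r := by exact_mod_cast hrp.pos
      have k2 := pf_facts h hm hr
      obtain ⟨b, hb⟩ : ∃ b, b = m / r := ⟨_, rfl⟩
      rw [← hb] at b2 b3 b4 b5 b6 b7 ⊢
      have hb0 : (0 : ℝ) < b := by exact_mod_cast b5
      have hlm : Real.log m = Real.log b + Real.log r := by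
        rw [b7]; push_cast
        exact Real.log_mul hb0.ne' hr0.ne'
      refine ⟨b1, ?_, ?_, ?_⟩
      · unfold RN
        rw [mem_filter, mem_Icc]
        exact ⟨⟨b5, b6.trans hmN.2⟩, fun p hp => hm'.2.1 p (b4 hp)⟩
      · rw [mem_PL]
        exact ⟨hrp, max_lt (by linarith) k2.1, by linarith⟩
      · refine (Tm_le7 h hm).trans (le_of_eq ?_)
        rw [b7]; push_cast
        rw [div_mul_div_comm, mul_one]) (fun b _ r _ => by positivity)
  simp only [sum_singleton] at key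
  refine key.trans ?_
  have hlog : Real.log (1 + 15 * η) ≤ 15 * η := by
    have := Real.log_le_sub_one_of_pos (show 0 < 1 + 15 * η by linarith)
    linarith
  have hin : ∀ b ∈ RN Z N, ∑ r ∈ PL (max ((c - η) * P.L - Real.log b) (1 / 6 * P.L)) ((c + η) * P.L - Real.log b),
      (7 : ℝ) / b * (1 / r) ≤ 7 * (15 * η + ε) * (1 / b) := by
    intro b _
    rw [← mul_sum]
    have h1 := hU (max ((c - η) * P.L - Real.log b) (1 / 6 * P.L)) ((c + η) * P.L - Real.log b) (1 + 15 * η)
      (hLU.trans (le_max_right _ _)) (by linarith) (by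
        obtain ⟨X, hX⟩ : ∃ X, X = max ((c - η) * P.L - Real.log b) (1 / 6 * P.L) := ⟨_, rfl⟩
        have x1 : (c - η) * P.L - Real.log b ≤ X := by rw [hX]; exact le_max_left _ _
        have x2 : 1 / 6 * P.L ≤ X := by rw [hX]; exact le_max_right _ _
        rw [← hX]
        have x3 : 15 * η * (1 / 6 * P.L) ≤ 15 * η * X := mul_le_mul_of_nonneg_left x2 (by linarith)
        have x4 : 0 ≤ η * P.L := by positivity
        nlinarith)
    have h2 : ∑ r ∈ PL (max ((c - η) * P.L - Real.log b) (1 / 6 * P.L)) ((c + η) * P.L - Real.log b), (1 : ℝ) / r ≤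
      15 * η + ε := by linarith
    calc (7 : ℝ) / b * _ ≤ 7 / b * (15 * η + ε) := mul_le_mul_of_nonneg_left h2 (by positivity)
      _ = 7 * (15 * η + ε) * (1 / b) := by ring
  refine (sum_le_sum hin).trans ?_
  rw [← mul_sum]
  have h3 := h.bz.sum
  have h4 : 0 ≤ 7 * (15 * η + ε) := by positivity
  calc 7 * (15 * η + ε) * ∑ b ∈ RN Z N, (1 : ℝ) / b ≤ 7 * (15 * η + ε) * 63 := mul_le_mul_of_nonneg_left h3 h4
    _ = 441 * (15 * η + ε) := by ring

end

/-- the sum over the slices for three primes -/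
lemma D_split {P : Ps} {N Z n : ℕ} {η : ℝ} (h : St P N Z n η) (u : ℝ) (v : ℝ) (w : ℝ) (huv : u ≤ v) (hvw : v ≤ w) :
    ∑ m ∈ QQ Z n 3, ∑ r ∈ m.primeFactors.filter (fun r : ℕ => u * P.L < Real.log m - Real.log r ∧
      Real.log m - Real.log r ≤ w * P.L), Tm N n m =
    ∑ m ∈ QQ Z n 3, ∑ r ∈ m.primeFactors.filter (fun r : ℕ => u * P.L < Real.log m - Real.log r ∧
      Real.log m - Real.log r ≤ v * P.L), Tm N n m +
    ∑ m ∈ QQ Z n 3, ∑ r ∈ m.primeFactors.filter (fun r : ℕ => v * P.L < Real.log m - Real.log r ∧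
      Real.log m - Real.log r ≤ w * P.L), Tm N n m := by
  classical
  have hL := h.L0
  have h1 : u * P.L ≤ v * P.L := mul_le_mul_of_nonneg_right huv hL.le
  have h2 : v * P.L ≤ w * P.L := mul_le_mul_of_nonneg_right hvw hL.le
  rw [← sum_add_distrib]
  refine sum_congr rfl fun m _ => ?_
  rw [← sum_union]
  · congr 1
    ext r
    simp only [mem_union, mem_filter]
    constructor
    · rintro ⟨a1, a2, a3⟩
      rcases le_or_gt (Real.log m - Real.log r) (v * P.L) with hc | hc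
      · exact Or.inl ⟨a1, a2, hc⟩
      · exact Or.inr ⟨a1, hc, a3⟩
    · rintro (⟨a1, a2, a3⟩ | ⟨a1, a2, a3⟩)
      · exact ⟨a1, a2, a3.trans h2⟩
      · exact ⟨a1, lt_of_le_of_lt h1 a2, a3⟩
  · rw [disjoint_left]
    intro r hr1 hr2
    rw [mem_filter] at hr1 hr2
    linarith [hr1.2.2, hr2.2.1]

section
variable {P : Ps} {N Z n : ℕ} {η : ℝ} (h : St P N Z n η)
include h

/-- three prime factors -/
lemma QQ3_le {D1 D2 T1 T2 : ℝ}
    (hD1 : ∑ m ∈ QQ Z n 3, ∑ r ∈ m.primeFactors.filter (fun r : ℕ => 388 / 1000 * P.L < Real.log m - Real.log r ∧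
      Real.log m - Real.log r ≤ (5 / 12 + η) * P.L), Tm N n m ≤ D1)
    (hD2 : ∑ m ∈ QQ Z n 3, ∑ r ∈ m.primeFactors.filter (fun r : ℕ => (1 / 2 - η) * P.L < Real.log m - Real.log r ∧
      Real.log m - Real.log r ≤ (1 / 2 + η) * P.L), Tm N n m ≤ D2)
    (hT1 : ∑ m ∈ (QQ Z n 3).filter (fun m : ℕ => (7 / 12 - η) * P.L < Real.log m ∧ Real.log m ≤ (7 / 12 + η) * P.L),
      Tm N n m ≤ T1)
    (hT2 : ∑ m ∈ (QQ Z n 3).filter (fun m : ℕ => (1 / 2 - η) * P.L < Real.log m ∧ Real.log m ≤ (1 / 2 + η) * P.L),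
      Tm N n m ≤ T2) :
    -(D1 + D2 + T1 + T2) ≤ ∑ m ∈ QQ Z n 3, VP P m (kk n m) * Tm N n m := by
  rw [sum_filter] at hT1 hT2
  have hpt : ∀ m ∈ QQ Z n 3, -(∑ r ∈ m.primeFactors.filter (fun r : ℕ => 388 / 1000 * P.L < Real.log m - Real.log r ∧
      Real.log m - Real.log r ≤ (5 / 12 + η) * P.L), Tm N n m +
      ∑ r ∈ m.primeFactors.filter (fun r : ℕ => (1 / 2 - η) * P.L < Real.log m - Real.log r ∧
      Real.log m - Real.log r ≤ (1 / 2 + η) * P.L), Tm N n m +
      (if (7 / 12 - η) * P.L < Real.log m ∧ Real.log m ≤ (7 / 12 + η) * P.L then Tm N n m else 0) +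
      (if (1 / 2 - η) * P.L < Real.log m ∧ Real.log m ≤ (1 / 2 + η) * P.L then Tm N n m else 0)) ≤
      VP P m (kk n m) * Tm N n m := by
    intro m hm
    rw [mem_QQ] at hm
    obtain ⟨hm, hs, hO⟩ := hm
    have hT0 := Tm_nn h hm
    have hlo := lo3 h hm hs hO
    refine le_trans (le_of_eq ?_) (mul_le_mul_of_nonneg_right hlo hT0)
    have e1 : ∀ r : ℕ, gp P.L η (Real.log m - Real.log r) * Tm N n m =
        (if 388 / 1000 * P.L < Real.log m - Real.log r ∧ Real.log m - Real.log r ≤ (5 / 12 + η) * P.L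
          then Tm N n m else 0) +
        (if (1 / 2 - η) * P.L < Real.log m - Real.log r ∧ Real.log m - Real.log r ≤ (1 / 2 + η) * P.L
          then Tm N n m else 0) := by
      intro r
      unfold gp
      split_ifs <;> ring
    have e2 : wt3 P.L η (Real.log m) * Tm N n m =
        (if (7 / 12 - η) * P.L < Real.log m ∧ Real.log m ≤ (7 / 12 + η) * P.L then Tm N n m else 0) +
        (if (1 / 2 - η) * P.L < Real.log m ∧ Real.log m ≤ (1 / 2 + η) * P.L then Tm N n m else 0) := by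
      unfold wt3
      split_ifs <;> ring
    have e0 : (∑ r ∈ m.primeFactors, gp P.L η (Real.log m - Real.log r) + wt3 P.L η (Real.log m)) * Tm N n m =
        ∑ r ∈ m.primeFactors.filter (fun r : ℕ => 388 / 1000 * P.L < Real.log m - Real.log r ∧
          Real.log m - Real.log r ≤ (5 / 12 + η) * P.L), Tm N n m +
        ∑ r ∈ m.primeFactors.filter (fun r : ℕ => (1 / 2 - η) * P.L < Real.log m - Real.log r ∧
          Real.log m - Real.log r ≤ (1 / 2 + η) * P.L), Tm N n m +
        ((if (7 / 12 - η) * P.L < Real.log m ∧ Real.log m ≤ (7 / 12 + η) * P.L then Tm N n m else 0) +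
        (if (1 / 2 - η) * P.L < Real.log m ∧ Real.log m ≤ (1 / 2 + η) * P.L then Tm N n m else 0)) := by
      rw [sum_filter, sum_filter, ← sum_add_distrib, ← e2, ← sum_congr rfl fun r _ => e1 r, ← sum_mul]
      exact add_mul _ _ _
    rw [neg_mul, e0]
    ring
  refine le_trans ?_ (sum_le_sum hpt)
  rw [sum_neg_distrib, sum_add_distrib, sum_add_distrib, sum_add_distrib]
  linarith

end

end Pool.Agent.J4H40
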