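import Pool.Agent.J4H40.Rf

set_option autoImplicit false

/-! The lower bound for the density. -/

namespace Pool.Agent.J4H40

open Finset
open ArithmeticFunction (cardFactors)

section
variable {P : Ps} {N Z n : ℕ} {η : ℝ} (h : St P N Z n η)
include h

lemma Wv_split : Wv N Z (VP P) n = ∑ m ∈ NS Z n, VP P m (kk n m) * Tm N n m +
    ∑ j ∈ range 5, ∑ m ∈ QQ Z n j, VP P m (kk n m) * Tm N n m := by
  classical
  have e1 : Wv N Z (VP P) n = ∑ m ∈ mz Z n, VP P m (kk n m) * Tm N n m := by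
    unfold Wv
    rw [mul_sum]
    refine sum_congr rfl fun m _ => ?_
    unfold Tm
    ring
  rw [e1, ← sum_filter_add_sum_filter_not (mz Z n) (fun m => ¬ Squarefree m)]
  congr 1
  simp only [not_not]
  rw [← sum_fiberwise_of_maps_to (s := (mz Z n).filter (fun m => Squarefree m)) (t := range 5)
    (g := fun m => cardFactors m) (fun m hm => by
      rw [mem_filter] at hm
      rw [mem_range]
      have := om_le h hm.1
      omega)]
  refine sum_congr rfl fun j _ => ?_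
  unfold QQ
  rw [filter_filter]

lemma NS_ge : -(42336 * (1 / Z)) ≤ ∑ m ∈ NS Z n, VP P m (kk n m) * Tm N n m := by
  have hpt : ∀ m ∈ NS Z n, -(672 * ((1 : ℝ) / m)) ≤ VP P m (kk n m) * Tm N n m := by
    intro m hm
    unfold NS at hm
    rw [mem_filter] at hm
    have hmN := mz_N h hm.1
    have hm' := mem_mz.1 hm.1
    have h1 := (vb_VP h.sp.ok h.bz.Z6).bd m (kk n m) hmN.1 hmN.2 hm'.2.1
    have h2 := (abs_le.1 h1).1
    have hT0 := Tm_nn h hm.1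
    have hT7 := Tm_le7 h hm.1
    have h3 : (7 : ℝ) / m = 7 * (1 / m) := by ring
    rw [h3] at hT7
    nlinarith
  refine le_trans ?_ (sum_le_sum hpt)
  rw [sum_neg_distrib, ← mul_sum]
  have := NS_le h
  linarith

lemma QQ0_ge (h1 : 1 ∈ mz Z n) (hn1 : 2 ≤ n) : 1 ≤ ∑ m ∈ QQ Z n 0, VP P m (kk n m) * Tm N n m := by
  have e : QQ Z n 0 = {1} := by
    ext m
    rw [mem_QQ, mem_singleton]
    constructor
    · rintro ⟨a1, a2, a3⟩
      exact om_zero (Nat.pos_iff_ne_zero.1 (mz_N h a1).1) a3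
    · rintro rfl
      exact ⟨h1, squarefree_one, ArithmeticFunction.cardFactors_one⟩
  rw [e, sum_singleton, lo0 h h1, one_mul]
  unfold Tm
  rw [Nat.cast_one, one_mul, div_one, mul_one_div, le_div_iff₀ (Real.log_pos (by exact_mod_cast hn1)), one_mul]
  rw [← h.hL]
  exact h.hlnu

/-- the density -/
theorem W_ge (h1 : 1 ∈ mz Z n) (hn1 : 2 ≤ n) {U₀ ε : ℝ} (hU : ∀ u v ρ : ℝ, U₀ ≤ u → 1 ≤ ρ → v ≤ ρ * u →
    ∑ p ∈ PL u v, (1 : ℝ) / p ≤ Real.log ρ + ε) (hε : 0 < ε) (hLU : U₀ ≤ 1 / 6 * P.L) {A B C D1 D2 : ℝ}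
    (hC : ∑ m ∈ (QQ Z n 2).filter (fun m : ℕ => 388 / 1000 * P.L < Real.log m ∧ Real.log m ≤ (5 / 12 - η) * P.L),
      Tm N n m ≤ C)
    (hB : ∑ m ∈ (QQ Z n 2).filter (fun m : ℕ => (5 / 12 - η) * P.L < Real.log m ∧ Real.log m ≤ (1 / 2 + η) * P.L),
      Tm N n m ≤ B)
    (hA : ∑ m ∈ (QQ Z n 2).filter (fun m : ℕ => (7 / 12 - η) * P.L < Real.log m ∧ Real.log m ≤ 2 / 3 * P.L),
      Tm N n m ≤ A)
    (hD1 : ∑ m ∈ QQ Z n 3, ∑ r ∈ m.primeFactors.filter (fun r : ℕ => 388 / 1000 * P.L < Real.log m - Real.log r ∧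
      Real.log m - Real.log r ≤ (5 / 12 + η) * P.L), Tm N n m ≤ D1)
    (hD2 : ∑ m ∈ QQ Z n 3, ∑ r ∈ m.primeFactors.filter (fun r : ℕ => (1 / 2 - η) * P.L < Real.log m - Real.log r ∧
      Real.log m - Real.log r ≤ (1 / 2 + η) * P.L), Tm N n m ≤ D2) :
    1 - (42336 * (1 / Z) + 6 * (3 * η + ε) + (C + 2 * B + 2 * A) +
      (D1 + D2 + 441 * (15 * η + ε) + 441 * (15 * η + ε)) +
      (10 + 300 * η) * ((1 / (1 / 5 - η)) * ((4056 / 10000 + ε) ^ 4 / 24))) ≤ Wv N Z (VP P) n := by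
  rw [Wv_split h]
  have a0 := QQ0_ge h h1 hn1
  have a1 := QQ1_le h hU hLU
  have a2 := QQ2_le h hC hB hA
  have a3 := QQ3_le h hD1 hD2 (QQ3_thin h hU hε hLU (7 / 12)) (QQ3_thin h hU hε hLU (1 / 2))
  have a4 := QQ4_le h hU hLU
  have a5 := NS_ge h
  rw [sum_range_succ, sum_range_succ, sum_range_succ, sum_range_succ, sum_range_one]
  linarith

end

end Pool.Agent.J4H40
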