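import Pool.Agent.J4H40.Rg

set_option autoImplicit false

/-! The numerical bounds. -/

namespace Pool.Agent.J4H40

open Finset

lemma okc_nil {u v M c : ℝ} : okc u v M c [] := trivial

lemma k1 {u v M c c' ρ : ℝ} {l : List (ℝ × ℝ)} (h1 : c ≤ c') (h2 : 1 ≤ ρ) (h3 : v - c' ≤ ρ * (u - c'))
    (h4 : okc u v M c' l) : okc u v M c ((c', ρ) :: l) := by
  refine ⟨h1, h2, fun τ _ hτ => ?_, h4⟩
  have h5 : v - τ ≤ ρ * (u - τ) := by nlinarith
  exact (min_le_left _ _).trans (h5.trans (mul_le_mul_of_nonneg_left (le_max_left _ _) (by linarith)))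

lemma k2 {u v M c c' ρ : ℝ} {l : List (ℝ × ℝ)} (h1 : c ≤ c') (h2 : 1 ≤ ρ) (h3 : (M - c') / 2 ≤ ρ * (u - c'))
    (h4 : okc u v M c' l) : okc u v M c ((c', ρ) :: l) := by
  refine ⟨h1, h2, fun τ _ hτ => ?_, h4⟩
  have h5 : (M - τ) / 2 ≤ ρ * (u - τ) := by nlinarith
  exact (min_le_right _ _).trans (h5.trans (mul_le_mul_of_nonneg_left (le_max_left _ _) (by linarith)))

lemma k3 {u v M c c' ρ : ℝ} {l : List (ℝ × ℝ)} (h1 : c ≤ c') (h2 : 1 ≤ ρ) (h3 : v - c ≤ ρ * c)
    (h4 : okc u v M c' l) : okc u v M c ((c', ρ) :: l) := by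
  refine ⟨h1, h2, fun τ hτ _ => ?_, h4⟩
  have h5 : v - τ ≤ ρ * τ := by nlinarith
  exact (min_le_left _ _).trans (h5.trans (mul_le_mul_of_nonneg_left (le_max_right _ _) (by linarith)))

lemma k4 {u v M c c' ρ : ℝ} {l : List (ℝ × ℝ)} (h1 : c ≤ c') (h2 : 1 ≤ ρ) (h3 : (M - c) / 2 ≤ ρ * c)
    (h4 : okc u v M c' l) : okc u v M c ((c', ρ) :: l) := by
  refine ⟨h1, h2, fun τ hτ _ => ?_, h4⟩
  have h5 : (M - τ) / 2 ≤ ρ * τ := by nlinarith
  exact (min_le_right _ _).trans (h5.trans (mul_le_mul_of_nonneg_left (le_max_right _ _) (by linarith)))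

/-- eventually the conditions for the slices hold -/
def EvS (η u : ℝ) (l : List (ℝ × ℝ)) : Prop := ∃ L₀ : ℝ, ∀ L : ℝ, L₀ ≤ L → oks η L u l

lemma evs_nil {η u : ℝ} : EvS η u [] := ⟨0, fun _ _ => trivial⟩

lemma evs_cons {η u v r : ℝ} {l : List (ℝ × ℝ)} (hS : SB u v 1 r) (h1 : u ≤ v) (h2 : 0 < 1 - v - η) (h3 : 0 ≤ r)
    (hl : EvS η v l) : EvS η u ((v, r) :: l) := by
  obtain ⟨L₁, h4⟩ := hS
  obtain ⟨L₂, h5⟩ := hl
  exact ⟨max L₁ L₂, fun L hL => ⟨h1, h2, h3, h4 L ((le_max_left _ _).trans hL), h5 L ((le_max_right _ _).trans hL)⟩⟩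


lemma slA0 : SB (17499997 / 30000000) (71 / 120) 1 (132197 / 10000000) :=
  sb_of (ε := 1 / 10 ^ 7) [(41 / 240, 50253 / 50000), (7 / 40, 101021 / 100000), (11 / 60, 25521 / 25000), (101 / 480, 20447 / 20000), (19 / 80, 10241 / 10000), (127 / 480, 20523 / 20000), (17499997 / 60000000, 51429 / 50000), (71 / 240, 51429 / 50000)] (by norm_num)
    (k2 (by norm_num) (by norm_num) (by norm_num) (k2 (by norm_num) (by norm_num) (by norm_num) (k1 (by norm_num) (by norm_num) (by norm_num) (k1 (by norm_num) (by norm_num) (by norm_num) (k1 (by norm_num) (by norm_num) (by norm_num) (k1 (by norm_num) (by norm_num) (by norm_num) (k1 (by norm_num) (by norm_num) (by norm_num) (k3 (by norm_num) (by norm_num) (by norm_num) okc_nil))))))))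
    (by simp only [endc]; norm_num) (by simp only [valc, lb]; norm_num)

lemma slA1 : SB (71 / 120) (3 / 5) 1 (28341 / 2500000) :=
  sb_of (ε := 1 / 10 ^ 7) [(11 / 60, 1), (3 / 16, 25129 / 25000), (23 / 120, 50521 / 50000), (1 / 5, 6383 / 6250), (43 / 192, 102267 / 100000), (119 / 480, 4097 / 4000), (87 / 320, 51303 / 50000), (71 / 240, 102817 / 100000), (3 / 10, 102817 / 100000)] (by norm_num)
    (k2 (by norm_num) (by norm_num) (by norm_num) (k2 (by norm_num) (by norm_num) (by norm_num) (k2 (by norm_num) (by norm_num) (by norm_num) (k1 (by norm_num) (by norm_num) (by norm_num) (k1 (by norm_num) (by norm_num) (by norm_num) (k1 (by norm_num) (by norm_num) (by norm_num) (k1 (by norm_num) (by norm_num) (by norm_num) (k1 (by norm_num) (by norm_num) (by norm_num) (k3 (by norm_num) (by norm_num) (by norm_num) okc_nil)))))))))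
    (by simp only [endc]; norm_num) (by simp only [valc, lb]; norm_num)

lemma slA2 : SB (3 / 5) (73 / 120) 1 (24073 / 2500000) :=
  sb_of (ε := 1 / 10 ^ 7) [(1 / 5, 1), (49 / 240, 100527 / 100000), (5 / 24, 12633 / 12500), (13 / 60, 51087 / 50000), (19 / 80, 102299 / 100000), (31 / 120, 2561 / 2500), (67 / 240, 51299 / 50000), (3 / 10, 51389 / 50000), (73 / 240, 51389 / 50000)] (by norm_num)
    (k2 (by norm_num) (by norm_num) (by norm_num) (k2 (by norm_num) (by norm_num) (by norm_num) (k2 (by norm_num) (by norm_num) (by norm_num) (k1 (by norm_num) (by norm_num) (by norm_num) (k1 (by norm_num) (by norm_num) (by norm_num) (k1 (by norm_num) (by norm_num) (by norm_num) (k1 (by norm_num) (by norm_num) (by norm_num) (k1 (by norm_num) (by norm_num) (by norm_num) (k3 (by norm_num) (by norm_num) (by norm_num) okc_nil)))))))))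
    (by simp only [endc]; norm_num) (by simp only [valc, lb]; norm_num)

lemma slA3 : SB (73 / 120) (37 / 60) 1 (80613 / 10000000) :=
  sb_of (ε := 1 / 10 ^ 7) [(13 / 60, 1), (53 / 240, 50269 / 50000), (9 / 40, 101087 / 100000), (11 / 48, 101649 / 100000), (7 / 30, 102223 / 100000), (43 / 160, 51227 / 50000), (55 / 192, 102589 / 100000), (73 / 240, 5137 / 5000), (37 / 120, 5137 / 5000)] (by norm_num)
    (k2 (by norm_num) (by norm_num) (by norm_num) (k2 (by norm_num) (by norm_num) (by norm_num) (k2 (by norm_num) (by norm_num) (by norm_num) (k2 (by norm_num) (by norm_num) (by norm_num) (k1 (by norm_num) (by norm_num) (by norm_num) (k1 (by norm_num) (by norm_num) (by norm_num) (k1 (by norm_num) (by norm_num) (by norm_num) (k1 (by norm_num) (by norm_num) (by norm_num) (k3 (by norm_num) (by norm_num) (by norm_num) okc_nil)))))))))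
    (by simp only [endc]; norm_num) (by simp only [valc, lb]; norm_num)

lemma slA4 : SB (37 / 60) (5 / 8) 1 (65753 / 10000000) :=
  sb_of (ε := 1 / 10 ^ 7) [(7 / 30, 1), (19 / 80, 2011 / 2000), (29 / 120, 12639 / 12500), (59 / 240, 50843 / 50000), (1 / 4, 102273 / 100000), (67 / 240, 10247 / 10000), (37 / 120, 102703 / 100000), (149 / 480, 102703 / 100000), (5 / 16, 101343 / 100000)] (by norm_num)
    (k2 (by norm_num) (by norm_num) (by norm_num) (k2 (by norm_num) (by norm_num) (by norm_num) (k2 (by norm_num) (by norm_num) (by norm_num) (k2 (by norm_num) (by norm_num) (by norm_num) (k1 (by norm_num) (by norm_num) (by norm_num) (k1 (by norm_num) (by norm_num) (by norm_num) (k1 (by norm_num) (by norm_num) (by norm_num) (k3 (by norm_num) (by norm_num) (by norm_num) (k3 (by norm_num) (by norm_num) (by norm_num) okc_nil)))))))))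
    (by simp only [endc]; norm_num) (by simp only [valc, lb]; norm_num)

lemma slA5 : SB (5 / 8) (19 / 30) 1 (6509 / 1250000) :=
  sb_of (ε := 1 / 10 ^ 7) [(1 / 4, 1), (61 / 240, 50281 / 50000), (31 / 120, 101137 / 100000), (21 / 80, 4069 / 4000), (4 / 15, 51163 / 50000), (139 / 480, 20497 / 20000), (5 / 16, 102667 / 100000), (151 / 480, 102667 / 100000), (19 / 60, 4053 / 4000)] (by norm_num)
    (k2 (by norm_num) (by norm_num) (by norm_num) (k2 (by norm_num) (by norm_num) (by norm_num) (k2 (by norm_num) (by norm_num) (by norm_num) (k2 (by norm_num) (by norm_num) (by norm_num) (k1 (by norm_num) (by norm_num) (by norm_num) (k1 (by norm_num) (by norm_num) (by norm_num) (k1 (by norm_num) (by norm_num) (by norm_num) (k3 (by norm_num) (by norm_num) (by norm_num) (k3 (by norm_num) (by norm_num) (by norm_num) okc_nil)))))))))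
    (by simp only [endc]; norm_num) (by simp only [valc, lb]; norm_num)

lemma slA6 : SB (19 / 30) (77 / 120) 1 (19751 / 5000000) :=
  sb_of (ε := 1 / 10 ^ 7) [(4 / 15, 1), (13 / 48, 4023 / 4000), (11 / 40, 101163 / 100000), (67 / 240, 20353 / 20000), (17 / 60, 102381 / 100000), (3 / 10, 41 / 40), (19 / 60, 12829 / 12500), (51 / 160, 12829 / 12500), (77 / 240, 25327 / 25000)] (by norm_num)
    (k2 (by norm_num) (by norm_num) (by norm_num) (k2 (by norm_num) (by norm_num) (by norm_num) (k2 (by norm_num) (by norm_num) (by norm_num) (k2 (by norm_num) (by norm_num) (by norm_num) (k1 (by norm_num) (by norm_num) (by norm_num) (k1 (by norm_num) (by norm_num) (by norm_num) (k1 (by norm_num) (by norm_num) (by norm_num) (k3 (by norm_num) (by norm_num) (by norm_num) (k3 (by norm_num) (by norm_num) (by norm_num) okc_nil)))))))))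
    (by simp only [endc]; norm_num) (by simp only [valc, lb]; norm_num)

lemma slA7 : SB (77 / 120) (13 / 20) 1 (13957 / 5000000) :=
  sb_of (ε := 1 / 10 ^ 7) [(17 / 60, 1), (23 / 80, 100589 / 100000), (7 / 24, 101191 / 100000), (71 / 240, 6363 / 6250), (3 / 10, 2561 / 2500), (149 / 480, 25629 / 25000), (77 / 240, 51299 / 50000), (31 / 96, 51299 / 50000), (13 / 40, 101291 / 100000)] (by norm_num)
    (k2 (by norm_num) (by norm_num) (by norm_num) (k2 (by norm_num) (by norm_num) (by norm_num) (k2 (by norm_num) (by norm_num) (by norm_num) (k2 (by norm_num) (by norm_num) (by norm_num) (k1 (by norm_num) (by norm_num) (by norm_num) (k1 (by norm_num) (by norm_num) (by norm_num) (k1 (by norm_num) (by norm_num) (by norm_num) (k3 (by norm_num) (by norm_num) (by norm_num) (k3 (by norm_num) (by norm_num) (by norm_num) okc_nil)))))))))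
    (by simp only [endc]; norm_num) (by simp only [valc, lb]; norm_num)

lemma slA8 : SB (13 / 20) (79 / 120) 1 (8503 / 5000000) :=
  sb_of (ε := 1 / 10 ^ 7) [(3 / 10, 1), (73 / 240, 100603 / 100000), (37 / 120, 5061 / 5000), (5 / 16, 25463 / 25000), (151 / 480, 51087 / 50000), (19 / 60, 41 / 40), (13 / 40, 20513 / 20000), (157 / 480, 20513 / 20000), (79 / 240, 50637 / 50000)] (by norm_num)
    (k2 (by norm_num) (by norm_num) (by norm_num) (k2 (by norm_num) (by norm_num) (by norm_num) (k2 (by norm_num) (by norm_num) (by norm_num) (k2 (by norm_num) (by norm_num) (by norm_num) (k2 (by norm_num) (by norm_num) (by norm_num) (k1 (by norm_num) (by norm_num) (by norm_num) (k1 (by norm_num) (by norm_num) (by norm_num) (k3 (by norm_num) (by norm_num) (by norm_num) (k3 (by norm_num) (by norm_num) (by norm_num) okc_nil)))))))))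
    (by simp only [endc]; norm_num) (by simp only [valc, lb]; norm_num)

lemma slA9 : SB (79 / 120) (2 / 3) 1 (5981 / 10000000) :=
  sb_of (ε := 1 / 10 ^ 7) [(19 / 60, 1), (307 / 960, 50231 / 50000), (31 / 96, 25233 / 25000), (313 / 960, 101411 / 100000), (79 / 240, 101899 / 100000), (317 / 960, 101899 / 100000), (53 / 160, 5071 / 5000), (319 / 960, 6309 / 6250), (1 / 3, 100471 / 100000)] (by norm_num)
    (k2 (by norm_num) (by norm_num) (by norm_num) (k2 (by norm_num) (by norm_num) (by norm_num) (k2 (by norm_num) (by norm_num) (by norm_num) (k2 (by norm_num) (by norm_num) (by norm_num) (k2 (by norm_num) (by norm_num) (by norm_num) (k4 (by norm_num) (by norm_num) (by norm_num) (k4 (by norm_num) (by norm_num) (by norm_num) (k4 (by norm_num) (by norm_num) (by norm_num) (k4 (by norm_num) (by norm_num) (by norm_num) okc_nil)))))))))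
    (by simp only [endc]; norm_num) (by simp only [valc, lb]; norm_num)

lemma slB0 : SB (12499997 / 30000000) (17 / 40) 1 (43211 / 5000000) :=
  sb_of (ε := 1 / 10 ^ 7) [(17 / 96, 103479 / 100000), (3 / 16, 103637 / 100000), (19 / 96, 10381 / 10000), (12499997 / 60000000, 104001 / 100000), (67 / 320, 104001 / 100000), (101 / 480, 51493 / 50000), (203 / 960, 101981 / 100000), (17 / 80, 50493 / 50000)] (by norm_num)
    (k1 (by norm_num) (by norm_num) (by norm_num) (k1 (by norm_num) (by norm_num) (by norm_num) (k1 (by norm_num) (by norm_num) (by norm_num) (k1 (by norm_num) (by norm_num) (by norm_num) (k3 (by norm_num) (by norm_num) (by norm_num) (k3 (by norm_num) (by norm_num) (by norm_num) (k3 (by norm_num) (by norm_num) (by norm_num) (k3 (by norm_num) (by norm_num) (by norm_num) okc_nil))))))))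
    (by simp only [endc]; norm_num) (by simp only [valc, lb]; norm_num)

lemma slB1 : SB (17 / 40) (13 / 30) 1 (45641 / 5000000) :=
  sb_of (ε := 1 / 10 ^ 7) [(57 / 320, 6461 / 6250), (91 / 480, 5177 / 5000), (193 / 960, 103721 / 100000), (17 / 80, 51961 / 50000), (41 / 192, 51961 / 50000), (103 / 480, 102927 / 100000), (69 / 320, 50971 / 50000), (13 / 60, 100967 / 100000)] (by norm_num)
    (k1 (by norm_num) (by norm_num) (by norm_num) (k1 (by norm_num) (by norm_num) (by norm_num) (k1 (by norm_num) (by norm_num) (by norm_num) (k1 (by norm_num) (by norm_num) (by norm_num) (k3 (by norm_num) (by norm_num) (by norm_num) (k3 (by norm_num) (by norm_num) (by norm_num) (k3 (by norm_num) (by norm_num) (by norm_num) (k3 (by norm_num) (by norm_num) (by norm_num) okc_nil))))))))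
    (by simp only [endc]; norm_num) (by simp only [valc, lb]; norm_num)

lemma slB2 : SB (13 / 30) (53 / 120) 1 (47897 / 5000000) :=
  sb_of (ε := 1 / 10 ^ 7) [(43 / 240, 103279 / 100000), (23 / 120, 103449 / 100000), (49 / 240, 103637 / 100000), (13 / 60, 103847 / 100000), (209 / 960, 103847 / 100000), (7 / 32, 102871 / 100000), (211 / 960, 20381 / 20000), (53 / 240, 25237 / 25000)] (by norm_num)
    (k1 (by norm_num) (by norm_num) (by norm_num) (k1 (by norm_num) (by norm_num) (by norm_num) (k1 (by norm_num) (by norm_num) (by norm_num) (k1 (by norm_num) (by norm_num) (by norm_num) (k3 (by norm_num) (by norm_num) (by norm_num) (k3 (by norm_num) (by norm_num) (by norm_num) (k3 (by norm_num) (by norm_num) (by norm_num) (k3 (by norm_num) (by norm_num) (by norm_num) okc_nil))))))))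
    (by simp only [endc]; norm_num) (by simp only [valc, lb]; norm_num)

lemma slB3 : SB (53 / 120) (9 / 20) 1 (99961 / 10000000) :=
  sb_of (ε := 1 / 10 ^ 7) [(173 / 960, 25797 / 25000), (31 / 160, 51681 / 50000), (199 / 960, 25889 / 25000), (53 / 240, 51887 / 50000), (71 / 320, 51887 / 50000), (107 / 480, 102817 / 100000), (43 / 192, 10187 / 10000), (9 / 40, 100931 / 100000)] (by norm_num)
    (k1 (by norm_num) (by norm_num) (by norm_num) (k1 (by norm_num) (by norm_num) (by norm_num) (k1 (by norm_num) (by norm_num) (by norm_num) (k1 (by norm_num) (by norm_num) (by norm_num) (k3 (by norm_num) (by norm_num) (by norm_num) (k3 (by norm_num) (by norm_num) (by norm_num) (k3 (by norm_num) (by norm_num) (by norm_num) (k3 (by norm_num) (by norm_num) (by norm_num) okc_nil))))))))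
    (by simp only [endc]; norm_num) (by simp only [valc, lb]; norm_num)

lemma slB4 : SB (9 / 20) (11 / 24) 1 (20763 / 2000000) :=
  sb_of (ε := 1 / 10 ^ 7) [(29 / 160, 103101 / 100000), (47 / 240, 103279 / 100000), (101 / 480, 103479 / 100000), (9 / 40, 12963 / 12500), (217 / 960, 12963 / 12500), (109 / 480, 20553 / 20000), (73 / 320, 20367 / 20000), (11 / 48, 50457 / 50000)] (by norm_num)
    (k1 (by norm_num) (by norm_num) (by norm_num) (k1 (by norm_num) (by norm_num) (by norm_num) (k1 (by norm_num) (by norm_num) (by norm_num) (k1 (by norm_num) (by norm_num) (by norm_num) (k3 (by norm_num) (by norm_num) (by norm_num) (k3 (by norm_num) (by norm_num) (by norm_num) (k3 (by norm_num) (by norm_num) (by norm_num) (k3 (by norm_num) (by norm_num) (by norm_num) okc_nil))))))))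
    (by simp only [endc]; norm_num) (by simp only [valc, lb]; norm_num)

lemma slB5 : SB (11 / 24) (7 / 15) 1 (53673 / 5000000) :=
  sb_of (ε := 1 / 10 ^ 7) [(35 / 192, 103019 / 100000), (19 / 96, 129 / 125), (247 / 1200, 103301 / 100000), (41 / 192, 20681 / 20000), (177 / 800, 20703 / 20000), (11 / 48, 103637 / 100000), (37 / 160, 103637 / 100000), (7 / 30, 50901 / 50000)] (by norm_num)
    (k1 (by norm_num) (by norm_num) (by norm_num) (k1 (by norm_num) (by norm_num) (by norm_num) (k1 (by norm_num) (by norm_num) (by norm_num) (k1 (by norm_num) (by norm_num) (by norm_num) (k1 (by norm_num) (by norm_num) (by norm_num) (k1 (by norm_num) (by norm_num) (by norm_num) (k3 (by norm_num) (by norm_num) (by norm_num) (k3 (by norm_num) (by norm_num) (by norm_num) okc_nil))))))))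
    (by simp only [endc]; norm_num) (by simp only [valc, lb]; norm_num)

lemma slB6 : SB (7 / 15) (19 / 40) 1 (110569 / 10000000) :=
  sb_of (ε := 1 / 10 ^ 7) [(11 / 60, 51471 / 50000), (1 / 5, 33 / 32), (5 / 24, 51613 / 50000), (13 / 60, 51667 / 50000), (9 / 40, 103449 / 100000), (7 / 30, 25893 / 25000), (113 / 480, 25893 / 25000), (19 / 80, 10177 / 10000)] (by norm_num)
    (k1 (by norm_num) (by norm_num) (by norm_num) (k1 (by norm_num) (by norm_num) (by norm_num) (k1 (by norm_num) (by norm_num) (by norm_num) (k1 (by norm_num) (by norm_num) (by norm_num) (k1 (by norm_num) (by norm_num) (by norm_num) (k1 (by norm_num) (by norm_num) (by norm_num) (k3 (by norm_num) (by norm_num) (by norm_num) (k3 (by norm_num) (by norm_num) (by norm_num) okc_nil))))))))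
    (by simp only [endc]; norm_num) (by simp only [valc, lb]; norm_num)

lemma slB7 : SB (19 / 40) (29 / 60) 1 (113553 / 10000000) :=
  sb_of (ε := 1 / 10 ^ 7) [(59 / 320, 25717 / 25000), (97 / 480, 51527 / 50000), (253 / 1200, 20631 / 20000), (211 / 960, 51633 / 50000), (183 / 800, 20677 / 20000), (19 / 80, 103509 / 100000), (23 / 96, 103509 / 100000), (29 / 120, 5087 / 5000)] (by norm_num)
    (k1 (by norm_num) (by norm_num) (by norm_num) (k1 (by norm_num) (by norm_num) (by norm_num) (k1 (by norm_num) (by norm_num) (by norm_num) (k1 (by norm_num) (by norm_num) (by norm_num) (k1 (by norm_num) (by norm_num) (by norm_num) (k1 (by norm_num) (by norm_num) (by norm_num) (k3 (by norm_num) (by norm_num) (by norm_num) (k3 (by norm_num) (by norm_num) (by norm_num) okc_nil))))))))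
    (by simp only [endc]; norm_num) (by simp only [valc, lb]; norm_num)

lemma slB8 : SB (29 / 60) (59 / 120) 1 (58157 / 5000000) :=
  sb_of (ε := 1 / 10 ^ 7) [(89 / 480, 51399 / 50000), (49 / 240, 51493 / 50000), (41 / 192, 103089 / 100000), (107 / 480, 129 / 125), (223 / 960, 2583 / 2500), (29 / 120, 103449 / 100000), (39 / 160, 103449 / 100000), (59 / 240, 10171 / 10000)] (by norm_num)
    (k1 (by norm_num) (by norm_num) (by norm_num) (k1 (by norm_num) (by norm_num) (by norm_num) (k1 (by norm_num) (by norm_num) (by norm_num) (k1 (by norm_num) (by norm_num) (by norm_num) (k1 (by norm_num) (by norm_num) (by norm_num) (k1 (by norm_num) (by norm_num) (by norm_num) (k3 (by norm_num) (by norm_num) (by norm_num) (k3 (by norm_num) (by norm_num) (by norm_num) okc_nil))))))))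
    (by simp only [endc]; norm_num) (by simp only [valc, lb]; norm_num)

lemma slB9 : SB (59 / 120) (5000001 / 10000000) 1 (23773 / 2000000) :=
  sb_of (ε := 1 / 10 ^ 7) [(179 / 960, 102731 / 100000), (33 / 160, 2573 / 2500), (173 / 800, 51513 / 50000), (217 / 960, 51569 / 50000), (283 / 1200, 51629 / 50000), (59 / 240, 10339 / 10000), (119 / 480, 10339 / 10000), (5000001 / 20000000, 101681 / 100000)] (by norm_num)
    (k1 (by norm_num) (by norm_num) (by norm_num) (k1 (by norm_num) (by norm_num) (by norm_num) (k1 (by norm_num) (by norm_num) (by norm_num) (k1 (by norm_num) (by norm_num) (by norm_num) (k1 (by norm_num) (by norm_num) (by norm_num) (k1 (by norm_num) (by norm_num) (by norm_num) (k3 (by norm_num) (by norm_num) (by norm_num) (k3 (by norm_num) (by norm_num) (by norm_num) okc_nil))))))))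
    (by simp only [endc]; norm_num) (by simp only [valc, lb]; norm_num)

lemma slC0 : SB (97 / 250) (2371 / 6000) 1 (28691 / 5000000) :=
  sb_of (ε := 1 / 10 ^ 7) [(833 / 4800, 51671 / 50000), (433 / 2400, 103453 / 100000), (899 / 4800, 103571 / 100000), (97 / 500, 20739 / 20000), (47 / 240, 20739 / 20000), (2371 / 12000, 25447 / 25000)] (by norm_num)
    (k1 (by norm_num) (by norm_num) (by norm_num) (k1 (by norm_num) (by norm_num) (by norm_num) (k1 (by norm_num) (by norm_num) (by norm_num) (k1 (by norm_num) (by norm_num) (by norm_num) (k3 (by norm_num) (by norm_num) (by norm_num) (k3 (by norm_num) (by norm_num) (by norm_num) okc_nil))))))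
    (by simp only [endc]; norm_num) (by simp only [valc, lb]; norm_num)

lemma slC1 : SB (2371 / 6000) (1207 / 3000) 1 (31079 / 5000000) :=
  sb_of (ε := 1 / 10 ^ 7) [(279 / 1600, 51623 / 50000), (437 / 2400, 25841 / 25000), (911 / 4800, 10349 / 10000), (2371 / 12000, 25907 / 25000), (319 / 1600, 25907 / 25000), (1207 / 6000, 50899 / 50000)] (by norm_num)
    (k1 (by norm_num) (by norm_num) (by norm_num) (k1 (by norm_num) (by norm_num) (by norm_num) (k1 (by norm_num) (by norm_num) (by norm_num) (k1 (by norm_num) (by norm_num) (by norm_num) (k3 (by norm_num) (by norm_num) (by norm_num) (k3 (by norm_num) (by norm_num) (by norm_num) okc_nil))))))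
    (by simp only [endc]; norm_num) (by simp only [valc, lb]; norm_num)

lemma slC2 : SB (1207 / 3000) (819 / 2000) 1 (6661 / 1000000) :=
  sb_of (ε := 1 / 10 ^ 7) [(421 / 2400, 103159 / 100000), (883 / 4800, 51641 / 50000), (77 / 400, 12927 / 12500), (1207 / 6000, 103563 / 100000), (487 / 2400, 103563 / 100000), (819 / 4000, 101807 / 100000)] (by norm_num)
    (k1 (by norm_num) (by norm_num) (by norm_num) (k1 (by norm_num) (by norm_num) (by norm_num) (k1 (by norm_num) (by norm_num) (by norm_num) (k1 (by norm_num) (by norm_num) (by norm_num) (k3 (by norm_num) (by norm_num) (by norm_num) (k3 (by norm_num) (by norm_num) (by norm_num) okc_nil))))))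
    (by simp only [endc]; norm_num) (by simp only [valc, lb]; norm_num)

lemma slC3 : SB (819 / 2000) (12500003 / 30000000) 1 (7077 / 1000000) :=
  sb_of (ε := 1 / 10 ^ 7) [(141 / 800, 103073 / 100000), (297 / 1600, 51601 / 50000), (937 / 4800, 20669 / 20000), (819 / 4000, 103501 / 100000), (991 / 4800, 103501 / 100000), (12500003 / 60000000, 101817 / 100000)] (by norm_num)
    (k1 (by norm_num) (by norm_num) (by norm_num) (k1 (by norm_num) (by norm_num) (by norm_num) (k1 (by norm_num) (by norm_num) (by norm_num) (k1 (by norm_num) (by norm_num) (by norm_num) (k3 (by norm_num) (by norm_num) (by norm_num) (k3 (by norm_num) (by norm_num) (by norm_num) okc_nil))))))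
    (by simp only [endc]; norm_num) (by simp only [valc, lb]; norm_num)

lemma slT0 : SB (4999999 / 10000000) (5000001 / 10000000) 1 (43 / 10000000) :=
  sb_of (ε := 1 / 10 ^ 7) [(4999999 / 20000000, 100001 / 100000), (5000001 / 20000000, 100001 / 100000)] (by norm_num)
    (k1 (by norm_num) (by norm_num) (by norm_num) (k3 (by norm_num) (by norm_num) (by norm_num) okc_nil))
    (by simp only [endc]; norm_num) (by simp only [valc, lb]; norm_num)

/-- the slices -/
noncomputable def lA : List (ℝ × ℝ) := [(71 / 120, 132197 / 10000000), (3 / 5, 28341 / 2500000), (73 / 120, 24073 / 2500000), (37 / 60, 80613 / 10000000), (5 / 8, 65753 / 10000000), (19 / 30, 6509 / 1250000), (77 / 120, 19751 / 5000000), (13 / 20, 13957 / 5000000), (79 / 120, 8503 / 5000000), (2 / 3, 5981 / 10000000)]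

lemma evA : EvS (1 / 10 ^ 7) (17499997 / 30000000) lA :=
  evs_cons slA0 (by norm_num) (by norm_num) (by norm_num) (evs_cons slA1 (by norm_num) (by norm_num) (by norm_num) (evs_cons slA2 (by norm_num) (by norm_num) (by norm_num) (evs_cons slA3 (by norm_num) (by norm_num) (by norm_num) (evs_cons slA4 (by norm_num) (by norm_num) (by norm_num) (evs_cons slA5 (by norm_num) (by norm_num) (by norm_num) (evs_cons slA6 (by norm_num) (by norm_num) (by norm_num) (evs_cons slA7 (by norm_num) (by norm_num) (by norm_num) (evs_cons slA8 (by norm_num) (by norm_num) (by norm_num) (evs_cons slA9 (by norm_num) (by norm_num) (by norm_num) evs_nil)))))))))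

lemma endA : endc (17499997 / 30000000) lA = 2 / 3 := by simp only [lA, endc]

lemma valA : vals (1 / 10 ^ 7) lA ≤ 163837 / 1000000 := by simp only [lA, vals]; norm_num

/-- the slices -/
noncomputable def lB : List (ℝ × ℝ) := [(17 / 40, 43211 / 5000000), (13 / 30, 45641 / 5000000), (53 / 120, 47897 / 5000000), (9 / 20, 99961 / 10000000), (11 / 24, 20763 / 2000000), (7 / 15, 53673 / 5000000), (19 / 40, 110569 / 10000000), (29 / 60, 113553 / 10000000), (59 / 120, 58157 / 5000000), (5000001 / 10000000, 23773 / 2000000)]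

lemma evB : EvS (1 / 10 ^ 7) (12499997 / 30000000) lB :=
  evs_cons slB0 (by norm_num) (by norm_num) (by norm_num) (evs_cons slB1 (by norm_num) (by norm_num) (by norm_num) (evs_cons slB2 (by norm_num) (by norm_num) (by norm_num) (evs_cons slB3 (by norm_num) (by norm_num) (by norm_num) (evs_cons slB4 (by norm_num) (by norm_num) (by norm_num) (evs_cons slB5 (by norm_num) (by norm_num) (by norm_num) (evs_cons slB6 (by norm_num) (by norm_num) (by norm_num) (evs_cons slB7 (by norm_num) (by norm_num) (by norm_num) (evs_cons slB8 (by norm_num) (by norm_num) (by norm_num) (evs_cons slB9 (by norm_num) (by norm_num) (by norm_num) evs_nil)))))))))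

lemma endB : endc (12499997 / 30000000) lB = 5000001 / 10000000 := by simp only [lB, endc]

lemma valB : vals (1 / 10 ^ 7) lB ≤ 195457 / 1000000 := by simp only [lB, vals]; norm_num

/-- the slices -/
noncomputable def lC : List (ℝ × ℝ) := [(2371 / 6000, 28691 / 5000000), (1207 / 3000, 31079 / 5000000), (819 / 2000, 6661 / 1000000), (12500003 / 30000000, 7077 / 1000000)]

lemma evC : EvS (1 / 10 ^ 7) (97 / 250) lC :=
  evs_cons slC0 (by norm_num) (by norm_num) (by norm_num) (evs_cons slC1 (by norm_num) (by norm_num) (by norm_num) (evs_cons slC2 (by norm_num) (by norm_num) (by norm_num) (evs_cons slC3 (by norm_num) (by norm_num) (by norm_num) evs_nil)))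

lemma endC : endc (97 / 250) lC = 12500003 / 30000000 := by simp only [lC, endc]

lemma valC : vals (1 / 10 ^ 7) lC ≤ 433 / 10000 := by simp only [lC, vals]; norm_num

lemma oki_nil {η v d : ℝ} : oki η v d [] := trivial

lemma oki_cons {η v d d' : ℝ} {l : List ℝ} (h1 : d ≤ d') (h2 : 0 < 1 - v - η - d') (h3 : oki η v d' l) :
    oki η v d (d' :: l) := ⟨h1, h2, h3⟩

lemma in_of {x v η w ε : ℝ} (l : List ℝ) (hε : 0 < ε) (h0 : 0 < 1 - v - η - 1 / 6) (h : oki η v (1 / 6) l)
    (hend : x ≤ endi (1 / 6) l) (hv : vali ε η v (1 / 6) l ≤ w) :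
    ∃ L₀ : ℝ, ∀ L : ℝ, L₀ ≤ L → ∑ r ∈ PL (1 / 6 * L) (x * L), wi L η v r ≤ w := by
  obtain ⟨U₀, hU⟩ := mert hε
  refine ⟨max 1 (6 * U₀), fun L hL => ?_⟩
  have hL0 : 0 < L := by linarith [le_max_left 1 (6 * U₀)]
  have hLU : U₀ ≤ 1 / 6 * L := by linarith [le_max_right 1 (6 * U₀)]
  refine le_trans ?_ ((in_le hU hL0 hLU l (1 / 6) le_rfl h).trans hv)
  refine sum_le_sum_of_subset_of_nonneg (PL_mono le_rfl (mul_le_mul_of_nonneg_right hend hL0.le)) ?_
  intro p hp _
  rw [mem_PL] at hp
  exact wi_nn hL0 hp.2.2 (endi_pos l (1 / 6) h0 h)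

lemma inC0 : ∃ L₀ : ℝ, ∀ L : ℝ, L₀ ≤ L → ∑ r ∈ PL (1 / 6 * L) ((1 - 97 / 250) / 2 * L), wi L (1 / 10 ^ 7) (2371 / 6000) r ≤ 1679051 / 1000000 :=
  in_of (ε := 1 / 10 ^ 7) [221 / 1200, 967 / 4800, 1051 / 4800, 189 / 800, 203 / 800, 217 / 800, 277 / 960, 153 / 500] (by norm_num) (by norm_num) (oki_cons (by norm_num) (by norm_num) (oki_cons (by norm_num) (by norm_num) (oki_cons (by norm_num) (by norm_num) (oki_cons (by norm_num) (by norm_num) (oki_cons (by norm_num) (by norm_num) (oki_cons (by norm_num) (by norm_num) (oki_cons (by norm_num) (by norm_num) (oki_cons (by norm_num) (by norm_num) oki_nil))))))))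
    (by simp only [endi]; norm_num) (by simp only [vali, lb]; norm_num)

lemma inC1 : ∃ L₀ : ℝ, ∀ L : ℝ, L₀ ≤ L → ∑ r ∈ PL (1 / 6 * L) ((1 - 2371 / 6000) / 2 * L), wi L (1 / 10 ^ 7) (1207 / 3000) r ≤ 1670839 / 1000000 :=
  in_of (ε := 1 / 10 ^ 7) [881 / 4800, 321 / 1600, 87 / 400, 563 / 2400, 1207 / 4800, 1289 / 4800, 137 / 480, 3629 / 12000] (by norm_num) (by norm_num) (oki_cons (by norm_num) (by norm_num) (oki_cons (by norm_num) (by norm_num) (oki_cons (by norm_num) (by norm_num) (oki_cons (by norm_num) (by norm_num) (oki_cons (by norm_num) (by norm_num) (oki_cons (by norm_num) (by norm_num) (oki_cons (by norm_num) (by norm_num) (oki_cons (by norm_num) (by norm_num) oki_nil))))))))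
    (by simp only [endi]; norm_num) (by simp only [vali, lb]; norm_num)

lemma inC2 : ∃ L₀ : ℝ, ∀ L : ℝ, L₀ ≤ L → ∑ r ∈ PL (1 / 6 * L) ((1 - 1207 / 3000) / 2 * L), wi L (1 / 10 ^ 7) (819 / 2000) r ≤ 103873 / 62500 :=
  in_of (ε := 1 / 10 ^ 7) [293 / 1600, 959 / 4800, 173 / 800, 1117 / 4800, 299 / 1200, 319 / 1200, 271 / 960, 1793 / 6000] (by norm_num) (by norm_num) (oki_cons (by norm_num) (by norm_num) (oki_cons (by norm_num) (by norm_num) (oki_cons (by norm_num) (by norm_num) (oki_cons (by norm_num) (by norm_num) (oki_cons (by norm_num) (by norm_num) (oki_cons (by norm_num) (by norm_num) (oki_cons (by norm_num) (by norm_num) (oki_cons (by norm_num) (by norm_num) oki_nil))))))))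
    (by simp only [endi]; norm_num) (by simp only [vali, lb]; norm_num)

lemma inC3 : ∃ L₀ : ℝ, ∀ L : ℝ, L₀ ≤ L → ∑ r ∈ PL (1 / 6 * L) ((1 - 819 / 2000) / 2 * L), wi L (1 / 10 ^ 7) (12500003 / 30000000) r ≤ 1652391 / 1000000 :=
  in_of (ε := 1 / 10 ^ 7) [877 / 4800, 159 / 800, 1031 / 4800, 1109 / 4800, 593 / 2400, 421 / 1600, 67 / 240, 1181 / 4000] (by norm_num) (by norm_num) (oki_cons (by norm_num) (by norm_num) (oki_cons (by norm_num) (by norm_num) (oki_cons (by norm_num) (by norm_num) (oki_cons (by norm_num) (by norm_num) (oki_cons (by norm_num) (by norm_num) (oki_cons (by norm_num) (by norm_num) (oki_cons (by norm_num) (by norm_num) (oki_cons (by norm_num) (by norm_num) oki_nil))))))))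
    (by simp only [endi]; norm_num) (by simp only [vali, lb]; norm_num)

lemma inT0 : ∃ L₀ : ℝ, ∀ L : ℝ, L₀ ≤ L → ∑ r ∈ PL (1 / 6 * L) ((1 - 4999999 / 10000000) / 2 * L), wi L (1 / 10 ^ 7) (5000001 / 10000000) r ≤ 300953 / 200000 :=
  in_of (ε := 1 / 10 ^ 7) [5 / 24, 5000001 / 20000000] (by norm_num) (by norm_num) (oki_cons (by norm_num) (by norm_num) (oki_cons (by norm_num) (by norm_num) oki_nil))
    (by simp only [endi]; norm_num) (by simp only [vali, lb]; norm_num)

end Pool.Agent.J4H40
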