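import Pool.Agent.J4H40.Rh
import Pool.Agent.J4H40.Qj

set_option autoImplicit false

/-! The density is at least `137 / 1000`. -/

namespace Pool.Agent.J4H40

open Finset Filter
open ArithmeticFunction (cardFactors)

lemma D_sum {P : Ps} {N Z n : ℕ} {η : ℝ} (h : St P N Z n η) {u v w r s : ℝ} (huv : u ≤ v) (hvw : v ≤ w)
    (h1 : ∑ m ∈ QQ Z n 3, ∑ r ∈ m.primeFactors.filter (fun r : ℕ => u * P.L < Real.log m - Real.log r ∧
      Real.log m - Real.log r ≤ v * P.L), Tm N n m ≤ r)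
    (h2 : ∑ m ∈ QQ Z n 3, ∑ r ∈ m.primeFactors.filter (fun r : ℕ => v * P.L < Real.log m - Real.log r ∧
      Real.log m - Real.log r ≤ w * P.L), Tm N n m ≤ s) :
    ∑ m ∈ QQ Z n 3, ∑ r ∈ m.primeFactors.filter (fun r : ℕ => u * P.L < Real.log m - Real.log r ∧
      Real.log m - Real.log r ≤ w * P.L), Tm N n m ≤ r + s := by
  rw [D_split h u v w huv hvw]
  exact add_le_add h1 h2

/-- the setting holds eventually -/
lemma st_ev {B : ℕ} (hB : 1 ≤ B) {η : ℝ} (hη : 0 < η) (hη1 : η ≤ 1 / 1000) : ∀ᶠ N : ℕ in atTop,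
    ∀ n : ℕ, n ≤ N → (N : ℝ) / Real.log N ^ B ≤ n →
      St (PN (1 / 6) (388 / 1000) B N) N (Za (1 / 6) N) n η ∧ 1 ∈ mz (Za (1 / 6) N) n ∧ 2 ≤ n := by
  have hLT : Tendsto (fun N : ℕ => Real.log (N : ℝ)) atTop atTop :=
    Real.tendsto_log_atTop.comp tendsto_natCast_atTop_atTop
  filter_upwards [ok_ev (α := 1 / 6) (a := 388 / 1000) le_rfl (by norm_num) (by norm_num) (by norm_num)
    (Or.inl le_rfl) hB (ε := η / 8) (by positivity) (by linarith), bz_ev (α := 1 / 6) le_rfl (by norm_num),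
    hLT.eventually_ge_atTop 3] with N hok hbz hL3 n hn hnl
  obtain ⟨hP, he⟩ := hok
  have hL0 : 0 < Real.log N := by linarith
  have hN2 := hbz.two
  have hN0 : (0 : ℝ) < N := by exact_mod_cast (by omega : 0 < N)
  have hLB : 0 < Real.log N ^ B := by positivity
  have hn0 : (0 : ℝ) < n := lt_of_lt_of_le (by positivity) hnl
  have hln : Real.log N - B * Real.log (Real.log N) ≤ Real.log n := by
    have h1 := Real.log_le_log (by positivity) hnl
    rw [Real.log_div hN0.ne' hLB.ne', Real.log_pow] at h1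
    exact h1
  have hZr : (Za (1 / 6) N : ℝ) ≤ (N : ℝ) ^ (1 / 6 : ℝ) := Za_real
  have hZ0 : (0 : ℝ) < (Za (1 / 6) N : ℝ) := by
    have := hbz.Z2
    exact_mod_cast (by omega : 0 < Za (1 / 6) N)
  have hlZ : Real.log (Za (1 / 6) N : ℝ) ≤ 1 / 6 * Real.log N := by
    have h1 := Real.log_le_log hZ0 hZr
    rwa [Real.log_rpow hN0] at h1
  have hst : St (PN (1 / 6) (388 / 1000) B N) N (Za (1 / 6) N) n η := by
    refine ⟨⟨hP, rfl, rfl, ?_, hη1⟩, rfl, hbz, hn, hln, fun p hp => ?_, ?_⟩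
    · show 8 * (B * Real.log (Real.log N)) ≤ η * Real.log N
      linarith
    · show 1 / 6 * Real.log N < Real.log p
      have h1 : (N : ℝ) ^ (1 / 6 : ℝ) < p := by
        have h2 : (Za (1 / 6) N : ℝ) + 1 ≤ p := by exact_mod_cast hp
        exact lt_of_lt_of_le Za_lt h2
      have h3 := Real.log_lt_log (by positivity) h1
      rwa [Real.log_rpow hN0] at h3
    · show 1 / (Za (1 / 6) N : ℝ) ≤ B * Real.log (Real.log N)
      have h1 : 1 / (Za (1 / 6) N : ℝ) ≤ 1 := by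
        rw [div_le_one hZ0]
        have := hbz.Z2
        exact_mod_cast (by omega : 1 ≤ Za (1 / 6) N)
      have h2 : 1 ≤ Real.log (Real.log N) := by
        rw [Real.le_log_iff_exp_le hL0]
        linarith [Real.exp_one_lt_d9]
      have h3 : (1 : ℝ) ≤ B := by exact_mod_cast hB
      nlinarith
  have hlt : Za (1 / 6) N < n := by
    have h1 : Real.log (Za (1 / 6) N : ℝ) < Real.log n := by
      have : η / 8 * Real.log N ≤ 1 / 8000 * Real.log N := mul_le_mul_of_nonneg_right (by linarith) hL0.le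
      linarith
    exact_mod_cast (Real.log_lt_log_iff hZ0 hn0).1 h1
  refine ⟨hst, ?_, ?_⟩
  · rw [mem_mz]
    refine ⟨⟨le_rfl, by omega⟩, fun p hp => ?_, ?_⟩
    · rw [Nat.primeFactors_one] at hp
      exact absurd hp (notMem_empty _)
    · rw [one_mul]
      unfold MZ
      rw [Nat.primeFactors_one, sup_empty]
      exact max_lt (by have := hbz.Z2; simp only [Nat.bot_eq_zero]; omega) hlt
  · have := hbz.Z2
    omega

/-- the density -/
theorem den {B : ℕ} (hB : 1 ≤ B) : DenT (WF (1 / 6) (388 / 1000) B) (137 / 1000) B := by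
  have hLT : Tendsto (fun N : ℕ => Real.log (N : ℝ)) atTop atTop :=
    Real.tendsto_log_atTop.comp tendsto_natCast_atTop_atTop
  obtain ⟨U₀, hU⟩ := mert (ε := 1 / 10 ^ 7) (by norm_num)
  obtain ⟨LA, hLA⟩ := evA
  obtain ⟨LB, hLB⟩ := evB
  obtain ⟨LC, hLC⟩ := evC
  obtain ⟨S0, hS0⟩ := slC0
  obtain ⟨I0, hI0⟩ := inC0
  obtain ⟨S1, hS1⟩ := slC1
  obtain ⟨I1, hI1⟩ := inC1
  obtain ⟨S2, hS2⟩ := slC2
  obtain ⟨I2, hI2⟩ := inC2
  obtain ⟨S3, hS3⟩ := slC3
  obtain ⟨I3, hI3⟩ := inC3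
  obtain ⟨ST, hST⟩ := slT0
  obtain ⟨IT, hIT⟩ := inT0
  apply eventually_atTop.1
  filter_upwards [st_ev hB (η := 1 / 10 ^ 7) (by norm_num) (by norm_num), bz_ev (α := 1 / 6) le_rfl (by norm_num), hLT.eventually_ge_atTop (7 * 10 ^ 9), hLT.eventually_ge_atTop (6 * U₀), hLT.eventually_ge_atTop LA, hLT.eventually_ge_atTop LB, hLT.eventually_ge_atTop LC, hLT.eventually_ge_atTop S0, hLT.eventually_ge_atTop I0, hLT.eventually_ge_atTop S1, hLT.eventually_ge_atTop I1, hLT.eventually_ge_atTop S2, hLT.eventually_ge_atTop I2, hLT.eventually_ge_atTop S3, hLT.eventually_ge_atTop I3, hLT.eventually_ge_atTop ST, hLT.eventually_ge_atTop IT] with N hst hbz hbig hLU gA gB gC gS0 gI0 gS1 gI1 gS2 gI2 gS3 gI3 gST gIT n hn hnl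
  obtain ⟨h, h1, hn2⟩ := hst n hn hnl
  have hL0 : 0 < Real.log N := by linarith
  -- two prime factors
  have hA := QQ2_slices h lA (17499997 / 30000000) (hLA _ gA)
  have hB' := QQ2_slices h lB (12499997 / 30000000) (hLB _ gB)
  have hC := QQ2_slices h lC (97 / 250) (hLC _ gC)
  rw [endA] at hA
  rw [endB] at hB'
  rw [endC] at hC
  have kA : ∑ m ∈ (QQ (Za (1 / 6) N) n 2).filter (fun m : ℕ => (7 / 12 - 1 / 10 ^ 7) * (PN (1 / 6) (388 / 1000) B N).L <
      Real.log m ∧ Real.log m ≤ 2 / 3 * (PN (1 / 6) (388 / 1000) B N).L), Tm N n m ≤ 163837 / 1000000 := by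
    have e : (7 / 12 - 1 / 10 ^ 7 : ℝ) = 17499997 / 30000000 := by norm_num
    rw [e]
    exact hA.trans valA
  have kB : ∑ m ∈ (QQ (Za (1 / 6) N) n 2).filter (fun m : ℕ => (5 / 12 - 1 / 10 ^ 7) * (PN (1 / 6) (388 / 1000) B N).L <
      Real.log m ∧ Real.log m ≤ (1 / 2 + 1 / 10 ^ 7) * (PN (1 / 6) (388 / 1000) B N).L), Tm N n m ≤ 195457 / 1000000 := by
    have e : (5 / 12 - 1 / 10 ^ 7 : ℝ) = 12499997 / 30000000 := by norm_num
    have e2 : (1 / 2 + 1 / 10 ^ 7 : ℝ) = 5000001 / 10000000 := by norm_num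
    rw [e, e2]
    exact hB'.trans valB
  have kC : ∑ m ∈ (QQ (Za (1 / 6) N) n 2).filter (fun m : ℕ => 388 / 1000 * (PN (1 / 6) (388 / 1000) B N).L <
      Real.log m ∧ Real.log m ≤ (5 / 12 - 1 / 10 ^ 7) * (PN (1 / 6) (388 / 1000) B N).L), Tm N n m ≤ 433 / 10000 := by
    refine le_trans (sum_le_sum_of_subset_of_nonneg ?_ ?_) (hC.trans valC)
    · intro m hm
      rw [mem_filter] at hm ⊢
      have hLp : 0 < (PN (1 / 6) (388 / 1000) B N).L := hL0
      exact ⟨hm.1, by linarith [hm.2.1], hm.2.2.trans (mul_le_mul_of_nonneg_right (by norm_num) hLp.le)⟩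
    · intro m hm _
      rw [mem_filter, mem_QQ] at hm
      exact Tm_nn h hm.1.1
  -- three prime factors
  have d0 := QQ3_slice h (u := 97 / 250) (v := 2371 / 6000) (by norm_num) (hS0 _ gS0) (hI0 _ gI0)
  have d1 := QQ3_slice h (u := 2371 / 6000) (v := 1207 / 3000) (by norm_num) (hS1 _ gS1) (hI1 _ gI1)
  have d2 := QQ3_slice h (u := 1207 / 3000) (v := 819 / 2000) (by norm_num) (hS2 _ gS2) (hI2 _ gI2)
  have d3 := QQ3_slice h (u := 819 / 2000) (v := 12500003 / 30000000) (by norm_num) (hS3 _ gS3) (hI3 _ gI3)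
  have dT := QQ3_slice h (u := 4999999 / 10000000) (v := 5000001 / 10000000) (by norm_num) (hST _ gST) (hIT _ gIT)
  have c1 := D_sum h (by norm_num) (by norm_num) d0 d1
  have c2 := D_sum h (by norm_num) (by norm_num) c1 d2
  have c3 := D_sum h (by norm_num) (by norm_num) c2 d3
  have kD1 : ∑ m ∈ QQ (Za (1 / 6) N) n 3, ∑ r ∈ m.primeFactors.filter (fun r : ℕ =>
      388 / 1000 * (PN (1 / 6) (388 / 1000) B N).L < Real.log m - Real.log r ∧
      Real.log m - Real.log r ≤ (5 / 12 + 1 / 10 ^ 7) * (PN (1 / 6) (388 / 1000) B N).L), Tm N n m ≤ 427847 / 10000000 := by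
    have e : (388 / 1000 : ℝ) = 97 / 250 := by norm_num
    have e2 : (5 / 12 + 1 / 10 ^ 7 : ℝ) = 12500003 / 30000000 := by norm_num
    rw [e2]
    have e3 : 388 / 1000 * (PN (1 / 6) (388 / 1000) B N).L = 97 / 250 * (PN (1 / 6) (388 / 1000) B N).L := by rw [e]
    rw [e3]
    refine c3.trans ?_
    norm_num
  have kD2 : ∑ m ∈ QQ (Za (1 / 6) N) n 3, ∑ r ∈ m.primeFactors.filter (fun r : ℕ =>
      (1 / 2 - 1 / 10 ^ 7) * (PN (1 / 6) (388 / 1000) B N).L < Real.log m - Real.log r ∧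
      Real.log m - Real.log r ≤ (1 / 2 + 1 / 10 ^ 7) * (PN (1 / 6) (388 / 1000) B N).L), Tm N n m ≤ 1 / 100000 := by
    have e : (1 / 2 - 1 / 10 ^ 7 : ℝ) = 4999999 / 10000000 := by norm_num
    have e2 : (1 / 2 + 1 / 10 ^ 7 : ℝ) = 5000001 / 10000000 := by norm_num
    rw [e, e2]
    refine dT.trans ?_
    norm_num
  have key := W_ge h h1 hn2 hU (by norm_num) (by
    show U₀ ≤ 1 / 6 * Real.log N
    linarith) kC kB kA kD1 kD2
  have hZ : 1 / (Za (1 / 6) N : ℝ) ≤ 1 / 10 ^ 9 := by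
    have a1 := hbz.Zl
    have hZ0 : (0 : ℝ) < (Za (1 / 6) N : ℝ) := by
      have := hbz.Z2
      exact_mod_cast (by omega : 0 < Za (1 / 6) N)
    have a2 : (10 : ℝ) ^ 9 ≤ Za (1 / 6) N := by
      have a3 := Real.log_le_sub_one_of_pos hZ0
      linarith
    exact one_div_le_one_div_of_le (by norm_num) a2
  unfold WF
  refine le_trans ?_ key
  norm_num at hZ ⊢
  linarith

end Pool.Agent.J4H40
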