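import Pool.Agent.J4H40.Ua
import Pool.Agent.J4H40.Qj
import Pool.Agent.R460.GP.Fin
import Pool.Agent.Y697.GJ.LiftC

set_option autoImplicit false

/-! The error terms for the prime pairs. -/

namespace Pool.Agent.J4H40

open Finset Filter
open Pool.Agent.H807R2.Dav (ee)
open Pool.Agent.H373R2.T7 (lamz Vz pz lamz_ap)
open Pool.Agent.Y883.T3 (lsh)
open Pool.Agent.Y883.GJ
open Pool.Agent.R460.GS
open Pool.Agent.R460.GP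
open Pool.Agent.W93.PG (lamz_le lamz_nn)
open Pool.Agent.H560R3.GB (sing)
open Pool.Agent.Y614.GJ.Core (ev_log)
open Pool.Agent.R460.GH (af af_apply mul_ap BilMaj3Stm bilMaj3 countK)

/-- the error terms -/
theorem errEP (hCore : CoreEPStm) (h1 : L2Stm) (hB : BilMaj3Stm) (hBm : BilMinStm) (hT1 : TiMaj2Stm) (hT2 : TiMinStm)
    (hLs : LshStm) (hModel : ModelStm) {α : ℝ} (hα : 1 / 6 ≤ α) (hα2 : α ≤ 1 / 3) {gf Wf : ℕ → ℕ → ℝ}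
    (hfam : Fam α gf Wf) {Ff : ℕ → ℕ → ℂ} (hsec : Sec Ff) (A T U₀ : ℕ) {ρ : ℝ} (hρ : 0 < ρ) :
    ∃ B : ℕ, ∀ E : ℕ, ∃ N₀ : ℕ, ∀ N : ℕ, N₀ ≤ N → ∀ z : ℕ,
    Real.log N ^ B ≤ z → (z : ℝ) ≤ Real.log N ^ E → ∃ r : ℕ, Par U₀ N z r ∧
    ∑ n ∈ Icc 1 N, |lamz z n - lsh z r n| ≤ N / Real.log N ^ U₀ ∧
    ∀ (q : ℕ) [NeZero q], (q : ℝ) ≤ (N : ℝ) ^ (1 - α - ρ) → ∀ a : ZMod q,
    (Nat.gcd a.val q : ℝ) ≤ Real.log N ^ T → ∀ y₁ y₂ : ℕ, y₁ ≤ N → y₂ ≤ N →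
      ∑ n ∈ (Icc (-(N : ℤ)) N).filter (fun n : ℤ => (n : ZMod q) = a),
        ‖cvd (Ff N) (f1 N (Za α N) (gf N) (Wf N) z r) y₁ y₂ n‖ ^ 2 ≤ (N : ℝ) ^ 3 / (q * Real.log N ^ A) := by
  have hρ2 : 0 < ρ / 2 := by positivity
  obtain ⟨Ncf, hcf⟩ := hfam.cf
  obtain ⟨ct, Nw, hWB⟩ := hfam.wb
  obtain ⟨Nbd, hbd⟩ := hsec.bd
  obtain ⟨A₁, hC1⟩ := hCore A T (1 - α - ρ) (1 - α - ρ / 2) (by linarith) (by linarith)
  obtain ⟨Cg, Ng, hg⟩ := nFC h1 hBm hα hα2 (A₁ + 2) hρ2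
  obtain ⟨Ch, Nh, hh⟩ := nHE hT2 hLs (A₁ + 2) ct
  obtain ⟨C, hC⟩ : ∃ C, C = max Cg Ch := ⟨_, rfl⟩
  obtain ⟨A₂, hC2⟩ := hC1 C
  obtain ⟨C₃, Nm1, hm1⟩ := mFC h1 hB hα hα2 (A₂ + 2) C hρ2
  obtain ⟨Nm2, hm2⟩ := mHE hT1 hLs (A₂ + 2) C ct
  obtain ⟨B₂, hC3⟩ := hC2 C₃
  obtain ⟨K, Ns2, hs2⟩ := hsec.sh B₂ C (T + C)
  obtain ⟨U, Nc, hC4⟩ := hC3 K
  obtain ⟨U₁, hU₁⟩ : ∃ U₁, U₁ = max U₀ (U + 2) := ⟨_, rfl⟩
  obtain ⟨Bm, hBm'⟩ := hModel U₁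
  refine ⟨max Bm K, fun E => ?_⟩
  obtain ⟨Nmo, hmo⟩ := hBm' E
  obtain ⟨Nl, hl⟩ := lamz_ap E (U + 2)
  obtain ⟨Na, ha⟩ := hfam.ap K (U + 2)
  obtain ⟨Ne, hNe⟩ := Filter.eventually_atTop.1 (ev_log (U + 8) (s := 1 / 6) (by norm_num) (64 + 4 * |ct|))
  refine ⟨Ncf + Nbd + Ng + Nh + Nm1 + Nm2 + Ns2 + Nc + Nw + Nmo + Nl + Na + Ne + 1, fun N hN z hz1 hz2 => ?_⟩
  have hN1 : 1 ≤ N := by omega
  have hNr1 : (1 : ℝ) ≤ N := by exact_mod_cast hN1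
  obtain ⟨hLe, hLp⟩ := hNe N (by omega)
  have hct := abs_nonneg ct
  have hctl := le_abs_self ct
  have hL1 : 1 ≤ Real.log N := by linarith
  have hL2 : 2 ≤ Real.log N := by linarith
  have hzB : Real.log N ^ Bm ≤ z := (pow_le_pow_right₀ hL1 (le_max_left _ _)).trans hz1
  have hzK : Real.log N ^ K ≤ z := (pow_le_pow_right₀ hL1 (le_max_right _ _)).trans hz1
  have hz1' : 1 ≤ z := by
    have : (1 : ℝ) ≤ z := (one_le_pow₀ hL1).trans hz1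
    exact_mod_cast this
  obtain ⟨r, hPar, hsum⟩ := hmo N (by omega) z hzB hz2
  obtain ⟨D, hD1, hDr, hgD⟩ := hcf N (by omega)
  have hW := hWB N (by omega)
  have hct0 := hW.hc
  have hdiv : ∀ V : ℕ, V ≤ U₁ → (N : ℝ) / Real.log N ^ U₁ ≤ N / Real.log N ^ V := fun V hV =>
    div_le_div_of_nonneg_left (Nat.cast_nonneg _) (by positivity) (pow_le_pow_right₀ hL1 hV)
  have hU0 : U₀ ≤ U₁ := by rw [hU₁]; exact le_max_left _ _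
  have hU2 : U + 2 ≤ U₁ := by rw [hU₁]; exact le_max_right _ _
  have hP0 := par_mono hL1 hU0 hPar
  have hP2 := par_mono hL1 hU2 hPar
  refine ⟨r, hP0, hsum.trans (hdiv _ hU0), ?_⟩
  intro q _ hq a hgcd y₁ y₂ hy₁ hy₂
  have hexp : ∀ x : ℝ, x ≤ (N : ℝ) ^ (1 - α - ρ / 2) → x ≤ (N : ℝ) ^ (17 / 20 : ℝ) := fun x hx =>
    hx.trans (Real.rpow_le_rpow_of_exponent_le hNr1 (by linarith))
  have hMin : MinE N (1 - α - ρ / 2) A₁ C (f1 N (Za α N) (gf N) (Wf N) z r) := by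
    rw [hC]
    refine min_f1 hL2 (hg N (by omega) D (cx (gf N)) hD1 hDr hgD) ?_
    intro q _ hq
    exact hh N (by omega) (Wf N) hW z r hPar.hD hPar.hV q (hexp _ hq)
  have hMaj : MajE N (1 - α - ρ / 2) A₂ C C₃ (f1 N (Za α N) (gf N) (Wf N) z r) := by
    refine maj_f1 hL2 (hm1 N (by omega) D (cx (gf N)) hD1 hDr hgD) ?_
    intro q _ hq
    exact hm2 N (by omega) (Wf N) hW q (hexp _ hq) z r hPar.hD hPar.hV
  have hAp : ApAt N K U (f1 N (Za α N) (gf N) (Wf N) z r) := by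
    refine ap_f1 hW (by linarith) ?_ (hsum.trans (hdiv _ hU2)) (ha N (by omega))
    intro q hq hqK c y hy
    refine hl N (by omega) z hz1' hz2 q hq ?_ c y hy
    exact_mod_cast hqK.trans hzK
  have hLpow : Real.log N ^ (U + 4) ≤ (N : ℝ) ^ (1 / 6 : ℝ) :=
    (pow_le_pow_right₀ hL1 (by omega)).trans hLp
  have hNc : NcAt N U (f1 N (Za α N) (gf N) (Wf N) z r) := nc_f1 hα hgD hN1 hW hP2 (by linarith) hLpow
  have hSh : ShE N (1 - α - ρ / 2) B₂ C (T + C) K (Ff N) :=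
    shE_mono hN1 (by linarith) hL1 le_rfl (hs2 N (by omega))
  exact hC4 N (by omega) (Ff N) (f1 N (Za α N) (gf N) (Wf N) z r) (hbd N (by omega))
    (bd_f1 hgD (Za_six hα hN1) hW hPar (by linarith)) hMin hMaj hAp hNc hSh q hq a hgcd y₁ y₂ hy₁ hy₂


/-- the error terms for pairs -/
def ErrTP (α θ : ℝ) (gf Wf : ℕ → ℕ → ℝ) : Prop := ∀ A T U₀ : ℕ, ∃ B : ℕ, ∀ E : ℕ, ∃ N₀ : ℕ, ∀ N : ℕ, N₀ ≤ N →
  ∀ z : ℕ, Real.log N ^ B ≤ z → (z : ℝ) ≤ Real.log N ^ E → ∃ r : ℕ, Par U₀ N z r ∧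
    ∑ n ∈ Icc 1 N, |lamz z n - lsh z r n| ≤ N / Real.log N ^ U₀ ∧
    ∀ (q : ℕ) [NeZero q], (q : ℝ) ≤ (N : ℝ) ^ θ → ∀ a : ZMod q,
    (Nat.gcd a.val q : ℝ) ≤ Real.log N ^ T → ∀ y₁ y₂ : ℕ, y₁ ≤ N → y₂ ≤ N →
      ∑ n ∈ (Icc (-(N : ℤ)) N).filter (fun n : ℤ => (n : ZMod q) = a),
        ‖cvd LA (f1 N (Za α N) (gf N) (Wf N) z r) y₁ y₂ n‖ ^ 2 ≤ (N : ℝ) ^ 3 / (q * Real.log N ^ A)

theorem errLAP {α : ℝ} (hα : 1 / 6 ≤ α) (hα2 : α ≤ 1 / 3) {gf Wf : ℕ → ℕ → ℝ} (hfam : Fam α gf Wf) {ρ : ℝ}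
    (hρ : 0 < ρ) : ErrTP α (1 - α - ρ) gf Wf := by
  intro A T U₀
  exact errEP
    (coreEP Pool.Agent.Y697.GJ.liftC Pool.Agent.Y708.GJ.lift Pool.Agent.Y697.GJ.parsC Pool.Agent.Y872.GJ.pars
      Pool.Agent.Y297.GJ.orth Pool.Agent.Y812.GJ.nonU)
    Pool.Agent.Y812.GJ.l2 (bilMaj3 Pool.Agent.Y812.GJ.l2 (countK Pool.Agent.Y812.GJ.l2))
    Pool.Agent.Y909.GJ.bilMin (Pool.Agent.R460.GS.tiMaj2 Pool.Agent.Y812.GJ.l2) Pool.Agent.Y412.GJ.tiMin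
    Pool.Agent.Y812.GJ.lsh_le Pool.Agent.Y883.GJ.model_all hα hα2 hfam sec_LA A T U₀ hρ

/-- the lower bound by the minorant -/
lemma wnp_low {F : ℕ → ℝ} {N n y₁ y₂ : ℕ} (h2 : y₂ + n ≤ N)
    (hF : ∀ c : ℕ, 1 ≤ c → c ≤ N → |F c| ≤ 96 * Real.log N) :
    99 / 100 * ∑ b ∈ Ioc y₁ y₂, la (b + n) * F b - 96 * Real.log N ^ 2 * ∑ b ∈ Icc 1 N, bad F b ≤ wnp n y₁ y₂ := by
  have h1 : ∑ b ∈ Ioc y₁ y₂, (99 / 100 * (la (b + n) * F b) - 96 * Real.log N ^ 2 * bad F b) ≤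
      wnp n y₁ y₂ := by
    unfold wnp
    refine sum_le_sum fun b hb => ?_
    rw [mem_Ioc] at hb
    rw [mul_comm (la b)]
    exact pt_low (mem_Icc.2 ⟨by omega, by omega⟩) (hF _ (by omega) (by omega))
  rw [sum_sub_distrib, ← mul_sum, ← mul_sum] at h1
  have h3 : ∑ b ∈ Ioc y₁ y₂, bad F b ≤ ∑ b ∈ Icc 1 N, bad F b := by
    refine sum_le_sum_of_subset_of_nonneg (fun b hb => ?_) fun _ _ _ => bad_nn _ _
    rw [mem_Ioc] at hb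
    rw [mem_Icc]
    omega
  have h5 : 96 * Real.log N ^ 2 * ∑ b ∈ Ioc y₁ y₂, bad F b ≤ 96 * Real.log N ^ 2 * ∑ b ∈ Icc 1 N, bad F b :=
    mul_le_mul_of_nonneg_left h3 (by positivity)
  linarith

/-- the error terms up to `y` -/
lemma err_winP {N Z n y z r : ℕ} {g W : ℕ → ℝ} (hy : y + n ≤ N) :
    |∑ b ∈ Icc 1 y, la (b + n) * (FR N Z g b - W b * lsh z r b)| = ‖cvd LA (f1 N Z g W z r) N y n‖ := by
  rw [cvd_pos hy]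
  have e : ∑ b ∈ Icc 1 y, LA (b + n) * (starRingEnd ℂ) (f1 N Z g W z r b) =
      ((∑ b ∈ Icc 1 y, la (b + n) * (FR N Z g b - W b * lsh z r b) : ℝ) : ℂ) := by
    push_cast
    refine sum_congr rfl fun b hb => ?_
    rw [mem_Icc] at hb
    unfold f1 HW
    rw [FC_eq (by omega), map_sub, Complex.conj_ofReal, Complex.conj_ofReal]
    push_cast
    rfl
  rw [e, Complex.norm_real, Real.norm_eq_abs]

/-- from the truncated model to the exact model -/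
lemma swapMP {N n y₁ y₂ z r : ℕ} {W : ℕ → ℝ} {c X₁ : ℝ} (hW : WBd W c N) (h2 : y₂ + n ≤ N)
    (h1 : ∑ n ∈ Icc 1 N, |lamz z n - lsh z r n| ≤ X₁) :
    |∑ b ∈ Ioc y₁ y₂, la (b + n) * (W b * lsh z r b) - ∑ b ∈ Ioc y₁ y₂, la (b + n) * (W b * lamz z b)| ≤
    c * Real.log N * X₁ := by
  have hc := hW.hc
  have hL0 : 0 ≤ Real.log N := Real.log_natCast_nonneg N
  rw [← sum_sub_distrib]
  have hpt : ∀ b ∈ Ioc y₁ y₂, |la (b + n) * (W b * lsh z r b) - la (b + n) * (W b * lamz z b)| ≤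
      c * Real.log N * |lamz z b - lsh z r b| := by
    intro b hb
    rw [mem_Ioc] at hb
    have e : la (b + n) * (W b * lsh z r b) - la (b + n) * (W b * lamz z b) =
      (la (b + n) * W b) * (lsh z r b - lamz z b) := by ring
    rw [e, abs_mul, abs_sub_comm (lsh z r b)]
    apply mul_le_mul_of_nonneg_right _ (abs_nonneg _)
    rw [abs_mul, abs_of_nonneg (la_nn _), mul_comm c]
    exact mul_le_mul (vm_le (mem_Icc.2 ⟨by omega, by omega⟩)) (hW.h1 _ (by omega)) (abs_nonneg _) hL0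
  refine (abs_sum_le_sum_abs _ _).trans ((sum_le_sum hpt).trans ?_)
  rw [← mul_sum]
  apply mul_le_mul_of_nonneg_left _ (by positivity)
  refine le_trans ?_ h1
  refine sum_le_sum_of_subset_of_nonneg (fun b hb => ?_) fun _ _ _ => abs_nonneg _
  rw [mem_Ioc] at hb
  rw [mem_Icc]
  omega

/-- the main term with weights -/
lemma detMP {N n y₁ y₂ : ℕ} {W l lz : ℕ → ℝ} {c S ε : ℝ} (hW : WBd W c N) (h12 : y₁ ≤ y₂)
    (h2 : y₂ + n ≤ N) (hm1 : ∀ y, y + n ≤ N → |∑ b ∈ Icc 1 y, lz b * l (b + n) - S * y| ≤ ε) :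
    |∑ b ∈ Ioc y₁ y₂, l (b + n) * (W b * lz b) - S * ∑ b ∈ Ioc y₁ y₂, W b| ≤ 4 * (c * ε) := by
  have hc := hW.hc
  have cst : ∀ m : ℕ, ∑ _i ∈ Icc 1 m, S = S * m := by
    intro m
    rw [sum_const, Nat.card_Icc, nsmul_eq_mul, Nat.add_sub_cancel, mul_comm]
  have p1 : ∀ m ≤ y₂, |∑ i ∈ Icc 1 m, (lz i * l (i + n) - S)| ≤ ε := by
    intro m hm
    rw [sum_sub_distrib, cst]
    exact hm1 m (by omega)
  have q1 := abelW (fun i => lz i * l (i + n) - S) (fun i => W i) ε c c y₁ y₂ h12 p1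
    (fun i hi => hW.h1 _ (by rw [mem_Icc] at hi; omega))
    ((sum_le_sum_of_subset_of_nonneg (range_subset_range.2 (by omega)) fun _ _ _ => abs_nonneg _).trans hW.h2) hc
  have e : ∑ b ∈ Ioc y₁ y₂, l (b + n) * (W b * lz b) - S * ∑ b ∈ Ioc y₁ y₂, W b =
      ∑ i ∈ Ioc y₁ y₂, W i * (lz i * l (i + n) - S) := by
    rw [mul_sum, ← sum_sub_distrib]
    refine sum_congr rfl fun b _ => ?_
    ring
  rw [e]
  refine q1.trans (le_of_eq ?_)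
  ring

/-- the density of the main term -/
lemma densMP {N y₁ y₂ : ℕ} {W : ℕ → ℝ} {c h₀ X : ℝ} (hW : WBd W c N) (h12 : y₁ ≤ y₂)
    (h2 : y₂ ≤ N) (hX : 0 ≤ X) (hh : 0 ≤ h₀) (hd : ∀ b : ℕ, b ≤ N → X ≤ b → h₀ ≤ W b) :
    h₀ * ((y₂ : ℝ) - y₁) - (c + h₀) * (X + 1) ≤ ∑ b ∈ Ioc y₁ y₂, W b := by
  classical
  have hc := hW.hc
  have h1 : ∀ b ∈ Ioc y₁ y₂, h₀ - (if (b : ℝ) < X then (c + h₀) else 0) ≤ W b := by
    intro b hb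
    rw [mem_Ioc] at hb
    have k4 := (abs_le.1 (hW.h1 b (by omega))).1
    by_cases a2 : (b : ℝ) < X
    · rw [if_pos a2]
      linarith
    · rw [if_neg a2]
      have := hd b (by omega) (not_lt.1 a2)
      linarith
  refine le_trans ?_ (sum_le_sum h1)
  rw [sum_sub_distrib, sum_const, Nat.card_Ioc, nsmul_eq_mul, ← sum_filter, sum_const, nsmul_eq_mul]
  have c2 : (((Ioc y₁ y₂).filter (fun b : ℕ => (b : ℝ) < X)).card : ℝ) ≤ X + 1 := by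
    have e1 : (Ioc y₁ y₂).filter (fun b : ℕ => (b : ℝ) < X) ⊆ Icc 1 ⌊X⌋₊ := by
      intro b hb
      rw [mem_filter, mem_Ioc] at hb
      rw [mem_Icc]
      exact ⟨by omega, Nat.le_floor hb.2.le⟩
    have e2 := card_le_card e1
    rw [Nat.card_Icc, Nat.add_sub_cancel] at e2
    have e3 : ((⌊X⌋₊ : ℕ) : ℝ) ≤ X := Nat.floor_le hX
    have e4 : (((Ioc y₁ y₂).filter (fun b : ℕ => (b : ℝ) < X)).card : ℝ) ≤ ((⌊X⌋₊ : ℕ) : ℝ) := by exact_mod_cast e2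
    linarith
  have c3 : ((y₂ - y₁ : ℕ) : ℝ) = (y₂ : ℝ) - y₁ := Nat.cast_sub h12
  rw [c3]
  have hch : 0 ≤ c + h₀ := by linarith
  nlinarith [mul_le_mul_of_nonneg_right c2 hch]

end Pool.Agent.J4H40
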