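import Pool.Agent.R461.GS.Shl5
import Pool.Agent.J4H40.Pr

set_option autoImplicit false

/-! Correlations with shifted characters, moduli up to `N ^ (1 - 3 κ)` (adapted from `R461/GS/Shl4`, `Shl5`). -/

namespace Pool.Agent.J4H40

open Finset
open Pool.Agent.H807R2.Dav (ee norm_ee)
open Pool.Agent.Y883.GJ
open Pool.Agent.Y183.GJ (ci gi Yi Xi Dm wn ai decomp w_sum gi_pos gi_le lt_gi ee_sub)
open Pool.Agent.R461.GS

/-- the numerical part for the main term -/
lemma main_numK {κ : ℝ} {N L I g c dq D C1 : ℝ} {B M T K' K : ℕ} (hL : 1 ≤ L) (hL2 : 28672 ≤ L) (hN : 1 ≤ N) (hI : I ≤ 2 * L ^ (M + 1)) (_hI0 : 0 ≤ I)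
    (hg1 : g ≤ L ^ T) (hg0 : 0 ≤ g) (hc : L ^ K < c) (hK : K = T + 2 * K') (hK' : K' = M + B + 10)
    (hdq0 : 0 ≤ dq) (hdq : dq ≤ C1 * N ^ (κ / 10)) (_hC1 : 0 ≤ C1) (hD0 : 0 < D) (hD : N ^ (κ / 2) ≤ 2 * D)
    (hbig : 2 * C1 * L ^ (T + K') ≤ N ^ (3 * κ / 20)) :
    I * (2 * (1 + L) ^ 8 * N * (12 * √(g / c) + 2 * (dq * √g / √D))) ≤ N / (2 * L ^ B) := by
  have hL0 : 0 < L := by linarith
  have hN0 : 0 < N := by linarith
  have hc0 : 0 < c := lt_trans (by positivity) hc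
  have hx : (L ^ K')⁻¹ * L ^ K' = 1 := inv_mul_cancel₀ (by positivity)
  have e1 : √(g / c) ≤ (L ^ K')⁻¹ := by
    rw [Real.sqrt_le_left (by positivity), div_le_iff₀ hc0]
    calc g ≤ L ^ T := hg1
      _ = ((L ^ K')⁻¹ * L ^ K') ^ 2 * L ^ T := by rw [hx]; ring
      _ = ((L ^ K')⁻¹) ^ 2 * L ^ K := by rw [hK]; ring
      _ ≤ ((L ^ K')⁻¹) ^ 2 * c := mul_le_mul_of_nonneg_left hc.le (by positivity)
  have e2 : √g ≤ L ^ T := by
    rw [Real.sqrt_le_left (by positivity)]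
    have : 1 ≤ L ^ T := one_le_pow₀ hL
    nlinarith
  have e3 : N ^ (κ / 4) ≤ 2 * √D := by
    have f1 : N ^ (κ / 4) = √(N ^ (κ / 2)) := by
      rw [Real.sqrt_eq_rpow, ← Real.rpow_mul hN0.le]
      congr 1
      ring
    rw [f1]
    calc √(N ^ (κ / 2)) ≤ √(2 ^ 2 * D) := Real.sqrt_le_sqrt (by linarith)
      _ = 2 * √D := by rw [Real.sqrt_mul (by norm_num), Real.sqrt_sq (by norm_num)]
  have hsD : 0 < √D := Real.sqrt_pos.2 hD0
  have e4 : dq * √g / √D ≤ (L ^ K')⁻¹ := by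
    rw [div_le_iff₀ hsD]
    have f1 : N ^ (κ / 10) * N ^ (3 * κ / 20) = N ^ (κ / 4) := by
      rw [← Real.rpow_add hN0]
      congr 1
      ring
    have f2 : dq * √g * L ^ K' ≤ √D := by
      have f3 : dq * √g ≤ C1 * N ^ (κ / 10) * L ^ T := mul_le_mul hdq e2 (Real.sqrt_nonneg _) (by positivity)
      have f4 : dq * √g * L ^ K' ≤ C1 * N ^ (κ / 10) * L ^ T * L ^ K' :=
        mul_le_mul_of_nonneg_right f3 (by positivity)
      have f5 : C1 * N ^ (κ / 10) * L ^ T * L ^ K' * 2 = N ^ (κ / 10) * (2 * C1 * L ^ (T + K')) := by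
        rw [pow_add]; ring
      have f6 : N ^ (κ / 10) * (2 * C1 * L ^ (T + K')) ≤ N ^ (κ / 10) * N ^ (3 * κ / 20) :=
        mul_le_mul_of_nonneg_left hbig (by positivity)
      rw [f1] at f6
      linarith
    calc dq * √g = dq * √g * L ^ K' * (L ^ K')⁻¹ := by rw [mul_assoc, mul_comm (L ^ K') _, hx, mul_one]
      _ ≤ √D * (L ^ K')⁻¹ := mul_le_mul_of_nonneg_right f2 (by positivity)
      _ = _ := mul_comm _ _
  have e5 : (1 + L) ^ 8 ≤ (2 * L) ^ 8 := pow_le_pow_left₀ (by linarith) (by linarith) 8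
  calc I * (2 * (1 + L) ^ 8 * N * (12 * √(g / c) + 2 * (dq * √g / √D)))
      ≤ (2 * L ^ (M + 1)) * (2 * (2 * L) ^ 8 * N * (12 * (L ^ K')⁻¹ + 2 * (L ^ K')⁻¹)) := by
        apply mul_le_mul hI _ (by positivity) (by positivity)
        apply mul_le_mul
        · apply mul_le_mul_of_nonneg_right _ hN0.le
          exact mul_le_mul_of_nonneg_left e5 (by norm_num)
        · apply add_le_add
          · exact mul_le_mul_of_nonneg_left e1 (by norm_num)
          · exact mul_le_mul_of_nonneg_left e4 (by norm_num)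
        · positivity
        · positivity
    _ = 14336 * (L ^ (M + 9) * N * (L ^ K')⁻¹) := by ring
    _ ≤ N / (2 * L ^ B) := by
        rw [le_div_iff₀ (by positivity)]
        have f1 : L ^ K' = L ^ (M + 9) * L * L ^ B := by rw [hK']; ring
        rw [f1]
        have f2 : 14336 * (L ^ (M + 9) * N * (L ^ (M + 9) * L * L ^ B)⁻¹) * (2 * L ^ B) = N * (28672 / L) := by
          field_simp
          ring
        rw [f2]
        have f3 : 28672 / L ≤ 1 := by
          rw [div_le_one hL0]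
          exact hL2
        nlinarith

/-- type II sums -/
theorem typeIIK {κ : ℝ} (hκ0 : 0 < κ) (hκ1 : κ ≤ 1 / 20) (hJ : JacStm) (hL2 : L2Stm) (B C T : ℕ) : ∃ K N₀ : ℕ, ∀ N : ℕ, N₀ ≤ N →
    ∀ (q : ℕ) [NeZero q], (q : ℝ) ≤ (N : ℝ) ^ (1 - 3 * κ) → ∀ χ : DirichletCharacter ℂ q,
    Real.log N ^ K < χ.conductor → ∀ α : ZMod q, (Nat.gcd α.val q : ℝ) ≤ Real.log N ^ T →
    ∀ η : ℝ, |η| ≤ Real.log N ^ C / N → ∀ y : ℕ, y ≤ N → ∀ a b : ℕ → ℂ,
    (∀ m ∈ Icc 1 N, ‖a m‖ ≤ Real.log N * (m.divisors.card : ℝ)) →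
    (∀ m ∈ Icc 1 N, ‖b m‖ ≤ Real.log N * (m.divisors.card : ℝ)) →
    (∀ m, a m ≠ 0 → ⌊(N : ℝ) ^ κ⌋₊ < m) → (∀ m, b m ≠ 0 → ⌊(N : ℝ) ^ κ⌋₊ < m) →
    ‖∑ m ∈ Icc 1 y, ∑ k ∈ Icc 1 (y / m), a m * b k * (ff χ α ((m * k : ℕ) : ZMod q) * ee ((m * k : ℕ) * η))‖ ≤
      N / Real.log N ^ B := by
  obtain ⟨p₁, hp₁⟩ : ∃ p₁ : ℕ, 2 ^ 12 = p₁ := ⟨_, rfl⟩
  obtain ⟨p₂, hp₂⟩ : ∃ p₂ : ℕ, 2 ^ 6 = p₂ := ⟨_, rfl⟩
  obtain ⟨C1, hC1, hdiv⟩ := Pool.Agent.H510R2.divisor_bound (κ / 10) (by positivity)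
  obtain ⟨M, hM⟩ : ∃ M : ℕ, M = p₁ + p₂ + 4 * B + 2 * C + 10 := ⟨_, rfl⟩
  obtain ⟨K', hK'⟩ : ∃ K' : ℕ, K' = M + B + 10 := ⟨_, rfl⟩
  obtain ⟨n1, hn1⟩ := Pool.Agent.H373R2.T7.ev_L' (28672 + 512 * 2 ^ p₁ + 784 * 2 ^ p₂)
  obtain ⟨n2, hn2⟩ := Pool.Agent.Y883.T3.ev_log_rpow (T + K') (2 * C1) (3 * κ / 20) (by positivity)
  obtain ⟨n3, hn3⟩ := Pool.Agent.Y883.T3.ev_log_rpow M 1 1 (by norm_num)
  refine ⟨T + 2 * K', max (max n1 n2) (max n3 3), fun N hN q _ hq χ hχ α hα η hη y hy a b ha hb haU hbU => ?_⟩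
  have hNn1 : n1 ≤ N := le_trans (le_trans (le_max_left _ _) (le_max_left _ _)) hN
  have hNn2 : n2 ≤ N := le_trans (le_trans (le_max_right _ _) (le_max_left _ _)) hN
  have hNn3 : n3 ≤ N := le_trans (le_trans (le_max_left _ _) (le_max_right _ _)) hN
  have hN3 : 3 ≤ N := le_trans (le_trans (le_max_right _ _) (le_max_right _ _)) hN
  have hLb := hn1 N hNn1
  have hbig := hn2 N hNn2
  have hM1 := hn3 N hNn3
  rw [one_mul, Real.rpow_one] at hM1
  have hN1 : (1 : ℝ) ≤ N := by exact_mod_cast (by omega : 1 ≤ N)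
  have hN0 : (0 : ℝ) < N := by linarith
  obtain ⟨L, hLdef⟩ : ∃ L, L = Real.log (N : ℝ) := ⟨_, rfl⟩
  have hp1' : (0 : ℝ) < 2 ^ p₁ := by positivity
  have hp2' : (0 : ℝ) < 2 ^ p₂ := by positivity
  have hL1 : (1 : ℝ) ≤ Real.log N := by linarith
  set U := ⌊(N : ℝ) ^ κ⌋₊ with hU
  obtain ⟨D, hD⟩ : ∃ D : ℕ, D = ⌊(N : ℝ) ^ (κ / 2)⌋₊ := ⟨_, rfl⟩
  have hDle : (D : ℝ) ≤ (N : ℝ) ^ (κ / 2) := by rw [hD]; exact Nat.floor_le (by positivity)
  have hD1 : 1 ≤ D := by
    rw [hD]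
    apply Nat.le_floor
    simpa using Real.one_le_rpow hN1 (by positivity : (0 : ℝ) ≤ κ / 2)
  have hD0 : (0 : ℝ) < D := by exact_mod_cast hD1
  have hDge : (N : ℝ) ^ (κ / 2) ≤ 2 * D := by
    have e1 := Nat.lt_floor_add_one ((N : ℝ) ^ (κ / 2))
    rw [← hD] at e1
    have e2 : (1 : ℝ) ≤ D := by exact_mod_cast hD1
    linarith
  have hDU : D ^ 2 ≤ U := by
    rw [hU]
    apply Nat.le_floor
    push_cast
    calc (D : ℝ) ^ 2 ≤ ((N : ℝ) ^ (κ / 2)) ^ 2 := pow_le_pow_left₀ hD0.le hDle 2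
      _ = (N : ℝ) ^ κ := by
        rw [← Real.rpow_natCast, ← Real.rpow_mul hN0.le]
        congr 1
        push_cast
        ring
  have hqD : (q : ℝ) ≤ N / D := by
    rw [le_div_iff₀ hD0]
    calc (q : ℝ) * D ≤ (N : ℝ) ^ (1 - 3 * κ) * (N : ℝ) ^ (κ / 2) :=
          mul_le_mul hq hDle hD0.le (by positivity)
      _ = (N : ℝ) ^ (1 - 5 * κ / 2) := by rw [← Real.rpow_add hN0]; ring_nf
      _ ≤ (N : ℝ) ^ (1 : ℝ) := Real.rpow_le_rpow_of_exponent_le hN1 (by linarith)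
      _ = N := Real.rpow_one _
  have hqN : q ≤ N := by
    have e1 : (q : ℝ) ≤ N := hq.trans (by
      calc (N : ℝ) ^ (1 - 3 * κ) ≤ (N : ℝ) ^ (1 : ℝ) := Real.rpow_le_rpow_of_exponent_le hN1 (by linarith)
        _ = N := Real.rpow_one _)
    exact_mod_cast e1
  have hdq : ((q.divisors.card : ℕ) : ℝ) ≤ C1 * (N : ℝ) ^ (κ / 10) := by
    refine (hdiv q (Nat.pos_of_ne_zero (NeZero.ne q))).trans ?_
    apply mul_le_mul_of_nonneg_left _ hC1.le
    apply Real.rpow_le_rpow (Nat.cast_nonneg _) (by exact_mod_cast hqN) (by positivity)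
  obtain ⟨δ, hδ⟩ : ∃ δ : ℝ, δ = (Real.log N ^ M)⁻¹ := ⟨_, rfl⟩
  have hδ0 : 0 < δ := by rw [hδ]; positivity
  obtain ⟨I, hI⟩ : ∃ I : ℕ, I = ⌊Real.log N / δ⌋₊ + 1 := ⟨_, rfl⟩
  have hIle : (I : ℝ) ≤ 2 * Real.log N ^ (M + 1) := by
    have e1 : ((⌊Real.log N / δ⌋₊ : ℕ) : ℝ) ≤ Real.log N / δ := Nat.floor_le (by positivity)
    have e2 : Real.log N / δ = Real.log N ^ (M + 1) := by
      rw [hδ, div_inv_eq_mul, pow_succ]
      ring
    have e3 : 1 ≤ Real.log N ^ (M + 1) := one_le_pow₀ hL1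
    have e4 := e1.trans (le_of_eq e2)
    rw [hI]
    push_cast
    linarith
  -- restriction to `m ≤ y`
  set a' : ℕ → ℂ := fun m => if m ≤ y then a m else 0 with ha'
  have hsum : ∑ m ∈ Icc 1 y, ∑ k ∈ Icc 1 (y / m), a m * b k * (ff χ α ((m * k : ℕ) : ZMod q) * ee ((m * k : ℕ) * η)) =
      ∑ m ∈ Icc 1 y, ∑ k ∈ Icc 1 (y / m), a' m * b k * (ff χ α ((m * k : ℕ) : ZMod q) * ee ((m * k : ℕ) * η)) := by
    refine sum_congr rfl fun m hm => ?_
    rw [mem_Icc] at hm
    have : a' m = a m := by rw [ha']; simp only; rw [if_pos hm.2]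
    rw [this]
  have ha1 : ∀ m ∈ Icc 1 N, ‖a' m‖ ≤ Real.log N * (m.divisors.card : ℝ) := by
    intro m hm
    rw [ha']
    simp only
    split_ifs
    · exact ha m hm
    · rw [norm_zero]
      positivity
  have ha2 : ∀ m, a' m ≠ 0 → m ≤ y ∧ a m ≠ 0 := by
    intro m hm
    rw [ha'] at hm
    simp only at hm
    by_cases h : m ≤ y
    · rw [if_pos h] at hm
      exact ⟨h, hm⟩
    · rw [if_neg h] at hm
      exact absurd rfl hm
  rw [hsum, split_II (I := I) hδ0 (fun m hm h0 => ⟨(ha2 m h0).1, by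
    rw [hI]
    unfold ci
    apply Nat.lt_succ_of_le
    apply Nat.floor_le_floor
    apply div_le_div_of_nonneg_right _ hδ0.le
    exact Real.log_le_log (by exact_mod_cast hm) (by exact_mod_cast (ha2 m h0).1.trans hy)⟩) χ α]
  have hmain : ‖∑ i ∈ range I, (q.totient : ℂ)⁻¹ * ∑ ψ : DirichletCharacter ℂ q, JJ χ α ψ *
        (AS (Xi δ i) (ai δ a' i) ψ * AS (Yi δ y i) (fun k => b k * ee (gi δ i * k * η)) ψ)‖ ≤
      N / (2 * Real.log N ^ B) := by
    refine (norm_sum_le _ _).trans ((sum_le_sum fun i _ => one_class hJ hL2 hδ0 hy hL1 hD1 hDU hqD hqN ha1 hb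
      (fun m h0 => ⟨haU m (ha2 m h0).2, (ha2 m h0).1.trans hy⟩) hbU χ α).trans ?_)
    rw [sum_const, card_range, nsmul_eq_mul]
    refine main_numK (D := (D : ℝ)) hL1 (by linarith) hN1 hIle (Nat.cast_nonneg _) hα (Nat.cast_nonneg _) hχ rfl hK' (Nat.cast_nonneg _) hdq hC1.le
      hD0 hDge hbig
  have herr : ‖∑ n ∈ Icc 1 y, wn δ y η a' b n * ff χ α (n : ZMod q)‖ ≤ N / (2 * Real.log N ^ B) := by
    have hηy : (y : ℝ) * |η| ≤ Real.log N ^ C := by
      calc (y : ℝ) * |η| ≤ N * (Real.log N ^ C / N) :=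
            mul_le_mul (by exact_mod_cast hy) hη (abs_nonneg _) hN0.le
        _ = _ := by field_simp
    obtain ⟨S, hS0, hS1, hS2⟩ := w_sum (ℓ := Real.log N) (a := a') (b := b) hp₁ hp₂ hδ0 hηy
      (fun m hm => ha1 m (mem_Icc.2 ⟨(mem_Icc.1 hm).1, (mem_Icc.1 hm).2.trans hy⟩))
      (fun m hm => hb m (mem_Icc.2 ⟨(mem_Icc.1 hm).1, (mem_Icc.1 hm).2.trans hy⟩)) (by linarith)
    have hlog : 1 + Real.log y ≤ 2 * Real.log N := by
      rcases Nat.eq_zero_or_pos y with h0 | h0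
      · rw [h0]
        simp only [Nat.cast_zero, Real.log_zero]
        linarith
      · have : Real.log y ≤ Real.log N := Real.log_le_log (by exact_mod_cast h0) (by exact_mod_cast hy)
        linarith
    have hlog0 : 0 ≤ 1 + Real.log y := by
      have := Real.log_natCast_nonneg y
      linarith
    have hy0 : (0 : ℝ) ≤ y := Nat.cast_nonneg _
    have hsq : √((y : ℝ) * ∑ n ∈ Icc 1 y, ‖wn δ y η a' b n‖ ^ 2) ≤ N / (2 * Real.log N ^ B) := by
      refine err_num (y := y) (S := S) (E := Real.log N ^ C) (δ := δ) (c1 := 2 ^ p₁) (c2 := 2 ^ p₂) (C := C) (M := M)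
        (p₁ := p₁) (p₂ := p₂) hL1 hy0 (by exact_mod_cast hy) hN0 hp1'.le hp2'.le hδ hM1 rfl hS0 (hS1.trans ?_)
        (Real.sqrt_nonneg _) ?_ hM (by linarith) (by linarith)
      · apply mul_le_mul_of_nonneg_left _ (by positivity)
        apply mul_le_mul_of_nonneg_left _ hy0
        rw [← mul_pow]
        exact pow_le_pow_left₀ hlog0 hlog _
      · rw [Real.sq_sqrt (by positivity)]
        apply mul_le_mul_of_nonneg_left _ hy0
        refine hS2.trans ?_
        apply mul_le_mul_of_nonneg_left _ (by positivity)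
        apply add_le_add_right
        apply mul_le_mul_of_nonneg_left _ (by positivity)
        apply mul_le_mul_of_nonneg_left _ hy0
        rw [← mul_pow]
        exact pow_le_pow_left₀ hlog0 hlog _
    refine le_trans ?_ hsq
    refine (norm_sum_le _ _).trans ?_
    calc ∑ n ∈ Icc 1 y, ‖wn δ y η a' b n * ff χ α (n : ZMod q)‖ ≤ ∑ n ∈ Icc 1 y, ‖wn δ y η a' b n‖ := by
          refine sum_le_sum fun n _ => ?_
          rw [norm_mul]
          have := ff_norm χ α (n : ZMod q)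
          have h2 := norm_nonneg (wn δ y η a' b n)
          nlinarith
      _ ≤ √((y : ℝ) * ∑ n ∈ Icc 1 y, ‖wn δ y η a' b n‖ ^ 2) := by
          apply Real.le_sqrt_of_sq_le
          have := sq_sum_le_card_mul_sum_sq (s := Icc 1 y) (f := fun n => ‖wn δ y η a' b n‖)
          rw [Nat.card_Icc] at this
          simpa using this
  calc _ ≤ N / (2 * Real.log N ^ B) + N / (2 * Real.log N ^ B) := (norm_add_le _ _).trans (add_le_add hmain herr)
    _ = N / Real.log N ^ B := by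
        field_simp
        ring


/-- the final numerical part -/
lemma fin_numK {κ : ℝ} (hκ0 : 0 < κ) (hκ1 : κ ≤ 1 / 20) {N L U q Q s : ℝ} {B C K2 : ℕ} (hL : 1 ≤ L) (hL2 : 10000 ≤ L) (hN : 1 ≤ N)
    (hU0 : 0 ≤ U) (hU : U ≤ N ^ κ) (hq0 : 0 ≤ q) (hq : q ≤ N ^ (1 - 3 * κ)) (hK2 : K2 = B + C + 6)
    (hs0 : 0 ≤ s) (hs : s ≤ (L ^ K2)⁻¹) (hQ : Q = (N * (2 * L)) * (2 * L * s) + U * U * q)
    (hbig : 10000 * L ^ (B + C + 4) ≤ N ^ κ) :
    U * L + 3 * (2 * L) * (Q * (8 * L ^ C)) ≤ N / (2 * L ^ (B + 1)) := by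
  have hL0 : 0 < L := by linarith
  have hN0 : 0 < N := by linarith
  have hUU : U * U * q ≤ N ^ (1 - κ) := by
    calc U * U * q ≤ N ^ κ * N ^ κ * N ^ (1 - 3 * κ) := by
          apply mul_le_mul _ hq hq0 (by positivity)
          exact mul_le_mul hU hU hU0 (by positivity)
      _ = N ^ (1 - κ) := by
          rw [← Real.rpow_add hN0, ← Real.rpow_add hN0]
          congr 1
          ring
  have e0 : N ^ (1 - κ) * N ^ κ = N := by
    rw [← Real.rpow_add hN0]
    norm_num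
  have e1 : N ^ (1 - κ) * (10000 * L ^ (B + C + 4)) ≤ N := by
    calc _ ≤ N ^ (1 - κ) * N ^ κ := mul_le_mul_of_nonneg_left hbig (by positivity)
      _ = N := e0
  have e2 : U ≤ N ^ (1 - κ) := hU.trans (Real.rpow_le_rpow_of_exponent_le hN (by linarith))
  have hC1 : 1 ≤ L ^ C := one_le_pow₀ hL
  have hQ1 : Q ≤ 4 * L ^ 2 * N * (L ^ K2)⁻¹ + N ^ (1 - κ) := by
    rw [hQ]
    apply add_le_add _ hUU
    calc N * (2 * L) * (2 * L * s) = 4 * L ^ 2 * N * s := by ring
      _ ≤ 4 * L ^ 2 * N * (L ^ K2)⁻¹ := mul_le_mul_of_nonneg_left hs (by positivity)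
  rw [le_div_iff₀ (by positivity)]
  have e3 : (U * L + 3 * (2 * L) * (Q * (8 * L ^ C))) * (2 * L ^ (B + 1)) ≤
      (N ^ (1 - κ) * L + 3 * (2 * L) * ((4 * L ^ 2 * N * (L ^ K2)⁻¹ + N ^ (1 - κ)) * (8 * L ^ C))) * (2 * L ^ (B + 1)) := by
    apply mul_le_mul_of_nonneg_right _ (by positivity)
    apply add_le_add
    · exact mul_le_mul_of_nonneg_right e2 hL0.le
    · apply mul_le_mul_of_nonneg_left _ (by positivity)
      exact mul_le_mul_of_nonneg_right hQ1 (by positivity)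
  refine e3.trans ?_
  have e4 : (N ^ (1 - κ) * L + 3 * (2 * L) * ((4 * L ^ 2 * N * (L ^ K2)⁻¹ + N ^ (1 - κ)) * (8 * L ^ C))) * (2 * L ^ (B + 1)) =
      384 * (L ^ (B + C + 4) * (L ^ K2)⁻¹) * N + N ^ (1 - κ) * (2 * L ^ (B + 2) + 96 * L ^ (B + C + 2)) := by
    ring
  rw [e4]
  have e5 : L ^ (B + C + 4) * (L ^ K2)⁻¹ = (L ^ 2)⁻¹ := by
    rw [hK2]
    have : L ^ (B + C + 6) = L ^ (B + C + 4) * L ^ 2 := by ring
    rw [this]
    field_simp
  have e6 : 384 * (L ^ 2)⁻¹ ≤ 1 / 2 := by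
    rw [← div_eq_mul_inv, div_le_iff₀ (by positivity)]
    nlinarith
  have e7 : 2 * L ^ (B + 2) + 96 * L ^ (B + C + 2) ≤ 5000 * L ^ (B + C + 4) := by
    have f1 : L ^ (B + 2) ≤ L ^ (B + C + 4) := pow_le_pow_right₀ hL (by omega)
    have f2 : L ^ (B + C + 2) ≤ L ^ (B + C + 4) := pow_le_pow_right₀ hL (by omega)
    have f3 : 0 < L ^ (B + C + 4) := by positivity
    linarith
  rw [e5]
  have e8 : N ^ (1 - κ) * (2 * L ^ (B + 2) + 96 * L ^ (B + C + 2)) ≤ N / 2 := by
    calc _ ≤ N ^ (1 - κ) * (5000 * L ^ (B + C + 4)) := mul_le_mul_of_nonneg_left e7 (by positivity)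
      _ = N ^ (1 - κ) * (10000 * L ^ (B + C + 4)) / 2 := by ring
      _ ≤ N / 2 := by linarith
  nlinarith

/-- SHL: correlations of the primes with shifted characters -/
theorem shlK {κ : ℝ} (hκ0 : 0 < κ) (hκ1 : κ ≤ 1 / 20) (hV : VauStm) (hJ : JacStm) (hL2 : L2Stm) (B C T : ℕ) : ∃ K N₀ : ℕ, ∀ N : ℕ, N₀ ≤ N →
    ShE N (1 - 3 * κ) B C T K LA := by
  obtain ⟨K1, n1, hII⟩ := typeIIK hκ0 hκ1 hJ hL2 (B + 1) C T
  obtain ⟨K2, hK2⟩ : ∃ K2 : ℕ, K2 = B + C + 6 := ⟨_, rfl⟩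
  obtain ⟨n2, hn2⟩ := Pool.Agent.H373R2.T7.ev_L' 10000
  obtain ⟨n3, hn3⟩ := Pool.Agent.Y883.T3.ev_log_rpow (B + C + 4) 10000 κ hκ0
  refine ⟨K1 + (T + 2 * K2), max (max n1 n2) (max n3 3), fun N hN q _ hq χ hχ α hα η hη y hy => ?_⟩
  have hNn1 : n1 ≤ N := le_trans (le_trans (le_max_left _ _) (le_max_left _ _)) hN
  have hNn2 : n2 ≤ N := le_trans (le_trans (le_max_right _ _) (le_max_left _ _)) hN
  have hNn3 : n3 ≤ N := le_trans (le_trans (le_max_left _ _) (le_max_right _ _)) hN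
  have hN3 : 3 ≤ N := le_trans (le_trans (le_max_right _ _) (le_max_right _ _)) hN
  have hLb := hn2 N hNn2
  have hbig := hn3 N hNn3
  have hN1 : (1 : ℝ) ≤ N := by exact_mod_cast (by omega : 1 ≤ N)
  have hN0 : (0 : ℝ) < N := by linarith
  have hL1 : (1 : ℝ) ≤ Real.log N := by linarith
  have hL0 : (0 : ℝ) < Real.log N := by linarith
  have hq0 : 0 < q := Nat.pos_of_ne_zero (NeZero.ne q)
  have hq' : (q : ℝ) ≤ (N : ℝ) ^ (1 - 3 * κ) := hq
  have hqN : q ≤ N := by
    have e1 : (q : ℝ) ≤ N := hq'.trans (by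
      calc (N : ℝ) ^ (1 - 3 * κ) ≤ (N : ℝ) ^ (1 : ℝ) := Real.rpow_le_rpow_of_exponent_le hN1 (by linarith)
        _ = N := Real.rpow_one _)
    exact_mod_cast e1
  have hyN : (y : ℝ) ≤ N := by exact_mod_cast hy
  -- the sum over the classes
  have hsum : ∑ l : ZMod q, cl q y LA η l * χ (α - l) =
      ∑ n ∈ Icc 1 y, LA n * ee (n * η) * χ (α - (n : ZMod q)) := by
    unfold cl
    rw [← Finset.sum_fiberwise (Icc 1 y) (fun n : ℕ => (n : ZMod q))]
    refine Finset.sum_congr rfl fun l _ => ?_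
    rw [Finset.sum_mul]
    refine Finset.sum_congr rfl fun n hn => ?_
    rw [Finset.mem_filter] at hn
    rw [hn.2]
  rw [hsum]
  set U := ⌊(N : ℝ) ^ κ⌋₊ with hU
  have hUle : (U : ℝ) ≤ (N : ℝ) ^ κ := Nat.floor_le (by positivity)
  have hU1 : 1 ≤ U := by
    rw [hU]
    apply Nat.le_floor
    simpa using Real.one_le_rpow hN1 hκ0.le
  have hLAn : ∀ n : ℕ, ‖LA n‖ = ArithmeticFunction.vonMangoldt n := by
    intro n
    unfold LA
    rw [Complex.norm_real, Real.norm_of_nonneg ArithmeticFunction.vonMangoldt_nonneg]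
  have hlamle : ∀ n ∈ Icc 1 N, ArithmeticFunction.vonMangoldt n ≤ Real.log N := by
    intro n hn
    rw [mem_Icc] at hn
    exact ArithmeticFunction.vonMangoldt_le_log.trans
      (Real.log_le_log (by exact_mod_cast hn.1) (by exact_mod_cast hn.2))
  by_cases hUy : U * U ≤ y
  swap
  · -- short sums
    push Not at hUy
    have h1 : ‖∑ n ∈ Icc 1 y, LA n * ee (n * η) * χ (α - (n : ZMod q))‖ ≤ y * Real.log N := by
      refine (norm_sum_le _ _).trans ?_
      calc _ ≤ ∑ _n ∈ Icc 1 y, Real.log N := by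
            refine sum_le_sum fun n hn => ?_
            rw [mem_Icc] at hn
            rw [norm_mul, norm_mul, norm_ee, mul_one, hLAn]
            have h2 := χ.norm_le_one (α - (n : ZMod q))
            have h3 := hlamle n (mem_Icc.2 ⟨hn.1, hn.2.trans hy⟩)
            have h4 : (0 : ℝ) ≤ ArithmeticFunction.vonMangoldt n := ArithmeticFunction.vonMangoldt_nonneg
            have h5 := norm_nonneg (χ (α - (n : ZMod q)))
            nlinarith
        _ = _ := by rw [sum_const, Nat.card_Icc, nsmul_eq_mul]; simp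
    refine h1.trans ?_
    rw [le_div_iff₀ (by positivity)]
    have h2 : (y : ℝ) ≤ (N : ℝ) ^ (2 * κ) := by
      calc (y : ℝ) ≤ (U : ℝ) * U := by exact_mod_cast hUy.le
        _ ≤ (N : ℝ) ^ κ * (N : ℝ) ^ κ := mul_le_mul hUle hUle (Nat.cast_nonneg _) (by positivity)
        _ = (N : ℝ) ^ (2 * κ) := by rw [← Real.rpow_add hN0]; ring_nf
    have h3 : Real.log N * Real.log N ^ B ≤ (N : ℝ) ^ κ := by
      have f1 : Real.log N * Real.log N ^ B = Real.log N ^ (B + 1) := by ring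
      have f2 : Real.log N ^ (B + 1) ≤ Real.log N ^ (B + C + 4) := pow_le_pow_right₀ hL1 (by omega)
      have f3 : 0 < Real.log N ^ (B + C + 4) := by positivity
      rw [f1]
      linarith
    calc (y : ℝ) * Real.log N * Real.log N ^ B = y * (Real.log N * Real.log N ^ B) := by ring
      _ ≤ (N : ℝ) ^ (2 * κ) * (N : ℝ) ^ κ := mul_le_mul h2 h3 (by positivity) (by positivity)
      _ = (N : ℝ) ^ (3 * κ) := by rw [← Real.rpow_add hN0]; ring_nf
      _ ≤ (N : ℝ) ^ (1 : ℝ) := Real.rpow_le_rpow_of_exponent_le hN1 (by linarith)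
      _ = N := Real.rpow_one _
  · -- the identity of Vaughan
    have hηN : (N : ℝ) * |η| ≤ Real.log N ^ C := by
      calc (N : ℝ) * |η| ≤ N * (Real.log N ^ C / N) := mul_le_mul_of_nonneg_left hη hN0.le
        _ = _ := by field_simp
    have hηy : (y : ℝ) * |η| ≤ Real.log N ^ C :=
      (mul_le_mul_of_nonneg_right hyN (abs_nonneg _)).trans hηN
    set E : ℕ → ℂ := fun n => ff χ α (n : ZMod q) * ee ((n : ℝ) * η) with hE
    have hE1 : ∀ n, ‖E n‖ ≤ 1 := by
      intro n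
      rw [hE]
      simp only
      rw [norm_mul, norm_ee, mul_one]
      exact ff_norm _ _ _
    obtain ⟨s, hs⟩ : ∃ s, s = √((Nat.gcd α.val q : ℝ) / χ.conductor) := ⟨_, rfl⟩
    have hs0 : 0 ≤ s := by rw [hs]; exact Real.sqrt_nonneg _
    have hlq : Real.log q ≤ Real.log N := Real.log_le_log (by exact_mod_cast hq0) (by exact_mod_cast hqN)
    have hlq0 : 0 ≤ Real.log q := Real.log_natCast_nonneg q
    have hly : Real.log y ≤ Real.log N := by
      rcases Nat.eq_zero_or_pos y with h0 | h0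
      · rw [h0]
        simp only [Nat.cast_zero, Real.log_zero]
        linarith
      · exact Real.log_le_log (by exact_mod_cast h0) (by exact_mod_cast hy)
    have hly0 : 0 ≤ Real.log y := Real.log_natCast_nonneg y
    have hχK : Real.log N ^ K1 < χ.conductor := by
      refine lt_of_le_of_lt ?_ hχ
      exact pow_le_pow_right₀ hL1 (by omega)
    have hχ2 : Real.log N ^ (T + 2 * K2) < χ.conductor := by
      refine lt_of_le_of_lt ?_ hχ
      exact pow_le_pow_right₀ hL1 (by omega)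
    have hs1 : s ≤ (Real.log N ^ K2)⁻¹ := by
      have hc0 : (0 : ℝ) < χ.conductor := lt_trans (by positivity) hχ2
      rw [hs, Real.sqrt_le_left (by positivity), div_le_iff₀ hc0]
      have hx : (Real.log N ^ K2)⁻¹ * Real.log N ^ K2 = 1 := inv_mul_cancel₀ (by positivity)
      calc (Nat.gcd α.val q : ℝ) ≤ Real.log N ^ T := hα
        _ = ((Real.log N ^ K2)⁻¹ * Real.log N ^ K2) ^ 2 * Real.log N ^ T := by rw [hx]; ring
        _ = ((Real.log N ^ K2)⁻¹) ^ 2 * Real.log N ^ (T + 2 * K2) := by ring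
        _ ≤ ((Real.log N ^ K2)⁻¹) ^ 2 * χ.conductor := mul_le_mul_of_nonneg_left hχ2.le (by positivity)
    have hVa := hV ℂ E y U (fun c => ((N : ℝ) / c * ((1 + Real.log q) * s) + q) * (1 + 7 * Real.log N ^ C)) hU1 hUy ?_
    swap
    · intro c hc y' hy'
      rw [mem_Icc] at hc
      have hy2 : y' ≤ N / c := hy'.trans (Nat.div_le_div_right hy)
      have := typeI hJ χ α hηN c hc.1 y' hy2
      rw [← hs] at this
      exact this
    -- the bilinear sum
    have hB2 := hII N hNn1 q hq' χ hχK α hα η hη y hy (fun m => ((bt U m : ℝ) : ℂ)) (fun m => ((lv U m : ℝ) : ℂ))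
      ?_ ?_ ?_ ?_
    rotate_left
    · intro m hm
      rw [Complex.norm_real, Real.norm_eq_abs]
      have h1 := Pool.Agent.Y776.GJ.bt_abs U m
      have h2 : (0 : ℝ) ≤ (m.divisors.card : ℝ) := Nat.cast_nonneg _
      nlinarith
    · intro m hm
      rw [mem_Icc] at hm
      rw [Complex.norm_real, Real.norm_eq_abs]
      have h1 := Pool.Agent.Y776.GJ.lv_abs (U := U) hm.1 hm.2
      have h2 : (1 : ℝ) ≤ (m.divisors.card : ℝ) := by
        have : 0 < m.divisors.card := Finset.card_pos.2 ⟨1, Nat.one_mem_divisors.2 (by omega)⟩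
        exact_mod_cast this
      nlinarith
    · intro m hm
      by_contra h
      push Not at h
      rw [Pool.Agent.Y776.GJ.bt_zero h] at hm
      simp at hm
    · intro m hm
      by_contra h
      have : lv U m = 0 := by unfold lv; rw [if_neg h]
      rw [this] at hm
      simp at hm
    have hbil : ∑ b ∈ Icc 1 y, ∑ c ∈ Icc 1 (y / b), (bt U b * lv U c) • E (b * c) =
        ∑ m ∈ Icc 1 y, ∑ k ∈ Icc 1 (y / m), ((bt U m : ℝ) : ℂ) * ((lv U k : ℝ) : ℂ) *
          (ff χ α ((m * k : ℕ) : ZMod q) * ee ((m * k : ℕ) * η)) := by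
      refine sum_congr rfl fun m _ => sum_congr rfl fun k _ => ?_
      rw [Complex.real_smul, Complex.ofReal_mul]
    rw [hbil] at hVa
    -- the part which is not coprime to `q`
    have hsplit : ∑ n ∈ Icc 1 y, LA n * ee (n * η) * χ (α - (n : ZMod q)) =
        ∑ n ∈ Icc 1 y, (ArithmeticFunction.vonMangoldt n) • E n +
        ∑ n ∈ (Icc 1 y).filter (fun n : ℕ => ¬ n.Coprime q), LA n * ee (n * η) * χ (α - (n : ZMod q)) := by
      rw [sum_filter, ← sum_add_distrib]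
      refine sum_congr rfl fun n _ => ?_
      rw [hE]
      simp only
      rw [Complex.real_smul]
      unfold ff LA
      by_cases h : n.Coprime q
      · rw [if_pos ((ZMod.isUnit_iff_coprime n q).2 h), if_neg (not_not.2 h)]
        ring
      · rw [if_neg (fun h2 => h ((ZMod.isUnit_iff_coprime n q).1 h2)), if_pos h]
        ring
    have hnc : ‖∑ n ∈ (Icc 1 y).filter (fun n : ℕ => ¬ n.Coprime q), LA n * ee (n * η) * χ (α - (n : ZMod q))‖ ≤
        6 * Real.log N ^ 3 := by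
      refine (norm_sum_le _ _).trans ?_
      calc _ ≤ ∑ n ∈ (Icc 1 y).filter (fun n : ℕ => ¬ n.Coprime q), ArithmeticFunction.vonMangoldt n := by
            refine sum_le_sum fun n _ => ?_
            rw [norm_mul, norm_mul, norm_ee, mul_one, hLAn]
            have h2 := χ.norm_le_one (α - (n : ZMod q))
            have h4 : (0 : ℝ) ≤ ArithmeticFunction.vonMangoldt n := ArithmeticFunction.vonMangoldt_nonneg
            nlinarith
        _ ≤ ∑ n ∈ (Icc 1 N).filter (fun n : ℕ => ¬ n.Coprime q), ArithmeticFunction.vonMangoldt n := by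
            apply sum_le_sum_of_subset_of_nonneg
            · exact filter_subset_filter _ (Icc_subset_Icc_right hy)
            · intro n _ _
              exact ArithmeticFunction.vonMangoldt_nonneg
        _ ≤ (Nat.log 2 N : ℝ) * ((Nat.log 2 N + 1 : ℝ) * Real.log N) := Pool.Agent.Y918.GJ.lam_noncop q N hq0 hqN
        _ ≤ (2 * Real.log N) * ((3 * Real.log N) * Real.log N) := by
            have h5 : (Nat.log 2 N : ℝ) ≤ 2 * Real.log N := by
              have h6 : 2 ^ Nat.log 2 N ≤ N := Nat.pow_log_le_self 2 (by omega)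
              have h7 : (2 : ℝ) ^ Nat.log 2 N ≤ N := by exact_mod_cast h6
              have h8 := Real.log_le_log (by positivity) h7
              rw [Real.log_pow] at h8
              have h9 := Real.log_two_gt_d9
              have h10 : (0 : ℝ) ≤ (Nat.log 2 N : ℝ) := Nat.cast_nonneg _
              nlinarith
            have h11 : (0 : ℝ) ≤ (Nat.log 2 N : ℝ) := Nat.cast_nonneg _
            apply mul_le_mul h5 _ (by positivity) (by positivity)
            apply mul_le_mul_of_nonneg_right _ hL0.le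
            linarith
        _ = 6 * Real.log N ^ 3 := by ring
    -- the error terms
    have hY : ∑ n ∈ Icc 1 U, ArithmeticFunction.vonMangoldt n * ‖E n‖ +
        3 * (1 + Real.log y) * ∑ c ∈ Icc 1 (U * U), ((N : ℝ) / c * ((1 + Real.log q) * s) + q) * (1 + 7 * Real.log N ^ C) ≤
        N / (2 * Real.log N ^ (B + 1)) := by
      have hUN : U ≤ N := by
        have : (U : ℝ) ≤ N := hUle.trans (by
          calc (N : ℝ) ^ κ ≤ (N : ℝ) ^ (1 : ℝ) := Real.rpow_le_rpow_of_exponent_le hN1 (by linarith)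
            _ = N := Real.rpow_one _)
        exact_mod_cast this
      have h1 : ∑ n ∈ Icc 1 U, ArithmeticFunction.vonMangoldt n * ‖E n‖ ≤ U * Real.log N := by
        calc _ ≤ ∑ _n ∈ Icc 1 U, Real.log N := by
              refine sum_le_sum fun n hn => ?_
              rw [mem_Icc] at hn
              have h2 := hlamle n (mem_Icc.2 ⟨hn.1, hn.2.trans hUN⟩)
              have h3 := hE1 n
              have h4 : (0 : ℝ) ≤ ArithmeticFunction.vonMangoldt n := ArithmeticFunction.vonMangoldt_nonneg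
              have h5 := norm_nonneg (E n)
              nlinarith
          _ = _ := by rw [sum_const, Nat.card_Icc, nsmul_eq_mul]; simp
      have h6 : ∑ c ∈ Icc 1 (U * U), ((N : ℝ) / c * ((1 + Real.log q) * s) + q) ≤
          (N * (2 * Real.log N)) * (2 * Real.log N * s) + U * U * q := by
        rw [sum_add_distrib, ← sum_mul]
        apply add_le_add
        · apply mul_le_mul _ _ (by positivity) (by positivity)
          · have h7 : ∑ c ∈ Icc 1 (U * U), (N : ℝ) / c = N * ∑ c ∈ Icc 1 (U * U), (1 : ℝ) / c := by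
              rw [mul_sum]
              refine sum_congr rfl fun c _ => ?_
              ring
            have h8 : ∑ c ∈ Icc 1 (U * U), (1 : ℝ) / c ≤ 1 + Real.log ((U * U : ℕ) : ℝ) := by
              have h := harmonic_le_one_add_log (U * U)
              rw [harmonic_eq_sum_Icc] at h
              push_cast at h ⊢
              simpa [one_div] using h
            have h9 : Real.log ((U * U : ℕ) : ℝ) ≤ Real.log N :=
              Real.log_le_log (by exact_mod_cast Nat.mul_pos hU1 hU1) (by exact_mod_cast hUy.trans hy)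
            rw [h7]
            apply mul_le_mul_of_nonneg_left _ hN0.le
            linarith
          · apply mul_le_mul_of_nonneg_right _ hs0
            linarith
        · rw [sum_const, Nat.card_Icc, nsmul_eq_mul]
          simp
      rw [← sum_mul]
      have h10 : 1 + 7 * Real.log N ^ C ≤ 8 * Real.log N ^ C := by
        have := one_le_pow₀ hL1 (n := C)
        linarith
      have h11 : (0 : ℝ) ≤ 7 * Real.log N ^ C := by positivity
      have h12 : 0 ≤ ∑ c ∈ Icc 1 (U * U), ((N : ℝ) / c * ((1 + Real.log q) * s) + q) :=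
        sum_nonneg fun c _ => by positivity
      refine le_trans ?_ (fin_numK hκ0 hκ1 (U := U) (q := q) (s := s) (B := B) (C := C) (K2 := K2) hL1 hLb hN1 (Nat.cast_nonneg _) hUle (Nat.cast_nonneg _) hq'
        hK2 hs0 hs1 rfl hbig)
      apply add_le_add h1
      apply mul_le_mul _ _ (by positivity) (by positivity)
      · apply mul_le_mul_of_nonneg_left _ (by norm_num)
        linarith
      · exact mul_le_mul h6 h10 (by linarith) (le_trans h12 h6)
    rw [hsplit]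
    set Sm := ∑ n ∈ Icc 1 y, (ArithmeticFunction.vonMangoldt n) • E n with hSm
    set Bm := ∑ m ∈ Icc 1 y, ∑ k ∈ Icc 1 (y / m), ((bt U m : ℝ) : ℂ) * ((lv U k : ℝ) : ℂ) *
          (ff χ α ((m * k : ℕ) : ZMod q) * ee ((m * k : ℕ) * η)) with hBm
    have h13 : ‖Sm‖ ≤ N / (2 * Real.log N ^ (B + 1)) + N / Real.log N ^ (B + 1) := by
      calc ‖Sm‖ = ‖(Sm - Bm) + Bm‖ := by rw [sub_add_cancel]
        _ ≤ ‖Sm - Bm‖ + ‖Bm‖ := norm_add_le _ _
        _ ≤ _ := add_le_add (hVa.trans hY) hB2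
    have h14 : 6 * Real.log N ^ 3 ≤ N / Real.log N ^ (B + 1) := by
      rw [le_div_iff₀ (by positivity)]
      have f1 : 6 * Real.log N ^ 3 * Real.log N ^ (B + 1) = 6 * Real.log N ^ (B + 4) := by ring
      have f2 : Real.log N ^ (B + 4) ≤ Real.log N ^ (B + C + 4) := pow_le_pow_right₀ hL1 (by omega)
      have f3 : (N : ℝ) ^ κ ≤ N := by
        calc (N : ℝ) ^ κ ≤ (N : ℝ) ^ (1 : ℝ) := Real.rpow_le_rpow_of_exponent_le hN1 (by linarith)
          _ = N := Real.rpow_one _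
      have f4 : 0 < Real.log N ^ (B + C + 4) := by positivity
      rw [f1]
      linarith
    have h15 : N / (2 * Real.log N ^ (B + 1)) + N / Real.log N ^ (B + 1) + N / Real.log N ^ (B + 1) ≤ N / Real.log N ^ B := by
      have f1 : Real.log N ^ (B + 1) = Real.log N ^ B * Real.log N := by ring
      have f2 : N / (2 * Real.log N ^ (B + 1)) + N / Real.log N ^ (B + 1) + N / Real.log N ^ (B + 1) =
          N / Real.log N ^ B * (5 / (2 * Real.log N)) := by
        rw [f1]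
        field_simp
        ring
      rw [f2]
      have f3 : 5 / (2 * Real.log N) ≤ 1 := by
        rw [div_le_one (by positivity)]
        linarith
      have f4 : 0 ≤ N / Real.log N ^ B := by positivity
      nlinarith
    refine (norm_add_le _ _).trans ?_
    linarith


end Pool.Agent.J4H40
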