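import Pool.Agent.J4H40.Pp
import Pool.Agent.J4H40.Wa
import Pool.Agent.J4H40.Wb

set_option autoImplicit false

/-! Convolutions of the von Mangoldt function with coefficients on a short range: major and minor arcs. -/

namespace Pool.Agent.J4H40

open Finset
open Pool.Agent.R460.GS
open Pool.Agent.Y883.GJ
open Pool.Agent.H807R2.Dav (ee)
open Pool.Agent.Y614.GJ.Core (ev_log)
open Pool.Agent.R460.GH (BilMaj3Stm bil_min2)

/-- the convolution of `a` with the von Mangoldt function -/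
noncomputable def GA (a : ℕ → ℝ) (n : ℕ) : ℝ :=
  ∑ d ∈ n.divisors, a d * ArithmeticFunction.vonMangoldt (n / d)

/-- the same with complex values -/
noncomputable def GC (a : ℕ → ℝ) (n : ℕ) : ℂ := ((GA a n : ℝ) : ℂ)

/-- bounded coefficients supported on integers between `N ^ κ` and `N ^ σ` without prime factors up to `N ^ κ` -/
structure Cm (N : ℕ) (κ σ : ℝ) (a : ℕ → ℝ) : Prop where
  le1 : ∀ m, |a m| ≤ 1
  sup : ∀ m, a m ≠ 0 → (N : ℝ) ^ κ < m ∧ (m : ℝ) ≤ (N : ℝ) ^ σ ∧ ∀ p ∈ m.primeFactors, (N : ℝ) ^ κ < p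
  den : |∑ m ∈ Icc 1 N, a m / m| ≤ 1

lemma cs_GC {q : ℕ} [NeZero q] (S : Finset (DirichletCharacter ℂ q)) (β : ℝ) (y : ℕ) (a : ℕ → ℝ) :
    ∑ χ ∈ S, ‖cs q y (GC a) β χ‖ ^ 2 =
      ‖∑ m ∈ Icc 1 y, ∑ k ∈ Icc 1 (y / m), (((a m : ℝ) : ℂ) * LA k) • ev S β (m * k)‖ ^ 2 := by
  rw [Pool.Agent.Y183.GJ.norm_ev S β y (fun m k => ((a m : ℝ) : ℂ) * LA k)]
  refine sum_congr rfl fun χ _ => ?_
  congr 2
  rw [← Pool.Agent.Y183.GJ.dirC y (fun m k => ((a m : ℝ) : ℂ) * LA k *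
    (χ ((m * k : ℕ) : ZMod q) * ee ((m * k : ℕ) * β)))]
  unfold cs GC GA LA
  refine sum_congr rfl fun n _ => ?_
  push_cast
  rw [sum_mul, sum_mul]
  refine sum_congr rfl fun d hd => ?_
  have hdn : d * (n / d) = n := Nat.mul_div_cancel' (Nat.dvd_of_mem_divisors hd)
  have h1 : (d : ZMod q) * ((n / d : ℕ) : ZMod q) = (n : ZMod q) := by rw [← Nat.cast_mul, hdn]
  have h2 : (d : ℝ) * ((n / d : ℕ) : ℝ) = (n : ℝ) := by rw [← Nat.cast_mul, hdn]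
  rw [h1, h2]
  ring

lemma la_bd {N m : ℕ} (hL : 1 ≤ Real.log N) (hm : m ∈ Icc 1 N) : ‖LA m‖ ≤ Real.log N * (m.divisors.card : ℝ) := by
  have h1 := one_le_div hm
  have h2 := vm_le hm
  unfold LA
  rw [Complex.norm_real, Real.norm_eq_abs, abs_of_nonneg ArithmeticFunction.vonMangoldt_nonneg]
  nlinarith

lemma a_bd {N m : ℕ} {κ σ : ℝ} {a : ℕ → ℝ} (ha : Cm N κ σ a) (hL : 1 ≤ Real.log N) (hm : m ∈ Icc 1 N) :
    ‖((a m : ℝ) : ℂ)‖ ≤ Real.log N * (m.divisors.card : ℝ) := by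
  have h1 := one_le_div hm
  have h2 := ha.le1 m
  rw [Complex.norm_real, Real.norm_eq_abs]
  nlinarith

open Classical in
/-- the convolution on the major arcs -/
theorem majGC (hB : BilMaj3Stm) {θ κ σ : ℝ} (hκ : 0 < κ) (hθσ : θ + σ ≤ 1) (hσ : σ ≤ 1 / 2) (hθ : θ ≤ 1)
    (A C : ℕ) : ∃ C₃ N₀ : ℕ, ∀ N : ℕ, N₀ ≤ N → ∀ a : ℕ → ℝ, Cm N κ σ a → MajE N θ A C C₃ (GC a) := by
  obtain ⟨J, hJ1, hJ⟩ : ∃ J : ℕ, 1 ≤ J ∧ θ ≤ J * κ := by
    obtain ⟨J, hJ⟩ := exists_nat_ge (θ / κ)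
    refine ⟨J + 1, by omega, ?_⟩
    rw [div_le_iff₀ hκ] at hJ
    push_cast
    nlinarith
  obtain ⟨C₃, N₁, hB'⟩ := hB A C J θ κ σ hκ hJ1 hJ hθσ hσ hθ
  obtain ⟨N₂, hN₂⟩ := Pool.Agent.R462.GS.evL 2
  refine ⟨C₃ + 1, max N₁ N₂, fun N hN a ha q _ hq => ?_⟩
  have hL := hN₂ N (le_trans (le_max_right _ _) hN)
  obtain ⟨B, hBc, hB⟩ := hB' N (le_trans (le_max_left _ _) hN) q hq (fun m => ((a m : ℝ) : ℂ))
    (fun m hm => a_bd ha (by linarith) hm) (fun m hm => by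
      have h1 : a m ≠ 0 := fun h => hm (by rw [h, Complex.ofReal_zero])
      obtain ⟨h2, h3, -⟩ := ha.sup m h1
      have h4 : (0 : ℝ) ≤ m := Nat.cast_nonneg _
      exact ⟨by linarith, h3⟩)
  refine ⟨insert 1 B, mem_insert_self _ _, ?_, ?_⟩
  · have h1 : ((insert 1 B).card : ℝ) ≤ (B.card : ℝ) + 1 := by exact_mod_cast card_insert_le _ _
    have h2 : 1 ≤ Real.log N ^ C₃ := one_le_pow₀ (by linarith)
    rw [pow_succ]
    nlinarith
  · intro η hη y hy S hS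
    rw [cs_GC]
    exact hB LA (fun m hm => la_bd (by linarith) hm) η hη y hy S
      (disjoint_of_subset_right (subset_insert _ _) hS)

/-- the convolution on the minor arcs -/
theorem minGC (hB : BilMinStm) {θ κ σ : ℝ} (hκ : 0 < κ) (hθσ : θ + σ < 1) (hσ1 : σ ≤ 1) (hθ : θ ≤ 1) (A : ℕ) :
    ∃ C N₀ : ℕ, ∀ N : ℕ, N₀ ≤ N → ∀ a : ℕ → ℝ, Cm N κ σ a → MinE N θ A C (GC a) := by
  obtain ⟨K, hK⟩ := hB
  obtain ⟨C, hC⟩ : ∃ C, C = (A + 2) + 4 := ⟨_, rfl⟩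
  obtain ⟨s, hs⟩ : ∃ s : ℝ, s = min (1 - θ - σ) κ := ⟨_, rfl⟩
  have hs0 : 0 < s := by rw [hs]; exact lt_min (by linarith) hκ
  have hs1 : s ≤ 1 - θ - σ := by rw [hs]; exact min_le_left _ _
  have hs2 : s ≤ κ := by rw [hs]; exact min_le_right _ _
  obtain ⟨N₃, hN₃⟩ := Filter.eventually_atTop.1 (ev_log (C + 1) (s := s) hs0 (4 + 288 * |K|))
  refine ⟨C, max N₃ 64, fun N hN a ha q _ hq k h β hk1 hk2 hcop hβ y hy => ?_⟩
  have hN64 : 64 ≤ N := le_trans (le_max_right _ _) hN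
  have hN1 : 1 ≤ N := by omega
  obtain ⟨hL16, hLp⟩ := hN₃ N (le_trans (le_max_left _ _) hN)
  have hN0 : (0 : ℝ) < N := by exact_mod_cast hN1
  have hNr1 : (1 : ℝ) ≤ N := by exact_mod_cast hN1
  have hKa := abs_nonneg K
  have hq0 : (0 : ℝ) < q := by exact_mod_cast NeZero.pos q
  have hq1 : (1 : ℝ) ≤ q := by exact_mod_cast NeZero.pos q
  obtain ⟨W, hW⟩ : ∃ W, W = ⌊(N : ℝ) ^ κ⌋₊ := ⟨_, rfl⟩
  obtain ⟨Z, hZ⟩ : ∃ Z, Z = ⌊(N : ℝ) ^ σ⌋₊ := ⟨_, rfl⟩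
  have hW1 : 1 ≤ W := by
    rw [hW, Nat.one_le_floor_iff]
    exact Real.one_le_rpow hNr1 hκ.le
  have hZr : (Z : ℝ) ≤ (N : ℝ) ^ σ := by
    rw [hZ]
    exact Nat.floor_le (by positivity)
  have hZN : Z ≤ N := by
    have : (Z : ℝ) ≤ N := by
      refine hZr.trans ?_
      calc (N : ℝ) ^ σ ≤ (N : ℝ) ^ (1 : ℝ) := Real.rpow_le_rpow_of_exponent_le hNr1 hσ1
        _ = N := Real.rpow_one _
    exact_mod_cast this
  have hWge : (N : ℝ) ^ κ ≤ 2 * W := by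
    have h1 : (N : ℝ) ^ κ < (W : ℝ) + 1 := by
      rw [hW]
      exact Nat.lt_floor_add_one _
    have h2 : (1 : ℝ) ≤ W := by exact_mod_cast hW1
    linarith
  obtain ⟨L, hL⟩ : ∃ L, L = Real.log (N : ℝ) := ⟨_, rfl⟩
  have hL4 : 4 ≤ L := by rw [hL]; linarith
  have hKL : 288 * |K| ≤ L := by rw [hL]; linarith
  have hL0 : 0 < L := by linarith
  have hL1 : 1 ≤ L := by linarith
  have hLp' : L ^ (C + 1) ≤ (N : ℝ) ^ s := by rw [hL]; exact hLp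
  rw [← hL] at hk1 hk2
  have hLC1 : 1 ≤ L ^ C := one_le_pow₀ hL1
  have hk0 : (0 : ℝ) < k := lt_of_lt_of_le (by positivity) hk1
  have hkn : 1 ≤ k := by exact_mod_cast hk0
  have hkN : k ≤ N := by
    have : (k : ℝ) ≤ N := by
      calc (k : ℝ) = 1 * k * 1 := by ring
        _ ≤ q * k * L ^ C := by gcongr
        _ ≤ N := hk2
    exact_mod_cast this
  obtain ⟨X, hX⟩ : ∃ X, X = N / L ^ C := ⟨_, rfl⟩
  have hX0 : 0 ≤ X := by rw [hX]; positivity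
  have hqk : (q : ℝ) * k ≤ X := by
    rw [hX, le_div_iff₀ (by positivity)]
    exact hk2
  have hNk : (N : ℝ) / k ≤ X := by
    rw [hX]
    gcongr
  have hLC : L ^ C ≤ (N : ℝ) ^ s := (pow_le_pow_right₀ hL1 (by omega)).trans hLp'
  have hqZ : (q : ℝ) * Z ≤ X := by
    rw [hX, le_div_iff₀ (by positivity)]
    calc (q : ℝ) * Z * L ^ C ≤ (N : ℝ) ^ θ * (N : ℝ) ^ σ * (N : ℝ) ^ s := by gcongr
      _ = (N : ℝ) ^ (θ + σ + s) := by
          rw [← Real.rpow_add hN0, ← Real.rpow_add hN0]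
      _ ≤ (N : ℝ) ^ (1 : ℝ) := Real.rpow_le_rpow_of_exponent_le hNr1 (by linarith)
      _ = N := Real.rpow_one _
  have hNW : (N : ℝ) / W ≤ X := by
    have hW0 : (0 : ℝ) < W := by exact_mod_cast hW1
    rw [hX, div_le_div_iff₀ (by positivity) (by positivity)]
    have : L ^ C ≤ W := by
      have h2 : L ^ (C + 1) ≤ 2 * W := hLp'.trans ((Real.rpow_le_rpow_of_exponent_le hNr1 hs2).trans hWge)
      have h3 : 2 * L ^ C ≤ L ^ (C + 1) := by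
        calc 2 * L ^ C ≤ L * L ^ C := by gcongr; linarith
          _ = L ^ (C + 1) := by ring
      linarith
    gcongr
  have main := bil_min2 (W := W) (Z := Z) (a := fun m => ((a m : ℝ) : ℂ)) (b := fun k => LA k / ((L : ℝ) : ℂ)) hK hL
    hN1 hy hW1 hZN
    (fun m hm => by
      have h1 : a m ≠ 0 := fun h => hm (by rw [h, Complex.ofReal_zero])
      obtain ⟨h2, h3, -⟩ := ha.sup m h1
      constructor
      · rw [hW]
        exact (Nat.floor_lt (by positivity)).2 h2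
      · rw [hZ]
        exact Nat.le_floor h3)
    (fun m => by
      rw [Complex.norm_real, Real.norm_eq_abs]
      exact ha.le1 m)
    (fun m hm => by
      rw [norm_div, Complex.norm_real, Real.norm_eq_abs, abs_of_pos hL0, div_le_iff₀ hL0]
      unfold LA
      rw [Complex.norm_real, Real.norm_eq_abs, abs_of_nonneg ArithmeticFunction.vonMangoldt_nonneg]
      have := vm_le hm
      rw [hL]
      have h2 : 0 ≤ Real.log N := Real.log_natCast_nonneg N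
      linarith)
    hkn hkN hcop hβ hX hKL hL1 hC hqZ hqk hNk hNW
  rw [cs_GC, ← hL]
  have e1 : ∑ m ∈ Icc 1 y, ∑ k ∈ Icc 1 (y / m),
      (((a m : ℝ) : ℂ) * LA k) • ev (univ : Finset (DirichletCharacter ℂ q)) β (m * k) = ((L : ℝ) : ℂ) •
      ∑ m ∈ Icc 1 y, ∑ k ∈ Icc 1 (y / m),
      (((a m : ℝ) : ℂ) * (LA k / ((L : ℝ) : ℂ))) • ev (univ : Finset (DirichletCharacter ℂ q)) β (m * k) := by
    rw [smul_sum]
    refine sum_congr rfl fun m _ => ?_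
    rw [smul_sum]
    refine sum_congr rfl fun k _ => ?_
    rw [smul_smul]
    congr 1
    have : ((L : ℝ) : ℂ) ≠ 0 := by exact_mod_cast hL0.ne'
    field_simp
  rw [e1, norm_smul, mul_pow, Complex.norm_real, Real.norm_eq_abs, sq_abs]
  calc L ^ 2 * _ ≤ L ^ 2 * ((N : ℝ) ^ 2 / L ^ (A + 2)) := by gcongr
    _ = (N : ℝ) ^ 2 / L ^ A := by
        rw [pow_add]
        field_simp

end Pool.Agent.J4H40
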