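import Pool.Agent.J4H40.Wc

set_option autoImplicit false

/-! Properties of the convolution minus its model. -/

namespace Pool.Agent.J4H40

open Finset
open Pool.Agent.R460.GS
open Pool.Agent.Y883.GJ
open Pool.Agent.Y883.T3 (lsh)
open Pool.Agent.H373R2.T7 (lamz Vz pz lamz_ap lam_ap)
open Pool.Agent.H807R2.Dav (ee)
open Pool.Agent.Y614.GJ.Core (ev_log)

/-- the convolution minus its model -/
noncomputable def f2 (a : ℕ → ℝ) (V : ℝ) (z r n : ℕ) : ℂ := GC a n - HW (fun _ => V) z r n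

lemma wbd_const {V : ℝ} {N : ℕ} (h : |V| ≤ 1) : WBd (fun _ => V) 1 N := by
  refine ⟨by norm_num, fun n _ => h, ?_⟩
  simp

lemma GA_abs {a : ℕ → ℝ} (ha : ∀ m, |a m| ≤ 1) (n : ℕ) :
    |GA a n| ≤ Real.log n := by
  unfold GA
  refine (abs_sum_le_sum_abs _ _).trans ?_
  rw [← ArithmeticFunction.vonMangoldt_sum, ← Nat.sum_div_divisors n (fun d => ArithmeticFunction.vonMangoldt d)]
  refine sum_le_sum fun d _ => ?_
  rw [abs_mul, abs_of_nonneg ArithmeticFunction.vonMangoldt_nonneg]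
  have h1 : (0 : ℝ) ≤ ArithmeticFunction.vonMangoldt (n / d) := ArithmeticFunction.vonMangoldt_nonneg
  have h2 := ha d
  nlinarith

lemma GC_le {a : ℕ → ℝ} {N n : ℕ} (ha : ∀ m, |a m| ≤ 1) (hn : n ∈ Icc 1 N) : ‖GC a n‖ ≤ Real.log N := by
  rw [mem_Icc] at hn
  unfold GC
  rw [Complex.norm_real, Real.norm_eq_abs]
  refine (GA_abs ha n).trans ?_
  exact Real.log_le_log (by exact_mod_cast hn.1) (by exact_mod_cast hn.2)

lemma bd_f2 {U N z r : ℕ} {a : ℕ → ℝ} {V : ℝ} (ha : ∀ m, |a m| ≤ 1) (hV : |V| ≤ 1)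
    (hP : Par U N z r) (hL : 4 ≤ Real.log N) : BdAt N (f2 a V z r) := by
  intro n hn
  have h1 := one_le_div hn
  unfold f2
  refine (norm_sub_le _ _).trans ?_
  have h2 := bd_HW' (wbd_const hV) hP hn
  have h3 := GC_le ha hn
  have hL0 : 0 ≤ Real.log N := by linarith
  have h4 : Real.log N * 1 ≤ Real.log N * (n.divisors.card : ℝ) :=
    mul_le_mul_of_nonneg_left h1 (by linarith)
  have h5 : 4 * Real.log N ≤ Real.log N ^ 2 := by nlinarith
  have h6 := mul_le_mul_of_nonneg_right h5 (by positivity : (0 : ℝ) ≤ (n.divisors.card : ℝ))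
  linarith

/-- pointwise bound on the integers which are not coprime to `q` -/
lemma GC_nc {N q n : ℕ} {κ σ : ℝ} {a : ℕ → ℝ} (ha : Cm N κ σ a) (hn : n ∈ Icc 1 N) (hq : 1 ≤ q)
    (hnq : ¬ n.Coprime q) :
    ‖GC a n‖ ≤ (if ∃ p ∈ q.primeFactors, (N : ℝ) ^ κ < p ∧ p ∣ n then Real.log N else 0) +
      ∑ d ∈ n.divisors, |a d| * (if ¬ (n / d).Coprime q then ArithmeticFunction.vonMangoldt (n / d) else 0) := by
  have hpos : ∀ d : ℕ, (0 : ℝ) ≤ |a d| * (if ¬ (n / d).Coprime q then ArithmeticFunction.vonMangoldt (n / d) else 0) := by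
    intro d
    have : (0 : ℝ) ≤ (if ¬ (n / d).Coprime q then ArithmeticFunction.vonMangoldt (n / d) else 0) := by
      split_ifs
      · exact le_rfl
      · exact ArithmeticFunction.vonMangoldt_nonneg
    positivity
  by_cases h : ∃ p ∈ q.primeFactors, (N : ℝ) ^ κ < p ∧ p ∣ n
  · rw [if_pos h]
    have h1 := GC_le ha.le1 hn
    have h2 : 0 ≤ ∑ d ∈ n.divisors, |a d| *
      (if ¬ (n / d).Coprime q then ArithmeticFunction.vonMangoldt (n / d) else 0) := sum_nonneg fun d _ => hpos d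
    linarith
  · rw [if_neg h, zero_add]
    unfold GC GA
    rw [Complex.norm_real, Real.norm_eq_abs]
    refine (abs_sum_le_sum_abs _ _).trans ?_
    refine sum_le_sum fun d hd => ?_
    rw [abs_mul, abs_of_nonneg (ArithmeticFunction.vonMangoldt_nonneg (n := n / d))]
    by_cases hd0 : a d = 0
    · rw [hd0, abs_zero, zero_mul, zero_mul]
    · have hdn := Nat.dvd_of_mem_divisors hd
      have h1 : d.Coprime q := by
        by_contra hcon
        obtain ⟨p, hp, hpd, hpq⟩ := Nat.Prime.not_coprime_iff_dvd.1 hcon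
        have hd1 : d ≠ 0 := by
          intro h0
          rw [h0] at hdn
          have := Nat.eq_zero_of_zero_dvd hdn
          rw [mem_Icc] at hn
          omega
        exact h ⟨p, Nat.mem_primeFactors.2 ⟨hp, hpq, by omega⟩,
          (ha.sup d hd0).2.2 p (Nat.mem_primeFactors.2 ⟨hp, hpd, hd1⟩), hpd.trans hdn⟩
      have h2 : ¬ (n / d).Coprime q := by
        intro h3
        apply hnq
        rw [← Nat.mul_div_cancel' hdn]
        exact Nat.Coprime.mul_left h1 h3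
      rw [if_pos h2]

lemma nc_GC {N U : ℕ} {κ σ : ℝ} {a : ℕ → ℝ} (ha : Cm N κ σ a) (hσ : σ ≤ 1 / 2) (hN : 1 ≤ N)
    (hL : 100 ≤ Real.log N) (hp : Real.log N ^ (U + 4) ≤ (N : ℝ) ^ κ)
    (hp2 : Real.log N ^ (U + 4) ≤ (N : ℝ) ^ (1 / 2 : ℝ)) : NcAt N U (GC a) := by
  classical
  intro q hq hqN
  have hN0 : (0 : ℝ) < N := by exact_mod_cast hN
  have hNr1 : (1 : ℝ) ≤ N := by exact_mod_cast hN
  have hL0 : 0 < Real.log N := by linarith
  have hκ0 : 0 < (N : ℝ) ^ κ := by positivity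
  have h1 : ∑ n ∈ (Icc 1 N).filter (fun n => ¬ n.Coprime q), ‖GC a n‖ ≤
      ∑ n ∈ Icc 1 N, ((if ∃ p ∈ q.primeFactors, (N : ℝ) ^ κ < p ∧ p ∣ n then Real.log N else 0) +
      ∑ d ∈ n.divisors, |a d| * (if ¬ (n / d).Coprime q then ArithmeticFunction.vonMangoldt (n / d) else 0)) := by
    have hpos : ∀ n : ℕ, (0 : ℝ) ≤ (if ∃ p ∈ q.primeFactors, (N : ℝ) ^ κ < p ∧ p ∣ n then Real.log N else 0) +
      ∑ d ∈ n.divisors, |a d| * (if ¬ (n / d).Coprime q then ArithmeticFunction.vonMangoldt (n / d) else 0) := by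
      intro n
      apply add_nonneg
      · split_ifs
        · exact hL0.le
        · exact le_rfl
      · refine sum_nonneg fun d _ => mul_nonneg (abs_nonneg _) ?_
        split_ifs
        · exact le_rfl
        · exact ArithmeticFunction.vonMangoldt_nonneg
    refine le_trans (sum_le_sum fun n hn => ?_) (sum_le_sum_of_subset_of_nonneg (filter_subset _ _)
      fun n _ _ => hpos n)
    rw [mem_filter] at hn
    exact GC_nc ha hn.1 hq hn.2
  rw [sum_add_distrib] at h1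
  refine h1.trans ?_
  -- the large common prime factors
  have h2 : ∑ n ∈ Icc 1 N, (if ∃ p ∈ q.primeFactors, (N : ℝ) ^ κ < p ∧ p ∣ n then Real.log N else 0) ≤
      2 * Real.log N * (N / (N : ℝ) ^ κ) * Real.log N := by
    rw [← sum_filter, sum_const, nsmul_eq_mul]
    apply mul_le_mul_of_nonneg_right _ hL0.le
    have hsub : (Icc 1 N).filter (fun n => ∃ p ∈ q.primeFactors, (N : ℝ) ^ κ < p ∧ p ∣ n) ⊆
        (q.primeFactors.filter (fun p : ℕ => (N : ℝ) ^ κ < p)).biUnion (fun p => (Icc 1 N).filter (fun n => p ∣ n)) := by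
      intro n hn
      rw [mem_filter] at hn
      obtain ⟨h1, p, h2, h3, h4⟩ := hn
      rw [mem_biUnion]
      exact ⟨p, mem_filter.2 ⟨h2, h3⟩, mem_filter.2 ⟨h1, h4⟩⟩
    have h3 : (((Icc 1 N).filter (fun n => ∃ p ∈ q.primeFactors, (N : ℝ) ^ κ < p ∧ p ∣ n)).card : ℝ) ≤
        ∑ p ∈ q.primeFactors.filter (fun p : ℕ => (N : ℝ) ^ κ < p), (((Icc 1 N).filter (fun n => p ∣ n)).card : ℝ) := by
      exact_mod_cast (card_le_card hsub).trans card_biUnion_le
    refine h3.trans ?_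
    have h4 : ∀ p ∈ q.primeFactors.filter (fun p : ℕ => (N : ℝ) ^ κ < p),
        (((Icc 1 N).filter (fun n => p ∣ n)).card : ℝ) ≤ N / (N : ℝ) ^ κ := by
      intro p hp
      rw [mem_filter] at hp
      have h4 : ((Icc 1 N).filter (fun n => p ∣ n)).card = N / p := by
        have e1 : Icc 1 N = Ioc 0 N := by
          ext b
          simp only [mem_Icc, mem_Ioc]
          omega
        rw [e1]
        exact Nat.Ioc_filter_dvd_card_eq_div N p
      rw [h4]
      calc ((N / p : ℕ) : ℝ) ≤ (N : ℝ) / p := Nat.cast_div_le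
        _ ≤ N / (N : ℝ) ^ κ := div_le_div_of_nonneg_left hN0.le (by positivity) hp.2.le
    refine (sum_le_sum h4).trans ?_
    rw [sum_const, nsmul_eq_mul]
    apply mul_le_mul_of_nonneg_right _ (by positivity)
    refine le_trans ?_ (card_pf_le hq hqN)
    exact_mod_cast card_filter_le _ _
  -- the prime powers which are not coprime to the modulus
  have h3 : ∑ n ∈ Icc 1 N, ∑ d ∈ n.divisors, |a d| *
      (if ¬ (n / d).Coprime q then ArithmeticFunction.vonMangoldt (n / d) else 0) ≤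
      (N : ℝ) ^ (1 / 2 : ℝ) * (6 * Real.log N ^ 3) := by
    have e1 := Pool.Agent.TH935.DSB.dir N (fun d m => |a d| *
      (if ¬ m.Coprime q then ArithmeticFunction.vonMangoldt m else 0))
    rw [e1]
    have hk : ∀ d ∈ Icc 1 N, ∑ m ∈ Icc 1 (N / d), |a d| *
        (if ¬ m.Coprime q then ArithmeticFunction.vonMangoldt m else 0) ≤
        if (d : ℝ) ≤ (N : ℝ) ^ σ then 6 * Real.log N ^ 3 else 0 := by
      intro d hd
      rw [← mul_sum]
      by_cases h0 : a d = 0
      · rw [h0, abs_zero, zero_mul]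
        split_ifs
        · positivity
        · exact le_rfl
      · rw [if_pos (ha.sup d h0).2.1]
        have e2 : ∑ m ∈ Icc 1 (N / d), (if ¬ m.Coprime q then ArithmeticFunction.vonMangoldt m else 0) ≤
            6 * Real.log N ^ 3 := by
          rw [← sum_filter]
          refine le_trans (sum_le_sum_of_subset_of_nonneg (filter_subset_filter _
            (Icc_subset_Icc le_rfl (Nat.div_le_self N d))) fun n _ _ => ArithmeticFunction.vonMangoldt_nonneg) ?_
          refine (Pool.Agent.Y918.GJ.lam_noncop q N hq hqN).trans ?_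
          have h5 := Pool.Agent.H373R2.T7.natlog_le N hN
          have h6 : (0 : ℝ) ≤ Nat.log 2 N := Nat.cast_nonneg _
          obtain ⟨L, hLd⟩ : ∃ L, L = Real.log (N : ℝ) := ⟨_, rfl⟩
          rw [← hLd] at h5 hL hL0 ⊢
          calc (Nat.log 2 N : ℝ) * ((Nat.log 2 N + 1 : ℝ) * L) ≤ (2 * L) * ((2 * L + 1) * L) := by
                gcongr
            _ ≤ 6 * L ^ 3 := by nlinarith [mul_pos hL0 hL0]
        have e3 : 0 ≤ ∑ m ∈ Icc 1 (N / d), (if ¬ m.Coprime q then ArithmeticFunction.vonMangoldt m else 0) := by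
          refine sum_nonneg fun m _ => ?_
          split_ifs
          · exact le_rfl
          · exact ArithmeticFunction.vonMangoldt_nonneg
        calc |a d| * _ ≤ 1 * ∑ m ∈ Icc 1 (N / d), (if ¬ m.Coprime q then ArithmeticFunction.vonMangoldt m else 0) :=
              mul_le_mul_of_nonneg_right (ha.le1 d) e3
          _ ≤ _ := by linarith
    refine (sum_le_sum hk).trans ?_
    rw [← sum_filter, sum_const, nsmul_eq_mul]
    apply mul_le_mul_of_nonneg_right _ (by positivity)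
    have h4 : ((Icc 1 N).filter (fun d : ℕ => (d : ℝ) ≤ (N : ℝ) ^ σ)).card ≤ ⌊(N : ℝ) ^ σ⌋₊ := by
      calc _ ≤ (Icc 1 ⌊(N : ℝ) ^ σ⌋₊).card := by
            apply card_le_card
            intro d hd
            rw [mem_filter, mem_Icc] at hd
            rw [mem_Icc]
            exact ⟨hd.1.1, Nat.le_floor hd.2⟩
        _ = _ := by rw [Nat.card_Icc, Nat.add_sub_cancel]
    have h5 : ((⌊(N : ℝ) ^ σ⌋₊ : ℕ) : ℝ) ≤ (N : ℝ) ^ σ := Nat.floor_le (by positivity)
    have h6 : (((Icc 1 N).filter (fun d : ℕ => (d : ℝ) ≤ (N : ℝ) ^ σ)).card : ℝ) ≤ ((⌊(N : ℝ) ^ σ⌋₊ : ℕ) : ℝ) := by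
      exact_mod_cast h4
    exact (h6.trans h5).trans (Real.rpow_le_rpow_of_exponent_le hNr1 hσ)
  refine (add_le_add h2 h3).trans ?_
  obtain ⟨L, hLd⟩ : ∃ L, L = Real.log (N : ℝ) := ⟨_, rfl⟩
  rw [← hLd] at hL hL0 hp hp2 ⊢
  have hs : 0 < (N : ℝ) ^ (1 / 2 : ℝ) := by positivity
  have hss : (N : ℝ) ^ (1 / 2 : ℝ) * (N : ℝ) ^ (1 / 2 : ℝ) = N := by
    rw [← Real.rpow_add hN0]
    norm_num
  rw [le_div_iff₀ (by positivity), add_mul]
  have g1 : 2 * L * (N / (N : ℝ) ^ κ) * L * L ^ U ≤ N / 2 := by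
    have g2 : 2 * L * (N / (N : ℝ) ^ κ) * L * L ^ U = N * ((2 * L ^ (U + 2)) / (N : ℝ) ^ κ) := by
      rw [pow_add]
      field_simp
    have g3 : (2 * L ^ (U + 2)) / (N : ℝ) ^ κ ≤ 1 / 2 := by
      rw [div_le_iff₀ hκ0]
      have : 4 * L ^ (U + 2) ≤ L ^ (U + 4) := by
        rw [show U + 4 = (U + 2) + 2 by ring, pow_add L (U + 2) 2]
        have h7 : 0 < L ^ (U + 2) := by positivity
        have h8 : (4 : ℝ) ≤ L ^ 2 := by nlinarith
        have h9 := mul_le_mul_of_nonneg_left h8 h7.le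
        linarith
      linarith
    rw [g2]
    have := mul_le_mul_of_nonneg_left g3 hN0.le
    linarith
  have g4 : (N : ℝ) ^ (1 / 2 : ℝ) * (6 * L ^ 3) * L ^ U ≤ N / 2 := by
    have g5 : 12 * L ^ (U + 3) ≤ L ^ (U + 4) := by
      rw [show U + 4 = (U + 3) + 1 by ring, pow_succ L (U + 3)]
      have h7 : 0 < L ^ (U + 3) := by positivity
      nlinarith
    calc (N : ℝ) ^ (1 / 2 : ℝ) * (6 * L ^ 3) * L ^ U = (N : ℝ) ^ (1 / 2 : ℝ) * (12 * L ^ (U + 3)) / 2 := by
          rw [pow_add]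
          ring
      _ ≤ (N : ℝ) ^ (1 / 2 : ℝ) * (N : ℝ) ^ (1 / 2 : ℝ) / 2 := by
          have := g5.trans hp2
          gcongr
      _ = N / 2 := by rw [hss]
  linarith

lemma nc_f2 {U N z r : ℕ} {κ σ V : ℝ} {a : ℕ → ℝ} (ha : Cm N κ σ a) (hσ : σ ≤ 1 / 2) (hN : 1 ≤ N) (hV : |V| ≤ 1)
    (hP : Par (U + 2) N z r) (hL : 100 ≤ Real.log N) (hp : Real.log N ^ (U + 5) ≤ (N : ℝ) ^ κ)
    (hp2 : Real.log N ^ (U + 5) ≤ (N : ℝ) ^ (1 / 2 : ℝ)) : NcAt N U (f2 a V z r) := by
  intro q hq hqN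
  have hL0 : 0 < Real.log N := by linarith
  have h1 := nc_GC (U := U + 1) ha hσ hN (by linarith) hp hp2 q hq hqN
  have h2 := nc_HW (U := U + 1) (wbd_const hV) hP (by linarith) q hq hqN
  have hX : 0 ≤ (N : ℝ) / Real.log N ^ (U + 1) := by positivity
  calc ∑ n ∈ (Icc 1 N).filter (fun n => ¬ n.Coprime q), ‖f2 a V z r n‖
      ≤ ∑ n ∈ (Icc 1 N).filter (fun n => ¬ n.Coprime q), (‖GC a n‖ + ‖HW (fun _ => V) z r n‖) :=
        sum_le_sum fun n _ => norm_sub_le _ _
    _ ≤ N / Real.log N ^ (U + 1) + N / Real.log N ^ (U + 1) := by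
        rw [sum_add_distrib]
        exact add_le_add h1 h2
    _ = 2 * (N / Real.log N ^ (U + 1)) := by ring
    _ ≤ Real.log N * (N / Real.log N ^ (U + 1)) := mul_le_mul_of_nonneg_right (by linarith) hX
    _ = _ := by
        rw [pow_succ]
        field_simp

end Pool.Agent.J4H40
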