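import Pool.Agent.J4H40.Wd

set_option autoImplicit false

/-! The convolution in arithmetic progressions to small moduli. -/

namespace Pool.Agent.J4H40

open Finset
open Pool.Agent.R460.GS
open Pool.Agent.Y883.GJ
open Pool.Agent.Y883.T3 (lsh)
open Pool.Agent.H373R2.T7 (lamz Vz pz lamz_ap lam_ap)
open Pool.Agent.H807R2.Dav (ee)
open Pool.Agent.Y614.GJ.Core (ev_log)

/-- division by a class -/
lemma inv_cls {m r c : ℕ} (hr : 1 ≤ r) (hm : m.Coprime r) :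
    ∃ c' : ℕ, (c'.Coprime r ↔ c.Coprime r) ∧ ∀ p : ℕ, m * p ≡ c [MOD r] ↔ p ≡ c' [MOD r] := by
  haveI : NeZero r := ⟨by omega⟩
  obtain ⟨c', hc'⟩ : ∃ c' : ℕ, c' = ((m : ZMod r)⁻¹ * (c : ZMod r)).val := ⟨_, rfl⟩
  have h1 : m * c' ≡ c [MOD r] := by
    rw [← ZMod.natCast_eq_natCast_iff]
    push_cast
    rw [hc', ZMod.natCast_zmod_val, ← mul_assoc, ZMod.coe_mul_inv_eq_one m hm, one_mul]
  refine ⟨c', ⟨fun h => ?_, fun h => ?_⟩, fun p => ⟨fun h => ?_, fun h => ?_⟩⟩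
  · have h2 : (m * c').Coprime r := Nat.Coprime.mul_left hm h
    unfold Nat.Coprime at h2 ⊢
    rwa [h1.gcd_eq] at h2
  · have h2 : (m * c').Coprime r := by
      unfold Nat.Coprime at h ⊢
      rw [h1.gcd_eq]
      exact h
    exact Nat.Coprime.coprime_mul_left h2
  · exact Nat.ModEq.cancel_left_of_coprime (by rw [Nat.gcd_comm]; exact hm) (h.trans h1.symm)
  · exact (Nat.ModEq.mul_left m h).trans h1

/-- the numerical conditions -/
lemma ev_numA {κ : ℝ} (hκ : 0 < κ) (K U x0 : ℕ) : ∃ N₀ : ℕ, ∀ N : ℕ, N₀ ≤ N →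
    16 ≤ N ∧ 100 ≤ Real.log N ∧ 4 ^ (K + 1) ≤ Real.log N ∧ 4 * 4 ^ (U + 2) ≤ Real.log N ∧
    Real.log N ^ K < (N : ℝ) ^ κ ∧ 4 * Real.log N ^ U ≤ (N : ℝ) ^ (1 / 2 : ℝ) ∧ (x0 : ℝ) ≤ (N : ℝ) ^ (1 / 4 : ℝ) ∧
    1 + (N : ℝ) ^ (1 / 4 : ℝ) ≤ (N : ℝ) ^ (1 / 2 : ℝ) := by
  obtain ⟨n1, h1⟩ := Pool.Agent.R462.GS.evlog (K + 1) 1 κ hκ
  obtain ⟨n2, h2⟩ := Pool.Agent.R462.GS.evL (100 + 4 ^ (K + 1) + 4 * 4 ^ (U + 2))
  obtain ⟨n3, h3⟩ := Pool.Agent.R462.GS.evlog U 4 (1 / 2) (by norm_num)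
  obtain ⟨n4, h4⟩ := Pool.Agent.R462.GS.evlog 0 (x0 : ℝ) (1 / 4) (by norm_num)
  obtain ⟨n5, h5⟩ := Pool.Agent.R462.GS.evlog 0 2 (1 / 4) (by norm_num)
  refine ⟨n1 + n2 + n3 + n4 + n5 + 16, fun N hN => ?_⟩
  have a1 := h1 N (by omega)
  have a2 := h2 N (by omega)
  have a3 := h3 N (by omega)
  have a4 := h4 N (by omega)
  have a5 := h5 N (by omega)
  rw [pow_zero, mul_one] at a4 a5
  have b1 : (0 : ℝ) < 4 ^ (K + 1) := by positivity
  have b2 : (0 : ℝ) < 4 * 4 ^ (U + 2) := by positivity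
  have hN0 : (0 : ℝ) < N := by exact_mod_cast (by omega : 0 < N)
  refine ⟨by omega, by linarith, by linarith, by linarith, ?_, a3, a4, ?_⟩
  · refine lt_of_lt_of_le ?_ a1
    rw [one_mul, pow_succ]
    have : 0 < Real.log N ^ K := pow_pos (by linarith) _
    nlinarith
  · have e : (N : ℝ) ^ (1 / 2 : ℝ) = (N : ℝ) ^ (1 / 4 : ℝ) * (N : ℝ) ^ (1 / 4 : ℝ) := by
      rw [← Real.rpow_add hN0]
      norm_num
    rw [e]
    nlinarith

theorem ap_GA {κ σ : ℝ} (hκ : 0 < κ) (hσ : σ ≤ 1 / 2) (K U : ℕ) : ∃ N₀ : ℕ, ∀ N : ℕ, N₀ ≤ N → ∀ a : ℕ → ℝ,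
    Cm N κ σ a → ApgE N K U (GA a) (fun _ => ∑ m ∈ Icc 1 N, a m / m) := by
  classical
  obtain ⟨x0, hlam⟩ := lam_ap (K + 1) (U + 2)
  obtain ⟨N₀, hN₀⟩ := ev_numA hκ K U x0
  refine ⟨N₀, fun N hN a ha r hr hrN c y hy => ?_⟩
  obtain ⟨h16, hL100, hLK, hLU, hLκ, hLh, hx0, hq⟩ := hN₀ N hN
  have hN0 : (0 : ℝ) < N := by exact_mod_cast (by omega : 0 < N)
  have hNr1 : (1 : ℝ) ≤ N := by exact_mod_cast (by omega : 1 ≤ N)
  have hφ : (1 : ℝ) ≤ (Nat.totient r : ℝ) := by exact_mod_cast Nat.totient_pos.2 hr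
  -- the sum over the divisors
  have e1 : ∑ n ∈ (Icc 1 y).filter (fun n => n ≡ c [MOD r]), GA a n =
      ∑ m ∈ Icc 1 N, a m * ∑ k ∈ (Icc 1 (y / m)).filter (fun k => m * k ≡ c [MOD r]),
        ArithmeticFunction.vonMangoldt k := by
    have f1 := Pool.Agent.TH935.DSB.dir y (fun d m => a d *
      (if d * m ≡ c [MOD r] then ArithmeticFunction.vonMangoldt m else 0))
    calc ∑ n ∈ (Icc 1 y).filter (fun n => n ≡ c [MOD r]), GA a n
        = ∑ n ∈ Icc 1 y, ∑ d ∈ n.divisors, a d *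
          (if d * (n / d) ≡ c [MOD r] then ArithmeticFunction.vonMangoldt (n / d) else 0) := by
          rw [sum_filter]
          refine sum_congr rfl fun n _ => ?_
          by_cases h : n ≡ c [MOD r]
          · rw [if_pos h]
            unfold GA
            refine sum_congr rfl fun d hd => ?_
            rw [Nat.mul_div_cancel' (Nat.dvd_of_mem_divisors hd), if_pos h]
          · rw [if_neg h]
            symm
            refine sum_eq_zero fun d hd => ?_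
            rw [Nat.mul_div_cancel' (Nat.dvd_of_mem_divisors hd), if_neg h, mul_zero]
      _ = ∑ d ∈ Icc 1 y, ∑ m ∈ Icc 1 (y / d), a d *
          (if d * m ≡ c [MOD r] then ArithmeticFunction.vonMangoldt m else 0) := f1
      _ = ∑ d ∈ Icc 1 N, ∑ m ∈ Icc 1 (y / d), a d *
          (if d * m ≡ c [MOD r] then ArithmeticFunction.vonMangoldt m else 0) := by
          refine sum_subset (Icc_subset_Icc le_rfl hy) fun d hd hd' => ?_
          rw [mem_Icc] at hd hd'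
          have : y / d = 0 := Nat.div_eq_of_lt (by omega)
          rw [this]
          rfl
      _ = _ := by
          refine sum_congr rfl fun m _ => ?_
          rw [← mul_sum, ← sum_filter]
  have e2 : (if c.Coprime r then (∑ n ∈ Icc 1 y, ∑ m ∈ Icc 1 N, a m / m) / (Nat.totient r : ℝ) else 0) =
      ∑ m ∈ Icc 1 N, a m * (if c.Coprime r then ((y : ℝ) / m) / (Nat.totient r : ℝ) else 0) := by
    split_ifs
    · rw [sum_const, Nat.card_Icc, Nat.add_sub_cancel, nsmul_eq_mul, mul_sum, sum_div]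
      refine sum_congr rfl fun m _ => ?_
      ring
    · simp
  rw [e1, e2, ← sum_sub_distrib]
  obtain ⟨L, hLd⟩ : ∃ L, L = Real.log (N : ℝ) := ⟨_, rfl⟩
  -- one `m`
  have hone : ∀ m ∈ Icc 1 N, |a m * ∑ k ∈ (Icc 1 (y / m)).filter (fun k => m * k ≡ c [MOD r]),
        ArithmeticFunction.vonMangoldt k - a m * (if c.Coprime r then ((y : ℝ) / m) / (Nat.totient r : ℝ) else 0)| ≤
      (N / L ^ (U + 2) * 4 ^ (U + 2)) * ((m : ℝ))⁻¹ + if (m : ℝ) ≤ (N : ℝ) ^ (1 / 2 : ℝ) then 1 else 0 := by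
    intro m hm
    rw [mem_Icc] at hm
    have hm0 : (0 : ℝ) < m := by exact_mod_cast hm.1
    by_cases h0 : a m = 0
    · rw [h0, zero_mul, zero_mul, sub_zero, abs_zero]
      have : 0 < L := by rw [hLd]; linarith
      split_ifs <;> positivity
    obtain ⟨g1, g2, g3⟩ := ha.sup m h0
    have hmh : (m : ℝ) ≤ (N : ℝ) ^ (1 / 2 : ℝ) := g2.trans (Real.rpow_le_rpow_of_exponent_le hNr1 hσ)
    rw [if_pos hmh, ← mul_sub, abs_mul]
    have hcop : m.Coprime r := by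
      by_contra hcon
      obtain ⟨p, hp, hpm, hpr⟩ := Nat.Prime.not_coprime_iff_dvd.1 hcon
      have h1 := g3 p (Nat.mem_primeFactors.2 ⟨hp, hpm, by omega⟩)
      have h2 : (p : ℝ) ≤ r := by exact_mod_cast Nat.le_of_dvd (by omega) hpr
      linarith
    obtain ⟨c', hc', hcp⟩ := inv_cls (c := c) hr hcop
    have e3 : (Icc 1 (y / m)).filter (fun k => m * k ≡ c [MOD r]) = (Icc 1 (y / m)).filter (fun k => k ≡ c' [MOD r]) := by
      refine filter_congr fun k _ => ?_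
      exact hcp k
    rw [e3]
    -- the quotient
    have hdiv : (N : ℝ) ^ (1 / 4 : ℝ) ≤ ((N / m : ℕ) : ℝ) := by
      have k1 : (N : ℝ) / m < ((N / m : ℕ) : ℝ) + 1 := by
        rw [div_lt_iff₀ hm0]
        have k2 : N < (N / m + 1) * m := Nat.lt_mul_of_div_lt (Nat.lt_succ_self _) hm.1
        exact_mod_cast k2
      have k3 : (N : ℝ) ^ (1 / 2 : ℝ) ≤ (N : ℝ) / m := by
        rw [le_div_iff₀ hm0]
        calc (N : ℝ) ^ (1 / 2 : ℝ) * m ≤ (N : ℝ) ^ (1 / 2 : ℝ) * (N : ℝ) ^ (1 / 2 : ℝ) := by gcongr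
          _ = N := by
              rw [← Real.rpow_add hN0]
              norm_num
      linarith
    have hdx : x0 ≤ N / m := by exact_mod_cast hx0.trans hdiv
    have hd0 : (0 : ℝ) < ((N / m : ℕ) : ℝ) := lt_of_lt_of_le (by positivity) hdiv
    have hlog : Real.log N / 4 ≤ Real.log ((N / m : ℕ) : ℝ) := by
      have := Real.log_le_log (by positivity) hdiv
      rw [Real.log_rpow hN0] at this
      linarith
    have hL0 : 0 < L := by rw [hLd]; linarith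
    have hrK : (r : ℝ) ≤ Real.log ((N / m : ℕ) : ℝ) ^ (K + 1) := by
      refine hrN.trans ?_
      calc Real.log N ^ K ≤ (Real.log N / 4) ^ (K + 1) := by
            rw [div_pow, le_div_iff₀ (by positivity), pow_succ (Real.log (N : ℝ)) K]
            apply mul_le_mul_of_nonneg_left hLK
            exact pow_nonneg (by linarith) _
        _ ≤ _ := pow_le_pow_left₀ (by linarith) hlog _
    have hmain := hlam (N / m) hdx r hr hrK c' (y / m) (Nat.div_le_div_right hy)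
    rw [if_congr hc' rfl rfl] at hmain
    have hfr : |(if c.Coprime r then (((y / m : ℕ)) : ℝ) / (Nat.totient r : ℝ) else 0) -
        (if c.Coprime r then ((y : ℝ) / m) / (Nat.totient r : ℝ) else 0)| ≤ 1 := by
      split_ifs
      · rw [← sub_div, abs_div, abs_of_pos (by linarith : (0 : ℝ) < (Nat.totient r : ℝ))]
        have k1 : (y : ℝ) / m < ((y / m : ℕ) : ℝ) + 1 := by
          rw [div_lt_iff₀ hm0]
          have k2 : y < (y / m + 1) * m := Nat.lt_mul_of_div_lt (Nat.lt_succ_self _) hm.1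
          exact_mod_cast k2
        have k3 : ((y / m : ℕ) : ℝ) ≤ (y : ℝ) / m := Nat.cast_div_le
        have k4 : |((y / m : ℕ) : ℝ) - (y : ℝ) / m| ≤ 1 := by
          rw [abs_le]
          constructor <;> linarith
        rw [div_le_one (by linarith)]
        linarith
      · simp
    have herr : ((N / m : ℕ) : ℝ) / Real.log ((N / m : ℕ) : ℝ) ^ (U + 2) ≤ (N / L ^ (U + 2) * 4 ^ (U + 2)) * ((m : ℝ))⁻¹ := by
      have k3 : ((N / m : ℕ) : ℝ) ≤ (N : ℝ) / m := Nat.cast_div_le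
      rw [← hLd] at hlog
      calc ((N / m : ℕ) : ℝ) / Real.log ((N / m : ℕ) : ℝ) ^ (U + 2) ≤ (N / m) / (L / 4) ^ (U + 2) := by gcongr
        _ = _ := by
            rw [div_pow]
            field_simp
    have habs : |∑ k ∈ (Icc 1 (y / m)).filter (fun k => k ≡ c' [MOD r]), ArithmeticFunction.vonMangoldt k -
        (if c.Coprime r then ((y : ℝ) / m) / (Nat.totient r : ℝ) else 0)| ≤
        (N / L ^ (U + 2) * 4 ^ (U + 2)) * ((m : ℝ))⁻¹ + 1 := by
      have := abs_add_le (∑ k ∈ (Icc 1 (y / m)).filter (fun k => k ≡ c' [MOD r]), ArithmeticFunction.vonMangoldt k -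
        (if c.Coprime r then (((y / m : ℕ)) : ℝ) / (Nat.totient r : ℝ) else 0))
        ((if c.Coprime r then (((y / m : ℕ)) : ℝ) / (Nat.totient r : ℝ) else 0) -
        (if c.Coprime r then ((y : ℝ) / m) / (Nat.totient r : ℝ) else 0))
      rw [sub_add_sub_cancel] at this
      linarith
    calc |a m| * _ ≤ 1 * |∑ k ∈ (Icc 1 (y / m)).filter (fun k => k ≡ c' [MOD r]), ArithmeticFunction.vonMangoldt k -
        (if c.Coprime r then ((y : ℝ) / m) / (Nat.totient r : ℝ) else 0)| :=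
          mul_le_mul_of_nonneg_right (ha.le1 m) (abs_nonneg _)
      _ ≤ _ := by rw [one_mul]; exact habs
  refine (abs_sum_le_sum_abs _ _).trans ((sum_le_sum hone).trans ?_)
  rw [sum_add_distrib, ← mul_sum, ← sum_filter, sum_const, nsmul_eq_mul, mul_one]
  have hharm : ∑ m ∈ Icc 1 N, ((m : ℝ))⁻¹ ≤ 1 + Real.log N := by
    have := harmonic_le_one_add_log N
    rw [harmonic_eq_sum_Icc] at this
    push_cast at this
    exact this
  have hcard : (((Icc 1 N).filter (fun m : ℕ => (m : ℝ) ≤ (N : ℝ) ^ (1 / 2 : ℝ))).card : ℝ) ≤ (N : ℝ) ^ (1 / 2 : ℝ) := by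
    have h4 : ((Icc 1 N).filter (fun d : ℕ => (d : ℝ) ≤ (N : ℝ) ^ (1 / 2 : ℝ))).card ≤ ⌊(N : ℝ) ^ (1 / 2 : ℝ)⌋₊ := by
      calc _ ≤ (Icc 1 ⌊(N : ℝ) ^ (1 / 2 : ℝ)⌋₊).card := by
            apply card_le_card
            intro d hd
            rw [mem_filter, mem_Icc] at hd
            rw [mem_Icc]
            exact ⟨hd.1.1, Nat.le_floor hd.2⟩
        _ = _ := by rw [Nat.card_Icc, Nat.add_sub_cancel]
    have h5 : ((⌊(N : ℝ) ^ (1 / 2 : ℝ)⌋₊ : ℕ) : ℝ) ≤ (N : ℝ) ^ (1 / 2 : ℝ) := Nat.floor_le (by positivity)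
    have h6 : (((Icc 1 N).filter (fun d : ℕ => (d : ℝ) ≤ (N : ℝ) ^ (1 / 2 : ℝ))).card : ℝ) ≤
        ((⌊(N : ℝ) ^ (1 / 2 : ℝ)⌋₊ : ℕ) : ℝ) := by
      exact_mod_cast h4
    exact h6.trans h5
  rw [← hLd] at hharm hLU hL100 hLh ⊢
  have hL0 : 0 < L := by linarith
  have hss : (N : ℝ) ^ (1 / 2 : ℝ) * (N : ℝ) ^ (1 / 2 : ℝ) = N := by
    rw [← Real.rpow_add hN0]
    norm_num
  rw [le_div_iff₀ (by positivity), add_mul]
  have g1 : (N / L ^ (U + 2) * 4 ^ (U + 2)) * (∑ m ∈ Icc 1 N, ((m : ℝ))⁻¹) * L ^ U ≤ N / 2 := by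
    calc (N / L ^ (U + 2) * 4 ^ (U + 2)) * (∑ m ∈ Icc 1 N, ((m : ℝ))⁻¹) * L ^ U
        ≤ (N / L ^ (U + 2) * 4 ^ (U + 2)) * (2 * L) * L ^ U := by
          gcongr
          linarith
      _ = N * ((2 * 4 ^ (U + 2)) / L) := by
          rw [pow_add L U 2]
          field_simp
      _ ≤ N * (1 / 2) := by
          apply mul_le_mul_of_nonneg_left _ hN0.le
          rw [div_le_iff₀ hL0]
          linarith
      _ = N / 2 := by ring
  have g2 : (((Icc 1 N).filter (fun m : ℕ => (m : ℝ) ≤ (N : ℝ) ^ (1 / 2 : ℝ))).card : ℝ) * L ^ U ≤ N / 2 := by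
    calc _ ≤ (N : ℝ) ^ (1 / 2 : ℝ) * ((N : ℝ) ^ (1 / 2 : ℝ) / 4) := by
          gcongr
          linarith
      _ = N / 4 := by rw [← mul_div_assoc, hss]
      _ ≤ N / 2 := by linarith
  linarith

end Pool.Agent.J4H40
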