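import Pool.Agent.J4H40.We
import Pool.Agent.J4H40.Va
import Pool.Agent.R460.GS.ErrAll
import Pool.Agent.R460.GH.Bil

set_option autoImplicit false

/-! The mean square of the error terms for the convolution, all moduli up to `N ^ (1 - ρ)`. -/

namespace Pool.Agent.J4H40

open Finset
open Pool.Agent.R460.GS
open Pool.Agent.Y883.GJ
open Pool.Agent.Y883.T3 (lsh)
open Pool.Agent.H373R2.T7 (lamz Vz pz lamz_ap lam_ap)
open Pool.Agent.H807R2.Dav (ee)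
open Pool.Agent.Y614.GJ.Core (ev_log)
open Pool.Agent.R460.GH (BilMaj3Stm)

lemma ap_f2 {N K U z r₀ : ℕ} {a : ℕ → ℝ} {V : ℝ} (hV : |V| ≤ 1) (hL : 6 ≤ Real.log N)
    (hlam : ∀ q : ℕ, 1 ≤ q → (q : ℝ) ≤ Real.log N ^ K → ∀ c y : ℕ, y ≤ N →
      |∑ n ∈ (Icc 1 y).filter (fun n => n ≡ c [MOD q]), lamz z n -
        (if c.Coprime q then (y : ℝ) / (Nat.totient q : ℝ) else 0)| ≤ N / Real.log N ^ (U + 2))
    (hsum : ∑ n ∈ Icc 1 N, |lamz z n - lsh z r₀ n| ≤ N / Real.log N ^ (U + 2))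
    (hap : ApgE N K (U + 2) (GA a) (fun _ => V)) :
    ApAt N K U (f2 a V z r₀) := by
  intro r hr1 hrK c y hy
  have hL0 : 0 < Real.log N := by linarith
  have h1 := ap_HW (r₀ := r₀) (c := c) (wbd_const hV) hy (fun y hy => hlam r hr1 hrK c y hy) hsum
  have h2 := hap r hr1 hrK c y hy
  have e1 : ∑ n ∈ (Icc 1 y).filter (fun n => n ≡ c [MOD r]), f2 a V z r₀ n =
      ((∑ n ∈ (Icc 1 y).filter (fun n => n ≡ c [MOD r]), GA a n -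
      ∑ n ∈ (Icc 1 y).filter (fun n => n ≡ c [MOD r]), V * lsh z r₀ n : ℝ) : ℂ) := by
    rw [← sum_sub_distrib]
    push_cast
    refine sum_congr rfl fun n hn => ?_
    unfold f2 HW GC
    push_cast
    ring
  rw [e1, Complex.norm_real, Real.norm_eq_abs]
  obtain ⟨M, hM⟩ : ∃ M : ℝ, M = (if c.Coprime r then (∑ n ∈ Icc 1 y, V) / (Nat.totient r : ℝ) else 0) :=
    ⟨_, rfl⟩
  rw [← hM] at h1 h2
  have e2 : ∑ n ∈ (Icc 1 y).filter (fun n => n ≡ c [MOD r]), GA a n -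
      ∑ n ∈ (Icc 1 y).filter (fun n => n ≡ c [MOD r]), V * lsh z r₀ n =
      (∑ n ∈ (Icc 1 y).filter (fun n => n ≡ c [MOD r]), GA a n - M) -
      (∑ n ∈ (Icc 1 y).filter (fun n => n ≡ c [MOD r]), V * lsh z r₀ n - M) := by ring
  rw [e2]
  refine (abs_sub _ _).trans ?_
  have hX : 0 ≤ (N : ℝ) / Real.log N ^ (U + 2) := by positivity
  calc _ ≤ N / Real.log N ^ (U + 2) + 2 * (N / Real.log N ^ (U + 2)) * (1 + 1) := add_le_add h2 h1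
    _ = 5 * (N / Real.log N ^ (U + 2)) := by ring
    _ ≤ Real.log N ^ 2 * (N / Real.log N ^ (U + 2)) := by
        apply mul_le_mul_of_nonneg_right _ hX
        nlinarith
    _ = _ := by
        rw [pow_add]
        field_simp

lemma maj_f2 {N A C C₃ z r : ℕ} {θ V : ℝ} {a : ℕ → ℝ} (hL : 2 ≤ Real.log N)
    (hG : MajE N θ (A + 2) C C₃ (GC a))
    (hH : ∀ (q : ℕ) [NeZero q], (q : ℝ) ≤ (N : ℝ) ^ θ →
      ∀ η : ℝ, |η| ≤ Real.log N ^ C / N → ∀ y : ℕ, y ≤ N →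
      ∀ S : Finset (DirichletCharacter ℂ q), 1 ∉ S →
        ∑ χ ∈ S, ‖cs q y (HW (fun _ => V) z r) η χ‖ ^ 2 ≤ (N : ℝ) ^ 2 / Real.log N ^ (A + 2)) :
    MajE N θ A C C₃ (f2 a V z r) := by
  intro q _ hq
  obtain ⟨B, hB1, hBc, hB⟩ := hG q hq
  refine ⟨B, hB1, hBc, fun η hη y hy S hS => ?_⟩
  have h1 := hB η hη y hy S hS
  have h2 := hH q hq η hη y hy S (fun h => disjoint_left.1 hS h hB1)
  exact (sq_sub_sum (GC a) (HW (fun _ => V) z r) η S h1 h2).trans (four_le hL)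

lemma min_f2 {N A C C' z r : ℕ} {θ V : ℝ} {a : ℕ → ℝ} (hL : 2 ≤ Real.log N)
    (hG : MinE N θ (A + 2) C (GC a))
    (hH : MinE N θ (A + 2) C' (HW (fun _ => V) z r)) : MinE N θ A (max C C') (f2 a V z r) := by
  have h1 := minE_mono (by linarith) (le_max_left C C') hG
  have h2 := minE_mono (by linarith) (le_max_right C C') hH
  intro q _ hq k hh β k1 k2 k3 k4 y hy
  exact (sq_sub_sum (GC a) (HW (fun _ => V) z r) β univ (h1 q hq k hh β k1 k2 k3 k4 y hy)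
    (h2 q hq k hh β k1 k2 k3 k4 y hy)).trans (four_le hL)

/-- the properties of the difference, for the core estimates -/
structure Prp (N : ℕ) (θ : ℝ) (A₁ A₂ C C₃ K U : ℕ) (G : ℕ → ℂ) : Prop where
  bd : BdAt N G
  mi : MinE N θ A₁ C G
  ma : MajE N θ A₂ C C₃ G
  ap : ApAt N K U G
  nc : NcAt N U G

/-- the density of the coefficients -/
noncomputable def Vd (N : ℕ) (a : ℕ → ℝ) : ℝ := ∑ m ∈ Icc 1 N, a m / m

/-- the mean square estimate for the convolution -/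
theorem errK (hCore : CoreEStm) (hB : BilMaj3Stm) (hBm : BilMinStm) (hT1 : TiMaj2Stm) (hT2 : TiMinStm)
    (hLs : LshStm) {Ff : ℕ → ℕ → ℂ} {θ₁ θ₂ κ σ : ℝ} {K₀ : ℕ} (hbd : ∃ N₀ : ℕ, ∀ N : ℕ, N₀ ≤ N → BdAt N (Ff N))
    (hsh : ∀ B C T : ℕ, ∃ K N₀ : ℕ, ∀ N : ℕ, N₀ ≤ N → ShE N θ₂ B C T K (Ff N))
    (hθ : θ₁ < θ₂) (hκ : 0 < κ) (hσ : σ ≤ 1 / 2) (hθσ : θ₂ + σ < 1) (hθ2 : θ₂ ≤ 1) (hK₀ : 100 ≤ K₀)
    (hK₀θ : θ₂ + 2 / (K₀ : ℝ) ≤ 1) (A T U₀ : ℕ) :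
    ∃ B : ℕ, ∀ E : ℕ, ∃ N₀ : ℕ, ∀ N : ℕ, N₀ ≤ N → ∀ z : ℕ,
    Real.log N ^ B ≤ z → (z : ℝ) ≤ Real.log N ^ E → ∃ r : ℕ, Par U₀ N z r ∧
    ∑ n ∈ Icc 1 N, |lamz z n - lsh z r n| ≤ N / Real.log N ^ U₀ ∧
    ∀ a : ℕ → ℝ, Cm N κ σ a → ∀ (q : ℕ) [NeZero q], (q : ℝ) ≤ (N : ℝ) ^ θ₁ → ∀ c : ZMod q,
    (Nat.gcd c.val q : ℝ) ≤ Real.log N ^ T → ∀ y₁ y₂ : ℕ, y₁ ≤ N → y₂ ≤ N →
      ∑ n ∈ (Icc 1 (2 * N)).filter (fun n : ℕ => (n : ZMod q) = c),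
        ‖cv (Ff N) (f2 a (Vd N a) z r) y₁ y₂ n‖ ^ 2 ≤ (N : ℝ) ^ 3 / (q * Real.log N ^ A) := by
  obtain ⟨Nbd, hbd⟩ := hbd
  obtain ⟨A₁, hC1⟩ := hCore A T θ₁ θ₂ hθ2 hθ
  obtain ⟨Cg, Ng, hg⟩ := minGC hBm hκ hθσ (by linarith) hθ2 (A₁ + 2)
  obtain ⟨Ch, Nh, hh⟩ := nHK hT2 hLs (by omega : 1 ≤ K₀) hK₀θ (A₁ + 2) 1
  obtain ⟨C, hC⟩ : ∃ C, C = max Cg Ch := ⟨_, rfl⟩
  obtain ⟨A₂, hC2⟩ := hC1 C
  obtain ⟨C₃, Nm1, hm1⟩ := majGC hB hκ hθσ.le hσ hθ2 (A₂ + 2) C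
  obtain ⟨Nm2, hm2⟩ := mHK hT1 hLs (by omega : 1 ≤ K₀) hK₀θ (A₂ + 2) C 1
  obtain ⟨B₂, hC3⟩ := hC2 C₃
  obtain ⟨K, Ns2, hs2⟩ := hsh B₂ C (T + C)
  obtain ⟨U, Nc, hC4⟩ := hC3 K
  obtain ⟨U₁, hU₁⟩ : ∃ U₁, U₁ = max U₀ (U + 2) := ⟨_, rfl⟩
  obtain ⟨Bm, hBm'⟩ := modelK hK₀ U₁
  obtain ⟨Na, ha⟩ := ap_GA hκ hσ K (U + 2)
  refine ⟨max Bm K, fun E => ?_⟩
  obtain ⟨Nmo, hmo⟩ := hBm' E
  obtain ⟨Nl, hl⟩ := lamz_ap E (U + 2)
  obtain ⟨Ne, hNe⟩ := Filter.eventually_atTop.1 (ev_log (U + 8) (s := min κ (1 / 2)) (lt_min hκ (by norm_num)) 100)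
  refine ⟨Nbd + Ng + Nh + Nm1 + Nm2 + Ns2 + Nc + Nmo + Nl + Na + Ne + 1, fun N hN z hz1 hz2 => ?_⟩
  have hN1 : 1 ≤ N := by omega
  have hNr1 : (1 : ℝ) ≤ N := by exact_mod_cast hN1
  obtain ⟨hLe, hLp⟩ := hNe N (by omega)
  have hL1 : 1 ≤ Real.log N := by linarith
  have hL2 : 2 ≤ Real.log N := by linarith
  have hzB : Real.log N ^ Bm ≤ z := (pow_le_pow_right₀ hL1 (le_max_left _ _)).trans hz1
  have hzK : Real.log N ^ K ≤ z := (pow_le_pow_right₀ hL1 (le_max_right _ _)).trans hz1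
  have hz1' : 1 ≤ z := by
    have : (1 : ℝ) ≤ z := (one_le_pow₀ hL1).trans hz1
    exact_mod_cast this
  obtain ⟨r, hPar, hPK, hsum⟩ := hmo N (by omega) z hzB hz2
  have hdiv : ∀ V : ℕ, V ≤ U₁ → (N : ℝ) / Real.log N ^ U₁ ≤ N / Real.log N ^ V := fun V hV =>
    div_le_div_of_nonneg_left (Nat.cast_nonneg _) (by positivity) (pow_le_pow_right₀ hL1 hV)
  have hU0 : U₀ ≤ U₁ := by rw [hU₁]; exact le_max_left _ _
  have hU2 : U + 2 ≤ U₁ := by rw [hU₁]; exact le_max_right _ _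
  have hP0 := par_mono hL1 hU0 hPar
  have hP2 := par_mono hL1 hU2 hPar
  refine ⟨r, hP0, hsum.trans (hdiv _ hU0), ?_⟩
  intro a haC q _ hq c hgcd y₁ y₂ hy₁ hy₂
  have hV : |Vd N a| ≤ 1 := haC.den
  have hW := wbd_const (N := N) hV
  have hMin : MinE N θ₂ A₁ C (f2 a (Vd N a) z r) := by
    rw [hC]
    refine min_f2 hL2 (hg N (by omega) a haC) ?_
    exact hh N (by omega) (fun _ => Vd N a) hW z r hPK hPar.hV
  have hMaj : MajE N θ₂ A₂ C C₃ (f2 a (Vd N a) z r) := by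
    refine maj_f2 hL2 (hm1 N (by omega) a haC) ?_
    intro q _ hq
    exact hm2 N (by omega) (fun _ => Vd N a) hW q hq z r hPK hPar.hV
  have hAp : ApAt N K U (f2 a (Vd N a) z r) := by
    refine ap_f2 hV (by linarith) ?_ (hsum.trans (hdiv _ hU2)) (ha N (by omega) a haC)
    intro q hq hqK c y hy
    refine hl N (by omega) z hz1' hz2 q hq ?_ c y hy
    exact_mod_cast hqK.trans hzK
  have hLpow : Real.log N ^ (U + 5) ≤ (N : ℝ) ^ (min κ (1 / 2)) :=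
    (pow_le_pow_right₀ hL1 (by omega)).trans hLp
  have hNc : NcAt N U (f2 a (Vd N a) z r) := nc_f2 haC hσ hN1 hV hP2 (by linarith)
    (hLpow.trans (Real.rpow_le_rpow_of_exponent_le hNr1 (min_le_left _ _)))
    (hLpow.trans (Real.rpow_le_rpow_of_exponent_le hNr1 (min_le_right _ _)))
  exact hC4 N (by omega) (Ff N) (f2 a (Vd N a) z r) (hbd N (by omega))
    (bd_f2 haC.le1 hV hPar (by linarith)) hMin hMaj hAp hNc (hs2 N (by omega)) q hq c hgcd y₁ y₂ hy₁ hy₂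

end Pool.Agent.J4H40
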