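import Pool.Agent.J4H40.Wi
import Pool.Agent.J4H40.Ub
import Pool.Agent.R460.GP.Main

set_option autoImplicit false

/-! Differences of a prime and a product with a small factor: all but few integers in the residue classes of every
modulus `q ≤ N ^ (1 - ρ)`. -/

namespace Pool.Agent.J4H40

open Finset Filter
open Pool.Agent.H373R2.T7 (lamz Vz pz lamI lamzI Vz_pos lamz_ap)
open Pool.Agent.Y883.T3 (lsh)
open Pool.Agent.Y883.GJ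
open Pool.Agent.R460.GS
open Pool.Agent.R460.GP
open Pool.Agent.R460.GH (bilMaj3 countK BilMaj3Stm)
open Pool.Agent.H560R3.GB (sing)
open Pool.Agent.Y614.GJ.Core (ev_log)
open Pool.Agent.Y883.T4 (class_le)

/-- the mean square estimate for the correlations with the convolution -/
theorem errKP (hCore : CoreEPStm) (hB : BilMaj3Stm) (hBm : BilMinStm) (hT1 : TiMaj2Stm) (hT2 : TiMinStm)
    (hLs : LshStm) {Ff : ℕ → ℕ → ℂ} {θ₁ θ₂ κ σ : ℝ} {K₀ : ℕ} (hbd : ∃ N₀ : ℕ, ∀ N : ℕ, N₀ ≤ N → BdAt N (Ff N))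
    (hsh : ∀ B C T : ℕ, ∃ K N₀ : ℕ, ∀ N : ℕ, N₀ ≤ N → ShE N θ₂ B C T K (Ff N))
    (hθ : θ₁ < θ₂) (hκ : 0 < κ) (hσ : σ ≤ 1 / 2) (hθσ : θ₂ + σ < 1) (hθ2 : θ₂ ≤ 1) (hK₀ : 100 ≤ K₀)
    (hK₀θ : θ₂ + 2 / (K₀ : ℝ) ≤ 1) (A T U₀ : ℕ) :
    ∃ B : ℕ, ∀ E : ℕ, ∃ N₀ : ℕ, ∀ N : ℕ, N₀ ≤ N → ∀ z : ℕ,
    Real.log N ^ B ≤ z → (z : ℝ) ≤ Real.log N ^ E → ∃ r : ℕ, Par U₀ N z r ∧
    ∑ n ∈ Icc 1 N, |lamz z n - lsh z r n| ≤ N / Real.log N ^ U₀ ∧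
    ∀ a : ℕ → ℝ, Cm N κ σ a → ∀ (q : ℕ) [NeZero q], (q : ℝ) ≤ (N : ℝ) ^ θ₁ → ∀ c : ZMod q,
    (Nat.gcd c.val q : ℝ) ≤ Real.log N ^ T → ∀ y₁ y₂ : ℕ, y₁ ≤ N → y₂ ≤ N →
      ∑ n ∈ (Icc (-(N : ℤ)) N).filter (fun n : ℤ => (n : ZMod q) = c),
        ‖cvd (Ff N) (f2 a (Vd N a) z r) y₁ y₂ n‖ ^ 2 ≤ (N : ℝ) ^ 3 / (q * Real.log N ^ A) := by
  obtain ⟨Nbd, hbd⟩ := hbd
  obtain ⟨A₁, hC1⟩ := hCore A T θ₁ θ₂ hθ2 hθ
  obtain ⟨Cg, Ng, hg⟩ := minGC hBm hκ hθσ (by linarith) hθ2 (A₁ + 2)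
  obtain ⟨Ch, Nh, hh⟩ := nHK hT2 hLs (by omega : 1 ≤ K₀) hK₀θ (A₁ + 2) 1
  obtain ⟨C, hC⟩ : ∃ C, C = max Cg Ch := ⟨_, rfl⟩
  obtain ⟨A₂, hC2⟩ := hC1 C
  obtain ⟨C₃, Nm1, hm1⟩ := majGC hB hκ hθσ.le hσ hθ2 (A₂ + 2) C
  obtain ⟨Nm2, hm2⟩ := mHK hT1 hLs (by omega : 1 ≤ K₀) hK₀θ (A₂ + 2) C 1
  obtain ⟨B₂, hC3⟩ := hC2 C₃
  obtain ⟨K, Ns2, hs2⟩ := hsh B₂ C (T + C)
  obtain ⟨U, Nc, hC4⟩ := hC3 K
  obtain ⟨U₁, hU₁⟩ : ∃ U₁, U₁ = max U₀ (U + 2) := ⟨_, rfl⟩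
  obtain ⟨Bm, hBm'⟩ := modelK hK₀ U₁
  obtain ⟨Na, ha⟩ := ap_GA hκ hσ K (U + 2)
  refine ⟨max Bm K, fun E => ?_⟩
  obtain ⟨Nmo, hmo⟩ := hBm' E
  obtain ⟨Nl, hl⟩ := lamz_ap E (U + 2)
  obtain ⟨Ne, hNe⟩ := Filter.eventually_atTop.1 (ev_log (U + 8) (s := min κ (1 / 2)) (lt_min hκ (by norm_num)) 100)
  refine ⟨Nbd + Ng + Nh + Nm1 + Nm2 + Ns2 + Nc + Nmo + Nl + Na + Ne + 1, fun N hN z hz1 hz2 => ?_⟩
  have hN1 : 1 ≤ N := by omega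
  have hNr1 : (1 : ℝ) ≤ N := by exact_mod_cast hN1
  obtain ⟨hLe, hLp⟩ := hNe N (by omega)
  have hL1 : 1 ≤ Real.log N := by linarith
  have hL2 : 2 ≤ Real.log N := by linarith
  have hzB : Real.log N ^ Bm ≤ z := (pow_le_pow_right₀ hL1 (le_max_left _ _)).trans hz1
  have hzK : Real.log N ^ K ≤ z := (pow_le_pow_right₀ hL1 (le_max_right _ _)).trans hz1
  have hz1' : 1 ≤ z := by
    have : (1 : ℝ) ≤ z := (one_le_pow₀ hL1).trans hz1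
    exact_mod_cast this
  obtain ⟨r, hPar, hPK, hsum⟩ := hmo N (by omega) z hzB hz2
  have hdiv : ∀ V : ℕ, V ≤ U₁ → (N : ℝ) / Real.log N ^ U₁ ≤ N / Real.log N ^ V := fun V hV =>
    div_le_div_of_nonneg_left (Nat.cast_nonneg _) (by positivity) (pow_le_pow_right₀ hL1 hV)
  have hU0 : U₀ ≤ U₁ := by rw [hU₁]; exact le_max_left _ _
  have hU2 : U + 2 ≤ U₁ := by rw [hU₁]; exact le_max_right _ _
  have hP0 := par_mono hL1 hU0 hPar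
  have hP2 := par_mono hL1 hU2 hPar
  refine ⟨r, hP0, hsum.trans (hdiv _ hU0), ?_⟩
  intro a haC q _ hq c hgcd y₁ y₂ hy₁ hy₂
  have hV : |Vd N a| ≤ 1 := haC.den
  have hW := wbd_const (N := N) hV
  have hMin : MinE N θ₂ A₁ C (f2 a (Vd N a) z r) := by
    rw [hC]
    refine min_f2 hL2 (hg N (by omega) a haC) ?_
    exact hh N (by omega) (fun _ => Vd N a) hW z r hPK hPar.hV
  have hMaj : MajE N θ₂ A₂ C C₃ (f2 a (Vd N a) z r) := by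
    refine maj_f2 hL2 (hm1 N (by omega) a haC) ?_
    intro q _ hq
    exact hm2 N (by omega) (fun _ => Vd N a) hW q hq z r hPK hPar.hV
  have hAp : ApAt N K U (f2 a (Vd N a) z r) := by
    refine ap_f2 hV (by linarith) ?_ (hsum.trans (hdiv _ hU2)) (ha N (by omega) a haC)
    intro q hq hqK c y hy
    refine hl N (by omega) z hz1' hz2 q hq ?_ c y hy
    exact_mod_cast hqK.trans hzK
  have hLpow : Real.log N ^ (U + 5) ≤ (N : ℝ) ^ (min κ (1 / 2)) :=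
    (pow_le_pow_right₀ hL1 (by omega)).trans hLp
  have hNc : NcAt N U (f2 a (Vd N a) z r) := nc_f2 haC hσ hN1 hV hP2 (by linarith)
    (hLpow.trans (Real.rpow_le_rpow_of_exponent_le hNr1 (min_le_left _ _)))
    (hLpow.trans (Real.rpow_le_rpow_of_exponent_le hNr1 (min_le_right _ _)))
  exact hC4 N (by omega) (Ff N) (f2 a (Vd N a) z r) (hbd N (by omega))
    (bd_f2 haC.le1 hV hPar (by linarith)) hMin hMaj hAp hNc (hs2 N (by omega)) q hq c hgcd y₁ y₂ hy₁ hy₂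

/-- the error terms for the function `LA` -/
theorem errKPLA {ρ σ κ : ℝ} (hκ : 0 < κ) (hσ0 : 0 < σ) (hσρ : σ < ρ) (hσ : σ ≤ 1 / 2) (A T U₀ : ℕ) :
    ∃ B : ℕ, ∀ E : ℕ, ∃ N₀ : ℕ, ∀ N : ℕ, N₀ ≤ N → ∀ z : ℕ,
    Real.log N ^ B ≤ z → (z : ℝ) ≤ Real.log N ^ E → ∃ r : ℕ, Par U₀ N z r ∧
    ∑ n ∈ Icc 1 N, |lamz z n - lsh z r n| ≤ N / Real.log N ^ U₀ ∧
    ∀ a : ℕ → ℝ, Cm N κ σ a → ∀ (q : ℕ) [NeZero q], (q : ℝ) ≤ (N : ℝ) ^ (1 - ρ) → ∀ c : ZMod q,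
    (Nat.gcd c.val q : ℝ) ≤ Real.log N ^ T → ∀ y₁ y₂ : ℕ, y₁ ≤ N → y₂ ≤ N →
      ∑ n ∈ (Icc (-(N : ℤ)) N).filter (fun n : ℤ => (n : ZMod q) = c),
        ‖cvd LA (f2 a (Vd N a) z r) y₁ y₂ n‖ ^ 2 ≤ (N : ℝ) ^ 3 / (q * Real.log N ^ A) := by
  obtain ⟨δ, hδ⟩ : ∃ δ : ℝ, δ = (ρ + σ) / 2 := ⟨_, rfl⟩
  have hδ0 : 0 < δ := by rw [hδ]; linarith
  have hδ1 : δ < ρ := by rw [hδ]; linarith
  have hδ2 : σ < δ := by rw [hδ]; linarith
  obtain ⟨κ', hκ'⟩ : ∃ κ' : ℝ, κ' = min (1 / 20) (δ / 3) := ⟨_, rfl⟩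
  have hκ'0 : 0 < κ' := by rw [hκ']; exact lt_min (by norm_num) (by positivity)
  have hκ'1 : κ' ≤ 1 / 20 := by rw [hκ']; exact min_le_left _ _
  have hκ'2 : κ' ≤ δ / 3 := by rw [hκ']; exact min_le_right _ _
  obtain ⟨k, hk⟩ := exists_nat_ge (2 / δ)
  obtain ⟨K₀, hK₀⟩ : ∃ K₀, K₀ = k + 100 := ⟨_, rfl⟩
  have hK₀r : 2 / δ ≤ (K₀ : ℝ) := by
    rw [hK₀]
    push_cast
    linarith
  have hK₀0 : (0 : ℝ) < K₀ := by
    rw [hK₀]
    positivity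
  have hK₀δ : 2 / (K₀ : ℝ) ≤ δ := by
    rw [div_le_iff₀ hδ0] at hK₀r
    rw [div_le_iff₀ hK₀0]
    linarith
  refine errKP (Ff := fun _ => LA)
    (coreEP Pool.Agent.Y697.GJ.liftC Pool.Agent.Y708.GJ.lift Pool.Agent.Y697.GJ.parsC Pool.Agent.Y872.GJ.pars
      Pool.Agent.Y297.GJ.orth Pool.Agent.Y812.GJ.nonU)
    (bilMaj3 Pool.Agent.Y812.GJ.l2 (countK Pool.Agent.Y812.GJ.l2))
    Pool.Agent.Y909.GJ.bilMin (Pool.Agent.R460.GS.tiMaj2 Pool.Agent.Y812.GJ.l2) Pool.Agent.Y412.GJ.tiMin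
    Pool.Agent.Y812.GJ.lsh_le (θ₁ := 1 - ρ) (θ₂ := 1 - δ) ?_ ?_ (by linarith) hκ hσ (by linarith) (by linarith)
    (K₀ := K₀) (by omega) (by linarith) A T U₀
  · obtain ⟨N₀, hN₀⟩ := eventually_atTop.1 (Pool.Agent.R453.GS.ev_log 1)
    exact ⟨N₀, fun N hN => bd_LA (hN₀ N hN)⟩
  · intro B C T
    obtain ⟨K, N₀, h⟩ := shlK hκ'0 hκ'1 Pool.Agent.Y235.GJ.vau Pool.Agent.Y662.GJ.jac Pool.Agent.Y812.GJ.l2 B C T
    obtain ⟨N₁, h1⟩ := Pool.Agent.R462.GS.evL 1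
    refine ⟨K, N₀ + N₁ + 1, fun N hN => ?_⟩
    exact shE_mono (by omega) (by linarith) (h1 N (by omega)) le_rfl (h N (by omega))

/-- the weighted number of the solutions of `b + h = d k`, `b ≤ y` -/
noncomputable def RP (a : ℕ → ℝ) (h y : ℕ) : ℝ := ∑ b ∈ Icc 1 y, la b * GA a (b + h)

/-- the weighted number of the solutions of `d k + h = b`, `d k ≤ y` -/
noncomputable def RM (a : ℕ → ℝ) (h y : ℕ) : ℝ := ∑ b ∈ Icc 1 y, la (b + h) * GA a b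

/-- the asymptotic formula for all `y ≤ N - h` -/
def GoodP (N : ℕ) (a : ℕ → ℝ) (A h : ℕ) : Prop :=
  ∀ y : ℕ, y + h ≤ N → |RP a h y - sing h * Vd N a * y| ≤ N / Real.log N ^ A ∧
    |RM a h y - sing h * Vd N a * y| ≤ N / Real.log N ^ A

lemma err_RP {N h y z r : ℕ} {a : ℕ → ℝ} {V : ℝ} (hy : y + h ≤ N) :
    ‖cvd LA (f2 a V z r) y N (-(h : ℤ))‖ = |RP a h y - ∑ b ∈ Icc 1 y, la b * (V * lsh z r (b + h))| := by
  rw [cvd_neg hy]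
  have e : ∑ b ∈ Icc 1 y, LA b * (starRingEnd ℂ) (f2 a V z r (b + h)) =
      ((RP a h y - ∑ b ∈ Icc 1 y, la b * (V * lsh z r (b + h)) : ℝ) : ℂ) := by
    unfold RP
    rw [← sum_sub_distrib]
    push_cast
    refine sum_congr rfl fun b _ => ?_
    unfold f2 HW GC LA la
    rw [map_sub, Complex.conj_ofReal, Complex.conj_ofReal]
    push_cast
    ring
  rw [e, Complex.norm_real, Real.norm_eq_abs]

lemma err_RM {N h y z r : ℕ} {a : ℕ → ℝ} {V : ℝ} (hy : y + h ≤ N) :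
    ‖cvd LA (f2 a V z r) N y h‖ = |RM a h y - ∑ b ∈ Icc 1 y, la (b + h) * (V * lsh z r b)| := by
  rw [cvd_pos hy]
  have e : ∑ b ∈ Icc 1 y, LA (b + h) * (starRingEnd ℂ) (f2 a V z r b) =
      ((RM a h y - ∑ b ∈ Icc 1 y, la (b + h) * (V * lsh z r b) : ℝ) : ℂ) := by
    unfold RM
    rw [← sum_sub_distrib]
    push_cast
    refine sum_congr rfl fun b _ => ?_
    unfold f2 HW GC LA la
    rw [map_sub, Complex.conj_ofReal, Complex.conj_ofReal]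
    push_cast
    ring
  rw [e, Complex.norm_real, Real.norm_eq_abs]

/-- the swap of the models for the shifts to the right -/
lemma swapP' {N h y z r : ℕ} {V X₁ : ℝ} (hV : |V| ≤ 1) (h2 : y + h ≤ N)
    (h1 : ∑ n ∈ Icc 1 N, |lamz z n - lsh z r n| ≤ X₁) :
    |∑ b ∈ Icc 1 y, la b * (V * lsh z r (b + h)) - V * ∑ b ∈ Icc 1 y, la b * lamz z (b + h)| ≤
    Real.log N * X₁ := by
  have hL0 : 0 ≤ Real.log N := Real.log_natCast_nonneg N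
  rw [mul_sum, ← sum_sub_distrib]
  have hpt : ∀ b ∈ Icc 1 y, |la b * (V * lsh z r (b + h)) - V * (la b * lamz z (b + h))| ≤
      Real.log N * |lamz z (b + h) - lsh z r (b + h)| := by
    intro b hb
    rw [mem_Icc] at hb
    have e : la b * (V * lsh z r (b + h)) - V * (la b * lamz z (b + h)) =
      (la b * V) * (lsh z r (b + h) - lamz z (b + h)) := by ring
    rw [e, abs_mul, abs_sub_comm (lsh z r (b + h))]
    apply mul_le_mul_of_nonneg_right _ (abs_nonneg _)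
    rw [abs_mul, abs_of_nonneg (la_nn _)]
    have k1 : la b ≤ Real.log N := vm_le (mem_Icc.2 ⟨by omega, by omega⟩)
    calc la b * |V| ≤ Real.log N * 1 := mul_le_mul k1 hV (abs_nonneg _) hL0
      _ = _ := mul_one _
  refine (abs_sum_le_sum_abs _ _).trans ((sum_le_sum hpt).trans ?_)
  rw [← mul_sum]
  apply mul_le_mul_of_nonneg_left _ hL0
  refine le_trans ?_ h1
  obtain ⟨F, hF⟩ : ∃ F : ℕ → ℝ, F = fun b => |lamz z b - lsh z r b| := ⟨_, rfl⟩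
  have hF0 : ∀ b, 0 ≤ F b := fun b => by rw [hF]; exact abs_nonneg _
  have e2 : ∑ b ∈ Icc 1 y, |lamz z (b + h) - lsh z r (b + h)| = ∑ b ∈ Icc 1 y, F (b + h) := by rw [hF]
  have e3 : ∑ n ∈ Icc 1 N, |lamz z n - lsh z r n| = ∑ b ∈ Icc 1 N, F b := by rw [hF]
  rw [e2, e3]
  calc ∑ b ∈ Icc 1 y, F (b + h) = ∑ b ∈ (Icc 1 y).image (fun b => b + h), F b := by
        rw [sum_image]
        intro x _ y _ hxy
        simp only at hxy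
        omega
    _ ≤ ∑ b ∈ Icc 1 N, F b := by
        refine sum_le_sum_of_subset_of_nonneg (fun b hb => ?_) fun _ _ _ => hF0 _
        rw [mem_image] at hb
        obtain ⟨c, hc, rfl⟩ := hb
        rw [mem_Icc] at hc ⊢
        omega

/-- the swap of the models for the shifts to the left -/
lemma swapM' {N h y z r : ℕ} {V X₁ : ℝ} (hV : |V| ≤ 1) (h2 : y + h ≤ N)
    (h1 : ∑ n ∈ Icc 1 N, |lamz z n - lsh z r n| ≤ X₁) :
    |∑ b ∈ Icc 1 y, la (b + h) * (V * lsh z r b) - V * ∑ b ∈ Icc 1 y, lamz z b * la (b + h)| ≤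
    Real.log N * X₁ := by
  have hL0 : 0 ≤ Real.log N := Real.log_natCast_nonneg N
  rw [mul_sum, ← sum_sub_distrib]
  have hpt : ∀ b ∈ Icc 1 y, |la (b + h) * (V * lsh z r b) - V * (lamz z b * la (b + h))| ≤
      Real.log N * |lamz z b - lsh z r b| := by
    intro b hb
    rw [mem_Icc] at hb
    have e : la (b + h) * (V * lsh z r b) - V * (lamz z b * la (b + h)) =
      (la (b + h) * V) * (lsh z r b - lamz z b) := by ring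
    rw [e, abs_mul, abs_sub_comm (lsh z r b)]
    apply mul_le_mul_of_nonneg_right _ (abs_nonneg _)
    rw [abs_mul, abs_of_nonneg (la_nn _)]
    have k1 : la (b + h) ≤ Real.log N := vm_le (mem_Icc.2 ⟨by omega, by omega⟩)
    calc la (b + h) * |V| ≤ Real.log N * 1 := mul_le_mul k1 hV (abs_nonneg _) hL0
      _ = _ := mul_one _
  refine (abs_sum_le_sum_abs _ _).trans ((sum_le_sum hpt).trans ?_)
  rw [← mul_sum]
  apply mul_le_mul_of_nonneg_left _ hL0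
  refine le_trans ?_ h1
  exact sum_le_sum_of_subset_of_nonneg (Icc_subset_Icc le_rfl (by omega)) fun _ _ _ => abs_nonneg _

/-- three terms -/
lemma three_le {x y z w e : ℝ} (h1 : |x - y| ≤ e) (h2 : |y - z| ≤ e) (h3 : |z - w| ≤ e) : |x - w| ≤ 3 * e := by
  have h := abs_add_three (x - y) (y - z) (z - w)
  have e1 : x - y + (y - z) + (z - w) = x - w := by ring
  rw [e1] at h
  linarith

/-- the asymptotic formula at one point of the grid -/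
lemma gridKP (A E1 : ℕ) (hE1 : A + 7 ≤ E1) : ∃ N₀ : ℕ, ∀ N : ℕ, N₀ ≤ N →
    ∀ z r : ℕ, Real.log N ^ E1 ≤ z → (z : ℝ) ≤ Real.log N ^ (E1 + 1) →
    ∑ n ∈ Icc 1 N, |lamz z n - lsh z r n| ≤ N / Real.log N ^ (A + 3) →
    ∀ h : ℕ, h ≤ N → 2 ∣ h → h ≠ 0 → 0 ≤ sing h ∧ sing h ≤ 2 * Real.log N ∧
    ∀ (a : ℕ → ℝ), |Vd N a| ≤ 1 → ∀ y : ℕ, y + h ≤ N →
      (‖cvd LA (f2 a (Vd N a) z r) y N (-(h : ℤ))‖ ≤ N / Real.log N ^ (A + 2) →
      |RP a h y - sing h * Vd N a * y| ≤ 3 * (N / Real.log N ^ (A + 2))) ∧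
      (‖cvd LA (f2 a (Vd N a) z r) N y h‖ ≤ N / Real.log N ^ (A + 2) →
      |RM a h y - sing h * Vd N a * y| ≤ 3 * (N / Real.log N ^ (A + 2))) := by
  obtain ⟨X0, hX0⟩ := winP_main (A + 1) E1 (by omega)
  obtain ⟨Ne, hNe⟩ := Pool.Agent.R462.GS.evL 4
  refine ⟨X0 + Ne + 1, fun N hN z r hz1 hz2 hsum h hh h2n hn0 => ?_⟩
  have hLe := hNe N (by omega)
  obtain ⟨hwin, hS0, hS2⟩ := hX0 N (by omega) h hh h2n hn0 z hz1 hz2
  refine ⟨hS0, hS2, fun a hV y hy => ?_⟩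
  have hN0 : (0 : ℝ) < N := by exact_mod_cast (by omega : 0 < N)
  obtain ⟨h1, h1', -⟩ := hwin y hy
  have h2 := swapP' (z := z) (r := r) hV hy hsum
  have h2' := swapM' (z := z) (r := r) hV hy hsum
  rw [err_RP hy, err_RM hy]
  obtain ⟨L, hLd⟩ : ∃ L, L = Real.log (N : ℝ) := ⟨_, rfl⟩
  rw [← hLd] at h1 h1' h2 h2' hLe ⊢
  have hL0 : 0 < L := by linarith
  have e1 : L * (N / L ^ (A + 3)) = N / L ^ (A + 2) := by
    rw [show A + 3 = (A + 2) + 1 by ring, pow_succ L (A + 2)]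
    field_simp
  rw [e1] at h2 h2'
  have hsm : 4 * (N / L ^ (A + 1 + 2)) ≤ N / L ^ (A + 2) := by
    calc 4 * (N / L ^ (A + 1 + 2)) = N / L ^ (A + 2) * (4 / L) := by
          rw [show A + 1 + 2 = (A + 2) + 1 by ring, pow_succ L (A + 2)]
          field_simp
      _ ≤ N / L ^ (A + 2) * 1 := by
          apply mul_le_mul_of_nonneg_left _ (by positivity)
          rw [div_le_one hL0]
          exact hLe
      _ = _ := mul_one _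
  have gen : ∀ X : ℝ, |X - sing h * y| ≤ 4 * (N / L ^ (A + 1 + 2)) →
      |Vd N a * X - sing h * Vd N a * y| ≤ N / L ^ (A + 2) := by
    intro X hX
    have e3 : Vd N a * X - sing h * Vd N a * y = Vd N a * (X - sing h * y) := by ring
    rw [e3, abs_mul]
    calc |Vd N a| * _ ≤ 1 * (4 * (N / L ^ (A + 1 + 2))) := mul_le_mul hV hX (abs_nonneg _) (by norm_num)
      _ ≤ _ := by rw [one_mul]; exact hsm
  exact ⟨fun hs => three_le hs h2 (gen _ h1), fun hs => three_le hs h2' (gen _ h1')⟩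

end Pool.Agent.J4H40
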