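import Pool.Agent.J4H40.Xa

set_option autoImplicit false

/-! Differences of a prime and a product with a small factor: counting the exceptions. -/

namespace Pool.Agent.J4H40

open Finset Filter
open Pool.Agent.H373R2.T7 (lamz Vz pz lamI lamzI Vz_pos lamz_ap)
open Pool.Agent.Y883.T3 (lsh)
open Pool.Agent.Y883.GJ
open Pool.Agent.R460.GS
open Pool.Agent.R460.GP
open Pool.Agent.H560R3.GB (sing)
open Pool.Agent.Y614.GJ.Core (ev_log)

lemma sum_neg_le (f : ℤ → ℝ) (hf : ∀ k, 0 ≤ f k) (q N : ℕ) (a : ZMod q) :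
    ∑ h ∈ (Icc 1 N).filter (fun h : ℕ => (h : ZMod q) = a), f (-(h : ℤ)) ≤
      ∑ k ∈ (Icc (-(N : ℤ)) N).filter (fun k : ℤ => (k : ZMod q) = -a), f k := by
  classical
  have e1 : ∑ h ∈ (Icc 1 N).filter (fun h : ℕ => (h : ZMod q) = a), f (-(h : ℤ)) =
      ∑ k ∈ ((Icc 1 N).filter (fun h : ℕ => (h : ZMod q) = a)).image (fun h : ℕ => -(h : ℤ)), f k := by
    rw [sum_image]
    intro x _ y _ hxy
    simp only at hxy
    omega
  rw [e1]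
  refine sum_le_sum_of_subset_of_nonneg (fun k hk => ?_) fun _ _ _ => hf _
  rw [mem_image] at hk
  obtain ⟨h, hh, rfl⟩ := hk
  rw [mem_filter, mem_Icc] at hh ⊢
  refine ⟨⟨by omega, by omega⟩, ?_⟩
  push_cast
  rw [hh.2]

lemma gcd_neg_val (q a : ℕ) [NeZero q] : Nat.gcd (ZMod.val (-(a : ZMod q))) q = Nat.gcd a q := by
  rw [ZMod.neg_val]
  split_ifs with h
  · have h1 : q ∣ a := (ZMod.natCast_eq_zero_iff a q).1 h
    rw [Nat.gcd_zero_left]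
    exact (Nat.gcd_eq_right h1).symm
  · have h1 : (a : ZMod q).val ≤ q := (ZMod.val_lt _).le
    rw [Nat.gcd_comm (q - _) q, Nat.gcd_self_sub_right h1, ZMod.val_natCast, ← Nat.gcd_comm (a % q) q,
      ← Nat.gcd_rec, Nat.gcd_comm]

lemma RP_short {N h y₁ y₂ : ℕ} {a : ℕ → ℝ} (ha : ∀ m, |a m| ≤ 1) (h12 : y₁ ≤ y₂) (h2 : y₂ + h ≤ N) :
    |RP a h y₂ - RP a h y₁| ≤ ((y₂ : ℝ) - y₁) * Real.log N ^ 2 ∧
    |RM a h y₂ - RM a h y₁| ≤ ((y₂ : ℝ) - y₁) * Real.log N ^ 2 := by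
  have e1 : RP a h y₂ - RP a h y₁ = ∑ b ∈ Ioc y₁ y₂, la b * GA a (b + h) := by
    unfold RP
    rw [icc_ioc, icc_ioc, ← sum_Ioc_consecutive _ (Nat.zero_le y₁) h12]
    ring
  have e2 : RM a h y₂ - RM a h y₁ = ∑ b ∈ Ioc y₁ y₂, la (b + h) * GA a b := by
    unfold RM
    rw [icc_ioc, icc_ioc, ← sum_Ioc_consecutive _ (Nat.zero_le y₁) h12]
    ring
  have k1 : ∀ b : ℕ, 1 ≤ b → b ≤ N → la b ≤ Real.log N := fun b h1 h2 => vm_le (mem_Icc.2 ⟨h1, h2⟩)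
  have k2 : ∀ b : ℕ, 1 ≤ b → b ≤ N → |GA a b| ≤ Real.log N := fun b h1 h2 =>
    (GA_abs ha _).trans (Real.log_le_log (by exact_mod_cast h1) (by exact_mod_cast h2))
  have hL0 : 0 ≤ Real.log N := Real.log_natCast_nonneg N
  rw [e1, e2]
  constructor
  · refine (abs_sum_le_sum_abs _ _).trans ?_
    have h3 : ∀ b ∈ Ioc y₁ y₂, |la b * GA a (b + h)| ≤ Real.log N ^ 2 := by
      intro b hb
      rw [mem_Ioc] at hb
      rw [abs_mul, abs_of_nonneg (la_nn b), sq]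
      exact mul_le_mul (k1 b (by omega) (by omega)) (k2 _ (by omega) (by omega)) (abs_nonneg _) hL0
    refine (sum_le_sum h3).trans ?_
    rw [sum_const, Nat.card_Ioc, nsmul_eq_mul, Nat.cast_sub h12]
  · refine (abs_sum_le_sum_abs _ _).trans ?_
    have h3 : ∀ b ∈ Ioc y₁ y₂, |la (b + h) * GA a b| ≤ Real.log N ^ 2 := by
      intro b hb
      rw [mem_Ioc] at hb
      rw [abs_mul, abs_of_nonneg (la_nn _), sq]
      exact mul_le_mul (k1 _ (by omega) (by omega)) (k2 b (by omega) (by omega)) (abs_nonneg _) hL0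
    refine (sum_le_sum h3).trans ?_
    rw [sum_const, Nat.card_Ioc, nsmul_eq_mul, Nat.cast_sub h12]

/-- from the grid to all points -/
lemma grid_to {A : ℕ} {X₁ X₂ S V s y H L N : ℝ} (hL : 100 ≤ L) (hN : 0 ≤ N) (hS0 : 0 ≤ S) (hS2 : S ≤ 2 * L)
    (hV : |V| ≤ 1) (h1 : s ≤ y) (h2 : y - s ≤ H) (hH : H ≤ 2 * (N / L ^ (A + 4)))
    (g1 : |X₁ - S * V * s| ≤ 3 * (N / L ^ (A + 2))) (g2 : |X₂ - X₁| ≤ (y - s) * L ^ 2) :
    |X₂ - S * V * y| ≤ N / L ^ A := by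
  have hL0 : 0 < L := by linarith
  have hH0 : 0 ≤ H := by linarith
  have m3 : |S * V * s - S * V * y| ≤ 2 * L * H := by
    rw [← mul_sub, abs_mul, abs_mul, abs_of_nonneg hS0]
    have e1 : |s - y| ≤ H := by
      rw [abs_le]
      constructor <;> linarith
    calc S * |V| * |s - y| ≤ (2 * L) * 1 * H := by gcongr
      _ = _ := by ring
  have m4 := abs_add_three (X₂ - X₁) (X₁ - S * V * s) (S * V * s - S * V * y)
  have e5 : X₂ - X₁ + (X₁ - S * V * s) + (S * V * s - S * V * y) = X₂ - S * V * y := by ring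
  rw [e5] at m4
  have m5 : (y - s) * L ^ 2 ≤ H * L ^ 2 := mul_le_mul_of_nonneg_right h2 (by positivity)
  have e6 : H * L ^ 2 ≤ 2 * (N / L ^ (A + 2)) := by
    calc H * L ^ 2 ≤ 2 * (N / L ^ (A + 4)) * L ^ 2 := by gcongr
      _ = 2 * (N / L ^ (A + 2)) := by
          rw [show A + 4 = (A + 2) + 2 by ring, pow_add L (A + 2) 2]
          field_simp
  have e7 : 2 * L * H ≤ H * L ^ 2 := by
    have : 2 * L ≤ L ^ 2 := by nlinarith
    calc 2 * L * H ≤ L ^ 2 * H := mul_le_mul_of_nonneg_right this hH0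
      _ = _ := by ring
  have e8 : 7 * (N / L ^ (A + 2)) ≤ N / L ^ A := by
    have f1 : N / L ^ (A + 2) = N / L ^ A * (1 / L ^ 2) := by
      rw [pow_add]
      field_simp
    have f2 : 7 * (1 / L ^ 2) ≤ 1 := by
      rw [mul_one_div, div_le_one (by positivity)]
      nlinarith
    have f3 : 0 ≤ N / L ^ A := by positivity
    rw [f1]
    calc 7 * (N / L ^ A * (1 / L ^ 2)) = N / L ^ A * (7 * (1 / L ^ 2)) := by ring
      _ ≤ N / L ^ A * 1 := mul_le_mul_of_nonneg_left f2 f3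
      _ = _ := mul_one _
  linarith

open Classical in
/-- the asymptotic formula, all but few integers in the residue classes of every modulus -/
theorem mainKP {ρ σ κ : ℝ} (hκ : 0 < κ) (hσ0 : 0 < σ) (hσρ : σ < ρ) (hσ : σ ≤ 1 / 2) (A T : ℕ) :
    ∃ N₀ : ℕ, ∀ N : ℕ, N₀ ≤ N → ∀ c : ℕ → ℝ, Cm N κ σ c → ∀ q : ℕ, 1 ≤ q →
      (q : ℝ) ≤ (N : ℝ) ^ (1 - ρ) → ∀ a : ℕ, (Nat.gcd a q : ℝ) ≤ Real.log N ^ T →
        (({h ∈ Icc 1 N | 2 ∣ h ∧ h ≡ a [MOD q] ∧ ¬ GoodP N c A h}.card : ℕ) : ℝ) ≤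
          (N : ℝ) / (q * Real.log N ^ A) := by
  obtain ⟨B, hB⟩ := errKPLA hκ hσ0 hσρ hσ (4 * A + 9) T (A + 3)
  obtain ⟨E1, hE1⟩ : ∃ E1, E1 = max B (A + 7) := ⟨_, rfl⟩
  obtain ⟨N₁, hM1⟩ := hB (E1 + 1)
  obtain ⟨N₂, hM2⟩ := gridKP A E1 (by rw [hE1]; exact le_max_right _ _)
  obtain ⟨N₄, hM4⟩ := Filter.eventually_atTop.1 (ev_log (A + 4) (s := 1 / 6) (by norm_num) 100)
  refine ⟨N₁ + N₂ + N₄ + 3, fun N hN c hc q hq1 hqN a ha => ?_⟩
  have : NeZero q := ⟨by omega⟩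
  have hN1 : 1 ≤ N := by omega
  have hN0 : (0 : ℝ) < N := by exact_mod_cast hN1
  have hN1r : (1 : ℝ) ≤ N := by exact_mod_cast hN1
  obtain ⟨hL100, hLp⟩ := hM4 N (by omega)
  obtain ⟨z1, z2, z3⟩ := choose_z hL100 B E1 (by rw [hE1]; exact le_max_left _ _)
  obtain ⟨r, hPar, hsum, hms⟩ := hM1 N (by omega) ⌈Real.log N ^ E1⌉₊ z1 z3
  obtain ⟨z, hz⟩ : ∃ z, z = ⌈Real.log (N : ℝ) ^ E1⌉₊ := ⟨_, rfl⟩
  rw [← hz] at z1 z2 z3 hPar hsum hms
  have c2' := hM2 N (by omega) z r z2 z3 hsum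
  have hsh := fun (h y₁ y₂ : ℕ) (h12 : y₁ ≤ y₂) (h2 : y₂ + h ≤ N) =>
    RP_short (a := c) (N := N) hc.le1 h12 h2
  obtain ⟨G, hG⟩ : ∃ G : ℕ → Prop, G = GoodP N c A := ⟨_, rfl⟩
  have hGd : ∀ h, (∀ y : ℕ, y + h ≤ N → |RP c h y - sing h * Vd N c * y| ≤ N / Real.log N ^ A ∧
      |RM c h y - sing h * Vd N c * y| ≤ N / Real.log N ^ A) → G h := by
    intro h hh
    rw [hG]
    exact hh
  rw [← hG]
  obtain ⟨L, hLd⟩ : ∃ L, L = Real.log (N : ℝ) := ⟨_, rfl⟩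
  rw [← hLd] at c2' hsh hL100 hLp hms ha hGd ⊢
  have hL0 : 0 < L := by linarith
  have hL1 : 1 ≤ L := by linarith
  have hq0 : (0 : ℝ) < q := by exact_mod_cast hq1
  -- the grid
  obtain ⟨V, hV⟩ : ∃ V, V = A + 4 := ⟨_, rfl⟩
  obtain ⟨Tg, hTg⟩ : ∃ Tg, Tg = ⌈L ^ V⌉₊ := ⟨_, rfl⟩
  have hT1 : L ^ V ≤ Tg := by rw [hTg]; exact Nat.le_ceil _
  have hLV : 1 ≤ L ^ V := one_le_pow₀ hL1
  have hT2 : (Tg : ℝ) ≤ L ^ V + 1 := by
    rw [hTg]
    exact (Nat.ceil_lt_add_one (by positivity)).le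
  have hTpos : 0 < Tg := by
    have : (0 : ℝ) < Tg := by linarith
    exact_mod_cast this
  obtain ⟨H, hH⟩ : ∃ H, H = N / Tg + 1 := ⟨_, rfl⟩
  have hH1 : 1 ≤ H := by rw [hH]; exact Nat.le_add_left 1 _
  have hpow1 : (N : ℝ) ^ (1 / 6 : ℝ) ≤ N := by
    calc (N : ℝ) ^ (1 / 6 : ℝ) ≤ (N : ℝ) ^ (1 : ℝ) := Real.rpow_le_rpow_of_exponent_le hN1r (by norm_num)
      _ = N := Real.rpow_one _
  have hHr : (H : ℝ) ≤ 2 * (N / L ^ V) := by
    rw [hH]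
    push_cast
    have e1 : ((N / Tg : ℕ) : ℝ) ≤ N / L ^ V := by
      calc ((N / Tg : ℕ) : ℝ) ≤ (N : ℝ) / Tg := Nat.cast_div_le
        _ ≤ N / L ^ V := div_le_div_of_nonneg_left hN0.le (by positivity) hT1
    have e2 : 1 ≤ (N : ℝ) / L ^ V := by
      rw [le_div_iff₀ (by positivity), one_mul]
      exact (pow_le_pow_right₀ hL1 (by omega)).trans (hLp.trans hpow1)
    linarith
  have hjT : ∀ j : ℕ, j * H ≤ N → j < Tg + 1 := by
    intro j hj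
    by_contra hcon
    have e1 : (Tg + 1) * H ≤ j * H := Nat.mul_le_mul_right _ (by omega)
    have e2 : N < Tg * H := by
      rw [hH]
      have := Nat.lt_mul_div_succ N hTpos
      exact this
    have e3 : Tg * H ≤ (Tg + 1) * H := Nat.mul_le_mul_right _ (by omega)
    omega
  have hgcd : ((Nat.gcd (ZMod.val (a : ZMod q)) q : ℕ) : ℝ) ≤ L ^ T := by
    rw [ZMod.val_natCast, ← Nat.gcd_rec, Nat.gcd_comm]
    exact ha
  have hgcd' : ((Nat.gcd (ZMod.val (-(a : ZMod q))) q : ℕ) : ℝ) ≤ L ^ T := by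
    rw [gcd_neg_val]
    exact ha
  obtain ⟨Bd, hBd⟩ : ∃ Bd : Finset ℕ, Bd = {h ∈ Icc 1 N | 2 ∣ h ∧ h ≡ a [MOD q] ∧ ¬ G h} := ⟨_, rfl⟩
  rw [← hBd]
  have hmem : ∀ n ∈ Bd, 1 ≤ n ∧ n ≤ N ∧ 2 ∣ n ∧ n ≡ a [MOD q] ∧ ¬ G n := by
    intro n hn
    rw [hBd, mem_filter, mem_Icc] at hn
    exact ⟨hn.1.1, hn.1.2, hn.2.1, hn.2.2.1, hn.2.2.2⟩
  obtain ⟨J, hJ⟩ : ∃ J, J = (range (Tg + 1)).filter (fun j => j * H ≤ N) := ⟨_, rfl⟩
  obtain ⟨Ea, hEa⟩ : ∃ Ea : ℕ → ℕ → ℝ, Ea = fun (n : ℕ) (y : ℕ) =>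
    ‖cvd LA (f2 c (Vd N c) z r) y N (-(n : ℤ))‖ ^ 2 := ⟨_, rfl⟩
  obtain ⟨Eb, hEb⟩ : ∃ Eb : ℕ → ℕ → ℝ, Eb = fun (n : ℕ) (y : ℕ) =>
    ‖cvd LA (f2 c (Vd N c) z r) N y (n : ℤ)‖ ^ 2 := ⟨_, rfl⟩
  have hEann : ∀ n y, 0 ≤ Ea n y := fun n y => by rw [hEa]; positivity
  have hEbnn : ∀ n y, 0 ≤ Eb n y := fun n y => by rw [hEb]; positivity
  have hden : |Vd N c| ≤ 1 := hc.den
  have hterm : ∀ n ∈ Bd, ((N : ℝ) / L ^ (A + 2)) ^ 2 ≤ ∑ j ∈ J, (Ea n (j * H) + Eb n (j * H)) := by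
    intro n hn
    obtain ⟨a1, a2, a3, a4, a5⟩ := hmem n hn
    by_contra hcon
    rw [not_le] at hcon
    obtain ⟨hS0, hS2, hgr⟩ := c2' n a2 a3 (by omega)
    have hsm : ∀ j : ℕ, j * H ≤ N → ‖cvd LA (f2 c (Vd N c) z r) (j * H) N (-(n : ℤ))‖ ≤ N / L ^ (A + 2) ∧
        ‖cvd LA (f2 c (Vd N c) z r) N (j * H) (n : ℤ)‖ ≤ N / L ^ (A + 2) := by
      intro j hj
      have k2 : Ea n (j * H) + Eb n (j * H) ≤ ∑ j ∈ J, (Ea n (j * H) + Eb n (j * H)) := by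
        refine single_le_sum (f := fun j => Ea n (j * H) + Eb n (j * H))
          (fun _ _ => add_nonneg (hEann _ _) (hEbnn _ _)) ?_
        rw [hJ, mem_filter, mem_range]
        exact ⟨hjT j (by omega), by omega⟩
      have k3 := hEann n (j * H)
      have k4 := hEbnn n (j * H)
      constructor
      · by_contra hns
        rw [not_le] at hns
        have k1 : ((N : ℝ) / L ^ (A + 2)) ^ 2 ≤ Ea n (j * H) := by
          rw [hEa]
          exact pow_le_pow_left₀ (by positivity) hns.le 2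
        linarith
      · by_contra hns
        rw [not_le] at hns
        have k1 : ((N : ℝ) / L ^ (A + 2)) ^ 2 ≤ Eb n (j * H) := by
          rw [hEb]
          exact pow_le_pow_left₀ (by positivity) hns.le 2
        linarith
    apply a5
    apply hGd
    intro y hy
    obtain ⟨j, hj⟩ : ∃ j, j = y / H := ⟨_, rfl⟩
    have hj1 : j * H ≤ y := by rw [hj]; exact Nat.div_mul_le_self _ _
    have hj2 : y < j * H + H := by
      rw [hj]
      exact Nat.lt_div_mul_add (by omega)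
    obtain ⟨s1, s2⟩ := hsm j (by omega)
    obtain ⟨m1, m1'⟩ := hgr c hden (j * H) (by omega)
    obtain ⟨m2, m2'⟩ := hsh n (j * H) y hj1 hy
    have hdy : (y : ℝ) - ((j * H : ℕ) : ℝ) ≤ H := by
      have : (y : ℝ) ≤ ((j * H : ℕ) : ℝ) + H := by exact_mod_cast hj2.le
      linarith
    have hdy0 : ((j * H : ℕ) : ℝ) ≤ y := by exact_mod_cast hj1
    rw [hV] at hHr
    exact ⟨grid_to hL100 hN0.le hS0 hS2 hden hdy0 hdy hHr (m1 s1) m2,
      grid_to hL100 hN0.le hS0 hS2 hden hdy0 hdy hHr (m1' s2) m2'⟩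
  have hcls : ∀ n ∈ Bd, n ∈ (Icc 1 N).filter (fun n : ℕ => (n : ZMod q) = (a : ZMod q)) := by
    intro n hn
    obtain ⟨a1, a2, a3, a4, a5⟩ := hmem n hn
    rw [mem_filter, mem_Icc]
    exact ⟨⟨a1, a2⟩, (ZMod.natCast_eq_natCast_iff n a q).2 a4⟩
  obtain ⟨R, hR⟩ : ∃ R : ℝ, R = (N : ℝ) ^ 3 / (q * L ^ (4 * A + 9)) := ⟨_, rfl⟩
  have hR0 : 0 < R := by rw [hR]; positivity
  have hEsum : ∀ j ∈ J, ∑ n ∈ (Icc 1 N).filter (fun n : ℕ => (n : ZMod q) = (a : ZMod q)),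
      (Ea n (j * H) + Eb n (j * H)) ≤ 2 * R := by
    intro j hj
    rw [hJ, mem_filter] at hj
    have k1 := (sum_neg_le (fun k => ‖cvd LA (f2 c (Vd N c) z r) (j * H) N k‖ ^ 2) (fun _ => sq_nonneg _)
      q N (a : ZMod q)).trans (hms c hc q hqN (-(a : ZMod q)) hgcd' (j * H) N hj.2 le_rfl)
    have k2 := (sum_pos_le (fun k => ‖cvd LA (f2 c (Vd N c) z r) N (j * H) k‖ ^ 2) (fun _ => sq_nonneg _)
      q N (a : ZMod q)).trans (hms c hc q hqN (a : ZMod q) hgcd N (j * H) le_rfl hj.2)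
    rw [← hR] at k1 k2
    rw [sum_add_distrib, hEa, hEb]
    linarith
  have hJc : (J.card : ℝ) ≤ 3 * L ^ V := by
    have e1 : J.card ≤ Tg + 1 := by
      rw [hJ]
      exact (card_filter_le _ _).trans (card_range _).le
    have e2 : (J.card : ℝ) ≤ Tg + 1 := by exact_mod_cast e1
    linarith
  have hsum2 : (Bd.card : ℝ) * (N / L ^ (A + 2)) ^ 2 ≤ 6 * L ^ V * R := by
    calc (Bd.card : ℝ) * (N / L ^ (A + 2)) ^ 2 = ∑ _n ∈ Bd, ((N : ℝ) / L ^ (A + 2)) ^ 2 := by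
          rw [sum_const, nsmul_eq_mul]
      _ ≤ ∑ n ∈ Bd, ∑ j ∈ J, (Ea n (j * H) + Eb n (j * H)) := sum_le_sum hterm
      _ ≤ ∑ n ∈ (Icc 1 N).filter (fun n : ℕ => (n : ZMod q) = (a : ZMod q)),
          ∑ j ∈ J, (Ea n (j * H) + Eb n (j * H)) :=
          sum_le_sum_of_subset_of_nonneg hcls fun n _ _ =>
            sum_nonneg fun j _ => add_nonneg (hEann _ _) (hEbnn _ _)
      _ = ∑ j ∈ J, ∑ n ∈ (Icc 1 N).filter (fun n : ℕ => (n : ZMod q) = (a : ZMod q)),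
          (Ea n (j * H) + Eb n (j * H)) := sum_comm
      _ ≤ ∑ j ∈ J, 2 * R := sum_le_sum hEsum
      _ = (J.card : ℝ) * (2 * R) := by rw [sum_const, nsmul_eq_mul]
      _ ≤ (3 * L ^ V) * (2 * R) := by gcongr
      _ = _ := by ring
  have h4 : 6 * L ^ V * R ≤ (N / (q * L ^ A)) * (N / L ^ (A + 2)) ^ 2 := by
    have e1 : (N / (q * L ^ A)) * (N / L ^ (A + 2)) ^ 2 = R * (L ^ V * L) := by
      have e2 : L ^ (4 * A + 9) = (L ^ A) ^ 4 * L ^ 9 := by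
        rw [← pow_mul, ← pow_add]
        congr 1
        ring
      rw [hR, hV, e2, pow_add, pow_add]
      have e3 : L ^ A ≠ 0 := by positivity
      generalize L ^ A = Y at e3 ⊢
      field_simp
    rw [e1]
    calc 6 * L ^ V * R = R * (L ^ V * 6) := by ring
      _ ≤ R * (L ^ V * L) := by
          gcongr
          linarith
  exact le_of_mul_le_mul_right (hsum2.trans h4) (by positivity)

end Pool.Agent.J4H40
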