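import Pool.Agent.J4H40.Xb

set_option autoImplicit false

/-! Differences of primes and products of two primes: from the weighted sums to the number of the pairs. -/

namespace Pool.Agent.J4H40

open Finset Filter
open Pool.Agent.R460.GS (vm_le la la_nn one_le_sing)
open Pool.Agent.H560R3.GB (sing HL)
open Pool.Agent.W93.GB (pp_nonneg sum_pp)

lemma RP_smul (a : ℕ → ℝ) (t : ℝ) (n y : ℕ) : RP (fun m => t * a m) n y = t * RP a n y := by
  unfold RP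
  rw [mul_sum]
  refine sum_congr rfl fun d _ => ?_
  rw [GA_smul]
  ring

lemma RM_smul (a : ℕ → ℝ) (t : ℝ) (n y : ℕ) : RM (fun m => t * a m) n y = t * RM a n y := by
  unfold RM
  rw [mul_sum]
  refine sum_congr rfl fun d _ => ?_
  rw [GA_smul]
  ring

open Classical in
/-- the asymptotic formula for arbitrary bounded coefficients -/
theorem mainCP {ρ σ κ : ℝ} (hκ : 0 < κ) (hσ0 : 0 < σ) (hσρ : σ < ρ) (hσ : σ ≤ 1 / 2) (A T : ℕ) :
    ∃ N₀ : ℕ, ∀ N : ℕ, N₀ ≤ N → ∀ c : ℕ → ℝ, Co N κ σ c → ∀ q : ℕ, 1 ≤ q →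
      (q : ℝ) ≤ (N : ℝ) ^ (1 - ρ) → ∀ a : ℕ, (Nat.gcd a q : ℝ) ≤ Real.log N ^ T →
        (({n ∈ Icc 1 N | 2 ∣ n ∧ n ≡ a [MOD q] ∧ ¬ GoodP N c A n}.card : ℕ) : ℝ) ≤
          (N : ℝ) / (q * Real.log N ^ A) := by
  obtain ⟨N₁, h1⟩ := mainKP hκ hσ0 hσρ hσ (A + 2) T
  obtain ⟨N₂, h2⟩ := Pool.Agent.R462.GS.evL 3
  refine ⟨N₁ + N₂ + 1, fun N hN c hc q hq hqN a ha => ?_⟩
  have hL3 := h2 N (by omega)
  obtain ⟨L, hLd⟩ : ∃ L, L = Real.log (N : ℝ) := ⟨_, rfl⟩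
  have hN0 : (0 : ℝ) < N := by exact_mod_cast (by omega : 0 < N)
  have hq0 : (0 : ℝ) < q := by exact_mod_cast hq
  have hharm := harm_le (N := N) hc.le1
  rw [← hLd] at hL3 hharm
  have hL0 : 0 < L := by linarith
  have hL1 : 1 ≤ L := by linarith
  have hinv0 : 0 < (2 * L)⁻¹ := by positivity
  have hinv1 : (2 * L)⁻¹ ≤ 1 := by
    rw [inv_le_one_iff₀]
    right
    linarith
  have hcm : Cm N κ σ (fun m => (2 * L)⁻¹ * c m) := by
    refine ⟨fun m => ?_, fun m hm => ?_, ?_⟩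
    · rw [abs_mul, abs_of_pos hinv0]
      have := hc.le1 m
      nlinarith [abs_nonneg (c m)]
    · exact hc.sup m (fun h => hm (by rw [h, mul_zero]))
    · have e := Vd_smul c (2 * L)⁻¹ N
      unfold Vd at e
      rw [e, abs_mul, abs_of_pos hinv0, inv_mul_le_iff₀ (by positivity)]
      linarith
  have h3 := h1 N (by omega) _ hcm q hq hqN a ha
  have gen : ∀ X V S y : ℝ, |(2 * L)⁻¹ * X - S * ((2 * L)⁻¹ * V) * y| ≤ N / L ^ (A + 2) →
      |X - S * V * y| ≤ N / L ^ A := by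
    intro X V S y h5
    have e : (2 * L)⁻¹ * X - S * ((2 * L)⁻¹ * V) * y = (2 * L)⁻¹ * (X - S * V * y) := by ring
    rw [e, abs_mul, abs_of_pos hinv0, inv_mul_le_iff₀ (by positivity)] at h5
    refine h5.trans ?_
    calc 2 * L * (N / L ^ (A + 2)) = N / L ^ A * (2 / L) := by
          rw [pow_add]
          field_simp
      _ ≤ N / L ^ A * 1 := by
          apply mul_le_mul_of_nonneg_left _ (by positivity)
          rw [div_le_one hL0]
          linarith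
      _ = _ := mul_one _
  have h4 : (({n ∈ Icc 1 N | 2 ∣ n ∧ n ≡ a [MOD q] ∧ ¬ GoodP N c A n}.card : ℕ) : ℝ) ≤
      (({n ∈ Icc 1 N | 2 ∣ n ∧ n ≡ a [MOD q] ∧ ¬ GoodP N (fun m => (2 * L)⁻¹ * c m) (A + 2) n}.card : ℕ) : ℝ) := by
    have : {n ∈ Icc 1 N | 2 ∣ n ∧ n ≡ a [MOD q] ∧ ¬ GoodP N c A n} ⊆
        {n ∈ Icc 1 N | 2 ∣ n ∧ n ≡ a [MOD q] ∧ ¬ GoodP N (fun m => (2 * L)⁻¹ * c m) (A + 2) n} := by
      intro n hn
      rw [mem_filter] at hn ⊢
      refine ⟨hn.1, hn.2.1, hn.2.2.1, fun hg => hn.2.2.2 fun y hy => ?_⟩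
      obtain ⟨h5, h6⟩ := hg y hy
      rw [RP_smul, Vd_smul, ← hLd] at h5
      rw [RM_smul, Vd_smul, ← hLd] at h6
      rw [← hLd]
      exact ⟨gen _ _ _ _ h5, gen _ _ _ _ h6⟩
    exact_mod_cast card_le_card this
  refine h4.trans (h3.trans ?_)
  rw [← hLd]
  apply div_le_div_of_nonneg_left hN0.le (by positivity)
  apply mul_le_mul_of_nonneg_left _ hq0.le
  exact pow_le_pow_right₀ hL1 (by omega)

open Classical in
/-- from the weighted sum to the number of the representations, for a general correspondence -/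
lemma gen_chen {N : ℕ} {κ σ : ℝ} (S : Finset ℕ) (φ : ℕ → ℕ) (hN1 : 1 ≤ N) (hS : ∀ b ∈ S, b ∈ Icc 1 N)
    (hφ : ∀ b ∈ S, φ b ∈ Icc 1 N) (hinj : Set.InjOn φ S) (hL : 1 ≤ Real.log N) (Cn : ℕ)
    (hcount : ((S.sigma fun b => (φ b).divisors).filter (fun x : (_ : ℕ) × ℕ =>
        x.1.Prime ∧ (φ x.1 / x.2).Prime ∧ x.2.Prime ∧ (x.2 : ℝ) ≤ (N : ℝ) ^ σ)).card ≤ Cn) :
    ∑ b ∈ S, la b * GA (pc N κ σ) (φ b) ≤ Real.log N ^ 2 * Cn +
      3 * Real.log N ^ 2 * (2 * √(N : ℝ) * ((N : ℝ) ^ σ + 1)) := by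
  obtain ⟨c, hc⟩ : ∃ c, c = pc N κ σ := ⟨_, rfl⟩
  have hL0 : 0 ≤ Real.log N := by linarith
  have hc0 : ∀ m, 0 ≤ c m := by
    intro m
    rw [hc]
    exact pc_nn _ _ _ _
  have hc1 : ∀ m, c m ≤ 1 := by
    intro m
    rw [hc]
    exact (abs_le.1 ((pc_co N κ σ).le1 m)).2
  have hcs : ∀ d, c d ≠ 0 → d.Prime ∧ (N : ℝ) ^ κ < d ∧ (d : ℝ) ≤ (N : ℝ) ^ σ := by
    intro d h0
    by_contra hcon
    apply h0
    rw [hc]
    unfold pc
    rw [if_neg hcon]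
  have hpp : ∑ b ∈ Icc 1 N, pwr b ≤ 2 * √(N : ℝ) * Real.log N := sum_pp N hN1
  have hlog : ∀ b : ℕ, 1 ≤ b → b ≤ N → Real.log b ≤ Real.log N := fun b h1 h2 =>
    Real.log_le_log (by exact_mod_cast h1) (by exact_mod_cast h2)
  rw [← hc]
  -- pointwise
  have hpt : ∀ b ∈ S, la b * GA c (φ b) ≤
      Real.log N ^ 2 * ∑ d ∈ (φ b).divisors, (if b.Prime ∧ (φ b / d).Prime then c d else 0) +
      (Real.log N * ∑ d ∈ (φ b).divisors, c d * pwr (φ b / d) + Real.log N * pwr b) := by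
    intro b hb
    have hb' := mem_Icc.1 (hS b hb)
    have hb1 := mem_Icc.1 (hφ b hb)
    have k1 := la_split b hb'.1 (hlog b hb'.1 hb'.2)
    have k2 : GA c (φ b) ≤ Real.log N * ∑ d ∈ (φ b).divisors, (if (φ b / d).Prime then c d else 0) +
        ∑ d ∈ (φ b).divisors, c d * pwr (φ b / d) := by
      unfold GA
      rw [mul_sum, ← sum_add_distrib]
      refine sum_le_sum fun d hd => ?_
      have hd1 := dv0 hb1.1 hd
      have hq1 : 1 ≤ φ b / d := Nat.pos_of_ne_zero hd1.2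
      have hq2 : φ b / d ≤ N := (Nat.div_le_self _ _).trans hb1.2
      have k3 := la_split (φ b / d) hq1 (hlog _ hq1 hq2)
      unfold la at k3
      have k4 := mul_le_mul_of_nonneg_left k3 (hc0 d)
      refine k4.trans (le_of_eq ?_)
      split_ifs <;> ring
    have k5 : GA c (φ b) ≤ Real.log N := by
      refine (le_abs_self _).trans ((GA_abs (fun m => ?_) _).trans (hlog _ hb1.1 hb1.2))
      rw [abs_of_nonneg (hc0 m)]
      exact hc1 m
    have k6 : 0 ≤ GA c (φ b) := by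
      unfold GA
      exact sum_nonneg fun d _ => mul_nonneg (hc0 d) ArithmeticFunction.vonMangoldt_nonneg
    have k7 : 0 ≤ pwr b := pp_nonneg b
    have k8 : 0 ≤ ∑ d ∈ (φ b).divisors, c d * pwr (φ b / d) :=
      sum_nonneg fun d _ => mul_nonneg (hc0 d) (pp_nonneg _)
    calc la b * GA c (φ b) ≤ (Real.log N * (if b.Prime then 1 else 0) + pwr b) * GA c (φ b) :=
          mul_le_mul_of_nonneg_right k1 k6
      _ = Real.log N * (if b.Prime then 1 else 0) * GA c (φ b) + pwr b * GA c (φ b) := by ring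
      _ ≤ Real.log N * (if b.Prime then 1 else 0) *
          (Real.log N * ∑ d ∈ (φ b).divisors, (if (φ b / d).Prime then c d else 0) +
          ∑ d ∈ (φ b).divisors, c d * pwr (φ b / d)) + pwr b * Real.log N := by
          apply add_le_add
          · apply mul_le_mul_of_nonneg_left k2
            apply mul_nonneg hL0
            split_ifs <;> norm_num
          · exact mul_le_mul_of_nonneg_left k5 k7
      _ ≤ _ := by
          by_cases hbp : b.Prime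
          · simp only [hbp, if_true, true_and]
            linarith
          · simp only [hbp, if_false, false_and]
            simp only [sum_const_zero, mul_zero, zero_mul, zero_add]
            have := mul_nonneg hL0 k8
            linarith
  refine (sum_le_sum hpt).trans ?_
  rw [sum_add_distrib, sum_add_distrib, ← mul_sum, ← mul_sum, ← mul_sum]
  -- the main part
  have m1 : ∑ b ∈ S, ∑ d ∈ (φ b).divisors, (if b.Prime ∧ (φ b / d).Prime then c d else 0) ≤ (Cn : ℝ) := by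
    have e1 : ∑ b ∈ S, ∑ d ∈ (φ b).divisors, (if b.Prime ∧ (φ b / d).Prime then c d else 0) ≤
        ∑ b ∈ S, ∑ d ∈ (φ b).divisors,
          (if b.Prime ∧ (φ b / d).Prime ∧ d.Prime ∧ (d : ℝ) ≤ (N : ℝ) ^ σ then (1 : ℝ) else 0) := by
      refine sum_le_sum fun b _ => sum_le_sum fun d _ => ?_
      by_cases h : b.Prime ∧ (φ b / d).Prime
      · rw [if_pos h]
        by_cases h0 : c d = 0
        · rw [h0]
          split_ifs <;> norm_num
        · have h1 := hcs d h0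
          rw [if_pos ⟨h.1, h.2, h1.1, h1.2.2⟩]
          exact hc1 d
      · rw [if_neg h, if_neg (fun h' => h ⟨h'.1, h'.2.1⟩)]
    refine e1.trans ?_
    rw [sum_sigma' S (fun b => (φ b).divisors), ← sum_filter, sum_const, nsmul_eq_mul, mul_one]
    exact_mod_cast hcount
  -- the second part
  have m2 : ∑ b ∈ S, ∑ d ∈ (φ b).divisors, c d * pwr (φ b / d) ≤
      (N : ℝ) ^ σ * (2 * √(N : ℝ) * Real.log N) := by
    have e0 : ∑ b ∈ S, ∑ d ∈ (φ b).divisors, c d * pwr (φ b / d) ≤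
        ∑ m ∈ Icc 1 N, ∑ d ∈ m.divisors, c d * pwr (m / d) := by
      obtain ⟨F, hF⟩ : ∃ F : ℕ → ℝ, F = fun m => ∑ d ∈ m.divisors, c d * pwr (m / d) := ⟨_, rfl⟩
      have e2 : ∑ b ∈ S, ∑ d ∈ (φ b).divisors, c d * pwr (φ b / d) = ∑ b ∈ S, F (φ b) := by rw [hF]
      have e3 : ∑ m ∈ Icc 1 N, ∑ d ∈ m.divisors, c d * pwr (m / d) = ∑ m ∈ Icc 1 N, F m := by rw [hF]
      have hF0 : ∀ m, 0 ≤ F m := fun m => by
        rw [hF]
        exact sum_nonneg fun d _ => mul_nonneg (hc0 d) (pp_nonneg _)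
      rw [e2, e3, ← sum_image (f := F) hinj]
      refine sum_le_sum_of_subset_of_nonneg (fun m hm => ?_) fun _ _ _ => hF0 _
      rw [mem_image] at hm
      obtain ⟨b, hb, rfl⟩ := hm
      exact hφ b hb
    refine e0.trans ?_
    rw [Pool.Agent.TH935.DSB.dir N (fun d m => c d * pwr m)]
    have e2 : ∀ d ∈ Icc 1 N, ∑ m ∈ Icc 1 (N / d), c d * pwr m ≤
        if (d : ℝ) ≤ (N : ℝ) ^ σ then 2 * √(N : ℝ) * Real.log N else 0 := by
      intro d hd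
      rw [mem_Icc] at hd
      rw [← mul_sum]
      have k1 : ∑ m ∈ Icc 1 (N / d), pwr m ≤ 2 * √(N : ℝ) * Real.log N := by
        refine le_trans (sum_le_sum_of_subset_of_nonneg (Icc_subset_Icc le_rfl ?_) fun _ _ _ => pp_nonneg _) hpp
        exact Nat.div_le_self _ _
      have k2 : 0 ≤ ∑ m ∈ Icc 1 (N / d), pwr m := sum_nonneg fun _ _ => pp_nonneg _
      by_cases h0 : c d = 0
      · rw [h0, zero_mul]
        split_ifs
        · positivity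
        · exact le_rfl
      · have h1 := hcs d h0
        rw [if_pos h1.2.2]
        calc c d * _ ≤ 1 * ∑ m ∈ Icc 1 (N / d), pwr m := mul_le_mul_of_nonneg_right (hc1 d) k2
          _ ≤ _ := by rw [one_mul]; exact k1
    refine (sum_le_sum e2).trans ?_
    rw [← sum_filter, sum_const, nsmul_eq_mul]
    apply mul_le_mul_of_nonneg_right _ (by positivity)
    have h4 : ((Icc 1 N).filter (fun d : ℕ => (d : ℝ) ≤ (N : ℝ) ^ σ)).card ≤ ⌊(N : ℝ) ^ σ⌋₊ := by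
      calc _ ≤ (Icc 1 ⌊(N : ℝ) ^ σ⌋₊).card := by
            apply card_le_card
            intro d hd
            rw [mem_filter, mem_Icc] at hd
            rw [mem_Icc]
            exact ⟨hd.1.1, Nat.le_floor hd.2⟩
        _ = _ := by rw [Nat.card_Icc, Nat.add_sub_cancel]
    have h5 : ((⌊(N : ℝ) ^ σ⌋₊ : ℕ) : ℝ) ≤ (N : ℝ) ^ σ := Nat.floor_le (by positivity)
    have h6 : (((Icc 1 N).filter (fun d : ℕ => (d : ℝ) ≤ (N : ℝ) ^ σ)).card : ℝ) ≤
        ((⌊(N : ℝ) ^ σ⌋₊ : ℕ) : ℝ) := by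
      exact_mod_cast h4
    exact h6.trans h5
  have m3 : ∑ b ∈ S, pwr b ≤ 2 * √(N : ℝ) * Real.log N :=
    le_trans (sum_le_sum_of_subset_of_nonneg (fun b hb => hS b hb) fun _ _ _ => pp_nonneg _) hpp
  have m1' := mul_le_mul_of_nonneg_left m1 (by positivity : 0 ≤ Real.log N ^ 2)
  have m2' := mul_le_mul_of_nonneg_left m2 hL0
  have m3' := mul_le_mul_of_nonneg_left m3 hL0
  have hs0 : 0 ≤ √(N : ℝ) := Real.sqrt_nonneg _
  have hNσ : 0 ≤ (N : ℝ) ^ σ := by positivity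
  have m6 : 0 ≤ Real.log N ^ 2 * (2 * √(N : ℝ) * ((N : ℝ) ^ σ + 1)) := by positivity
  have m7 : Real.log N * ((N : ℝ) ^ σ * (2 * √(N : ℝ) * Real.log N)) + Real.log N * (2 * √(N : ℝ) * Real.log N) =
    Real.log N ^ 2 * (2 * √(N : ℝ) * ((N : ℝ) ^ σ + 1)) := by ring
  linarith

/-- the pairs `(p₁, p₂)` of primes such that `p₁ ≤ N ^ ρ`, `h < p₁ p₂ ≤ N` and `p₁ p₂ - h` is a prime -/
noncomputable def tpPairs (ρ : ℝ) (N h : ℕ) : Finset (ℕ × ℕ) := by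
  classical
  exact (Icc 1 N ×ˢ Icc 1 N).filter fun x =>
    x.1.Prime ∧ x.2.Prime ∧ (x.1 : ℝ) ≤ (N : ℝ) ^ ρ ∧ h < x.1 * x.2 ∧ x.1 * x.2 ≤ N ∧ (x.1 * x.2 - h).Prime

/-- the pairs `(p₁, p₂)` of primes such that `p₁ ≤ N ^ ρ`, `p₁ p₂ + h ≤ N` and `p₁ p₂ + h` is a prime -/
noncomputable def tmPairs (ρ : ℝ) (N h : ℕ) : Finset (ℕ × ℕ) := by
  classical
  exact (Icc 1 N ×ˢ Icc 1 N).filter fun x =>
    x.1.Prime ∧ x.2.Prime ∧ (x.1 : ℝ) ≤ (N : ℝ) ^ ρ ∧ x.1 * x.2 + h ≤ N ∧ (x.1 * x.2 + h).Prime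

lemma mem_tp {ρ : ℝ} {N h : ℕ} {x : ℕ × ℕ} : x ∈ tpPairs ρ N h ↔ x.1.Prime ∧ x.2.Prime ∧
    (x.1 : ℝ) ≤ (N : ℝ) ^ ρ ∧ h < x.1 * x.2 ∧ x.1 * x.2 ≤ N ∧ (x.1 * x.2 - h).Prime := by
  unfold tpPairs
  rw [mem_filter, mem_product, mem_Icc, mem_Icc]
  constructor
  · exact fun h => h.2
  · intro hh
    refine ⟨?_, hh⟩
    obtain ⟨h1, h2, h3, h4, h5, h6⟩ := hh
    have k1 := h1.two_le
    have k2 := h2.two_le
    constructor
    · constructor
      · omega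
      · nlinarith
    · constructor
      · omega
      · nlinarith

lemma mem_tm {ρ : ℝ} {N h : ℕ} {x : ℕ × ℕ} : x ∈ tmPairs ρ N h ↔ x.1.Prime ∧ x.2.Prime ∧
    (x.1 : ℝ) ≤ (N : ℝ) ^ ρ ∧ x.1 * x.2 + h ≤ N ∧ (x.1 * x.2 + h).Prime := by
  unfold tmPairs
  rw [mem_filter, mem_product, mem_Icc, mem_Icc]
  constructor
  · exact fun h => h.2
  · intro hh
    refine ⟨?_, hh⟩
    obtain ⟨h1, h2, h3, h4, h5⟩ := hh
    have k1 := h1.two_le
    have k2 := h2.two_le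
    constructor
    · constructor
      · omega
      · nlinarith
    · constructor
      · omega
      · nlinarith

lemma RP_chen {N h : ℕ} {κ σ ρ : ℝ} (hh : h ≤ N) (hN1 : 1 ≤ N) (hσ : (N : ℝ) ^ σ ≤ (N : ℝ) ^ ρ)
    (hL : 1 ≤ Real.log N) :
    RP (pc N κ σ) h (N - h) ≤ Real.log N ^ 2 * (tpPairs ρ N h).card +
      3 * Real.log N ^ 2 * (2 * √(N : ℝ) * ((N : ℝ) ^ σ + 1)) := by
  classical
  unfold RP
  refine gen_chen (Icc 1 (N - h)) (fun b => b + h) hN1 (fun b hb => ?_) (fun b hb => ?_) ?_ hL _ ?_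
  · rw [mem_Icc] at hb ⊢
    omega
  · rw [mem_Icc] at hb ⊢
    omega
  · intro b _ b' _ e
    simp only at e
    omega
  · apply card_le_card_of_injOn (fun x => (x.2, (x.1 + h) / x.2))
    · rintro ⟨b, d⟩ hx
      rw [mem_coe, mem_filter, mem_sigma, mem_Icc] at hx
      obtain ⟨⟨⟨h1, h2⟩, h3⟩, h4, h5, h6, h7⟩ := hx
      simp only at h1 h2 h3 h4 h5 h6 h7
      have hdv : d * ((b + h) / d) = b + h := Nat.mul_div_cancel' (Nat.dvd_of_mem_divisors h3)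
      rw [mem_coe, mem_tp]
      simp only
      rw [hdv]
      refine ⟨h6, h5, h7.trans hσ, by omega, by omega, ?_⟩
      rw [Nat.add_sub_cancel]
      exact h4
    · rintro ⟨b, d⟩ hx ⟨b', d'⟩ hx' e
      rw [mem_coe, mem_filter, mem_sigma, mem_Icc] at hx hx'
      obtain ⟨⟨⟨h1, h2⟩, h3⟩, -⟩ := hx
      obtain ⟨⟨⟨h1', h2'⟩, h3'⟩, -⟩ := hx'
      simp only at h1 h2 h3 h1' h2' h3'
      simp only [Prod.mk.injEq] at e
      obtain ⟨g1, g2⟩ := e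
      have e2 : d * ((b + h) / d) = b + h := Nat.mul_div_cancel' (Nat.dvd_of_mem_divisors h3)
      have e3 : d' * ((b' + h) / d') = b' + h := Nat.mul_div_cancel' (Nat.dvd_of_mem_divisors h3')
      rw [g2, g1] at e2
      have e4 : b = b' := by omega
      subst e4
      subst g1
      rfl

lemma RM_chen {N h : ℕ} {κ σ ρ : ℝ} (hh : h ≤ N) (hN1 : 1 ≤ N) (hσ : (N : ℝ) ^ σ ≤ (N : ℝ) ^ ρ)
    (hL : 1 ≤ Real.log N) :
    RM (pc N κ σ) h (N - h) ≤ Real.log N ^ 2 * (tmPairs ρ N h).card +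
      3 * Real.log N ^ 2 * (2 * √(N : ℝ) * ((N : ℝ) ^ σ + 1)) := by
  classical
  have e0 : RM (pc N κ σ) h (N - h) = ∑ b ∈ Ioc h N, la b * GA (pc N κ σ) (b - h) := by
    unfold RM
    apply sum_nbij' (fun b => b + h) (fun b => b - h)
    · intro b hb
      rw [mem_Icc] at hb
      rw [mem_Ioc]
      omega
    · intro b hb
      rw [mem_Ioc] at hb
      rw [mem_Icc]
      omega
    · intro b hb
      omega
    · intro b hb
      rw [mem_Ioc] at hb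
      omega
    · intro b _
      rw [Nat.add_sub_cancel]
  rw [e0]
  refine gen_chen (Ioc h N) (fun b => b - h) hN1 (fun b hb => ?_) (fun b hb => ?_) ?_ hL _ ?_
  · rw [mem_Ioc] at hb
    rw [mem_Icc]
    omega
  · rw [mem_Ioc] at hb
    rw [mem_Icc]
    omega
  · intro b hb b' hb' e
    rw [mem_coe, mem_Ioc] at hb hb'
    simp only at e
    omega
  · apply card_le_card_of_injOn (fun x => (x.2, (x.1 - h) / x.2))
    · rintro ⟨b, d⟩ hx
      rw [mem_coe, mem_filter, mem_sigma, mem_Ioc] at hx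
      obtain ⟨⟨⟨h1, h2⟩, h3⟩, h4, h5, h6, h7⟩ := hx
      simp only at h1 h2 h3 h4 h5 h6 h7
      have hdv : d * ((b - h) / d) = b - h := Nat.mul_div_cancel' (Nat.dvd_of_mem_divisors h3)
      rw [mem_coe, mem_tm]
      simp only
      rw [hdv]
      refine ⟨h6, h5, h7.trans hσ, by omega, ?_⟩
      rw [Nat.sub_add_cancel h1.le]
      exact h4
    · rintro ⟨b, d⟩ hx ⟨b', d'⟩ hx' e
      rw [mem_coe, mem_filter, mem_sigma, mem_Ioc] at hx hx'
      obtain ⟨⟨⟨h1, h2⟩, h3⟩, -⟩ := hx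
      obtain ⟨⟨⟨h1', h2'⟩, h3'⟩, -⟩ := hx'
      simp only at h1 h2 h3 h1' h2' h3'
      simp only [Prod.mk.injEq] at e
      obtain ⟨g1, g2⟩ := e
      have e2 : d * ((b - h) / d) = b - h := Nat.mul_div_cancel' (Nat.dvd_of_mem_divisors h3)
      have e3 : d' * ((b' - h) / d') = b' - h := Nat.mul_div_cancel' (Nat.dvd_of_mem_divisors h3')
      rw [g2, g1] at e2
      have e4 : b = b' := by omega
      subst e4
      subst g1
      rfl

open Classical in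
/-- almost all even integers in every class are the difference of a product of two primes and a prime in many ways -/
theorem chenMainP {ρ : ℝ} (hρ : 0 < ρ) (M A T : ℕ) :
    ∃ N₀ : ℕ, ∀ N : ℕ, N₀ ≤ N → ∀ q : ℕ, 1 ≤ q →
      (q : ℝ) ≤ (N : ℝ) ^ (1 - ρ) → ∀ a : ℕ, (Nat.gcd a q : ℝ) ≤ Real.log N ^ T →
        (({h ∈ Icc 1 N | 2 * h ≤ N ∧ 2 ∣ h ∧ h ≡ a [MOD q] ∧
          ¬ ((M : ℝ) * (sing h * (N / Real.log N ^ 2)) ≤ (tpPairs ρ N h).card ∧
            (M : ℝ) * (sing h * (N / Real.log N ^ 2)) ≤ (tmPairs ρ N h).card)}.card : ℕ) : ℝ) ≤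
          (N : ℝ) / (q * Real.log N ^ A) := by
  obtain ⟨σ, hσd⟩ : ∃ σ : ℝ, σ = min ρ (1 / 2) / 2 := ⟨_, rfl⟩
  have hmin : 0 < min ρ (1 / 2) := lt_min hρ (by norm_num)
  have hσ0 : 0 < σ := by rw [hσd]; linarith
  have hσρ : 2 * σ ≤ ρ := by rw [hσd]; linarith [min_le_left ρ (1 / 2)]
  have hσ4 : σ ≤ 1 / 4 := by rw [hσd]; linarith [min_le_right ρ (1 / 2)]
  obtain ⟨κ, hκd⟩ : ∃ κ : ℝ, κ = σ * Real.exp (-((2 * (M : ℝ) + 2) + 1)) := ⟨_, rfl⟩
  have hκ0 : 0 < κ := by rw [hκd]; positivity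
  have hM0 : (0 : ℝ) ≤ M := Nat.cast_nonneg _
  have hκσ : κ < σ := by
    rw [hκd]
    have : Real.exp (-((2 * (M : ℝ) + 2) + 1)) < 1 := by
      rw [Real.exp_lt_one_iff]
      linarith
    nlinarith
  have hlogκ : (2 * (M : ℝ) + 2) + 1 ≤ Real.log (σ / κ) := by
    have e : σ / κ = Real.exp ((2 * (M : ℝ) + 2) + 1) := by
      rw [hκd, Real.exp_neg]
      field_simp
    rw [e, Real.log_exp]
  obtain ⟨N₁, h1⟩ := mert_low hκ0 hσ0 hlogκ hκσ (by linarith)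
  obtain ⟨N₂, h2⟩ := mainCP hκ0 hσ0 (ρ := ρ) (by linarith) (by linarith) (A + 1) T
  obtain ⟨N₃, h3⟩ := Pool.Agent.R462.GS.evL 1000
  obtain ⟨N₄, h4⟩ := Pool.Agent.R462.GS.evlog (A + 6) 1000 (1 / 8) (by norm_num)
  refine ⟨N₁ + N₂ + N₃ + N₄ + 3, fun N hN q hq1 hqN a ha => ?_⟩
  have hV := h1 N (by omega)
  have hmain := h2 N (by omega) (pc N κ σ) (pc_co N κ σ) q hq1 hqN a ha
  have hL := h3 N (by omega)
  have hp1 := h4 N (by omega)
  have hN1 : 1 ≤ N := by omega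
  have hN0 : (0 : ℝ) < N := by exact_mod_cast hN1
  have hN1r : (1 : ℝ) ≤ N := by exact_mod_cast hN1
  have hq0 : (0 : ℝ) < q := by exact_mod_cast hq1
  have hσN : (N : ℝ) ^ σ ≤ (N : ℝ) ^ ρ := Real.rpow_le_rpow_of_exponent_le hN1r (by linarith)
  have hRP := fun (h : ℕ) (hh : h ≤ N) => RP_chen (κ := κ) hh hN1 hσN (by linarith)
  have hRM := fun (h : ℕ) (hh : h ≤ N) => RM_chen (κ := κ) hh hN1 hσN (by linarith)
  obtain ⟨G, hG⟩ : ∃ G : ℕ → Prop, G = GoodP N (pc N κ σ) (A + 1) := ⟨_, rfl⟩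
  have hGd : ∀ h, G h → ∀ y : ℕ, y + h ≤ N →
      |RP (pc N κ σ) h y - sing h * Vd N (pc N κ σ) * y| ≤ N / Real.log N ^ (A + 1) ∧
      |RM (pc N κ σ) h y - sing h * Vd N (pc N κ σ) * y| ≤ N / Real.log N ^ (A + 1) := by
    intro h hh
    rw [hG] at hh
    exact hh
  rw [← hG] at hmain
  obtain ⟨L, hLd⟩ : ∃ L, L = Real.log (N : ℝ) := ⟨_, rfl⟩
  rw [← hLd] at hmain hL hp1 hRP hRM hGd ⊢
  have hL0 : 0 < L := by linarith
  have hL1 : 1 ≤ L := by linarith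
  have s1 : (N : ℝ) / L ^ (A + 1) ≤ N / 1000 := by
    apply div_le_div_of_nonneg_left hN0.le (by norm_num)
    calc (1000 : ℝ) ≤ L ^ 1 := by rw [pow_one]; exact hL
      _ ≤ L ^ (A + 1) := pow_le_pow_right₀ hL1 (by omega)
  have s2 : 3 * L ^ 2 * (2 * √(N : ℝ) * ((N : ℝ) ^ σ + 1)) ≤ N / 50 := by
    have k1 : (1 : ℝ) ≤ (N : ℝ) ^ σ := Real.one_le_rpow hN1r hσ0.le
    have k2 : (N : ℝ) ^ σ ≤ (N : ℝ) ^ (1 / 4 : ℝ) := Real.rpow_le_rpow_of_exponent_le hN1r hσ4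
    have k3 : L ^ 2 * 1000 ≤ (N : ℝ) ^ (1 / 8 : ℝ) := by
      calc L ^ 2 * 1000 ≤ L ^ (A + 6) * 1000 := by
            have : L ^ 2 ≤ L ^ (A + 6) := pow_le_pow_right₀ hL1 (by omega)
            linarith
        _ = 1000 * L ^ (A + 6) := by ring
        _ ≤ _ := hp1
    rw [Real.sqrt_eq_rpow]
    calc 3 * L ^ 2 * (2 * (N : ℝ) ^ (1 / 2 : ℝ) * ((N : ℝ) ^ σ + 1)) ≤
          3 * L ^ 2 * (2 * (N : ℝ) ^ (1 / 2 : ℝ) * (2 * (N : ℝ) ^ (1 / 4 : ℝ))) := by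
          have : (N : ℝ) ^ σ + 1 ≤ 2 * (N : ℝ) ^ (1 / 4 : ℝ) := by linarith
          gcongr
      _ = (L ^ 2 * 1000) * ((N : ℝ) ^ (1 / 2 : ℝ) * (N : ℝ) ^ (1 / 4 : ℝ)) * (12 / 1000) := by ring
      _ ≤ (N : ℝ) ^ (1 / 8 : ℝ) * ((N : ℝ) ^ (1 / 2 : ℝ) * (N : ℝ) ^ (1 / 4 : ℝ)) * (12 / 1000) := by gcongr
      _ = (N : ℝ) ^ (7 / 8 : ℝ) * (12 / 1000) := by
          rw [← Real.rpow_add hN0, ← Real.rpow_add hN0]
          norm_num
      _ ≤ N * (12 / 1000) := by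
          have : (N : ℝ) ^ (7 / 8 : ℝ) ≤ (N : ℝ) ^ (1 : ℝ) :=
            Real.rpow_le_rpow_of_exponent_le hN1r (by norm_num)
          rw [Real.rpow_one] at this
          gcongr
      _ ≤ N / 50 := by linarith
  have hgood : ∀ h : ℕ, 2 * h ≤ N → G h → (M : ℝ) * (sing h * (N / L ^ 2)) ≤ (tpPairs ρ N h).card ∧
      (M : ℝ) * (sing h * (N / L ^ 2)) ≤ (tmPairs ρ N h).card := by
    intro h hh hGh
    have hhN : h ≤ N := by omega
    obtain ⟨g1, g2⟩ := hGd h hGh (N - h) (by omega)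
    have r1 := hRP h hhN
    have r2 := hRM h hhN
    have hS := one_le_sing h
    obtain ⟨S, hSd⟩ : ∃ S, S = sing h := ⟨_, rfl⟩
    rw [← hSd] at hS g1 g2 ⊢
    have hcast : (((N - h : ℕ)) : ℝ) = (N : ℝ) - h := by
      rw [Nat.cast_sub hhN]
    rw [hcast] at g1 g2
    have hhr : 2 * (h : ℝ) ≤ N := by exact_mod_cast hh
    have s4 : ((M : ℝ) + 1) * (S * N) ≤ S * Vd N (pc N κ σ) * ((N : ℝ) - h) := by
      have k0 : (N : ℝ) / 2 ≤ (N : ℝ) - h := by linarith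
      have k1 : 0 ≤ S * ((N : ℝ) - h) := by
        have h7 : 0 ≤ (N : ℝ) - h := by linarith
        have h8 : 0 ≤ S := by linarith
        positivity
      have k2 := mul_le_mul_of_nonneg_right hV k1
      have k3 : S * (N / 2) ≤ S * ((N : ℝ) - h) := mul_le_mul_of_nonneg_left k0 (by linarith)
      have k4 : (2 * (M : ℝ) + 2) * (S * (N / 2)) ≤ (2 * (M : ℝ) + 2) * (S * ((N : ℝ) - h)) :=
        mul_le_mul_of_nonneg_left k3 (by linarith)
      linarith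
    have hSN : (N : ℝ) ≤ S * N := by nlinarith
    have fin : ∀ (X : ℝ) (C : ℕ), |X - S * Vd N (pc N κ σ) * ((N : ℝ) - h)| ≤ N / L ^ (A + 1) →
        X ≤ L ^ 2 * C + 3 * L ^ 2 * (2 * √(N : ℝ) * ((N : ℝ) ^ σ + 1)) →
        (M : ℝ) * (S * (N / L ^ 2)) ≤ C := by
      intro X C hX1 hX2
      have k1 := (abs_le.1 hX1).1
      have h9 : 0 < L ^ 2 := by positivity
      have h10 : (M : ℝ) * (S * (N / L ^ 2)) = (M * (S * N)) / L ^ 2 := by ring
      rw [h10, div_le_iff₀ h9]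
      linarith
    exact ⟨fin _ _ g1 r1, fin _ _ g2 r2⟩
  have hsub : {h ∈ Icc 1 N | 2 * h ≤ N ∧ 2 ∣ h ∧ h ≡ a [MOD q] ∧
          ¬ ((M : ℝ) * (sing h * (N / L ^ 2)) ≤ (tpPairs ρ N h).card ∧
            (M : ℝ) * (sing h * (N / L ^ 2)) ≤ (tmPairs ρ N h).card)} ⊆
      {h ∈ Icc 1 N | 2 ∣ h ∧ h ≡ a [MOD q] ∧ ¬ G h} := by
    intro h hh
    rw [mem_filter] at hh ⊢
    obtain ⟨b1, b2, b3, b4, b5⟩ := hh
    exact ⟨b1, b3, b4, fun hGh => b5 (hgood h b2 hGh)⟩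
  have hcard : (({h ∈ Icc 1 N | 2 * h ≤ N ∧ 2 ∣ h ∧ h ≡ a [MOD q] ∧
          ¬ ((M : ℝ) * (sing h * (N / L ^ 2)) ≤ (tpPairs ρ N h).card ∧
            (M : ℝ) * (sing h * (N / L ^ 2)) ≤ (tmPairs ρ N h).card)}.card : ℕ) : ℝ) ≤
      (({h ∈ Icc 1 N | 2 ∣ h ∧ h ≡ a [MOD q] ∧ ¬ G h}.card : ℕ) : ℝ) := by
    exact_mod_cast card_le_card hsub
  refine hcard.trans (hmain.trans ?_)
  apply div_le_div_of_nonneg_left hN0.le (by positivity)
  apply mul_le_mul_of_nonneg_left _ hq0.le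
  exact pow_le_pow_right₀ hL1 (by omega)

end Pool.Agent.J4H40
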