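import Pool.Agent.R460.GR.D6
import Pool.Agent.J4H40.Yc

set_option autoImplicit false

/-! The exceptional conductors of a function, and the regular moduli (from `R460/GR/D6`). -/

namespace Pool.Agent.J4H40

open Finset
open Pool.Agent.Y883.GJ
open Pool.Agent.R460.GS
open Pool.Agent.R460.GR (RegAt cs_zero)
open Pool.Agent.H807R2.Dav (ee)
open Pool.Agent.Y614.GJ.Core (ev_log)

/-- the primitive character `ψ` is bad -/
def BadG (N U : ℕ) (θ : ℝ) (G : ℕ → ℂ) (d : ℕ) (ψ : DirichletCharacter ℂ d) : Prop :=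
  1 < d ∧ (d : ℝ) ≤ (N : ℝ) ^ θ ∧ ψ.IsPrimitive ∧
    ∃ y : ℕ, y ≤ N ∧ N / Real.log N ^ U < ‖∑ n ∈ Icc 1 y, G n * ψ (n : ZMod d)‖

open Classical in
/-- the bad conductors larger than `(log N) ^ K` -/
noncomputable def E1 (N U K : ℕ) (θ : ℝ) (G : ℕ → ℂ) : Finset ℕ :=
  (Icc 1 N).filter (fun d => Real.log N ^ K < (d : ℝ) ∧ ∃ ψ : DirichletCharacter ℂ d, BadG N U θ G d ψ)

open Classical in
/-- the exceptional integers -/
noncomputable def E2 (N U K C : ℕ) (θ : ℝ) (G : ℕ → ℂ) : Finset ℕ :=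
  (E1 N U K θ G ×ˢ range ⌊Real.log N ^ C⌋₊).image (fun p => p.1 / Nat.gcd p.1 (p.2 + 1))

lemma E1_card {N U C₄ : ℕ} {θ : ℝ} {G : ℕ → ℂ} (K : ℕ) (h : ∀ Ψ : Finset (Σ f : ℕ, DirichletCharacter ℂ f),
    (∀ ψ ∈ Ψ, BadG N U θ G ψ.1 ψ.2) → (Ψ.card : ℝ) ≤ Real.log N ^ C₄) :
    ((E1 N U K θ G).card : ℝ) ≤ Real.log N ^ C₄ := by
  classical
  have hch : ∀ d : ℕ, ∃ ψ : DirichletCharacter ℂ d, d ∈ E1 N U K θ G → BadG N U θ G d ψ := by
    intro d
    by_cases hd : d ∈ E1 N U K θ G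
    · unfold E1 at hd
      rw [mem_filter] at hd
      obtain ⟨ψ, hψ⟩ := hd.2.2
      exact ⟨ψ, fun _ => hψ⟩
    · exact ⟨1, fun h => absurd h hd⟩
  choose f hf using hch
  have h1 := h ((E1 N U K θ G).image (fun d => (⟨d, f d⟩ : Σ f : ℕ, DirichletCharacter ℂ f))) (by
    intro ψ hψ
    rw [mem_image] at hψ
    obtain ⟨d, hd, rfl⟩ := hψ
    exact hf d hd)
  rw [card_image_of_injOn (fun d _ d' _ h => congrArg Sigma.fst h)] at h1
  exact h1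

lemma E2_card {N U K C C₄ : ℕ} {θ : ℝ} {G : ℕ → ℂ} (hL : 1 ≤ Real.log N) (h : ((E1 N U K θ G).card : ℝ) ≤ Real.log N ^ C₄) :
    ((E2 N U K C θ G).card : ℝ) ≤ Real.log N ^ (C₄ + C) := by
  classical
  have h1 : (E2 N U K C θ G).card ≤ (E1 N U K θ G).card * ⌊Real.log N ^ C⌋₊ := by
    unfold E2
    refine card_image_le.trans ?_
    rw [card_product, card_range]
  have h2 : ((E2 N U K C θ G).card : ℝ) ≤ ((E1 N U K θ G).card : ℝ) * (⌊Real.log N ^ C⌋₊ : ℕ) := by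
    exact_mod_cast h1
  refine h2.trans ?_
  rw [pow_add]
  exact mul_le_mul h (Nat.floor_le (by positivity)) (Nat.cast_nonneg _) (by positivity)

lemma E2_large {N U K C A₀ : ℕ} {θ : ℝ} {G : ℕ → ℂ} (hL : 1 ≤ Real.log N) (hK : K = A₀ + C) {d : ℕ} (hd : d ∈ E2 N U K C θ G) :
    Real.log N ^ A₀ < (d : ℝ) := by
  classical
  unfold E2 at hd
  rw [mem_image] at hd
  obtain ⟨⟨e, j⟩, he, rfl⟩ := hd
  rw [mem_product, mem_range] at he
  obtain ⟨he, hj⟩ := he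
  simp only at he hj ⊢
  unfold E1 at he
  rw [mem_filter, mem_Icc] at he
  obtain ⟨⟨he1, -⟩, he2, -⟩ := he
  obtain ⟨g, hg⟩ : ∃ g, g = Nat.gcd e (j + 1) := ⟨_, rfl⟩
  rw [← hg]
  have hge : g ∣ e := by rw [hg]; exact Nat.gcd_dvd_left _ _
  have hgj : g ≤ j + 1 := by rw [hg]; exact Nat.gcd_le_right _ (Nat.succ_pos j)
  have hg0 : 0 < g := Nat.pos_of_dvd_of_pos hge he1
  have hgr : (g : ℝ) ≤ Real.log N ^ C := by
    have h1 : j + 1 ≤ ⌊Real.log N ^ C⌋₊ := hj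
    have h2 : ((j + 1 : ℕ) : ℝ) ≤ Real.log N ^ C := by
      refine le_trans ?_ (Nat.floor_le (show 0 ≤ Real.log N ^ C by positivity))
      exact_mod_cast h1
    exact le_trans (by exact_mod_cast hgj) h2
  have he3 : ((e / g : ℕ) : ℝ) * g = e := by
    exact_mod_cast Nat.div_mul_cancel hge
  have hgp : (0 : ℝ) < g := by exact_mod_cast hg0
  have hLA : 0 < Real.log N ^ A₀ := by positivity
  rw [hK, pow_add] at he2
  by_contra hcon
  rw [not_lt] at hcon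
  have : ((e / g : ℕ) : ℝ) * g ≤ Real.log N ^ A₀ * Real.log N ^ C := by
    apply mul_le_mul hcon hgr hgp.le hLA.le
  linarith

/-- moduli which are not divisible by an exceptional integer -/
lemma E2_reg {N U K C q j d : ℕ} {θ : ℝ} {G : ℕ → ℂ} (hq : ∀ d ∈ E2 N U K C θ G, ¬ d ∣ q)
    (hj : ((j + 1 : ℕ) : ℝ) ≤ Real.log N ^ C) (hd : d ∣ (j + 1) * q) : d ∉ E1 N U K θ G := by
  classical
  intro h
  apply hq (d / Nat.gcd d (j + 1))
  · unfold E2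
    rw [mem_image]
    refine ⟨(d, j), ?_, rfl⟩
    rw [mem_product, mem_range]
    refine ⟨h, ?_⟩
    have : j + 1 ≤ ⌊Real.log N ^ C⌋₊ := Nat.le_floor hj
    simp only
    omega
  · have h2 : d / Nat.gcd d (j + 1) ∣ (j + 1) / Nat.gcd d (j + 1) * q := by
      have hg : 0 < Nat.gcd d (j + 1) := Nat.gcd_pos_of_pos_right _ (Nat.succ_pos j)
      obtain ⟨x, hx⟩ := Nat.gcd_dvd_left d (j + 1)
      obtain ⟨y, hy⟩ := Nat.gcd_dvd_right d (j + 1)
      obtain ⟨g, hgd⟩ : ∃ g, g = Nat.gcd d (j + 1) := ⟨_, rfl⟩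
      rw [← hgd] at hx hy hg ⊢
      rw [hx, Nat.mul_div_cancel_left x hg]
      rw [hy, Nat.mul_div_cancel_left y hg]
      rw [hx, hy, mul_assoc] at hd
      exact Nat.dvd_of_mul_dvd_mul_left hg hd
    have h3 : Nat.Coprime (d / Nat.gcd d (j + 1)) ((j + 1) / Nat.gcd d (j + 1)) :=
      Nat.coprime_div_gcd_div_gcd (Nat.gcd_pos_of_pos_right _ (Nat.succ_pos j))
    exact h3.dvd_of_dvd_mul_left h2

/-- a character whose conductor is large and not exceptional -/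
lemma cs_smallG {N U₁ C K q : ℕ} [NeZero q] {θ : ℝ} {G H : ℕ → ℂ} (hN1 : 1 ≤ N) (hL : 16 ≤ Real.log N)
    (hqr : (q : ℝ) ≤ (N : ℝ) ^ θ) (hθ : θ ≤ 1)
    (hGnc : NcAt N (U₁ + C + 4) G)
    (hH : ∀ (q : ℕ) [NeZero q], (q : ℝ) ≤ (N : ℝ) ^ θ →
      ∀ η : ℝ, |η| ≤ Real.log N ^ C / N → ∀ y : ℕ, y ≤ N →
      ∀ S : Finset (DirichletCharacter ℂ q), 1 ∉ S →
        ∑ χ ∈ S, ‖cs q y H η χ‖ ^ 2 ≤ (N : ℝ) ^ 2 / Real.log N ^ (2 * (U₁ + C + 4)))
    (hD : ∀ d : ℕ, d ∣ q → d ∉ E1 N (U₁ + C + 4) K θ G) (χ : DirichletCharacter ℂ q)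
    (hχ : Real.log N ^ K < (χ.conductor : ℝ)) {η : ℝ} (hη : |η| ≤ Real.log N ^ C / N) {y : ℕ} (hy : y ≤ N) :
    ‖cs q y (fun n => G n - H n) η χ‖ ≤ N / Real.log N ^ U₁ := by
  classical
  obtain ⟨U, hU⟩ : ∃ U, U = U₁ + C + 4 := ⟨_, rfl⟩
  rw [← hU] at hGnc hD hH
  obtain ⟨L, hLd⟩ : ∃ L, L = Real.log (N : ℝ) := ⟨_, rfl⟩
  have hL1 : 1 ≤ L := by linarith
  have hL0 : 0 < L := by linarith
  have hN0 : (0 : ℝ) < N := by exact_mod_cast hN1
  have hN1r : (1 : ℝ) ≤ N := by exact_mod_cast hN1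
  have hqN : (q : ℝ) ≤ N := by
    calc (q : ℝ) ≤ (N : ℝ) ^ θ := hqr
      _ ≤ (N : ℝ) ^ (1 : ℝ) := Real.rpow_le_rpow_of_exponent_le hN1r (by linarith)
      _ = N := Real.rpow_one _
  have hqNn : q ≤ N := by exact_mod_cast hqN
  have hcond : χ.conductor ∣ q := DirichletCharacter.conductor_dvd_level χ
  have hcond1 : 1 < χ.conductor := by
    have : (1 : ℝ) < χ.conductor := lt_of_le_of_lt (one_le_pow₀ (by rw [← hLd]; exact hL1)) hχ
    exact_mod_cast this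
  have hcondq : χ.conductor ≤ q := Nat.le_of_dvd (NeZero.pos q) hcond
  have hχ1 : (1 : DirichletCharacter ℂ q) ∉ ({χ} : Finset (DirichletCharacter ℂ q)) := by
    rw [mem_singleton]
    intro h
    rw [← h, DirichletCharacter.conductor_one] at hcond1
    omega
  have hX : ∀ y' : ℕ, y' ≤ N → ‖∑ n ∈ Icc 1 y', (G n - H n) * χ (n : ZMod q)‖ ≤ 3 * (N / L ^ U) := by
    intro y' hy'
    have h1 := char_split hy' G χ _ (hGnc q (NeZero.pos q) hqNn)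
    have h2 : ‖∑ n ∈ Icc 1 y', G n * χ.primitiveCharacter (n : ZMod χ.conductor)‖ ≤ N / Real.log N ^ U := by
      by_contra hcon
      rw [not_le] at hcon
      apply hD χ.conductor hcond
      unfold E1
      rw [mem_filter, mem_Icc]
      refine ⟨⟨hcond1.le, hcondq.trans hqNn⟩, hχ, χ.primitiveCharacter, hcond1, ?_,
        DirichletCharacter.primitiveCharacter_isPrimitive χ, y', hy', hcon⟩
      exact le_trans (by exact_mod_cast hcondq) hqr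
    have h3 := hH q hqr 0 (by rw [abs_zero, ← hLd]; positivity) y' hy' {χ} hχ1
    rw [sum_singleton, cs_zero, ← hLd] at h3
    have h4 : ‖∑ n ∈ Icc 1 y', H n * χ (n : ZMod q)‖ ≤ N / L ^ U := by
      have h5 : (N : ℝ) ^ 2 / L ^ (2 * U) = (N / L ^ U) ^ 2 := by
        rw [div_pow, ← pow_mul, mul_comm U 2]
      rw [h5] at h3
      exact (pow_le_pow_iff_left₀ (norm_nonneg _) (by positivity) two_ne_zero).1 h3
    rw [← hLd] at h1 h2
    have h5 : ∑ n ∈ Icc 1 y', (G n - H n) * χ (n : ZMod q) =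
        ∑ n ∈ Icc 1 y', G n * χ (n : ZMod q) - ∑ n ∈ Icc 1 y', H n * χ (n : ZMod q) := by
      rw [← sum_sub_distrib]
      refine sum_congr rfl fun n _ => ?_
      ring
    rw [h5]
    refine (norm_sub_le _ _).trans ?_
    linarith
  have h6 := cs_abel hy (fun n => G n - H n) η χ _ hX
  refine h6.trans ?_
  rw [← hLd] at hη ⊢
  rw [← hLd] at hL
  have h2 : 1 + 7 * |η| * y ≤ 8 * L ^ C := by
    have h3 : |η| * y ≤ L ^ C := by
      calc |η| * y ≤ (L ^ C / N) * N := by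
            apply mul_le_mul hη (by exact_mod_cast hy) (Nat.cast_nonneg _) (by positivity)
        _ = L ^ C := by field_simp
    have h4 : 1 ≤ L ^ C := one_le_pow₀ hL1
    linarith
  calc 3 * (N / L ^ U) * (1 + 7 * |η| * y) ≤ 3 * (N / L ^ U) * (8 * L ^ C) := by gcongr
    _ = N / L ^ U₁ * (24 / L ^ 4) := by
        rw [hU, pow_add, pow_add]
        field_simp
        ring
    _ ≤ N / L ^ U₁ * 1 := by
        have : 24 / L ^ 4 ≤ 1 := by
          rw [div_le_one (by positivity)]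
          have : (16 : ℝ) ^ 4 ≤ L ^ 4 := pow_le_pow_left₀ (by norm_num) hL 4
          linarith
        gcongr
    _ = _ := mul_one _

/-- the regular moduli -/
lemma regG {N U₁ C K q : ℕ} {θ : ℝ} {G H : ℕ → ℂ} (hN1 : 1 ≤ N) (hL : 16 ≤ Real.log N)
    (hqC : (q : ℝ) * Real.log N ^ C ≤ (N : ℝ) ^ θ) (hθ : θ ≤ 1) (hq1 : 1 ≤ q)
    (hGnc : NcAt N (U₁ + C + 4) G)
    (hH : ∀ (q : ℕ) [NeZero q], (q : ℝ) ≤ (N : ℝ) ^ θ →
      ∀ η : ℝ, |η| ≤ Real.log N ^ C / N → ∀ y : ℕ, y ≤ N →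
      ∀ S : Finset (DirichletCharacter ℂ q), 1 ∉ S →
        ∑ χ ∈ S, ‖cs q y H η χ‖ ^ 2 ≤ (N : ℝ) ^ 2 / Real.log N ^ (2 * (U₁ + C + 4)))
    (hq : ∀ d ∈ E2 N (U₁ + C + 4) K C θ G, ¬ d ∣ q) : RegAt N C K U₁ (fun n => G n - H n) q := by
  intro j hj χ hχ η hη y hy
  have hq0 : NeZero ((j + 1) * q) := ⟨by positivity⟩
  have hq'r : (((j + 1) * q : ℕ) : ℝ) ≤ (N : ℝ) ^ θ := by
    rw [Nat.cast_mul]
    calc ((j + 1 : ℕ) : ℝ) * q ≤ Real.log N ^ C * q := by gcongr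
      _ = q * Real.log N ^ C := mul_comm _ _
      _ ≤ _ := hqC
  exact cs_smallG hN1 hL hq'r hθ hGnc hH (fun d hd => E2_reg hq hj hd) χ hχ hη hy

end Pool.Agent.J4H40
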