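import Pool.Agent.J4H40.Ya
import Pool.Agent.J4H40.Yb
import Pool.Agent.J4H40.Yd
import Pool.Agent.J4H40.Wc

set_option autoImplicit false

/-! Few primitive characters have a large sum with the convolution. -/

namespace Pool.Agent.J4H40

open Finset
open Pool.Agent.Y883.GJ
open Pool.Agent.R460.GS
open Pool.Agent.R460.GR (Bd cs_zero)
open Pool.Agent.H807R2.Dav (ee)
open Pool.Agent.Y614.GJ.Core (ev_log)

/-- at most `(log N) ^ C₄` bad primitive characters -/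
def CntG (N U C₄ : ℕ) (θ : ℝ) (G : ℕ → ℂ) : Prop :=
  ∀ Ψ : Finset (Σ f : ℕ, DirichletCharacter ℂ f), (∀ ψ ∈ Ψ, BadG N U θ G ψ.1 ψ.2) → (Ψ.card : ℝ) ≤ Real.log N ^ C₄

lemma one_not_mem {q : ℕ} {χ : DirichletCharacter ℂ q} (hq : 1 < q) (h : χ.IsPrimitive) :
    (1 : DirichletCharacter ℂ q) ∉ ({χ} : Finset (DirichletCharacter ℂ q)) := by
  have : NeZero q := ⟨by omega⟩
  rw [mem_singleton]
  intro h1
  rw [← h1] at h
  have h2 : (1 : DirichletCharacter ℂ q).conductor = q := h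
  rw [DirichletCharacter.conductor_one] at h2
  omega

theorem cntGC (h1 : L2Stm) {θ κ σ : ℝ} (hκ : 0 < κ) (hθσ : θ + σ ≤ 1) (hσ : σ ≤ 1 / 2) (hθ : θ ≤ 1) (U : ℕ) :
    ∃ C₄ N₀ : ℕ, ∀ N : ℕ, N₀ ≤ N → ∀ a : ℕ → ℝ, Cm N κ σ a → CntG N U C₄ θ (GC a) := by
  obtain ⟨J, hJ1, hJ⟩ : ∃ J : ℕ, 1 ≤ J ∧ 2 * θ ≤ J * κ := by
    obtain ⟨J, hJ⟩ := exists_nat_ge (2 * θ / κ)
    refine ⟨J + 1, by omega, ?_⟩
    rw [div_le_iff₀ hκ] at hJ
    push_cast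
    nlinarith
  obtain ⟨K₂, K, N₁, hB'⟩ := bilMajR h1 (2 * U) 0 hθσ hσ hθ
  obtain ⟨C₃, N₄, hcnt⟩ := countB hJ1 hJ hσ K₂ K
  obtain ⟨N₂, hN₂⟩ := Pool.Agent.R462.GS.evL 2
  refine ⟨C₃, N₁ + N₂ + N₄ + 1, fun N hN a ha Ψ hΨ => ?_⟩
  have hL := hN₂ N (by omega)
  have hN1 : 1 ≤ N := by omega
  have hN0 : (0 : ℝ) < N := by exact_mod_cast hN1
  have hNr1 : (1 : ℝ) ≤ N := by exact_mod_cast hN1
  refine hcnt N (by omega) (fun m => ((a m : ℝ) : ℂ)) (fun m hm => a_bd ha (by linarith) hm) (fun m hm => by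
      have h1 : a m ≠ 0 := fun h => hm (by rw [h, Complex.ofReal_zero])
      obtain ⟨h2, h3, -⟩ := ha.sup m h1
      have h4 : (0 : ℝ) ≤ m := Nat.cast_nonneg _
      exact ⟨by linarith, h3⟩) Ψ ?_
  rintro ⟨q, χ⟩ hψ
  obtain ⟨e1, e2, e3, y, hy, e4⟩ := hΨ ⟨q, χ⟩ hψ
  simp only at e1 e2 e3 e4 ⊢
  refine ⟨by omega, e2, e3, ?_⟩
  by_contra hcon
  have : NeZero q := ⟨by omega⟩
  have hη : |(0 : ℝ)| ≤ Real.log N ^ 0 / N := by
    rw [abs_zero]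
    positivity
  have hmain := hB' N (by omega) q e2 (fun m => ((a m : ℝ) : ℂ)) (fun m hm => a_bd ha (by linarith) hm)
    (fun m hm => by
      have h1 : a m ≠ 0 := fun h => hm (by rw [h, Complex.ofReal_zero])
      exact (ha.sup m h1).2.1) LA (fun m hm => la_bd (by linarith) hm) 0 hη y hy {χ} (by
      intro χ' hχ'
      rw [mem_singleton] at hχ'
      rw [hχ']
      exact hcon)
  rw [← cs_GC, sum_singleton, cs_zero] at hmain
  have hL0 : 0 < Real.log N := by linarith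
  have h5 : (N : ℝ) ^ 2 / Real.log N ^ (2 * U) = (N / Real.log N ^ U) ^ 2 := by
    rw [div_pow, ← pow_mul, mul_comm U 2]
  rw [h5] at hmain
  have h6 : 0 ≤ (N : ℝ) / Real.log N ^ U := by positivity
  have h7 := pow_lt_pow_left₀ e4 h6 two_ne_zero
  linarith

end Pool.Agent.J4H40
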