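import Pool.Agent.J4H40.Ye
import Pool.Agent.J4H40.Mj

set_option autoImplicit false

/-! Few primitive characters have a large sum with the sieve function with coefficients. -/

namespace Pool.Agent.J4H40

open Finset
open Pool.Agent.Y883.GJ
open Pool.Agent.R460.GS
open Pool.Agent.R460.GR (Bd cs_zero)
open Pool.Agent.H807R2.Dav (ee)
open Pool.Agent.Y614.GJ.Core (ev_log)
open Pool.Agent.R460.GH (af af_apply mu1 mu1_le Wk one_le_Wk Wk_real inv_k ex_k a1_supp' ell BilMaj3Stm ti_gen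
  tot_maj GG0)

open Classical in
theorem cntFC (h1 : L2Stm) {α : ℝ} (hα : 1 / 6 ≤ α) (hα2 : α ≤ 1 / 3) (U : ℕ) {ρ : ℝ} (hρ : 0 < ρ) :
    ∃ C₄ N₀ : ℕ, ∀ N : ℕ, N₀ ≤ N → ∀ (D : ℕ) (g : ℕ → ℂ), 1 ≤ D →
    (D : ℝ) ≤ (N : ℝ) ^ ((1 + α) / 2) → Cf (Za α N) D g →
    CntG N U C₄ (1 - α - ρ) (FC N (Za α N) g) := by
  obtain ⟨k, hk, hkρ⟩ := ex_k (ρ := ρ / 8) (by positivity)
  obtain ⟨hk0, hk12⟩ := inv_k hk
  obtain ⟨A', hA'⟩ : ∃ A', A' = 2 * U + 2 := ⟨_, rfl⟩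
  have hkR : (0 : ℝ) < k := by
    have : 0 < k := by omega
    exact_mod_cast this
  obtain ⟨K₂, K, N₁, hB'⟩ := bilMajR h1 (A' + 2 * (A' + 14) + 8) 0 (θ := 1 - α - ρ) (σ := α) (by linarith)
    (by linarith) (by linarith)
  obtain ⟨C₃, N₄, hcnt⟩ := countB (θ := 1 - α - ρ) (κ := 1 / (k : ℝ)) (σ := α) (Jp := 2 * k) (by omega) (by
      push_cast
      rw [mul_assoc 2 (k : ℝ), mul_one_div, div_self hkR.ne']
      linarith) (by linarith) K₂ K
  obtain ⟨N₂, hG⟩ := vecE h1 A' k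
  obtain ⟨s, hs⟩ : ∃ s : ℝ, s = ρ / 2 := ⟨_, rfl⟩
  have hs0 : 0 < s := by rw [hs]; positivity
  obtain ⟨N₃, hN₃⟩ := Filter.eventually_atTop.1 (ev_log (0 + A' + 9) (s := s) hs0 8000000000)
  refine ⟨C₃ + A' + 18, N₁ + N₂ + N₃ + N₄ + 64, fun N hN D g hD1 hDr hg Ψ hΨ => ?_⟩
  have hN64 : 64 ≤ N := by omega
  have hN1 : 1 ≤ N := by omega
  obtain ⟨hL16, hLp⟩ := hN₃ N (by omega)
  have hN0 : (0 : ℝ) < N := by exact_mod_cast hN1
  have hNr1 : (1 : ℝ) ≤ N := by exact_mod_cast hN1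
  have hZN : Za α N ≤ N := Za_le (by linarith) hN1
  have hJ := JJ_le (N := N) (U := A' + 14) (by linarith)
  have hZ6 := Za_six hα hN1
  have hWW := Wk_sq_Za hα hk hN1
  have hWZ : Wk k N ≤ Za α N := le_trans (Nat.le_mul_of_pos_left _ (one_le_Wk hN1)) hWW
  have key : ∀ ψ ∈ Ψ, ∃ j ∈ range (JJ N (A' + 14)),
      Bd N K₂ K (a1 (Wk k N) (Za α N) (cc N (A' + 14)) j) ψ.1 ψ.2 ∨
      Bd N K₂ K (a2 (Wk k N) (Wk k N) (cc N (A' + 14)) j) ψ.1 ψ.2 := by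
    rintro ⟨q, χ⟩ hψ
    obtain ⟨e1, e2, e3, y, hy, e4⟩ := hΨ ⟨q, χ⟩ hψ
    simp only at e1 e2 e3 e4 ⊢
    by_contra hcon
    push Not at hcon
    have : NeZero q := ⟨by omega⟩
    have hqN : (q : ℝ) ≤ N := by
      calc (q : ℝ) ≤ (N : ℝ) ^ (1 - α - ρ) := e2
        _ ≤ (N : ℝ) ^ (1 : ℝ) := Real.rpow_le_rpow_of_exponent_le hNr1 (by linarith)
        _ = N := Real.rpow_one _
    have hqNn : q ≤ N := by exact_mod_cast hqN
    have hS1 := one_not_mem e1 e3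
    have hη : |(0 : ℝ)| ≤ Real.log N ^ 0 / N := by
      rw [abs_zero]
      positivity
    have hfin := hG N (by omega) (Za α N) D g hg hZ6 hWW hZN q hqN {χ} 0 y hy ?_ ?_ ?_
    · have hmain : ∑ χ' ∈ ({χ} : Finset (DirichletCharacter ℂ q)), ‖cs q y (FC N (Za α N) g) 0 χ'‖ ^ 2 ≤
          (N : ℝ) ^ 2 / Real.log N ^ (2 * U) := by
        rw [cs_FC]
        obtain ⟨L, hLd⟩ : ∃ L, L = Real.log (N : ℝ) := ⟨_, rfl⟩
        rw [← hLd] at hfin hL16 ⊢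
        have hL0 : 0 < L := by linarith
        calc L ^ 2 * ‖∑ n ∈ Icc 1 y, ((af g * af (fun n => ((ro (Za α N) n : ℝ) : ℂ))) n) • ev {χ} 0 n‖ ^ 2
            ≤ L ^ 2 * ((N : ℝ) ^ 2 / L ^ A') := by gcongr
          _ = (N : ℝ) ^ 2 / L ^ (2 * U) := by
              rw [hA', pow_add]
              field_simp
      rw [sum_singleton, cs_zero] at hmain
      have hL0 : 0 < Real.log N := by linarith
      have h5 : (N : ℝ) ^ 2 / Real.log N ^ (2 * U) = (N / Real.log N ^ U) ^ 2 := by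
        rw [div_pow, ← pow_mul, mul_comm U 2]
      rw [h5] at hmain
      have h6 : 0 ≤ (N : ℝ) / Real.log N ^ U := by positivity
      have h7 := pow_lt_pow_left₀ e4 h6 two_ne_zero
      linarith
    · have hM1 : 1 ≤ D * Wk k N := Nat.mul_le_mul hD1 (one_le_Wk hN1)
      have hMr := DW_real (k := k) hN1 hDr
      have hMN : D * Wk k N ≤ N := by
        have : ((D * Wk k N : ℕ) : ℝ) ≤ N := hMr.trans (by
          calc (N : ℝ) ^ ((1 + α) / 2 + 1 / (k : ℝ)) ≤ (N : ℝ) ^ (1 : ℝ) :=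
                Real.rpow_le_rpow_of_exponent_le hNr1 (by linarith)
            _ = N := Real.rpow_one _)
        exact_mod_cast this
      have t1 := ti_gen hy (a := fun m => (af g * af (mu1 (Wk k N) (Wk k N))) m)
        (fun m hm => ti_supp hg hm) (fun m hm => by
          have := ti_bd hg hWZ (mem_Icc.1 hm).1
          linarith) 0 {χ} ((range q).erase 0) (Or.inr ⟨hS1, rfl⟩)
      refine t1.trans ?_
      obtain ⟨hl1, hl2⟩ := ell (by linarith) (by omega) (NeZero.pos q) hqNn hM1 hMN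
      have t2 := tot_maj (q := q) (N := N) (M := D * Wk k N) (NeZero.pos q) hN1 hM1 (η := 0)
        (T := Real.log N ^ 0) (by rw [pow_zero]) hη (ℓ := 4 * Real.log N) hl1 hl2
      have t3 := ti_mainE (s := s) hN1 (by linarith) (by linarith) hk0.le e2 hMr
      obtain ⟨L, hLd⟩ : ∃ L, L = Real.log (N : ℝ) := ⟨_, rfl⟩
      rw [← hLd] at t2 hL16 hLp ⊢
      have hL0 : 0 < L := by linarith
      rw [le_div_iff₀ (by positivity)]
      calc (4 * ∑ j ∈ (range q).erase 0, GG0 q N (D * Wk k N) (0 + j / q) ^ 2) * L ^ (A' + 4)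
          ≤ (4 * (2000000 * (L ^ 0 * (4 * L) ^ 4 * (2 * (N : ℝ) ^ (2 - s))))) * L ^ (A' + 4) := by
            gcongr
            refine t2.trans ?_
            gcongr
        _ = (4096000000 * L ^ (0 + A' + 8)) * (N : ℝ) ^ (2 - s) := by ring
        _ ≤ (L * L ^ (0 + A' + 8)) * (N : ℝ) ^ (2 - s) := by
            gcongr
            linarith
        _ = L ^ (0 + A' + 9) * (N : ℝ) ^ (2 - s) := by ring
        _ ≤ (N : ℝ) ^ s * (N : ℝ) ^ (2 - s) := by gcongr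
        _ = (N : ℝ) ^ 2 := by
            rw [← Real.rpow_add hN0, ← Real.rpow_natCast]
            congr 1
            push_cast
            ring
    · intro j hj
      refine hB' N (by omega) q e2 (a2 (Wk k N) (Wk k N) (cc N (A' + 14)) j)
        (fun m hm => one_le_bd (by linarith) hm (a2_le _ _ _ _ _)) (fun m hm => (supp_a (a2_suppa hα hk hN1 hm)).2)
        (fun l => (af g * af (b2 (Wk k N) (cc N (A' + 14)) j)) l)
        (fun m hm => bd32 (by linarith) hm (cf_bd1 hg (mem_Icc.1 hm).1 (mem_Icc.1 hm).2 hZ6 (b2_le _ _ _)))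
        0 hη y hy {χ} ?_
      intro χ' hχ'
      rw [mem_singleton] at hχ'
      rw [hχ']
      exact (hcon j hj).2
    · intro j hj
      refine hB' N (by omega) q e2 (a1 (Wk k N) (Za α N) (cc N (A' + 14)) j)
        (fun m hm => one_le_bd (by linarith) hm (a1_le _ _ _ _ _)) (fun m hm => (supp_a (a1_supp' hm)).2)
        (fun l => (af g * af (b1 (cc N (A' + 14)) j)) l)
        (fun m hm => bd32 (by linarith) hm (cf_bd1 hg (mem_Icc.1 hm).1 (mem_Icc.1 hm).2 hZ6 (b1_le _ _)))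
        0 hη y hy {χ} ?_
      intro χ' hχ'
      rw [mem_singleton] at hχ'
      rw [hχ']
      exact (hcon j hj).1
  -- the number
  have hsub : Ψ ⊆ (range (JJ N (A' + 14))).biUnion (fun j =>
      Ψ.filter (fun ψ => Bd N K₂ K (a1 (Wk k N) (Za α N) (cc N (A' + 14)) j) ψ.1 ψ.2) ∪
      Ψ.filter (fun ψ => Bd N K₂ K (a2 (Wk k N) (Wk k N) (cc N (A' + 14)) j) ψ.1 ψ.2)) := by
    intro ψ hψ
    obtain ⟨j, hj, h⟩ := key ψ hψ
    rw [mem_biUnion]
    refine ⟨j, hj, ?_⟩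
    rw [mem_union, mem_filter, mem_filter]
    rcases h with h | h
    · exact Or.inl ⟨hψ, h⟩
    · exact Or.inr ⟨hψ, h⟩
  have hQ : ∀ ψ ∈ Ψ, 1 ≤ ψ.1 ∧ (ψ.1 : ℝ) ≤ (N : ℝ) ^ (1 - α - ρ) ∧ ψ.2.IsPrimitive := by
    intro ψ hψ
    obtain ⟨e1, e2, e3, -⟩ := hΨ ψ hψ
    exact ⟨by omega, e2, e3⟩
  have c1 : ∀ j, ((Ψ.filter (fun ψ => Bd N K₂ K (a1 (Wk k N) (Za α N) (cc N (A' + 14)) j) ψ.1 ψ.2)).card : ℝ) ≤
      Real.log N ^ C₃ := by
    intro j
    apply hcnt N (by omega) (a1 (Wk k N) (Za α N) (cc N (A' + 14)) j)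
      (fun m hm => one_le_bd (by linarith) hm (a1_le _ _ _ _ _)) (fun m hm => supp_a (a1_supp' hm))
    intro ψ hψ
    rw [mem_filter] at hψ
    obtain ⟨f1, f2, f3⟩ := hQ ψ hψ.1
    exact ⟨f1, f2, f3, hψ.2⟩
  have c2 : ∀ j, ((Ψ.filter (fun ψ => Bd N K₂ K (a2 (Wk k N) (Wk k N) (cc N (A' + 14)) j) ψ.1 ψ.2)).card : ℝ) ≤
      Real.log N ^ C₃ := by
    intro j
    apply hcnt N (by omega) (a2 (Wk k N) (Wk k N) (cc N (A' + 14)) j)
      (fun m hm => one_le_bd (by linarith) hm (a2_le _ _ _ _ _)) (fun m hm => supp_a (a2_suppa hα hk hN1 hm))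
    intro ψ hψ
    rw [mem_filter] at hψ
    obtain ⟨f1, f2, f3⟩ := hQ ψ hψ.1
    exact ⟨f1, f2, f3, hψ.2⟩
  have h4 := (card_le_card hsub).trans (card_biUnion_le.trans (sum_le_sum fun j _ => card_union_le _ _))
  have h5 : (Ψ.card : ℝ) ≤ ∑ j ∈ range (JJ N (A' + 14)),
      (((Ψ.filter (fun ψ => Bd N K₂ K (a1 (Wk k N) (Za α N) (cc N (A' + 14)) j) ψ.1 ψ.2)).card : ℝ) +
       ((Ψ.filter (fun ψ => Bd N K₂ K (a2 (Wk k N) (Wk k N) (cc N (A' + 14)) j) ψ.1 ψ.2)).card : ℝ)) := by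
    exact_mod_cast h4
  refine h5.trans ((sum_le_sum fun j _ => add_le_add (c1 j) (c2 j)).trans ?_)
  rw [sum_const, card_range, nsmul_eq_mul]
  obtain ⟨L, hLd⟩ : ∃ L, L = Real.log (N : ℝ) := ⟨_, rfl⟩
  rw [← hLd] at hJ hL16 ⊢
  have hL0 : 0 < L := by linarith
  calc (JJ N (A' + 14) : ℝ) * (L ^ C₃ + L ^ C₃) ≤ L ^ (A' + 14 + 2) * (L ^ C₃ + L ^ C₃) := by gcongr
    _ = 2 * (L ^ (A' + 14 + 2) * L ^ C₃) := by ring
    _ ≤ L ^ 2 * (L ^ (A' + 14 + 2) * L ^ C₃) := by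
        gcongr
        nlinarith
    _ = L ^ (C₃ + A' + 18) := by ring

end Pool.Agent.J4H40
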