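import Pool.Agent.J4H40.Ye
import Pool.Agent.J4H40.Wg

set_option autoImplicit false

/-! The mean square of the error terms for the convolution and an arbitrary first summand, regular moduli up to
`N ^ (1 - ρ)`, all classes. -/

namespace Pool.Agent.J4H40

open Finset
open Pool.Agent.R460.GS
open Pool.Agent.Y883.GJ
open Pool.Agent.Y883.T3 (lsh)
open Pool.Agent.H373R2.T7 (lamz Vz pz lamz_ap lam_ap)
open Pool.Agent.H807R2.Dav (ee)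
open Pool.Agent.Y614.GJ.Core (ev_log)
open Pool.Agent.R460.GH (BilMaj3Stm bilMaj3 countK)
open Pool.Agent.R460.GR (RegAt)

/-- the error terms for the regular moduli -/
def ErrKR (θ κ σ : ℝ) (A U₀ : ℕ) : Prop :=
  ∃ c : ℕ, ∀ A₀ : ℕ, ∃ B : ℕ, ∀ E : ℕ, ∃ N₀ : ℕ, ∀ N : ℕ, N₀ ≤ N →
    ∀ z : ℕ, Real.log N ^ B ≤ z → (z : ℝ) ≤ Real.log N ^ E → ∃ r : ℕ, Par U₀ N z r ∧
    ∑ n ∈ Icc 1 N, |lamz z n - lsh z r n| ≤ N / Real.log N ^ U₀ ∧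
    ∀ a : ℕ → ℝ, Cm N κ σ a →
    ∃ D : Finset ℕ, (D.card : ℝ) ≤ Real.log N ^ c ∧ (∀ d ∈ D, Real.log N ^ A₀ < (d : ℝ)) ∧
    ∀ F : ℕ → ℂ, BdAt N F → ∀ (q : ℕ) [NeZero q], (q : ℝ) ≤ (N : ℝ) ^ θ → (∀ d ∈ D, ¬ d ∣ q) → ∀ x : ZMod q,
    ∀ y₁ y₂ : ℕ, y₁ ≤ N → y₂ ≤ N →
      ∑ n ∈ (Icc 1 (2 * N)).filter (fun n : ℕ => (n : ZMod q) = x),
        ‖cv F (f2 a (Vd N a) z r) y₁ y₂ n‖ ^ 2 ≤ (N : ℝ) ^ 3 / (q * Real.log N ^ A)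

/-- the mean square estimate for the convolution -/
theorem errKR (hCore : CoreRStm) (hL2 : L2Stm) (hB : BilMaj3Stm) (hBm : BilMinStm) (hT1 : TiMaj2Stm) (hT2 : TiMinStm)
    (hLs : LshStm) {θ₁ θ₂ κ σ : ℝ} {K₀ : ℕ}
    (hθ : θ₁ < θ₂) (hκ : 0 < κ) (hσ : σ ≤ 1 / 2) (hθσ : θ₂ + σ < 1) (hθ2 : θ₂ ≤ 1) (hK₀ : 100 ≤ K₀)
    (hK₀θ : θ₂ + 2 / (K₀ : ℝ) ≤ 1) (A U₀ : ℕ) : ErrKR θ₁ κ σ A U₀ := by
  obtain ⟨A₁, hC1⟩ := hCore A θ₁ θ₂ hθ2 hθ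
  obtain ⟨Cg, Ng, hg⟩ := minGC hBm hκ hθσ (by linarith) hθ2 (A₁ + 2)
  obtain ⟨Ch, Nh, hh⟩ := nHK hT2 hLs (by omega : 1 ≤ K₀) hK₀θ (A₁ + 2) 1
  obtain ⟨C, hC⟩ : ∃ C, C = max Cg Ch := ⟨_, rfl⟩
  obtain ⟨A₂, hC2⟩ := hC1 C
  obtain ⟨C₃, Nm1, hm1⟩ := majGC hB hκ hθσ.le hσ hθ2 (A₂ + 2) C
  obtain ⟨Nm2, hm2⟩ := mHK hT1 hLs (by omega : 1 ≤ K₀) hK₀θ (A₂ + 2) C 1
  obtain ⟨U₂, hC3⟩ := hC2 C₃
  obtain ⟨Nm3, hm3⟩ := mHK hT1 hLs (by omega : 1 ≤ K₀) hK₀θ (2 * (U₂ + C + 4)) C 1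
  obtain ⟨C₄, Nd, hd⟩ := cntGC hL2 hκ hθσ.le hσ hθ2 (U₂ + C + 4)
  refine ⟨C₄ + C, fun A₀ => ?_⟩
  obtain ⟨K, hK⟩ : ∃ K, K = A₀ + C := ⟨_, rfl⟩
  obtain ⟨U, Nc, hC4⟩ := hC3 K
  obtain ⟨U₁, hU₁⟩ : ∃ U₁, U₁ = max U₀ (U + 2) := ⟨_, rfl⟩
  obtain ⟨Bm, hBm'⟩ := modelK hK₀ U₁
  obtain ⟨Na, ha⟩ := ap_GA hκ hσ K (U + 2)
  refine ⟨max Bm K, fun E => ?_⟩
  obtain ⟨Nmo, hmo⟩ := hBm' E
  obtain ⟨Nl, hl⟩ := lamz_ap E (U + 2)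
  obtain ⟨Ne, hNe⟩ := Filter.eventually_atTop.1 (ev_log (U + U₂ + C + 12) (s := min κ (1 / 2))
    (lt_min hκ (by norm_num)) 100)
  obtain ⟨Nf, hNf⟩ := Filter.eventually_atTop.1 (ev_log C (s := θ₂ - θ₁) (by linarith) 1)
  refine ⟨Ng + Nh + Nm1 + Nm2 + Nm3 + Nd + Nc + Nmo + Nl + Na + Ne + Nf + 1, fun N hN z hz1 hz2 => ?_⟩
  have hN1 : 1 ≤ N := by omega
  have hN0 : (0 : ℝ) < N := by exact_mod_cast hN1
  have hNr1 : (1 : ℝ) ≤ N := by exact_mod_cast hN1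
  obtain ⟨hLe, hLp⟩ := hNe N (by omega)
  obtain ⟨-, hLC⟩ := hNf N (by omega)
  have hL1 : 1 ≤ Real.log N := by linarith
  have hL2 : 2 ≤ Real.log N := by linarith
  have hzB : Real.log N ^ Bm ≤ z := (pow_le_pow_right₀ hL1 (le_max_left _ _)).trans hz1
  have hzK : Real.log N ^ K ≤ z := (pow_le_pow_right₀ hL1 (le_max_right _ _)).trans hz1
  have hz1' : 1 ≤ z := by
    have : (1 : ℝ) ≤ z := (one_le_pow₀ hL1).trans hz1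
    exact_mod_cast this
  obtain ⟨r, hPar, hPK, hsum⟩ := hmo N (by omega) z hzB hz2
  have hdiv : ∀ V : ℕ, V ≤ U₁ → (N : ℝ) / Real.log N ^ U₁ ≤ N / Real.log N ^ V := fun V hV =>
    div_le_div_of_nonneg_left (Nat.cast_nonneg _) (by positivity) (pow_le_pow_right₀ hL1 hV)
  have hU0 : U₀ ≤ U₁ := by rw [hU₁]; exact le_max_left _ _
  have hU2 : U + 2 ≤ U₁ := by rw [hU₁]; exact le_max_right _ _
  have hP0 := par_mono hL1 hU0 hPar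
  have hP2 := par_mono hL1 hU2 hPar
  refine ⟨r, hP0, hsum.trans (hdiv _ hU0), ?_⟩
  intro a haC
  refine ⟨E2 N (U₂ + C + 4) K C θ₂ (GC a), ?_, ?_, ?_⟩
  · exact E2_card hL1 (E1_card K (fun Ψ hΨ => hd N (by omega) a haC Ψ hΨ))
  · intro d hd
    exact E2_large (A₀ := A₀) hL1 hK hd
  intro F hF q _ hq hqD x y₁ y₂ hy₁ hy₂
  have hV : |Vd N a| ≤ 1 := haC.den
  have hW := wbd_const (N := N) hV
  have hMin : MinE N θ₂ A₁ C (f2 a (Vd N a) z r) := by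
    rw [hC]
    refine min_f2 hL2 (hg N (by omega) a haC) ?_
    exact hh N (by omega) (fun _ => Vd N a) hW z r hPK hPar.hV
  have hMaj : MajE N θ₂ A₂ C C₃ (f2 a (Vd N a) z r) := by
    refine maj_f2 hL2 (hm1 N (by omega) a haC) ?_
    intro q _ hq
    exact hm2 N (by omega) (fun _ => Vd N a) hW q hq z r hPK hPar.hV
  have hAp : ApAt N K U (f2 a (Vd N a) z r) := by
    refine ap_f2 hV (by linarith) ?_ (hsum.trans (hdiv _ hU2)) (ha N (by omega) a haC)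
    intro q hq hqK c y hy
    refine hl N (by omega) z hz1' hz2 q hq ?_ c y hy
    exact_mod_cast hqK.trans hzK
  have hpw : ∀ V : ℕ, V ≤ U + U₂ + C + 12 → Real.log N ^ V ≤ (N : ℝ) ^ κ ∧ Real.log N ^ V ≤ (N : ℝ) ^ (1 / 2 : ℝ) := by
    intro V hV
    have h := (pow_le_pow_right₀ hL1 hV).trans hLp
    exact ⟨h.trans (Real.rpow_le_rpow_of_exponent_le hNr1 (min_le_left _ _)),
      h.trans (Real.rpow_le_rpow_of_exponent_le hNr1 (min_le_right _ _))⟩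
  have hNc : NcAt N U (f2 a (Vd N a) z r) := nc_f2 haC hσ hN1 hV hP2 (by linarith)
    (hpw (U + 5) (by omega)).1 (hpw (U + 5) (by omega)).2
  have hqC : (q : ℝ) * Real.log N ^ C ≤ (N : ℝ) ^ θ₂ := by
    calc (q : ℝ) * Real.log N ^ C ≤ (N : ℝ) ^ θ₁ * (N : ℝ) ^ (θ₂ - θ₁) := by gcongr
      _ = (N : ℝ) ^ θ₂ := by
          rw [← Real.rpow_add hN0]
          congr 1
          ring
  have hReg : RegAt N C K U₂ (f2 a (Vd N a) z r) q :=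
    regG (G := GC a) (H := HW (fun _ => Vd N a) z r) hN1 (by linarith) hqC hθ2 (NeZero.pos q)
      (nc_GC haC hσ hN1 (by linarith) (hpw (U₂ + C + 4 + 4) (by omega)).1 (hpw (U₂ + C + 4 + 4) (by omega)).2)
      (fun q _ hq => hm3 N (by omega) (fun _ => Vd N a) hW q hq z r hPK hPar.hV) hqD
  exact hC4 N (by omega) F (f2 a (Vd N a) z r) hF
    (bd_f2 haC.le1 hV hPar (by linarith)) hMin hMaj hAp hNc q hq hReg x y₁ y₂ hy₁ hy₂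

/-- the error terms, moduli up to `N ^ (1 - ρ)` -/
theorem errKRA {ρ σ κ : ℝ} (hκ : 0 < κ) (hσ0 : 0 < σ) (hσρ : σ < ρ) (hσ : σ ≤ 1 / 2) (A U₀ : ℕ) :
    ErrKR (1 - ρ) κ σ A U₀ := by
  obtain ⟨δ, hδ⟩ : ∃ δ : ℝ, δ = (ρ + σ) / 2 := ⟨_, rfl⟩
  have hδ0 : 0 < δ := by rw [hδ]; linarith
  have hδ1 : δ < ρ := by rw [hδ]; linarith
  have hδ2 : σ < δ := by rw [hδ]; linarith
  obtain ⟨k, hk⟩ := exists_nat_ge (2 / δ)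
  obtain ⟨K₀, hK₀⟩ : ∃ K₀, K₀ = k + 100 := ⟨_, rfl⟩
  have hK₀r : 2 / δ ≤ (K₀ : ℝ) := by
    rw [hK₀]
    push_cast
    linarith
  have hK₀0 : (0 : ℝ) < K₀ := by
    rw [hK₀]
    positivity
  have hK₀δ : 2 / (K₀ : ℝ) ≤ δ := by
    rw [div_le_iff₀ hδ0] at hK₀r
    rw [div_le_iff₀ hK₀0]
    linarith
  exact errKR (coreR Pool.Agent.Y708.GJ.lift Pool.Agent.Y872.GJ.pars Pool.Agent.Y297.GJ.orth Pool.Agent.Y812.GJ.nonU)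
    Pool.Agent.Y812.GJ.l2 (bilMaj3 Pool.Agent.Y812.GJ.l2 (countK Pool.Agent.Y812.GJ.l2))
    Pool.Agent.Y909.GJ.bilMin (Pool.Agent.R460.GS.tiMaj2 Pool.Agent.Y812.GJ.l2) Pool.Agent.Y412.GJ.tiMin
    Pool.Agent.Y812.GJ.lsh_le (θ₁ := 1 - ρ) (θ₂ := 1 - δ) (by linarith) hκ hσ (by linarith) (by linarith)
    (K₀ := K₀) (by omega) (by linarith) A U₀

end Pool.Agent.J4H40
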