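import Pool.Agent.J4H40.Yh
import Pool.Agent.J4H40.Wi

set_option autoImplicit false

/-! The products in all residue classes of the regular moduli. -/

namespace Pool.Agent.J4H40

open Finset Filter
open Pool.Agent.R460.GS (vm_le la la_nn one_le_sing bd_LA win_main')
open Pool.Agent.H560R3.GB (sing HL)
open Pool.Agent.Y883.T4 (class_le)
open Pool.Agent.H373R2.T7 (lamz)
open Pool.Agent.Y883.GJ (LA)

lemma RF_LA (a : ℕ → ℝ) (V : ℝ) (z n y : ℕ) :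
    ‖RF LA a V z n y‖ = |RC a n y - V * ∑ b ∈ Icc 1 y, la b * lamz z (n - b)| := by
  have e : RF LA a V z n y = ((RC a n y - V * ∑ b ∈ Icc 1 y, la b * lamz z (n - b) : ℝ) : ℂ) := by
    unfold RC RF
    rw [mul_sum, ← sum_sub_distrib]
    push_cast
    refine sum_congr rfl fun b _ => ?_
    unfold LA la
    ring
  rw [e, Complex.norm_real, Real.norm_eq_abs]

lemma la_le {N : ℕ} : ∀ b ∈ Icc 1 N, ‖LA b‖ ≤ Real.log N := by
  intro b hb
  unfold LA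
  rw [Complex.norm_real, Real.norm_eq_abs, abs_of_nonneg ArithmeticFunction.vonMangoldt_nonneg]
  exact vm_le hb

/-- from the model to the singular series -/
lemma good_of_F (A E1 : ℕ) (hE1 : A + 7 ≤ E1) : ∃ N₀ : ℕ, ∀ N : ℕ, N₀ ≤ N → ∀ a : ℕ → ℝ, |Vd N a| ≤ 1 →
    ∀ n : ℕ, n ∈ Icc 1 N → 2 ∣ n → GoodF N LA a ⌈Real.log N ^ E1⌉₊ (A + 1) n → GoodN N a A n := by
  obtain ⟨X0, hX0⟩ := win_main' (A + 1) E1 (by omega)
  obtain ⟨Ne, hNe⟩ := Pool.Agent.R462.GS.evL 4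
  refine ⟨X0 + Ne + 1, fun N hN a hV n hn h2n hG y hy => ?_⟩
  rw [mem_Icc] at hn
  have hLe := hNe N (by omega)
  have hN0 : (0 : ℝ) < N := by exact_mod_cast (by omega : 0 < N)
  have hL1' : 1 ≤ Real.log N := by linarith
  obtain ⟨z, hz⟩ : ∃ z, z = ⌈Real.log N ^ E1⌉₊ := ⟨_, rfl⟩
  have hzlo : Real.log N ^ E1 ≤ z := by rw [hz]; exact Nat.le_ceil _
  have hL1B : 1 ≤ Real.log N ^ E1 := one_le_pow₀ hL1'
  have hzhi : (z : ℝ) ≤ Real.log N ^ (E1 + 1) := by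
    have := Nat.ceil_lt_add_one (show 0 ≤ Real.log N ^ E1 by positivity)
    rw [← hz] at this
    calc (z : ℝ) ≤ Real.log N ^ E1 + 1 := this.le
      _ ≤ Real.log N ^ E1 + Real.log N ^ E1 := by linarith
      _ = 2 * Real.log N ^ E1 := by ring
      _ ≤ Real.log N * Real.log N ^ E1 := mul_le_mul_of_nonneg_right (by linarith) (by positivity)
      _ = Real.log N ^ (E1 + 1) := by ring
  obtain ⟨hwin, hS0, hS2⟩ := hX0 N (by omega) n hn.2 h2n (by omega) z hzlo hzhi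
  have h1 := (hwin y hy).1
  have h2 := hG y hy
  rw [← hz, RF_LA] at h2
  obtain ⟨L, hLd⟩ : ∃ L, L = Real.log (N : ℝ) := ⟨_, rfl⟩
  rw [← hLd] at h1 h2 hLe ⊢
  have hL0 : 0 < L := by linarith
  obtain ⟨S, hS⟩ : ∃ S, S = ∑ b ∈ Icc 1 y, la b * lamz z (n - b) := ⟨_, rfl⟩
  rw [← hS] at h1 h2
  have h3 : |Vd N a * S - sing n * Vd N a * y| ≤ 2 * (N / L ^ (A + 1 + 2)) := by
    have e3 : Vd N a * S - sing n * Vd N a * y = Vd N a * (S - sing n * y) := by ring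
    rw [e3, abs_mul]
    calc |Vd N a| * _ ≤ 1 * (2 * (N / L ^ (A + 1 + 2))) := mul_le_mul hV h1 (abs_nonneg _) (by norm_num)
      _ = _ := one_mul _
  have h4 := abs_add_le (RC a n y - Vd N a * S) (Vd N a * S - sing n * Vd N a * y)
  rw [sub_add_sub_cancel] at h4
  have hX : 0 < (N : ℝ) / L ^ A := by positivity
  have k1 : (N : ℝ) / L ^ (A + 1) ≤ N / L ^ A / 4 := by
    rw [pow_succ, ← div_div]
    exact div_le_div_of_nonneg_left hX.le (by norm_num) hLe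
  have k2 : (N : ℝ) / L ^ (A + 1 + 2) ≤ N / L ^ (A + 1) := by
    apply div_le_div_of_nonneg_left hN0.le (by positivity)
    exact pow_le_pow_right₀ (by linarith) (by omega)
  linarith

lemma GoodF_mono {N : ℕ} {F : ℕ → ℂ} {a : ℕ → ℝ} {z A B n : ℕ} (hL : 1 ≤ Real.log N) (h : A ≤ B)
    (hG : GoodF N F a z B n) : GoodF N F a z A n := by
  intro y hy
  refine (hG y hy).trans ?_
  apply div_le_div_of_nonneg_left (Nat.cast_nonneg _) (by positivity)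
  exact pow_le_pow_right₀ hL h

lemma RF_smul (F : ℕ → ℂ) (a : ℕ → ℝ) (t V : ℝ) (z n y : ℕ) :
    RF F (fun m => t * a m) (t * V) z n y = t * RF F a V z n y := by
  unfold RF
  rw [mul_sum]
  refine sum_congr rfl fun b _ => ?_
  rw [GA_smul]
  push_cast
  ring

open Classical in
/-- arbitrary bounded coefficients and arbitrary first summands, all classes of the regular moduli -/
theorem mainKF {ρ σ κ : ℝ} (hκ : 0 < κ) (hσ0 : 0 < σ) (hσρ : σ < ρ) (hσ : σ ≤ 1 / 2) (A : ℕ) :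
    ∃ c : ℕ, ∀ A₀ : ℕ, ∃ B : ℕ, ∀ E1 : ℕ, B ≤ E1 → ∃ N₀ : ℕ, ∀ N : ℕ, N₀ ≤ N → ∀ a : ℕ → ℝ, Co N κ σ a →
      ∃ D : Finset ℕ, (D.card : ℝ) ≤ Real.log N ^ c ∧ (∀ d ∈ D, Real.log N ^ A₀ < (d : ℝ)) ∧
      ∀ q : ℕ, 1 ≤ q → (q : ℝ) ≤ (N : ℝ) ^ (1 - ρ) → (∀ d ∈ D, ¬ d ∣ q) → ∀ x : ℕ,
        (∀ F : ℕ → ℂ, (∀ b ∈ Icc 1 N, ‖F b‖ ≤ Real.log N) →
          (({n ∈ Icc 1 N | n ≡ x [MOD q] ∧ ¬ GoodF N F a ⌈Real.log N ^ E1⌉₊ A n}.card : ℕ) : ℝ) ≤
            (N : ℝ) / (q * Real.log N ^ A)) ∧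
        (({n ∈ Icc 1 N | 2 ∣ n ∧ n ≡ x [MOD q] ∧ ¬ GoodN N a A n}.card : ℕ) : ℝ) ≤
          (N : ℝ) / (q * Real.log N ^ A) := by
  obtain ⟨cc, hcc⟩ := mainFR hκ hσ0 hσρ hσ (A + 3)
  refine ⟨cc, fun A₀ => ?_⟩
  obtain ⟨B, hB⟩ := hcc A₀
  refine ⟨B + A + 9, fun E1 hE1 => ?_⟩
  obtain ⟨N₁, h1⟩ := hB E1 (by omega)
  obtain ⟨N₃, h3⟩ := good_of_F (A + 2) E1 (by omega)
  obtain ⟨N₂, h2⟩ := Pool.Agent.R462.GS.evL 3
  refine ⟨N₁ + N₂ + N₃ + 1, fun N hN c hc => ?_⟩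
  have hL3 := h2 N (by omega)
  have hL1' : 1 ≤ Real.log N := by linarith
  have hN0 : (0 : ℝ) < N := by exact_mod_cast (by omega : 0 < N)
  have hharm := harm_le (N := N) hc.le1
  have hinv0 : 0 < (2 * Real.log N)⁻¹ := by positivity
  have hinv1 : (2 * Real.log N)⁻¹ ≤ 1 := by
    rw [inv_le_one_iff₀]
    right
    linarith
  have hcm : Cm N κ σ (fun m => (2 * Real.log N)⁻¹ * c m) := by
    refine ⟨fun m => ?_, fun m hm => ?_, ?_⟩
    · rw [abs_mul, abs_of_pos hinv0]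
      have := hc.le1 m
      nlinarith [abs_nonneg (c m)]
    · exact hc.sup m (fun h => hm (by rw [h, mul_zero]))
    · have e := Vd_smul c (2 * Real.log N)⁻¹ N
      unfold Vd at e
      rw [e, abs_mul, abs_of_pos hinv0, inv_mul_le_iff₀ (by positivity)]
      linarith
  obtain ⟨D, hD1, hD2, hD⟩ := h1 N (by omega) _ hcm
  refine ⟨D, hD1, hD2, fun q hq hqN hqD x => ?_⟩
  have hq0 : (0 : ℝ) < q := by exact_mod_cast hq
  obtain ⟨L, hLd⟩ : ∃ L, L = Real.log (N : ℝ) := ⟨_, rfl⟩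
  obtain ⟨z, hz⟩ : ∃ z, z = ⌈Real.log N ^ E1⌉₊ := ⟨_, rfl⟩
  have hup : (N : ℝ) / (q * Real.log N ^ (A + 3)) ≤ N / (q * Real.log N ^ A) := by
    apply div_le_div_of_nonneg_left hN0.le (by positivity)
    apply mul_le_mul_of_nonneg_left _ hq0.le
    exact pow_le_pow_right₀ hL1' (by omega)
  -- the scaling
  have hsc : ∀ (F : ℕ → ℂ) (n : ℕ), GoodF N F (fun m => (2 * Real.log N)⁻¹ * c m) z (A + 3) n → GoodF N F c z A n := by
    intro F n hg y hy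
    have h5 := hg y hy
    rw [Vd_smul, RF_smul, norm_mul, Complex.norm_real, Real.norm_eq_abs, abs_of_pos hinv0,
      inv_mul_le_iff₀ (by positivity)] at h5
    refine h5.trans ?_
    rw [← hLd] at hL3 ⊢
    have hL0 : 0 < L := by linarith
    calc 2 * L * (N / L ^ (A + 3)) = N / L ^ A * (2 / L ^ 2) := by
          rw [pow_add]
          field_simp
      _ ≤ N / L ^ A * 1 := by
          apply mul_le_mul_of_nonneg_left _ (by positivity)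
          rw [div_le_one (by positivity)]
          nlinarith
      _ = _ := mul_one _
  refine ⟨fun F hF => ?_, ?_⟩
  · have h4 := hD F hF q hq hqN hqD x
    rw [← hz] at h4
    rw [← hz]
    refine le_trans ?_ (h4.trans hup)
    exact_mod_cast card_le_card fun n hn => by
      rw [mem_filter] at hn ⊢
      exact ⟨hn.1, hn.2.1, fun hg => hn.2.2 (hsc F n hg)⟩
  · have h4 := hD LA la_le q hq hqN hqD x
    refine le_trans ?_ (h4.trans hup)
    exact_mod_cast card_le_card fun n hn => by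
      rw [mem_filter] at hn ⊢
      refine ⟨hn.1, hn.2.2.1, fun hg => hn.2.2.2 ?_⟩
      have h6 := h3 N (by omega) _ hcm.den n hn.1 hn.2.1 hg
      intro y hy
      have h5 := h6 y hy
      rw [RC_smul, Vd_smul] at h5
      have e : (2 * Real.log N)⁻¹ * RC c n y - sing n * ((2 * Real.log N)⁻¹ * Vd N c) * y =
        (2 * Real.log N)⁻¹ * (RC c n y - sing n * Vd N c * y) := by ring
      rw [e, abs_mul, abs_of_pos hinv0, inv_mul_le_iff₀ (by positivity)] at h5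
      refine h5.trans ?_
      rw [← hLd] at hL3 ⊢
      have hL0 : 0 < L := by linarith
      calc 2 * L * (N / L ^ (A + 2)) = N / L ^ A * (2 / L) := by
            rw [pow_add]
            field_simp
        _ ≤ N / L ^ A * 1 := by
            apply mul_le_mul_of_nonneg_left _ (by positivity)
            rw [div_le_one hL0]
            linarith
        _ = _ := mul_one _

open Classical in
/-- almost all even integers in every class are the sum of a prime and a product of two primes in many ways -/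
theorem chenCond {ρ : ℝ} (hρ : 0 < ρ) (M A : ℕ) :
    ∃ κ σ : ℝ, 0 < κ ∧ 0 < σ ∧ σ < ρ ∧ σ ≤ 1 / 2 ∧
    ∃ N₀ : ℕ, ∀ N : ℕ, N₀ ≤ N → ∀ q : ℕ, 1 ≤ q →
      (q : ℝ) ≤ (N : ℝ) ^ (1 - ρ) → ∀ a : ℕ,
        (({n ∈ Icc 1 N | 2 ∣ n ∧ n ≡ a [MOD q] ∧ ¬ GoodN N (pc N κ σ) (2 * A + 4) n}.card : ℕ) : ℝ) ≤
          (N : ℝ) / (q * Real.log N ^ (2 * A + 4)) →
        (({n ∈ Icc 1 N | 2 ∣ n ∧ n ≡ a [MOD q] ∧ ¬ ((M : ℝ) * HL n ≤ chen ρ n)}.card : ℕ) : ℝ) ≤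
          (N : ℝ) / (q * Real.log N ^ A) := by
  obtain ⟨σ, hσd⟩ : ∃ σ : ℝ, σ = min ρ (1 / 2) / 2 := ⟨_, rfl⟩
  have hmin : 0 < min ρ (1 / 2) := lt_min hρ (by norm_num)
  have hσ0 : 0 < σ := by rw [hσd]; linarith
  have hσρ : 2 * σ ≤ ρ := by rw [hσd]; linarith [min_le_left ρ (1 / 2)]
  have hσ4 : σ ≤ 1 / 4 := by rw [hσd]; linarith [min_le_right ρ (1 / 2)]
  obtain ⟨κ, hκd⟩ : ∃ κ : ℝ, κ = σ * Real.exp (-((M : ℝ) + 2 + 1)) := ⟨_, rfl⟩
  have hκ0 : 0 < κ := by rw [hκd]; positivity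
  have hM0 : (0 : ℝ) ≤ M := Nat.cast_nonneg _
  have hκσ : κ < σ := by
    rw [hκd]
    have : Real.exp (-((M : ℝ) + 2 + 1)) < 1 := by
      rw [Real.exp_lt_one_iff]
      linarith
    nlinarith
  have hlogκ : (M : ℝ) + 2 + 1 ≤ Real.log (σ / κ) := by
    have e : σ / κ = Real.exp ((M : ℝ) + 2 + 1) := by
      rw [hκd, Real.exp_neg]
      field_simp
    rw [e, Real.log_exp]
  obtain ⟨N₁, h1⟩ := mert_low hκ0 hσ0 hlogκ hκσ (by linarith)
  obtain ⟨N₃, h3⟩ := Pool.Agent.R462.GS.evL (1000 * (M + 3))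
  obtain ⟨N₄, h4⟩ := Pool.Agent.R462.GS.evlog (A + 6) 1000 (1 / 8) (by norm_num)
  obtain ⟨N₅, h5⟩ := Pool.Agent.R462.GS.evlog (A + 6) 1 (min ρ (1 / 2)) hmin
  refine ⟨κ, σ, hκ0, hσ0, by linarith, by linarith, N₁ + N₃ + N₄ + N₅ + 3, fun N hN q hq1 hqN a hmain => ?_⟩
  have hV := h1 N (by omega)
  have hL := h3 N (by omega)
  have hp1 := h4 N (by omega)
  have hp2 := h5 N (by omega)
  have hN1 : 1 ≤ N := by omega
  have hN0 : (0 : ℝ) < N := by exact_mod_cast hN1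
  have hN1r : (1 : ℝ) ≤ N := by exact_mod_cast hN1
  have hq0 : (0 : ℝ) < q := by exact_mod_cast hq1
  have hRC := fun (n : ℕ) (hn : n ≤ N) (hn1 : 1 ≤ n) (h : (N : ℝ) ^ σ ≤ (n : ℝ) ^ ρ) (hL1 : 1 ≤ Real.log N) =>
    RC_chen (κ := κ) hn hn1 h hL1
  obtain ⟨G, hG⟩ : ∃ G : ℕ → Prop, G = GoodN N (pc N κ σ) (2 * A + 4) := ⟨_, rfl⟩
  have hGd : ∀ n, G n → ∀ y : ℕ, y < n →
      |RC (pc N κ σ) n y - sing n * Vd N (pc N κ σ) * y| ≤ N / Real.log N ^ (2 * A + 4) := by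
    intro n h
    rw [hG] at h
    exact h
  rw [← hG] at hmain
  obtain ⟨L, hLd⟩ : ∃ L, L = Real.log (N : ℝ) := ⟨_, rfl⟩
  rw [← hLd] at hmain hL hp1 hp2 hRC hGd ⊢
  have hL1000 : 1000 ≤ L := by linarith
  have hL0 : 0 < L := by linarith
  have hL1 : 1 ≤ L := by linarith
  -- large good integers are fine
  have hgood : ∀ n : ℕ, n ≤ N → (N : ℝ) / L ^ (A + 1) ≤ n → G n → (M : ℝ) * HL n ≤ chen ρ n := by
    intro n hn hnN hGn
    have hn0 : (0 : ℝ) < n := lt_of_lt_of_le (by positivity) hnN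
    have hn1 : 1 ≤ n := by exact_mod_cast hn0
    have hnr : (n : ℝ) ≤ N := by exact_mod_cast hn
    have hq8 : L ^ (A + 1) ≤ (N : ℝ) ^ (1 / 8 : ℝ) := by
      calc L ^ (A + 1) ≤ L ^ (A + 6) := pow_le_pow_right₀ hL1 (by omega)
        _ ≤ 1000 * L ^ (A + 6) := by
            have : 0 ≤ L ^ (A + 6) := by positivity
            linarith
        _ ≤ _ := hp1
    have hn78 : (N : ℝ) ^ (7 / 8 : ℝ) ≤ n := by
      refine le_trans ?_ hnN
      rw [le_div_iff₀ (by positivity)]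
      calc (N : ℝ) ^ (7 / 8 : ℝ) * L ^ (A + 1) ≤ (N : ℝ) ^ (7 / 8 : ℝ) * (N : ℝ) ^ (1 / 8 : ℝ) := by gcongr
        _ = N := by
            rw [← Real.rpow_add hN0]
            norm_num
    have hσn : (N : ℝ) ^ σ ≤ (n : ℝ) ^ ρ := by
      calc (N : ℝ) ^ σ ≤ (N : ℝ) ^ (7 / 8 * ρ) := Real.rpow_le_rpow_of_exponent_le hN1r (by linarith)
        _ = ((N : ℝ) ^ (7 / 8 : ℝ)) ^ ρ := by rw [← Real.rpow_mul hN0.le]
        _ ≤ (n : ℝ) ^ ρ := Real.rpow_le_rpow (by positivity) hn78 hρ.le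
    have hr := hRC n hn hn1 hσn hL1
    have hg := (abs_le.1 (hGd n hGn (n - 1) (by omega))).1
    have hS := one_le_sing n
    obtain ⟨S, hSd⟩ : ∃ S, S = sing n := ⟨_, rfl⟩
    rw [← hSd] at hS hg
    have hlogn0 : 0 < Real.log n := by
      have h6 : Real.log ((N : ℝ) ^ (7 / 8 : ℝ)) ≤ Real.log n := Real.log_le_log (by positivity) hn78
      rw [Real.log_rpow hN0, ← hLd] at h6
      linarith
    have hcast : (((n - 1 : ℕ)) : ℝ) = (n : ℝ) - 1 := by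
      rw [Nat.cast_sub hn1, Nat.cast_one]
    rw [hcast] at hg
    -- sizes
    have s1 : (N : ℝ) / L ^ (2 * A + 4) ≤ n / 1000 := by
      have k1 : (N : ℝ) / L ^ (2 * A + 4) = N / L ^ (A + 1) / L ^ (A + 3) := by
        rw [div_div, ← pow_add]
        congr 2
        ring
      rw [k1]
      calc (N : ℝ) / L ^ (A + 1) / L ^ (A + 3) ≤ n / L ^ (A + 3) := by gcongr
        _ ≤ n / 1000 := by
            apply div_le_div_of_nonneg_left hn0.le (by norm_num)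
            calc (1000 : ℝ) ≤ L ^ 1 := by rw [pow_one]; exact hL1000
              _ ≤ L ^ (A + 3) := pow_le_pow_right₀ hL1 (by omega)
    have s2 : 3 * L ^ 2 * (2 * √(N : ℝ) * ((N : ℝ) ^ σ + 1)) ≤ n / 50 := by
      have k1 : (1 : ℝ) ≤ (N : ℝ) ^ σ := Real.one_le_rpow hN1r hσ0.le
      have k2 : (N : ℝ) ^ σ ≤ (N : ℝ) ^ (1 / 4 : ℝ) := Real.rpow_le_rpow_of_exponent_le hN1r hσ4
      have k3 : L ^ 2 * 1000 ≤ (N : ℝ) ^ (1 / 8 : ℝ) := by
        calc L ^ 2 * 1000 ≤ L ^ (A + 6) * 1000 := by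
              have : L ^ 2 ≤ L ^ (A + 6) := pow_le_pow_right₀ hL1 (by omega)
              linarith
          _ = 1000 * L ^ (A + 6) := by ring
          _ ≤ _ := hp1
      rw [Real.sqrt_eq_rpow]
      calc 3 * L ^ 2 * (2 * (N : ℝ) ^ (1 / 2 : ℝ) * ((N : ℝ) ^ σ + 1)) ≤
            3 * L ^ 2 * (2 * (N : ℝ) ^ (1 / 2 : ℝ) * (2 * (N : ℝ) ^ (1 / 4 : ℝ))) := by
            have : (N : ℝ) ^ σ + 1 ≤ 2 * (N : ℝ) ^ (1 / 4 : ℝ) := by linarith
            gcongr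
        _ = (L ^ 2 * 1000) * ((N : ℝ) ^ (1 / 2 : ℝ) * (N : ℝ) ^ (1 / 4 : ℝ)) * (12 / 1000) := by ring
        _ ≤ (N : ℝ) ^ (1 / 8 : ℝ) * ((N : ℝ) ^ (1 / 2 : ℝ) * (N : ℝ) ^ (1 / 4 : ℝ)) * (12 / 1000) := by gcongr
        _ = (N : ℝ) ^ (7 / 8 : ℝ) * (12 / 1000) := by
            rw [← Real.rpow_add hN0, ← Real.rpow_add hN0]
            norm_num
        _ ≤ n * (12 / 1000) := by gcongr
        _ ≤ n / 50 := by linarith
    have s3 : (1000 : ℝ) * (M + 3) ≤ n := by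
      have k1 : L ^ 1 ≤ (N : ℝ) ^ (1 / 8 : ℝ) := (pow_le_pow_right₀ hL1 (by omega)).trans hq8
      rw [pow_one] at k1
      have k2 : (N : ℝ) ^ (1 / 8 : ℝ) ≤ (N : ℝ) ^ (7 / 8 : ℝ) := Real.rpow_le_rpow_of_exponent_le hN1r (by norm_num)
      linarith
    have s4 : ((M : ℝ) + 2) * (S * ((n : ℝ) - 1)) ≤ S * Vd N (pc N κ σ) * ((n : ℝ) - 1) := by
      have k1 : 0 ≤ S * ((n : ℝ) - 1) := by
        have : (1 : ℝ) ≤ n := by exact_mod_cast hn1
        have h7 : 0 ≤ (n : ℝ) - 1 := by linarith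
        have h8 : 0 ≤ S := by linarith
        positivity
      have := mul_le_mul_of_nonneg_right hV k1
      linarith
    have hfin : (M : ℝ) * (S * n) ≤ Real.log n ^ 2 * chen ρ n := by
      have k1 : (M : ℝ) * (S * n) + S * (2 * n - (M + 2)) = (M + 2) * (S * (n - 1)) := by ring
      have k2 : n ≤ 2 * (n : ℝ) - (M + 2) := by linarith
      have k3 : (n : ℝ) ≤ S * (2 * n - (M + 2)) := by nlinarith
      linarith
    unfold HL
    rw [← hSd]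
    have h9 : 0 < Real.log n ^ 2 := by positivity
    have h10 : (M : ℝ) * (S * (n / Real.log n ^ 2)) = (M * (S * n)) / Real.log n ^ 2 := by ring
    rw [h10, div_le_iff₀ h9]
    linarith
  -- counting
  have hqs : (q : ℝ) * L ^ (A + 1) ≤ N := by
    have e2 : L ^ (A + 1) ≤ (N : ℝ) ^ (min ρ (1 / 2)) := by
      calc L ^ (A + 1) ≤ L ^ (A + 6) := pow_le_pow_right₀ hL1 (by omega)
        _ = 1 * L ^ (A + 6) := (one_mul _).symm
        _ ≤ _ := hp2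
    calc (q : ℝ) * L ^ (A + 1) ≤ (N : ℝ) ^ (1 - ρ) * (N : ℝ) ^ (min ρ (1 / 2)) := by gcongr
      _ = (N : ℝ) ^ (1 - ρ + min ρ (1 / 2)) := by rw [← Real.rpow_add hN0]
      _ ≤ (N : ℝ) ^ (1 : ℝ) := Real.rpow_le_rpow_of_exponent_le hN1r (by linarith [min_le_left ρ (1 / 2)])
      _ = N := Real.rpow_one _
  have hone : (1 : ℝ) ≤ N / (q * L ^ (A + 1)) := by rw [_root_.one_le_div (by positivity)]; exact hqs
  obtain ⟨S1, hS1⟩ : ∃ S1 : Finset ℕ, S1 = {n ∈ Icc 1 N | n % q = a % q ∧ (n : ℝ) ≤ N / L ^ (A + 1)} := ⟨_, rfl⟩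
  obtain ⟨S2, hS2⟩ : ∃ S2 : Finset ℕ, S2 = {n ∈ Icc 1 N | 2 ∣ n ∧ n ≡ a [MOD q] ∧ ¬ G n} := ⟨_, rfl⟩
  rw [← hS2] at hmain
  have hS1c : (S1.card : ℝ) ≤ 2 * (N / (q * L ^ (A + 1))) := by
    have h3 := class_le N q a hq1 S1 (N / L ^ (A + 1)) (by positivity) (by
      intro n hn
      rw [hS1, mem_filter] at hn
      exact hn.2)
    have e1 : (N : ℝ) / L ^ (A + 1) / q = N / (q * L ^ (A + 1)) := by rw [div_div, mul_comm]
    rw [e1] at h3
    linarith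
  have hsub : {n ∈ Icc 1 N | 2 ∣ n ∧ n ≡ a [MOD q] ∧ ¬ ((M : ℝ) * HL n ≤ chen ρ n)} ⊆ S1 ∪ S2 := by
    intro n hn
    rw [mem_filter] at hn
    obtain ⟨b1, b2, b3, b4⟩ := hn
    rw [mem_union]
    by_cases k : (n : ℝ) ≤ N / L ^ (A + 1)
    · left
      rw [hS1, mem_filter]
      exact ⟨b1, b3, k⟩
    · right
      rw [hS2, mem_filter]
      exact ⟨b1, b2, b3, fun hGn => b4 (hgood n (mem_Icc.1 b1).2 (not_le.1 k).le hGn)⟩
  have hcard : (({n ∈ Icc 1 N | 2 ∣ n ∧ n ≡ a [MOD q] ∧ ¬ ((M : ℝ) * HL n ≤ chen ρ n)}.card : ℕ) : ℝ) ≤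
      (S1.card : ℝ) + S2.card := by
    exact_mod_cast (card_le_card hsub).trans (card_union_le _ _)
  refine hcard.trans ?_
  have h6 : 0 ≤ (N : ℝ) / (q * L ^ A) := by positivity
  have h4 : (N : ℝ) / (q * L ^ (A + 1)) = N / (q * L ^ A) / L := by
    rw [pow_succ, ← mul_assoc, ← div_div]
  have h7 : (N : ℝ) / (q * L ^ A) / L ≤ N / (q * L ^ A) / 1000 := div_le_div_of_nonneg_left h6 (by norm_num) hL1000
  have h8 : (N : ℝ) / (q * L ^ (2 * A + 4)) ≤ N / (q * L ^ (A + 1)) := by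
    apply div_le_div_of_nonneg_left hN0.le (by positivity)
    apply mul_le_mul_of_nonneg_left _ hq0.le
    exact pow_le_pow_right₀ hL1 (by omega)
  rw [h4] at hS1c h8
  linarith

end Pool.Agent.J4H40
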