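import Pool.Agent.J4H40.Yf
import Pool.Agent.J4H40.Qh

set_option autoImplicit false

/-! The mean square of the error terms for the minorant and an arbitrary first summand, regular moduli, all classes. -/

namespace Pool.Agent.J4H40

open Finset
open Pool.Agent.R460.GS
open Pool.Agent.Y883.GJ
open Pool.Agent.Y883.T3 (lsh)
open Pool.Agent.H373R2.T7 (lamz Vz pz lamz_ap lam_ap)
open Pool.Agent.H807R2.Dav (ee)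
open Pool.Agent.Y614.GJ.Core (ev_log)
open Pool.Agent.R460.GH (BilMaj3Stm bilMaj3 countK)
open Pool.Agent.R460.GR (RegAt)

/-- the error terms for the regular moduli -/
def ErrTR (α θ : ℝ) (gf Wf : ℕ → ℕ → ℝ) (A U₀ : ℕ) : Prop :=
  ∃ c : ℕ, ∀ A₀ : ℕ, ∃ B : ℕ, ∀ E : ℕ, ∃ N₀ : ℕ, ∀ N : ℕ, N₀ ≤ N →
    ∀ z : ℕ, Real.log N ^ B ≤ z → (z : ℝ) ≤ Real.log N ^ E → ∃ r : ℕ, Par U₀ N z r ∧
    ∑ n ∈ Icc 1 N, |lamz z n - lsh z r n| ≤ N / Real.log N ^ U₀ ∧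
    ∃ D : Finset ℕ, (D.card : ℝ) ≤ Real.log N ^ c ∧ (∀ d ∈ D, Real.log N ^ A₀ < (d : ℝ)) ∧
    ∀ F : ℕ → ℂ, BdAt N F → ∀ (q : ℕ) [NeZero q], (q : ℝ) ≤ (N : ℝ) ^ θ → (∀ d ∈ D, ¬ d ∣ q) → ∀ x : ZMod q,
    ∀ y₁ y₂ : ℕ, y₁ ≤ N → y₂ ≤ N →
      ∑ n ∈ (Icc 1 (2 * N)).filter (fun n : ℕ => (n : ZMod q) = x),
        ‖cv F (f1 N (Za α N) (gf N) (Wf N) z r) y₁ y₂ n‖ ^ 2 ≤ (N : ℝ) ^ 3 / (q * Real.log N ^ A)

/-- the error terms -/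
theorem errER (hCore : CoreRStm) (h1 : L2Stm) (hB : BilMaj3Stm) (hBm : BilMinStm) (hT1 : TiMaj2Stm) (hT2 : TiMinStm)
    (hLs : LshStm) (hModel : ModelStm) {α : ℝ} (hα : 1 / 6 ≤ α) (hα2 : α ≤ 1 / 3) {gf Wf : ℕ → ℕ → ℝ}
    (hfam : Fam α gf Wf) (A U₀ : ℕ) {ρ : ℝ} (hρ : 0 < ρ) : ErrTR α (1 - α - ρ) gf Wf A U₀ := by
  have hρ2 : 0 < ρ / 2 := by positivity
  obtain ⟨Ncf, hcf⟩ := hfam.cf
  obtain ⟨ct, Nw, hWB⟩ := hfam.wb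
  obtain ⟨A₁, hC1⟩ := hCore A (1 - α - ρ) (1 - α - ρ / 2) (by linarith) (by linarith)
  obtain ⟨Cg, Ng, hg⟩ := nFC h1 hBm hα hα2 (A₁ + 2) hρ2
  obtain ⟨Ch, Nh, hh⟩ := nHE hT2 hLs (A₁ + 2) ct
  obtain ⟨C, hC⟩ : ∃ C, C = max Cg Ch := ⟨_, rfl⟩
  obtain ⟨A₂, hC2⟩ := hC1 C
  obtain ⟨C₃, Nm1, hm1⟩ := mFC h1 hB hα hα2 (A₂ + 2) C hρ2
  obtain ⟨Nm2, hm2⟩ := mHE hT1 hLs (A₂ + 2) C ct
  obtain ⟨U₂, hC3⟩ := hC2 C₃
  obtain ⟨Nm3, hm3⟩ := mHE hT1 hLs (2 * (U₂ + C + 4)) C ct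
  obtain ⟨C₄, Nd, hd⟩ := cntFC h1 hα hα2 (U₂ + C + 4) hρ2
  refine ⟨C₄ + C, fun A₀ => ?_⟩
  obtain ⟨K, hK⟩ : ∃ K, K = A₀ + C := ⟨_, rfl⟩
  obtain ⟨U, Nc, hC4⟩ := hC3 K
  obtain ⟨U₁, hU₁⟩ : ∃ U₁, U₁ = max U₀ (U + 2) := ⟨_, rfl⟩
  obtain ⟨Bm, hBm'⟩ := hModel U₁
  refine ⟨max Bm K, fun E => ?_⟩
  obtain ⟨Nmo, hmo⟩ := hBm' E
  obtain ⟨Nl, hl⟩ := lamz_ap E (U + 2)
  obtain ⟨Na, ha⟩ := hfam.ap K (U + 2)
  obtain ⟨Ne, hNe⟩ := Filter.eventually_atTop.1 (ev_log (U + U₂ + C + 12) (s := 1 / 6) (by norm_num) (64 + 4 * |ct|))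
  obtain ⟨Nf, hNf⟩ := Filter.eventually_atTop.1 (ev_log C (s := ρ / 2) hρ2 1)
  refine ⟨Ncf + Ng + Nh + Nm1 + Nm2 + Nm3 + Nd + Nc + Nw + Nmo + Nl + Na + Ne + Nf + 1, fun N hN z hz1 hz2 => ?_⟩
  have hN1 : 1 ≤ N := by omega
  have hN0 : (0 : ℝ) < N := by exact_mod_cast hN1
  have hNr1 : (1 : ℝ) ≤ N := by exact_mod_cast hN1
  obtain ⟨hLe, hLp⟩ := hNe N (by omega)
  obtain ⟨-, hLC⟩ := hNf N (by omega)
  have hct := abs_nonneg ct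
  have hctl := le_abs_self ct
  have hL1 : 1 ≤ Real.log N := by linarith
  have hL2 : 2 ≤ Real.log N := by linarith
  have hzB : Real.log N ^ Bm ≤ z := (pow_le_pow_right₀ hL1 (le_max_left _ _)).trans hz1
  have hzK : Real.log N ^ K ≤ z := (pow_le_pow_right₀ hL1 (le_max_right _ _)).trans hz1
  have hz1' : 1 ≤ z := by
    have : (1 : ℝ) ≤ z := (one_le_pow₀ hL1).trans hz1
    exact_mod_cast this
  obtain ⟨r, hPar, hsum⟩ := hmo N (by omega) z hzB hz2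
  obtain ⟨D, hD1, hDr, hgD⟩ := hcf N (by omega)
  have hW := hWB N (by omega)
  have hct0 := hW.hc
  have hdiv : ∀ V : ℕ, V ≤ U₁ → (N : ℝ) / Real.log N ^ U₁ ≤ N / Real.log N ^ V := fun V hV =>
    div_le_div_of_nonneg_left (Nat.cast_nonneg _) (by positivity) (pow_le_pow_right₀ hL1 hV)
  have hU0 : U₀ ≤ U₁ := by rw [hU₁]; exact le_max_left _ _
  have hU2 : U + 2 ≤ U₁ := by rw [hU₁]; exact le_max_right _ _
  have hP0 := par_mono hL1 hU0 hPar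
  have hP2 := par_mono hL1 hU2 hPar
  refine ⟨r, hP0, hsum.trans (hdiv _ hU0), ?_⟩
  refine ⟨E2 N (U₂ + C + 4) K C (1 - α - ρ / 2) (FC N (Za α N) (cx (gf N))), ?_, ?_, ?_⟩
  · exact E2_card hL1 (E1_card K (fun Ψ hΨ => hd N (by omega) D (cx (gf N)) hD1 hDr hgD Ψ hΨ))
  · intro d hd
    exact E2_large (A₀ := A₀) hL1 hK hd
  intro F hF q _ hq hqD x y₁ y₂ hy₁ hy₂
  have hexp : ∀ x : ℝ, x ≤ (N : ℝ) ^ (1 - α - ρ / 2) → x ≤ (N : ℝ) ^ (17 / 20 : ℝ) := fun x hx =>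
    hx.trans (Real.rpow_le_rpow_of_exponent_le hNr1 (by linarith))
  have hMin : MinE N (1 - α - ρ / 2) A₁ C (f1 N (Za α N) (gf N) (Wf N) z r) := by
    rw [hC]
    refine min_f1 hL2 (hg N (by omega) D (cx (gf N)) hD1 hDr hgD) ?_
    intro q _ hq
    exact hh N (by omega) (Wf N) hW z r hPar.hD hPar.hV q (hexp _ hq)
  have hMaj : MajE N (1 - α - ρ / 2) A₂ C C₃ (f1 N (Za α N) (gf N) (Wf N) z r) := by
    refine maj_f1 hL2 (hm1 N (by omega) D (cx (gf N)) hD1 hDr hgD) ?_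
    intro q _ hq
    exact hm2 N (by omega) (Wf N) hW q (hexp _ hq) z r hPar.hD hPar.hV
  have hAp : ApAt N K U (f1 N (Za α N) (gf N) (Wf N) z r) := by
    refine ap_f1 hW (by linarith) ?_ (hsum.trans (hdiv _ hU2)) (ha N (by omega))
    intro q hq hqK c y hy
    refine hl N (by omega) z hz1' hz2 q hq ?_ c y hy
    exact_mod_cast hqK.trans hzK
  have hpw : ∀ V : ℕ, V ≤ U + U₂ + C + 12 → Real.log N ^ V ≤ (N : ℝ) ^ (1 / 6 : ℝ) := fun V hV =>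
    (pow_le_pow_right₀ hL1 hV).trans hLp
  have hNc : NcAt N U (f1 N (Za α N) (gf N) (Wf N) z r) := nc_f1 hα hgD hN1 hW hP2 (by linarith)
    (hpw _ (by omega))
  have hqC : (q : ℝ) * Real.log N ^ C ≤ (N : ℝ) ^ (1 - α - ρ / 2) := by
    calc (q : ℝ) * Real.log N ^ C ≤ (N : ℝ) ^ (1 - α - ρ) * (N : ℝ) ^ (ρ / 2) := by gcongr
      _ = (N : ℝ) ^ (1 - α - ρ / 2) := by
          rw [← Real.rpow_add hN0]
          congr 1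
          ring
  have hReg : RegAt N C K U₂ (f1 N (Za α N) (gf N) (Wf N) z r) q :=
    regG (G := FC N (Za α N) (cx (gf N))) (H := HW (Wf N) z r) hN1 (by linarith) hqC (by linarith) (NeZero.pos q)
      (nc_FC hα hgD hN1 (by linarith) (hpw _ (by omega)))
      (fun q _ hq => hm3 N (by omega) (Wf N) hW q (hexp _ hq) z r hPar.hD hPar.hV) hqD
  exact hC4 N (by omega) F (f1 N (Za α N) (gf N) (Wf N) z r) hF
    (bd_f1 hgD (Za_six hα hN1) hW hPar (by linarith)) hMin hMaj hAp hNc q hq hReg x y₁ y₂ hy₁ hy₂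

theorem errTR {α : ℝ} (hα : 1 / 6 ≤ α) (hα2 : α ≤ 1 / 3) {gf Wf : ℕ → ℕ → ℝ} (hfam : Fam α gf Wf) {ρ : ℝ}
    (hρ : 0 < ρ) (A U₀ : ℕ) : ErrTR α (1 - α - ρ) gf Wf A U₀ :=
  errER
    (coreR Pool.Agent.Y708.GJ.lift Pool.Agent.Y872.GJ.pars Pool.Agent.Y297.GJ.orth Pool.Agent.Y812.GJ.nonU)
    Pool.Agent.Y812.GJ.l2 (bilMaj3 Pool.Agent.Y812.GJ.l2 (countK Pool.Agent.Y812.GJ.l2))
    Pool.Agent.Y909.GJ.bilMin (Pool.Agent.R460.GS.tiMaj2 Pool.Agent.Y812.GJ.l2) Pool.Agent.Y412.GJ.tiMin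
    Pool.Agent.Y812.GJ.lsh_le Pool.Agent.Y883.GJ.model_all hα hα2 hfam A U₀ hρ

end Pool.Agent.J4H40
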