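import Pool.Agent.J4H40.Yk
import Pool.Agent.J4H40.Qj

set_option autoImplicit false

/-! The lower bound in all windows for an arbitrary non-negative first summand: all but few integers in all classes of
the regular moduli. -/

namespace Pool.Agent.J4H40

open Finset Filter
open Pool.Agent.H373R2.T7 (lamz Vz pz lamI lamzI Vz_pos)
open Pool.Agent.Y883.T3 (lsh)
open Pool.Agent.Y883.GJ
open Pool.Agent.R460.GS (cv bd_LA vm_le la la_nn cv_left abelW reflect_sum sum_window win_main' real_sum x_sq lsh_abs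
  one_le_div BdAt one_le_sing)
open Pool.Agent.W93.PG (wn cnt lam_sub lamz_le lamz_nn wn_le)
open Pool.Agent.H560R3.GB (sing)
open Pool.Agent.Y614.GJ.Core (ev_log)
open Pool.Agent.Y883.T4 (badc class_le)

/-- the lower bound in all windows -/
def GoodL (F : ℕ → ℝ) (h : ℝ) (z : ℕ) (E : ℝ) (n : ℕ) : Prop :=
  ∀ y₁ y₂ : ℕ, y₁ ≤ y₂ → y₂ < n →
    h * ∑ b ∈ Ioc y₁ y₂, F b * lamz z (n - b) - E ≤ ∑ b ∈ Ioc y₁ y₂, F b * la (n - b)

lemma refl_le {f : ℕ → ℝ} (hf : ∀ b, 0 ≤ f b) {N n y₁ y₂ : ℕ} (h2 : y₂ < n) (hn : n ≤ N) :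
    ∑ b ∈ Ioc y₁ y₂, f (n - b) ≤ ∑ b ∈ Icc 1 N, f b := by
  calc ∑ b ∈ Ioc y₁ y₂, f (n - b) ≤ ∑ b ∈ Icc 1 y₂, f (n - b) := by
        refine sum_le_sum_of_subset_of_nonneg (fun b hb => ?_) fun _ _ _ => hf _
        rw [mem_Ioc] at hb
        rw [mem_Icc]
        omega
    _ = ∑ b ∈ Ioc (n - y₂ - 1) (n - 1), f b := reflect_sum f h2
    _ ≤ ∑ b ∈ Icc 1 N, f b := by
        refine sum_le_sum_of_subset_of_nonneg (fun b hb => ?_) fun _ _ _ => hf _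
        rw [mem_Ioc] at hb
        rw [mem_Icc]
        omega

lemma pt_lowF {F : ℕ → ℝ} {N c : ℕ} {x : ℝ} (hx0 : 0 ≤ x) (hx : x ≤ Real.log N) (hF : |F c| ≤ 96 * Real.log N) :
    99 / 100 * (x * F c) - 96 * Real.log N ^ 2 * bad F c ≤ x * la c := by
  have h2 := la_nn c
  have h4 := (le_abs_self (F c)).trans hF
  have hL : 0 ≤ Real.log N := hx0.trans hx
  unfold bad
  split_ifs with h
  · rw [mul_zero, sub_zero]
    have := mul_le_mul_of_nonneg_left h hx0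
    linarith
  · have h5 : x * F c ≤ Real.log N * (96 * Real.log N) :=
      (mul_le_mul_of_nonneg_left h4 hx0).trans (mul_le_mul_of_nonneg_right hx (by positivity))
    have h6 : 0 ≤ x * la c := mul_nonneg hx0 h2
    have h7 : 0 ≤ Real.log N ^ 2 := sq_nonneg _
    nlinarith

/-- the density -/
lemma dens_low {F W : ℕ → ℝ} {N n y₁ y₂ z : ℕ} {c h₀ X : ℝ} (hF : ∀ b ∈ Icc 1 N, 0 ≤ F b ∧ F b ≤ Real.log N)
    (hW : WBd W c N) (h2 : y₂ < n) (hn : n ≤ N) (hX : 0 ≤ X) (hh0 : 0 ≤ h₀) (hz : (Vz z)⁻¹ ≤ Real.log N)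
    (hd : ∀ b : ℕ, b ≤ N → X ≤ b → h₀ ≤ W b) :
    h₀ * ∑ b ∈ Ioc y₁ y₂, F b * lamz z (n - b) - (c + h₀) * Real.log N ^ 2 * X ≤
      ∑ b ∈ Ioc y₁ y₂, F b * (W (n - b) * lamz z (n - b)) := by
  have hL0 : 0 ≤ Real.log N := Real.log_natCast_nonneg N
  have hc := hW.hc
  obtain ⟨f, hf⟩ : ∃ f : ℕ → ℝ, f = fun b : ℕ => if (b : ℝ) < X then (c + h₀) * Real.log N ^ 2 else 0 := ⟨_, rfl⟩
  have hf0 : ∀ b, 0 ≤ f b := by
    intro b
    rw [hf]
    simp only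
    split_ifs
    · positivity
    · exact le_rfl
  have hpt : ∀ b ∈ Ioc y₁ y₂, h₀ * (F b * lamz z (n - b)) - f (n - b) ≤ F b * (W (n - b) * lamz z (n - b)) := by
    intro b hb
    rw [mem_Ioc] at hb
    obtain ⟨k1, k2⟩ := hF b (mem_Icc.2 ⟨by omega, by omega⟩)
    have k3 := lamz_nn z (n - b)
    have k4 := (lamz_le z (n - b)).trans hz
    have k5 : 0 ≤ F b * lamz z (n - b) := mul_nonneg k1 k3
    rw [hf]
    simp only
    by_cases hX' : ((n - b : ℕ) : ℝ) < X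
    · rw [if_pos hX']
      have k6 := (abs_le.1 (hW.h1 (n - b) (by omega))).1
      have k7 : F b * lamz z (n - b) ≤ Real.log N * Real.log N := mul_le_mul k2 k4 k3 hL0
      have k8 : F b * (W (n - b) * lamz z (n - b)) = W (n - b) * (F b * lamz z (n - b)) := by ring
      rw [k8]
      have k9 : (h₀ - W (n - b)) * (F b * lamz z (n - b)) ≤ (c + h₀) * (Real.log N * Real.log N) :=
        (mul_le_mul_of_nonneg_right (by linarith) k5).trans (mul_le_mul_of_nonneg_left k7 (by positivity))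
      nlinarith
    · rw [if_neg hX', sub_zero]
      have k6 := hd (n - b) (by omega) (not_lt.1 hX')
      have k7 := mul_le_mul_of_nonneg_right k6 k5
      linarith
  have h3 := sum_le_sum hpt
  rw [sum_sub_distrib, ← mul_sum] at h3
  have h4 := refl_le (y₁ := y₁) hf0 h2 hn
  have h5 : ∑ b ∈ Icc 1 N, f b ≤ (c + h₀) * Real.log N ^ 2 * X := by
    rw [hf, ← sum_filter, sum_const, nsmul_eq_mul, mul_comm]
    apply mul_le_mul_of_nonneg_left _ (by positivity)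
    have h6 : ((Icc 1 N).filter (fun b : ℕ => (b : ℝ) < X)).card ≤ ⌊X⌋₊ := by
      calc _ ≤ (Icc 1 ⌊X⌋₊).card := by
            apply card_le_card
            intro d hd
            rw [mem_filter, mem_Icc] at hd
            rw [mem_Icc]
            exact ⟨hd.1.1, Nat.le_floor hd.2.le⟩
        _ = _ := by rw [Nat.card_Icc, Nat.add_sub_cancel]
    exact le_trans (by exact_mod_cast h6) (Nat.floor_le hX)
  linarith

/-- from the error terms to the lower bound -/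
lemma low_TW {α a : ℝ} (h1 : 1 / 6 ≤ α) (h2 : α ≤ 1 / 4) (h3 : 1 / 4 ≤ a) (h4 : a + 1 / 100 ≤ (1 - α) / 2)
    (h5 : a ≤ 388 / 1000 ∨ 1 / 5 ≤ α) {h₀ : ℝ} (hh0 : 0 ≤ h₀) (hh1 : h₀ ≤ 1) (V : ℕ)
    (hden : DenT (WF α a (V + 8)) h₀ (V + 8)) : ∃ N₀ : ℕ, ∀ N : ℕ, N₀ ≤ N →
    ∀ z : ℕ, (Vz z)⁻¹ ≤ Real.log N → ∀ F : ℕ → ℝ, (∀ b ∈ Icc 1 N, 0 ≤ F b ∧ F b ≤ Real.log N) →
    ∀ n : ℕ, n ≤ N →
    (∀ y : ℕ, y < n → |TW F (gF α a (V + 8) N) (WF α a (V + 8) N) N (Za α N) z n y| ≤ N / Real.log N ^ (V + 1)) →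
    GoodL F (99 / 100 * h₀) z (N / Real.log N ^ V) n := by
  have hfam := fam h1 h2 h3 h4 h5 (B := V + 8) (by omega)
  obtain ⟨c, Nw, hWB⟩ := hfam.wb
  obtain ⟨Nd, hd⟩ := hden
  obtain ⟨Nb, hNb⟩ := eventually_atTop.1
    ((ok_ev h1 h2 h3 h4 h5 (B := V + 8) (by omega) (ε := 1 / 1000) (by norm_num) le_rfl).and
      ((bz_ev h1 (by linarith : α ≤ 1)).and (ev_numZ h1 (by linarith : α ≤ 1) 0 (V + 8) 0 0)))
  obtain ⟨Ne, hNe⟩ := eventually_atTop.1 (Pool.Agent.R453.GS.ev_log (10000 * (1 + |c|)))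
  refine ⟨Nw + Nd + Ne + Nb + 1, fun N hN z hz F hF n hn hT y₁ y₂ h12 h2 => ?_⟩
  have hN1 : 1 ≤ N := by omega
  have hN0 : (0 : ℝ) < N := by exact_mod_cast hN1
  obtain ⟨⟨hok, _⟩, hBZ, _, _, _, _, _, _, hUZ⟩ := hNb N (by omega)
  have hLe := hNe N (by omega)
  have hW := hWB N (by omega)
  have hc := hW.hc
  rw [abs_of_nonneg hc] at hLe
  obtain ⟨Fm, hFm⟩ : ∃ Fm, Fm = FR N (Za α N) (gc (PN α a (V + 8) N) (Za α N)) := ⟨_, rfl⟩
  obtain ⟨W, hWd⟩ : ∃ W, W = WF α a (V + 8) N := ⟨_, rfl⟩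
  have hFV := fv_gc hok (N := N) (Z := Za α N) hN1 hBZ.Z6
  rw [← hFm] at hFV
  have hbs := bad_sum (B := V + 8) hok rfl rfl hBZ (fun p hp => by
    have hp0 : (0 : ℝ) < p := by exact_mod_cast (by omega : 0 < p)
    show α * Real.log N < Real.log p
    rw [← Real.log_rpow hN0]
    apply Real.log_lt_log (by positivity)
    have k1 : (N : ℝ) ^ α < (Za α N : ℝ) + 1 := Za_lt
    have k2 : ((Za α N : ℕ) : ℝ) + 1 ≤ p := by exact_mod_cast hp
    linarith)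
  rw [← hFm] at hbs
  have hX : (0 : ℝ) ≤ N / Real.log N ^ (V + 8) := by
    have := hBZ.L
    positivity
  -- the pointwise bound
  have k1 : 99 / 100 * ∑ b ∈ Ioc y₁ y₂, F b * Fm (n - b) - 96 * Real.log N ^ 2 * ∑ b ∈ Icc 1 N, bad Fm b ≤
      ∑ b ∈ Ioc y₁ y₂, F b * la (n - b) := by
    have h1 : ∑ b ∈ Ioc y₁ y₂, (99 / 100 * (F b * Fm (n - b)) - 96 * Real.log N ^ 2 * bad Fm (n - b)) ≤
        ∑ b ∈ Ioc y₁ y₂, F b * la (n - b) := by
      refine sum_le_sum fun b hb => ?_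
      rw [mem_Ioc] at hb
      obtain ⟨g1, g2⟩ := hF b (mem_Icc.2 ⟨by omega, by omega⟩)
      exact pt_lowF g1 g2 (hFV.bd _ (by omega) (by omega))
    rw [sum_sub_distrib, ← mul_sum, ← mul_sum] at h1
    have h3 := bad_win (F := Fm) (y₁ := y₁) h2 hn
    have h5 : 96 * Real.log N ^ 2 * ∑ b ∈ Ioc y₁ y₂, bad Fm (n - b) ≤ 96 * Real.log N ^ 2 * ∑ b ∈ Icc 1 N, bad Fm b :=
      mul_le_mul_of_nonneg_left h3 (by positivity)
    linarith
  have t1 := hT y₁ (lt_of_le_of_lt h12 h2)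
  have t2 := hT y₂ h2
  rw [← hWd] at hW t1 t2
  have k4 := dens_low (z := z) (y₁ := y₁) (y₂ := y₂) (X := N / Real.log N ^ (V + 8)) hF hW h2 hn hX hh0 hz
    (fun b hb hb' => by rw [hWd]; exact hd N (by omega) b hb hb')
  have hsplit : ∑ b ∈ Ioc y₁ y₂, F b * Fm (n - b) =
      ∑ b ∈ Ioc y₁ y₂, F b * (W (n - b) * lamz z (n - b)) +
      (TW F (gF α a (V + 8) N) W N (Za α N) z n y₂ - TW F (gF α a (V + 8) N) W N (Za α N) z n y₁) := by
    unfold TW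
    rw [← sum_window _ h12, ← sum_add_distrib, hFm]
    refine sum_congr rfl fun b _ => ?_
    unfold gF
    ring
  rw [hsplit] at k1
  have hNZ : (N : ℝ) / Za α N ≤ N / Real.log N ^ (V + 8) := by
    have hL0 := hBZ.L
    apply div_le_div_of_nonneg_left hN0.le (by positivity)
    rw [abs_zero, zero_add, mul_one] at hUZ
    have hL1 : 1 ≤ Real.log N := by linarith
    calc Real.log N ^ (V + 8) ≤ Real.log N ^ (V + 8 + 2) := pow_le_pow_right₀ hL1 (by omega)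
      _ ≤ 10000 * Real.log N ^ (V + 8 + 2) := by
          have : 0 ≤ Real.log N ^ (V + 8 + 2) := by positivity
          linarith
      _ ≤ _ := hUZ
  obtain ⟨L, hLd⟩ : ∃ L, L = Real.log (N : ℝ) := ⟨_, rfl⟩
  rw [← hLd] at t1 t2 hLe k1 k4 hX hbs hNZ ⊢
  have hL0 : 0 < L := by linarith
  have hL1 : 1 ≤ L := by linarith
  obtain ⟨D, hD⟩ : ∃ D : ℝ, D = N / L ^ (V + 1) := ⟨_, rfl⟩
  have hD0 : 0 < D := by rw [hD]; positivity
  rw [← hD] at t1 t2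
  have z8 : (N : ℝ) / L ^ (V + 8) = D / L ^ 7 := by
    rw [hD, div_div, ← pow_add]
  have z0 : (N : ℝ) / L ^ V = L * D := by
    rw [hD, pow_succ]
    field_simp
  have hpw : ∀ j : ℕ, 1 ≤ j → D / L ^ j ≤ D / L := by
    intro j hj
    apply div_le_div_of_nonneg_left hD0.le hL0
    calc L = L ^ 1 := (pow_one L).symm
      _ ≤ L ^ j := pow_le_pow_right₀ hL1 hj
  have hDL : 0 ≤ D / L := by positivity
  obtain ⟨hcD, hD1⟩ := auxD hc hD0 hL0 hLe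
  -- the exceptions
  have ea : 96 * L ^ 2 * ∑ b ∈ Icc 1 N, bad Fm b ≤ D := by
    calc 96 * L ^ 2 * ∑ b ∈ Icc 1 N, bad Fm b ≤ 96 * L ^ 2 * (N / L ^ (V + 8) + N / L ^ (V + 8)) := by
          apply mul_le_mul_of_nonneg_left _ (by positivity)
          linarith only [hbs, hNZ]
      _ = 192 * (D / L ^ 5) := by
          rw [z8]
          field_simp
          ring
      _ ≤ 192 * (D / L) := by
          have := hpw 5 (by norm_num)
          linarith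
      _ ≤ D := by linarith only [hD1, hD0]
  -- the density
  have ee1 : (c + h₀) * L ^ 2 * (N / L ^ (V + 8)) ≤ D := by
    calc (c + h₀) * L ^ 2 * (N / L ^ (V + 8)) ≤ (c + 1) * L ^ 2 * (N / L ^ (V + 8)) := by gcongr
      _ = (c + 1) * (D / L ^ 5) := by
          rw [z8]
          field_simp
      _ ≤ (c + 1) * (D / L) := by
          have := hpw 5 (by norm_num)
          gcongr
      _ = c * (D / L) + (D / L) := by ring
      _ ≤ D := by linarith only [hcD, hD1, hD0]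
  obtain ⟨M1, hM1⟩ : ∃ M1, M1 = ∑ b ∈ Ioc y₁ y₂, F b * (W (n - b) * lamz z (n - b)) := ⟨_, rfl⟩
  obtain ⟨M2, hM2⟩ : ∃ M2, M2 = ∑ b ∈ Ioc y₁ y₂, F b * lamz z (n - b) := ⟨_, rfl⟩
  rw [← hM1] at k1 k4
  rw [← hM2] at k4 ⊢
  have m3 := (abs_le.1 t1).2
  have m4 := (abs_le.1 t2).1
  rw [z0]
  have m7 : 12 * D ≤ L * D := mul_le_mul_of_nonneg_right (by linarith only [hLe, hc]) hD0.le
  linarith only [m7, m4, m3, k1, k4, ea, ee1, hD0]

open Classical in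
/-- the lower bound for an arbitrary non-negative first summand -/
theorem mainLR {α a : ℝ} (h1 : 1 / 6 ≤ α) (h2 : α ≤ 1 / 4) (h3 : 1 / 4 ≤ a) (h4 : a + 1 / 100 ≤ (1 - α) / 2)
    (h5 : a ≤ 388 / 1000 ∨ 1 / 5 ≤ α) {h₀ : ℝ} (hh0 : 0 ≤ h₀) (hh1 : h₀ ≤ 1)
    (hden : ∀ B : ℕ, 1 ≤ B → DenT (WF α a B) h₀ B) (ρ : ℝ) (hρ : 0 < ρ) (V : ℕ) :
    ∃ c : ℕ, ∀ A₀ : ℕ, ∃ B : ℕ, ∀ E1 : ℕ, B ≤ E1 → ∃ N₀ : ℕ, ∀ N : ℕ, N₀ ≤ N →
      ∃ D : Finset ℕ, (D.card : ℝ) ≤ Real.log N ^ c ∧ (∀ d ∈ D, Real.log N ^ A₀ < (d : ℝ)) ∧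
      ∀ q : ℕ, 1 ≤ q → (q : ℝ) ≤ (N : ℝ) ^ (1 - α - ρ) → (∀ d ∈ D, ¬ d ∣ q) → ∀ x : ℕ,
      ∀ F : ℕ → ℝ, (∀ b ∈ Icc 1 N, 0 ≤ F b ∧ F b ≤ Real.log N) →
        (({n ∈ Icc 1 N | n ≡ x [MOD q] ∧
          ¬ GoodL F (99 / 100 * h₀) ⌈Real.log N ^ E1⌉₊ (N / Real.log N ^ V) n}.card : ℕ) : ℝ) ≤
          (N : ℝ) / (q * Real.log N ^ V) := by
  have hfam := fam h1 h2 h3 h4 h5 (B := V + 8) (by omega)
  obtain ⟨ct, Nw, hWB⟩ := hfam.wb
  obtain ⟨cc, hcc⟩ := errTR h1 (by linarith) hfam hρ (4 * (V + 1) + 10) (V + 5)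
  obtain ⟨Nl, hlow⟩ := low_TW h1 h2 h3 h4 h5 hh0 hh1 V (hden (V + 8) (by omega))
  refine ⟨cc, fun A₀ => ?_⟩
  obtain ⟨B, hB⟩ := hcc A₀
  refine ⟨B, fun E1 hE1 => ?_⟩
  obtain ⟨N₁, hM1⟩ := hB (E1 + 1)
  obtain ⟨N₄, hM4⟩ := Filter.eventually_atTop.1 (ev_log (V + 6) (s := 1) (by norm_num) (100 + |ct|))
  obtain ⟨Nb, hNb⟩ := eventually_atTop.1
    ((ok_ev h1 h2 h3 h4 h5 (B := V + 8) (by omega) (ε := 1 / 1000) (by norm_num) le_rfl).and
      (bz_ev h1 (by linarith : α ≤ 1)))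
  refine ⟨N₁ + N₄ + Nl + Nw + Nb + 3, fun N hN => ?_⟩
  have hN1 : 1 ≤ N := by omega
  have hN0 : (0 : ℝ) < N := by exact_mod_cast hN1
  obtain ⟨hL100, hLp⟩ := hM4 N (by omega)
  rw [Real.rpow_one] at hLp
  have c1 := hM1 N (by omega)
  have hct := abs_nonneg ct
  have hctl := le_abs_self ct
  have hL1' : 1 ≤ Real.log N := by linarith
  obtain ⟨⟨hok, _⟩, hBZ⟩ := hNb N (by omega)
  have hFV := fv_gc hok (N := N) (Z := Za α N) hN1 hBZ.Z6
  have hW := hWB N (by omega)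
  have hc0 := hW.hc
  -- the parameter `z`
  obtain ⟨z, hz⟩ : ∃ z, z = ⌈Real.log N ^ E1⌉₊ := ⟨_, rfl⟩
  have hzlo : Real.log N ^ E1 ≤ z := by rw [hz]; exact Nat.le_ceil _
  have hL1B : 1 ≤ Real.log N ^ E1 := one_le_pow₀ hL1'
  have hzhi : (z : ℝ) ≤ Real.log N ^ (E1 + 1) := by
    have := Nat.ceil_lt_add_one (show 0 ≤ Real.log N ^ E1 by positivity)
    rw [← hz] at this
    calc (z : ℝ) ≤ Real.log N ^ E1 + 1 := this.le
      _ ≤ Real.log N ^ E1 + Real.log N ^ E1 := by linarith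
      _ = 2 * Real.log N ^ E1 := by ring
      _ ≤ Real.log N * Real.log N ^ E1 := mul_le_mul_of_nonneg_right (by linarith) (by positivity)
      _ = Real.log N ^ (E1 + 1) := by ring
  have hzB : Real.log N ^ B ≤ z := (pow_le_pow_right₀ hL1' hE1).trans hzlo
  obtain ⟨r, hPar, hsum, D, hDc, hDl, hms⟩ := c1 z hzB hzhi
  refine ⟨D, hDc, hDl, fun q hq1 hqN hqD x F hF => ?_⟩
  rw [← hz]
  have : NeZero q := ⟨by omega⟩
  have hFa : ∀ b ∈ Icc 1 N, |F b| ≤ Real.log N := fun b hb => by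
    rw [abs_of_nonneg (hF b hb).1]
    exact (hF b hb).2
  have hBdF : BdAt N (fun b => ((F b : ℝ) : ℂ)) := by
    intro b hb
    have g1 := Pool.Agent.R460.GS.one_le_div hb
    have g2 := hFa b hb
    rw [Complex.norm_real, Real.norm_eq_abs]
    have g3 : Real.log N * 1 ≤ Real.log N ^ 2 * (b.divisors.card : ℝ) := by
      apply mul_le_mul _ g1 zero_le_one (by positivity)
      nlinarith
    linarith
  have hq0 : (0 : ℝ) < q := by exact_mod_cast hq1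
  have hcnt := count_grid (N := N) (A := V + 1) (q := q) (a := x)
    (T := fun n y => |TW F (gF α a (V + 8) N) (WF α a (V + 8) N) N (Za α N) z n y|)
    (S := fun n y => ‖cv (fun b => ((F b : ℝ) : ℂ)) (f1 N (Za α N) (gF α a (V + 8) N) (WF α a (V + 8) N) z r) y N n‖)
    hN1 (by linarith) hLp hq1
    (fun n y hy hn => by
      refine (TW_grid (r := r) hFa hW hy hn hsum).trans (add_le_add le_rfl ?_)
      have e1 : ct * Real.log N * (N / Real.log N ^ (V + 5)) = N / Real.log N ^ (V + 1 + 2) * (ct / Real.log N) := by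
        rw [show V + 5 = (V + 1 + 2) + 2 by ring, pow_add _ (V + 1 + 2) 2]
        field_simp
      rw [e1]
      calc (N : ℝ) / Real.log N ^ (V + 1 + 2) * (ct / Real.log N) ≤ N / Real.log N ^ (V + 1 + 2) * 1 := by
            apply mul_le_mul_of_nonneg_left _ (by positivity)
            rw [div_le_one (by linarith)]
            linarith
        _ = _ := mul_one _)
    (fun n y => norm_nonneg _)
    (fun n y₁ y₂ h12 h2 hn => TW_short hFa hW (fun c h1 h2 => hFV.bd c h1 h2) hPar.hV h12 h2 hn (by linarith))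
    (fun y hy => hms (fun b => ((F b : ℝ) : ℂ)) hBdF q hqN hqD (x : ZMod q) y N hy le_rfl)
  have hup : (N : ℝ) / (q * Real.log N ^ (V + 1)) ≤ N / (q * Real.log N ^ V) := by
    apply div_le_div_of_nonneg_left hN0.le (by positivity)
    apply mul_le_mul_of_nonneg_left _ hq0.le
    exact pow_le_pow_right₀ hL1' (by omega)
  refine le_trans ?_ (hcnt.trans hup)
  exact_mod_cast card_le_card fun n hn => by
    rw [mem_filter] at hn ⊢
    refine ⟨hn.1, hn.2.1, fun hg => hn.2.2 ?_⟩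
    exact hlow N (by omega) z hPar.hV F hF n (mem_Icc.1 hn.1).2 hg

end Pool.Agent.J4H40
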