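import Pool.Agent.J4H40.Yl
import Pool.Agent.J4H40.Yi
import Pool.Agent.J4H40.Ri

set_option autoImplicit false

/-! All classes of the regular moduli: the two theorems together. -/

namespace Pool.Agent.J4H40

open Finset Filter
open Pool.Agent.H373R2.T7 (lamz Vz)
open Pool.Agent.Y883.GJ
open Pool.Agent.R460.GS (vm_le la la_nn win_main' one_le_sing)
open Pool.Agent.W93.PG (wn cnt lam_sub)
open Pool.Agent.H560R3.GB (sing HL)
open Pool.Agent.Y614.GJ.Core (ev_log)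
open Pool.Agent.Y883.T4 (class_le)

open Classical in
/-- all but few integers in a residue class -/
def Few (N q a A : ℕ) (P : ℕ → Prop) : Prop :=
  (({n ∈ Icc 1 N | n ≡ a [MOD q] ∧ ¬ P n}.card : ℕ) : ℝ) ≤ (N : ℝ) / (q * Real.log N ^ A)

lemma ceil_range {L : ℝ} (hL : 2 ≤ L) (E : ℕ) : L ^ E ≤ (⌈L ^ E⌉₊ : ℝ) ∧ (⌈L ^ E⌉₊ : ℝ) ≤ L ^ (E + 1) := by
  have h1 : 1 ≤ L ^ E := one_le_pow₀ (by linarith)
  refine ⟨Nat.le_ceil _, ?_⟩
  have := Nat.ceil_lt_add_one (show 0 ≤ L ^ E by linarith)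
  calc (⌈L ^ E⌉₊ : ℝ) ≤ L ^ E + 1 := this.le
    _ ≤ 2 * L ^ E := by linarith
    _ ≤ L * L ^ E := mul_le_mul_of_nonneg_right hL (by linarith)
    _ = L ^ (E + 1) := by ring

/-- from the lower bound for the first summand `la` to the windows -/
lemma winK_of_GoodL {κ β : ℝ} (hκ : κ + 1 / 200 ≤ β) (hβ : β ≤ 1) (hκ0 : 0 ≤ κ) (A E1 : ℕ)
    (hE1 : 2 * A + 12 ≤ E1) : ∃ N₀ : ℕ, ∀ N : ℕ, N₀ ≤ N → ∀ n : ℕ, n ≤ N → 2 ∣ n →
    (N : ℝ) / Real.log N ^ (A + 1) ≤ n → GoodL la β ⌈Real.log N ^ E1⌉₊ (N / Real.log N ^ (2 * A + 5)) n →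
    WinK κ A n := by
  obtain ⟨X0, hX0⟩ := win_main' (2 * A + 5) E1 (by omega)
  obtain ⟨N₁, h1⟩ := winK_of_grid hκ hβ hκ0 A
  obtain ⟨Ne, hNe⟩ := Pool.Agent.R462.GS.evL 10
  obtain ⟨Nf, hNf⟩ := Filter.eventually_atTop.1 (ev_log (2 * A + 4) (s := 1) (by norm_num) 1)
  refine ⟨X0 + N₁ + Ne + Nf + 1, fun N hN n hn h2n hnN hG => ?_⟩
  have hL := hNe N (by omega)
  have hN0 : (0 : ℝ) < N := by exact_mod_cast (by omega : 0 < N)
  have hn0 : (0 : ℝ) < n := lt_of_lt_of_le (by positivity) hnN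
  have hn1 : n ≠ 0 := by
    intro h
    rw [h, Nat.cast_zero] at hn0
    exact lt_irrefl _ hn0
  obtain ⟨hz1, hz2⟩ := ceil_range (by linarith : 2 ≤ Real.log N) E1
  obtain ⟨z, hz⟩ : ∃ z, z = ⌈Real.log N ^ E1⌉₊ := ⟨_, rfl⟩
  rw [← hz] at hz1 hz2 hG
  obtain ⟨hwin, hS0, hS2⟩ := hX0 N (by omega) n hn h2n hn1 z hz1 hz2
  obtain ⟨-, hLp⟩ := hNf N (by omega)
  rw [Real.rpow_one] at hLp
  have hL0 : 0 < Real.log N := by linarith
  refine h1 N (by omega) 1 le_rfl ?_ n hn hnN hS2 ?_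
  · have : 1 ≤ (N : ℝ) / Real.log N ^ (2 * A + 4) := by
      rw [le_div_iff₀ (by positivity), one_mul]
      exact hLp
    push_cast
    linarith
  · intro i j hij hj
    rw [mul_one] at hj
    rw [mul_one, mul_one]
    have g := hG i j hij hj
    have w1 := (abs_le.1 (hwin i (by omega)).1).2
    have w2 := (abs_le.1 (hwin j hj).1).1
    have e1 : ∑ b ∈ Ioc i j, la b * la (n - b) = wn n i j := by
      unfold wn
      refine sum_congr rfl fun b hb => ?_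
      rw [mem_Ioc] at hb
      rw [lam_sub n b (by omega)]
      rfl
    have e2 : ∑ b ∈ Ioc i j, la b * lamz z (n - b) =
        ∑ b ∈ Icc 1 j, la b * lamz z (n - b) - ∑ b ∈ Icc 1 i, la b * lamz z (n - b) := by
      rw [icc_ioc', icc_ioc', ← sum_Ioc_consecutive _ (Nat.zero_le i) hij]
      ring
    rw [e1, e2] at g
    obtain ⟨L, hLd⟩ : ∃ L, L = Real.log (N : ℝ) := ⟨_, rfl⟩
    rw [← hLd] at w1 w2 g hL hL0 ⊢
    have k1 : (N : ℝ) / L ^ (2 * A + 5 + 2) ≤ N / L ^ (2 * A + 5) := by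
      apply div_le_div_of_nonneg_left hN0.le (by positivity)
      exact pow_le_pow_right₀ (by linarith) (by omega)
    have k2 : (N : ℝ) / L ^ (2 * A + 5) ≤ N / L ^ (2 * A + 4) / 10 := by
      rw [show 2 * A + 5 = (2 * A + 4) + 1 by ring, pow_succ, ← div_div]
      exact div_le_div_of_nonneg_left (by positivity) (by norm_num) hL
    have hβ0 : 0 ≤ β := by linarith
    obtain ⟨P, hP⟩ : ∃ P, P = ∑ b ∈ Icc 1 j, la b * lamz z (n - b) - ∑ b ∈ Icc 1 i, la b * lamz z (n - b) := ⟨_, rfl⟩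
    rw [← hP] at g
    have k3 : sing n * ((j : ℝ) - i) - 4 * (N / L ^ (2 * A + 5 + 2)) ≤ P := by
      rw [hP]
      linarith
    have k4 := mul_le_mul_of_nonneg_left k3 hβ0
    have k5 : β * (4 * (N / L ^ (2 * A + 5 + 2))) ≤ 1 * (4 * (N / L ^ (2 * A + 5 + 2))) :=
      mul_le_mul_of_nonneg_right hβ (by positivity)
    have k6 : β * (sing n * ((j : ℝ) - i) - 4 * (N / L ^ (2 * A + 5 + 2))) =
      β * (sing n * ((j : ℝ) - i)) - β * (4 * (N / L ^ (2 * A + 5 + 2))) := by ring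
    rw [k6] at k4
    have k7 : 0 ≤ (N : ℝ) / L ^ (2 * A + 4) := by positivity
    linarith

open Classical in
/-- small integers in a class and the counting -/
lemma few_of {N q a A : ℕ} {P Q : ℕ → Prop} (hL : 100 ≤ Real.log N) (hq : 1 ≤ q)
    (hqs : (q : ℝ) * Real.log N ^ (A + 1) ≤ N)
    (h : Few N q a (A + 1) P)
    (hPQ : ∀ n : ℕ, n ≤ N → (N : ℝ) / Real.log N ^ (A + 1) ≤ n → P n → Q n) : Few N q a A Q := by
  obtain ⟨L, hLd⟩ : ∃ L, L = Real.log (N : ℝ) := ⟨_, rfl⟩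
  unfold Few at h ⊢
  rw [← hLd] at hL hqs h hPQ ⊢
  have hL0 : 0 < L := by linarith
  have hq0 : (0 : ℝ) < q := by exact_mod_cast hq
  have hone : (1 : ℝ) ≤ N / (q * L ^ (A + 1)) := by rw [_root_.one_le_div (by positivity)]; exact hqs
  have hNN : (0 : ℝ) ≤ N := Nat.cast_nonneg _
  obtain ⟨S1, hS1⟩ : ∃ S1 : Finset ℕ, S1 = {n ∈ Icc 1 N | n % q = a % q ∧ (n : ℝ) ≤ N / L ^ (A + 1)} := ⟨_, rfl⟩
  obtain ⟨S2, hS2⟩ : ∃ S2 : Finset ℕ, S2 = {n ∈ Icc 1 N | n ≡ a [MOD q] ∧ ¬ P n} := ⟨_, rfl⟩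
  rw [← hS2] at h
  have hS1c : (S1.card : ℝ) ≤ 2 * (N / (q * L ^ (A + 1))) := by
    have h3 := class_le N q a hq S1 (N / L ^ (A + 1)) (by positivity) (by
      intro n hn
      rw [hS1, mem_filter] at hn
      exact hn.2)
    have e1 : (N : ℝ) / L ^ (A + 1) / q = N / (q * L ^ (A + 1)) := by rw [div_div, mul_comm]
    rw [e1] at h3
    linarith
  have hsub : {n ∈ Icc 1 N | n ≡ a [MOD q] ∧ ¬ Q n} ⊆ S1 ∪ S2 := by
    intro n hn
    rw [mem_filter] at hn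
    obtain ⟨b1, b3, b4⟩ := hn
    rw [mem_union]
    by_cases k : (n : ℝ) ≤ N / L ^ (A + 1)
    · left
      rw [hS1, mem_filter]
      exact ⟨b1, b3, k⟩
    · right
      rw [hS2, mem_filter]
      exact ⟨b1, b3, fun hGn => b4 (hPQ n (mem_Icc.1 b1).2 (not_le.1 k).le hGn)⟩
  have hcard : (({n ∈ Icc 1 N | n ≡ a [MOD q] ∧ ¬ Q n}.card : ℕ) : ℝ) ≤ (S1.card : ℝ) + S2.card := by
    exact_mod_cast (card_le_card hsub).trans (card_union_le _ _)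
  refine hcard.trans ?_
  have h6 : 0 ≤ (N : ℝ) / (q * L ^ A) := by positivity
  have h4 : (N : ℝ) / (q * L ^ (A + 1)) = N / (q * L ^ A) / L := by
    rw [pow_succ, ← mul_assoc, ← div_div]
  have h7 : (N : ℝ) / (q * L ^ A) / L ≤ N / (q * L ^ A) / 100 := div_le_div_of_nonneg_left h6 (by norm_num) hL
  rw [h4] at hS1c h
  linarith

/-- the two-prime part: regular moduli up to `N ^ (5 / 6 - ρ)` -/
theorem mainWR (ρ : ℝ) (hρ : 0 < ρ) (A : ℕ) :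
    ∃ c : ℕ, ∀ A₀ : ℕ, ∃ B : ℕ, ∀ E1 : ℕ, B ≤ E1 → ∃ N₀ : ℕ, ∀ N : ℕ, N₀ ≤ N →
      ∃ D : Finset ℕ, (D.card : ℝ) ≤ Real.log N ^ c ∧ (∀ d ∈ D, Real.log N ^ A₀ < (d : ℝ)) ∧
      ∀ q : ℕ, 1 ≤ q → (q : ℝ) ≤ (N : ℝ) ^ (5 / 6 - ρ) → (∀ d ∈ D, ¬ d ∣ q) → ∀ x : ℕ,
        (∀ F : ℕ → ℝ, (∀ b ∈ Icc 1 N, 0 ≤ F b ∧ F b ≤ Real.log N) →
          Few N q x A (GoodL F (13 / 100) ⌈Real.log N ^ E1⌉₊ (N / Real.log N ^ A))) ∧
        Few N q x A (fun n => 2 ∣ n → 1 ≤ Real.log n ∧ WinK (1 / 8) A n) := by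
  classical
  obtain ⟨V, hV⟩ : ∃ V, V = 2 * A + 5 := ⟨_, rfl⟩
  obtain ⟨c, hc⟩ := mainLR (α := 1 / 6) (a := 388 / 1000) (h₀ := 137 / 1000) le_rfl
    (by norm_num) (by norm_num) (by norm_num) (Or.inl le_rfl) (by norm_num) (by norm_num)
    (fun B hB => den hB) ρ hρ V
  refine ⟨c, fun A₀ => ?_⟩
  obtain ⟨B, hB⟩ := hc A₀
  refine ⟨B + 2 * A + 12, fun E1 hE1 => ?_⟩
  obtain ⟨N₁, h1⟩ := hB E1 (by omega)
  obtain ⟨N₂, h2⟩ := winK_of_GoodL (κ := 1 / 8) (β := 99 / 100 * (137 / 1000)) (by norm_num) (by norm_num)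
    (by norm_num) A E1 (by omega)
  obtain ⟨N₄, h4⟩ := Filter.eventually_atTop.1 (ev_log (V + A + 4) (s := 1 / 6) (by norm_num) 100)
  refine ⟨N₁ + N₂ + N₄ + 3, fun N hN => ?_⟩
  obtain ⟨D, hD1, hD2, hD⟩ := h1 N (by omega)
  obtain ⟨hL, hLp⟩ := h4 N (by omega)
  have hN1 : 1 ≤ N := by omega
  have hN0 : (0 : ℝ) < N := by exact_mod_cast hN1
  have hN1r : (1 : ℝ) ≤ N := by exact_mod_cast hN1
  have hL1 : 1 ≤ Real.log N := by linarith
  refine ⟨D, hD1, hD2, fun q hq hqN hqD x => ?_⟩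
  have hq0 : (0 : ℝ) < q := by exact_mod_cast hq
  have hqs : (q : ℝ) * Real.log N ^ (A + 1) ≤ N := by
    have e1 : (q : ℝ) ≤ (N : ℝ) ^ (5 / 6 : ℝ) :=
      hqN.trans (Real.rpow_le_rpow_of_exponent_le hN1r (by linarith))
    have e2 : Real.log N ^ (A + 1) ≤ (N : ℝ) ^ (1 / 6 : ℝ) := (pow_le_pow_right₀ hL1 (by omega)).trans hLp
    calc (q : ℝ) * Real.log N ^ (A + 1) ≤ (N : ℝ) ^ (5 / 6 : ℝ) * (N : ℝ) ^ (1 / 6 : ℝ) := by gcongr
      _ = N := by rw [← Real.rpow_add hN0]; norm_num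
  have hup : ∀ j, j ≤ V → (N : ℝ) / (q * Real.log N ^ V) ≤ N / (q * Real.log N ^ j) := by
    intro j hj
    apply div_le_div_of_nonneg_left hN0.le (by positivity)
    apply mul_le_mul_of_nonneg_left _ hq0.le
    exact pow_le_pow_right₀ hL1 hj
  have hqN' : (q : ℝ) ≤ (N : ℝ) ^ (1 - 1 / 6 - ρ) := by
    refine hqN.trans (le_of_eq ?_)
    congr 1
    ring
  have hF := hD q hq hqN' hqD x
  refine ⟨fun F hFb => ?_, ?_⟩
  · unfold Few
    refine le_trans ?_ ((hF F hFb).trans (hup A (by omega)))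
    exact_mod_cast card_le_card fun n hn => by
      rw [mem_filter] at hn ⊢
      refine ⟨hn.1, hn.2.1, fun hg => hn.2.2 ?_⟩
      intro y₁ y₂ h12 h3
      have k1 := hg y₁ y₂ h12 h3
      have hnN := (mem_Icc.1 hn.1).2
      have k2 : 0 ≤ ∑ b ∈ Ioc y₁ y₂, F b * lamz ⌈Real.log N ^ E1⌉₊ (n - b) := by
        refine sum_nonneg fun b hb => ?_
        rw [mem_Ioc] at hb
        exact mul_nonneg (hFb b (mem_Icc.2 ⟨by omega, by omega⟩)).1 (Pool.Agent.W93.PG.lamz_nn _ _)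
      have k3 : (N : ℝ) / Real.log N ^ V ≤ N / Real.log N ^ A := by
        apply div_le_div_of_nonneg_left hN0.le (by positivity)
        exact pow_le_pow_right₀ hL1 (by omega)
      linarith
  · refine few_of (P := fun n => GoodL la (99 / 100 * (137 / 1000)) ⌈Real.log N ^ E1⌉₊ (N / Real.log N ^ V) n)
      hL hq hqs ?_ ?_
    · unfold Few
      exact (hF la (fun b hb => ⟨la_nn b, vm_le hb⟩)).trans (hup (A + 1) (by omega))
    · intro n hn hnN hg h2n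
      rw [hV] at hg
      refine ⟨?_, h2 N (by omega) n hn h2n hnN hg⟩
      have e1 : (N : ℝ) ^ (5 / 6 : ℝ) ≤ n := by
        refine le_trans ?_ hnN
        rw [le_div_iff₀ (by positivity)]
        have e2 : Real.log N ^ (A + 1) ≤ (N : ℝ) ^ (1 / 6 : ℝ) := (pow_le_pow_right₀ hL1 (by omega)).trans hLp
        calc (N : ℝ) ^ (5 / 6 : ℝ) * Real.log N ^ (A + 1) ≤ (N : ℝ) ^ (5 / 6 : ℝ) * (N : ℝ) ^ (1 / 6 : ℝ) := by gcongr
          _ = N := by rw [← Real.rpow_add hN0]; norm_num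
      have e3 := Real.log_le_log (by positivity) e1
      rw [Real.log_rpow hN0] at e3
      linarith

end Pool.Agent.J4H40
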