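import Pool.Agent.J4H40.Ym

set_option autoImplicit false

/-! All classes of the regular moduli: one set of exceptional integers. -/

namespace Pool.Agent.J4H40

open Finset Filter
open Pool.Agent.H373R2.T7 (lamz Vz)
open Pool.Agent.H560R3.GB (sing HL)
open Pool.Agent.R460.GS (la)

lemma few_card {N q a A : ℕ} {P : ℕ → Prop} [DecidablePred fun n => 2 ∣ n ∧ n ≡ a [MOD q] ∧ ¬ P n] :
    (({n ∈ Icc 1 N | 2 ∣ n ∧ n ≡ a [MOD q] ∧ ¬ P n}.card : ℕ) : ℝ) ≤ (N : ℝ) / (q * Real.log N ^ A) ↔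
      Few N q a A (fun n => 2 ∣ n → P n) := by
  classical
  unfold Few
  have : {n ∈ Icc 1 N | 2 ∣ n ∧ n ≡ a [MOD q] ∧ ¬ P n} =
      {n ∈ Icc 1 N | n ≡ a [MOD q] ∧ ¬ (fun n => 2 ∣ n → P n) n} := by
    ext n
    simp only [mem_filter]
    tauto
  rw [this]
  constructor <;> (intro h; convert h)

/-- everything with one set of exceptional integers -/
theorem allReg {κ σ ρ : ℝ} (hκ : 0 < κ) (hσ0 : 0 < σ) (hσρ : σ < ρ) (hσ : σ ≤ 1 / 2) (A M : ℕ) :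
    ∃ k : ℕ, ∀ A₀ : ℕ, ∃ E₀ : ℕ, ∀ E : ℕ, E₀ ≤ E → ∃ N₀ : ℕ, ∀ N : ℕ, N₀ ≤ N → ∀ c : ℕ → ℝ, Co N κ σ c →
      ∃ D : Finset ℕ, (D.card : ℝ) ≤ Real.log N ^ k ∧ (∀ d ∈ D, Real.log N ^ A₀ < (d : ℝ)) ∧
      ∀ q : ℕ, 1 ≤ q → (∀ d ∈ D, ¬ d ∣ q) → ∀ x : ℕ,
        ((q : ℝ) ≤ (N : ℝ) ^ (5 / 6 - ρ) →
          (∀ F : ℕ → ℝ, (∀ b ∈ Icc 1 N, 0 ≤ F b ∧ F b ≤ Real.log N) →
            Few N q x A (GoodL F (13 / 100) ⌈Real.log N ^ E⌉₊ (N / Real.log N ^ A))) ∧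
          Few N q x A (fun n => 2 ∣ n → 1 ≤ Real.log n ∧ WinK (1 / 8) A n)) ∧
        ((q : ℝ) ≤ (N : ℝ) ^ (1 - ρ) →
          (∀ F : ℕ → ℂ, (∀ b ∈ Icc 1 N, ‖F b‖ ≤ Real.log N) →
            Few N q x A (GoodF N F c ⌈Real.log N ^ E⌉₊ A)) ∧
          Few N q x A (fun n => 2 ∣ n → GoodN N c A n) ∧
          Few N q x A (fun n => 2 ∣ n → (M : ℝ) * HL n ≤ chen ρ n)) := by
  classical
  have hρ : 0 < ρ := hσ0.trans hσρ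
  obtain ⟨k₁, h1⟩ := mainWR ρ hρ A
  obtain ⟨k₂, h2⟩ := mainKF hκ hσ0 hσρ hσ A
  obtain ⟨κ', σ', g1, g2, g3, g4, Nc, hch⟩ := chenCond hρ M A
  obtain ⟨k₃, h3⟩ := mainKF g1 g2 g3 g4 (2 * A + 4)
  refine ⟨k₁ + k₂ + k₃ + 1, fun A₀ => ?_⟩
  obtain ⟨B₁, h1⟩ := h1 A₀
  obtain ⟨B₂, h2⟩ := h2 A₀
  obtain ⟨B₃, h3⟩ := h3 A₀
  refine ⟨B₁ + B₂ + B₃, fun E hE => ?_⟩
  obtain ⟨N₁, h1⟩ := h1 E (by omega)
  obtain ⟨N₂, h2⟩ := h2 E (by omega)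
  obtain ⟨N₃, h3⟩ := h3 E (by omega)
  obtain ⟨N₄, h4⟩ := Pool.Agent.R462.GS.evL 3
  refine ⟨N₁ + N₂ + N₃ + N₄ + Nc + 1, fun N hN c hc => ?_⟩
  obtain ⟨D₁, d1, e1, h1⟩ := h1 N (by omega)
  obtain ⟨D₂, d2, e2, h2⟩ := h2 N (by omega) c hc
  obtain ⟨D₃, d3, e3, h3⟩ := h3 N (by omega) (pc N κ' σ') (pc_co N κ' σ')
  have hL := h4 N (by omega)
  have hL1 : 1 ≤ Real.log N := by linarith
  refine ⟨D₁ ∪ D₂ ∪ D₃, ?_, ?_, ?_⟩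
  · have c1 : ((D₁ ∪ D₂ ∪ D₃).card : ℝ) ≤ (D₁.card : ℝ) + D₂.card + D₃.card := by
      exact_mod_cast (card_union_le _ _).trans (Nat.add_le_add_right (card_union_le _ _) _)
    have p1 : Real.log N ^ k₁ ≤ Real.log N ^ (k₁ + k₂ + k₃) := pow_le_pow_right₀ hL1 (by omega)
    have p2 : Real.log N ^ k₂ ≤ Real.log N ^ (k₁ + k₂ + k₃) := pow_le_pow_right₀ hL1 (by omega)
    have p3 : Real.log N ^ k₃ ≤ Real.log N ^ (k₁ + k₂ + k₃) := pow_le_pow_right₀ hL1 (by omega)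
    have p4 : 0 ≤ Real.log N ^ (k₁ + k₂ + k₃) := by positivity
    rw [pow_succ]
    nlinarith
  · intro d hd
    rw [mem_union, mem_union] at hd
    rcases hd with (hd | hd) | hd
    · exact e1 d hd
    · exact e2 d hd
    · exact e3 d hd
  · intro q hq hqD x
    have q1 : ∀ d ∈ D₁, ¬ d ∣ q := fun d hd => hqD d (mem_union_left _ (mem_union_left _ hd))
    have q2 : ∀ d ∈ D₂, ¬ d ∣ q := fun d hd => hqD d (mem_union_left _ (mem_union_right _ hd))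
    have q3 : ∀ d ∈ D₃, ¬ d ∣ q := fun d hd => hqD d (mem_union_right _ hd)
    refine ⟨fun hqN => h1 q hq hqN q1 x, fun hqN => ?_⟩
    obtain ⟨a1, a2⟩ := h2 q hq hqN q2 x
    obtain ⟨-, b2⟩ := h3 q hq hqN q3 x
    refine ⟨fun F hF => ?_, few_card.1 a2, ?_⟩
    · exact a1 F hF
    · exact few_card.1 (hch N (by omega) q hq hqN x b2)

end Pool.Agent.J4H40
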