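import Pool.Agent.J4H40.Yn

set_option autoImplicit false

/-! The regular moduli, arbitrary first summands: both theorems with one set of exceptional integers. -/

namespace Pool.Agent.J4H40

open Finset Filter

/-- both theorems with one set of exceptional integers, for the coefficients `c` and the coefficients `pc N κ' σ'` -/
theorem coreF {κ σ ρ κ' σ' : ℝ} (hκ : 0 < κ) (hσ0 : 0 < σ) (hσρ : σ < ρ) (hσ : σ ≤ 1 / 2)
    (hκ' : 0 < κ') (hσ0' : 0 < σ') (hσρ' : σ' < ρ) (hσ' : σ' ≤ 1 / 2) (V : ℕ) :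
    ∃ k : ℕ, ∀ A₀ : ℕ, ∃ E₀ : ℕ, ∀ E : ℕ, E₀ ≤ E → ∃ N₀ : ℕ, ∀ N : ℕ, N₀ ≤ N → ∀ c : ℕ → ℝ, Co N κ σ c →
      ∃ D : Finset ℕ, (D.card : ℝ) ≤ Real.log N ^ k ∧ (∀ d ∈ D, Real.log N ^ A₀ < (d : ℝ)) ∧
      ∀ q : ℕ, 1 ≤ q → (∀ d ∈ D, ¬ d ∣ q) → ∀ x : ℕ,
        ((q : ℝ) ≤ (N : ℝ) ^ (5 / 6 - ρ) → ∀ F : ℕ → ℝ, (∀ b ∈ Icc 1 N, 0 ≤ F b ∧ F b ≤ Real.log N) →
            Few N q x V (GoodL F (99 / 100 * (137 / 1000)) ⌈Real.log N ^ E⌉₊ (N / Real.log N ^ V))) ∧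
        ((q : ℝ) ≤ (N : ℝ) ^ (1 - ρ) → ∀ F : ℕ → ℂ, (∀ b ∈ Icc 1 N, ‖F b‖ ≤ Real.log N) →
            Few N q x V (GoodF N F c ⌈Real.log N ^ E⌉₊ V) ∧
            Few N q x V (GoodF N F (pc N κ' σ') ⌈Real.log N ^ E⌉₊ V)) := by
  classical
  have hρ : 0 < ρ := hσ0.trans hσρ
  obtain ⟨k₁, h1⟩ := mainLR (α := 1 / 6) (a := 388 / 1000) (h₀ := 137 / 1000) le_rfl
    (by norm_num) (by norm_num) (by norm_num) (Or.inl le_rfl) (by norm_num) (by norm_num)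
    (fun B hB => den hB) ρ hρ V
  obtain ⟨k₂, h2⟩ := mainKF hκ hσ0 hσρ hσ V
  obtain ⟨k₃, h3⟩ := mainKF hκ' hσ0' hσρ' hσ' V
  refine ⟨k₁ + k₂ + k₃ + 1, fun A₀ => ?_⟩
  obtain ⟨B₁, h1⟩ := h1 A₀
  obtain ⟨B₂, h2⟩ := h2 A₀
  obtain ⟨B₃, h3⟩ := h3 A₀
  refine ⟨B₁ + B₂ + B₃, fun E hE => ?_⟩
  obtain ⟨N₁, h1⟩ := h1 E (by omega)
  obtain ⟨N₂, h2⟩ := h2 E (by omega)
  obtain ⟨N₃, h3⟩ := h3 E (by omega)
  obtain ⟨N₄, h4⟩ := Pool.Agent.R462.GS.evL 3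
  refine ⟨N₁ + N₂ + N₃ + N₄ + 1, fun N hN c hc => ?_⟩
  obtain ⟨D₁, d1, e1, h1⟩ := h1 N (by omega)
  obtain ⟨D₂, d2, e2, h2⟩ := h2 N (by omega) c hc
  obtain ⟨D₃, d3, e3, h3⟩ := h3 N (by omega) (pc N κ' σ') (pc_co N κ' σ')
  have hL := h4 N (by omega)
  have hL1 : 1 ≤ Real.log N := by linarith
  refine ⟨D₁ ∪ D₂ ∪ D₃, ?_, ?_, ?_⟩
  · have c1 : ((D₁ ∪ D₂ ∪ D₃).card : ℝ) ≤ (D₁.card : ℝ) + D₂.card + D₃.card := by
      exact_mod_cast (card_union_le _ _).trans (Nat.add_le_add_right (card_union_le _ _) _)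
    have p1 : Real.log N ^ k₁ ≤ Real.log N ^ (k₁ + k₂ + k₃) := pow_le_pow_right₀ hL1 (by omega)
    have p2 : Real.log N ^ k₂ ≤ Real.log N ^ (k₁ + k₂ + k₃) := pow_le_pow_right₀ hL1 (by omega)
    have p3 : Real.log N ^ k₃ ≤ Real.log N ^ (k₁ + k₂ + k₃) := pow_le_pow_right₀ hL1 (by omega)
    have p4 : 0 ≤ Real.log N ^ (k₁ + k₂ + k₃) := by positivity
    rw [pow_succ]
    nlinarith
  · intro d hd
    rw [mem_union, mem_union] at hd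
    rcases hd with (hd | hd) | hd
    · exact e1 d hd
    · exact e2 d hd
    · exact e3 d hd
  · intro q hq hqD x
    have q1 : ∀ d ∈ D₁, ¬ d ∣ q := fun d hd => hqD d (mem_union_left _ (mem_union_left _ hd))
    have q2 : ∀ d ∈ D₂, ¬ d ∣ q := fun d hd => hqD d (mem_union_left _ (mem_union_right _ hd))
    have q3 : ∀ d ∈ D₃, ¬ d ∣ q := fun d hd => hqD d (mem_union_right _ hd)
    refine ⟨fun hqN F hF => ?_, fun hqN F hF => ⟨?_, ?_⟩⟩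
    · refine h1 q hq ?_ q1 x F hF
      refine hqN.trans (le_of_eq ?_)
      congr 1
      ring
    · exact (h2 q hq hqN q2 x).1 F hF
    · exact (h3 q hq hqN q3 x).1 F hF

/-! ### the reflection -/

/-- the function `m ↦ F m` at the place `b = 6 N + 1 - 6 m` -/
noncomputable def R6 {R : Type} [Zero R] (F : ℕ → R) (N b : ℕ) : R :=
  if b % 6 = 1 ∧ b + 5 ≤ 6 * N then F ((6 * N + 1 - b) / 6) else 0

lemma R6_at {R : Type} [Zero R] (F : ℕ → R) {N m : ℕ} (h1 : 1 ≤ m) (h2 : m ≤ N) : R6 F N (6 * N + 1 - 6 * m) = F m := by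
  unfold R6
  rw [if_pos (by omega)]
  congr 1
  omega

lemma sum_R6 {R : Type} [CommRing R] (F G : ℕ → R) {N u y₁ y₂ : ℕ} (h2 : y₂ ≤ N) (hu : N ≤ y₁ + u) :
    ∑ b ∈ Ioc (6 * (N - y₂)) (6 * (N - y₁)), R6 F N b * G (6 * u + 2 - b) =
      ∑ m ∈ Ioc y₁ y₂, F m * G (6 * (m + u - N) + 1) := by
  classical
  have hinj : Set.InjOn (fun m => 6 * N + 1 - 6 * m) (Ioc y₁ y₂ : Finset ℕ) := by
    intro m hm m' hm' h
    rw [mem_coe, mem_Ioc] at hm hm'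
    simp only at h
    omega
  have hsub : (Ioc y₁ y₂).image (fun m => 6 * N + 1 - 6 * m) ⊆ Ioc (6 * (N - y₂)) (6 * (N - y₁)) := by
    intro b hb
    rw [mem_image] at hb
    obtain ⟨m, hm, rfl⟩ := hb
    rw [mem_Ioc] at hm ⊢
    omega
  rw [← sum_subset hsub, sum_image hinj]
  · refine sum_congr rfl fun m hm => ?_
    rw [mem_Ioc] at hm
    rw [R6_at F (by omega) (by omega)]
    congr 2
    omega
  · intro b hb hnb
    rw [mem_Ioc] at hb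
    have : R6 F N b = 0 := by
      unfold R6
      rw [if_neg]
      rintro ⟨k1, k2⟩
      apply hnb
      rw [mem_image]
      refine ⟨(6 * N + 1 - b) / 6, ?_, ?_⟩
      · rw [mem_Ioc]
        omega
      · omega
    rw [this, zero_mul]

lemma R6_nn {F : ℕ → ℝ} {N : ℕ} {X : ℝ} (hX : 0 ≤ X) (hF : ∀ m ∈ Icc 1 N, 0 ≤ F m ∧ F m ≤ X) (b : ℕ) :
    0 ≤ R6 F N b ∧ R6 F N b ≤ X := by
  unfold R6
  split_ifs with h
  · apply hF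
    rw [mem_Icc]
    omega
  · exact ⟨le_rfl, hX⟩

lemma R6_norm {F : ℕ → ℂ} {N : ℕ} {X : ℝ} (hX : 0 ≤ X) (hF : ∀ m ∈ Icc 1 N, ‖F m‖ ≤ X) (b : ℕ) :
    ‖R6 F N b‖ ≤ X := by
  unfold R6
  split_ifs with h
  · apply hF
    rw [mem_Icc]
    omega
  · rw [norm_zero]
    exact hX

end Pool.Agent.J4H40
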