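import Pool.Agent.J4H40.Za
import Pool.Agent.R460.GP.Win

set_option autoImplicit false

/-! The main term for the two halves `6 m - 1`, `6 (m + h) + 1` of the condition for missing integers. -/

namespace Pool.Agent.J4H40

open Finset Filter
open Pool.Agent.H373R2.T7 (lamz Vz pz Vz_pos mem_pz)
open Pool.Agent.R460.GS (vm_le la la_nn one_le_sing)
open Pool.Agent.R460.GP (winP_main sing_model)
open Pool.Agent.H560R3.GB (sing)

/-- the powers of three -/
lemma three_pow (X : ℕ) (hX : 1 ≤ X) : ∑ p ∈ (Icc 1 X).filter (fun p => 3 ∣ p), la p ≤ Real.log X := by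
  classical
  have hsub : ((Icc 1 X).filter (fun p => 3 ∣ p)).filter (fun p => la p ≠ 0) ⊆
      (Icc 1 (Nat.log 3 X)).image (fun j => 3 ^ j) := by
    intro p hp
    rw [mem_filter, mem_filter, mem_Icc] at hp
    obtain ⟨⟨⟨h1, h2⟩, h3⟩, h4⟩ := hp
    unfold la at h4
    rw [ArithmeticFunction.vonMangoldt_ne_zero_iff, isPrimePow_nat_iff] at h4
    obtain ⟨r, k, hr, hk, rfl⟩ := h4
    have h5 : 3 ∣ r := Nat.prime_three.dvd_of_dvd_pow h3
    have h6 : 3 = r := (Nat.prime_dvd_prime_iff_eq Nat.prime_three hr).1 h5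
    subst h6
    rw [mem_image]
    exact ⟨k, mem_Icc.2 ⟨hk, Nat.le_log_of_pow_le (by norm_num) h2⟩, rfl⟩
  have h1 : ∑ p ∈ (Icc 1 X).filter (fun p => 3 ∣ p), la p ≤
      ∑ p ∈ (Icc 1 (Nat.log 3 X)).image (fun j => 3 ^ j), la p := by
    rw [← sum_filter_ne_zero]
    exact sum_le_sum_of_subset_of_nonneg hsub fun _ _ _ => la_nn _
  refine h1.trans ?_
  rw [sum_image (fun a _ b _ h => Nat.pow_right_injective (le_refl 2 |>.trans (by norm_num : 2 ≤ 3)) h)]
  have h2 : ∀ j ∈ Icc 1 (Nat.log 3 X), la (3 ^ j) = Real.log 3 := by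
    intro j hj
    rw [mem_Icc] at hj
    unfold la
    rw [ArithmeticFunction.vonMangoldt_apply_pow (by omega), ArithmeticFunction.vonMangoldt_apply_prime Nat.prime_three]
    norm_num
  rw [sum_congr rfl h2, sum_const, Nat.card_Icc, Nat.add_sub_cancel, nsmul_eq_mul]
  have h3 : ((3 ^ Nat.log 3 X : ℕ) : ℝ) ≤ X := by exact_mod_cast Nat.pow_log_le_self 3 (by omega)
  have h4 := Real.log_le_log (by positivity) h3
  push_cast at h4
  rw [Real.log_pow] at h4
  exact h4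

/-- the class `5 (mod 6)` -/
lemma res5 {X y₁ y₂ : ℕ} {L : ℝ} (G : ℕ → ℝ) (hX : 1 ≤ X) (h2 : 6 * y₂ ≤ X)
    (hG : ∀ p ∈ Ioc (6 * y₁) (6 * y₂), 0 ≤ G p ∧ G p ≤ L)
    (hG0 : ∀ p ∈ Ioc (6 * y₁) (6 * y₂), p % 2 = 0 ∨ p % 3 = 1 → G p = 0) (hL : 0 ≤ L) :
    |∑ m ∈ Ioc y₁ y₂, la (6 * m - 1) * G (6 * m - 1) - ∑ p ∈ Ioc (6 * y₁) (6 * y₂), la p * G p| ≤
      L * Real.log X := by
  classical
  have e1 : ∑ p ∈ (Ioc (6 * y₁) (6 * y₂)).filter (fun p => p % 6 = 5), la p * G p =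
      ∑ m ∈ Ioc y₁ y₂, la (6 * m - 1) * G (6 * m - 1) := by
    symm
    apply sum_nbij (fun m => 6 * m - 1)
    · intro m hm
      rw [mem_Ioc] at hm
      rw [mem_filter, mem_Ioc]
      omega
    · intro m hm m' hm' h
      rw [mem_coe, mem_Ioc] at hm hm'
      simp only at h
      omega
    · intro p hp
      rw [mem_coe, mem_filter, mem_Ioc] at hp
      refine ⟨(p + 1) / 6, ?_, ?_⟩
      · rw [mem_coe, mem_Ioc]
        omega
      · simp only
        omega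
    · intro m _
      rfl
  have e2 := sum_filter_add_sum_filter_not (Ioc (6 * y₁) (6 * y₂)) (fun p => p % 6 = 5) (fun p => la p * G p)
  rw [e1] at e2
  rw [← e2, sub_add_cancel_left, abs_neg]
  have e3 : ∀ p ∈ (Ioc (6 * y₁) (6 * y₂)).filter (fun p => ¬ p % 6 = 5),
      |la p * G p| ≤ if 3 ∣ p then L * la p else 0 := by
    intro p hp
    rw [mem_filter] at hp
    obtain ⟨g1, g2⟩ := hG p hp.1
    split_ifs with h
    · rw [abs_of_nonneg (mul_nonneg (la_nn _) g1), mul_comm]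
      exact mul_le_mul_of_nonneg_right g2 (la_nn _)
    · rw [hG0 p hp.1 (by omega), mul_zero, abs_zero]
  calc |∑ p ∈ (Ioc (6 * y₁) (6 * y₂)).filter (fun p => ¬ p % 6 = 5), la p * G p| ≤
        ∑ p ∈ (Ioc (6 * y₁) (6 * y₂)).filter (fun p => ¬ p % 6 = 5), (if 3 ∣ p then L * la p else 0) :=
        (abs_sum_le_sum_abs _ _).trans (sum_le_sum e3)
    _ ≤ ∑ p ∈ Icc 1 X, (if 3 ∣ p then L * la p else 0) := by
        refine sum_le_sum_of_subset_of_nonneg (fun p hp => ?_) fun p _ _ => ?_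
        · rw [mem_filter, mem_Ioc] at hp
          rw [mem_Icc]
          omega
        · split_ifs
          · exact mul_nonneg hL (la_nn _)
          · exact le_rfl
    _ = L * ∑ p ∈ (Icc 1 X).filter (fun p => 3 ∣ p), la p := by
        rw [← sum_filter, mul_sum]
    _ ≤ L * Real.log X := mul_le_mul_of_nonneg_left (three_pow X hX) hL

/-- `|6 (u - N) + 2|` -/
def K6 (N u : ℕ) : ℕ := if N ≤ u then 6 * (u - N) + 2 else 6 * (N - u) - 2

lemma K6_int (N u : ℕ) : K6 N u = (6 * ((u : ℤ) - N) + 2).natAbs := by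
  unfold K6
  split_ifs <;> omega

lemma lam_zero {z n : ℕ} (hz : 3 ≤ z) (h : n % 2 = 0 ∨ n % 3 = 0) : lamz z n = 0 := by
  unfold lamz
  rw [if_neg]
  intro h1
  rcases h with h | h
  · exact h1 2 (mem_pz.2 ⟨by omega, Nat.prime_two⟩) (Nat.dvd_of_mod_eq_zero h)
  · exact h1 3 (mem_pz.2 ⟨by omega, Nat.prime_three⟩) (Nat.dvd_of_mod_eq_zero h)

lemma ioc_sub (f : ℕ → ℝ) {y₁ y₂ : ℕ} (h : y₁ ≤ y₂) :
    ∑ b ∈ Ioc y₁ y₂, f b = ∑ b ∈ Icc 1 y₂, f b - ∑ b ∈ Icc 1 y₁, f b := by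
  rw [icc_ioc', icc_ioc', ← sum_Ioc_consecutive _ (Nat.zero_le y₁) h]
  ring

/-- the main term -/
theorem main6 (V E : ℕ) (hE : V + 6 ≤ E) : ∃ N₀ : ℕ, ∀ N : ℕ, N₀ ≤ N → ∀ z : ℕ,
    Real.log (14 * N : ℕ) ^ E ≤ z → (z : ℝ) ≤ Real.log (14 * N : ℕ) ^ (E + 1) →
    ∀ u : ℕ, u ≤ 2 * N → ∀ y₁ y₂ : ℕ, y₁ ≤ y₂ → y₂ ≤ N → N ≤ y₁ + u →
      |∑ m ∈ Ioc y₁ y₂, la (6 * m - 1) * lamz z (6 * (m + u - N) + 1) -
        6 * sing (K6 N u) * ((y₂ : ℝ) - y₁)| ≤ (14 * N : ℕ) / Real.log (14 * N : ℕ) ^ V := by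
  classical
  obtain ⟨X0, hX0⟩ := winP_main V E hE
  obtain ⟨X1, hX1⟩ := sing_model V E hE
  obtain ⟨X2, hX2⟩ := Pool.Agent.R462.GS.evL 10
  obtain ⟨X3, hX3⟩ := Pool.Agent.R462.GS.evlog (V + 2) 2 1 (by norm_num)
  refine ⟨X0 + X1 + X2 + X3 + 1, fun N hN z hz1 hz2 u hu y₁ y₂ h12 h2 hy => ?_⟩
  obtain ⟨X, hX⟩ : ∃ X : ℕ, X = 14 * N := ⟨_, rfl⟩
  rw [← hX] at hz1 hz2 ⊢
  have hL := hX2 X (by omega)
  have hXp := hX3 X (by omega)
  rw [Real.rpow_one] at hXp
  obtain ⟨K, hK⟩ : ∃ K, K = K6 N u := ⟨_, rfl⟩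
  have hKX : K ≤ X ∧ 2 ∣ K ∧ K ≠ 0 := by
    rw [hK]
    unfold K6
    split_ifs <;> omega
  obtain ⟨hw, hS0, hS2⟩ := hX0 X (by omega) K hKX.1 hKX.2.1 hKX.2.2 z hz1 hz2
  obtain ⟨-, -, -, -, hV, -⟩ := hX1 X (by omega) K hKX.1 hKX.2.1 hKX.2.2 z hz1 hz2
  have hz3 : 3 ≤ z := by
    have h3 : (10 : ℝ) ≤ z := by
      refine le_trans ?_ hz1
      calc (10 : ℝ) ≤ Real.log X := hL
        _ = Real.log X ^ 1 := (pow_one _).symm
        _ ≤ Real.log X ^ E := pow_le_pow_right₀ (by linarith) (by omega)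
    have h4 : 10 ≤ z := by exact_mod_cast h3
    omega
  have hL0 : 0 < Real.log X := by linarith
  have hXr : (0 : ℝ) < X := by exact_mod_cast (by omega : 0 < X)
  have hlam : ∀ n, 0 ≤ lamz z n ∧ lamz z n ≤ Real.log X := fun n =>
    ⟨Pool.Agent.W93.PG.lamz_nn _ _, (Pool.Agent.W93.PG.lamz_le _ _).trans hV⟩
  rw [← hK]
  have hfin : |∑ m ∈ Ioc y₁ y₂, la (6 * m - 1) * lamz z (6 * (m + u - N) + 1) -
        6 * sing K * ((y₂ : ℝ) - y₁)| ≤ 8 * (X / Real.log X ^ (V + 2)) + Real.log X * Real.log X := by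
    by_cases hc : N ≤ u
    · have hKv : K = 6 * (u - N) + 2 := by rw [hK]; unfold K6; rw [if_pos hc]
      have h5 := res5 (X := X) (y₁ := y₁) (y₂ := y₂) (L := Real.log X) (fun p => lamz z (p + K)) (by omega) (by omega)
        (fun p _ => hlam _) (fun p hp h => lam_zero hz3 (by omega)) hL0.le
      have e1 : ∑ m ∈ Ioc y₁ y₂, la (6 * m - 1) * lamz z (6 * (m + u - N) + 1) =
          ∑ m ∈ Ioc y₁ y₂, la (6 * m - 1) * lamz z (6 * m - 1 + K) := by
        refine sum_congr rfl fun m hm => ?_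
        rw [mem_Ioc] at hm
        congr 2
        omega
      rw [e1]
      have e2 := ioc_sub (fun p => la p * lamz z (p + K)) (show 6 * y₁ ≤ 6 * y₂ by omega)
      have w1 := (hw (6 * y₁) (by omega)).1
      have w2 := (hw (6 * y₂) (by omega)).1
      unfold la at e2 h5 ⊢
      rw [e2] at h5
      push_cast at w1 w2
      rw [abs_le] at w1 w2 h5 ⊢
      constructor <;> linarith
    · have hKv : K = 6 * (N - u) - 2 := by rw [hK]; unfold K6; rw [if_neg hc]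
      have h5 := res5 (X := X) (y₁ := y₁) (y₂ := y₂) (L := Real.log X) (fun p => lamz z (p - K)) (by omega) (by omega)
        (fun p _ => hlam _) (fun p hp h => lam_zero hz3 (by rw [mem_Ioc] at hp; omega)) hL0.le
      have e1 : ∑ m ∈ Ioc y₁ y₂, la (6 * m - 1) * lamz z (6 * (m + u - N) + 1) =
          ∑ m ∈ Ioc y₁ y₂, la (6 * m - 1) * lamz z (6 * m - 1 - K) := by
        refine sum_congr rfl fun m hm => ?_
        rw [mem_Ioc] at hm
        congr 2
        omega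
      rw [e1]
      have e3 : ∑ p ∈ Ioc (6 * y₁) (6 * y₂), la p * lamz z (p - K) =
          ∑ n ∈ Ioc (6 * y₁ - K) (6 * y₂ - K), lamz z n * la (n + K) := by
        apply sum_nbij' (fun p => p - K) (fun n => n + K)
        · intro p hp
          rw [mem_Ioc] at hp ⊢
          omega
        · intro n hn
          rw [mem_Ioc] at hn ⊢
          omega
        · intro p hp
          rw [mem_Ioc] at hp
          omega
        · intro n hn
          omega
        · intro p hp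
          rw [mem_Ioc] at hp
          rw [mul_comm, Nat.sub_add_cancel (by omega)]
      rw [e3, ioc_sub (fun n => lamz z n * la (n + K)) (show 6 * y₁ - K ≤ 6 * y₂ - K by omega)] at h5
      have w1 := (hw (6 * y₁ - K) (by omega)).2.1
      have w2 := (hw (6 * y₂ - K) (by omega)).2.1
      unfold la at h5 ⊢
      have c1 : ((6 * y₁ - K : ℕ) : ℝ) = 6 * y₁ - K := by
        rw [Nat.cast_sub (by omega)]
        push_cast
        ring
      have c2 : ((6 * y₂ - K : ℕ) : ℝ) = 6 * y₂ - K := by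
        rw [Nat.cast_sub (by omega)]
        push_cast
        ring
      rw [c1] at w1
      rw [c2] at w2
      rw [abs_le] at w1 w2 h5 ⊢
      constructor <;> linarith
  refine hfin.trans ?_
  obtain ⟨L, hLd⟩ : ∃ L, L = Real.log (X : ℝ) := ⟨_, rfl⟩
  rw [← hLd] at hXp hL hL0 ⊢
  have k1 : (X : ℝ) / L ^ (V + 2) ≤ X / L ^ V / 100 := by
    rw [pow_add, ← div_div]
    apply div_le_div_of_nonneg_left (by positivity) (by norm_num)
    nlinarith
  have k2 : L * L ≤ X / L ^ V / 2 := by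
    rw [le_div_iff₀ (by norm_num), le_div_iff₀ (by positivity)]
    calc L * L * 2 * L ^ V = 2 * L ^ (V + 2) := by ring
      _ ≤ X := hXp
  have k3 : 0 ≤ (X : ℝ) / L ^ V := by positivity
  linarith

end Pool.Agent.J4H40
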