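import Pool.Agent.J4H40.Zb
import Pool.Agent.J4H40.Xc

set_option autoImplicit false

/-! From the weighted sums over the two halves to the numbers of the integers. -/

namespace Pool.Agent.J4H40

open Finset Filter
open Pool.Agent.H373R2.T7 (lamz Vz pz Vz_pos mem_pz)
open Pool.Agent.R460.GS (vm_le la la_nn one_le_sing)
open Pool.Agent.H560R3.GB (sing)
open Pool.Agent.W93.GB (pp_nonneg sum_pp)

open Classical in
/-- from the weighted sum to the number -/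
lemma gen_cnt {X : ℕ} (S : Finset ℕ) (φ ψ : ℕ → ℕ) (hX : 1 ≤ X) (hφ : ∀ m ∈ S, φ m ∈ Icc 1 X)
    (hψ : ∀ m ∈ S, ψ m ∈ Icc 1 X) (iφ : Set.InjOn φ S) (iψ : Set.InjOn ψ S) :
    ∑ m ∈ S, la (φ m) * la (ψ m) ≤
      Real.log X ^ 2 * ((S.filter fun m => (φ m).Prime ∧ (ψ m).Prime).card : ℝ) + 4 * √(X : ℝ) * Real.log X ^ 2 := by
  obtain ⟨L, hL⟩ : ∃ L, L = Real.log (X : ℝ) := ⟨_, rfl⟩
  have hL0 : 0 ≤ L := by rw [hL]; exact Real.log_natCast_nonneg _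
  have hpp : ∑ b ∈ Icc 1 X, pwr b ≤ 2 * √(X : ℝ) * L := by rw [hL]; exact sum_pp X hX
  have hlog : ∀ b : ℕ, b ∈ Icc 1 X → Real.log b ≤ L := fun b hb => by
    rw [mem_Icc] at hb
    rw [hL]
    exact Real.log_le_log (by exact_mod_cast hb.1) (by exact_mod_cast hb.2)
  have hla : ∀ b : ℕ, b ∈ Icc 1 X → la b ≤ L := fun b hb => by rw [hL]; exact vm_le hb
  rw [← hL]
  have hpt : ∀ m ∈ S, la (φ m) * la (ψ m) ≤
      L ^ 2 * (if (φ m).Prime ∧ (ψ m).Prime then 1 else 0) + (L * pwr (ψ m) + L * pwr (φ m)) := by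
    intro m hm
    have g1 := hφ m hm
    have g2 := hψ m hm
    have k1 := la_split (φ m) (mem_Icc.1 g1).1 (hlog _ g1)
    have k2 := la_split (ψ m) (mem_Icc.1 g2).1 (hlog _ g2)
    have k3 := hla _ g2
    have k4 := la_nn (ψ m)
    have k5 : 0 ≤ pwr (φ m) := pp_nonneg _
    have k6 : 0 ≤ pwr (ψ m) := pp_nonneg _
    have k7 : 0 ≤ L * pwr (ψ m) := mul_nonneg hL0 k6
    calc la (φ m) * la (ψ m) ≤ (L * (if (φ m).Prime then 1 else 0) + pwr (φ m)) * la (ψ m) :=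
          mul_le_mul_of_nonneg_right k1 k4
      _ = L * (if (φ m).Prime then 1 else 0) * la (ψ m) + pwr (φ m) * la (ψ m) := by ring
      _ ≤ L * (if (φ m).Prime then 1 else 0) * (L * (if (ψ m).Prime then 1 else 0) + pwr (ψ m)) + pwr (φ m) * L := by
          apply add_le_add
          · apply mul_le_mul_of_nonneg_left k2
            apply mul_nonneg hL0
            split_ifs <;> norm_num
          · exact mul_le_mul_of_nonneg_left k3 k5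
      _ ≤ _ := by
          by_cases h1 : (φ m).Prime
          · by_cases h2 : (ψ m).Prime
            · simp only [h1, h2, if_true, and_self]
              linarith
            · simp only [h1, h2, if_true, if_false, and_false]
              linarith
          · simp only [h1, if_false, false_and]
            linarith
  refine (sum_le_sum hpt).trans ?_
  rw [sum_add_distrib, sum_add_distrib, ← mul_sum, ← mul_sum, ← mul_sum, ← sum_filter, sum_const, nsmul_eq_mul, mul_one]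
  have himg : ∀ θ : ℕ → ℕ, (∀ m ∈ S, θ m ∈ Icc 1 X) → Set.InjOn θ S → ∑ m ∈ S, pwr (θ m) ≤ 2 * √(X : ℝ) * L := by
    intro θ h1 h2
    refine le_trans ?_ hpp
    rw [← sum_image (f := pwr) h2]
    refine sum_le_sum_of_subset_of_nonneg (fun m hm => ?_) fun _ _ _ => pp_nonneg _
    rw [mem_image] at hm
    obtain ⟨b, hb, rfl⟩ := hm
    exact h1 b hb
  have m1 := mul_le_mul_of_nonneg_left (himg φ hφ iφ) hL0
  have m2 := mul_le_mul_of_nonneg_left (himg ψ hψ iψ) hL0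
  have m3 : L * (2 * √(X : ℝ) * L) + L * (2 * √(X : ℝ) * L) = 4 * √(X : ℝ) * L ^ 2 := by ring
  linarith

/-- the number of the `m` in `(y₁, y₂]` with `6 m - 1` and `6 (m + u - N) + 1` prime -/
noncomputable def cnt6 (N u y₁ y₂ : ℕ) : ℕ := by
  classical
  exact ((Ioc y₁ y₂).filter fun m => (6 * m - 1).Prime ∧ (6 * (m + u - N) + 1).Prime).card

/-- the number of the `m` in `(y₁, y₂]` with `6 m - 1` prime and `6 (m + u - N) + 1` the product of two primes one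
of which is at most `N ^ ρ` -/
noncomputable def cnt6c (ρ : ℝ) (N u y₁ y₂ : ℕ) : ℕ := by
  classical
  exact ((Ioc y₁ y₂).filter fun m => (6 * m - 1).Prime ∧
    ∃ p₁ p₂ : ℕ, p₁.Prime ∧ p₂.Prime ∧ (p₁ : ℝ) ≤ (N : ℝ) ^ ρ ∧ 6 * (m + u - N) + 1 = p₁ * p₂).card

/-- the function `Λ (6 m - 1)` -/
noncomputable def la6 (m : ℕ) : ℝ := la (6 * m - 1)

lemma la6_le {N : ℕ} : ∀ m ∈ Icc 1 N, 0 ≤ la6 m ∧ la6 m ≤ Real.log (14 * N : ℕ) := by
  intro m hm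
  rw [mem_Icc] at hm
  exact ⟨la_nn _, vm_le (mem_Icc.2 ⟨by omega, by omega⟩)⟩

/-- the scale -/
lemma scale14 : ∃ N₀ : ℕ, ∀ N : ℕ, N₀ ≤ N → 1300 ≤ Real.log N ∧ Real.log N ≤ Real.log (14 * N : ℕ) ∧
    Real.log (14 * N : ℕ) ≤ 101 / 100 * Real.log N := by
  obtain ⟨N₁, h1⟩ := Pool.Agent.R462.GS.evL 1300
  refine ⟨N₁ + 1, fun N hN => ?_⟩
  have hL := h1 N (by omega)
  have hN0 : (0 : ℝ) < N := by exact_mod_cast (by omega : 0 < N)
  have h2 : Real.log (14 * N : ℕ) = Real.log 14 + Real.log N := by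
    push_cast
    rw [Real.log_mul (by norm_num) hN0.ne']
  have h3 : 0 ≤ Real.log 14 := Real.log_nonneg (by norm_num)
  have h4 : Real.log 14 ≤ 14 - 1 := Real.log_le_sub_one_of_pos (by norm_num)
  refine ⟨hL, ?_, ?_⟩ <;> rw [h2] <;> linarith

/-- the lower bound for the two halves, in all windows -/
lemma win6 (A V E : ℕ) (hV : A + 2 ≤ V) (hE : V + 6 ≤ E) : ∃ N₀ : ℕ, ∀ N : ℕ, N₀ ≤ N → ∀ u : ℕ, u ≤ 2 * N →
    GoodL (R6 la6 N) (99 / 100 * (137 / 1000)) ⌈Real.log (14 * N : ℕ) ^ E⌉₊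
      ((14 * N : ℕ) / Real.log (14 * N : ℕ) ^ V) (6 * u + 2) →
    ∀ y₁ y₂ : ℕ, y₁ ≤ y₂ → y₂ ≤ N → N ≤ y₁ + u → (N : ℝ) / Real.log N ^ A ≤ (y₂ : ℝ) - y₁ →
      1 / 8 * (6 * sing (K6 N u) * ((y₂ : ℝ) - y₁) / Real.log N ^ 2) ≤ cnt6 N u y₁ y₂ := by
  classical
  obtain ⟨N₁, h1⟩ := main6 V E hE
  obtain ⟨N₂, h2⟩ := scale14
  obtain ⟨N₃, h3⟩ := Pool.Agent.R462.GS.evlog (A + 2) 560000 (1 / 2) (by norm_num)
  refine ⟨N₁ + N₂ + N₃ + 1, fun N hN u hu hG y₁ y₂ h12 hy2 hy hΔ => ?_⟩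
  obtain ⟨l1, l2, l3⟩ := h2 N (by omega)
  have hp := h3 (14 * N) (by omega)
  obtain ⟨X, hX⟩ : ∃ X : ℕ, X = 14 * N := ⟨_, rfl⟩
  have hXN : (X : ℝ) = 14 * N := by rw [hX]; push_cast; ring
  have hm := h1 N (by omega) ⌈Real.log (14 * N : ℕ) ^ E⌉₊ (ceil_range (by linarith) E).1 (ceil_range (by linarith) E).2
    u hu y₁ y₂ h12 hy2 hy
  have hg := hG (6 * (N - y₂)) (6 * (N - y₁)) (by omega) (by omega)
  have e1 := sum_R6 la6 (lamz ⌈Real.log (14 * N : ℕ) ^ E⌉₊) (u := u) hy2 hy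
  have e2 := sum_R6 la6 la (u := u) hy2 hy
  rw [e1, e2] at hg
  have hc := gen_cnt (X := X) (Ioc y₁ y₂) (fun m => 6 * m - 1) (fun m => 6 * (m + u - N) + 1) (by omega)
    (fun m hm => by rw [mem_Ioc] at hm; rw [mem_Icc]; omega)
    (fun m hm => by rw [mem_Ioc] at hm; rw [mem_Icc]; omega)
    (fun m hm m' hm' h => by rw [mem_coe, mem_Ioc] at hm hm'; simp only at h; omega)
    (fun m hm m' hm' h => by rw [mem_coe, mem_Ioc] at hm hm'; simp only at h; omega)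
  unfold la6 at hg
  have hS := one_le_sing (K6 N u)
  unfold cnt6
  rw [← hX] at hm hg l2 l3 hp
  obtain ⟨C, hC⟩ : ∃ C : ℝ, C = (((Ioc y₁ y₂).filter fun m => (6 * m - 1).Prime ∧
    (6 * (m + u - N) + 1).Prime).card : ℕ) := ⟨_, rfl⟩
  have hC' : (((Ioc y₁ y₂).filter fun m => (6 * m - 1).Prime ∧
    (6 * (m + u - N) + 1).Prime).card : ℝ) = C := by rw [hC]
  rw [hC'] at hc ⊢
  obtain ⟨P, hP⟩ : ∃ P, P = ∑ m ∈ Ioc y₁ y₂, la (6 * m - 1) * lamz ⌈Real.log X ^ E⌉₊ (6 * (m + u - N) + 1) := ⟨_, rfl⟩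
  obtain ⟨Q, hQ⟩ : ∃ Q, Q = ∑ m ∈ Ioc y₁ y₂, la (6 * m - 1) * la (6 * (m + u - N) + 1) := ⟨_, rfl⟩
  rw [← hP] at hm hg
  rw [← hQ] at hg hc
  obtain ⟨S, hSd⟩ : ∃ S, S = sing (K6 N u) := ⟨_, rfl⟩
  rw [← hSd] at hm hS ⊢
  obtain ⟨Δ, hΔd⟩ : ∃ Δ : ℝ, Δ = (y₂ : ℝ) - y₁ := ⟨_, rfl⟩
  rw [← hΔd] at hm hΔ ⊢
  obtain ⟨l, hl⟩ : ∃ l, l = Real.log (N : ℝ) := ⟨_, rfl⟩
  obtain ⟨L, hL⟩ : ∃ L, L = Real.log (X : ℝ) := ⟨_, rfl⟩
  have hX0 : (0 : ℝ) < X := by exact_mod_cast (by omega : 0 < X)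
  rw [← hl] at l1 l2 l3 hΔ ⊢
  rw [← hL] at l2 l3 hp hm hg hc
  have hl0 : 0 < l := by linarith
  have hL0 : 0 < L := by linarith
  obtain ⟨Y, hY⟩ : ∃ Y : ℝ, Y = X / L ^ A := ⟨_, rfl⟩
  have hY0 : 0 < Y := by rw [hY]; positivity
  have hYΔ : Y ≤ 14 * Δ := by
    have k1 : (X : ℝ) / L ^ A ≤ X / l ^ A := by
      apply div_le_div_of_nonneg_left hX0.le (by positivity)
      exact pow_le_pow_left₀ hl0.le l2 A
    have k2 : (X : ℝ) / l ^ A = 14 * (N / l ^ A) := by rw [hXN]; ring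
    rw [hY]
    linarith
  have hXV : (X : ℝ) / L ^ V ≤ Y / 1000000 := by
    calc (X : ℝ) / L ^ V ≤ X / L ^ (A + 2) := by
          apply div_le_div_of_nonneg_left hX0.le (by positivity)
          exact pow_le_pow_right₀ (by linarith) hV
      _ = Y / L ^ 2 := by rw [hY, pow_add, div_div]
      _ ≤ Y / 1000000 := by
          apply div_le_div_of_nonneg_left hY0.le (by norm_num)
          nlinarith
  have hsq : 4 * √(X : ℝ) * L ^ 2 ≤ Y / 140000 := by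
    rw [hY, le_div_iff₀ (by norm_num), le_div_iff₀ (by positivity), Real.sqrt_eq_rpow]
    calc 4 * (X : ℝ) ^ (1 / 2 : ℝ) * L ^ 2 * 140000 * L ^ A = (X : ℝ) ^ (1 / 2 : ℝ) * (560000 * L ^ (A + 2)) := by
          rw [pow_add]
          ring
      _ ≤ (X : ℝ) ^ (1 / 2 : ℝ) * (X : ℝ) ^ (1 / 2 : ℝ) := by gcongr
      _ = X := by
          rw [← Real.rpow_add hX0]
          norm_num
  have hΔ0 : 0 < Δ := by linarith
  have hSΔ : Δ ≤ S * Δ := by nlinarith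
  have hm1 := (abs_le.1 hm).1
  have hkey : (99 / 100 * (137 / 1000) - 1 / 1000) * (6 * (S * Δ)) ≤ L ^ 2 * C := by
    have k1 : (99 / 100 * (137 / 1000)) * (6 * (S * Δ)) - (99 / 100 * (137 / 1000)) * (X / L ^ V) - X / L ^ V ≤ Q := by
      have : 6 * (S * Δ) - X / L ^ V ≤ P := by linarith
      nlinarith
    linarith
  have hLl : L ^ 2 ≤ 10201 / 10000 * l ^ 2 := by nlinarith
  have hC0 : 0 ≤ C := by rw [hC]; positivity
  have h5 : L ^ 2 * C ≤ 10201 / 10000 * l ^ 2 * C := mul_le_mul_of_nonneg_right hLl hC0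
  have h6 : 1 / 8 * (6 * (S * Δ)) ≤ l ^ 2 * C := by nlinarith
  have h7 : 1 / 8 * (6 * S * Δ / l ^ 2) = (1 / 8 * (6 * (S * Δ))) / l ^ 2 := by ring
  rw [h7, div_le_iff₀ (by positivity)]
  linarith

/-- from the weighted sum to the number of products of two primes -/
lemma chen6 {N u y₁ y₂ X : ℕ} {κ σ ρ : ℝ} (hX : X = 14 * N) (hN1 : 1 ≤ N) (hu : u ≤ 2 * N) (hy2 : y₂ ≤ N)
    (hy : N ≤ y₁ + u) (hσ : (X : ℝ) ^ σ ≤ (N : ℝ) ^ ρ) (hL : 1 ≤ Real.log X) :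
    ∑ m ∈ Ioc y₁ y₂, la (6 * m - 1) * GA (pc X κ σ) (6 * (m + u - N) + 1) ≤
      Real.log X ^ 2 * ((2 * cnt6c ρ N u y₁ y₂ : ℕ) : ℝ) + 3 * Real.log X ^ 2 * (2 * √(X : ℝ) * ((X : ℝ) ^ σ + 1)) := by
  classical
  obtain ⟨φ, hφ⟩ : ∃ φ : ℕ → ℕ, φ = fun b => 6 * ((b + 1) / 6 + u - N) + 1 := ⟨_, rfl⟩
  have e0 : ∑ m ∈ Ioc y₁ y₂, la (6 * m - 1) * GA (pc X κ σ) (6 * (m + u - N) + 1) =
      ∑ b ∈ (Ioc y₁ y₂).image (fun m => 6 * m - 1), la b * GA (pc X κ σ) (φ b) := by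
    rw [sum_image]
    · refine sum_congr rfl fun m hm => ?_
      rw [mem_Ioc] at hm
      rw [hφ]
      simp only
      rw [show (6 * m - 1 + 1) / 6 = m by omega]
    · intro m hm m' hm' h
      rw [mem_coe, mem_Ioc] at hm hm'
      simp only at h
      omega
  have hmem : ∀ b ∈ (Ioc y₁ y₂).image (fun m => 6 * m - 1), ∃ m, m ∈ Ioc y₁ y₂ ∧ b = 6 * m - 1 ∧
      φ b = 6 * (m + u - N) + 1 ∧ (b + 1) / 6 = m := by
    intro b hb
    rw [mem_image] at hb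
    obtain ⟨m, hm, rfl⟩ := hb
    have hm' := mem_Ioc.1 hm
    refine ⟨m, hm, rfl, ?_, by omega⟩
    rw [hφ]
    simp only
    rw [show (6 * m - 1 + 1) / 6 = m by omega]
  rw [e0]
  refine gen_chen _ φ (by omega) (fun b hb => ?_) (fun b hb => ?_) ?_ hL _ ?_
  · obtain ⟨m, hm, h1, h2, h3⟩ := hmem b hb
    rw [mem_Ioc] at hm
    rw [mem_Icc]
    omega
  · obtain ⟨m, hm, h1, h2, h3⟩ := hmem b hb
    rw [mem_Ioc] at hm
    rw [mem_Icc]
    omega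
  · intro b hb b' hb' h
    obtain ⟨m, hm, h1, h2, h3⟩ := hmem b hb
    obtain ⟨m', hm', h1', h2', h3'⟩ := hmem b' hb'
    rw [mem_Ioc] at hm hm'
    rw [h2, h2'] at h
    omega
  · obtain ⟨T, hT⟩ : ∃ T, T = (((Ioc y₁ y₂).image (fun m => 6 * m - 1)).sigma fun b => (φ b).divisors).filter
      (fun x : (_ : ℕ) × ℕ => x.1.Prime ∧ (φ x.1 / x.2).Prime ∧ x.2.Prime ∧ (x.2 : ℝ) ≤ (X : ℝ) ^ σ) := ⟨_, rfl⟩
    rw [← hT]
    have hTm : ∀ x ∈ T, ∃ m, m ∈ Ioc y₁ y₂ ∧ x.1 = 6 * m - 1 ∧ φ x.1 = 6 * (m + u - N) + 1 ∧ (x.1 + 1) / 6 = m ∧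
        x.2 * (φ x.1 / x.2) = φ x.1 ∧ x.1.Prime ∧ (φ x.1 / x.2).Prime ∧ x.2.Prime ∧ (x.2 : ℝ) ≤ (X : ℝ) ^ σ := by
      intro x hx
      rw [hT, mem_filter, mem_sigma] at hx
      obtain ⟨⟨g1, g2⟩, g3, g4, g5, g6⟩ := hx
      obtain ⟨m, hm, h1, h2, h3⟩ := hmem x.1 g1
      exact ⟨m, hm, h1, h2, h3, Nat.mul_div_cancel' (Nat.dvd_of_mem_divisors g2), g3, g4, g5, g6⟩
    have h1 : T.card ≤ 2 * (T.image (fun x => (x.1 + 1) / 6)).card := by
      apply card_le_mul_card_image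
      intro m hm
      rw [mem_image] at hm
      obtain ⟨x, hx, hxm⟩ := hm
      obtain ⟨m', g1, g2, g3, g4, g5, g6, g7, g8, g9⟩ := hTm x hx
      refine le_trans (card_le_card (t := {⟨x.1, x.2⟩, ⟨x.1, φ x.1 / x.2⟩}) ?_) card_le_two
      intro x' hx'
      rw [mem_filter] at hx'
      obtain ⟨m'', g1', g2', g3', g4', g5', g6', g7', g8', g9'⟩ := hTm x' hx'.1
      have hmm : m'' = m' := by rw [← g4', ← g4, hx'.2, hxm]
      have hx1 : x'.1 = x.1 := by rw [g2', g2, hmm]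
      obtain ⟨b', d'⟩ := x'
      simp only at hx1 g5' g8' g7'
      subst hx1
      have hd : d' ∣ x.2 * (φ x.1 / x.2) := by
        rw [g5, ← g5']
        exact Dvd.intro _ rfl
      rw [mem_insert, mem_singleton]
      rcases (Nat.Prime.dvd_mul g8').1 hd with h | h
      · left
        rw [(Nat.prime_dvd_prime_iff_eq g8' g8).1 h]
      · right
        rw [(Nat.prime_dvd_prime_iff_eq g8' g7).1 h]
    refine h1.trans (Nat.mul_le_mul_left 2 ?_)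
    unfold cnt6c
    apply card_le_card
    intro m hm
    rw [mem_image] at hm
    obtain ⟨x, hx, hxm⟩ := hm
    obtain ⟨m', g1, g2, g3, g4, g5, g6, g7, g8, g9⟩ := hTm x hx
    have : m' = m := by rw [← hxm, g4]
    subst this
    rw [mem_filter]
    refine ⟨g1, ?_, x.2, φ x.1 / x.2, g8, g7, g9.trans hσ, ?_⟩
    · rw [← g2]
      exact g6
    · rw [g5, g3]

end Pool.Agent.J4H40
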