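import Pool.Agent.J4H40.Zc

set_option autoImplicit false

/-! The two halves of the condition: asymptotic formulas for products and the number of products of two primes. -/

namespace Pool.Agent.J4H40

open Finset Filter
open Pool.Agent.H373R2.T7 (lamz Vz pz Vz_pos mem_pz)
open Pool.Agent.R460.GS (vm_le la la_nn one_le_sing)
open Pool.Agent.H560R3.GB (sing)

lemma goodF6 {N u V z : ℕ} {F : ℕ → ℂ} {c : ℕ → ℝ} (h : GoodF (14 * N) (R6 F N) c z V (6 * u + 2)) {y₁ y₂ : ℕ}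
    (h12 : y₁ ≤ y₂) (hy2 : y₂ ≤ N) (hy : N ≤ y₁ + u) :
    ‖∑ m ∈ Ioc y₁ y₂, F m * ((GA c (6 * (m + u - N) + 1) - Vd (14 * N) c * lamz z (6 * (m + u - N) + 1) : ℝ) : ℂ)‖ ≤
      2 * ((14 * N : ℕ) / Real.log (14 * N : ℕ) ^ V) := by
  classical
  have h1 := h (6 * (N - y₁)) (by omega)
  have h2 := h (6 * (N - y₂)) (by omega)
  have e1 := sum_R6 F (fun n => ((GA c n - Vd (14 * N) c * lamz z n : ℝ) : ℂ)) (u := u) hy2 hy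
  rw [← e1]
  have e2 : ∑ b ∈ Ioc (6 * (N - y₂)) (6 * (N - y₁)), R6 F N b *
      ((GA c (6 * u + 2 - b) - Vd (14 * N) c * lamz z (6 * u + 2 - b) : ℝ) : ℂ) =
      RF (R6 F N) c (Vd (14 * N) c) z (6 * u + 2) (6 * (N - y₁)) -
      RF (R6 F N) c (Vd (14 * N) c) z (6 * u + 2) (6 * (N - y₂)) := by
    unfold RF
    have hI : ∀ y : ℕ, Icc 1 y = Ioc 0 y := fun y => by
      ext b
      rw [mem_Icc, mem_Ioc]
      omega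
    rw [hI, hI, ← sum_Ioc_consecutive _ (Nat.zero_le (6 * (N - y₂))) (show 6 * (N - y₂) ≤ 6 * (N - y₁) by omega)]
    ring
  rw [e2]
  refine (norm_sub_le _ _).trans ?_
  linarith

/-- the function `Λ (6 m - 1)`, complex -/
noncomputable def laC6 (m : ℕ) : ℂ := ((la (6 * m - 1) : ℝ) : ℂ)

lemma laC6_le {N : ℕ} : ∀ m ∈ Icc 1 N, ‖laC6 m‖ ≤ Real.log (14 * N : ℕ) := by
  intro m hm
  unfold laC6
  rw [Complex.norm_real, Real.norm_eq_abs, abs_of_nonneg (la_nn _)]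
  exact (la6_le m hm).2

lemma goodL6 {N u V z : ℕ} {c : ℕ → ℝ} (h : GoodF (14 * N) (R6 laC6 N) c z V (6 * u + 2)) {y₁ y₂ : ℕ}
    (h12 : y₁ ≤ y₂) (hy2 : y₂ ≤ N) (hy : N ≤ y₁ + u) :
    |∑ m ∈ Ioc y₁ y₂, la (6 * m - 1) * GA c (6 * (m + u - N) + 1) -
      Vd (14 * N) c * ∑ m ∈ Ioc y₁ y₂, la (6 * m - 1) * lamz z (6 * (m + u - N) + 1)| ≤
      2 * ((14 * N : ℕ) / Real.log (14 * N : ℕ) ^ V) := by
  have h1 := goodF6 h h12 hy2 hy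
  have e : ∑ m ∈ Ioc y₁ y₂, laC6 m *
      ((GA c (6 * (m + u - N) + 1) - Vd (14 * N) c * lamz z (6 * (m + u - N) + 1) : ℝ) : ℂ) =
      ((∑ m ∈ Ioc y₁ y₂, la (6 * m - 1) * GA c (6 * (m + u - N) + 1) -
      Vd (14 * N) c * ∑ m ∈ Ioc y₁ y₂, la (6 * m - 1) * lamz z (6 * (m + u - N) + 1) : ℝ) : ℂ) := by
    rw [mul_sum, ← sum_sub_distrib]
    push_cast
    refine sum_congr rfl fun m _ => ?_
    unfold laC6
    ring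
  rw [e, Complex.norm_real, Real.norm_eq_abs] at h1
  exact h1

/-- the asymptotic formula -/
lemma asym6 (A V E : ℕ) (hV : A + 3 ≤ V) (hE : V + 6 ≤ E) : ∃ N₀ : ℕ, ∀ N : ℕ, N₀ ≤ N → ∀ c : ℕ → ℝ,
    (∀ m, |c m| ≤ 1) → ∀ u : ℕ, u ≤ 2 * N →
    GoodF (14 * N) (R6 laC6 N) c ⌈Real.log (14 * N : ℕ) ^ E⌉₊ V (6 * u + 2) →
    ∀ y₁ y₂ : ℕ, y₁ ≤ y₂ → y₂ ≤ N → N ≤ y₁ + u →
      |∑ m ∈ Ioc y₁ y₂, la (6 * m - 1) * GA c (6 * (m + u - N) + 1) -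
        6 * sing (K6 N u) * Vd (14 * N) c * ((y₂ : ℝ) - y₁)| ≤ N / Real.log N ^ A := by
  obtain ⟨N₁, h1⟩ := main6 V E hE
  obtain ⟨N₂, h2⟩ := scale14
  refine ⟨N₁ + N₂ + 1, fun N hN c hc u hu hG y₁ y₂ h12 hy2 hy => ?_⟩
  obtain ⟨l1, l2, l3⟩ := h2 N (by omega)
  have hm := h1 N (by omega) ⌈Real.log (14 * N : ℕ) ^ E⌉₊ (ceil_range (by linarith) E).1 (ceil_range (by linarith) E).2
    u hu y₁ y₂ h12 hy2 hy
  have hg := goodL6 hG h12 hy2 hy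
  have hharm : |Vd (14 * N) c| ≤ 2 * Real.log (14 * N : ℕ) := by
    refine (harm_le (N := 14 * N) hc).trans ?_
    linarith
  obtain ⟨X, hX⟩ : ∃ X : ℕ, X = 14 * N := ⟨_, rfl⟩
  have hXN : (X : ℝ) = 14 * N := by rw [hX]; push_cast; ring
  have hX0 : (0 : ℝ) < X := by exact_mod_cast (by omega : 0 < X)
  have hN0 : (0 : ℝ) < N := by exact_mod_cast (by omega : 0 < N)
  rw [← hX] at hm hg l2 l3 hharm ⊢
  obtain ⟨P, hP⟩ : ∃ P, P = ∑ m ∈ Ioc y₁ y₂, la (6 * m - 1) * lamz ⌈Real.log X ^ E⌉₊ (6 * (m + u - N) + 1) := ⟨_, rfl⟩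
  rw [← hP] at hm hg
  obtain ⟨W, hW⟩ : ∃ W, W = Vd X c := ⟨_, rfl⟩
  rw [← hW] at hg hharm ⊢
  obtain ⟨Q, hQ⟩ : ∃ Q, Q = ∑ m ∈ Ioc y₁ y₂, la (6 * m - 1) * GA c (6 * (m + u - N) + 1) := ⟨_, rfl⟩
  rw [← hQ] at hg ⊢
  obtain ⟨S, hSd⟩ : ∃ S, S = 6 * sing (K6 N u) * ((y₂ : ℝ) - y₁) := ⟨_, rfl⟩
  rw [← hSd] at hm
  have e : 6 * sing (K6 N u) * W * ((y₂ : ℝ) - y₁) = W * S := by rw [hSd]; ring
  rw [e]
  obtain ⟨l, hl⟩ : ∃ l, l = Real.log (N : ℝ) := ⟨_, rfl⟩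
  obtain ⟨L, hL⟩ : ∃ L, L = Real.log (X : ℝ) := ⟨_, rfl⟩
  rw [← hl] at l1 l2 l3 ⊢
  rw [← hL] at l2 l3 hm hg hharm
  have hl0 : 0 < l := by linarith
  have hL0 : 0 < L := by linarith
  have h3 : |W * P - W * S| ≤ 2 * L * (X / L ^ V) := by
    rw [← mul_sub, abs_mul]
    exact mul_le_mul hharm hm (abs_nonneg _) (by positivity)
  have h4 := abs_add_le (Q - W * P) (W * P - W * S)
  rw [sub_add_sub_cancel] at h4
  have k1 : (X : ℝ) / L ^ V ≤ X / L ^ (A + 3) := by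
    apply div_le_div_of_nonneg_left hX0.le (by positivity)
    exact pow_le_pow_right₀ (by linarith) hV
  have k2 : (X : ℝ) / L ^ (A + 3) = X / L ^ A / L ^ 3 := by rw [pow_add, div_div]
  have k3 : (X : ℝ) / L ^ A ≤ 14 * (N / l ^ A) := by
    have : (X : ℝ) / L ^ A ≤ X / l ^ A := by
      apply div_le_div_of_nonneg_left hX0.le (by positivity)
      exact pow_le_pow_left₀ hl0.le l2 A
    refine this.trans (le_of_eq ?_)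
    rw [hXN]
    ring
  obtain ⟨Z, hZ⟩ : ∃ Z : ℝ, Z = X / L ^ A := ⟨_, rfl⟩
  have hZ0 : 0 < Z := by rw [hZ]; positivity
  rw [← hZ] at k2 k3
  have k4 : 2 * L * (Z / L ^ 3) ≤ Z / 100 := by
    have e5 : 2 * L * (Z / L ^ 3) = Z * (2 / L ^ 2) := by
      field_simp
    rw [e5, div_eq_mul_one_div Z 100]
    apply mul_le_mul_of_nonneg_left _ hZ0.le
    rw [div_le_div_iff₀ (by positivity) (by norm_num)]
    nlinarith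
  have k5 : 2 * (Z / L ^ 3) ≤ 2 * L * (Z / L ^ 3) := by
    have : 0 ≤ Z / L ^ 3 := by positivity
    nlinarith
  have k6 : 2 * L * (X / L ^ V) ≤ 2 * L * (Z / L ^ 3) := by
    rw [← k2]
    exact mul_le_mul_of_nonneg_left k1 (by positivity)
  linarith

/-- many products of two primes in all windows -/
lemma chenwin6 {ρ : ℝ} (hρ : 0 < ρ) (M A : ℕ) : ∃ κ σ : ℝ, 0 < κ ∧ 0 < σ ∧ 2 * σ ≤ ρ ∧ σ ≤ 1 / 4 ∧
    ∀ V E : ℕ, A + 2 ≤ V → V + 6 ≤ E →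
    ∃ N₀ : ℕ, ∀ N : ℕ, N₀ ≤ N → ∀ u : ℕ, u ≤ 2 * N →
    GoodF (14 * N) (R6 laC6 N) (pc (14 * N) κ σ) ⌈Real.log (14 * N : ℕ) ^ E⌉₊ V (6 * u + 2) →
    ∀ y₁ y₂ : ℕ, y₁ ≤ y₂ → y₂ ≤ N → N ≤ y₁ + u → (N : ℝ) / Real.log N ^ A ≤ (y₂ : ℝ) - y₁ →
      (M : ℝ) * (6 * sing (K6 N u) * ((y₂ : ℝ) - y₁) / Real.log N ^ 2) ≤ cnt6c ρ N u y₁ y₂ := by
  classical
  obtain ⟨σ, hσd⟩ : ∃ σ : ℝ, σ = min ρ (1 / 2) / 2 := ⟨_, rfl⟩
  have hmin : 0 < min ρ (1 / 2) := lt_min hρ (by norm_num)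
  have hσ0 : 0 < σ := by rw [hσd]; linarith
  have hσρ : 2 * σ ≤ ρ := by rw [hσd]; linarith [min_le_left ρ (1 / 2)]
  have hσ4 : σ ≤ 1 / 4 := by rw [hσd]; linarith [min_le_right ρ (1 / 2)]
  obtain ⟨κ, hκd⟩ : ∃ κ : ℝ, κ = σ * Real.exp (-((8 * M + 3 : ℕ) + 1 : ℝ)) := ⟨_, rfl⟩
  have hκ0 : 0 < κ := by rw [hκd]; positivity
  have hκσ : κ < σ := by
    rw [hκd]
    have : Real.exp (-((8 * M + 3 : ℕ) + 1 : ℝ)) < 1 := by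
      rw [Real.exp_lt_one_iff]
      have : (0 : ℝ) ≤ ((8 * M + 3 : ℕ) : ℝ) := Nat.cast_nonneg _
      linarith
    nlinarith
  have hlogκ : ((8 * M + 3 : ℕ) : ℝ) + 1 ≤ Real.log (σ / κ) := by
    have e : σ / κ = Real.exp ((8 * M + 3 : ℕ) + 1 : ℝ) := by
      rw [hκd, Real.exp_neg]
      field_simp
    rw [e, Real.log_exp]
  obtain ⟨N₁, h1⟩ := mert_low hκ0 hσ0 hlogκ hκσ (by linarith)
  refine ⟨κ, σ, hκ0, hσ0, hσρ, hσ4, fun V E hV hE => ?_⟩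
  obtain ⟨N₂, h2⟩ := scale14
  obtain ⟨N₃, h3⟩ := Pool.Agent.R462.GS.evL (8 * M + 4)
  obtain ⟨N₄, h4⟩ := Pool.Agent.R462.GS.evlog (A + 2) 12000 (1 / 4) (by norm_num)
  obtain ⟨N₅, h5⟩ := main6 V E hE
  refine ⟨N₁ + N₂ + N₃ + N₄ + N₅ + 14, fun N hN u hu hG y₁ y₂ h12 hy2 hy hΔ => ?_⟩
  obtain ⟨l1, l2, l3⟩ := h2 N (by omega)
  have hN1 : 1 ≤ N := by omega
  have hW := h1 (14 * N) (by omega)
  have hlM := h3 N (by omega)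
  have hp := h4 (14 * N) (by omega)
  have hm := h5 N (by omega) ⌈Real.log (14 * N : ℕ) ^ E⌉₊ (ceil_range (by linarith) E).1 (ceil_range (by linarith) E).2
    u hu y₁ y₂ h12 hy2 hy
  have hg := goodL6 hG h12 hy2 hy
  obtain ⟨X, hX⟩ : ∃ X : ℕ, X = 14 * N := ⟨_, rfl⟩
  have hXN : (X : ℝ) = 14 * N := by rw [hX]; push_cast; ring
  have hX0 : (0 : ℝ) < X := by exact_mod_cast (by omega : 0 < X)
  have hX1 : (1 : ℝ) ≤ X := by exact_mod_cast (by omega : 1 ≤ X)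
  have hN0 : (0 : ℝ) < N := by exact_mod_cast (by omega : 0 < N)
  have hN1r : (1 : ℝ) ≤ N := by exact_mod_cast hN1
  have hXσ : (X : ℝ) ^ σ ≤ (N : ℝ) ^ ρ := by
    have k1 : (X : ℝ) ≤ (N : ℝ) ^ (2 : ℝ) := by
      rw [Real.rpow_two, hXN]
      have : (14 : ℝ) ≤ N := by exact_mod_cast (by omega : 14 ≤ N)
      nlinarith
    calc (X : ℝ) ^ σ ≤ ((N : ℝ) ^ (2 : ℝ)) ^ σ := Real.rpow_le_rpow hX0.le k1 hσ0.le
      _ = (N : ℝ) ^ (2 * σ) := by rw [← Real.rpow_mul hN0.le]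
      _ ≤ (N : ℝ) ^ ρ := Real.rpow_le_rpow_of_exponent_le hN1r hσρ
  have hc := chen6 (κ := κ) hX hN1 hu hy2 hy hXσ (by rw [hX]; linarith)
  have hS := one_le_sing (K6 N u)
  rw [← hX] at hm hg l2 l3 hp hW
  obtain ⟨C, hC⟩ : ∃ C : ℝ, C = (cnt6c ρ N u y₁ y₂ : ℕ) := ⟨_, rfl⟩
  have hC2 : ((2 * cnt6c ρ N u y₁ y₂ : ℕ) : ℝ) = 2 * C := by rw [hC]; push_cast; ring
  rw [hC2] at hc
  rw [← hC]
  obtain ⟨P, hP⟩ : ∃ P, P = ∑ m ∈ Ioc y₁ y₂, la (6 * m - 1) * lamz ⌈Real.log X ^ E⌉₊ (6 * (m + u - N) + 1) := ⟨_, rfl⟩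
  obtain ⟨W, hWd⟩ : ∃ W, W = Vd X (pc X κ σ) := ⟨_, rfl⟩
  obtain ⟨Q, hQ⟩ : ∃ Q, Q = ∑ m ∈ Ioc y₁ y₂, la (6 * m - 1) * GA (pc X κ σ) (6 * (m + u - N) + 1) := ⟨_, rfl⟩
  rw [← hP] at hm hg
  rw [← hWd] at hg hW
  rw [← hQ] at hg hc
  obtain ⟨S, hSd⟩ : ∃ S, S = sing (K6 N u) := ⟨_, rfl⟩
  rw [← hSd] at hm hS ⊢
  obtain ⟨Δ, hΔd⟩ : ∃ Δ : ℝ, Δ = (y₂ : ℝ) - y₁ := ⟨_, rfl⟩
  rw [← hΔd] at hm hΔ ⊢
  obtain ⟨l, hl⟩ : ∃ l, l = Real.log (N : ℝ) := ⟨_, rfl⟩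
  obtain ⟨L, hL⟩ : ∃ L, L = Real.log (X : ℝ) := ⟨_, rfl⟩
  rw [← hl] at l1 l2 l3 hΔ hlM ⊢
  rw [← hL] at l2 l3 hp hm hg hc
  have hl0 : 0 < l := by linarith
  have hL0 : 0 < L := by linarith
  obtain ⟨Y, hY⟩ : ∃ Y : ℝ, Y = X / L ^ A := ⟨_, rfl⟩
  have hY0 : 0 < Y := by rw [hY]; positivity
  have hYΔ : Y ≤ 14 * Δ := by
    have k1 : (X : ℝ) / L ^ A ≤ X / l ^ A := by
      apply div_le_div_of_nonneg_left hX0.le (by positivity)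
      exact pow_le_pow_left₀ hl0.le l2 A
    have k2 : (X : ℝ) / l ^ A = 14 * (N / l ^ A) := by rw [hXN]; ring
    rw [hY]
    linarith
  have hM0 : (0 : ℝ) ≤ M := Nat.cast_nonneg _
  have hXV : (8 * (M : ℝ) + 4) * (X / L ^ V) ≤ Y / 1300 := by
    have k0 : (X : ℝ) / L ^ V ≤ Y / L ^ 2 := by
      calc (X : ℝ) / L ^ V ≤ X / L ^ (A + 2) := by
            apply div_le_div_of_nonneg_left hX0.le (by positivity)
            exact pow_le_pow_right₀ (by linarith) hV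
        _ = Y / L ^ 2 := by rw [hY, pow_add, div_div]
    calc (8 * (M : ℝ) + 4) * (X / L ^ V) ≤ L * (Y / L ^ 2) := by
          apply mul_le_mul (by linarith) k0 (by positivity) hL0.le
      _ = Y / L := by
          field_simp
      _ ≤ Y / 1300 := div_le_div_of_nonneg_left hY0.le (by norm_num) (by linarith)
  have hsq : 3 * L ^ 2 * (2 * √(X : ℝ) * ((X : ℝ) ^ σ + 1)) ≤ Y / 1000 := by
    have k1 : (1 : ℝ) ≤ (X : ℝ) ^ (1 / 4 : ℝ) := Real.one_le_rpow hX1 (by norm_num)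
    have k2 : (X : ℝ) ^ σ ≤ (X : ℝ) ^ (1 / 4 : ℝ) := Real.rpow_le_rpow_of_exponent_le hX1 hσ4
    rw [hY, le_div_iff₀ (by norm_num), le_div_iff₀ (by positivity), Real.sqrt_eq_rpow]
    calc 3 * L ^ 2 * (2 * (X : ℝ) ^ (1 / 2 : ℝ) * ((X : ℝ) ^ σ + 1)) * 1000 * L ^ A ≤
          3 * L ^ 2 * (2 * (X : ℝ) ^ (1 / 2 : ℝ) * (2 * (X : ℝ) ^ (1 / 4 : ℝ))) * 1000 * L ^ A := by
          have : (X : ℝ) ^ σ + 1 ≤ 2 * (X : ℝ) ^ (1 / 4 : ℝ) := by linarith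
          gcongr
      _ = (X : ℝ) ^ (1 / 2 : ℝ) * (X : ℝ) ^ (1 / 4 : ℝ) * (12000 * L ^ (A + 2)) := by
          rw [pow_add]
          ring
      _ ≤ (X : ℝ) ^ (1 / 2 : ℝ) * (X : ℝ) ^ (1 / 4 : ℝ) * (X : ℝ) ^ (1 / 4 : ℝ) := by gcongr
      _ = X := by
          rw [← Real.rpow_add hX0, ← Real.rpow_add hX0]
          norm_num
  have hΔ0 : 0 < Δ := by linarith
  have hSΔ : Δ ≤ S * Δ := by nlinarith
  have hm1 := (abs_le.1 hm).1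
  have hg1 := (abs_le.1 hg).1
  obtain ⟨e, he⟩ : ∃ e : ℝ, e = X / L ^ V := ⟨_, rfl⟩
  have he0 : 0 ≤ e := by rw [he]; positivity
  rw [← he] at hm1 hg1 hXV
  obtain ⟨R, hR⟩ : ∃ R : ℝ, R = 6 * (S * Δ) := ⟨_, rfl⟩
  have hRΔ : 6 * Δ ≤ R := by rw [hR]; linarith
  have hPR : R - e ≤ P := by rw [hR]; linarith
  have h4e : 4 * e ≤ Y / 1300 := by
    have : 0 ≤ 8 * (M : ℝ) * e := by positivity
    linarith
  have hRe : 0 ≤ R - e := by linarith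
  push_cast at hW
  have hWP : (8 * (M : ℝ) + 3) * (R - e) ≤ W * P :=
    mul_le_mul hW hPR hRe (by linarith [hW])
  have hkey : (8 * (M : ℝ) + 2) * R ≤ L ^ 2 * (2 * C) := by
    have k1 : (8 * (M : ℝ) + 3) * (R - e) = (8 * (M : ℝ) + 2) * R + R - (8 * (M : ℝ) + 4) * e + e := by ring
    linarith
  have hLl : L ^ 2 ≤ 2 * l ^ 2 := by nlinarith
  have hC0 : 0 ≤ C := by rw [hC]; positivity
  have h6 : (M : ℝ) * R ≤ l ^ 2 * C := by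
    have k1 : L ^ 2 * (2 * C) ≤ 2 * l ^ 2 * (2 * C) := mul_le_mul_of_nonneg_right hLl (by positivity)
    have k2 : 0 ≤ (M : ℝ) * R := by
      have : 0 ≤ R := by linarith
      positivity
    have k3 : 0 ≤ R := by linarith
    nlinarith
  have h7 : (M : ℝ) * (6 * S * Δ / l ^ 2) = ((M : ℝ) * R) / l ^ 2 := by rw [hR]; ring
  rw [h7, div_le_iff₀ (by positivity)]
  linarith

end Pool.Agent.J4H40
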