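import Pool.Agent.J4H40.Zd

set_option autoImplicit false

/-! The two halves of the condition at the distance `h`, for all classes of `h` for the regular moduli. -/

namespace Pool.Agent.J4H40

open Finset Filter
open Pool.Agent.H373R2.T7 (lamz Vz pz Vz_pos mem_pz)
open Pool.Agent.R460.GS (vm_le la la_nn one_le_sing)
open Pool.Agent.H560R3.GB (sing)

open Classical in
/-- all but few integers `|h| ≤ N` in a class -/
def Few6 (N q : ℕ) (a : ℤ) (A : ℕ) (Q : ℕ → Prop) : Prop :=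
  (({h ∈ Icc (-(N : ℤ)) N | h ≡ a [ZMOD q] ∧ ¬ Q (h + N).toNat}.card : ℕ) : ℝ) ≤ (N : ℝ) / (q * Real.log N ^ A)

/-- transfer to the shifts -/
lemma few6 {N q A V : ℕ} {a : ℤ} {P Q : ℕ → Prop} (hAV : A + 1 ≤ V) (hl : 3 ≤ Real.log N)
    (hlL : Real.log N ≤ Real.log (14 * N : ℕ)) (hq : 1 ≤ q) {x : ℕ}
    (hx : (x : ℤ) ≡ 6 * (a + N) + 2 [ZMOD (6 * q : ℕ)]) (hPQ : ∀ u : ℕ, u ≤ 2 * N → P (6 * u + 2) → Q u)
    (h : Few (14 * N) (6 * q) x V P) : Few6 N q a A Q := by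
  classical
  unfold Few at h
  unfold Few6
  have hq0 : (0 : ℝ) < q := by exact_mod_cast hq
  have hN1 : 1 ≤ N := by
    rcases Nat.eq_zero_or_pos N with h0 | h0
    · rw [h0] at hl
      simp only [Nat.cast_zero, Real.log_zero] at hl
      linarith
    · exact h0
  have hN0 : (0 : ℝ) < N := by exact_mod_cast hN1
  have h3 : ((14 * N : ℕ) : ℝ) / ((6 * q : ℕ) * Real.log (14 * N : ℕ) ^ V) ≤ N / (q * Real.log N ^ A) := by
    obtain ⟨L, hL⟩ : ∃ L, L = Real.log (14 * N : ℕ) := ⟨_, rfl⟩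
    obtain ⟨l, hld⟩ : ∃ l, l = Real.log (N : ℝ) := ⟨_, rfl⟩
    rw [← hL, ← hld] at hlL
    rw [← hld] at hl
    rw [← hL, ← hld]
    have hl0 : 0 < l := by linarith
    have hL0 : 0 < L := by linarith
    push_cast
    rw [div_le_div_iff₀ (by positivity) (by positivity)]
    have k1 : l ^ A * 3 ≤ L ^ V := by
      calc l ^ A * 3 ≤ l ^ A * l := by gcongr
        _ = l ^ (A + 1) := by ring
        _ ≤ L ^ (A + 1) := pow_le_pow_left₀ hl0.le hlL _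
        _ ≤ L ^ V := pow_le_pow_right₀ (by linarith) hAV
    have k2 : 0 ≤ (N : ℝ) * q := by positivity
    have k3 := mul_le_mul_of_nonneg_left k1 k2
    have k4 : 0 ≤ (N : ℝ) * q * l ^ A := by positivity
    nlinarith
  refine le_trans (Nat.cast_le.2 (card_le_card_of_injOn (fun h : ℤ => 6 * (h + N).toNat + 2) ?_ ?_)) (h.trans h3)
  · intro t ht
    rw [mem_coe, mem_filter, mem_Icc] at ht
    obtain ⟨⟨k1, k2⟩, k3, k4⟩ := ht
    rw [mem_coe, mem_filter, mem_Icc]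
    simp only
    refine ⟨⟨by omega, by omega⟩, ?_, ?_⟩
    · rw [← Int.natCast_modEq_iff]
      have e : ((6 * (t + N).toNat + 2 : ℕ) : ℤ) = 6 * (t + N) + 2 := by
        push_cast
        rw [Int.toNat_of_nonneg (by omega)]
      rw [e]
      refine Int.ModEq.trans ?_ hx.symm
      apply Int.ModEq.add_right
      push_cast
      exact Int.ModEq.mul_left' (k3.add_right _)
    · intro hP
      exact k4 (hPQ _ (by omega) hP)
  · intro t ht t' ht' he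
    rw [mem_coe, mem_filter, mem_Icc] at ht ht'
    simp only at he
    omega

lemma red6 {d q : ℕ} (h : d ∣ 6 * q) : d / Nat.gcd d 6 ∣ q := by
  have hg : 0 < Nat.gcd d 6 := Nat.gcd_pos_of_pos_right _ (by norm_num)
  have h1 : d / Nat.gcd d 6 ∣ 6 / Nat.gcd d 6 * q := by
    obtain ⟨k, hk⟩ := h
    refine ⟨k, ?_⟩
    have e1 : Nat.gcd d 6 * (6 / Nat.gcd d 6 * q) = Nat.gcd d 6 * (d / Nat.gcd d 6 * k) := by
      rw [← mul_assoc, ← mul_assoc, Nat.mul_div_cancel' (Nat.gcd_dvd_right d 6), Nat.mul_div_cancel' (Nat.gcd_dvd_left d 6)]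
      exact hk
    exact Nat.eq_of_mul_eq_mul_left hg e1
  exact (Nat.coprime_div_gcd_div_gcd hg).dvd_of_dvd_mul_left h1

/-- the size of the modulus -/
lemma qscale {e e' : ℝ} (h : e < e') : ∃ N₀ : ℕ, ∀ N : ℕ, N₀ ≤ N → ∀ q : ℕ, 1 ≤ q → (q : ℝ) ≤ (N : ℝ) ^ e →
    ((6 * q : ℕ) : ℝ) ≤ ((14 * N : ℕ) : ℝ) ^ e' := by
  obtain ⟨N₁, h1⟩ := Pool.Agent.R462.GS.evlog 0 6 (e' - e) (by linarith)
  refine ⟨N₁ + 2, fun N hN q hq hqN => ?_⟩
  have k1 := h1 N (by omega)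
  rw [pow_zero, mul_one] at k1
  have hN1 : (1 : ℝ) < N := by exact_mod_cast (by omega : 1 < N)
  have hN0 : (0 : ℝ) < N := by linarith
  have he : 0 ≤ e := by
    by_contra hcon
    have : (N : ℝ) ^ e < 1 := Real.rpow_lt_one_of_one_lt_of_neg hN1 (by linarith)
    have hq' : (1 : ℝ) ≤ q := by exact_mod_cast hq
    linarith
  push_cast
  calc 6 * (q : ℝ) ≤ (N : ℝ) ^ (e' - e) * (N : ℝ) ^ e := by gcongr
    _ = (N : ℝ) ^ e' := by
        rw [← Real.rpow_add hN0]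
        congr 1
        ring
    _ ≤ (14 * (N : ℝ)) ^ e' := Real.rpow_le_rpow hN0.le (by linarith) (by linarith)

/-- the class -/
lemma class6 (N q : ℕ) (hq : 1 ≤ q) (a : ℤ) : ∃ x : ℕ, (x : ℤ) ≡ 6 * (a + N) + 2 [ZMOD (6 * q : ℕ)] := by
  refine ⟨((6 * (a + N) + 2) % (6 * q : ℕ)).toNat, ?_⟩
  rw [Int.toNat_of_nonneg (Int.emod_nonneg _ (by push_cast; omega))]
  exact Int.mod_modEq _ _

lemma co14 {N : ℕ} {κ σ : ℝ} (hκ : 0 < κ) (hσ : 0 < σ) (hN : 14 ≤ N) {c : ℕ → ℝ} (hc : Co N κ σ c) :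
    Co (14 * N) (κ / 2) σ c := by
  have hN0 : (0 : ℝ) < N := by exact_mod_cast (by omega : 0 < N)
  have h14 : (14 : ℝ) ≤ N := by exact_mod_cast hN
  have k1 : ((14 * N : ℕ) : ℝ) ^ (κ / 2) ≤ (N : ℝ) ^ κ := by
    have k2 : ((14 * N : ℕ) : ℝ) ≤ (N : ℝ) ^ (2 : ℝ) := by
      rw [Real.rpow_two]
      push_cast
      nlinarith
    calc ((14 * N : ℕ) : ℝ) ^ (κ / 2) ≤ ((N : ℝ) ^ (2 : ℝ)) ^ (κ / 2) :=
          Real.rpow_le_rpow (by positivity) k2 (by linarith)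
      _ = (N : ℝ) ^ κ := by
          rw [← Real.rpow_mul hN0.le]
          congr 1
          ring
  have k3 : (N : ℝ) ^ σ ≤ ((14 * N : ℕ) : ℝ) ^ σ := by
    apply Real.rpow_le_rpow hN0.le _ hσ.le
    push_cast
    linarith
  refine ⟨hc.le1, fun m hm => ?_⟩
  obtain ⟨g1, g2, g3⟩ := hc.sup m hm
  exact ⟨lt_of_le_of_lt k1 g1, g2.trans k3, fun p hp => lt_of_le_of_lt k1 (g3 p hp)⟩

lemma vd14 {N : ℕ} {κ σ : ℝ} (hσ : σ ≤ 1 / 2) (hN : 1 ≤ N) {c : ℕ → ℝ} (hc : Co N κ σ c) :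
    Vd (14 * N) c = Vd N c := by
  unfold Vd
  symm
  apply sum_subset
  · intro m hm
    rw [mem_Icc] at hm ⊢
    omega
  · intro m hm hm'
    by_contra h0
    have hcm : c m ≠ 0 := fun h => h0 (by rw [h, zero_div])
    obtain ⟨-, g2, -⟩ := hc.sup m hcm
    have hN1 : (1 : ℝ) ≤ N := by exact_mod_cast hN
    have k1 : (m : ℝ) ≤ N := by
      refine g2.trans ?_
      calc (N : ℝ) ^ σ ≤ (N : ℝ) ^ (1 : ℝ) := Real.rpow_le_rpow_of_exponent_le hN1 (by linarith)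
        _ = N := Real.rpow_one _
    have k2 : m ≤ N := by exact_mod_cast k1
    rw [mem_Icc] at hm hm'
    omega

/-- a window: the `m` in `(y₁, y₂]` are at most `N`, and `m + u - N` is positive -/
def Win (N u y₁ y₂ : ℕ) : Prop := y₁ ≤ y₂ ∧ y₂ ≤ N ∧ N ≤ y₁ + u

theorem all6 {κ σ ρ : ℝ} (hκ : 0 < κ) (hσ0 : 0 < σ) (hσρ : σ < ρ) (hσ : σ ≤ 1 / 2) (A M : ℕ) :
    ∃ k : ℕ, ∀ A₀ : ℕ, ∃ E₀ : ℕ, ∀ E : ℕ, E₀ ≤ E → ∃ N₀ : ℕ, ∀ N : ℕ, N₀ ≤ N → ∀ c : ℕ → ℝ, Co N κ σ c →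
      ∃ D : Finset ℕ, (D.card : ℝ) ≤ Real.log N ^ k ∧ (∀ d ∈ D, Real.log N ^ A₀ < (d : ℝ)) ∧
      ∀ q : ℕ, 1 ≤ q → (∀ d ∈ D, ¬ d ∣ q) → ∀ a : ℤ,
        ((q : ℝ) ≤ (N : ℝ) ^ (5 / 6 - ρ) →
          Few6 N q a A (fun u => ∀ y₁ y₂ : ℕ, Win N u y₁ y₂ → (N : ℝ) / Real.log N ^ A ≤ (y₂ : ℝ) - y₁ →
            1 / 8 * (6 * sing (K6 N u) * ((y₂ : ℝ) - y₁) / Real.log N ^ 2) ≤ cnt6 N u y₁ y₂) ∧
          ∀ F : ℕ → ℝ, (∀ m ∈ Icc 1 N, 0 ≤ F m ∧ F m ≤ Real.log N) →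
            Few6 N q a A (fun u => ∀ y₁ y₂ : ℕ, Win N u y₁ y₂ →
              13 / 100 * ∑ m ∈ Ioc y₁ y₂, F m * lamz ⌈Real.log (14 * N : ℕ) ^ E⌉₊ (6 * (m + u - N) + 1) -
                N / Real.log N ^ A ≤ ∑ m ∈ Ioc y₁ y₂, F m * la (6 * (m + u - N) + 1))) ∧
        ((q : ℝ) ≤ (N : ℝ) ^ (1 - ρ) →
          Few6 N q a A (fun u => ∀ y₁ y₂ : ℕ, Win N u y₁ y₂ → (N : ℝ) / Real.log N ^ A ≤ (y₂ : ℝ) - y₁ →
            (M : ℝ) * (6 * sing (K6 N u) * ((y₂ : ℝ) - y₁) / Real.log N ^ 2) ≤ cnt6c ρ N u y₁ y₂) ∧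
          Few6 N q a A (fun u => ∀ y₁ y₂ : ℕ, Win N u y₁ y₂ →
            |∑ m ∈ Ioc y₁ y₂, la (6 * m - 1) * GA c (6 * (m + u - N) + 1) -
              6 * sing (K6 N u) * Vd N c * ((y₂ : ℝ) - y₁)| ≤ N / Real.log N ^ A) ∧
          ∀ F : ℕ → ℂ, (∀ m ∈ Icc 1 N, ‖F m‖ ≤ Real.log N) →
            Few6 N q a A (fun u => ∀ y₁ y₂ : ℕ, Win N u y₁ y₂ →
              ‖∑ m ∈ Ioc y₁ y₂, F m * ((GA c (6 * (m + u - N) + 1) -
                Vd N c * lamz ⌈Real.log (14 * N : ℕ) ^ E⌉₊ (6 * (m + u - N) + 1) : ℝ) : ℂ)‖ ≤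
                N / Real.log N ^ A)) := by
  classical
  have hρ : 0 < ρ := hσ0.trans hσρ
  obtain ⟨κ', σ', g1, g2, g3, g4, hch⟩ := chenwin6 hρ M A
  obtain ⟨ρ', hρ'⟩ : ∃ ρ', ρ' = max ((σ + ρ) / 2) (3 / 4 * ρ) := ⟨_, rfl⟩
  have r1 : σ < ρ' := by rw [hρ']; exact lt_of_lt_of_le (by linarith) (le_max_left _ _)
  have r2 : ρ' < ρ := by rw [hρ']; exact max_lt (by linarith) (by linarith)
  have r3 : σ' < ρ' := by rw [hρ']; exact lt_of_lt_of_le (by linarith) (le_max_right _ _)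
  obtain ⟨V, hV⟩ : ∃ V, V = A + 3 := ⟨_, rfl⟩
  obtain ⟨k, hk⟩ := coreF (κ := κ / 2) (κ' := κ') (by linarith) hσ0 r1 hσ g1 g2 r3 (by linarith) V
  refine ⟨2 * k, fun A₀ => ?_⟩
  obtain ⟨B, hB⟩ := hk (A₀ + 1)
  refine ⟨B + V + 6, fun E hE => ?_⟩
  obtain ⟨N₁, h1⟩ := hB E (by omega)
  obtain ⟨N₂, h2⟩ := win6 A V E (by omega) (by omega)
  obtain ⟨N₃, h3⟩ := asym6 A V E (by omega) (by omega)
  obtain ⟨N₄, h4⟩ := hch V E (by omega) (by omega)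
  obtain ⟨N₅, h5⟩ := scale14
  obtain ⟨N₆, h6⟩ := qscale (e := 5 / 6 - ρ) (e' := 5 / 6 - ρ') (by linarith)
  obtain ⟨N₇, h7⟩ := qscale (e := 1 - ρ) (e' := 1 - ρ') (by linarith)
  refine ⟨N₁ + N₂ + N₃ + N₄ + N₅ + N₆ + N₇ + 14, fun N hN c hc => ?_⟩
  obtain ⟨l1, l2, l3⟩ := h5 N (by omega)
  have hN0 : (0 : ℝ) < N := by exact_mod_cast (by omega : 0 < N)
  obtain ⟨D, d1, d2, hD⟩ := h1 (14 * N) (by omega) c (co14 hκ hσ0 (by omega) hc)
  have hvd := vd14 hσ (by omega : 1 ≤ N) hc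
  have hl0 : 0 < Real.log N := by linarith
  have hL0 : 0 < Real.log (14 * N : ℕ) := by linarith
  refine ⟨D.image (fun d => d / Nat.gcd d 6), ?_, ?_, ?_⟩
  · refine le_trans (Nat.cast_le.2 card_image_le) (d1.trans ?_)
    calc Real.log (14 * N : ℕ) ^ k ≤ (Real.log N ^ 2) ^ k := by
          apply pow_le_pow_left₀ hL0.le
          nlinarith
      _ = Real.log N ^ (2 * k) := by rw [← pow_mul]
  · intro d hd
    rw [mem_image] at hd
    obtain ⟨e, he, rfl⟩ := hd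
    have k1 := d2 e he
    have hg : Nat.gcd e 6 ≤ 6 := Nat.le_of_dvd (by norm_num) (Nat.gcd_dvd_right e 6)
    have hg0 : 0 < Nat.gcd e 6 := Nat.gcd_pos_of_pos_right _ (by norm_num)
    have hge : (e : ℝ) = Nat.gcd e 6 * (e / Nat.gcd e 6 : ℕ) := by
      have := Nat.mul_div_cancel' (Nat.gcd_dvd_left e 6)
      exact_mod_cast this.symm
    have k2 : Real.log N ^ (A₀ + 1) < 6 * ((e / Nat.gcd e 6 : ℕ) : ℝ) := by
      calc Real.log N ^ (A₀ + 1) ≤ Real.log (14 * N : ℕ) ^ (A₀ + 1) := pow_le_pow_left₀ hl0.le l2 _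
        _ < e := k1
        _ = Nat.gcd e 6 * (e / Nat.gcd e 6 : ℕ) := hge
        _ ≤ 6 * ((e / Nat.gcd e 6 : ℕ) : ℝ) := by
            apply mul_le_mul_of_nonneg_right _ (Nat.cast_nonneg _)
            exact_mod_cast hg
    rw [pow_succ] at k2
    have k3 : 0 < Real.log N ^ A₀ := by positivity
    nlinarith
  · intro q hq hqD a
    obtain ⟨x, hx⟩ := class6 N q hq a
    have hq6 : ∀ d ∈ D, ¬ d ∣ 6 * q := fun d hd hdq => hqD _ (mem_image_of_mem _ hd) (red6 hdq)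
    obtain ⟨b1, b2⟩ := hD (6 * q) (by omega) hq6 x
    have hl3 : (3 : ℝ) ≤ Real.log N := by linarith
    have herr : ((14 * N : ℕ) : ℝ) / Real.log (14 * N : ℕ) ^ V ≤ N / Real.log N ^ A / 2 := by
      obtain ⟨L, hL⟩ : ∃ L, L = Real.log (14 * N : ℕ) := ⟨_, rfl⟩
      obtain ⟨l, hld⟩ : ∃ l, l = Real.log (N : ℝ) := ⟨_, rfl⟩
      rw [← hL, ← hld] at l2
      rw [← hld] at l1 hl0
      have hL00 : 0 < L := by linarith
      rw [← hL, ← hld, div_div, div_le_div_iff₀ (by positivity) (by positivity)]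
      push_cast
      have k1 : l ^ A * 28 ≤ L ^ V := by
        calc l ^ A * 28 ≤ l ^ A * l := by
              gcongr
              linarith
          _ = l ^ (A + 1) := by ring
          _ ≤ L ^ (A + 1) := pow_le_pow_left₀ hl0.le l2 _
          _ ≤ L ^ V := pow_le_pow_right₀ (by linarith) (by omega)
      nlinarith
    refine ⟨fun hqN => ⟨?_, fun F hF => ?_⟩, fun hqN => ⟨?_, ?_, fun F hF => ?_⟩⟩
    · refine few6 (V := V) (by omega) hl3 l2 hq hx ?_ (b1 (h6 N (by omega) q hq hqN) (R6 la6 N)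
        (fun b _ => R6_nn hL0.le la6_le b))
      rintro u hu hG y₁ y₂ ⟨w1, w2, w3⟩ hΔ
      exact h2 N (by omega) u hu hG y₁ y₂ w1 w2 w3 hΔ
    · have hF' : ∀ m ∈ Icc 1 N, 0 ≤ F m ∧ F m ≤ Real.log (14 * N : ℕ) := fun m hm =>
        ⟨(hF m hm).1, (hF m hm).2.trans l2⟩
      refine few6 (V := V) (by omega) hl3 l2 hq hx ?_ (b1 (h6 N (by omega) q hq hqN) (R6 F N)
        (fun b _ => R6_nn hL0.le hF' b))
      rintro u hu hG y₁ y₂ ⟨w1, w2, w3⟩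
      have hg := hG (6 * (N - y₂)) (6 * (N - y₁)) (by omega) (by omega)
      rw [sum_R6 F (lamz ⌈Real.log (14 * N : ℕ) ^ E⌉₊) (u := u) w2 w3, sum_R6 F la (u := u) w2 w3] at hg
      have hnn : 0 ≤ ∑ m ∈ Ioc y₁ y₂, F m * lamz ⌈Real.log (14 * N : ℕ) ^ E⌉₊ (6 * (m + u - N) + 1) := by
        refine sum_nonneg fun m hm => ?_
        rw [mem_Ioc] at hm
        exact mul_nonneg (hF m (mem_Icc.2 ⟨by omega, by omega⟩)).1 (Pool.Agent.W93.PG.lamz_nn _ _)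
      have hp : 0 ≤ (N : ℝ) / Real.log N ^ A := by positivity
      linarith
    · refine few6 (V := V) (by omega) hl3 l2 hq hx ?_ (b2 (h7 N (by omega) q hq hqN) (R6 laC6 N)
        (fun b _ => R6_norm hL0.le laC6_le b)).2
      rintro u hu hG y₁ y₂ ⟨w1, w2, w3⟩ hΔ
      exact h4 N (by omega) u hu hG y₁ y₂ w1 w2 w3 hΔ
    · refine few6 (V := V) (by omega) hl3 l2 hq hx ?_ (b2 (h7 N (by omega) q hq hqN) (R6 laC6 N)
        (fun b _ => R6_norm hL0.le laC6_le b)).1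
      rintro u hu hG y₁ y₂ ⟨w1, w2, w3⟩
      have := h3 N (by omega) c hc.le1 u hu hG y₁ y₂ w1 w2 w3
      rw [hvd] at this
      exact this
    · have hF' : ∀ m ∈ Icc 1 N, ‖F m‖ ≤ Real.log (14 * N : ℕ) := fun m hm => (hF m hm).trans l2
      refine few6 (V := V) (by omega) hl3 l2 hq hx ?_ (b2 (h7 N (by omega) q hq hqN) (R6 F N)
        (fun b _ => R6_norm hL0.le hF' b)).1
      rintro u hu hG y₁ y₂ ⟨w1, w2, w3⟩
      have := goodF6 hG w1 w2 w3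
      rw [hvd] at this
      refine this.trans ?_
      linarith

end Pool.Agent.J4H40
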