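import Pool.Agent.J4H40.Zf

set_option autoImplicit false

/-! Vectors of shifts: counting coordinate by coordinate, and the replacement of the factors one after another. -/

namespace Pool.Agent.J4H40

open Finset

/-- counting in the product of finite sets, for a property of one coordinate which depends on the others -/
lemma count_pi {k : ℕ} (S : Fin k → Finset ℤ) (j : Fin k) (P : (Fin k → ℤ) → ℤ → Prop)
    [DecidablePred fun h : Fin k → ℤ => ¬ P h (h j)] [∀ g, DecidablePred fun t : ℤ => ¬ P g t]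
    (hP : ∀ g s t, P (Function.update g j s) t ↔ P g t) {B : ℝ}
    (hB0 : 0 ≤ B) (hB : ∀ g, (∀ i, i ≠ j → g i ∈ S i) → (((S j).filter (fun t => ¬ P g t)).card : ℝ) ≤ B) :
    (((Fintype.piFinset S).filter (fun h => ¬ P h (h j))).card : ℝ) ≤ B * ∏ i ∈ univ.erase j, ((S i).card : ℝ) := by
  classical
  obtain ⟨S', hS'⟩ : ∃ S' : Fin k → Finset ℤ, S' = fun i => if i = j then {0} else S i := ⟨_, rfl⟩
  have h1 := card_le_mul_card_image_of_maps_to (f := fun h : Fin k → ℤ => Function.update h j 0)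
    (s := (Fintype.piFinset S).filter (fun h => ¬ P h (h j))) (t := Fintype.piFinset S') (fun h hh => by
      rw [mem_filter, Fintype.mem_piFinset] at hh
      rw [Fintype.mem_piFinset]
      intro i
      rw [hS']
      simp only
      by_cases hi : i = j
      · subst hi
        rw [if_pos rfl, Function.update_self, mem_singleton]
      · rw [if_neg hi, Function.update_of_ne hi]
        exact hh.1 i) ⌊B⌋₊ (fun g hg => by
      apply Nat.le_floor
      refine le_trans (Nat.cast_le.2 ?_) (hB g (fun i hi => by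
        rw [Fintype.mem_piFinset] at hg
        have := hg i
        rw [hS'] at this
        simp only [if_neg hi] at this
        exact this))
      apply card_le_card_of_injOn (fun h => h j)
      · intro h hh
        rw [mem_coe, mem_filter, mem_filter, Fintype.mem_piFinset] at hh
        obtain ⟨⟨h1, h2⟩, h3⟩ := hh
        rw [mem_coe, mem_filter]
        refine ⟨h1 j, ?_⟩
        intro hp
        apply h2
        rw [← h3, hP] at hp
        exact hp
      · intro h hh h' hh' e
        rw [mem_coe, mem_filter] at hh hh'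
        have e2 : Function.update h j 0 = Function.update h' j 0 := hh.2.trans hh'.2.symm
        funext i
        by_cases hi : i = j
        · subst hi
          exact e
        · have := congrFun e2 i
          rwa [Function.update_of_ne hi, Function.update_of_ne hi] at this)
  have h2 : ((Fintype.piFinset S').card : ℝ) = ∏ i ∈ univ.erase j, ((S i).card : ℝ) := by
    rw [Fintype.card_piFinset]
    push_cast
    rw [← mul_prod_erase univ _ (mem_univ j)]
    rw [hS']
    simp only [if_true, card_singleton, Nat.cast_one, one_mul]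
    refine prod_congr rfl fun i hi => ?_
    rw [if_neg (ne_of_mem_erase hi)]
  calc (((Fintype.piFinset S).filter (fun h => ¬ P h (h j))).card : ℝ) ≤
        ((⌊B⌋₊ * (Fintype.piFinset S').card : ℕ) : ℝ) := by exact_mod_cast h1
    _ = (⌊B⌋₊ : ℝ) * (Fintype.piFinset S').card := by push_cast; ring
    _ ≤ B * (Fintype.piFinset S').card := by
        apply mul_le_mul_of_nonneg_right (Nat.floor_le hB0) (Nat.cast_nonneg _)
    _ = _ := by rw [h2]

/-- the factors with index `< j` are the true ones, the others are the models -/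
def mixP {R : Type} [CommRing R] {k : ℕ} (ℓ μ : Fin k → ℕ → R) (u : Fin k → ℕ) (N j n : ℕ) : R :=
  ∏ i : Fin k, if (i : ℕ) < j then ℓ i (n + u i - N) else μ i (n + u i - N)

/-- the same without the factor with index `j` -/
def mixE {R : Type} [CommRing R] {k : ℕ} (ℓ μ : Fin k → ℕ → R) (u : Fin k → ℕ) (N : ℕ) (j : Fin k) (n : ℕ) : R :=
  ∏ i ∈ univ.erase j, if (i : ℕ) < j then ℓ i (n + u i - N) else μ i (n + u i - N)

lemma mix_low {R : Type} [CommRing R] {k : ℕ} (ℓ μ : Fin k → ℕ → R) (u : Fin k → ℕ) (N : ℕ) (j : Fin k) (n : ℕ) :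
    mixP ℓ μ u N j n = mixE ℓ μ u N j n * μ j (n + u j - N) := by
  unfold mixP mixE
  rw [← mul_prod_erase univ _ (mem_univ j), if_neg (lt_irrefl _), mul_comm]

lemma mix_up {R : Type} [CommRing R] {k : ℕ} (ℓ μ : Fin k → ℕ → R) (u : Fin k → ℕ) (N : ℕ) (j : Fin k) (n : ℕ) :
    mixP ℓ μ u N (j + 1) n = mixE ℓ μ u N j n * ℓ j (n + u j - N) := by
  unfold mixP mixE
  rw [← mul_prod_erase univ _ (mem_univ j), if_pos (Nat.lt_succ_self _), mul_comm]
  congr 1
  refine prod_congr rfl fun i hi => ?_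
  have hne : (i : ℕ) ≠ j := fun h => ne_of_mem_erase hi (Fin.ext h)
  by_cases h : (i : ℕ) < j
  · rw [if_pos h, if_pos (by omega)]
  · rw [if_neg h, if_neg (by omega)]

lemma mix_zero {R : Type} [CommRing R] {k : ℕ} (ℓ μ : Fin k → ℕ → R) (u : Fin k → ℕ) (N n : ℕ) :
    mixP ℓ μ u N 0 n = ∏ i, μ i (n + u i - N) := by
  unfold mixP
  refine prod_congr rfl fun i _ => ?_
  rw [if_neg (Nat.not_lt_zero _)]

lemma mix_all {R : Type} [CommRing R] {k : ℕ} (ℓ μ : Fin k → ℕ → R) (u : Fin k → ℕ) (N n : ℕ) :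
    mixP ℓ μ u N k n = ∏ i, ℓ i (n + u i - N) := by
  unfold mixP
  refine prod_congr rfl fun i _ => ?_
  rw [if_pos i.2]

/-- the lower bound after the replacement of all factors -/
lemma tele_low {k : ℕ} (F : ℕ → ℝ) (ℓ μ : Fin k → ℕ → ℝ) (u : Fin k → ℕ) (N : ℕ) (S : Finset ℕ) (β : Fin k → ℝ)
    {e : ℝ} (he : 0 ≤ e) (hβ0 : ∀ i, 0 ≤ β i) (hβ1 : ∀ i, β i ≤ 1)
    (h : ∀ j : Fin k, β j * ∑ n ∈ S, F n * mixE ℓ μ u N j n * μ j (n + u j - N) - e ≤
      ∑ n ∈ S, F n * mixE ℓ μ u N j n * ℓ j (n + u j - N)) :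
    (∏ i, β i) * ∑ n ∈ S, F n * ∏ i, μ i (n + u i - N) - k * e ≤ ∑ n ∈ S, F n * ∏ i, ℓ i (n + u i - N) := by
  have key : ∀ j : ℕ, j ≤ k → (∏ i : Fin k, if (i : ℕ) < j then β i else 1) * ∑ n ∈ S, F n * mixP ℓ μ u N 0 n - j * e ≤
      ∑ n ∈ S, F n * mixP ℓ μ u N j n := by
    intro j
    induction j with
    | zero =>
      intro _
      simp
    | succ j ih =>
      intro hj
      have ih' := ih (by omega)
      obtain ⟨jf, hjf⟩ : ∃ jf : Fin k, (jf : ℕ) = j := ⟨⟨j, by omega⟩, rfl⟩
      have h1 := h jf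
      have e1 : ∑ n ∈ S, F n * mixP ℓ μ u N j n = ∑ n ∈ S, F n * mixE ℓ μ u N jf n * μ jf (n + u jf - N) := by
        refine sum_congr rfl fun n _ => ?_
        rw [← hjf, mix_low, mul_assoc]
      have e2 : ∑ n ∈ S, F n * mixP ℓ μ u N (j + 1) n = ∑ n ∈ S, F n * mixE ℓ μ u N jf n * ℓ jf (n + u jf - N) := by
        refine sum_congr rfl fun n _ => ?_
        rw [← hjf, mix_up, mul_assoc]
      have e3 : (∏ i : Fin k, if (i : ℕ) < j + 1 then β i else 1) =
          β jf * ∏ i : Fin k, if (i : ℕ) < j then β i else 1 := by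
        rw [← mul_prod_erase univ _ (mem_univ jf), ← mul_prod_erase univ (fun i : Fin k => if (i : ℕ) < j then β i else 1)
          (mem_univ jf), if_pos (by omega), if_neg (by omega), one_mul]
        congr 1
        refine prod_congr rfl fun i hi => ?_
        have hne : (i : ℕ) ≠ jf := fun h => ne_of_mem_erase hi (Fin.ext h)
        by_cases h : (i : ℕ) < j
        · rw [if_pos h, if_pos (by omega)]
        · rw [if_neg h, if_neg (by omega)]
      rw [e1] at ih'
      rw [e2, e3]
      obtain ⟨X, hX⟩ : ∃ X, X = ∑ n ∈ S, F n * mixE ℓ μ u N jf n * μ jf (n + u jf - N) := ⟨_, rfl⟩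
      obtain ⟨Z, hZ⟩ : ∃ Z, Z = (∏ i : Fin k, if (i : ℕ) < j then β i else 1) * ∑ n ∈ S, F n * mixP ℓ μ u N 0 n := ⟨_, rfl⟩
      rw [← hX] at h1 ih'
      rw [← hZ] at ih'
      rw [mul_assoc, ← hZ]
      have k1 := mul_le_mul_of_nonneg_left ih' (hβ0 jf)
      have k2 : β jf * ((j : ℝ) * e) ≤ 1 * ((j : ℝ) * e) := mul_le_mul_of_nonneg_right (hβ1 jf) (by positivity)
      push_cast
      linarith
  have h1 := key k le_rfl
  have e1 : (∏ i : Fin k, if (i : ℕ) < k then β i else 1) = ∏ i, β i :=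
    prod_congr rfl fun i _ => by rw [if_pos i.2]
  rw [e1] at h1
  simp only [mix_zero, mix_all] at h1
  exact h1

/-- the asymptotic formula after the replacement of all factors -/
lemma tele_as {k : ℕ} (F : ℕ → ℂ) (ℓ μ : Fin k → ℕ → ℂ) (u : Fin k → ℕ) (N : ℕ) (S : Finset ℕ)
    {e : ℝ} (h : ∀ j : Fin k, ‖∑ n ∈ S, F n * mixE ℓ μ u N j n * (ℓ j (n + u j - N) - μ j (n + u j - N))‖ ≤ e) :
    ‖∑ n ∈ S, F n * (∏ i, ℓ i (n + u i - N) - ∏ i, μ i (n + u i - N))‖ ≤ k * e := by
  have key : ∀ j : ℕ, j ≤ k → ‖∑ n ∈ S, F n * (mixP ℓ μ u N j n - mixP ℓ μ u N 0 n)‖ ≤ j * e := by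
    intro j
    induction j with
    | zero =>
      intro _
      simp
    | succ j ih =>
      intro hj
      have ih' := ih (by omega)
      obtain ⟨jf, hjf⟩ : ∃ jf : Fin k, (jf : ℕ) = j := ⟨⟨j, by omega⟩, rfl⟩
      have h1 := h jf
      have e1 : ∑ n ∈ S, F n * (mixP ℓ μ u N (j + 1) n - mixP ℓ μ u N 0 n) =
          ∑ n ∈ S, F n * mixE ℓ μ u N jf n * (ℓ jf (n + u jf - N) - μ jf (n + u jf - N)) +
          ∑ n ∈ S, F n * (mixP ℓ μ u N j n - mixP ℓ μ u N 0 n) := by
        rw [← sum_add_distrib]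
        refine sum_congr rfl fun n _ => ?_
        rw [← hjf, mix_up, mix_low]
        ring
      rw [e1]
      refine (norm_add_le _ _).trans ?_
      push_cast
      linarith
  have h1 := key k le_rfl
  simp only [mix_zero, mix_all] at h1
  exact h1

end Pool.Agent.J4H40
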