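import Pool.Agent.J4H40.Zg
import Pool.Agent.H373R2.T7.SingLim
import Pool.Agent.H373R2.T7.TupleMain2

set_option autoImplicit false

/-! The main term for vectors of shifts, in all windows. -/

namespace Pool.Agent.J4H40

open Finset
open Pool.Agent.H373R2.T7
open Pool.Agent.R460.GS (la la_nn)

lemma nuP_le_self {k : ℕ} (a : Fin k → ℤ) (p : ℕ) : nuP a p ≤ p := by
  unfold nuP
  exact (card_filter_le _ _).trans (by rw [card_range])

lemma singZ_le {k : ℕ} (a : Fin k → ℤ) (z : ℕ) : singZ a z ≤ ((Vz z)⁻¹) ^ k := by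
  rw [singZ_eq]
  have h1 : ∏ p ∈ pz z, (1 - (rhoP a p : ℝ) / (p - 1 : ℝ)) ≤ 1 := by
    apply prod_le_one
    · intro p hp
      have hpp := (mem_pz.1 hp).2
      have h2 := nuP_le_self a p
      rw [nuP_eq a p hpp] at h2
      have h3 : (rhoP a p : ℝ) ≤ p - 1 := by
        have : ((rhoP a p + 1 : ℕ) : ℝ) ≤ p := by exact_mod_cast h2
        push_cast at this
        linarith
      have h4 : (0 : ℝ) < p - 1 := by
        have : (2 : ℝ) ≤ p := by exact_mod_cast hpp.two_le
        linarith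
      rw [sub_nonneg, div_le_one h4]
      exact h3
    · intro p hp
      have hpp := (mem_pz.1 hp).2
      have h4 : (0 : ℝ) < p - 1 := by
        have : (2 : ℝ) ≤ p := by exact_mod_cast hpp.two_le
        linarith
      have : 0 ≤ (rhoP a p : ℝ) / (p - 1 : ℝ) := by positivity
      linarith
  have h2 : 0 ≤ ((Vz z)⁻¹) ^ k := by
    have := Vz_pos z
    positivity
  calc ((Vz z)⁻¹) ^ k * _ ≤ ((Vz z)⁻¹) ^ k * 1 := mul_le_mul_of_nonneg_left h1 h2
    _ = _ := mul_one _

/-- the main term, in all windows -/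
theorem mainT (k V E : ℕ) (hk : 1 ≤ k) : ∃ N₀ : ℕ, ∀ N : ℕ, N₀ ≤ N → ∀ z : ℕ, 1 ≤ z → (z : ℝ) ≤ Real.log N ^ E →
    ∀ h : Fin k → ℤ, ∀ y₁ y₂ : ℕ, y₁ ≤ y₂ → y₂ ≤ N → (∀ i, -(N : ℤ) ≤ h i) → (∀ i, 0 ≤ (y₁ : ℤ) + h i) →
      |∑ n ∈ Ioc y₁ y₂, la n * ∏ i, lamz z (n + (h i + N).toNat - N) - singZ h z * ((y₂ : ℝ) - y₁)| ≤
        N / Real.log N ^ V := by
  obtain ⟨N₁, h1⟩ := tuple_main k (E + 1) (V + 1) hk
  obtain ⟨N₂, h2⟩ := Vz_inv_small E
  obtain ⟨N₃, h3⟩ := Pool.Agent.R462.GS.evL (2 ^ (V + E + 10))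
  obtain ⟨N₄, h4⟩ := Pool.Agent.R462.GS.evlog (k + V + 2) 4 (1 / 2) (by norm_num)
  refine ⟨(N₁ + 1) ^ 2 + N₂ + N₃ + N₄ + 4, fun N hN z hz hzE h y₁ y₂ h12 hy2 hh hy => ?_⟩
  have hsq : (N₁ + 1) ^ 2 ≤ N := by omega
  have hV := h2 N (by omega) z hz hzE
  have hL := h3 N (by omega)
  have hp := h4 N (by omega)
  have hN0 : (0 : ℝ) < N := by exact_mod_cast (by omega : 0 < N)
  have hN1 : (1 : ℝ) ≤ N := by exact_mod_cast (by omega : 1 ≤ N)
  obtain ⟨L, hLd⟩ : ∃ L, L = Real.log (N : ℝ) := ⟨_, rfl⟩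
  rw [← hLd] at hV hL hp hzE ⊢
  have hpow : (2 : ℝ) ^ 10 ≤ 2 ^ (V + E + 10) := pow_le_pow_right₀ (by norm_num) (by omega)
  have hL1000 : 1000 ≤ L := by
    have : (1000 : ℝ) ≤ 2 ^ 10 := by norm_num
    linarith
  have hL0 : 0 < L := by linarith
  have hVz := Vz_pos z
  have hVi : 0 < (Vz z)⁻¹ := inv_pos.2 hVz
  obtain ⟨f, hf⟩ : ∃ f : ℕ → ℝ, f = fun y => ∑ n ∈ Icc 1 y, ArithmeticFunction.vonMangoldt n *
      ∏ i, (if ∀ p ∈ pz z, ¬ (p : ℤ) ∣ (n : ℤ) + h i then (Vz z)⁻¹ else 0) := ⟨_, rfl⟩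
  obtain ⟨M, hM⟩ : ∃ M, M = singZ h z := ⟨_, rfl⟩
  rw [← hM]
  have hM0 : 0 ≤ M := by rw [hM]; exact singZ_nonneg h z
  have hM1 : M ≤ L ^ k := by
    rw [hM]
    exact (singZ_le h z).trans (pow_le_pow_left₀ hVi.le hV k)
  have key : ∀ y : ℕ, y ≤ N → |f y - M * y| ≤ N / L ^ V / 2 := by
    intro y hyN
    have hyr : (y : ℝ) ≤ N := by exact_mod_cast hyN
    by_cases hc : (N : ℝ) ^ (1 / 2 : ℝ) ≤ y
    · -- long sums
      have hy0 : (0 : ℝ) < y := lt_of_lt_of_le (by positivity) hc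
      have hly : L ≤ 2 * Real.log y := by
        have := Real.log_le_log (by positivity) hc
        rw [Real.log_rpow hN0, ← hLd] at this
        linarith
      have hyN1 : N₁ ≤ y := by
        have k1 : ((N₁ : ℝ) + 1) ≤ (N : ℝ) ^ (1 / 2 : ℝ) := by
          rw [← Real.sqrt_eq_rpow]
          apply Real.le_sqrt_of_sq_le
          exact_mod_cast hsq
        have k2 : (N₁ : ℝ) ≤ y := by linarith
        exact_mod_cast k2
      obtain ⟨ly, hlyd⟩ : ∃ ly, ly = Real.log (y : ℝ) := ⟨_, rfl⟩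
      have h1' := h1 y hyN1 z hz (by
        rw [← hlyd]
        rw [← hlyd] at hly
        have hly0 : 0 < ly := by linarith
        calc (z : ℝ) ≤ L ^ E := hzE
          _ ≤ (2 * ly) ^ E := pow_le_pow_left₀ hL0.le hly E
          _ = 2 ^ E * ly ^ E := by rw [mul_pow]
          _ ≤ ly * ly ^ E := by
              apply mul_le_mul_of_nonneg_right _ (by positivity)
              have : (2 : ℝ) ^ (E + 1) ≤ 2 ^ (V + E + 10) := pow_le_pow_right₀ (by norm_num) (by omega)
              rw [pow_succ] at this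
              linarith
          _ = ly ^ (E + 1) := by ring) h
      have e1 : f y = ∑ n ∈ Icc 1 y, ArithmeticFunction.vonMangoldt n *
        ∏ i, (if ∀ p ∈ pz z, ¬ (p : ℤ) ∣ (n : ℤ) + h i then (Vz z)⁻¹ else 0) := by rw [hf]
      rw [← e1, ← hM, ← hlyd] at h1'
      rw [← hlyd] at hly
      have hly0 : 0 < ly := by linarith
      refine h1'.trans ?_
      have k1 : L ^ (V + 1) ≤ 2 ^ (V + 1) * ly ^ (V + 1) := by
        rw [← mul_pow]
        exact pow_le_pow_left₀ hL0.le hly _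
      rw [div_div, div_le_div_iff₀ (by positivity) (by positivity)]
      have k2 : (2 : ℝ) ^ (V + 2) ≤ L := by
        refine le_trans ?_ hL
        exact pow_le_pow_right₀ (by norm_num) (by omega)
      have k3 : L ^ V * 2 ≤ ly ^ (V + 1) := by
        have : 2 ^ (V + 1) * (L ^ V * 2) ≤ 2 ^ (V + 1) * ly ^ (V + 1) := by
          refine le_trans ?_ k1
          calc 2 ^ (V + 1) * (L ^ V * 2) = 2 ^ (V + 2) * L ^ V := by ring
            _ ≤ L * L ^ V := by gcongr
            _ = L ^ (V + 1) := by ring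
        exact le_of_mul_le_mul_left this (by positivity)
      gcongr
    · -- short sums
      rw [not_le] at hc
      have k1 : |f y| ≤ y * L ^ (k + 1) := by
        rw [hf]
        simp only
        refine (abs_sum_le_sum_abs _ _).trans ?_
        have k2 : ∀ n ∈ Icc 1 y, |ArithmeticFunction.vonMangoldt n *
            ∏ i, (if ∀ p ∈ pz z, ¬ (p : ℤ) ∣ (n : ℤ) + h i then (Vz z)⁻¹ else 0)| ≤ L ^ (k + 1) := by
          intro n hn
          rw [mem_Icc] at hn
          have k3 : ArithmeticFunction.vonMangoldt n ≤ L := by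
            rw [hLd]
            exact Pool.Agent.R460.GS.vm_le (mem_Icc.2 ⟨hn.1, hn.2.trans hyN⟩)
          have k4 : 0 ≤ ∏ i : Fin k, (if ∀ p ∈ pz z, ¬ (p : ℤ) ∣ (n : ℤ) + h i then (Vz z)⁻¹ else 0) := by
            apply prod_nonneg
            intro i _
            split_ifs
            · exact hVi.le
            · exact le_rfl
          have k5 : ∏ i : Fin k, (if ∀ p ∈ pz z, ¬ (p : ℤ) ∣ (n : ℤ) + h i then (Vz z)⁻¹ else 0) ≤ L ^ k := by
            calc _ ≤ ∏ _i : Fin k, L := by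
                  apply prod_le_prod
                  · intro i _
                    split_ifs
                    · exact hVi.le
                    · exact le_rfl
                  · intro i _
                    split_ifs
                    · exact hV
                    · exact hL0.le
              _ = L ^ k := by rw [prod_const, card_univ, Fintype.card_fin]
          rw [abs_mul, abs_of_nonneg ArithmeticFunction.vonMangoldt_nonneg, abs_of_nonneg k4, pow_succ, mul_comm (L ^ k)]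
          exact mul_le_mul k3 k5 k4 hL0.le
        refine (sum_le_sum k2).trans (le_of_eq ?_)
        rw [sum_const, Nat.card_Icc, nsmul_eq_mul, Nat.add_sub_cancel]
      have hy00 : (0 : ℝ) ≤ y := Nat.cast_nonneg _
      have k2 : |M * y| ≤ y * L ^ (k + 1) := by
        rw [abs_of_nonneg (by positivity), mul_comm]
        apply mul_le_mul_of_nonneg_left _ hy00
        refine hM1.trans ?_
        exact pow_le_pow_right₀ (by linarith) (by omega)
      have k3 : |f y - M * y| ≤ 2 * (y * L ^ (k + 1)) := by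
        have := abs_sub (f y) (M * y)
        linarith
      refine k3.trans ?_
      rw [div_div, le_div_iff₀ (by positivity)]
      calc 2 * ((y : ℝ) * L ^ (k + 1)) * (L ^ V * 2) = y * (4 * L ^ (k + V + 1)) := by ring
        _ ≤ (N : ℝ) ^ (1 / 2 : ℝ) * (4 * L ^ (k + V + 2)) := by
            apply mul_le_mul hc.le _ (by positivity) (by positivity)
            have : L ^ (k + V + 1) ≤ L ^ (k + V + 2) := pow_le_pow_right₀ (by linarith) (by omega)
            linarith
        _ ≤ (N : ℝ) ^ (1 / 2 : ℝ) * (N : ℝ) ^ (1 / 2 : ℝ) := by gcongr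
        _ = N := by
            rw [← Real.rpow_add hN0]
            norm_num
  have e1 : ∑ n ∈ Ioc y₁ y₂, la n * ∏ i, lamz z (n + (h i + N).toNat - N) = f y₂ - f y₁ := by
    have e2 : ∑ n ∈ Ioc y₁ y₂, la n * ∏ i, lamz z (n + (h i + N).toNat - N) =
        ∑ n ∈ Ioc y₁ y₂, ArithmeticFunction.vonMangoldt n *
          ∏ i, (if ∀ p ∈ pz z, ¬ (p : ℤ) ∣ (n : ℤ) + h i then (Vz z)⁻¹ else 0) := by
      refine sum_congr rfl fun n hn => ?_
      rw [mem_Ioc] at hn
      unfold la
      congr 1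
      refine prod_congr rfl fun i _ => ?_
      unfold lamz
      have e3 : ((n + (h i + N).toNat - N : ℕ) : ℤ) = (n : ℤ) + h i := by
        have g1 := hh i
        have g2 := hy i
        omega
      have e4 : (∀ p ∈ pz z, ¬ p ∣ n + (h i + N).toNat - N) ↔ ∀ p ∈ pz z, ¬ (p : ℤ) ∣ (n : ℤ) + h i := by
        refine forall₂_congr fun p _ => ?_
        rw [← e3, Int.natCast_dvd_natCast]
      simp only [e4]
    rw [e2, hf]
    simp only
    rw [ioc_sub _ h12]
  rw [e1]
  have k1 := key y₁ (by omega)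
  have k2 := key y₂ hy2
  rw [abs_le] at k1 k2 ⊢
  constructor <;> linarith

end Pool.Agent.J4H40
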