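import Pool.Agent.J4H40.Zh

set_option autoImplicit false

/-! Vectors of shifts in all classes of the regular moduli. -/

namespace Pool.Agent.J4H40

open Finset
open Pool.Agent.H373R2.T7 (lamz Vz pz Vz_pos mem_pz Vz_inv_small)
open Pool.Agent.R460.GS (vm_le la la_nn)
open Pool.Agent.Y883.T4 (class_le)

/-- the shifts `|t| ≤ N` in a class -/
noncomputable def SV (N q : ℕ) (a : ℤ) : Finset ℤ := {t ∈ Icc (-(N : ℤ)) N | t ≡ a [ZMOD q]}

lemma mem_SV {N q : ℕ} {a t : ℤ} : t ∈ SV N q a ↔ (-(N : ℤ) ≤ t ∧ t ≤ N) ∧ t ≡ a [ZMOD q] := by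
  unfold SV
  rw [mem_filter, mem_Icc]

lemma sv_card {N q : ℕ} (hq : 1 ≤ q) (hqN : q ≤ N) (a : ℤ) : ((SV N q a).card : ℝ) ≤ 3 * (N / q) := by
  classical
  have hq0 : (0 : ℝ) < q := by exact_mod_cast hq
  obtain ⟨r, hr⟩ : ∃ r : ℕ, (r : ℤ) ≡ a + N [ZMOD q] := by
    refine ⟨((a + N) % q).toNat, ?_⟩
    rw [Int.toNat_of_nonneg (Int.emod_nonneg _ (by omega))]
    exact Int.mod_modEq _ _
  have h1 := class_le N q r hq ((SV N q a).image (fun t : ℤ => (t + N).toNat)) (2 * N) (by positivity) (by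
    intro n hn
    rw [mem_image] at hn
    obtain ⟨t, ht, rfl⟩ := hn
    rw [mem_SV] at ht
    obtain ⟨⟨h1, h2⟩, h3⟩ := ht
    constructor
    · have e : (((t + N).toNat : ℕ) : ℤ) ≡ r [ZMOD q] := by
        rw [Int.toNat_of_nonneg (by omega)]
        exact (h3.add_right _).trans hr.symm
      exact Int.natCast_modEq_iff.1 e
    · have : (t + N).toNat ≤ 2 * N := by omega
      exact_mod_cast this)
  rw [card_image_of_injOn] at h1
  · have h2 : (1 : ℝ) ≤ N / q := by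
      rw [_root_.one_le_div hq0]
      exact_mod_cast hqN
    have h3 : 2 * (N : ℝ) / q = 2 * (N / q) := by ring
    rw [h3] at h1
    linarith
  · intro t ht t' ht' e
    rw [mem_coe, mem_SV] at ht ht'
    simp only at e
    omega

open Classical in
/-- all but few vectors of shifts -/
def FewV {k : ℕ} (N : ℕ) (q : Fin k → ℕ) (a : Fin k → ℤ) (A : ℕ) (P : (Fin k → ℤ) → Prop) : Prop :=
  ((((Fintype.piFinset fun i => SV N (q i) (a i)).filter fun h => ¬ P h).card : ℕ) : ℝ) ≤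
    (∏ i, (N : ℝ) / q i) / Real.log N ^ A

lemma fewV_of {k N A V : ℕ} {q : Fin k → ℕ} {a : Fin k → ℤ} (hq : ∀ i, 1 ≤ q i) (hqN : ∀ i, q i ≤ N) (hV : A + 1 ≤ V)
    (hl : (k : ℝ) * 3 ^ k + 1 ≤ Real.log N) (P : Fin k → (Fin k → ℤ) → ℕ → Prop)
    (hP : ∀ j g s t, P j (Function.update g j s) t ↔ P j g t)
    (hB : ∀ j g, (∀ i, i ≠ j → g i ∈ SV N (q i) (a i)) → Few6 N (q j) (a j) V (P j g)) :
    FewV N q a A (fun h => ∀ j, P j h (h j + N).toNat) := by
  classical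
  unfold FewV
  obtain ⟨l, hld⟩ : ∃ l, l = Real.log (N : ℝ) := ⟨_, rfl⟩
  rw [← hld] at hl ⊢
  have h3k : (0 : ℝ) ≤ k * 3 ^ k := by positivity
  have hl1 : 1 ≤ l := by linarith
  have hl0 : 0 < l := by linarith
  have hsub : (Fintype.piFinset fun i => SV N (q i) (a i)).filter (fun h => ¬ ∀ j, P j h (h j + N).toNat) ⊆
      univ.biUnion fun j => (Fintype.piFinset fun i => SV N (q i) (a i)).filter (fun h => ¬ P j h (h j + N).toNat) := by
    intro h hh
    rw [mem_filter] at hh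
    obtain ⟨h1, h2⟩ := hh
    push Not at h2
    obtain ⟨j, hj⟩ := h2
    rw [mem_biUnion]
    exact ⟨j, mem_univ j, mem_filter.2 ⟨h1, hj⟩⟩
  have hone : ∀ j, (((Fintype.piFinset fun i => SV N (q i) (a i)).filter
      (fun h => ¬ P j h (h j + N).toNat)).card : ℝ) ≤ 3 ^ k * (∏ i, (N : ℝ) / q i) / l ^ V := by
    intro j
    have h1 := count_pi (fun i => SV N (q i) (a i)) j (fun g t => P j g (t + N).toNat)
      (fun g s t => hP j g s _) (B := (N : ℝ) / (q j * l ^ V)) (by positivity) (fun g hg => by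
        have h2 := hB j g hg
        unfold Few6 at h2
        rw [← hld] at h2
        refine le_trans ?_ h2
        apply Nat.cast_le.2
        apply card_le_card
        intro t ht
        rw [mem_filter, mem_SV] at ht
        rw [mem_filter, mem_Icc]
        exact ⟨ht.1.1, ht.1.2, ht.2⟩)
    refine h1.trans ?_
    have hqj : (0 : ℝ) < q j := by exact_mod_cast hq j
    have h2 : ∏ i ∈ univ.erase j, ((SV N (q i) (a i)).card : ℝ) ≤ ∏ i ∈ univ.erase j, (3 * ((N : ℝ) / q i)) :=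
      prod_le_prod (fun i _ => Nat.cast_nonneg _) fun i _ => sv_card (hq i) (hqN i) (a i)
    have h4 : ∏ i ∈ univ.erase j, (3 * ((N : ℝ) / q i)) ≤ 3 ^ k * ∏ i ∈ univ.erase j, ((N : ℝ) / q i) := by
      rw [prod_mul_distrib, prod_const]
      apply mul_le_mul_of_nonneg_right _ (prod_nonneg fun _ _ => by positivity)
      apply pow_le_pow_right₀ (by norm_num)
      rw [card_erase_of_mem (mem_univ j), card_univ, Fintype.card_fin]
      omega
    have h5 : ∏ i, (N : ℝ) / q i = (N : ℝ) / q j * ∏ i ∈ univ.erase j, (N : ℝ) / q i :=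
      (mul_prod_erase univ _ (mem_univ j)).symm
    calc (N : ℝ) / (q j * l ^ V) * ∏ i ∈ univ.erase j, ((SV N (q i) (a i)).card : ℝ) ≤
          (N : ℝ) / (q j * l ^ V) * (3 ^ k * ∏ i ∈ univ.erase j, ((N : ℝ) / q i)) := by
          apply mul_le_mul_of_nonneg_left (h2.trans h4) (by positivity)
      _ = 3 ^ k * (∏ i, (N : ℝ) / q i) / l ^ V := by
          rw [h5]
          field_simp
  have hpos : 0 ≤ ∏ i, (N : ℝ) / q i := prod_nonneg fun _ _ => by positivity
  have hfirst : ((((Fintype.piFinset fun i => SV N (q i) (a i)).filter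
      fun h => ¬ ∀ j, P j h (h j + N).toNat).card : ℕ) : ℝ) ≤
      ∑ j, (((Fintype.piFinset fun i => SV N (q i) (a i)).filter (fun h => ¬ P j h (h j + N).toNat)).card : ℝ) := by
    exact_mod_cast (card_le_card hsub).trans card_biUnion_le
  have hmain : ((((Fintype.piFinset fun i => SV N (q i) (a i)).filter
      fun h => ¬ ∀ j, P j h (h j + N).toNat).card : ℕ) : ℝ) ≤ (∏ i, (N : ℝ) / q i) / l ^ A := by
    refine hfirst.trans ?_
    calc ∑ j, (((Fintype.piFinset fun i => SV N (q i) (a i)).filter (fun h => ¬ P j h (h j + N).toNat)).card : ℝ)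
        ≤ ∑ _j : Fin k, 3 ^ k * (∏ i, (N : ℝ) / q i) / l ^ V := sum_le_sum fun j _ => hone j
      _ = (k * 3 ^ k) * ((∏ i, (N : ℝ) / q i) / l ^ V) := by
          rw [sum_const, card_univ, Fintype.card_fin, nsmul_eq_mul]
          ring
      _ ≤ l * ((∏ i, (N : ℝ) / q i) / l ^ V) := by
          apply mul_le_mul_of_nonneg_right _ (by positivity)
          linarith
      _ ≤ l * ((∏ i, (N : ℝ) / q i) / l ^ (A + 1)) := by
          apply mul_le_mul_of_nonneg_left _ hl0.le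
          apply div_le_div_of_nonneg_left hpos (by positivity)
          exact pow_le_pow_right₀ hl1 hV
      _ = (∏ i, (N : ℝ) / q i) / l ^ A := by
          rw [pow_succ]
          field_simp
  convert hmain

lemma fewV_mono {k N A : ℕ} {q : Fin k → ℕ} {a : Fin k → ℤ} {P Q : (Fin k → ℤ) → Prop}
    (h : ∀ t, (∀ i, t i ∈ SV N (q i) (a i)) → P t → Q t) (hP : FewV N q a A P) : FewV N q a A Q := by
  classical
  unfold FewV at hP ⊢
  refine le_trans ?_ hP
  apply Nat.cast_le.2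
  apply card_le_card
  intro t ht
  rw [mem_filter, Fintype.mem_piFinset] at ht ⊢
  exact ⟨ht.1, fun hp => ht.2 (h t ht.1 hp)⟩

/-- the number `h i + N` -/
def uu {k : ℕ} (N : ℕ) (h : Fin k → ℤ) (i : Fin k) : ℕ := (h i + N).toNat

lemma uu_update {k : ℕ} {R : Type} [CommRing R] (ℓ μ : Fin k → ℕ → R) (N : ℕ) (g : Fin k → ℤ) (j : Fin k) (s : ℤ)
    (n : ℕ) : mixE ℓ μ (uu N (Function.update g j s)) N j n = mixE ℓ μ (uu N g) N j n := by
  unfold mixE uu
  refine prod_congr rfl fun i hi => ?_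
  rw [Function.update_of_ne (ne_of_mem_erase hi)]

lemma mixE_norm {k : ℕ} {R : Type} [NormedField R] {ℓ μ : Fin k → ℕ → R} {u : Fin k → ℕ} {N : ℕ} {j : Fin k} {n : ℕ}
    {B : ℝ} (hB : 1 ≤ B) (hn : n ≤ N) (hu : ∀ i, i ≠ j → u i ≤ 2 * N) (hℓ : ∀ i, ∀ t ≤ 2 * N, ‖ℓ i t‖ ≤ B)
    (hμ : ∀ i, ∀ t ≤ 2 * N, ‖μ i t‖ ≤ B) : ‖mixE ℓ μ u N j n‖ ≤ B ^ k := by
  unfold mixE
  rw [norm_prod]
  calc ∏ i ∈ univ.erase j, ‖if (i : ℕ) < j then ℓ i (n + u i - N) else μ i (n + u i - N)‖ ≤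
        ∏ _i ∈ univ.erase j, B := by
        apply prod_le_prod (fun _ _ => norm_nonneg _)
        intro i hi
        have := hu i (ne_of_mem_erase hi)
        split_ifs
        · exact hℓ i _ (by omega)
        · exact hμ i _ (by omega)
    _ = B ^ (univ.erase j).card := prod_const _
    _ ≤ B ^ k := by
        apply pow_le_pow_right₀ hB
        rw [card_erase_of_mem (mem_univ j), card_univ, Fintype.card_fin]
        omega

lemma mixE_nn {k : ℕ} {ℓ μ : Fin k → ℕ → ℝ} {u : Fin k → ℕ} {N : ℕ} {j : Fin k} {n : ℕ}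
    (hℓ : ∀ i t, 0 ≤ ℓ i t) (hμ : ∀ i t, 0 ≤ μ i t) : 0 ≤ mixE ℓ μ u N j n := by
  unfold mixE
  apply prod_nonneg
  intro i _
  split_ifs
  · exact hℓ i _
  · exact hμ i _

/-- windows for a vector of shifts -/
def WinV {k : ℕ} (N : ℕ) (h : Fin k → ℤ) (y₁ y₂ : ℕ) : Prop := y₁ ≤ y₂ ∧ y₂ ≤ N ∧ ∀ i, 0 ≤ (y₁ : ℤ) + h i

lemma winV_win {k N : ℕ} {h : Fin k → ℤ} {y₁ y₂ : ℕ} (hw : WinV N h y₁ y₂) (i : Fin k) (hh : -(N : ℤ) ≤ h i) :
    Win N (uu N h i) y₁ y₂ := by
  obtain ⟨w1, w2, w3⟩ := hw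
  have := w3 i
  exact ⟨w1, w2, by unfold uu; omega⟩

end Pool.Agent.J4H40
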