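import Pool.Agent.J4H40.Zi

set_option autoImplicit false

/-! Vectors of shifts: the lower bound and the asymptotic formulas for the products. -/

namespace Pool.Agent.J4H40

open Finset
open Pool.Agent.H373R2.T7 (lamz Vz pz Vz_pos mem_pz Vz_inv_small)
open Pool.Agent.R460.GS (vm_le la la_nn)

lemma zz_pos {N : ℕ} (hN : 2 ≤ N) (E : ℕ) : 1 ≤ zz N E := by
  unfold zz
  apply Nat.one_le_iff_ne_zero.2
  intro h
  rw [Nat.ceil_eq_zero] at h
  have : 0 < Real.log (3 * N : ℕ) := Real.log_pos (by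
    have : (2 : ℝ) ≤ N := by exact_mod_cast hN
    push_cast
    linarith)
  have : 0 < Real.log (3 * N : ℕ) ^ E := by positivity
  linarith

lemma zz_le {N : ℕ} (hl : 1300 ≤ Real.log N) (hL : Real.log (3 * N : ℕ) ≤ 101 / 100 * Real.log N) (E : ℕ) :
    (zz N E : ℝ) ≤ Real.log N ^ (2 * E + 1) := by
  obtain ⟨L, hLd⟩ : ∃ L, L = Real.log (3 * N : ℕ) := ⟨_, rfl⟩
  obtain ⟨l, hld⟩ : ∃ l, l = Real.log (N : ℝ) := ⟨_, rfl⟩
  unfold zz
  rw [← hLd, ← hld] at hL
  rw [← hld] at hl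
  rw [← hLd, ← hld]
  have hl0 : 0 < l := by linarith
  rcases le_or_gt L 0 with h | h
  · exfalso
    have h2 : Real.log (N : ℝ) ≤ Real.log (3 * N : ℕ) := by
      rcases Nat.eq_zero_or_pos N with h0 | h0
      · rw [h0]
      · apply Real.log_le_log (by exact_mod_cast h0)
        push_cast
        have : (0 : ℝ) < N := by exact_mod_cast h0
        linarith
    rw [← hld, ← hLd] at h2
    linarith
  · have h1 : L ^ E ≤ l ^ (2 * E) := by
      rw [pow_mul]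
      apply pow_le_pow_left₀ h.le
      nlinarith
    have h2 : (⌈L ^ E⌉₊ : ℝ) < L ^ E + 1 := Nat.ceil_lt_add_one (by positivity)
    have h3 : (1 : ℝ) ≤ l ^ (2 * E) := one_le_pow₀ (by linarith)
    rw [pow_succ]
    nlinarith

/-- all factors are bounded -/
lemma bnds (E : ℕ) : ∃ N₀ : ℕ, ∀ N : ℕ, N₀ ≤ N → 1300 ≤ Real.log N ∧ 2 ≤ N ∧ (Vz (zz N E))⁻¹ ≤ Real.log N ∧
    (∀ t ≤ 2 * N, la t ≤ Real.log N ^ 3) ∧ (∀ t, lamz (zz N E) t ≤ Real.log N ^ 3) ∧
    (∀ κ σ : ℝ, ∀ c, Co N κ σ c → (∀ t ≤ 2 * N, |GA c t| ≤ Real.log N ^ 3) ∧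
      ∀ t, |Vd N c * lamz (zz N E) t| ≤ Real.log N ^ 3) := by
  obtain ⟨N₁, h1⟩ := scale3
  obtain ⟨N₂, h2⟩ := Vz_inv_small (2 * E + 1)
  refine ⟨N₁ + N₂ + 2, fun N hN => ?_⟩
  obtain ⟨l1, l2, l3⟩ := h1 N (by omega)
  have hV := h2 N (by omega) (zz N E) (zz_pos (by omega) E) (zz_le l1 l3 E)
  have hlog : ∀ t ≤ 2 * N, Real.log t ≤ Real.log (3 * N : ℕ) := by
    intro t ht
    rcases Nat.eq_zero_or_pos t with h0 | h0
    · rw [h0, Nat.cast_zero, Real.log_zero]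
      linarith
    · apply Real.log_le_log (by exact_mod_cast h0)
      exact_mod_cast (by omega : t ≤ 3 * N)
  obtain ⟨l, hld⟩ : ∃ l, l = Real.log (N : ℝ) := ⟨_, rfl⟩
  rw [← hld] at l1 l2 l3 hV ⊢
  have hl0 : 0 < l := by linarith
  have hl1 : 1 ≤ l := by linarith
  have k1 : Real.log (3 * N : ℕ) ≤ l ^ 3 := by
    have : l * 1 ≤ l * l := by gcongr
    nlinarith
  have k2 : l ≤ l ^ 3 := by
    calc l = l ^ 1 := (pow_one l).symm
      _ ≤ l ^ 3 := pow_le_pow_right₀ hl1 (by norm_num)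
  have hlam : ∀ t, lamz (zz N E) t ≤ l := fun t => (Pool.Agent.J4H40.lamz_le _ t).trans hV
  refine ⟨l1, by omega, hV, ?_, fun t => (hlam t).trans k2, fun κ σ c hc => ⟨?_, ?_⟩⟩
  · intro t ht
    unfold la
    exact ArithmeticFunction.vonMangoldt_le_log.trans ((hlog t ht).trans k1)
  · intro t ht
    exact (GA_abs hc.le1 t).trans ((hlog t ht).trans k1)
  · intro t
    have h3 : |Vd N c| ≤ 1 + l := by
      rw [hld]
      exact harm_le hc.le1
    rw [abs_mul, abs_of_nonneg (Pool.Agent.J4H40.lamz_nn _ t)]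
    calc |Vd N c| * lamz (zz N E) t ≤ (1 + l) * l := by
          apply mul_le_mul h3 (hlam t) (Pool.Agent.J4H40.lamz_nn _ t) (by linarith)
      _ ≤ l ^ 3 := by nlinarith

/-- the true factors and the models -/
noncomputable def trueF {k : ℕ} (J : Finset (Fin k)) (c : Fin k → ℕ → ℝ) (i : Fin k) (t : ℕ) : ℝ :=
  if i ∈ J then la t else GA (c i) t

/-- the models -/
noncomputable def modF {k : ℕ} (J : Finset (Fin k)) (c : Fin k → ℕ → ℝ) (N z : ℕ) (i : Fin k) (t : ℕ) : ℝ :=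
  if i ∈ J then lamz z t else Vd N (c i) * lamz z t

lemma lowS_scale {F : ℕ → ℝ} {β : ℝ} {z : ℕ} {e : ℝ} {N u : ℕ} {K : ℝ} (hK : 0 < K)
    (h : LowS (fun n => F n / K) β z e N u) {y₁ y₂ : ℕ} (hw : Win N u y₁ y₂) :
    β * ∑ m ∈ Ioc y₁ y₂, F m * lamz z (m + u - N) - K * e ≤ ∑ m ∈ Ioc y₁ y₂, F m * la (m + u - N) := by
  have h1 := h y₁ y₂ hw
  have e2 : ∀ G : ℕ → ℝ, ∑ n ∈ Ioc y₁ y₂, F n / K * G n = (∑ n ∈ Ioc y₁ y₂, F n * G n) / K := by
    intro G
    rw [sum_div]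
    exact sum_congr rfl fun n _ => by ring
  rw [e2 (fun m => lamz z (m + u - N)), e2 (fun m => la (m + u - N))] at h1
  have h6 := mul_le_mul_of_nonneg_left h1 hK.le
  rw [mul_div_cancel₀ _ hK.ne'] at h6
  refine le_trans (le_of_eq ?_) h6
  field_simp

lemma asS_scale {F : ℕ → ℂ} {c : ℕ → ℝ} {V : ℝ} {z : ℕ} {e : ℝ} {N u : ℕ} {K : ℝ} (hK : 0 < K)
    (h : AsS (fun n => F n / (K : ℂ)) c V z e N u) {y₁ y₂ : ℕ} (hw : Win N u y₁ y₂) :
    ‖∑ m ∈ Ioc y₁ y₂, F m * ((GA c (m + u - N) - V * lamz z (m + u - N) : ℝ) : ℂ)‖ ≤ K * e := by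
  have h1 := h y₁ y₂ hw
  have e2 : ∑ m ∈ Ioc y₁ y₂, F m / (K : ℂ) * ((GA c (m + u - N) - V * lamz z (m + u - N) : ℝ) : ℂ) =
      (∑ m ∈ Ioc y₁ y₂, F m * ((GA c (m + u - N) - V * lamz z (m + u - N) : ℝ) : ℂ)) / (K : ℂ) := by
    rw [sum_div]
    exact sum_congr rfl fun n _ => by ring
  rw [e2, norm_div, Complex.norm_real, Real.norm_eq_abs, abs_of_pos hK, div_le_iff₀ hK] at h1
  linarith

lemma asS_real {F : ℕ → ℝ} {c : ℕ → ℝ} {V : ℝ} {z : ℕ} {e : ℝ} {N u y₁ y₂ : ℕ}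
    (h : ‖∑ m ∈ Ioc y₁ y₂, (F m : ℂ) * ((GA c (m + u - N) - V * lamz z (m + u - N) : ℝ) : ℂ)‖ ≤ e) :
    |∑ m ∈ Ioc y₁ y₂, F m * GA c (m + u - N) - ∑ m ∈ Ioc y₁ y₂, F m * (V * lamz z (m + u - N))| ≤ e := by
  rw [← sum_sub_distrib, ← Real.norm_eq_abs, ← Complex.norm_real]
  refine le_trans (le_of_eq ?_) h
  congr 1
  push_cast
  exact sum_congr rfl fun m _ => by ring

lemma few6_mono {N q : ℕ} {a : ℤ} {A : ℕ} {P Q : ℕ → Prop} (h : ∀ t, P t → Q t) (hP : Few6 N q a A P) :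
    Few6 N q a A Q := by
  classical
  unfold Few6 at hP ⊢
  refine le_trans ?_ hP
  apply Nat.cast_le.2
  apply card_le_card
  intro t ht
  rw [mem_filter] at ht ⊢
  exact ⟨ht.1, ht.2.1, fun hp => ht.2.2 (h _ hp)⟩

open Classical in
/-- the lower bound for the products -/
theorem vecL {κ σ ρ : ℝ} (hκ : 0 < κ) (hσ0 : 0 < σ) (hσρ : σ < ρ) (hσ : σ ≤ 1 / 2) (k A : ℕ) :
    ∃ k₀ : ℕ, ∀ A₀ : ℕ, ∃ E₀ : ℕ, ∀ E : ℕ, E₀ ≤ E → ∃ N₀ : ℕ, ∀ N : ℕ, N₀ ≤ N →
      ∀ c : Fin k → ℕ → ℝ, (∀ i, Co N κ σ (c i)) →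
      ∃ D : Finset ℕ, (D.card : ℝ) ≤ Real.log N ^ k₀ ∧ (∀ d ∈ D, Real.log N ^ A₀ < (d : ℝ)) ∧
      ∀ q : Fin k → ℕ, (∀ i, 1 ≤ q i) → (∀ i, ∀ d ∈ D, ¬ d ∣ q i) → ∀ a : Fin k → ℤ,
        (∀ J : Finset (Fin k), (∀ i ∈ J, (q i : ℝ) ≤ (N : ℝ) ^ (5 / 6 - ρ)) →
          (∀ i ∉ J, (q i : ℝ) ≤ (N : ℝ) ^ (1 - ρ) ∧ ∀ m, 0 ≤ c i m) →
          ∀ F : ℕ → ℝ, (∀ m ∈ Icc 1 N, 0 ≤ F m ∧ F m ≤ Real.log N) →
          FewV N q a A fun h => ∀ y₁ y₂ : ℕ, WinV N h y₁ y₂ →
            (99 / 100 * (137 / 1000)) ^ J.card *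
              ∑ n ∈ Ioc y₁ y₂, F n * ∏ i, modF J c N (zz N E) i (n + uu N h i - N) - N / Real.log N ^ A ≤
            ∑ n ∈ Ioc y₁ y₂, F n * ∏ i, trueF J c i (n + uu N h i - N)) ∧
        ((∀ i, (q i : ℝ) ≤ (N : ℝ) ^ (1 - ρ)) →
          ∀ F : ℕ → ℂ, (∀ m ∈ Icc 1 N, ‖F m‖ ≤ Real.log N) →
          FewV N q a A fun h => ∀ y₁ y₂ : ℕ, WinV N h y₁ y₂ →
            ‖∑ n ∈ Ioc y₁ y₂, F n * (((∏ i, trueF ∅ c i (n + uu N h i - N) : ℝ) : ℂ) -
              ((∏ i, modF ∅ c N (zz N E) i (n + uu N h i - N) : ℝ) : ℂ))‖ ≤ N / Real.log N ^ A) := by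
  obtain ⟨V, hV⟩ : ∃ V, V = A + 3 * k + 3 := ⟨_, rfl⟩
  obtain ⟨k₀, h1⟩ := engS hκ hσ0 hσρ hσ k V
  refine ⟨k₀, fun A₀ => ?_⟩
  obtain ⟨E₀, h1⟩ := h1 A₀
  refine ⟨E₀, fun E hE => ?_⟩
  obtain ⟨N₁, h1⟩ := h1 E hE
  obtain ⟨N₂, h2⟩ := bnds E
  obtain ⟨N₃, h3⟩ := Pool.Agent.R462.GS.evL ((k : ℝ) * 3 ^ k + 1)
  refine ⟨N₁ + N₂ + N₃, fun N hN c hc => ?_⟩
  obtain ⟨D, hD1, hD2, h1⟩ := h1 N (by omega) c hc
  obtain ⟨b1, b2, b3, b4, b5, b6⟩ := h2 N (by omega)
  have hl3 := h3 N (by omega)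
  refine ⟨D, hD1, hD2, fun q hq hqD a => ?_⟩
  have hN1 : (1 : ℝ) ≤ N := by exact_mod_cast (by omega : 1 ≤ N)
  have hN0 : (0 : ℝ) < N := by linarith
  have hρ : 0 < ρ := by linarith
  have hqle : ∀ i, ∀ e : ℝ, e ≤ 1 → (q i : ℝ) ≤ (N : ℝ) ^ e → q i ≤ N := by
    intro i e he hqe
    have : (q i : ℝ) ≤ N := by
      calc (q i : ℝ) ≤ (N : ℝ) ^ e := hqe
        _ ≤ (N : ℝ) ^ (1 : ℝ) := Real.rpow_le_rpow_of_exponent_le hN1 he
        _ = N := Real.rpow_one _
    exact_mod_cast this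
  obtain ⟨l, hld⟩ : ∃ l, l = Real.log (N : ℝ) := ⟨_, rfl⟩
  have hl0 : 0 < l := by rw [hld]; linarith
  have hl1 : 1 ≤ l := by rw [hld]; linarith
  have hkl : (k : ℝ) ≤ l := by
    have h3k : (1 : ℝ) ≤ 3 ^ k := one_le_pow₀ (by norm_num)
    have hk0 : (0 : ℝ) ≤ k := Nat.cast_nonneg k
    rw [hld]
    nlinarith
  have hB1 : 1 ≤ l ^ 3 := one_le_pow₀ hl1
  obtain ⟨K, hK⟩ : ∃ K, K = l * (l ^ 3) ^ k := ⟨_, rfl⟩
  have hK0 : 0 < K := by rw [hK]; positivity
  have herr : (k : ℝ) * (K * (N / l ^ V)) ≤ N / l ^ A := by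
    rw [hK, hV]
    have e1 : (k : ℝ) * (l * (l ^ 3) ^ k * (N / l ^ (A + 3 * k + 3))) = (k / l ^ 2) * (N / l ^ A) := by
      rw [show A + 3 * k + 3 = A + (3 * k) + 3 from rfl, pow_add, pow_add, pow_mul]
      field_simp
    rw [e1]
    have h2 : (k : ℝ) / l ^ 2 ≤ 1 := by
      rw [div_le_one (by positivity)]
      nlinarith
    calc (k / l ^ 2) * (N / l ^ A) ≤ 1 * (N / l ^ A) := mul_le_mul_of_nonneg_right h2 (by positivity)
      _ = _ := one_mul _
  refine ⟨fun J hJ hJc F hF => ?_, fun hq1 F hF => ?_⟩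
  · -- the lower bound
    obtain ⟨β, hβ⟩ : ∃ β : Fin k → ℝ, β = fun i => if i ∈ J then 99 / 100 * (137 / 1000) else 1 := ⟨_, rfl⟩
    have hprod : ∏ i, β i = (99 / 100 * (137 / 1000)) ^ J.card := by
      rw [hβ, prod_ite_mem, univ_inter, prod_const]
    have hqN : ∀ i, q i ≤ N := by
      intro i
      by_cases hi : i ∈ J
      · exact hqle i _ (by linarith) (hJ i hi)
      · exact hqle i _ (by linarith) (hJc i hi).1
    have hμn : ∀ i t, 0 ≤ modF J c N (zz N E) i t := by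
      intro i t
      unfold modF
      split_ifs with hi
      · exact Pool.Agent.J4H40.lamz_nn _ t
      · apply mul_nonneg _ (Pool.Agent.J4H40.lamz_nn _ t)
        unfold Vd
        exact sum_nonneg fun m _ => div_nonneg ((hJc i hi).2 m) (Nat.cast_nonneg _)
    have hℓn : ∀ i t, 0 ≤ trueF J c i t := by
      intro i t
      unfold trueF
      split_ifs with hi
      · exact la_nn t
      · unfold GA
        exact sum_nonneg fun m _ => mul_nonneg ((hJc i hi).2 m) ArithmeticFunction.vonMangoldt_nonneg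
    have hμB : ∀ i, ∀ t ≤ 2 * N, ‖modF J c N (zz N E) i t‖ ≤ l ^ 3 := by
      intro i t _
      rw [Real.norm_eq_abs, hld]
      unfold modF
      split_ifs with hi
      · rw [abs_of_nonneg (Pool.Agent.J4H40.lamz_nn _ t)]
        exact b5 t
      · exact (b6 κ σ (c i) (hc i)).2 t
    have hℓB : ∀ i, ∀ t ≤ 2 * N, ‖trueF J c i t‖ ≤ l ^ 3 := by
      intro i t ht
      rw [Real.norm_eq_abs, hld]
      unfold trueF
      split_ifs with hi
      · rw [abs_of_nonneg (la_nn t)]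
        exact b4 t ht
      · exact (b6 κ σ (c i) (hc i)).1 t ht
    have hfew := fewV_of (A := A) (V := V) (P := fun j g t => ∀ y₁ y₂ : ℕ, Win N t y₁ y₂ →
        β j * ∑ n ∈ Ioc y₁ y₂, F n * mixE (trueF J c) (modF J c N (zz N E)) (uu N g) N j n *
          modF J c N (zz N E) j (n + t - N) - K * (N / l ^ V) ≤
        ∑ n ∈ Ioc y₁ y₂, F n * mixE (trueF J c) (modF J c N (zz N E)) (uu N g) N j n * trueF J c j (n + t - N))
      (q := q) (a := a) hq hqN (by omega) hl3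
      (fun j g s t => by simp only [uu_update]) (fun j g hg => by
        have hu : ∀ i, i ≠ j → uu N g i ≤ 2 * N := by
          intro i hi
          have := mem_SV.1 (hg i hi)
          unfold uu
          omega
        have hEB : ∀ n, n ≤ N → |mixE (trueF J c) (modF J c N (zz N E)) (uu N g) N j n| ≤ (l ^ 3) ^ k := by
          intro n hn
          have := mixE_norm hB1 hn hu hℓB hμB
          rwa [Real.norm_eq_abs] at this
        have hEn : ∀ n, 0 ≤ mixE (trueF J c) (modF J c N (zz N E)) (uu N g) N j n :=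
          fun n => mixE_nn hℓn hμn
        have hFB : ∀ m ∈ Icc 1 N, 0 ≤ F m * mixE (trueF J c) (modF J c N (zz N E)) (uu N g) N j m / K ∧
            F m * mixE (trueF J c) (modF J c N (zz N E)) (uu N g) N j m / K ≤ 1 := by
          intro m hm
          have hm' := mem_Icc.1 hm
          obtain ⟨f1, f2⟩ := hF m hm
          have g1 := hEn m
          have g2 := hEB m hm'.2
          rw [abs_of_nonneg g1] at g2
          refine ⟨by positivity, ?_⟩
          rw [div_le_one hK0, hK]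
          rw [← hld] at f2
          exact mul_le_mul f2 g2 g1 hl0.le
        by_cases hj : j ∈ J
        · -- the lower bound for the prime factor
          have hH := (h1 (q j) (hq j) (hqD j) (a j)).1 (hJ j hj) _ hFB
          refine few6_mono (fun t ht y₁ y₂ hw => ?_) hH
          have h5 := lowS_scale hK0 ht hw
          have e1 : β j = 99 / 100 * (137 / 1000) := by rw [hβ]; exact if_pos hj
          have e3 : ∀ t, modF J c N (zz N E) j t = lamz (zz N E) t := fun t => by unfold modF; rw [if_pos hj]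
          have e4 : ∀ t, trueF J c j t = la t := fun t => by unfold trueF; rw [if_pos hj]
          simp only [e3, e4, e1]
          rw [← hld] at h5
          exact h5
        · -- the asymptotic formula for the other factors
          have hH := (h1 (q j) (hq j) (hqD j) (a j)).2 (hJc j hj).1 j
            (fun n => ((F n * mixE (trueF J c) (modF J c N (zz N E)) (uu N g) N j n : ℝ) : ℂ) / (K : ℂ)) (by
              intro m hm
              obtain ⟨g1, g2⟩ := hFB m hm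
              rw [← Complex.ofReal_div, Complex.norm_real, Real.norm_eq_abs, abs_of_nonneg g1]
              exact g2)
          refine few6_mono (fun t ht y₁ y₂ hw => ?_) hH
          have h5 := asS_real (asS_scale hK0 ht hw)
          have e1 : β j = 1 := by rw [hβ]; exact if_neg hj
          have e3 : ∀ t, modF J c N (zz N E) j t = Vd N (c j) * lamz (zz N E) t :=
            fun t => by unfold modF; rw [if_neg hj]
          have e4 : ∀ t, trueF J c j t = GA (c j) t := fun t => by unfold trueF; rw [if_neg hj]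
          simp only [e3, e4, e1]
          rw [← hld, abs_le] at h5
          linarith [h5.1])
    refine fewV_mono ?_ hfew
    intro h hh hP y₁ y₂ hw
    have h5 := tele_low F (trueF J c) (modF J c N (zz N E)) (uu N h) N (Ioc y₁ y₂) β (e := K * (N / l ^ V))
      (by positivity) (fun i => by rw [hβ]; simp only; split_ifs <;> norm_num)
      (fun i => by rw [hβ]; simp only; split_ifs <;> norm_num)
      (fun j => hP j y₁ y₂ (winV_win hw j (mem_SV.1 (hh j)).1.1))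
    rw [hprod] at h5
    rw [← hld]
    linarith
  · -- the asymptotic formula
    have hqN : ∀ i, q i ≤ N := fun i => hqle i _ (by linarith) (hq1 i)
    have hμB : ∀ i, ∀ t ≤ 2 * N, ‖((modF ∅ c N (zz N E) i t : ℝ) : ℂ)‖ ≤ l ^ 3 := by
      intro i t _
      rw [Complex.norm_real, Real.norm_eq_abs, hld]
      unfold modF
      rw [if_neg (notMem_empty i)]
      exact (b6 κ σ (c i) (hc i)).2 t
    have hℓB : ∀ i, ∀ t ≤ 2 * N, ‖((trueF ∅ c i t : ℝ) : ℂ)‖ ≤ l ^ 3 := by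
      intro i t ht
      rw [Complex.norm_real, Real.norm_eq_abs, hld]
      unfold trueF
      rw [if_neg (notMem_empty i)]
      exact (b6 κ σ (c i) (hc i)).1 t ht
    obtain ⟨ℓ, hℓ⟩ : ∃ ℓ : Fin k → ℕ → ℂ, ℓ = fun i t => ((trueF ∅ c i t : ℝ) : ℂ) := ⟨_, rfl⟩
    obtain ⟨μ, hμ⟩ : ∃ μ : Fin k → ℕ → ℂ, μ = fun i t => ((modF ∅ c N (zz N E) i t : ℝ) : ℂ) := ⟨_, rfl⟩
    have hfew := fewV_of (A := A) (V := V) (P := fun j g t => ∀ y₁ y₂ : ℕ, Win N t y₁ y₂ →
        ‖∑ n ∈ Ioc y₁ y₂, F n * mixE ℓ μ (uu N g) N j n * (ℓ j (n + t - N) - μ j (n + t - N))‖ ≤ K * (N / l ^ V))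
      (q := q) (a := a) hq hqN (by omega) hl3
      (fun j g s t => by simp only [uu_update]) (fun j g hg => by
        have hu : ∀ i, i ≠ j → uu N g i ≤ 2 * N := by
          intro i hi
          have := mem_SV.1 (hg i hi)
          unfold uu
          omega
        have hH := (h1 (q j) (hq j) (hqD j) (a j)).2 (hq1 j) j
          (fun n => F n * mixE ℓ μ (uu N g) N j n / (K : ℂ)) (by
            intro m hm
            have hm' := mem_Icc.1 hm
            have g2 : ‖mixE ℓ μ (uu N g) N j m‖ ≤ (l ^ 3) ^ k := by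
              apply mixE_norm hB1 hm'.2 hu
              · rw [hℓ]; exact hℓB
              · rw [hμ]; exact hμB
            rw [norm_div, norm_mul, Complex.norm_real, Real.norm_eq_abs, abs_of_pos hK0, div_le_one hK0, hK, hld]
            rw [hld] at g2
            exact mul_le_mul (hF m hm) g2 (norm_nonneg _) (by linarith))
        refine few6_mono (fun t ht y₁ y₂ hw => ?_) hH
        have h5 := asS_scale hK0 ht hw
        rw [← hld] at h5
        refine le_trans (le_of_eq ?_) h5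
        congr 1
        refine sum_congr rfl fun n _ => ?_
        rw [hℓ, hμ]
        simp only
        unfold trueF modF
        rw [if_neg (notMem_empty j), if_neg (notMem_empty j)]
        push_cast
        ring)
    refine fewV_mono ?_ hfew
    intro h hh hP y₁ y₂ hw
    have h5 := tele_as F ℓ μ (uu N h) N (Ioc y₁ y₂) (e := K * (N / l ^ V))
      (fun j => hP j y₁ y₂ (winV_win hw j (mem_SV.1 (hh j)).1.1))
    rw [← hld]
    refine le_trans (le_of_eq ?_) (h5.trans herr)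
    congr 1
    refine sum_congr rfl fun n _ => ?_
    rw [hℓ, hμ]
    push_cast
    ring

end Pool.Agent.J4H40
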