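import Pool.Agent.J4H40.Zk

set_option autoImplicit false

/-! Vectors of shifts: from the weighted sums to the number of the integers. -/

namespace Pool.Agent.J4H40

open Finset
open Pool.Agent.R460.GS (vm_le la la_nn)
open Pool.Agent.W93.GB (pp_nonneg sum_pp)

lemma pwr_big {m : ℕ} (h : pwr m ≠ 0) : 1 / 2 ≤ pwr m := by
  have h0 : 0 < pwr m := lt_of_le_of_ne (pp_nonneg m) (Ne.symm h)
  unfold pwr Pool.Agent.W93.GB.pp at h0 ⊢
  unfold Pool.Agent.H373R2.T7.lamP at h0 ⊢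
  rw [Int.toNat_natCast] at h0 ⊢
  by_cases hp : m.Prime
  · exfalso
    rw [if_pos hp, ArithmeticFunction.vonMangoldt_apply_prime hp] at h0
    linarith
  · rw [if_neg hp] at h0 ⊢
    have h1 : ArithmeticFunction.vonMangoldt m ≠ 0 := by
      intro h
      rw [h] at h0
      linarith
    have h2 : IsPrimePow m := ArithmeticFunction.vonMangoldt_ne_zero_iff.1 h1
    rw [ArithmeticFunction.vonMangoldt_apply, if_pos h2]
    have h3 : (2 : ℝ) ≤ m.minFac := by
      exact_mod_cast (Nat.minFac_prime h2.ne_one).two_le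
    have h4 := Real.log_le_log (by norm_num) h3
    linarith [Real.log_two_gt_d9]

/-- the exceptional integers -/
def badI (N : ℕ) (σ : ℝ) (t : ℕ) : Prop := ∃ d ∈ t.divisors, (d : ℝ) ≤ (N : ℝ) ^ σ ∧ pwr (t / d) ≠ 0

open Classical in
lemma bad_count {N X : ℕ} (hX : 1 ≤ X) (σ : ℝ) :
    ((((Icc 1 X).filter fun t => badI N σ t).card : ℕ) : ℝ) ≤ (N : ℝ) ^ σ * (4 * √(X : ℝ) * Real.log X) := by
  obtain ⟨W, hW⟩ : ∃ W : Finset ℕ, W = (Icc 1 X).filter fun m => pwr m ≠ 0 := ⟨_, rfl⟩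
  have hNσ : 0 ≤ (N : ℝ) ^ σ := by positivity
  have h1 : (W.card : ℝ) ≤ 4 * √(X : ℝ) * Real.log X := by
    have h2 : (W.card : ℝ) * (1 / 2) ≤ ∑ m ∈ Icc 1 X, pwr m := by
      calc (W.card : ℝ) * (1 / 2) = ∑ _m ∈ W, (1 / 2 : ℝ) := by rw [sum_const, nsmul_eq_mul]
        _ ≤ ∑ m ∈ W, pwr m := sum_le_sum fun m hm => by
            rw [hW, mem_filter] at hm
            exact pwr_big hm.2
        _ ≤ _ := sum_le_sum_of_subset_of_nonneg (by rw [hW]; exact filter_subset _ _) fun _ _ _ => pp_nonneg _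
    have h3 := sum_pp X hX
    linarith
  have h2 : ((Icc 1 X).filter fun t => badI N σ t) ⊆
      (Icc 1 ⌊(N : ℝ) ^ σ⌋₊ ×ˢ W).image fun x => x.1 * x.2 := by
    intro t ht
    rw [mem_filter, mem_Icc] at ht
    obtain ⟨⟨t1, t2⟩, d, hd, hd2, hd3⟩ := ht
    have hdd := Nat.dvd_of_mem_divisors hd
    have hd1 : 1 ≤ d := Nat.pos_of_mem_divisors hd
    rw [mem_image]
    refine ⟨(d, t / d), ?_, Nat.mul_div_cancel' hdd⟩
    rw [mem_product, mem_Icc, hW, mem_filter, mem_Icc]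
    refine ⟨⟨hd1, Nat.le_floor hd2⟩, ⟨Nat.div_pos (Nat.le_of_dvd (by omega) hdd) hd1, ?_⟩, hd3⟩
    exact (Nat.div_le_self _ _).trans t2
  have h3 : (((Icc 1 X).filter fun t => badI N σ t).card : ℝ) ≤ (⌊(N : ℝ) ^ σ⌋₊ : ℝ) * W.card := by
    have h4 := (card_le_card h2).trans card_image_le
    rw [card_product, Nat.card_Icc, Nat.add_sub_cancel] at h4
    exact_mod_cast h4
  refine h3.trans ?_
  exact mul_le_mul (Nat.floor_le hNσ) h1 (Nat.cast_nonneg _) hNσ

/-- the wanted property of the value with index `i` -/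
def niceI {k : ℕ} (ρ : ℝ) (N : ℕ) (J : Finset (Fin k)) (i : Fin k) (t : ℕ) : Prop :=
  (i ∈ J → t.Prime) ∧ (i ∉ J → ∃ p₁ p₂ : ℕ, p₁.Prime ∧ p₂.Prime ∧ (p₁ : ℝ) ≤ (N : ℝ) ^ ρ ∧ t = p₁ * p₂)

open Classical in
/-- the number of the wanted integers in a window -/
noncomputable def cntV {k : ℕ} (ρ : ℝ) (N : ℕ) (J : Finset (Fin k)) (h : Fin k → ℤ) (y₁ y₂ : ℕ) : ℕ :=
  ((Ioc y₁ y₂).filter fun n => n.Prime ∧ ∀ i, niceI ρ N J i (n + uu N h i - N)).card

lemma la_dich {N t X : ℕ} {σ : ℝ} (ht : t ∈ Icc 1 X) (h1 : ¬ t.Prime) (h2 : ¬ badI N σ t) (hN : 1 ≤ (N : ℝ) ^ σ) :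
    la t = 0 := by
  by_contra h0
  rw [mem_Icc] at ht
  apply h2
  refine ⟨1, Nat.one_mem_divisors.2 (by omega), by rw [Nat.cast_one]; exact hN, ?_⟩
  rw [Nat.div_one]
  unfold pwr Pool.Agent.W93.GB.pp Pool.Agent.H373R2.T7.lamP
  rw [Int.toNat_natCast, if_neg h1, sub_zero]
  exact h0

lemma GA_dich {k N t : ℕ} {κ σ ρ : ℝ} {J : Finset (Fin k)} {i : Fin k} (hi : i ∉ J) (hσρ : (N : ℝ) ^ σ ≤ (N : ℝ) ^ ρ)
    (h1 : ¬ niceI ρ N J i t) (h2 : ¬ badI N σ t) :
    GA (pc N κ σ) t = 0 := by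
  unfold GA
  apply sum_eq_zero
  intro d hd
  have hdd := Nat.dvd_of_mem_divisors hd
  by_cases hc : d.Prime ∧ (N : ℝ) ^ κ < d ∧ (d : ℝ) ≤ (N : ℝ) ^ σ
  · have h3 : ¬ (t / d).Prime := by
      intro hp
      apply h1
      refine ⟨fun h => absurd h hi, fun _ => ⟨d, t / d, hc.1, hp, hc.2.2.trans hσρ, ?_⟩⟩
      exact (Nat.mul_div_cancel' hdd).symm
    have h4 : pwr (t / d) = 0 := by
      by_contra h0
      exact h2 ⟨d, hd, hc.2.2, h0⟩
    unfold pwr Pool.Agent.W93.GB.pp Pool.Agent.H373R2.T7.lamP at h4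
    rw [Int.toNat_natCast, if_neg h3, sub_zero] at h4
    rw [h4, mul_zero]
  · unfold pc
    rw [if_neg hc, zero_mul]

open Classical in
/-- from the weighted sum to the number -/
lemma cnt_le {k N : ℕ} {κ σ ρ : ℝ} (hN : 2 ≤ N) (hσ0 : 0 < σ) (hσρ : (N : ℝ) ^ σ ≤ (N : ℝ) ^ ρ) (J : Finset (Fin k))
    (h : Fin k → ℤ) (hh : ∀ i, -(N : ℤ) ≤ h i ∧ h i ≤ N) {y₁ y₂ : ℕ} (hw : WinV N h y₁ y₂) :
    ∑ n ∈ Ioc y₁ y₂, la n * ∏ i, trueF J (fun _ => pc N κ σ) i (n + uu N h i - N) ≤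
      Real.log (2 * N : ℕ) ^ (k + 1) * (cntV ρ N J h y₁ y₂ +
        (k + 1) * ((N : ℝ) ^ σ * (4 * √((2 * N : ℕ) : ℝ) * Real.log (2 * N : ℕ)))) := by
  obtain ⟨X, hX⟩ : ∃ X, X = 2 * N := ⟨_, rfl⟩
  obtain ⟨L, hL⟩ : ∃ L, L = Real.log (X : ℝ) := ⟨_, rfl⟩
  rw [← hX, ← hL]
  have hL0 : 0 ≤ L := by rw [hL]; exact Real.log_natCast_nonneg _
  have hX1 : 1 ≤ X := by omega
  have hN1 : (1 : ℝ) ≤ (N : ℝ) ^ σ := Real.one_le_rpow (by exact_mod_cast (by omega : 1 ≤ N)) hσ0.le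
  obtain ⟨w1, w2, w3⟩ := hw
  have ht : ∀ n ∈ Ioc y₁ y₂, ∀ i, n + uu N h i - N ∈ Icc 1 X := by
    intro n hn i
    rw [mem_Ioc] at hn
    rw [mem_Icc]
    have g1 := hh i
    have g2 := w3 i
    unfold uu
    omega
  have htn : ∀ n ∈ Ioc y₁ y₂, n ∈ Icc 1 X := by
    intro n hn
    rw [mem_Ioc] at hn
    rw [mem_Icc]
    omega
  have hlog : ∀ t ∈ Icc 1 X, Real.log t ≤ L := by
    intro t ht
    rw [mem_Icc] at ht
    rw [hL]
    exact Real.log_le_log (by exact_mod_cast ht.1) (by exact_mod_cast ht.2)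
  have hla : ∀ t ∈ Icc 1 X, la t ≤ L := fun t ht => ArithmeticFunction.vonMangoldt_le_log.trans (hlog t ht)
  have htr : ∀ i, ∀ t ∈ Icc 1 X, trueF J (fun _ => pc N κ σ) i t ≤ L := by
    intro i t ht
    unfold trueF
    split_ifs
    · exact hla t ht
    · exact ((le_abs_self _).trans (GA_abs (pc_co N κ σ).le1 t)).trans (hlog t ht)
  have htn0 : ∀ i, ∀ t, 0 ≤ trueF J (fun _ => pc N κ σ) i t := by
    intro i t
    unfold trueF
    split_ifs
    · exact la_nn t
    · unfold GA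
      exact sum_nonneg fun d _ => mul_nonneg (pc_nn _ _ _ _) ArithmeticFunction.vonMangoldt_nonneg
  have hpt : ∀ n ∈ Ioc y₁ y₂, la n * ∏ i, trueF J (fun _ => pc N κ σ) i (n + uu N h i - N) ≤
      L ^ (k + 1) * ((if n.Prime ∧ ∀ i, niceI ρ N J i (n + uu N h i - N) then (1 : ℝ) else 0) +
        ((if badI N σ n then (1 : ℝ) else 0) + ∑ i, (if badI N σ (n + uu N h i - N) then (1 : ℝ) else 0))) := by
    intro n hn
    have k1 : la n * ∏ i, trueF J (fun _ => pc N κ σ) i (n + uu N h i - N) ≤ L ^ (k + 1) := by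
      have k2 : ∏ i, trueF J (fun _ => pc N κ σ) i (n + uu N h i - N) ≤ L ^ k := by
        calc _ ≤ ∏ _i : Fin k, L := prod_le_prod (fun i _ => htn0 i _) fun i _ => htr i _ (ht n hn i)
          _ = L ^ k := by rw [prod_const, card_univ, Fintype.card_fin]
      rw [pow_succ, mul_comm (L ^ k)]
      exact mul_le_mul (hla n (htn n hn)) k2 (prod_nonneg fun i _ => htn0 i _) hL0
    have i1 : (0 : ℝ) ≤ if n.Prime ∧ ∀ i, niceI ρ N J i (n + uu N h i - N) then (1 : ℝ) else 0 := by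
      split_ifs <;> norm_num
    have i2 : (0 : ℝ) ≤ if badI N σ n then (1 : ℝ) else 0 := by split_ifs <;> norm_num
    have i3 : ∀ i, (0 : ℝ) ≤ if badI N σ (n + uu N h i - N) then (1 : ℝ) else 0 := by
      intro i
      split_ifs <;> norm_num
    have i4 : 0 ≤ ∑ i, (if badI N σ (n + uu N h i - N) then (1 : ℝ) else 0) := sum_nonneg fun i _ => i3 i
    have hLk : 0 ≤ L ^ (k + 1) := by positivity
    by_cases hg : n.Prime ∧ ∀ i, niceI ρ N J i (n + uu N h i - N)
    · rw [if_pos hg]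
      refine k1.trans (le_mul_of_one_le_right hLk ?_)
      linarith
    · by_cases hb : badI N σ n
      · rw [if_pos hb]
        refine k1.trans (le_mul_of_one_le_right hLk ?_)
        linarith
      · by_cases hb2 : ∃ i, badI N σ (n + uu N h i - N)
        · obtain ⟨i, hi⟩ := hb2
          refine k1.trans (le_mul_of_one_le_right hLk ?_)
          have k3 := single_le_sum (f := fun i => if badI N σ (n + uu N h i - N) then (1 : ℝ) else 0)
            (fun i _ => i3 i) (mem_univ i)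
          rw [if_pos hi] at k3
          linarith
        · push Not at hb2
          have k4 : la n * ∏ i, trueF J (fun _ => pc N κ σ) i (n + uu N h i - N) = 0 := by
            by_cases hp : n.Prime
            · have hg2 : ∃ i, ¬ niceI ρ N J i (n + uu N h i - N) := by
                by_contra hcon
                push Not at hcon
                exact hg ⟨hp, hcon⟩
              obtain ⟨i, hi⟩ := hg2
              rw [prod_eq_zero (mem_univ i), mul_zero]
              unfold trueF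
              by_cases hiJ : i ∈ J
              · rw [if_pos hiJ]
                apply la_dich (ht n hn i) _ (hb2 i) hN1
                intro hpr
                exact hi ⟨fun _ => hpr, fun h => absurd hiJ h⟩
              · rw [if_neg hiJ]
                exact GA_dich hiJ hσρ hi (hb2 i)
            · rw [la_dich (htn n hn) hp hb hN1, zero_mul]
          rw [k4]
          positivity
  refine (sum_le_sum hpt).trans ?_
  rw [← mul_sum]
  apply mul_le_mul_of_nonneg_left _ (by positivity)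
  rw [sum_add_distrib, sum_add_distrib]
  have hbc := bad_count (N := N) hX1 σ
  rw [← hL] at hbc
  obtain ⟨Bd, hBd⟩ : ∃ Bd, Bd = (N : ℝ) ^ σ * (4 * √(X : ℝ) * L) := ⟨_, rfl⟩
  rw [← hBd] at hbc ⊢
  have e1 : ∑ n ∈ Ioc y₁ y₂, (if n.Prime ∧ ∀ i, niceI ρ N J i (n + uu N h i - N) then (1 : ℝ) else 0) =
      cntV ρ N J h y₁ y₂ := by
    unfold cntV
    rw [← sum_filter, sum_const, nsmul_eq_mul, mul_one]
  have e2 : ∑ n ∈ Ioc y₁ y₂, (if badI N σ n then (1 : ℝ) else 0) ≤ Bd := by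
    rw [← sum_filter, sum_const, nsmul_eq_mul, mul_one]
    refine le_trans (Nat.cast_le.2 (card_le_card ?_)) hbc
    intro n hn
    rw [mem_filter] at hn ⊢
    exact ⟨htn n hn.1, hn.2⟩
  have e3 : ∑ n ∈ Ioc y₁ y₂, ∑ i, (if badI N σ (n + uu N h i - N) then (1 : ℝ) else 0) ≤ k * Bd := by
    rw [sum_comm]
    calc _ ≤ ∑ _i : Fin k, Bd := by
          refine sum_le_sum fun i _ => ?_
          rw [← sum_filter, sum_const, nsmul_eq_mul, mul_one]
          refine le_trans (Nat.cast_le.2 (card_le_card_of_injOn (fun n => n + uu N h i - N) ?_ ?_)) hbc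
          · intro n hn
            rw [mem_coe, mem_filter] at hn
            rw [mem_coe, mem_filter]
            exact ⟨ht n hn.1 i, hn.2⟩
          · intro n hn n' hn' e
            rw [mem_coe, mem_filter] at hn hn'
            have g1 := mem_Icc.1 (ht n hn.1 i)
            have g2 := mem_Icc.1 (ht n' hn'.1 i)
            simp only at e
            omega
      _ = k * Bd := by rw [sum_const, card_univ, Fintype.card_fin, nsmul_eq_mul]
  rw [e1]
  linarith

end Pool.Agent.J4H40
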