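import Pool.Agent.J4H40.Zl

set_option autoImplicit false

/-! Vectors of shifts: the number of the prime tuples, the asymptotic formula. -/

namespace Pool.Agent.J4H40

open Finset
open Pool.Agent.H373R2.T7 (singZ lamz Vz_pos)
open Pool.Agent.R460.GS (vm_le la la_nn)

lemma fewV_and {k N A : ℕ} {q : Fin k → ℕ} {a : Fin k → ℤ} {P Q R : (Fin k → ℤ) → Prop} (hl : 2 ≤ Real.log N)
    (hR : ∀ h, (∀ i, h i ∈ SV N (q i) (a i)) → P h → Q h → R h)
    (hP : FewV N q a (A + 1) P) (hQ : FewV N q a (A + 1) Q) : FewV N q a A R := by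
  classical
  unfold FewV at hP hQ ⊢
  obtain ⟨l, hld⟩ : ∃ l, l = Real.log (N : ℝ) := ⟨_, rfl⟩
  rw [← hld] at hl hP hQ ⊢
  have hl0 : 0 < l := by linarith
  have hpos : 0 ≤ ∏ i, (N : ℝ) / q i := prod_nonneg fun _ _ => by positivity
  have hsub : (Fintype.piFinset fun i => SV N (q i) (a i)).filter (fun h => ¬ R h) ⊆
      (Fintype.piFinset fun i => SV N (q i) (a i)).filter (fun h => ¬ P h) ∪
      (Fintype.piFinset fun i => SV N (q i) (a i)).filter (fun h => ¬ Q h) := by
    intro h hh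
    rw [mem_filter, Fintype.mem_piFinset] at hh
    rw [mem_union, mem_filter, mem_filter, Fintype.mem_piFinset]
    by_cases hp : P h
    · exact Or.inr ⟨hh.1, fun hq => hh.2 (hR h hh.1 hp hq)⟩
    · exact Or.inl ⟨hh.1, hp⟩
  have h1 : ((((Fintype.piFinset fun i => SV N (q i) (a i)).filter fun h => ¬ R h).card : ℕ) : ℝ) ≤
      (((Fintype.piFinset fun i => SV N (q i) (a i)).filter (fun h => ¬ P h)).card : ℝ) +
      (((Fintype.piFinset fun i => SV N (q i) (a i)).filter (fun h => ¬ Q h)).card : ℝ) := by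
    exact_mod_cast (card_le_card hsub).trans (card_union_le _ _)
  have h2 : (∏ i, (N : ℝ) / q i) / l ^ (A + 1) + (∏ i, (N : ℝ) / q i) / l ^ (A + 1) ≤
      (∏ i, (N : ℝ) / q i) / l ^ A := by
    have e : (∏ i, (N : ℝ) / q i) / l ^ (A + 1) + (∏ i, (N : ℝ) / q i) / l ^ (A + 1) =
        2 / l * ((∏ i, (N : ℝ) / q i) / l ^ A) := by
      rw [pow_succ]
      field_simp
      ring
    rw [e]
    have h3 : 2 / l ≤ 1 := by
      rw [div_le_one hl0]
      exact hl
    calc 2 / l * ((∏ i, (N : ℝ) / q i) / l ^ A) ≤ 1 * ((∏ i, (N : ℝ) / q i) / l ^ A) :=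
          mul_le_mul_of_nonneg_right h3 (by positivity)
      _ = _ := one_mul _
  have h4 := h1.trans ((add_le_add (by convert hP) (by convert hQ)).trans h2)
  convert h4

/-- all but few vectors have distinct coordinates different from zero -/
lemma distV {ρ : ℝ} (hρ : 0 < ρ) (k A : ℕ) : ∃ N₀ : ℕ, ∀ N : ℕ, N₀ ≤ N → ∀ q : Fin k → ℕ, (∀ i, 1 ≤ q i) →
    (∀ i, (q i : ℝ) ≤ (N : ℝ) ^ (1 - ρ)) → ∀ a : Fin k → ℤ,
    FewV N q a A fun h => (∀ i, h i ≠ 0) ∧ ∀ i j, i ≠ j → h i ≠ h j := by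
  obtain ⟨N₁, h1⟩ := Pool.Agent.R462.GS.evlog (A + 1) (k + 1) ρ hρ
  obtain ⟨N₂, h2⟩ := Pool.Agent.R462.GS.evL ((k : ℝ) * 3 ^ k + 1)
  refine ⟨N₁ + N₂ + 2, fun N hN q hq hqN a => ?_⟩
  have hp := h1 N (by omega)
  have hl := h2 N (by omega)
  have hN1 : (1 : ℝ) ≤ N := by exact_mod_cast (by omega : 1 ≤ N)
  have hN0 : (0 : ℝ) < N := by linarith
  have hq1 : ∀ i, q i ≤ N := by
    intro i
    have : (q i : ℝ) ≤ N := by
      calc (q i : ℝ) ≤ (N : ℝ) ^ (1 - ρ) := hqN i
        _ ≤ (N : ℝ) ^ (1 : ℝ) := Real.rpow_le_rpow_of_exponent_le hN1 (by linarith)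
        _ = N := Real.rpow_one _
    exact_mod_cast this
  obtain ⟨l, hld⟩ : ∃ l, l = Real.log (N : ℝ) := ⟨_, rfl⟩
  have h3k : (0 : ℝ) ≤ k * 3 ^ k := by positivity
  have hl0 : 0 < l := by rw [hld]; linarith
  have hfew := fewV_of (A := A) (V := A + 1) (P := fun j g t => t ≠ N ∧ ∀ i, i ≠ j → uu N g i ≠ t) (q := q) (a := a)
    hq hq1 le_rfl hl (fun j g s t => by
      have e : ∀ i, i ≠ j → uu N (Function.update g j s) i = uu N g i := fun i hi => by
        unfold uu
        rw [Function.update_of_ne hi]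
      constructor
      · rintro ⟨h3, h4⟩
        exact ⟨h3, fun i hi => by rw [← e i hi]; exact h4 i hi⟩
      · rintro ⟨h3, h4⟩
        exact ⟨h3, fun i hi => by rw [e i hi]; exact h4 i hi⟩) (fun j g hg => by
      classical
      unfold Few6
      have hsub : {h ∈ Icc (-(N : ℤ)) N | h ≡ a j [ZMOD q j] ∧
          ¬ ((h + N).toNat ≠ N ∧ ∀ i, i ≠ j → uu N g i ≠ (h + N).toNat)} ⊆
          insert (0 : ℤ) ((univ.erase j).image g) := by
        intro h hh
        rw [mem_filter, mem_Icc] at hh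
        obtain ⟨⟨b1, b2⟩, -, h3⟩ := hh
        rw [mem_insert, mem_image]
        by_cases h0 : h = 0
        · exact Or.inl h0
        · right
          by_contra hcon
          push Not at hcon
          apply h3
          refine ⟨by omega, fun i hi he => ?_⟩
          have h5 := hcon i (mem_erase.2 ⟨hi, mem_univ _⟩)
          have h6 := mem_SV.1 (hg i hi)
          unfold uu at he
          apply h5
          omega
      have hcard : ({h ∈ Icc (-(N : ℤ)) N | h ≡ a j [ZMOD q j] ∧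
          ¬ ((h + N).toNat ≠ N ∧ ∀ i, i ≠ j → uu N g i ≠ (h + N).toNat)}).card ≤ k + 1 := by
        refine (card_le_card hsub).trans ((card_insert_le _ _).trans ?_)
        have : ((univ.erase j).image g).card ≤ k := by
          refine card_image_le.trans ?_
          rw [card_erase_of_mem (mem_univ j), card_univ, Fintype.card_fin]
          omega
        omega
      have hb : ((k : ℝ) + 1) ≤ N / (q j * Real.log N ^ (A + 1)) := by
        rw [← hld] at hp ⊢
        have hq0 : (0 : ℝ) < q j := by exact_mod_cast hq j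
        rw [le_div_iff₀ (by positivity)]
        calc ((k : ℝ) + 1) * (q j * l ^ (A + 1)) = q j * ((k + 1) * l ^ (A + 1)) := by ring
          _ ≤ (N : ℝ) ^ (1 - ρ) * (N : ℝ) ^ ρ := mul_le_mul (hqN j) hp (by positivity) (by positivity)
          _ = N := by
              rw [← Real.rpow_add hN0]
              norm_num
      refine le_trans ?_ hb
      exact_mod_cast hcard)
  refine fewV_mono ?_ hfew
  intro h hh hP
  constructor
  · intro i h0
    have := (hP i).1
    apply this
    rw [h0]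
    omega
  · intro i j hij he
    have h3 := (hP j).2 i hij
    apply h3
    unfold uu
    rw [he]

/-- powers of `log (2 N)` -/
lemma log2pow (k : ℕ) : ∃ N₀ : ℕ, ∀ N : ℕ, N₀ ≤ N →
    Real.log (2 * N : ℕ) ^ (k + 1) ≤ 101 / 100 * Real.log N ^ (k + 1) ∧ Real.log (2 * N : ℕ) ≤ 2 * Real.log N := by
  obtain ⟨N₁, h1⟩ := Pool.Agent.R462.GS.evL (200 * (k + 1))
  refine ⟨N₁ + 1, fun N hN => ?_⟩
  have hl := h1 N (by omega)
  have hN0 : (0 : ℝ) < N := by exact_mod_cast (by omega : 0 < N)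
  have h2 : Real.log (2 * N : ℕ) = Real.log 2 + Real.log N := by
    push_cast
    rw [Real.log_mul (by norm_num) hN0.ne']
  have h3 : 0 ≤ Real.log 2 := Real.log_nonneg (by norm_num)
  have h4 : Real.log 2 ≤ 1 := by
    have := Real.log_le_sub_one_of_pos (show (0 : ℝ) < 2 by norm_num)
    linarith
  obtain ⟨L, hL⟩ : ∃ L, L = Real.log (2 * N : ℕ) := ⟨_, rfl⟩
  obtain ⟨l, hld⟩ : ∃ l, l = Real.log (N : ℝ) := ⟨_, rfl⟩
  rw [← hL, ← hld] at h2
  rw [← hld] at hl
  rw [← hL, ← hld]
  have hk0 : (0 : ℝ) ≤ k := Nat.cast_nonneg k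
  have hl0 : 0 < l := by linarith
  have hL0 : 0 < L := by linarith
  have hLl : L ≤ l + 1 := by linarith
  refine ⟨?_, by linarith⟩
  have h5 : 1 - 1 / 200 ≤ (l / L) ^ (k + 1) := by
    have h6 := one_add_mul_le_pow (a := l / L - 1) (by
      have : 0 < l / L := by positivity
      linarith) (k + 1)
    have h7 : 1 + (l / L - 1) = l / L := by ring
    rw [h7] at h6
    refine le_trans ?_ h6
    have h8 : l / L - 1 = -((L - l) / L) := by
      field_simp
      ring
    rw [h8]
    have h9 : ((k + 1 : ℕ) : ℝ) * ((L - l) / L) ≤ 1 / 200 := by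
      rw [mul_div_assoc', div_le_div_iff₀ hL0 (by norm_num)]
      push_cast
      have : ((k : ℝ) + 1) * (L - l) ≤ (k + 1) * 1 := by
        apply mul_le_mul_of_nonneg_left _ (by positivity)
        linarith
      linarith
    linarith
  rw [div_pow, le_div_iff₀ (by positivity)] at h5
  have : 0 < L ^ (k + 1) := by positivity
  linarith

end Pool.Agent.J4H40
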