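import Pool.Agent.J4H40.Zm

set_option autoImplicit false

/-! Vectors of shifts: the lower bound for the number of the prime tuples. -/

namespace Pool.Agent.J4H40

open Finset
open Pool.Agent.H373R2.T7 (singZ lamz Vz_pos)
open Pool.Agent.R460.GS (vm_le la la_nn)

lemma prod_modF {k : ℕ} (J : Finset (Fin k)) (f : ℕ → ℝ) (N z : ℕ) (t : Fin k → ℕ) :
    ∏ i, modF J (fun _ => f) N z i (t i) = Vd N f ^ (k - J.card) * ∏ i, lamz z (t i) := by
  have h1 : ∀ i, modF J (fun _ => f) N z i (t i) = (if i ∈ J then 1 else Vd N f) * lamz z (t i) := by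
    intro i
    unfold modF
    split_ifs
    · rw [one_mul]
    · rfl
  rw [prod_congr rfl fun i _ => h1 i, prod_mul_distrib]
  congr 1
  rw [prod_ite, prod_const_one, one_mul, prod_const]
  congr 1
  have h2 := card_filter_add_card_filter_not (s := (univ : Finset (Fin k))) (fun i => i ∈ J)
  rw [card_univ, Fintype.card_fin] at h2
  have h3 : (univ.filter fun i => i ∈ J) = J := by
    ext i
    simp
  rw [h3] at h2
  omega

lemma coefG {k j M : ℕ} (hk : 1 ≤ k) (hj : j ≤ k) {W : ℝ} (hW : 2 * ((M : ℝ) + 1) ≤ W) :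
    104 / 100 * ((13 / 100) ^ j * ((M : ℝ) + 1) ^ (k - j)) ≤ (99 / 100 * (137 / 1000)) ^ j * W ^ (k - j) := by
  have hM0 : (0 : ℝ) ≤ M := Nat.cast_nonneg M
  have hM1 : (0 : ℝ) < (M : ℝ) + 1 := by linarith
  rcases Nat.eq_zero_or_pos j with h0 | h0
  · rw [h0, pow_zero, pow_zero, one_mul, one_mul, Nat.sub_zero]
    calc 104 / 100 * ((M : ℝ) + 1) ^ k ≤ 2 ^ k * ((M : ℝ) + 1) ^ k := by
          apply mul_le_mul_of_nonneg_right _ (by positivity)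
          calc (104 / 100 : ℝ) ≤ 2 ^ 1 := by norm_num
            _ ≤ 2 ^ k := pow_le_pow_right₀ (by norm_num) hk
      _ = (2 * ((M : ℝ) + 1)) ^ k := by rw [mul_pow]
      _ ≤ W ^ k := pow_le_pow_left₀ (by positivity) hW k
  · have h1 : ((M : ℝ) + 1) ^ (k - j) ≤ W ^ (k - j) := pow_le_pow_left₀ (by positivity) (by linarith) _
    have h2 : 104 / 100 * (13 / 100 : ℝ) ^ j ≤ (99 / 100 * (137 / 1000)) ^ j := by
      calc 104 / 100 * (13 / 100 : ℝ) ^ j ≤ (104 / 100) ^ j * (13 / 100 : ℝ) ^ j := by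
            apply mul_le_mul_of_nonneg_right _ (by positivity)
            calc (104 / 100 : ℝ) = (104 / 100) ^ 1 := (pow_one _).symm
              _ ≤ (104 / 100) ^ j := pow_le_pow_right₀ (by norm_num) h0
        _ = (104 / 100 * (13 / 100)) ^ j := by rw [mul_pow]
        _ ≤ _ := pow_le_pow_left₀ (by norm_num) (by norm_num) j
    calc 104 / 100 * ((13 / 100) ^ j * ((M : ℝ) + 1) ^ (k - j)) =
          (104 / 100 * (13 / 100 : ℝ) ^ j) * ((M : ℝ) + 1) ^ (k - j) := by ring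
      _ ≤ _ := mul_le_mul h2 h1 (by positivity) (by positivity)

open Classical in
/-- the lower bound for the number of the prime tuples in a window -/
lemma cntLow {ρ : ℝ} (hρ : 0 < ρ) (k M A : ℕ) (hk : 1 ≤ k) : ∃ κ σ : ℝ, 0 < κ ∧ 0 < σ ∧ σ < ρ ∧ σ ≤ 1 / 4 ∧
    ∀ cs : ℝ, 0 < cs → ∃ N₀ : ℕ, ∀ N : ℕ, N₀ ≤ N → ∀ E : ℕ, ∀ J : Finset (Fin k), ∀ h : Fin k → ℤ,
      (∀ i, -(N : ℤ) ≤ h i ∧ h i ≤ N) → ∀ S : ℝ, cs ≤ S → ∀ y₁ y₂ : ℕ, WinV N h y₁ y₂ →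
      (N : ℝ) / Real.log N ^ A ≤ (y₂ : ℝ) - y₁ →
      (99 / 100 * (137 / 1000)) ^ J.card * ∑ n ∈ Ioc y₁ y₂, la n *
        ∏ i, modF J (fun _ => pc N κ σ) N (zz N E) i (n + uu N h i - N) - N / Real.log N ^ (A + 1) ≤
        ∑ n ∈ Ioc y₁ y₂, la n * ∏ i, trueF J (fun _ => pc N κ σ) i (n + uu N h i - N) →
      |∑ n ∈ Ioc y₁ y₂, la n * ∏ i, lamz (zz N E) (n + uu N h i - N) - S * ((y₂ : ℝ) - y₁)| ≤
        N / Real.log N ^ (A + 1) →
      (13 / 100) ^ J.card * (M : ℝ) ^ (k - J.card) * (S * ((y₂ : ℝ) - y₁) / Real.log N ^ (k + 1)) ≤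
        cntV ρ N J h y₁ y₂ := by
  obtain ⟨σ, hσd⟩ : ∃ σ : ℝ, σ = min ρ (1 / 2) / 2 := ⟨_, rfl⟩
  have hmin : 0 < min ρ (1 / 2) := lt_min hρ (by norm_num)
  have hσ0 : 0 < σ := by rw [hσd]; linarith
  have hσρ : 2 * σ ≤ ρ := by rw [hσd]; linarith [min_le_left ρ (1 / 2)]
  have hσ4 : σ ≤ 1 / 4 := by rw [hσd]; linarith [min_le_right ρ (1 / 2)]
  obtain ⟨κ, hκd⟩ : ∃ κ : ℝ, κ = σ * Real.exp (-((2 * (M + 1) : ℕ) + 1 : ℝ)) := ⟨_, rfl⟩
  have hκ0 : 0 < κ := by rw [hκd]; positivity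
  have hκσ : κ < σ := by
    rw [hκd]
    have : Real.exp (-((2 * (M + 1) : ℕ) + 1 : ℝ)) < 1 := by
      rw [Real.exp_lt_one_iff]
      have : (0 : ℝ) ≤ ((2 * (M + 1) : ℕ) : ℝ) := Nat.cast_nonneg _
      linarith
    nlinarith
  have hlogκ : ((2 * (M + 1) : ℕ) : ℝ) + 1 ≤ Real.log (σ / κ) := by
    have e : σ / κ = Real.exp ((2 * (M + 1) : ℕ) + 1 : ℝ) := by
      rw [hκd, Real.exp_neg]
      field_simp
    rw [e, Real.log_exp]
  obtain ⟨N₁, h1⟩ := mert_low hκ0 hσ0 hlogκ hκσ (by linarith)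
  refine ⟨κ, σ, hκ0, hσ0, by linarith, hσ4, fun cs hcs => ?_⟩
  obtain ⟨g0, hg0⟩ : ∃ g0 : ℝ, g0 = (13 / 100) ^ k := ⟨_, rfl⟩
  have hg00 : 0 < g0 := by rw [hg0]; positivity
  have hg01 : g0 ≤ 1 := by rw [hg0]; exact pow_le_one₀ (by norm_num) (by norm_num)
  obtain ⟨N₂, h2⟩ := log2pow k
  obtain ⟨N₃, h3⟩ := Pool.Agent.R462.GS.evL (140 / (cs * g0) + 1)
  obtain ⟨N₄, h4⟩ := Pool.Agent.R462.GS.evlog (A + k + 3) ((k + 1) * 32) (1 / 4) (by norm_num)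
  refine ⟨N₁ + N₂ + N₃ + N₄ + 2, fun N hN E J h hh S hS y₁ y₂ hw hΔ hlow hmain => ?_⟩
  have hN1 : 1 ≤ N := by omega
  have hW := h1 N (by omega)
  obtain ⟨l1, l2⟩ := h2 N (by omega)
  have hl := h3 N (by omega)
  have hp := h4 N (by omega)
  have hN0 : (0 : ℝ) < N := by exact_mod_cast (by omega : 0 < N)
  have hN1r : (1 : ℝ) ≤ N := by exact_mod_cast hN1
  have hup := cnt_le (κ := κ) (ρ := ρ) (by omega) hσ0
    (Real.rpow_le_rpow_of_exponent_le hN1r (by linarith) : (N : ℝ) ^ σ ≤ (N : ℝ) ^ ρ) J h hh hw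
  have hjk : J.card ≤ k := by
    have := card_le_univ J
    rwa [Fintype.card_fin] at this
  push_cast at hW
  have hcoef := coefG (M := M) hk hjk (W := Vd N (pc N κ σ)) (by linarith)
  have hmodF : ∑ n ∈ Ioc y₁ y₂, la n * ∏ i, modF J (fun _ => pc N κ σ) N (zz N E) i (n + uu N h i - N) =
      Vd N (pc N κ σ) ^ (k - J.card) * ∑ n ∈ Ioc y₁ y₂, la n * ∏ i, lamz (zz N E) (n + uu N h i - N) := by
    rw [mul_sum]
    refine sum_congr rfl fun n _ => ?_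
    rw [prod_modF J (pc N κ σ) N (zz N E) fun i => n + uu N h i - N]
    ring
  rw [hmodF] at hlow
  obtain ⟨T, hT⟩ : ∃ T, T = ∑ n ∈ Ioc y₁ y₂, la n * ∏ i, lamz (zz N E) (n + uu N h i - N) := ⟨_, rfl⟩
  have hT0 : 0 ≤ T := by
    rw [hT]
    exact sum_nonneg fun n _ => mul_nonneg (la_nn n) (prod_nonneg fun i _ => Pool.Agent.J4H40.lamz_nn _ _)
  rw [← hT] at hlow hmain
  obtain ⟨Q, hQ⟩ : ∃ Q, Q = ∑ n ∈ Ioc y₁ y₂, la n * ∏ i, trueF J (fun _ => pc N κ σ) i (n + uu N h i - N) := ⟨_, rfl⟩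
  rw [← hQ] at hlow hup
  obtain ⟨C, hC⟩ : ∃ C : ℝ, C = (cntV ρ N J h y₁ y₂ : ℕ) := ⟨_, rfl⟩
  rw [← hC] at hup ⊢
  have hC0 : 0 ≤ C := by rw [hC]; positivity
  obtain ⟨Δ, hΔd⟩ : ∃ Δ : ℝ, Δ = (y₂ : ℝ) - y₁ := ⟨_, rfl⟩
  rw [← hΔd] at hΔ hmain ⊢
  obtain ⟨G, hG⟩ : ∃ G : ℝ, G = (13 / 100) ^ J.card * ((M : ℝ) + 1) ^ (k - J.card) := ⟨_, rfl⟩
  rw [← hG] at hcoef
  have hM0 : (0 : ℝ) ≤ M := Nat.cast_nonneg M
  have hGg : g0 ≤ G := by
    rw [hG, hg0]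
    calc ((13 : ℝ) / 100) ^ k ≤ (13 / 100) ^ J.card := pow_le_pow_of_le_one (by norm_num) (by norm_num) hjk
      _ = (13 / 100) ^ J.card * 1 := (mul_one _).symm
      _ ≤ _ := mul_le_mul_of_nonneg_left (one_le_pow₀ (by linarith)) (by positivity)
  have hG0 : 0 < G := by linarith
  obtain ⟨L, hL⟩ : ∃ L, L = Real.log (2 * N : ℕ) := ⟨_, rfl⟩
  obtain ⟨l, hld⟩ : ∃ l, l = Real.log (N : ℝ) := ⟨_, rfl⟩
  rw [← hL] at l1 l2 hup
  rw [← hld] at l1 l2 hl hp hΔ hlow hmain ⊢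
  have hcg : 0 < cs * g0 := by positivity
  have hl140 : 140 ≤ l * (cs * g0) := by
    have h5 : 140 / (cs * g0) ≤ l := by linarith
    rwa [div_le_iff₀ hcg] at h5
  have hl1 : 1 ≤ l := by
    have : 0 < 140 / (cs * g0) := by positivity
    linarith
  have hl0 : 0 < l := by linarith
  have hL0 : 0 ≤ L := by rw [hL]; exact Real.log_natCast_nonneg _
  obtain ⟨e, he⟩ : ∃ e : ℝ, e = N / l ^ (A + 1) := ⟨_, rfl⟩
  have he0 : 0 < e := by rw [he]; positivity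
  rw [← he] at hlow hmain
  have hΔe : e * l ≤ Δ := by
    have e1 : e * l = N / l ^ A := by
      rw [he, pow_succ]
      field_simp
    rw [e1]
    exact hΔ
  -- the error of the prime powers
  have herr : L ^ (k + 1) * ((k + 1) * ((N : ℝ) ^ σ * (4 * √((2 * N : ℕ) : ℝ) * L))) ≤ e := by
    have k1 : (N : ℝ) ^ σ ≤ (N : ℝ) ^ (1 / 4 : ℝ) := Real.rpow_le_rpow_of_exponent_le hN1r hσ4
    have k2 : √((2 * N : ℕ) : ℝ) ≤ 2 * (N : ℝ) ^ (1 / 2 : ℝ) := by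
      rw [← Real.sqrt_eq_rpow]
      apply Real.sqrt_le_iff.2
      constructor
      · positivity
      · rw [mul_pow, Real.sq_sqrt hN0.le]
        push_cast
        linarith
    have k3 : L ^ (k + 1) ≤ 2 * l ^ (k + 1) := by
      have : 0 < l ^ (k + 1) := by positivity
      linarith
    rw [he, le_div_iff₀ (by positivity)]
    calc L ^ (k + 1) * ((k + 1) * ((N : ℝ) ^ σ * (4 * √((2 * N : ℕ) : ℝ) * L))) * l ^ (A + 1) ≤
          2 * l ^ (k + 1) * ((k + 1) * ((N : ℝ) ^ (1 / 4 : ℝ) * (4 * (2 * (N : ℝ) ^ (1 / 2 : ℝ)) * (2 * l)))) *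
            l ^ (A + 1) := by
          gcongr
      _ = (N : ℝ) ^ (1 / 4 : ℝ) * (N : ℝ) ^ (1 / 2 : ℝ) * ((k + 1) * 32 * l ^ (A + k + 3)) := by
          rw [show A + k + 3 = (k + 1) + (A + 1) + 1 by ring, pow_add, pow_add, pow_one]
          ring
      _ ≤ (N : ℝ) ^ (1 / 4 : ℝ) * (N : ℝ) ^ (1 / 2 : ℝ) * (N : ℝ) ^ (1 / 4 : ℝ) := by gcongr
      _ = N := by
          rw [← Real.rpow_add hN0, ← Real.rpow_add hN0]
          norm_num
  have hm1 := (abs_le.1 hmain).1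
  have hTS : S * Δ - e ≤ T := by linarith
  have hQ1 : 104 / 100 * G * (S * Δ - e) - e ≤ Q := by
    have k1 : 104 / 100 * G * (S * Δ - e) ≤ 104 / 100 * G * T := mul_le_mul_of_nonneg_left hTS (by positivity)
    have k2 := mul_le_mul_of_nonneg_right hcoef hT0
    have k3 : (99 / 100 * (137 / 1000)) ^ J.card * (Vd N (pc N κ σ) ^ (k - J.card) * T) =
        (99 / 100 * (137 / 1000)) ^ J.card * Vd N (pc N κ σ) ^ (k - J.card) * T := by ring
    rw [k3] at hlow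
    linarith
  have hQ2 : Q ≤ 101 / 100 * l ^ (k + 1) * C + e := by
    have k1 : L ^ (k + 1) * C ≤ 101 / 100 * l ^ (k + 1) * C := mul_le_mul_of_nonneg_right l1 hC0
    rw [mul_add] at hup
    linarith
  have hΔ0 : 0 < Δ := lt_of_lt_of_le (by positivity) hΔe
  have hfin : G * (S * Δ) ≤ l ^ (k + 1) * C := by
    have hcsΔ : cs * Δ ≤ S * Δ := mul_le_mul_of_nonneg_right hS hΔ0.le
    have k1 : 140 * e ≤ g0 * (S * Δ) := by
      calc 140 * e ≤ l * (cs * g0) * e := mul_le_mul_of_nonneg_right hl140 he0.le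
        _ = g0 * (cs * (e * l)) := by ring
        _ ≤ g0 * (cs * Δ) := by gcongr
        _ ≤ g0 * (S * Δ) := by gcongr
    have hSΔ : 0 ≤ S * Δ := by
      have : 0 < cs * Δ := by positivity
      linarith
    have k2 : 140 * e ≤ S * Δ := by nlinarith
    have k3 : 140 * e ≤ G * (S * Δ) := k1.trans (mul_le_mul_of_nonneg_right hGg hSΔ)
    have k4 : G * (140 * e) ≤ G * (S * Δ) := mul_le_mul_of_nonneg_left k2 hG0.le
    nlinarith
  have hSΔ0 : 0 ≤ S * Δ := by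
    have : 0 < S := lt_of_lt_of_le hcs hS
    positivity
  have hMG : (13 / 100) ^ J.card * (M : ℝ) ^ (k - J.card) ≤ G := by
    rw [hG]
    apply mul_le_mul_of_nonneg_left _ (by positivity)
    exact pow_le_pow_left₀ hM0 (by linarith) _
  calc (13 / 100) ^ J.card * (M : ℝ) ^ (k - J.card) * (S * Δ / l ^ (k + 1)) ≤ G * (S * Δ / l ^ (k + 1)) :=
        mul_le_mul_of_nonneg_right hMG (by positivity)
    _ = G * (S * Δ) / l ^ (k + 1) := by ring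
    _ ≤ C := by
        rw [div_le_iff₀ (by positivity)]
        linarith

end Pool.Agent.J4H40
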